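import Mathlib

/-!
# Eventual surjectivity of polynomial matrices

`DegLE p n` (`n : ℤ`): all coefficients of `p` of index `> n` vanish.  `lc p n`: the coefficient
of index `n` (`0` for `n < 0`).
`evSurj`: let `M` be a matrix over `k[X]`, `k` algebraically closed, with `DegLE (M q v) (d q - e v)`
whose rows are independent at every point of `k` and at infinity.  Then for all large `N` every
`g` with `DegLE (g q) (d q + N)` is `M K` with `DegLE (K v) (e v + N)`.
-/

namespace Pool.Agent.Work.WRC

open Polynomial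

/-- All coefficients of index bigger than the integer `n` vanish. -/
def DegLE {k : Type*} [Semiring k] (p : k[X]) (n : ℤ) : Prop :=
  ∀ i : ℕ, n < i → p.coeff i = 0

/-- The coefficient of index `n`. -/
def lc {k : Type*} [Semiring k] (p : k[X]) (n : ℤ) : k :=
  if 0 ≤ n then p.coeff n.toNat else 0

section
variable {k : Type*} [Semiring k]

theorem DegLE.zero (n : ℤ) : DegLE (0 : k[X]) n := fun _ _ => coeff_zero _

theorem DegLE.eq_zero {p : k[X]} {n : ℤ} (h : DegLE p n) (hn : n < 0) : p = 0 := by
  ext i
  rw [coeff_zero]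
  exact h i (by omega)

theorem DegLE.mono {p : k[X]} {m n : ℤ} (h : DegLE p m) (hmn : m ≤ n) : DegLE p n :=
  fun i hi => h i (by omega)

theorem DegLE.add {p q : k[X]} {n : ℤ} (hp : DegLE p n) (hq : DegLE q n) : DegLE (p + q) n := by
  intro i hi
  rw [coeff_add, hp i hi, hq i hi, add_zero]

theorem DegLE.sum {ι : Type*} {s : Finset ι} {p : ι → k[X]} {n : ℤ}
    (h : ∀ i ∈ s, DegLE (p i) n) : DegLE (∑ i ∈ s, p i) n := by
  intro j hj
  rw [finsetSum_coeff]
  exact Finset.sum_eq_zero fun i hi => h i hi j hj

theorem DegLE.mul {p q : k[X]} {m n : ℤ} (hp : DegLE p m) (hq : DegLE q n) :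
    DegLE (p * q) (m + n) := by
  intro i hi
  rw [coeff_mul]
  refine Finset.sum_eq_zero fun x hx => ?_
  have hx' : x.1 + x.2 = i := by simpa using hx
  by_cases h1 : m < x.1
  · rw [hp x.1 h1, zero_mul]
  · rw [hq x.2 (by omega), mul_zero]

theorem DegLE.C (c : k) {n : ℤ} (hn : 0 ≤ n) : DegLE (C c) n := by
  intro i hi
  rw [coeff_C_of_ne_zero (by omega)]

theorem DegLE.monomial (c : k) (i : ℕ) : DegLE (monomial i c) (i : ℤ) := by
  intro j hj
  rw [coeff_monomial, if_neg (by omega)]

theorem degLE_iff {p : k[X]} {n : ℕ} : DegLE p (n : ℤ) ↔ p.natDegree ≤ n := by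
  rw [natDegree_le_iff_coeff_eq_zero]
  constructor
  · intro h i hi
    exact h i (by exact_mod_cast hi)
  · intro h i hi
    exact h i (by exact_mod_cast hi)

theorem DegLE.natDegree (p : k[X]) : DegLE p (p.natDegree : ℤ) := degLE_iff.2 le_rfl

theorem lc_of_neg {p : k[X]} {n : ℤ} (hn : n < 0) : lc p n = 0 := if_neg (by omega)

theorem lc_of_nat {p : k[X]} (n : ℕ) : lc p (n : ℤ) = p.coeff n := by
  unfold lc
  rw [if_pos (by omega), Int.toNat_natCast]

theorem lc_mul {p q : k[X]} {m n : ℤ} (hp : DegLE p m) (hq : DegLE q n) :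
    lc (p * q) (m + n) = lc p m * lc q n := by
  by_cases hm : 0 ≤ m
  · by_cases hn : 0 ≤ n
    · obtain ⟨m, rfl⟩ := Int.eq_ofNat_of_zero_le hm
      obtain ⟨n, rfl⟩ := Int.eq_ofNat_of_zero_le hn
      rw [← Nat.cast_add, lc_of_nat, lc_of_nat, lc_of_nat]
      exact coeff_mul_add_eq_of_natDegree_le (degLE_iff.1 hp) (degLE_iff.1 hq)
    · rw [hq.eq_zero (by omega), mul_zero]
      simp [lc]
  · rw [hp.eq_zero (by omega), zero_mul]
    simp [lc]

theorem lc_sum {ι : Type*} {s : Finset ι} {p : ι → k[X]} {n : ℤ} :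
    lc (∑ i ∈ s, p i) n = ∑ i ∈ s, lc (p i) n := by
  unfold lc
  by_cases h : 0 ≤ n
  · simp only [if_pos h, finsetSum_coeff]
  · simp only [if_neg h, Finset.sum_const_zero]

end

theorem DegLE.neg {k : Type*} [Ring k] {p : k[X]} {n : ℤ} (h : DegLE p n) : DegLE (-p) n := by
  intro i hi
  rw [coeff_neg, h i hi, neg_zero]

theorem DegLE.sub {k : Type*} [Ring k] {p q : k[X]} {n : ℤ} (hp : DegLE p n) (hq : DegLE q n) :
    DegLE (p - q) n := by
  rw [sub_eq_add_neg]; exact hp.add hq.neg

/-- Dropping the top coefficient. -/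
theorem DegLE.pred {k : Type*} [Semiring k] {p : k[X]} {n : ℤ} (h : DegLE p n)
    (h0 : lc p n = 0) : DegLE p (n - 1) := by
  intro i hi
  by_cases h1 : n < i
  · exact h i h1
  · have h2 : n = (i : ℤ) := by omega
    rw [h2, lc_of_nat] at h0
    exact h0

section
variable {k : Type*} [Field k] {Q V : Type*} [Fintype Q] [Fintype V]

/-- Row independence gives surjectivity. -/
theorem surj_of_rows (m : Q → V → k)
    (h : ∀ c : Q → k, (∀ v, ∑ q, c q * m q v = 0) → c = 0) (g : Q → k) :
    ∃ x : V → k, ∀ q, ∑ v, m q v * x v = g q := by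
  classical
  let f : (V → k) →ₗ[k] (Q → k) :=
    { toFun := fun x q => ∑ v, m q v * x v
      map_add' := fun x y => by
        funext q; simp only [Pi.add_apply, mul_add, Finset.sum_add_distrib]
      map_smul' := fun c x => by
        funext q
        simp only [Pi.smul_apply, smul_eq_mul, RingHom.id_apply, Finset.mul_sum]
        exact Finset.sum_congr rfl fun v _ => by ring }
  have hf : Function.Surjective f := by
    rw [← LinearMap.range_eq_top]
    by_contra hne
    obtain ⟨φ, hφ0, hφ⟩ := Submodule.exists_dual_map_eq_bot_of_lt_top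
      (lt_of_le_of_ne le_top hne) inferInstance
    apply hφ0
    have hc : (fun q => φ (Pi.single q 1)) = 0 := by
      refine h _ fun v => ?_
      have h1 : φ (f (Pi.single v 1)) = 0 := by
        have : φ (f (Pi.single v 1)) ∈ Submodule.map φ (LinearMap.range f) :=
          Submodule.mem_map_of_mem (LinearMap.mem_range_self f _)
        rw [hφ] at this
        exact (Submodule.mem_bot k).1 this
      have h2 : f (Pi.single v 1) = ∑ q, m q v • (Pi.single q (1 : k) : Q → k) := by
        funext q
        show ∑ w, m q w * (Pi.single v (1 : k) : V → k) w = _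
        rw [Finset.sum_eq_single v (fun w _ hw => by rw [Pi.single_eq_of_ne hw, mul_zero])
          (fun h => absurd (Finset.mem_univ v) h), Pi.single_eq_same, mul_one,
          Finset.sum_apply, Finset.sum_eq_single q (fun w _ hw => by
            rw [Pi.smul_apply, Pi.single_eq_of_ne (Ne.symm hw), smul_zero])
          (fun h => absurd (Finset.mem_univ q) h), Pi.smul_apply, Pi.single_eq_same, smul_eq_mul,
          mul_one]
      rw [h2, map_sum] at h1
      rw [← h1]
      exact Finset.sum_congr rfl fun q _ => by rw [map_smul, smul_eq_mul, mul_comm]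
    refine LinearMap.ext fun x => ?_
    have h3 : x = ∑ q, x q • (Pi.single q (1 : k) : Q → k) := by
      funext q
      rw [Finset.sum_apply, Finset.sum_eq_single q (fun w _ hw => by
            rw [Pi.smul_apply, Pi.single_eq_of_ne (Ne.symm hw), smul_zero])
          (fun h => absurd (Finset.mem_univ q) h), Pi.smul_apply, Pi.single_eq_same, smul_eq_mul,
          mul_one]
    rw [h3, map_sum, LinearMap.zero_apply]
    refine Finset.sum_eq_zero fun q _ => ?_
    rw [map_smul]
    have := congrFun hc q
    simp only [Pi.zero_apply] at this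
    rw [this, smul_zero]
  obtain ⟨x, hx⟩ := hf g
  exact ⟨x, fun q => congrFun hx q⟩

/-- A maximal ideal of `k[X]` is the kernel of an evaluation. -/
theorem exists_eval [IsAlgClosed k] (m : Ideal k[X]) (hm : m.IsMaximal) :
    ∃ a : k, ∀ r : k[X], r ∈ m ↔ r.eval a = 0 := by
  obtain ⟨p, hp⟩ := (IsPrincipalIdealRing.principal m).principal
  have hp' : m = Ideal.span {p} := hp
  have h1 : ∃ a : k, p.eval a = 0 := by
    by_cases h0 : p = 0
    · exact ⟨0, by rw [h0, eval_zero]⟩
    · refine IsAlgClosed.exists_root p fun hd => hm.ne_top ?_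
      rw [hp', Ideal.span_singleton_eq_top]
      exact isUnit_iff_degree_eq_zero.2 hd
  obtain ⟨a, ha⟩ := h1
  have h2 : m ≤ RingHom.ker (evalRingHom a) := by
    rw [hp', Ideal.span_singleton_le_iff_mem, RingHom.mem_ker]
    exact ha
  have h3 : m = RingHom.ker (evalRingHom a) :=
    hm.eq_of_le (RingHom.ker_ne_top _) h2
  refine ⟨a, fun r => ?_⟩
  rw [h3, RingHom.mem_ker]
  rfl

/-- Surjectivity over `k[X]` from surjectivity at all points. -/
theorem surj_poly [IsAlgClosed k] (M : Q → V → k[X])
    (h : ∀ a : k, ∀ c : Q → k, (∀ v, ∑ q, c q * (M q v).eval a = 0) → c = 0) (g : Q → k[X]) :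
    ∃ x : V → k[X], ∀ q, ∑ v, M q v * x v = g q := by
  classical
  let f : (V → k[X]) →ₗ[k[X]] (Q → k[X]) :=
    { toFun := fun x q => ∑ v, M q v * x v
      map_add' := fun x y => by
        funext q; simp only [Pi.add_apply, mul_add, Finset.sum_add_distrib]
      map_smul' := fun c x => by
        funext q
        simp only [Pi.smul_apply, smul_eq_mul, RingHom.id_apply, Finset.mul_sum]
        exact Finset.sum_congr rfl fun v _ => by ring }
  have hf : Function.Surjective f := by
    rw [← LinearMap.range_eq_top]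
    by_contra hne
    obtain ⟨P, hP, hle⟩ := (eq_top_or_exists_le_coatom (LinearMap.range f)).resolve_left hne
    have hs : IsSimpleModule k[X] ((Q → k[X]) ⧸ P) := isSimpleModule_iff_isCoatom.2 hP
    obtain ⟨m, hm, ⟨e⟩⟩ := isSimpleModule_iff_quot_maximal.1 hs
    obtain ⟨a, ha⟩ := exists_eval m hm
    -- the functional
    let φ : (Q → k[X]) →ₗ[k[X]] (k[X] ⧸ m) := e.toLinearMap ∘ₗ P.mkQ
    have hφ : ∀ x, φ x = 0 ↔ x ∈ P := by
      intro x
      show e (P.mkQ x) = 0 ↔ _
      rw [LinearEquiv.map_eq_zero_iff, Submodule.mkQ_apply, Submodule.Quotient.mk_eq_zero]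
    have hr : ∀ q, ∃ r : k[X], φ (Pi.single q 1) = Ideal.Quotient.mk m r := fun q => by
      obtain ⟨r, hr⟩ := Ideal.Quotient.mk_surjective (φ (Pi.single q 1))
      exact ⟨r, hr.symm⟩
    choose r hr using hr
    have hexp : ∀ x : Q → k[X], φ x = Ideal.Quotient.mk m (∑ q, x q * r q) := by
      intro x
      have h3 : x = ∑ q, x q • (Pi.single q (1 : k[X]) : Q → k[X]) := by
        funext q
        rw [Finset.sum_apply, Finset.sum_eq_single q (fun w _ hw => by
            rw [Pi.smul_apply, Pi.single_eq_of_ne (Ne.symm hw), smul_zero])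
          (fun h => absurd (Finset.mem_univ q) h), Pi.smul_apply, Pi.single_eq_same, smul_eq_mul,
          mul_one]
      conv_lhs => rw [h3]
      rw [map_sum, map_sum]
      refine Finset.sum_congr rfl fun q _ => ?_
      rw [map_smul, hr, map_mul]
      rfl
    have hc : (fun q => (r q).eval a) = 0 := by
      refine h a _ fun v => ?_
      have h1 : φ (f (Pi.single v 1)) = 0 := (hφ _).2 (hle (LinearMap.mem_range_self f _))
      rw [hexp, Ideal.Quotient.eq_zero_iff_mem, ha, eval_finsetSum] at h1
      rw [← h1]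
      refine Finset.sum_congr rfl fun q _ => ?_
      rw [eval_mul, mul_comm]
      congr 2
      show M q v = ∑ w, M q w * (Pi.single v (1 : k[X]) : V → k[X]) w
      rw [Finset.sum_eq_single v (fun w _ hw => by rw [Pi.single_eq_of_ne hw, mul_zero])
          (fun h => absurd (Finset.mem_univ v) h), Pi.single_eq_same, mul_one]
    refine hP.1 ((Submodule.eq_top_iff').2 fun x => (hφ x).1 ?_)
    rw [hexp, Ideal.Quotient.eq_zero_iff_mem, ha, eval_finsetSum]
    refine Finset.sum_eq_zero fun q _ => ?_
    have := congrFun hc q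
    simp only [Pi.zero_apply] at this
    rw [eval_mul, this, mul_zero]
  obtain ⟨x, hx⟩ := hf g
  exact ⟨x, fun q => congrFun hx q⟩

/-- **Eventual surjectivity.** -/
theorem evSurj [IsAlgClosed k] (M : Q → V → k[X]) (d : Q → ℤ) (e : V → ℤ)
    (hM : ∀ q v, DegLE (M q v) (d q - e v))
    (hpt : ∀ a : k, ∀ c : Q → k, (∀ v, ∑ q, c q * (M q v).eval a = 0) → c = 0)
    (hinf : ∀ c : Q → k, (∀ v, ∑ q, c q * lc (M q v) (d q - e v) = 0) → c = 0) :
    ∃ N0 : ℤ, ∀ N : ℤ, N0 ≤ N → ∀ g : Q → k[X], (∀ q, DegLE (g q) (d q + N)) →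
      ∃ x : V → k[X], (∀ v, DegLE (x v) (e v + N)) ∧ ∀ q, ∑ v, M q v * x v = g q := by
  classical
  -- preimages of the basis vectors
  have hU : ∀ q : Q, ∃ U : V → k[X], ∀ q', ∑ v, M q' v * U v = if q = q' then 1 else 0 :=
    fun q => surj_poly M hpt fun q' => if q = q' then 1 else 0
  choose U hU using hU
  -- a level at which the reduction at infinity works
  obtain ⟨N1, hN1⟩ : ∃ N1 : ℤ, ∀ v, 0 ≤ e v + N1 := by
    refine ⟨∑ v, |e v|, fun v => ?_⟩
    have := Finset.single_le_sum (f := fun v => |e v|) (fun _ _ => abs_nonneg _)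
      (Finset.mem_univ v)
    have := neg_abs_le (e v)
    omega
  -- a bound for the degrees of the preimages at level `N1`
  obtain ⟨B, hB⟩ : ∃ B : ℤ, ∀ q v, d q + N1 + (U q v).natDegree ≤ B := by
    refine ⟨∑ q, ∑ v, |d q + N1 + (U q v).natDegree|, fun q v => ?_⟩
    have h1 := Finset.single_le_sum (f := fun v => |d q + N1 + (U q v).natDegree|)
      (fun _ _ => abs_nonneg _) (Finset.mem_univ v)
    have h2 := Finset.single_le_sum (f := fun q => ∑ v, |d q + N1 + (U q v).natDegree|)
      (fun _ _ => Finset.sum_nonneg fun _ _ => abs_nonneg _) (Finset.mem_univ q)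
    have h3 := le_abs_self (d q + N1 + ((U q v).natDegree : ℤ))
    exact h3.trans (h1.trans h2)
  obtain ⟨N0, hN0, hN01⟩ : ∃ N0 : ℤ, (∀ v, B ≤ e v + N0) ∧ N1 ≤ N0 := by
    refine ⟨|B| + |N1| + ∑ v, |e v|, fun v => ?_, ?_⟩
    · have := Finset.single_le_sum (f := fun v => |e v|) (fun _ _ => abs_nonneg _)
        (Finset.mem_univ v)
      have := neg_abs_le (e v)
      have := le_abs_self B
      have := abs_nonneg N1
      omega
    · have := Finset.sum_nonneg (f := fun v => |e v|) (s := Finset.univ)
        (fun _ _ => abs_nonneg _)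
      have := le_abs_self N1
      have := abs_nonneg B
      omega
  -- the statement for `g` of level `N1 + j` with solution of level `N1 + j'`, `j'` large
  have key : ∀ (L : ℤ), N0 ≤ L → ∀ j : ℕ, N1 + j ≤ L → ∀ g : Q → k[X],
      (∀ q, DegLE (g q) (d q + (N1 + j))) →
      ∃ x : V → k[X], (∀ v, DegLE (x v) (e v + L)) ∧ ∀ q, ∑ v, M q v * x v = g q := by
    intro L hL j
    induction j with
    | zero =>
      intro _ g hg
      refine ⟨fun v => ∑ q, g q * U q v, fun v => ?_, fun q' => ?_⟩
      · refine DegLE.sum fun q _ => ?_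
        refine ((hg q).mul (DegLE.natDegree (U q v))).mono ?_
        have h1 := hB q v
        have h2 := hN0 v
        push_cast
        omega
      · calc ∑ v, M q' v * ∑ q, g q * U q v
            = ∑ v, ∑ q, M q' v * (g q * U q v) := by
              refine Finset.sum_congr rfl fun v _ => ?_
              rw [Finset.mul_sum]
          _ = ∑ q, ∑ v, M q' v * (g q * U q v) := Finset.sum_comm
          _ = ∑ q, g q * ∑ v, M q' v * U q v := by
              refine Finset.sum_congr rfl fun q _ => ?_
              rw [Finset.mul_sum]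
              exact Finset.sum_congr rfl fun v _ => by ring
          _ = g q' := by
              simp only [hU, mul_ite, mul_one, mul_zero]
              rw [Finset.sum_ite_eq' Finset.univ q' g, if_pos (Finset.mem_univ _)]
    | succ j ih =>
      intro hj g hg
      obtain ⟨κ, hκ⟩ := surj_of_rows (fun q v => lc (M q v) (d q - e v)) hinf
        fun q => lc (g q) (d q + (N1 + (j + 1 : ℕ)))
      -- top part
      let t : V → k[X] := fun v => monomial (e v + (N1 + (j + 1 : ℕ))).toNat (κ v)
      have ht : ∀ v, ((e v + (N1 + (j + 1 : ℕ))).toNat : ℤ) = e v + (N1 + (j + 1 : ℕ)) :=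
        fun v => Int.toNat_of_nonneg (by have := hN1 v; push_cast; omega)
      have htd : ∀ v, DegLE (t v) (e v + (N1 + (j + 1 : ℕ))) := fun v => by
        have := DegLE.monomial (κ v) (e v + (N1 + (j + 1 : ℕ))).toNat
        rwa [ht v] at this
      have htl : ∀ v, lc (t v) (e v + (N1 + (j + 1 : ℕ))) = κ v := fun v => by
        rw [← ht v, lc_of_nat, coeff_monomial, if_pos rfl]
      obtain ⟨x, hx, hxe⟩ := ih (by push_cast at hj ⊢; omega)
        (fun q => g q - ∑ v, M q v * t v) (fun q => by
          have h1 : DegLE (∑ v, M q v * t v) (d q + (N1 + (j + 1 : ℕ))) := by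
            refine DegLE.sum fun v _ => ?_
            exact ((hM q v).mul (htd v)).mono (by omega)
          have h2 : lc (g q - ∑ v, M q v * t v) (d q + (N1 + (j + 1 : ℕ))) = 0 := by
            have h3 : lc (∑ v, M q v * t v) (d q + (N1 + (j + 1 : ℕ))) =
                lc (g q) (d q + (N1 + (j + 1 : ℕ))) := by
              rw [← hκ q, lc_sum]
              refine Finset.sum_congr rfl fun v _ => ?_
              have h4 := lc_mul (hM q v) (htd v)
              rw [htl] at h4
              rw [← h4]
              congr 1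
              omega
            have h5 : ∀ (p p' : k[X]) (n : ℤ), lc (p - p') n = lc p n - lc p' n := by
              intro p p' n
              unfold lc
              split_ifs
              · rw [coeff_sub]
              · rw [sub_zero]
            rw [h5, h3, sub_self]
          have h6 := ((hg q).sub h1).pred h2
          refine h6.mono ?_
          push_cast
          omega)
      refine ⟨fun v => t v + x v, fun v => ((htd v).mono (by omega)).add (hx v), fun q => ?_⟩
      show ∑ v, M q v * (t v + x v) = g q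
      rw [sub_eq_iff_eq_add'.1 (hxe q).symm, ← Finset.sum_add_distrib]
      exact Finset.sum_congr rfl fun v _ => by ring
  refine ⟨N0, fun N hN g hg => ?_⟩
  refine key N hN (N - N1).toNat ?_ g fun q => ?_
  · rw [Int.toNat_of_nonneg (by omega)]; omega
  · rw [Int.toNat_of_nonneg (by omega)]
    have : d q + (N1 + (N - N1)) = d q + N := by ring
    rw [this]
    exact hg q

end

end Pool.Agent.Work.WRC
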