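import Mathlib
import Pool.Agent.Work.MP_4329d7_ag_wrc.EvSurj

/-!
# Systems of equations in Cox coordinates

`Cox V Q X`: rays `ray v` in `ℤ^r`, for each equation `q` a finite set `supp q` of monomials with
characters `ch q x`, and exponents `e q x v = ⟨ch q x, ray v⟩ + h q v`.
For coefficients `c : Q → X → A` in a commutative ring `A`, `C.P c q` is the polynomial
`∑ x, c q x ∏ v, Y v ^ e q x v`.
-/

namespace Pool.Agent.Work.WRC

open MvPolynomial

/-- Combinatorial data of a system in Cox coordinates. -/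
structure Cox (V Q X : Type) where
  /-- rank of the lattice -/
  r : ℕ
  /-- the rays -/
  ray : V → Fin r → ℤ
  /-- the monomials of the equations -/
  supp : Q → Finset X
  /-- the characters of the monomials -/
  ch : Q → X → Fin r → ℤ
  /-- the support numbers -/
  h : Q → V → ℤ
  /-- the exponents -/
  e : Q → X → V → ℕ
  he : ∀ q, ∀ x ∈ supp q, ∀ v, (e q x v : ℤ) = ∑ i, ch q x i * ray v i + h q v

namespace Cox

variable {V Q X : Type} [Fintype V] (C : Cox V Q X)

/-- The polynomial of the equation `q`. -/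
noncomputable def P {A : Type*} [CommRing A] (c : Q → X → A) (q : Q) : MvPolynomial V A :=
  ∑ x ∈ C.supp q, monomial (Finsupp.equivFunOnFinite.symm (C.e q x)) (c q x)

/-- The value of the equation `q`. -/
noncomputable def F {A : Type*} [CommRing A] (c : Q → X → A) (q : Q) (Y : V → A) : A :=
  eval Y (C.P c q)

/-- The partial derivative of the equation `q` in the direction `w`. -/
noncomputable def J {A : Type*} [CommRing A] (c : Q → X → A) (q : Q) (w : V) (Y : V → A) : A :=
  eval Y (pderiv w (C.P c q))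

/-- Euler vectors. -/
def Eul {A : Type*} [CommRing A] (γ : V → A) : Prop :=
  ∀ i, ∑ v, (C.ray v i : A) * γ v = 0

/-- Types of vertical curves: integral Euler vectors. -/
def Rel (n : V → ℤ) : Prop := ∀ i, ∑ v, C.ray v i * n v = 0

/-- The degree of the equation `q` on a type. -/
def m (n : V → ℤ) (q : Q) : ℤ := ∑ v, n v * C.h q v

variable {C}

theorem F_eq {A : Type*} [CommRing A] (c : Q → X → A) (q : Q) (Y : V → A) :
    C.F c q Y = ∑ x ∈ C.supp q, c q x * ∏ v, Y v ^ C.e q x v := by
  unfold F P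
  rw [map_sum]
  refine Finset.sum_congr rfl fun x _ => ?_
  rw [eval_monomial, Finsupp.prod_fintype _ _ (fun i => pow_zero _)]
  rfl

theorem J_eq [DecidableEq V] {A : Type*} [CommRing A] (c : Q → X → A) (q : Q) (w : V)
    (Y : V → A) :
    C.J c q w Y = ∑ x ∈ C.supp q, c q x * (C.e q x w : A) *
      ∏ v, Y v ^ (C.e q x v - if v = w then 1 else 0) := by
  unfold J P
  rw [map_sum, map_sum]
  refine Finset.sum_congr rfl fun x _ => ?_
  rw [pderiv_monomial, eval_monomial, Finsupp.prod_fintype _ _ (fun i => pow_zero _)]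
  congr 1
  refine Finset.prod_congr rfl fun v _ => ?_
  congr 1
  rw [Finsupp.tsub_apply]
  simp only [Finsupp.single_apply]
  by_cases h : w = v
  · subst h; simp
  · rw [if_neg h, if_neg (fun h' => h h'.symm)]; rfl

theorem P_map {A B : Type*} [CommRing A] [CommRing B] (f : A →+* B) (c : Q → X → A) (q : Q) :
    MvPolynomial.map f (C.P c q) = C.P (fun q x => f (c q x)) q := by
  unfold P
  rw [map_sum]
  exact Finset.sum_congr rfl fun x _ => by rw [map_monomial]

theorem F_map {A B : Type*} [CommRing A] [CommRing B] (f : A →+* B) (c : Q → X → A) (q : Q)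
    (Y : V → A) : f (C.F c q Y) = C.F (fun q x => f (c q x)) q fun v => f (Y v) := by
  unfold F
  rw [← P_map f c q, eval_map, ← MvPolynomial.coe_eval₂Hom, eval, MvPolynomial.coe_eval₂Hom,
      MvPolynomial.coe_eval₂Hom, MvPolynomial.eval₂_comp_left]
  congr 1

theorem J_map {A B : Type*} [CommRing A] [CommRing B] (f : A →+* B) (c : Q → X → A) (q : Q)
    (w : V) (Y : V → A) : f (C.J c q w Y) = C.J (fun q x => f (c q x)) q w fun v => f (Y v) := by
  unfold J
  rw [← P_map f c q, pderiv_map, eval_map, ← MvPolynomial.coe_eval₂Hom, eval,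
      MvPolynomial.coe_eval₂Hom, MvPolynomial.coe_eval₂Hom, MvPolynomial.eval₂_comp_left]
  congr 1

/-- The exponents on a relation: all monomials have the same degree. -/
theorem rel_sum {n : V → ℤ} (hn : C.Rel n) {q : Q} {x : X} (hx : x ∈ C.supp q) :
    ∑ v, n v * (C.e q x v : ℤ) = C.m n q := by
  unfold m
  have h1 : ∀ v, n v * (C.e q x v : ℤ) = ∑ i, C.ch q x i * (C.ray v i * n v) + n v * C.h q v := by
    intro v
    rw [C.he q x hx v, mul_add, Finset.mul_sum]
    congr 1
    exact Finset.sum_congr rfl fun i _ => by ring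
  rw [Finset.sum_congr rfl fun v _ => h1 v, Finset.sum_add_distrib, Finset.sum_comm]
  have h2 : ∀ i, ∑ v, C.ch q x i * (C.ray v i * n v) = 0 := by
    intro i
    rw [← Finset.mul_sum, hn i, mul_zero]
  rw [Finset.sum_congr rfl fun i _ => h2 i, Finset.sum_const_zero, zero_add]

theorem eul_sum {A : Type*} [CommRing A] {γ : V → A} (hγ : C.Eul γ) {q : Q} {x : X}
    (hx : x ∈ C.supp q) : ∑ v, γ v * (C.e q x v : A) = ∑ v, γ v * (C.h q v : A) := by
  have h1 : ∀ v, γ v * (C.e q x v : A) =
      ∑ i, (C.ch q x i : A) * ((C.ray v i : A) * γ v) + γ v * (C.h q v : A) := by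
    intro v
    have h0 : ((C.e q x v : ℤ) : A) = ((∑ i, C.ch q x i * C.ray v i + C.h q v : ℤ) : A) := by
      rw [C.he q x hx v]
    push_cast at h0
    rw [h0, mul_add, Finset.mul_sum]
    congr 1
    exact Finset.sum_congr rfl fun i _ => by ring
  rw [Finset.sum_congr rfl fun v _ => h1 v, Finset.sum_add_distrib, Finset.sum_comm]
  have h2 : ∀ i, ∑ v, (C.ch q x i : A) * ((C.ray v i : A) * γ v) = 0 := by
    intro i
    rw [← Finset.mul_sum, hγ i, mul_zero]
  rw [Finset.sum_congr rfl fun i _ => h2 i, Finset.sum_const_zero, zero_add]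

/-- Homogeneity of the equations. -/
theorem F_hom {A : Type*} [CommRing A] (c : Q → X → A) {t : V → ℕ} (ht : C.Rel fun v => (t v : ℤ))
    {q : Q} {k : ℕ} (hk : (k : ℤ) = C.m (fun v => (t v : ℤ)) q) (z : A) (y : V → A) :
    C.F c q (fun v => z ^ t v * y v) = z ^ k * C.F c q y := by
  rw [F_eq, F_eq, Finset.mul_sum]
  refine Finset.sum_congr rfl fun x hx => ?_
  have h1 : ∑ v, t v * C.e q x v = k := by
    have := rel_sum ht hx
    rw [← hk] at this
    exact_mod_cast this
  have h2 : ∏ v, (z ^ t v * y v) ^ C.e q x v = z ^ k * ∏ v, y v ^ C.e q x v := by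
    simp only [mul_pow, Finset.prod_mul_distrib, ← pow_mul]
    rw [Finset.prod_pow_eq_pow_sum, h1]
  rw [h2]
  ring

/-- Homogeneity of the partial derivatives. -/
theorem J_hom [DecidableEq V] {A : Type*} [CommRing A] (c : Q → X → A) {t : V → ℕ}
    (ht : C.Rel fun v => (t v : ℤ))
    {q : Q} {k : ℕ} (hk : (k : ℤ) = C.m (fun v => (t v : ℤ)) q) (z : A) (y : V → A) (w : V) :
    C.J c q w (fun v => z ^ t v * y v) * z ^ t w = z ^ k * C.J c q w y := by
  rw [J_eq, J_eq, Finset.mul_sum, Finset.sum_mul]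
  refine Finset.sum_congr rfl fun x hx => ?_
  have h1 : ∑ v, t v * C.e q x v = k := by
    have := rel_sum ht hx
    rw [← hk] at this
    exact_mod_cast this
  by_cases hw : C.e q x w = 0
  · rw [hw]; simp
  have h2 : (∏ v, (z ^ t v * y v) ^ (C.e q x v - if v = w then 1 else 0)) * z ^ t w =
      z ^ k * ∏ v, y v ^ (C.e q x v - if v = w then 1 else 0) := by
    simp only [mul_pow, Finset.prod_mul_distrib, ← pow_mul]
    rw [Finset.prod_pow_eq_pow_sum, mul_right_comm, ← pow_add]
    congr 2
    have h3 : ∑ v, t v * (C.e q x v - if v = w then 1 else 0) + t w =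
        ∑ v, t v * C.e q x v := by
      rw [← Finset.add_sum_erase _ _ (Finset.mem_univ w),
        ← Finset.add_sum_erase _ (fun v => t v * C.e q x v) (Finset.mem_univ w)]
      have h4 : ∑ v ∈ Finset.univ.erase w, t v * (C.e q x v - if v = w then 1 else 0) =
          ∑ v ∈ Finset.univ.erase w, t v * C.e q x v := by
        refine Finset.sum_congr rfl fun v hv => ?_
        rw [if_neg (Finset.ne_of_mem_erase hv), Nat.sub_zero]
      rw [h4, if_pos rfl]
      obtain ⟨b, hb⟩ := Nat.exists_eq_succ_of_ne_zero hw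
      rw [hb]
      simp only [Nat.succ_sub_one, Nat.succ_eq_add_one]
      ring
    rw [h3, h1]
  calc _ = c q x * (C.e q x w : A) *
        ((∏ v, (z ^ t v * y v) ^ (C.e q x v - if v = w then 1 else 0)) * z ^ t w) := by ring
    _ = _ := by rw [h2]; ring

/-- Euler's relation. -/
theorem euler [DecidableEq V] {A : Type*} [CommRing A] (c : Q → X → A) {γ : V → A}
    (hγ : C.Eul γ) (q : Q) (Y : V → A) :
    ∑ w, C.J c q w Y * (γ w * Y w) = (∑ v, γ v * (C.h q v : A)) * C.F c q Y := by
  have h1 : ∀ w, C.J c q w Y * (γ w * Y w) =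
      ∑ x ∈ C.supp q, γ w * (C.e q x w : A) * (c q x * ∏ v, Y v ^ C.e q x v) := by
    intro w
    rw [J_eq, Finset.sum_mul]
    refine Finset.sum_congr rfl fun x _ => ?_
    by_cases hw : C.e q x w = 0
    · rw [hw]; simp
    have h2 : (∏ v, Y v ^ (C.e q x v - if v = w then 1 else 0)) * Y w =
        ∏ v, Y v ^ C.e q x v := by
      rw [← Finset.mul_prod_erase _ _ (Finset.mem_univ w),
        ← Finset.mul_prod_erase _ (fun v => Y v ^ C.e q x v) (Finset.mem_univ w)]
      have h4 : ∏ v ∈ Finset.univ.erase w, Y v ^ (C.e q x v - if v = w then 1 else 0) =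
          ∏ v ∈ Finset.univ.erase w, Y v ^ C.e q x v := by
        refine Finset.prod_congr rfl fun v hv => ?_
        rw [if_neg (Finset.ne_of_mem_erase hv), Nat.sub_zero]
      rw [h4, if_pos rfl]
      obtain ⟨b, hb⟩ := Nat.exists_eq_succ_of_ne_zero hw
      rw [hb]
      simp only [Nat.succ_sub_one, Nat.succ_eq_add_one]
      ring
    rw [← h2]
    ring
  rw [Finset.sum_congr rfl fun w _ => h1 w, Finset.sum_comm, F_eq, Finset.mul_sum]
  refine Finset.sum_congr rfl fun x hx => ?_
  rw [← Finset.sum_mul, eul_sum hγ hx]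

end Cox

end Pool.Agent.Work.WRC
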