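import Mathlib
import Pool.Agent.Work.MP_4329d7_ag_wrc.Cox

/-!
# Degrees of the equations and of their partial derivatives on polynomial vectors
-/

namespace Pool.Agent.Work.WRC

open Polynomial

section
variable {k : Type*} [CommRing k]

theorem DegLE.one : DegLE (1 : k[X]) 0 := by
  rw [← C_1]; exact DegLE.C 1 le_rfl

theorem lc_one : lc (1 : k[X]) 0 = 1 := by
  unfold lc; simp

theorem DegLE.pow {p : k[X]} {n : ℤ} (h : DegLE p n) (e : ℕ) : DegLE (p ^ e) (n * e) := by
  induction e with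
  | zero => simpa using DegLE.one (k := k)
  | succ e ih =>
    rw [pow_succ]
    refine (ih.mul h).mono (le_of_eq ?_)
    push_cast; ring

theorem lc_pow {p : k[X]} {n : ℤ} (h : DegLE p n) (e : ℕ) : lc (p ^ e) (n * e) = lc p n ^ e := by
  induction e with
  | zero => simpa using lc_one (k := k)
  | succ e ih =>
    rw [pow_succ, pow_succ, ← ih, ← lc_mul (h.pow e) h]
    congr 1
    push_cast; ring

theorem DegLE.prod {ι : Type*} [DecidableEq ι] {s : Finset ι} {p : ι → k[X]} {n : ι → ℤ}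
    (h : ∀ i ∈ s, DegLE (p i) (n i)) : DegLE (∏ i ∈ s, p i) (∑ i ∈ s, n i) := by
  induction s using Finset.induction_on with
  | empty => simpa using DegLE.one (k := k)
  | insert a s ha ih =>
    rw [Finset.prod_insert ha, Finset.sum_insert ha]
    exact (h a (Finset.mem_insert_self a s)).mul (ih fun i hi => h i (Finset.mem_insert_of_mem hi))

theorem lc_prod {ι : Type*} [DecidableEq ι] {s : Finset ι} {p : ι → k[X]} {n : ι → ℤ}
    (h : ∀ i ∈ s, DegLE (p i) (n i)) :
    lc (∏ i ∈ s, p i) (∑ i ∈ s, n i) = ∏ i ∈ s, lc (p i) (n i) := by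
  induction s using Finset.induction_on with
  | empty => simpa using lc_one (k := k)
  | insert a s ha ih =>
    rw [Finset.prod_insert ha, Finset.sum_insert ha, Finset.prod_insert ha,
      ← ih fun i hi => h i (Finset.mem_insert_of_mem hi)]
    exact lc_mul (h a (Finset.mem_insert_self a s))
      (DegLE.prod fun i hi => h i (Finset.mem_insert_of_mem hi))

theorem DegLE.natCast (a : ℕ) : DegLE (a : k[X]) 0 := by
  rw [← C_eq_natCast]; exact DegLE.C _ le_rfl

theorem lc_natCast (a : ℕ) : lc (a : k[X]) 0 = a := by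
  rw [← C_eq_natCast]
  unfold lc; simp

end

namespace Cox

variable {V Q X : Type} [Fintype V] {C : Cox V Q X} {k : Type*} [CommRing k]

theorem F_degLE {c : Q → X → k[X]} {n : V → ℤ} {d : ℤ} {q : Q}
    (hc : ∀ x ∈ C.supp q, DegLE (c q x) (d - ∑ v, n v * C.e q x v)) {Y : V → k[X]}
    (hY : ∀ v, DegLE (Y v) (n v)) : DegLE (C.F c q Y) d := by
  classical
  rw [F_eq]
  refine DegLE.sum fun x hx => ?_
  refine ((hc x hx).mul (DegLE.prod fun v _ => (hY v).pow _)).mono (le_of_eq ?_)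
  ring

theorem F_lc {c : Q → X → k[X]} {n : V → ℤ} {d : ℤ} {q : Q}
    (hc : ∀ x ∈ C.supp q, DegLE (c q x) (d - ∑ v, n v * C.e q x v)) {Y : V → k[X]}
    (hY : ∀ v, DegLE (Y v) (n v)) :
    lc (C.F c q Y) d = C.F (fun q x => lc (c q x) (d - ∑ v, n v * C.e q x v)) q
      fun v => lc (Y v) (n v) := by
  classical
  rw [F_eq, F_eq, lc_sum]
  refine Finset.sum_congr rfl fun x hx => ?_
  have h1 := lc_mul (hc x hx) (DegLE.prod (s := Finset.univ) fun v _ => (hY v).pow (C.e q x v))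
  rw [lc_prod (fun v _ => (hY v).pow _)] at h1
  have h2 : d - ∑ v, n v * (C.e q x v : ℤ) + ∑ v, n v * (C.e q x v : ℤ) = d := by ring
  rw [h2] at h1
  rw [h1]
  congr 1
  exact Finset.prod_congr rfl fun v _ => lc_pow (hY v) _

theorem sum_sub_one [DecidableEq V] {n : V → ℤ} {e : V → ℕ} {w : V} (hw : e w ≠ 0) :
    ∑ v, n v * ((e v - if v = w then 1 else 0 : ℕ) : ℤ) = ∑ v, n v * (e v : ℤ) - n w := by
  rw [← Finset.add_sum_erase _ _ (Finset.mem_univ w),
    ← Finset.add_sum_erase _ (fun v => n v * (e v : ℤ)) (Finset.mem_univ w)]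
  have h4 : ∑ v ∈ Finset.univ.erase w, n v * ((e v - if v = w then 1 else 0 : ℕ) : ℤ) =
      ∑ v ∈ Finset.univ.erase w, n v * (e v : ℤ) := by
    refine Finset.sum_congr rfl fun v hv => ?_
    rw [if_neg (Finset.ne_of_mem_erase hv), Nat.sub_zero]
  rw [h4, if_pos rfl, Nat.cast_sub (Nat.one_le_iff_ne_zero.2 hw)]
  push_cast
  ring

theorem J_degLE {c : Q → X → k[X]} {n : V → ℤ} {d : ℤ} {q : Q}
    (hc : ∀ x ∈ C.supp q, DegLE (c q x) (d - ∑ v, n v * C.e q x v)) {Y : V → k[X]}
    (hY : ∀ v, DegLE (Y v) (n v)) (w : V) : DegLE (C.J c q w Y) (d - n w) := by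
  classical
  rw [J_eq]
  refine DegLE.sum fun x hx => ?_
  by_cases hw : C.e q x w = 0
  · rw [hw, Nat.cast_zero, mul_zero, zero_mul]; exact DegLE.zero _
  refine (((hc x hx).mul (DegLE.natCast _)).mul (DegLE.prod fun v _ => (hY v).pow _)).mono
    (le_of_eq ?_)
  rw [sum_sub_one hw]
  ring

theorem J_lc {c : Q → X → k[X]} {n : V → ℤ} {d : ℤ} {q : Q}
    (hc : ∀ x ∈ C.supp q, DegLE (c q x) (d - ∑ v, n v * C.e q x v)) {Y : V → k[X]}
    (hY : ∀ v, DegLE (Y v) (n v)) (w : V) :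
    lc (C.J c q w Y) (d - n w) = C.J (fun q x => lc (c q x) (d - ∑ v, n v * C.e q x v)) q w
      fun v => lc (Y v) (n v) := by
  classical
  rw [J_eq, J_eq, lc_sum]
  refine Finset.sum_congr rfl fun x hx => ?_
  by_cases hw : C.e q x w = 0
  · rw [hw, Nat.cast_zero, Nat.cast_zero, mul_zero, zero_mul, mul_zero, zero_mul]
    unfold lc; simp
  have h1 := lc_mul ((hc x hx).mul (DegLE.natCast (C.e q x w)))
    (DegLE.prod (s := Finset.univ) fun v _ => (hY v).pow (C.e q x v - if v = w then 1 else 0))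
  rw [lc_prod (fun v _ => (hY v).pow _), lc_mul (hc x hx) (DegLE.natCast _), lc_natCast,
    sum_sub_one hw] at h1
  have h2 : d - ∑ v, n v * (C.e q x v : ℤ) + 0 + (∑ v, n v * (C.e q x v : ℤ) - n w) =
      d - n w := by ring
  rw [h2] at h1
  rw [h1]
  congr 1
  exact Finset.prod_congr rfl fun v _ => lc_pow (hY v) _

end Cox

end Pool.Agent.Work.WRC
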