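import Mathlib
import Pool.Agent.Work.MP_4329d7_ag_sq.RC

/-!
W-RC, the last step: a family of rational curves through the generic point (its value at infinity)
whose second point is generic over the first one makes `K` rationally connected.
-/

namespace Pool.Agent.Work.WRC

open Polynomial Pool.Agent.Work.MP_4329d7_ag_sq Pool.Agent.Work.MP_4329d7_ag.FF

section inf

variable {k : Type} [Field k]

/-- `f` has the value `c` at infinity -/
def Inf (f : RatFunc k) (c : k) : Prop :=
  ∃ p q : k[X], q ≠ 0 ∧ p.natDegree ≤ q.natDegree ∧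
    p.coeff q.natDegree = c * q.leadingCoeff ∧
    f = algebraMap k[X] (RatFunc k) p / algebraMap k[X] (RatFunc k) q

theorem inf_ne {q : k[X]} (hq : q ≠ 0) : algebraMap k[X] (RatFunc k) q ≠ 0 :=
  (map_ne_zero_iff _ (IsFractionRing.injective k[X] (RatFunc k))).2 hq

theorem Inf.add {f g : RatFunc k} {c d : k} (hf : Inf f c) (hg : Inf g d) :
    Inf (f + g) (c + d) := by
  obtain ⟨p, q, hq, hd, hc, rfl⟩ := hf
  obtain ⟨p', q', hq', hd', hc', rfl⟩ := hg
  refine ⟨p * q' + p' * q, q * q', mul_ne_zero hq hq', ?_, ?_, ?_⟩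
  · rw [natDegree_mul hq hq']
    refine natDegree_add_le_of_degree_le (natDegree_mul_le.trans (by omega))
      (natDegree_mul_le.trans (by omega))
  · rw [natDegree_mul hq hq', coeff_add, coeff_mul_add_eq_of_natDegree_le hd le_rfl,
      add_comm q.natDegree, coeff_mul_add_eq_of_natDegree_le hd' le_rfl, hc, hc',
      leadingCoeff_mul]
    simp only [Polynomial.coeff_natDegree]
    ring
  · have h1 := inf_ne hq
    have h2 := inf_ne hq'
    rw [map_add, map_mul, map_mul, map_mul]
    field_simp

theorem Inf.mul {f g : RatFunc k} {c d : k} (hf : Inf f c) (hg : Inf g d) :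
    Inf (f * g) (c * d) := by
  obtain ⟨p, q, hq, hd, hc, rfl⟩ := hf
  obtain ⟨p', q', hq', hd', hc', rfl⟩ := hg
  refine ⟨p * p', q * q', mul_ne_zero hq hq', ?_, ?_, ?_⟩
  · rw [natDegree_mul hq hq']
    exact natDegree_mul_le.trans (by omega)
  · rw [natDegree_mul hq hq', coeff_mul_add_eq_of_natDegree_le hd hd', hc, hc', leadingCoeff_mul]
    ring
  · rw [map_mul, map_mul]
    exact div_mul_div_comm _ _ _ _

theorem Inf.const (c : k) : Inf (RatFunc.C c) c := by
  refine ⟨C c, 1, one_ne_zero, by simp, by simp, ?_⟩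
  rw [map_one, div_one, RatFunc.algebraMap_C]

theorem Inf.eq_zero {c : k} (h : Inf (0 : RatFunc k) c) : c = 0 := by
  obtain ⟨p, q, hq, hd, hc, h0⟩ := h
  have h1 : algebraMap k[X] (RatFunc k) p = 0 := by
    have h2 := (div_eq_zero_iff.1 h0.symm)
    exact h2.resolve_right (inf_ne hq)
  have h2 : p = 0 := by
    rwa [map_eq_zero_iff _ (IsFractionRing.injective k[X] (RatFunc k))] at h1
  rw [h2, coeff_zero] at hc
  exact (mul_eq_zero.1 hc.symm).resolve_right (leadingCoeff_ne_zero.2 hq)

theorem Inf.psi {f : RatFunc k} {c : k} (h : Inf f c) : Inf (psi k f) (RatFunc.C c) := by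
  obtain ⟨p, q, hq, hd, hc, rfl⟩ := h
  refine ⟨p.map RatFunc.C, q.map RatFunc.C, ?_, ?_, ?_, ?_⟩
  · rwa [Ne, Polynomial.map_eq_zero]
  · rwa [natDegree_map, natDegree_map]
  · rw [natDegree_map, coeff_map, hc, leadingCoeff_map, map_mul]
  · unfold Pool.Agent.Work.MP_4329d7_ag_sq.psi
    rw [map_div₀, rmap_algebraMap, rmap_algebraMap]

theorem Inf.map {k' : Type} [Field k'] (g : k →+* k') {f : RatFunc k} {c : k} (h : Inf f c) :
    Inf (rmap g f) (g c) := by
  obtain ⟨p, q, hq, hd, hc, rfl⟩ := h
  refine ⟨p.map g, q.map g, ?_, ?_, ?_, ?_⟩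
  · rwa [Ne, Polynomial.map_eq_zero]
  · rwa [natDegree_map, natDegree_map]
  · rw [natDegree_map, coeff_map, hc, leadingCoeff_map, map_mul]
  · rw [map_div₀, rmap_algebraMap, rmap_algebraMap]

theorem Inf.aeval [Algebra ℂ k] {σ : Type} {u : σ → RatFunc k} {c : σ → k}
    (h : ∀ i, Inf (u i) (c i)) (P : MvPolynomial σ ℂ) :
    Inf (MvPolynomial.aeval u P) (MvPolynomial.aeval c P) := by
  induction P using MvPolynomial.induction_on with
  | C a =>
    rw [MvPolynomial.aeval_C, MvPolynomial.aeval_C, algebraMap_ratFunc]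
    exact Inf.const _
  | add p q hp hq =>
    rw [map_add, map_add]
    exact hp.add hq
  | mul_X p i hp =>
    rw [map_mul, map_mul, MvPolynomial.aeval_X, MvPolynomial.aeval_X]
    exact hp.mul (h i)

end inf

/-- the criterion -/
theorem rc_of_inf {K k : Type} [Field K] [Algebra ℂ K] [Algebra.EssFiniteType ℂ K] [Field k]
    [Algebra ℂ k] (ι : K →ₐ[ℂ] k) (φ : K →ₐ[ℂ] RatFunc k) (hinf : ∀ y, Inf (φ y) (ι y))
    {I : Type} [Fintype I] (x : I → K) (hx : IsTranscendenceBasis ℂ x)
    (hai : AlgebraicIndependent ℂ (Sum.elim (fun i => (RatFunc.C (ι (x i)) : RatFunc k))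
      (fun i => φ (x i)))) : RationallyConnected K := by
  classical
  refine rc_of_good inferInstance ?_
  let e : k →ₐ[ℂ] AlgebraicClosure k := IsScalarTower.toAlgHom ℂ k (AlgebraicClosure k)
  refine ⟨AlgebraicClosure k, inferInstance, inferInstance, inferInstance, (rmapA e).comp φ, I,
    inferInstance, x, hx, ?_⟩
  have hai2 : AlgebraicIndependent ℂ (Sum.elim
      (fun i => (RatFunc.C (e (ι (x i))) : RatFunc (AlgebraicClosure k)))
      (fun i => rmapA e (φ (x i)))) := by
    have h1 := hai.map' (f := rmapA e) (RingHom.injective (rmapA e).toRingHom)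
    convert h1 using 1
    funext s
    rcases s with i | i
    · exact (rmap_C (e : k →+* AlgebraicClosure k) (ι (x i))).symm
    · rfl
  rw [algebraicIndependent_iff] at hai2 ⊢
  intro P hP
  -- exchange the variables
  let P' : MvPolynomial (I ⊕ I) ℂ := MvPolynomial.rename Sum.swap P
  have hP' : P' = 0 := by
    refine hai2 P' ?_
    have h2 := Inf.aeval (k := RatFunc (AlgebraicClosure k)) (σ := I ⊕ I)
      (u := Sum.elim (fun i => (RatFunc.C (((rmapA e).comp φ) (x i))))
        (fun i => psi (AlgebraicClosure k) (((rmapA e).comp φ) (x i))))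
      (c := Sum.elim (fun i => ((rmapA e).comp φ) (x i)) (fun i => RatFunc.C (e (ι (x i)))))
      (fun s => by
        rcases s with i | i
        · exact Inf.const _
        · exact ((hinf (x i)).map (e : k →+* AlgebraicClosure k)).psi) P
    rw [hP] at h2
    have h3 := h2.eq_zero
    rw [← h3, MvPolynomial.aeval_rename]
    congr 2
    funext s
    rcases s with i | i <;> rfl
  exact (map_eq_zero_iff _ (MvPolynomial.rename_injective _ Sum.swap_leftInverse.injective)).1 hP'

theorem pderiv_totalDegree {σ : Type} (P : MvPolynomial σ ℂ) (i : σ) {N : ℕ}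
    (hd : P.totalDegree ≤ N + 1) : (MvPolynomial.pderiv i P).totalDegree ≤ N := by
  classical
  unfold MvPolynomial.totalDegree
  refine Finset.sup_le fun m hm => ?_
  rw [MvPolynomial.mem_support_iff, MvPolynomial.coeff_pderiv] at hm
  have h1 : m + Finsupp.single i 1 ∈ P.support := by
    rw [MvPolynomial.mem_support_iff]
    exact left_ne_zero_of_mul hm
  have h2 := (MvPolynomial.le_totalDegree h1).trans hd
  rw [Finsupp.sum_add_index' (fun _ => rfl) (fun _ _ _ => rfl),
    Finsupp.sum_single_index rfl] at h2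
  omega

theorem exists_rename_of_pderiv {σ τ : Type} (P : MvPolynomial (σ ⊕ τ) ℂ)
    (h : ∀ i, MvPolynomial.pderiv (Sum.inr i) P = 0) :
    ∃ P₀ : MvPolynomial σ ℂ, MvPolynomial.rename Sum.inl P₀ = P := by
  classical
  refine MvPolynomial.exists_rename_eq_of_vars_subset_range P Sum.inl Sum.inl_injective ?_
  rintro s hs
  rcases s with i | i
  · exact ⟨i, rfl⟩
  · exfalso
    obtain ⟨m, hm, hi⟩ := (MvPolynomial.mem_vars_iff_mem_support _).1 hs
    have h1 := congrArg (MvPolynomial.coeff (m - Finsupp.single (Sum.inr i) 1)) (h i)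
    have h2 : m - Finsupp.single (Sum.inr i) 1 + Finsupp.single (Sum.inr i) 1 = m := by
      refine tsub_add_cancel_of_le ?_
      rw [Finsupp.single_le_iff]
      exact Nat.one_le_iff_ne_zero.2 (Finsupp.mem_support_iff.1 hi)
    rw [MvPolynomial.coeff_pderiv, h2, MvPolynomial.coeff_zero] at h1
    rcases mul_eq_zero.1 h1 with h3 | h3
    · exact (MvPolynomial.mem_support_iff.1 hm) h3
    · exact Nat.cast_add_one_ne_zero _ h3

/-- the chain rule -/
theorem derivation_aeval' {σ R : Type*} [Fintype σ] [CommRing R] [Algebra ℂ R]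
    (D : Derivation ℂ R R) (G : MvPolynomial σ ℂ) (Y : σ → R) :
    D (MvPolynomial.aeval Y G) =
      ∑ s, MvPolynomial.aeval Y (MvPolynomial.pderiv s G) * D (Y s) := by
  classical
  induction G using MvPolynomial.induction_on with
  | C a => simp
  | add p q hp hq => simp only [map_add, hp, hq, add_mul, Finset.sum_add_distrib]
  | mul_X p i hp =>
    rw [map_mul, MvPolynomial.aeval_X, Derivation.leibniz, hp]
    simp only [Derivation.leibniz, MvPolynomial.pderiv_X, smul_eq_mul, map_add, map_mul,
      MvPolynomial.aeval_X, add_mul, Finset.sum_add_distrib]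
    congr 1
    · rw [Finset.sum_eq_single i]
      · simp
      · intro b _ hb
        simp [hb]
      · simp
    · rw [Finset.mul_sum]
      exact Finset.sum_congr rfl fun s _ => by ring

/-- algebraic independence from derivations -/
theorem ai_of_der {K L : Type} [Field K] [Algebra ℂ K] [Field L] [Algebra ℂ L]
    {I : Type} [Fintype I] (x : I → K) (hx : AlgebraicIndependent ℂ x)
    (ι ψ : K →ₐ[ℂ] L) {J : Type} (D : J → Derivation ℂ L L) (hι : ∀ j i, D j (ι (x i)) = 0)
    (hD : ∀ w : I → L, (∀ j, ∑ i, w i * D j (ψ (x i)) = 0) → w = 0) :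
    AlgebraicIndependent ℂ (Sum.elim (fun i => ι (x i)) (fun i => ψ (x i))) := by
  classical
  rw [algebraicIndependent_iff]
  -- induction on the total degree
  suffices h : ∀ (N : ℕ) (P : MvPolynomial (I ⊕ I) ℂ), P.totalDegree ≤ N →
      MvPolynomial.aeval (Sum.elim (fun i => ι (x i)) (fun i => ψ (x i))) P = 0 → P = 0 from
    fun P hP => h P.totalDegree P le_rfl hP
  intro N
  induction N with
  | zero =>
    intro P hd hP
    have h1 : P = MvPolynomial.C (P.coeff 0) :=
      MvPolynomial.totalDegree_eq_zero_iff_eq_C.1 (Nat.le_zero.1 hd)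
    rw [h1, MvPolynomial.aeval_C] at hP
    rw [h1, (map_eq_zero_iff _ (algebraMap ℂ L).injective).1 hP, map_zero]
  | succ N ih =>
    intro P hd hP
    have hder : ∀ i, MvPolynomial.pderiv (Sum.inr i) P = 0 := by
      intro i
      refine ih _ (pderiv_totalDegree P _ hd) ?_
      have h1 : (fun i => MvPolynomial.aeval (Sum.elim (fun i => ι (x i)) (fun i => ψ (x i)))
          (MvPolynomial.pderiv (Sum.inr i) P)) = (0 : I → L) := by
        refine hD _ fun j => ?_
        have h2 : D j (MvPolynomial.aeval (Sum.elim (fun i => ι (x i)) (fun i => ψ (x i))) P) =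
            ∑ s, MvPolynomial.aeval (Sum.elim (fun i => ι (x i)) (fun i => ψ (x i)))
              (MvPolynomial.pderiv s P) * D j (Sum.elim (fun i => ι (x i)) (fun i => ψ (x i)) s) :=
          derivation_aeval' (D j) P _
        rw [hP, map_zero, Fintype.sum_sum_type] at h2
        simp only [Sum.elim_inl, Sum.elim_inr, hι, mul_zero, Finset.sum_const_zero, zero_add] at h2
        exact h2.symm
      exact congrFun h1 i
    obtain ⟨P₀, rfl⟩ := exists_rename_of_pderiv P hder
    rw [MvPolynomial.aeval_rename] at hP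
    have h3 : P₀ = 0 := by
      have h4 : AlgebraicIndependent ℂ (fun i => ι (x i)) := hx.map' ι.injective
      exact (algebraicIndependent_iff.1 h4) P₀ hP
    rw [h3, map_zero]

end Pool.Agent.Work.WRC
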