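import Mathlib
import Pool.Agent.Work.MP_4329d7_ag_w.Defs
import Pool.Agent.Work.MP_4329d7_ag_wrc.CoxDeg
import Pool.Agent.Work.MP_4329d7_ag_wrc.RCInf

/-!
Real rational connectedness of nondegenerate complete intersections (W-RC): common definitions.
See the blueprint note on MP_4329d7_ag (helper46).

* `coxR f b`: the Cox system of the Laurent polynomials `f` for the rays `b : V → ℤ^d`; the exponent
  of the variable `v` in the monomial `χ` of `f q` is `⟨χ, b v⟩ - mn (f q) (b v)`;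
* `cst f x q χ = f_{q,χ} x^χ`: the coefficients at the point `x` of the torus;
* `cg f x b t q χ = cst f x q χ * ∏_j (X - t_j)^(e_j)`: the coefficients of the family over the curve
  `x * ∏_j (s - t_j)^(b_j)`;
* `FreeS`, `VFreeS`: the curve `Y` of degrees `D` on the system of degrees `E` satisfies
  `H¹(N(-1)) = 0`, `H¹(N(-2)) = 0`; `FullS`: the rows of the Jacobian are independent at all points
  of the line;
* `FanV`: a complete unimodular fan with rays indexed by `V`;
* `Tot`: a nondegenerate complete intersection in `T^dB × T^r`, the equations `B` live on `T^dB`;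
* `BdSec`: a section `y` of the orbit of the cone `σ` of the family with coefficients `a`;
  `LimInf`: the point of `(σ, y)` at infinity is `(τ, z)`;
* `VF`: a very free curve of the fibre through the point with Cox coordinates `Z` over `x'`;
* `PRC`: the inductive statement (the hypothesis of `rc_of_inf`).
-/

namespace Pool.Agent.Work.WRC

open Polynomial Pool.Agent.Work.CI

section systems

/-- the Cox system of `f` for the rays `b` -/
noncomputable def coxR {d : ℕ} {Q V : Type} (f : Q → Lau d) (b : V → Fin d → ℤ) :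
    Cox V Q (Fin d → ℤ) where
  r := d
  ray := b
  supp q := (f q).support
  ch _ χ := χ
  h q v := -mn (f q) (b v)
  e q χ v := (pair χ (b v) - mn (f q) (b v)).toNat
  he := by
    intro q χ hχ v
    have h1 := mn_le hχ (b v)
    rw [Int.toNat_of_nonneg (by linarith)]
    unfold pair
    ring

/-- the coefficients at the point `x` -/
noncomputable def cst {d : ℕ} {Q F : Type} [Field F] [Algebra ℂ F] (f : Q → Lau d) (x : Fin d → F)
    (q : Q) (χ : Fin d → ℤ) : F :=
  algebraMap ℂ F (f q χ) * mon x χ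

/-- the coefficients over the curve `x * ∏_j (s - t_j)^(b_j)` -/
noncomputable def cg {d : ℕ} {Q J F : Type} [Fintype J] [Field F] [Algebra ℂ F] (f : Q → Lau d)
    (x : Fin d → F) (b : J → Fin d → ℤ) (t : J → F) (q : Q) (χ : Fin d → ℤ) : F[X] :=
  C (cst f x q χ) * ∏ j, (X - C (t j)) ^ (coxR f b).e q χ j

/-- a vector of the fibre lattice -/
def fibv {dB r : ℕ} (b : Fin r → ℤ) : Fin (dB + r) → ℤ := Fin.append 0 b

end systems

section free

variable {V Q X : Type} [Fintype V] (C : Cox V Q X)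

/-- `H¹(N(-1)) = 0` -/
def FreeS {k : Type} [Field k] (c : Q → X → k[X]) (Y : V → k[X]) (D : V → ℤ) (E : Q → ℤ) : Prop :=
  ∀ g : Q → k[X], (∀ q, DegLE (g q) (E q - 1)) →
    ∃ h : V → k[X], (∀ v, DegLE (h v) (D v - 1)) ∧ ∀ q, ∑ v, C.J c q v Y * h v = g q

/-- `H¹(N(-2)) = 0` -/
def VFreeS {k : Type} [Field k] (c : Q → X → k[X]) (Y : V → k[X]) (D : V → ℤ) (E : Q → ℤ) : Prop :=
  ∀ g : Q → k[X], (∀ q, DegLE (g q) (E q - 2)) →
    ∃ (h : V → k[X]) (γ : V → k), C.Eul γ ∧ (∀ v, DegLE (h v) (D v - 1)) ∧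
      (∀ v, lc (h v) (D v - 1) = γ v * lc (Y v) (D v)) ∧ ∀ q, ∑ v, C.J c q v Y * h v = g q

/-- the rows of the Jacobian are independent at all points of the line and at infinity -/
def FullS {k : Type} [Field k] [Fintype Q] (c : Q → X → k[X]) (Y : V → k[X]) (D : V → ℤ)
    (E : Q → ℤ) : Prop :=
  (∀ a : k, ∀ l : Q → k, (∀ v, ∑ q, l q * (C.J c q v Y).eval a = 0) → l = 0) ∧
    ∀ l : Q → k, (∀ v, ∑ q, l q * lc (C.J c q v Y) (E q - D v) = 0) → l = 0

end free

/-- A complete unimodular fan in `ℤ^r` with rays indexed by `V`. -/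
structure FanV (V : Type) [Fintype V] [DecidableEq V] (r : ℕ) where
  ray : V → Fin r → ℤ
  cone : Finset V → Prop
  down : ∀ {σ τ : Finset V}, cone τ → σ ⊆ τ → cone σ
  unim : ∀ τ, cone τ → ∃ l : V → Fin r → ℤ, ∀ v ∈ τ, ∀ w ∈ τ,
    ∑ j, l v j * ray w j = if v = w then 1 else 0
  cov : ∀ (G : Type) [CommGroup G] (P : Submonoid G), (∀ g, g ∈ P ∨ g⁻¹ ∈ P) →
    ∀ x : Fin r → G, ∃ τ, cone τ ∧ ∃ g : V → G, (∀ v, g v ∈ P) ∧ (∀ v, v ∉ τ → g v = 1) ∧
      ∀ j, x j = ∏ v, g v ^ ray v j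
  uniq : ∀ (Γ : Type) [AddCommGroup Γ] [LinearOrder Γ] [IsOrderedAddMonoid Γ] (τ τ' : Finset V),
    cone τ → cone τ' → ∀ γ γ' : V → Γ, (∀ v ∈ τ, 0 < γ v) → (∀ v ∈ τ', 0 < γ' v) →
      (∀ j, ∑ v ∈ τ, ray v j • γ v = ∑ v ∈ τ', ray v j • γ' v) → τ = τ'

section tot

variable {K : Type} [Field K] [Algebra ℂ K]

/-- A nondegenerate complete intersection in `T^dB × T^r`; the equations `B` live on `T^dB`. -/
structure Tot (n dB r : ℕ) (B Q : Type) [Fintype B] [Fintype Q] (x : Fin (dB + r) → K)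
    (f : B ⊕ Q → Lau (dB + r)) : Prop where
  data : Data K n (dB + r) (B ⊕ Q) x f
  nd : Nondegenerate f
  base : ∀ q : B, ∀ χ ∈ (f (Sum.inl q)).support, ∀ k : Fin r, χ (Fin.natAdd dB k) = 0

/-- the fibre system of `f` for the rays `ray` -/
noncomputable def coxF {dB r : ℕ} {B Q V : Type} (f : B ⊕ Q → Lau (dB + r))
    (ray : V → Fin r → ℤ) : Cox V Q (Fin (dB + r) → ℤ) :=
  coxR (fun q => f (Sum.inr q)) fun v => fibv (ray v)

/-- on every cone of the fan some monomial of each equation is minimal -/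
def FanV.Adapted {dB r : ℕ} {B Q V : Type} [Fintype V] [DecidableEq V] (Δ : FanV V r)
    (f : B ⊕ Q → Lau (dB + r)) : Prop :=
  ∀ τ, Δ.cone τ → ∀ q, ∃ χ ∈ (f (Sum.inr q)).support, ∀ v ∈ τ, (coxF f Δ.ray).e q χ v = 0

/-- `y` is a section of the orbit of the cone `σ` of the family with coefficients `a`. -/
structure BdSec {dB r : ℕ} {B Q V : Type} [Fintype V] [DecidableEq V] (Δ : FanV V r)
    (f : B ⊕ Q → Lau (dB + r)) {k : Type} [Field k] (a : Q → (Fin (dB + r) → ℤ) → k[X])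
    (σ : Finset V) (y : Fin r → RatFunc k) : Prop where
  cone : Δ.cone σ
  ne : ∀ j, y j ≠ 0
  eq : ∀ q, ∑ χ ∈ (f (Sum.inr q)).support with (∀ v ∈ σ, (coxF f Δ.ray).e q χ v = 0),
    algebraMap k[X] (RatFunc k) (a q χ) * ∏ j, y j ^ χ (Fin.natAdd dB j) = 0

/-- The point at infinity of the section `y` of the orbit of `σ` is the point `z` of the orbit of
`τ`. -/
def LimInf {r : ℕ} {V : Type} [Fintype V] [DecidableEq V] (Δ : FanV V r) {k : Type} [Field k]
    (σ : Finset V) (y : Fin r → RatFunc k) (τ : Finset V) (z : Fin r → k) : Prop :=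
  Δ.cone τ ∧ σ ⊆ τ ∧ ∃ g : V → RatFunc k, (∀ v, g v ≠ 0) ∧ (∀ v, v ∉ τ → g v = 1) ∧
    (∀ v ∈ τ, v ∉ σ → Inf (g v) 0) ∧
    ∀ j, z j ≠ 0 ∧ Inf (y j * ∏ v, g v ^ (-Δ.ray v j)) (z j)

/-- the point `x'` with the fibre coordinates multiplied by `z` -/
def mulF {dB r : ℕ} {k : Type} [Field k] (x' : Fin (dB + r) → k) (z : Fin r → k) :
    Fin (dB + r) → k :=
  fun j => x' j * Fin.append (1 : Fin dB → k) z j

/-- the Cox coordinates of the distinguished point of the orbit of `τ` -/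
def ind {V : Type} [DecidableEq V] (k : Type) [Field k] (τ : Finset V) (v : V) : k :=
  if v ∈ τ then 0 else 1

/-- A very free curve of the fibre through the point with Cox coordinates `Z` over `x'`: polynomials
`T v` of degree `≤ n v` over an extension `k'` of `k` whose coefficients with index `n v` are `Z v`;
the tuple `x' * ∏ T_v ^ ray_v` is a generic point of the intersection over `ℂ`. -/
def VF {dB r : ℕ} {B Q V : Type} [Fintype V] (x : Fin (dB + r) → K)
    (f : B ⊕ Q → Lau (dB + r)) (ray : V → Fin r → ℤ) {k : Type} [Field k] [Algebra ℂ k]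
    (x' : Fin (dB + r) → k) (Z : V → k) : Prop :=
  ∃ (k' : Type) (_ : Field k') (_ : Algebra ℂ k') (_ : IsAlgClosed k') (i : k →ₐ[ℂ] k')
    (n : V → ℕ) (T : V → k'[X]),
    (coxF f ray).Rel (fun v => (n v : ℤ)) ∧
    (∀ v, n v = 0 → ∃ γ : V → ℤ, (coxF f ray).Rel γ ∧ γ v ≠ 0 ∧
      ∀ w, w ≠ v → n w = 0 → γ w = 0) ∧
    (∀ v, T v ≠ 0) ∧ (∀ v, DegLE (T v) (n v)) ∧ (∀ v, lc (T v) (n v) = i (Z v)) ∧
    (∃ φ : K →ₐ[ℂ] RatFunc k', ∀ j, φ (x j) = RatFunc.C (i (x' j)) *
      ∏ v, algebraMap k'[X] (RatFunc k') (T v) ^ (fibv (ray v) : Fin (dB + r) → ℤ) j) ∧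
    FreeS (coxF f ray) (fun q χ => C (cst (fun q => f (Sum.inr q)) (fun j => i (x' j)) q χ)) T
      (fun v => n v) ((coxF f ray).m fun v => n v) ∧
    VFreeS (coxF f ray) (fun q χ => C (cst (fun q => f (Sum.inr q)) (fun j => i (x' j)) q χ)) T
      (fun v => n v) ((coxF f ray).m fun v => n v)

/-- The inductive statement: a family of rational curves on `K` whose value at infinity and whose
general point form a generic pair; `rc_of_inf` gives `RationallyConnected K`. -/
def PRC (K : Type) [Field K] [Algebra ℂ K] : Prop :=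
  ∃ (k : Type) (_ : Field k) (_ : Algebra ℂ k) (_ : IsAlgClosed k) (i : K →ₐ[ℂ] k)
    (φ : K →ₐ[ℂ] RatFunc k), (∀ y, Inf (φ y) (i y)) ∧
    ∃ (I : Type) (_ : Fintype I) (x : I → K), IsTranscendenceBasis ℂ x ∧
      AlgebraicIndependent ℂ (Sum.elim (fun j => (RatFunc.C (i (x j)) : RatFunc k))
        (fun j => φ (x j)))

end tot

end Pool.Agent.Work.WRC
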