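import Mathlib

/-!
# Unimodular complete fans adapted to finitely many linear forms

`Unim σ`: the vectors of the finite set `σ` in `ℤ^r` form a basis (given by a dual family of
forms).  `Covers S`: every tuple `x : Fin r → G` in a commutative group `G` with a total
submonoid `P` is `x_j = ∏_{v ∈ σ} g_v ^ (v j)` with `σ ∈ S` and `g_v ∈ P`.
`exists_fan`: for all finite sets of forms there is a fan on whose cones each form has constant
sign (stellar subdivisions of the orthants).
-/

namespace Pool.Agent.Work.WRC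

open Finset

/-- Vectors of `ℤ^r`. -/
abbrev ZVec (r : ℕ) := Fin r → ℤ

/-- The finite set `σ` is a basis of `ℤ^r`. -/
def Unim {r : ℕ} (σ : Finset (ZVec r)) : Prop :=
  ∃ l : ZVec r → (ZVec r →ₗ[ℤ] ℤ),
    (∀ v ∈ σ, ∀ w ∈ σ, l v w = if v = w then 1 else 0) ∧ ∀ x, ∑ v ∈ σ, l v x • v = x

/-- The cones spanned by the members of `S` cover everything. -/
def Covers.{u} {r : ℕ} (S : Finset (Finset (ZVec r))) : Prop :=
  ∀ (G : Type u) [CommGroup G] (P : Submonoid G), (∀ g, g ∈ P ∨ g⁻¹ ∈ P) →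
    ∀ x : Fin r → G, ∃ σ ∈ S, ∃ g : ZVec r → G, (∀ v ∈ σ, g v ∈ P) ∧
      ∀ j, x j = ∏ v ∈ σ, g v ^ (v j)

/-- The form `ψ` has constant sign on all members of `S`. -/
def SignOn {r : ℕ} (S : Finset (Finset (ZVec r))) (ψ : ZVec r →ₗ[ℤ] ℤ) : Prop :=
  ∀ σ ∈ S, (∀ v ∈ σ, 0 ≤ ψ v) ∨ (∀ v ∈ σ, ψ v ≤ 0)

/-- Stellar subdivision of the edge `v, w`. -/
def star {r : ℕ} (S : Finset (Finset (ZVec r))) (v w : ZVec r) : Finset (Finset (ZVec r)) :=
  S.biUnion fun σ => if v ∈ σ ∧ w ∈ σ then
    {insert (v + w) (σ.erase v), insert (v + w) (σ.erase w)} else {σ}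

theorem mem_star {r : ℕ} {S : Finset (Finset (ZVec r))} {v w : ZVec r} {τ : Finset (ZVec r)} :
    τ ∈ star S v w ↔ ∃ σ ∈ S, (¬ (v ∈ σ ∧ w ∈ σ) ∧ τ = σ) ∨
      ((v ∈ σ ∧ w ∈ σ) ∧ (τ = insert (v + w) (σ.erase v) ∨ τ = insert (v + w) (σ.erase w))) := by
  unfold star
  rw [Finset.mem_biUnion]
  constructor
  · rintro ⟨σ, hσ, h⟩
    refine ⟨σ, hσ, ?_⟩
    split_ifs at h with h1
    · right; refine ⟨h1, ?_⟩; simpa using h
    · left; exact ⟨h1, by simpa using h⟩
  · rintro ⟨σ, hσ, h⟩
    refine ⟨σ, hσ, ?_⟩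
    rcases h with ⟨h1, h2⟩ | ⟨h1, h2⟩
    · rw [if_neg h1, h2]; simp
    · rw [if_pos h1]; simpa using h2

theorem Unim.add_notMem {r : ℕ} {σ : Finset (ZVec r)} (h : Unim σ) {v w : ZVec r}
    (hv : v ∈ σ) (hw : w ∈ σ) (hne : v ≠ w) : v + w ∉ σ := by
  obtain ⟨l, hl, -⟩ := h
  intro hm
  have h1 := hl v hv (v + w) hm
  have h2 := hl w hw (v + w) hm
  rw [map_add, hl v hv v hv, hl v hv w hw, if_pos rfl, if_neg hne] at h1
  rw [map_add, hl w hw v hv, hl w hw w hw, if_pos rfl, if_neg hne.symm] at h2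
  split_ifs at h1 with h3
  · split_ifs at h2 with h4
    · exact hne (h3.trans h4.symm)
    · omega
  · omega

theorem Unim.ne_zero {r : ℕ} {σ : Finset (ZVec r)} (h : Unim σ) {v : ZVec r} (hv : v ∈ σ) :
    v ≠ 0 := by
  obtain ⟨l, hl, -⟩ := h
  intro h0
  have := hl v hv v hv
  rw [if_pos rfl, h0, map_zero] at this
  omega

/-- Half of a stellar subdivision of a basis is a basis. -/
theorem Unim.star {r : ℕ} {σ : Finset (ZVec r)} (h : Unim σ) {v w : ZVec r}
    (hv : v ∈ σ) (hw : w ∈ σ) (hne : v ≠ w) : Unim (insert (v + w) (σ.erase v)) := by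
  have hnm := h.add_notMem hv hw hne
  obtain ⟨l, hl, hs⟩ := h
  have hvz : v + w ≠ v := fun hh => hnm (by rw [hh]; exact hv)
  have hwz : v + w ≠ w := fun hh => hnm (by rw [hh]; exact hw)
  refine ⟨fun u => if u = v + w then l v else if u = w then l w - l v else l u, ?_, ?_⟩
  · intro a ha b hb
    simp only [Finset.mem_insert, Finset.mem_erase] at ha hb
    have hlv : ∀ u ∈ σ, l v u = if v = u then 1 else 0 := fun u hu => hl v hv u hu
    have hlw : ∀ u ∈ σ, l w u = if w = u then 1 else 0 := fun u hu => hl w hw u hu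
    rcases ha with ha | ⟨hav, haσ⟩
    · subst ha
      rcases hb with hb | ⟨hbv, hbσ⟩
      · subst hb
        simp only [if_true]
        rw [map_add, hlv v hv, hlv w hw, if_pos rfl, if_neg hne]; rfl
      · have : v + w ≠ b := fun hh => hnm (hh ▸ hbσ)
        simp only [if_true]
        rw [hlv b hbσ, if_neg (Ne.symm hbv), if_neg this]
    · have haz : a ≠ v + w := fun hh => hnm (hh ▸ haσ)
      by_cases haw : a = w
      · subst haw
        rcases hb with hb | ⟨hbv, hbσ⟩
        · subst hb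
          simp only [if_neg haz, if_true]
          rw [LinearMap.sub_apply, map_add, map_add, hlw v hv, hlw a hw, hlv v hv, hlv a hw,
            if_neg hne, if_neg hne.symm, if_pos rfl, if_pos rfl]
          rfl
        · simp only [if_neg haz, if_true]
          rw [LinearMap.sub_apply, hlw b hbσ, hlv b hbσ, if_neg (Ne.symm hbv), sub_zero]
      · rcases hb with hb | ⟨hbv, hbσ⟩
        · subst hb
          simp only [if_neg haz, if_neg haw]
          rw [map_add, hl a haσ v hv, hl a haσ w hw, if_neg hav, if_neg haw]; rfl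
        · simp only [if_neg haz, if_neg haw]
          exact hl a haσ b hbσ
  · intro x
    have hz : v + w ∉ σ.erase v := fun hh => hnm (Finset.mem_of_mem_erase hh)
    rw [Finset.sum_insert hz]
    have hwe : w ∈ σ.erase v := Finset.mem_erase.2 ⟨hne.symm, hw⟩
    have h1 := Finset.add_sum_erase σ (fun u => l u x • u) hv
    have h2 := Finset.add_sum_erase (σ.erase v) (fun u => l u x • u) hwe
    have h3 := Finset.add_sum_erase (σ.erase v)
      (fun u => (if u = v + w then l v else if u = w then l w - l v else l u) x • u) hwe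
    rw [← h3]
    have h4 : ∑ u ∈ (σ.erase v).erase w,
        (if u = v + w then l v else if u = w then l w - l v else l u) x • u =
        ∑ u ∈ (σ.erase v).erase w, l u x • u := by
      refine Finset.sum_congr rfl fun u hu => ?_
      have hu1 := Finset.mem_erase.1 hu
      have hu2 := Finset.mem_erase.1 hu1.2
      have : u ≠ v + w := fun hh => hnm (hh ▸ hu2.2)
      rw [if_neg this, if_neg hu1.1]
    rw [h4]
    have h5 : x = l v x • v + (l w x • w + ∑ u ∈ (σ.erase v).erase w, l u x • u) := by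
      rw [h2, h1, hs x]
    conv_rhs => rw [h5]
    beta_reduce
    rw [if_pos rfl, if_neg hwz.symm, if_pos rfl, LinearMap.sub_apply]
    module

theorem star_unim {r : ℕ} {S : Finset (Finset (ZVec r))} (h : ∀ σ ∈ S, Unim σ) {v w : ZVec r}
    (hne : v ≠ w) : ∀ σ ∈ star S v w, Unim σ := by
  intro τ hτ
  obtain ⟨σ, hσ, h1⟩ := mem_star.1 hτ
  rcases h1 with ⟨-, rfl⟩ | ⟨⟨hv, hw⟩, h2⟩
  · exact h _ hσ
  · rcases h2 with rfl | rfl
    · exact (h _ hσ).star hv hw hne
    · rw [add_comm v w]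
      exact (h _ hσ).star hw hv hne.symm

/-- One half of the covering step. -/
theorem cover_half {r : ℕ} {σ : Finset (ZVec r)} (h : Unim σ) {v w : ZVec r}
    (hv : v ∈ σ) (hw : w ∈ σ) (hne : v ≠ w) {G : Type*} [CommGroup G] (P : Submonoid G)
    (g : ZVec r → G) (hg : ∀ u ∈ σ, g u ∈ P) (hgg : g w * (g v)⁻¹ ∈ P) :
    ∃ g' : ZVec r → G, (∀ u ∈ insert (v + w) (σ.erase v), g' u ∈ P) ∧
      ∀ j, ∏ u ∈ σ, g u ^ (u j) = ∏ u ∈ insert (v + w) (σ.erase v), g' u ^ (u j) := by
  have hnm := h.add_notMem hv hw hne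
  have hvz : v + w ≠ v := fun hh => hnm (by rw [hh]; exact hv)
  have hwz : v + w ≠ w := fun hh => hnm (by rw [hh]; exact hw)
  refine ⟨fun u => if u = v + w then g v else if u = w then g w * (g v)⁻¹ else g u, ?_, ?_⟩
  · intro u hu
    simp only [Finset.mem_insert, Finset.mem_erase] at hu
    show (if u = v + w then g v else if u = w then g w * (g v)⁻¹ else g u) ∈ P
    split_ifs with h1 h2
    · exact hg v hv
    · exact hgg
    · rcases hu with hu | hu
      · exact absurd hu h1
      · exact hg u hu.2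
  · intro j
    have hz : v + w ∉ σ.erase v := fun hh => hnm (Finset.mem_of_mem_erase hh)
    rw [Finset.prod_insert hz]
    have hwe : w ∈ σ.erase v := Finset.mem_erase.2 ⟨hne.symm, hw⟩
    rw [← Finset.mul_prod_erase σ _ hv, ← Finset.mul_prod_erase (σ.erase v) _ hwe,
      ← Finset.mul_prod_erase (σ.erase v)
      (fun u => (if u = v + w then g v else if u = w then g w * (g v)⁻¹ else g u) ^ (u j)) hwe]
    have h4 : ∏ u ∈ (σ.erase v).erase w,
        (if u = v + w then g v else if u = w then g w * (g v)⁻¹ else g u) ^ (u j) =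
        ∏ u ∈ (σ.erase v).erase w, g u ^ (u j) := by
      refine Finset.prod_congr rfl fun u hu => ?_
      have hu1 := Finset.mem_erase.1 hu
      have hu2 := Finset.mem_erase.1 hu1.2
      have : u ≠ v + w := fun hh => hnm (hh ▸ hu2.2)
      rw [if_neg this, if_neg hu1.1]
    beta_reduce
    rw [h4, if_pos rfl, if_neg hwz.symm, if_pos rfl, Pi.add_apply, zpow_add, mul_zpow, inv_zpow]
    rw [← mul_assoc, ← mul_assoc]
    congr 1
    rw [mul_comm (g w ^ w j), mul_assoc (g v ^ v j), mul_inv_cancel_left]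

theorem star_covers.{u} {r : ℕ} {S : Finset (Finset (ZVec r))} (h : ∀ σ ∈ S, Unim σ)
    {v w : ZVec r} (hne : v ≠ w) (hc : Covers.{u} S) : Covers.{u} (star S v w) := by
  intro G _ P hP x
  obtain ⟨σ, hσ, g, hg, hx⟩ := hc G P hP x
  by_cases h1 : v ∈ σ ∧ w ∈ σ
  · rcases hP (g w * (g v)⁻¹) with h2 | h2
    · obtain ⟨g', hg', he⟩ := cover_half (h σ hσ) h1.1 h1.2 hne P g hg h2
      refine ⟨_, mem_star.2 ⟨σ, hσ, Or.inr ⟨h1, Or.inl rfl⟩⟩, g', hg', fun j => ?_⟩
      rw [hx j, he j]
    · rw [mul_inv, inv_inv, mul_comm] at h2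
      obtain ⟨g', hg', he⟩ := cover_half (h σ hσ) h1.2 h1.1 hne.symm P g hg h2
      rw [add_comm] at hg' he
      refine ⟨_, mem_star.2 ⟨σ, hσ, Or.inr ⟨h1, Or.inr rfl⟩⟩, g', hg', fun j => ?_⟩
      rw [hx j, he j]
  · exact ⟨σ, mem_star.2 ⟨σ, hσ, Or.inl ⟨h1, rfl⟩⟩, g, hg, hx⟩

theorem star_signOn {r : ℕ} {S : Finset (Finset (ZVec r))} {v w : ZVec r}
    {ψ : ZVec r →ₗ[ℤ] ℤ} (h : SignOn S ψ) : SignOn (star S v w) ψ := by
  intro τ hτ
  obtain ⟨σ, hσ, h1⟩ := mem_star.1 hτ
  rcases h1 with ⟨-, rfl⟩ | ⟨⟨hv, hw⟩, h2⟩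
  · exact h _ hσ
  · have key : ∀ u ∈ τ, u = v + w ∨ u ∈ σ := by
      intro u hu
      rcases h2 with rfl | rfl
      · rcases Finset.mem_insert.1 hu with h3 | h3
        · exact Or.inl h3
        · exact Or.inr (Finset.mem_of_mem_erase h3)
      · rcases Finset.mem_insert.1 hu with h3 | h3
        · exact Or.inl h3
        · exact Or.inr (Finset.mem_of_mem_erase h3)
    rcases h σ hσ with h3 | h3
    · left
      intro u hu
      rcases key u hu with rfl | h4
      · rw [map_add]; exact add_nonneg (h3 v hv) (h3 w hw)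
      · exact h3 u h4
    · right
      intro u hu
      rcases key u hu with rfl | h4
      · rw [map_add]; exact add_nonpos (h3 v hv) (h3 w hw)
      · exact h3 u h4

/-- The bad edges of weight exactly `m`. -/
def bad {r : ℕ} (S : Finset (Finset (ZVec r))) (ψ : ZVec r →ₗ[ℤ] ℤ) (m : ℤ) :
    Finset (ZVec r × ZVec r) :=
  (S.biUnion fun σ => σ ×ˢ σ).filter fun p => 0 < ψ p.1 ∧ ψ p.2 < 0 ∧ ψ p.1 - ψ p.2 = m

theorem mem_bad {r : ℕ} {S : Finset (Finset (ZVec r))} {ψ : ZVec r →ₗ[ℤ] ℤ} {m : ℤ}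
    {p : ZVec r × ZVec r} : p ∈ bad S ψ m ↔
      (∃ σ ∈ S, p.1 ∈ σ ∧ p.2 ∈ σ) ∧ 0 < ψ p.1 ∧ ψ p.2 < 0 ∧ ψ p.1 - ψ p.2 = m := by
  unfold bad
  rw [Finset.mem_filter, Finset.mem_biUnion]
  simp only [Finset.mem_product]

/-- One form: subdivide until its sign is constant. -/
theorem exists_sign.{u} {r : ℕ} (Ψ : Finset (ZVec r →ₗ[ℤ] ℤ)) (ψ : ZVec r →ₗ[ℤ] ℤ) :
    ∀ (m n : ℕ) (S : Finset (Finset (ZVec r))), (∀ σ ∈ S, Unim σ) → Covers.{u} S →
      (∀ φ ∈ Ψ, SignOn S φ) →
      (∀ σ ∈ S, ∀ a ∈ σ, ∀ b ∈ σ, 0 < ψ a → ψ b < 0 → ψ a - ψ b ≤ m) →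
      (bad S ψ m).card ≤ n →
      ∃ S' : Finset (Finset (ZVec r)), (∀ σ ∈ S', Unim σ) ∧ Covers.{u} S' ∧
        (∀ φ ∈ Ψ, SignOn S' φ) ∧ SignOn S' ψ := by
  intro m
  induction m with
  | zero =>
    intro n S hU hC hΨ hb _
    refine ⟨S, hU, hC, hΨ, fun σ hσ => ?_⟩
    by_contra hcon
    push Not at hcon
    obtain ⟨⟨b, hbσ, hb0⟩, a, haσ, ha0⟩ := hcon
    have := hb σ hσ a haσ b hbσ ha0 hb0
    push_cast at this
    omega
  | succ m ihm =>
    intro n
    induction n with
    | zero =>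
      intro S hU hC hΨ hb hn
      refine ihm (bad S ψ m).card S hU hC hΨ (fun σ hσ a ha b hb' ha0 hb0 => ?_) le_rfl
      have h1 := hb σ hσ a ha b hb' ha0 hb0
      have h2 : ψ a - ψ b ≠ ((m + 1 : ℕ) : ℤ) := by
        intro h3
        have h4 : (a, b) ∈ bad S ψ ((m + 1 : ℕ) : ℤ) :=
          mem_bad.2 ⟨⟨σ, hσ, ha, hb'⟩, ha0, hb0, h3⟩
        rw [Finset.card_eq_zero.1 (Nat.le_zero.1 hn)] at h4
        simp at h4
      push_cast at h1 h2
      omega
    | succ n ihn =>
      intro S hU hC hΨ hb hn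
      by_cases hemp : bad S ψ ((m + 1 : ℕ) : ℤ) = ∅
      · exact ihn S hU hC hΨ hb (by rw [hemp]; simp)
      · obtain ⟨⟨v, w⟩, hvw⟩ := Finset.nonempty_iff_ne_empty.2 hemp
        obtain ⟨-, hv0, hw0, hm⟩ := mem_bad.1 hvw
        simp only at hv0 hw0 hm
        have hne : v ≠ w := by
          rintro rfl; omega
        -- classification of the bad pairs of the subdivision
        have key : ∀ τ ∈ star S v w, ∀ a ∈ τ, ∀ b ∈ τ, 0 < ψ a → ψ b < 0 →
            (ψ a - ψ b < ((m + 1 : ℕ) : ℤ)) ∨ ((∃ σ ∈ S, a ∈ σ ∧ b ∈ σ) ∧ (a, b) ≠ (v, w)) := by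
          intro τ hτ a ha b hb' ha0 hb0
          obtain ⟨σ, hσ, h1⟩ := mem_star.1 hτ
          rcases h1 with ⟨h1, rfl⟩ | ⟨⟨hv, hw⟩, h2⟩
          · right
            refine ⟨⟨_, hσ, ha, hb'⟩, fun h2 => h1 ?_⟩
            rw [Prod.mk.injEq] at h2
            exact ⟨h2.1 ▸ ha, h2.2 ▸ hb'⟩
          · -- members of τ
            have hmem : ∀ u ∈ τ, u = v + w ∨ u ∈ σ := by
              intro u hu
              rcases h2 with rfl | rfl
              · rcases Finset.mem_insert.1 hu with h3 | h3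
                · exact Or.inl h3
                · exact Or.inr (Finset.mem_of_mem_erase h3)
              · rcases Finset.mem_insert.1 hu with h3 | h3
                · exact Or.inl h3
                · exact Or.inr (Finset.mem_of_mem_erase h3)
            rcases hmem a ha with rfl | haσ
            · rcases hmem b hb' with rfl | hbσ
              · omega
              · left
                have := hb σ hσ v hv b hbσ hv0 hb0
                rw [map_add]
                omega
            · rcases hmem b hb' with rfl | hbσ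
              · left
                have := hb σ hσ a haσ w hw ha0 hw0
                rw [map_add]
                omega
              · by_cases hab : (a, b) = (v, w)
                · -- then both are in τ, so one of them is `v + w`
                  rw [Prod.mk.injEq] at hab
                  obtain ⟨rfl, rfl⟩ := hab
                  have hnm := (hU σ hσ).add_notMem hv hw hne
                  exfalso
                  rcases h2 with rfl | rfl
                  · rcases Finset.mem_insert.1 ha with h3 | h3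
                    · exact hnm (h3 ▸ hv)
                    · exact (Finset.mem_erase.1 h3).1 rfl
                  · rcases Finset.mem_insert.1 hb' with h3 | h3
                    · exact hnm (h3 ▸ hw)
                    · exact (Finset.mem_erase.1 h3).1 rfl
                · right
                  exact ⟨⟨σ, hσ, haσ, hbσ⟩, hab⟩
        refine ihn (star S v w) (star_unim hU hne) (star_covers hU hne hC)
          (fun φ hφ => star_signOn (hΨ φ hφ)) ?_ ?_
        · intro τ hτ a ha b hb' ha0 hb0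
          rcases key τ hτ a ha b hb' ha0 hb0 with h1 | ⟨⟨σ, hσ, h1, h2⟩, -⟩
          · exact h1.le
          · exact hb σ hσ a h1 b h2 ha0 hb0
        · have hsub : bad (star S v w) ψ ((m + 1 : ℕ) : ℤ) ⊆
              (bad S ψ ((m + 1 : ℕ) : ℤ)).erase (v, w) := by
            rintro ⟨a, b⟩ hab
            obtain ⟨⟨τ, hτ, ha, hb'⟩, ha0, hb0, h3⟩ := mem_bad.1 hab
            simp only at ha hb' ha0 hb0 h3
            rcases key τ hτ a ha b hb' ha0 hb0 with h1 | ⟨h1, h2⟩
            · omega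
            · exact Finset.mem_erase.2 ⟨h2, mem_bad.2 ⟨h1, ha0, hb0, h3⟩⟩
          have := Finset.card_le_card hsub
          rw [Finset.card_erase_of_mem hvw] at this
          omega

/-- The orthants. -/
def orth {r : ℕ} (A : Finset (Fin r)) : Finset (ZVec r) :=
  Finset.univ.image fun j => Pi.single j (if j ∈ A then (1 : ℤ) else -1)

/-- The dot product as a linear form. -/
def dot {r : ℕ} (v : ZVec r) : ZVec r →ₗ[ℤ] ℤ where
  toFun x := ∑ j, v j * x j
  map_add' x y := by simp [mul_add, Finset.sum_add_distrib]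
  map_smul' c x := by
    simp only [Pi.smul_apply, smul_eq_mul, RingHom.id_apply, Finset.mul_sum]
    exact Finset.sum_congr rfl fun j _ => by ring

theorem dot_single {r : ℕ} (j : Fin r) (c : ℤ) (x : ZVec r) :
    dot (Pi.single j c) x = c * x j := by
  show ∑ k, (Pi.single j c : ZVec r) k * x k = c * x j
  rw [Finset.sum_eq_single j]
  · rw [Pi.single_eq_same]
  · intro k _ hk; rw [Pi.single_eq_of_ne hk, zero_mul]
  · intro h; exact absurd (Finset.mem_univ j) h

theorem orth_inj {r : ℕ} (A : Finset (Fin r)) :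
    Function.Injective fun j : Fin r => (Pi.single j (if j ∈ A then (1 : ℤ) else -1) : ZVec r) := by
  intro j k h
  by_contra hne
  have h1 := congrFun h j
  simp only at h1
  rw [Pi.single_eq_same, Pi.single_eq_of_ne hne] at h1
  split_ifs at h1
  exact one_ne_zero h1

theorem orth_unim {r : ℕ} (A : Finset (Fin r)) : Unim (orth A) := by
  refine ⟨dot, ?_, ?_⟩
  · intro v hv w hw
    obtain ⟨j, -, rfl⟩ := Finset.mem_image.1 hv
    obtain ⟨k, -, rfl⟩ := Finset.mem_image.1 hw
    rw [dot_single]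
    by_cases hjk : j = k
    · subst hjk
      rw [if_pos rfl, Pi.single_eq_same]
      split_ifs <;> norm_num
    · have : (Pi.single j (if j ∈ A then (1 : ℤ) else -1) : ZVec r) ≠
          Pi.single k (if k ∈ A then (1 : ℤ) else -1) := fun hh => hjk (orth_inj A hh)
      rw [if_neg this, Pi.single_eq_of_ne hjk, mul_zero]
  · intro x
    unfold orth
    rw [Finset.sum_image fun a _ b _ hab => orth_inj A hab]
    ext k
    rw [Finset.sum_apply, Finset.sum_eq_single k]
    · rw [dot_single, Pi.smul_apply, Pi.single_eq_same, smul_eq_mul]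
      split_ifs <;> ring
    · intro j _ hj
      rw [Pi.smul_apply, Pi.single_eq_of_ne (Ne.symm hj), smul_zero]
    · intro h; exact absurd (Finset.mem_univ k) h

theorem orth_covers.{u} (r : ℕ) :
    Covers.{u} ((Finset.univ : Finset (Finset (Fin r))).image orth) := by
  classical
  intro G _ P hP x
  let A : Finset (Fin r) := Finset.univ.filter fun j => x j ∈ P
  refine ⟨orth A, Finset.mem_image_of_mem _ (Finset.mem_univ _),
    fun v => ∏ j, x j ^ (v j), ?_, ?_⟩
  · intro v hv
    obtain ⟨j, -, rfl⟩ := Finset.mem_image.1 hv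
    show ∏ k, x k ^ ((Pi.single j (if j ∈ A then (1 : ℤ) else -1) : ZVec r) k) ∈ P
    rw [Finset.prod_eq_single j]
    · rw [Pi.single_eq_same]
      by_cases hj : x j ∈ P
      · have : j ∈ A := Finset.mem_filter.2 ⟨Finset.mem_univ _, hj⟩
        rw [if_pos this, zpow_one]; exact hj
      · have : j ∉ A := fun hh => hj (Finset.mem_filter.1 hh).2
        rw [if_neg this, zpow_neg, zpow_one]
        exact (hP (x j)).resolve_left hj
    · intro k _ hk
      rw [Pi.single_eq_of_ne hk, zpow_zero]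
    · intro h; exact absurd (Finset.mem_univ j) h
  · intro k
    unfold orth
    rw [Finset.prod_image fun a _ b _ hab => orth_inj A hab]
    rw [Finset.prod_eq_single k]
    · beta_reduce
      rw [Pi.single_eq_same, Finset.prod_eq_single k]
      · rw [Pi.single_eq_same, ← zpow_mul]
        split_ifs
        · norm_num
        · norm_num
      · intro i _ hi
        rw [Pi.single_eq_of_ne hi, zpow_zero]
      · intro h; exact absurd (Finset.mem_univ k) h
    · intro j _ hj
      rw [Pi.single_eq_of_ne (Ne.symm hj), zpow_zero]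
    · intro h; exact absurd (Finset.mem_univ k) h

/-- **Existence of fans.** -/
theorem exists_fan.{u} {r : ℕ} (Ψ : Finset (ZVec r →ₗ[ℤ] ℤ)) :
    ∃ S : Finset (Finset (ZVec r)), (∀ σ ∈ S, Unim σ) ∧ Covers.{u} S ∧
      ∀ ψ ∈ Ψ, SignOn S ψ := by
  classical
  induction Ψ using Finset.induction_on with
  | empty =>
    refine ⟨(Finset.univ : Finset (Finset (Fin r))).image orth, ?_, orth_covers r, ?_⟩
    · intro σ hσ
      obtain ⟨A, -, rfl⟩ := Finset.mem_image.1 hσ
      exact orth_unim A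
    · intro ψ hψ; simp at hψ
  | insert ψ Ψ _ ih =>
    obtain ⟨S, hU, hC, hΨ⟩ := ih
    -- a bound for the weights
    obtain ⟨M, hM⟩ : ∃ M : ℕ, ∀ σ ∈ S, ∀ a ∈ σ, |ψ a| ≤ M := by
      refine ⟨∑ a ∈ S.biUnion id, (ψ a).natAbs, fun σ hσ a ha => ?_⟩
      have h1 : a ∈ S.biUnion id := Finset.mem_biUnion.2 ⟨σ, hσ, ha⟩
      have h2 : (ψ a).natAbs ≤ ∑ a ∈ S.biUnion id, (ψ a).natAbs :=
        Finset.single_le_sum (f := fun a => (ψ a).natAbs) (fun _ _ => Nat.zero_le _) h1
      rw [Int.abs_eq_natAbs]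
      exact_mod_cast h2
    obtain ⟨S', h1, h2, h3, h4⟩ := exists_sign Ψ ψ (2 * M) _ S hU hC hΨ
      (fun σ hσ a ha b hb _ _ => by
        have h5 := hM σ hσ a ha
        have h6 := hM σ hσ b hb
        rw [abs_le] at h5 h6
        push_cast
        omega) le_rfl
    refine ⟨S', h1, h2, fun φ hφ => ?_⟩
    rcases Finset.mem_insert.1 hφ with rfl | hφ
    · exact h4
    · exact h3 φ hφ

/-- The covering property for a field with a valuation ring. -/
theorem Covers.field.{u} {r : ℕ} {S : Finset (Finset (ZVec r))} (h : Covers.{u} S)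
    {F : Type u} [Field F] (O : ValuationSubring F) (x : Fin r → F) (hx : ∀ j, x j ≠ 0) :
    ∃ σ ∈ S, ∃ g : ZVec r → F, (∀ v, g v ≠ 0) ∧ (∀ v ∈ σ, g v ∈ O) ∧
      ∀ j, x j = ∏ v ∈ σ, g v ^ (v j) := by
  let P : Submonoid Fˣ :=
    { carrier := {u | (u : F) ∈ O}
      mul_mem' := fun {a b} ha hb => by
        show ((a * b : Fˣ) : F) ∈ O
        rw [Units.val_mul]; exact O.mul_mem _ _ ha hb
      one_mem' := by show ((1 : Fˣ) : F) ∈ O; rw [Units.val_one]; exact O.one_mem }
  have hP : ∀ g : Fˣ, g ∈ P ∨ g⁻¹ ∈ P := by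
    intro g
    rcases O.mem_or_inv_mem (g : F) with h1 | h1
    · exact Or.inl h1
    · right
      show ((g⁻¹ : Fˣ) : F) ∈ O
      rw [Units.val_inv_eq_inv_val]; exact h1
  obtain ⟨σ, hσ, g, hg, he⟩ := h Fˣ P hP fun j => Units.mk0 (x j) (hx j)
  refine ⟨σ, hσ, fun v => (g v : F), fun v => (g v).ne_zero, fun v hv => hg v hv, fun j => ?_⟩
  have h1 := congrArg (fun u : Fˣ => (u : F)) (he j)
  simp only [Units.val_mk0] at h1
  rw [h1]
  push_cast
  rfl

/-- The covering property for a linearly ordered additive group. -/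
theorem Covers.ordered.{u} {r : ℕ} {S : Finset (Finset (ZVec r))} (h : Covers.{u} S)
    {Γ : Type u} [AddCommGroup Γ] [LinearOrder Γ] [IsOrderedAddMonoid Γ] (ν : Fin r → Γ) :
    ∃ σ ∈ S, ∃ g : ZVec r → Γ, (∀ v ∈ σ, 0 ≤ g v) ∧ ∀ j, ν j = ∑ v ∈ σ, v j • g v := by
  let P : Submonoid (Multiplicative Γ) :=
    { carrier := {u | 0 ≤ Multiplicative.toAdd u}
      mul_mem' := fun {a b} ha hb => by
        show 0 ≤ Multiplicative.toAdd (a * b)
        rw [toAdd_mul]; exact add_nonneg ha hb
      one_mem' := by show 0 ≤ Multiplicative.toAdd (1 : Multiplicative Γ); rw [toAdd_one] }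
  have hP : ∀ g : Multiplicative Γ, g ∈ P ∨ g⁻¹ ∈ P := by
    intro g
    rcases le_total 0 (Multiplicative.toAdd g) with h1 | h1
    · exact Or.inl h1
    · right
      show 0 ≤ Multiplicative.toAdd g⁻¹
      rw [toAdd_inv]; exact neg_nonneg.2 h1
  obtain ⟨σ, hσ, g, hg, he⟩ := h (Multiplicative Γ) P hP fun j => Multiplicative.ofAdd (ν j)
  refine ⟨σ, hσ, fun v => Multiplicative.toAdd (g v), fun v hv => hg v hv, fun j => ?_⟩
  have h1 := congrArg Multiplicative.toAdd (he j)
  rw [toAdd_ofAdd] at h1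
  rw [h1, toAdd_prod]
  rfl

end Pool.Agent.Work.WRC
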