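import Mathlib
import Pool.Agent.Work.MP_4329d7_ag_wrc.Fan

/-!
# Uniqueness in complete unimodular fans

`UniqF S`: a vector of `Γ ⊗ ℤ^r`, `Γ` a linearly ordered group, is in at most one way a
nonnegative combination of the vectors of a member of `S`.  `exists_fan'` is `exists_fan` with
this property.
-/

namespace Pool.Agent.Work.WRC

open Finset

/-- The vector of `Γ ⊗ ℤ^r` with coefficients `γ`. -/
noncomputable def vecF {r : ℕ} {Γ : Type} [AddCommGroup Γ] (j : Fin r) : (ZVec r →₀ Γ) →+ Γ :=
  Finsupp.liftAddHom fun v => (zsmulAddGroupHom (v j) : Γ →+ Γ)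

theorem vecF_single {r : ℕ} {Γ : Type} [AddCommGroup Γ] (j : Fin r) (v : ZVec r) (c : Γ) :
    vecF j (Finsupp.single v c) = v j • c := by
  unfold vecF
  rw [Finsupp.liftAddHom_apply_single]
  rfl

theorem vecF_eq {r : ℕ} {Γ : Type} [AddCommGroup Γ] (j : Fin r) (γ : ZVec r →₀ Γ)
    {s : Finset (ZVec r)} (hs : γ.support ⊆ s) : vecF j γ = ∑ v ∈ s, v j • γ v := by
  unfold vecF
  rw [Finsupp.liftAddHom_apply, Finsupp.sum_of_support_subset γ hs]
  · rfl
  · intro v _
    rw [map_zero]

/-- Nonnegative combinations of the members of `S` are unique. -/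
def UniqF {r : ℕ} (S : Finset (Finset (ZVec r))) : Prop :=
  ∀ (Γ : Type) [AddCommGroup Γ] [LinearOrder Γ] [IsOrderedAddMonoid Γ],
    ∀ σ ∈ S, ∀ σ' ∈ S, ∀ γ γ' : ZVec r →₀ Γ, γ.support ⊆ σ → γ'.support ⊆ σ' →
      (∀ v, 0 ≤ γ v) → (∀ v, 0 ≤ γ' v) → (∀ j, vecF j γ = vecF j γ') → γ = γ'

section star

variable {r : ℕ} {Γ : Type} [AddCommGroup Γ] [LinearOrder Γ] [IsOrderedAddMonoid Γ]

/-- The coefficients before the subdivision. -/
noncomputable def unstar (v w : ZVec r) (γ : ZVec r →₀ Γ) : ZVec r →₀ Γ :=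
  γ.erase (v + w) + Finsupp.single v (γ (v + w)) + Finsupp.single w (γ (v + w))

theorem unstar_nonneg {v w : ZVec r} {γ : ZVec r →₀ Γ} (h : ∀ u, 0 ≤ γ u) (u : ZVec r) :
    0 ≤ unstar v w γ u := by
  unfold unstar
  rw [Finsupp.add_apply, Finsupp.add_apply, Finsupp.single_apply, Finsupp.single_apply,
    Finsupp.erase_apply]
  refine add_nonneg (add_nonneg ?_ ?_) ?_ <;> split_ifs <;> first | exact le_rfl | exact h _

omit [LinearOrder Γ] [IsOrderedAddMonoid Γ] in
theorem vecF_unstar {v w : ZVec r} (γ : ZVec r →₀ Γ) (j : Fin r) :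
    vecF j (unstar v w γ) = vecF j γ := by
  unfold unstar
  rw [map_add, map_add, vecF_single, vecF_single]
  conv_rhs => rw [← Finsupp.erase_add_single (v + w) γ, map_add, vecF_single]
  rw [add_assoc, ← add_smul]
  rfl

omit [IsOrderedAddMonoid Γ] in
theorem unstar_zero {v w : ZVec r} {γ : ZVec r →₀ Γ} (h : γ (v + w) = 0) :
    unstar v w γ = γ := by
  unfold unstar
  rw [h, Finsupp.single_zero, Finsupp.single_zero, add_zero, add_zero]
  exact Finsupp.erase_of_notMem_support (by simpa using h)

omit [LinearOrder Γ] [IsOrderedAddMonoid Γ] in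
theorem unstar_support {v w : ZVec r} {γ : ZVec r →₀ Γ} {σ : Finset (ZVec r)} (hv : v ∈ σ)
    (hw : w ∈ σ) (h : ∀ u, u ≠ v + w → u ∉ σ → γ u = 0) : (unstar v w γ).support ⊆ σ := by
  intro u hu
  by_contra hn
  rw [Finsupp.mem_support_iff] at hu
  apply hu
  have hvu : v ≠ u := fun h' => hn (h' ▸ hv)
  have hwu : w ≠ u := fun h' => hn (h' ▸ hw)
  unfold unstar
  rw [Finsupp.add_apply, Finsupp.add_apply, Finsupp.single_apply, Finsupp.single_apply,
    Finsupp.erase_apply, if_neg hvu, if_neg hwu, add_zero, add_zero]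
  split_ifs with h1
  · rfl
  · exact h u h1 hn

end star

theorem star_uniqF {r : ℕ} {S : Finset (Finset (ZVec r))} (hU : ∀ σ ∈ S, Unim σ)
    {v w : ZVec r} (hne : v ≠ w) (h : UniqF S) : UniqF (star S v w) := by
  classical
  by_cases hex : ∃ σ ∈ S, v ∈ σ ∧ w ∈ σ
  · obtain ⟨σ₁, hσ₁, hv₁, hw₁⟩ := hex
    have hv0 : v ≠ 0 := (hU σ₁ hσ₁).ne_zero hv₁
    have hw0 : w ≠ 0 := (hU σ₁ hσ₁).ne_zero hw₁
    have hvz : v ≠ v + w := fun h' => hw0 (by simpa using h'.symm)
    have hwz : w ≠ v + w := fun h' => hv0 (by simpa using h'.symm)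
    -- `v + w` is not a ray
    have hray : ∀ σ ∈ S, v + w ∉ σ := by
      intro σ hσ hm
      have h1 := h ℤ σ hσ σ₁ hσ₁ (Finsupp.single (v + w) 1)
        (Finsupp.single v 1 + Finsupp.single w 1)
        (by
          intro u hu
          have := Finsupp.support_single_subset hu
          rw [Finset.mem_singleton] at this
          rw [this]; exact hm)
        (by
          intro u hu
          rcases Finset.mem_union.1 (Finsupp.support_add hu) with h2 | h2
          · have := Finsupp.support_single_subset h2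
            rw [Finset.mem_singleton] at this
            rw [this]; exact hv₁
          · have := Finsupp.support_single_subset h2
            rw [Finset.mem_singleton] at this
            rw [this]; exact hw₁)
        (by
          intro u
          rw [Finsupp.single_apply]
          split_ifs <;> norm_num)
        (by
          intro u
          rw [Finsupp.add_apply, Finsupp.single_apply, Finsupp.single_apply]
          split_ifs <;> norm_num)
        (by
          intro j
          rw [map_add, vecF_single, vecF_single, vecF_single, ← add_smul]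
          rfl)
      have h2 := DFunLike.congr_fun h1 v
      rw [Finsupp.single_apply, Finsupp.add_apply, Finsupp.single_apply, Finsupp.single_apply,
        if_neg hvz.symm, if_pos rfl, if_neg hne.symm] at h2
      norm_num at h2
    intro Γ _ _ _ ρ hρ ρ' hρ' γ γ' hs hs' hγ hγ' he
    -- the old coefficients
    have key : ∀ ρ ∈ star S v w, ∀ γ : ZVec r →₀ Γ, γ.support ⊆ ρ →
        (∀ u, 0 ≤ γ u) → (∃ σ ∈ S, (unstar v w γ).support ⊆ σ) ∧ (γ v = 0 ∨ γ w = 0) := by
      intro ρ hρ γ hs hγ
      obtain ⟨σ, hσ, h1⟩ := mem_star.1 hρ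
      rcases h1 with ⟨h1, rfl⟩ | ⟨⟨hv, hw⟩, h2⟩
      · have h2 : γ (v + w) = 0 := by
          by_contra h3
          exact hray _ hσ (hs (Finsupp.mem_support_iff.2 h3))
        refine ⟨⟨ρ, hσ, by rw [unstar_zero h2]; exact hs⟩, ?_⟩
        by_contra h3
        push Not at h3
        exact h1 ⟨hs (Finsupp.mem_support_iff.2 h3.1), hs (Finsupp.mem_support_iff.2 h3.2)⟩
      · refine ⟨⟨σ, hσ, unstar_support hv hw fun u hu hn => ?_⟩, ?_⟩
        · by_contra h3
          have h4 := hs (Finsupp.mem_support_iff.2 h3)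
          rcases h2 with rfl | rfl
          · rcases Finset.mem_insert.1 h4 with h5 | h5
            · exact hu h5
            · exact hn (Finset.mem_of_mem_erase h5)
          · rcases Finset.mem_insert.1 h4 with h5 | h5
            · exact hu h5
            · exact hn (Finset.mem_of_mem_erase h5)
        · rcases h2 with rfl | rfl
          · left
            by_contra h3
            rcases Finset.mem_insert.1 (hs (Finsupp.mem_support_iff.2 h3)) with h5 | h5
            · exact hvz h5
            · exact (Finset.mem_erase.1 h5).1 rfl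
          · right
            by_contra h3
            rcases Finset.mem_insert.1 (hs (Finsupp.mem_support_iff.2 h3)) with h5 | h5
            · exact hwz h5
            · exact (Finset.mem_erase.1 h5).1 rfl
    obtain ⟨⟨σ, hσ, h1⟩, h2⟩ := key ρ hρ γ hs hγ
    obtain ⟨⟨σ', hσ', h1'⟩, h2'⟩ := key ρ' hρ' γ' hs' hγ'
    have h3 := h Γ σ hσ σ' hσ' _ _ h1 h1' (unstar_nonneg hγ) (unstar_nonneg hγ')
      fun j => by rw [vecF_unstar, vecF_unstar, he j]
    -- values
    have hval : ∀ (γ : ZVec r →₀ Γ), unstar v w γ v = γ v + γ (v + w) ∧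
        unstar v w γ w = γ w + γ (v + w) ∧
        ∀ u, u ≠ v → u ≠ w → u ≠ v + w → unstar v w γ u = γ u := by
      intro γ
      refine ⟨?_, ?_, fun u h4 h5 h6 => ?_⟩
      · unfold unstar
        rw [Finsupp.add_apply, Finsupp.add_apply, Finsupp.single_apply, Finsupp.single_apply,
          Finsupp.erase_apply, if_neg hvz, if_pos rfl, if_neg hne.symm, add_zero]
      · unfold unstar
        rw [Finsupp.add_apply, Finsupp.add_apply, Finsupp.single_apply, Finsupp.single_apply,
          Finsupp.erase_apply, if_neg hwz, if_neg hne, if_pos rfl, add_zero]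
      · unfold unstar
        rw [Finsupp.add_apply, Finsupp.add_apply, Finsupp.single_apply, Finsupp.single_apply,
          Finsupp.erase_apply, if_neg h6, if_neg h4.symm, if_neg h5.symm, add_zero, add_zero]
    have hv2 : γ v + γ (v + w) = γ' v + γ' (v + w) := by
      rw [← (hval γ).1, ← (hval γ').1, h3]
    have hw2 : γ w + γ (v + w) = γ' w + γ' (v + w) := by
      rw [← (hval γ).2.1, ← (hval γ').2.1, h3]
    have hc : γ (v + w) = γ' (v + w) := by
      have hmin : ∀ γ : ZVec r →₀ Γ, (∀ u, 0 ≤ γ u) → (γ v = 0 ∨ γ w = 0) →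
          γ (v + w) = min (γ v + γ (v + w)) (γ w + γ (v + w)) := by
        intro γ hγ h4
        rcases h4 with h4 | h4
        · rw [h4, zero_add, min_eq_left]
          exact le_add_of_nonneg_left (hγ w)
        · rw [h4, zero_add, min_eq_right]
          exact le_add_of_nonneg_left (hγ v)
      rw [hmin γ hγ h2, hmin γ' hγ' h2', hv2, hw2]
    ext u
    by_cases h4 : u = v + w
    · rw [h4, hc]
    by_cases h5 : u = v
    · rw [h5]; rw [hc] at hv2; exact add_right_cancel hv2
    by_cases h6 : u = w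
    · rw [h6]; rw [hc] at hw2; exact add_right_cancel hw2
    rw [← (hval γ).2.2 u h5 h6 h4, h3, (hval γ').2.2 u h5 h6 h4]
  · have h1 : star S v w = S := by
      ext τ
      rw [mem_star]
      constructor
      · rintro ⟨σ, hσ, ⟨-, rfl⟩ | ⟨h2, -⟩⟩
        · exact hσ
        · exact absurd ⟨σ, hσ, h2⟩ hex
      · intro hτ
        exact ⟨τ, hτ, Or.inl ⟨fun h2 => hex ⟨τ, hτ, h2⟩, rfl⟩⟩
    rw [h1]
    exact h

/-- One form: subdivide until its sign is constant; version with a stable property. -/
theorem exists_sign' {r : ℕ} (P : Finset (Finset (ZVec r)) → Prop)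
    (hPU : ∀ S, P S → ∀ σ ∈ S, Unim σ) (hPs : ∀ S v w, v ≠ w → P S → P (star S v w))
    (ψ : ZVec r →ₗ[ℤ] ℤ) :
    ∀ (m n : ℕ) (S : Finset (Finset (ZVec r))), P S →
      (∀ σ ∈ S, ∀ a ∈ σ, ∀ b ∈ σ, 0 < ψ a → ψ b < 0 → ψ a - ψ b ≤ m) →
      (bad S ψ m).card ≤ n →
      ∃ S' : Finset (Finset (ZVec r)), P S' ∧ SignOn S' ψ := by
  intro m
  induction m with
  | zero =>
    intro n S hP hb _
    refine ⟨S, hP, fun σ hσ => ?_⟩
    by_contra hcon
    push Not at hcon
    obtain ⟨⟨b, hbσ, hb0⟩, a, haσ, ha0⟩ := hcon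
    have := hb σ hσ a haσ b hbσ ha0 hb0
    push_cast at this
    omega
  | succ m ihm =>
    intro n
    induction n with
    | zero =>
      intro S hP hb hn
      refine ihm (bad S ψ m).card S hP (fun σ hσ a ha b hb' ha0 hb0 => ?_) le_rfl
      have h1 := hb σ hσ a ha b hb' ha0 hb0
      have h2 : ψ a - ψ b ≠ ((m + 1 : ℕ) : ℤ) := by
        intro h3
        have h4 : (a, b) ∈ bad S ψ ((m + 1 : ℕ) : ℤ) :=
          mem_bad.2 ⟨⟨σ, hσ, ha, hb'⟩, ha0, hb0, h3⟩
        rw [Finset.card_eq_zero.1 (Nat.le_zero.1 hn)] at h4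
        simp at h4
      push_cast at h1 h2
      omega
    | succ n ihn =>
      intro S hP hb hn
      have hU := hPU S hP
      by_cases hemp : bad S ψ ((m + 1 : ℕ) : ℤ) = ∅
      · exact ihn S hP hb (by rw [hemp]; simp)
      · obtain ⟨⟨v, w⟩, hvw⟩ := Finset.nonempty_iff_ne_empty.2 hemp
        obtain ⟨-, hv0, hw0, hm⟩ := mem_bad.1 hvw
        simp only at hv0 hw0 hm
        have hne : v ≠ w := by
          rintro rfl; omega
        -- classification of the bad pairs of the subdivision
        have key : ∀ τ ∈ star S v w, ∀ a ∈ τ, ∀ b ∈ τ, 0 < ψ a → ψ b < 0 →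
            (ψ a - ψ b < ((m + 1 : ℕ) : ℤ)) ∨ ((∃ σ ∈ S, a ∈ σ ∧ b ∈ σ) ∧ (a, b) ≠ (v, w)) := by
          intro τ hτ a ha b hb' ha0 hb0
          obtain ⟨σ, hσ, h1⟩ := mem_star.1 hτ
          rcases h1 with ⟨h1, rfl⟩ | ⟨⟨hv, hw⟩, h2⟩
          · right
            refine ⟨⟨_, hσ, ha, hb'⟩, fun h2 => h1 ?_⟩
            rw [Prod.mk.injEq] at h2
            exact ⟨h2.1 ▸ ha, h2.2 ▸ hb'⟩
          · -- members of τ
            have hmem : ∀ u ∈ τ, u = v + w ∨ u ∈ σ := by
              intro u hu
              rcases h2 with rfl | rfl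
              · rcases Finset.mem_insert.1 hu with h3 | h3
                · exact Or.inl h3
                · exact Or.inr (Finset.mem_of_mem_erase h3)
              · rcases Finset.mem_insert.1 hu with h3 | h3
                · exact Or.inl h3
                · exact Or.inr (Finset.mem_of_mem_erase h3)
            rcases hmem a ha with rfl | haσ
            · rcases hmem b hb' with rfl | hbσ
              · omega
              · left
                have := hb σ hσ v hv b hbσ hv0 hb0
                rw [map_add]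
                omega
            · rcases hmem b hb' with rfl | hbσ
              · left
                have := hb σ hσ a haσ w hw ha0 hw0
                rw [map_add]
                omega
              · by_cases hab : (a, b) = (v, w)
                · -- then both are in τ, so one of them is `v + w`
                  rw [Prod.mk.injEq] at hab
                  obtain ⟨rfl, rfl⟩ := hab
                  have hnm := (hU σ hσ).add_notMem hv hw hne
                  exfalso
                  rcases h2 with rfl | rfl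
                  · rcases Finset.mem_insert.1 ha with h3 | h3
                    · exact hnm (h3 ▸ hv)
                    · exact (Finset.mem_erase.1 h3).1 rfl
                  · rcases Finset.mem_insert.1 hb' with h3 | h3
                    · exact hnm (h3 ▸ hw)
                    · exact (Finset.mem_erase.1 h3).1 rfl
                · right
                  exact ⟨⟨σ, hσ, haσ, hbσ⟩, hab⟩
        refine ihn (star S v w) (hPs S v w hne hP) ?_ ?_
        · intro τ hτ a ha b hb' ha0 hb0
          rcases key τ hτ a ha b hb' ha0 hb0 with h1 | ⟨⟨σ, hσ, h1, h2⟩, -⟩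
          · exact h1.le
          · exact hb σ hσ a h1 b h2 ha0 hb0
        · have hsub : bad (star S v w) ψ ((m + 1 : ℕ) : ℤ) ⊆
              (bad S ψ ((m + 1 : ℕ) : ℤ)).erase (v, w) := by
            rintro ⟨a, b⟩ hab
            obtain ⟨⟨τ, hτ, ha, hb'⟩, ha0, hb0, h3⟩ := mem_bad.1 hab
            simp only at ha hb' ha0 hb0 h3
            rcases key τ hτ a ha b hb' ha0 hb0 with h1 | ⟨h1, h2⟩
            · omega
            · exact Finset.mem_erase.2 ⟨h2, mem_bad.2 ⟨h1, ha0, hb0, h3⟩⟩
          have := Finset.card_le_card hsub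
          rw [Finset.card_erase_of_mem hvw] at this
          omega

theorem single_notMem_orth {r : ℕ} (A : Finset (Fin r)) (j : Fin r) {c : ℤ} (hc : c ≠ 0)
    (h : c ≠ if j ∈ A then (1 : ℤ) else -1) : (Pi.single j c : ZVec r) ∉ orth A := by
  intro hm
  obtain ⟨k, -, hk⟩ := Finset.mem_image.1 hm
  have h1 := congrFun hk j
  rw [Pi.single_eq_same] at h1
  by_cases hjk : j = k
  · subst hjk
    rw [Pi.single_eq_same] at h1
    exact h h1.symm
  · rw [Pi.single_eq_of_ne hjk] at h1
    exact hc h1.symm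

theorem orth_uniqF (r : ℕ) : UniqF ((Finset.univ : Finset (Finset (Fin r))).image orth) := by
  classical
  intro Γ _ _ _
  -- the coefficients are functions of the vector
  have key : ∀ (A : Finset (Fin r)) (γ : ZVec r →₀ Γ), γ.support ⊆ orth A → (∀ v, 0 ≤ γ v) →
      (∀ j, γ (Pi.single j 1) = max (vecF j γ) 0) ∧ (∀ j, γ (Pi.single j (-1)) =
        max (-vecF j γ) 0) ∧ ∀ u, (∀ j, u ≠ Pi.single j 1 ∧ u ≠ Pi.single j (-1)) → γ u = 0 := by
    intro A γ hs hγ
    have hz : ∀ u, u ∉ orth A → γ u = 0 := by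
      intro u hu
      by_contra h
      exact hu (hs (Finsupp.mem_support_iff.2 h))
    have hvec : ∀ j, vecF j γ = (if j ∈ A then (1 : ℤ) else -1) •
        γ (Pi.single j (if j ∈ A then (1 : ℤ) else -1)) := by
      intro j
      rw [vecF_eq j γ hs]
      unfold orth
      rw [Finset.sum_image fun a _ b _ hab => orth_inj A hab, Finset.sum_eq_single j]
      · rw [Pi.single_eq_same]
      · intro k _ hk
        rw [Pi.single_eq_of_ne (Ne.symm hk), zero_smul]
      · intro h; exact absurd (Finset.mem_univ j) h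
    refine ⟨fun j => ?_, fun j => ?_, fun u hu => ?_⟩
    · rw [hvec j]
      by_cases hj : j ∈ A
      · rw [if_pos hj, one_smul, max_eq_left (hγ _)]
      · rw [if_neg hj, hz _ (single_notMem_orth A j one_ne_zero (by rw [if_neg hj]; norm_num)),
          neg_one_smul, max_eq_right (neg_nonpos.2 (hγ _))]
    · rw [hvec j]
      by_cases hj : j ∈ A
      · rw [if_pos hj, hz _ (single_notMem_orth A j (by norm_num) (by rw [if_pos hj]; norm_num)),
          one_smul, max_eq_right (neg_nonpos.2 (hγ _))]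
      · rw [if_neg hj, neg_one_smul, neg_neg, max_eq_left (hγ _)]
    · refine hz u fun hm => ?_
      obtain ⟨j, -, hj⟩ := Finset.mem_image.1 hm
      split_ifs at hj
      · exact (hu j).1 hj.symm
      · exact (hu j).2 hj.symm
  intro σ hσ σ' hσ' γ γ' hs hs' hγ hγ' he
  obtain ⟨A, -, rfl⟩ := Finset.mem_image.1 hσ
  obtain ⟨A', -, rfl⟩ := Finset.mem_image.1 hσ'
  obtain ⟨h1, h2, h3⟩ := key A γ hs hγ
  obtain ⟨h1', h2', h3'⟩ := key A' γ' hs' hγ'
  ext u
  by_cases h4 : ∃ j, u = Pi.single j 1 ∨ u = Pi.single j (-1)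
  · obtain ⟨j, rfl | rfl⟩ := h4
    · rw [h1, h1', he]
    · rw [h2, h2', he]
  · push Not at h4
    rw [h3 u h4, h3' u h4]

/-- **Existence of fans** with uniqueness. -/
theorem exists_fan' {r : ℕ} (Ψ : Finset (ZVec r →ₗ[ℤ] ℤ)) :
    ∃ S : Finset (Finset (ZVec r)), (∀ σ ∈ S, Unim σ) ∧ Covers.{0} S ∧ UniqF S ∧
      ∀ ψ ∈ Ψ, SignOn S ψ := by
  classical
  induction Ψ using Finset.induction_on with
  | empty =>
    refine ⟨(Finset.univ : Finset (Finset (Fin r))).image orth, ?_, orth_covers r,
      orth_uniqF r, ?_⟩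
    · intro σ hσ
      obtain ⟨A, -, rfl⟩ := Finset.mem_image.1 hσ
      exact orth_unim A
    · intro ψ hψ; simp at hψ
  | insert ψ Ψ _ ih =>
    obtain ⟨S, hU, hC, hQ, hΨ⟩ := ih
    -- a bound for the weights
    obtain ⟨M, hM⟩ : ∃ M : ℕ, ∀ σ ∈ S, ∀ a ∈ σ, |ψ a| ≤ M := by
      refine ⟨∑ a ∈ S.biUnion id, (ψ a).natAbs, fun σ hσ a ha => ?_⟩
      have h1 : a ∈ S.biUnion id := Finset.mem_biUnion.2 ⟨σ, hσ, ha⟩
      have h2 : (ψ a).natAbs ≤ ∑ a ∈ S.biUnion id, (ψ a).natAbs :=
        Finset.single_le_sum (f := fun a => (ψ a).natAbs) (fun _ _ => Nat.zero_le _) h1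
      rw [Int.abs_eq_natAbs]
      exact_mod_cast h2
    obtain ⟨S', ⟨h1, h2, h3, h4⟩, h5⟩ := exists_sign'
      (fun S => (∀ σ ∈ S, Unim σ) ∧ Covers.{0} S ∧ UniqF S ∧ ∀ ψ ∈ Ψ, SignOn S ψ)
      (fun S h => h.1)
      (fun S v w hne h => ⟨star_unim h.1 hne, star_covers h.1 hne h.2.1,
        star_uniqF h.1 hne h.2.2.1, fun φ hφ => star_signOn (h.2.2.2 φ hφ)⟩)
      ψ (2 * M) _ S ⟨hU, hC, hQ, hΨ⟩
      (fun σ hσ a ha b hb _ _ => by
        have h5 := hM σ hσ a ha
        have h6 := hM σ hσ b hb
        rw [abs_le] at h5 h6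
        push_cast
        omega) le_rfl
    refine ⟨S', h1, h2, h3, fun φ hφ => ?_⟩
    rcases Finset.mem_insert.1 hφ with rfl | hφ
    · exact h5
    · exact h4 φ hφ

end Pool.Agent.Work.WRC
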