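import Mathlib
import Pool.Agent.Work.MP_4329d7_ag_wrc.FanU
import Pool.Agent.Work.MP_4329d7_ag_wrc.Defs

/-!
# The fans `FanV`

* `exists_fanV`: adapted to finitely many forms; `adapted_of_sign`;
* `FanV.dec`: decomposition of a vector with values in an ordered group, unique by `FanV.dec_uniq`;
* `FanV.star_int`: the star of a cone; `FanV.gens`: the rays generate `ℤ^r`;
* `FanV.val`: decomposition of a point of the torus over a field with a valuation ring.
-/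

namespace Pool.Agent.Work.WRC

open Finset Pool.Agent.Work.CI

/-- **Existence of fans.** -/
theorem exists_fanV {r : ℕ} (Ψ : Finset (Fin r → ℤ)) :
    ∃ (V : Type) (_ : Fintype V) (_ : DecidableEq V) (Δ : FanV V r),
      ∀ ψ ∈ Ψ, ∀ τ, Δ.cone τ →
        (∀ v ∈ τ, 0 ≤ ∑ j, ψ j * Δ.ray v j) ∨ (∀ v ∈ τ, ∑ j, ψ j * Δ.ray v j ≤ 0) := by
  classical
  obtain ⟨S, hU, hC, hQ, hS⟩ := exists_fan' (Ψ.image dot)
  let R : Finset (ZVec r) := S.biUnion id
  let emb : {v // v ∈ R} ↪ ZVec r := Function.Embedding.subtype _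
  have hsub : ∀ σ ∈ S, ∀ v ∈ σ, v ∈ R := fun σ hσ v hv => Finset.mem_biUnion.2 ⟨σ, hσ, hv⟩
  refine ⟨{v // v ∈ R}, inferInstance, inferInstance,
    { ray := fun v => v.1
      cone := fun τ => ∃ σ ∈ S, ∀ v ∈ τ, v.1 ∈ σ
      down := fun {σ τ} h hst => h.imp fun ρ hρ => ⟨hρ.1, fun v hv => hρ.2 v (hst hv)⟩
      unim := ?_
      cov := ?_
      uniq := ?_ }, ?_⟩
  · rintro τ ⟨σ, hσ, hτ⟩
    obtain ⟨l, hl, -⟩ := hU σ hσ
    refine ⟨fun v j => l v.1 (Pi.single j 1), fun v hv w hw => ?_⟩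
    have h1 : l v.1 w.1 = ∑ j, l v.1 (Pi.single j 1) * w.1 j := by
      conv_lhs => rw [← Finset.univ_sum_single w.1]
      rw [map_sum]
      refine Finset.sum_congr rfl fun j _ => ?_
      have : (Pi.single j (w.1 j) : ZVec r) = w.1 j • Pi.single j 1 := by
        rw [← Pi.single_smul, smul_eq_mul, mul_one]
      rw [this, map_smul, smul_eq_mul, mul_comm]
    rw [← h1, hl v.1 (hτ v hv) w.1 (hτ w hw)]
    by_cases hvw : v = w
    · rw [if_pos hvw, if_pos (by rw [hvw])]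
    · rw [if_neg hvw, if_neg fun h => hvw (Subtype.ext h)]
  · intro G _ P hP x
    obtain ⟨σ, hσ, g, hg, hx⟩ := hC G P hP x
    refine ⟨Finset.univ.filter fun v : {v // v ∈ R} => v.1 ∈ σ,
      ⟨σ, hσ, fun v hv => (Finset.mem_filter.1 hv).2⟩,
      fun v => if v.1 ∈ σ then g v.1 else 1, fun v => ?_, fun v hv => ?_, fun j => ?_⟩
    · beta_reduce
      split_ifs with h
      · exact hg _ h
      · exact P.one_mem
    · beta_reduce
      rw [if_neg fun h => hv (Finset.mem_filter.2 ⟨Finset.mem_univ _, h⟩)]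
    · rw [hx j]
      have h1 : ∏ v : {v // v ∈ R}, (if v.1 ∈ σ then g v.1 else 1) ^ v.1 j =
          ∏ v ∈ R, (if v ∈ σ then g v else 1) ^ v j :=
        Finset.prod_coe_sort R fun v => (if v ∈ σ then g v else 1) ^ v j
      rw [h1]
      have h2 : ∏ v ∈ σ, g v ^ v j = ∏ v ∈ σ, (if v ∈ σ then g v else 1) ^ v j :=
        Finset.prod_congr rfl fun v hv => by rw [if_pos hv]
      rw [h2]
      refine Finset.prod_subset (fun v hv => hsub σ hσ v hv) fun v _ hv => ?_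
      rw [if_neg hv, one_zpow]
  · rintro Γ _ _ _ τ τ' ⟨σ, hσ, hτ⟩ ⟨σ', hσ', hτ'⟩ γ γ' hγ hγ' he
    -- the coefficient functions
    let c : (τ : Finset {v // v ∈ R}) → ({v // v ∈ R} → Γ) → (ZVec r →₀ Γ) := fun τ γ =>
      ∑ v ∈ τ, Finsupp.single v.1 (γ v)
    have hc : ∀ τ γ u, c τ γ u = ∑ v ∈ τ, if v.1 = u then γ v else 0 := by
      intro τ γ u
      show (∑ v ∈ τ, Finsupp.single v.1 (γ v)) u = _
      rw [Finsupp.finsetSum_apply]
      exact Finset.sum_congr rfl fun v _ => Finsupp.single_apply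
    have hcv : ∀ τ γ (v : {v // v ∈ R}), c τ γ v.1 = if v ∈ τ then γ v else 0 := by
      intro τ γ v
      rw [hc]
      rw [Finset.sum_congr rfl fun w _ => show (if w.1 = v.1 then γ w else 0) =
        if w = v then γ v else 0 by
          by_cases h : w = v
          · rw [if_pos h, if_pos (by rw [h]), h]
          · rw [if_neg h, if_neg fun h' => h (Subtype.ext h')]]
      rw [Finset.sum_ite_eq']
    have hcz : ∀ τ γ u, (∀ v ∈ τ, v.1 ≠ u) → c τ γ u = 0 := by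
      intro τ γ u h
      rw [hc]
      exact Finset.sum_eq_zero fun v hv => if_neg (h v hv)
    have hcs : ∀ τ γ σ, (∀ v ∈ τ, v.1 ∈ σ) → (c τ γ).support ⊆ σ := by
      intro τ γ σ h u hu
      by_contra hn
      rw [Finsupp.mem_support_iff] at hu
      exact hu (hcz τ γ u fun v hv h' => hn (h' ▸ h v hv))
    have hcn : ∀ τ γ, (∀ v ∈ τ, 0 < γ v) → ∀ u, 0 ≤ c τ γ u := by
      intro τ γ h u
      rw [hc]
      refine Finset.sum_nonneg fun v hv => ?_
      split_ifs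
      · exact (h v hv).le
      · exact le_rfl
    have hcf : ∀ τ γ j, vecF j (c τ γ) = ∑ v ∈ τ, v.1 j • γ v := by
      intro τ γ j
      show vecF j (∑ v ∈ τ, Finsupp.single v.1 (γ v)) = _
      rw [map_sum]
      exact Finset.sum_congr rfl fun v _ => vecF_single j _ _
    have h1 := hQ Γ σ hσ σ' hσ' (c τ γ) (c τ' γ') (hcs τ γ σ hτ) (hcs τ' γ' σ' hτ')
      (hcn τ γ hγ) (hcn τ' γ' hγ') fun j => by rw [hcf, hcf]; exact he j
    ext v
    have h2 := DFunLike.congr_fun h1 v.1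
    rw [hcv, hcv] at h2
    constructor
    · intro hv
      by_contra hn
      rw [if_pos hv, if_neg hn] at h2
      exact (hγ v hv).ne' h2
    · intro hv
      by_contra hn
      rw [if_neg hn, if_pos hv] at h2
      exact (hγ' v hv).ne h2
  · rintro ψ hψ τ ⟨σ, hσ, hτ⟩
    have h1 := hS (dot ψ) (Finset.mem_image_of_mem _ hψ) σ hσ
    rcases h1 with h1 | h1
    · left
      intro v hv
      exact h1 v.1 (hτ v hv)
    · right
      intro v hv
      exact h1 v.1 (hτ v hv)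

section adapted

variable {dB r : ℕ} {B Q V : Type} [Fintype V] [DecidableEq V]

theorem pair_fibv_fan (χ : Fin (dB + r) → ℤ) (b : Fin r → ℤ) :
    pair χ (fibv b) = ∑ j, χ (Fin.natAdd dB j) * b j := by
  unfold pair fibv
  rw [Fin.sum_univ_add]
  simp

theorem adapted_of_sign (Δ : FanV V r) (f : B ⊕ Q → Lau (dB + r))
    (hf : ∀ q, f (Sum.inr q) ≠ 0)
    (h : ∀ q, ∀ χ ∈ (f (Sum.inr q)).support, ∀ χ' ∈ (f (Sum.inr q)).support, ∀ τ, Δ.cone τ →
      (∀ v ∈ τ, 0 ≤ ∑ j, (χ (Fin.natAdd dB j) - χ' (Fin.natAdd dB j)) * Δ.ray v j) ∨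
      (∀ v ∈ τ, ∑ j, (χ (Fin.natAdd dB j) - χ' (Fin.natAdd dB j)) * Δ.ray v j ≤ 0)) :
    Δ.Adapted f := by
  intro τ hτ q
  have hdiff : ∀ (χ χ' : Fin (dB + r) → ℤ) v,
      ∑ j, (χ (Fin.natAdd dB j) - χ' (Fin.natAdd dB j)) * Δ.ray v j =
        pair χ (fibv (Δ.ray v)) - pair χ' (fibv (Δ.ray v)) := by
    intro χ χ' v
    rw [pair_fibv_fan, pair_fibv_fan, ← Finset.sum_sub_distrib]
    exact Finset.sum_congr rfl fun j _ => by ring
  obtain ⟨χ, hχ, hmin⟩ := Finset.exists_min_image (f (Sum.inr q)).support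
    (fun χ => ∑ v ∈ τ, pair χ (fibv (Δ.ray v))) (Finsupp.support_nonempty_iff.2 (hf q))
  refine ⟨χ, hχ, fun v hv => ?_⟩
  have key : ∀ χ' ∈ (f (Sum.inr q)).support, pair χ (fibv (Δ.ray v)) ≤ pair χ' (fibv (Δ.ray v)) := by
    intro χ' hχ'
    by_contra hlt
    push Not at hlt
    rcases h q χ' hχ' χ hχ τ hτ with h1 | h1
    · have := h1 v hv
      rw [hdiff] at this
      linarith
    · have h2 : ∑ v ∈ τ, pair χ' (fibv (Δ.ray v)) < ∑ v ∈ τ, pair χ (fibv (Δ.ray v)) := by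
        refine Finset.sum_lt_sum (fun w hw => ?_) ⟨v, hv, hlt⟩
        have := h1 w hw
        rw [hdiff] at this
        linarith
      exact absurd (hmin χ' hχ') (not_le.2 h2)
  have h2 : mn (f (Sum.inr q)) (fibv (Δ.ray v)) = pair χ (fibv (Δ.ray v)) := by
    refine le_antisymm (mn_le hχ _) ?_
    obtain ⟨χ', hχ', he⟩ := exists_mn (hf q) (fibv (Δ.ray v))
    rw [← he]
    exact key χ' hχ'
  show (pair χ (fibv (Δ.ray v)) - mn (f (Sum.inr q)) (fibv (Δ.ray v))).toNat = 0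
  rw [h2, sub_self]
  rfl

/-- **Existence of adapted fans.** -/
theorem exists_adapted [Fintype Q] (f : B ⊕ Q → Lau (dB + r)) (hf : ∀ q, f (Sum.inr q) ≠ 0) :
    ∃ (V : Type) (_ : Fintype V) (_ : DecidableEq V) (Δ : FanV V r), Δ.Adapted f := by
  classical
  obtain ⟨V, hV, hD, Δ, h⟩ := exists_fanV (r := r)
    (Finset.univ.biUnion fun q : Q => ((f (Sum.inr q)).support ×ˢ (f (Sum.inr q)).support).image
      fun p => fun j => p.1 (Fin.natAdd dB j) - p.2 (Fin.natAdd dB j))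
  refine ⟨V, hV, hD, Δ, adapted_of_sign Δ f hf fun q χ hχ χ' hχ' τ hτ => ?_⟩
  exact h _ (Finset.mem_biUnion.2 ⟨q, Finset.mem_univ _, Finset.mem_image.2
    ⟨(χ, χ'), Finset.mem_product.2 ⟨hχ, hχ'⟩, rfl⟩⟩) τ hτ

end adapted

namespace FanV

variable {V : Type} [Fintype V] [DecidableEq V] {r : ℕ} (Δ : FanV V r)

section ordered

variable {Γ : Type} [AddCommGroup Γ] [LinearOrder Γ] [IsOrderedAddMonoid Γ]

/-- Decomposition of a vector with values in an ordered group. -/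
theorem dec (x : Fin r → Γ) : ∃ (τ : Finset V) (γ : V → Γ), Δ.cone τ ∧ (∀ v ∈ τ, 0 < γ v) ∧
    (∀ v, v ∉ τ → γ v = 0) ∧ ∀ j, x j = ∑ v, Δ.ray v j • γ v := by
  let P : Submonoid (Multiplicative Γ) :=
    { carrier := {u | 0 ≤ Multiplicative.toAdd u}
      mul_mem' := fun {a b} ha hb => by
        show 0 ≤ Multiplicative.toAdd (a * b)
        rw [toAdd_mul]; exact add_nonneg ha hb
      one_mem' := by show 0 ≤ Multiplicative.toAdd (1 : Multiplicative Γ); rw [toAdd_one] }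
  have hP : ∀ g : Multiplicative Γ, g ∈ P ∨ g⁻¹ ∈ P := by
    intro g
    rcases le_total 0 (Multiplicative.toAdd g) with h1 | h1
    · exact Or.inl h1
    · right
      show 0 ≤ Multiplicative.toAdd g⁻¹
      rw [toAdd_inv]; exact neg_nonneg.2 h1
  obtain ⟨τ, hτ, g, hg, hg1, he⟩ :=
    Δ.cov (Multiplicative Γ) P hP fun j => Multiplicative.ofAdd (x j)
  have hg0 : ∀ v, 0 ≤ Multiplicative.toAdd (g v) := fun v => hg v
  refine ⟨τ.filter fun v => Multiplicative.toAdd (g v) ≠ 0, fun v => Multiplicative.toAdd (g v),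
    Δ.down hτ (Finset.filter_subset _ _), fun v hv => ?_, fun v hv => ?_, fun j => ?_⟩
  · exact lt_of_le_of_ne (hg0 v) (Finset.mem_filter.1 hv).2.symm
  · by_contra h
    refine hv (Finset.mem_filter.2 ⟨?_, h⟩)
    by_contra h2
    beta_reduce at h
    rw [hg1 v h2, toAdd_one] at h
    exact h rfl
  · have h1 := congrArg Multiplicative.toAdd (he j)
    rw [toAdd_ofAdd] at h1
    rw [h1, toAdd_prod]
    rfl

/-- The coefficients on a cone are determined by the vector. -/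
theorem coeff_eq {Γ : Type*} [AddCommGroup Γ] {τ : Finset V} (hτ : Δ.cone τ) {γ γ' : V → Γ}
    (h : ∀ v, v ∉ τ → γ v = 0) (h' : ∀ v, v ∉ τ → γ' v = 0)
    (he : ∀ j, ∑ v, Δ.ray v j • γ v = ∑ v, Δ.ray v j • γ' v) : γ = γ' := by
  obtain ⟨l, hl⟩ := Δ.unim τ hτ
  have key : ∀ γ : V → Γ, (∀ v, v ∉ τ → γ v = 0) → ∀ v ∈ τ,
      ∑ j, l v j • ∑ w, Δ.ray w j • γ w = γ v := by
    intro γ hγ v hv
    have h1 : ∑ j, l v j • ∑ w, Δ.ray w j • γ w = ∑ w, (∑ j, l v j * Δ.ray w j) • γ w := by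
      simp only [Finset.smul_sum, Finset.sum_smul, smul_smul]
      exact Finset.sum_comm
    rw [h1, Finset.sum_eq_single v]
    · rw [hl v hv v hv, if_pos rfl, one_smul]
    · intro w _ hw
      by_cases hwt : w ∈ τ
      · rw [hl v hv w hwt, if_neg hw.symm, zero_smul]
      · rw [hγ w hwt, smul_zero]
    · intro h; exact absurd (Finset.mem_univ v) h
  ext v
  by_cases hv : v ∈ τ
  · rw [← key γ h v hv, ← key γ' h' v hv]
    exact Finset.sum_congr rfl fun j _ => by rw [he j]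
  · rw [h v hv, h' v hv]

/-- Uniqueness of the decomposition. -/
theorem dec_uniq {τ τ' : Finset V} {γ γ' : V → Γ} (hτ : Δ.cone τ) (hτ' : Δ.cone τ')
    (hγ : ∀ v ∈ τ, 0 < γ v) (hγ' : ∀ v ∈ τ', 0 < γ' v) (h : ∀ v, v ∉ τ → γ v = 0)
    (h' : ∀ v, v ∉ τ' → γ' v = 0)
    (he : ∀ j, ∑ v, Δ.ray v j • γ v = ∑ v, Δ.ray v j • γ' v) : τ = τ' ∧ γ = γ' := by
  have hsum : ∀ (τ : Finset V) (γ : V → Γ), (∀ v, v ∉ τ → γ v = 0) → ∀ j,
      ∑ v ∈ τ, Δ.ray v j • γ v = ∑ v, Δ.ray v j • γ v := by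
    intro τ γ hγ j
    refine Finset.sum_subset (Finset.subset_univ _) fun v _ hv => ?_
    rw [hγ v hv, smul_zero]
  have h1 : τ = τ' := Δ.uniq Γ τ τ' hτ hτ' γ γ' hγ hγ' fun j => by
    rw [hsum τ γ h j, hsum τ' γ' h' j, he j]
  subst h1
  exact ⟨rfl, Δ.coeff_eq hτ h h' he⟩

end ordered

/-- The star of a cone. -/
theorem star_int {Γ : Type} [AddCommGroup Γ] [LinearOrder Γ] [IsOrderedAddMonoid Γ]
    {σ : Finset V} (hσ : Δ.cone σ) (b : Fin r → Γ) :
    ∃ (τ : Finset V) (c : V → Γ), Δ.cone τ ∧ σ ⊆ τ ∧ (∀ v, v ∉ τ → c v = 0) ∧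
      (∀ v ∈ τ, v ∉ σ → 0 < c v) ∧ ∀ j, b j = ∑ v, Δ.ray v j • c v := by
  classical
  obtain ⟨τ, γ, hτ, hγ, hγ0, he⟩ := Δ.dec (Γ := ℤ ×ₗ Γ)
    fun j => toLex (∑ v ∈ σ, Δ.ray v j, b j)
  let p1 : (ℤ ×ₗ Γ) →+ ℤ :=
    { toFun := fun z => (ofLex z).1, map_zero' := rfl, map_add' := fun _ _ => rfl }
  let p2 : (ℤ ×ₗ Γ) →+ Γ :=
    { toFun := fun z => (ofLex z).2, map_zero' := rfl, map_add' := fun _ _ => rfl }
  have hfst : ∀ j, ∑ v ∈ σ, Δ.ray v j = ∑ v, Δ.ray v j • (ofLex (γ v)).1 := by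
    intro j
    have h1 := congrArg p1 (he j)
    rw [map_sum] at h1
    exact h1
  have hsnd : ∀ j, b j = ∑ v, Δ.ray v j • (ofLex (γ v)).2 := by
    intro j
    have h1 := congrArg p2 (he j)
    rw [map_sum] at h1
    exact h1
  have hpos : ∀ v ∈ τ, 0 < (ofLex (γ v)).1 ∨ (ofLex (γ v)).1 = 0 ∧ 0 < (ofLex (γ v)).2 := by
    intro v hv
    have h1 := hγ v hv
    rw [Prod.Lex.lt_iff] at h1
    rcases h1 with h1 | ⟨h1, h2⟩
    · left; exact h1
    · right; exact ⟨h1.symm, h2⟩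
  have hz : ∀ v, v ∉ τ → (ofLex (γ v)).1 = 0 ∧ (ofLex (γ v)).2 = 0 := by
    intro v hv
    rw [hγ0 v hv]
    exact ⟨rfl, rfl⟩
  -- the cone of the first components is `σ`
  let τ₁ := τ.filter fun v => 0 < (ofLex (γ v)).1
  have h1 := Δ.dec_uniq (τ := σ) (τ' := τ₁) (γ := fun v => if v ∈ σ then (1 : ℤ) else 0)
    (γ' := fun v => (ofLex (γ v)).1) hσ (Δ.down hτ (Finset.filter_subset _ _))
    (fun v hv => by rw [if_pos hv]; norm_num) (fun v hv => (Finset.mem_filter.1 hv).2)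
    (fun v hv => if_neg hv)
    (fun v hv => by
      by_cases hvt : v ∈ τ
      · rcases hpos v hvt with h | h
        · exact absurd (Finset.mem_filter.2 ⟨hvt, h⟩) hv
        · exact h.1
      · exact (hz v hvt).1)
    (fun j => by
      rw [← hfst j]
      rw [Finset.sum_congr rfl fun v _ => show Δ.ray v j • (if v ∈ σ then (1 : ℤ) else 0) =
        if v ∈ σ then Δ.ray v j else 0 by split_ifs <;> simp]
      rw [Finset.sum_ite_mem, Finset.univ_inter])
  refine ⟨τ, fun v => (ofLex (γ v)).2, hτ, ?_, fun v hv => (hz v hv).2, fun v hv hvs => ?_, hsnd⟩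
  · rw [h1.1]
    exact Finset.filter_subset _ _
  · rcases hpos v hv with h | h
    · rw [h1.1] at hvs
      exact absurd (Finset.mem_filter.2 ⟨hv, h⟩) hvs
    · exact h.2

/-- The rays generate. -/
theorem gens (b : Fin r → ℤ) : ∃ c : V → ℤ, ∀ j, b j = ∑ v, c v * Δ.ray v j := by
  obtain ⟨τ, γ, -, -, -, h⟩ := Δ.dec b
  exact ⟨γ, fun j => by
    rw [h j]
    exact Finset.sum_congr rfl fun v _ => by rw [smul_eq_mul, mul_comm]⟩

theorem cone_empty : Δ.cone ∅ := by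
  obtain ⟨τ, γ, h, -⟩ := Δ.dec (0 : Fin r → ℤ)
  exact Δ.down h (Finset.empty_subset _)

/-- Decomposition of a point of the torus over a field with a valuation ring. -/
theorem val {F : Type} [Field F] (O : ValuationSubring F) (x : Fin r → F) (hx : ∀ j, x j ≠ 0) :
    ∃ (τ : Finset V) (g : V → F), Δ.cone τ ∧ (∀ v, g v ≠ 0) ∧ (∀ v, v ∉ τ → g v = 1) ∧
      (∀ v ∈ τ, O.valuation (g v) < 1) ∧
      ∀ j, O.valuation (x j * ∏ v, g v ^ (-Δ.ray v j)) = 1 := by
  classical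
  let P : Submonoid Fˣ :=
    { carrier := {u | (u : F) ∈ O}
      mul_mem' := fun {a b} ha hb => by
        show ((a * b : Fˣ) : F) ∈ O
        rw [Units.val_mul]; exact O.mul_mem _ _ ha hb
      one_mem' := by show ((1 : Fˣ) : F) ∈ O; rw [Units.val_one]; exact O.one_mem }
  have hP : ∀ g : Fˣ, g ∈ P ∨ g⁻¹ ∈ P := by
    intro g
    rcases O.mem_or_inv_mem (g : F) with h1 | h1
    · exact Or.inl h1
    · right
      show ((g⁻¹ : Fˣ) : F) ∈ O
      rw [Units.val_inv_eq_inv_val]; exact h1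
  obtain ⟨τ, hτ, g, hg, hg1, he⟩ := Δ.cov Fˣ P hP fun j => Units.mk0 (x j) (hx j)
  have hle : ∀ v, O.valuation (g v : F) ≤ 1 := fun v => (O.valuation_le_one_iff _).2 (hg v)
  let τ' := τ.filter fun v => O.valuation (g v : F) ≠ 1
  refine ⟨τ', fun v => if v ∈ τ' then (g v : F) else 1, Δ.down hτ (Finset.filter_subset _ _),
    fun v => ?_, fun v hv => if_neg hv, fun v hv => ?_, fun j => ?_⟩
  · beta_reduce
    split_ifs
    · exact (g v).ne_zero
    · exact one_ne_zero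
  · beta_reduce
    rw [if_pos hv]
    exact lt_of_le_of_ne (hle v) (Finset.mem_filter.1 hv).2
  · have h1 : x j = ∏ v, (g v : F) ^ Δ.ray v j := by
      have h1 := congrArg (fun u : Fˣ => (u : F)) (he j)
      simp only [Units.val_mk0] at h1
      rw [h1]
      push_cast
      rfl
    rw [h1, ← Finset.prod_mul_distrib, map_prod]
    refine Finset.prod_eq_one fun v _ => ?_
    beta_reduce
    by_cases hv : v ∈ τ'
    · rw [if_pos hv, ← zpow_add₀ (g v).ne_zero, add_neg_cancel, zpow_zero, map_one]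
    · rw [if_neg hv, one_zpow, mul_one, map_zpow₀]
      have h2 : O.valuation (g v : F) = 1 := by
        by_cases hvt : v ∈ τ
        · by_contra h3
          exact hv (Finset.mem_filter.2 ⟨hvt, h3⟩)
        · rw [hg1 v hvt, Units.val_one, map_one]
      rw [h2, one_zpow]

end FanV

end Pool.Agent.Work.WRC
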