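import Mathlib
import Pool.Agent.Work.MP_4329d7_ag_wrc.Defs

/-!
W-RC, further joint definitions: the subfield `KBf` of the base, the base equations `resB`, the
condition `KHc` on the exponents, `AIPair`, and the family `IsFam` over a curve of the base.
-/

namespace Pool.Agent.Work.WRC

open Polynomial Pool.Agent.Work.CI

variable {K : Type} [Field K] [Algebra ℂ K]

/-- the field generated by the base coordinates -/
noncomputable def KBf {dB r : ℕ} (x : Fin (dB + r) → K) : IntermediateField ℂ K :=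
  IntermediateField.adjoin ℂ (Set.range fun j : Fin dB => x (Fin.castAdd r j))

/-- the base coordinates as elements of `KBf` -/
noncomputable def xB {dB r : ℕ} (x : Fin (dB + r) → K) (j : Fin dB) : KBf x :=
  ⟨x (Fin.castAdd r j), IntermediateField.subset_adjoin _ _ ⟨j, rfl⟩⟩

/-- a Laurent polynomial in the base coordinates -/
noncomputable def resB {dB r : ℕ} (g : Lau (dB + r)) : Lau dB :=
  g.mapDomain fun χ j => χ (Fin.castAdd r j)

/-- the base part of an exponent as an exponent -/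
def basv {dB r : ℕ} (χ : Fin (dB + r) → ℤ) (j : Fin dB) : ℤ := χ (Fin.castAdd r j)

/-- the condition on the exponents of the fibre equations (Khovanskii-Hall) -/
def KHc {dB r : ℕ} {B Q : Type} (f : B ⊕ Q → Lau (dB + r)) : Prop :=
  ∀ S : Finset Q, S.Nonempty → S.card + 1 ≤ Module.finrank ℚ (Submodule.span ℚ
    {v : Fin r → ℚ | ∃ q ∈ S, ∃ χ ∈ (f (Sum.inr q)).support, ∃ χ' ∈ (f (Sum.inr q)).support,
      v = fun j => ((χ (Fin.natAdd dB j) - χ' (Fin.natAdd dB j) : ℤ) : ℚ)})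

/-- `i` is the value at infinity of `φ` and the pair is generic -/
def AIPair {L : Type} [Field L] [Algebra ℂ L] {k : Type} [Field k] [Algebra ℂ k] (i : L →ₐ[ℂ] k)
    (φ : L →ₐ[ℂ] RatFunc k) : Prop :=
  (∀ y, Inf (φ y) (i y)) ∧ ∃ (I : Type) (_ : Fintype I) (x : I → L), IsTranscendenceBasis ℂ x ∧
    AlgebraicIndependent ℂ (Sum.elim (fun j => (RatFunc.C (i (x j)) : RatFunc k))
      (fun j => φ (x j)))

/-- The family over a curve of the base: `φB : K_B → k(s)` has the value `x₀` (base part) at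
infinity, and `a q χ` are the coefficients of the equation `q` at `(φB x_B, x₀ fibre part)`,
multiplied by `den q` (monic of degree `D q ≥ 1`). -/
structure IsFam {dB r : ℕ} {B Q : Type} (x : Fin (dB + r) → K) (f : B ⊕ Q → Lau (dB + r))
    {k : Type} [Field k] [Algebra ℂ k] (φB : KBf x →ₐ[ℂ] RatFunc k) (x₀ : Fin (dB + r) → k)
    (a : Q → (Fin (dB + r) → ℤ) → k[X]) (D : Q → ℕ) : Prop where
  pos : ∀ q, 1 ≤ D q
  inf : ∀ j, Inf (φB (xB x j)) (x₀ (Fin.castAdd r j))
  deg : ∀ q, ∀ χ ∈ (f (Sum.inr q)).support, (a q χ).natDegree ≤ D q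
  top : ∀ q, ∀ χ ∈ (f (Sum.inr q)).support, (a q χ).coeff (D q) = cst (fun q => f (Sum.inr q)) x₀ q χ
  fam : ∃ den : Q → k[X], (∀ q, den q ≠ 0) ∧ ∀ q, ∀ χ ∈ (f (Sum.inr q)).support,
    algebraMap k[X] (RatFunc k) (a q χ) =
      algebraMap k[X] (RatFunc k) (den q) * RatFunc.C (algebraMap ℂ k (f (Sum.inr q) χ)) *
      (∏ j, φB (xB x j) ^ χ (Fin.castAdd r j)) *
      RatFunc.C (∏ j, x₀ (Fin.natAdd dB j) ^ χ (Fin.natAdd dB j))

/-- A very free curve of the fibre through the point with Cox coordinates `Z` over `x'`, defined over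
the field of `x'` itself; `VF` says that there is one over an extension. -/
structure Tooth {dB r : ℕ} {B Q V : Type} [Fintype V] (x : Fin (dB + r) → K)
    (f : B ⊕ Q → Lau (dB + r)) (ray : V → Fin r → ℤ) {k : Type} [Field k] [Algebra ℂ k]
    (x' : Fin (dB + r) → k) (Z : V → k) (n : V → ℕ) (T : V → k[X]) : Prop where
  rel : (coxF f ray).Rel (fun v => (n v : ℤ))
  span : ∀ v, n v = 0 → ∃ γ : V → ℤ, (coxF f ray).Rel γ ∧ γ v ≠ 0 ∧ ∀ w, w ≠ v → n w = 0 → γ w = 0
  ne : ∀ v, T v ≠ 0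
  deg : ∀ v, DegLE (T v) (n v)
  top : ∀ v, lc (T v) (n v) = Z v
  hom : ∃ φ : K →ₐ[ℂ] RatFunc k, ∀ j, φ (x j) = RatFunc.C (x' j) *
    ∏ v, algebraMap k[X] (RatFunc k) (T v) ^ (fibv (ray v) : Fin (dB + r) → ℤ) j
  free : FreeS (coxF f ray) (fun q χ => C (cst (fun q => f (Sum.inr q)) x' q χ)) T
    (fun v => n v) ((coxF f ray).m fun v => n v)
  vfree : VFreeS (coxF f ray) (fun q χ => C (cst (fun q => f (Sum.inr q)) x' q χ)) T
    (fun v => n v) ((coxF f ray).m fun v => n v)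

theorem vf_iff {dB r : ℕ} {B Q V : Type} [Fintype V] (x : Fin (dB + r) → K)
    (f : B ⊕ Q → Lau (dB + r)) (ray : V → Fin r → ℤ) {k : Type} [Field k] [Algebra ℂ k]
    (x' : Fin (dB + r) → k) (Z : V → k) : VF x f ray x' Z ↔
      ∃ (k' : Type) (_ : Field k') (_ : Algebra ℂ k') (_ : IsAlgClosed k') (i : k →ₐ[ℂ] k')
        (n : V → ℕ) (T : V → k'[X]), Tooth x f ray (fun j => i (x' j)) (fun v => i (Z v)) n T := by
  constructor
  · rintro ⟨k', a1, a2, a3, i, n, T, h1, h2, h3, h4, h5, h6, h7, h8⟩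
    exact ⟨k', a1, a2, a3, i, n, T, ⟨h1, h2, h3, h4, h5, h6, h7, h8⟩⟩
  · rintro ⟨k', a1, a2, a3, i, n, T, h⟩
    exact ⟨k', a1, a2, a3, i, n, T, h.rel, h.span, h.ne, h.deg, h.top, h.hom, h.free, h.vfree⟩

/-- `X` is a section of the orbit of the cone `σ` of the whole intersection: the fibre equations hold
on the face of `σ`. -/
structure BdTot {dB r : ℕ} {B Q V : Type} [Fintype V] [DecidableEq V]
    (f : B ⊕ Q → Lau (dB + r)) (Δ : FanV V r) {k : Type} [Field k] [Algebra ℂ k] (σ : Finset V)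
    (X : Fin (dB + r) → k) : Prop where
  cone : Δ.cone σ
  ne : ∀ j, X j ≠ 0
  eq : ∀ q, ∑ χ ∈ (f (Sum.inr q)).support with (∀ v ∈ σ, (coxF f Δ.ray).e q χ v = 0),
    cst (fun q => f (Sum.inr q)) X q χ = 0

end Pool.Agent.Work.WRC
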