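import Mathlib
import Pool.Agent.Work.MP_4329d7_ag_wrc.Defs2
import Pool.Agent.Work.MP_4329d7_ag_sq.RMap

/-!
W-RC, definitions for the final step `Fin`: pairs of homomorphisms, the field of positions `Om`.
-/

namespace Pool.Agent.Work.WRC

open Polynomial Pool.Agent.Work.CI Pool.Agent.Work.MP_4329d7_ag_sq

/-- the pair of points `p`, `q` of `K` is generic -/
def Indep2 {K L : Type} [Field K] [Algebra ℂ K] [Field L] [Algebra ℂ L] (p q : K →ₐ[ℂ] L) : Prop :=
  ∃ (I : Type) (_ : Fintype I) (x : I → K), IsTranscendenceBasis ℂ x ∧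
    AlgebraicIndependent ℂ (Sum.elim (fun i => p (x i)) (fun i => q (x i)))

/-- the values `φ y_j` over `k₁(u)` are algebraically independent over `k` -/
def GenOver {K k k₁ : Type} [Field K] [Algebra ℂ K] [Field k] [Algebra ℂ k] [Field k₁]
    [Algebra ℂ k₁] {I : Type} (i : k →ₐ[ℂ] k₁) (φ : K →ₐ[ℂ] RatFunc k₁) (y : I → K) : Prop :=
  ∀ P : MvPolynomial I k, P ≠ 0 →
    MvPolynomial.eval₂ ((RatFunc.C : k₁ →+* RatFunc k₁).comp (i : k →+* k₁)) (fun j => φ (y j)) P ≠ 0

/-- the algebraic closure of the field of Laurent series -/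
abbrev Om (k : Type) [Field k] : Type := AlgebraicClosure (LaurentSeries k)

/-- power series in `Om` -/
noncomputable def psO (k : Type) [Field k] : PowerSeries k →+* Om k :=
  (algebraMap (LaurentSeries k) (Om k)).comp (HahnSeries.ofPowerSeries ℤ k)

/-- constants in `Om` -/
noncomputable def cO (k : Type) [Field k] : k →+* Om k := (psO k).comp PowerSeries.C

/-- the parameter -/
noncomputable def delta (k : Type) [Field k] : Om k := psO k PowerSeries.X

end Pool.Agent.Work.WRC
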