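import Mathlib
import Pool.Agent.Work.MP_4329d7_ag_wrc.FinDefs

/-!
W-RC, the final step `Fin`: the base points at two independent positions (`base_pair`). The
positions are in `Pos.lean`.
-/

namespace Pool.Agent.Work.WRC

open Polynomial Pool.Agent.Work.CI Pool.Agent.Work.MP_4329d7_ag_sq

section bp

/-- polynomials in two variables, as polynomials in the first one -/
noncomputable def mvTwo (k : Type) [Field k] : k[X][X] →+* MvPolynomial (Fin 2) k :=
  Polynomial.eval₂RingHom
    (Polynomial.eval₂RingHom (MvPolynomial.C : k →+* MvPolynomial (Fin 2) k) (MvPolynomial.X 1))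
    (MvPolynomial.X 0)

theorem mvTwo_injective (k : Type) [Field k] : Function.Injective (mvTwo k) := by
  let g : MvPolynomial (Fin 2) k →+* k[X][X] :=
    MvPolynomial.eval₂Hom (C.comp C) ![X, C X]
  have h : g.comp (mvTwo k) = RingHom.id _ := by
    refine Polynomial.ringHom_ext' (Polynomial.ringHom_ext (fun a => ?_) ?_) ?_
    · simp [g, mvTwo]
    · simp [g, mvTwo]
    · simp [g, mvTwo]
  intro a b hab
  have h1 := congrArg g hab
  have h2 : ∀ c, g (mvTwo k c) = c := fun c => congrArg (fun f => f c) h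
  rwa [h2, h2] at h1

/-- two independent embeddings of `k(s)` over `k` come from `k(s)(t)` -/
theorem exists_theta {k Ω : Type} [Field k] [Algebra ℂ k] [Field Ω] [Algebra ℂ Ω]
    (e₁ e₂ : RatFunc k →ₐ[ℂ] Ω) (he : ∀ a, e₁ (RatFunc.C a) = e₂ (RatFunc.C a))
    (hP : ∀ P : MvPolynomial (Fin 2) k, P ≠ 0 →
      MvPolynomial.eval₂ ((e₁ : RatFunc k →+* Ω).comp RatFunc.C) ![e₁ RatFunc.X, e₂ RatFunc.X] P ≠ 0) :
    ∃ θ : RatFunc (RatFunc k) →ₐ[ℂ] Ω, (∀ a, θ (RatFunc.C a) = e₂ a) ∧
      ∀ a, θ (psi k a) = e₁ a := by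
  classical
  -- the value of the first variable is transcendental over the second copy
  have hy : ∀ p : (RatFunc k)[X], p ≠ 0 → p.eval₂ (e₂ : RatFunc k →+* Ω) (e₁ RatFunc.X) ≠ 0 := by
    intro p hp h0
    obtain ⟨b, hbm, hb⟩ := IsLocalization.integerNormalization_spec (nonZeroDivisors k[X]) p
    set p' := IsLocalization.integerNormalization (nonZeroDivisors k[X]) p with hp'
    have hb0 : b ≠ 0 := nonZeroDivisors.ne_zero hbm
    have hp0 : p' ≠ 0 := by
      intro h1
      rw [h1, Polynomial.map_zero] at hb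
      have h2 : b • p = 0 := hb.symm
      have h3 : (algebraMap k[X] (RatFunc k) b) • p = 0 := by
        rw [← h2, algebraMap_smul]
      rcases smul_eq_zero.1 h3 with h4 | h4
      · exact hb0 ((map_eq_zero_iff _ (IsFractionRing.injective k[X] (RatFunc k))).1 h4)
      · exact hp h4
    have h1 : mvTwo k p' ≠ 0 := fun h2 => hp0 (mvTwo_injective k (by rw [h2, map_zero]))
    refine hP _ h1 ?_
    have h2 : (MvPolynomial.eval₂Hom ((e₁ : RatFunc k →+* Ω).comp RatFunc.C)
        ![e₁ RatFunc.X, e₂ RatFunc.X]).comp (mvTwo k) =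
        Polynomial.eval₂RingHom ((e₂ : RatFunc k →+* Ω).comp (algebraMap k[X] (RatFunc k)))
          (e₁ RatFunc.X) := by
      refine Polynomial.ringHom_ext' (Polynomial.ringHom_ext (fun a => ?_) ?_) ?_
      · simp [mvTwo, he]
      · simp [mvTwo]
      · simp [mvTwo]
    have h3 : MvPolynomial.eval₂ ((e₁ : RatFunc k →+* Ω).comp RatFunc.C)
        ![e₁ RatFunc.X, e₂ RatFunc.X] (mvTwo k p') =
        p'.eval₂ ((e₂ : RatFunc k →+* Ω).comp (algebraMap k[X] (RatFunc k))) (e₁ RatFunc.X) :=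
      congrArg (fun f => f p') h2
    rw [h3, ← Polynomial.eval₂_map, hb]
    have h4 : b • p = Polynomial.C (algebraMap k[X] (RatFunc k) b) * p := by
      rw [← Polynomial.smul_eq_C_mul, algebraMap_smul]
    rw [h4, Polynomial.eval₂_mul, h0, mul_zero]
  let θ : RatFunc (RatFunc k) →+* Ω := rlift (e₂ : RatFunc k →+* Ω) (e₁ RatFunc.X) hy
  have hθC : ∀ a, θ (RatFunc.C a) = e₂ a := fun a => rlift_C _ _ _ _
  have hθp : ∀ a, θ (psi k a) = e₁ a := by
    intro a
    have h1 : θ.comp (psi k) = (e₁ : RatFunc k →+* Ω) := by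
      refine ratFunc_hom_ext (fun a => ?_) ?_
      · rw [RingHom.comp_apply, psi, rmap_C, hθC]
        exact (he a).symm
      · rw [RingHom.comp_apply, psi, rmap_X]
        exact rlift_X _ _ _
    exact congrArg (fun f => f a) h1
  exact ⟨{ θ with
      commutes' := fun c => by
        change θ (algebraMap ℂ (RatFunc (RatFunc k)) c) = _
        rw [algebraMap_ratFunc, hθC, AlgHom.commutes] }, hθC, hθp⟩

/-- independence at two positions from independence of the value at infinity and the general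
value -/
theorem ai_two_pos {k Ω : Type} [Field k] [Algebra ℂ k] [Field Ω] [Algebra ℂ Ω]
    (e₁ e₂ : RatFunc k →ₐ[ℂ] Ω) (he : ∀ a, e₁ (RatFunc.C a) = e₂ (RatFunc.C a))
    (hP : ∀ P : MvPolynomial (Fin 2) k, P ≠ 0 →
      MvPolynomial.eval₂ ((e₁ : RatFunc k →+* Ω).comp RatFunc.C) ![e₁ RatFunc.X, e₂ RatFunc.X] P ≠ 0)
    {S T : Type} (u : S → RatFunc k) (c : S → k) (hu : ∀ s, Inf (u s) (c s)) (v : T → RatFunc k)
    (hai : AlgebraicIndependent ℂ (Sum.elim (fun s => (RatFunc.C (c s) : RatFunc k)) v)) :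
    AlgebraicIndependent ℂ (Sum.elim (fun s => e₁ (u s)) (fun t => e₂ (v t))) := by
  obtain ⟨θ, hθC, hθp⟩ := exists_theta e₁ e₂ he hP
  rw [algebraicIndependent_iff] at hai ⊢
  intro P hPz
  refine hai P ?_
  have h2 := Inf.aeval (k := RatFunc k) (σ := S ⊕ T)
      (u := Sum.elim (fun i => psi k (u i)) (fun i => RatFunc.C (v i)))
      (c := Sum.elim (fun i => RatFunc.C (c i)) v)
      (fun s => by
        rcases s with i | i
        · exact (hu i).psi
        · exact Inf.const _) P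
  have h3 : MvPolynomial.aeval (Sum.elim (fun i => psi k (u i))
      (fun i => RatFunc.C (v i))) P = 0 := by
    refine (θ : RatFunc (RatFunc k) →+* Ω).injective ?_
    rw [map_zero, ← hPz]
    change θ (MvPolynomial.aeval _ P) = _
    rw [MvPolynomial.comp_aeval_apply]
    congr 2
    funext s
    rcases s with i | i
    · exact hθp _
    · exact hθC _
  rw [h3] at h2
  exact h2.eq_zero

theorem base_pair {L k Ω : Type} [Field L] [Algebra ℂ L] [Field k] [Algebra ℂ k] [Field Ω]
    [Algebra ℂ Ω] (iB : L →ₐ[ℂ] k) (φB : L →ₐ[ℂ] RatFunc k) (h : AIPair iB φB)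
    (e₁ e₂ : RatFunc k →ₐ[ℂ] Ω) (he : ∀ a, e₁ (RatFunc.C a) = e₂ (RatFunc.C a))
    (hP : ∀ P : MvPolynomial (Fin 2) k, P ≠ 0 →
      MvPolynomial.eval₂ ((e₁ : RatFunc k →+* Ω).comp RatFunc.C) ![e₁ RatFunc.X, e₂ RatFunc.X] P ≠ 0) :
    Indep2 (e₁.comp φB) (e₂.comp φB) := by
  obtain ⟨hinf, I, hI, x, hx, hai⟩ := h
  exact ⟨I, hI, x, hx, ai_two_pos e₁ e₂ he hP (fun i => φB (x i)) (fun i => iB (x i))
    (fun i => hinf _) (fun i => φB (x i)) hai⟩

end bp

end Pool.Agent.Work.WRC
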