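import Mathlib
import Pool.Agent.Work.MP_4329d7_ag_ci.Nondeg
import Pool.Agent.Work.MP_4329d7_ag_w.Lift
import Pool.Agent.Work.MP_4329d7_ag_wrc.Defs

/-!
W-RC, module NDx: nondegeneracy of the total system at points in Cox coordinates.

* `nd_ext`: the initial forms of a nondegenerate system are nondegenerate over every field;
* `Cox.lg`: the derivative of an equation in the direction of a coordinate of the lattice,
  `Cox.J_mul`, `Cox.der_F`;
* `FanV.eq_zero`: the rays of a complete fan generate the lattice;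
* `nd_int`: a linear relation of the rows at a point with Cox coordinates `Z` over `x'` vanishes;
* `fib_nd`: the rows of the fibre are independent over a generic point of the base.
-/

namespace Pool.Agent.Work.WRC

open Polynomial Pool.Agent.Work.CI

section ext

/-- nondegeneracy over every field -/
theorem nd_ext {Q : Type} [Fintype Q] {d : ℕ} {f : Q → Lau d} (hf : Nondegenerate f) {F : Type}
    [Field F] [Algebra ℂ F] (b : Fin d → ℤ) {y : Fin d → F} (hy : ∀ j, y j ≠ 0)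
    (hev : ∀ q, ev (ini b (f q)) y = 0) {α : Q → F}
    (h : ∀ j, ∑ q, α q * ldv (ini b (f q)) j y = 0) : α = 0 := by
  classical
  by_contra hne
  obtain ⟨q0, hq0⟩ := Function.ne_iff.1 hne
  obtain ⟨z, γ, hz, hev', hγ, hdep⟩ :=
    exists_complex_point (fun q => ini b (f q)) y hy hev α q0 hq0 h
  have hli := hf b z hz hev'
  rw [Fintype.linearIndependent_iff] at hli
  apply hγ
  refine hli γ ?_ q0
  funext j
  rw [Finset.sum_apply, Pi.zero_apply, ← hdep j]
  exact Finset.sum_congr rfl fun q _ => rfl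

end ext

section lg

variable {V Q X : Type} [Fintype V] (C : Cox V Q X)

/-- the derivative of the equation `q` in the direction of the coordinate `i` of the lattice -/
noncomputable def Cox.lg {A : Type*} [CommRing A] (c : Q → X → A) (q : Q) (i : Fin C.r)
    (Z : V → A) : A :=
  ∑ x ∈ C.supp q, c q x * (C.ch q x i : A) * ∏ v, Z v ^ C.e q x v

variable {C}

/-- the partial derivative times the variable -/
theorem Cox.J_mul {A : Type*} [CommRing A] (c : Q → X → A) (q : Q) (w : V) (Z : V → A) :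
    C.J c q w Z * Z w = ∑ x ∈ C.supp q, c q x * (C.e q x w : A) * ∏ v, Z v ^ C.e q x v := by
  classical
  rw [Cox.J_eq, Finset.sum_mul]
  refine Finset.sum_congr rfl fun x _ => ?_
  by_cases hw : C.e q x w = 0
  · rw [hw]; simp
  have h2 : (∏ v, Z v ^ (C.e q x v - if v = w then 1 else 0)) * Z w =
      ∏ v, Z v ^ C.e q x v := by
    rw [← Finset.mul_prod_erase _ _ (Finset.mem_univ w),
      ← Finset.mul_prod_erase _ (fun v => Z v ^ C.e q x v) (Finset.mem_univ w)]
    have h4 : ∏ v ∈ Finset.univ.erase w, Z v ^ (C.e q x v - if v = w then 1 else 0) =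
        ∏ v ∈ Finset.univ.erase w, Z v ^ C.e q x v := by
      refine Finset.prod_congr rfl fun v hv => ?_
      rw [if_neg (Finset.ne_of_mem_erase hv), Nat.sub_zero]
    rw [h4, if_pos rfl]
    obtain ⟨b, hb⟩ := Nat.exists_eq_succ_of_ne_zero hw
    rw [hb]
    simp only [Nat.succ_sub_one, Nat.succ_eq_add_one]
    ring
  rw [← h2]
  ring

theorem Cox.J_mul_lg {A : Type*} [CommRing A] (c : Q → X → A) (q : Q) (w : V) (Z : V → A) :
    C.J c q w Z * Z w = ∑ i, (C.ray w i : A) * C.lg c q i Z + (C.h q w : A) * C.F c q Z := by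
  rw [Cox.J_mul, Cox.F_eq, Finset.mul_sum]
  unfold Cox.lg
  simp only [Finset.mul_sum]
  rw [Finset.sum_comm, ← Finset.sum_add_distrib]
  refine Finset.sum_congr rfl fun x hx => ?_
  have h0 : ((C.e q x w : ℤ) : A) = ((∑ i, C.ch q x i * C.ray w i + C.h q w : ℤ) : A) := by
    rw [C.he q x hx w]
  push_cast at h0
  rw [h0, mul_add, add_mul, Finset.mul_sum, Finset.sum_mul]
  congr 1
  · exact Finset.sum_congr rfl fun i _ => by ring
  · ring

/-- the derivative of the value of an equation -/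
theorem Cox.der_F {A : Type*} [CommRing A] [Algebra ℂ A] (E : Derivation ℂ A A) (c : Q → X → A)
    (q : Q) (Z : V → A) :
    E (C.F c q Z) = ∑ x ∈ C.supp q, E (c q x) * ∏ v, Z v ^ C.e q x v +
      ∑ w, C.J c q w Z * E (Z w) := by
  classical
  rw [Cox.F_eq, map_sum]
  simp only [Cox.J_eq, Finset.sum_mul]
  rw [Finset.sum_comm, ← Finset.sum_add_distrib]
  refine Finset.sum_congr rfl fun x hx => ?_
  rw [Derivation.leibniz, Pool.Agent.Work.RC.derivation_prod, smul_eq_mul, smul_eq_mul, add_comm,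
    mul_comm (∏ v, Z v ^ C.e q x v) (E (c q x))]
  congr 1
  rw [Finset.mul_sum]
  refine Finset.sum_congr rfl fun w _ => ?_
  rw [Derivation.leibniz_pow, ← Finset.mul_prod_erase Finset.univ
    (fun v => Z v ^ (C.e q x v - if v = w then 1 else 0)) (Finset.mem_univ w), if_pos rfl]
  have h4 : ∏ v ∈ Finset.univ.erase w, Z v ^ (C.e q x v - if v = w then 1 else 0) =
      ∏ v ∈ Finset.univ.erase w, Z v ^ C.e q x v := by
    refine Finset.prod_congr rfl fun v hv => ?_
    rw [if_neg (Finset.ne_of_mem_erase hv), Nat.sub_zero]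
  rw [h4]
  simp only [smul_eq_mul, nsmul_eq_mul]
  ring

end lg

section fan

/-- the rays of a complete fan generate the lattice -/
theorem FanV.exists_ray {V : Type} [Fintype V] [DecidableEq V] {r : ℕ} (Δ : FanV V r)
    (x : Fin r → ℤ) : ∃ g : V → ℤ, (∀ v, 0 ≤ g v) ∧ ∀ j, x j = ∑ v, Δ.ray v j * g v := by
  let P : Submonoid (Multiplicative ℤ) :=
    { carrier := {g | 0 ≤ g.toAdd}
      one_mem' := le_refl (0 : ℤ)
      mul_mem' := fun {a b} ha hb => by
        have h1 : 0 ≤ a.toAdd + b.toAdd := add_nonneg ha hb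
        exact h1 }
  obtain ⟨τ, -, g, hg, -, hx⟩ := Δ.cov (Multiplicative ℤ) P
    (fun g => (le_total 0 g.toAdd).imp (fun h => h) fun h => neg_nonneg.2 h)
    fun j => Multiplicative.ofAdd (x j)
  refine ⟨fun v => (g v).toAdd, hg, fun j => ?_⟩
  have h1 := congrArg Multiplicative.toAdd (hx j)
  rw [toAdd_ofAdd, toAdd_prod] at h1
  rw [h1]
  exact Finset.sum_congr rfl fun v _ => by rw [toAdd_zpow, smul_eq_mul]

theorem FanV.eq_zero {V : Type} [Fintype V] [DecidableEq V] {r : ℕ} (Δ : FanV V r) {A : Type*}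
    [CommRing A] {u : Fin r → A} (h : ∀ v, ∑ k, (Δ.ray v k : A) * u k = 0) : u = 0 := by
  funext k
  obtain ⟨g, -, hg⟩ := Δ.exists_ray (Pi.single k 1)
  have h1 : u k = ∑ j, ((Pi.single k (1 : ℤ) : Fin r → ℤ) j : A) * u j := by
    rw [Finset.sum_eq_single k]
    · simp
    · intro j _ hj
      rw [Pi.single_eq_of_ne hj, Int.cast_zero, zero_mul]
    · intro hk
      exact absurd (Finset.mem_univ _) hk
  rw [h1, Pi.zero_apply]
  simp only [hg]
  push_cast
  simp only [Finset.sum_mul]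
  rw [Finset.sum_comm]
  refine Finset.sum_eq_zero fun v _ => ?_
  have h2 := congrArg (fun z => (g v : A) * z) (h v)
  simp only [mul_zero, Finset.mul_sum] at h2
  rw [← h2]
  exact Finset.sum_congr rfl fun j _ => by ring

end fan

section point

variable {dB r : ℕ}

theorem fibv_castAdd (b : Fin r → ℤ) (i : Fin dB) :
    (fibv b : Fin (dB + r) → ℤ) (Fin.castAdd r i) = 0 := by
  unfold fibv
  rw [Fin.append_left]
  rfl

theorem fibv_natAdd (b : Fin r → ℤ) (k : Fin r) :
    (fibv b : Fin (dB + r) → ℤ) (Fin.natAdd dB k) = b k := by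
  unfold fibv
  rw [Fin.append_right]

theorem ndx_pair_fibv (χ : Fin (dB + r) → ℤ) (b : Fin r → ℤ) :
    pair χ (fibv b) = ∑ k, χ (Fin.natAdd dB k) * b k := by
  unfold pair
  rw [Fin.sum_univ_add]
  simp only [fibv_castAdd, fibv_natAdd, mul_zero, Finset.sum_const_zero, zero_add]

/-- the minimum on a sum of weights with a common minimal monomial -/
theorem mn_sum {d : ℕ} {g : Lau d} {V : Type} (b : V → Fin d → ℤ) (τ : Finset V)
    {χ₀ : Fin d → ℤ} (h₀ : χ₀ ∈ g.support) (h : ∀ v ∈ τ, pair χ₀ (b v) = mn g (b v)) :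
    mn g (∑ v ∈ τ, b v) = ∑ v ∈ τ, mn g (b v) := by
  have hg : g ≠ 0 := by
    rintro rfl
    simp at h₀
  refine le_antisymm ?_ ?_
  · refine (mn_le h₀ _).trans ?_
    rw [pair_sum]
    exact Finset.sum_le_sum fun v hv => (h v hv).le
  · obtain ⟨χ, hχ, h1⟩ := exists_mn hg (∑ v ∈ τ, b v)
    rw [← h1, pair_sum]
    exact Finset.sum_le_sum fun v _ => mn_le hχ _

/-- the initial form for a sum of weights with a common minimal monomial -/
theorem ini_sum_support {d : ℕ} {g : Lau d} {V : Type} (b : V → Fin d → ℤ) (τ : Finset V)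
    {χ₀ : Fin d → ℤ} (h₀ : χ₀ ∈ g.support) (h : ∀ v ∈ τ, pair χ₀ (b v) = mn g (b v))
    (χ : Fin d → ℤ) : χ ∈ (ini (∑ v ∈ τ, b v) g).support ↔
      χ ∈ g.support ∧ ∀ v ∈ τ, pair χ (b v) = mn g (b v) := by
  have hg : g ≠ 0 := by
    rintro rfl
    simp at h₀
  rw [nd_ini_support _ _ hg, mn_sum b τ h₀ h, pair_sum]
  refine and_congr_right fun hχ => ⟨fun h1 v hv => ?_, fun h1 => Finset.sum_congr rfl h1⟩
  have h2 := (Finset.sum_eq_sum_iff_of_le (s := τ) (f := fun v => mn g (b v))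
    (g := fun v => pair χ (b v)) (fun v _ => mn_le hχ (b v))).1 h1.symm
  exact (h2 v hv).symm

theorem coxR_e_cast {d : ℕ} {Q V : Type} (f : Q → Lau d) (b : V → Fin d → ℤ) {q : Q}
    {χ : Fin d → ℤ} (hχ : χ ∈ (f q).support) (v : V) :
    ((coxR f b).e q χ v : ℤ) = pair χ (b v) - mn (f q) (b v) := by
  change (((pair χ (b v) - mn (f q) (b v)).toNat : ℕ) : ℤ) = _
  rw [Int.toNat_of_nonneg]
  have := mn_le hχ (b v)
  linarith

theorem coxR_e_eq_zero {d : ℕ} {Q V : Type} (f : Q → Lau d) (b : V → Fin d → ℤ) {q : Q}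
    {χ : Fin d → ℤ} (hχ : χ ∈ (f q).support) (v : V) :
    (coxR f b).e q χ v = 0 ↔ pair χ (b v) = mn (f q) (b v) := by
  have h1 := coxR_e_cast f b hχ v
  constructor
  · intro h
    rw [h, Nat.cast_zero] at h1
    linarith
  · intro h
    rw [h, sub_self] at h1
    exact_mod_cast h1

section zpow

theorem ndx_zpow_sum {F ι : Type*} [Field F] {a : F} (ha : a ≠ 0) (s : Finset ι) (g : ι → ℤ) :
    a ^ (∑ i ∈ s, g i) = ∏ i ∈ s, a ^ g i := by
  classical
  induction s using Finset.induction_on with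
  | empty => simp
  | insert i s hi ih => rw [Finset.sum_insert hi, Finset.prod_insert hi, zpow_add₀ ha, ih]

/-- the value of a monomial at `x' * ∏ Z_v ^ b_v` -/
theorem ndx_mon_mul_prod {d : ℕ} {F V : Type*} [Field F] (x' : Fin d → F) (Z : V → F)
    (s : Finset V) (b : V → Fin d → ℤ) (hZ : ∀ v ∈ s, Z v ≠ 0) (χ : Fin d → ℤ) :
    mon (fun j => x' j * ∏ v ∈ s, Z v ^ b v j) χ =
      mon x' χ * ∏ v ∈ s, Z v ^ pair χ (b v) := by
  unfold mon pair
  simp only [mul_zpow]
  rw [Finset.prod_mul_distrib]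
  congr 1
  rw [Finset.prod_congr rfl fun v hv => ndx_zpow_sum (hZ v hv) Finset.univ
    fun j => χ j * b v j, Finset.prod_comm]
  refine Finset.prod_congr rfl fun j _ => ?_
  rw [← Finset.prod_zpow]
  refine Finset.prod_congr rfl fun v _ => ?_
  rw [← zpow_mul, mul_comm]

end zpow

variable {B Q V : Type} [Fintype V] [DecidableEq V] {F : Type} [Field F]

/-- the point of the torus with the coordinates `Z v`, `v ∉ τ`, over `x'` -/
noncomputable def cpt (ray : V → Fin r → ℤ) (x' : Fin (dB + r) → F) (Z : V → F)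
    (τ : Finset V) : Fin (dB + r) → F :=
  fun j => x' j * ∏ v ∈ τᶜ, Z v ^ (fibv (ray v) : Fin (dB + r) → ℤ) j

theorem cpt_castAdd (ray : V → Fin r → ℤ) (x' : Fin (dB + r) → F) (Z : V → F) (τ : Finset V)
    (i : Fin dB) : cpt ray x' Z τ (Fin.castAdd r i) = x' (Fin.castAdd r i) := by
  unfold cpt
  simp only [fibv_castAdd, zpow_zero, Finset.prod_const_one, mul_one]

theorem cpt_ne {ray : V → Fin r → ℤ} {x' : Fin (dB + r) → F} {Z : V → F} {τ : Finset V}
    (hx : ∀ j, x' j ≠ 0) (hZ : ∀ v, Z v = 0 ↔ v ∈ τ) (j : Fin (dB + r)) :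
    cpt ray x' Z τ j ≠ 0 := by
  refine mul_ne_zero (hx j) (Finset.prod_ne_zero_iff.2 fun v hv => zpow_ne_zero _ fun h => ?_)
  exact (Finset.mem_compl.1 hv) ((hZ v).1 h)

theorem mon_cpt {ray : V → Fin r → ℤ} {x' : Fin (dB + r) → F} {Z : V → F} {τ : Finset V}
    (hZ : ∀ v, Z v = 0 ↔ v ∈ τ) (χ : Fin (dB + r) → ℤ) :
    mon (cpt ray x' Z τ) χ = mon x' χ * ∏ v ∈ τᶜ, Z v ^ pair χ (fibv (ray v)) :=
  ndx_mon_mul_prod x' Z τᶜ (fun v => fibv (ray v))
    (fun v hv h => (Finset.mem_compl.1 hv) ((hZ v).1 h)) χ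

/-- sums over the initial form at the point of the torus and sums over the equation in Cox
coordinates -/
theorem sum_ini_cpt {f : B ⊕ Q → Lau (dB + r)} {ray : V → Fin r → ℤ} {x' : Fin (dB + r) → F}
    {Z : V → F} {τ : Finset V} (hZ : ∀ v, Z v = 0 ↔ v ∈ τ) {q : Q} {χ₀ : Fin (dB + r) → ℤ}
    (h₀ : χ₀ ∈ (f (Sum.inr q)).support) (h : ∀ v ∈ τ, (coxF f ray).e q χ₀ v = 0)
    (w : (Fin (dB + r) → ℤ) → F) :
    ∑ χ ∈ (ini (∑ v ∈ τ, fibv (ray v)) (f (Sum.inr q))).support,
        w χ * mon (cpt ray x' Z τ) χ =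
      (∏ v ∈ τᶜ, Z v ^ mn (f (Sum.inr q)) (fibv (ray v))) *
        ∑ χ ∈ (f (Sum.inr q)).support, w χ * mon x' χ * ∏ v, Z v ^ (coxF f ray).e q χ v := by
  have h' : ∀ v ∈ τ, pair χ₀ (fibv (ray v)) = mn (f (Sum.inr q)) (fibv (ray v)) :=
    fun v hv => (coxR_e_eq_zero (fun q => f (Sum.inr q)) (fun v => fibv (ray v)) h₀ v).1 (h v hv)
  have hsupp := ini_sum_support (fun v => fibv (ray v)) τ h₀ h'
  rw [Finset.mul_sum]
  have hsub : (ini (∑ v ∈ τ, fibv (ray v)) (f (Sum.inr q))).support ⊆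
      (f (Sum.inr q)).support := fun χ hχ => ((hsupp χ).1 hχ).1
  rw [← Finset.sum_subset hsub]
  · refine Finset.sum_congr rfl fun χ hχ => ?_
    obtain ⟨h1, h2⟩ := (hsupp χ).1 hχ
    rw [mon_cpt hZ, ← Finset.prod_mul_prod_compl τ fun v => Z v ^ (coxF f ray).e q χ v]
    have h3 : ∏ v ∈ τ, Z v ^ (coxF f ray).e q χ v = 1 := by
      refine Finset.prod_eq_one fun v hv => ?_
      have h4 : (coxF f ray).e q χ v = 0 :=
        (coxR_e_eq_zero (fun q => f (Sum.inr q)) (fun v => fibv (ray v)) h1 v).2 (h2 v hv)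
      rw [h4, pow_zero]
    have h4 : ∏ v ∈ τᶜ, Z v ^ pair χ (fibv (ray v)) =
        (∏ v ∈ τᶜ, Z v ^ mn (f (Sum.inr q)) (fibv (ray v))) *
          ∏ v ∈ τᶜ, Z v ^ (coxF f ray).e q χ v := by
      rw [← Finset.prod_mul_distrib]
      refine Finset.prod_congr rfl fun v hv => ?_
      have h5 : Z v ≠ 0 := fun h => (Finset.mem_compl.1 hv) ((hZ v).1 h)
      have h6 : ((coxF f ray).e q χ v : ℤ) =
        pair χ (fibv (ray v)) - mn (f (Sum.inr q)) (fibv (ray v)) :=
        coxR_e_cast (fun q => f (Sum.inr q)) (fun v => fibv (ray v)) h1 v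
      rw [← zpow_natCast, ← zpow_add₀ h5, h6]
      congr 1
      ring
    rw [h3, h4]
    ring
  · intro χ h1 h2
    have h3 : ∃ v ∈ τ, (coxF f ray).e q χ v ≠ 0 := by
      by_contra hcon
      push Not at hcon
      exact h2 ((hsupp χ).2 ⟨h1, fun v hv =>
        (coxR_e_eq_zero (fun q => f (Sum.inr q)) (fun v => fibv (ray v)) h1 v).1 (hcon v hv)⟩)
    obtain ⟨v, hv, h4⟩ := h3
    have h5 : ∏ v, Z v ^ (coxF f ray).e q χ v = 0 :=
      Finset.prod_eq_zero (Finset.mem_univ v) (by rw [(hZ v).2 hv, zero_pow h4])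
    rw [h5, mul_zero, mul_zero]

variable [Algebra ℂ F]

omit [DecidableEq V] in
theorem coxF_F (f : B ⊕ Q → Lau (dB + r)) (ray : V → Fin r → ℤ) (x' : Fin (dB + r) → F)
    (Z : V → F) (q : Q) :
    (coxF f ray).F (cst (fun q => f (Sum.inr q)) x') q Z =
      ∑ χ ∈ (f (Sum.inr q)).support, algebraMap ℂ F (f (Sum.inr q) χ) * mon x' χ *
        ∏ v, Z v ^ (coxF f ray).e q χ v := Cox.F_eq _ _ _

omit [DecidableEq V] in
theorem coxF_lg (f : B ⊕ Q → Lau (dB + r)) (ray : V → Fin r → ℤ) (x' : Fin (dB + r) → F)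
    (Z : V → F) (q : Q) (j : Fin (dB + r)) :
    (coxF f ray).lg (cst (fun q => f (Sum.inr q)) x') q j Z =
      ∑ χ ∈ (f (Sum.inr q)).support, (algebraMap ℂ F (f (Sum.inr q) χ) * (χ j : F)) *
        mon x' χ * ∏ v, Z v ^ (coxF f ray).e q χ v := by
  change ∑ χ ∈ (f (Sum.inr q)).support, cst (fun q => f (Sum.inr q)) x' q χ * (χ j : F) *
    ∏ v, Z v ^ (coxF f ray).e q χ v = _
  refine Finset.sum_congr rfl fun χ _ => ?_
  unfold cst
  ring

/-- the value of the initial form -/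
theorem ev_ini_cpt {f : B ⊕ Q → Lau (dB + r)} {ray : V → Fin r → ℤ} {x' : Fin (dB + r) → F}
    {Z : V → F} {τ : Finset V} (hZ : ∀ v, Z v = 0 ↔ v ∈ τ) {q : Q} {χ₀ : Fin (dB + r) → ℤ}
    (h₀ : χ₀ ∈ (f (Sum.inr q)).support) (h : ∀ v ∈ τ, (coxF f ray).e q χ₀ v = 0) :
    ev (ini (∑ v ∈ τ, fibv (ray v)) (f (Sum.inr q))) (cpt ray x' Z τ) =
      (∏ v ∈ τᶜ, Z v ^ mn (f (Sum.inr q)) (fibv (ray v))) *
        (coxF f ray).F (cst (fun q => f (Sum.inr q)) x') q Z := by
  rw [coxF_F, ← sum_ini_cpt hZ h₀ h (fun χ => algebraMap ℂ F (f (Sum.inr q) χ)), nd_ev_ini]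
  rfl

theorem ldv_ini_cpt {f : B ⊕ Q → Lau (dB + r)} {ray : V → Fin r → ℤ} {x' : Fin (dB + r) → F}
    {Z : V → F} {τ : Finset V} (hZ : ∀ v, Z v = 0 ↔ v ∈ τ) {q : Q} {χ₀ : Fin (dB + r) → ℤ}
    (h₀ : χ₀ ∈ (f (Sum.inr q)).support) (h : ∀ v ∈ τ, (coxF f ray).e q χ₀ v = 0)
    (j : Fin (dB + r)) :
    ldv (ini (∑ v ∈ τ, fibv (ray v)) (f (Sum.inr q))) j (cpt ray x' Z τ) =
      (∏ v ∈ τᶜ, Z v ^ mn (f (Sum.inr q)) (fibv (ray v))) *
        (coxF f ray).lg (cst (fun q => f (Sum.inr q)) x') q j Z := by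
  rw [coxF_lg, ← sum_ini_cpt hZ h₀ h (fun χ => algebraMap ℂ F (f (Sum.inr q) χ) * (χ j : F)),
    nd_ldv_ini]
  unfold gsum
  exact Finset.sum_congr rfl fun χ _ => by rw [map_mul, map_intCast]

omit [Fintype V] [DecidableEq V] in
/-- the initial forms of the equations of the base -/
theorem ini_base {g : Lau (dB + r)} (hg : ∀ χ ∈ g.support, ∀ k : Fin r, χ (Fin.natAdd dB k) = 0)
    (ray : V → Fin r → ℤ) (τ : Finset V) : ini (∑ v ∈ τ, fibv (ray v)) g = g := by
  classical
  unfold ini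
  rw [Finsupp.filter_eq_self_iff]
  intro χ hχ χ' hχ'
  have h1 : ∀ χ ∈ g.support, pair χ (∑ v ∈ τ, fibv (ray v)) = 0 := by
    intro χ hχ
    rw [pair_sum]
    refine Finset.sum_eq_zero fun v _ => ?_
    rw [ndx_pair_fibv]
    exact Finset.sum_eq_zero fun k _ => by rw [hg χ hχ k, zero_mul]
  rw [h1 χ (Finsupp.mem_support_iff.2 hχ), h1 χ' hχ']

omit [Algebra ℂ F] in
theorem mon_base {x' y : Fin (dB + r) → F}
    (h : ∀ i, x' (Fin.castAdd r i) = y (Fin.castAdd r i)) {χ : Fin (dB + r) → ℤ}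
    (hχ : ∀ k : Fin r, χ (Fin.natAdd dB k) = 0) : mon x' χ = mon y χ := by
  unfold mon
  rw [Fin.prod_univ_add, Fin.prod_univ_add]
  congr 1
  · exact Finset.prod_congr rfl fun i _ => by rw [h i]
  · exact Finset.prod_congr rfl fun k _ => by rw [hχ k, zpow_zero, zpow_zero]

theorem ev_base {g : Lau (dB + r)} (hg : ∀ χ ∈ g.support, ∀ k : Fin r, χ (Fin.natAdd dB k) = 0)
    {x' y : Fin (dB + r) → F} (h : ∀ i, x' (Fin.castAdd r i) = y (Fin.castAdd r i)) :
    ev g x' = ev g y := by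
  unfold ev
  exact Finset.sum_congr rfl fun χ hχ => by rw [mon_base h (hg χ hχ)]

theorem ldv_base {g : Lau (dB + r)} (hg : ∀ χ ∈ g.support, ∀ k : Fin r, χ (Fin.natAdd dB k) = 0)
    {x' y : Fin (dB + r) → F} (h : ∀ i, x' (Fin.castAdd r i) = y (Fin.castAdd r i))
    (j : Fin (dB + r)) : ldv g j x' = ldv g j y := by
  unfold ldv
  exact Finset.sum_congr rfl fun χ hχ => by rw [mon_base h (hg χ hχ)]

theorem ldv_base_natAdd {g : Lau (dB + r)}
    (hg : ∀ χ ∈ g.support, ∀ k : Fin r, χ (Fin.natAdd dB k) = 0)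
    (x' : Fin (dB + r) → F) (k : Fin r) : ldv g (Fin.natAdd dB k) x' = 0 := by
  unfold ldv
  exact Finset.sum_eq_zero fun χ hχ => by rw [hg χ hχ k, Int.cast_zero, mul_zero, zero_mul]

end point

section main

variable {n dB r : ℕ} {B Q V : Type} [Fintype B] [Fintype Q] [Fintype V] [DecidableEq V]
  {K : Type} [Field K] [Algebra ℂ K] {x : Fin (dB + r) → K} {f : B ⊕ Q → Lau (dB + r)}
  {F : Type} [Field F] [Algebra ℂ F]

omit [Fintype B] in
/-- if the rows of the columns outside the zero set vanish, then so do the rows in the directions of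
the fibre -/
theorem lg_natAdd {Δ : FanV V r} {x' : Fin (dB + r) → F} {Z : V → F}
    {τ : Finset V} (hZ : ∀ v, Z v = 0 ↔ v ∈ τ)
    (hF : ∀ q, (coxF f Δ.ray).F (cst (fun q => f (Sum.inr q)) x') q Z = 0) {l : Q → F}
    (hl : ∀ w, w ∉ τ →
      ∑ q, l q * (coxF f Δ.ray).J (cst (fun q => f (Sum.inr q)) x') q w Z = 0) (k : Fin r) :
    ∑ q, l q * (coxF f Δ.ray).lg (cst (fun q => f (Sum.inr q)) x') q (Fin.natAdd dB k) Z = 0 := by
  have key : (fun k : Fin r => ∑ q, l q *
      (coxF f Δ.ray).lg (cst (fun q => f (Sum.inr q)) x') q (Fin.natAdd dB k) Z) = 0 := by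
    refine Δ.eq_zero fun v => ?_
    -- the relation of the column `v`
    have h1 : ∀ q, (coxF f Δ.ray).J (cst (fun q => f (Sum.inr q)) x') q v Z * Z v =
        ∑ k, (Δ.ray v k : F) *
          (coxF f Δ.ray).lg (cst (fun q => f (Sum.inr q)) x') q (Fin.natAdd dB k) Z := by
      intro q
      rw [Cox.J_mul_lg, hF q, mul_zero, add_zero]
      change ∑ i : Fin (dB + r), (((fibv (Δ.ray v) : Fin (dB + r) → ℤ) i : ℤ) : F) * _ = _
      rw [Fin.sum_univ_add]
      simp only [fibv_castAdd, fibv_natAdd, Int.cast_zero, zero_mul, Finset.sum_const_zero,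
        zero_add]
    have h2 : ∑ k, (Δ.ray v k : F) * ∑ q, l q *
        (coxF f Δ.ray).lg (cst (fun q => f (Sum.inr q)) x') q (Fin.natAdd dB k) Z =
        ∑ q, l q * ((coxF f Δ.ray).J (cst (fun q => f (Sum.inr q)) x') q v Z * Z v) := by
      simp only [h1, Finset.mul_sum]
      rw [Finset.sum_comm]
      exact Finset.sum_congr rfl fun q _ => Finset.sum_congr rfl fun k _ => by ring
    rw [h2]
    by_cases hv : v ∈ τ
    · rw [(hZ v).2 hv]
      simp
    · simp only [← mul_assoc]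
      rw [← Finset.sum_mul, hl v hv, zero_mul]
  exact congrFun key k

/-- (2) a relation of the rows of the total system at a point in Cox coordinates vanishes -/
theorem nd_int (T : Tot n dB r B Q x f) {Δ : FanV V r} (hΔ : Δ.Adapted f)
    {x' : Fin (dB + r) → F} (hx' : ∀ j, x' j ≠ 0) (hB : ∀ q : B, ev (f (Sum.inl q)) x' = 0)
    {Z : V → F} {τ : Finset V} (hτ : Δ.cone τ) (hZ : ∀ v, Z v = 0 ↔ v ∈ τ)
    (hF : ∀ q, (coxF f Δ.ray).F (cst (fun q => f (Sum.inr q)) x') q Z = 0)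
    {l : Q → F} {l' : B → F}
    (hl : ∀ w, w ∉ τ →
      ∑ q, l q * (coxF f Δ.ray).J (cst (fun q => f (Sum.inr q)) x') q w Z = 0)
    (hl' : ∀ i : Fin dB, ∑ q, l' q * ldv (f (Sum.inl q)) (Fin.castAdd r i) x' +
      ∑ q, l q * (coxF f Δ.ray).lg (cst (fun q => f (Sum.inr q)) x') q (Fin.castAdd r i) Z = 0) :
    l = 0 ∧ l' = 0 := by
  have hκ : ∀ q, (∏ v ∈ τᶜ, Z v ^ mn (f (Sum.inr q)) (fibv (Δ.ray v))) ≠ 0 := fun q =>
    Finset.prod_ne_zero_iff.2 fun v hv => zpow_ne_zero _ fun h =>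
      (Finset.mem_compl.1 hv) ((hZ v).1 h)
  have hx : ∀ i : Fin dB, cpt Δ.ray x' Z τ (Fin.castAdd r i) = x' (Fin.castAdd r i) :=
    fun i => cpt_castAdd _ _ _ _ i
  have hQ : ∀ q, ∃ χ ∈ (f (Sum.inr q)).support, ∀ v ∈ τ, (coxF f Δ.ray).e q χ v = 0 :=
    hΔ τ hτ
  have hnat := lg_natAdd hZ hF hl
  have key := nd_ext (α := Sum.elim l'
    (fun q => l q * (∏ v ∈ τᶜ, Z v ^ mn (f (Sum.inr q)) (fibv (Δ.ray v)))⁻¹)) T.nd
    (∑ v ∈ τ, fibv (Δ.ray v)) (y := cpt Δ.ray x' Z τ) (cpt_ne hx' hZ) (by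
      rintro (q | q)
      · rw [ini_base (T.base q), ev_base (T.base q) hx, hB q]
      · obtain ⟨χ₀, h₀, h⟩ := hQ q
        rw [ev_ini_cpt hZ h₀ h, hF q, mul_zero]) (by
      intro j
      rw [Fintype.sum_sum_type]
      simp only [Sum.elim_inl, Sum.elim_inr]
      have h1 : ∀ q, l q * (∏ v ∈ τᶜ, Z v ^ mn (f (Sum.inr q)) (fibv (Δ.ray v)))⁻¹ *
          ldv (ini (∑ v ∈ τ, fibv (Δ.ray v)) (f (Sum.inr q))) j (cpt Δ.ray x' Z τ) =
          l q * (coxF f Δ.ray).lg (cst (fun q => f (Sum.inr q)) x') q j Z := by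
        intro q
        obtain ⟨χ₀, h₀, h⟩ := hQ q
        rw [ldv_ini_cpt hZ h₀ h, mul_assoc, ← mul_assoc (_)⁻¹, inv_mul_cancel₀ (hκ q), one_mul]
      have h2 : ∀ q, l' q * ldv (ini (∑ v ∈ τ, fibv (Δ.ray v)) (f (Sum.inl q))) j
          (cpt Δ.ray x' Z τ) = l' q * ldv (f (Sum.inl q)) j x' := by
        intro q
        rw [ini_base (T.base q), ldv_base (T.base q) hx]
      rw [Finset.sum_congr rfl fun q _ => h2 q, Finset.sum_congr rfl fun q _ => h1 q]
      refine Fin.addCases (fun i => hl' i) (fun k => ?_) j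
      rw [hnat k, add_zero]
      exact Finset.sum_eq_zero fun q _ => by rw [ldv_base_natAdd (T.base q), mul_zero])
  constructor
  · funext q
    have h1 := congrFun key (Sum.inr q)
    have h2 : l q * (∏ v ∈ τᶜ, Z v ^ mn (f (Sum.inr q)) (fibv (Δ.ray v)))⁻¹ = 0 := h1
    exact (mul_eq_zero.1 h2).resolve_right (inv_ne_zero (hκ q))
  · funext q
    exact congrFun key (Sum.inl q)

end main

section res

variable {dB r : ℕ}

theorem resL_inj : Function.Injective
    (fun χ : Fin dB → ℤ => (Fin.append χ 0 : Fin (dB + r) → ℤ)) := by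
  intro χ χ' h
  funext i
  have h1 := congrFun h (Fin.castAdd r i)
  simp only [Fin.append_left] at h1
  exact h1

/-- the restriction of a Laurent polynomial to the base torus -/
noncomputable def resL (g : Lau (dB + r)) : Lau dB :=
  Finsupp.comapDomain (fun χ : Fin dB → ℤ => (Fin.append χ 0 : Fin (dB + r) → ℤ)) g
    resL_inj.injOn

theorem resL_apply (g : Lau (dB + r)) (χ : Fin dB → ℤ) :
    resL g χ = g (Fin.append χ 0) := rfl

theorem mem_resL (g : Lau (dB + r)) (χ : Fin dB → ℤ) :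
    χ ∈ (resL g).support ↔ (Fin.append χ 0 : Fin (dB + r) → ℤ) ∈ g.support := by
  rw [Finsupp.mem_support_iff, Finsupp.mem_support_iff, resL_apply]

/-- the exponents of an equation of the base -/
theorem append_base {χ : Fin (dB + r) → ℤ} (hχ : ∀ k : Fin r, χ (Fin.natAdd dB k) = 0) :
    (Fin.append (fun i => χ (Fin.castAdd r i)) 0 : Fin (dB + r) → ℤ) = χ := by
  funext j
  refine Fin.addCases (fun i => ?_) (fun k => ?_) j
  · rw [Fin.append_left]
  · rw [Fin.append_right, hχ k]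
    rfl

/-- sums over the restriction -/
theorem sum_resL {g : Lau (dB + r)} (hg : ∀ χ ∈ g.support, ∀ k : Fin r, χ (Fin.natAdd dB k) = 0)
    {A : Type*} [AddCommMonoid A] (w : (Fin (dB + r) → ℤ) → A) :
    ∑ χ ∈ (resL g).support, w (Fin.append χ 0) = ∑ χ ∈ g.support, w χ := by
  refine Finset.sum_bij' (fun χ _ => (Fin.append χ 0 : Fin (dB + r) → ℤ))
    (fun χ _ i => χ (Fin.castAdd r i)) ?_ ?_ ?_ ?_ ?_
  · intro χ hχ
    exact (mem_resL g χ).1 hχ
  · intro χ hχ
    rw [mem_resL, append_base (hg χ hχ)]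
    exact hχ
  · intro χ _
    funext i
    simp only [Fin.append_left]
  · intro χ hχ
    exact append_base (hg χ hχ)
  · intro χ _
    rfl

theorem mon_append {F : Type*} [Field F] (x' : Fin (dB + r) → F) (χ : Fin dB → ℤ) :
    mon x' (Fin.append χ 0) = mon (fun i => x' (Fin.castAdd r i)) χ := by
  unfold mon
  rw [Fin.prod_univ_add]
  simp only [Fin.append_left, Fin.append_right, Pi.zero_apply, zpow_zero, Finset.prod_const_one,
    mul_one]

theorem ev_resL {F : Type} [Field F] [Algebra ℂ F] {g : Lau (dB + r)}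
    (hg : ∀ χ ∈ g.support, ∀ k : Fin r, χ (Fin.natAdd dB k) = 0) (x' : Fin (dB + r) → F) :
    ev (resL g) (fun i => x' (Fin.castAdd r i)) = ev g x' := by
  unfold ev
  rw [← sum_resL hg]
  exact Finset.sum_congr rfl fun χ _ => by rw [mon_append, resL_apply]

theorem ldv_resL {F : Type} [Field F] [Algebra ℂ F] {g : Lau (dB + r)}
    (hg : ∀ χ ∈ g.support, ∀ k : Fin r, χ (Fin.natAdd dB k) = 0) (i : Fin dB)
    (x' : Fin (dB + r) → F) :
    ldv (resL g) i (fun i => x' (Fin.castAdd r i)) = ldv g (Fin.castAdd r i) x' := by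
  unfold ldv
  rw [← sum_resL hg]
  exact Finset.sum_congr rfl fun χ _ => by rw [mon_append, resL_apply, Fin.append_left]

end res

section fib

variable {n dB r : ℕ} {B Q V : Type} [Fintype B] [Fintype Q] [Fintype V] [DecidableEq V]
  {K : Type} [Field K] [Algebra ℂ K] {x : Fin (dB + r) → K} {f : B ⊕ Q → Lau (dB + r)}
  {F : Type} [Field F] [Algebra ℂ F]

omit [Fintype B] [Fintype Q] [DecidableEq V] in
/-- the derivative of an equation of the fibre -/
theorem der_coxF (f : B ⊕ Q → Lau (dB + r)) (ray : V → Fin r → ℤ) {x' : Fin (dB + r) → F}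
    (hx' : ∀ j, x' j ≠ 0) (Z : V → F) (q : Q) (E : Derivation ℂ F F) :
    E ((coxF f ray).F (cst (fun q => f (Sum.inr q)) x') q Z) =
      ∑ j, (E (x' j) / x' j) * (coxF f ray).lg (cst (fun q => f (Sum.inr q)) x') q j Z +
      ∑ w, (coxF f ray).J (cst (fun q => f (Sum.inr q)) x') q w Z * E (Z w) := by
  rw [Cox.der_F]
  congr 1
  simp only [coxF_lg, Finset.mul_sum]
  rw [Finset.sum_comm]
  refine Finset.sum_congr rfl fun χ _ => ?_
  have h1 := Pool.Agent.Work.CW.der_mon hx' E (fun j => E (x' j) / x' j)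
    (fun j => (div_mul_cancel₀ _ (hx' j)).symm) χ
  have h2 : E (cst (fun q => f (Sum.inr q)) x' q χ) =
      algebraMap ℂ F (f (Sum.inr q) χ) * (mon x' χ * ∑ j, (χ j : F) * (E (x' j) / x' j)) := by
    unfold cst
    rw [Derivation.leibniz, Derivation.map_algebraMap, smul_zero, add_zero, smul_eq_mul, h1]
  rw [h2, Finset.mul_sum, Finset.mul_sum, Finset.sum_mul]
  exact Finset.sum_congr rfl fun j _ => by ring

omit [Algebra ℂ F] in
/-- double annihilator in `Fin d → F` -/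
theorem ndx_mem_rows {d : ℕ} {B : Type} [Fintype B] (M : B → Fin d → F) (u : Fin d → F)
    (h : ∀ ξ : Fin d → F, (∀ q, ∑ i, M q i * ξ i = 0) → ∑ i, u i * ξ i = 0) :
    ∃ c : B → F, ∀ i, u i = ∑ q, c q * M q i := by
  classical
  let L : B → (Fin d → F) →ₗ[F] F := fun q =>
    { toFun := fun ξ => ∑ i, M q i * ξ i
      map_add' := fun a b => by
        simp only [Pi.add_apply, mul_add, Finset.sum_add_distrib]
      map_smul' := fun c a => by
        simp only [Pi.smul_apply, smul_eq_mul, RingHom.id_apply, Finset.mul_sum]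
        exact Finset.sum_congr rfl fun i _ => by ring }
  let U : (Fin d → F) →ₗ[F] F :=
    { toFun := fun ξ => ∑ i, u i * ξ i
      map_add' := fun a b => by
        simp only [Pi.add_apply, mul_add, Finset.sum_add_distrib]
      map_smul' := fun c a => by
        simp only [Pi.smul_apply, smul_eq_mul, RingHom.id_apply, Finset.mul_sum]
        exact Finset.sum_congr rfl fun i _ => by ring }
  have h1 : U ∈ Submodule.span F (Set.range L) := by
    refine mem_span_of_iInf_ker_le_ker fun ξ hξ => ?_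
    rw [LinearMap.mem_ker]
    refine h ξ fun q => ?_
    have h2 := (Submodule.mem_iInf _).1 hξ q
    exact LinearMap.mem_ker.1 h2
  rw [Submodule.mem_span_range_iff_exists_fun] at h1
  obtain ⟨c, hc⟩ := h1
  refine ⟨c, fun i => ?_⟩
  have h3 := congrArg (fun φ => φ (Pi.single i 1)) hc
  simp only [LinearMap.sum_apply, LinearMap.smul_apply, smul_eq_mul] at h3
  have h4 : U (Pi.single i 1) = u i := by
    change ∑ j, u j * (Pi.single i (1 : F) : Fin d → F) j = u i
    simp [Pi.single_apply]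
  have h5 : ∀ q, L q (Pi.single i 1) = M q i := by
    intro q
    change ∑ j, M q j * (Pi.single i (1 : F) : Fin d → F) j = M q i
    simp [Pi.single_apply]
  rw [h4] at h3
  rw [← h3]
  exact Finset.sum_congr rfl fun q _ => by rw [h5]

/-- (3) the rows of the fibre are independent over a generic point of the base -/
theorem fib_nd (T : Tot n dB r B Q x f) {Δ : FanV V r} (hΔ : Δ.Adapted f)
    {KB : Type} [Field KB] [Algebra ℂ KB] {nB : ℕ} {xB : Fin dB → KB}
    (DB : Data KB nB dB B xB fun q => resL (f (Sum.inl q))) (φ : KB →ₐ[ℂ] F)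
    {x' : Fin (dB + r) → F} (hx' : ∀ j, x' j ≠ 0) (hB : ∀ i, φ (xB i) = x' (Fin.castAdd r i))
    {Z : V → F} {τ : Finset V} (hτ : Δ.cone τ) (hZ : ∀ v, Z v = 0 ↔ v ∈ τ)
    (hF : ∀ q, (coxF f Δ.ray).F (cst (fun q => f (Sum.inr q)) x') q Z = 0) {l : Q → F}
    (hl : ∀ w, w ∉ τ →
      ∑ q, l q * (coxF f Δ.ray).J (cst (fun q => f (Sum.inr q)) x') q w Z = 0) : l = 0 := by
  classical
  have hxB : (fun i => φ (xB i)) = fun i => x' (Fin.castAdd r i) := funext hB
  have hnat := lg_natAdd hZ hF hl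
  have hBev : ∀ q : B, ev (f (Sum.inl q)) x' = 0 := by
    intro q
    rw [← ev_resL (T.base q), ← hxB, ← Pool.Agent.Work.CW.map_ev φ, DB.eq q, map_zero]
  -- the functional on the directions of the base
  obtain ⟨c, hc⟩ := ndx_mem_rows (fun (q : B) (i : Fin dB) => ldv (f (Sum.inl q)) (Fin.castAdd r i) x')
    (fun i => ∑ q, l q *
      (coxF f Δ.ray).lg (cst (fun q => f (Sum.inr q)) x') q (Fin.castAdd r i) Z) (by
    intro ξ hξ
    obtain ⟨E, hE⟩ := Pool.Agent.Work.CW.exists_der DB φ ξ (fun q => by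
      rw [hxB, ← hξ q]
      exact Finset.sum_congr rfl fun i _ => by rw [ldv_resL (T.base q)])
    have h1 : ∀ q, ∑ j, (E (x' j) / x' j) *
        (coxF f Δ.ray).lg (cst (fun q => f (Sum.inr q)) x') q j Z =
        - ∑ w, (coxF f Δ.ray).J (cst (fun q => f (Sum.inr q)) x') q w Z * E (Z w) := by
      intro q
      have h2 := der_coxF f Δ.ray hx' Z q E
      rw [hF q, map_zero] at h2
      exact eq_neg_of_add_eq_zero_left h2.symm
    have h3 : ∑ q, l q * ∑ w,
        (coxF f Δ.ray).J (cst (fun q => f (Sum.inr q)) x') q w Z * E (Z w) = 0 := by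
      simp only [Finset.mul_sum]
      rw [Finset.sum_comm]
      refine Finset.sum_eq_zero fun w _ => ?_
      simp only [← mul_assoc]
      rw [← Finset.sum_mul]
      by_cases hw : w ∈ τ
      · rw [(hZ w).2 hw, map_zero, mul_zero]
      · rw [hl w hw, zero_mul]
    have h4 : ∑ j, (E (x' j) / x' j) * ∑ q, l q *
        (coxF f Δ.ray).lg (cst (fun q => f (Sum.inr q)) x') q j Z = 0 := by
      have h5 : ∑ j, (E (x' j) / x' j) * ∑ q, l q *
          (coxF f Δ.ray).lg (cst (fun q => f (Sum.inr q)) x') q j Z =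
          ∑ q, l q * ∑ j, (E (x' j) / x' j) *
            (coxF f Δ.ray).lg (cst (fun q => f (Sum.inr q)) x') q j Z := by
        simp only [Finset.mul_sum]
        rw [Finset.sum_comm]
        exact Finset.sum_congr rfl fun q _ => Finset.sum_congr rfl fun j _ => by ring
      rw [h5, Finset.sum_congr rfl fun q _ => by rw [h1 q], ← neg_eq_zero, ← h3,
        ← Finset.sum_neg_distrib]
      exact Finset.sum_congr rfl fun q _ => by ring
    rw [Fin.sum_univ_add] at h4
    simp only [hnat, mul_zero, Finset.sum_const_zero, add_zero] at h4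
    rw [← h4]
    refine Finset.sum_congr rfl fun i _ => ?_
    have h6 : E (x' (Fin.castAdd r i)) / x' (Fin.castAdd r i) = ξ i := by
      rw [← hB i, hE i, mul_div_assoc, div_self (by rw [hB i]; exact hx' _), mul_one]
    rw [h6, mul_comm])
  exact (nd_int T hΔ hx' hBev hτ hZ hF (l' := fun q => - c q) hl (fun i => by
    rw [hc i, ← Finset.sum_add_distrib]
    exact Finset.sum_eq_zero fun q _ => by ring)).1

end fib

end Pool.Agent.Work.WRC
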