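import Mathlib
import Pool.Agent.Work.MP_4329d7_ag_wrc.NDx

/-!
W-RC, module Fin1: the defect polynomial of a handle.

* `exists_defect`: a matrix over `k[X]` whose rows are independent over the field of fractions
  reaches all multiples of some monic polynomial `g`;
* `evSurj_g`: eventual surjectivity onto the multiples of `g`;
* `fin1`: the Jacobian of a handle over a generic curve of the base has independent rows at infinity
  and over the field of fractions, hence a defect polynomial; `fin1_evSurj`: the combination.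
-/

namespace Pool.Agent.Work.WRC

open Polynomial Pool.Agent.Work.CI

section defect

variable {k : Type} [Field k] {Q V : Type} [Fintype Q] [Fintype V]

/-- the defect polynomial of a matrix -/
theorem exists_defect (M : Q → V → k[X])
    (h : ∀ c : Q → RatFunc k, (∀ v, ∑ q, c q * algebraMap k[X] (RatFunc k) (M q v) = 0) → c = 0) :
    ∃ g : k[X], g.Monic ∧ ∀ φ : Q → k[X], ∃ x : V → k[X], ∀ q, ∑ v, M q v * x v = g * φ q := by
  classical
  have h1 : ∀ q0 : Q, ∃ y : V → RatFunc k, ∀ q,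
      ∑ v, algebraMap k[X] (RatFunc k) (M q v) * y v = if q = q0 then 1 else 0 :=
    fun q0 => surj_of_rows (fun q v => algebraMap k[X] (RatFunc k) (M q v)) h
      fun q => if q = q0 then 1 else 0
  choose y hy using h1
  obtain ⟨b, hb⟩ := IsLocalization.exist_integer_multiples (nonZeroDivisors k[X])
    (Finset.univ : Finset (Q × V)) fun p => y p.1 p.2
  choose z hz using fun p : Q × V => hb p (Finset.mem_univ _)
  have hb0 : (b : k[X]) ≠ 0 := nonZeroDivisors.ne_zero b.2
  have hinj : Function.Injective (algebraMap k[X] (RatFunc k)) :=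
    IsFractionRing.injective k[X] (RatFunc k)
  have key : ∀ q0 q, ∑ v, M q v * z (q0, v) = if q = q0 then (b : k[X]) else 0 := by
    intro q0 q
    apply hinj
    rw [map_sum]
    have h2 : ∀ v, algebraMap k[X] (RatFunc k) (M q v * z (q0, v)) =
        algebraMap k[X] (RatFunc k) b * (algebraMap k[X] (RatFunc k) (M q v) * y q0 v) := by
      intro v
      rw [map_mul, hz (q0, v), Algebra.smul_def]
      ring
    rw [Finset.sum_congr rfl fun v _ => h2 v, ← Finset.mul_sum, hy q0 q]
    split_ifs <;> simp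
  refine ⟨C ((b : k[X]).leadingCoeff)⁻¹ * b, ?_, fun φ => ?_⟩
  · rw [mul_comm]
    exact monic_mul_leadingCoeff_inv hb0
  · refine ⟨fun v => ∑ q0, φ q0 * (C ((b : k[X]).leadingCoeff)⁻¹ * z (q0, v)), fun q => ?_⟩
    calc ∑ v, M q v * ∑ q0, φ q0 * (C ((b : k[X]).leadingCoeff)⁻¹ * z (q0, v))
        = ∑ q0, φ q0 * (C ((b : k[X]).leadingCoeff)⁻¹ * ∑ v, M q v * z (q0, v)) := by
          simp only [Finset.mul_sum]
          rw [Finset.sum_comm]
          exact Finset.sum_congr rfl fun q0 _ => Finset.sum_congr rfl fun v _ => by ring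
      _ = _ := by
          simp only [key, mul_ite, mul_zero]
          rw [Finset.sum_ite_eq Finset.univ q, if_pos (Finset.mem_univ _)]
          ring

/-- **Eventual surjectivity** onto the multiples of `g`. -/
theorem evSurj_g (M : Q → V → k[X]) (d : Q → ℤ) (e : V → ℤ)
    (hM : ∀ q v, DegLE (M q v) (d q - e v))
    (hinf : ∀ c : Q → k, (∀ v, ∑ q, c q * lc (M q v) (d q - e v) = 0) → c = 0)
    {g : k[X]} (hg : g.Monic)
    (hMg : ∀ φ : Q → k[X], ∃ x : V → k[X], ∀ q, ∑ v, M q v * x v = g * φ q) :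
    ∃ N0 : ℤ, ∀ N : ℤ, N0 ≤ N → ∀ φ : Q → k[X], (∀ q, DegLE (g * φ q) (d q + N)) →
      ∃ x : V → k[X], (∀ v, DegLE (x v) (e v + N)) ∧ ∀ q, ∑ v, M q v * x v = g * φ q := by
  classical
  -- preimages of the basis vectors
  have hU : ∀ q : Q, ∃ U : V → k[X], ∀ q', ∑ v, M q' v * U v = if q = q' then g else 0 := by
    intro q
    obtain ⟨x, hx⟩ := hMg fun q' => if q = q' then 1 else 0
    refine ⟨x, fun q' => ?_⟩
    rw [hx q']
    split_ifs <;> simp
  choose U hU using hU
  -- a level at which the reduction at infinity works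
  obtain ⟨N1, hN1⟩ : ∃ N1 : ℤ, ∀ v, (g.natDegree : ℤ) ≤ e v + N1 := by
    refine ⟨∑ v, |e v| + g.natDegree, fun v => ?_⟩
    have := Finset.single_le_sum (f := fun v => |e v|) (fun _ _ => abs_nonneg _)
      (Finset.mem_univ v)
    have := neg_abs_le (e v)
    omega
  -- a bound for the degrees of the preimages at level `N1`
  obtain ⟨B, hB⟩ : ∃ B : ℤ, ∀ q v, d q + N1 + (U q v).natDegree ≤ B := by
    refine ⟨∑ q, ∑ v, |d q + N1 + (U q v).natDegree|, fun q v => ?_⟩
    have h1 := Finset.single_le_sum (f := fun v => |d q + N1 + (U q v).natDegree|)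
      (fun _ _ => abs_nonneg _) (Finset.mem_univ v)
    have h2 := Finset.single_le_sum (f := fun q => ∑ v, |d q + N1 + (U q v).natDegree|)
      (fun _ _ => Finset.sum_nonneg fun _ _ => abs_nonneg _) (Finset.mem_univ q)
    have h3 := le_abs_self (d q + N1 + ((U q v).natDegree : ℤ))
    exact h3.trans (h1.trans h2)
  obtain ⟨N0, hN0, hN01⟩ : ∃ N0 : ℤ, (∀ v, B ≤ e v + N0) ∧ N1 ≤ N0 := by
    refine ⟨|B| + |N1| + ∑ v, |e v|, fun v => ?_, ?_⟩
    · have := Finset.single_le_sum (f := fun v => |e v|) (fun _ _ => abs_nonneg _)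
        (Finset.mem_univ v)
      have := neg_abs_le (e v)
      have := le_abs_self B
      have := abs_nonneg N1
      omega
    · have := Finset.sum_nonneg (f := fun v => |e v|) (s := Finset.univ)
        (fun _ _ => abs_nonneg _)
      have := le_abs_self N1
      have := abs_nonneg B
      omega
  have hdeg : ∀ (φ : k[X]) (n : ℤ), DegLE (g * φ) n → DegLE φ (n - g.natDegree) := by
    intro φ n h
    by_cases h0 : φ = 0
    · rw [h0]; exact DegLE.zero _
    have h2 : ((g * φ).natDegree : ℤ) ≤ n := by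
      by_contra h3
      push Not at h3
      have h4 := h _ h3
      rw [coeff_natDegree, leadingCoeff_eq_zero] at h4
      exact mul_ne_zero hg.ne_zero h0 h4
    refine (DegLE.natDegree φ).mono ?_
    rw [natDegree_mul hg.ne_zero h0] at h2
    push_cast at h2
    omega
  -- the statement for level `N1 + j` with solution of level `L`, `L` large
  have key : ∀ (L : ℤ), N0 ≤ L → ∀ j : ℕ, N1 + j ≤ L → ∀ φ : Q → k[X],
      (∀ q, DegLE (g * φ q) (d q + (N1 + j))) →
      ∃ x : V → k[X], (∀ v, DegLE (x v) (e v + L)) ∧ ∀ q, ∑ v, M q v * x v = g * φ q := by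
    intro L hL j
    induction j with
    | zero =>
      intro _ φ hφ
      refine ⟨fun v => ∑ q, φ q * U q v, fun v => ?_, fun q' => ?_⟩
      · refine DegLE.sum fun q _ => ?_
        refine ((hdeg _ _ (hφ q)).mul (DegLE.natDegree (U q v))).mono ?_
        have h1 := hB q v
        have h2 := hN0 v
        push_cast
        omega
      · calc ∑ v, M q' v * ∑ q, φ q * U q v
            = ∑ v, ∑ q, M q' v * (φ q * U q v) := by
              refine Finset.sum_congr rfl fun v _ => ?_
              rw [Finset.mul_sum]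
          _ = ∑ q, ∑ v, M q' v * (φ q * U q v) := Finset.sum_comm
          _ = ∑ q, φ q * ∑ v, M q' v * U q v := by
              refine Finset.sum_congr rfl fun q _ => ?_
              rw [Finset.mul_sum]
              exact Finset.sum_congr rfl fun v _ => by ring
          _ = g * φ q' := by
              simp only [hU, mul_ite, mul_zero]
              rw [Finset.sum_ite_eq' Finset.univ q', if_pos (Finset.mem_univ _)]
              ring
    | succ j ih =>
      intro hj φ hφ
      obtain ⟨κ, hκ⟩ := surj_of_rows (fun q v => lc (M q v) (d q - e v)) hinf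
        fun q => lc (g * φ q) (d q + (N1 + (j + 1 : ℕ)))
      -- top part
      let s : V → k[X] := fun v =>
        monomial (e v + (N1 + (j + 1 : ℕ)) - g.natDegree).toNat (κ v)
      have hs : ∀ v, ((e v + (N1 + (j + 1 : ℕ)) - g.natDegree).toNat : ℤ) =
          e v + (N1 + (j + 1 : ℕ)) - g.natDegree :=
        fun v => Int.toNat_of_nonneg (by have := hN1 v; push_cast; omega)
      have hsd : ∀ v, DegLE (s v) (e v + (N1 + (j + 1 : ℕ)) - g.natDegree) := fun v => by
        have := DegLE.monomial (κ v) (e v + (N1 + (j + 1 : ℕ)) - g.natDegree).toNat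
        rwa [hs v] at this
      have hsl : ∀ v, lc (s v) (e v + (N1 + (j + 1 : ℕ)) - g.natDegree) = κ v := fun v => by
        rw [← hs v, lc_of_nat, coeff_monomial, if_pos rfl]
      have htd : ∀ v, DegLE (g * s v) (e v + (N1 + (j + 1 : ℕ))) := fun v =>
        ((DegLE.natDegree g).mul (hsd v)).mono (by omega)
      have htl : ∀ v, lc (g * s v) (e v + (N1 + (j + 1 : ℕ))) = κ v := fun v => by
        have h1 := lc_mul (DegLE.natDegree g) (hsd v)
        have h2 : (g.natDegree : ℤ) + (e v + (N1 + (j + 1 : ℕ)) - g.natDegree) =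
            e v + (N1 + (j + 1 : ℕ)) := by ring
        rw [h2, hsl, lc_of_nat] at h1
        rw [h1, coeff_natDegree, hg.leadingCoeff, one_mul]
      have hrest : ∀ q, g * (φ q - ∑ v, M q v * s v) = g * φ q - ∑ v, M q v * (g * s v) := by
        intro q
        rw [mul_sub, Finset.mul_sum]
        congr 1
        exact Finset.sum_congr rfl fun v _ => by ring
      obtain ⟨x, hx, hxe⟩ := ih (by push_cast at hj ⊢; omega)
        (fun q => φ q - ∑ v, M q v * s v) (fun q => by
          rw [hrest q]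
          have h1 : DegLE (∑ v, M q v * (g * s v)) (d q + (N1 + (j + 1 : ℕ))) := by
            refine DegLE.sum fun v _ => ?_
            exact ((hM q v).mul (htd v)).mono (by omega)
          have h2 : lc (g * φ q - ∑ v, M q v * (g * s v)) (d q + (N1 + (j + 1 : ℕ))) = 0 := by
            have h3 : lc (∑ v, M q v * (g * s v)) (d q + (N1 + (j + 1 : ℕ))) =
                lc (g * φ q) (d q + (N1 + (j + 1 : ℕ))) := by
              rw [← hκ q, lc_sum]
              refine Finset.sum_congr rfl fun v _ => ?_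
              have h4 := lc_mul (hM q v) (htd v)
              rw [htl] at h4
              rw [← h4]
              congr 1
              omega
            have h5 : ∀ (p p' : k[X]) (n : ℤ), lc (p - p') n = lc p n - lc p' n := by
              intro p p' n
              unfold lc
              split_ifs
              · rw [coeff_sub]
              · rw [sub_zero]
            rw [h5, h3, sub_self]
          have h6 := ((hφ q).sub h1).pred h2
          refine h6.mono ?_
          push_cast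
          omega)
      refine ⟨fun v => g * s v + x v, fun v => ((htd v).mono (by omega)).add (hx v), fun q => ?_⟩
      have h7 := hxe q
      rw [hrest q] at h7
      simp only [mul_add, Finset.sum_add_distrib]
      rw [h7]
      ring
  refine ⟨N0, fun N hN φ hφ => ?_⟩
  refine key N hN (N - N1).toNat ?_ φ fun q => ?_
  · rw [Int.toNat_of_nonneg (by omega)]; omega
  · rw [Int.toNat_of_nonneg (by omega)]
    have : d q + (N1 + (N - N1)) = d q + N := by ring
    rw [this]
    exact hφ q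

end defect

section congr

variable {V Q X : Type} [Fintype V] {C : Cox V Q X} {A : Type*} [CommRing A]

theorem Cox.F_scale {c c' : Q → X → A} {q : Q} {s : A}
    (h : ∀ x ∈ C.supp q, c q x = s * c' q x) (Y : V → A) : C.F c q Y = s * C.F c' q Y := by
  rw [Cox.F_eq, Cox.F_eq, Finset.mul_sum]
  exact Finset.sum_congr rfl fun x hx => by rw [h x hx]; ring

theorem Cox.J_scale {c c' : Q → X → A} {q : Q} {s : A}
    (h : ∀ x ∈ C.supp q, c q x = s * c' q x) (w : V) (Y : V → A) :
    C.J c q w Y = s * C.J c' q w Y := by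
  classical
  rw [Cox.J_eq, Cox.J_eq, Finset.mul_sum]
  exact Finset.sum_congr rfl fun x hx => by rw [h x hx]; ring

theorem Cox.F_congr_supp {c c' : Q → X → A} {q : Q} (h : ∀ x ∈ C.supp q, c q x = c' q x)
    (Y : V → A) : C.F c q Y = C.F c' q Y := by
  rw [Cox.F_scale (s := 1) (fun x hx => by rw [h x hx, one_mul]) Y, one_mul]

theorem Cox.J_congr_supp {c c' : Q → X → A} {q : Q} (h : ∀ x ∈ C.supp q, c q x = c' q x)
    (w : V) (Y : V → A) : C.J c q w Y = C.J c' q w Y := by
  rw [Cox.J_scale (s := 1) (fun x hx => by rw [h x hx, one_mul]) w Y, one_mul]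

end congr

section fin1

variable {n dB r : ℕ} {B Q V : Type} [Fintype B] [Fintype Q] [Fintype V] [DecidableEq V]
  {K : Type} [Field K] [Algebra ℂ K] {x : Fin (dB + r) → K} {f : B ⊕ Q → Lau (dB + r)}

omit [Fintype Q] [DecidableEq V] in
/-- the degree of the coefficients on a relation -/
theorem rel_deg {C : Cox V Q (Fin (dB + r) → ℤ)} {N : V → ℤ} (hN : C.Rel N) {D : Q → ℤ} {q : Q}
    {χ : Fin (dB + r) → ℤ} (hχ : χ ∈ C.supp q) :
    D q + C.m N q - ∑ v, N v * (C.e q χ v : ℤ) = D q := by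
  rw [Cox.rel_sum hN hχ]
  ring

/-- the rows of the Jacobian of a handle over a generic point at infinity -/
theorem fin1_inf (T : Tot n dB r B Q x f) {Δ : FanV V r} (hΔ : Δ.Adapted f)
    {KB : Type} [Field KB] [Algebra ℂ KB] {nB : ℕ} {xB : Fin dB → KB}
    (DB : Data KB nB dB B xB fun q => resL (f (Sum.inl q))) {k : Type} [Field k] [Algebra ℂ k]
    (i : KB →ₐ[ℂ] k) {x₀ : Fin (dB + r) → k} (hx₀ : ∀ j, x₀ j ≠ 0)
    (hi : ∀ j, i (xB j) = x₀ (Fin.castAdd r j))
    {a : Q → (Fin (dB + r) → ℤ) → k[X]} {D : Q → ℤ}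
    (ha : ∀ q, ∀ χ ∈ (f (Sum.inr q)).support, DegLE (a q χ) (D q))
    (hlc : ∀ q, ∀ χ ∈ (f (Sum.inr q)).support,
      lc (a q χ) (D q) = cst (fun q => f (Sum.inr q)) x₀ q χ)
    {H : V → k[X]} {N : V → ℤ} (hN : (coxF f Δ.ray).Rel N) (hH : ∀ v, DegLE (H v) (N v))
    (hF : ∀ q, (coxF f Δ.ray).F a q H = 0) {τ : Finset V} (hτ : Δ.cone τ)
    (hHτ : ∀ v, lc (H v) (N v) = 0 ↔ v ∈ τ) :
    (∀ q v, DegLE ((coxF f Δ.ray).J a q v H) (D q + (coxF f Δ.ray).m N q - N v)) ∧
    ∀ l : Q → k, (∀ v, ∑ q, l q *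
      lc ((coxF f Δ.ray).J a q v H) (D q + (coxF f Δ.ray).m N q - N v) = 0) → l = 0 := by
  have hd : ∀ q, ∀ χ ∈ (coxF f Δ.ray).supp q, DegLE (a q χ)
      (D q + (coxF f Δ.ray).m N q - ∑ v, N v * ((coxF f Δ.ray).e q χ v : ℤ)) := by
    intro q χ hχ
    rw [rel_deg hN hχ]
    exact ha q χ hχ
  have hc : ∀ q, ∀ χ ∈ (coxF f Δ.ray).supp q,
      lc (a q χ) (D q + (coxF f Δ.ray).m N q - ∑ v, N v * ((coxF f Δ.ray).e q χ v : ℤ)) =
        cst (fun q => f (Sum.inr q)) x₀ q χ := by
    intro q χ hχ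
    rw [rel_deg hN hχ]
    exact hlc q χ hχ
  refine ⟨fun q v => Cox.J_degLE (hd q) hH v, fun l hl => ?_⟩
  refine fib_nd T hΔ DB i hx₀ hi hτ hHτ (fun q => ?_) (fun w _ => ?_)
  · have h1 := Cox.F_lc (hd q) hH
    rw [hF q] at h1
    have h2 : lc (0 : k[X]) (D q + (coxF f Δ.ray).m N q) = 0 := by
      unfold lc
      simp
    rw [h2] at h1
    rw [h1]
    exact Cox.F_congr_supp (c := cst (fun q => f (Sum.inr q)) x₀)
      (c' := fun q χ => lc (a q χ)
        (D q + (coxF f Δ.ray).m N q - ∑ v, N v * ((coxF f Δ.ray).e q χ v : ℤ)))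
      (fun χ hχ => (hc q χ hχ).symm) _
  · rw [← hl w]
    refine Finset.sum_congr rfl fun q _ => ?_
    rw [Cox.J_lc (hd q) hH w]
    congr 1
    exact Cox.J_congr_supp (c := cst (fun q => f (Sum.inr q)) x₀)
      (c' := fun q' χ => lc (a q' χ)
        (D q + (coxF f Δ.ray).m N q - ∑ v, N v * ((coxF f Δ.ray).e q' χ v : ℤ)))
      (fun χ hχ => (hc q χ hχ).symm) _ _

/-- the rows of the Jacobian of a handle over the generic point of a curve of the base: `xp` is the
point over the field of rational functions, `den q` is the common denominator of the coefficients -/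
theorem fin1_gen (T : Tot n dB r B Q x f) {Δ : FanV V r} (hΔ : Δ.Adapted f)
    {KB : Type} [Field KB] [Algebra ℂ KB] {nB : ℕ} {xB : Fin dB → KB}
    (DB : Data KB nB dB B xB fun q => resL (f (Sum.inl q))) {k : Type} [Field k] [Algebra ℂ k]
    (φ : KB →ₐ[ℂ] RatFunc k) {xp : Fin (dB + r) → RatFunc k} (hxp : ∀ j, xp j ≠ 0)
    (hφ : ∀ j, φ (xB j) = xp (Fin.castAdd r j))
    {a : Q → (Fin (dB + r) → ℤ) → k[X]} {den : Q → RatFunc k} (hden : ∀ q, den q ≠ 0)
    (ha : ∀ q, ∀ χ ∈ (f (Sum.inr q)).support, algebraMap k[X] (RatFunc k) (a q χ) =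
      den q * cst (fun q => f (Sum.inr q)) xp q χ)
    {H : V → k[X]} (hF : ∀ q, (coxF f Δ.ray).F a q H = 0) {σ : Finset V} (hσ : Δ.cone σ)
    (hHσ : ∀ v, H v = 0 ↔ v ∈ σ) {c : Q → RatFunc k}
    (hc : ∀ v, ∑ q, c q *
      algebraMap k[X] (RatFunc k) ((coxF f Δ.ray).J a q v H) = 0) : c = 0 := by
  have hinj : Function.Injective (algebraMap k[X] (RatFunc k)) :=
    IsFractionRing.injective k[X] (RatFunc k)
  have key := fib_nd T hΔ DB φ hxp hφ (Z := fun v => algebraMap k[X] (RatFunc k) (H v)) hσ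
    (fun v => by rw [map_eq_zero_iff _ hinj, hHσ v]) (fun q => by
      have h1 := congrArg (algebraMap k[X] (RatFunc k)) (hF q)
      rw [map_zero, Cox.F_map, Cox.F_scale
        (c := fun q χ => algebraMap k[X] (RatFunc k) (a q χ))
        (c' := cst (fun q => f (Sum.inr q)) xp) (s := den q) (fun χ hχ => ha q χ hχ)] at h1
      exact (mul_eq_zero.1 h1).resolve_left (hden q)) (l := fun q => c q * den q)
    (fun w _ => by
      rw [← hc w]
      refine Finset.sum_congr rfl fun q _ => ?_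
      rw [Cox.J_map, Cox.J_scale (c := fun q χ => algebraMap k[X] (RatFunc k) (a q χ))
        (c' := cst (fun q => f (Sum.inr q)) xp)
        (s := den q) (fun χ hχ => ha q χ hχ), mul_assoc])
  funext q
  exact (mul_eq_zero.1 (congrFun key q)).resolve_right (hden q)

/-- **Fin1**: the rows of the Jacobian of the handle are independent at infinity, and it has a
defect polynomial. -/
theorem fin1 (T : Tot n dB r B Q x f) {Δ : FanV V r} (hΔ : Δ.Adapted f)
    {KB : Type} [Field KB] [Algebra ℂ KB] {nB : ℕ} {xB : Fin dB → KB}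
    (DB : Data KB nB dB B xB fun q => resL (f (Sum.inl q))) {k : Type} [Field k] [Algebra ℂ k]
    (i : KB →ₐ[ℂ] k) {x₀ : Fin (dB + r) → k} (hx₀ : ∀ j, x₀ j ≠ 0)
    (hi : ∀ j, i (xB j) = x₀ (Fin.castAdd r j))
    (φ : KB →ₐ[ℂ] RatFunc k) {xp : Fin (dB + r) → RatFunc k} (hxp : ∀ j, xp j ≠ 0)
    (hφ : ∀ j, φ (xB j) = xp (Fin.castAdd r j))
    {a : Q → (Fin (dB + r) → ℤ) → k[X]} {D : Q → ℤ}
    (ha : ∀ q, ∀ χ ∈ (f (Sum.inr q)).support, DegLE (a q χ) (D q))
    (hlc : ∀ q, ∀ χ ∈ (f (Sum.inr q)).support,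
      lc (a q χ) (D q) = cst (fun q => f (Sum.inr q)) x₀ q χ)
    {den : Q → RatFunc k} (hden : ∀ q, den q ≠ 0)
    (hden' : ∀ q, ∀ χ ∈ (f (Sum.inr q)).support, algebraMap k[X] (RatFunc k) (a q χ) =
      den q * cst (fun q => f (Sum.inr q)) xp q χ)
    {H : V → k[X]} {N : V → ℤ} (hN : (coxF f Δ.ray).Rel N) (hH : ∀ v, DegLE (H v) (N v))
    (hF : ∀ q, (coxF f Δ.ray).F a q H = 0) {σ τ : Finset V} (hσ : Δ.cone σ)
    (hHσ : ∀ v, H v = 0 ↔ v ∈ σ) (hτ : Δ.cone τ) (hHτ : ∀ v, lc (H v) (N v) = 0 ↔ v ∈ τ) :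
    (∀ q v, DegLE ((coxF f Δ.ray).J a q v H) (D q + (coxF f Δ.ray).m N q - N v)) ∧
    (∀ l : Q → k, (∀ v, ∑ q, l q *
      lc ((coxF f Δ.ray).J a q v H) (D q + (coxF f Δ.ray).m N q - N v) = 0) → l = 0) ∧
    ∃ g : k[X], g.Monic ∧
      (∀ ψ : Q → k[X], ∃ z : V → k[X], ∀ q, ∑ v, (coxF f Δ.ray).J a q v H * z v = g * ψ q) ∧
      ∃ N0 : ℤ, ∀ L : ℤ, N0 ≤ L → ∀ ψ : Q → k[X],
        (∀ q, DegLE (g * ψ q) (D q + (coxF f Δ.ray).m N q + L)) →
        ∃ z : V → k[X], (∀ v, DegLE (z v) (N v + L)) ∧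
          ∀ q, ∑ v, (coxF f Δ.ray).J a q v H * z v = g * ψ q := by
  obtain ⟨h1, h2⟩ := fin1_inf T hΔ DB i hx₀ hi ha hlc hN hH hF hτ hHτ
  obtain ⟨g, hg, hgs⟩ := exists_defect (fun q v => (coxF f Δ.ray).J a q v H)
    fun c hc => fin1_gen T hΔ DB φ hxp hφ hden hden' hF hσ hHσ hc
  exact ⟨h1, h2, g, hg, hgs, evSurj_g _ _ N h1 h2 hg hgs⟩

end fin1

end Pool.Agent.Work.WRC
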