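import Mathlib
import Pool.Agent.Work.MP_4329d7_ag_wrc.NDx
import Pool.Agent.Work.MP_4329d7_ag_wrc.Defs2

/-!
W-RC, module NDx, second part: the base system `resB`.
-/

namespace Pool.Agent.Work.WRC

open Polynomial Pool.Agent.Work.CI

/-- the two definitions of the base system agree -/
theorem resB_eq {dB r : ℕ} {g : Lau (dB + r)}
    (hg : ∀ χ ∈ g.support, ∀ k : Fin r, χ (Fin.natAdd dB k) = 0) : resB g = resL g := by
  have h1 : Finsupp.mapDomain
      (fun χ : Fin dB → ℤ => (Fin.append χ 0 : Fin (dB + r) → ℤ)) (resL g) = g :=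
    Finsupp.mapDomain_comapDomain _ resL_inj g fun χ hχ =>
      ⟨fun i => χ (Fin.castAdd r i), append_base (hg χ (Finset.mem_coe.1 hχ))⟩
  have h2 : resB g = Finsupp.mapDomain (fun χ j => χ (Fin.castAdd r j))
      (Finsupp.mapDomain (fun χ : Fin dB → ℤ => (Fin.append χ 0 : Fin (dB + r) → ℤ))
        (resL g)) := by
    rw [h1]
    rfl
  rw [h2, ← Finsupp.mapDomain_comp]
  have h3 : ((fun (χ : Fin (dB + r) → ℤ) (j : Fin dB) => χ (Fin.castAdd r j)) ∘
      fun χ : Fin dB → ℤ => (Fin.append χ 0 : Fin (dB + r) → ℤ)) = id := by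
    funext χ j
    simp only [Function.comp_apply, Fin.append_left, id_eq]
  rw [h3, Finsupp.mapDomain_id]

variable {n dB r : ℕ} {B Q V : Type} [Fintype B] [Fintype Q] [Fintype V] [DecidableEq V]
  {K : Type} [Field K] [Algebra ℂ K] {x : Fin (dB + r) → K} {f : B ⊕ Q → Lau (dB + r)}
  {F : Type} [Field F] [Algebra ℂ F]

theorem resB_eq' (T : Tot n dB r B Q x f) :
    (fun q : B => resB (f (Sum.inl q))) = fun q => resL (f (Sum.inl q)) :=
  funext fun q => resB_eq (T.base q)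

/-- (3) the rows of the fibre are independent over a generic point of the base -/
theorem fib_ndB (T : Tot n dB r B Q x f) {Δ : FanV V r} (hΔ : Δ.Adapted f) {nB : ℕ}
    (DB : Data (KBf x) nB dB B (xB x) fun q => resB (f (Sum.inl q))) (φ : KBf x →ₐ[ℂ] F)
    {x' : Fin (dB + r) → F} (hx' : ∀ j, x' j ≠ 0)
    (hB : ∀ i, φ (xB x i) = x' (Fin.castAdd r i))
    {Z : V → F} {τ : Finset V} (hτ : Δ.cone τ) (hZ : ∀ v, Z v = 0 ↔ v ∈ τ)
    (hF : ∀ q, (coxF f Δ.ray).F (cst (fun q => f (Sum.inr q)) x') q Z = 0) {l : Q → F}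
    (hl : ∀ w, w ∉ τ →
      ∑ q, l q * (coxF f Δ.ray).J (cst (fun q => f (Sum.inr q)) x') q w Z = 0) : l = 0 := by
  rw [resB_eq' T] at DB
  exact fib_nd T hΔ DB φ hx' hB hτ hZ hF hl

end Pool.Agent.Work.WRC
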