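import Mathlib
import Pool.Agent.Work.MP_4329d7_ag_wrc.CoxDeg

/-!
# Lattices of polynomials over `k⟦ε⟧` near a comb

`eps`: the constant polynomial `ε`; `up`, `red`: the maps between `k[X]` and `k⟦ε⟧[X]`;
`ex a g = g (a + ε X)`.
`Lat pt t s g`: `ε^(s+1) ∣ g` and `ε^(s + t j) ∣ ex (pt j) g` for all `j`.
-/

namespace Pool.Agent.Work.WRC

open Polynomial

section
variable {k : Type*} [Field k]

/-- the constant polynomial `ε` -/
noncomputable def eps (k : Type*) [Field k] : (PowerSeries k)[X] := C PowerSeries.X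

/-- constants in `ε` -/
noncomputable def up : k[X] →+* (PowerSeries k)[X] := mapRingHom (PowerSeries.C)

/-- the value at `ε = 0` -/
noncomputable def red : (PowerSeries k)[X] →+* k[X] := mapRingHom (PowerSeries.constantCoeff)

/-- the expansion at `a`: `g (a + ε X)` -/
noncomputable def ex (a : k) : (PowerSeries k)[X] →+* (PowerSeries k)[X] :=
  eval₂RingHom C (C (PowerSeries.C a) + eps k * X)

theorem red_up (p : k[X]) : red (up p) = p := by
  unfold red up
  rw [coe_mapRingHom, coe_mapRingHom, Polynomial.map_map]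
  have : (PowerSeries.constantCoeff (R := k)).comp (PowerSeries.C (R := k)) = RingHom.id k := by
    ext x; simp
  rw [this, Polynomial.map_id]

theorem red_eps : red (eps k) = 0 := by
  unfold red eps
  rw [coe_mapRingHom, map_C, PowerSeries.constantCoeff_X, C_0]

theorem eps_pow (s : ℕ) : eps k ^ s = C (PowerSeries.X ^ s) := by
  unfold eps; rw [C_pow]

theorem eps_ne_zero : eps k ≠ 0 := by
  unfold eps
  rw [Ne, C_eq_zero]
  exact PowerSeries.X_ne_zero

theorem eps_pow_dvd {s : ℕ} {g : (PowerSeries k)[X]} :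
    eps k ^ s ∣ g ↔ ∀ i, PowerSeries.X ^ s ∣ g.coeff i := by
  rw [eps_pow, C_dvd_iff_dvd_coeff]

theorem red_eq_zero {g : (PowerSeries k)[X]} : red g = 0 ↔ eps k ∣ g := by
  have h := eps_pow_dvd (k := k) (s := 1) (g := g)
  rw [pow_one] at h
  rw [h]
  constructor
  · intro h0 i
    rw [pow_one, PowerSeries.X_dvd_iff]
    have := congrArg (fun p => coeff p i) h0
    simpa [red] using this
  · intro h0
    ext i
    have := h0 i
    rw [pow_one, PowerSeries.X_dvd_iff] at this
    simpa [red] using this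

theorem ex_C (a : k) (c : PowerSeries k) : ex a (C c) = C c := by
  unfold ex; simp

theorem ex_eps (a : k) : ex a (eps k) = eps k := ex_C a _

theorem ex_X (a : k) : ex a X = C (PowerSeries.C a) + eps k * X := by
  unfold ex; simp

theorem ex_eq (a : k) (g : (PowerSeries k)[X]) :
    ex a g = (taylor (PowerSeries.C a) g).comp (C PowerSeries.X * X) := by
  have h : ex a g = g.comp (C (PowerSeries.C a) + eps k * X) := rfl
  rw [h, taylor_apply, comp_assoc, add_comp, X_comp, C_comp, add_comm]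
  rfl

theorem ex_coeff (a : k) (g : (PowerSeries k)[X]) (l : ℕ) :
    (ex a g).coeff l = (taylor (PowerSeries.C a) g).coeff l * PowerSeries.X ^ l := by
  rw [ex_eq, comp_C_mul_X_coeff]

theorem red_ex (a : k) (g : (PowerSeries k)[X]) : red (ex a g) = C ((red g).eval a) := by
  induction g using Polynomial.induction_on' with
  | add p q hp hq => rw [map_add, map_add, hp, hq, map_add, eval_add, C_add]
  | monomial n c =>
    rw [← C_mul_X_pow_eq_monomial]
    simp only [map_mul, map_pow, ex_C, ex_X, map_add, red_eps, zero_mul, add_zero]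
    unfold red
    simp

theorem coeff_red (g : (PowerSeries k)[X]) (i : ℕ) :
    (red g).coeff i = PowerSeries.constantCoeff (g.coeff i) := by
  simp [red]

theorem coeff_up (p : k[X]) (i : ℕ) : (up p).coeff i = PowerSeries.C (p.coeff i) := by
  simp [up]

theorem red_taylor (a : k) (g : (PowerSeries k)[X]) (l : ℕ) :
    PowerSeries.constantCoeff ((taylor (PowerSeries.C a) g).coeff l) =
      (taylor a (red g)).coeff l := by
  rw [← coeff_red]
  congr 1
  unfold red
  rw [coe_mapRingHom, taylor_apply, taylor_apply, Polynomial.map_comp]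
  simp

theorem taylor_eps_mul (a : k) (s : ℕ) (g : (PowerSeries k)[X]) (l : ℕ) :
    (taylor (PowerSeries.C a) (eps k ^ s * g)).coeff l =
      PowerSeries.X ^ s * (taylor (PowerSeries.C a) g).coeff l := by
  rw [eps_pow, taylor_mul, taylor_C, coeff_C_mul]

theorem DegLE.up {p : k[X]} {n : ℤ} (h : DegLE p n) : DegLE (up p) n := by
  intro i hi
  rw [coeff_up, h i hi, map_zero]

theorem DegLE.red {g : (PowerSeries k)[X]} {n : ℤ} (h : DegLE g n) : DegLE (red g) n := by
  intro i hi
  rw [coeff_red, h i hi, map_zero]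

theorem lc_up (p : k[X]) (n : ℤ) : lc (up p) n = PowerSeries.C (lc p n) := by
  unfold lc
  split_ifs
  · rw [coeff_up]
  · rw [map_zero]

theorem lc_red (g : (PowerSeries k)[X]) (n : ℤ) :
    lc (red g) n = PowerSeries.constantCoeff (lc g n) := by
  unfold lc
  split_ifs
  · rw [coeff_red]
  · rw [map_zero]

theorem DegLE.C_mul {A : Type*} [CommRing A] (c : A) {p : A[X]} {n : ℤ} (h : DegLE p n) :
    DegLE (Polynomial.C c * p) n := by
  intro i hi
  rw [coeff_C_mul, h i hi, mul_zero]

theorem lc_C_mul {A : Type*} [CommRing A] (c : A) (p : A[X]) (n : ℤ) :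
    lc (Polynomial.C c * p) n = c * lc p n := by
  unfold lc
  split_ifs
  · rw [coeff_C_mul]
  · rw [mul_zero]

theorem lc_add {A : Type*} [CommRing A] (p q : A[X]) (n : ℤ) : lc (p + q) n = lc p n + lc q n := by
  unfold lc
  split_ifs
  · rw [coeff_add]
  · rw [add_zero]

theorem lc_sub {A : Type*} [CommRing A] (p q : A[X]) (n : ℤ) : lc (p - q) n = lc p n - lc q n := by
  unfold lc
  split_ifs
  · rw [coeff_sub]
  · rw [sub_zero]

theorem lc_of_degLE {A : Type*} [CommRing A] {p : A[X]} {m n : ℤ} (h : DegLE p m) (hmn : m < n) :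
    lc p n = 0 := by
  unfold lc
  split_ifs with h0
  · exact h _ (by omega)
  · rfl

theorem DegLE.eps_mul {g : (PowerSeries k)[X]} {n : ℤ} (s : ℕ) (h : DegLE g n) :
    DegLE (eps k ^ s * g) n := by
  rw [eps_pow]; exact h.C_mul _

theorem degLE_of_eps_mul {g : (PowerSeries k)[X]} {n : ℤ} (s : ℕ) (h : DegLE (eps k ^ s * g) n) :
    DegLE g n := by
  intro i hi
  have h1 := h i hi
  rw [eps_pow, coeff_C_mul] at h1
  exact (mul_eq_zero.1 h1).resolve_left (pow_ne_zero _ PowerSeries.X_ne_zero)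

end

section
variable {k : Type*} [Field k] {ι : Type*}

/-- The lattice at level `s`. -/
def Lat (pt : ι → k) (t : ι → ℕ) (s : ℕ) (g : (PowerSeries k)[X]) : Prop :=
  eps k ^ (s + 1) ∣ g ∧ ∀ j, eps k ^ (s + t j) ∣ ex (pt j) g

variable {pt : ι → k} {t : ι → ℕ} {s : ℕ} {g g' : (PowerSeries k)[X]}

theorem Lat.zero (s : ℕ) : Lat pt t s 0 := ⟨dvd_zero _, fun _ => by rw [map_zero]; exact dvd_zero _⟩

theorem Lat.add (h : Lat pt t s g) (h' : Lat pt t s g') : Lat pt t s (g + g') :=
  ⟨dvd_add h.1 h'.1, fun j => by rw [map_add]; exact dvd_add (h.2 j) (h'.2 j)⟩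

theorem Lat.neg (h : Lat pt t s g) : Lat pt t s (-g) :=
  ⟨(dvd_neg).2 h.1, fun j => by rw [map_neg]; exact (dvd_neg).2 (h.2 j)⟩

theorem Lat.sub (h : Lat pt t s g) (h' : Lat pt t s g') : Lat pt t s (g - g') := by
  rw [sub_eq_add_neg]; exact h.add h'.neg

theorem Lat.mono (h : Lat pt t s g) {s' : ℕ} (hs : s' ≤ s) : Lat pt t s' g :=
  ⟨(pow_dvd_pow _ (by omega)).trans h.1, fun j => (pow_dvd_pow _ (by omega)).trans (h.2 j)⟩

theorem Lat.eps_mul (r : ℕ) (h : Lat pt t s g) : Lat pt t (r + s) (eps k ^ r * g) := by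
  refine ⟨?_, fun j => ?_⟩
  · rw [add_assoc, pow_add]
    exact mul_dvd_mul_left _ h.1
  · rw [map_mul, map_pow, ex_eps, add_assoc, pow_add]
    exact mul_dvd_mul_left _ (h.2 j)

theorem Lat.div (h : Lat pt t s g) : ∃ g', g = eps k ^ s * g' ∧ Lat pt t 0 g' := by
  obtain ⟨y, hy⟩ := h.1
  refine ⟨eps k * y, ?_, ?_, fun j => ?_⟩
  · rw [hy, pow_succ]; ring
  · rw [zero_add, pow_one]; exact dvd_mul_right _ _
  · have h1 := h.2 j
    have h2 : g = eps k ^ s * (eps k * y) := by rw [hy, pow_succ]; ring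
    rw [h2, map_mul, map_pow, ex_eps, pow_add] at h1
    rw [zero_add]
    exact (mul_dvd_mul_iff_left (pow_ne_zero _ eps_ne_zero)).1 h1

/-- The relation between the two reductions of an element of the lattice. -/
theorem Lat.rel {z' w' : (PowerSeries k)[X]} {a : k} {n : ℕ} (hz : g = eps k * z')
    (hw : ex a g = eps k ^ n * w') :
    (∀ l, n ≤ l → (red w').coeff l = 0) ∧
    (∀ l, l + 1 = n → (red w').coeff l = (taylor a (red z')).coeff l) ∧
    (∀ l, l + 2 ≤ n → (taylor a (red z')).coeff l = 0) := by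
  have key : ∀ l, PowerSeries.X ^ n * w'.coeff l =
      PowerSeries.X ^ (l + 1) * (taylor (PowerSeries.C a) z').coeff l := by
    intro l
    have h1 := ex_coeff a g l
    have h2 := taylor_eps_mul a 1 z' l
    rw [pow_one] at h2
    rw [hw, eps_pow, coeff_C_mul, hz, h2] at h1
    rw [h1]; ring
  have hX : ∀ n : ℕ, (PowerSeries.X ^ n : PowerSeries k) ≠ 0 := fun n =>
    pow_ne_zero _ PowerSeries.X_ne_zero
  refine ⟨fun l hl => ?_, fun l hl => ?_, fun l hl => ?_⟩
  · have h1 := key l
    have h2 : l + 1 = n + (l - n) + 1 := by omega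
    rw [h2, add_assoc, pow_add, mul_assoc] at h1
    have h3 := mul_left_cancel₀ (hX n) h1
    rw [coeff_red, h3, pow_succ, map_mul, map_mul, PowerSeries.constantCoeff_X]
    ring
  · have h1 := key l
    rw [hl] at h1
    rw [coeff_red, mul_left_cancel₀ (hX n) h1, red_taylor]
  · have h1 := key l
    have h2 : n = l + 1 + (n - l - 2) + 1 := by omega
    rw [h2, add_assoc, pow_add, mul_assoc] at h1
    have h3 := mul_left_cancel₀ (hX (l + 1)) h1
    rw [← red_taylor, ← h3, pow_succ, map_mul, map_mul, PowerSeries.constantCoeff_X]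
    ring

/-- Criterion for the first level. -/
theorem lat_one {z' : (PowerSeries k)[X]} {w' : ι → (PowerSeries k)[X]} (hz : g = eps k * z')
    (hw : ∀ j, ex (pt j) g = eps k ^ t j * w' j) (h0 : red z' = 0)
    (h1 : ∀ j l, l + 2 ≤ t j → (red (w' j)).coeff l = 0) : Lat pt t 1 g := by
  obtain ⟨y, hy⟩ := red_eq_zero.1 h0
  have hg : g = eps k ^ 2 * y := by rw [hz, hy, pow_two]; ring
  refine ⟨⟨y, hg⟩, fun j => eps_pow_dvd.2 fun l => ?_⟩
  by_cases hl : l + 2 ≤ t j
  · rw [hw j, eps_pow, coeff_C_mul, add_comm, pow_succ]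
    refine mul_dvd_mul_left _ ?_
    rw [PowerSeries.X_dvd_iff, ← coeff_red]
    exact h1 j l hl
  · rw [ex_coeff, hg, taylor_eps_mul]
    have h2 : (PowerSeries.X ^ 2 : PowerSeries k) * (taylor (PowerSeries.C (pt j)) y).coeff l *
        PowerSeries.X ^ l = PowerSeries.X ^ (1 + t j) * (PowerSeries.X ^ (l + 2 - (1 + t j)) *
          (taylor (PowerSeries.C (pt j)) y).coeff l) := by
      rw [← mul_assoc, ← pow_add]
      have h3 : 1 + t j + (l + 2 - (1 + t j)) = l + 2 := by omega
      rw [h3]; ring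
    rw [h2]
    exact dvd_mul_right _ _

end

end Pool.Agent.Work.WRC
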