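import Mathlib
import Pool.Agent.Work.MP_4329d7_ag_w.IrrSame
import Pool.Agent.Work.MP_4329d7_ag_wrc.Defs
import Pool.Agent.Work.MP_4329d7_ag_wrc.KLat

/-!
W-RC, specialisation of generic points: a point of the complete intersection which specialises to a
generic point is a generic point.

* `spz`: over a ring `R` with `π : R → k0` and `ι : R → k1` injective;
* `spz_plc`: for a place (graph of the specialisation);
* `spz_poly`: products of polynomials over a ring `A` with `π : A → k` and `A → L` injective;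
* `spz_ps`: the same for power series, after the expansion at a position `a`;
* `spz_inf`: the point at infinity is generic;
* `ev_prod`: the value of `f q` at `x * ∏ Y_v ^ b_v` and the Cox system.
-/

namespace Pool.Agent.Work.WRC

open Polynomial Pool.Agent.Work.CI Pool.Agent.Work.CW Pool.Agent.Work.MP_4329d7_ag_sq

namespace Spz

/-- amalgamation of fields -/
theorem exists_amalg {k0 k1 k2 : Type} [Field k0] [Field k1] [Field k2] (g1 : k0 →+* k1)
    (g2 : k0 →+* k2) : ∃ (κ : Type) (_ : Field κ) (_ : IsAlgClosed κ) (h1 : k1 →+* κ)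
      (h2 : k2 →+* κ), h1.comp g1 = h2.comp g2 := by
  let _ := g1.toAlgebra
  let _ := g2.toAlgebra
  obtain ⟨m, hm⟩ := Ideal.exists_maximal (TensorProduct k0 k1 k2)
  let _ : Field (TensorProduct k0 k1 k2 ⧸ m) := Ideal.Quotient.field m
  refine ⟨AlgebraicClosure (TensorProduct k0 k1 k2 ⧸ m), inferInstance, inferInstance,
    (algebraMap (TensorProduct k0 k1 k2 ⧸ m) _).comp ((Ideal.Quotient.mk m).comp
      (Algebra.TensorProduct.includeLeftRingHom : k1 →+* TensorProduct k0 k1 k2)),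
    (algebraMap (TensorProduct k0 k1 k2 ⧸ m) _).comp ((Ideal.Quotient.mk m).comp
      (Algebra.TensorProduct.includeRight : k2 →ₐ[k0] TensorProduct k0 k1 k2).toRingHom), ?_⟩
  ext c
  have h1 : (Algebra.TensorProduct.includeLeftRingHom : k1 →+* TensorProduct k0 k1 k2) (g1 c) =
      (Algebra.TensorProduct.includeRight : k2 →ₐ[k0] TensorProduct k0 k1 k2) (g2 c) := by
    change (g1 c) ⊗ₜ[k0] (1 : k2) = (1 : k1) ⊗ₜ[k0] (g2 c)
    have h2 := TensorProduct.smul_tmul (R := k0) (R' := k0) c (1 : k1) (1 : k2)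
    rw [Algebra.smul_def, Algebra.smul_def, mul_one, mul_one] at h2
    exact h2
  exact congrArg (fun z => algebraMap (TensorProduct k0 k1 k2 ⧸ m)
    (AlgebraicClosure (TensorProduct k0 k1 k2 ⧸ m)) (Ideal.Quotient.mk m z)) h1

/-- compose a place with a homomorphism of fields -/
def plcComp {F κ κ' : Type} [Field F] [Field κ] [Field κ'] (P : Plc F κ) (h : κ →+* κ') :
    Plc F κ' where
  S x y := ∃ z, P.S x z ∧ h z = y
  one := ⟨1, P.one, map_one h⟩
  add := by
    rintro x x' y y' ⟨z, hz, rfl⟩ ⟨z', hz', rfl⟩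
    exact ⟨z + z', P.add hz hz', map_add h _ _⟩
  mul := by
    rintro x x' y y' ⟨z, hz, rfl⟩ ⟨z', hz', rfl⟩
    exact ⟨z * z', P.mul hz hz', map_mul h _ _⟩
  neg := by
    rintro x y ⟨z, hz, rfl⟩
    exact ⟨-z, P.neg hz, map_neg h _⟩
  uniq := by
    rintro x y y' ⟨z, hz, rfl⟩ ⟨z', hz', rfl⟩
    rw [P.uniq hz hz']
  tot := by
    intro x
    rcases P.tot x with ⟨y, hy⟩ | hy
    · exact Or.inl ⟨h y, y, hy, rfl⟩
    · exact Or.inr ⟨0, hy, map_zero h⟩

/-- a homomorphism to a field gives a place -/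
theorem exists_plc' {R k F : Type} [CommRing R] [Field k] [Field F] (ι : R →+* F)
    (hι : Function.Injective ι) (π : R →+* k) :
    ∃ (κ : Type) (_ : Field κ) (_ : IsAlgClosed κ) (g : k →+* κ) (P : Plc F κ),
      ∀ r, P.S (ι r) (g (π r)) := by
  classical
  have hdom : IsDomain R := hι.isDomain ι
  let p : Ideal R := RingHom.ker π
  have hp : p.IsPrime := RingHom.ker_isPrime π
  let Rp := Localization.AtPrime p
  -- extend `ι`
  have hu : ∀ y : p.primeCompl, IsUnit (ι y) := by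
    intro y
    rw [isUnit_iff_ne_zero]
    intro h
    have h1 : (y : R) = 0 := hι (by rw [h, map_zero])
    exact y.2 (by rw [h1]; exact p.zero_mem)
  have hv : ∀ y : p.primeCompl, IsUnit (π y) := fun y => by
    rw [isUnit_iff_ne_zero]
    exact fun h => y.2 h
  let ι' : Rp →+* F := IsLocalization.lift (M := p.primeCompl) hu
  let π' : Rp →+* k := IsLocalization.lift (M := p.primeCompl) hv
  have hι'e : ∀ r, ι' (algebraMap R Rp r) = ι r := fun r => IsLocalization.lift_eq hu r
  have hπ'e : ∀ r, π' (algebraMap R Rp r) = π r := fun r => IsLocalization.lift_eq hv r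
  have hι' : Function.Injective ι' := by
    rw [injective_iff_map_eq_zero]
    intro z hz
    obtain ⟨⟨r, s⟩, hrs⟩ := IsLocalization.surj p.primeCompl z
    have h1 := congrArg ι' hrs
    rw [map_mul, hz, zero_mul, hι'e] at h1
    have h2 : r = 0 := hι (by rw [← h1, map_zero])
    simp only [h2, map_zero] at hrs
    have h3 : IsUnit (algebraMap R Rp s) := IsLocalization.map_units Rp s
    exact (h3.mul_left_eq_zero).1 hrs
  let κ0 := IsLocalRing.ResidueField Rp
  have hloc : IsLocalHom π' := by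
    constructor
    intro z hz
    obtain ⟨⟨r, s⟩, hrs⟩ := IsLocalization.surj p.primeCompl z
    have h1 := congrArg π' hrs
    rw [map_mul, hπ'e, hπ'e] at h1
    have h2 : r ∉ p := by
      intro h
      have h4 : π r = 0 := h
      rw [h4] at h1
      exact (mul_ne_zero hz.ne_zero (hv s).ne_zero) h1
    have h3 : IsUnit (algebraMap R Rp r) :=
      IsLocalization.map_units Rp (⟨r, h2⟩ : p.primeCompl)
    rw [← hrs] at h3
    exact isUnit_of_mul_isUnit_left h3
  let γ : κ0 →+* k := IsLocalRing.ResidueField.lift π'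
  obtain ⟨κ, _, _, g, P, hP⟩ := exists_plc ι' hι' (IsLocalRing.residue Rp)
    IsLocalRing.residue_surjective
  obtain ⟨κ', _, _, h1, h2, h12⟩ := exists_amalg g γ
  refine ⟨κ', inferInstance, inferInstance, h2, plcComp P h1, fun r => ?_⟩
  refine ⟨g (IsLocalRing.residue Rp (algebraMap R Rp r)), ?_, ?_⟩
  · have := hP (algebraMap R Rp r)
    rwa [hι'e] at this
  · have h3 := congrArg (fun φ => φ (IsLocalRing.residue Rp (algebraMap R Rp r))) h12
    simp only [RingHom.comp_apply] at h3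
    rw [h3]
    congr 1
    change γ (IsLocalRing.residue Rp (algebraMap R Rp r)) = _
    rw [show γ (IsLocalRing.residue Rp (algebraMap R Rp r)) = π' (algebraMap R Rp r) from
      IsLocalRing.ResidueField.lift_residue_apply π' _, hπ'e]

/-- a ring homomorphism in the base of a relation as an algebra homomorphism -/
theorem toAlgHom_exists {K κ : Type} [Field K] [Algebra ℂ K] [Field κ] (h : K →+* κ) :
    ∃ _ : Algebra ℂ κ, ∃ ω : K →ₐ[ℂ] κ, (∀ z, ω z = h z) ∧
      ∀ c : ℂ, algebraMap ℂ κ c = h (algebraMap ℂ K c) := by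
  let _ : Algebra ℂ κ := (h.comp (algebraMap ℂ K)).toAlgebra
  exact ⟨inferInstance, { h with commutes' := fun c => rfl }, fun z => rfl, fun c => rfl⟩

end Spz

section main

variable {K : Type} [Field K] [Algebra ℂ K] {n d : ℕ} {Q : Type} [Fintype Q]
  {x : Fin d → K} {f : Q → Lau d}

/-- SPECIALISATION, for a place -/
theorem spz_plc (D : Data K n d Q x f) {k0 k1 : Type} [Field k0] [Field k1] [Algebra ℂ k0]
    [Algebra ℂ k1] (P : Plc k1 k0)
    (hC : ∀ c : ℂ, P.S (algebraMap ℂ k1 c) (algebraMap ℂ k0 c)) (p : Fin d → k1)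
    (hp : ∀ q, ev (f q) p = 0) (φ0 : K →ₐ[ℂ] k0) (h : ∀ j, P.S (p j) (φ0 (x j))) :
    ∃ φ1 : K →ₐ[ℂ] k1, ∀ j, φ1 (x j) = p j :=
  same_hom D φ0 P hC p hp h

/-- SPECIALISATION: a point of the complete intersection which specialises to a generic point is
a generic point -/
theorem spz (D : Data K n d Q x f) {R k0 k1 : Type} [CommRing R] [Field k0] [Field k1]
    [Algebra ℂ k0] [Algebra ℂ k1] (π : R →+* k0) (ι : R →+* k1) (hι : Function.Injective ι)
    (hC : ∀ c : ℂ, ∃ r : R, π r = algebraMap ℂ k0 c ∧ ι r = algebraMap ℂ k1 c) (p : Fin d → k1)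
    (hp : ∀ q, ev (f q) p = 0) (φ0 : K →ₐ[ℂ] k0)
    (h : ∀ j, ∃ a b : R, π b ≠ 0 ∧ p j * ι b = ι a ∧ φ0 (x j) * π b = π a) :
    ∃ φ1 : K →ₐ[ℂ] k1, ∀ j, φ1 (x j) = p j := by
  obtain ⟨κ, _, _, g, P, hP⟩ := Spz.exists_plc' ι hι π
  obtain ⟨_, ω, hω, hc⟩ := Spz.toAlgHom_exists (K := k0) g
  have hPC : ∀ c : ℂ, P.S (algebraMap ℂ k1 c) (algebraMap ℂ κ c) := by
    intro c
    obtain ⟨r, h1, h2⟩ := hC c
    rw [← h2, hc, ← h1]
    exact hP r
  refine spz_plc D P hPC p hp (ω.comp φ0) fun j => ?_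
  obtain ⟨a, b, hb, h1, h2⟩ := h j
  have hgb : g (π b) ≠ 0 := by rwa [Ne, map_eq_zero]
  have hιb : ι b ≠ 0 := P.ne_zero (hP b) hgb
  have h3 : p j = ι a / ι b := by rw [← h1, mul_div_cancel_right₀ _ hιb]
  have h4 : (ω.comp φ0) (x j) = g (π a) / g (π b) := by
    rw [AlgHom.comp_apply, hω, ← h2, map_mul, mul_div_cancel_right₀ _ hgb]
  rw [h3, h4]
  exact P.div (hP a) (hP b) hgb

end main

section prods

namespace Spz

variable {d : ℕ}

theorem mon_mul_prod {F V : Type} [Field F] [Fintype V] (y : Fin d → F) (v : V → F)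
    (hv : ∀ i, v i ≠ 0) (b : V → Fin d → ℤ) (χ : Fin d → ℤ) :
    mon (fun j => y j * ∏ i, v i ^ b i j) χ = mon y χ * ∏ i, v i ^ pair χ (b i) := by
  classical
  unfold mon pair
  simp only [mul_zpow, Finset.prod_mul_distrib]
  congr 1
  simp only [← Finset.prod_zpow, ← zpow_mul]
  rw [Finset.prod_comm]
  refine Finset.prod_congr rfl fun i _ => ?_
  have h1 : ∀ s : Finset (Fin d), v i ^ ∑ j ∈ s, χ j * b i j =
      ∏ j ∈ s, v i ^ (χ j * b i j) := by
    intro s
    induction s using Finset.induction_on with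
    | empty => simp
    | insert a s ha ih => rw [Finset.sum_insert ha, Finset.prod_insert ha, zpow_add₀ (hv i), ih]
  rw [h1]
  exact Finset.prod_congr rfl fun j _ => by rw [mul_comm]

/-- products of powers as quotients -/
theorem prod_zpow_eq {F V : Type} [Field F] [Fintype V] (v : V → F) (hv : ∀ i, v i ≠ 0)
    (c : V → ℤ) : (∏ i, v i ^ c i) * ∏ i, v i ^ (-c i).toNat = ∏ i, v i ^ (c i).toNat := by
  rw [← Finset.prod_mul_distrib]
  refine Finset.prod_congr rfl fun i _ => ?_
  rw [← zpow_natCast, ← zpow_natCast, ← zpow_add₀ (hv i)]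
  congr 1
  omega

theorem alg_ne {k : Type} [Field k] {p : k[X]} (hp : p ≠ 0) :
    algebraMap k[X] (RatFunc k) p ≠ 0 :=
  (map_ne_zero_iff _ (IsFractionRing.injective k[X] (RatFunc k))).2 hp

/-- substitution of a polynomial -/
theorem exists_compA {L : Type} [Field L] [Algebra ℂ L] (q : L[X]) (hq : q.natDegree ≠ 0) :
    ∃ σ : RatFunc L →ₐ[ℂ] RatFunc L, ∀ p, σ (algebraMap L[X] (RatFunc L) p) =
      algebraMap L[X] (RatFunc L) (p.comp q) := by
  have hinj : Function.Injective
      ((algebraMap L[X] (RatFunc L)).comp (compRingHom q)) := by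
    rw [injective_iff_map_eq_zero]
    intro p hp
    rw [RingHom.comp_apply] at hp
    have h1 : (compRingHom q) p = 0 := IsFractionRing.injective L[X] (RatFunc L)
      (by rw [hp, map_zero])
    rw [coe_compRingHom_apply, comp_eq_zero_iff] at h1
    rcases h1 with h1 | ⟨_, h1⟩
    · exact h1
    · exact absurd (by rw [h1, natDegree_C]) hq
  let σ : RatFunc L →+* RatFunc L := IsFractionRing.lift hinj
  have hσ : ∀ p, σ (algebraMap L[X] (RatFunc L) p) = algebraMap L[X] (RatFunc L) (p.comp q) :=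
    fun p => IsFractionRing.lift_algebraMap hinj p
  refine ⟨{ σ with commutes' := fun c => ?_ }, hσ⟩
  change σ (algebraMap ℂ (RatFunc L) c) = _
  rw [algebraMap_ratFunc, ← RatFunc.algebraMap_C, hσ, C_comp]

end Spz

open Spz

variable {K : Type} [Field K] [Algebra ℂ K] {n d : ℕ} {Q : Type} [Fintype Q]
  {x : Fin d → K} {f : Q → Lau d}

/-- SPECIALISATION of products of polynomials -/
theorem spz_poly (D : Data K n d Q x f) {A k L : Type} [CommRing A] [Field k] [Field L]
    [Algebra ℂ k] [Algebra ℂ L] (π : A →+* k) (i : A →+* L) (hi : Function.Injective i)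
    (hC : ∀ c : ℂ, ∃ r : A, π r = algebraMap ℂ k c ∧ i r = algebraMap ℂ L c)
    {W : Type} [Fintype W] (c : W → Fin d → ℤ) (Y : W → A[X]) (hY : ∀ w, (Y w).map π ≠ 0)
    (hp : ∀ q, ev (f q) (fun j => ∏ w, algebraMap L[X] (RatFunc L) ((Y w).map i) ^ c w j) = 0)
    (φ0 : K →ₐ[ℂ] RatFunc k)
    (h0 : ∀ j, φ0 (x j) = ∏ w, algebraMap k[X] (RatFunc k) ((Y w).map π) ^ c w j) :
    ∃ φ1 : K →ₐ[ℂ] RatFunc L, ∀ j, φ1 (x j) =
      ∏ w, algebraMap L[X] (RatFunc L) ((Y w).map i) ^ c w j := by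
  have hYi : ∀ w, (Y w).map i ≠ 0 := by
    intro w h
    rw [Polynomial.map_eq_zero_iff hi] at h
    exact hY w (by rw [h, Polynomial.map_zero])
  refine spz D (R := A[X]) ((algebraMap k[X] (RatFunc k)).comp (mapRingHom π))
    ((algebraMap L[X] (RatFunc L)).comp (mapRingHom i)) ?_ ?_ _ hp φ0 fun j => ?_
  · intro a b h
    exact Polynomial.map_injective i hi (IsFractionRing.injective L[X] (RatFunc L) h)
  · intro z
    obtain ⟨r, h1, h2⟩ := hC z
    refine ⟨C r, ?_, ?_⟩
    · rw [RingHom.comp_apply, coe_mapRingHom, map_C, h1, RatFunc.algebraMap_C,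
        algebraMap_ratFunc]
    · rw [RingHom.comp_apply, coe_mapRingHom, map_C, h2, RatFunc.algebraMap_C,
        algebraMap_ratFunc]
  · refine ⟨∏ w, Y w ^ (c w j).toNat, ∏ w, Y w ^ (-c w j).toNat, ?_, ?_, ?_⟩
    · rw [map_prod]
      refine Finset.prod_ne_zero_iff.2 fun w _ => ?_
      rw [map_pow]
      exact pow_ne_zero _ (alg_ne (hY w))
    · simp only [map_prod, map_pow]
      exact prod_zpow_eq (fun w => algebraMap L[X] (RatFunc L) ((Y w).map i))
        (fun w => alg_ne (hYi w)) (fun w => c w j)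
    · rw [h0]
      simp only [map_prod, map_pow]
      exact prod_zpow_eq (fun w => algebraMap k[X] (RatFunc k) ((Y w).map π))
        (fun w => alg_ne (hY w)) (fun w => c w j)

/-- SPECIALISATION of products of polynomials over the power series, at the position `a` -/
theorem spz_ps (D : Data K n d Q x f) {k L : Type} [Field k] [Field L] [Algebra ℂ k]
    [Algebra ℂ L] (g : PowerSeries k →+* L) (hg : Function.Injective g)
    (hC : ∀ c : ℂ, g (PowerSeries.C (algebraMap ℂ k c)) = algebraMap ℂ L c)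
    {W : Type} [Fintype W] (c : W → Fin d → ℤ) (Y Z : W → (PowerSeries k)[X]) (a : k)
    (m : W → ℕ) (hY : ∀ w, ex a (Y w) = eps k ^ m w * Z w) (hZ : ∀ w, red (Z w) ≠ 0)
    (hm : ∀ j, ∑ w, c w j * m w = 0)
    (hp : ∀ q, ev (f q) (fun j => ∏ w, algebraMap L[X] (RatFunc L) ((Y w).map g) ^ c w j) = 0)
    (φ0 : K →ₐ[ℂ] RatFunc k)
    (h0 : ∀ j, φ0 (x j) = ∏ w, algebraMap k[X] (RatFunc k) (red (Z w)) ^ c w j) :
    ∃ φ1 : K →ₐ[ℂ] RatFunc L, ∀ j, φ1 (x j) =
      ∏ w, algebraMap L[X] (RatFunc L) ((Y w).map g) ^ c w j := by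
  classical
  set e : L := g PowerSeries.X with he
  have he0 : e ≠ 0 := by
    intro h
    exact PowerSeries.X_ne_zero (hg (by rw [map_zero]; exact h))
  set α : L := g (PowerSeries.C a) with hα
  have hsub : ∀ P : (PowerSeries k)[X], (ex a P).map g = (P.map g).comp (C e * X + C α) := by
    intro P
    have h1 : ex a P = P.comp (C (PowerSeries.C a) + eps k * X) := rfl
    rw [h1, Polynomial.map_comp]
    congr 1
    rw [Polynomial.map_add, Polynomial.map_mul, map_C, map_X, add_comm]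
    unfold eps
    rw [map_C]
  have hYZ : ∀ w, ((Y w).map g).comp (C e * X + C α) = C (e ^ m w) * (Z w).map g := by
    intro w
    rw [← hsub, hY, Polynomial.map_mul, Polynomial.map_pow]
    unfold eps
    rw [map_C, C_pow]
  obtain ⟨σ, hσ⟩ := exists_compA (L := L) (C e * X + C α)
    (by rw [natDegree_linear he0]; exact one_ne_zero)
  obtain ⟨τ, hτ⟩ := exists_compA (L := L) (C e⁻¹ * X + C (-(e⁻¹ * α)))
    (by rw [natDegree_linear (inv_ne_zero he0)]; exact one_ne_zero)
  have hZ0 : ∀ w, (Z w).map g ≠ 0 := by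
    intro w h
    rw [Polynomial.map_eq_zero_iff hg] at h
    exact hZ w (by rw [h, map_zero])
  have hY0 : ∀ w, (Y w).map g ≠ 0 := by
    intro w h
    have h1 := hYZ w
    rw [h, zero_comp] at h1
    exact (mul_ne_zero (C_ne_zero.2 (pow_ne_zero _ he0)) (hZ0 w)) h1.symm
  have hτσ : ∀ P : L[X], τ (algebraMap L[X] (RatFunc L) (P.comp (C e * X + C α))) =
      algebraMap L[X] (RatFunc L) P := by
    intro P
    rw [hτ, comp_assoc]
    congr 1
    have h1 : (C e * X + C α : L[X]).comp (C e⁻¹ * X + C (-(e⁻¹ * α))) = X := by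
      rw [add_comp, mul_comp, C_comp, C_comp, X_comp, mul_add, ← mul_assoc, ← C_mul, ← C_mul,
        mul_inv_cancel₀ he0, C_1, one_mul, add_assoc, ← C_add]
      have h2 : e * -(e⁻¹ * α) + α = 0 := by
        field_simp
        ring
      rw [h2, C_0, add_zero]
    rw [h1, comp_X]
  -- the point after the substitution
  have key : ∀ j, σ (∏ w, algebraMap L[X] (RatFunc L) ((Y w).map g) ^ c w j) =
      ∏ w, algebraMap L[X] (RatFunc L) ((Z w).map g) ^ c w j := by
    intro j
    rw [map_prod]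
    have h1 : ∀ w, σ (algebraMap L[X] (RatFunc L) ((Y w).map g) ^ c w j) =
        RatFunc.C e ^ (c w j * m w) * algebraMap L[X] (RatFunc L) ((Z w).map g) ^ c w j := by
      intro w
      rw [map_zpow₀, hσ, hYZ, map_mul, mul_zpow, RatFunc.algebraMap_C, map_pow, ← zpow_natCast,
        ← zpow_mul, mul_comm (m w : ℤ)]
    rw [Finset.prod_congr rfl fun w _ => h1 w, Finset.prod_mul_distrib]
    have hCe : (RatFunc.C e : RatFunc L) ≠ 0 := by
      rwa [Ne, map_eq_zero]
    have h2 : ∏ w, (RatFunc.C e : RatFunc L) ^ (c w j * m w) = 1 := by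
      have h3 : ∀ s : Finset W, ∏ w ∈ s, (RatFunc.C e : RatFunc L) ^ (c w j * m w) =
          RatFunc.C e ^ ∑ w ∈ s, c w j * m w := by
        intro s
        induction s using Finset.induction_on with
        | empty => simp
        | insert a s ha ih => rw [Finset.prod_insert ha, Finset.sum_insert ha, ih, zpow_add₀ hCe]
      rw [h3, hm j, zpow_zero]
    rw [h2, one_mul]
  have hev : ∀ (P : Lau d) (y : Fin d → RatFunc L), ev P (fun j => σ (y j)) = σ (ev P y) := by
    intro P y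
    unfold ev mon
    rw [map_sum]
    refine Finset.sum_congr rfl fun χ _ => ?_
    rw [map_mul, map_prod, AlgHom.commutes]
    simp only [map_zpow₀]
  obtain ⟨φ, hφ⟩ := spz_poly D (PowerSeries.constantCoeff (R := k)) g hg (fun z =>
    ⟨PowerSeries.C (algebraMap ℂ k z), by simp, hC z⟩) c Z hZ (fun q => by
      have h1 := congrArg σ (hp q)
      rw [map_zero, ← hev] at h1
      rw [← h1]
      congr 1
      funext j
      exact (key j).symm) φ0 h0
  refine ⟨τ.comp φ, fun j => ?_⟩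
  rw [AlgHom.comp_apply, hφ, ← key, map_prod, map_prod]
  refine Finset.prod_congr rfl fun w _ => ?_
  rw [map_zpow₀, map_zpow₀, hσ, hτσ]

end prods

section cox

variable {d : ℕ} {Q V J : Type} [Fintype V] [Fintype J]

/-- the value of `f q` at `x * ∏ Y_v ^ b_v` -/
theorem ev_prod {F : Type} [Field F] [Algebra ℂ F] (f : Q → Lau d) (b : V → Fin d → ℤ)
    (x : Fin d → F) (Y : V → F) (hY : ∀ v, Y v ≠ 0) (q : Q) :
    ev (f q) (fun i => x i * ∏ v, Y v ^ b v i) =
      (∏ v, Y v ^ mn (f q) (b v)) * (coxR f b).F (cst f x) q Y := by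
  rw [Cox.F_eq, Finset.mul_sum]
  unfold ev
  refine Finset.sum_congr rfl fun χ hχ => ?_
  rw [Spz.mon_mul_prod x Y hY b χ]
  have h1 : ∀ v, Y v ^ pair χ (b v) = Y v ^ mn (f q) (b v) * Y v ^ (coxR f b).e q χ v := by
    intro v
    rw [← zpow_natCast, ← zpow_add₀ (hY v)]
    congr 1
    have h2 := (coxR f b).he q χ hχ v
    rw [h2]
    change _ = _ + (pair χ (b v) + -mn (f q) (b v))
    ring
  rw [Finset.prod_congr rfl fun v _ => h1 v, Finset.prod_mul_distrib]
  unfold cst
  ring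

/-- the value of `f q` on a curve in Cox coordinates over a curve with given roots -/
theorem ev_cg {k : Type} [Field k] [Algebra ℂ k] (f : Q → Lau d) (b : V → Fin d → ℤ)
    (b' : J → Fin d → ℤ) (t : J → k) (x : Fin d → k) (Y : V → k[X]) (hY : ∀ v, Y v ≠ 0) (q : Q) :
    ev (f q) (fun i => RatFunc.C (x i) *
      (∏ j, algebraMap k[X] (RatFunc k) (X - C (t j)) ^ b' j i) *
        ∏ v, algebraMap k[X] (RatFunc k) (Y v) ^ b v i) =
      (∏ j, algebraMap k[X] (RatFunc k) (X - C (t j)) ^ mn (f q) (b' j)) *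
        (∏ v, algebraMap k[X] (RatFunc k) (Y v) ^ mn (f q) (b v)) *
        algebraMap k[X] (RatFunc k) ((coxR f b).F (cg f x b' t) q Y) := by
  have hX : ∀ j, algebraMap k[X] (RatFunc k) (X - C (t j)) ≠ 0 := fun j =>
    Spz.alg_ne (X_sub_C_ne_zero _)
  rw [ev_prod f b _ (fun v => algebraMap k[X] (RatFunc k) (Y v)) (fun v => Spz.alg_ne (hY v)) q,
    Cox.F_map, Cox.F_eq, Cox.F_eq]
  rw [mul_comm (∏ j, algebraMap k[X] (RatFunc k) (X - C (t j)) ^ mn (f q) (b' j)), mul_assoc]
  congr 1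
  rw [Finset.mul_sum]
  refine Finset.sum_congr rfl fun χ hχ => ?_
  rw [← mul_assoc]
  congr 1
  unfold cst cg
  rw [Spz.mon_mul_prod (fun i => RatFunc.C (x i)) _ hX b' χ, map_mul, map_prod, cst, map_mul]
  have h1 : ∀ j, algebraMap k[X] (RatFunc k) (X - C (t j)) ^ pair χ (b' j) =
      algebraMap k[X] (RatFunc k) (X - C (t j)) ^ mn (f q) (b' j) *
        algebraMap k[X] (RatFunc k) ((X - C (t j)) ^ (coxR f b').e q χ j) := by
    intro j
    rw [map_pow, ← zpow_natCast, ← zpow_add₀ (hX j)]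
    congr 1
    have h2 := (coxR f b').he q χ hχ j
    rw [h2]
    change _ = _ + (pair χ (b' j) + -mn (f q) (b' j))
    ring
  rw [Finset.prod_congr rfl fun j _ => h1 j, Finset.prod_mul_distrib]
  have h3 : mon (fun i => (RatFunc.C (x i) : RatFunc k)) χ =
      algebraMap k[X] (RatFunc k) (C (mon x χ)) := by
    rw [RatFunc.algebraMap_C]
    unfold mon
    rw [map_prod]
    simp only [map_zpow₀]
  rw [h3, map_mul (algebraMap k[X] (RatFunc k)) (C (algebraMap ℂ k (f q χ))),
    RatFunc.algebraMap_C (algebraMap ℂ k (f q χ)), algebraMap_ratFunc]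
  ring

/-- the value of `f q` on a curve in Cox coordinates over a fixed point -/
theorem ev_cst {k : Type} [Field k] [Algebra ℂ k] (f : Q → Lau d) (b : V → Fin d → ℤ)
    (x : Fin d → k) (Y : V → k[X]) (hY : ∀ v, Y v ≠ 0) (q : Q) :
    ev (f q) (fun i => RatFunc.C (x i) * ∏ v, algebraMap k[X] (RatFunc k) (Y v) ^ b v i) =
      (∏ v, algebraMap k[X] (RatFunc k) (Y v) ^ mn (f q) (b v)) *
        algebraMap k[X] (RatFunc k) ((coxR f b).F (fun q χ => C (cst f x q χ)) q Y) := by
  have h := ev_cg f b (fun (j : Empty) => j.elim) (fun j => j.elim) x Y hY q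
  simp only [Finset.univ_eq_empty, Finset.prod_empty, mul_one, one_mul] at h
  rw [h]
  congr 2
  unfold cg
  simp

end cox

section inf

variable {k : Type} [Field k]

theorem Inf.neg {p : RatFunc k} {c : k} (h : Inf p c) : Inf (-p) (-c) := by
  have h1 := (Inf.const (-1 : k)).mul h
  rwa [map_neg, map_one, neg_one_mul, neg_one_mul] at h1

theorem Inf.uniq {p : RatFunc k} {c c' : k} (h : Inf p c) (h' : Inf p c') : c = c' := by
  have h1 := h.add h'.neg
  rw [add_neg_cancel] at h1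
  exact sub_eq_zero.1 (by rw [sub_eq_add_neg]; exact h1.eq_zero)

theorem Inf.tot (p : RatFunc k) : (∃ c, Inf p c) ∨ Inf p⁻¹ 0 := by
  have hd : p.denom ≠ 0 := p.denom_ne_zero
  by_cases h : p.num.natDegree ≤ p.denom.natDegree
  · left
    refine ⟨p.num.coeff p.denom.natDegree / p.denom.leadingCoeff, p.num, p.denom, hd, h, ?_,
      (RatFunc.num_div_denom p).symm⟩
    rw [div_mul_cancel₀ _ (leadingCoeff_ne_zero.2 hd)]
  · right
    push Not at h
    have hn : p.num ≠ 0 := by
      intro h0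
      rw [h0, natDegree_zero] at h
      omega
    refine ⟨p.denom, p.num, hn, h.le, ?_, ?_⟩
    · rw [coeff_eq_zero_of_natDegree_lt h, zero_mul]
    · conv_lhs => rw [← RatFunc.num_div_denom p]
      rw [inv_div]

/-- the place at infinity -/
def plcInf (k : Type) [Field k] : Plc (RatFunc k) k where
  S := Inf
  one := by
    have := Inf.const (1 : k)
    rwa [map_one] at this
  add := Inf.add
  mul := Inf.mul
  neg := Inf.neg
  uniq := Inf.uniq
  tot := Inf.tot

/-- SPECIALISATION: the point at infinity -/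
theorem spz_inf {K : Type} [Field K] [Algebra ℂ K] {n d : ℕ} {Q : Type} [Fintype Q]
    {x : Fin d → K} {f : Q → Lau d} (D : Data K n d Q x f) [Algebra ℂ k] (p : Fin d → RatFunc k)
    (hp : ∀ q, ev (f q) p = 0) (φ0 : K →ₐ[ℂ] k) (h : ∀ j, Inf (p j) (φ0 (x j))) :
    ∃ φ1 : K →ₐ[ℂ] RatFunc k, ∀ j, φ1 (x j) = p j :=
  spz_plc D (plcInf k) (fun c => by
    rw [algebraMap_ratFunc]
    exact Inf.const _) p hp φ0 h

theorem Inf.inv {p : RatFunc k} {c : k} (h : Inf p c) (hc : c ≠ 0) : Inf p⁻¹ c⁻¹ :=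
  (plcInf k).inv h hc

theorem Inf.zpow {p : RatFunc k} {c : k} (h : Inf p c) (hc : c ≠ 0) (m : ℤ) :
    Inf (p ^ m) (c ^ m) :=
  (plcInf k).zpow h hc m

theorem Inf.pow {p : RatFunc k} {c : k} (h : Inf p c) (m : ℕ) : Inf (p ^ m) (c ^ m) :=
  (plcInf k).pow h m

theorem Inf.prod {ι : Type} {s : Finset ι} {p : ι → RatFunc k} {c : ι → k}
    (h : ∀ i ∈ s, Inf (p i) (c i)) : Inf (∏ i ∈ s, p i) (∏ i ∈ s, c i) :=
  (plcInf k).prod s h

theorem Inf.sum {ι : Type} {s : Finset ι} {p : ι → RatFunc k} {c : ι → k}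
    (h : ∀ i ∈ s, Inf (p i) (c i)) : Inf (∑ i ∈ s, p i) (∑ i ∈ s, c i) :=
  (plcInf k).sum s h

/-- a polynomial divided by a power of the variable -/
theorem Inf.poly {T : k[X]} {m : ℕ} (h : DegLE T m) :
    Inf (algebraMap k[X] (RatFunc k) T / RatFunc.X ^ m) (lc T m) := by
  refine ⟨T, X ^ m, pow_ne_zero _ X_ne_zero, ?_, ?_, ?_⟩
  · rw [natDegree_X_pow]
    exact degLE_iff.1 h
  · rw [natDegree_X_pow, lc_of_nat, leadingCoeff_X_pow, mul_one]
  · rw [map_pow, RatFunc.algebraMap_X]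

/-- the value at infinity of a product of powers of polynomials of total degree `0` -/
theorem Inf.prod_zpow {W : Type} [Fintype W] {T : W → k[X]} {m : W → ℕ}
    (hT : ∀ w, DegLE (T w) (m w)) (hlc : ∀ w, lc (T w) (m w) ≠ 0) (c : W → ℤ)
    (hc : ∑ w, c w * m w = 0) :
    Inf (∏ w, algebraMap k[X] (RatFunc k) (T w) ^ c w) (∏ w, lc (T w) (m w) ^ c w) := by
  classical
  have h1 : Inf (∏ w, (algebraMap k[X] (RatFunc k) (T w) / RatFunc.X ^ m w) ^ c w)
      (∏ w, lc (T w) (m w) ^ c w) :=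
    Inf.prod fun w _ => (Inf.poly (hT w)).zpow (hlc w) _
  have hX : (RatFunc.X : RatFunc k) ≠ 0 := RatFunc.X_ne_zero
  have h2 : ∏ w, (algebraMap k[X] (RatFunc k) (T w) / RatFunc.X ^ m w) ^ c w =
      ∏ w, algebraMap k[X] (RatFunc k) (T w) ^ c w := by
    have h3 : ∀ w, (algebraMap k[X] (RatFunc k) (T w) / RatFunc.X ^ m w) ^ c w =
        algebraMap k[X] (RatFunc k) (T w) ^ c w * (RatFunc.X ^ (c w * m w))⁻¹ := by
      intro w
      rw [div_zpow, div_eq_mul_inv, ← zpow_natCast, ← zpow_mul, mul_comm (m w : ℤ)]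
    rw [Finset.prod_congr rfl fun w _ => h3 w, Finset.prod_mul_distrib]
    have h4 : ∀ s : Finset W, ∏ w ∈ s, ((RatFunc.X : RatFunc k) ^ (c w * m w))⁻¹ =
        (RatFunc.X ^ ∑ w ∈ s, c w * m w)⁻¹ := by
      intro s
      induction s using Finset.induction_on with
      | empty => simp
      | insert a s ha ih =>
        rw [Finset.prod_insert ha, Finset.sum_insert ha, ih, zpow_add₀ hX, mul_inv]
    rw [h4, hc, zpow_zero, inv_one, mul_one]
  rwa [h2] at h1

end inf

end Pool.Agent.Work.WRC
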