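import Mathlib
import Pool.Agent.Work.MP_4329d7_ag_wrc.Spz

/-!
W-RC: base change and gauge transformations.

* `FreeS.map`, `VFreeS.map`, `FullS.map`, `VF.map`: extensions of the field;
* `Cox.F_gauge`, `Cox.J_gauge`, `FreeS.gauge`, `VFreeS.gauge`: rescaling of the Cox coordinates;
* `VF.gauge`, `VF.to_ind`, `VF.of_ind`, `VF.of_tau`: only the cone and the point modulo its torus
  matter.
-/

namespace Pool.Agent.Work.WRC

open Polynomial Pool.Agent.Work.CI Pool.Agent.Work.CW Pool.Agent.Work.MP_4329d7_ag_sq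

section map

variable {k k' : Type} [Field k] [Field k'] (i : k →+* k')

theorem Spz.degLE_map {p : k[X]} {n : ℤ} (h : DegLE p n) : DegLE (p.map i) n := by
  intro m hm
  rw [coeff_map, h m hm, map_zero]

theorem Spz.lc_map (p : k[X]) (n : ℤ) : lc (p.map i) n = i (lc p n) := by
  unfold lc
  split_ifs
  · rw [coeff_map]
  · rw [map_zero]

theorem Spz.degLE_smul {p : k[X]} {n : ℤ} (h : DegLE p n) (c : k) : DegLE (c • p) n := by
  intro m hm
  rw [coeff_smul, h m hm, smul_zero]

theorem Spz.lc_smul (c : k) (p : k[X]) (n : ℤ) : lc (c • p) n = c * lc p n := by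
  unfold lc
  split_ifs
  · rw [coeff_smul, smul_eq_mul]
  · rw [mul_zero]

theorem Spz.lc_zero (n : ℤ) : lc (0 : k[X]) n = 0 := by
  unfold lc
  split_ifs
  · rw [coeff_zero]
  · rfl

/-- families of polynomials of bounded degree are spanned by monomials -/
theorem Spz.span_aux {Q : Type} [Fintype Q] [DecidableEq Q] (N : Submodule k (Q → k[X]))
    (E : Q → ℤ) (h : ∀ q (m : ℕ), (m : ℤ) ≤ E q → (Pi.single q (X ^ m) : Q → k[X]) ∈ N)
    (g : Q → k[X]) (hg : ∀ q, DegLE (g q) (E q)) : g ∈ N := by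
  have h1 : g = ∑ q, ∑ m ∈ (g q).support, (g q).coeff m • (Pi.single q (X ^ m) : Q → k[X]) := by
    funext q
    rw [Finset.sum_apply, Finset.sum_eq_single q]
    · rw [Finset.sum_apply]
      conv_lhs => rw [(g q).as_sum_support_C_mul_X_pow]
      refine Finset.sum_congr rfl fun m _ => ?_
      rw [Pi.smul_apply, Pi.single_eq_same, smul_eq_C_mul]
    · intro q' _ hq'
      rw [Finset.sum_apply]
      refine Finset.sum_eq_zero fun m _ => ?_
      rw [Pi.smul_apply, Pi.single_eq_of_ne (Ne.symm hq'), smul_zero]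
    · intro hq
      exact absurd (Finset.mem_univ _) hq
  rw [h1]
  refine N.sum_mem fun q _ => N.sum_mem fun m hm => N.smul_mem _ (h q m ?_)
  by_contra hlt
  push Not at hlt
  exact (mem_support_iff.1 hm) (hg q m hlt)

variable {V Q X : Type} [Fintype V] {C : Cox V Q X}

theorem J_map_poly (c : Q → X → k[X]) (q : Q) (v : V) (Y : V → k[X]) :
    C.J (fun q x => (c q x).map i) q v (fun v => (Y v).map i) = (C.J c q v Y).map i :=
  (Cox.J_map (mapRingHom i) c q v Y).symm

theorem F_map_poly (c : Q → X → k[X]) (q : Q) (Y : V → k[X]) :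
    C.F (fun q x => (c q x).map i) q (fun v => (Y v).map i) = (C.F c q Y).map i :=
  (Cox.F_map (mapRingHom i) c q Y).symm

/-- base change of `FreeS` -/
theorem FreeS.map [Fintype Q] {c : Q → X → k[X]} {Y : V → k[X]} {D : V → ℤ} {E : Q → ℤ}
    (h : FreeS C c Y D E) :
    FreeS C (fun q x => (c q x).map i) (fun v => (Y v).map i) D E := by
  classical
  intro g hg
  let N : Submodule k' (Q → k'[X]) :=
    { carrier := {g | ∃ h : V → k'[X], (∀ v, DegLE (h v) (D v - 1)) ∧
        ∀ q, ∑ v, C.J (fun q x => (c q x).map i) q v (fun v => (Y v).map i) * h v = g q}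
      zero_mem' := ⟨0, fun v => DegLE.zero _, fun q => by simp⟩
      add_mem' := by
        rintro g g' ⟨h, h1, h2⟩ ⟨h', h1', h2'⟩
        refine ⟨h + h', fun v => (h1 v).add (h1' v), fun q => ?_⟩
        simp only [Pi.add_apply, mul_add, Finset.sum_add_distrib, h2, h2']
      smul_mem' := by
        rintro a g ⟨h, h1, h2⟩
        refine ⟨a • h, fun v => Spz.degLE_smul (h1 v) a, fun q => ?_⟩
        simp only [Pi.smul_apply, mul_smul_comm, ← Finset.smul_sum, h2] }
  refine Spz.span_aux N (fun q => E q - 1) (fun q m hm => ?_) g hg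
  obtain ⟨u, h1, h2⟩ := h (Pi.single q (Polynomial.X ^ m)) (fun q' => by
    by_cases hq : q' = q
    · subst hq
      rw [Pi.single_eq_same]
      have := (DegLE.monomial (1 : k) m)
      rw [← X_pow_eq_monomial] at this
      exact this.mono hm
    · rw [Pi.single_eq_of_ne hq]
      exact DegLE.zero _)
  refine ⟨fun v => (u v).map i, fun v => Spz.degLE_map i (h1 v), fun q' => ?_⟩
  have h3 := congrArg (Polynomial.map i) (h2 q')
  rw [Polynomial.map_sum] at h3
  simp only [Polynomial.map_mul, ← J_map_poly] at h3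
  rw [h3]
  by_cases hq : q' = q
  · subst hq
    rw [Pi.single_eq_same, Pi.single_eq_same, Polynomial.map_pow, map_X]
  · rw [Pi.single_eq_of_ne hq, Pi.single_eq_of_ne hq, Polynomial.map_zero]

/-- base change of `VFreeS` -/
theorem VFreeS.map [Fintype Q] {c : Q → X → k[X]} {Y : V → k[X]} {D : V → ℤ} {E : Q → ℤ}
    (h : VFreeS C c Y D E) :
    VFreeS C (fun q x => (c q x).map i) (fun v => (Y v).map i) D E := by
  classical
  intro g hg
  let N : Submodule k' (Q → k'[X]) :=
    { carrier := {g | ∃ (h : V → k'[X]) (γ : V → k'), C.Eul γ ∧ (∀ v, DegLE (h v) (D v - 1)) ∧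
        (∀ v, lc (h v) (D v - 1) = γ v * lc ((Y v).map i) (D v)) ∧
        ∀ q, ∑ v, C.J (fun q x => (c q x).map i) q v (fun v => (Y v).map i) * h v = g q}
      zero_mem' := ⟨0, 0, fun j => by simp, fun v => DegLE.zero _, fun v => by
        rw [Pi.zero_apply, Pi.zero_apply, Spz.lc_zero, zero_mul], fun q => by simp⟩
      add_mem' := by
        rintro g g' ⟨h, γ, h0, h1, h3, h2⟩ ⟨h', γ', h0', h1', h3', h2'⟩
        refine ⟨h + h', γ + γ', fun j => ?_, fun v => (h1 v).add (h1' v), fun v => ?_,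
          fun q => ?_⟩
        · simp only [Pi.add_apply, mul_add, Finset.sum_add_distrib, h0 j, h0' j, add_zero]
        · simp only [Pi.add_apply, lc_add, h3, h3', add_mul]
        · simp only [Pi.add_apply, mul_add, Finset.sum_add_distrib, h2, h2']
      smul_mem' := by
        rintro a g ⟨h, γ, h0, h1, h3, h2⟩
        refine ⟨a • h, a • γ, fun j => ?_, fun v => Spz.degLE_smul (h1 v) a, fun v => ?_, fun q => ?_⟩
        · have h4 : ∀ v, (C.ray v j : k') * (a • γ) v = a * ((C.ray v j : k') * γ v) := by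
            intro v
            rw [Pi.smul_apply, smul_eq_mul]
            ring
          rw [Finset.sum_congr rfl fun v _ => h4 v, ← Finset.mul_sum, h0 j, mul_zero]
        · rw [Pi.smul_apply, Pi.smul_apply, Spz.lc_smul, h3, smul_eq_mul, mul_assoc]
        · simp only [Pi.smul_apply, mul_smul_comm, ← Finset.smul_sum, h2] }
  refine Spz.span_aux N (fun q => E q - 2) (fun q m hm => ?_) g hg
  obtain ⟨u, γ, h0, h1, h4, h2⟩ := h (Pi.single q (Polynomial.X ^ m)) (fun q' => by
    by_cases hq : q' = q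
    · subst hq
      rw [Pi.single_eq_same]
      have := (DegLE.monomial (1 : k) m)
      rw [← X_pow_eq_monomial] at this
      exact this.mono hm
    · rw [Pi.single_eq_of_ne hq]
      exact DegLE.zero _)
  refine ⟨fun v => (u v).map i, fun v => i (γ v), fun j => ?_, fun v => Spz.degLE_map i (h1 v),
    fun v => ?_, fun q' => ?_⟩
  · have h5 := congrArg i (h0 j)
    rw [map_sum, map_zero] at h5
    rw [← h5]
    exact Finset.sum_congr rfl fun v _ => by rw [map_mul, map_intCast]
  · rw [Spz.lc_map, Spz.lc_map, h4, map_mul]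
  have h3 := congrArg (Polynomial.map i) (h2 q')
  rw [Polynomial.map_sum] at h3
  simp only [Polynomial.map_mul, ← J_map_poly] at h3
  rw [h3]
  by_cases hq : q' = q
  · subst hq
    rw [Pi.single_eq_same, Pi.single_eq_same, Polynomial.map_pow, map_X]
  · rw [Pi.single_eq_of_ne hq, Pi.single_eq_of_ne hq, Polynomial.map_zero]

/-- independence of rows under base change -/
theorem Spz.rows_map [Fintype Q] {m : Q → V → k}
    (h : ∀ c : Q → k, (∀ v, ∑ q, c q * m q v = 0) → c = 0) (l : Q → k')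
    (hl : ∀ v, ∑ q, l q * i (m q v) = 0) : l = 0 := by
  classical
  funext q0
  obtain ⟨y, hy⟩ := surj_of_rows m h (Pi.single q0 1)
  have h1 : ∑ v, (∑ q, l q * i (m q v)) * i (y v) = 0 :=
    Finset.sum_eq_zero fun v _ => by rw [hl v, zero_mul]
  simp only [Finset.sum_mul] at h1
  rw [Finset.sum_comm] at h1
  have h2 : ∀ q, ∑ v, l q * i (m q v) * i (y v) = l q * i ((Pi.single q0 1 : Q → k) q) := by
    intro q
    rw [← hy q, map_sum, Finset.mul_sum]
    exact Finset.sum_congr rfl fun v _ => by rw [map_mul]; ring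
  rw [Finset.sum_congr rfl fun q _ => h2 q, Finset.sum_eq_single q0] at h1
  · rw [Pi.single_eq_same, map_one, mul_one] at h1
    exact h1
  · intro q _ hq
    rw [Pi.single_eq_of_ne hq, map_zero, mul_zero]
  · intro hq
    exact absurd (Finset.mem_univ _) hq

/-- base change of `FullS` -/
theorem FullS.map [IsAlgClosed k] [Fintype Q] {c : Q → X → k[X]} {Y : V → k[X]} {D : V → ℤ}
    {E : Q → ℤ} (h : FullS C c Y D E) :
    FullS C (fun q x => (c q x).map i) (fun v => (Y v).map i) D E := by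
  classical
  refine ⟨fun a l hl => ?_, fun l hl => ?_⟩
  · funext q0
    obtain ⟨y, hy⟩ := surj_poly (fun q v => C.J c q v Y) (fun a c hc => h.1 a c hc)
      (Pi.single q0 1)
    have h1 : ∑ v, (∑ q, l q * ((C.J c q v Y).map i).eval a) * ((y v).map i).eval a = 0 := by
      refine Finset.sum_eq_zero fun v _ => ?_
      have h2 := hl v
      simp only [J_map_poly] at h2
      rw [h2, zero_mul]
    simp only [Finset.sum_mul] at h1
    rw [Finset.sum_comm] at h1
    have h2 : ∀ q, ∑ v, l q * ((C.J c q v Y).map i).eval a * ((y v).map i).eval a =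
        l q * (((Pi.single q0 1 : Q → k[X]) q).map i).eval a := by
      intro q
      rw [← hy q, Polynomial.map_sum, eval_finsetSum, Finset.mul_sum]
      exact Finset.sum_congr rfl fun v _ => by rw [Polynomial.map_mul, eval_mul]; ring
    rw [Finset.sum_congr rfl fun q _ => h2 q, Finset.sum_eq_single q0] at h1
    · rw [Pi.single_eq_same, Polynomial.map_one, eval_one, mul_one] at h1
      exact h1
    · intro q _ hq
      rw [Pi.single_eq_of_ne hq, Polynomial.map_zero, eval_zero, mul_zero]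
    · intro hq
      exact absurd (Finset.mem_univ _) hq
  · refine Spz.rows_map i h.2 l fun v => ?_
    have h1 := hl v
    simp only [J_map_poly, Spz.lc_map] at h1
    exact h1

end map

section gauge

variable {V Q X : Type} [Fintype V] {C : Cox V Q X}

/-- gauge transformations of the equations -/
theorem Cox.F_gauge {A : Type*} [CommRing A] {c c' : Q → X → A} {μ : V → A} {q : Q} {U : A}
    (hU : ∀ x ∈ C.supp q, c' q x * ∏ v, μ v ^ C.e q x v = U * c q x) (T : V → A) :
    C.F c' q (fun v => μ v * T v) = U * C.F c q T := by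
  rw [F_eq, F_eq, Finset.mul_sum]
  refine Finset.sum_congr rfl fun x hx => ?_
  simp only [mul_pow, Finset.prod_mul_distrib]
  rw [← mul_assoc, hU x hx, mul_assoc]

/-- gauge transformations of the partial derivatives -/
theorem Cox.J_gauge {A : Type*} [CommRing A] {c c' : Q → X → A} {μ : V → A} {q : Q} {U : A}
    (hU : ∀ x ∈ C.supp q, c' q x * ∏ v, μ v ^ C.e q x v = U * c q x) (T : V → A) (w : V) :
    C.J c' q w (fun v => μ v * T v) * μ w = U * C.J c q w T := by
  classical
  rw [J_eq, J_eq, Finset.mul_sum, Finset.sum_mul]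
  refine Finset.sum_congr rfl fun x hx => ?_
  by_cases hw : C.e q x w = 0
  · rw [hw]; simp
  have h1 : (∏ v, μ v ^ (C.e q x v - if v = w then 1 else 0)) * μ w =
      ∏ v, μ v ^ C.e q x v := by
    rw [← Finset.mul_prod_erase _ _ (Finset.mem_univ w),
      ← Finset.mul_prod_erase _ (fun v => μ v ^ C.e q x v) (Finset.mem_univ w)]
    have h4 : ∏ v ∈ Finset.univ.erase w, μ v ^ (C.e q x v - if v = w then 1 else 0) =
        ∏ v ∈ Finset.univ.erase w, μ v ^ C.e q x v := by
      refine Finset.prod_congr rfl fun v hv => ?_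
      rw [if_neg (Finset.ne_of_mem_erase hv), Nat.sub_zero]
    rw [h4, if_pos rfl]
    obtain ⟨b, hb⟩ := Nat.exists_eq_succ_of_ne_zero hw
    rw [hb]
    simp only [Nat.succ_sub_one, Nat.succ_eq_add_one]
    ring
  simp only [mul_pow, Finset.prod_mul_distrib]
  have h2 := hU x hx
  calc _ = (c' q x * ((∏ v, μ v ^ (C.e q x v - if v = w then 1 else 0)) * μ w)) *
        ((C.e q x w : A) * ∏ v, T v ^ (C.e q x v - if v = w then 1 else 0)) := by ring
    _ = _ := by rw [h1, h2]; ring

variable {k : Type} [Field k]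

/-- gauge transformation of `FreeS` -/
theorem FreeS.gauge {c c' : Q → X → k[X]} {μ : V → k} {U : Q → k}
    (hU0 : ∀ q, U q ≠ 0)
    (hU : ∀ q, ∀ x ∈ C.supp q, c' q x * ∏ v, Polynomial.C (μ v) ^ C.e q x v =
      Polynomial.C (U q) * c q x) {Y : V → k[X]} {D : V → ℤ} {E : Q → ℤ} (h : FreeS C c Y D E) :
    FreeS C c' (fun v => Polynomial.C (μ v) * Y v) D E := by
  intro g hg
  obtain ⟨u, h1, h2⟩ := h (fun q => Polynomial.C (U q)⁻¹ * g q) fun q => (hg q).C_mul _
  refine ⟨fun v => Polynomial.C (μ v) * u v, fun v => (h1 v).C_mul _, fun q => ?_⟩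
  have h3 : ∀ v, C.J c' q v (fun v => Polynomial.C (μ v) * Y v) * (Polynomial.C (μ v) * u v) =
      Polynomial.C (U q) * (C.J c q v Y * u v) := by
    intro v
    rw [← mul_assoc, Cox.J_gauge (hU q) Y v, mul_assoc]
  rw [Finset.sum_congr rfl fun v _ => h3 v, ← Finset.mul_sum, h2 q, ← mul_assoc, ← C_mul,
    mul_inv_cancel₀ (hU0 q), C_1, one_mul]

/-- gauge transformation of `VFreeS` -/
theorem VFreeS.gauge {c c' : Q → X → k[X]} {μ : V → k} {U : Q → k}
    (hU0 : ∀ q, U q ≠ 0)
    (hU : ∀ q, ∀ x ∈ C.supp q, c' q x * ∏ v, Polynomial.C (μ v) ^ C.e q x v =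
      Polynomial.C (U q) * c q x) {Y : V → k[X]} {D : V → ℤ} {E : Q → ℤ} (h : VFreeS C c Y D E) :
    VFreeS C c' (fun v => Polynomial.C (μ v) * Y v) D E := by
  intro g hg
  obtain ⟨u, γ, h0, h1, h4, h2⟩ := h (fun q => Polynomial.C (U q)⁻¹ * g q)
    fun q => (hg q).C_mul _
  refine ⟨fun v => Polynomial.C (μ v) * u v, γ, h0, fun v => (h1 v).C_mul _, fun v => ?_,
    fun q => ?_⟩
  · rw [lc_C_mul, lc_C_mul, h4]
    ring
  have h3 : ∀ v, C.J c' q v (fun v => Polynomial.C (μ v) * Y v) * (Polynomial.C (μ v) * u v) =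
      Polynomial.C (U q) * (C.J c q v Y * u v) := by
    intro v
    rw [← mul_assoc, Cox.J_gauge (hU q) Y v, mul_assoc]
  rw [Finset.sum_congr rfl fun v _ => h3 v, ← Finset.mul_sum, h2 q, ← mul_assoc, ← C_mul,
    mul_inv_cancel₀ (hU0 q), C_1, one_mul]

/-- gauge transformation of `FullS` -/
theorem FullS.gauge [Fintype Q] {c c' : Q → X → k[X]} {μ : V → k} (hμ : ∀ v, μ v ≠ 0) {U : Q → k}
    (hU0 : ∀ q, U q ≠ 0)
    (hU : ∀ q, ∀ x ∈ C.supp q, c' q x * ∏ v, Polynomial.C (μ v) ^ C.e q x v =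
      Polynomial.C (U q) * c q x) {Y : V → k[X]} {D : V → ℤ} {E : Q → ℤ} (h : FullS C c Y D E) :
    FullS C c' (fun v => Polynomial.C (μ v) * Y v) D E := by
  have h3 : ∀ q v, C.J c' q v (fun v => Polynomial.C (μ v) * Y v) =
      Polynomial.C (U q * (μ v)⁻¹) * C.J c q v Y := by
    intro q v
    have h4 := Cox.J_gauge (hU q) Y v
    have h5 : (Polynomial.C (μ v) : k[X]) ≠ 0 := C_ne_zero.2 (hμ v)
    apply mul_right_cancel₀ h5
    rw [h4, mul_comm (Polynomial.C (U q * (μ v)⁻¹)), mul_assoc, ← C_mul, mul_assoc,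
      inv_mul_cancel₀ (hμ v), mul_one, mul_comm]
  refine ⟨fun a l hl => ?_, fun l hl => ?_⟩
  · have h4 := h.1 a (fun q => l q * U q) fun v => by
      have h5 := hl v
      simp only [h3, eval_mul, eval_C] at h5
      have h6 : ∑ q, l q * (U q * (μ v)⁻¹ * (C.J c q v Y).eval a) =
          (μ v)⁻¹ * ∑ q, l q * U q * (C.J c q v Y).eval a := by
        rw [Finset.mul_sum]
        exact Finset.sum_congr rfl fun q _ => by ring
      rw [h6] at h5
      exact (mul_eq_zero.1 h5).resolve_left (inv_ne_zero (hμ v))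
    funext q
    exact (mul_eq_zero.1 (congrFun h4 q)).resolve_right (hU0 q)
  · have h4 := h.2 (fun q => l q * U q) fun v => by
      have h5 := hl v
      simp only [h3, lc_C_mul] at h5
      have h6 : ∑ q, l q * (U q * (μ v)⁻¹ * lc (C.J c q v Y) (E q - D v)) =
          (μ v)⁻¹ * ∑ q, l q * U q * lc (C.J c q v Y) (E q - D v) := by
        rw [Finset.mul_sum]
        exact Finset.sum_congr rfl fun q _ => by ring
      rw [h6] at h5
      exact (mul_eq_zero.1 h5).resolve_left (inv_ne_zero (hμ v))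
    funext q
    exact (mul_eq_zero.1 (congrFun h4 q)).resolve_right (hU0 q)

end gauge

section cst

variable {d : ℕ} {Q V : Type} [Fintype V]

theorem cst_map {F F' : Type} [Field F] [Field F'] [Algebra ℂ F] [Algebra ℂ F'] (e : F →ₐ[ℂ] F')
    (f : Q → Lau d) (x : Fin d → F) (q : Q) (χ : Fin d → ℤ) :
    cst f (fun j => e (x j)) q χ = e (cst f x q χ) := by
  unfold cst mon
  rw [map_mul, AlgHom.commutes, map_prod]
  simp only [map_zpow₀]

theorem mon_mul {F : Type} [Field F] (x y : Fin d → F) (χ : Fin d → ℤ) :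
    mon (fun j => x j * y j) χ = mon x χ * mon y χ := by
  unfold mon
  simp only [mul_zpow, Finset.prod_mul_distrib]

/-- the coefficients after a gauge transformation -/
theorem cst_gauge {F : Type} [Field F] [Algebra ℂ F] (f : Q → Lau d) (b : V → Fin d → ℤ)
    {x x' : Fin d → F} {μ : V → F} (hμ : ∀ v, μ v ≠ 0)
    (hx : ∀ j, x j = x' j * ∏ v, μ v ^ b v j) {q : Q} {χ : Fin d → ℤ}
    (hχ : χ ∈ (f q).support) :
    cst f x' q χ * ∏ v, μ v ^ (coxR f b).e q χ v =
      (∏ v, μ v ^ (-mn (f q) (b v))) * cst f x q χ := by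
  have h1 : mon x χ = mon x' χ * ∏ v, μ v ^ pair χ (b v) := by
    rw [← Spz.mon_mul_prod x' μ hμ b χ]
    congr 1
    funext j
    exact hx j
  unfold cst
  rw [h1]
  have h2 : ∀ v, μ v ^ (coxR f b).e q χ v = μ v ^ (-mn (f q) (b v)) * μ v ^ pair χ (b v) := by
    intro v
    rw [← zpow_natCast, ← zpow_add₀ (hμ v)]
    congr 1
    have h3 := (coxR f b).he q χ hχ v
    rw [h3]
    change pair χ (b v) + -mn (f q) (b v) = _
    ring
  rw [Finset.prod_congr rfl fun v _ => h2 v, Finset.prod_mul_distrib]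
  ring

end cst

section VF

variable {K : Type} [Field K] [Algebra ℂ K] {dB r : ℕ} {B Q V : Type} [Fintype V]
  {x : Fin (dB + r) → K} {f : B ⊕ Q → Lau (dB + r)} {ray : V → Fin r → ℤ} {k : Type} [Field k]
  [Algebra ℂ k]

/-- base change of very free curves -/
theorem VF.map [Fintype Q] {k2 : Type} [Field k2] [Algebra ℂ k2] (e : k →ₐ[ℂ] k2)
    {x' : Fin (dB + r) → k} {Z : V → k} (h : VF x f ray x' Z) :
    VF x f ray (fun j => e (x' j)) (fun v => e (Z v)) := by
  obtain ⟨k', _, _, _, i, n, T, h1, h2, h3, h4, h5, ⟨φ, hφ⟩, h6, h7⟩ := h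
  obtain ⟨κ, _, _, g1, g2, hg⟩ := Spz.exists_amalg (i : k →+* k') (e : k →+* k2)
  have hg' : ∀ c, g1 (i c) = g2 (e c) := fun c => congrArg (fun φ => φ c) hg
  obtain ⟨_, ω, hω, hc⟩ := Spz.toAlgHom_exists (K := k') g1
  have hω' : (ω : k' →+* κ) = g1 := RingHom.ext hω
  let i2 : k2 →ₐ[ℂ] κ :=
    { g2 with
      commutes' := fun c => by
        change g2 (algebraMap ℂ k2 c) = _
        rw [hc, ← e.commutes, ← hg', i.commutes] }
  have hi2 : ∀ c, i2 (e c) = ω (i c) := fun c => by
    rw [hω]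
    exact (hg' c).symm
  have hcst : ∀ (q : Q) (χ : Fin (dB + r) → ℤ),
      Polynomial.C (cst (fun q => f (Sum.inr q)) (fun j => i2 (e (x' j))) q χ) =
      (Polynomial.C (cst (fun q => f (Sum.inr q)) (fun j => i (x' j)) q χ)).map
        (ω : k' →+* κ) := by
    intro q χ
    rw [map_C]
    simp only [hi2]
    rw [cst_map ω]
    rfl
  refine ⟨κ, inferInstance, inferInstance, inferInstance, i2, n,
    fun v => (T v).map (ω : k' →+* κ), h1, h2, fun v => ?_, fun v => Spz.degLE_map _ (h4 v), fun v => ?_,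
    ⟨(rmapA ω).comp φ, fun j => ?_⟩, ?_, ?_⟩
  · rw [Ne, Polynomial.map_eq_zero]
    exact h3 v
  · rw [Spz.lc_map, h5, hi2]
    rfl
  · rw [AlgHom.comp_apply, hφ, map_mul, map_prod]
    congr 1
    · rw [rmapA_apply, rmap_C, hi2]
      rfl
    · refine Finset.prod_congr rfl fun v _ => ?_
      rw [map_zpow₀, rmapA_apply, rmap_algebraMap]
  · simp only [hcst]
    exact h6.map _
  · simp only [hcst]
    exact h7.map _

/-- gauge transformation of very free curves -/
theorem VF.gauge {x' x'' : Fin (dB + r) → k} {Z Z' : V → k} (h : VF x f ray x' Z) (μ : V → k)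
    (hμ : ∀ v, μ v ≠ 0) (hZ : ∀ v, Z' v = μ v * Z v)
    (hx : ∀ j, x' j = x'' j * ∏ v, μ v ^ (fibv (ray v) : Fin (dB + r) → ℤ) j) :
    VF x f ray x'' Z' := by
  obtain ⟨k', _, _, _, i, n, T, h1, h2, h3, h4, h5, ⟨φ, hφ⟩, h6, h7⟩ := h
  have hi : ∀ v, i (μ v) ≠ 0 := fun v => by rw [Ne, map_eq_zero]; exact hμ v
  have hxi : ∀ j, i (x' j) = i (x'' j) * ∏ v, i (μ v) ^ (fibv (ray v) : Fin (dB + r) → ℤ) j := by
    intro j
    rw [hx j, map_mul, map_prod]
    simp only [map_zpow₀]
  have hU : ∀ q, ∀ χ ∈ (coxF f ray).supp q,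
      Polynomial.C (cst (fun q => f (Sum.inr q)) (fun j => i (x'' j)) q χ) *
        ∏ v, Polynomial.C (i (μ v)) ^ (coxF f ray).e q χ v =
      Polynomial.C (∏ v, i (μ v) ^ (-mn (f (Sum.inr q)) (fibv (ray v)))) *
        Polynomial.C (cst (fun q => f (Sum.inr q)) (fun j => i (x' j)) q χ) := by
    intro q χ hχ
    have h8 := cst_gauge (fun q => f (Sum.inr q)) (fun v => fibv (ray v)) hi hxi hχ
    rw [← C_mul, ← h8, C_mul, map_prod]
    simp only [C_pow]
    rfl
  refine ⟨k', inferInstance, inferInstance, inferInstance, i, n,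
    fun v => Polynomial.C (i (μ v)) * T v, h1, h2, fun v => mul_ne_zero (C_ne_zero.2 (hi v)) (h3 v),
    fun v => (h4 v).C_mul _, fun v => ?_, ⟨φ, fun j => ?_⟩,
    h6.gauge (fun q => Finset.prod_ne_zero_iff.2 fun v _ => zpow_ne_zero _ (hi v)) hU,
    h7.gauge (fun q => Finset.prod_ne_zero_iff.2 fun v _ => zpow_ne_zero _ (hi v)) hU⟩
  · rw [lc_C_mul, h5, hZ, map_mul]
  · rw [hφ, hxi]
    simp only [map_mul, mul_zpow, Finset.prod_mul_distrib, RatFunc.algebraMap_C, map_prod,
      map_zpow₀]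
    ring

omit [Algebra ℂ k] in
theorem prod_fibv (μ : V → k) (j : Fin (dB + r)) :
    ∏ v, μ v ^ (fibv (ray v) : Fin (dB + r) → ℤ) j =
      Fin.append (1 : Fin dB → k) (fun j => ∏ v, μ v ^ ray v j) j := by
  refine Fin.addCases (fun j => ?_) (fun j => ?_) j
  · unfold fibv
    simp only [Fin.append_left, Pi.zero_apply, zpow_zero, Finset.prod_const_one, Pi.one_apply]
  · unfold fibv
    simp only [Fin.append_right]

variable [DecidableEq V]

/-- to the distinguished point of the orbit -/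
theorem VF.to_ind {x' : Fin (dB + r) → k} {Z : V → k} (h : VF x f ray x' Z) (τ : Finset V)
    (hτ : ∀ v, Z v = 0 ↔ v ∈ τ) :
    VF x f ray (mulF x' fun j => ∏ v ∈ τᶜ, Z v ^ ray v j) (ind k τ) := by
  classical
  let μ : V → k := fun v => if v ∈ τ then 1 else (Z v)⁻¹
  have hμ : ∀ v, μ v ≠ 0 := by
    intro v
    simp only [μ]
    split_ifs with hv
    · exact one_ne_zero
    · exact inv_ne_zero fun h0 => hv ((hτ v).1 h0)
  refine h.gauge μ hμ (fun v => ?_) fun j => ?_
  · unfold ind
    simp only [μ]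
    split_ifs with hv
    · rw [(hτ v).2 hv, mul_zero]
    · rw [inv_mul_cancel₀ fun h0 => hv ((hτ v).1 h0)]
  · rw [prod_fibv]
    unfold mulF
    refine Fin.addCases (fun j => ?_) (fun j => ?_) j
    · simp only [Fin.append_left, Pi.one_apply, mul_one]
    · simp only [Fin.append_right]
      have h1 : ∏ v, μ v ^ ray v j = (∏ v ∈ τᶜ, Z v ^ ray v j)⁻¹ := by
        rw [← Finset.prod_mul_prod_compl τ, ← Finset.prod_inv_distrib]
        have h2 : ∏ v ∈ τ, μ v ^ ray v j = 1 := Finset.prod_eq_one fun v hv => by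
          simp only [μ]
          rw [if_pos hv, one_zpow]
        rw [h2, one_mul]
        refine Finset.prod_congr rfl fun v hv => ?_
        simp only [μ]
        rw [if_neg (Finset.mem_compl.1 hv), inv_zpow]
      rw [h1, mul_assoc, mul_inv_cancel₀, mul_one]
      refine Finset.prod_ne_zero_iff.2 fun v hv => zpow_ne_zero _ fun h0 => ?_
      exact (Finset.mem_compl.1 hv) ((hτ v).1 h0)

/-- from the distinguished point of the orbit -/
theorem VF.of_ind {x' : Fin (dB + r) → k} {Z : V → k} (τ : Finset V)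
    (hτ : ∀ v, Z v = 0 ↔ v ∈ τ)
    (h : VF x f ray (mulF x' fun j => ∏ v ∈ τᶜ, Z v ^ ray v j) (ind k τ)) :
    VF x f ray x' Z := by
  classical
  let μ : V → k := fun v => if v ∈ τ then 1 else Z v
  have hμ : ∀ v, μ v ≠ 0 := by
    intro v
    simp only [μ]
    split_ifs with hv
    · exact one_ne_zero
    · exact fun h0 => hv ((hτ v).1 h0)
  refine h.gauge μ hμ (fun v => ?_) fun j => ?_
  · unfold ind
    simp only [μ]
    split_ifs with hv
    · rw [(hτ v).2 hv, mul_zero]
    · rw [mul_one]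
  · rw [prod_fibv]
    unfold mulF
    congr 2
    funext j
    rw [← Finset.prod_mul_prod_compl τ (fun v => μ v ^ ray v j)]
    have h2 : ∏ v ∈ τ, μ v ^ ray v j = 1 := Finset.prod_eq_one fun v hv => by
      simp only [μ]
      rw [if_pos hv, one_zpow]
    rw [h2, one_mul]
    refine Finset.prod_congr rfl fun v hv => ?_
    simp only [μ]
    rw [if_neg (Finset.mem_compl.1 hv)]

/-- only the point modulo the torus of `τ` matters -/
theorem VF.of_tau {x' : Fin (dB + r) → k} {z z' : Fin r → k} (τ : Finset V) (μ : V → k)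
    (hμ : ∀ v, μ v ≠ 0) (hz : ∀ j, z j = z' j * ∏ v ∈ τ, μ v ^ ray v j)
    (h : VF x f ray (mulF x' z) (ind k τ)) : VF x f ray (mulF x' z') (ind k τ) := by
  classical
  let ν : V → k := fun v => if v ∈ τ then μ v else 1
  have hν : ∀ v, ν v ≠ 0 := by
    intro v
    simp only [ν]
    split_ifs with hv
    · exact hμ v
    · exact one_ne_zero
  refine h.gauge ν hν (fun v => ?_) fun j => ?_
  · unfold ind
    simp only [ν]
    split_ifs with hv
    · rw [mul_zero]
    · rw [mul_one]
  · rw [prod_fibv]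
    unfold mulF
    rw [mul_assoc]
    congr 1
    refine Fin.addCases (fun j => ?_) (fun j => ?_) j
    · simp only [Fin.append_left, Pi.one_apply, mul_one]
    · simp only [Fin.append_right]
      rw [hz j, ← Finset.prod_mul_prod_compl τ (fun v => ν v ^ ray v j)]
      have h2 : ∏ v ∈ τᶜ, ν v ^ ray v j = 1 := Finset.prod_eq_one fun v hv => by
        simp only [ν]
        rw [if_neg (Finset.mem_compl.1 hv), one_zpow]
      rw [h2, mul_one]
      congr 1
      refine Finset.prod_congr rfl fun v hv => ?_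
      simp only [ν]
      rw [if_pos hv]

end VF

end Pool.Agent.Work.WRC
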