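import Mathlib
import Pool.Agent.Work.MP_4329d7_ag_wrc.Fin1
import Pool.Agent.Work.MP_4329d7_ag_wrc.NDy
import Pool.Agent.Work.MP_4329d7_ag_wrc.SpzMap
import Pool.Agent.Work.MP_4329d7_ag_wrc.FinDefs

/-!
W-RC, module DefC: the translated family of a section and its defect polynomial.

`X` is a section of the orbit of the cone `σ` over `F(s)` with the value `xi` at infinity, generic
over the base at infinity and over `F(s)`.  `DefD` collects the family `a q χ = den q * f_χ X^χ`,
the constant solution `ind σ`, the independence of the rows at infinity and the defect polynomial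
`g` with the level `N0`; only the columns `v` with `m v ≠ 0` are used (`m` = type of the teeth).
`defC` proves its existence, `DefD.map` is the base change.
-/

namespace Pool.Agent.Work.WRC

open Polynomial Pool.Agent.Work.CI Pool.Agent.Work.MP_4329d7_ag_sq

/-- the translated family of the section `X` and its defect -/
structure DefD {dB r : ℕ} {B Q V : Type} [Fintype Q] [Fintype V] [DecidableEq V]
    (f : B ⊕ Q → Lau (dB + r)) (Δ : FanV V r) {F : Type} [Field F] [Algebra ℂ F] (σ : Finset V)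
    (m : V → ℕ) (X : Fin (dB + r) → RatFunc F) (xi : Fin (dB + r) → F)
    (a : Q → (Fin (dB + r) → ℤ) → F[X]) (den : Q → F[X]) (g : F[X]) (N0 : ℤ) : Prop where
  den_monic : ∀ q, (den q).Monic
  eq : ∀ q, ∀ χ ∈ (f (Sum.inr q)).support, algebraMap F[X] (RatFunc F) (a q χ) =
    algebraMap F[X] (RatFunc F) (den q) * cst (fun q => f (Sum.inr q)) X q χ
  deg : ∀ q, ∀ χ ∈ (f (Sum.inr q)).support, (a q χ).natDegree ≤ (den q).natDegree
  top : ∀ q, ∀ χ ∈ (f (Sum.inr q)).support, (a q χ).coeff (den q).natDegree =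
    cst (fun q => f (Sum.inr q)) xi q χ
  sol : ∀ q, (coxF f Δ.ray).F a q (fun v => C (ind F σ v)) = 0
  inf : ∀ l : Q → F, (∀ v, m v ≠ 0 →
    ∑ q, l q * (coxF f Δ.ray).J (cst (fun q => f (Sum.inr q)) xi) q v (ind F σ) = 0) → l = 0
  g_monic : g.Monic
  dft : ∀ ψ : Q → F[X], ∃ z : V → F[X], (∀ v, m v = 0 → z v = 0) ∧
    ∀ q, ∑ v, (coxF f Δ.ray).J a q v (fun v => C (ind F σ v)) * z v = g * ψ q
  lev : ∀ L : ℤ, N0 ≤ L → ∀ ψ : Q → F[X],
    (∀ q, DegLE (g * ψ q) ((den q).natDegree + L)) →
    ∃ z : V → F[X], (∀ v, m v = 0 → z v = 0) ∧ (∀ v, DegLE (z v) L) ∧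
      ∀ q, ∑ v, (coxF f Δ.ray).J a q v (fun v => C (ind F σ v)) * z v = g * ψ q

section aux

/-- the value at infinity of a fraction with a monic denominator -/
theorem inf_poly {F : Type} [Field F] {z : RatFunc F} {c : F} (h : Inf z c) {den p : F[X]}
    (hden : den.Monic)
    (hp : algebraMap F[X] (RatFunc F) p = algebraMap F[X] (RatFunc F) den * z) :
    p.natDegree ≤ den.natDegree ∧ p.coeff den.natDegree = c := by
  obtain ⟨P, R, hR, hd, hc, rfl⟩ := h
  have hR' := inf_ne hR
  have h1 : p * R = den * P := by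
    apply IsFractionRing.injective F[X] (RatFunc F)
    rw [map_mul, map_mul, hp]
    field_simp
  have h2 : (p * R).coeff (den.natDegree + R.natDegree) = c * R.leadingCoeff := by
    rw [h1, coeff_mul_add_eq_of_natDegree_le le_rfl hd, coeff_natDegree, hden.leadingCoeff,
      one_mul, hc]
  have h3 : p.natDegree ≤ den.natDegree := by
    by_cases hp0 : p = 0
    · rw [hp0]
      simp
    have h4 : (p * R).natDegree ≤ den.natDegree + R.natDegree := by
      rw [h1]
      exact natDegree_mul_le.trans (by omega)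
    rw [natDegree_mul hp0 hR] at h4
    omega
  refine ⟨h3, ?_⟩
  rw [coeff_mul_add_eq_of_natDegree_le h3 le_rfl, coeff_natDegree] at h2
  exact mul_right_cancel₀ (leadingCoeff_ne_zero.2 hR) h2

/-- the columns with `m v = 0` are combinations of the others -/
theorem defC_cols {V Q X : Type} [Fintype V] [Fintype Q] {C : Cox V Q X} {E : Type} [Field E]
    [CharZero E] {c : Q → X → E} {Y : V → E} (hF : ∀ q, C.F c q Y = 0) {m : V → ℕ}
    (hspan : ∀ v, m v = 0 → ∃ γ : V → ℤ, C.Rel γ ∧ γ v ≠ 0 ∧ ∀ w, w ≠ v → m w = 0 → γ w = 0)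
    (hY : ∀ v, m v = 0 → Y v ≠ 0) {l : Q → E}
    (hl : ∀ v, m v ≠ 0 → ∑ q, l q * C.J c q v Y = 0) (v : V) : ∑ q, l q * C.J c q v Y = 0 := by
  classical
  by_cases hv : m v = 0
  · obtain ⟨γ, hγ, h0, h1⟩ := hspan v hv
    have hE : C.Eul (fun w => (γ w : E)) := by
      intro i
      have := congrArg (fun z : ℤ => (z : E)) (hγ i)
      push_cast at this
      exact this
    have h2 : ∑ q, l q * ∑ w, C.J c q w Y * ((γ w : E) * Y w) = 0 := by
      refine Finset.sum_eq_zero fun q _ => ?_
      rw [Cox.euler c hE, hF q, mul_zero, mul_zero]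
    simp only [Finset.mul_sum] at h2
    rw [Finset.sum_comm, Finset.sum_eq_single v] at h2
    · have h3 : ∑ q, l q * (C.J c q v Y * ((γ v : E) * Y v)) =
          (∑ q, l q * C.J c q v Y) * ((γ v : E) * Y v) := by
        rw [Finset.sum_mul]
        exact Finset.sum_congr rfl fun q _ => by ring
      rw [h3] at h2
      exact (mul_eq_zero.1 h2).resolve_right
        (mul_ne_zero (Int.cast_ne_zero.2 h0) (hY v hv))
    · intro w _ hw
      by_cases hmw : m w = 0
      · rw [h1 w hw hmw]
        simp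
      · have h3 : ∑ q, l q * (C.J c q w Y * ((γ w : E) * Y w)) =
            (∑ q, l q * C.J c q w Y) * ((γ w : E) * Y w) := by
          rw [Finset.sum_mul]
          exact Finset.sum_congr rfl fun q _ => by ring
        rw [h3, hl w hmw, zero_mul]
    · intro h
      exact absurd (Finset.mem_univ v) h
  · exact hl v hv

theorem defC_ind_prod {V : Type} [Fintype V] [DecidableEq V] {E : Type} [Field E] (σ : Finset V)
    (e : V → ℕ) : ∏ v, ind E σ v ^ e v = if (∀ v ∈ σ, e v = 0) then 1 else 0 := by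
  split_ifs with h
  · refine Finset.prod_eq_one fun v _ => ?_
    unfold ind
    split_ifs with hv
    · rw [h v hv, pow_zero]
    · rw [one_pow]
  · push Not at h
    obtain ⟨v, hv, h1⟩ := h
    refine Finset.prod_eq_zero (Finset.mem_univ v) ?_
    unfold ind
    rw [if_pos hv, zero_pow h1]

theorem defC_ind_eq_zero {V : Type} [DecidableEq V] {E : Type} [Field E] (σ : Finset V) (v : V) :
    ind E σ v = 0 ↔ v ∈ σ := by
  unfold ind
  split_ifs with h
  · exact ⟨fun _ => h, fun _ => rfl⟩
  · exact ⟨fun h' => absurd h' one_ne_zero, fun h' => absurd h' h⟩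

/-- the section in Cox coordinates -/
theorem bdTot_F {dB r : ℕ} {B Q V : Type} [Fintype V] [DecidableEq V]
    {f : B ⊕ Q → Lau (dB + r)} {Δ : FanV V r} {E : Type} [Field E] [Algebra ℂ E] {σ : Finset V}
    {X : Fin (dB + r) → E} (h : BdTot f Δ σ X) (q : Q) :
    (coxF f Δ.ray).F (cst (fun q => f (Sum.inr q)) X) q (ind E σ) = 0 := by
  rw [Cox.F_eq]
  have h1 := h.eq q
  rw [Finset.sum_filter] at h1
  rw [← h1]
  refine Finset.sum_congr rfl fun χ _ => ?_
  rw [defC_ind_prod]
  split_ifs with h2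
  · rw [mul_one]
  · rw [mul_zero]

/-- sums over the columns with `m v ≠ 0` -/
theorem sum_cols {V : Type} [Fintype V] {A : Type*} [CommRing A] (m : V → ℕ) (J : V → A)
    (z : {v // m v ≠ 0} → A) :
    ∑ v, J v * (if h : m v ≠ 0 then z ⟨v, h⟩ else 0) = ∑ v : {v // m v ≠ 0}, J v.1 * z v := by
  classical
  have h1 : ∑ v : {v // m v ≠ 0}, J v.1 * z v =
      ∑ v : {v // m v ≠ 0}, J v.1 * (if h : m v.1 ≠ 0 then z ⟨v.1, h⟩ else 0) :=
    Finset.sum_congr rfl fun v _ => by rw [dif_pos v.2]
  rw [h1, ← Finset.sum_subtype (Finset.univ.filter fun v => m v ≠ 0) (fun v => by simp)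
    (fun v => J v * (if h : m v ≠ 0 then z ⟨v, h⟩ else 0)), Finset.sum_filter]
  refine Finset.sum_congr rfl fun v _ => ?_
  split_ifs with h
  · rfl
  · rw [mul_zero]

end aux

section main

variable {n dB r : ℕ} {B Q V : Type} [Fintype B] [Fintype Q] [Fintype V] [DecidableEq V]
  {K : Type} [Field K] [Algebra ℂ K] {x : Fin (dB + r) → K} {f : B ⊕ Q → Lau (dB + r)}

theorem defC_charZero (F : Type) [Field F] [Algebra ℂ F] : CharZero F :=
  charZero_of_injective_algebraMap (algebraMap ℂ F).injective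

/-- **DefC**: the translated family of a section with a generic value at infinity has a defect. -/
theorem defC (T : Tot n dB r B Q x f) {Δ : FanV V r} (hΔ : Δ.Adapted f) {nB : ℕ}
    (DB : Data (KBf x) nB dB B (xB x) fun q => resB (f (Sum.inl q)))
    {F : Type} [Field F] [Algebra ℂ F] {σ : Finset V} {X : Fin (dB + r) → RatFunc F}
    (hX : BdTot f Δ σ X) {xi : Fin (dB + r) → F} (hinf : ∀ j, Inf (X j) (xi j))
    (hxi : ∀ j, xi j ≠ 0) (i : KBf x →ₐ[ℂ] F) (hi : ∀ j, i (xB x j) = xi (Fin.castAdd r j))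
    (φ : KBf x →ₐ[ℂ] RatFunc F) (hφ : ∀ j, φ (xB x j) = X (Fin.castAdd r j))
    {m : V → ℕ} (hspan : ∀ v, m v = 0 → ∃ γ : V → ℤ, (coxF f Δ.ray).Rel γ ∧ γ v ≠ 0 ∧
      ∀ w, w ≠ v → m w = 0 → γ w = 0) (hm : ∀ v ∈ σ, m v ≠ 0) :
    ∃ (a : Q → (Fin (dB + r) → ℤ) → F[X]) (den : Q → F[X]) (g : F[X]) (N0 : ℤ),
      DefD f Δ σ m X xi a den g N0 := by
  classical
  have := defC_charZero F
  have := defC_charZero (RatFunc F)
  have hinj : Function.Injective (algebraMap F[X] (RatFunc F)) :=
    IsFractionRing.injective F[X] (RatFunc F)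
  have hind : ∀ v, m v = 0 → ind F σ v ≠ 0 := fun v hv h =>
    hm v ((defC_ind_eq_zero σ v).1 h) hv
  -- common denominators
  have hden : ∀ q : Q, ∃ (d : F[X]) (a : (Fin (dB + r) → ℤ) → F[X]), d.Monic ∧
      ∀ χ ∈ (f (Sum.inr q)).support, algebraMap F[X] (RatFunc F) (a χ) =
        algebraMap F[X] (RatFunc F) d * cst (fun q => f (Sum.inr q)) X q χ := by
    intro q
    obtain ⟨b, hb⟩ := IsLocalization.exist_integer_multiples (nonZeroDivisors F[X])
      (f (Sum.inr q)).support fun χ => cst (fun q => f (Sum.inr q)) X q χ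
    choose z hz using hb
    have hb0 : (b : F[X]) ≠ 0 := nonZeroDivisors.ne_zero b.2
    refine ⟨C ((b : F[X]).leadingCoeff)⁻¹ * b,
      fun χ => if h : χ ∈ (f (Sum.inr q)).support then
        C ((b : F[X]).leadingCoeff)⁻¹ * z χ h else 0, ?_, fun χ hχ => ?_⟩
    · rw [mul_comm]
      exact monic_mul_leadingCoeff_inv hb0
    · beta_reduce
      rw [dif_pos hχ, map_mul, map_mul, hz χ hχ, Algebra.smul_def, mul_assoc]
  choose den a hden ha using hden
  have hcst : ∀ q χ, Inf (cst (fun q => f (Sum.inr q)) X q χ)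
      (cst (fun q => f (Sum.inr q)) xi q χ) := by
    intro q χ
    unfold cst mon
    refine Inf.mul ?_ (Inf.prod fun j _ => (hinf j).zpow (hxi j) _)
    rw [algebraMap_ratFunc]
    exact Inf.const _
  have hdt : ∀ q, ∀ χ ∈ (f (Sum.inr q)).support, (a q χ).natDegree ≤ (den q).natDegree ∧
      (a q χ).coeff (den q).natDegree = cst (fun q => f (Sum.inr q)) xi q χ :=
    fun q χ hχ => inf_poly (hcst q χ) (hden q) (ha q χ hχ)
  -- the solution
  have hsol : ∀ q, (coxF f Δ.ray).F a q (fun v => C (ind F σ v)) = 0 := by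
    intro q
    apply hinj
    rw [map_zero, Cox.F_map, Cox.F_scale
      (c := fun q χ => algebraMap F[X] (RatFunc F) (a q χ))
      (c' := cst (fun q => f (Sum.inr q)) X) (s := algebraMap F[X] (RatFunc F) (den q))
      (fun χ hχ => ha q χ hχ)]
    have h1 : (fun v => algebraMap F[X] (RatFunc F) (C (ind F σ v))) =
        ind (RatFunc F) σ := by
      funext v
      unfold ind
      split_ifs <;> simp
    rw [h1, bdTot_F hX q, mul_zero]
  -- the solution at infinity
  have hFi : ∀ q, (coxF f Δ.ray).F (cst (fun q => f (Sum.inr q)) xi) q (ind F σ) = 0 := by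
    intro q
    have h1 := bdTot_F hX q
    have h2 : Inf ((coxF f Δ.ray).F (cst (fun q => f (Sum.inr q)) X) q (ind (RatFunc F) σ))
        ((coxF f Δ.ray).F (cst (fun q => f (Sum.inr q)) xi) q (ind F σ)) := by
      rw [Cox.F_eq, Cox.F_eq]
      refine Inf.sum fun χ _ => (hcst q χ).mul ?_
      rw [defC_ind_prod, defC_ind_prod]
      split_ifs
      · have h3 := Inf.const (1 : F)
        rwa [map_one] at h3
      · have h3 := Inf.const (0 : F)
        rwa [map_zero] at h3
    rw [h1] at h2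
    exact h2.eq_zero
  have hinfr : ∀ l : Q → F, (∀ v, m v ≠ 0 →
      ∑ q, l q * (coxF f Δ.ray).J (cst (fun q => f (Sum.inr q)) xi) q v (ind F σ) = 0) →
      l = 0 := by
    intro l hl
    exact fib_ndB T hΔ DB i hxi hi hX.cone (defC_ind_eq_zero σ) hFi
      (fun w _ => defC_cols hFi hspan hind hl w)
  -- the rows over the field of functions
  have hgen : ∀ c : Q → RatFunc F, (∀ v : {v // m v ≠ 0}, ∑ q, c q * algebraMap F[X] (RatFunc F)
      ((coxF f Δ.ray).J a q v.1 (fun v => C (ind F σ v))) = 0) → c = 0 := by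
    intro c hc
    rw [resB_eq' T] at DB
    refine fin1_gen T hΔ DB φ hX.ne hφ (den := fun q => algebraMap F[X] (RatFunc F) (den q))
      (fun q h => (hden q).ne_zero ((map_eq_zero_iff _ hinj).1 h)) ha hsol hX.cone
      (fun v => by rw [C_eq_zero, defC_ind_eq_zero]) (fun v => ?_)
    have h1 := defC_cols (C := coxF f Δ.ray)
      (c := fun q χ => algebraMap F[X] (RatFunc F) (a q χ))
      (Y := fun v => algebraMap F[X] (RatFunc F) (C (ind F σ v))) (fun q => by
        rw [← Cox.F_map, hsol q, map_zero]) hspan (fun v hv h => hind v hv (by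
        rw [map_eq_zero_iff _ hinj, C_eq_zero] at h
        exact h)) (l := c) (fun v hv => by
        rw [← hc ⟨v, hv⟩]
        exact Finset.sum_congr rfl fun q _ => by rw [Cox.J_map]) v
    rw [← h1]
    exact Finset.sum_congr rfl fun q _ => by rw [Cox.J_map]
  obtain ⟨g, hg, hgs⟩ := exists_defect
    (fun q (v : {v // m v ≠ 0}) => (coxF f Δ.ray).J a q v.1 (fun v => C (ind F σ v))) hgen
  -- degrees
  have hrel : (coxF f Δ.ray).Rel (0 : V → ℤ) := fun j => by simp
  have hd : ∀ q, ∀ χ ∈ (coxF f Δ.ray).supp q, DegLE (a q χ)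
      (((den q).natDegree : ℤ) - ∑ v, (0 : V → ℤ) v * ((coxF f Δ.ray).e q χ v : ℤ)) := by
    intro q χ hχ
    have h1 := degLE_iff.2 (hdt q χ hχ).1
    simpa using h1
  have hlc : ∀ q, ∀ χ ∈ (coxF f Δ.ray).supp q,
      lc (a q χ) (((den q).natDegree : ℤ) - ∑ v, (0 : V → ℤ) v *
        ((coxF f Δ.ray).e q χ v : ℤ)) = cst (fun q => f (Sum.inr q)) xi q χ := by
    intro q χ hχ
    have h1 := (hdt q χ hχ).2
    rw [← lc_of_nat] at h1
    simpa using h1
  have hH : ∀ v, DegLE (C (ind F σ v)) ((0 : V → ℤ) v) := fun v => DegLE.C _ le_rfl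
  have hJd : ∀ q (v : {v // m v ≠ 0}), DegLE
      ((coxF f Δ.ray).J a q v.1 (fun v => C (ind F σ v)))
      (((den q).natDegree : ℤ) - (0 : {v // m v ≠ 0} → ℤ) v) :=
    fun q v => Cox.J_degLE (hd q) hH v.1
  have hJl : ∀ q (v : {v // m v ≠ 0}), lc
      ((coxF f Δ.ray).J a q v.1 (fun v => C (ind F σ v)))
      (((den q).natDegree : ℤ) - (0 : {v // m v ≠ 0} → ℤ) v) =
      (coxF f Δ.ray).J (cst (fun q => f (Sum.inr q)) xi) q v.1 (ind F σ) := by
    intro q v
    have h1 := Cox.J_lc (hd q) hH v.1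
    have h2 : (fun v => lc (C (ind F σ v)) ((0 : V → ℤ) v)) = ind F σ := by
      funext v
      rw [Pi.zero_apply]
      unfold lc
      simp
    rw [h2] at h1
    refine h1.trans ?_
    exact Cox.J_congr_supp
      (c := fun q' χ => lc (a q' χ) (((den q).natDegree : ℤ) - ∑ v, (0 : V → ℤ) v *
        ((coxF f Δ.ray).e q' χ v : ℤ)))
      (c' := cst (fun q => f (Sum.inr q)) xi) (fun χ hχ => hlc q χ hχ) _ _
  obtain ⟨N0, hN0⟩ := evSurj_g
    (fun q (v : {v // m v ≠ 0}) => (coxF f Δ.ray).J a q v.1 (fun v => C (ind F σ v)))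
    (fun q => ((den q).natDegree : ℤ)) 0 hJd (fun c hc => hinfr c fun v hv => by
      rw [← hc ⟨v, hv⟩]
      exact Finset.sum_congr rfl fun q _ => by rw [hJl q ⟨v, hv⟩]) hg hgs
  refine ⟨a, den, g, N0, hden, ha, fun q χ hχ => (hdt q χ hχ).1, fun q χ hχ => (hdt q χ hχ).2,
    hsol, hinfr, hg, fun ψ => ?_, fun L hL ψ hψ => ?_⟩
  · obtain ⟨z, hz⟩ := hgs ψ
    refine ⟨fun v => if h : m v ≠ 0 then z ⟨v, h⟩ else 0, fun v hv => ?_, fun q => ?_⟩
    · beta_reduce
      rw [dif_neg (not_not.2 hv)]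
    · rw [sum_cols m (fun v => (coxF f Δ.ray).J a q v fun v => C (ind F σ v)) z, hz q]
  · obtain ⟨z, hzd, hz⟩ := hN0 L hL ψ hψ
    refine ⟨fun v => if h : m v ≠ 0 then z ⟨v, h⟩ else 0, fun v hv => ?_, fun v => ?_,
      fun q => ?_⟩
    · beta_reduce
      rw [dif_neg (not_not.2 hv)]
    · beta_reduce
      by_cases h : m v ≠ 0
      · rw [dif_pos h]
        have h1 := hzd ⟨v, h⟩
        simpa using h1
      · rw [dif_neg h]
        exact DegLE.zero _
    · rw [sum_cols m (fun v => (coxF f Δ.ray).J a q v fun v => C (ind F σ v)) z, hz q]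

end main

section map

theorem degLE_of_monic_mul {F : Type} [Field F] {g φ : F[X]} (hg : g.Monic) {n : ℤ} :
    DegLE (g * φ) n ↔ DegLE φ (n - g.natDegree) := by
  constructor
  · intro h
    by_cases h0 : φ = 0
    · rw [h0]; exact DegLE.zero _
    have h2 : ((g * φ).natDegree : ℤ) ≤ n := by
      by_contra h3
      push Not at h3
      have h4 := h _ h3
      rw [coeff_natDegree, leadingCoeff_eq_zero] at h4
      exact mul_ne_zero hg.ne_zero h0 h4
    refine (DegLE.natDegree φ).mono ?_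
    rw [natDegree_mul hg.ne_zero h0] at h2
    push_cast at h2
    omega
  · intro h
    exact ((DegLE.natDegree g).mul h).mono (by omega)

variable {dB r : ℕ} {B Q V : Type} [Fintype Q] [Fintype V] [DecidableEq V]
  {f : B ⊕ Q → Lau (dB + r)} {Δ : FanV V r} {F F' : Type} [Field F] [Algebra ℂ F] [Field F']
  [Algebra ℂ F'] {σ : Finset V} {m : V → ℕ} {X : Fin (dB + r) → RatFunc F}
  {xi : Fin (dB + r) → F} {a : Q → (Fin (dB + r) → ℤ) → F[X]} {den : Q → F[X]} {g : F[X]}
  {N0 : ℤ}

omit [Fintype V] in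
theorem defC_ind_map (i : F →ₐ[ℂ] F') (σ : Finset V) (v : V) : i (ind F σ v) = ind F' σ v := by
  unfold ind
  split_ifs <;> simp

omit [Fintype Q] in
theorem J_ind_map (i : F →ₐ[ℂ] F') (a : Q → (Fin (dB + r) → ℤ) → F[X]) (q : Q) (v : V) :
    (coxF f Δ.ray).J (fun q χ => (a q χ).map (i : F →+* F')) q v (fun v => C (ind F' σ v)) =
      ((coxF f Δ.ray).J a q v fun v => C (ind F σ v)).map (i : F →+* F') := by
  rw [← J_map_poly]
  congr 1
  funext v
  rw [Polynomial.map_C]
  exact congrArg C (defC_ind_map i σ v).symm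

/-- base change of `DefD` -/
theorem DefD.map (h : DefD f Δ σ m X xi a den g N0) (i : F →ₐ[ℂ] F') :
    DefD f Δ σ m (fun j => rmapA i (X j)) (fun j => i (xi j))
      (fun q χ => (a q χ).map (i : F →+* F')) (fun q => (den q).map (i : F →+* F'))
      (g.map (i : F →+* F')) N0 := by
  classical
  refine ⟨fun q => (h.den_monic q).map _, fun q χ hχ => ?_, fun q χ hχ => ?_, fun q χ hχ => ?_,
    fun q => ?_, fun l hl => ?_, h.g_monic.map _, fun ψ => ?_, fun L hL ψ hψ => ?_⟩
  · have h1 := congrArg (rmapA i) (h.eq q χ hχ)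
    rw [map_mul, ← cst_map] at h1
    simp only [rmapA_apply, rmap_algebraMap] at h1
    exact h1
  · rw [natDegree_map, natDegree_map]
    exact h.deg q χ hχ
  · rw [natDegree_map, coeff_map, h.top q χ hχ, cst_map]
    rfl
  · have h1 := congrArg (Polynomial.map (i : F →+* F')) (h.sol q)
    rw [← F_map_poly, Polynomial.map_zero] at h1
    rw [← h1]
    congr 1
    funext v
    rw [Polynomial.map_C]
    exact congrArg C (defC_ind_map i σ v).symm
  · refine Spz.rows_map (i : F →+* F') (V := {v // m v ≠ 0})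
      (m := fun q v => (coxF f Δ.ray).J (cst (fun q => f (Sum.inr q)) xi) q v.1 (ind F σ))
      (fun c hc => h.inf c fun v hv => hc ⟨v, hv⟩) l (fun v => ?_)
    rw [← hl v.1 v.2]
    refine Finset.sum_congr rfl fun q _ => ?_
    rw [Cox.J_map]
    congr 1
    have h1 : (fun v => (i : F →+* F') (ind F σ v)) = ind F' σ := funext fun v => defC_ind_map i σ v
    rw [h1]
    exact Cox.J_congr_supp (fun χ _ => (cst_map i _ xi q χ).symm) _ _
  · let N : Submodule F' (Q → F'[X]) :=
      { carrier := {ψ | ∃ z : V → F'[X], (∀ v, m v = 0 → z v = 0) ∧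
          ∀ q, ∑ v, (coxF f Δ.ray).J (fun q χ => (a q χ).map (i : F →+* F')) q v
            (fun v => C (ind F' σ v)) * z v = g.map (i : F →+* F') * ψ q}
        zero_mem' := ⟨0, fun v _ => rfl, fun q => by simp⟩
        add_mem' := by
          rintro ψ ψ' ⟨z, h1, h2⟩ ⟨z', h1', h2'⟩
          refine ⟨z + z', fun v hv => ?_, fun q => ?_⟩
          · rw [Pi.add_apply, h1 v hv, h1' v hv, add_zero]
          · simp only [Pi.add_apply, mul_add, Finset.sum_add_distrib, h2, h2']
        smul_mem' := by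
          rintro c ψ ⟨z, h1, h2⟩
          refine ⟨c • z, fun v hv => ?_, fun q => ?_⟩
          · rw [Pi.smul_apply, h1 v hv, smul_zero]
          · simp only [Pi.smul_apply, mul_smul_comm, ← Finset.smul_sum, h2] }
    refine Spz.span_aux N (fun q => ((ψ q).natDegree : ℤ)) (fun q e _ => ?_) ψ
      fun q => DegLE.natDegree _
    obtain ⟨z, h1, h2⟩ := h.dft (Pi.single q (Polynomial.X ^ e))
    refine ⟨fun v => (z v).map (i : F →+* F'), fun v hv => by
      beta_reduce
      rw [h1 v hv, Polynomial.map_zero], fun q' => ?_⟩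
    have h3 := congrArg (Polynomial.map (i : F →+* F')) (h2 q')
    rw [Polynomial.map_sum] at h3
    simp only [Polynomial.map_mul, ← J_ind_map] at h3
    rw [h3]
    congr 1
    by_cases hq : q' = q
    · subst hq
      rw [Pi.single_eq_same, Pi.single_eq_same, Polynomial.map_pow, map_X]
    · rw [Pi.single_eq_of_ne hq, Pi.single_eq_of_ne hq, Polynomial.map_zero]
  · let N : Submodule F' (Q → F'[X]) :=
      { carrier := {ψ | ∃ z : V → F'[X], (∀ v, m v = 0 → z v = 0) ∧ (∀ v, DegLE (z v) L) ∧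
          ∀ q, ∑ v, (coxF f Δ.ray).J (fun q χ => (a q χ).map (i : F →+* F')) q v
            (fun v => C (ind F' σ v)) * z v = g.map (i : F →+* F') * ψ q}
        zero_mem' := ⟨0, fun v _ => rfl, fun v => DegLE.zero _, fun q => by simp⟩
        add_mem' := by
          rintro ψ ψ' ⟨z, h1, h0, h2⟩ ⟨z', h1', h0', h2'⟩
          refine ⟨z + z', fun v hv => ?_, fun v => (h0 v).add (h0' v), fun q => ?_⟩
          · rw [Pi.add_apply, h1 v hv, h1' v hv, add_zero]
          · simp only [Pi.add_apply, mul_add, Finset.sum_add_distrib, h2, h2']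
        smul_mem' := by
          rintro c ψ ⟨z, h1, h0, h2⟩
          refine ⟨c • z, fun v hv => ?_, fun v => Spz.degLE_smul (h0 v) c, fun q => ?_⟩
          · rw [Pi.smul_apply, h1 v hv, smul_zero]
          · simp only [Pi.smul_apply, mul_smul_comm, ← Finset.smul_sum, h2] }
    refine Spz.span_aux N (fun q => ((den q).natDegree : ℤ) + L - g.natDegree)
      (fun q e he => ?_) ψ fun q => ?_
    · obtain ⟨z, h1, h0, h2⟩ := h.lev L hL (Pi.single q (Polynomial.X ^ e)) (fun q' => by
        rw [degLE_of_monic_mul h.g_monic]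
        by_cases hq : q' = q
        · subst hq
          rw [Pi.single_eq_same]
          have := (DegLE.monomial (1 : F) e)
          rw [← X_pow_eq_monomial] at this
          exact this.mono he
        · rw [Pi.single_eq_of_ne hq]
          exact DegLE.zero _)
      refine ⟨fun v => (z v).map (i : F →+* F'),
        fun v hv => by
          beta_reduce
          rw [h1 v hv, Polynomial.map_zero], fun v => Spz.degLE_map _ (h0 v),
        fun q' => ?_⟩
      have h3 := congrArg (Polynomial.map (i : F →+* F')) (h2 q')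
      rw [Polynomial.map_sum] at h3
      simp only [Polynomial.map_mul, ← J_ind_map] at h3
      rw [h3]
      congr 1
      by_cases hq : q' = q
      · subst hq
        rw [Pi.single_eq_same, Pi.single_eq_same, Polynomial.map_pow, map_X]
      · rw [Pi.single_eq_of_ne hq, Pi.single_eq_of_ne hq, Polynomial.map_zero]
    · have h1 := (degLE_of_monic_mul (h.g_monic.map (i : F →+* F'))).1 (hψ q)
      rw [natDegree_map, natDegree_map] at h1
      exact h1

end map

end Pool.Agent.Work.WRC
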