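import Mathlib

/-!
Abstract Newton iteration for lattices (used for the comb lemma).

`L ⊆ E`, `M ⊆ G` are submodules (lattices), `x` the uniformiser.  `lim`: every series `∑ x^r h_r` with
terms in `L` has a sum in `L` (with all its tails); `sep`: `⋂ x^r M = 0`.
-/

namespace Pool.Agent.Work.WRC

section newton

variable {R E G : Type*} [CommRing R] [AddCommGroup E] [Module R E] [AddCommGroup G] [Module R G]

/-- Newton iteration -/
theorem newton (x : R) (L : Submodule R E) (M : Submodule R G)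
    (lim : ∀ h : ℕ → E, (∀ r, h r ∈ L) →
      ∃ S : ℕ → E, (∀ r, S r ∈ L) ∧ ∀ r, S r = h r + x • S (r + 1))
    (sep : ∀ g : G, (∀ r : ℕ, ∃ g' ∈ M, g = x ^ r • g') → g = 0)
    (F : E → G) (J : E → E → G) (y₁ : E)
    (hF : ∃ g ∈ M, F y₁ = x • g)
    (hT : ∀ y, (∃ l ∈ L, y = y₁ + x • l) → ∀ r, 1 ≤ r → ∀ h ∈ L,
      ∃ g ∈ M, F (y + x ^ r • h) = F y + x ^ r • J y h + x ^ (r + 1) • g)
    (hM : ∀ y, (∃ l ∈ L, y = y₁ + x • l) → ∀ h ∈ L, J y h ∈ M)
    (hJ : ∀ y, (∃ l ∈ L, y = y₁ + x • l) → ∀ h ∈ L, ∃ g ∈ M, J y h = J y₁ h + x • g)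
    (hs : ∀ g ∈ M, ∃ h ∈ L, ∃ g' ∈ M, J y₁ h = g + x • g') :
    ∃ y, (∃ l ∈ L, y = y₁ + x • l) ∧ F y = 0 := by
  classical
  -- one step
  have step : ∀ (r : ℕ) (y : E), (∃ l ∈ L, y = y₁ + x • l) → (∃ g ∈ M, F y = x ^ (r + 1) • g) →
      ∃ h ∈ L, ∃ g ∈ M, F (y + x ^ (r + 1) • h) = x ^ (r + 2) • g := by
    rintro r y hy ⟨g, hg, hFy⟩
    obtain ⟨h, hh, g₁, hg₁, h1⟩ := hs (-g) (M.neg_mem hg)
    obtain ⟨g₂, hg₂, h2⟩ := hJ y hy h hh
    obtain ⟨g₃, hg₃, h3⟩ := hT y hy (r + 1) (Nat.le_add_left 1 r) h hh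
    refine ⟨h, hh, g₁ + g₂ + g₃, M.add_mem (M.add_mem hg₁ hg₂) hg₃, ?_⟩
    rw [h3, h2, h1, hFy]
    simp only [smul_add, smul_neg, smul_smul]
    have e : x ^ (r + 1) * x = x ^ (r + 2) := by ring
    rw [e]
    abel
  choose! st hst1 hst2 using step
  -- the sequence
  let Z : ℕ → E := fun n => Nat.rec y₁ (fun r y => y + x ^ (r + 1) • st r y) n
  have hZ0 : Z 0 = y₁ := rfl
  have hZs : ∀ r, Z (r + 1) = Z r + x ^ (r + 1) • st r (Z r) := fun r => rfl
  have key : ∀ r, (∃ l ∈ L, Z r = y₁ + x • l) ∧ ∃ g ∈ M, F (Z r) = x ^ (r + 1) • g := by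
    intro r
    induction r with
    | zero =>
      refine ⟨⟨0, L.zero_mem, by rw [hZ0, smul_zero, add_zero]⟩, ?_⟩
      obtain ⟨g, hg, h⟩ := hF
      exact ⟨g, hg, by rw [hZ0, h, zero_add, pow_one]⟩
    | succ r ih =>
      obtain ⟨ih1, ih2⟩ := ih
      refine ⟨?_, ?_⟩
      · obtain ⟨l, hl, h1⟩ := ih1
        refine ⟨l + x ^ r • st r (Z r), L.add_mem hl (L.smul_mem _ (hst1 r (Z r) ⟨l, hl, h1⟩ ih2)),
          ?_⟩
        rw [hZs, smul_add, smul_smul, ← pow_succ', ← add_assoc, ← h1]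
      · rw [hZs]
        exact hst2 r (Z r) ih1 ih2
  have hstL : ∀ r, st r (Z r) ∈ L := fun r => hst1 r (Z r) (key r).1 (key r).2
  obtain ⟨S, hS1, hS2⟩ := lim (fun r => st r (Z r)) hstL
  -- the partial sums
  have hpart : ∀ r, y₁ + x • S 0 = Z r + x ^ (r + 1) • S r := by
    intro r
    induction r with
    | zero => rw [hZ0, zero_add, pow_one]
    | succ r ih =>
      have e : x ^ (r + 1) * x = x ^ (r + 1 + 1) := by ring
      rw [ih, hS2 r, hZs, smul_add, smul_smul, e]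
      abel
  refine ⟨y₁ + x • S 0, ⟨S 0, hS1 0, rfl⟩, sep _ fun r => ?_⟩
  obtain ⟨g, hg, h1⟩ := (key r).2
  obtain ⟨g₁, hg₁, h2⟩ := hT (Z r) (key r).1 (r + 1) (Nat.le_add_left 1 r) (S r) (hS1 r)
  have h3 := hM (Z r) (key r).1 (S r) (hS1 r)
  refine ⟨x • (g + J (Z r) (S r) + x • g₁),
    M.smul_mem _ (M.add_mem (M.add_mem hg h3) (M.smul_mem _ hg₁)), ?_⟩
  rw [hpart r, h2, h1]
  simp only [smul_add, smul_smul]
  have e : x ^ r * x = x ^ (r + 1) := by ring
  have e' : x ^ r * (x * x) = x ^ (r + 1 + 1) := by ring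
  rw [e, e']

end newton

section tails

open Polynomial

variable {k : Type*} [CommRing k]

/-- the sum of a series `∑ ε^r h_r` of polynomials of bounded degree over `k⟦ε⟧`, with its tails -/
theorem exists_tails (D : ℕ) (h : ℕ → (PowerSeries k)[X]) (hD : ∀ r, (h r).degree < (D : WithBot ℕ)) :
    ∃ S : ℕ → (PowerSeries k)[X], (∀ r, (S r).degree < (D : WithBot ℕ)) ∧
      ∀ r, S r = h r + (PowerSeries.X : PowerSeries k) • S (r + 1) := by
  classical
  let T : ℕ → ℕ → PowerSeries k := fun r i =>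
    PowerSeries.mk fun n => ∑ j ∈ Finset.range (n + 1), PowerSeries.coeff (n - j) ((h (r + j)).coeff i)
  have hT : ∀ r i, T r i = (h r).coeff i + PowerSeries.X * T (r + 1) i := by
    intro r i
    ext n
    rcases n with _ | n
    · simp only [T, PowerSeries.coeff_mk, map_add]
      simp
    · simp only [T, PowerSeries.coeff_mk, map_add, PowerSeries.coeff_succ_X_mul]
      rw [Finset.sum_range_succ']
      simp only [Nat.sub_zero, add_zero, Nat.add_sub_add_right]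
      rw [add_comm]
      congr 1
      refine Finset.sum_congr rfl fun j _ => ?_
      rw [add_assoc, add_comm 1 j]
  refine ⟨fun r => ∑ i ∈ Finset.range D, monomial i (T r i), fun r => ?_, fun r => ?_⟩
  · refine (Polynomial.degree_lt_iff_coeff_zero _ _).2 fun m hm => ?_
    rw [finsetSum_coeff]
    refine Finset.sum_eq_zero fun i hi => ?_
    rw [coeff_monomial, if_neg]
    have := Finset.mem_range.1 hi
    omega
  · ext1 i
    simp only [coeff_add, coeff_smul, finsetSum_coeff, coeff_monomial, Finset.sum_ite_eq',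
      Finset.mem_range, smul_eq_mul]
    split_ifs with hi
    · exact hT r i
    · rw [mul_zero, add_zero]
      exact ((Polynomial.degree_lt_iff_coeff_zero _ _).1 (hD r) i (not_lt.1 hi)).symm

end tails

end Pool.Agent.Work.WRC
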