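import Mathlib
import Pool.Agent.Work.MP_4329d7_ag_wrc.KLat
import Pool.Agent.Work.MP_4329d7_ag_wrc.Newton
import Pool.Agent.Work.MP_4329d7_ag_uni.HenselMv

/-!
# The lattice comb lemma

`comb_newton`: Newton iteration in the lattices `Lat` over `k⟦ε⟧`;
`comb_linear`: the linearised equation at the solution is solvable exactly.
-/

namespace Pool.Agent.Work.WRC

open Polynomial

section taylor

variable {V Q X : Type} [Fintype V] {C : Cox V Q X} {A : Type*} [CommRing A]

theorem Cox.F_taylor (c : Q → X → A) (q : Q) (z : A) (y h : V → A) :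
    z ^ 2 ∣ C.F c q (fun v => y v + z * h v) - C.F c q y - z * ∑ v, C.J c q v y * h v := by
  have h1 := Uni.hmv_taylor (Ideal.span {z}) (C.P c q) y (fun v => z * h v)
    (fun v => Ideal.mul_mem_right _ _ (Ideal.mem_span_singleton_self z))
  rw [Ideal.span_singleton_mul_span_singleton, Ideal.mem_span_singleton, ← pow_two] at h1
  have h2 : z * ∑ v, C.J c q v y * h v =
      ∑ v, z * h v * MvPolynomial.eval y (MvPolynomial.pderiv v (C.P c q)) := by
    rw [Finset.mul_sum]
    refine Finset.sum_congr rfl fun v _ => ?_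
    unfold Cox.J
    ring
  rw [h2]
  exact h1

theorem Cox.J_congr (c : Q → X → A) (q : Q) (w : V) (z : A) (y l : V → A) :
    z ∣ C.J c q w (fun v => y v + z * l v) - C.J c q w y := by
  have h1 := Uni.hmv_sub_mem (Ideal.span {z}) (MvPolynomial.pderiv w (C.P c q)) (a := y)
    (b := fun v => y v + z * l v) (fun v => by
      rw [add_sub_cancel_left]
      exact Ideal.mul_mem_right _ _ (Ideal.mem_span_singleton_self z))
  rwa [Ideal.mem_span_singleton] at h1

end taylor

section weights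

variable {V Q X : Type} [Fintype V] {C : Cox V Q X} {k : Type*} [Field k]

/-- the coefficients over `k⟦ε⟧` -/
noncomputable def upc (a : Q → X → k[X]) : Q → X → (PowerSeries k)[X] := fun q x => up (a q x)

/-- the derivative of the equation `q` at `Y` in the direction `h` -/
noncomputable def JJ (C : Cox V Q X) (a : Q → X → k[X]) (q : Q) (Y h : V → (PowerSeries k)[X]) :
    (PowerSeries k)[X] := ∑ v, C.J (upc a) q v Y * h v

theorem ex_F [DecidableEq V] (a : Q → X → k[X]) (p : k) {t : V → ℕ}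
    (ht : C.Rel fun v => (t v : ℤ)) {q : Q} {m : ℕ} (hm : (m : ℤ) = C.m (fun v => (t v : ℤ)) q)
    (y η : V → (PowerSeries k)[X]) (hy : ∀ v, ex p (y v) = eps k ^ t v * η v) :
    ex p (C.F (upc a) q y) = eps k ^ m * C.F (fun q x => ex p (upc a q x)) q η := by
  rw [Cox.F_map, ← Cox.F_hom _ ht hm]
  congr 1
  funext v
  exact hy v

theorem ex_J [DecidableEq V] (a : Q → X → k[X]) (p : k) {t : V → ℕ}
    (ht : C.Rel fun v => (t v : ℤ)) {q : Q} {m : ℕ} (hm : (m : ℤ) = C.m (fun v => (t v : ℤ)) q)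
    (y η h θ : V → (PowerSeries k)[X]) (hy : ∀ v, ex p (y v) = eps k ^ t v * η v)
    (hh : ∀ v, ex p (h v) = eps k ^ t v * θ v) :
    ex p (JJ C a q y h) =
      eps k ^ m * ∑ v, C.J (fun q x => ex p (upc a q x)) q v η * θ v := by
  unfold JJ
  rw [map_sum, Finset.mul_sum]
  refine Finset.sum_congr rfl fun v _ => ?_
  rw [map_mul, Cox.J_map, hh v, ← mul_assoc, ← mul_assoc,
    ← Cox.J_hom (fun q x => ex p (upc a q x)) ht hm (eps k) η v]
  congr 3
  funext v
  exact hy v

theorem Lat.dvd_ex {ι : Type*} {pt : ι → k} {t : ι → ℕ} {g : (PowerSeries k)[X]}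
    (h : Lat pt t 0 g) (j : ι) : eps k ^ t j ∣ ex (pt j) g := by
  have := h.2 j
  rwa [zero_add] at this

theorem Lat.dvd_eps {ι : Type*} {pt : ι → k} {t : ι → ℕ} {g : (PowerSeries k)[X]}
    (h : Lat pt t 0 g) : eps k ∣ g := by
  have := h.1
  rwa [zero_add, pow_one] at this

variable [DecidableEq V] {ι : Type*} (a : Q → X → k[X]) (pt : ι → k) (t : ι → V → ℕ)
  (ht : ∀ j, C.Rel (fun v => (t j v : ℤ))) (m : ι → Q → ℕ)
  (hm : ∀ j q, (m j q : ℤ) = C.m (fun v => (t j v : ℤ)) q)

include ht hm in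
/-- the derivative maps the lattice into the lattice -/
theorem lat_JJ {y h : V → (PowerSeries k)[X]} (hy : ∀ j v, eps k ^ t j v ∣ ex (pt j) (y v))
    (hh : ∀ v, Lat pt (fun j => t j v) 0 (h v)) (q : Q) :
    Lat pt (fun j => m j q) 0 (JJ C a q y h) := by
  refine ⟨?_, fun j => ?_⟩
  · rw [zero_add, pow_one]
    exact Finset.dvd_sum fun v _ => Dvd.dvd.mul_left (hh v).dvd_eps _
  · rw [zero_add]
    choose η hη using hy j
    choose θ hθ using fun v => (hh v).dvd_ex j
    rw [ex_J a (pt j) (ht j) (hm j q) y η h θ hη hθ]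
    exact dvd_mul_right _ _

include ht hm in
/-- the Taylor expansion in the lattice -/
theorem lat_taylor {y h : V → (PowerSeries k)[X]} (hy : ∀ j v, eps k ^ t j v ∣ ex (pt j) (y v))
    (hh : ∀ v, Lat pt (fun j => t j v) 0 (h v)) (q : Q) {r : ℕ} (hr : 1 ≤ r) :
    Lat pt (fun j => m j q) (r + 1)
      (C.F (upc a) q (fun v => y v + eps k ^ r * h v) - C.F (upc a) q y -
        eps k ^ r * JJ C a q y h) := by
  refine ⟨?_, fun j => ?_⟩
  · choose l hl using fun v => (hh v).dvd_eps
    have h1 := Cox.F_taylor (C := C) (upc a) q (eps k ^ (r + 1)) y l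
    have h2 : (fun v => y v + eps k ^ (r + 1) * l v) = fun v => y v + eps k ^ r * h v := by
      funext v
      rw [hl v]
      ring
    have h3 : eps k ^ (r + 1) * ∑ v, C.J (upc a) q v y * l v = eps k ^ r * JJ C a q y h := by
      unfold JJ
      rw [Finset.mul_sum, Finset.mul_sum]
      refine Finset.sum_congr rfl fun v _ => ?_
      rw [hl v]
      ring
    rw [h2, h3, ← pow_mul] at h1
    exact (pow_dvd_pow _ (by omega)).trans h1
  · choose η hη using hy j
    choose θ hθ using fun v => (hh v).dvd_ex j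
    have h1 := Cox.F_taylor (C := C) (fun q x => ex (pt j) (upc a q x)) q (eps k ^ r) η θ
    have h2 : ∀ v, ex (pt j) (y v + eps k ^ r * h v) =
        eps k ^ t j v * (η v + eps k ^ r * θ v) := by
      intro v
      rw [map_add, map_mul, map_pow, ex_eps, hη v, hθ v]
      ring
    rw [map_sub, map_sub, map_mul, map_pow, ex_eps, ex_F a (pt j) (ht j) (hm j q) _ _ h2,
      ex_F a (pt j) (ht j) (hm j q) _ _ hη, ex_J a (pt j) (ht j) (hm j q) y η h θ hη hθ]
    have h3 : eps k ^ m j q * C.F (fun q x => ex (pt j) (upc a q x)) q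
          (fun v => η v + eps k ^ r * θ v) -
        eps k ^ m j q * C.F (fun q x => ex (pt j) (upc a q x)) q η -
        eps k ^ r * (eps k ^ m j q * ∑ v, C.J (fun q x => ex (pt j) (upc a q x)) q v η * θ v) =
        eps k ^ m j q * (C.F (fun q x => ex (pt j) (upc a q x)) q (fun v => η v + eps k ^ r * θ v) -
          C.F (fun q x => ex (pt j) (upc a q x)) q η -
          eps k ^ r * ∑ v, C.J (fun q x => ex (pt j) (upc a q x)) q v η * θ v) := by
      ring
    rw [h3, add_comm (r + 1), pow_add]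
    refine mul_dvd_mul_left _ ((pow_dvd_pow _ ?_).trans (by rw [← pow_mul] at h1; exact h1))
    omega

include ht hm in
/-- the derivative modulo `ε` only depends on the point modulo `ε` -/
theorem lat_congr {y l h : V → (PowerSeries k)[X]}
    (hy : ∀ j v, eps k ^ t j v ∣ ex (pt j) (y v))
    (hl : ∀ v, Lat pt (fun j => t j v) 0 (l v))
    (hh : ∀ v, Lat pt (fun j => t j v) 0 (h v)) (q : Q) :
    Lat pt (fun j => m j q) 1
      (JJ C a q (fun v => y v + eps k * l v) h - JJ C a q y h) := by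
  have e1 : JJ C a q (fun v => y v + eps k * l v) h - JJ C a q y h =
      ∑ v, (C.J (upc a) q v (fun v => y v + eps k * l v) - C.J (upc a) q v y) * h v := by
    unfold JJ
    rw [← Finset.sum_sub_distrib]
    exact Finset.sum_congr rfl fun v _ => by ring
  refine ⟨?_, fun j => ?_⟩
  · rw [e1]
    refine Finset.dvd_sum fun v _ => ?_
    rw [pow_succ, pow_one]
    exact mul_dvd_mul (Cox.J_congr _ _ _ _ _ _) (hh v).dvd_eps
  · choose η hη using hy j
    choose θ hθ using fun v => (hh v).dvd_ex j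
    choose ξ hξ using fun v => (hl v).dvd_ex j
    have h2 : ∀ v, ex (pt j) (y v + eps k * l v) = eps k ^ t j v * (η v + eps k * ξ v) := by
      intro v
      rw [map_add, map_mul, ex_eps, hη v, hξ v]
      ring
    rw [map_sub, ex_J a (pt j) (ht j) (hm j q) _ _ h θ h2 hθ,
      ex_J a (pt j) (ht j) (hm j q) y η h θ hη hθ, ← mul_sub, ← Finset.sum_sub_distrib,
      add_comm 1, pow_succ]
    refine mul_dvd_mul_left _ (Finset.dvd_sum fun v _ => ?_)
    rw [← sub_mul]
    exact Dvd.dvd.mul_right (Cox.J_congr _ _ _ _ _ _) _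

end weights

section degrees

variable {V Q X : Type} [Fintype V] {C : Cox V Q X} {k : Type*} [Field k]
  (a : Q → X → k[X]) (D : V → ℤ) (E : Q → ℤ)
  (hdeg : ∀ q, ∀ x ∈ C.supp q, DegLE (a q x) (E q - ∑ v, D v * C.e q x v))

include hdeg in
theorem deg_JJ {y h : V → (PowerSeries k)[X]} (hy : ∀ v, DegLE (y v) (D v))
    (hh : ∀ v, DegLE (h v) (D v - 1)) (q : Q) : DegLE (JJ C a q y h) (E q - 1) := by
  refine DegLE.sum fun v _ => ?_
  have h1 := Cox.J_degLE (C := C) (c := upc a) (q := q) (fun x hx => (hdeg q x hx).up) hy v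
  refine (h1.mul (hh v)).mono (le_of_eq ?_)
  ring

include hdeg in
/-- directions whose top coefficients are Euler directions -/
theorem deg_JJ2 [DecidableEq V] {y h : V → (PowerSeries k)[X]} (hy : ∀ v, DegLE (y v) (D v))
    (hh : ∀ v, DegLE (h v) (D v - 1)) {q : Q} (hF : lc (C.F (upc a) q y) (E q) = 0)
    {γ : V → PowerSeries k} (hγ : C.Eul γ)
    (hl : ∀ v, lc (h v) (D v - 1) = γ v * lc (y v) (D v)) :
    DegLE (JJ C a q y h) (E q - 2) := by
  have hc : ∀ x ∈ C.supp q, DegLE (upc a q x) (E q - ∑ v, D v * C.e q x v) :=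
    fun x hx => (hdeg q x hx).up
  have h1 := deg_JJ a D E hdeg hy hh q
  have h2 : E q - 2 = E q - 1 - 1 := by ring
  rw [h2]
  refine DegLE.pred h1 ?_
  unfold JJ
  rw [lc_sum]
  have h3 : ∀ v, lc (C.J (upc a) q v y * h v) (E q - 1) =
      C.J (fun q' x => lc (upc a q' x) (E q - ∑ v, D v * C.e q' x v)) q v
        (fun v => lc (y v) (D v)) * (γ v * lc (y v) (D v)) := by
    intro v
    have h4 := lc_mul (Cox.J_degLE hc hy v) (hh v)
    have h5 : E q - D v + (D v - 1) = E q - 1 := by ring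
    rw [h5] at h4
    rw [h4, Cox.J_lc hc hy v, hl v]
  rw [Finset.sum_congr rfl fun v _ => h3 v, Cox.euler _ hγ q, ← Cox.F_lc hc hy, hF, mul_zero]

include hdeg in
theorem deg_taylor {y h : V → (PowerSeries k)[X]} (hy : ∀ v, DegLE (y v) (D v))
    (hh : ∀ v, DegLE (h v) (D v - 1)) (q : Q) (r : ℕ) :
    DegLE (C.F (upc a) q (fun v => y v + eps k ^ r * h v) - C.F (upc a) q y -
        eps k ^ r * JJ C a q y h) (E q - 1) := by
  have hc : ∀ x ∈ C.supp q, DegLE (upc a q x) (E q - ∑ v, D v * C.e q x v) :=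
    fun x hx => (hdeg q x hx).up
  have hh' : ∀ v, DegLE (eps k ^ r * h v) (D v - 1) := fun v => (hh v).eps_mul r
  have hy' : ∀ v, DegLE (y v + eps k ^ r * h v) (D v) := fun v =>
    (hy v).add ((hh' v).mono (by omega))
  refine DegLE.sub ?_ ((deg_JJ a D E hdeg hy hh q).eps_mul r)
  refine DegLE.pred ((Cox.F_degLE hc hy').sub (Cox.F_degLE hc hy)) ?_
  rw [lc_sub, Cox.F_lc hc hy', Cox.F_lc hc hy, sub_eq_zero]
  congr 1
  funext v
  rw [lc_add, lc_of_degLE (hh' v) (by omega), add_zero]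

end degrees

section limits

variable {V : Type} {k : Type*} [Field k] {ι : Type*}

theorem smul_X (p : (PowerSeries k)[X]) : (PowerSeries.X : PowerSeries k) • p = eps k * p := by
  unfold eps
  rw [smul_eq_C_mul]

theorem smul_X_pow (r : ℕ) (p : (PowerSeries k)[X]) :
    (PowerSeries.X : PowerSeries k) ^ r • p = eps k ^ r * p := by
  rw [eps_pow, smul_eq_C_mul]

theorem Lat.C_mul {pt : ι → k} {t : ι → ℕ} {s : ℕ} {g : (PowerSeries k)[X]} (c : PowerSeries k)
    (h : Lat pt t s g) : Lat pt t s (C c * g) :=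
  ⟨h.1.mul_left _, fun j => by rw [map_mul]; exact (h.2 j).mul_left _⟩

/-- the lattice of the vectors with entries in `Lat` of bounded degree -/
def latSub (pt : ι → k) (t : ι → V → ℕ) (D : V → ℤ) :
    Submodule (PowerSeries k) (V → (PowerSeries k)[X]) where
  carrier := {h | ∀ v, DegLE (h v) (D v) ∧ Lat pt (fun j => t j v) 0 (h v)}
  add_mem' := fun ha hb v => ⟨(ha v).1.add (hb v).1, (ha v).2.add (hb v).2⟩
  zero_mem' := fun _ => ⟨DegLE.zero _, Lat.zero _⟩
  smul_mem' := fun c h hh v => by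
    rw [Pi.smul_apply, smul_eq_C_mul]
    exact ⟨(hh v).1.C_mul c, (hh v).2.C_mul c⟩

theorem mem_latSub {pt : ι → k} {t : ι → V → ℕ} {D : V → ℤ} {h : V → (PowerSeries k)[X]} :
    h ∈ latSub pt t D ↔ ∀ v, DegLE (h v) (D v) ∧ Lat pt (fun j => t j v) 0 (h v) := Iff.rfl

/-- dividing by `ε` -/
theorem latSub_div {pt : ι → k} {t : ι → V → ℕ} {D : V → ℤ} {s : ℕ}
    {g : V → (PowerSeries k)[X]} (hd : ∀ v, DegLE (g v) (D v))
    (hg : ∀ v, Lat pt (fun j => t j v) s (g v)) :
    ∃ g' ∈ latSub pt t D, g = (PowerSeries.X : PowerSeries k) ^ s • g' := by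
  choose g' h1 h2 using fun v => (hg v).div
  refine ⟨g', fun v => ⟨?_, h2 v⟩, ?_⟩
  · have h3 := hd v
    rw [h1 v] at h3
    exact degLE_of_eps_mul s h3
  · funext v
    rw [Pi.smul_apply, smul_X_pow]
    exact h1 v

theorem latSub_sep {D : V → ℤ} {pt : ι → k} {t : ι → V → ℕ} (g : V → (PowerSeries k)[X])
    (hg : ∀ r : ℕ, ∃ g' ∈ latSub pt t D, g = (PowerSeries.X : PowerSeries k) ^ r • g') :
    g = 0 := by
  funext v
  ext i n
  obtain ⟨g', -, h⟩ := hg (n + 1)
  rw [h, Pi.smul_apply, smul_X_pow, eps_pow, coeff_C_mul, Pi.zero_apply, coeff_zero, map_zero]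
  exact PowerSeries.X_pow_dvd_iff.1 (dvd_mul_right _ _) n (Nat.lt_succ_self n)

theorem latSub_lim {pt : ι → k} {t : ι → V → ℕ} {D : V → ℤ} (h : ℕ → V → (PowerSeries k)[X])
    (hh : ∀ r, h r ∈ latSub pt t D) :
    ∃ S : ℕ → V → (PowerSeries k)[X], (∀ r, S r ∈ latSub pt t D) ∧
      ∀ r, S r = h r + (PowerSeries.X : PowerSeries k) • S (r + 1) := by
  have key : ∀ v, ∃ S : ℕ → (PowerSeries k)[X],
      (∀ r, (S r).degree < ((D v + 1).toNat : WithBot ℕ)) ∧
      ∀ r, S r = h r v + (PowerSeries.X : PowerSeries k) • S (r + 1) := by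
    intro v
    refine exists_tails _ (fun r => h r v) fun r => ?_
    refine (Polynomial.degree_lt_iff_coeff_zero _ _).2 fun i hi => (hh r v).1 i ?_
    omega
  choose S hS1 hS2 using key
  refine ⟨fun r v => S v r, fun r v => ⟨?_, ?_, fun j => ?_⟩, fun r => funext fun v => hS2 v r⟩
  · intro i hi
    refine (Polynomial.degree_lt_iff_coeff_zero _ _).1 (hS1 v r) i ?_
    omega
  · change eps k ^ (0 + 1) ∣ S v r
    rw [hS2 v r, zero_add, pow_one, smul_X]
    exact dvd_add (hh r v).2.dvd_eps (dvd_mul_right _ _)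
  · rw [zero_add]
    have h2 : ∀ N r, N ≤ t j v → eps k ^ N ∣ ex (pt j) (S v r) := by
      intro N
      induction N with
      | zero => exact fun r _ => by rw [pow_zero]; exact one_dvd _
      | succ N ih =>
        intro r hN
        rw [hS2 v r, smul_X, map_add, map_mul, ex_eps]
        refine dvd_add ((pow_dvd_pow _ hN).trans ((hh r v).2.dvd_ex j)) ?_
        rw [pow_succ, mul_comm]
        exact mul_dvd_mul_left _ (ih (r + 1) (by omega))
    exact h2 _ r le_rfl

theorem tails_const (γ : ℕ → PowerSeries k) :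
    ∃ S : ℕ → PowerSeries k, ∀ r, S r = γ r + PowerSeries.X * S (r + 1) := by
  obtain ⟨S, -, hS⟩ := exists_tails 1 (fun r => (C (γ r) : (PowerSeries k)[X])) fun r => by
    refine (Polynomial.degree_lt_iff_coeff_zero _ _).2 fun i hi => ?_
    rw [coeff_C_of_ne_zero]
    omega
  refine ⟨fun r => (S r).coeff 0, fun r => ?_⟩
  change (S r).coeff 0 = γ r + PowerSeries.X * (S (r + 1)).coeff 0
  conv_lhs => rw [hS r]
  rw [coeff_add, coeff_C_zero, coeff_smul, smul_eq_mul]

theorem tails_zero (z : ℕ → PowerSeries k) (hz : ∀ r, z r = PowerSeries.X * z (r + 1)) (r : ℕ) :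
    z r = 0 := by
  have h : ∀ n r, PowerSeries.coeff n (z r) = 0 := by
    intro n
    induction n with
    | zero => intro r; rw [hz r]; simp
    | succ n ih => intro r; rw [hz r, PowerSeries.coeff_succ_X_mul]; exact ih (r + 1)
  ext n
  rw [h n r, map_zero]

end limits

section main

variable {V Q X : Type} [Fintype V] [DecidableEq V] {C : Cox V Q X} {k : Type*} [Field k]
  {ι : Type*}

/-- Newton iteration in the comb lattice. -/
theorem comb_newton (a : Q → X → k[X]) (D : V → ℤ) (E : Q → ℤ)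
    (hdeg : ∀ q, ∀ x ∈ C.supp q, DegLE (a q x) (E q - ∑ v, D v * C.e q x v))
    (pt : ι → k) (t : ι → V → ℕ) (ht : ∀ j, C.Rel (fun v => (t j v : ℤ))) (m : ι → Q → ℕ)
    (hm : ∀ j q, (m j q : ℤ) = C.m (fun v => (t j v : ℤ)) q)
    (Y1 : V → (PowerSeries k)[X]) (hY : ∀ v, DegLE (Y1 v) (D v))
    (hYt : ∀ j v, eps k ^ t j v ∣ ex (pt j) (Y1 v))
    (hF : ∀ q, Lat pt (fun j => m j q) 1 (C.F (upc a) q Y1))
    (hF0 : ∀ q, lc (C.F (upc a) q Y1) (E q) = 0)
    (hsurj : ∀ g : Q → (PowerSeries k)[X],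
      (∀ q, DegLE (g q) (E q - 1) ∧ Lat pt (fun j => m j q) 0 (g q)) →
      ∃ h : V → (PowerSeries k)[X], (∀ v, DegLE (h v) (D v - 1) ∧
        Lat pt (fun j => t j v) 0 (h v)) ∧
        ∀ q, Lat pt (fun j => m j q) 1 (JJ C a q Y1 h - g q)) :
    ∃ Y : V → (PowerSeries k)[X], (∀ v, DegLE (Y v - Y1 v) (D v - 1) ∧
      Lat pt (fun j => t j v) 1 (Y v - Y1 v)) ∧ ∀ q, C.F (upc a) q Y = 0 := by
  classical
  let L := latSub pt t (fun v => D v - 1)
  let M := latSub pt (fun j q => m j q) (fun q => E q - 1)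
  -- membership of the points
  have hpt : ∀ y, (∃ l ∈ L, y = Y1 + (PowerSeries.X : PowerSeries k) • l) →
      (∀ v, DegLE (y v) (D v)) ∧ ∀ j v, eps k ^ t j v ∣ ex (pt j) (y v) := by
    rintro y ⟨l, hl, rfl⟩
    refine ⟨fun v => ?_, fun j v => ?_⟩
    · rw [Pi.add_apply, Pi.smul_apply, smul_eq_C_mul]
      exact (hY v).add (((hl v).1.C_mul _).mono (by simp))
    · rw [Pi.add_apply, Pi.smul_apply, smul_X, map_add, map_mul]
      exact dvd_add (hYt j v) (((hl v).2.dvd_ex j).mul_left _)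
  have main : ∃ y, (∃ l ∈ L, y = Y1 + (PowerSeries.X : PowerSeries k) • l) ∧
      (fun q => C.F (upc a) q y) = 0 := by
    refine newton (PowerSeries.X : PowerSeries k) L M latSub_lim latSub_sep
      (fun y q => C.F (upc a) q y) (fun y h q => JJ C a q y h) Y1 ?_ ?_ ?_ ?_ ?_
    · obtain ⟨g, hg, h1⟩ := latSub_div (D := fun q => E q - 1) (t := fun j q => m j q)
        (fun q => DegLE.pred (Cox.F_degLE (fun x hx => (hdeg q x hx).up) hY) (hF0 q)) hF
      refine ⟨g, hg, ?_⟩
      rw [pow_one] at h1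
      exact h1
    · intro y hy r hr h hh
      obtain ⟨h1, h2⟩ := hpt y hy
      obtain ⟨g, hg, h3⟩ := latSub_div (D := fun q => E q - 1) (t := fun j q => m j q)
        (fun q => deg_taylor a D E hdeg h1 (fun v => (hh v).1) q r)
        (fun q => lat_taylor a pt t ht m hm h2 (fun v => (hh v).2) q hr)
      refine ⟨g, hg, ?_⟩
      rw [← h3]
      funext q
      have e : (y + (PowerSeries.X : PowerSeries k) ^ r • h) = fun v => y v + eps k ^ r * h v := by
        funext v
        rw [Pi.add_apply, Pi.smul_apply, smul_X_pow]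
      simp only [Pi.add_apply, Pi.smul_apply, smul_X_pow]
      rw [e]
      ring
    · intro y hy h hh q
      obtain ⟨h1, h2⟩ := hpt y hy
      exact ⟨deg_JJ a D E hdeg h1 (fun v => (hh v).1) q,
        lat_JJ a pt t ht m hm h2 (fun v => (hh v).2) q⟩
    · rintro y ⟨l, hl, hy⟩ h hh
      have hYY := hpt y ⟨l, hl, hy⟩
      have e : y = fun v => Y1 v + eps k * l v := by
        funext v
        rw [hy, Pi.add_apply, Pi.smul_apply, smul_X]
      obtain ⟨g, hg, h3⟩ := latSub_div (D := fun q => E q - 1) (t := fun j q => m j q)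
        (g := fun q => JJ C a q y h - JJ C a q Y1 h)
        (fun q => (deg_JJ a D E hdeg hYY.1 (fun v => (hh v).1) q).sub
          (deg_JJ a D E hdeg hY (fun v => (hh v).1) q))
        (fun q => by
          rw [e]
          exact lat_congr a pt t ht m hm hYt (fun v => (hl v).2) (fun v => (hh v).2) q)
      refine ⟨g, hg, ?_⟩
      rw [pow_one] at h3
      rw [← h3]
      funext q
      simp only [Pi.add_apply]
      ring
    · intro g hg
      obtain ⟨h, hh, h1⟩ := hsurj g hg
      obtain ⟨g', hg', h3⟩ := latSub_div (D := fun q => E q - 1) (t := fun j q => m j q)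
        (g := fun q => JJ C a q Y1 h - g q)
        (fun q => (deg_JJ a D E hdeg hY (fun v => (hh v).1) q).sub (hg q).1) h1
      refine ⟨h, hh, g', hg', ?_⟩
      rw [pow_one] at h3
      rw [← h3]
      funext q
      simp only [Pi.add_apply]
      ring
  obtain ⟨y, ⟨l, hl, hy⟩, hy0⟩ := main
  refine ⟨y, fun v => ?_, fun q => congrFun hy0 q⟩
  have h1 : y v - Y1 v = eps k ^ 1 * l v := by
    rw [hy, Pi.add_apply, Pi.smul_apply, smul_X, pow_one]
    ring
  rw [h1]
  exact ⟨(hl v).1.eps_mul 1, (hl v).2.eps_mul 1⟩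

omit [DecidableEq V] in
theorem JJ_add (a : Q → X → k[X]) (q : Q) (y h h' : V → (PowerSeries k)[X]) :
    JJ C a q y (h + h') = JJ C a q y h + JJ C a q y h' := by
  unfold JJ
  rw [← Finset.sum_add_distrib]
  exact Finset.sum_congr rfl fun v _ => by rw [Pi.add_apply]; ring

omit [DecidableEq V] in
theorem JJ_smul (a : Q → X → k[X]) (q : Q) (y h : V → (PowerSeries k)[X]) (c : PowerSeries k) :
    JJ C a q y (c • h) = c • JJ C a q y h := by
  unfold JJ
  rw [Finset.smul_sum]
  refine Finset.sum_congr rfl fun v _ => ?_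
  rw [Pi.smul_apply, smul_eq_C_mul, smul_eq_C_mul]
  ring

/-- the lattice of the directions whose top coefficients are Euler directions -/
def pairSub (C : Cox V Q X) (pt : ι → k) (t : ι → V → ℕ) (D : V → ℤ) (top : V → PowerSeries k) :
    Submodule (PowerSeries k) ((V → (PowerSeries k)[X]) × (V → PowerSeries k)) where
  carrier := {p | p.1 ∈ latSub pt t (fun v => D v - 1) ∧ C.Eul p.2 ∧
    ∀ v, lc (p.1 v) (D v - 1) = p.2 v * top v}
  add_mem' := fun {p p'} ha hb => by
    refine ⟨Submodule.add_mem _ ha.1 hb.1, fun i => ?_, fun v => ?_⟩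
    · have h1 := ha.2.1 i
      have h2 := hb.2.1 i
      simp only [Prod.snd_add, Pi.add_apply, mul_add, Finset.sum_add_distrib]
      rw [h1, h2, add_zero]
    · simp only [Prod.fst_add, Prod.snd_add, Pi.add_apply]
      rw [lc_add, ha.2.2 v, hb.2.2 v]
      ring
  zero_mem' := by
    refine ⟨Submodule.zero_mem _, fun i => ?_, fun v => ?_⟩
    · simp
    · simp only [Prod.fst_zero, Prod.snd_zero, Pi.zero_apply, zero_mul]
      unfold lc
      simp
  smul_mem' := fun c p hp => by
    refine ⟨Submodule.smul_mem _ c hp.1, fun i => ?_, fun v => ?_⟩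
    · have h1 := hp.2.1 i
      simp only [Prod.smul_snd, Pi.smul_apply, smul_eq_mul]
      rw [← mul_zero c, ← h1, Finset.mul_sum]
      exact Finset.sum_congr rfl fun v _ => by ring
    · simp only [Prod.smul_fst, Prod.smul_snd, Pi.smul_apply, smul_eq_mul]
      rw [smul_eq_C_mul, lc_C_mul, hp.2.2 v]
      ring

omit [DecidableEq V] in
theorem pairSub_lim {pt : ι → k} {t : ι → V → ℕ} {D : V → ℤ} {top : V → PowerSeries k}
    (h : ℕ → (V → (PowerSeries k)[X]) × (V → PowerSeries k))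
    (hh : ∀ r, h r ∈ pairSub C pt t D top) :
    ∃ S : ℕ → (V → (PowerSeries k)[X]) × (V → PowerSeries k), (∀ r, S r ∈ pairSub C pt t D top) ∧
      ∀ r, S r = h r + (PowerSeries.X : PowerSeries k) • S (r + 1) := by
  obtain ⟨S, hS1, hS2⟩ := latSub_lim (fun r => (h r).1) (fun r => (hh r).1)
  choose T hT using fun v => tails_const (fun r => (h r).2 v)
  refine ⟨fun r => (S r, fun v => T v r), fun r => ⟨hS1 r, fun i => ?_, fun v => ?_⟩,
    fun r => Prod.ext (hS2 r) (funext fun v => ?_)⟩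
  · refine tails_zero (fun r => ∑ v, (C.ray v i : PowerSeries k) * T v r) (fun r => ?_) r
    have h1 := (hh r).2.1 i
    have h2 : ∀ v, (C.ray v i : PowerSeries k) * T v r = (C.ray v i : PowerSeries k) * (h r).2 v +
        PowerSeries.X * ((C.ray v i : PowerSeries k) * T v (r + 1)) := by
      intro v
      rw [hT v r]
      ring
    change ∑ v, (C.ray v i : PowerSeries k) * T v r =
      PowerSeries.X * ∑ v, (C.ray v i : PowerSeries k) * T v (r + 1)
    rw [Finset.sum_congr rfl fun v _ => h2 v, Finset.sum_add_distrib, h1, zero_add,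
      ← Finset.mul_sum]
  · have h1 := tails_zero (fun r => lc (S r v) (D v - 1) - T v r * top v) (fun r => ?_) r
    · exact sub_eq_zero.1 h1
    · have h1 := (hh r).2.2 v
      have h2 : S r v = (h r).1 v + Polynomial.C PowerSeries.X * S (r + 1) v := by
        have h3 := congrFun (hS2 r) v
        rw [Pi.add_apply, Pi.smul_apply, smul_eq_C_mul] at h3
        exact h3
      change lc (S r v) (D v - 1) - T v r * top v =
        PowerSeries.X * (lc (S (r + 1) v) (D v - 1) - T v (r + 1) * top v)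
      rw [h2, lc_add, lc_C_mul, h1, hT v r]
      ring
  · change T v r = (h r).2 v + PowerSeries.X * T v (r + 1)
    exact hT v r

/-- The linearised equation at the solution of the comb lemma is solvable exactly, with top
coefficients in Euler directions. -/
theorem comb_linear (a : Q → X → k[X]) (D : V → ℤ) (E : Q → ℤ)
    (hdeg : ∀ q, ∀ x ∈ C.supp q, DegLE (a q x) (E q - ∑ v, D v * C.e q x v))
    (pt : ι → k) (t : ι → V → ℕ) (ht : ∀ j, C.Rel (fun v => (t j v : ℤ))) (m : ι → Q → ℕ)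
    (hm : ∀ j q, (m j q : ℤ) = C.m (fun v => (t j v : ℤ)) q)
    (Y1 : V → (PowerSeries k)[X]) (hY : ∀ v, DegLE (Y1 v) (D v))
    (hYt : ∀ j v, eps k ^ t j v ∣ ex (pt j) (Y1 v))
    (Y : V → (PowerSeries k)[X]) (hYY : ∀ v, DegLE (Y v - Y1 v) (D v - 1) ∧
      Lat pt (fun j => t j v) 1 (Y v - Y1 v)) (hF : ∀ q, C.F (upc a) q Y = 0)
    (hsurj : ∀ g : Q → (PowerSeries k)[X],
      (∀ q, DegLE (g q) (E q - 2) ∧ Lat pt (fun j => m j q) 0 (g q)) →
      ∃ (h : V → (PowerSeries k)[X]) (γ : V → PowerSeries k), C.Eul γ ∧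
        (∀ v, DegLE (h v) (D v - 1) ∧ Lat pt (fun j => t j v) 0 (h v) ∧
          lc (h v) (D v - 1) = γ v * lc (Y1 v) (D v)) ∧
        ∀ q, Lat pt (fun j => m j q) 1 (JJ C a q Y1 h - g q)) :
    ∀ g : Q → (PowerSeries k)[X],
      (∀ q, DegLE (g q) (E q - 2) ∧ Lat pt (fun j => m j q) 0 (g q)) →
      ∃ (h : V → (PowerSeries k)[X]) (γ : V → PowerSeries k), C.Eul γ ∧
        (∀ v, DegLE (h v) (D v - 1) ∧ Lat pt (fun j => t j v) 0 (h v) ∧
          lc (h v) (D v - 1) = γ v * lc (Y1 v) (D v)) ∧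
        ∀ q, JJ C a q Y h = g q := by
  classical
  -- the solution
  have hlc : ∀ v, lc (Y v) (D v) = lc (Y1 v) (D v) := by
    intro v
    have h1 := lc_of_degLE (hYY v).1 (n := D v) (by omega)
    rw [lc_sub, sub_eq_zero] at h1
    exact h1
  have hYd : ∀ v, DegLE (Y v) (D v) := by
    intro v
    have h1 := ((hYY v).1.mono (show D v - 1 ≤ D v by omega)).add (hY v)
    rwa [sub_add_cancel] at h1
  obtain ⟨l, hl, hl'⟩ := latSub_div (s := 1) (D := fun v => D v - 1) (t := t)
    (fun v => (hYY v).1) (fun v => (hYY v).2)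
  have e : Y = fun v => Y1 v + eps k * l v := by
    funext v
    have h1 := congrFun hl' v
    rw [Pi.smul_apply, smul_X_pow, pow_one] at h1
    rw [← h1]
    ring
  have hYe : ∀ j v, eps k ^ t j v ∣ ex (pt j) (Y v) := by
    intro j v
    rw [e, map_add, map_mul]
    exact dvd_add (hYt j v) (((hl v).2.dvd_ex j).mul_left _)
  let L := pairSub C pt t D (fun v => lc (Y1 v) (D v))
  let M := latSub pt (fun j q => m j q) (fun q => E q - 2)
  have hM : ∀ p ∈ L, (fun q => JJ C a q Y p.1) ∈ M := by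
    intro p hp q
    refine ⟨deg_JJ2 a D E hdeg hYd (fun v => (hp.1 v).1) ?_ hp.2.1 (fun v => ?_),
      lat_JJ a pt t ht m hm hYe (fun v => (hp.1 v).2) q⟩
    · rw [hF q]
      unfold lc
      simp
    · rw [hlc v]
      exact hp.2.2 v
  have hdiff : ∀ p ∈ L, ∀ q, Lat pt (fun j => m j q) 1 (JJ C a q Y p.1 - JJ C a q Y1 p.1) := by
    intro p hp q
    rw [e]
    exact lat_congr a pt t ht m hm hYt (fun v => (hl v).2) (fun v => (hp.1 v).2) q
  -- approximate solutions
  have happ : ∀ g ∈ M, ∃ p ∈ L, ∃ g' ∈ M,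
      (fun q => JJ C a q Y p.1) = g + (PowerSeries.X : PowerSeries k) • g' := by
    intro g hg
    obtain ⟨h, γ, h1, h2, h3⟩ := hsurj g hg
    have hp : ((h, γ) : (V → (PowerSeries k)[X]) × (V → PowerSeries k)) ∈ L :=
      ⟨fun v => ⟨(h2 v).1, (h2 v).2.1⟩, h1, fun v => (h2 v).2.2⟩
    obtain ⟨g', hg', h4⟩ := latSub_div (D := fun q => E q - 2) (t := fun j q => m j q)
      (g := fun q => JJ C a q Y h - g q) (s := 1)
      (fun q => (hM _ hp q).1.sub (hg q).1)
      (fun q => by
        have h5 := (hdiff _ hp q).add (h3 q)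
        have h6 : JJ C a q Y h - JJ C a q Y1 h + (JJ C a q Y1 h - g q) =
            JJ C a q Y h - g q := by ring
        rwa [h6] at h5)
    refine ⟨(h, γ), hp, g', hg', ?_⟩
    rw [pow_one] at h4
    rw [← h4]
    funext q
    simp only [Pi.add_apply]
    ring
  intro g hg
  obtain ⟨p0, hp0, g0, hg0, h0⟩ := happ g hg
  have main : ∃ p, (∃ l ∈ L, p = p0 + (PowerSeries.X : PowerSeries k) • l) ∧
      (fun q => JJ C a q Y p.1 - g q) = 0 := by
    refine newton (PowerSeries.X : PowerSeries k) L M pairSub_lim latSub_sep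
      (fun p q => JJ C a q Y p.1 - g q) (fun _ p q => JJ C a q Y p.1) p0 ?_ ?_ ?_ ?_ ?_
    · refine ⟨g0, hg0, ?_⟩
      funext q
      have h1 := congrFun h0 q
      simp only [Pi.add_apply] at h1
      change JJ C a q Y p0.1 - g q = _
      rw [h1]
      ring
    · intro p _ r _ p' _
      refine ⟨0, M.zero_mem, ?_⟩
      rw [smul_zero, add_zero]
      funext q
      change JJ C a q Y (p.1 + (PowerSeries.X : PowerSeries k) ^ r • p'.1) - g q =
        JJ C a q Y p.1 - g q + (PowerSeries.X : PowerSeries k) ^ r • JJ C a q Y p'.1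
      rw [JJ_add, JJ_smul]
      ring
    · exact fun _ _ p hp => hM p hp
    · intro _ _ p _
      exact ⟨0, M.zero_mem, by rw [smul_zero, add_zero]⟩
    · intro g' hg'
      exact happ g' hg'
  obtain ⟨p, ⟨l', hl', rfl⟩, hp⟩ := main
  have hpL : p0 + (PowerSeries.X : PowerSeries k) • l' ∈ L :=
    L.add_mem hp0 (L.smul_mem _ hl')
  exact ⟨_, _, hpL.2.1, fun v => ⟨(hpL.1 v).1, (hpL.1 v).2, hpL.2.2 v⟩,
    fun q => sub_eq_zero.1 (congrFun hp q)⟩

end main

end Pool.Agent.Work.WRC
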