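import Mathlib
import Pool.Agent.Work.MP_4329d7_ag_wrc.Comb

/-!
# The lattice comb lemma with a defect polynomial

`comb_newton_g`, `comb_linear_g`: as in `Comb.lean`, but the derivative only reaches the multiples of
a polynomial `g` over `k` which does not vanish at the points `pt j` (Tougeron's form of Hensel's
lemma): unknown `Y1 + g h`, values in `g ^ 2 *` lattice.
-/

namespace Pool.Agent.Work.WRC

open Polynomial

section cancel

variable {k : Type*} [Field k]

theorem prime_eps : Prime (eps k) := by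
  unfold eps
  exact prime_C_iff.2 PowerSeries.X_prime

theorem eps_cancel {P ψ : (PowerSeries k)[X]} (hP : red P ≠ 0) {n : ℕ}
    (h : eps k ^ n ∣ P * ψ) : eps k ^ n ∣ ψ :=
  prime_eps.pow_dvd_of_dvd_mul_left n (fun h' => hP (red_eq_zero.2 h')) h

theorem red_up_ne {g : k[X]} (hg : g ≠ 0) : red (up g) ≠ 0 := by
  rw [red_up]
  exact hg

theorem up_ne {g : k[X]} (hg : g ≠ 0) : up g ≠ 0 := fun h => red_up_ne hg (by rw [h, map_zero])

theorem red_ex_up_ne {g : k[X]} {a : k} (ha : g.eval a ≠ 0) : red (ex a (up g)) ≠ 0 := by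
  rw [red_ex, red_up]
  exact fun h => ha (C_eq_zero.1 h)

theorem ex_up_ne {g : k[X]} {a : k} (ha : g.eval a ≠ 0) : ex a (up g) ≠ 0 :=
  fun h => red_ex_up_ne ha (by rw [h, map_zero])

theorem Lat.cancel {ι : Type*} {pt : ι → k} {t : ι → ℕ} {s : ℕ} {g : k[X]} (hg : g ≠ 0)
    (hpt : ∀ j, g.eval (pt j) ≠ 0) {ψ : (PowerSeries k)[X]} (h : Lat pt t s (up g * ψ)) :
    Lat pt t s ψ := by
  refine ⟨eps_cancel (red_up_ne hg) h.1, fun j => eps_cancel (red_ex_up_ne (hpt j)) ?_⟩
  have h1 := h.2 j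
  rwa [map_mul] at h1

theorem Lat.mul {ι : Type*} {pt : ι → k} {t : ι → ℕ} {s : ℕ} {ψ : (PowerSeries k)[X]}
    (p : (PowerSeries k)[X]) (h : Lat pt t s ψ) : Lat pt t s (p * ψ) :=
  ⟨h.1.mul_left _, fun j => by rw [map_mul]; exact (h.2 j).mul_left _⟩

theorem degLE_up_mul {g : k[X]} (hg : g ≠ 0) {h : (PowerSeries k)[X]} {n : ℤ} :
    DegLE (up g * h) n ↔ DegLE h (n - g.natDegree) := by
  constructor
  · intro h1
    by_cases h0 : h = 0
    · rw [h0]; exact DegLE.zero _
    have h2 : ((up g * h).natDegree : ℤ) ≤ n := by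
      by_contra h3
      push Not at h3
      have h4 := h1 _ h3
      rw [coeff_natDegree, leadingCoeff_eq_zero] at h4
      exact mul_ne_zero (up_ne hg) h0 h4
    have h5 : (up g).natDegree = g.natDegree := by
      unfold up
      rw [coe_mapRingHom]
      exact natDegree_map_eq_of_injective PowerSeries.C_injective g
    rw [natDegree_mul (up_ne hg) h0, h5] at h2
    refine (DegLE.natDegree h).mono ?_
    push_cast at h2
    omega
  · intro h1
    have h2 := (DegLE.up (DegLE.natDegree g)).mul h1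
    refine h2.mono (le_of_eq ?_)
    ring

end cancel

section weights

variable {V Q X : Type} [Fintype V] [DecidableEq V] {C : Cox V Q X} {k : Type*} [Field k]
  {ι : Type*} (a : Q → X → k[X]) (pt : ι → k) (t : ι → V → ℕ)
  (ht : ∀ j, C.Rel (fun v => (t j v : ℤ))) (m : ι → Q → ℕ)
  (hm : ∀ j q, (m j q : ℤ) = C.m (fun v => (t j v : ℤ)) q)
  {g : k[X]} (hg : g ≠ 0) (hpt : ∀ j, g.eval (pt j) ≠ 0)

include ht hm hpt in
/-- the Taylor expansion in the lattice, increments divisible by `g` -/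
theorem lat_taylor_g {y h : V → (PowerSeries k)[X]}
    (hy : ∀ j v, eps k ^ t j v ∣ ex (pt j) (y v))
    (hh : ∀ v, Lat pt (fun j => t j v) 0 (h v)) (q : Q) {r : ℕ} (hr : 1 ≤ r) :
    ∃ ρ, Lat pt (fun j => m j q) (r + 1) ρ ∧
      C.F (upc a) q (fun v => y v + up g * (eps k ^ r * h v)) - C.F (upc a) q y -
        up g * (eps k ^ r * JJ C a q y h) = up g ^ 2 * ρ := by
  choose l hl using fun v => (hh v).dvd_eps
  obtain ⟨w, hw⟩ := Cox.F_taylor (C := C) (upc a) q (eps k ^ (r + 1) * up g) y l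
  have h2 : (fun v => y v + eps k ^ (r + 1) * up g * l v) =
      fun v => y v + up g * (eps k ^ r * h v) := by
    funext v
    rw [hl v]
    ring
  have h3 : eps k ^ (r + 1) * up g * ∑ v, C.J (upc a) q v y * l v =
      up g * (eps k ^ r * JJ C a q y h) := by
    unfold JJ
    rw [Finset.mul_sum, Finset.mul_sum, Finset.mul_sum]
    refine Finset.sum_congr rfl fun v _ => ?_
    rw [hl v]
    ring
  rw [h2, h3] at hw
  have hw' : C.F (upc a) q (fun v => y v + up g * (eps k ^ r * h v)) - C.F (upc a) q y -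
        up g * (eps k ^ r * JJ C a q y h) = up g ^ 2 * (eps k ^ (2 * (r + 1)) * w) := by
    rw [hw, mul_pow, ← pow_mul, mul_comm (r + 1) 2]
    ring
  refine ⟨_, ⟨?_, fun j => ?_⟩, hw'⟩
  · exact (pow_dvd_pow _ (by omega)).trans (dvd_mul_right _ _)
  · choose η hη using hy j
    choose θ hθ using fun v => (hh v).dvd_ex j
    obtain ⟨w', hw1⟩ := Cox.F_taylor (C := C) (fun q x => ex (pt j) (upc a q x)) q
      (eps k ^ r * ex (pt j) (up g)) η θ
    have h4 : ∀ v, ex (pt j) (y v + up g * (eps k ^ r * h v)) =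
        eps k ^ t j v * (η v + eps k ^ r * ex (pt j) (up g) * θ v) := by
      intro v
      rw [map_add, map_mul, map_mul, map_pow, ex_eps, hη v, hθ v]
      ring
    have h5 := congrArg (ex (pt j)) hw'
    rw [map_sub, map_sub, map_mul, map_mul, map_pow, ex_eps, ex_F a (pt j) (ht j) (hm j q) _ _ h4,
      ex_F a (pt j) (ht j) (hm j q) _ _ hη, ex_J a (pt j) (ht j) (hm j q) y η h θ hη hθ,
      map_mul, map_pow] at h5
    have h6 : ex (pt j) (up g) ^ 2 * ex (pt j) (eps k ^ (2 * (r + 1)) * w) =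
        ex (pt j) (up g) ^ 2 * (eps k ^ (m j q + 2 * r) * w') := by
      rw [← h5]
      have h7 : eps k ^ m j q * C.F (fun q x => ex (pt j) (upc a q x)) q
            (fun v => η v + eps k ^ r * ex (pt j) (up g) * θ v) -
          eps k ^ m j q * C.F (fun q x => ex (pt j) (upc a q x)) q η -
          ex (pt j) (up g) * (eps k ^ r *
            (eps k ^ m j q * ∑ v, C.J (fun q x => ex (pt j) (upc a q x)) q v η * θ v)) =
          eps k ^ m j q * (C.F (fun q x => ex (pt j) (upc a q x)) q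
            (fun v => η v + eps k ^ r * ex (pt j) (up g) * θ v) -
            C.F (fun q x => ex (pt j) (upc a q x)) q η -
            eps k ^ r * ex (pt j) (up g) *
              ∑ v, C.J (fun q x => ex (pt j) (upc a q x)) q v η * θ v) := by
        ring
      rw [h7, hw1, mul_pow, pow_add, ← pow_mul, mul_comm r 2]
      ring
    have h8 := mul_left_cancel₀ (pow_ne_zero 2 (ex_up_ne (hpt j))) h6
    rw [h8]
    refine (pow_dvd_pow _ ?_).trans (dvd_mul_right _ _)
    change r + 1 + m j q ≤ m j q + 2 * r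
    omega

include ht hm hpt in
/-- the derivative modulo `ε g` only depends on the point modulo `ε g` -/
theorem lat_congr_g {y l h : V → (PowerSeries k)[X]}
    (hy : ∀ j v, eps k ^ t j v ∣ ex (pt j) (y v))
    (hl : ∀ v, Lat pt (fun j => t j v) 0 (l v))
    (hh : ∀ v, Lat pt (fun j => t j v) 0 (h v)) (q : Q) :
    ∃ ρ, Lat pt (fun j => m j q) 1 ρ ∧
      JJ C a q (fun v => y v + up g * (eps k * l v)) h - JJ C a q y h = up g * ρ := by
  choose h' hh' using fun v => (hh v).dvd_eps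
  choose w hw using fun v => Cox.J_congr (C := C) (upc a) q v (eps k * up g) y l
  have h2 : (fun v => y v + eps k * up g * l v) = fun v => y v + up g * (eps k * l v) := by
    funext v
    ring
  simp only [h2] at hw
  have e1 : JJ C a q (fun v => y v + up g * (eps k * l v)) h - JJ C a q y h =
      up g * ∑ v, eps k ^ 2 * (w v * h' v) := by
    unfold JJ
    rw [← Finset.sum_sub_distrib, Finset.mul_sum]
    refine Finset.sum_congr rfl fun v _ => ?_
    rw [← sub_mul, hw v, hh' v]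
    ring
  refine ⟨_, ⟨?_, fun j => ?_⟩, e1⟩
  · exact Finset.dvd_sum fun v _ => dvd_mul_right _ _
  · choose η hη using hy j
    choose θ hθ using fun v => (hh v).dvd_ex j
    choose ξ hξ using fun v => (hl v).dvd_ex j
    choose w' hw' using fun v => Cox.J_congr (C := C) (fun q x => ex (pt j) (upc a q x)) q v
      (eps k * ex (pt j) (up g)) η ξ
    have h4 : ∀ v, ex (pt j) (y v + up g * (eps k * l v)) =
        eps k ^ t j v * (η v + eps k * ex (pt j) (up g) * ξ v) := by
      intro v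
      rw [map_add, map_mul, map_mul, ex_eps, hη v, hξ v]
      ring
    have h5 := congrArg (ex (pt j)) e1
    rw [map_sub, ex_J a (pt j) (ht j) (hm j q) _ _ h θ h4 hθ,
      ex_J a (pt j) (ht j) (hm j q) y η h θ hη hθ, map_mul] at h5
    have h6 : ex (pt j) (up g) * ex (pt j) (∑ v, eps k ^ 2 * (w v * h' v)) =
        ex (pt j) (up g) * (eps k ^ (1 + m j q) * ∑ v, w' v * θ v) := by
      rw [← h5, ← mul_sub, ← Finset.sum_sub_distrib]
      have h7 : ∀ v, C.J (fun q x => ex (pt j) (upc a q x)) q v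
            (fun v => η v + eps k * ex (pt j) (up g) * ξ v) * θ v -
          C.J (fun q x => ex (pt j) (upc a q x)) q v η * θ v =
          eps k * ex (pt j) (up g) * (w' v * θ v) := by
        intro v
        rw [← sub_mul, hw' v]
        ring
      rw [Finset.sum_congr rfl fun v _ => h7 v, ← Finset.mul_sum, pow_add, pow_one]
      ring
    rw [mul_left_cancel₀ (ex_up_ne (hpt j)) h6]
    exact dvd_mul_right _ _

omit [DecidableEq V] in
/-- the derivative modulo `g` only depends on the point modulo `g` -/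
theorem JJ_congr_g (y l h : V → (PowerSeries k)[X]) (q : Q) :
    up g ∣ JJ C a q (fun v => y v + up g * l v) h - JJ C a q y h := by
  unfold JJ
  rw [← Finset.sum_sub_distrib]
  refine Finset.dvd_sum fun v _ => ?_
  rw [← sub_mul]
  exact (Cox.J_congr _ _ _ _ _ _).mul_right _

end weights

section sub

variable {V Q X : Type} [Fintype V] {C : Cox V Q X} {k : Type*} [Field k]

/-- the vectors `h` with `g ∣ J_Y(h)` -/
def divSub (C : Cox V Q X) (a : Q → X → k[X]) (G : (PowerSeries k)[X])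
    (Y : V → (PowerSeries k)[X]) : Submodule (PowerSeries k) (V → (PowerSeries k)[X]) where
  carrier := {h | ∀ q, G ∣ JJ C a q Y h}
  add_mem' := fun ha hb q => by rw [JJ_add]; exact dvd_add (ha q) (hb q)
  zero_mem' := fun q => by
    unfold JJ
    simp
  smul_mem' := fun c h hh q => by
    rw [JJ_smul, smul_eq_C_mul]
    exact (hh q).mul_left _

theorem poly_tails_zero (z : ℕ → (PowerSeries k)[X]) (hz : ∀ r, z r = eps k * z (r + 1)) (r : ℕ) :
    z r = 0 := by
  ext1 i
  rw [coeff_zero]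
  refine tails_zero (fun r => (z r).coeff i) (fun r => ?_) r
  conv_lhs => rw [hz r]
  unfold eps
  rw [coeff_C_mul]

/-- divisibility by `g` is a closed condition -/
theorem dvd_lim {g : k[X]} (hg : g ≠ 0) (w z : ℕ → (PowerSeries k)[X]) {n : ℤ}
    (hd : ∀ r, DegLE (w r) n) (hw : ∀ r, up g ∣ w r) (hz : ∀ r, z r = w r + eps k * z (r + 1))
    (r : ℕ) : up g ∣ z r := by
  choose ψ hψ using hw
  obtain ⟨S, -, hS⟩ := exists_tails (n - g.natDegree + 1).toNat ψ (fun r => by
    refine (Polynomial.degree_lt_iff_coeff_zero _ _).2 fun i hi => ?_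
    have h1 := hd r
    rw [hψ r, degLE_up_mul hg] at h1
    exact h1 i (by omega))
  have h1 := poly_tails_zero (fun r => z r - up g * S r) (fun r => by
    rw [hz r, hψ r, hS r, smul_X]
    ring) r
  rw [sub_eq_zero.1 h1]
  exact dvd_mul_right _ _

theorem divSub_lim {a : Q → X → k[X]} {g : k[X]} (hg : g ≠ 0) {Y : V → (PowerSeries k)[X]}
    {n : Q → ℤ} (h S : ℕ → V → (PowerSeries k)[X])
    (hd : ∀ r q, DegLE (JJ C a q Y (h r)) (n q)) (hh : ∀ r, h r ∈ divSub C a (up g) Y)
    (hS : ∀ r, S r = h r + (PowerSeries.X : PowerSeries k) • S (r + 1)) (r : ℕ) :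
    S r ∈ divSub C a (up g) Y := by
  intro q
  refine dvd_lim hg (fun r => JJ C a q Y (h r)) (fun r => JJ C a q Y (S r)) (fun r => hd r q)
    (fun r => hh r q) (fun r => ?_) r
  conv_lhs => rw [hS r]
  rw [JJ_add, JJ_smul, smul_X]

/-- the lattice `g ^ e *` lattice -/
def mulSub {ι : Type*} (pt : ι → k) (m : ι → Q → ℕ) (E : Q → ℤ) (P : (PowerSeries k)[X]) :
    Submodule (PowerSeries k) (Q → (PowerSeries k)[X]) where
  carrier := {μ | ∀ q, DegLE (μ q) (E q) ∧ ∃ φ, Lat pt (fun j => m j q) 0 φ ∧ μ q = P * φ}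
  add_mem' := fun {μ μ'} ha hb q => by
    obtain ⟨φ, h1, h2⟩ := (ha q).2
    obtain ⟨φ', h1', h2'⟩ := (hb q).2
    exact ⟨(ha q).1.add (hb q).1, φ + φ', h1.add h1', by rw [Pi.add_apply, h2, h2']; ring⟩
  zero_mem' := fun q => ⟨DegLE.zero _, 0, Lat.zero _, by rw [mul_zero]; rfl⟩
  smul_mem' := fun c μ hμ q => by
    obtain ⟨φ, h1, h2⟩ := (hμ q).2
    rw [Pi.smul_apply, smul_eq_C_mul]
    exact ⟨(hμ q).1.C_mul c, Polynomial.C c * φ, h1.C_mul c, by rw [h2]; ring⟩

theorem mulSub_div {ι : Type*} {pt : ι → k} {m : ι → Q → ℕ} {E : Q → ℤ} {P : (PowerSeries k)[X]}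
    {s : ℕ} {μ : Q → (PowerSeries k)[X]} (hd : ∀ q, DegLE (μ q) (E q))
    (hμ : ∀ q, ∃ φ, Lat pt (fun j => m j q) s φ ∧ μ q = P * φ) :
    ∃ μ' ∈ mulSub pt m E P, μ = (PowerSeries.X : PowerSeries k) ^ s • μ' := by
  choose φ h1 h2 using hμ
  choose φ' h3 h4 using fun q => (h1 q).div
  refine ⟨fun q => P * φ' q, fun q => ⟨?_, φ' q, h4 q, rfl⟩, ?_⟩
  · have h5 := hd q
    have h6 : μ q = eps k ^ s * (P * φ' q) := by rw [h2 q, h3 q]; ring
    rw [h6] at h5
    exact degLE_of_eps_mul s h5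
  · funext q
    rw [Pi.smul_apply, smul_X_pow, h2 q, h3 q]
    ring

theorem sep_X (p : (Q → (PowerSeries k)[X]) → Prop) (μ : Q → (PowerSeries k)[X])
    (hμ : ∀ r : ℕ, ∃ μ', p μ' ∧ μ = (PowerSeries.X : PowerSeries k) ^ r • μ') : μ = 0 := by
  funext v
  ext i n
  obtain ⟨g', -, h⟩ := hμ (n + 1)
  rw [h, Pi.smul_apply, smul_X_pow, eps_pow, coeff_C_mul, Pi.zero_apply, coeff_zero, map_zero]
  exact PowerSeries.X_pow_dvd_iff.1 (dvd_mul_right _ _) n (Nat.lt_succ_self n)

end sub

section main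

variable {V Q X : Type} [Fintype V] [DecidableEq V] {C : Cox V Q X} {k : Type*} [Field k]
  {ι : Type*}

/-- Newton iteration in the comb lattice, with defect. -/
theorem comb_newton_g (a : Q → X → k[X]) (D : V → ℤ) (E : Q → ℤ)
    (hdeg : ∀ q, ∀ x ∈ C.supp q, DegLE (a q x) (E q - ∑ v, D v * C.e q x v))
    (pt : ι → k) (t : ι → V → ℕ) (ht : ∀ j, C.Rel (fun v => (t j v : ℤ))) (m : ι → Q → ℕ)
    (hm : ∀ j q, (m j q : ℤ) = C.m (fun v => (t j v : ℤ)) q)
    {g : k[X]} (hg : g ≠ 0) (hpt : ∀ j, g.eval (pt j) ≠ 0)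
    (Y1 : V → (PowerSeries k)[X]) (hY : ∀ v, DegLE (Y1 v) (D v))
    (hYt : ∀ j v, eps k ^ t j v ∣ ex (pt j) (Y1 v))
    (hF : ∀ q, ∃ φ, Lat pt (fun j => m j q) 1 φ ∧ C.F (upc a) q Y1 = up g ^ 2 * φ)
    (hF0 : ∀ q, lc (C.F (upc a) q Y1) (E q) = 0)
    (hsurj : ∀ φ : Q → (PowerSeries k)[X],
      (∀ q, DegLE (up g ^ 2 * φ q) (E q - 1) ∧ Lat pt (fun j => m j q) 0 (φ q)) →
      ∃ h : V → (PowerSeries k)[X], (∀ v, DegLE (up g * h v) (D v - 1) ∧
        Lat pt (fun j => t j v) 0 (h v)) ∧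
        ∀ q, ∃ ψ, Lat pt (fun j => m j q) 1 ψ ∧ JJ C a q Y1 h - up g * φ q = up g * ψ) :
    ∃ Y : V → (PowerSeries k)[X], (∀ v, DegLE (Y v - Y1 v) (D v - 1) ∧
      ∃ y, Lat pt (fun j => t j v) 1 y ∧ Y v - Y1 v = up g * y) ∧
      ∀ q, C.F (upc a) q Y = 0 := by
  classical
  let D' : V → ℤ := fun v => D v - 1 - g.natDegree
  let L := latSub pt t D' ⊓ divSub C a (up g) Y1
  let M := mulSub pt m (fun q => E q - 1) (up g ^ 2)
  have hG : ∀ {l : V → (PowerSeries k)[X]}, l ∈ L → ∀ v, DegLE (up g * l v) (D v - 1) :=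
    fun hl v => (degLE_up_mul hg).2 (hl.1 v).1
  have hG' : ∀ {l : V → (PowerSeries k)[X]}, l ∈ L → ∀ v, DegLE (l v) (D v - 1) :=
    fun hl v => (hl.1 v).1.mono (by simp only [D']; omega)
  -- membership of the points
  have hptY : ∀ y, (∃ l ∈ L, y = 0 + (PowerSeries.X : PowerSeries k) • l) →
      (∀ v, DegLE (Y1 v + up g * y v) (D v)) ∧
        ∀ j v, eps k ^ t j v ∣ ex (pt j) (Y1 v + up g * y v) := by
    rintro y ⟨l, hl, rfl⟩
    refine ⟨fun v => ?_, fun j v => ?_⟩
    · rw [zero_add, Pi.smul_apply, smul_X]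
      have h1 := ((hG hl v).eps_mul 1).mono (show D v - 1 ≤ D v by omega)
      rw [pow_one] at h1
      have h2 : up g * (eps k * l v) = eps k * (up g * l v) := by ring
      rw [h2]
      exact (hY v).add h1
    · rw [zero_add, Pi.smul_apply, smul_X, map_add, map_mul, map_mul]
      exact dvd_add (hYt j v) ((((hl.1 v).2.dvd_ex j).mul_left _).mul_left _)
  have hlim : ∀ h : ℕ → V → (PowerSeries k)[X], (∀ r, h r ∈ L) →
      ∃ S : ℕ → V → (PowerSeries k)[X], (∀ r, S r ∈ L) ∧
        ∀ r, S r = h r + (PowerSeries.X : PowerSeries k) • S (r + 1) := by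
    intro h hh
    obtain ⟨S, hS1, hS2⟩ := latSub_lim h (fun r => (hh r).1)
    exact ⟨S, fun r => ⟨hS1 r, divSub_lim hg h S
      (fun r q => deg_JJ a D E hdeg hY (hG' (hh r)) q) (fun r => (hh r).2) hS2 r⟩, hS2⟩
  have main : ∃ y, (∃ l ∈ L, y = 0 + (PowerSeries.X : PowerSeries k) • l) ∧
      (fun q => C.F (upc a) q fun v => Y1 v + up g * y v) = 0 := by
    refine newton (PowerSeries.X : PowerSeries k) L M hlim (sep_X (fun μ => μ ∈ M))
      (fun y q => C.F (upc a) q fun v => Y1 v + up g * y v)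
      (fun y h q => up g * JJ C a q (fun v => Y1 v + up g * y v) h) 0 ?_ ?_ ?_ ?_ ?_
    · obtain ⟨μ, hμ, h1⟩ := mulSub_div (E := fun q => E q - 1)
        (fun q => DegLE.pred (Cox.F_degLE (fun x hx => (hdeg q x hx).up) hY) (hF0 q)) hF
      refine ⟨μ, hμ, ?_⟩
      rw [pow_one] at h1
      rw [← h1]
      funext q
      change C.F (upc a) q (fun v => Y1 v + up g * 0) = _
      simp only [mul_zero, add_zero]
    · intro y hy r hr h hh
      obtain ⟨h1, h2⟩ := hptY y hy
      have h5 : ∀ q, up g * (eps k ^ r * JJ C a q (fun v => Y1 v + up g * y v) h) =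
          eps k ^ r * JJ C a q (fun v => Y1 v + up g * y v) (fun v => up g * h v) := by
        intro q
        unfold JJ
        rw [Finset.mul_sum, Finset.mul_sum, Finset.mul_sum]
        exact Finset.sum_congr rfl fun v _ => by ring
      have h6 : ∀ v, up g * (eps k ^ r * h v) = eps k ^ r * (up g * h v) := fun v => by ring
      obtain ⟨μ, hμ, h3⟩ := mulSub_div (m := m) (pt := pt) (P := up g ^ 2) (s := r + 1)
        (μ := fun q => C.F (upc a) q (fun v => Y1 v + up g * y v + up g * (eps k ^ r * h v)) -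
          C.F (upc a) q (fun v => Y1 v + up g * y v) -
          up g * (eps k ^ r * JJ C a q (fun v => Y1 v + up g * y v) h))
        (E := fun q => E q - 1)
        (fun q => by
          rw [h5 q]
          simp only [h6]
          exact deg_taylor a D E hdeg h1 (hG hh) q r)
        (fun q => lat_taylor_g a pt t ht m hm hpt h2 (fun v => (hh.1 v).2) q hr)
      refine ⟨μ, hμ, ?_⟩
      rw [← h3]
      funext q
      have e : (fun v => Y1 v + up g * (y + (PowerSeries.X : PowerSeries k) ^ r • h) v) =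
          fun v => Y1 v + up g * y v + up g * (eps k ^ r * h v) := by
        funext v
        rw [Pi.add_apply, Pi.smul_apply, smul_X_pow]
        ring
      simp only [Pi.add_apply, Pi.smul_apply, smul_X_pow] at e ⊢
      rw [e]
      ring
    · rintro y hy h hh q
      obtain ⟨h1, h2⟩ := hptY y hy
      obtain ⟨ψ, hψ⟩ : up g ∣ JJ C a q (fun v => Y1 v + up g * y v) h := by
        have h3 := dvd_add (JJ_congr_g (C := C) (g := g) a Y1 y h q) (hh.2 q)
        rwa [sub_add_cancel] at h3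
      refine ⟨?_, ψ, ?_, ?_⟩
      · have h3 : up g * JJ C a q (fun v => Y1 v + up g * y v) h =
            JJ C a q (fun v => Y1 v + up g * y v) (fun v => up g * h v) := by
          unfold JJ
          rw [Finset.mul_sum]
          exact Finset.sum_congr rfl fun v _ => by ring
        change DegLE (up g * JJ C a q (fun v => Y1 v + up g * y v) h) (E q - 1)
        rw [h3]
        exact deg_JJ a D E hdeg h1 (hG hh) q
      · refine Lat.cancel hg hpt ?_
        rw [← hψ]
        exact lat_JJ a pt t ht m hm h2 (fun v => (hh.1 v).2) q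
      · change up g * JJ C a q (fun v => Y1 v + up g * y v) h = _
        rw [hψ]
        ring
    · rintro y ⟨l, hl, hy⟩ h hh
      have hYY := hptY y ⟨l, hl, hy⟩
      have e : (fun v => Y1 v + up g * y v) = fun v => Y1 v + up g * (eps k * l v) := by
        funext v
        rw [hy, zero_add, Pi.smul_apply, smul_X]
      have hY0 : (fun v => Y1 v + up g * (0 : V → (PowerSeries k)[X]) v) = Y1 := by
        funext v
        rw [Pi.zero_apply, mul_zero, add_zero]
      have h3 : ∀ (Y : V → (PowerSeries k)[X]) q, up g * JJ C a q Y h =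
          JJ C a q Y (fun v => up g * h v) := by
        intro Y q
        unfold JJ
        rw [Finset.mul_sum]
        exact Finset.sum_congr rfl fun v _ => by ring
      obtain ⟨μ, hμ, h4⟩ := mulSub_div (m := m) (pt := pt) (P := up g ^ 2) (s := 1)
        (μ := fun q => up g * JJ C a q (fun v => Y1 v + up g * y v) h -
          up g * JJ C a q Y1 h) (E := fun q => E q - 1)
        (fun q => by
          rw [h3, h3]
          exact (deg_JJ a D E hdeg hYY.1 (hG hh) q).sub (deg_JJ a D E hdeg hY (hG hh) q))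
        (fun q => by
          obtain ⟨ρ, hρ, h5⟩ := lat_congr_g (C := C) a pt t ht m hm hpt hYt
            (fun v => (hl.1 v).2) (fun v => (hh.1 v).2) q
          refine ⟨ρ, hρ, ?_⟩
          rw [e, ← mul_sub, h5]
          ring)
      refine ⟨μ, hμ, ?_⟩
      rw [pow_one] at h4
      rw [← h4]
      funext q
      simp only [Pi.add_apply]
      rw [hY0]
      ring
    · intro μ hμ
      have hY0 : (fun v => Y1 v + up g * (0 : V → (PowerSeries k)[X]) v) = Y1 := by
        funext v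
        rw [Pi.zero_apply, mul_zero, add_zero]
      choose φ hφ1 hφ2 using fun q => (hμ q).2
      obtain ⟨h, hh, h1⟩ := hsurj φ fun q => ⟨by rw [← hφ2 q]; exact (hμ q).1, hφ1 q⟩
      have hL : h ∈ L := by
        refine ⟨fun v => ⟨(degLE_up_mul hg).1 (hh v).1, (hh v).2⟩, fun q => ?_⟩
        obtain ⟨ψ, -, h2⟩ := h1 q
        rw [sub_eq_iff_eq_add] at h2
        rw [h2]
        exact dvd_add (dvd_mul_right _ _) (dvd_mul_right _ _)
      obtain ⟨μ', hμ', h4⟩ := mulSub_div (m := m) (pt := pt) (P := up g ^ 2) (s := 1)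
        (μ := fun q => up g * JJ C a q Y1 h - μ q) (E := fun q => E q - 1)
        (fun q => by
          have h3 : up g * JJ C a q Y1 h = JJ C a q Y1 (fun v => up g * h v) := by
            unfold JJ
            rw [Finset.mul_sum]
            exact Finset.sum_congr rfl fun v _ => by ring
          rw [h3]
          exact (deg_JJ a D E hdeg hY (fun v => (hh v).1) q).sub (hμ q).1)
        (fun q => by
          obtain ⟨ψ, h2, h3⟩ := h1 q
          refine ⟨ψ, h2, ?_⟩
          rw [hφ2 q]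
          have h5 : up g * JJ C a q Y1 h - up g ^ 2 * φ q =
              up g * (JJ C a q Y1 h - up g * φ q) := by ring
          rw [h5, h3]
          ring)
      refine ⟨h, hL, μ', hμ', ?_⟩
      rw [pow_one] at h4
      rw [← h4]
      funext q
      simp only [Pi.add_apply]
      rw [hY0]
      ring
  obtain ⟨y, ⟨l, hl, hy⟩, hy0⟩ := main
  refine ⟨fun v => Y1 v + up g * y v, fun v => ?_, fun q => congrFun hy0 q⟩
  have h1 : y v = eps k ^ 1 * l v := by
    rw [hy, zero_add, Pi.smul_apply, smul_X, pow_one]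
  have h2 : Y1 v + up g * y v - Y1 v = up g * y v := by ring
  change DegLE (Y1 v + up g * y v - Y1 v) (D v - 1) ∧ ∃ y', _ ∧ Y1 v + up g * y v - Y1 v = _
  rw [h2]
  refine ⟨?_, y v, ?_, rfl⟩
  · rw [h1]
    have h3 : up g * (eps k ^ 1 * l v) = eps k ^ 1 * (up g * l v) := by ring
    rw [h3]
    exact (hG hl v).eps_mul 1
  · rw [h1]
    exact (hl.1 v).2.eps_mul 1

/-- The linearised equation at the solution, with defect: the multiples of `g` are reached exactly,
with top coefficients in Euler directions. -/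
theorem comb_linear_g (a : Q → X → k[X]) (D : V → ℤ) (E : Q → ℤ)
    (hdeg : ∀ q, ∀ x ∈ C.supp q, DegLE (a q x) (E q - ∑ v, D v * C.e q x v))
    (pt : ι → k) (t : ι → V → ℕ) (ht : ∀ j, C.Rel (fun v => (t j v : ℤ))) (m : ι → Q → ℕ)
    (hm : ∀ j q, (m j q : ℤ) = C.m (fun v => (t j v : ℤ)) q)
    {g : k[X]} (hg : g ≠ 0) (hpt : ∀ j, g.eval (pt j) ≠ 0)
    (Y1 : V → (PowerSeries k)[X]) (hY : ∀ v, DegLE (Y1 v) (D v))
    (hYt : ∀ j v, eps k ^ t j v ∣ ex (pt j) (Y1 v))
    (Y : V → (PowerSeries k)[X]) (hYY : ∀ v, DegLE (Y v - Y1 v) (D v - 1) ∧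
      ∃ y, Lat pt (fun j => t j v) 1 y ∧ Y v - Y1 v = up g * y)
    (hF : ∀ q, C.F (upc a) q Y = 0)
    (hsurj : ∀ φ : Q → (PowerSeries k)[X],
      (∀ q, DegLE (up g * φ q) (E q - 2) ∧ Lat pt (fun j => m j q) 0 (φ q)) →
      ∃ (h : V → (PowerSeries k)[X]) (γ : V → PowerSeries k), C.Eul γ ∧
        (∀ v, DegLE (h v) (D v - 1) ∧ Lat pt (fun j => t j v) 0 (h v) ∧
          lc (h v) (D v - 1) = γ v * lc (Y1 v) (D v)) ∧
        ∀ q, ∃ ψ, Lat pt (fun j => m j q) 1 ψ ∧ JJ C a q Y1 h - up g * φ q = up g * ψ) :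
    ∀ φ : Q → (PowerSeries k)[X],
      (∀ q, DegLE (up g * φ q) (E q - 2) ∧ Lat pt (fun j => m j q) 0 (φ q)) →
      ∃ (h : V → (PowerSeries k)[X]) (γ : V → PowerSeries k), C.Eul γ ∧
        (∀ v, DegLE (h v) (D v - 1) ∧ Lat pt (fun j => t j v) 0 (h v) ∧
          lc (h v) (D v - 1) = γ v * lc (Y1 v) (D v)) ∧
        ∀ q, JJ C a q Y h = up g * φ q := by
  classical
  -- the solution
  have hlc : ∀ v, lc (Y v) (D v) = lc (Y1 v) (D v) := by
    intro v
    have h1 := lc_of_degLE (hYY v).1 (n := D v) (by omega)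
    rw [lc_sub, sub_eq_zero] at h1
    exact h1
  have hYd : ∀ v, DegLE (Y v) (D v) := by
    intro v
    have h1 := ((hYY v).1.mono (show D v - 1 ≤ D v by omega)).add (hY v)
    rwa [sub_add_cancel] at h1
  choose y hy hy' using fun v => (hYY v).2
  choose l hl1 hl2 using fun v => (hy v).div
  have e : Y = fun v => Y1 v + up g * (eps k * l v) := by
    funext v
    have h1 := hy' v
    rw [hl1 v, pow_one] at h1
    rw [← h1]
    ring
  have e' : (fun v => Y1 v + up g * y v) = Y := by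
    funext v
    rw [← hy' v]
    ring
  have hYe : ∀ j v, eps k ^ t j v ∣ ex (pt j) (Y v) := by
    intro j v
    rw [e, map_add, map_mul, map_mul]
    exact dvd_add (hYt j v) ((((hl2 v).dvd_ex j).mul_left _).mul_left _)
  have hdvd : ∀ h q, up g ∣ JJ C a q Y h ↔ up g ∣ JJ C a q Y1 h := by
    intro h q
    have h1 := JJ_congr_g (C := C) (g := g) a Y1 y h q
    rw [e'] at h1
    constructor
    · intro h2
      have h3 := dvd_sub h2 h1
      rwa [sub_sub_cancel] at h3
    · intro h2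
      have h3 := dvd_add h1 h2
      rwa [sub_add_cancel] at h3
  let L := pairSub C pt t D (fun v => lc (Y1 v) (D v)) ⊓
    (divSub C a (up g) Y).comap (LinearMap.fst (PowerSeries k) _ _)
  let M := mulSub pt m (fun q => E q - 2) (up g)
  have hM : ∀ p ∈ L, (fun q => JJ C a q Y p.1) ∈ M := by
    intro p hp q
    obtain ⟨ψ, hψ⟩ : up g ∣ JJ C a q Y p.1 := hp.2 q
    refine ⟨deg_JJ2 a D E hdeg hYd (fun v => (hp.1.1 v).1) ?_ hp.1.2.1 (fun v => ?_), ψ, ?_, hψ⟩
    · rw [hF q]
      unfold lc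
      simp
    · rw [hlc v]
      exact hp.1.2.2 v
    · refine Lat.cancel hg hpt ?_
      rw [← hψ]
      exact lat_JJ a pt t ht m hm hYe (fun v => (hp.1.1 v).2) q
  have hlim : ∀ h : ℕ → (V → (PowerSeries k)[X]) × (V → PowerSeries k), (∀ r, h r ∈ L) →
      ∃ S : ℕ → (V → (PowerSeries k)[X]) × (V → PowerSeries k), (∀ r, S r ∈ L) ∧
        ∀ r, S r = h r + (PowerSeries.X : PowerSeries k) • S (r + 1) := by
    intro h hh
    obtain ⟨S, hS1, hS2⟩ := pairSub_lim h (fun r => (hh r).1)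
    exact ⟨S, fun r => ⟨hS1 r, divSub_lim hg (fun r => (h r).1) (fun r => (S r).1)
      (fun r q => deg_JJ a D E hdeg hYd (fun v => ((hh r).1.1 v).1) q) (fun r => (hh r).2)
      (fun r => congrArg Prod.fst (hS2 r)) r⟩, hS2⟩
  -- approximate solutions
  have happ : ∀ μ ∈ M, ∃ p ∈ L, ∃ μ' ∈ M,
      (fun q => JJ C a q Y p.1) = μ + (PowerSeries.X : PowerSeries k) • μ' := by
    intro μ hμ
    choose φ hφ1 hφ2 using fun q => (hμ q).2
    obtain ⟨h, γ, h1, h2, h3⟩ := hsurj φ fun q => ⟨by rw [← hφ2 q]; exact (hμ q).1, hφ1 q⟩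
    have hp : ((h, γ) : (V → (PowerSeries k)[X]) × (V → PowerSeries k)) ∈ L := by
      refine ⟨⟨fun v => ⟨(h2 v).1, (h2 v).2.1⟩, h1, fun v => (h2 v).2.2⟩, fun q => ?_⟩
      change up g ∣ JJ C a q Y h
      rw [hdvd]
      obtain ⟨ψ, -, h4⟩ := h3 q
      rw [sub_eq_iff_eq_add] at h4
      rw [h4]
      exact dvd_add (dvd_mul_right _ _) (dvd_mul_right _ _)
    obtain ⟨μ', hμ', h4⟩ := mulSub_div (m := m) (pt := pt) (P := up g) (s := 1)
      (μ := fun q => JJ C a q Y h - μ q) (E := fun q => E q - 2)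
      (fun q => (hM _ hp q).1.sub (hμ q).1)
      (fun q => by
        obtain ⟨ψ, h5, h6⟩ := h3 q
        obtain ⟨ρ, h7, h8⟩ := lat_congr_g (C := C) a pt t ht m hm hpt hYt hl2
          (fun v => (h2 v).2.1) q
        refine ⟨ρ + ψ, h7.add h5, ?_⟩
        have h9 : JJ C a q Y h - μ q = (JJ C a q (fun v => Y1 v + up g * (eps k * l v)) h -
            JJ C a q Y1 h) + (JJ C a q Y1 h - up g * φ q) := by
          rw [← e, hφ2 q]
          ring
        rw [h9, h8, h6]
        ring)
    refine ⟨(h, γ), hp, μ', hμ', ?_⟩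
    rw [pow_one] at h4
    rw [← h4]
    funext q
    simp only [Pi.add_apply]
    ring
  intro φ hφ
  have hg' : (fun q => up g * φ q) ∈ M := fun q => ⟨(hφ q).1, φ q, (hφ q).2, rfl⟩
  obtain ⟨p0, hp0, g0, hg0, h0⟩ := happ _ hg'
  have main : ∃ p, (∃ l ∈ L, p = p0 + (PowerSeries.X : PowerSeries k) • l) ∧
      (fun q => JJ C a q Y p.1 - up g * φ q) = 0 := by
    refine newton (PowerSeries.X : PowerSeries k) L M hlim (sep_X (fun μ => μ ∈ M))
      (fun p q => JJ C a q Y p.1 - up g * φ q) (fun _ p q => JJ C a q Y p.1) p0 ?_ ?_ ?_ ?_ ?_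
    · refine ⟨g0, hg0, ?_⟩
      funext q
      have h1 := congrFun h0 q
      simp only [Pi.add_apply] at h1
      change JJ C a q Y p0.1 - up g * φ q = _
      rw [h1]
      ring
    · intro p _ r _ p' _
      refine ⟨0, M.zero_mem, ?_⟩
      rw [smul_zero, add_zero]
      funext q
      change JJ C a q Y (p.1 + (PowerSeries.X : PowerSeries k) ^ r • p'.1) - up g * φ q =
        JJ C a q Y p.1 - up g * φ q + (PowerSeries.X : PowerSeries k) ^ r • JJ C a q Y p'.1
      rw [JJ_add, JJ_smul]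
      ring
    · exact fun _ _ p hp => hM p hp
    · intro _ _ p _
      exact ⟨0, M.zero_mem, by rw [smul_zero, add_zero]⟩
    · intro g' hg'
      exact happ g' hg'
  obtain ⟨p, ⟨l', hl', rfl⟩, hp⟩ := main
  have hpL : p0 + (PowerSeries.X : PowerSeries k) • l' ∈ L :=
    L.add_mem hp0 (L.smul_mem _ hl')
  exact ⟨_, _, hpL.1.2.1, fun v => ⟨(hpL.1.1 v).1, (hpL.1.1 v).2, hpL.1.2.2 v⟩,
    fun q => sub_eq_zero.1 (congrFun hp q)⟩

end main

end Pool.Agent.Work.WRC
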