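import Mathlib
import Pool.Agent.Work.MP_4329d7_ag_wrc.Cox

/-!
# Natural relations spanning the Euler vectors

`exists_rels`: for a type `m : V → ℕ` there are finitely many relations `γ i : V → ℕ`, vanishing where
`m` vanishes, such that over every field of characteristic zero all Euler vectors vanishing where `m`
vanishes are combinations of them.
-/

namespace Pool.Agent.Work.WRC

universe u

variable {V Q X : Type} [Fintype V] {C : Cox V Q X}

/-- a rational Euler vector has an integral multiple -/
theorem exists_int_mul (c : V → ℚ) : ∃ (N : ℕ) (z : V → ℤ), N ≠ 0 ∧ ∀ v, (z v : ℚ) = N * c v := by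
  classical
  refine ⟨∏ v, (c v).den, fun v => (∏ w ∈ Finset.univ.erase v, (c w).den : ℕ) * (c v).num, ?_, ?_⟩
  · exact Finset.prod_ne_zero_iff.2 fun v _ => (c v).den_nz
  · intro v
    rw [← Finset.mul_prod_erase Finset.univ (fun v => (c v).den) (Finset.mem_univ v)]
    push_cast
    have h1 : ((c v).den : ℚ) * c v = (c v).num := Rat.den_mul_eq_num (c v)
    rw [← h1]
    ring

/-- a rational Euler vector vanishing where `m` vanishes is a difference of natural ones, up to a
factor -/
theorem exists_nat_rel {m : V → ℕ} (hm : C.Rel fun v => (m v : ℤ)) {c : V → ℚ} (hc : C.Eul c)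
    (h0 : ∀ v, m v = 0 → c v = 0) :
    ∃ (N M : ℕ) (z : V → ℕ), N ≠ 0 ∧ C.Rel (fun v => (z v : ℤ)) ∧ (∀ v, m v = 0 → z v = 0) ∧
      ∀ v, (z v : ℚ) = N * c v + M * m v := by
  classical
  obtain ⟨N, z, hN, hz⟩ := exists_int_mul c
  have hz0 : ∀ v, m v = 0 → z v = 0 := by
    intro v hv
    have h1 := hz v
    rw [h0 v hv, mul_zero] at h1
    exact_mod_cast h1
  have hzr : C.Rel z := by
    intro i
    have h1 := hc i
    have h2 : ((∑ v, C.ray v i * z v : ℤ) : ℚ) = 0 := by
      push_cast
      have h3 : ∀ v, (C.ray v i : ℚ) * (z v : ℚ) = N * ((C.ray v i : ℚ) * c v) := fun v => by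
        rw [hz v]; ring
      rw [Finset.sum_congr rfl fun v _ => h3 v, ← Finset.mul_sum, h1, mul_zero]
    exact_mod_cast h2
  let M : ℕ := ∑ v, (z v).natAbs
  have hM : ∀ v, (z v).natAbs ≤ M := fun v =>
    Finset.single_le_sum (f := fun v => (z v).natAbs) (fun _ _ => Nat.zero_le _)
      (Finset.mem_univ v)
  have hpos : ∀ v, 0 ≤ z v + M * m v := by
    intro v
    rcases Nat.eq_zero_or_pos (m v) with h | h
    · rw [hz0 v h, h]; simp
    · have h1 : (M : ℤ) * 1 ≤ M * m v := by
        refine mul_le_mul_of_nonneg_left ?_ (Int.natCast_nonneg M)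
        exact_mod_cast h
      have h2 := hM v
      omega
  refine ⟨N, M, fun v => (z v + M * m v).toNat, hN, ?_, ?_, ?_⟩
  · intro i
    have h1 : ∀ v, C.ray v i * (((z v + M * m v).toNat : ℕ) : ℤ) =
        C.ray v i * z v + M * (C.ray v i * m v) := fun v => by
      rw [Int.toNat_of_nonneg (hpos v)]; ring
    rw [Finset.sum_congr rfl fun v _ => h1 v, Finset.sum_add_distrib, ← Finset.mul_sum, hzr i,
      hm i]
    ring
  · intro v hv
    show (z v + M * m v).toNat = 0
    rw [hz0 v hv, hv]; simp
  · intro v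
    have h1 : (((z v + M * m v).toNat : ℕ) : ℤ) = z v + M * m v := Int.toNat_of_nonneg (hpos v)
    have h2 : ((((z v + M * m v).toNat : ℕ) : ℤ) : ℚ) = ((z v + M * m v : ℤ) : ℚ) := by rw [h1]
    push_cast at h2
    rw [h2, hz v]

/-- the rational Euler vectors vanishing where `m` vanishes -/
def ratEul (C : Cox V Q X) (m : V → ℕ) : Submodule ℚ (V → ℚ) where
  carrier := {c | C.Eul c ∧ ∀ v, m v = 0 → c v = 0}
  add_mem' := by
    rintro a b ⟨ha, ha'⟩ ⟨hb, hb'⟩
    refine ⟨fun i => ?_, fun v hv => ?_⟩
    · simp only [Pi.add_apply, mul_add, Finset.sum_add_distrib]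
      rw [ha i, hb i, add_zero]
    · simp [ha' v hv, hb' v hv]
  zero_mem' := ⟨fun i => by simp, fun v _ => rfl⟩
  smul_mem' := by
    rintro t a ⟨ha, ha'⟩
    refine ⟨fun i => ?_, fun v hv => ?_⟩
    · have h1 : ∀ v, (C.ray v i : ℚ) * (t • a) v = t * ((C.ray v i : ℚ) * a v) := fun v => by
        rw [Pi.smul_apply, smul_eq_mul]; ring
      rw [Finset.sum_congr rfl fun v _ => h1 v, ← Finset.mul_sum, ha i, mul_zero]
    · simp [ha' v hv]

/-- **Natural relations spanning the Euler vectors.** -/
theorem exists_rels {m : V → ℕ} (hm : C.Rel fun v => (m v : ℤ)) :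
    ∃ (I : Type) (_ : Fintype I) (_ : DecidableEq I) (γ : I → V → ℕ),
      (∀ i, C.Rel fun v => (γ i v : ℤ)) ∧ (∀ i v, m v = 0 → γ i v = 0) ∧
      ∀ (k : Type u) [Field k] [CharZero k] (c : V → k), C.Eul c → (∀ v, m v = 0 → c v = 0) →
        ∃ μ : I → k, ∀ v, c v = ∑ i, μ i * (γ i v : k) := by
  classical
  -- a finite rational basis
  let W := ratEul C m
  let B := Module.finBasis ℚ W
  have hB : ∀ i, C.Eul (B i : V → ℚ) ∧ ∀ v, m v = 0 → (B i : V → ℚ) v = 0 := fun i => (B i).2
  choose N M z hN hz1 hz2 hz3 using fun i => exists_nat_rel hm (hB i).1 (hB i).2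
  refine ⟨Option (Fin (Module.finrank ℚ W)), inferInstance, inferInstance,
    fun i => i.elim m z, ?_, ?_, ?_⟩
  · rintro (_ | i)
    · exact hm
    · exact hz1 i
  · rintro (_ | i) v hv
    · exact hv
    · exact hz2 i v hv
  · intro k _ _ c hc h0
    -- the coordinates of `c` over the rationals
    let b := Module.Basis.ofVectorSpace ℚ k
    have hsum : ∀ v, c v = (b.repr (c v)).sum fun j t => t • b j := fun v =>
      (b.linearCombination_repr (c v)).symm
    let T : Finset _ := Finset.univ.biUnion fun v => (b.repr (c v)).support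
    have hsum' : ∀ v, c v = ∑ j ∈ T, ((b.repr (c v) j : ℚ) : k) * b j := by
      intro v
      have e1 : ∑ j ∈ T, ((b.repr (c v) j : ℚ) : k) * b j = ∑ j ∈ T, b.repr (c v) j • b j :=
        Finset.sum_congr rfl fun j _ => by rw [Rat.smul_def]
      rw [e1]
      nth_rewrite 1 [hsum v]
      rw [Finsupp.sum]
      refine Finset.sum_subset (Finset.subset_biUnion_of_mem (fun v => (b.repr (c v)).support)
        (Finset.mem_univ v)) ?_
      intro j _ hj
      rw [Finsupp.notMem_support_iff.1 hj, zero_smul]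
    have hE : ∀ j, C.Eul (fun v => b.repr (c v) j) ∧ ∀ v, m v = 0 → b.repr (c v) j = 0 := by
      intro j
      refine ⟨fun i => ?_, fun v hv => by rw [h0 v hv]; simp⟩
      have h1 := congrArg (fun y => b.repr y j) (hc i)
      simp only [map_sum, map_zero, Finsupp.coe_finsetSum, Finset.sum_apply, Finsupp.coe_zero,
        Pi.zero_apply] at h1
      rw [← h1]
      refine Finset.sum_congr rfl fun v _ => ?_
      have h2 : ((C.ray v i : ℤ) : k) * c v = ((C.ray v i : ℤ) : ℚ) • c v := by
        rw [Rat.smul_def]; push_cast; rfl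
      rw [h2, map_smul, Finsupp.smul_apply, smul_eq_mul]
    -- each coordinate is a combination of the basis
    have hcomb : ∀ j, ∃ μ : Option (Fin (Module.finrank ℚ W)) → ℚ, ∀ v,
        b.repr (c v) j = ∑ i, μ i * ((i.elim m z v : ℕ) : ℚ) := by
      intro j
      let w : W := ⟨fun v => b.repr (c v) j, hE j⟩
      have h1 : ∀ v, b.repr (c v) j = ∑ i, B.repr w i * (B i : V → ℚ) v := by
        intro v
        have h2 := congrArg (fun y : W => (y : V → ℚ) v) (B.sum_repr w)
        simp only [AddSubmonoidClass.coe_finsetSum, SetLike.val_smul, Finset.sum_apply,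
          Pi.smul_apply, smul_eq_mul] at h2
        exact h2.symm
      refine ⟨fun i => i.elim (-∑ i, B.repr w i / N i * M i) fun i => B.repr w i / N i,
        fun v => ?_⟩
      rw [h1 v, Fintype.sum_option]
      simp only [Option.elim]
      have h3 : ∀ i, B.repr w i * (B i : V → ℚ) v =
          B.repr w i / N i * (z i v : ℚ) - B.repr w i / N i * M i * m v := by
        intro i
        have h4 : (N i : ℚ) ≠ 0 := by exact_mod_cast hN i
        rw [hz3 i v]
        field_simp
        ring
      rw [Finset.sum_congr rfl fun i _ => h3 i, Finset.sum_sub_distrib, ← Finset.sum_mul]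
      ring
    choose μ hμ using hcomb
    refine ⟨fun i => ∑ j ∈ T, ((μ j i : ℚ) : k) * b j, fun v => ?_⟩
    rw [hsum' v]
    simp only [Finset.sum_mul]
    rw [Finset.sum_comm]
    refine Finset.sum_congr rfl fun j _ => ?_
    rw [hμ j v]
    push_cast
    rw [Finset.sum_mul]
    exact Finset.sum_congr rfl fun i _ => by ring

end Pool.Agent.Work.WRC
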