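import Mathlib
import Pool.Agent.Work.MP_4329d7_ag_wrc.KLat

/-!
# Interpolation in the lattices

`exists_E`: polynomials of small degree with prescribed residues at the points of the comb.
`exists_lat`: an element of `Lat` of level `0` with prescribed reductions `z` (along the handle) and
`ω j` (along the teeth).
-/

namespace Pool.Agent.Work.WRC

open Polynomial

section
variable {k : Type*} [Field k] {ι : Type*} [Fintype ι] [DecidableEq ι]

theorem exists_E (pt : ι → k) (hpt : Function.Injective pt) (t : ι → ℕ) (j : ι) (l : ℕ) :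
    ∃ E : k[X], DegLE E ((∑ i, (t i - 1 : ℕ) : ℕ) - 1 : ℤ) ∧
      (∃ r, E = (X - C (pt j)) ^ l + (X - C (pt j)) ^ (t j - 1) * r) ∧
      ∀ i, i ≠ j → ∃ r, E = (X - C (pt i)) ^ (t i - 1) * r := by
  classical
  let W : k[X] := ∏ i, (X - C (pt i)) ^ (t i - 1)
  have hWm : W.Monic := monic_prod_of_monic _ _ fun i _ => (monic_X_sub_C _).pow _
  have hWd : W.natDegree = ∑ i, (t i - 1) := by
    rw [natDegree_prod_of_monic _ _ fun i _ => (monic_X_sub_C _).pow _]
    refine Finset.sum_congr rfl fun i _ => ?_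
    rw [(monic_X_sub_C (pt i)).natDegree_pow, natDegree_X_sub_C, mul_one]
  let P : k[X] := ∏ i ∈ Finset.univ.erase j, (X - C (pt i)) ^ (t i - 1)
  have hcop : IsCoprime P ((X - C (pt j)) ^ (t j - 1)) := by
    refine IsCoprime.prod_left fun i hi => ?_
    refine IsCoprime.pow ?_
    exact isCoprime_X_sub_C_of_isUnit_sub
      (sub_ne_zero.2 fun h => Finset.ne_of_mem_erase hi (hpt h)).isUnit
  obtain ⟨u, v, huv⟩ := hcop
  let E0 : k[X] := (X - C (pt j)) ^ l * (u * P)
  have hWdvd : ∀ i, (X - C (pt i)) ^ (t i - 1) ∣ W := fun i =>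
    Finset.dvd_prod_of_mem (fun i => (X - C (pt i)) ^ (t i - 1)) (Finset.mem_univ i)
  have hE : E0 %ₘ W = E0 - W * (E0 /ₘ W) := by
    exact eq_sub_of_add_eq (modByMonic_add_div E0 W)
  refine ⟨E0 %ₘ W, ?_, ?_, ?_⟩
  · by_cases hW1 : W = 1
    · rw [hW1, modByMonic_one]; exact DegLE.zero _
    · have h1 := natDegree_modByMonic_lt E0 hWm hW1
      rw [hWd] at h1
      refine (DegLE.natDegree _).mono ?_
      omega
  · obtain ⟨w, hw⟩ := hWdvd j
    refine ⟨-((X - C (pt j)) ^ l * v) - w * (E0 /ₘ W), ?_⟩
    rw [hE]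
    have h2 : u * P = 1 - v * (X - C (pt j)) ^ (t j - 1) := by rw [← huv]; ring
    show (X - C (pt j)) ^ l * (u * P) - W * (E0 /ₘ W) = _
    rw [h2]
    nth_rewrite 1 [hw]
    ring
  · intro i hi
    obtain ⟨w, hw⟩ := hWdvd i
    have h3 : (X - C (pt i)) ^ (t i - 1) ∣ P :=
      Finset.dvd_prod_of_mem (fun i => (X - C (pt i)) ^ (t i - 1))
        (Finset.mem_erase.2 ⟨hi, Finset.mem_univ i⟩)
    obtain ⟨p, hp⟩ := h3
    refine ⟨(X - C (pt j)) ^ l * (u * p) - w * (E0 /ₘ W), ?_⟩
    rw [hE]
    show (X - C (pt j)) ^ l * (u * P) - W * (E0 /ₘ W) = _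
    rw [hp]
    nth_rewrite 1 [hw]
    ring

theorem ex_up_pow (a : k) (e : ℕ) (r : k[X]) :
    ex a (up ((X - C a) ^ e * r)) = eps k ^ e * (X ^ e * ex a (up r)) := by
  have h1 : ex a (up (X - C a)) = eps k * X := by
    unfold up
    simp only [coe_mapRingHom, map_X, map_C, map_sub, ex_X, ex_C]
    ring
  rw [map_mul, map_mul, map_pow, map_pow, h1, mul_pow]
  ring

/-- vanishing of the first Taylor coefficients -/
theorem dvd_of_taylor {a : k} {z : k[X]} {e : ℕ} (h : ∀ l < e, (taylor a z).coeff l = 0) :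
    ∃ r, z = (X - C a) ^ e * r := by
  have h1 : X ^ e ∣ taylor a z := X_pow_dvd_iff.2 fun d hd => h d hd
  obtain ⟨r, hr⟩ := h1
  refine ⟨taylor (-a) r, ?_⟩
  have h2 := congrArg (taylor (-a)) hr
  rw [taylor_taylor, neg_add_cancel, taylor_zero, taylor_mul, taylor_X_pow] at h2
  rw [h2, C_neg, sub_eq_add_neg]

/-- The element of the lattice with prescribed reductions. -/
theorem exists_lat (pt : ι → k) (hpt : Function.Injective pt) (t : ι → ℕ) (D : ℤ)
    (hD : ((∑ i, (t i - 1 : ℕ) : ℕ) : ℤ) ≤ D + 1) (z : k[X]) (hz : DegLE z D)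
    (ω : ι → k[X]) (hzt : ∀ j l, l + 2 ≤ t j → (taylor (pt j) z).coeff l = 0)
    (hω : ∀ j l, t j ≤ l → (ω j).coeff l = 0)
    (hωt : ∀ j l, l + 1 = t j → (ω j).coeff l = (taylor (pt j) z).coeff l) :
    ∃ g : (PowerSeries k)[X], DegLE g D ∧ (∃ z', g = eps k * z' ∧ red z' = z) ∧
      (∀ j, ∃ w', ex (pt j) g = eps k ^ t j * w' ∧ red w' = ω j) ∧
      ((((∑ i, (t i - 1 : ℕ) : ℕ) : ℤ) < D + 1 ∨ D < 0) →
        lc g D = PowerSeries.X * PowerSeries.C (lc z D)) := by
  classical
  choose E hEd hEj hEi using fun j : ι => fun l : ℕ => exists_E pt hpt t j l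
  let term : ι → ℕ → (PowerSeries k)[X] := fun j l =>
    eps k ^ (t j - l) * up (C ((ω j).coeff l) * E j l)
  let S : (PowerSeries k)[X] := ∑ j, ∑ l ∈ Finset.range (t j - 1), term j l
  refine ⟨eps k * up z + S, ?_, ?_, ?_, ?_⟩
  · refine DegLE.add ?_ (DegLE.sum fun j _ => DegLE.sum fun l _ => ?_)
    · have := hz.up.eps_mul (k := k) 1
      rwa [pow_one] at this
    · refine DegLE.eps_mul _ (DegLE.up ?_)
      exact ((hEd j l).C_mul _).mono (by omega)
  · refine ⟨up z + ∑ j, ∑ l ∈ Finset.range (t j - 1),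
      eps k ^ (t j - l - 1) * up (C ((ω j).coeff l) * E j l), ?_, ?_⟩
    · rw [mul_add, Finset.mul_sum]
      congr 1
      refine Finset.sum_congr rfl fun j _ => ?_
      rw [Finset.mul_sum]
      refine Finset.sum_congr rfl fun l hl => ?_
      have hl' := Finset.mem_range.1 hl
      show eps k ^ (t j - l) * _ = _
      rw [← mul_assoc, ← pow_succ']
      congr 2
      omega
    · rw [map_add, red_up, map_sum]
      have h0 : ∀ j, red (∑ l ∈ Finset.range (t j - 1),
          eps k ^ (t j - l - 1) * up (C ((ω j).coeff l) * E j l)) = 0 := by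
        intro j
        rw [map_sum]
        refine Finset.sum_eq_zero fun l hl => ?_
        have hl' := Finset.mem_range.1 hl
        rw [map_mul, map_pow, red_eps, zero_pow (by omega), zero_mul]
      rw [Finset.sum_congr rfl fun j _ => h0 j, Finset.sum_const_zero, add_zero]
  · intro j0
    -- the handle part
    have hA : ∃ w', ex (pt j0) (eps k * up z) = eps k ^ t j0 * w' ∧
        red w' = if 1 ≤ t j0 then C ((ω j0).coeff (t j0 - 1)) * X ^ (t j0 - 1) else 0 := by
      by_cases h1 : 1 ≤ t j0
      · obtain ⟨r, hr⟩ := dvd_of_taylor (a := pt j0) (z := z) (e := t j0 - 1)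
          fun l hl => hzt j0 l (by omega)
        refine ⟨X ^ (t j0 - 1) * ex (pt j0) (up r), ?_, ?_⟩
        · rw [map_mul, ex_eps]
          nth_rewrite 1 [hr]
          rw [ex_up_pow, ← mul_assoc, ← pow_succ', Nat.sub_add_cancel h1]
        · rw [if_pos h1, map_mul, map_pow, red_ex, red_up]
          have h2 : red (X : (PowerSeries k)[X]) = X := by unfold red; simp
          rw [h2, hωt j0 (t j0 - 1) (by omega), mul_comm]
          congr 2
          -- the Taylor coefficient
          rw [hr, taylor_mul, taylor_pow]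
          have h3 : taylor (pt j0) (X - C (pt j0)) = X := by
            rw [map_sub, taylor_X, taylor_C]; ring
          rw [h3, mul_comm, coeff_mul_X_pow', if_pos le_rfl, Nat.sub_self, taylor_coeff_zero]
      · refine ⟨ex (pt j0) (eps k * up z), ?_, ?_⟩
        · have h0 : t j0 = 0 := by omega
          rw [h0, pow_zero, one_mul]
        · rw [if_neg h1, map_mul, ex_eps, map_mul, red_eps, zero_mul]
    -- the terms
    have hB : ∀ j l, l < t j - 1 → ∃ w', ex (pt j0) (term j l) = eps k ^ t j0 * w' ∧
        red w' = if j = j0 then C ((ω j0).coeff l) * X ^ l else 0 := by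
      intro j l hl
      by_cases hj : j = j0
      · subst hj
        obtain ⟨r, hr⟩ := hEj j l
        refine ⟨C (PowerSeries.C ((ω j).coeff l)) * (X ^ l + eps k ^ (t j - 1 - l) *
          (X ^ (t j - 1) * ex (pt j) (up r))), ?_, ?_⟩
        · show ex (pt j) (eps k ^ (t j - l) * up (C ((ω j).coeff l) * E j l)) = _
          have h4 : up (C ((ω j).coeff l)) = C (PowerSeries.C ((ω j).coeff l)) := by
            unfold up; simp
          have h5 : ex (pt j) (up (E j l)) = eps k ^ l * X ^ l +
              eps k ^ (t j - 1) * (X ^ (t j - 1) * ex (pt j) (up r)) := by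
            rw [hr, map_add, map_add, ex_up_pow]
            congr 1
            have := ex_up_pow (pt j) l (1 : k[X])
            rw [mul_one, map_one, map_one, mul_one] at this
            exact this
          rw [map_mul, map_mul, map_mul, map_pow, ex_eps, h4, ex_C, h5]
          have h6 : eps k ^ (t j) = eps k ^ (t j - l) * eps k ^ l := by
            rw [← pow_add]; congr 1; omega
          have h7 : eps k ^ (t j - 1) = eps k ^ l * eps k ^ (t j - 1 - l) := by
            rw [← pow_add]; congr 1; omega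
          rw [h6, h7]
          ring
        · rw [if_pos rfl, map_mul, map_add, map_mul, map_pow, map_pow, red_eps,
            zero_pow (by omega), zero_mul, add_zero]
          unfold red; simp
      · obtain ⟨r, hr⟩ := hEi j l j0 (fun h => hj h.symm)
        refine ⟨eps k ^ (t j - l + (t j0 - 1) - t j0) *
          (ex (pt j0) (up (C ((ω j).coeff l))) * (X ^ (t j0 - 1) * ex (pt j0) (up r))), ?_, ?_⟩
        · show ex (pt j0) (eps k ^ (t j - l) * up (C ((ω j).coeff l) * E j l)) = _
          rw [map_mul, map_mul, map_mul, map_pow, ex_eps, hr, ex_up_pow]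
          have h6 : eps k ^ (t j - l) * eps k ^ (t j0 - 1) =
              eps k ^ t j0 * eps k ^ (t j - l + (t j0 - 1) - t j0) := by
            rw [← pow_add, ← pow_add]; congr 1; omega
          calc _ = (eps k ^ (t j - l) * eps k ^ (t j0 - 1)) *
                (ex (pt j0) (up (C ((ω j).coeff l))) * (X ^ (t j0 - 1) * ex (pt j0) (up r))) := by
                ring
            _ = _ := by rw [h6]; ring
        · rw [if_neg hj, map_mul, map_pow, red_eps, zero_pow (by omega), zero_mul]
    obtain ⟨wA, hwA, hwA'⟩ := hA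
    choose! wB hwB hwB' using hB
    refine ⟨wA + ∑ j, ∑ l ∈ Finset.range (t j - 1), wB j l, ?_, ?_⟩
    · rw [map_add, hwA, mul_add, map_sum, Finset.mul_sum]
      congr 1
      refine Finset.sum_congr rfl fun j _ => ?_
      rw [map_sum, Finset.mul_sum]
      exact Finset.sum_congr rfl fun l hl => hwB j l (Finset.mem_range.1 hl)
    · rw [map_add, hwA', map_sum]
      have h8 : ∀ j, red (∑ l ∈ Finset.range (t j - 1), wB j l) =
          if j = j0 then ∑ l ∈ Finset.range (t j0 - 1), C ((ω j0).coeff l) * X ^ l else 0 := by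
        intro j
        rw [map_sum]
        by_cases hj : j = j0
        · subst hj
          rw [if_pos rfl]
          refine Finset.sum_congr rfl fun l hl => ?_
          rw [hwB' j l (Finset.mem_range.1 hl), if_pos rfl]
        · rw [if_neg hj]
          refine Finset.sum_eq_zero fun l hl => ?_
          rw [hwB' j l (Finset.mem_range.1 hl), if_neg hj]
      rw [Finset.sum_congr rfl fun j _ => h8 j, Finset.sum_ite_eq' Finset.univ j0,
        if_pos (Finset.mem_univ _)]
      ext l
      rw [coeff_add, finsetSum_coeff]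
      simp only [coeff_C_mul, coeff_X_pow, mul_ite, mul_one, mul_zero]
      rw [Finset.sum_ite_eq (Finset.range (t j0 - 1)) l]
      by_cases h1 : 1 ≤ t j0
      · rw [if_pos h1, coeff_C_mul, coeff_X_pow]
        by_cases h2 : l = t j0 - 1
        · rw [if_pos h2, h2]
          simp
        · rw [if_neg h2, mul_zero, zero_add]
          by_cases h3 : l < t j0 - 1
          · rw [if_pos (Finset.mem_range.2 h3)]
          · rw [if_neg (fun h => h3 (Finset.mem_range.1 h)), hω j0 l (by omega)]
      · rw [if_neg h1, coeff_zero, zero_add, if_neg (by simp; omega), hω j0 l (by omega)]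
  · rintro (hlt | hlt)
    swap
    · rw [lc_of_neg hlt, lc_of_neg hlt, map_zero, mul_zero]
    rw [lc_add]
    have h1 : lc S D = 0 := by
      show lc (∑ j, ∑ l ∈ Finset.range (t j - 1), term j l) D = 0
      rw [lc_sum]
      refine Finset.sum_eq_zero fun j _ => ?_
      rw [lc_sum]
      refine Finset.sum_eq_zero fun l _ => ?_
      refine lc_of_degLE (m := ((∑ i, (t i - 1 : ℕ) : ℕ) : ℤ) - 1) ?_ (by omega)
      exact DegLE.eps_mul _ (DegLE.up ((hEd j l).C_mul _))
    rw [h1, add_zero]
    unfold eps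
    rw [lc_C_mul, lc_up]

end

end Pool.Agent.Work.WRC
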