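import Mathlib
import Pool.Agent.Work.MP_4329d7_ag_wrc.KInt

/-!
# The gauge factors of a comb

`gA pt t v = ∏ j, (X - pt j) ^ t j v`, `gP pt = ∏ j, (X - pt j)`; their values after removing the
factor at `pt j` are `gB pt t j v` and `gQ pt j`.
-/

namespace Pool.Agent.Work.WRC

open Polynomial

section
variable {k : Type*} [Field k] {ι : Type*} [Fintype ι] [DecidableEq ι]

/-- `∏ j, (X - pt j) ^ t j` -/
noncomputable def gA (pt : ι → k) (t : ι → ℕ) : k[X] := ∏ j, (X - C (pt j)) ^ t j

/-- the value at `pt j` of `gA` without its factor at `pt j` -/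
noncomputable def gB (pt : ι → k) (t : ι → ℕ) (j : ι) : k :=
  ∏ i ∈ Finset.univ.erase j, (pt j - pt i) ^ t i

theorem gA_monic (pt : ι → k) (t : ι → ℕ) : (gA pt t).Monic :=
  monic_prod_of_monic _ _ fun i _ => (monic_X_sub_C _).pow _

theorem gA_natDegree (pt : ι → k) (t : ι → ℕ) : (gA pt t).natDegree = ∑ i, t i := by
  unfold gA
  rw [natDegree_prod_of_monic _ _ fun i _ => (monic_X_sub_C _).pow _]
  refine Finset.sum_congr rfl fun i _ => ?_
  rw [(monic_X_sub_C (pt i)).natDegree_pow, natDegree_X_sub_C, mul_one]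

theorem gA_degLE (pt : ι → k) (t : ι → ℕ) : DegLE (gA pt t) (∑ i, (t i : ℤ)) := by
  have := DegLE.natDegree (gA pt t)
  rw [gA_natDegree] at this
  push_cast at this
  exact this

theorem gA_lc (pt : ι → k) (t : ι → ℕ) : lc (gA pt t) (∑ i, (t i : ℤ)) = 1 := by
  have h := lc_of_nat (p := gA pt t) (∑ i, t i)
  push_cast at h
  rw [h, ← gA_natDegree pt t]
  exact gA_monic pt t

theorem gB_ne_zero {pt : ι → k} (hpt : Function.Injective pt) (t : ι → ℕ) (j : ι) :
    gB pt t j ≠ 0 :=
  Finset.prod_ne_zero_iff.2 fun i hi =>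
    pow_ne_zero _ (sub_ne_zero.2 fun h => Finset.ne_of_mem_erase hi (hpt h).symm)

/-- splitting off the factor at `pt j` -/
theorem gA_split (pt : ι → k) (t : ι → ℕ) (j : ι) :
    ∃ r : k[X], gA pt t = (X - C (pt j)) ^ t j * r ∧ r.eval (pt j) = gB pt t j := by
  refine ⟨∏ i ∈ Finset.univ.erase j, (X - C (pt i)) ^ t i, ?_, ?_⟩
  · exact (Finset.mul_prod_erase _ (fun i => (X - C (pt i)) ^ t i) (Finset.mem_univ j)).symm
  · unfold gB
    rw [eval_prod]
    exact Finset.prod_congr rfl fun i _ => by simp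

/-- divisibility by `gA` can be checked at the points -/
theorem gA_dvd {pt : ι → k} (hpt : Function.Injective pt) {t : ι → ℕ} {p : k[X]}
    (h : ∀ j, (X - C (pt j)) ^ t j ∣ p) : gA pt t ∣ p := by
  refine Finset.prod_dvd_of_coprime (fun i _ j _ hij => ?_) fun i _ => h i
  exact IsCoprime.pow (isCoprime_X_sub_C_of_isUnit_sub
    (sub_ne_zero.2 fun h => hij (hpt h)).isUnit)

/-- division of a polynomial of bounded degree by a monic one -/
theorem DegLE.of_monic_mul {W p : k[X]} (hW : W.Monic) {w : ℕ} (hw : W.natDegree = w) {n : ℤ}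
    (h : DegLE (W * p) n) : DegLE p (n - w) := by
  by_cases hp : p = 0
  · rw [hp]; exact DegLE.zero _
  have hne : W * p ≠ 0 := mul_ne_zero hW.ne_zero hp
  have hd : (W * p).natDegree = w + p.natDegree := by
    rw [natDegree_mul hW.ne_zero hp, hw]
  have h1 : ((W * p).natDegree : ℤ) ≤ n := by
    by_contra hcon
    push Not at hcon
    have := h _ hcon
    rw [coeff_natDegree, leadingCoeff_eq_zero] at this
    exact hne this
  refine (DegLE.natDegree p).mono ?_
  rw [hd] at h1
  push_cast at h1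
  omega

end

namespace Cox

variable {V Q X : Type} [Fintype V] [DecidableEq V] {C : Cox V Q X} {ι : Type*} [Fintype ι]
  [DecidableEq ι]

/-- homogeneity for several types at once -/
theorem F_hom_prod {A : Type*} [CommRing A] (c : Q → X → A) {t : ι → V → ℕ}
    (ht : ∀ j, C.Rel fun v => (t j v : ℤ)) {m : ι → Q → ℕ}
    (hm : ∀ j q, (m j q : ℤ) = C.m (fun v => (t j v : ℤ)) q) (z : ι → A) (q : Q)
    (s : Finset ι) : ∀ (y : V → A),
    C.F c q (fun v => (∏ j ∈ s, z j ^ t j v) * y v) = (∏ j ∈ s, z j ^ m j q) * C.F c q y := by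
  induction s using Finset.induction_on with
  | empty => intro y; simp
  | insert a s ha ih =>
    intro y
    have h1 : (fun v => (∏ j ∈ insert a s, z j ^ t j v) * y v) =
        fun v => z a ^ t a v * ((∏ j ∈ s, z j ^ t j v) * y v) := by
      funext v; rw [Finset.prod_insert ha, mul_assoc]
    rw [h1, F_hom c (ht a) (hm a q), ih, Finset.prod_insert ha, mul_assoc]

theorem J_hom_prod {A : Type*} [CommRing A] (c : Q → X → A) {t : ι → V → ℕ}
    (ht : ∀ j, C.Rel fun v => (t j v : ℤ)) {m : ι → Q → ℕ}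
    (hm : ∀ j q, (m j q : ℤ) = C.m (fun v => (t j v : ℤ)) q) (z : ι → A) (q : Q) (w : V)
    (s : Finset ι) : ∀ (y : V → A),
    C.J c q w (fun v => (∏ j ∈ s, z j ^ t j v) * y v) * (∏ j ∈ s, z j ^ t j w) =
      (∏ j ∈ s, z j ^ m j q) * C.J c q w y := by
  induction s using Finset.induction_on with
  | empty => intro y; simp
  | insert a s ha ih =>
    intro y
    have h1 : (fun v => (∏ j ∈ insert a s, z j ^ t j v) * y v) =
        fun v => z a ^ t a v * ((∏ j ∈ s, z j ^ t j v) * y v) := by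
      funext v; rw [Finset.prod_insert ha, mul_assoc]
    rw [h1, Finset.prod_insert ha, Finset.prod_insert ha, ← mul_assoc,
      J_hom c (ht a) (hm a q), mul_assoc, ih, mul_assoc]

end Cox

end Pool.Agent.Work.WRC
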