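import Mathlib
import Pool.Agent.Work.MP_4329d7_ag_wrc.KGauge
import Pool.Agent.Work.MP_4329d7_ag_uni.HenselMv

/-!
# The comb: base point and surjectivity of the derivative modulo `ε`

`Comb`: a handle `H` and teeth `y j` in Cox coordinates (the teeth are normalised so that their
leading coefficients are those of `A H` at `pt j`, `A v = gA pt (t · v)`), and an element `K0` of
the kernel of the Jacobian along `H` fitting with the directions of the teeth.
-/

namespace Pool.Agent.Work.WRC

open Polynomial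

section
variable {V Q Mo : Type} [Fintype V] [DecidableEq V] {k : Type*} [Field k] {ι : Type*} [Fintype ι]
  [DecidableEq ι]

/-- Handle and teeth. -/
structure Comb (S : Cox V Q Mo) (a : Q → Mo → k[X]) (n : V → ℤ) (d : Q → ℤ) (H : V → k[X])
    (pt : ι → k) (t : ι → V → ℕ) (m : ι → Q → ℕ) (y : ι → V → k[X]) : Prop where
  hdeg : ∀ q, ∀ x ∈ S.supp q, DegLE (a q x) (d q - ∑ v, n v * S.e q x v)
  hH : ∀ v, DegLE (H v) (n v)
  hF : ∀ q, S.F a q H = 0
  hpt : Function.Injective pt
  ht : ∀ j, S.Rel fun v => (t j v : ℤ)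
  hm : ∀ j q, (m j q : ℤ) = S.m (fun v => (t j v : ℤ)) q
  hm1 : ∀ j q, 1 ≤ m j q
  hy : ∀ j v, DegLE (y j v) (t j v)
  hyl : ∀ j v, lc (y j v) (t j v) = gB pt (fun i => t i v) j * (H v).eval (pt j)
  hyF : ∀ j q, S.F (fun q x => C ((a q x).eval (pt j))) q (y j) = 0
  hN : ∀ v, ((∑ i, (t i v - 1 : ℕ) : ℕ) : ℤ) ≤ n v + ∑ i, (t i v : ℤ)
  hN' : ∀ v, ((∑ i, (t i v - 1 : ℕ) : ℕ) : ℤ) < n v + ∑ i, (t i v : ℤ) ∨
    n v + ∑ i, (t i v : ℤ) ≤ 0

variable {S : Cox V Q Mo} {a : Q → Mo → k[X]} {n : V → ℤ} {d : Q → ℤ} {H : V → k[X]}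
  {pt : ι → k} {t : ι → V → ℕ} {m : ι → Q → ℕ} {y : ι → V → k[X]}

/-- A vector of polynomials over `k⟦ε⟧` reducing to the comb. -/
structure Good (n : V → ℤ) (H : V → k[X]) (pt : ι → k) (t : ι → V → ℕ) (y : ι → V → k[X])
    (Y : V → (PowerSeries k)[X]) : Prop where
  deg : ∀ v, DegLE (Y v) (n v + ∑ i, (t i v : ℤ))
  top : ∀ v, lc (Y v) (n v + ∑ i, (t i v : ℤ)) = PowerSeries.C (lc (H v) (n v))
  redY : ∀ v, red (Y v) = gA pt (fun i => t i v) * H v
  exY : ∀ j v, ∃ y', ex (pt j) (Y v) = eps k ^ t j v * y' ∧ red y' = y j v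

/-- Fitting vectors along the handle and the teeth. -/
structure Fit (n : V → ℤ) (pt : ι → k) (t : ι → V → ℕ) (K : V → k[X]) (δ : ι → V → k[X]) :
    Prop where
  degK : ∀ v, DegLE (K v) (n v + Fintype.card ι - 1)
  degδ : ∀ j v, DegLE (δ j v) (t j v - 1)
  fit : ∀ j v, gB pt (fun i => t i v) j * (K v).eval (pt j) =
    gB pt (fun _ => 1) j * lc (δ j v) (t j v - 1)

/-- From fitting vectors to elements of the lattice. -/
theorem Fit.lat (h : Comb S a n d H pt t m y) {K : V → k[X]} {δ : ι → V → k[X]}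
    (hf : Fit n pt t K δ) (v : V) :
    ∃ (z : k[X]) (g : (PowerSeries k)[X]), z * gA pt (fun _ => 1) = gA pt (fun i => t i v) * K v ∧
      DegLE g (n v + ∑ i, (t i v : ℤ) - 1) ∧ (∃ z', g = eps k * z' ∧ red z' = z) ∧
      (∀ j, ∃ w', ex (pt j) g = eps k ^ t j v * w' ∧ red w' = δ j v) ∧
      lc g (n v + ∑ i, (t i v : ℤ) - 1) =
        PowerSeries.X * PowerSeries.C (lc (K v) (n v + Fintype.card ι - 1)) := by
  classical
  have hpt := h.hpt
  have hP : ∀ j, gB pt (fun _ => 1) j ≠ 0 := fun j => gB_ne_zero hpt _ j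
  have hB : ∀ j, gB pt (fun i => t i v) j ≠ 0 := fun j => gB_ne_zero hpt _ j
  have hdvd : gA pt (fun _ => 1) ∣ gA pt (fun i => t i v) * K v := by
    refine gA_dvd hpt fun j => ?_
    rw [pow_one]
    by_cases ht : t j v = 0
    · refine Dvd.dvd.mul_left ?_ _
      rw [dvd_iff_isRoot, IsRoot.def]
      have h1 := hf.fit j v
      rw [ht, lc_of_neg (by norm_num), mul_zero] at h1
      exact (mul_eq_zero.1 h1).resolve_left (hB j)
    · refine Dvd.dvd.mul_right ?_ _
      obtain ⟨r, hr, -⟩ := gA_split pt (fun i => t i v) j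
      rw [hr]
      exact Dvd.dvd.mul_right (dvd_pow_self _ ht) _
  obtain ⟨z, hz⟩ := hdvd
  have hz' : z * gA pt (fun _ => 1) = gA pt (fun i => t i v) * K v := by rw [hz]; ring
  have hA1 : ∀ (s : ι → ℕ), DegLE (gA pt s) (∑ i, (s i : ℤ)) := fun s => gA_degLE pt s
  have hzd : DegLE z (n v + ∑ i, (t i v : ℤ) - 1) := by
    have h1 : DegLE (gA pt (fun _ => 1) * z) (∑ i, (t i v : ℤ) + (n v + Fintype.card ι - 1)) := by
      rw [← hz]; exact (hA1 _).mul (hf.degK v)
    have h2 := DegLE.of_monic_mul (gA_monic pt fun _ => 1) (gA_natDegree pt fun _ => 1) h1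
    refine h2.mono (le_of_eq ?_)
    simp
    ring
  have hzl : lc z (n v + ∑ i, (t i v : ℤ) - 1) = lc (K v) (n v + Fintype.card ι - 1) := by
    have h1 := lc_mul hzd (hA1 fun _ => 1)
    have h2 := lc_mul (hA1 fun i => t i v) (hf.degK v)
    rw [gA_lc, mul_one] at h1
    rw [gA_lc, one_mul] at h2
    rw [← h1, ← h2, hz']
    congr 1
    simp
    ring
  -- Taylor coefficients at the points
  have hT : ∀ j, 1 ≤ t j v → ∃ r : k[X], z = (X - C (pt j)) ^ (t j v - 1) * r ∧
      r.eval (pt j) = lc (δ j v) (t j v - 1) := by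
    intro j hj
    obtain ⟨rP, hrP, heP⟩ := gA_split pt (fun _ => 1) j
    obtain ⟨rB, hrB, heB⟩ := gA_split pt (fun i => t i v) j
    have hX : (X - C (pt j) : k[X]) ≠ 0 := X_sub_C_ne_zero _
    have h1 : z * rP = (X - C (pt j)) ^ (t j v - 1) * (rB * K v) := by
      have h2 : (X - C (pt j)) * (z * rP) =
          (X - C (pt j)) * ((X - C (pt j)) ^ (t j v - 1) * (rB * K v)) := by
        calc (X - C (pt j)) * (z * rP) = z * gA pt (fun _ => 1) := by rw [hrP]; ring
          _ = gA pt (fun i => t i v) * K v := hz'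
          _ = (X - C (pt j)) ^ t j v * (rB * K v) := by rw [hrB]; ring
          _ = _ := by
            have e1 : (X - C (pt j)) ^ t j v = (X - C (pt j)) * (X - C (pt j)) ^ (t j v - 1) := by
              rw [← pow_succ', Nat.sub_add_cancel hj]
            rw [e1]; ring
      exact mul_left_cancel₀ hX h2
    have hcop : IsCoprime ((X - C (pt j)) ^ (t j v - 1)) rP := by
      refine IsCoprime.pow_left ?_
      rw [(irreducible_X_sub_C (pt j)).coprime_iff_not_dvd, dvd_iff_isRoot, IsRoot.def, heP]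
      exact hP j
    obtain ⟨r, hr⟩ := hcop.dvd_of_dvd_mul_right ⟨_, h1⟩
    refine ⟨r, hr, ?_⟩
    have h3 : r * rP = rB * K v := by
      refine mul_left_cancel₀ (pow_ne_zero (t j v - 1) hX) ?_
      rw [← mul_assoc, ← hr, h1]
    have h4 := congrArg (eval (pt j)) h3
    rw [eval_mul, eval_mul, heP, heB, hf.fit j v] at h4
    have h5 : gB pt (fun _ => 1) j * (eval (pt j) r - lc (δ j v) (t j v - 1)) = 0 := by
      rw [mul_sub, ← h4]; ring
    exact sub_eq_zero.1 ((mul_eq_zero.1 h5).resolve_left (hP j))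
  have hTc : ∀ j, 1 ≤ t j v → (∀ l, l + 2 ≤ t j v → (taylor (pt j) z).coeff l = 0) ∧
      (taylor (pt j) z).coeff (t j v - 1) = lc (δ j v) (t j v - 1) := by
    intro j hj
    obtain ⟨r, hr, her⟩ := hT j hj
    have h1 : taylor (pt j) z = X ^ (t j v - 1) * taylor (pt j) r := by
      rw [hr, taylor_mul, taylor_pow]
      congr 2
      rw [map_sub, taylor_X, taylor_C]; ring
    refine ⟨fun l hl => ?_, ?_⟩
    · rw [h1, coeff_X_pow_mul', if_neg (by omega)]
    · rw [h1, coeff_X_pow_mul', if_pos le_rfl, Nat.sub_self, taylor_coeff_zero, her]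
  have hδl : ∀ j l, l + 1 = t j v → (δ j v).coeff l = lc (δ j v) (t j v - 1) := by
    intro j l hl
    have h2 : ((t j v : ℤ) - 1) = (l : ℤ) := by rw [← hl]; push_cast; ring
    rw [h2, lc_of_nat]
  obtain ⟨g, hg1, hg2, hg3, hg4⟩ := exists_lat pt hpt (fun i => t i v)
    (n v + ∑ i, (t i v : ℤ) - 1) (by have := h.hN v; omega) z hzd (fun j => δ j v)
    (fun j l hl => (hTc j (by omega)).1 l hl)
    (fun j l hl => hf.degδ j v l (by omega))
    (fun j l hl => by
      have h1 := (hTc j (by omega)).2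
      have h3 : t j v - 1 = l := by omega
      rw [h3] at h1
      rw [h1]
      exact hδl j l hl)
  refine ⟨z, g, hz', hg1, hg2, hg3, ?_⟩
  rw [hg4, hzl]
  rcases h.hN' v with h1 | h1
  · left; omega
  · right; omega

/-- The derivative on lattice vectors, modulo `ε`. -/
theorem deriv_red (h : Comb S a n d H pt t m y) {Y : V → (PowerSeries k)[X]}
    (hY : Good n H pt t y Y) (q : Q) {g : V → (PowerSeries k)[X]} {z' : V → (PowerSeries k)[X]}
    {w' : ι → V → (PowerSeries k)[X]} (hz : ∀ v, g v = eps k * z' v)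
    (hw : ∀ j v, ex (pt j) (g v) = eps k ^ t j v * w' j v) :
    (∃ Z, ∑ v, S.J (fun q x => up (a q x)) q v Y * g v = eps k * Z ∧
      red Z = ∑ v, S.J a q v (fun v => gA pt (fun i => t i v) * H v) * red (z' v)) ∧
    ∀ j, ∃ W, ex (pt j) (∑ v, S.J (fun q x => up (a q x)) q v Y * g v) = eps k ^ m j q * W ∧
      red W = ∑ v, S.J (fun q x => C ((a q x).eval (pt j))) q v (y j) *
        red (w' j v) := by
  constructor
  · refine ⟨∑ v, S.J (fun q x => up (a q x)) q v Y * z' v, ?_, ?_⟩
    · rw [Finset.mul_sum]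
      refine Finset.sum_congr rfl fun v _ => ?_
      rw [hz v]; ring
    · rw [map_sum]
      refine Finset.sum_congr rfl fun v _ => ?_
      rw [map_mul, Cox.J_map]
      simp only [red_up, hY.redY]
  · intro j
    choose y' hy1 hy2 using hY.exY j
    refine ⟨∑ v, S.J (fun q x => ex (pt j) (up (a q x))) q v y' * w' j v, ?_, ?_⟩
    · rw [map_sum, Finset.mul_sum]
      refine Finset.sum_congr rfl fun v _ => ?_
      rw [map_mul, Cox.J_map, hw j v]
      have h1 : (fun v => ex (pt j) (Y v)) = fun v => eps k ^ t j v * y' v := by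
        funext v; exact hy1 v
      rw [h1, ← mul_assoc, Cox.J_hom _ (h.ht j) (h.hm j q)]
      ring
    · rw [map_sum]
      refine Finset.sum_congr rfl fun v _ => ?_
      rw [map_mul, Cox.J_map]
      simp only [red_ex, red_up, hy2]

/-- The target along the handle. -/
theorem target (h : Comb S a n d H pt t m y) (q : Q) {g : (PowerSeries k)[X]} {b : ℤ}
    (hg : DegLE g (d q + ∑ j, (m j q : ℤ) - b)) (hl : Lat pt (fun j => m j q) 0 g) :
    ∃ (z' : (PowerSeries k)[X]) (w' : ι → (PowerSeries k)[X]) (G : k[X]),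
      g = eps k * z' ∧ (∀ j, ex (pt j) g = eps k ^ m j q * w' j) ∧
      red z' * gA pt (fun _ => 1) = gA pt (fun j => m j q) * G ∧
      DegLE G (d q + Fintype.card ι - b) := by
  classical
  obtain ⟨z', hz'⟩ := hl.1
  rw [zero_add, pow_one] at hz'
  have hw : ∀ j, ∃ w', ex (pt j) g = eps k ^ m j q * w' := fun j => by
    obtain ⟨w', hw'⟩ := hl.2 j
    rw [zero_add] at hw'
    exact ⟨w', hw'⟩
  choose w' hw' using hw
  have hdvd : gA pt (fun j => m j q) ∣ red z' * gA pt (fun _ => 1) := by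
    refine gA_dvd h.hpt fun j => ?_
    have h1 := (Lat.rel hz' (hw' j)).2.2
    obtain ⟨r, hr⟩ := dvd_of_taylor (a := pt j) (z := red z') (e := m j q - 1)
      fun l hl => h1 l (by omega)
    obtain ⟨rP, hrP, -⟩ := gA_split pt (fun _ => 1) j
    have h2 := h.hm1 j q
    refine ⟨r * rP, ?_⟩
    have h3 : (X - C (pt j)) ^ m j q =
        (X - C (pt j)) ^ (m j q - 1) * (X - C (pt j)) ^ 1 := by
      rw [← pow_add]; congr 1; omega
    rw [hr, hrP, h3]
    ring
  obtain ⟨G, hG⟩ := hdvd
  refine ⟨z', w', G, hz', hw', hG, ?_⟩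
  have h1 : DegLE (red z') (d q + ∑ j, (m j q : ℤ) - b) := by
    refine DegLE.red ?_
    have h2 : g = eps k ^ 1 * z' := by rw [pow_one]; exact hz'
    rw [h2] at hg
    exact degLE_of_eps_mul 1 hg
  have h2 := h1.mul (gA_degLE pt fun _ => 1)
  rw [hG] at h2
  refine (DegLE.of_monic_mul (gA_monic pt _) (gA_natDegree pt _) h2).mono (le_of_eq ?_)
  push_cast
  simp
  ring

/-- **Surjectivity modulo `ε`**, for the target degree `E q - b`.  `T` is a condition on the top
coefficients of the vectors along the handle. -/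
theorem comb_surj [Fintype Q] (h : Comb S a n d H pt t m y) (b : ℤ) (T : (V → k) → Prop)
    (hon : ∀ (G : Q → k[X]) (c : ι → Q → k[X]), (∀ q, DegLE (G q) (d q + Fintype.card ι - b)) →
      ∃ K δ, Fit n pt t K δ ∧ T (fun v => lc (K v) (n v + Fintype.card ι - 1)) ∧
        (∀ q, ∑ v, S.J a q v H * K v = G q) ∧
        ∀ j q l, l + 2 ≤ m j q →
          (∑ v, S.J (fun q x => C ((a q x).eval (pt j))) q v (y j) *
            δ j v).coeff l = (c j q).coeff l)
    {Y : V → (PowerSeries k)[X]} (hY : Good n H pt t y Y)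
    (g : Q → (PowerSeries k)[X]) (hg : ∀ q, DegLE (g q) (d q + ∑ j, (m j q : ℤ) - b))
    (hl : ∀ q, Lat pt (fun j => m j q) 0 (g q)) :
    ∃ (γ : V → k) (u : V → (PowerSeries k)[X]), T γ ∧
      (∀ v, DegLE (u v) (n v + ∑ i, (t i v : ℤ) - 1)) ∧
      (∀ v, Lat pt (fun j => t j v) 0 (u v)) ∧
      (∀ v, lc (u v) (n v + ∑ i, (t i v : ℤ) - 1) = PowerSeries.X * PowerSeries.C (γ v)) ∧
      ∀ q, Lat pt (fun j => m j q) 1
        (∑ v, S.J (fun q x => up (a q x)) q v Y * u v - g q) := by
  classical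
  choose z' w' G hz hw hG hGd using fun q => target h q (hg q) (hl q)
  obtain ⟨K, δ, hfit, hT, hK, hδ⟩ := hon G (fun j q => red (w' q j)) hGd
  choose zz u hzu hud huz huw hul using fun v => hfit.lat h v
  choose z'' hz1 hz2 using huz
  choose w'' hw1 hw2 using huw
  refine ⟨_, u, hT, hud, fun v => ⟨?_, fun j => ?_⟩, hul, fun q => ?_⟩
  · rw [zero_add, pow_one]; exact ⟨_, hz1 v⟩
  · rw [zero_add]; exact ⟨_, hw1 v j⟩
  · obtain ⟨⟨Z, hZ1, hZ2⟩, hW⟩ := deriv_red h hY q hz1 (fun j v => hw1 v j)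
    choose W hW1 hW2 using hW
    refine lat_one (z' := Z - z' q) (w' := fun j => W j - w' q j) ?_ ?_ ?_ ?_
    · rw [hZ1]
      nth_rewrite 1 [hz q]
      ring
    · intro j
      rw [map_sub, hW1 j, hw q j]; ring
    · rw [map_sub, hZ2]
      have hPi : gA pt (fun _ => 1) ≠ 0 := (gA_monic pt _).ne_zero
      have h1 : (∑ v, S.J a q v (fun v => gA pt (fun i => t i v) * H v) * red (z'' v) -
          red (z' q)) * gA pt (fun _ => 1) = 0 := by
        rw [sub_mul, hG q, Finset.sum_mul, sub_eq_zero, ← hK q, Finset.mul_sum]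
        refine Finset.sum_congr rfl fun v _ => ?_
        rw [hz2 v, mul_assoc, hzu v, ← mul_assoc, ← mul_assoc]
        congr 1
        exact Cox.J_hom_prod a h.ht h.hm (fun i => X - C (pt i)) q v Finset.univ H
      exact (mul_eq_zero.1 h1).resolve_right hPi
    · intro j l hl
      rw [map_sub, coeff_sub, hW2 j]
      have h1 := hδ j q l hl
      simp only [hw2]
      rw [h1, sub_self]

/-- The base point of the comb. -/
theorem comb_base (h : Comb S a n d H pt t m y) {K : V → k[X]}
    (hK : ∀ v, DegLE (K v) (n v + Fintype.card ι - 1)) (hJ : ∀ q, ∑ v, S.J a q v H * K v = 0)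
    (hfit : ∀ j v, gB pt (fun i => t i v) j * (K v).eval (pt j) =
      gB pt (fun _ => 1) j * lc (y j v) (t j v - 1)) :
    ∃ Y : V → (PowerSeries k)[X], Good n H pt t y Y ∧
      ∀ q, Lat pt (fun j => m j q) 1 (S.F (fun q x => up (a q x)) q Y) := by
  classical
  -- the lower part of the teeth
  let δ : ι → V → k[X] := fun j v => y j v - monomial (t j v) (lc (y j v) (t j v))
  have hδ1 : ∀ j v, DegLE (δ j v) (t j v - 1) := by
    intro j v
    refine DegLE.pred ((h.hy j v).sub (DegLE.monomial _ _)) ?_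
    rw [lc_sub, lc_of_nat, lc_of_nat, coeff_monomial, if_pos rfl, sub_self]
  have hδ2 : ∀ j v, lc (δ j v) (t j v - 1) = lc (y j v) (t j v - 1) := by
    intro j v
    show lc (y j v - monomial (t j v) (lc (y j v) (t j v))) (t j v - 1) = _
    rw [lc_sub]
    have h1 : lc (monomial (t j v) (lc (y j v) (t j v)) : k[X]) ((t j v : ℤ) - 1) = 0 := by
      by_cases h0 : t j v = 0
      · exact lc_of_neg (by rw [h0]; norm_num)
      · have h2 : ((t j v : ℤ) - 1) = ((t j v - 1 : ℕ) : ℤ) := by omega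
        rw [h2, lc_of_nat, coeff_monomial, if_neg (by omega)]
    rw [h1, sub_zero]
  have hf : Fit n pt t K δ := ⟨hK, hδ1, fun j v => by rw [hδ2]; exact hfit j v⟩
  choose zz u hzu hud huz huw hul using fun v => hf.lat h v
  choose z'' hz1 hz2 using huz
  choose w'' hw1 hw2 using huw
  have hAd : ∀ v, DegLE (gA pt (fun i => t i v) * H v) (n v + ∑ i, (t i v : ℤ)) := fun v => by
    have := (gA_degLE pt fun i => t i v).mul (h.hH v)
    rwa [add_comm] at this
  let Y : V → (PowerSeries k)[X] := fun v => up (gA pt (fun i => t i v) * H v) + u v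
  have hYg : Good n H pt t y Y := by
    refine ⟨fun v => (hAd v).up.add ((hud v).mono (by omega)), fun v => ?_, fun v => ?_,
      fun j v => ?_⟩
    · show lc (up (gA pt (fun i => t i v) * H v) + u v) _ = _
      rw [lc_add, lc_up, lc_of_degLE (hud v) (by omega), add_zero]
      congr 1
      have h1 := lc_mul (gA_degLE pt fun i => t i v) (h.hH v)
      rw [gA_lc, one_mul, add_comm] at h1
      exact h1
    · show red (up (gA pt (fun i => t i v) * H v) + u v) = _
      rw [map_add, red_up, hz1 v, map_mul, red_eps, zero_mul, add_zero]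
    · obtain ⟨r, hr, her⟩ := gA_split pt (fun i => t i v) j
      refine ⟨X ^ t j v * ex (pt j) (up (r * H v)) + w'' v j, ?_, ?_⟩
      · show ex (pt j) (up (gA pt (fun i => t i v) * H v) + u v) = _
        rw [map_add, hw1 v j, hr, mul_assoc, ex_up_pow]
        ring
      · rw [map_add, hw2 v j, map_mul, map_pow, red_ex, red_up, eval_mul, her]
        have h2 : red (X : (PowerSeries k)[X]) = X := by unfold red; simp
        rw [h2, ← h.hyl j v]
        show X ^ t j v * C (lc (y j v) (t j v)) +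
          (y j v - monomial (t j v) (lc (y j v) (t j v))) = y j v
        rw [← C_mul_X_pow_eq_monomial]
        ring
  refine ⟨Y, hYg, fun q => ?_⟩
  -- first order along the handle
  have h2 : eps k ^ 2 ∣ S.F (fun q x => up (a q x)) q Y := by
    have hT := Uni.hmv_taylor (Ideal.span {eps k}) (S.P (fun q x => up (a q x)) q)
      (fun v => up (gA pt (fun i => t i v) * H v)) u
      (fun v => by rw [hz1 v]; exact Ideal.mul_mem_right _ _ (Ideal.mem_span_singleton_self _))
    rw [Ideal.span_singleton_mul_span_singleton, Ideal.mem_span_singleton, ← pow_two] at hT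
    have h3 : S.F (fun q x => up (a q x)) q (fun v => up (gA pt (fun i => t i v) * H v)) = 0 := by
      have h4 := Cox.F_hom_prod a h.ht h.hm (fun i => X - C (pt i)) q Finset.univ H
      rw [h.hF q, mul_zero] at h4
      have h5 := Cox.F_map (C := S) (up (k := k)) a q (fun v => gA pt (fun i => t i v) * H v)
      rw [← h5]
      have h6 : S.F a q (fun v => gA pt (fun i => t i v) * H v) = 0 := h4
      rw [h6, map_zero]
    have h4 : eps k ^ 2 ∣ ∑ v, u v * MvPolynomial.eval (fun v => up (gA pt (fun i => t i v) * H v))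
        (MvPolynomial.pderiv v (S.P (fun q x => up (a q x)) q)) := by
      have h5 : ∑ v, u v * MvPolynomial.eval (fun v => up (gA pt (fun i => t i v) * H v))
          (MvPolynomial.pderiv v (S.P (fun q x => up (a q x)) q)) =
          eps k * ∑ v, S.J (fun q x => up (a q x)) q v
            (fun v => up (gA pt (fun i => t i v) * H v)) * z'' v := by
        rw [Finset.mul_sum]
        refine Finset.sum_congr rfl fun v _ => ?_
        rw [hz1 v]
        show _ = eps k * (MvPolynomial.eval _ _ * _)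
        ring
      rw [h5, pow_two]
      refine mul_dvd_mul_left _ (red_eq_zero.1 ?_)
      rw [map_sum]
      have hPi : gA pt (fun _ => 1) ≠ 0 := (gA_monic pt _).ne_zero
      have h6 : (∑ v, red (S.J (fun q x => up (a q x)) q v
          (fun v => up (gA pt (fun i => t i v) * H v)) * z'' v)) * gA pt (fun _ => 1) = 0 := by
        rw [Finset.sum_mul]
        have h7 : ∀ v, red (S.J (fun q x => up (a q x)) q v
            (fun v => up (gA pt (fun i => t i v) * H v)) * z'' v) * gA pt (fun _ => 1) =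
            gA pt (fun j => m j q) * (S.J a q v H * K v) := by
          intro v
          rw [map_mul, Cox.J_map]
          simp only [red_up]
          rw [hz2 v, mul_assoc, hzu v, ← mul_assoc, ← mul_assoc]
          congr 1
          exact Cox.J_hom_prod a h.ht h.hm (fun i => X - C (pt i)) q v Finset.univ H
        rw [Finset.sum_congr rfl fun v _ => h7 v, ← Finset.mul_sum, hJ q, mul_zero]
      exact (mul_eq_zero.1 h6).resolve_right hPi
    have h5 : S.F (fun q x => up (a q x)) q Y =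
        (MvPolynomial.eval (fun v => up (gA pt (fun i => t i v) * H v) + u v)
          (S.P (fun q x => up (a q x)) q) -
        MvPolynomial.eval (fun v => up (gA pt (fun i => t i v) * H v))
          (S.P (fun q x => up (a q x)) q) -
        ∑ v, u v * MvPolynomial.eval (fun v => up (gA pt (fun i => t i v) * H v))
          (MvPolynomial.pderiv v (S.P (fun q x => up (a q x)) q))) +
        S.F (fun q x => up (a q x)) q (fun v => up (gA pt (fun i => t i v) * H v)) +
        ∑ v, u v * MvPolynomial.eval (fun v => up (gA pt (fun i => t i v) * H v))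
          (MvPolynomial.pderiv v (S.P (fun q x => up (a q x)) q)) := by
      show MvPolynomial.eval _ _ = _ + MvPolynomial.eval _ _ + _
      ring
    rw [h5, h3, add_zero]
    exact dvd_add hT h4
  refine ⟨h2, fun j => ?_⟩
  choose y' hy1 hy2 using hYg.exY j
  have h3 : ex (pt j) (S.F (fun q x => up (a q x)) q Y) =
      eps k ^ m j q * S.F (fun q x => ex (pt j) (up (a q x))) q y' := by
    rw [Cox.F_map]
    have h1 : (fun v => ex (pt j) (Y v)) = fun v => eps k ^ t j v * y' v := by
      funext v; exact hy1 v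
    rw [h1, Cox.F_hom _ (h.ht j) (h.hm j q)]
  rw [h3, add_comm, pow_succ]
  refine mul_dvd_mul_left _ (red_eq_zero.1 ?_)
  rw [Cox.F_map]
  simp only [red_ex, red_up, hy2]
  exact h.hyF j q

/-- The value of the equations at a vector reducing to the comb has no top coefficient. -/
theorem comb_top (h : Comb S a n d H pt t m y) {Y : V → (PowerSeries k)[X]}
    (hY : Good n H pt t y Y) (q : Q) :
    DegLE (S.F (fun q x => up (a q x)) q Y) (d q + ∑ j, (m j q : ℤ)) ∧
    lc (S.F (fun q x => up (a q x)) q Y) (d q + ∑ j, (m j q : ℤ)) = 0 := by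
  have hE : ∀ x ∈ S.supp q, d q - ∑ v, n v * (S.e q x v : ℤ) =
      d q + ∑ j, (m j q : ℤ) - ∑ v, (n v + ∑ i, (t i v : ℤ)) * (S.e q x v : ℤ) := by
    intro x hx
    have h1 : ∀ j, ∑ v, (t j v : ℤ) * (S.e q x v : ℤ) = (m j q : ℤ) := fun j => by
      rw [Cox.rel_sum (h.ht j) hx, h.hm j q]
    have h2 : ∑ v, (n v + ∑ i, (t i v : ℤ)) * (S.e q x v : ℤ) =
        ∑ v, n v * (S.e q x v : ℤ) + ∑ j, (m j q : ℤ) := by
      rw [← Finset.sum_congr rfl fun j _ => h1 j, Finset.sum_comm, ← Finset.sum_add_distrib]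
      refine Finset.sum_congr rfl fun v _ => ?_
      rw [add_mul, Finset.sum_mul]
    rw [h2]; ring
  have hc : ∀ x ∈ S.supp q, DegLE (up (a q x))
      (d q + ∑ j, (m j q : ℤ) - ∑ v, (n v + ∑ i, (t i v : ℤ)) * (S.e q x v : ℤ)) := by
    intro x hx
    rw [← hE x hx]
    exact (h.hdeg q x hx).up
  refine ⟨Cox.F_degLE hc hY.deg, ?_⟩
  rw [Cox.F_lc hc hY.deg]
  have h1 : S.F (fun q' x => lc (up (a q' x))
      (d q + ∑ j, (m j q : ℤ) - ∑ v, (n v + ∑ i, (t i v : ℤ)) * (S.e q' x v : ℤ))) q
      (fun v => lc (Y v) (n v + ∑ i, (t i v : ℤ))) =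
      PowerSeries.C (S.F (fun q' x => lc (a q' x) (d q - ∑ v, n v * (S.e q' x v : ℤ))) q
        fun v => lc (H v) (n v)) := by
    rw [Cox.F_map, Cox.F_eq, Cox.F_eq]
    refine Finset.sum_congr rfl fun x hx => ?_
    rw [← hE x hx, lc_up]
    congr 1
    exact Finset.prod_congr rfl fun v _ => by rw [hY.top v]
  rw [h1, ← Cox.F_lc (h.hdeg q) h.hH, h.hF q]
  unfold lc
  simp

end

end Pool.Agent.Work.WRC
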