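import Mathlib
import Pool.Agent.Work.MP_4329d7_ag_wrc.KOnto

/-!
# Lagrange interpolation and corrections along the handle

`lag pt κ`: the polynomial of degree `< card ι` with values `κ j` at `pt j`.
`onto_vfree`: the surjectivity hypotheses of the comb lemma for a handle of full rank and very free
teeth.  `onto_free`: the same for a constant handle and free teeth whose directions span.
-/

namespace Pool.Agent.Work.WRC

open Polynomial

section lag
variable {k : Type*} [Field k] {ι : Type*} [Fintype ι] [DecidableEq ι]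

/-- Lagrange interpolation -/
noncomputable def lag (pt : ι → k) (κ : ι → k) : k[X] :=
  ∑ j, C (κ j / gB pt (fun _ => 1) j) * ∏ i ∈ Finset.univ.erase j, (X - C (pt i))

theorem lag_eval {pt : ι → k} (hpt : Function.Injective pt) (κ : ι → k) (j : ι) :
    (lag pt κ).eval (pt j) = κ j := by
  unfold lag
  rw [eval_finsetSum, Finset.sum_eq_single j]
  · have h1 : (∏ i ∈ Finset.univ.erase j, (X - C (pt i)) : k[X]).eval (pt j) =
        gB pt (fun _ => 1) j := by
      unfold gB
      rw [eval_prod]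
      exact Finset.prod_congr rfl fun i _ => by simp
    rw [eval_mul, eval_C, h1, div_mul_cancel₀ _ (gB_ne_zero hpt _ j)]
  · intro i _ hi
    rw [eval_mul, eval_prod]
    have : ∏ x ∈ Finset.univ.erase i, (X - C (pt x) : k[X]).eval (pt j) = 0 := by
      refine Finset.prod_eq_zero (Finset.mem_erase.2 ⟨Ne.symm hi, Finset.mem_univ j⟩) ?_
      simp
    rw [this, mul_zero]
  · intro h; exact absurd (Finset.mem_univ j) h

theorem erase_degLE (pt : ι → k) (j : ι) :
    DegLE (∏ i ∈ Finset.univ.erase j, (X - C (pt i)) : k[X]) (Fintype.card ι - 1) := by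
  have h1 : (∏ i ∈ Finset.univ.erase j, (X - C (pt i)) : k[X]).natDegree = Fintype.card ι - 1 := by
    rw [natDegree_prod_of_monic _ _ fun i _ => monic_X_sub_C _]
    simp
  have h2 := DegLE.natDegree (∏ i ∈ Finset.univ.erase j, (X - C (pt i)) : k[X])
  rw [h1] at h2
  have h3 : 1 ≤ Fintype.card ι := Fintype.card_pos_iff.2 ⟨j⟩
  refine h2.mono (le_of_eq ?_)
  rw [Nat.cast_sub h3]; simp

theorem erase_lc (pt : ι → k) (j : ι) :
    lc (∏ i ∈ Finset.univ.erase j, (X - C (pt i)) : k[X]) (Fintype.card ι - 1) = 1 := by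
  have h3 : 1 ≤ Fintype.card ι := Fintype.card_pos_iff.2 ⟨j⟩
  have h4 : ((Fintype.card ι : ℤ) - 1) = ((Fintype.card ι - 1 : ℕ) : ℤ) := by
    rw [Nat.cast_sub h3]; simp
  have h1 : (∏ i ∈ Finset.univ.erase j, (X - C (pt i)) : k[X]).natDegree = Fintype.card ι - 1 := by
    rw [natDegree_prod_of_monic _ _ fun i _ => monic_X_sub_C _]
    simp
  rw [h4, lc_of_nat, ← h1]
  exact monic_prod_of_monic _ _ fun i _ => monic_X_sub_C _

theorem lag_degLE (pt : ι → k) (κ : ι → k) : DegLE (lag pt κ) (Fintype.card ι - 1) :=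
  DegLE.sum fun j _ => (erase_degLE pt j).C_mul _

theorem lag_lc (pt : ι → k) (κ : ι → k) :
    lc (lag pt κ) (Fintype.card ι - 1) = ∑ j, κ j / gB pt (fun _ => 1) j := by
  unfold lag
  rw [lc_sum]
  refine Finset.sum_congr rfl fun j _ => ?_
  rw [lc_C_mul, erase_lc, mul_one]

theorem lag_sum (pt : ι → k) {W : Type*} (s : Finset W) (c : W → k) (κ : ι → W → k) :
    ∑ v ∈ s, C (c v) * lag pt (fun j => κ j v) = lag pt fun j => ∑ v ∈ s, c v * κ j v := by
  unfold lag
  simp only [Finset.mul_sum]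
  rw [Finset.sum_comm]
  refine Finset.sum_congr rfl fun j _ => ?_
  rw [Finset.sum_div, map_sum, Finset.sum_mul]
  refine Finset.sum_congr rfl fun v _ => ?_
  rw [← mul_assoc, ← C_mul, mul_div_assoc]

theorem lag_zero (pt : ι → k) : lag pt (fun _ => 0) = 0 := by
  unfold lag; simp

/-- a polynomial of small degree vanishing at all points is zero -/
theorem eq_zero_of_eval {pt : ι → k} (hpt : Function.Injective pt) {p : k[X]}
    (hd : DegLE p (Fintype.card ι - 1)) (h : ∀ j, p.eval (pt j) = 0) : p = 0 := by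
  by_contra hp
  have h1 : gA pt (fun _ => 1) ∣ p := gA_dvd hpt fun j => by
    rw [pow_one, dvd_iff_isRoot]; exact h j
  have h2 := natDegree_le_of_dvd h1 hp
  rw [gA_natDegree] at h2
  simp at h2
  have h3 : p.coeff p.natDegree = 0 := hd _ (by omega)
  rw [coeff_natDegree, leadingCoeff_eq_zero] at h3
  exact hp h3

end lag

section
variable {V Q Mo : Type} [Fintype V] [DecidableEq V] {k : Type*} [Field k] {ι : Type*} [Fintype ι]
  [DecidableEq ι] {S : Cox V Q Mo} {a : Q → Mo → k[X]} {n : V → ℤ} {d : Q → ℤ} {H : V → k[X]}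
  {pt : ι → k} {t : ι → V → ℕ} {m : ι → Q → ℕ} {y : ι → V → k[X]}

omit [DecidableEq V] in
/-- Euler vectors with values in polynomials -/
theorem Cox.Eul.lag {γ : ι → V → k} (hγ : ∀ j, S.Eul (γ j)) (pt : ι → k) :
    S.Eul fun v => WRC.lag pt fun j => γ j v := by
  intro i
  unfold WRC.lag
  have h1 : ∀ v, ((S.ray v i : ℤ) : k[X]) * ∑ j, C (γ j v / gB pt (fun _ => 1) j) *
      ∏ i ∈ Finset.univ.erase j, (X - C (pt i)) =
      ∑ j, C ((S.ray v i : k) * γ j v / gB pt (fun _ => 1) j) *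
        ∏ i ∈ Finset.univ.erase j, (X - C (pt i)) := by
    intro v
    rw [Finset.mul_sum]
    refine Finset.sum_congr rfl fun j _ => ?_
    rw [← mul_assoc, ← map_intCast (C : k →+* k[X]), ← C_mul, mul_div_assoc]
  rw [Finset.sum_congr rfl fun v _ => h1 v, Finset.sum_comm]
  refine Finset.sum_eq_zero fun j _ => ?_
  rw [← Finset.sum_mul, ← map_sum, ← Finset.sum_div, hγ j i, zero_div, map_zero, zero_mul]

omit [DecidableEq V] in
theorem Cox.Eul.lc {A : Type*} [CommRing A] {γ : V → A[X]} (hγ : S.Eul γ) (N : ℤ) :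
    S.Eul fun v => WRC.lc (γ v) N := by
  intro i
  have h1 := congrArg (fun p => WRC.lc p N) (hγ i)
  rw [lc_sum] at h1
  have h0 : WRC.lc (0 : A[X]) N = 0 := by unfold WRC.lc; simp
  rw [h0] at h1
  rw [← h1]
  refine Finset.sum_congr rfl fun v _ => ?_
  rw [← map_intCast (C : A →+* A[X]), lc_C_mul]

omit [DecidableEq V] in
theorem Cox.Eul.add {A : Type*} [CommRing A] {γ γ' : V → A} (hγ : S.Eul γ) (hγ' : S.Eul γ') :
    S.Eul fun v => γ v + γ' v := by
  intro i
  simp only [mul_add, Finset.sum_add_distrib]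
  rw [hγ i, hγ' i, add_zero]

omit [DecidableEq V] in
theorem Cox.Eul.smul {A : Type*} [CommRing A] {γ : V → A} (hγ : S.Eul γ) (c : A) :
    S.Eul fun v => c * γ v := by
  intro i
  have h1 : ∀ v, (S.ray v i : A) * (c * γ v) = c * ((S.ray v i : A) * γ v) := fun v => by ring
  rw [Finset.sum_congr rfl fun v _ => h1 v, ← Finset.mul_sum, hγ i, mul_zero]

omit [DecidableEq V] in
theorem Cox.Eul.sum {A : Type*} [CommRing A] {κ : Type*} (s : Finset κ) {γ : κ → V → A}
    (hγ : ∀ w ∈ s, S.Eul (γ w)) : S.Eul fun v => ∑ w ∈ s, γ w v := by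
  intro i
  have h1 : ∀ v, (S.ray v i : A) * ∑ w ∈ s, γ w v = ∑ w ∈ s, (S.ray v i : A) * γ w v := fun v => by
    rw [Finset.mul_sum]
  rw [Finset.sum_congr rfl fun v _ => h1 v, Finset.sum_comm]
  exact Finset.sum_eq_zero fun w hw => hγ w hw i

/-- the truncation of a polynomial -/
theorem exists_trunc (p : k[X]) (m : ℕ) :
    ∃ r : k[X], DegLE r ((m : ℤ) - 2) ∧ ∀ l, l + 2 ≤ m → r.coeff l = p.coeff l := by
  refine ⟨∑ l ∈ Finset.range (m - 1), monomial l (p.coeff l), DegLE.sum fun l hl => ?_,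
    fun l hl => ?_⟩
  · have := Finset.mem_range.1 hl
    exact (DegLE.monomial _ _).mono (by omega)
  · rw [finsetSum_coeff]
    simp only [coeff_monomial]
    rw [Finset.sum_ite_eq' (Finset.range (m - 1)) l, if_pos (Finset.mem_range.2 (by omega))]

/-- **Surjectivity for very free teeth.**  `b = 1`: no condition on the top coefficients; `b = 2`:
top coefficients in Euler directions. -/
theorem onto_vfree (h : Comb S a n d H pt t m y)
    (hne : ∀ j v, t j v = 0 → (H v).eval (pt j) ≠ 0)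
    (hspan : ∀ j v, t j v = 0 → ∃ γ : V → k, S.Eul γ ∧ γ v = 1 ∧
      ∀ w, w ≠ v → t j w = 0 → γ w = 0)
    (hvf : ∀ j, ∀ g : Q → k[X], (∀ q, DegLE (g q) ((m j q : ℤ) - 2)) →
      ∃ (δ : V → k[X]) (γ : V → k), S.Eul γ ∧ (∀ v, DegLE (δ v) ((t j v : ℤ) - 1)) ∧
        (∀ v, lc (δ v) ((t j v : ℤ) - 1) = γ v * lc (y j v) (t j v)) ∧
        ∀ q, ∑ v, S.J (fun q x => C ((a q x).eval (pt j))) q v (y j) * δ v = g q)
    (b : ℤ) (hev : ∀ G : Q → k[X], (∀ q, DegLE (G q) (d q + Fintype.card ι - b)) →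
      ∃ K : V → k[X], (∀ v, DegLE (K v) (n v + Fintype.card ι - b)) ∧
        ∀ q, ∑ v, S.J a q v H * K v = G q) (hb : 1 ≤ b)
    (G : Q → k[X]) (c : ι → Q → k[X]) (hG : ∀ q, DegLE (G q) (d q + Fintype.card ι - b)) :
    ∃ K δ, Fit n pt t K δ ∧
      (2 ≤ b → ∃ γ : V → k, S.Eul γ ∧
        ∀ v, lc (K v) (n v + Fintype.card ι - 1) = γ v * lc (H v) (n v)) ∧
      (∀ q, ∑ v, S.J a q v H * K v = G q) ∧
      ∀ j q l, l + 2 ≤ m j q →
        (∑ v, S.J (fun q x => C ((a q x).eval (pt j))) q v (y j) *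
          δ j v).coeff l = (c j q).coeff l := by
  classical
  have hpt := h.hpt
  have hP : ∀ j, gB pt (fun _ => 1) j ≠ 0 := fun j => gB_ne_zero hpt _ j
  have hB : ∀ j v, gB pt (fun i => t i v) j ≠ 0 := fun j v => gB_ne_zero hpt _ j
  obtain ⟨K1, hK1, hJ1⟩ := hev G hG
  -- the Euler correction at the constant coordinates
  have hg1 : ∀ j, ∃ γ : V → k, S.Eul γ ∧
      ∀ v, t j v = 0 → (K1 v).eval (pt j) + γ v * (H v).eval (pt j) = 0 := by
    intro j
    choose! e he1 he2 he3 using hspan j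
    refine ⟨fun v => ∑ w ∈ Finset.univ.filter (fun w => t j w = 0),
      (-(K1 w).eval (pt j) / (H w).eval (pt j)) * e w v, ?_, fun v hv => ?_⟩
    · exact Cox.Eul.sum _ fun w hw => (he1 w (Finset.mem_filter.1 hw).2).smul _
    · have h1 : ∑ w ∈ Finset.univ.filter (fun w => t j w = 0),
          (-(K1 w).eval (pt j) / (H w).eval (pt j)) * e w v =
          -(K1 v).eval (pt j) / (H v).eval (pt j) := by
        rw [Finset.sum_eq_single v]
        · rw [he2 v hv, mul_one]
        · intro w hw hwv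
          rw [he3 w (Finset.mem_filter.1 hw).2 v (Ne.symm hwv) hv, mul_zero]
        · intro hh; exact absurd (Finset.mem_filter.2 ⟨Finset.mem_univ v, hv⟩) hh
      show _ + (∑ w ∈ Finset.univ.filter (fun w => t j w = 0),
          (-(K1 w).eval (pt j) / (H w).eval (pt j)) * e w v) * _ = 0
      rw [h1, div_mul_cancel₀ _ (hne j v hv)]
      ring
  choose γ1 hγ1 hγ1' using hg1
  -- the tops of the teeth
  let top : ι → V → k := fun j v =>
    gB pt (fun i => t i v) j * ((K1 v).eval (pt j) + γ1 j v * (H v).eval (pt j)) /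
      gB pt (fun _ => 1) j
  let δ0 : ι → V → k[X] := fun j v => if t j v = 0 then 0 else monomial (t j v - 1) (top j v)
  have hδ0 : ∀ j v, DegLE (δ0 j v) ((t j v : ℤ) - 1) := by
    intro j v
    show DegLE (if t j v = 0 then 0 else monomial (t j v - 1) (top j v)) _
    split_ifs with h0
    · exact DegLE.zero _
    · exact (DegLE.monomial _ _).mono (by omega)
  have hδ0' : ∀ j v, lc (δ0 j v) ((t j v : ℤ) - 1) = top j v := by
    intro j v
    show lc (if t j v = 0 then 0 else monomial (t j v - 1) (top j v)) _ = _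
    split_ifs with h0
    · have h1 : top j v = 0 := by
        show gB pt (fun i => t i v) j * ((K1 v).eval (pt j) + γ1 j v * (H v).eval (pt j)) /
          gB pt (fun _ => 1) j = 0
        rw [hγ1' j v h0, mul_zero, zero_div]
      rw [h1, lc_of_neg (by omega)]
    · have h2 : ((t j v : ℤ) - 1) = ((t j v - 1 : ℕ) : ℤ) := by omega
      rw [h2, lc_of_nat, coeff_monomial, if_pos rfl]
  -- the residual and its solution
  choose r hr1 hr2 using fun (j : ι) (q : Q) => exists_trunc (c j q -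
    ∑ v, S.J (fun q x => C ((a q x).eval (pt j))) q v (y j) * δ0 j v) (m j q)
  choose δ1 γ2 hγ2 hδ1 hδ1' hδJ using fun j => hvf j (r j) (hr1 j)
  -- the total Euler correction
  let γ : ι → V → k := fun j v => γ1 j v + gB pt (fun _ => 1) j * γ2 j v
  have hγ : ∀ j, S.Eul (γ j) := fun j => (hγ1 j).add ((hγ2 j).smul _)
  have hγP : S.Eul fun v => lag pt fun j => γ j v := Cox.Eul.lag hγ pt
  refine ⟨fun v => K1 v + (lag pt fun j => γ j v) * H v, fun j v => δ0 j v + δ1 j v,
    ⟨fun v => ?_, fun j v => (hδ0 j v).add (hδ1 j v), fun j v => ?_⟩, ?_, ?_, ?_⟩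
  · refine ((hK1 v).mono (by omega)).add ?_
    exact ((lag_degLE pt _).mul (h.hH v)).mono (by omega)
  · rw [eval_add, eval_mul, lag_eval hpt, lc_add, hδ0', hδ1', h.hyl j v]
    show gB pt (fun i => t i v) j * ((K1 v).eval (pt j) +
      (γ1 j v + gB pt (fun _ => 1) j * γ2 j v) * (H v).eval (pt j)) =
      gB pt (fun _ => 1) j * (gB pt (fun i => t i v) j * ((K1 v).eval (pt j) +
        γ1 j v * (H v).eval (pt j)) / gB pt (fun _ => 1) j +
        γ2 j v * (gB pt (fun i => t i v) j * (H v).eval (pt j)))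
    have := hP j
    field_simp
    ring
  · intro hb2
    refine ⟨_, hγP.lc (Fintype.card ι - 1), fun v => ?_⟩
    rw [lc_add, lc_of_degLE (hK1 v) (by omega), zero_add]
    have h1 := lc_mul (lag_degLE pt fun j => γ j v) (h.hH v)
    rw [← h1]
    congr 1
    ring
  · intro q
    have h1 := Cox.euler a hγP q H
    rw [h.hF q, mul_zero] at h1
    simp only [mul_add, Finset.sum_add_distrib]
    rw [hJ1 q, h1, add_zero]
  · intro j q l hl
    simp only [mul_add, Finset.sum_add_distrib]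
    rw [coeff_add, hδJ j q, hr2 j q l hl, coeff_sub]
    ring

/-- **Surjectivity for a constant handle and free teeth.** -/
theorem onto_free {p : V → k} {a0 : Q → Mo → k} (h : Comb S (fun q x => C (a0 q x)) (fun _ => 0)
      (fun _ => 0) (fun v => C (p v)) pt t m y)
    (hrank : ∀ g : Q → k, ∃ κ : V → k, ∀ q, ∑ v, S.J a0 q v p * κ v = g q)
    (hfr : ∀ j, ∀ g : Q → k[X], (∀ q, DegLE (g q) ((m j q : ℤ) - 1)) →
      ∃ δ : V → k[X], (∀ v, DegLE (δ v) ((t j v : ℤ) - 1)) ∧
        ∀ q, ∑ v, S.J (fun q x => C (a0 q x)) q v (y j) * δ v = g q)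
    (b : ℤ) (hb : 1 ≤ b)
    (hdir : 2 ≤ b → ∀ κ : V → k, (∀ q, ∑ v, S.J a0 q v p * κ v = 0) →
      ∃ (θ : ι → V → k[X]) (γ : V → k), (∀ j v, DegLE (θ j v) ((t j v : ℤ) - 1)) ∧
        (∀ j q, ∑ v, S.J (fun q x => C (a0 q x)) q v (y j) * θ j v = 0) ∧ S.Eul γ ∧
        ∀ v, κ v = ∑ j, lc (θ j v) ((t j v : ℤ) - 1) / gB pt (fun i => t i v) j + γ v * p v)
    (G : Q → k[X]) (c : ι → Q → k[X]) (hG : ∀ q, DegLE (G q) (0 + Fintype.card ι - b)) :
    ∃ K δ, Fit (fun _ => 0) pt t K δ ∧
      (2 ≤ b → ∃ γ : V → k, S.Eul γ ∧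
        ∀ v, lc (K v) (0 + Fintype.card ι - 1) = γ v * lc (C (p v)) 0) ∧
      (∀ q, ∑ v, S.J (fun q x => C (a0 q x)) q v (fun v => C (p v)) * K v = G q) ∧
      ∀ j q l, l + 2 ≤ m j q →
        (∑ v, S.J (fun q x => C (((fun q x => C (a0 q x)) q x : k[X]).eval (pt j))) q v (y j) *
          δ j v).coeff l = (c j q).coeff l := by
  classical
  have hpt := h.hpt
  have hP : ∀ j, gB pt (fun _ => 1) j ≠ 0 := fun j => gB_ne_zero hpt _ j
  have hB : ∀ j v, gB pt (fun i => t i v) j ≠ 0 := fun j v => gB_ne_zero hpt _ j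
  have hBm : ∀ j q, gB pt (fun i => m i q) j ≠ 0 := fun j q => gB_ne_zero hpt _ j
  have hJC : ∀ q v, S.J (fun q x => C (a0 q x)) q v (fun v => C (p v)) = C (S.J a0 q v p) :=
    fun q v => (Cox.J_map (C := S) (C : k →+* k[X]) a0 q v p).symm
  have hac : ∀ j, (fun q x => C (((fun q x => C (a0 q x)) q x : k[X]).eval (pt j))) =
      fun q x => (C (a0 q x) : k[X]) := by
    intro j; funext q x; simp
  -- the handle
  choose κ0 hκ0 using hrank
  let N : ℕ := (Fintype.card ι + 1 - b).toNat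
  let K1 : V → k[X] := fun v => ∑ i ∈ Finset.range N, monomial i (κ0 (fun q => (G q).coeff i) v)
  have hK1 : ∀ v, DegLE (K1 v) (Fintype.card ι - b) := fun v => DegLE.sum fun i hi => by
    have := Finset.mem_range.1 hi
    exact (DegLE.monomial _ _).mono (by omega)
  have hJ1 : ∀ q, ∑ v, C (S.J a0 q v p) * K1 v = G q := by
    intro q
    ext i
    rw [finsetSum_coeff]
    simp only [coeff_C_mul]
    have h1 : ∀ v, (K1 v).coeff i = if i < N then κ0 (fun q => (G q).coeff i) v else 0 := by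
      intro v
      show (∑ i ∈ Finset.range N, monomial i (κ0 (fun q => (G q).coeff i) v)).coeff i = _
      rw [finsetSum_coeff]
      simp only [coeff_monomial]
      rw [Finset.sum_ite_eq' (Finset.range N) i]
      simp only [Finset.mem_range]
    simp only [h1]
    by_cases hi : i < N
    · simp only [if_pos hi]
      exact hκ0 _ q
    · simp only [if_neg hi, mul_zero, Finset.sum_const_zero]
      exact (hG q i (by omega)).symm
  -- the teeth
  let ĉ : ι → Q → k[X] := fun j q => ∑ l ∈ Finset.range (m j q - 1), monomial l ((c j q).coeff l) +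
    monomial (m j q - 1) (gB pt (fun i => m i q) j / gB pt (fun _ => 1) j * (G q).eval (pt j))
  have hĉ : ∀ j q, DegLE (ĉ j q) ((m j q : ℤ) - 1) := by
    intro j q
    have := h.hm1 j q
    refine DegLE.add (DegLE.sum fun l hl => ?_) ?_
    · have := Finset.mem_range.1 hl
      exact (DegLE.monomial _ _).mono (by omega)
    · exact (DegLE.monomial _ _).mono (by omega)
  choose δ1 hδ1 hδJ using fun j => hfr j (ĉ j) (hĉ j)
  -- top coefficients along the teeth
  have htop : ∀ j q (δ : V → k[X]), (∀ v, DegLE (δ v) ((t j v : ℤ) - 1)) →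
      lc (∑ v, S.J (fun q x => C (a0 q x)) q v (y j) * δ v) ((m j q : ℤ) - 1) =
        gB pt (fun i => m i q) j *
          ∑ v, S.J a0 q v p * (lc (δ v) ((t j v : ℤ) - 1) / gB pt (fun i => t i v) j) := by
    intro j q δ hδ
    have hc : ∀ x ∈ S.supp q, DegLE ((fun q x => (C (a0 q x) : k[X])) q x)
        ((m j q : ℤ) - ∑ v, (t j v : ℤ) * (S.e q x v : ℤ)) := by
      intro x hx
      rw [Cox.rel_sum (h.ht j) hx, ← h.hm j q, sub_self]
      exact DegLE.C _ le_rfl
    rw [lc_sum, Finset.mul_sum]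
    refine Finset.sum_congr rfl fun v _ => ?_
    have h1 := lc_mul (Cox.J_degLE (C := S) (c := fun q x => (C (a0 q x) : k[X])) hc (h.hy j) v)
      (hδ v)
    rw [Cox.J_lc (C := S) (c := fun q x => (C (a0 q x) : k[X])) hc (h.hy j) v] at h1
    have h2 : (m j q : ℤ) - t j v + (t j v - 1) = (m j q : ℤ) - 1 := by ring
    rw [h2] at h1
    rw [h1]
    have h3 : S.J (fun q' x => lc (C (a0 q' x) : k[X])
        ((m j q : ℤ) - ∑ v, (t j v : ℤ) * (S.e q' x v : ℤ))) q v (fun v => lc (y j v) (t j v)) =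
        S.J a0 q v (fun v => gB pt (fun i => t i v) j * p v) := by
      rw [Cox.J_eq, Cox.J_eq]
      refine Finset.sum_congr rfl fun x hx => ?_
      rw [Cox.rel_sum (h.ht j) hx, ← h.hm j q, sub_self]
      have h4 : lc (C (a0 q x) : k[X]) 0 = a0 q x := by unfold lc; simp
      rw [h4]
      congr 1
      refine Finset.prod_congr rfl fun w _ => ?_
      rw [h.hyl j w, eval_C]
    have h5 := Cox.J_hom_prod a0 h.ht h.hm (fun i => pt j - pt i) q v (Finset.univ.erase j) p
    have h6 : S.J a0 q v (fun v => gB pt (fun i => t i v) j * p v) * gB pt (fun i => t i v) j =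
        gB pt (fun i => m i q) j * S.J a0 q v p := h5
    rw [h3]
    have h7 : S.J a0 q v (fun v => gB pt (fun i => t i v) j * p v) =
        gB pt (fun i => m i q) j * S.J a0 q v p / gB pt (fun i => t i v) j :=
      (eq_div_iff (hB j v)).2 h6
    rw [h7]
    ring
  let κ1 : ι → V → k := fun j v =>
    gB pt (fun _ => 1) j * (lc (δ1 j v) ((t j v : ℤ) - 1) / gB pt (fun i => t i v) j) -
      (K1 v).eval (pt j)
  have hκ1 : ∀ j q, ∑ v, S.J a0 q v p * κ1 j v = 0 := by
    intro j q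
    have h1 := htop j q (δ1 j) (hδ1 j)
    rw [hδJ j q] at h1
    have h2 : lc (ĉ j q) ((m j q : ℤ) - 1) =
        gB pt (fun i => m i q) j / gB pt (fun _ => 1) j * (G q).eval (pt j) := by
      have h0 := h.hm1 j q
      have h3 : ((m j q : ℤ) - 1) = ((m j q - 1 : ℕ) : ℤ) := by omega
      rw [h3, lc_of_nat]
      show (∑ l ∈ Finset.range (m j q - 1), monomial l ((c j q).coeff l) +
        monomial (m j q - 1) (gB pt (fun i => m i q) j / gB pt (fun _ => 1) j *
          (G q).eval (pt j))).coeff (m j q - 1) = _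
      rw [coeff_add, finsetSum_coeff, coeff_monomial, if_pos rfl]
      simp only [coeff_monomial]
      rw [Finset.sum_ite_eq' (Finset.range (m j q - 1)), if_neg (by simp), zero_add]
    rw [h2] at h1
    have h4 := congrArg (eval (pt j)) (hJ1 q)
    rw [eval_finsetSum] at h4
    simp only [eval_mul, eval_C] at h4
    show ∑ v, S.J a0 q v p * (gB pt (fun _ => 1) j *
      (lc (δ1 j v) ((t j v : ℤ) - 1) / gB pt (fun i => t i v) j) - (K1 v).eval (pt j)) = 0
    simp only [mul_sub, Finset.sum_sub_distrib]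
    rw [h4, sub_eq_zero]
    have h5 : ∑ v, S.J a0 q v p * (gB pt (fun _ => 1) j *
        (lc (δ1 j v) ((t j v : ℤ) - 1) / gB pt (fun i => t i v) j)) =
        gB pt (fun _ => 1) j *
          ∑ v, S.J a0 q v p * (lc (δ1 j v) ((t j v : ℤ) - 1) / gB pt (fun i => t i v) j) := by
      rw [Finset.mul_sum]
      exact Finset.sum_congr rfl fun v _ => by ring
    rw [h5]
    have h6 : gB pt (fun i => m i q) j * ((G q).eval (pt j)) = gB pt (fun i => m i q) j *
        (gB pt (fun _ => 1) j * ∑ v, S.J a0 q v p *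
          (lc (δ1 j v) ((t j v : ℤ) - 1) / gB pt (fun i => t i v) j)) := by
      rw [mul_left_comm, ← h1]
      have := hP j
      field_simp
    exact (mul_left_cancel₀ (hBm j q) h6).symm
  -- the correction of the top coefficients
  have hθ : ∃ (θ : ι → V → k[X]), (∀ j v, DegLE (θ j v) ((t j v : ℤ) - 1)) ∧
      (∀ j q, ∑ v, S.J (fun q x => C (a0 q x)) q v (y j) * θ j v = 0) ∧
      (2 ≤ b → ∃ γ : V → k, S.Eul γ ∧ ∀ v, ∑ j, κ1 j v / gB pt (fun _ => 1) j =
        ∑ j, lc (θ j v) ((t j v : ℤ) - 1) / gB pt (fun i => t i v) j + γ v * p v) := by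
    by_cases hb2 : 2 ≤ b
    · obtain ⟨θ, γ, h1, h2, h3, h4⟩ := hdir hb2 (fun v => ∑ j, κ1 j v / gB pt (fun _ => 1) j)
        (fun q => by
          simp only [Finset.mul_sum]
          rw [Finset.sum_comm]
          refine Finset.sum_eq_zero fun j _ => ?_
          have h5 : ∀ v, S.J a0 q v p * (κ1 j v / gB pt (fun _ => 1) j) =
              S.J a0 q v p * κ1 j v / gB pt (fun _ => 1) j := fun v => by ring
          rw [Finset.sum_congr rfl fun v _ => h5 v, ← Finset.sum_div, hκ1 j q, zero_div])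
      exact ⟨θ, h1, h2, fun _ => ⟨γ, h3, h4⟩⟩
    · exact ⟨fun _ _ => 0, fun _ _ => DegLE.zero _, fun j q => by simp,
        fun h => absurd h hb2⟩
  obtain ⟨θ, hθ1, hθ2, hθ3⟩ := hθ
  let κ2 : ι → V → k := fun j v => κ1 j v -
    gB pt (fun _ => 1) j * (lc (θ j v) ((t j v : ℤ) - 1) / gB pt (fun i => t i v) j)
  have hκ2 : ∀ j q, ∑ v, S.J a0 q v p * κ2 j v = 0 := by
    intro j q
    have h1 := htop j q (θ j) (hθ1 j)
    rw [hθ2 j q] at h1
    have h0 : lc (0 : k[X]) ((m j q : ℤ) - 1) = 0 := by unfold lc; simp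
    rw [h0] at h1
    have h2 := (mul_eq_zero.1 h1.symm).resolve_left (hBm j q)
    show ∑ v, S.J a0 q v p * (κ1 j v - gB pt (fun _ => 1) j *
      (lc (θ j v) ((t j v : ℤ) - 1) / gB pt (fun i => t i v) j)) = 0
    have h3 : ∀ v, S.J a0 q v p * (κ1 j v - gB pt (fun _ => 1) j *
        (lc (θ j v) ((t j v : ℤ) - 1) / gB pt (fun i => t i v) j)) =
        S.J a0 q v p * κ1 j v - gB pt (fun _ => 1) j * (S.J a0 q v p *
        (lc (θ j v) ((t j v : ℤ) - 1) / gB pt (fun i => t i v) j)) := fun v => by ring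
    rw [Finset.sum_congr rfl fun v _ => h3 v, Finset.sum_sub_distrib, ← Finset.mul_sum, hκ1 j q,
      h2, mul_zero, sub_zero]
  refine ⟨fun v => K1 v + lag pt fun j => κ2 j v, fun j v => δ1 j v - θ j v,
    ⟨fun v => ?_, fun j v => (hδ1 j v).sub (hθ1 j v), fun j v => ?_⟩, ?_, ?_, ?_⟩
  · exact ((hK1 v).mono (by omega)).add ((lag_degLE pt _).mono (by omega))
  · rw [eval_add, lag_eval hpt, lc_sub]
    show gB pt (fun i => t i v) j * ((K1 v).eval (pt j) + (gB pt (fun _ => 1) j *
      (lc (δ1 j v) ((t j v : ℤ) - 1) / gB pt (fun i => t i v) j) - (K1 v).eval (pt j) -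
      gB pt (fun _ => 1) j * (lc (θ j v) ((t j v : ℤ) - 1) / gB pt (fun i => t i v) j))) = _
    have := hB j v
    field_simp
    ring
  · intro hb2
    obtain ⟨γ, hγ, hγ'⟩ := hθ3 hb2
    refine ⟨γ, hγ, fun v => ?_⟩
    have h0 : lc (C (p v) : k[X]) 0 = p v := by unfold lc; simp
    have e : (0 : ℤ) + Fintype.card ι - 1 = Fintype.card ι - 1 := by ring
    rw [h0, e, lc_add, lc_of_degLE (hK1 v) (by omega), zero_add, lag_lc]
    have h1 : ∀ j, κ2 j v / gB pt (fun _ => 1) j = κ1 j v / gB pt (fun _ => 1) j -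
        lc (θ j v) ((t j v : ℤ) - 1) / gB pt (fun i => t i v) j := by
      intro j
      show (κ1 j v - gB pt (fun _ => 1) j * (lc (θ j v) ((t j v : ℤ) - 1) /
        gB pt (fun i => t i v) j)) / _ = _
      rw [sub_div, mul_div_cancel_left₀ _ (hP j)]
    rw [Finset.sum_congr rfl fun j _ => h1 j, Finset.sum_sub_distrib, hγ' v]
    ring
  · intro q
    simp only [hJC, mul_add, Finset.sum_add_distrib]
    rw [hJ1 q, lag_sum]
    simp only [hκ2]
    rw [lag_zero, add_zero]
  · intro j q l hl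
    rw [hac j]
    simp only [mul_sub, Finset.sum_sub_distrib]
    rw [hδJ j q, hθ2 j q, sub_zero]
    show (∑ l ∈ Finset.range (m j q - 1), monomial l ((c j q).coeff l) +
        monomial (m j q - 1) (gB pt (fun i => m i q) j / gB pt (fun _ => 1) j *
          (G q).eval (pt j))).coeff l = _
    rw [coeff_add, finsetSum_coeff, coeff_monomial, if_neg (by omega), add_zero]
    simp only [coeff_monomial]
    rw [Finset.sum_ite_eq' (Finset.range (m j q - 1)), if_pos (Finset.mem_range.2 (by omega))]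

end

end Pool.Agent.Work.WRC
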