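import Mathlib
import Pool.Agent.Work.MP_4329d7_ag_wrc.KExG
import Pool.Agent.Work.MP_4329d7_ag_wrc.KLag
import Pool.Agent.Work.MP_4329d7_ag_wrc.KEul
import Pool.Agent.Work.MP_4329d7_ag_wrc.CombG

/-!
# First order data for the comb with a defective constant handle
-/

namespace Pool.Agent.Work.WRC

open Polynomial

section
variable {V Q Mo : Type} [Fintype V] [DecidableEq V] {k : Type*} [Field k] {ι : Type*} [Fintype ι]
  [DecidableEq ι]
variable {S : Cox V Q Mo} {a : Q → Mo → k[X]} {n : V → ℤ} {d : Q → ℤ} {H : V → k[X]}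
  {pt : ι → k} {t : ι → V → ℕ} {m : ι → Q → ℕ} {y : ι → V → k[X]}

/-- From fitting vectors to elements of the lattice, with a factor. -/
theorem Fit.latG (h : Comb S a n d H pt t m y) {K : V → k[X]} {δ : ι → V → k[X]}
    (hf : Fit n pt t K δ) {G : k[X]} (hG : G.Monic) (hGp : ∀ j, G.eval (pt j) ≠ 0) (v : V)
    (hD : (∃ i, 2 ≤ t i v) → ((∑ i, (t i v - 1 : ℕ) + G.natDegree : ℕ) : ℤ) ≤
      n v + ∑ i, (t i v : ℤ)) :
    ∃ (z : k[X]) (s : (PowerSeries k)[X]),
      z * gA pt (fun _ => 1) = gA pt (fun i => t i v) * K v ∧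
      DegLE (eps k * up z + up G * s) (n v + ∑ i, (t i v : ℤ) - 1) ∧
      (∃ z', eps k * up z + up G * s = eps k * z' ∧ red z' = z) ∧
      (∀ j, ∃ w', ex (pt j) (eps k * up z + up G * s) = eps k ^ t j v * w' ∧ red w' = δ j v) := by
  classical
  have hpt := h.hpt
  have hP : ∀ j, gB pt (fun _ => 1) j ≠ 0 := fun j => gB_ne_zero hpt _ j
  have hB : ∀ j, gB pt (fun i => t i v) j ≠ 0 := fun j => gB_ne_zero hpt _ j
  have hdvd : gA pt (fun _ => 1) ∣ gA pt (fun i => t i v) * K v := by
    refine gA_dvd hpt fun j => ?_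
    rw [pow_one]
    by_cases ht : t j v = 0
    · refine Dvd.dvd.mul_left ?_ _
      rw [dvd_iff_isRoot, IsRoot.def]
      have h1 := hf.fit j v
      rw [ht, lc_of_neg (by norm_num), mul_zero] at h1
      exact (mul_eq_zero.1 h1).resolve_left (hB j)
    · refine Dvd.dvd.mul_right ?_ _
      obtain ⟨r, hr, -⟩ := gA_split pt (fun i => t i v) j
      rw [hr]
      exact Dvd.dvd.mul_right (dvd_pow_self _ ht) _
  obtain ⟨z, hz⟩ := hdvd
  have hz' : z * gA pt (fun _ => 1) = gA pt (fun i => t i v) * K v := by rw [hz]; ring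
  have hA1 : ∀ (s : ι → ℕ), DegLE (gA pt s) (∑ i, (s i : ℤ)) := fun s => gA_degLE pt s
  have hzd : DegLE z (n v + ∑ i, (t i v : ℤ) - 1) := by
    have h1 : DegLE (gA pt (fun _ => 1) * z) (∑ i, (t i v : ℤ) + (n v + Fintype.card ι - 1)) := by
      rw [← hz]; exact (hA1 _).mul (hf.degK v)
    have h2 := DegLE.of_monic_mul (gA_monic pt fun _ => 1) (gA_natDegree pt fun _ => 1) h1
    refine h2.mono (le_of_eq ?_)
    simp
    ring
  -- Taylor coefficients at the points
  have hT : ∀ j, 1 ≤ t j v → ∃ r : k[X], z = (X - C (pt j)) ^ (t j v - 1) * r ∧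
      r.eval (pt j) = lc (δ j v) (t j v - 1) := by
    intro j hj
    obtain ⟨rP, hrP, heP⟩ := gA_split pt (fun _ => 1) j
    obtain ⟨rB, hrB, heB⟩ := gA_split pt (fun i => t i v) j
    have hX : (X - C (pt j) : k[X]) ≠ 0 := X_sub_C_ne_zero _
    have h1 : z * rP = (X - C (pt j)) ^ (t j v - 1) * (rB * K v) := by
      have h2 : (X - C (pt j)) * (z * rP) =
          (X - C (pt j)) * ((X - C (pt j)) ^ (t j v - 1) * (rB * K v)) := by
        calc (X - C (pt j)) * (z * rP) = z * gA pt (fun _ => 1) := by rw [hrP]; ring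
          _ = gA pt (fun i => t i v) * K v := hz'
          _ = (X - C (pt j)) ^ t j v * (rB * K v) := by rw [hrB]; ring
          _ = _ := by
            have e1 : (X - C (pt j)) ^ t j v = (X - C (pt j)) * (X - C (pt j)) ^ (t j v - 1) := by
              rw [← pow_succ', Nat.sub_add_cancel hj]
            rw [e1]; ring
      exact mul_left_cancel₀ hX h2
    have hcop : IsCoprime ((X - C (pt j)) ^ (t j v - 1)) rP := by
      refine IsCoprime.pow_left ?_
      rw [(irreducible_X_sub_C (pt j)).coprime_iff_not_dvd, dvd_iff_isRoot, IsRoot.def, heP]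
      exact hP j
    obtain ⟨r, hr⟩ := hcop.dvd_of_dvd_mul_right ⟨_, h1⟩
    refine ⟨r, hr, ?_⟩
    have h3 : r * rP = rB * K v := by
      refine mul_left_cancel₀ (pow_ne_zero (t j v - 1) hX) ?_
      rw [← mul_assoc, ← hr, h1]
    have h4 := congrArg (eval (pt j)) h3
    rw [eval_mul, eval_mul, heP, heB, hf.fit j v] at h4
    have h5 : gB pt (fun _ => 1) j * (eval (pt j) r - lc (δ j v) (t j v - 1)) = 0 := by
      rw [mul_sub, ← h4]; ring
    exact sub_eq_zero.1 ((mul_eq_zero.1 h5).resolve_left (hP j))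
  have hTc : ∀ j, 1 ≤ t j v → (∀ l, l + 2 ≤ t j v → (taylor (pt j) z).coeff l = 0) ∧
      (taylor (pt j) z).coeff (t j v - 1) = lc (δ j v) (t j v - 1) := by
    intro j hj
    obtain ⟨r, hr, her⟩ := hT j hj
    have h1 : taylor (pt j) z = X ^ (t j v - 1) * taylor (pt j) r := by
      rw [hr, taylor_mul, taylor_pow]
      congr 2
      rw [map_sub, taylor_X, taylor_C]; ring
    refine ⟨fun l hl => ?_, ?_⟩
    · rw [h1, coeff_X_pow_mul', if_neg (by omega)]
    · rw [h1, coeff_X_pow_mul', if_pos le_rfl, Nat.sub_self, taylor_coeff_zero, her]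
  have hδl : ∀ j l, l + 1 = t j v → (δ j v).coeff l = lc (δ j v) (t j v - 1) := by
    intro j l hl
    have h2 : ((t j v : ℤ) - 1) = (l : ℤ) := by rw [← hl]; push_cast; ring
    rw [h2, lc_of_nat]
  obtain ⟨s, hg1, hg2, hg3⟩ := exists_latG pt hpt (fun i => t i v) hG hGp
    (n v + ∑ i, (t i v : ℤ) - 1) (fun hi => by have := hD hi; omega) z hzd (fun j => δ j v)
    (fun j l hl => (hTc j (by omega)).1 l hl)
    (fun j l hl => hf.degδ j v l (by omega))
    (fun j l hl => by
      have h1 := (hTc j (by omega)).2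
      have h3 : t j v - 1 = l := by omega
      rw [h3] at h1
      rw [h1]
      exact hδl j l hl)
  exact ⟨z, s, hz', hg1, hg2, hg3⟩

/-- The base point of the comb, congruent to `A H` modulo `G`. -/
theorem comb_baseG (h : Comb S a n d H pt t m y) {G : k[X]} (hG : G.Monic)
    (hGp : ∀ j, G.eval (pt j) ≠ 0)
    (hD : ∀ v, (∃ i, 2 ≤ t i v) → ((∑ i, (t i v - 1 : ℕ) + G.natDegree : ℕ) : ℤ) ≤
      n v + ∑ i, (t i v : ℤ))
    (hy1 : ∀ j v, lc (y j v) (t j v - 1) = 0) :
    ∃ Y : V → (PowerSeries k)[X], Good n H pt t y Y ∧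
      (∀ v, up G ∣ Y v - up (gA pt (fun i => t i v) * H v)) ∧
      ∀ q, ∃ φ, S.F (upc a) q Y = up G * φ ∧ Lat pt (fun j => m j q) 1 φ := by
  classical
  -- the lower part of the teeth
  let δ : ι → V → k[X] := fun j v => y j v - monomial (t j v) (lc (y j v) (t j v))
  have hδ1 : ∀ j v, DegLE (δ j v) (t j v - 1) := by
    intro j v
    refine DegLE.pred ((h.hy j v).sub (DegLE.monomial _ _)) ?_
    rw [lc_sub, lc_of_nat, lc_of_nat, coeff_monomial, if_pos rfl, sub_self]
  have hδ2 : ∀ j v, lc (δ j v) (t j v - 1) = lc (y j v) (t j v - 1) := by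
    intro j v
    show lc (y j v - monomial (t j v) (lc (y j v) (t j v))) (t j v - 1) = _
    rw [lc_sub]
    have h1 : lc (monomial (t j v) (lc (y j v) (t j v)) : k[X]) ((t j v : ℤ) - 1) = 0 := by
      by_cases h0 : t j v = 0
      · exact lc_of_neg (by rw [h0]; norm_num)
      · have h2 : ((t j v : ℤ) - 1) = ((t j v - 1 : ℕ) : ℤ) := by omega
        rw [h2, lc_of_nat, coeff_monomial, if_neg (by omega)]
    rw [h1, sub_zero]
  have hf : Fit n pt t (fun _ => 0) δ := ⟨fun v => DegLE.zero _, hδ1, fun j v => by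
    rw [hδ2, hy1 j v]; simp⟩
  choose zz s hzz hud huz huw using fun v => hf.latG h hG hGp v (hD v)
  have hz0 : ∀ v, zz v = 0 := by
    intro v
    have h1 := hzz v
    rw [mul_zero] at h1
    exact (mul_eq_zero.1 h1).resolve_right (gA_monic pt _).ne_zero
  simp only [hz0, map_zero, mul_zero, zero_add] at hud huz huw
  choose z'' hz1 hz2 using huz
  choose w'' hw1 hw2 using huw
  have hAd : ∀ v, DegLE (gA pt (fun i => t i v) * H v) (n v + ∑ i, (t i v : ℤ)) := fun v => by
    have := (gA_degLE pt fun i => t i v).mul (h.hH v)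
    rwa [add_comm] at this
  let Y : V → (PowerSeries k)[X] := fun v => up (gA pt (fun i => t i v) * H v) + up G * s v
  have hYg : Good n H pt t y Y := by
    refine ⟨fun v => (hAd v).up.add ((hud v).mono (by omega)), fun v => ?_, fun v => ?_,
      fun j v => ?_⟩
    · show lc (up (gA pt (fun i => t i v) * H v) + up G * s v) _ = _
      rw [lc_add, lc_up, lc_of_degLE (hud v) (by omega), add_zero]
      congr 1
      have h1 := lc_mul (gA_degLE pt fun i => t i v) (h.hH v)
      rw [gA_lc, one_mul, add_comm] at h1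
      exact h1
    · show red (up (gA pt (fun i => t i v) * H v) + up G * s v) = _
      rw [map_add, red_up, hz1 v, map_mul, red_eps, zero_mul, add_zero]
    · obtain ⟨r, hr, her⟩ := gA_split pt (fun i => t i v) j
      refine ⟨X ^ t j v * ex (pt j) (up (r * H v)) + w'' v j, ?_, ?_⟩
      · show ex (pt j) (up (gA pt (fun i => t i v) * H v) + up G * s v) = _
        rw [map_add, hw1 v j, hr, mul_assoc, ex_up_pow]
        ring
      · rw [map_add, hw2 v j, map_mul, map_pow, red_ex, red_up, eval_mul, her]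
        have h2 : red (X : (PowerSeries k)[X]) = X := by unfold red; simp
        rw [h2, ← h.hyl j v]
        show X ^ t j v * C (lc (y j v) (t j v)) +
          (y j v - monomial (t j v) (lc (y j v) (t j v))) = y j v
        rw [← C_mul_X_pow_eq_monomial]
        ring
  refine ⟨Y, hYg, fun v => ?_, fun q => ?_⟩
  · show up G ∣ up (gA pt (fun i => t i v) * H v) + up G * s v -
      up (gA pt (fun i => t i v) * H v)
    rw [add_sub_cancel_left]
    exact dvd_mul_right _ _
  -- the equation vanishes at `A H`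
  have h3 : S.F (upc a) q (fun v => up (gA pt (fun i => t i v) * H v)) = 0 := by
    have h4 := Cox.F_hom_prod a h.ht h.hm (fun i => X - C (pt i)) q Finset.univ H
    rw [h.hF q, mul_zero] at h4
    have h5 := Cox.F_map (C := S) (up (k := k)) a q (fun v => gA pt (fun i => t i v) * H v)
    show S.F (fun q x => up (a q x)) q (fun v => up (gA pt (fun i => t i v) * H v)) = 0
    rw [← h5]
    have h6 : S.F a q (fun v => gA pt (fun i => t i v) * H v) = 0 := h4
    rw [h6, map_zero]
  -- divisibility by `G`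
  have hdvd : up G ∣ S.F (upc a) q Y := by
    have h4 := Cox.F_taylor (C := S) (upc a) q (up G)
      (fun v => up (gA pt (fun i => t i v) * H v)) s
    rw [h3, sub_zero] at h4
    have h5 := (dvd_pow_self (up G) two_ne_zero).trans h4
    exact (dvd_sub_left (dvd_mul_right _ _)).1 h5
  -- first order along the handle
  have h2 : eps k ^ 2 ∣ S.F (upc a) q Y := by
    have h4 := Cox.F_taylor (C := S) (upc a) q (eps k)
      (fun v => up (gA pt (fun i => t i v) * H v)) z''
    have e1 : (fun v => up (gA pt (fun i => t i v) * H v) + eps k * z'' v) = Y := by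
      funext v
      show _ = up (gA pt (fun i => t i v) * H v) + up G * s v
      rw [hz1 v]
    rw [e1, h3, sub_zero] at h4
    refine (dvd_sub_left ?_).1 h4
    rw [pow_two]
    refine mul_dvd_mul_left _ (red_eq_zero.1 ?_)
    rw [map_sum]
    refine Finset.sum_eq_zero fun v _ => ?_
    rw [map_mul, hz2 v, mul_zero]
  have hlat : Lat pt (fun j => m j q) 1 (S.F (upc a) q Y) := by
    refine ⟨h2, fun j => ?_⟩
    choose y' hy1 hy2 using hYg.exY j
    have h3 : ex (pt j) (S.F (fun q x => up (a q x)) q Y) =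
        eps k ^ m j q * S.F (fun q x => ex (pt j) (up (a q x))) q y' := by
      rw [Cox.F_map]
      have h1 : (fun v => ex (pt j) (Y v)) = fun v => eps k ^ t j v * y' v := by
        funext v; exact hy1 v
      rw [h1, Cox.F_hom _ (h.ht j) (h.hm j q)]
    show _ ∣ ex (pt j) (S.F (fun q x => up (a q x)) q Y)
    rw [h3, add_comm, pow_succ]
    refine mul_dvd_mul_left _ (red_eq_zero.1 ?_)
    rw [Cox.F_map]
    simp only [red_ex, red_up, hy2]
    exact h.hyF j q
  obtain ⟨φ, hφ⟩ := hdvd
  refine ⟨φ, hφ, ?_⟩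
  rw [hφ] at hlat
  exact Lat.cancel hG.ne_zero hGp hlat

end

section
variable {V Q Mo : Type} [Fintype V] [DecidableEq V] {k : Type*} [Field k] {ι : Type*} [Fintype ι]
  [DecidableEq ι]
variable {S : Cox V Q Mo} {a : Q → Mo → k[X]} {d : Q → ℤ} {H : V → k[X]}
  {pt : ι → k} {t : V → ℕ} {m : Q → ℕ} {y : ι → V → k[X]}

theorem gA_const (pt : ι → k) (e : ℕ) : gA pt (fun _ => e) = gA pt (fun _ => 1) ^ e := by
  unfold gA
  rw [← Finset.prod_pow]
  exact Finset.prod_congr rfl fun i _ => by rw [pow_one]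

/-- **First order data** at a constant handle with the defect `g`. -/
theorem comb_first [Fintype Q]
    (h : Comb S a (fun _ => 0) d H pt (fun _ => t) (fun _ => m) y)
    {g : k[X]} (hg : g.Monic) (hgp : ∀ j, g.eval (pt j) ≠ 0)
    (hcard : 2 * g.natDegree ≤ Fintype.card ι)
    (hy0 : ∀ j v, t v = 0 → y j v ≠ 0)
    (hlev : ∀ ψ : Q → k[X],
      (∀ q, DegLE (g * ψ q) (d q + (Fintype.card ι - 1 - g.natDegree : ℤ))) →
      ∃ z : V → k[X], (∀ v, t v = 0 → z v = 0) ∧
        (∀ v, DegLE (z v) (Fintype.card ι - 1 - g.natDegree : ℤ)) ∧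
        ∀ q, ∑ v, S.J a q v H * z v = g * ψ q)
    (hvf : ∀ j, ∀ G : Q → k[X], (∀ q, DegLE (G q) ((m q : ℤ) - 2)) →
      ∃ (δ : V → k[X]) (γ : V → k), S.Eul γ ∧ (∀ v, DegLE (δ v) ((t v : ℤ) - 1)) ∧
        (∀ v, lc (δ v) ((t v : ℤ) - 1) = γ v * lc (y j v) (t v)) ∧
        ∀ q, ∑ v, S.J (fun q x => C ((a q x).eval (pt j))) q v (y j) * δ v = G q)
    {I : Type} [Fintype I] {γ : I → V → ℕ}
    (hγs : ∀ c : V → k, S.Eul c → (∀ v, t v = 0 → c v = 0) →
      ∃ μ : I → k, ∀ v, c v = ∑ i, μ i * (γ i v : k))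
    {Y : V → (PowerSeries k)[X]} (hY : Good (fun _ => 0) H pt (fun _ => t) y Y)
    (φ : Q → (PowerSeries k)[X])
    (hφ : ∀ q, DegLE (up g ^ 2 * φ q) (d q + ∑ _i : ι, (m q : ℤ) - 1) ∧
      Lat pt (fun _ => m q) 0 (φ q)) :
    ∃ (η h' : V → (PowerSeries k)[X]) (μ : I → (PowerSeries k)[X]),
      (∀ v, DegLE (η v) (∑ _i : ι, (t v : ℤ) - 1)) ∧
      (∀ v, Lat pt (fun _ => t v) 0 (η v)) ∧
      (∀ v, eps k ∣ h' v) ∧ (∀ v, t v = 0 → h' v = 0) ∧ (∀ i, eps k ∣ μ i) ∧
      (∀ v, up g ^ 2 ∣ η v - (up g * h' v + (∑ i, μ i * (γ i v : (PowerSeries k)[X])) *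
        up (gA pt (fun _ => t v) * H v))) ∧
      (∀ q, up g ∣ JJ S a q (fun v => up (gA pt (fun _ => t v) * H v)) h') ∧
      ∀ q, Lat pt (fun _ => m q) 1 (JJ S a q Y η - up g ^ 2 * φ q) := by
  classical
  have hpt := h.hpt
  have hP : ∀ j, gB pt (fun _ => 1) j ≠ 0 := fun j => gB_ne_zero hpt _ j
  have hB : ∀ j v, gB pt (fun _ => t v) j ≠ 0 := fun j v => gB_ne_zero hpt _ j
  have hPi : gA pt (fun _ => 1) ≠ 0 := (gA_monic pt _).ne_zero
  have hgne : g ≠ 0 := hg.ne_zero
  have hg2 : (g ^ 2).Monic := hg.pow 2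
  have hg2p : ∀ j, (g ^ 2).eval (pt j) ≠ 0 := fun j => by
    rw [eval_pow]; exact pow_ne_zero _ (hgp j)
  have hup2 : up (g ^ 2) = up g ^ 2 := map_pow _ _ _
  -- coprimality of `g` and `Pi`
  have hcop : IsCoprime (gA pt (fun _ => 1)) g := by
    unfold gA
    refine IsCoprime.prod_left fun i _ => ?_
    rw [pow_one, (irreducible_X_sub_C (pt i)).coprime_iff_not_dvd, dvd_iff_isRoot, IsRoot.def]
    exact hgp i
  obtain ⟨Ps, e, hPs⟩ : ∃ Ps e : k[X], gA pt (fun _ => 1) * Ps = 1 - g ^ 2 * e := by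
    obtain ⟨u, v, huv⟩ := hcop.pow_right (n := 2)
    exact ⟨u, v, by linear_combination huv⟩
  -- the target along the handle
  have hφd : ∀ q, DegLE (φ q) (d q + ∑ _j : ι, (m q : ℤ) - (1 + 2 * g.natDegree)) := by
    intro q
    have h1 := (hφ q).1
    rw [← hup2, degLE_up_mul hg2.ne_zero, hg.natDegree_pow] at h1
    refine h1.mono (le_of_eq ?_)
    push_cast; ring
  choose z' w' ψ hz hw hψ hψd using fun q => target h q (hφd q) (hφ q).2
  obtain ⟨K1, hK10, hK1d, hK1⟩ := hlev ψ fun q => by
    refine ((DegLE.natDegree g).mul (hψd q)).mono (le_of_eq ?_)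
    ring
  -- the tops of the teeth
  let top : ι → V → k := fun j v =>
    gB pt (fun _ => t v) j * (g * K1 v).eval (pt j) / gB pt (fun _ => 1) j
  let δ0 : ι → V → k[X] := fun j v => if t v = 0 then 0 else monomial (t v - 1) (top j v)
  have hδ0 : ∀ j v, DegLE (δ0 j v) ((t v : ℤ) - 1) := by
    intro j v
    show DegLE (if t v = 0 then 0 else monomial (t v - 1) (top j v)) _
    split_ifs with h0
    · exact DegLE.zero _
    · exact (DegLE.monomial _ _).mono (by omega)
  have hδ0' : ∀ j v, lc (δ0 j v) ((t v : ℤ) - 1) = top j v := by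
    intro j v
    show lc (if t v = 0 then 0 else monomial (t v - 1) (top j v)) _ = _
    split_ifs with h0
    · have h1 : top j v = 0 := by
        show gB pt (fun _ => t v) j * (g * K1 v).eval (pt j) / gB pt (fun _ => 1) j = 0
        rw [hK10 v h0, mul_zero, eval_zero, mul_zero, zero_div]
      rw [h1, lc_of_neg (by omega)]
    · have h2 : ((t v : ℤ) - 1) = ((t v - 1 : ℕ) : ℤ) := by omega
      rw [h2, lc_of_nat, coeff_monomial, if_pos rfl]
  -- the residual and its solution
  choose r hr1 hr2 using fun (j : ι) (q : Q) => exists_trunc (red (ex (pt j) (up g ^ 2) * w' q j) -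
    ∑ v, S.J (fun q x => C ((a q x).eval (pt j))) q v (y j) * δ0 j v) (m q)
  choose δ1 γ2 hγ2 hδ1 hδ1' hδJ using fun j => hvf j (r j) (hr1 j)
  have hγ20 : ∀ j v, t v = 0 → γ2 j v = 0 := by
    intro j v hv
    have h1 := hδ1' j v
    rw [lc_of_neg (by omega)] at h1
    refine (mul_eq_zero.1 h1.symm).resolve_right fun h2 => hy0 j v hv ?_
    have h3 := h.hy j v
    simp only [hv] at h2 h3
    ext l
    by_cases hl : l = 0
    · rw [hl, coeff_zero, ← h2]
      exact (lc_of_nat 0).symm
    · exact h3 l (by push_cast; omega)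
  -- the Euler correction
  let γP : ι → V → k := fun j v => gB pt (fun _ => 1) j * γ2 j v
  have hγP : ∀ j, S.Eul (γP j) := fun j => (hγ2 j).smul _
  choose c hc using fun j => hγs (γP j) (hγP j) fun v hv => by
    show gB pt (fun _ => 1) j * γ2 j v = 0
    rw [hγ20 j v hv, mul_zero]
  have hlag : ∀ v, lag pt (fun j => γP j v) =
      ∑ i, (γ i v : k[X]) * lag pt (fun j => c j i) := by
    intro v
    have h1 := lag_sum pt (Finset.univ : Finset I) (fun i => (γ i v : k)) (fun j i => c j i)
    have h2 : (fun j => γP j v) = fun j => ∑ i, (γ i v : k) * c j i := by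
      funext j
      rw [hc j v]
      exact Finset.sum_congr rfl fun i _ => mul_comm _ _
    rw [h2, ← h1]
    exact Finset.sum_congr rfl fun i _ => by rw [← C_eq_natCast]
  let K : V → k[X] := fun v => g * K1 v + (lag pt fun j => γP j v) * H v
  let δ : ι → V → k[X] := fun j v => δ0 j v + δ1 j v
  have hf : Fit (fun _ => 0) pt (fun _ => t) K δ := by
    refine ⟨fun v => DegLE.add ?_ ?_, fun j v => (hδ0 j v).add (hδ1 j v), fun j v => ?_⟩
    · exact ((DegLE.natDegree g).mul (hK1d v)).mono (by omega)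
    · exact ((lag_degLE pt _).mul (h.hH v)).mono (by omega)
    · show gB pt (fun _ => t v) j * (g * K1 v + (lag pt fun j => γP j v) * H v).eval (pt j) =
        gB pt (fun _ => 1) j * lc (δ0 j v + δ1 j v) ((t v : ℤ) - 1)
      rw [eval_add, eval_mul (p := lag pt fun j => γP j v), lag_eval hpt, lc_add, hδ0', hδ1',
        h.hyl j v]
      show gB pt (fun _ => t v) j * ((g * K1 v).eval (pt j) +
        (gB pt (fun _ => 1) j * γ2 j v) * (H v).eval (pt j)) =
        gB pt (fun _ => 1) j * (gB pt (fun _ => t v) j * (g * K1 v).eval (pt j) /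
          gB pt (fun _ => 1) j + γ2 j v * (gB pt (fun _ => t v) j * (H v).eval (pt j)))
      have := hP j
      field_simp
  have hKJ : ∀ q, ∑ v, S.J a q v H * K v = g ^ 2 * ψ q := by
    intro q
    have h1 := Cox.euler a (Cox.Eul.lag hγP pt) q H
    rw [h.hF q, mul_zero] at h1
    show ∑ v, S.J a q v H * (g * K1 v + (lag pt fun j => γP j v) * H v) = _
    simp only [mul_add, Finset.sum_add_distrib]
    rw [h1, add_zero]
    have h2 : ∀ v, S.J a q v H * (g * K1 v) = g * (S.J a q v H * K1 v) := fun v => by ring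
    rw [Finset.sum_congr rfl fun v _ => h2 v, ← Finset.mul_sum, hK1 q]
    ring
  -- lattice elements
  have hDv : ∀ v, (∃ _i : ι, 2 ≤ t v) → ((∑ _i : ι, (t v - 1 : ℕ) + (g ^ 2).natDegree : ℕ) : ℤ) ≤
      0 + ∑ _i : ι, (t v : ℤ) := by
    rintro v ⟨_, hv⟩
    rw [hg.natDegree_pow]
    simp only [Finset.sum_const, Finset.card_univ, smul_eq_mul, zero_add, nsmul_eq_mul]
    have h1 : Fintype.card ι * (t v - 1) + 2 * g.natDegree ≤ Fintype.card ι * t v := by
      obtain ⟨b, hb⟩ : ∃ b, t v = b + 1 := ⟨t v - 1, by omega⟩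
      rw [hb, Nat.add_sub_cancel, mul_add, mul_one]
      omega
    exact_mod_cast h1
  choose z s hzz hud huz huw using fun v => hf.latG h hg2 hg2p v (hDv v)
  choose z'' hz1 hz2 using huz
  choose w'' hw1 hw2 using huw
  -- the element along the handle
  have hzv : ∀ v, z v = gA pt (fun _ => 1) ^ (t v - 1) * K v := by
    intro v
    refine mul_right_cancel₀ hPi ?_
    rw [hzz v, gA_const pt (t v)]
    by_cases h0 : t v = 0
    · have hK0 : K v = 0 := by
        show g * K1 v + (lag pt fun j => γP j v) * H v = 0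
        have e1 : (fun j => γP j v) = fun _ => 0 := by
          funext j
          show gB pt (fun _ => 1) j * γ2 j v = 0
          rw [hγ20 j v h0, mul_zero]
        rw [hK10 v h0, e1, lag_zero]; ring
      rw [hK0]; ring
    · have e2 : gA pt (fun _ => 1) ^ t v =
          gA pt (fun _ => 1) ^ (t v - 1) * gA pt (fun _ => 1) := by
        rw [← pow_succ]; congr 1; omega
      rw [e2]; ring
  refine ⟨fun v => eps k * up (z v) + up (g ^ 2) * s v,
    fun v => eps k * up (gA pt (fun _ => 1) ^ (t v - 1) * K1 v),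
    fun i => eps k * up (Ps * lag pt fun j => c j i), fun v => ?_, fun v => ⟨?_, fun j => ?_⟩,
    fun v => dvd_mul_right _ _, fun v h0 => ?_, fun i => dvd_mul_right _ _, fun v => ?_,
    fun q => ?_, fun q => ?_⟩
  · have := hud v
    rwa [zero_add] at this
  · rw [zero_add, pow_one]; exact ⟨_, hz1 v⟩
  · rw [zero_add]; exact ⟨_, hw1 v j⟩
  · show eps k * up (gA pt (fun _ => 1) ^ (t v - 1) * K1 v) = 0
    rw [hK10 v h0, mul_zero, map_zero, mul_zero]
  · -- congruence modulo `g ^ 2`
    show up g ^ 2 ∣ eps k * up (z v) + up (g ^ 2) * s v -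
      (up g * (eps k * up (gA pt (fun _ => 1) ^ (t v - 1) * K1 v)) +
      (∑ i, eps k * up (Ps * lag pt fun j => c j i) * (γ i v : (PowerSeries k)[X])) *
        up (gA pt (fun _ => t v) * H v))
    have e1 : ∑ i, eps k * up (Ps * lag pt fun j => c j i) * (γ i v : (PowerSeries k)[X]) =
        eps k * up (Ps * lag pt fun j => γP j v) := by
      rw [hlag v, Finset.mul_sum, map_sum, Finset.mul_sum]
      refine Finset.sum_congr rfl fun i _ => ?_
      simp only [map_mul, map_natCast]
      ring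
    rw [e1]
    by_cases h0 : t v = 0
    · have e2 : (fun j => γP j v) = fun _ => 0 := by
        funext j
        show gB pt (fun _ => 1) j * γ2 j v = 0
        rw [hγ20 j v h0, mul_zero]
      have hz0 : z v = 0 := by
        rw [hzv v]
        show _ * (g * K1 v + (lag pt fun j => γP j v) * H v) = 0
        rw [hK10 v h0, e2, lag_zero]; ring
      rw [e2, lag_zero, hz0, hK10 v h0, hup2]
      simp only [mul_zero, map_zero, zero_mul, zero_add, sub_zero, add_zero]
      exact dvd_mul_right _ _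
    · have e3 : gA pt (fun _ => t v) = gA pt (fun _ => 1) ^ (t v - 1) * gA pt (fun _ => 1) := by
        rw [gA_const pt (t v), ← pow_succ]; congr 1; omega
      have e4 : z v - (gA pt (fun _ => 1) ^ (t v - 1) * K1 v * g +
          Ps * (lag pt fun j => γP j v) * (gA pt (fun _ => t v) * H v)) =
          g ^ 2 * (e * gA pt (fun _ => 1) ^ (t v - 1) * (lag pt fun j => γP j v) * H v) := by
        rw [hzv v, e3]
        show gA pt (fun _ => 1) ^ (t v - 1) * (g * K1 v + (lag pt fun j => γP j v) * H v) - _ = _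
        linear_combination (-(gA pt (fun _ => 1) ^ (t v - 1)) * (lag pt fun j => γP j v) * H v) *
          hPs
      refine ⟨eps k * up (e * gA pt (fun _ => 1) ^ (t v - 1) * (lag pt fun j => γP j v) * H v) +
        s v, ?_⟩
      have e5 := congrArg (up (k := k)) e4
      rw [map_sub, map_add, map_mul up (g ^ 2), hup2] at e5
      rw [hup2]
      rw [map_mul up (gA pt (fun _ => 1) ^ (t v - 1) * K1 v) g,
        map_mul up (Ps * (lag pt fun j => γP j v)) (gA pt (fun _ => t v) * H v)] at e5
      linear_combination (eps k) * e5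
  · -- the derivative of `h`
    have e1 : JJ S a q (fun v => up (gA pt (fun _ => t v) * H v))
        (fun v => eps k * up (gA pt (fun _ => 1) ^ (t v - 1) * K1 v)) =
        eps k * up (∑ v, S.J a q v (fun v => gA pt (fun _ => t v) * H v) *
          (gA pt (fun _ => 1) ^ (t v - 1) * K1 v)) := by
      unfold JJ
      rw [map_sum, Finset.mul_sum]
      refine Finset.sum_congr rfl fun v _ => ?_
      rw [map_mul up (S.J a q v _), Cox.J_map]
      show S.J (fun q x => up (a q x)) q v _ * _ = _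
      ring
    rw [e1]
    refine Dvd.dvd.mul_left (map_dvd _ ?_) _
    refine hcop.symm.dvd_of_dvd_mul_right ?_
    rw [Finset.sum_mul]
    have e2 : ∀ v, S.J a q v (fun v => gA pt (fun _ => t v) * H v) *
        (gA pt (fun _ => 1) ^ (t v - 1) * K1 v) * gA pt (fun _ => 1) =
        gA pt (fun _ => m q) * (S.J a q v H * K1 v) := by
      intro v
      have e3 := Cox.J_hom_prod a h.ht h.hm (fun i => X - C (pt i)) q v Finset.univ H
      have e4 : S.J a q v (fun v => gA pt (fun _ => t v) * H v) * gA pt (fun _ => t v) =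
        gA pt (fun _ => m q) * S.J a q v H := e3
      by_cases h0 : t v = 0
      · rw [hK10 v h0]; ring
      · have e5 : gA pt (fun _ => t v) =
            gA pt (fun _ => 1) ^ (t v - 1) * gA pt (fun _ => 1) := by
          rw [gA_const pt (t v), ← pow_succ]; congr 1; omega
        rw [← mul_assoc (gA pt fun _ => m q), ← e4]
        conv_rhs => rw [mul_assoc, mul_comm (gA pt fun _ => t v), ← mul_assoc]
        conv_lhs => rw [mul_assoc, mul_right_comm, ← e5, mul_comm (gA pt fun _ => t v),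
          ← mul_assoc]
    rw [Finset.sum_congr rfl fun v _ => e2 v, ← Finset.mul_sum, hK1 q]
    exact Dvd.dvd.mul_left (dvd_mul_right _ _) _
  · -- the derivative at `Y`
    obtain ⟨⟨Z, hZ1, hZ2⟩, hW⟩ := deriv_red h hY q hz1 (fun j v => hw1 v j)
    choose W hW1 hW2 using hW
    refine lat_one (z' := Z - up g ^ 2 * z' q) (w' := fun j => W j - ex (pt j) (up g ^ 2) * w' q j)
      ?_ ?_ ?_ ?_
    · show (∑ v, S.J (fun q x => up (a q x)) q v Y * (eps k * up (z v) + up (g ^ 2) * s v)) -
        up g ^ 2 * φ q = _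
      rw [hZ1]
      nth_rewrite 1 [hz q]
      ring
    · intro j
      show ex (pt j) ((∑ v, S.J (fun q x => up (a q x)) q v Y *
        (eps k * up (z v) + up (g ^ 2) * s v)) - up g ^ 2 * φ q) = _
      rw [map_sub, hW1 j, map_mul, hw q j]; ring
    · rw [map_sub, hZ2]
      have h1 : (∑ v, S.J a q v (fun v => gA pt (fun _ => t v) * H v) * red (z'' v) -
          red (up g ^ 2 * z' q)) * gA pt (fun _ => 1) = 0 := by
        rw [sub_mul, map_mul, map_pow, red_up, mul_assoc, hψ q, Finset.sum_mul, sub_eq_zero]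
        have h2 : g ^ 2 * (gA pt (fun _ => m q) * ψ q) =
            gA pt (fun _ => m q) * ∑ v, S.J a q v H * K v := by
          rw [hKJ q]; ring
        rw [h2, Finset.mul_sum]
        refine Finset.sum_congr rfl fun v _ => ?_
        rw [hz2 v, mul_assoc, hzz v, ← mul_assoc, ← mul_assoc]
        congr 1
        exact Cox.J_hom_prod a h.ht h.hm (fun i => X - C (pt i)) q v Finset.univ H
      exact (mul_eq_zero.1 h1).resolve_right hPi
    · intro j l hl
      rw [map_sub, coeff_sub, hW2 j]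
      have h1 : (∑ v, S.J (fun q x => C ((a q x).eval (pt j))) q v (y j) * δ j v).coeff l =
          (red (ex (pt j) (up g ^ 2) * w' q j)).coeff l := by
        show (∑ v, S.J (fun q x => C ((a q x).eval (pt j))) q v (y j) *
          (δ0 j v + δ1 j v)).coeff l = _
        simp only [mul_add, Finset.sum_add_distrib]
        rw [coeff_add, hδJ j q, hr2 j q l hl, coeff_sub]
        ring
      simp only [hw2]
      rw [h1, sub_self]

end

end Pool.Agent.Work.WRC
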