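import Mathlib
import Pool.Agent.Work.MP_4329d7_ag_wrc.KLag
import Pool.Agent.Work.MP_4329d7_ag_wrc.Comb
import Pool.Agent.Work.MP_4329d7_ag_wrc.Defs

/-!
# Assembly of the comb lemma

`comb_total`: for a comb (handle and teeth) satisfying the surjectivity conditions at the levels `1`
and `2` there is a solution over `k⟦ε⟧` reducing to the comb, free and very free over every field
containing `k⟦ε⟧`.
-/

namespace Pool.Agent.Work.WRC

open Polynomial

/-- Nakayama for approximate solutions. -/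
theorem lin_exact {R E G : Type*} [CommRing R] [IsLocalRing R] [AddCommGroup E] [Module R E]
    [AddCommGroup G] [Module R G] (x : R) (hx : x ∈ IsLocalRing.maximalIdeal R)
    (L : Submodule R E) (M : Submodule R G) (hM : M.FG) (T : E →ₗ[R] G)
    (happ : ∀ g ∈ M, ∃ p ∈ L, ∃ g' ∈ M, T p = g + x • g') : ∀ g ∈ M, ∃ p ∈ L, T p = g := by
  have h : M ≤ L.map T := by
    refine Submodule.le_of_le_smul_of_le_jacobson_bot hM (I := Ideal.span {x}) ?_ ?_
    · rw [IsLocalRing.jacobson_eq_maximalIdeal _ bot_ne_top, Ideal.span_singleton_le_iff_mem]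
      exact hx
    · intro g hg
      obtain ⟨p, hp, g', hg', h1⟩ := happ g hg
      have h2 : g = T p + x • (-g') := by rw [h1]; simp
      rw [h2]
      exact Submodule.add_mem_sup (Submodule.mem_map_of_mem hp)
        (Submodule.smul_mem_smul (Ideal.mem_span_singleton_self x) (M.neg_mem hg'))
  intro g hg
  obtain ⟨p, hp, h1⟩ := h hg
  exact ⟨p, hp, h1⟩

section
variable {k : Type*} [Field k] {ι : Type*}

theorem latSub_fg {V : Type} [Finite V] (pt : ι → k) (t : ι → V → ℕ) (D : V → ℤ) :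
    (latSub pt t D).FG := by
  have h1 : (Submodule.pi Set.univ fun v : V =>
      degreeLT (PowerSeries k) (D v + 1).toNat).FG :=
    Submodule.fg_pi fun v => Module.Finite.iff_fg.1 inferInstance
  refine h1.of_le fun h hh v _ => ?_
  show h v ∈ degreeLT (PowerSeries k) (D v + 1).toNat
  rw [mem_degreeLT, Polynomial.degree_lt_iff_coeff_zero]
  intro i hi
  exact (hh v).1 i (by omega)

theorem X_mem_maximal : (PowerSeries.X : PowerSeries k) ∈
    IsLocalRing.maximalIdeal (PowerSeries k) := by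
  rw [IsLocalRing.mem_maximalIdeal, mem_nonunits_iff, PowerSeries.isUnit_iff_constantCoeff,
    PowerSeries.constantCoeff_X]
  exact not_isUnit_zero

end

section
variable {V Q Mo : Type} [Fintype V] {k : Type*} [Field k] {ι : Type*}

/-- solvability over a field containing `k⟦ε⟧` from solvability in the lattices -/
theorem transfer [Fintype Q] [Fintype ι] {S : Cox V Q Mo} {a : Q → Mo → k[X]}
    {Y : V → (PowerSeries k)[X]} {D : V → ℤ} {E : Q → ℤ} {b : ℤ} {B : Prop} {pt : ι → k}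
    {m : ι → Q → ℕ}
    (hex : ∀ g : Q → (PowerSeries k)[X],
      (∀ q, DegLE (g q) (E q - b) ∧ Lat pt (fun j => m j q) 0 (g q)) →
      ∃ (h : V → (PowerSeries k)[X]) (γ : V → PowerSeries k), S.Eul γ ∧
        (∀ v, DegLE (h v) (D v - 1)) ∧ (B → ∀ v, lc (h v) (D v - 1) = γ v * lc (Y v) (D v)) ∧
        ∀ q, JJ S a q Y h = g q)
    {L : Type*} [Field L] (φ : PowerSeries k →+* L) (hφ : Function.Injective φ) (g : Q → L[X])
    (hg : ∀ q, DegLE (g q) (E q - b)) :
    ∃ (h : V → L[X]) (γ : V → L), S.Eul γ ∧ (∀ v, DegLE (h v) (D v - 1)) ∧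
      (B → ∀ v, lc (h v) (D v - 1) = γ v * lc ((Y v).map φ) (D v)) ∧
      ∀ q, ∑ v, S.J (fun q x => (up (a q x)).map φ) q v (fun v => (Y v).map φ) * h v = g q := by
  classical
  let M : ℕ := 1 + ∑ j, ∑ q, m j q
  have hM : ∀ j q, m j q ≤ M := by
    intro j q
    have h1 : m j q ≤ ∑ q, m j q := Finset.single_le_sum (f := fun q => m j q)
      (fun _ _ => Nat.zero_le _) (Finset.mem_univ q)
    have h2 : ∑ q, m j q ≤ ∑ j, ∑ q, m j q :=
      Finset.single_le_sum (f := fun j => ∑ q, m j q) (fun _ _ => Nat.zero_le _)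
        (Finset.mem_univ j)
    show m j q ≤ 1 + ∑ j, ∑ q, m j q
    omega
  have hbasis : ∀ (q0 : Q) (i : ℕ), (i : ℤ) ≤ E q0 - b →
      ∃ (h : V → (PowerSeries k)[X]) (γ : V → PowerSeries k), S.Eul γ ∧
        (∀ v, DegLE (h v) (D v - 1)) ∧ (B → ∀ v, lc (h v) (D v - 1) = γ v * lc (Y v) (D v)) ∧
        ∀ q, JJ S a q Y h = if q = q0 then eps k ^ M * X ^ i else 0 := by
    intro q0 i hi
    refine hex (fun q => if q = q0 then eps k ^ M * X ^ i else 0) fun q => ?_
    by_cases hq : q = q0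
    · subst hq
      simp only [if_true]
      refine ⟨DegLE.eps_mul _ ?_, ?_, fun j => ?_⟩
      · have h1 : (X ^ i : (PowerSeries k)[X]) = monomial i 1 := (monomial_one_right_eq_X_pow i).symm
        rw [h1]
        exact (DegLE.monomial _ _).mono hi
      · exact Dvd.dvd.mul_right (pow_dvd_pow _ (by show 0 + 1 ≤ 1 + _; omega)) _
      · rw [map_mul, map_pow, ex_eps, zero_add]
        exact Dvd.dvd.mul_right (pow_dvd_pow _ (hM j q)) _
    · simp only [if_neg hq]
      exact ⟨DegLE.zero _, Lat.zero _⟩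
  choose! H Γ hΓ hHd hHt hHJ using hbasis
  have hX : φ PowerSeries.X ≠ 0 := fun h0 => PowerSeries.X_ne_zero (hφ (by rw [h0, map_zero]))
  have hXM : φ PowerSeries.X ^ M ≠ 0 := pow_ne_zero _ hX
  have hmem : ∀ q0, ∀ i ∈ (g q0).support, (i : ℤ) ≤ E q0 - b := by
    intro q0 i hi
    by_contra hcon
    exact (mem_support_iff.1 hi) (hg q0 i (by omega))
  refine ⟨fun v => ∑ q0, ∑ i ∈ (g q0).support,
      C ((g q0).coeff i / φ PowerSeries.X ^ M) * (H q0 i v).map φ,
    fun v => ∑ q0, ∑ i ∈ (g q0).support,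
      (g q0).coeff i / φ PowerSeries.X ^ M * φ (Γ q0 i v), ?_, ?_, ?_, ?_⟩
  · intro i0
    have h1 : ∀ v, (S.ray v i0 : L) * ∑ q0, ∑ i ∈ (g q0).support,
        (g q0).coeff i / φ PowerSeries.X ^ M * φ (Γ q0 i v) =
        ∑ q0, ∑ i ∈ (g q0).support, (g q0).coeff i / φ PowerSeries.X ^ M *
          ((S.ray v i0 : L) * φ (Γ q0 i v)) := by
      intro v
      rw [Finset.mul_sum]
      refine Finset.sum_congr rfl fun q0 _ => ?_
      rw [Finset.mul_sum]
      exact Finset.sum_congr rfl fun i _ => by ring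
    rw [Finset.sum_congr rfl fun v _ => h1 v, Finset.sum_comm]
    refine Finset.sum_eq_zero fun q0 _ => ?_
    rw [Finset.sum_comm]
    refine Finset.sum_eq_zero fun i hi => ?_
    rw [← Finset.mul_sum]
    have h2 := congrArg φ (hΓ q0 i (hmem q0 i hi) i0)
    rw [map_sum, map_zero] at h2
    have h3 : ∀ v, φ ((S.ray v i0 : PowerSeries k) * Γ q0 i v) =
        (S.ray v i0 : L) * φ (Γ q0 i v) := fun v => by rw [map_mul, map_intCast]
    rw [← Finset.sum_congr rfl fun v _ => h3 v, h2, mul_zero]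
  · intro v
    refine DegLE.sum fun q0 _ => DegLE.sum fun i hi => DegLE.C_mul _ ?_
    intro l hl
    rw [coeff_map, hHd q0 i (hmem q0 i hi) v l hl, map_zero]
  · intro hB v
    have hlm : ∀ (p : (PowerSeries k)[X]) (n : ℤ), lc (p.map φ) n = φ (lc p n) := by
      intro p n
      unfold lc
      split_ifs
      · rw [coeff_map]
      · rw [map_zero]
    rw [lc_sum, Finset.sum_mul]
    refine Finset.sum_congr rfl fun q0 _ => ?_
    rw [lc_sum, Finset.sum_mul]
    refine Finset.sum_congr rfl fun i hi => ?_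
    rw [lc_C_mul, hlm, hlm, hHt q0 i (hmem q0 i hi) hB v, map_mul]
    ring
  · intro q
    have hJm : ∀ v, S.J (fun q x => (up (a q x)).map φ) q v (fun v => (Y v).map φ) =
        (S.J (upc a) q v Y).map φ := fun v => (Cox.J_map (C := S) (mapRingHom φ) (upc a) q v Y).symm
    have h1 : ∀ v, S.J (fun q x => (up (a q x)).map φ) q v (fun v => (Y v).map φ) *
        ∑ q0, ∑ i ∈ (g q0).support, C ((g q0).coeff i / φ PowerSeries.X ^ M) * (H q0 i v).map φ =
        ∑ q0, ∑ i ∈ (g q0).support, C ((g q0).coeff i / φ PowerSeries.X ^ M) *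
          (S.J (upc a) q v Y * H q0 i v).map φ := by
      intro v
      rw [hJm v, Finset.mul_sum]
      refine Finset.sum_congr rfl fun q0 _ => ?_
      rw [Finset.mul_sum]
      refine Finset.sum_congr rfl fun i _ => ?_
      rw [Polynomial.map_mul]
      ring
    rw [Finset.sum_congr rfl fun v _ => h1 v, Finset.sum_comm]
    have h2 : ∀ q0, ∑ v, ∑ i ∈ (g q0).support, C ((g q0).coeff i / φ PowerSeries.X ^ M) *
        (S.J (upc a) q v Y * H q0 i v).map φ = if q = q0 then g q else 0 := by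
      intro q0
      rw [Finset.sum_comm]
      have h3 : ∀ i ∈ (g q0).support, ∑ v, C ((g q0).coeff i / φ PowerSeries.X ^ M) *
          (S.J (upc a) q v Y * H q0 i v).map φ =
          if q = q0 then C ((g q0).coeff i) * X ^ i else 0 := by
        intro i hi
        rw [← Finset.mul_sum, ← Polynomial.map_sum]
        have h4 := hHJ q0 i (hmem q0 i hi) q
        unfold JJ at h4
        rw [h4]
        split_ifs
        · have h5 : (eps k ^ M * X ^ i : (PowerSeries k)[X]).map φ =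
              C (φ PowerSeries.X ^ M) * X ^ i := by
            rw [Polynomial.map_mul, Polynomial.map_pow, Polynomial.map_pow, map_X]
            unfold eps
            rw [map_C, C_pow]
          rw [h5, ← mul_assoc, ← C_mul, div_mul_cancel₀ _ hXM]
        · rw [Polynomial.map_zero, mul_zero]
      rw [Finset.sum_congr rfl h3]
      split_ifs with hq
      · subst hq
        exact (as_sum_support_C_mul_X_pow (g q)).symm
      · exact Finset.sum_const_zero
    rw [Finset.sum_congr rfl fun q0 _ => h2 q0, Finset.sum_ite_eq Finset.univ q,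
      if_pos (Finset.mem_univ _)]

end

section
variable {V Q Mo : Type} [Fintype V] [DecidableEq V] {k : Type*} [Field k] {ι : Type*} [Fintype ι]
  [DecidableEq ι] {S : Cox V Q Mo} {a : Q → Mo → k[X]} {n : V → ℤ} {d : Q → ℤ} {H : V → k[X]}
  {pt : ι → k} {t : ι → V → ℕ} {m : ι → Q → ℕ} {y : ι → V → k[X]}

omit [DecidableEq V] in
theorem comb_hdeg (h : Comb S a n d H pt t m y) (q : Q) (x : Mo) (hx : x ∈ S.supp q) :
    DegLE (a q x)
      (d q + ∑ j, (m j q : ℤ) - ∑ v, (n v + ∑ i, (t i v : ℤ)) * (S.e q x v : ℤ)) := by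
  have h1 : ∀ j, ∑ v, (t j v : ℤ) * (S.e q x v : ℤ) = (m j q : ℤ) := fun j => by
    rw [Cox.rel_sum (h.ht j) hx, h.hm j q]
  have h2 : ∑ v, (n v + ∑ i, (t i v : ℤ)) * (S.e q x v : ℤ) =
      ∑ v, n v * (S.e q x v : ℤ) + ∑ j, (m j q : ℤ) := by
    rw [← Finset.sum_congr rfl fun j _ => h1 j, Finset.sum_comm, ← Finset.sum_add_distrib]
    refine Finset.sum_congr rfl fun v _ => ?_
    rw [add_mul, Finset.sum_mul]
  have h3 : d q - ∑ v, n v * (S.e q x v : ℤ) =
      d q + ∑ j, (m j q : ℤ) - ∑ v, (n v + ∑ i, (t i v : ℤ)) * (S.e q x v : ℤ) := by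
    rw [h2]; ring
  rw [← h3]
  exact h.hdeg q x hx

omit [Fintype V] [DecidableEq V] [DecidableEq ι] in
/-- the property of reducing to the comb is stable -/
theorem Good.of_lat {Y1 Y : V → (PowerSeries k)[X]} (hY1 : Good n H pt t y Y1)
    (hd : ∀ v, DegLE (Y v - Y1 v) (n v + ∑ i, (t i v : ℤ) - 1) ∧
      Lat pt (fun j => t j v) 1 (Y v - Y1 v)) : Good n H pt t y Y := by
  have e : ∀ v, Y v = Y1 v + (Y v - Y1 v) := fun v => by ring
  refine ⟨fun v => ?_, fun v => ?_, fun v => ?_, fun j v => ?_⟩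
  · rw [e v]
    exact (hY1.deg v).add ((hd v).1.mono (by omega))
  · rw [e v, lc_add, hY1.top v, lc_of_degLE (hd v).1 (by omega), add_zero]
  · rw [e v, map_add, hY1.redY v]
    obtain ⟨w, hw⟩ := (hd v).2.1
    rw [hw, map_mul, map_pow, red_eps]
    simp
  · obtain ⟨y1, h1, h2⟩ := hY1.exY j v
    obtain ⟨w, hw⟩ := (hd v).2.2 j
    refine ⟨y1 + eps k * w, ?_, ?_⟩
    · rw [e v, map_add, h1, hw]
      ring
    · rw [map_add, map_mul, red_eps, zero_mul, add_zero, h2]

/-- **The comb lemma.** -/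
theorem comb_total [Fintype Q] (h : Comb S a n d H pt t m y) {K0 : V → k[X]}
    (hK0 : ∀ v, DegLE (K0 v) (n v + Fintype.card ι - 1))
    (hJ0 : ∀ q, ∑ v, S.J a q v H * K0 v = 0)
    (hfit : ∀ j v, gB pt (fun i => t i v) j * (K0 v).eval (pt j) =
      gB pt (fun _ => 1) j * lc (y j v) (t j v - 1))
    (hon : ∀ b : ℤ, b = 1 ∨ b = 2 → ∀ (G : Q → k[X]) (c : ι → Q → k[X]),
      (∀ q, DegLE (G q) (d q + Fintype.card ι - b)) →
      ∃ K δ, Fit n pt t K δ ∧
      (2 ≤ b → ∃ γ : V → k, S.Eul γ ∧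
        ∀ v, lc (K v) (n v + Fintype.card ι - 1) = γ v * lc (H v) (n v)) ∧
      (∀ q, ∑ v, S.J a q v H * K v = G q) ∧
      ∀ j q l, l + 2 ≤ m j q →
        (∑ v, S.J (fun q x => C ((a q x).eval (pt j))) q v (y j) *
          δ j v).coeff l = (c j q).coeff l) :
    ∃ Y : V → (PowerSeries k)[X], Good n H pt t y Y ∧
      (∀ q, S.F (fun q x => up (a q x)) q Y = 0) ∧
      ∀ b : ℤ, b = 1 ∨ b = 2 → ∀ {L : Type} [Field L] (φ : PowerSeries k →+* L),
        Function.Injective φ → ∀ g : Q → L[X],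
        (∀ q, DegLE (g q) (d q + ∑ j, (m j q : ℤ) - b)) →
        ∃ (h : V → L[X]) (γ : V → L), S.Eul γ ∧
          (∀ v, DegLE (h v) (n v + ∑ i, (t i v : ℤ) - 1)) ∧
          (2 ≤ b → ∀ v, lc (h v) (n v + ∑ i, (t i v : ℤ) - 1) =
            γ v * lc ((Y v).map φ) (n v + ∑ i, (t i v : ℤ))) ∧
          ∀ q, ∑ v, S.J (fun q x => (up (a q x)).map φ) q v (fun v => (Y v).map φ) * h v =
            g q := by
  classical
  obtain ⟨Y1, hY1, hF1⟩ := comb_base h hK0 hJ0 hfit
  have happ : ∀ b : ℤ, b = 1 ∨ b = 2 → ∀ Y, Good n H pt t y Y → ∀ g : Q → (PowerSeries k)[X],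
      (∀ q, DegLE (g q) (d q + ∑ j, (m j q : ℤ) - b)) → (∀ q, Lat pt (fun j => m j q) 0 (g q)) →
      ∃ (h : V → (PowerSeries k)[X]) (γ : V → PowerSeries k), S.Eul γ ∧
        (∀ v, DegLE (h v) (n v + ∑ i, (t i v : ℤ) - 1) ∧ Lat pt (fun j => t j v) 0 (h v)) ∧
        (2 ≤ b → ∀ v, lc (h v) (n v + ∑ i, (t i v : ℤ) - 1) =
          γ v * lc (Y v) (n v + ∑ i, (t i v : ℤ))) ∧
        ∀ q, Lat pt (fun j => m j q) 1 (JJ S a q Y h - g q) := by
    intro b hb Y hY g hg hl
    obtain ⟨τ, u, h1, h2, h3, h4, h5⟩ := comb_surj h b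
      (fun κ => 2 ≤ b → ∃ γ : V → k, S.Eul γ ∧ ∀ v, κ v = γ v * lc (H v) (n v)) (hon b hb) hY g hg hl
    by_cases hb2 : 2 ≤ b
    · obtain ⟨γ, hγ, hγ'⟩ := h1 hb2
      refine ⟨u, fun v => PowerSeries.X * PowerSeries.C (γ v), ?_, fun v => ⟨h2 v, h3 v⟩,
        fun _ v => ?_, h5⟩
      · intro i
        have h6 := congrArg (PowerSeries.C (R := k)) (hγ i)
        rw [map_sum, map_zero] at h6
        have h7 : ∀ v, (S.ray v i : PowerSeries k) * (PowerSeries.X * PowerSeries.C (γ v)) =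
            PowerSeries.X * PowerSeries.C ((S.ray v i : k) * γ v) := fun v => by
          rw [map_mul, map_intCast]; ring
        rw [Finset.sum_congr rfl fun v _ => h7 v, ← Finset.mul_sum, h6, mul_zero]
      · rw [h4 v, hY.top v, hγ' v, map_mul]
        ring
    · exact ⟨u, fun _ => 0, fun i => by simp, fun v => ⟨h2 v, h3 v⟩, fun h => absurd h hb2, h5⟩
  obtain ⟨Y, hY1Y, hF⟩ := comb_newton a (fun v => n v + ∑ i, (t i v : ℤ))
    (fun q => d q + ∑ j, (m j q : ℤ)) (comb_hdeg h) pt t h.ht m h.hm Y1 hY1.deg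
    (fun j v => by obtain ⟨w, hw, -⟩ := hY1.exY j v; exact ⟨w, hw⟩) hF1
    (fun q => (comb_top h hY1 q).2)
    (fun g hg => by
      obtain ⟨u, -, -, h2, -, h3⟩ := happ 1 (Or.inl rfl) Y1 hY1 g (fun q => (hg q).1)
        fun q => (hg q).2
      exact ⟨u, h2, h3⟩)
  have hY : Good n H pt t y Y := hY1.of_lat hY1Y
  refine ⟨Y, hY, hF, fun b hb L _ φ hφ => ?_⟩
  refine transfer (pt := pt) (m := m) (B := 2 ≤ b) (fun g hg => ?_) φ hφ
  -- the exact linear equation
  let T : ((V → (PowerSeries k)[X]) × (V → PowerSeries k)) →ₗ[PowerSeries k]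
      (Q → (PowerSeries k)[X]) :=
    { toFun := fun p q => JJ S a q Y p.1
      map_add' := fun p p' => funext fun q => JJ_add a q Y p.1 p'.1
      map_smul' := fun c p => funext fun q => JJ_smul a q Y p.1 c }
  let Lb : Submodule (PowerSeries k) ((V → (PowerSeries k)[X]) × (V → PowerSeries k)) :=
    { carrier := {p | (∀ v, DegLE (p.1 v) (n v + ∑ i, (t i v : ℤ) - 1)) ∧ S.Eul p.2 ∧
        (2 ≤ b → ∀ v, lc (p.1 v) (n v + ∑ i, (t i v : ℤ) - 1) =
          p.2 v * lc (Y v) (n v + ∑ i, (t i v : ℤ)))}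
      add_mem' := fun {p p'} ha hb' => by
        refine ⟨fun v => (ha.1 v).add (hb'.1 v), ?_, fun h2 v => ?_⟩
        · exact ha.2.1.add hb'.2.1
        · simp only [Prod.fst_add, Prod.snd_add, Pi.add_apply]
          rw [lc_add, ha.2.2 h2 v, hb'.2.2 h2 v]
          ring
      zero_mem' := by
        refine ⟨fun v => DegLE.zero _, fun i => by simp, fun _ v => ?_⟩
        simp only [Prod.fst_zero, Prod.snd_zero, Pi.zero_apply, zero_mul]
        unfold lc
        simp
      smul_mem' := fun c p hp => by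
        refine ⟨fun v => ?_, hp.2.1.smul c, fun h2 v => ?_⟩
        · simp only [Prod.smul_fst, Pi.smul_apply, smul_eq_C_mul]
          exact (hp.1 v).C_mul c
        · simp only [Prod.smul_snd, Prod.smul_fst, Pi.smul_apply, smul_eq_mul, smul_eq_C_mul]
          rw [lc_C_mul, hp.2.2 h2 v]
          ring }
  let M := latSub pt (fun j q => m j q) (fun q => d q + ∑ j, (m j q : ℤ) - b)
  have happ : ∀ g ∈ M, ∃ p ∈ Lb, ∃ g' ∈ M, T p = g + (PowerSeries.X : PowerSeries k) • g' := by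
    intro g hg
    obtain ⟨u, γ, h1, h2, h3, h4⟩ := happ b hb Y hY g (fun q => (hg q).1) fun q => (hg q).2
    refine ⟨(u, γ), ⟨fun v => (h2 v).1, h1, h3⟩, ?_⟩
    have hdg : ∀ q, DegLE (JJ S a q Y u) (d q + ∑ j, (m j q : ℤ) - b) := by
      intro q
      rcases hb with hb | hb
      · rw [hb]
        exact deg_JJ a _ (fun q => d q + ∑ j, (m j q : ℤ)) (comb_hdeg h) hY.deg
          (fun v => (h2 v).1) q
      · rw [hb]
        refine deg_JJ2 a _ (fun q => d q + ∑ j, (m j q : ℤ)) (comb_hdeg h) hY.deg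
          (fun v => (h2 v).1) ?_ h1 (h3 (by omega))
        exact (comb_top h hY q).2
    obtain ⟨g', hg', h6⟩ := latSub_div (s := 1) (D := fun q => d q + ∑ j, (m j q : ℤ) - b)
      (t := fun j q => m j q) (g := fun q => JJ S a q Y u - g q)
      (fun q => (hdg q).sub (hg q).1) h4
    refine ⟨g', hg', ?_⟩
    rw [pow_one] at h6
    rw [← h6]
    funext q
    show JJ S a q Y u = g q + (JJ S a q Y u - g q)
    ring
  obtain ⟨p, hp, h1⟩ := lin_exact PowerSeries.X X_mem_maximal Lb M (latSub_fg _ _ _) T happ g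
    (fun q => hg q)
  exact ⟨p.1, p.2, hp.2.1, hp.1, hp.2.2, fun q => congrFun h1 q⟩

end

end Pool.Agent.Work.WRC
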