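import Mathlib
import Pool.Agent.Work.MP_4329d7_ag_wrc.Defs
import Pool.Agent.Work.MP_4329d7_ag_wrc.KLat

/-!
# Double covers and constant gauges of free curves
-/

namespace Pool.Agent.Work.WRC

open Polynomial

section
variable {k : Type*} [Field k]

theorem sq_coeff_even (p : k[X]) (l : ℕ) : (p.comp (X ^ 2)).coeff (2 * l) = p.coeff l := by
  rw [← expand_eq_comp_X_pow, coeff_expand two_pos, if_pos (dvd_mul_right 2 l),
    Nat.mul_div_cancel_left _ two_pos]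

theorem sq_coeff_odd (p : k[X]) (l : ℕ) : (p.comp (X ^ 2)).coeff (2 * l + 1) = 0 := by
  rw [← expand_eq_comp_X_pow, coeff_expand two_pos, if_neg (by omega)]

theorem Xsq_coeff_even (p : k[X]) (l : ℕ) : (X * p.comp (X ^ 2)).coeff (2 * l) = 0 := by
  rcases l with _ | l
  · simp
  · have h : 2 * (l + 1) = (2 * l + 1) + 1 := by ring
    rw [h, coeff_X_mul, sq_coeff_odd]

theorem Xsq_coeff_odd (p : k[X]) (l : ℕ) : (X * p.comp (X ^ 2)).coeff (2 * l + 1) = p.coeff l := by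
  rw [coeff_X_mul, sq_coeff_even]

/-- even and odd parts -/
theorem exists_even_odd (g : k[X]) : ∃ g0 g1 : k[X], g = g0.comp (X ^ 2) + X * g1.comp (X ^ 2) ∧
    (∀ l, g0.coeff l = g.coeff (2 * l)) ∧ ∀ l, g1.coeff l = g.coeff (2 * l + 1) := by
  have h0 : ∀ l, (contract 2 g).coeff l = g.coeff (2 * l) := fun l => by
    rw [coeff_contract two_ne_zero, mul_comm]
  have h1 : ∀ l, (contract 2 (divX g)).coeff l = g.coeff (2 * l + 1) := fun l => by
    rw [coeff_contract two_ne_zero, coeff_divX, mul_comm]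
  refine ⟨contract 2 g, contract 2 (divX g), ?_, h0, h1⟩
  ext i
  rcases Nat.even_or_odd' i with ⟨l, rfl | rfl⟩
  · rw [coeff_add, sq_coeff_even, Xsq_coeff_even, h0, add_zero]
  · rw [coeff_add, sq_coeff_odd, Xsq_coeff_odd, h1, zero_add]

theorem DegLE.sq_add {p0 p1 : k[X]} {n : ℕ} (h0 : DegLE p0 ((n : ℤ) - 1))
    (h1 : DegLE p1 ((n : ℤ) - 1)) :
    DegLE (p0.comp (X ^ 2) + X * p1.comp (X ^ 2)) (((2 * n : ℕ) : ℤ) - 1) := by
  intro i hi
  rcases Nat.even_or_odd' i with ⟨l, rfl | rfl⟩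
  · rw [coeff_add, sq_coeff_even, Xsq_coeff_even, h0 l (by omega), add_zero]
  · rw [coeff_add, sq_coeff_odd, Xsq_coeff_odd, h1 l (by omega), zero_add]

theorem DegLE.sq {p : k[X]} {n : ℕ} (h : DegLE p n) :
    DegLE (p.comp (X ^ 2)) ((2 * n : ℕ) : ℤ) := by
  intro i hi
  rcases Nat.even_or_odd' i with ⟨l, rfl | rfl⟩
  · rw [sq_coeff_even, h l (by omega)]
  · rw [sq_coeff_odd]

theorem lc_sq (p : k[X]) (n : ℕ) : lc (p.comp (X ^ 2)) ((2 * n : ℕ) : ℤ) = lc p n := by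
  rw [lc_of_nat, lc_of_nat, sq_coeff_even]

theorem lc_sq_pred (p : k[X]) (n : ℕ) : lc (p.comp (X ^ 2)) (((2 * n : ℕ) : ℤ) - 1) = 0 := by
  rcases n with _ | n
  · exact lc_of_neg (by norm_num)
  · have h : (((2 * (n + 1) : ℕ) : ℤ) - 1) = ((2 * n + 1 : ℕ) : ℤ) := by push_cast; ring
    rw [h, lc_of_nat, sq_coeff_odd]

theorem lc_sq_add (p0 p1 : k[X]) (n : ℕ) :
    lc (p0.comp (X ^ 2) + X * p1.comp (X ^ 2)) (((2 * n : ℕ) : ℤ) - 1) = lc p1 ((n : ℤ) - 1) := by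
  rcases n with _ | n
  · rw [lc_of_neg (by norm_num), lc_of_neg (by norm_num)]
  · have h : (((2 * (n + 1) : ℕ) : ℤ) - 1) = ((2 * n + 1 : ℕ) : ℤ) := by push_cast; ring
    have h' : (((n + 1 : ℕ) : ℤ) - 1) = (n : ℤ) := by push_cast; ring
    rw [h, h', lc_of_nat, lc_of_nat, coeff_add, sq_coeff_odd, Xsq_coeff_odd, zero_add]

end

section
variable {V Q Mo : Type} [Fintype V] {S : Cox V Q Mo} {k : Type} [Field k]

theorem J_dbl (c : Q → Mo → k) (T : V → k[X]) (q : Q) (v : V) :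
    S.J (fun q x => C (c q x)) q v (fun v => (T v).comp (X ^ 2)) =
      (S.J (fun q x => C (c q x)) q v T).comp (X ^ 2) := by
  have h := Cox.J_map (C := S) (compRingHom (X ^ 2 : k[X])) (fun q x => (C (c q x) : k[X])) q v T
  simp only [coe_compRingHom_apply, C_comp] at h
  exact h.symm

theorem F_dbl (c : Q → Mo → k) (T : V → k[X]) (q : Q) :
    S.F (fun q x => C (c q x)) q (fun v => (T v).comp (X ^ 2)) =
      (S.F (fun q x => C (c q x)) q T).comp (X ^ 2) := by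
  have h := Cox.F_map (C := S) (compRingHom (X ^ 2 : k[X])) (fun q x => (C (c q x) : k[X])) q T
  simp only [coe_compRingHom_apply, C_comp] at h
  exact h.symm

theorem J_dbl_sum (c : Q → Mo → k) (T h0 h1 : V → k[X]) (q : Q) :
    ∑ v, S.J (fun q x => C (c q x)) q v (fun v => (T v).comp (X ^ 2)) *
      ((h0 v).comp (X ^ 2) + X * (h1 v).comp (X ^ 2)) =
    (∑ v, S.J (fun q x => C (c q x)) q v T * h0 v).comp (X ^ 2) +
      X * (∑ v, S.J (fun q x => C (c q x)) q v T * h1 v).comp (X ^ 2) := by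
  have e : ∀ v, S.J (fun q x => C (c q x)) q v (fun v => (T v).comp (X ^ 2)) *
      ((h0 v).comp (X ^ 2) + X * (h1 v).comp (X ^ 2)) =
      (S.J (fun q x => C (c q x)) q v T * h0 v).comp (X ^ 2) +
        X * (S.J (fun q x => C (c q x)) q v T * h1 v).comp (X ^ 2) := by
    intro v
    rw [J_dbl, mul_comp, mul_comp]
    ring
  have hs : ∀ p : V → k[X], (∑ v, p v).comp (X ^ 2) = ∑ v, (p v).comp (X ^ 2) :=
    fun p => map_sum (compRingHom (X ^ 2 : k[X])) p _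
  rw [Finset.sum_congr rfl fun v _ => e v, Finset.sum_add_distrib, ← Finset.mul_sum,
    hs, hs]

/-- double covers of free curves are free -/
theorem FreeS.dbl {c : Q → Mo → k} {T : V → k[X]} {n : V → ℕ} {m : Q → ℕ}
    (h : FreeS S (fun q x => C (c q x)) T (fun v => n v) (fun q => m q)) :
    FreeS S (fun q x => C (c q x)) (fun v => (T v).comp (X ^ 2))
      (fun v => ((2 * n v : ℕ) : ℤ)) (fun q => ((2 * m q : ℕ) : ℤ)) := by
  intro g hg
  choose g0 g1 hg2 hg0 hg1 using fun q => exists_even_odd (g q)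
  obtain ⟨h0, h0d, h0J⟩ := h g0 fun q l hl => by
    have hl' : (m q : ℤ) - 1 < l := hl
    rw [hg0]; exact hg q _ (by push_cast; omega)
  obtain ⟨h1, h1d, h1J⟩ := h g1 fun q l hl => by
    have hl' : (m q : ℤ) - 1 < l := hl
    rw [hg1]; exact hg q _ (by push_cast; omega)
  refine ⟨fun v => (h0 v).comp (X ^ 2) + X * (h1 v).comp (X ^ 2),
    fun v => DegLE.sq_add (h0d v) (h1d v), fun q => ?_⟩
  rw [J_dbl_sum, h0J, h1J, ← hg2]

/-- double covers of very free curves are very free -/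
theorem VFreeS.dbl {c : Q → Mo → k} {T : V → k[X]} {n : V → ℕ} {m : Q → ℕ}
    (h : FreeS S (fun q x => C (c q x)) T (fun v => n v) (fun q => m q))
    (h' : VFreeS S (fun q x => C (c q x)) T (fun v => n v) (fun q => m q)) :
    VFreeS S (fun q x => C (c q x)) (fun v => (T v).comp (X ^ 2))
      (fun v => ((2 * n v : ℕ) : ℤ)) (fun q => ((2 * m q : ℕ) : ℤ)) := by
  intro g hg
  choose g0 g1 hg2 hg0 hg1 using fun q => exists_even_odd (g q)
  obtain ⟨h0, h0d, h0J⟩ := h g0 fun q l hl => by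
    have hl' : (m q : ℤ) - 1 < l := hl
    rw [hg0]; exact hg q _ (by push_cast; omega)
  obtain ⟨h1, γ, hγ, h1d, h1t, h1J⟩ := h' g1 fun q l hl => by
    have hl' : (m q : ℤ) - 2 < l := hl
    rw [hg1]; exact hg q _ (by push_cast; omega)
  refine ⟨fun v => (h0 v).comp (X ^ 2) + X * (h1 v).comp (X ^ 2), γ, hγ,
    fun v => DegLE.sq_add (h0d v) (h1d v), fun v => ?_, fun q => ?_⟩
  · rw [lc_sq_add, h1t v, lc_sq]
  · rw [J_dbl_sum, h0J, h1J, ← hg2]

variable [DecidableEq V]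

theorem J_gaugeC {c : Q → Mo → k[X]} {T : V → k[X]} {t : V → ℕ} (ht : S.Rel fun v => (t v : ℤ))
    {μ : Q → ℕ} (hμ : ∀ q, (μ q : ℤ) = S.m (fun v => (t v : ℤ)) q) (z : k) (h : V → k[X]) (q : Q) :
    ∑ v, S.J c q v (fun v => C (z ^ t v) * T v) * (C (z ^ t v) * h v) =
      C (z ^ μ q) * ∑ v, S.J c q v T * h v := by
  rw [Finset.mul_sum]
  refine Finset.sum_congr rfl fun v _ => ?_
  have h1 := Cox.J_hom c ht (hμ q) (C z) T v
  simp only [← C_pow] at h1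
  rw [← mul_assoc, h1]
  ring

omit [DecidableEq V] in
theorem F_gaugeC {c : Q → Mo → k[X]} {T : V → k[X]} {t : V → ℕ} (ht : S.Rel fun v => (t v : ℤ))
    {μ : Q → ℕ} (hμ : ∀ q, (μ q : ℤ) = S.m (fun v => (t v : ℤ)) q) (z : k) (q : Q) :
    S.F c q (fun v => C (z ^ t v) * T v) = C (z ^ μ q) * S.F c q T := by
  have h1 := Cox.F_hom c ht (hμ q) (C z) T
  simp only [← C_pow] at h1
  exact h1

theorem FreeS.gaugeC {c : Q → Mo → k[X]} {T : V → k[X]} {D : V → ℤ} {E : Q → ℤ}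
    (h : FreeS S c T D E) {t : V → ℕ} (ht : S.Rel fun v => (t v : ℤ))
    {μ : Q → ℕ} (hμ : ∀ q, (μ q : ℤ) = S.m (fun v => (t v : ℤ)) q) {z : k} (hz : z ≠ 0) :
    FreeS S c (fun v => C (z ^ t v) * T v) D E := by
  intro g hg
  obtain ⟨u, hu, hJ⟩ := h (fun q => C (z ^ μ q)⁻¹ * g q) fun q => (hg q).C_mul _
  refine ⟨fun v => C (z ^ t v) * u v, fun v => (hu v).C_mul _, fun q => ?_⟩
  rw [J_gaugeC ht hμ z u q, hJ q, ← mul_assoc, ← C_mul, mul_inv_cancel₀ (pow_ne_zero _ hz), C_1,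
    one_mul]

theorem VFreeS.gaugeC {c : Q → Mo → k[X]} {T : V → k[X]} {D : V → ℤ} {E : Q → ℤ}
    (h : VFreeS S c T D E) {t : V → ℕ} (ht : S.Rel fun v => (t v : ℤ))
    {μ : Q → ℕ} (hμ : ∀ q, (μ q : ℤ) = S.m (fun v => (t v : ℤ)) q) {z : k} (hz : z ≠ 0) :
    VFreeS S c (fun v => C (z ^ t v) * T v) D E := by
  intro g hg
  obtain ⟨u, γ, hγ, hu, hut, hJ⟩ := h (fun q => C (z ^ μ q)⁻¹ * g q) fun q => (hg q).C_mul _
  refine ⟨fun v => C (z ^ t v) * u v, γ, hγ, fun v => (hu v).C_mul _, fun v => ?_, fun q => ?_⟩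
  · rw [lc_C_mul, lc_C_mul, hut v]
    ring
  · rw [J_gaugeC ht hμ z u q, hJ q, ← mul_assoc, ← C_mul, mul_inv_cancel₀ (pow_ne_zero _ hz), C_1,
      one_mul]

end

end Pool.Agent.Work.WRC
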