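import Mathlib
import Pool.Agent.Work.MP_4329d7_ag_wrc.KComb
import Pool.Agent.Work.MP_4329d7_ag_wrc.KSq

/-!
# The comb lemma for a handle of full rank and for a constant handle

`comb_handle`: very free teeth (all of the same type `n`, used through their double covers) along a
handle for which the Jacobian is surjective at the levels `card ι - 1` and `card ι - 2`.
`comb_const`: free teeth through the point `1`, for constant coefficients, whose directions together
with the Euler vectors span the kernel of the Jacobian at `1`.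
-/

namespace Pool.Agent.Work.WRC

open Polynomial

section
variable {k : Type*} [Field k] {ι : Type*} [Fintype ι] [DecidableEq ι]

theorem gB_const (pt : ι → k) (e : ℕ) (j : ι) :
    gB pt (fun _ => e) j = gB pt (fun _ => 1) j ^ e := by
  unfold gB
  rw [← Finset.prod_pow]
  exact Finset.prod_congr rfl fun i _ => by rw [pow_one]

end

section
variable {V Q Mo : Type} [Fintype V] [DecidableEq V] {k : Type} [Field k] {ι : Type} [Fintype ι]
  [DecidableEq ι] {S : Cox V Q Mo} {a : Q → Mo → k[X]} {N : V → ℤ} {M : Q → ℤ} {H : V → k[X]}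
  {pt : ι → k} {n : V → ℕ} {m : Q → ℕ} {T : ι → V → k[X]}

/-- the normalised double covers of the teeth -/
noncomputable def dtooth (pt : ι → k) (n : V → ℕ) (T : ι → V → k[X]) (j : ι) (v : V) : k[X] :=
  C (gB pt (fun _ => 1) j ^ (2 * n v)) * (T j v).comp (X ^ 2)

omit [DecidableEq V] in
theorem rel_two (hn : S.Rel fun v => (n v : ℤ)) : S.Rel fun v => ((2 * n v : ℕ) : ℤ) := by
  intro i
  have h := hn i
  have h1 : ∀ v, S.ray v i * ((2 * n v : ℕ) : ℤ) = 2 * (S.ray v i * (n v : ℤ)) := fun v => by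
    push_cast; ring
  rw [Finset.sum_congr rfl fun v _ => h1 v, ← Finset.mul_sum, h, mul_zero]

omit [DecidableEq V] in
theorem m_two (hm : ∀ q, (m q : ℤ) = S.m (fun v => (n v : ℤ)) q) (q : Q) :
    ((2 * m q : ℕ) : ℤ) = S.m (fun v => ((2 * n v : ℕ) : ℤ)) q := by
  have h1 : S.m (fun v => ((2 * n v : ℕ) : ℤ)) q = 2 * S.m (fun v => (n v : ℤ)) q := by
    unfold Cox.m
    rw [Finset.mul_sum]
    exact Finset.sum_congr rfl fun v _ => by push_cast; ring
  rw [h1, ← hm q]
  push_cast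
  ring

omit [DecidableEq V] in
/-- double covers of teeth form a comb with the handle -/
theorem comb_dbl [Nonempty ι]
    (hdeg : ∀ q, ∀ x ∈ S.supp q, DegLE (a q x) (M q - ∑ v, N v * S.e q x v))
    (hH : ∀ v, DegLE (H v) (N v)) (hF : ∀ q, S.F a q H = 0) (hpt : Function.Injective pt)
    (hn : S.Rel fun v => (n v : ℤ)) (hm : ∀ q, (m q : ℤ) = S.m (fun v => (n v : ℤ)) q)
    (hm1 : ∀ q, 1 ≤ m q) (hT : ∀ j v, DegLE (T j v) (n v))
    (hTl : ∀ j v, lc (T j v) (n v) = (H v).eval (pt j))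
    (hTF : ∀ j q, S.F (fun q x => C ((a q x).eval (pt j))) q (T j) = 0)
    (hN0 : ∀ v, n v = 0 → 0 ≤ N v) (hN : ∀ v, n v ≠ 0 → 1 ≤ N v + Fintype.card ι) :
    Comb S a N M H pt (fun _ v => 2 * n v) (fun _ q => 2 * m q) (dtooth pt n T) := by
  have hc : 1 ≤ Fintype.card ι := Fintype.card_pos
  refine ⟨hdeg, hH, hF, hpt, fun _ => rel_two hn, fun _ q => m_two hm q,
    fun _ q => by have := hm1 q; omega, fun j v => (DegLE.sq (hT j v)).C_mul _, fun j v => ?_,
    fun j q => ?_, fun v => ?_, fun v => ?_⟩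
  · unfold dtooth
    rw [lc_C_mul, lc_sq, hTl j v, gB_const pt (2 * n v) j]
  · unfold dtooth
    have h1 := F_gaugeC (S := S) (c := fun q x => (C ((a q x).eval (pt j)) : k[X]))
      (T := fun v => (T j v).comp (X ^ 2)) (rel_two hn) (fun q => m_two hm q)
      (gB pt (fun _ => 1) j) q
    rw [h1, F_dbl, hTF j q, zero_comp, mul_zero]
  · have h1 : ∑ _i : ι, (2 * n v - 1) = Fintype.card ι * (2 * n v - 1) := by simp
    have h2 : ∑ _i : ι, ((2 * n v : ℕ) : ℤ) = Fintype.card ι * ((2 * n v : ℕ) : ℤ) := by simp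
    rw [h1, h2]
    by_cases h0 : n v = 0
    · rw [h0]; simpa using hN0 v h0
    · have h3 := hN v h0
      have h4 : ((Fintype.card ι * (2 * n v - 1) : ℕ) : ℤ) =
          Fintype.card ι * ((2 * n v : ℕ) : ℤ) - Fintype.card ι := by
        rw [Nat.cast_mul, Nat.cast_sub (by omega)]; push_cast; ring
      rw [h4]; linarith
  · have h1 : ∑ _i : ι, (2 * n v - 1) = Fintype.card ι * (2 * n v - 1) := by simp
    have h2 : ∑ _i : ι, ((2 * n v : ℕ) : ℤ) = Fintype.card ι * ((2 * n v : ℕ) : ℤ) := by simp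
    rw [h1, h2]
    by_cases h0 : n v = 0
    · rw [h0]
      simp only [mul_zero, Nat.zero_sub, Nat.cast_zero, add_zero]
      have := hN0 v h0
      omega
    · have h3 := hN v h0
      have h4 : ((Fintype.card ι * (2 * n v - 1) : ℕ) : ℤ) =
          Fintype.card ι * ((2 * n v : ℕ) : ℤ) - Fintype.card ι := by
        rw [Nat.cast_mul, Nat.cast_sub (by omega)]; push_cast; ring
      left
      rw [h4]; linarith

omit [Fintype V] [DecidableEq V] in
theorem fit_zero (j : ι) (v : V) : gB pt (fun _ => 2 * n v) j * ((0 : V → k[X]) v).eval (pt j) =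
    gB pt (fun _ => 1) j * lc (dtooth pt n T j v) (((2 * n v : ℕ) : ℤ) - 1) := by
  unfold dtooth
  rw [lc_C_mul, lc_sq_pred]
  simp

omit [DecidableEq V] in
/-- the integral span condition gives Euler vectors -/
theorem span_eul [CharZero k] (hspan : ∀ v, n v = 0 → ∃ γ : V → ℤ, S.Rel γ ∧ γ v ≠ 0 ∧
      ∀ w, w ≠ v → n w = 0 → γ w = 0) (v : V) (hv : 2 * n v = 0) :
    ∃ γ : V → k, S.Eul γ ∧ γ v = 1 ∧ ∀ w, w ≠ v → 2 * n w = 0 → γ w = 0 := by
  obtain ⟨γ, h1, h2, h3⟩ := hspan v (by omega)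
  have h2' : (γ v : k) ≠ 0 := Int.cast_ne_zero.2 h2
  refine ⟨fun w => (γ w : k) / γ v, fun i => ?_, div_self h2', fun w hw hnw => ?_⟩
  · have h4 := congrArg (fun z : ℤ => (z : k)) (h1 i)
    simp only [Int.cast_sum, Int.cast_mul, Int.cast_zero] at h4
    have h5 : ∀ w, (S.ray w i : k) * ((γ w : k) / γ v) = (S.ray w i : k) * γ w / γ v :=
      fun w => by ring
    rw [Finset.sum_congr rfl fun w _ => h5 w, ← Finset.sum_div, h4, zero_div]
  · show (γ w : k) / γ v = 0
    rw [h3 w hw (by omega), Int.cast_zero, zero_div]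

/-- **The comb lemma for a handle of full rank.** -/
theorem comb_handle [Fintype Q] [Nonempty ι] [CharZero k]
    (hdeg : ∀ q, ∀ x ∈ S.supp q, DegLE (a q x) (M q - ∑ v, N v * S.e q x v))
    (hH : ∀ v, DegLE (H v) (N v)) (hF : ∀ q, S.F a q H = 0) (hpt : Function.Injective pt)
    (hn : S.Rel fun v => (n v : ℤ)) (hm : ∀ q, (m q : ℤ) = S.m (fun v => (n v : ℤ)) q)
    (hm1 : ∀ q, 1 ≤ m q)
    (hspan : ∀ v, n v = 0 → ∃ γ : V → ℤ, S.Rel γ ∧ γ v ≠ 0 ∧ ∀ w, w ≠ v → n w = 0 → γ w = 0)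
    (hT0 : ∀ j v, T j v ≠ 0) (hT : ∀ j v, DegLE (T j v) (n v))
    (hTl : ∀ j v, lc (T j v) (n v) = (H v).eval (pt j))
    (hTF : ∀ j q, S.F (fun q x => C ((a q x).eval (pt j))) q (T j) = 0)
    (hfr : ∀ j, FreeS S (fun q x => C ((a q x).eval (pt j))) (T j) (fun v => n v) (fun q => m q))
    (hvf : ∀ j, VFreeS S (fun q x => C ((a q x).eval (pt j))) (T j) (fun v => n v)
      (fun q => m q))
    (hN : ∀ v, n v ≠ 0 → 1 ≤ N v + Fintype.card ι)
    (hev : ∀ b : ℤ, b = 1 ∨ b = 2 → ∀ G : Q → k[X],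
      (∀ q, DegLE (G q) (M q + Fintype.card ι - b)) →
      ∃ K : V → k[X], (∀ v, DegLE (K v) (N v + Fintype.card ι - b)) ∧
        ∀ q, ∑ v, S.J a q v H * K v = G q) :
    ∃ Y : V → (PowerSeries k)[X],
      (∀ v, DegLE (Y v) (N v + Fintype.card ι * (2 * n v))) ∧
      (∀ v, lc (Y v) (N v + Fintype.card ι * (2 * n v)) = PowerSeries.C (lc (H v) (N v))) ∧
      (∀ v, red (Y v) = (∏ j, (X - C (pt j))) ^ (2 * n v) * H v) ∧
      (∀ j, ∃ c : k, c ≠ 0 ∧ ∀ v, ∃ Z, ex (pt j) (Y v) = eps k ^ (2 * n v) * Z ∧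
        red Z = C (c ^ (2 * n v)) * (T j v).comp (X ^ 2)) ∧
      (∀ q, S.F (fun q x => (a q x).map PowerSeries.C) q Y = 0) ∧
      ∀ {L : Type} [Field L] (φ : PowerSeries k →+* L), Function.Injective φ →
        FreeS S (fun q x => (a q x).map (φ.comp PowerSeries.C)) (fun v => (Y v).map φ)
          (fun v => N v + Fintype.card ι * (2 * n v)) (fun q => M q + Fintype.card ι * (2 * m q)) ∧
        VFreeS S (fun q x => (a q x).map (φ.comp PowerSeries.C)) (fun v => (Y v).map φ)
          (fun v => N v + Fintype.card ι * (2 * n v))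
          (fun q => M q + Fintype.card ι * (2 * m q)) := by
  classical
  have hz : ∀ v, n v = 0 → ∀ j, (H v).eval (pt j) ≠ 0 := by
    intro v h0 j h1
    have h2 := hTl j v
    rw [h0] at h2
    have h3 := hT j v
    rw [h0] at h3
    refine hT0 j v ?_
    ext l
    by_cases hl : l = 0
    · rw [hl, coeff_zero, ← h1, ← h2]
      exact (lc_of_nat 0).symm
    · exact h3 l (by push_cast; omega)
  have hN0 : ∀ v, n v = 0 → 0 ≤ N v := by
    intro v h0
    by_contra hcon
    push Not at hcon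
    obtain ⟨j⟩ := ‹Nonempty ι›
    refine hz v h0 j ?_
    rw [(hH v).eq_zero hcon, eval_zero]
  have hC := comb_dbl hdeg hH hF hpt hn hm hm1 hT hTl hTF hN0 hN
  obtain ⟨Y, hY, hYF, hYL⟩ := comb_total hC (K0 := 0) (fun v => DegLE.zero _)
    (fun q => by simp) (fun j v => fit_zero j v) (fun b hb G c hG => by
      refine onto_vfree hC (fun j v h0 => hz v (by omega) j)
        (fun j v h0 => span_eul hspan v h0) (fun j => ?_) b (hev b hb) (by omega) G c hG
      have h1 := (VFreeS.dbl (hfr j) (hvf j)).gaugeC (rel_two hn) (fun q => m_two hm q)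
        (gB_ne_zero hpt (fun _ => 1) j)
      intro g hg
      obtain ⟨h, γ, h2, h3, h4, h5⟩ := h1 g hg
      exact ⟨h, γ, h2, h3, h4, h5⟩)
  have eD : ∀ v, N v + ∑ _i : ι, ((2 * n v : ℕ) : ℤ) = N v + Fintype.card ι * (2 * n v) :=
    fun v => by simp
  have eE : ∀ q, M q + ∑ _i : ι, ((2 * m q : ℕ) : ℤ) = M q + Fintype.card ι * (2 * m q) :=
    fun q => by simp
  refine ⟨Y, fun v => by rw [← eD v]; exact hY.deg v, fun v => by rw [← eD v]; exact hY.top v,
    fun v => ?_, fun j => ⟨gB pt (fun _ => 1) j, gB_ne_zero hpt _ j, fun v => hY.exY j v⟩, hYF,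
    fun {L} _ φ hφ => ?_⟩
  · rw [hY.redY v]
    unfold gA
    rw [Finset.prod_pow]
  · have e1 : (fun q x => (a q x).map (φ.comp PowerSeries.C)) =
        fun q x => (up (a q x)).map φ := by
      funext q x
      unfold up
      rw [coe_mapRingHom, Polynomial.map_map]
    rw [e1]
    refine ⟨fun g hg => ?_, fun g hg => ?_⟩
    · obtain ⟨h, γ, h1, h2, h3, h4⟩ := hYL 1 (Or.inl rfl) φ hφ g
        (fun q => by rw [eE q]; exact hg q)
      exact ⟨h, fun v => by have := h2 v; rwa [eD v] at this, h4⟩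
    · obtain ⟨h, γ, h1, h2, h3, h4⟩ := hYL 2 (Or.inr rfl) φ hφ g
        (fun q => by rw [eE q]; exact hg q)
      refine ⟨h, γ, h1, fun v => by have := h2 v; rwa [eD v] at this, fun v => ?_, h4⟩
      have := h3 le_rfl v
      rwa [eD v] at this

/-- the top coefficient of the derivative along a tooth -/
theorem lc_J_sum {c : Q → Mo → k} (hn : S.Rel fun v => (n v : ℤ))
    (hm : ∀ q, (m q : ℤ) = S.m (fun v => (n v : ℤ)) q) {Y δ : V → k[X]}
    (hY : ∀ v, DegLE (Y v) (n v)) (hδ : ∀ v, DegLE (δ v) ((n v : ℤ) - 1)) (q : Q) :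
    lc (∑ v, S.J (fun q x => C (c q x)) q v Y * δ v) ((m q : ℤ) - 1) =
      ∑ v, S.J c q v (fun v => lc (Y v) (n v)) * lc (δ v) ((n v : ℤ) - 1) := by
  have hc : ∀ x ∈ S.supp q, DegLE ((fun q x => (C (c q x) : k[X])) q x)
      ((m q : ℤ) - ∑ v, (n v : ℤ) * (S.e q x v : ℤ)) := by
    intro x hx
    rw [Cox.rel_sum hn hx, ← hm q, sub_self]
    exact DegLE.C _ le_rfl
  rw [lc_sum]
  refine Finset.sum_congr rfl fun v _ => ?_
  have h1 := lc_mul (Cox.J_degLE (C := S) (c := fun q x => (C (c q x) : k[X])) hc hY v) (hδ v)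
  rw [Cox.J_lc (C := S) (c := fun q x => (C (c q x) : k[X])) hc hY v] at h1
  have h2 : (m q : ℤ) - n v + (n v - 1) = (m q : ℤ) - 1 := by ring
  rw [h2] at h1
  rw [h1]
  congr 1
  rw [Cox.J_eq, Cox.J_eq]
  refine Finset.sum_congr rfl fun x hx => ?_
  rw [Cox.rel_sum hn hx, ← hm q, sub_self]
  have h4 : lc (C (c q x) : k[X]) 0 = c q x := by unfold lc; simp
  rw [h4]

/-- **The comb lemma for a constant handle.** -/
theorem comb_const [Fintype Q] [Nonempty ι] {c : Q → Mo → k} (hpt : Function.Injective pt)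
    (hn : S.Rel fun v => (n v : ℤ)) (hm1 : ∀ q, 1 ≤ S.m (fun v => (n v : ℤ)) q)
    (hT : ∀ j v, DegLE (T j v) (n v)) (hTl : ∀ j v, lc (T j v) (n v) = 1)
    (hTF : ∀ j q, S.F (fun q x => C (c q x)) q (T j) = 0)
    (hc1 : ∀ q, S.F c q (fun _ => 1) = 0)
    (hfr : ∀ j, FreeS S (fun q x => C (c q x)) (T j) (fun v => n v) (S.m fun v => (n v : ℤ)))
    (hspan : ∀ κ : V → k, (∀ q, ∑ v, S.J c q v (fun _ => 1) * κ v = 0) →
      κ ∈ Submodule.span k ({γ : V → k | S.Eul γ} ∪ {w : V → k | ∃ j, ∃ h : V → k[X],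
        (∀ v, DegLE (h v) ((n v : ℤ) - 1)) ∧
        (∀ q, ∑ v, S.J (fun q x => C (c q x)) q v (T j) * h v = 0) ∧
        w = fun v => lc (h v) ((n v : ℤ) - 1)})) :
    ∃ Y : V → (PowerSeries k)[X],
      (∀ v, DegLE (Y v) ((Fintype.card ι * (2 * n v) : ℕ) : ℤ)) ∧
      (∀ v, lc (Y v) ((Fintype.card ι * (2 * n v) : ℕ) : ℤ) = 1) ∧
      (∀ q, S.F (fun q x => C (PowerSeries.C (c q x))) q Y = 0) ∧
      ∀ {L : Type} [Field L] (φ : PowerSeries k →+* L), Function.Injective φ →
        FreeS S (fun q x => C (φ (PowerSeries.C (c q x)))) (fun v => (Y v).map φ)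
          (fun v => ((Fintype.card ι * (2 * n v) : ℕ) : ℤ))
          (S.m fun v => ((Fintype.card ι * (2 * n v) : ℕ) : ℤ)) ∧
        VFreeS S (fun q x => C (φ (PowerSeries.C (c q x)))) (fun v => (Y v).map φ)
          (fun v => ((Fintype.card ι * (2 * n v) : ℕ) : ℤ))
          (S.m fun v => ((Fintype.card ι * (2 * n v) : ℕ) : ℤ)) := by
  classical
  let m : Q → ℕ := fun q => (S.m (fun v => (n v : ℤ)) q).toNat
  have hm : ∀ q, (m q : ℤ) = S.m (fun v => (n v : ℤ)) q := fun q =>
    Int.toNat_of_nonneg (by have := hm1 q; omega)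
  have hm1' : ∀ q, 1 ≤ m q := fun q => by have h1 := hm q; have h2 := hm1 q; omega
  have hmf : (S.m fun v => (n v : ℤ)) = fun q => (m q : ℤ) := funext fun q => (hm q).symm
  have hcard : 1 ≤ Fintype.card ι := Fintype.card_pos
  rw [hmf] at hfr
  have hC : Comb S (fun q x => C (c q x)) (fun _ => 0) (fun _ => 0)
      (fun v => C ((fun _ => 1 : V → k) v)) pt (fun _ v => 2 * n v) (fun _ q => 2 * m q)
      (dtooth pt n T) := by
    refine comb_dbl (a := fun q x => C (c q x)) (N := fun _ => 0) (M := fun _ => 0)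
      (fun q x _ => by simpa using DegLE.C (c q x) le_rfl) (fun v => DegLE.C _ le_rfl)
      (fun q => ?_) hpt hn hm hm1' hT
      (fun j v => by rw [hTl j v, C_1, eval_one]) (fun j q => ?_) (fun _ _ => le_rfl)
      (fun _ _ => by omega)
    · have h1 := Cox.F_map (C := S) (C : k →+* k[X]) c q (fun _ => 1)
      rw [hc1 q, map_zero] at h1
      exact h1.symm
    · simp only [eval_C]
      exact hTF j q
  have hfr2 : ∀ j, FreeS S (fun q x => C (c q x)) (dtooth pt n T j)
      (fun v => ((2 * n v : ℕ) : ℤ)) (fun q => ((2 * m q : ℕ) : ℤ)) := fun j =>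
    (FreeS.dbl (hfr j)).gaugeC (rel_two hn) (fun q => m_two hm q) (gB_ne_zero hpt (fun _ => 1) j)
  have hrank : ∀ g : Q → k, ∃ κ : V → k, ∀ q, ∑ v, S.J c q v (fun _ => 1) * κ v = g q := by
    intro g
    obtain ⟨j⟩ := ‹Nonempty ι›
    obtain ⟨h, h1, h2⟩ := hfr j (fun q => monomial (m q - 1) (g q)) fun q => by
      refine (DegLE.monomial _ _).mono ?_
      have := hm1' q
      show ((m q - 1 : ℕ) : ℤ) ≤ (m q : ℤ) - 1
      omega
    refine ⟨fun v => lc (h v) ((n v : ℤ) - 1), fun q => ?_⟩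
    have h3 := lc_J_sum (c := c) hn hm (hT j) h1 q
    rw [h2 q] at h3
    have h4 : lc (monomial (m q - 1) (g q) : k[X]) ((m q : ℤ) - 1) = g q := by
      have := hm1' q
      have h5 : ((m q : ℤ) - 1) = ((m q - 1 : ℕ) : ℤ) := by omega
      rw [h5, lc_of_nat, coeff_monomial, if_pos rfl]
    rw [h4] at h3
    simp only [hTl] at h3
    exact h3.symm
  have hdir : ∀ κ : V → k, (∀ q, ∑ v, S.J c q v (fun _ => 1) * κ v = 0) →
      ∃ (θ : ι → V → k[X]) (γ : V → k), (∀ j v, DegLE (θ j v) (((2 * n v : ℕ) : ℤ) - 1)) ∧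
        (∀ j q, ∑ v, S.J (fun q x => C (c q x)) q v (dtooth pt n T j) * θ j v = 0) ∧ S.Eul γ ∧
        ∀ v, κ v = ∑ j, lc (θ j v) (((2 * n v : ℕ) : ℤ) - 1) / gB pt (fun _ => 2 * n v) j +
          γ v * 1 := by
    intro κ hκ
    refine Submodule.span_induction (p := fun κ _ =>
      ∃ (θ : ι → V → k[X]) (γ : V → k), (∀ j v, DegLE (θ j v) (((2 * n v : ℕ) : ℤ) - 1)) ∧
        (∀ j q, ∑ v, S.J (fun q x => C (c q x)) q v (dtooth pt n T j) * θ j v = 0) ∧ S.Eul γ ∧
        ∀ v, κ v = ∑ j, lc (θ j v) (((2 * n v : ℕ) : ℤ) - 1) / gB pt (fun _ => 2 * n v) j +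
          γ v * 1) ?_ ?_ ?_ ?_ (hspan κ hκ)
    · rintro w (hw | ⟨j, h, h1, h2, h3⟩)
      · refine ⟨fun _ _ => 0, w, fun _ _ => DegLE.zero _, fun j q => by simp, hw, fun v => ?_⟩
        have h0 : lc (0 : k[X]) (((2 * n v : ℕ) : ℤ) - 1) = 0 := by unfold lc; simp
        simp only [h0]
        simp
      · let θ : ι → V → k[X] := fun i v => if i = j then
          C (gB pt (fun _ => 1) j ^ (2 * n v)) * ((0 : k[X]).comp (X ^ 2) + X * (h v).comp (X ^ 2))
          else 0
        refine ⟨θ, fun _ => 0, fun i v => ?_, fun i q => ?_, fun i => by simp, fun v => ?_⟩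
        · show DegLE (if i = j then _ else 0) _
          split_ifs
          · exact (DegLE.sq_add (DegLE.zero _) (h1 v)).C_mul _
          · exact DegLE.zero _
        · by_cases hi : i = j
          · subst hi
            have h4 : ∀ v, θ i v = C (gB pt (fun _ => 1) i ^ (2 * n v)) *
                ((0 : k[X]).comp (X ^ 2) + X * (h v).comp (X ^ 2)) := fun v => if_pos rfl
            have h5 := J_gaugeC (S := S) (c := fun q x => (C (c q x) : k[X]))
              (T := fun v => (T i v).comp (X ^ 2)) (rel_two hn) (fun q => m_two hm q)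
              (gB pt (fun _ => 1) i)
              (fun v => (0 : k[X]).comp (X ^ 2) + X * (h v).comp (X ^ 2)) q
            have h6 := J_dbl_sum (S := S) c (T i) (fun _ => 0) h q
            rw [h2 q] at h6
            simp only [h4]
            unfold dtooth
            rw [h5, h6]
            simp
          · have h4 : ∀ v, θ i v = 0 := fun v => if_neg hi
            simp only [h4, mul_zero, Finset.sum_const_zero]
        · rw [Finset.sum_eq_single j]
          · have h4 : θ j v = C (gB pt (fun _ => 1) j ^ (2 * n v)) *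
                ((0 : k[X]).comp (X ^ 2) + X * (h v).comp (X ^ 2)) := if_pos rfl
            rw [h4, lc_C_mul, lc_sq_add, gB_const pt (2 * n v) j, h3,
              mul_div_cancel_left₀ _ (pow_ne_zero _ (gB_ne_zero hpt _ j))]
            ring
          · intro i _ hi
            have h4 : θ i v = 0 := if_neg hi
            have h0 : lc (0 : k[X]) (((2 * n v : ℕ) : ℤ) - 1) = 0 := by unfold lc; simp
            rw [h4, h0, zero_div]
          · intro h; exact absurd (Finset.mem_univ j) h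
    · refine ⟨fun _ _ => 0, fun _ => 0, fun _ _ => DegLE.zero _, fun j q => by simp,
        fun i => by simp, fun v => ?_⟩
      have h0 : lc (0 : k[X]) (((2 * n v : ℕ) : ℤ) - 1) = 0 := by unfold lc; simp
      simp only [h0]
      simp
    · rintro w w' - - ⟨θ, γ, h1, h2, h3, h4⟩ ⟨θ', γ', h1', h2', h3', h4'⟩
      refine ⟨fun j v => θ j v + θ' j v, fun v => γ v + γ' v, fun j v => (h1 j v).add (h1' j v),
        fun j q => ?_, h3.add h3', fun v => ?_⟩
      · simp only [mul_add, Finset.sum_add_distrib]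
        rw [h2 j q, h2' j q, add_zero]
      · rw [Pi.add_apply, h4 v, h4' v]
        simp only [lc_add, add_div, Finset.sum_add_distrib]
        ring
    · rintro r w - ⟨θ, γ, h1, h2, h3, h4⟩
      refine ⟨fun j v => C r * θ j v, fun v => r * γ v, fun j v => (h1 j v).C_mul _,
        fun j q => ?_, h3.smul r, fun v => ?_⟩
      · have h5 : ∀ v, S.J (fun q x => C (c q x)) q v (dtooth pt n T j) * (C r * θ j v) =
            C r * (S.J (fun q x => C (c q x)) q v (dtooth pt n T j) * θ j v) := fun v => by ring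
        rw [Finset.sum_congr rfl fun v _ => h5 v, ← Finset.mul_sum, h2 j q, mul_zero]
      · rw [Pi.smul_apply, smul_eq_mul, h4 v, mul_add, Finset.mul_sum]
        congr 1
        · exact Finset.sum_congr rfl fun j _ => by rw [lc_C_mul]; ring
        · ring
  obtain ⟨Y, hY, hYF, hYL⟩ := comb_total hC (K0 := 0) (fun v => DegLE.zero _)
    (fun q => by simp) (fun j v => fit_zero j v) (fun b hb G r hG =>
      onto_free hC hrank (fun j g hg => hfr2 j g hg) b (by omega) (fun _ => hdir) G r hG)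
  have eD : ∀ v, (0 : ℤ) + ∑ _i : ι, ((2 * n v : ℕ) : ℤ) =
      ((Fintype.card ι * (2 * n v) : ℕ) : ℤ) := fun v => by simp
  have eE : ∀ q, (0 : ℤ) + ∑ _i : ι, ((2 * m q : ℕ) : ℤ) =
      S.m (fun v => ((Fintype.card ι * (2 * n v) : ℕ) : ℤ)) q := fun q => by
    have h1 : S.m (fun v => ((Fintype.card ι * (2 * n v) : ℕ) : ℤ)) q =
        Fintype.card ι * S.m (fun v => ((2 * n v : ℕ) : ℤ)) q := by
      unfold Cox.m
      rw [Finset.mul_sum]
      exact Finset.sum_congr rfl fun v _ => by push_cast; ring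
    rw [h1, ← m_two hm q]
    simp
  refine ⟨Y, fun v => by have := hY.deg v; rwa [eD v] at this, fun v => ?_, fun q => ?_,
    fun {L} _ φ hφ => ?_⟩
  · have h1 := hY.top v
    rw [eD v] at h1
    rw [h1]
    have h0 : lc (C ((fun _ => 1 : V → k) v) : k[X]) 0 = 1 := by unfold lc; simp
    rw [h0, map_one]
  · have h1 := hYF q
    have e1 : (fun q x => up (C (c q x))) = fun q x => (C (PowerSeries.C (c q x)) :
        (PowerSeries k)[X]) := by
      funext q x
      unfold up
      rw [coe_mapRingHom, map_C]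
    rw [e1] at h1
    exact h1
  · have e1 : (fun q x => (up (C (c q x))).map φ) = fun q x => C (φ (PowerSeries.C (c q x))) := by
      funext q x
      unfold up
      rw [coe_mapRingHom, map_C, map_C]
    rw [← e1]
    refine ⟨fun g hg => ?_, fun g hg => ?_⟩
    · obtain ⟨h, γ, h1, h2, h3, h4⟩ := hYL 1 (Or.inl rfl) φ hφ g
        (fun q => by rw [eE q]; exact hg q)
      exact ⟨h, fun v => by have := h2 v; rwa [eD v] at this, h4⟩
    · obtain ⟨h, γ, h1, h2, h3, h4⟩ := hYL 2 (Or.inr rfl) φ hφ g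
        (fun q => by rw [eE q]; exact hg q)
      refine ⟨h, γ, h1, fun v => by have := h2 v; rwa [eD v] at this, fun v => ?_, h4⟩
      have := h3 le_rfl v
      rwa [eD v] at this

end

end Pool.Agent.Work.WRC
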