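import Mathlib
import Pool.Agent.Work.MP_4329d7_ag_wrc.CombG
import Pool.Agent.Work.MP_4329d7_ag_wrc.KGauge

/-!
# The step of the relaxed Newton iteration modulo `g ^ 2`

`gauge_step`: the correction `χ` of the step; multipliers `∏ i, z i ^ γ i v` for relations `γ i`.
-/

namespace Pool.Agent.Work.WRC

open Polynomial

section ring

variable {A : Type*} [CommRing A]

theorem prod_one_sub {I : Type*} (s : Finset I) (w : A) (ν : I → A) (n : I → ℕ) :
    w ^ 2 ∣ ∏ i ∈ s, (1 - w * ν i) ^ n i - (1 - w * ∑ i ∈ s, ν i * n i) := by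
  classical
  have h0 : ∀ (x : A) (n : ℕ), w ^ 2 ∣ (1 - w * x) ^ n - (1 - w * (x * n)) := by
    intro x n
    induction n with
    | zero => simp
    | succ n ih =>
      obtain ⟨a, ha⟩ := ih
      refine ⟨a * (1 - w * x) + x * n * x, ?_⟩
      rw [pow_succ, sub_eq_iff_eq_add.1 ha]
      push_cast
      ring
  induction s using Finset.induction_on with
  | empty => simp
  | insert i s hi ih =>
    obtain ⟨a, ha⟩ := ih
    obtain ⟨b, hb⟩ := h0 (ν i) (n i)
    rw [Finset.prod_insert hi, Finset.sum_insert hi, sub_eq_iff_eq_add.1 ha,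
      sub_eq_iff_eq_add.1 hb]
    refine ⟨(w ^ 2 * b + (1 - w * (ν i * n i))) * a + b * (1 - w * ∑ i ∈ s, ν i * n i) +
      (ν i * n i) * ∑ i ∈ s, ν i * n i, ?_⟩
    ring

theorem prod_sub_one {I : Type*} (s : Finset I) (w : A) (z : I → A) (n : I → ℕ)
    (hz : ∀ i, w ∣ z i - 1) : w ∣ ∏ i ∈ s, z i ^ n i - 1 := by
  classical
  have h0 : ∀ (x : A) (n : ℕ), w ∣ x - 1 → w ∣ x ^ n - 1 := by
    intro x n hx
    have h1 := sub_dvd_pow_sub_pow x 1 n
    rw [one_pow] at h1
    exact hx.trans h1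
  induction s using Finset.induction_on with
  | empty => simp
  | insert i s hi ih =>
    rw [Finset.prod_insert hi]
    have h1 : z i ^ n i * ∏ x ∈ s, z x ^ n x - 1 =
        z i ^ n i * (∏ x ∈ s, z x ^ n x - 1) + (z i ^ n i - 1) := by ring
    rw [h1]
    exact dvd_add (ih.mul_left _) (h0 _ _ (hz i))

end ring

section gauge

variable {V Q X : Type} [Fintype V] [DecidableEq V] {C : Cox V Q X}

omit [DecidableEq V] in
theorem Cox.F_dvd {A : Type*} [CommRing A] (c : Q → X → A) (q : Q) {z : A} {y y' : V → A}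
    (h : ∀ v, z ∣ y' v - y v) : z ∣ C.F c q y' - C.F c q y := by
  choose l hl using h
  have h1 : y' = fun v => y v + z * l v := by
    funext v
    rw [← hl v]
    ring
  obtain ⟨w, hw⟩ := Cox.F_taylor (C := C) c q z y l
  rw [h1, sub_eq_iff_eq_add.1 hw]
  exact dvd_add (((dvd_pow_self z two_ne_zero).mul_right w)) (dvd_mul_right _ _)

omit [DecidableEq V] in
theorem Cox.J_dvd {A : Type*} [CommRing A] (c : Q → X → A) (q : Q) (w : V) {z : A} {y y' : V → A}
    (h : ∀ v, z ∣ y' v - y v) : z ∣ C.J c q w y' - C.J c q w y := by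
  choose l hl using h
  have h1 : y' = fun v => y v + z * l v := by
    funext v
    rw [← hl v]
    ring
  rw [h1]
  exact Cox.J_congr _ _ _ _ _ _

/-- the gauge transformations -/
theorem Cox.F_rels {A : Type*} [CommRing A] {I : Type*} [Fintype I] (c : Q → X → A) (q : Q)
    {γ : I → V → ℕ} (hγ : ∀ i, C.Rel fun v => (γ i v : ℤ)) (z : I → A) :
    ∃ u : A, (∀ y : V → A, C.F c q (fun v => (∏ i, z i ^ γ i v) * y v) = u * C.F c q y) ∧
      ∀ (y : V → A) w, C.J c q w (fun v => (∏ i, z i ^ γ i v) * y v) * (∏ i, z i ^ γ i w) =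
        u * C.J c q w y := by
  classical
  rcases (C.supp q).eq_empty_or_nonempty with h | ⟨x, hx⟩
  · refine ⟨1, fun y => ?_, fun y w => ?_⟩
    · rw [Cox.F_eq, Cox.F_eq, h, Finset.sum_empty, Finset.sum_empty, mul_zero]
    · rw [Cox.J_eq, Cox.J_eq, h, Finset.sum_empty, Finset.sum_empty, mul_zero, zero_mul]
  · have hk : ∀ i, ((∑ v, γ i v * C.e q x v : ℕ) : ℤ) = C.m (fun v => (γ i v : ℤ)) q := by
      intro i
      rw [← Cox.rel_sum (hγ i) hx]
      push_cast
      rfl
    have key : ∀ s : Finset I,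
        (∀ y : V → A, C.F c q (fun v => (∏ i ∈ s, z i ^ γ i v) * y v) =
          (∏ i ∈ s, z i ^ (∑ v, γ i v * C.e q x v)) * C.F c q y) ∧
        ∀ (y : V → A) w, C.J c q w (fun v => (∏ i ∈ s, z i ^ γ i v) * y v) *
          (∏ i ∈ s, z i ^ γ i w) =
          (∏ i ∈ s, z i ^ (∑ v, γ i v * C.e q x v)) * C.J c q w y := by
      intro s
      induction s using Finset.induction_on with
      | empty => exact ⟨fun y => by simp, fun y w => by simp⟩
      | insert i s hi ih =>
        have h1 : ∀ y : V → A, (fun v => (∏ j ∈ insert i s, z j ^ γ j v) * y v) =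
            fun v => z i ^ γ i v * ((∏ j ∈ s, z j ^ γ j v) * y v) := by
          intro y
          funext v
          rw [Finset.prod_insert hi, mul_assoc]
        refine ⟨fun y => ?_, fun y w => ?_⟩
        · rw [h1, Cox.F_hom c (hγ i) (hk i), ih.1, Finset.prod_insert hi, mul_assoc]
        · rw [h1, Finset.prod_insert hi, Finset.prod_insert hi, ← mul_assoc,
            Cox.J_hom c (hγ i) (hk i), mul_assoc, ih.2, mul_assoc]
    exact ⟨_, (key Finset.univ).1, (key Finset.univ).2⟩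

end gauge

section step

variable {V Q X : Type} [Fintype V] [DecidableEq V] {C : Cox V Q X} {k : Type*}
    [Field k] {ι : Type*} [Fintype ι] [DecidableEq ι] {a : Q → X → k[X]} {pt : ι → k}

omit [DecidableEq ι] in
/-- lifting a residue modulo `g ^ 2` to a multiple of `W` of small degree -/
theorem exists_lift {t : ℕ} (ht : t ≠ 0) {g : k[X]} (hg : g.Monic)
    (hgp : ∀ j, g.eval (pt j) ≠ 0) (hN : 2 * g.natDegree ≤ Fintype.card ι)
    (e : (PowerSeries k)[X]) : ∃ χ : (PowerSeries k)[X],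
      Lat pt (fun _ => t) 2 χ ∧ DegLE χ (((Fintype.card ι * t : ℕ) : ℤ) - 1) ∧
      up g ^ 2 ∣ χ - eps k ^ 3 * e := by
  classical
  let W : k[X] := gA pt fun _ => t - 1
  have hcop : IsCoprime W (g ^ 2) := by
    refine IsCoprime.pow_right ?_
    refine IsCoprime.prod_left fun j _ => IsCoprime.pow_left ?_
    exact (irreducible_X_sub_C (pt j)).coprime_iff_not_dvd.2 fun h =>
      hgp j (dvd_iff_isRoot.1 h)
  obtain ⟨p, q, hpq⟩ := hcop
  have hG : (up (g ^ 2) : (PowerSeries k)[X]).Monic := by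
    unfold up
    rw [coe_mapRingHom]
    exact (hg.pow 2).map _
  have hGe : (up (g ^ 2) : (PowerSeries k)[X]) = up g ^ 2 := map_pow _ _ _
  let c := (up p * e) %ₘ up (g ^ 2)
  have hc1 : up g ^ 2 ∣ up p * e - c := by
    rw [← hGe]
    refine ⟨(up p * e) /ₘ up (g ^ 2), ?_⟩
    have h1 := modByMonic_add_div (up p * e) (up (g ^ 2))
    conv_lhs => rw [← h1]
    ring
  have hnat : (up (g ^ 2) : (PowerSeries k)[X]).natDegree = 2 * g.natDegree := by
    unfold up
    rw [coe_mapRingHom, (hg.pow 2).natDegree_map, hg.natDegree_pow]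
  have hc2 : DegLE c (((2 * g.natDegree : ℕ) : ℤ) - 1) := by
    intro i hi
    have h1 := degree_modByMonic_lt (up p * e) hG
    refine coeff_eq_zero_of_degree_lt (lt_of_lt_of_le h1 ?_)
    rw [degree_eq_natDegree hG.ne_zero, hnat]
    exact_mod_cast (by omega : 2 * g.natDegree ≤ i)
  refine ⟨eps k ^ 3 * (up W * c), ⟨?_, fun j => ?_⟩, ?_, ?_⟩
  · exact dvd_mul_right _ _
  · rw [map_mul, map_mul, map_pow, ex_eps]
    have h1 : eps k ^ (t - 1) ∣ ex (pt j) (up W) := by
      have h2 : (X - C (pt j)) ^ (t - 1) ∣ W := by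
        simp only [W]
        unfold gA
        exact Finset.dvd_prod_of_mem (fun j => (X - C (pt j)) ^ (t - 1)) (Finset.mem_univ j)
      obtain ⟨r, hr⟩ := h2
      rw [hr, ex_up_pow]
      exact dvd_mul_right _ _
    have h3 : 2 + t = 3 + (t - 1) := by omega
    change eps k ^ (2 + t) ∣ _
    rw [h3, pow_add]
    exact mul_dvd_mul_left _ (h1.mul_right _)
  · have h1 : DegLE (up W) (∑ i : ι, ((t - 1 : ℕ) : ℤ)) := (gA_degLE pt fun _ => t - 1).up
    have h2 := (h1.mul hc2).eps_mul 3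
    have h3 : (∑ i : ι, ((t - 1 : ℕ) : ℤ)) + (((2 * g.natDegree : ℕ) : ℤ) - 1) ≤
        ((Fintype.card ι * t : ℕ) : ℤ) - 1 := by
      rw [Finset.sum_const, Finset.card_univ, nsmul_eq_mul]
      have h4 : ((t - 1 : ℕ) : ℤ) = (t : ℤ) - 1 := by omega
      rw [h4]
      push_cast
      have h5 : (2 * (g.natDegree : ℤ)) ≤ Fintype.card ι := by exact_mod_cast hN
      linarith
    exact h2.mono h3
  · obtain ⟨s, hs⟩ := hc1
    have h1 : up p * up W + up q * up g ^ 2 = 1 := by
      rw [← hGe, ← map_mul, ← map_mul, ← map_add, hpq, map_one]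
    refine ⟨-(eps k ^ 3 * (up W * s + up q * e)), ?_⟩
    have h2 : c = up p * e - up g ^ 2 * s := by
      rw [← hs]
      ring
    rw [h2]
    linear_combination (eps k ^ 3 * e) * h1

omit [DecidableEq ι] in
/-- **The step modulo `g ^ 2`.** -/
theorem gauge_step {t : V → ℕ} {g : k[X]} (hg : g.Monic) (hgp : ∀ j, g.eval (pt j) ≠ 0)
    (hN : 2 * g.natDegree ≤ Fintype.card ι) {H0 : V → k[X]}
    {I : Type} [Fintype I] {γ : I → V → ℕ}
    (hγ : ∀ i, C.Rel fun v => (γ i v : ℤ)) (hγ0 : ∀ i v, t v = 0 → γ i v = 0)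
    {Y1 : V → (PowerSeries k)[X]} (hYg : ∀ v, up g ^ 2 ∣ Y1 v - up (H0 v)) {n : ℕ} (hn : 1 ≤ n)
    {Y : V → (PowerSeries k)[X]} (hL : ∀ v, Lat pt (fun _ => t v) 1 (Y v - Y1 v))
    (hz : ∃ z : I → (PowerSeries k)[X], (∀ i, eps k ^ 2 ∣ z i - 1) ∧
      ∀ v, up g ∣ Y v - (∏ i, z i ^ γ i v) * up (H0 v))
    (hF : ∀ q, up g ^ 2 ∣ C.F (upc a) q Y) {η h : V → (PowerSeries k)[X]}
    {μ : I → (PowerSeries k)[X]}
    (hηd : ∀ v, DegLE (η v) (((Fintype.card ι * t v : ℕ) : ℤ) - 1))
    (hh : ∀ v, eps k ∣ h v) (hh0 : ∀ v, t v = 0 → h v = 0) (hμ : ∀ i, eps k ∣ μ i)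
    (hη : ∀ v, up g ^ 2 ∣ η v - (up g * h v + (∑ i, μ i * (γ i v : (PowerSeries k)[X])) *
      up (H0 v)))
    (hJ : ∀ q, up g ∣ JJ C a q (fun v => up (H0 v)) h) :
    ∃ χ : V → (PowerSeries k)[X], (∀ v, Lat pt (fun _ => t v) 2 (χ v)) ∧
      (∀ v, DegLE (χ v) (((Fintype.card ι * t v : ℕ) : ℤ) - 1)) ∧
      (∃ z : I → (PowerSeries k)[X], (∀ i, eps k ^ 2 ∣ z i - 1) ∧
        ∀ v, up g ∣ Y v + eps k ^ n * (χ v - η v) - (∏ i, z i ^ γ i v) * up (H0 v)) ∧
      ∀ q, up g ^ 2 ∣ C.F (upc a) q fun v => Y v + eps k ^ n * (χ v - η v) := by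
  classical
  obtain ⟨z, hz1, hz2⟩ := hz
  choose μ' hμ' using hμ
  choose h' hh' using hh
  let U : V → (PowerSeries k)[X] := fun v => ∏ i, z i ^ γ i v
  let Ut : V → (PowerSeries k)[X] := fun v => ∏ i, (1 - eps k ^ n * μ i) ^ γ i v
  let s : V → (PowerSeries k)[X] := fun v => ∑ i, μ' i * (γ i v : (PowerSeries k)[X])
  let Yt : V → (PowerSeries k)[X] := fun v => Ut v * (Y v - eps k ^ n * up g * (U v * h v))
  -- expansions
  choose u hu using fun v => prod_sub_one Finset.univ (eps k ^ 2) z (fun i => γ i v) hz1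
  have hUt : ∀ v, eps k ^ (2 * (n + 1)) ∣ Ut v - (1 - eps k ^ (n + 1) * s v) := by
    intro v
    have h1 := prod_one_sub Finset.univ (eps k ^ (n + 1)) μ' fun i => γ i v
    rw [← pow_mul, mul_comm (n + 1) 2] at h1
    have h2 : Ut v = ∏ i, (1 - eps k ^ (n + 1) * μ' i) ^ γ i v := by
      refine Finset.prod_congr rfl fun i _ => ?_
      rw [hμ' i]
      ring
    rw [h2]
    exact h1
  choose p hp using hUt
  choose lam hlam using fun v => (hL v).1
  choose ρ hρ using hYg
  choose θ hθ using hη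
  -- the error
  have hc : ∀ v, ∃ e, up g ^ 2 ∣ (Yt v - (Y v - eps k ^ n * η v)) - eps k ^ (n + 3) * e := by
    intro v
    obtain ⟨n', rfl⟩ := Nat.exists_eq_succ_of_ne_zero (by omega : n ≠ 0)
    refine ⟨-(up g * u v * h' v) - s v * lam v +
      eps k ^ n' * (s v * (up g * (U v * h' v)) + p v * (Y v -
        eps k ^ (n'.succ + 1) * up g * (U v * h' v))),
      -(eps k ^ (n'.succ + 1) * s v * ρ v) + eps k ^ n'.succ * θ v, ?_⟩
    have e1 : Ut v = 1 - eps k ^ (n'.succ + 1) * s v + eps k ^ (2 * (n'.succ + 1)) * p v := by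
      rw [← hp v]
      ring
    have e2 : U v = 1 + eps k ^ 2 * u v := by
      rw [← hu v]
      ring
    have e3 : η v = up g * (eps k * h' v) + eps k * s v * up (H0 v) + up g ^ 2 * θ v := by
      rw [← hθ v, hh' v]
      have h1 : ∑ i, μ i * (γ i v : (PowerSeries k)[X]) = eps k * s v := by
        simp only [s]
        rw [Finset.mul_sum]
        exact Finset.sum_congr rfl fun i _ => by rw [hμ' i]; ring
      rw [h1]
      ring
    have e4 : Y v = up (H0 v) + eps k ^ 2 * lam v + up g ^ 2 * ρ v := by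
      have h1 := hlam v
      have h2 := hρ v
      have h3 : Y v = Y v - Y1 v + (Y1 v - up (H0 v)) + up (H0 v) := by ring
      rw [h3, h1, h2]
      ring
    have e5 : up (H0 v) = Y v - eps k ^ 2 * lam v - up g ^ 2 * ρ v := by
      rw [e4]
      ring
    simp only [Yt]
    rw [e3, e1, hh' v, e5, e2]
    simp only [Nat.succ_eq_add_one]
    ring
  -- the correction
  have hχ : ∀ v, ∃ χ, Lat pt (fun _ => t v) 2 χ ∧
      DegLE χ (((Fintype.card ι * t v : ℕ) : ℤ) - 1) ∧
      up g ^ 2 ∣ (Y v + eps k ^ n * (χ - η v)) - Yt v := by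
    intro v
    by_cases htv : t v = 0
    · refine ⟨0, Lat.zero _, DegLE.zero _, ?_⟩
      have h1 : η v = 0 := by
        ext1 i
        rw [coeff_zero]
        refine hηd v i ?_
        rw [htv, mul_zero]
        push_cast
        omega
      have h2 : Ut v = 1 := Finset.prod_eq_one fun i _ => by rw [hγ0 i v htv, pow_zero]
      simp only [Yt]
      rw [h1, h2, hh0 v htv]
      simp
    · obtain ⟨e, he⟩ := hc v
      obtain ⟨χ, h1, h2, h3⟩ := exists_lift (pt := pt) htv hg hgp hN e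
      refine ⟨χ, h1, h2, ?_⟩
      have h4 : (Y v + eps k ^ n * (χ - η v)) - Yt v =
          eps k ^ n * (χ - eps k ^ 3 * e) -
            ((Yt v - (Y v - eps k ^ n * η v)) - eps k ^ (n + 3) * e) := by
        rw [pow_add]
        ring
      rw [h4]
      exact dvd_sub (h3.mul_left _) he
  choose χ hχ1 hχ2 hχ3 using hχ
  have hgg : (up g : (PowerSeries k)[X]) ∣ up g ^ 2 := dvd_pow_self _ two_ne_zero
  refine ⟨χ, hχ1, hχ2, ⟨fun i => (1 - eps k ^ n * μ i) * z i, fun i => ?_, fun v => ?_⟩,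
    fun q => ?_⟩
  · have h1 : (1 - eps k ^ n * μ i) * z i - 1 = (z i - 1) - eps k ^ (n + 1) * (μ' i * z i) := by
      rw [hμ' i]
      ring
    rw [h1]
    exact dvd_sub (hz1 i) ((pow_dvd_pow _ (by omega)).mul_right _)
  · have h1 : ∏ i, ((1 - eps k ^ n * μ i) * z i) ^ γ i v = Ut v * U v := by
      simp only [Ut, U, mul_pow]
      rw [Finset.prod_mul_distrib]
    rw [h1]
    have h2 : Y v + eps k ^ n * (χ v - η v) - Ut v * U v * up (H0 v) =
        ((Y v + eps k ^ n * (χ v - η v)) - Yt v) +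
          (Ut v * (Y v - U v * up (H0 v)) - up g * (Ut v * eps k ^ n * (U v * h v))) := by
      simp only [Yt]
      ring
    rw [h2]
    exact dvd_add (hgg.trans (hχ3 v)) (dvd_sub ((hz2 v).mul_left _) (dvd_mul_right _ _))
  · -- the equations
    have h1 : up g ^ 2 ∣ C.F (upc a) q (fun v => Y v + eps k ^ n * (χ v - η v)) -
        C.F (upc a) q Yt := Cox.F_dvd _ _ hχ3
    have h2 : up g ^ 2 ∣ C.F (upc a) q Yt := by
      obtain ⟨w, hw, -⟩ := Cox.F_rels (C := C) (upc a) q hγ fun i => 1 - eps k ^ n * μ i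
      have h3 : C.F (upc a) q Yt =
          w * C.F (upc a) q (fun v => Y v - eps k ^ n * up g * (U v * h v)) := hw _
      rw [h3]
      refine Dvd.dvd.mul_left ?_ _
      have h4 := Cox.F_taylor (C := C) (upc a) q (eps k ^ n * up g) Y fun v => -(U v * h v)
      have h5 : (fun v => Y v + eps k ^ n * up g * -(U v * h v)) =
          fun v => Y v - eps k ^ n * up g * (U v * h v) := by
        funext v
        ring
      rw [h5] at h4
      have h6 : up g ^ 2 ∣ (eps k ^ n * up g) ^ 2 := by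
        rw [mul_pow]
        exact dvd_mul_left _ _
      have h7 : up g ∣ ∑ v, C.J (upc a) q v Y * -(U v * h v) := by
        obtain ⟨w', -, hw'⟩ := Cox.F_rels (C := C) (upc a) q hγ z
        have h8 : ∑ v, C.J (upc a) q v Y * -(U v * h v) =
            -(w' * JJ C a q (fun v => up (H0 v)) h) -
            ∑ v, (C.J (upc a) q v Y - C.J (upc a) q v fun v => U v * up (H0 v)) *
              (U v * h v) := by
          unfold JJ
          rw [Finset.mul_sum, ← Finset.sum_neg_distrib, ← Finset.sum_sub_distrib]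
          refine Finset.sum_congr rfl fun v _ => ?_
          have h9 := hw' (fun v => up (H0 v)) v
          have h10 : C.J (upc a) q v (fun v => U v * up (H0 v)) * U v =
              w' * C.J (upc a) q v fun v => up (H0 v) := h9
          linear_combination (-(h v)) * h10
        rw [h8]
        refine dvd_sub (((hJ q).mul_left _).neg_right) (Finset.dvd_sum fun v _ => ?_)
        exact (Cox.J_dvd _ _ _ hz2).mul_right _
      obtain ⟨r, hr⟩ := h6.trans h4
      obtain ⟨r', hr'⟩ := h7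
      obtain ⟨r'', hr''⟩ := hF q
      refine ⟨r + eps k ^ n * r' + r'', ?_⟩
      rw [hr', hr''] at hr
      linear_combination hr
    have h3 := dvd_add h1 h2
    rwa [sub_add_cancel] at h3

end step

end Pool.Agent.Work.WRC
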