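import Mathlib
import Pool.Agent.Work.MP_4329d7_ag_wrc.CombG
import Pool.Agent.Work.MP_4329d7_ag_wrc.KGauge

/-!
W-RC, comb_exist: the relaxed Newton iteration, given one step modulo `g ^ 2` (abstract property `G`
of the approximate solutions).
-/

namespace Pool.Agent.Work.WRC

open Polynomial

namespace KNewt

variable {V Q X : Type} [Fintype V] [DecidableEq V] {C : Cox V Q X} {k : Type*} [Field k]
  {ι : Type*}

omit [DecidableEq V] in
/-- the value of an equation at congruent points -/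
theorem F_congr (c : Q → X → (PowerSeries k)[X]) (q : Q) (y l : V → (PowerSeries k)[X]) (r : ℕ) :
    eps k ^ r ∣ C.F c q (fun v => y v + eps k ^ r * l v) - C.F c q y := by
  have h1 := Cox.F_taylor (C := C) c q (eps k ^ r) y l
  have h2 : eps k ^ r ∣ (eps k ^ r) ^ 2 := dvd_pow_self _ two_ne_zero
  have h3 := dvd_add (h2.trans h1) (dvd_mul_right (eps k ^ r) (∑ v, C.J c q v y * l v))
  rwa [sub_add_cancel] at h3

/-- the state of the iteration -/
structure Inv (a : Q → X → k[X]) (D : V → ℤ) (E : Q → ℤ) (pt : ι → k) (t : ι → V → ℕ)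
    (m : ι → Q → ℕ) (g : k[X]) (Y1 : V → (PowerSeries k)[X])
    (G : (V → (PowerSeries k)[X]) → Prop) (C : Cox V Q X) (r : ℕ)
    (Y : V → (PowerSeries k)[X]) : Prop where
  lat : ∀ v, Lat pt (fun j => t j v) 1 (Y v - Y1 v)
  deg : ∀ v, DegLE (Y v - Y1 v) (D v - 1)
  gau : G Y
  fun_lat : ∀ q, ∃ φ, C.F (upc a) q Y = up g ^ 2 * φ ∧ Lat pt (fun j => m j q) r φ

variable {a : Q → X → k[X]} {D : V → ℤ} {E : Q → ℤ} {pt : ι → k} {t : ι → V → ℕ}
  {m : ι → Q → ℕ} {g : k[X]} {Y1 : V → (PowerSeries k)[X]}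
  {G : (V → (PowerSeries k)[X]) → Prop}

/-- one step of the iteration -/
theorem step (hdeg : ∀ q, ∀ x ∈ C.supp q, DegLE (a q x) (E q - ∑ v, D v * C.e q x v))
    (ht : ∀ j, C.Rel (fun v => (t j v : ℤ)))
    (hm : ∀ j q, (m j q : ℤ) = C.m (fun v => (t j v : ℤ)) q)
    (hg : g ≠ 0) (hgp : ∀ j, g.eval (pt j) ≠ 0)
    (hY : ∀ v, DegLE (Y1 v) (D v))
    (hYt : ∀ j v, eps k ^ t j v ∣ ex (pt j) (Y1 v))
    (hF0 : ∀ q, lc (C.F (upc a) q Y1) (E q) = 0)
    (hstep : ∀ (r : ℕ), 1 ≤ r → ∀ Y : V → (PowerSeries k)[X],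
      (∀ v, Lat pt (fun j => t j v) 1 (Y v - Y1 v)) → (∀ v, DegLE (Y v - Y1 v) (D v - 1)) →
      G Y → (∀ q, up g ^ 2 ∣ C.F (upc a) q Y) → ∀ φ : Q → (PowerSeries k)[X],
      (∀ q, DegLE (up g ^ 2 * φ q) (E q - 1) ∧ Lat pt (fun j => m j q) 0 (φ q)) →
      ∃ (η χ : V → (PowerSeries k)[X]), (∀ v, DegLE (η v) (D v - 1)) ∧
        (∀ v, Lat pt (fun j => t j v) 0 (η v)) ∧ (∀ v, DegLE (χ v) (D v - 1)) ∧
        (∀ v, Lat pt (fun j => t j v) 2 (χ v)) ∧ G (fun v => Y v + eps k ^ r * (χ v - η v)) ∧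
        (∀ q, up g ^ 2 ∣ C.F (upc a) q (fun v => Y v + eps k ^ r * (χ v - η v))) ∧
        ∀ q, Lat pt (fun j => m j q) 1 (JJ C a q Y1 η - up g ^ 2 * φ q))
    {r : ℕ} (hr : 1 ≤ r) {Y : V → (PowerSeries k)[X]}
    (h : Inv a D E pt t m g Y1 G C r Y) :
    ∃ ξ ∈ latSub pt t (fun v => D v - 1),
      Inv a D E pt t m g Y1 G C (r + 1) (fun v => Y v + eps k ^ r * ξ v) := by
  choose φ0 hφ0 hφ0L using h.fun_lat
  choose φ hφ hφL using fun q => (hφ0L q).div
  -- the point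
  have hYd : ∀ v, DegLE (Y v) (D v) := by
    intro v
    have h1 := ((h.deg v).mono (show D v - 1 ≤ D v by omega)).add (hY v)
    rwa [sub_add_cancel] at h1
  have hlc : ∀ v, lc (Y v) (D v) = lc (Y1 v) (D v) := by
    intro v
    have h1 := lc_of_degLE (h.deg v) (n := D v) (by omega)
    rw [lc_sub, sub_eq_zero] at h1
    exact h1
  choose l0 hl0 hl0L using fun v => (h.lat v).div
  have hl : ∀ v, Y v = Y1 v + eps k * l0 v := by
    intro v
    have h1 := hl0 v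
    rw [pow_one] at h1
    rw [← h1]
    ring
  have hYe : ∀ j v, eps k ^ t j v ∣ ex (pt j) (Y v) := by
    intro j v
    rw [hl v, map_add, map_mul]
    exact dvd_add (hYt j v) (((hl0L v).dvd_ex j).mul_left _)
  have hc : ∀ q, ∀ x ∈ C.supp q, DegLE (upc a q x) (E q - ∑ v, D v * C.e q x v) :=
    fun q x hx => (hdeg q x hx).up
  have hFd : ∀ q, DegLE (C.F (upc a) q Y) (E q - 1) := by
    intro q
    refine DegLE.pred (Cox.F_degLE (hc q) hYd) ?_
    rw [Cox.F_lc (hc q) hYd, ← hF0 q, Cox.F_lc (hc q) hY]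
    congr 1
    funext v
    exact hlc v
  have hφd : ∀ q, DegLE (up g ^ 2 * φ q) (E q - 1) := by
    intro q
    refine degLE_of_eps_mul r ?_
    have h1 : eps k ^ r * (up g ^ 2 * φ q) = C.F (upc a) q Y := by
      rw [hφ0 q, hφ q]
      ring
    rw [h1]
    exact hFd q
  obtain ⟨η, χ, hηd, hηL, hχd, hχL, hG, hdvd, hJ⟩ := hstep r hr Y h.lat h.deg h.gau
    (fun q => ⟨_, hφ0 q⟩) φ fun q => ⟨hφd q, hφL q⟩
  have hξL : ∀ v, Lat pt (fun j => t j v) 0 (χ v - η v) := fun v =>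
    ((hχL v).mono (by omega)).sub (hηL v)
  have hξd : ∀ v, DegLE (χ v - η v) (D v - 1) := fun v => (hχd v).sub (hηd v)
  refine ⟨fun v => χ v - η v, fun v => ⟨hξd v, hξL v⟩, ⟨fun v => ?_, fun v => ?_, hG,
    fun q => ?_⟩⟩
  · have h1 : Y v + eps k ^ r * (χ v - η v) - Y1 v =
        (Y v - Y1 v) + eps k ^ r * (χ v - η v) := by ring
    rw [h1]
    exact (h.lat v).add (((hξL v).eps_mul r).mono (by omega))
  · have h1 : Y v + eps k ^ r * (χ v - η v) - Y1 v =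
        (Y v - Y1 v) + eps k ^ r * (χ v - η v) := by ring
    rw [h1]
    exact (h.deg v).add ((hξd v).eps_mul r)
  · obtain ⟨ψ, hψ⟩ := hdvd q
    refine ⟨ψ, hψ, ?_⟩
    -- the value is in the lattice of level `r + 1`
    have h1 : Lat pt (fun j => m j q) (r + 1)
        (C.F (upc a) q (fun v => Y v + eps k ^ r * (χ v - η v))) := by
      have h2 := lat_taylor a pt t ht m hm hYe hξL q hr
      choose χ0 hχ0 hχ0L using fun v => (hχL v).div
      have h3 : JJ C a q Y (fun v => χ v - η v) =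
          eps k ^ 2 * JJ C a q Y χ0 - JJ C a q Y η := by
        unfold JJ
        rw [Finset.mul_sum, ← Finset.sum_sub_distrib]
        refine Finset.sum_congr rfl fun v _ => ?_
        change C.J (upc a) q v Y * (χ v - η v) = _
        rw [hχ0 v]
        ring
      have h4 := lat_congr a pt t ht m hm (C := C) hYt hl0L hηL q
      have h5 : (fun v => Y1 v + eps k * l0 v) = Y := funext fun v => (hl v).symm
      rw [h5] at h4
      have h6 := lat_JJ a pt t ht m hm (C := C) hYe hχ0L q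
      have h7 : C.F (upc a) q (fun v => Y v + eps k ^ r * (χ v - η v)) =
          (C.F (upc a) q (fun v => Y v + eps k ^ r * (χ v - η v)) - C.F (upc a) q Y -
            eps k ^ r * JJ C a q Y (fun v => χ v - η v)) +
          (eps k ^ (r + 2) * JJ C a q Y χ0 -
            (eps k ^ r * (JJ C a q Y η - JJ C a q Y1 η) +
              eps k ^ r * (JJ C a q Y1 η - up g ^ 2 * φ q))) := by
        rw [h3, hφ0 q, hφ q]
        ring
      rw [h7]
      refine h2.add (Lat.sub ?_ (Lat.add ?_ ?_))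
      · exact (h6.eps_mul (r + 2)).mono (by omega)
      · exact h4.eps_mul r
      · exact (hJ q).eps_mul r
    rw [hψ, pow_two, mul_assoc] at h1
    exact Lat.cancel hg hgp (Lat.cancel hg hgp h1)

/-- the iteration -/
theorem core (hdeg : ∀ q, ∀ x ∈ C.supp q, DegLE (a q x) (E q - ∑ v, D v * C.e q x v))
    (ht : ∀ j, C.Rel (fun v => (t j v : ℤ)))
    (hm : ∀ j q, (m j q : ℤ) = C.m (fun v => (t j v : ℤ)) q)
    (hg : g ≠ 0) (hgp : ∀ j, g.eval (pt j) ≠ 0)
    (hY : ∀ v, DegLE (Y1 v) (D v))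
    (hYt : ∀ j v, eps k ^ t j v ∣ ex (pt j) (Y1 v))
    (hF0 : ∀ q, lc (C.F (upc a) q Y1) (E q) = 0)
    (hF : ∀ q, ∃ φ, C.F (upc a) q Y1 = up g ^ 2 * φ ∧ Lat pt (fun j => m j q) 1 φ)
    (hG : G Y1)
    (hstep : ∀ (r : ℕ), 1 ≤ r → ∀ Y : V → (PowerSeries k)[X],
      (∀ v, Lat pt (fun j => t j v) 1 (Y v - Y1 v)) → (∀ v, DegLE (Y v - Y1 v) (D v - 1)) →
      G Y → (∀ q, up g ^ 2 ∣ C.F (upc a) q Y) → ∀ φ : Q → (PowerSeries k)[X],
      (∀ q, DegLE (up g ^ 2 * φ q) (E q - 1) ∧ Lat pt (fun j => m j q) 0 (φ q)) →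
      ∃ (η χ : V → (PowerSeries k)[X]), (∀ v, DegLE (η v) (D v - 1)) ∧
        (∀ v, Lat pt (fun j => t j v) 0 (η v)) ∧ (∀ v, DegLE (χ v) (D v - 1)) ∧
        (∀ v, Lat pt (fun j => t j v) 2 (χ v)) ∧ G (fun v => Y v + eps k ^ r * (χ v - η v)) ∧
        (∀ q, up g ^ 2 ∣ C.F (upc a) q (fun v => Y v + eps k ^ r * (χ v - η v))) ∧
        ∀ q, Lat pt (fun j => m j q) 1 (JJ C a q Y1 η - up g ^ 2 * φ q)) :
    ∃ Y : V → (PowerSeries k)[X], (∀ v, DegLE (Y v - Y1 v) (D v - 1)) ∧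
      (∀ v, Lat pt (fun j => t j v) 1 (Y v - Y1 v)) ∧ ∀ q, C.F (upc a) q Y = 0 := by
  classical
  -- the sequence
  have hinv : ∀ r : ℕ, ∀ Y, Inv a D E pt t m g Y1 G C (r + 1) Y →
      ∃ ξ ∈ latSub pt t (fun v => D v - 1),
        Inv a D E pt t m g Y1 G C (r + 2) (fun v => Y v + eps k ^ (r + 1) * ξ v) :=
    fun r Y hY' => step hdeg ht hm hg hgp hY hYt hF0 hstep (by omega) hY'
  choose ξf hξL hξI using hinv
  have h0 : Inv a D E pt t m g Y1 G C 1 Y1 :=
    ⟨fun v => by rw [sub_self]; exact Lat.zero _, fun v => by rw [sub_self]; exact DegLE.zero _,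
      hG, hF⟩
  let S : (r : ℕ) → {Y // Inv a D E pt t m g Y1 G C (r + 1) Y} := fun r =>
    Nat.rec ⟨Y1, h0⟩ (fun r Y => ⟨_, hξI r Y.1 Y.2⟩) r
  have hS0 : (S 0).1 = Y1 := rfl
  let ξ : ℕ → V → (PowerSeries k)[X] := fun r => ξf r (S r).1 (S r).2
  have hSs : ∀ r, (S (r + 1)).1 = fun v => (S r).1 v + eps k ^ (r + 1) * ξ r v := fun r => rfl
  obtain ⟨T, hT, hTs⟩ := latSub_lim ξ fun r => hξL r (S r).1 (S r).2
  let Y : V → (PowerSeries k)[X] := fun v => Y1 v + eps k * T 0 v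
  have key : ∀ r v, Y v = (S r).1 v + eps k ^ (r + 1) * T r v := by
    intro r
    induction r with
    | zero => intro v; rw [hS0, zero_add, pow_one]
    | succ r ih =>
      intro v
      rw [ih v, hSs r, hTs r, Pi.add_apply, Pi.smul_apply, smul_X]
      ring
  refine ⟨Y, fun v => ?_, fun v => ?_, fun q => ?_⟩
  · have h1 : Y v - Y1 v = eps k ^ 1 * T 0 v := by
      simp only [Y]
      rw [pow_one]
      ring
    rw [h1]
    exact (hT 0 v).1.eps_mul 1
  · have h1 : Y v - Y1 v = eps k ^ 1 * T 0 v := by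
      simp only [Y]
      rw [pow_one]
      ring
    rw [h1]
    exact (hT 0 v).2.eps_mul 1
  · have h1 : ∀ r, eps k ^ (r + 1) ∣ C.F (upc a) q Y := by
      intro r
      have h2 := F_congr (C := C) (upc a) q (S r).1 (T r) (r + 1)
      have h3 : (fun v => (S r).1 v + eps k ^ (r + 1) * T r v) = Y :=
        funext fun v => (key r v).symm
      rw [h3] at h2
      obtain ⟨φ, hφ, hφL⟩ := (S r).2.fun_lat q
      have h4 : eps k ^ (r + 1) ∣ C.F (upc a) q (S r).1 := by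
        rw [hφ]
        exact ((pow_dvd_pow _ (by omega)).trans hφL.1).mul_left _
      have h5 := dvd_add h2 h4
      rwa [sub_add_cancel] at h5
    ext i n
    rw [coeff_zero, map_zero]
    have h2 := eps_pow_dvd.1 (h1 n) i
    exact PowerSeries.X_pow_dvd_iff.1 h2 n (Nat.lt_succ_self n)

end KNewt

end Pool.Agent.Work.WRC
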