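import Mathlib
import Pool.Agent.Work.MP_4329d7_ag_wrc.KNewtCore
import Pool.Agent.Work.MP_4329d7_ag_wrc.KGstep

/-!
W-RC, comb_exist: the relaxed Newton iteration (note 3483).
-/

namespace Pool.Agent.Work.WRC

open Polynomial

/-- **The relaxed Newton iteration (note 3483).**  `H0 v` is the vector `A v * H v`; `D v = #ι t v`. -/
theorem comb_newton_r {V Q X : Type} [Fintype V] [DecidableEq V] {C : Cox V Q X} {k : Type*}
    [Field k] {ι : Type*} [Fintype ι] [DecidableEq ι] {a : Q → X → k[X]} {pt : ι → k}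
    (hpt : Function.Injective pt) {t : V → ℕ} (ht : C.Rel fun v => (t v : ℤ)) {m : Q → ℕ}
    (hm : ∀ q, (m q : ℤ) = C.m (fun v => (t v : ℤ)) q) {E : Q → ℤ}
    (hdeg : ∀ q, ∀ x ∈ C.supp q,
      DegLE (a q x) (E q - ∑ v, ((Fintype.card ι * t v : ℕ) : ℤ) * C.e q x v))
    {g : k[X]} (hg : g.Monic) (hgp : ∀ j, g.eval (pt j) ≠ 0)
    (hN : 2 * g.natDegree ≤ Fintype.card ι) {H0 : V → k[X]}
    {I : Type} [Fintype I] [DecidableEq I] {γ : I → V → ℕ}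
    (hγ : ∀ i, C.Rel fun v => (γ i v : ℤ)) (hγ0 : ∀ i v, t v = 0 → γ i v = 0)
    {Y1 : V → (PowerSeries k)[X]} (hYd : ∀ v, DegLE (Y1 v) ((Fintype.card ι * t v : ℕ) : ℤ))
    (hYt : ∀ j v, eps k ^ t v ∣ ex (pt j) (Y1 v)) (hYg : ∀ v, up g ^ 2 ∣ Y1 v - up (H0 v))
    (hF : ∀ q, ∃ φ, C.F (upc a) q Y1 = up g ^ 2 * φ ∧ Lat pt (fun _ => m q) 1 φ)
    (hF0 : ∀ q, lc (C.F (upc a) q Y1) (E q) = 0)
    (hsurj : ∀ φ : Q → (PowerSeries k)[X],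
      (∀ q, DegLE (up g ^ 2 * φ q) (E q - 1) ∧ Lat pt (fun _ => m q) 0 (φ q)) →
      ∃ (η h : V → (PowerSeries k)[X]) (μ : I → (PowerSeries k)[X]),
        (∀ v, DegLE (η v) (((Fintype.card ι * t v : ℕ) : ℤ) - 1)) ∧
        (∀ v, Lat pt (fun _ => t v) 0 (η v)) ∧
        (∀ v, eps k ∣ h v) ∧ (∀ v, t v = 0 → h v = 0) ∧ (∀ i, eps k ∣ μ i) ∧
        (∀ v, up g ^ 2 ∣ η v - (up g * h v + (∑ i, μ i * (γ i v : (PowerSeries k)[X])) *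
          up (H0 v))) ∧
        (∀ q, up g ∣ JJ C a q (fun v => up (H0 v)) h) ∧
        ∀ q, Lat pt (fun _ => m q) 1 (JJ C a q Y1 η - up g ^ 2 * φ q)) :
    ∃ Y : V → (PowerSeries k)[X],
      (∀ v, DegLE (Y v - Y1 v) (((Fintype.card ι * t v : ℕ) : ℤ) - 1)) ∧
      (∀ v, Lat pt (fun _ => t v) 1 (Y v - Y1 v)) ∧ ∀ q, C.F (upc a) q Y = 0 := by
  refine KNewt.core (t := fun _ v => t v) (m := fun _ q => m q)
    (G := fun Y => ∃ z : I → (PowerSeries k)[X], (∀ i, eps k ^ 2 ∣ z i - 1) ∧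
      ∀ v, up g ∣ Y v - (∏ i, z i ^ γ i v) * up (H0 v))
    hdeg (fun _ => ht) (fun _ => hm) hg.ne_zero hgp hYd hYt hF0 hF ?_ ?_
  · refine ⟨fun _ => 1, fun i => by rw [sub_self]; exact dvd_zero _, fun v => ?_⟩
    simp only [one_pow, Finset.prod_const_one, one_mul]
    exact (dvd_pow_self _ two_ne_zero).trans (hYg v)
  · intro r hr Y hL hYY hz hFY φ hφ
    obtain ⟨η, h, μ, h1, h2, h3, h4, h5, h6, h7, h8⟩ := hsurj φ hφ
    obtain ⟨χ, c1, c2, c3, c4⟩ := gauge_step hg hgp hN hγ hγ0 hYg hr hL hz hFY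
      h1 h3 h4 h5 h6 h7
    exact ⟨η, χ, h1, h2, c2, c1, c3, c4, h8⟩

end Pool.Agent.Work.WRC
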