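import Mathlib
import Pool.Agent.Work.MP_4329d7_ag_wrc.KFirst
import Pool.Agent.Work.MP_4329d7_ag_wrc.KHandle
import Pool.Agent.Work.MP_4329d7_ag_wrc.KNewtR

/-!
# The comb lemma for a constant handle with a defect: existence
-/

namespace Pool.Agent.Work.WRC

open Polynomial

section
variable {V Q Mo : Type} [Fintype V] [DecidableEq V] {k : Type} [Field k] {ι : Type} [Fintype ι]
  [DecidableEq ι] {S : Cox V Q Mo} {a : Q → Mo → k[X]} {D : Q → ℤ} {σ : Finset V}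
  {pt : ι → k} {n : V → ℕ} {m : Q → ℕ} {T : ι → V → k[X]}

/-- **Existence of the comb section for a constant handle with the defect `g`.** -/
theorem comb_exist [Fintype Q] [CharZero k]
    (hdeg : ∀ q, ∀ x ∈ S.supp q, DegLE (a q x) (D q))
    (hF : ∀ q, S.F a q (fun v => C (ind k σ v)) = 0) (hpt : Function.Injective pt)
    (hn : S.Rel fun v => (n v : ℤ)) (hm : ∀ q, (m q : ℤ) = S.m (fun v => (n v : ℤ)) q)
    (hm1 : ∀ q, 1 ≤ m q)
    (hT0 : ∀ j v, T j v ≠ 0) (hT : ∀ j v, DegLE (T j v) (n v))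
    (hTl : ∀ j v, lc (T j v) (n v) = ind k σ v)
    (hTF : ∀ j q, S.F (fun q x => C ((a q x).eval (pt j))) q (T j) = 0)
    (hfr : ∀ j, FreeS S (fun q x => C ((a q x).eval (pt j))) (T j) (fun v => n v) (fun q => m q))
    (hvf : ∀ j, VFreeS S (fun q x => C ((a q x).eval (pt j))) (T j) (fun v => n v)
      (fun q => m q))
    {g : k[X]} (hg : g.Monic) (hgpt : ∀ j, g.eval (pt j) ≠ 0)
    (hcard : 2 * g.natDegree ≤ Fintype.card ι) [Nonempty ι]
    (hev : ∀ ψ : Q → k[X],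
      (∀ q, DegLE (g * ψ q) (D q + (Fintype.card ι - 1 - g.natDegree : ℤ))) →
      ∃ z : V → k[X], (∀ v, n v = 0 → z v = 0) ∧
        (∀ v, DegLE (z v) (Fintype.card ι - 1 - g.natDegree : ℤ)) ∧
        ∀ q, ∑ v, S.J a q v (fun v => C (ind k σ v)) * z v = g * ψ q) :
    ∃ Y : V → (PowerSeries k)[X],
      (∀ v, DegLE (Y v) ((Fintype.card ι * (2 * n v) : ℕ) : ℤ)) ∧
      (∀ v, lc (Y v) ((Fintype.card ι * (2 * n v) : ℕ) : ℤ) = PowerSeries.C (ind k σ v)) ∧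
      (∀ v, red (Y v) = (∏ j, (X - C (pt j))) ^ (2 * n v) * C (ind k σ v)) ∧
      (∀ j, ∃ c : k, c ≠ 0 ∧ ∀ v, ∃ Z, ex (pt j) (Y v) = eps k ^ (2 * n v) * Z ∧
        red Z = C (c ^ (2 * n v)) * (T j v).comp (X ^ 2)) ∧
      ∀ q, S.F (fun q x => (a q x).map PowerSeries.C) q Y = 0 := by
  classical
  have hC : Comb S a (fun _ => 0) D (fun v => C (ind k σ v)) pt (fun _ v => 2 * n v)
      (fun _ q => 2 * m q) (dtooth pt n T) :=
    comb_dbl (fun q x hx => by simpa using hdeg q x hx) (fun v => DegLE.C _ le_rfl) hF hpt hn hm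
      hm1 hT (fun j v => by rw [hTl j v, eval_C]) hTF (fun _ _ => le_rfl)
      (fun _ _ => by have : 1 ≤ Fintype.card ι := Fintype.card_pos
                     omega)
  have hy0 : ∀ j v, 2 * n v = 0 → dtooth pt n T j v ≠ 0 := by
    intro j v _
    unfold dtooth
    refine mul_ne_zero (C_ne_zero.2 (pow_ne_zero _ (gB_ne_zero hpt _ j))) fun h => hT0 j v ?_
    rw [← expand_eq_comp_X_pow] at h
    exact (expand_eq_zero two_pos).1 h
  have hy1 : ∀ j v, lc (dtooth pt n T j v) (((2 * n v : ℕ) : ℤ) - 1) = 0 := by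
    intro j v
    unfold dtooth
    rw [lc_C_mul, lc_sq_pred, mul_zero]
  -- the base point
  have hDv : ∀ v, (∃ _i : ι, 2 ≤ 2 * n v) →
      ((∑ _i : ι, (2 * n v - 1 : ℕ) + (g ^ 2).natDegree : ℕ) : ℤ) ≤
      0 + ∑ _i : ι, ((2 * n v : ℕ) : ℤ) := by
    rintro v ⟨_, hv⟩
    rw [hg.natDegree_pow]
    simp only [Finset.sum_const, Finset.card_univ, smul_eq_mul, zero_add, nsmul_eq_mul]
    have h1 : Fintype.card ι * (2 * n v - 1) + 2 * g.natDegree ≤ Fintype.card ι * (2 * n v) := by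
      obtain ⟨b, hb⟩ : ∃ b, 2 * n v = b + 1 := ⟨2 * n v - 1, by omega⟩
      rw [hb, Nat.add_sub_cancel, mul_add, mul_one]
      omega
    exact_mod_cast h1
  obtain ⟨Y1, hY1, hYg, hYF⟩ := comb_baseG hC (hg.pow 2)
    (fun j => by rw [eval_pow]; exact pow_ne_zero _ (hgpt j)) hDv hy1
  obtain ⟨I, hI1, hI2, γ, hγ1, hγ2, hγ3⟩ := exists_rels.{0} (C := S) (rel_two hn)
  have hup2 : up (g ^ 2) = up g ^ 2 := map_pow _ _ _
  have eD : ∀ v, (0 : ℤ) + ∑ _i : ι, ((2 * n v : ℕ) : ℤ) =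
      ((Fintype.card ι * (2 * n v) : ℕ) : ℤ) := fun v => by simp
  have eD' : ∀ v, ∑ _i : ι, ((2 * n v : ℕ) : ℤ) =
      ((Fintype.card ι * (2 * n v) : ℕ) : ℤ) := fun v => by simp
  have hdegE : ∀ q, ∀ x ∈ S.supp q, DegLE (a q x) (D q + ∑ _i : ι, ((2 * m q : ℕ) : ℤ) -
      ∑ v, ((Fintype.card ι * (2 * n v) : ℕ) : ℤ) * S.e q x v) := by
    intro q x hx
    have h1 := Cox.rel_sum (rel_two hn) hx
    rw [← m_two hm q] at h1
    have h2 : ∑ v, ((Fintype.card ι * (2 * n v) : ℕ) : ℤ) * S.e q x v =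
        Fintype.card ι * ((2 * m q : ℕ) : ℤ) := by
      rw [← h1, Finset.mul_sum]
      exact Finset.sum_congr rfl fun v _ => by push_cast; ring
    rw [h2]
    refine (hdeg q x hx).mono (le_of_eq ?_)
    simp
  obtain ⟨Y, hYd, hYl, hYF'⟩ := comb_newton_r (C := S) (a := a) hpt (rel_two hn)
    (m := fun q => 2 * m q) (fun q => m_two hm q)
    (E := fun q => D q + ∑ _i : ι, ((2 * m q : ℕ) : ℤ)) hdegE hg hgpt hcard
    (H0 := fun v => gA pt (fun _ => 2 * n v) * C (ind k σ v)) hγ1 hγ2 (Y1 := Y1)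
    (fun v => by rw [← eD v]; exact hY1.deg v)
    (fun j v => by
      obtain ⟨y', h1, -⟩ := hY1.exY j v
      exact ⟨y', h1⟩)
    (fun v => by rw [← hup2]; exact hYg v)
    (fun q => by
      obtain ⟨φ, h1, h2⟩ := hYF q
      exact ⟨φ, by rw [h1, hup2], h2⟩)
    (fun q => (comb_top hC hY1 q).2)
    (fun φ hφ => by
      obtain ⟨η, h', μ, h1, h2, h3, h4, h5, h6, h7, h8⟩ := comb_first hC hg hgpt hcard hy0
        (fun ψ hψ => by
          obtain ⟨z, hz1, hz2, hz3⟩ := hev ψ hψ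
          exact ⟨z, fun v hv => hz1 v (by omega), hz2, hz3⟩)
        (fun j G hG => by
          obtain ⟨h, γ, h2, h3, h4, h5⟩ := (VFreeS.dbl (hfr j) (hvf j)).gaugeC (rel_two hn)
            (fun q => m_two hm q) (gB_ne_zero hpt (fun _ => 1) j) G hG
          exact ⟨h, γ, h2, h3, h4, h5⟩)
        (hγ3 k) hY1 φ hφ
      exact ⟨η, h', μ, fun v => by rw [← eD' v]; exact h1 v, h2, h3, h4, h5, h6, h7, h8⟩)
  have hYe : ∀ v, Y v = Y1 v + (Y v - Y1 v) := fun v => by ring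
  refine ⟨Y, fun v => ?_, fun v => ?_, fun v => ?_, fun j => ?_, hYF'⟩
  · rw [hYe v]
    exact DegLE.add (by rw [← eD v]; exact hY1.deg v) ((hYd v).mono (by omega))
  · rw [hYe v, lc_add, lc_of_degLE (hYd v) (by omega), add_zero, ← eD v, hY1.top v]
    unfold lc
    simp
  · rw [hYe v, map_add, hY1.redY v]
    have h1 : red (Y v - Y1 v) = 0 := red_eq_zero.2 ((dvd_pow_self _ (by norm_num)).trans (hYl v).1)
    rw [h1, add_zero]
    unfold gA
    rw [Finset.prod_pow]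
  · refine ⟨gB pt (fun _ => 1) j, gB_ne_zero hpt _ j, fun v => ?_⟩
    obtain ⟨y', h1, h2⟩ := hY1.exY j v
    obtain ⟨w, hw⟩ := (hYl v).2 j
    refine ⟨y' + eps k * w, ?_, ?_⟩
    · rw [hYe v, map_add, h1, hw]
      ring
    · rw [map_add, map_mul, red_eps, zero_mul, add_zero, h2]
      rfl

end

end Pool.Agent.Work.WRC
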