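import Mathlib
import Pool.Agent.Work.MP_4329d7_ag_wrc.KExist
import Pool.Agent.Work.MP_4329d7_ag_wrc.DefC

/-!
W-RC: the comb section of a translated family with a defect.

`comb_def`: `DefD` and teeth of one type at many positions give a section `Y` over `F⟦ε⟧` which
reduces to the comb.
-/

namespace Pool.Agent.Work.WRC

open Polynomial Pool.Agent.Work.CI Pool.Agent.Work.MP_4329d7_ag_sq

section scale

variable {V Q Mo : Type} [Fintype V] {S : Cox V Q Mo} {k : Type} [Field k]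

theorem FreeS.scale {c c' : Q → Mo → k[X]} {s : Q → k} (hs : ∀ q, s q ≠ 0)
    (h : ∀ q, ∀ x ∈ S.supp q, c q x = C (s q) * c' q x) {Y : V → k[X]} {D : V → ℤ} {E : Q → ℤ}
    (hf : FreeS S c' Y D E) : FreeS S c Y D E := by
  intro g hg
  obtain ⟨u, h1, h2⟩ := hf (fun q => C (s q)⁻¹ * g q) fun q => (hg q).C_mul _
  refine ⟨u, h1, fun q => ?_⟩
  have h3 : ∀ v, S.J c q v Y * u v = C (s q) * (S.J c' q v Y * u v) := fun v => by
    rw [Cox.J_scale (h q) v Y]; ring
  rw [Finset.sum_congr rfl fun v _ => h3 v, ← Finset.mul_sum, h2 q, ← mul_assoc, ← C_mul,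
    mul_inv_cancel₀ (hs q), C_1, one_mul]

theorem VFreeS.scale {c c' : Q → Mo → k[X]} {s : Q → k} (hs : ∀ q, s q ≠ 0)
    (h : ∀ q, ∀ x ∈ S.supp q, c q x = C (s q) * c' q x) {Y : V → k[X]} {D : V → ℤ} {E : Q → ℤ}
    (hf : VFreeS S c' Y D E) : VFreeS S c Y D E := by
  intro g hg
  obtain ⟨u, γ, h0, h1, h4, h2⟩ := hf (fun q => C (s q)⁻¹ * g q) fun q => (hg q).C_mul _
  refine ⟨u, γ, h0, h1, h4, fun q => ?_⟩
  have h3 : ∀ v, S.J c q v Y * u v = C (s q) * (S.J c' q v Y * u v) := fun v => by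
    rw [Cox.J_scale (h q) v Y]; ring
  rw [Finset.sum_congr rfl fun v _ => h3 v, ← Finset.mul_sum, h2 q, ← mul_assoc, ← C_mul,
    mul_inv_cancel₀ (hs q), C_1, one_mul]

end scale

section main

variable {n dB r : ℕ} {B Q V : Type} [Fintype B] [Fintype Q] [Fintype V] [DecidableEq V]
  {K : Type} [Field K] [Algebra ℂ K] {x : Fin (dB + r) → K} {f : B ⊕ Q → Lau (dB + r)}
  {Δ : FanV V r} {F : Type} [Field F] [Algebra ℂ F] {σ : Finset V} {m : V → ℕ}
  {X : Fin (dB + r) → RatFunc F} {xi : Fin (dB + r) → F}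
  {a : Q → (Fin (dB + r) → ℤ) → F[X]} {den : Q → F[X]} {g : F[X]} {N0 : ℤ}

omit [Fintype B] in
/-- the degrees of the equations on the type of the teeth are positive -/
theorem DefD.m_pos (h : DefD f Δ σ m X xi a den g N0)
    (hm : (coxF f Δ.ray).Rel fun v => (m v : ℤ)) (q : Q) :
    1 ≤ (coxF f Δ.ray).m (fun v => (m v : ℤ)) q := by
  classical
  by_contra hcon
  have h0 : ∀ χ ∈ (coxF f Δ.ray).supp q, ∀ v, m v ≠ 0 → (coxF f Δ.ray).e q χ v = 0 := by
    intro χ hχ v hv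
    by_contra he
    apply hcon
    rw [← Cox.rel_sum hm hχ]
    have h1 : (m v : ℤ) * ((coxF f Δ.ray).e q χ v : ℤ) ≤
        ∑ v, (m v : ℤ) * ((coxF f Δ.ray).e q χ v : ℤ) :=
      Finset.single_le_sum (f := fun v => (m v : ℤ) * ((coxF f Δ.ray).e q χ v : ℤ))
        (fun w _ => by positivity) (Finset.mem_univ v)
    have h2 : (1 : ℤ) ≤ (m v : ℤ) * ((coxF f Δ.ray).e q χ v : ℤ) := by
      have h3 : 1 ≤ m v := Nat.one_le_iff_ne_zero.2 hv
      have h4 : 1 ≤ (coxF f Δ.ray).e q χ v := Nat.one_le_iff_ne_zero.2 he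
      exact_mod_cast Nat.one_le_iff_ne_zero.2 (Nat.mul_ne_zero hv he)
    linarith
  have h1 := h.inf (Pi.single q 1) fun v hv => by
    rw [Finset.sum_eq_single q]
    · rw [Pi.single_eq_same, one_mul, Cox.J_eq]
      refine Finset.sum_eq_zero fun χ hχ => ?_
      rw [h0 χ hχ v hv, Nat.cast_zero, mul_zero, zero_mul]
    · intro q' _ hq'
      rw [Pi.single_eq_of_ne hq', zero_mul]
    · intro hq
      exact absurd (Finset.mem_univ _) hq
  have h2 := congrFun h1 q
  rw [Pi.single_eq_same, Pi.zero_apply] at h2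
  exact one_ne_zero h2

/-- the equations on a tooth -/
theorem Tooth.sol (T : Tot n dB r B Q x f) {F : Type} [Field F] [Algebra ℂ F]
    {x' : Fin (dB + r) → F} {Z : V → F} {m : V → ℕ} {W : V → F[X]}
    (hW : Tooth x f Δ.ray x' Z m W) (q : Q) :
    (coxF f Δ.ray).F (fun q χ => C (cst (fun q => f (Sum.inr q)) x' q χ)) q W = 0 := by
  obtain ⟨φ, hφ⟩ := hW.hom
  have h1 : ev (f (Sum.inr q)) (fun j => φ (x j)) = 0 := by
    rw [← Pool.Agent.Work.CW.map_ev φ, T.data.eq (Sum.inr q), map_zero]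
  have h2 : (fun j => φ (x j)) = fun j => RatFunc.C (x' j) *
      ∏ v, algebraMap F[X] (RatFunc F) (W v) ^ (fibv (Δ.ray v) : Fin (dB + r) → ℤ) j :=
    funext hφ
  rw [h2] at h1
  have h3 := ev_cst (fun q => f (Sum.inr q)) (fun v => (fibv (Δ.ray v) : Fin (dB + r) → ℤ)) x' W
    hW.ne q
  rw [h3] at h1
  have h4 := (mul_eq_zero.1 h1).resolve_left (Finset.prod_ne_zero_iff.2 fun v _ =>
    zpow_ne_zero _ ((map_ne_zero_iff _ (IsFractionRing.injective F[X] (RatFunc F))).2 (hW.ne v)))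
  exact (map_eq_zero_iff _ (IsFractionRing.injective F[X] (RatFunc F))).1 h4

/-- evaluation of the coefficients at a position -/
theorem eval_map_pos {F F' : Type} [Field F] [Algebra ℂ F] [Field F'] [Algebra ℂ F']
    (i : F →ₐ[ℂ] F') (E : RatFunc F →ₐ[ℂ] F') (hE : ∀ c, E (RatFunc.C c) = i c) (p : F[X]) :
    (p.map (i : F →+* F')).eval (E RatFunc.X) = E (algebraMap F[X] (RatFunc F) p) := by
  rw [eval_map]
  induction p using Polynomial.induction_on' with
  | add p q hp hq => rw [eval₂_add, hp, hq, map_add, map_add]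
  | monomial l c =>
    rw [eval₂_monomial, ← C_mul_X_pow_eq_monomial, map_mul, map_pow, RatFunc.algebraMap_C,
      RatFunc.algebraMap_X, map_mul, map_pow, hE]
    rfl

/-- **The comb section of a family with a defect.** `E j` is the evaluation at the position
`E j RatFunc.X`. -/
theorem comb_def (T : Tot n dB r B Q x f) (h : DefD f Δ σ m X xi a den g N0) {F₂ : Type}
    [Field F₂] [Algebra ℂ F₂] (i : F →ₐ[ℂ] F₂) {ι : Type} [Fintype ι] [DecidableEq ι]
    [Nonempty ι] (E : ι → RatFunc F →ₐ[ℂ] F₂) (hE : ∀ j c, E j (RatFunc.C c) = i c)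
    (hinj : Function.Injective fun j => E j RatFunc.X) {W : ι → V → F₂[X]}
    (hW : ∀ j, Tooth x f Δ.ray (fun l => E j (X l)) (ind F₂ σ) m (W j))
    (hcard : N0 + 1 + g.natDegree ≤ Fintype.card ι) (hcard2 : 2 * g.natDegree ≤ Fintype.card ι) :
    ∃ Y : V → (PowerSeries F₂)[X],
      (∀ v, DegLE (Y v) ((Fintype.card ι * (2 * m v) : ℕ) : ℤ)) ∧
      (∀ v, lc (Y v) ((Fintype.card ι * (2 * m v) : ℕ) : ℤ) = PowerSeries.C (ind F₂ σ v)) ∧
      (∀ v, red (Y v) = (∏ j, (Polynomial.X - C (E j RatFunc.X))) ^ (2 * m v) *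
        C (ind F₂ σ v)) ∧
      (∀ j, ∃ c : F₂, c ≠ 0 ∧ ∀ v, ∃ Z, ex (E j RatFunc.X) (Y v) = eps F₂ ^ (2 * m v) * Z ∧
        red Z = C (c ^ (2 * m v)) * (W j v).comp (Polynomial.X ^ 2)) ∧
      (∀ v, Y v ≠ 0) ∧
      (∀ q, (coxF f Δ.ray).F
        (fun q χ => ((a q χ).map (i : F →+* F₂)).map PowerSeries.C) q Y = 0) := by
  classical
  have := defC_charZero F₂
  obtain ⟨j0⟩ := ‹Nonempty ι›
  have h' := h.map i
  have hrel := (hW j0).rel
  have hpos := fun q => h.m_pos hrel q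
  have hcoef : ∀ j q, ∀ χ ∈ (coxF f Δ.ray).supp q,
      (C (((a q χ).map (i : F →+* F₂)).eval (E j RatFunc.X)) : F₂[X]) =
        C (E j (algebraMap F[X] (RatFunc F) (den q))) *
          C (cst (fun q => f (Sum.inr q)) (fun l => E j (X l)) q χ) := by
    intro j q χ hχ
    rw [eval_map_pos i (E j) (hE j), h.eq q χ hχ, map_mul, ← cst_map, C_mul]
  have hden0 : ∀ j q, E j (algebraMap F[X] (RatFunc F) (den q)) ≠ 0 := by
    intro j q h0
    rw [map_eq_zero, map_eq_zero_iff _ (IsFractionRing.injective F[X] (RatFunc F))] at h0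
    exact (h.den_monic q).ne_zero h0
  have hmq : (fun q => (((coxF f Δ.ray).m (fun v => (m v : ℤ)) q).toNat : ℤ)) =
      (coxF f Δ.ray).m fun v => (m v : ℤ) := by
    funext q
    have := hpos q
    exact Int.toNat_of_nonneg (by omega)
  have hgn : (g.map (i : F →+* F₂)).natDegree = g.natDegree := natDegree_map _
  obtain ⟨Y, h1, h2, h3, h4, h5⟩ := comb_exist (S := coxF f Δ.ray)
    (a := fun q χ => (a q χ).map (i : F →+* F₂))
    (D := fun q => (((den q).map (i : F →+* F₂)).natDegree : ℤ))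
    (pt := fun j => E j RatFunc.X) (n := m)
    (m := fun q => ((coxF f Δ.ray).m (fun v => (m v : ℤ)) q).toNat) (T := W) (σ := σ)
    (fun q χ hχ => degLE_iff.2 (h'.deg q χ hχ)) h'.sol hinj hrel
    (fun q => congrFun hmq q) (fun q => by
      have h6 := hpos q
      omega)
    (fun j => (hW j).ne) (fun j => (hW j).deg) (fun j => (hW j).top) (fun j q => by
      rw [Cox.F_scale (c' := fun q χ => C (cst (fun q => f (Sum.inr q)) (fun l => E j (X l)) q χ))
        (s := C (E j (algebraMap F[X] (RatFunc F) (den q)))) (fun χ hχ => hcoef j q χ hχ),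
        Tooth.sol T (hW j) q, mul_zero])
    (fun j => by
      rw [hmq]
      exact (hW j).free.scale (hden0 j) (fun q χ hχ => hcoef j q χ hχ))
    (fun j => by
      rw [hmq]
      exact (hW j).vfree.scale (hden0 j) (fun q χ hχ => hcoef j q χ hχ))
    (h.g_monic.map (i : F →+* F₂)) (fun j => by
      rw [eval_map_pos i (E j) (hE j), Ne, map_eq_zero,
        map_eq_zero_iff _ (IsFractionRing.injective F[X] (RatFunc F))]
      exact h.g_monic.ne_zero) (by rw [hgn]; exact hcard2) (fun ψ hψ => by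
      rw [hgn] at hψ ⊢
      exact h'.lev ((Fintype.card ι : ℤ) - 1 - g.natDegree) (by omega) ψ hψ)
  refine ⟨Y, h1, h2, h3, h4, fun v hv => ?_, h5⟩
  obtain ⟨c, hc, h6⟩ := h4 j0
  obtain ⟨Z, h7, h8⟩ := h6 v
  rw [hv, map_zero] at h7
  have h9 : Z = 0 := (mul_eq_zero.1 h7.symm).resolve_left (pow_ne_zero _ eps_ne_zero)
  rw [h9, map_zero] at h8
  have h10 := (mul_eq_zero.1 h8.symm).resolve_left
    fun h12 => pow_ne_zero _ hc (C_eq_zero.1 h12)
  have h11 : (W j0 v).comp (Polynomial.X ^ 2) ≠ 0 := by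
    rw [← expand_eq_comp_X_pow]
    exact (expand_ne_zero (by omega)).2 ((hW j0).ne v)
  exact h11 h10

/-- the section of `comb_def` satisfies all equations -/
theorem comb_def_ev (T : Tot n dB r B Q x f) (h : DefD f Δ σ m X xi a den g N0)
    (hbeq : ∀ q : B, ev (f (Sum.inl q)) X = 0) {F₂ : Type}
    [Field F₂] [Algebra ℂ F₂] (i : F →ₐ[ℂ] F₂) {Y : V → (PowerSeries F₂)[X]}
    (hY : ∀ v, Y v ≠ 0) (hF : ∀ q, (coxF f Δ.ray).F
      (fun q χ => ((a q χ).map (i : F →+* F₂)).map PowerSeries.C) q Y = 0) {L : Type} [Field L]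
    [Algebra ℂ L] (θ : PowerSeries F₂ →+* L) (hθ : Function.Injective θ) (ι₀ : F →ₐ[ℂ] L)
    (hι : ∀ c, ι₀ c = θ (PowerSeries.C (i c))) (q : B ⊕ Q) :
    ev (f q) (fun l => rmapA ι₀ (X l) *
      ∏ v, algebraMap L[X] (RatFunc L) ((Y v).map θ) ^
        (fibv (Δ.ray v) : Fin (dB + r) → ℤ) l) = 0 := by
  have hYL : ∀ v, algebraMap L[X] (RatFunc L) ((Y v).map θ) ≠ 0 := by
    intro v
    rw [Ne, map_eq_zero_iff _ (IsFractionRing.injective L[X] (RatFunc L)),
      Polynomial.map_eq_zero_iff hθ]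
    exact hY v
  rcases q with q | q
  · rw [ev_base (T.base q) (y := fun l => rmapA ι₀ (X l)) (fun l => by
      simp only [fibv_castAdd, zpow_zero, Finset.prod_const_one, mul_one]),
      ← Pool.Agent.Work.CW.map_ev (rmapA ι₀), hbeq q, map_zero]
  · have h1 := ev_prod (fun q => f (Sum.inr q))
      (fun v => (fibv (Δ.ray v) : Fin (dB + r) → ℤ)) (fun l => rmapA ι₀ (X l))
      (fun v => algebraMap L[X] (RatFunc L) ((Y v).map θ)) hYL q
    refine h1.trans ?_
    have h2 : ∀ χ ∈ (coxF f Δ.ray).supp q, algebraMap L[X] (RatFunc L)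
        ((a q χ).map (ι₀ : F →+* L)) = rmapA ι₀ (algebraMap F[X] (RatFunc F) (den q)) *
          cst (fun q => f (Sum.inr q)) (fun l => rmapA ι₀ (X l)) q χ := by
      intro χ hχ
      have h3 := congrArg (rmapA ι₀) (h.eq q χ hχ)
      rw [map_mul, ← cst_map] at h3
      rw [← h3, rmapA_apply, rmap_algebraMap]
    have h4 := congrArg ((algebraMap L[X] (RatFunc L)).comp (mapRingHom θ)) (hF q)
    rw [map_zero, Cox.F_map] at h4
    have h5 : (fun (q : Q) (χ : Fin (dB + r) → ℤ) =>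
        ((algebraMap L[X] (RatFunc L)).comp (mapRingHom θ))
          (((a q χ).map (i : F →+* F₂)).map PowerSeries.C)) =
        fun q χ => algebraMap L[X] (RatFunc L) ((a q χ).map (ι₀ : F →+* L)) := by
      funext q χ
      rw [RingHom.comp_apply, coe_mapRingHom, Polynomial.map_map, Polynomial.map_map]
      congr 2
      refine RingHom.ext fun c => ?_
      exact (hι c).symm
    rw [h5, Cox.F_scale (c := fun q χ => algebraMap L[X] (RatFunc L) ((a q χ).map (ι₀ : F →+* L)))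
      (c' := cst (fun q => f (Sum.inr q)) fun l => rmapA ι₀ (X l))
      (s := rmapA ι₀ (algebraMap F[X] (RatFunc F) (den q))) h2] at h4
    have h6 := (mul_eq_zero.1 h4).resolve_left (by
      rw [map_eq_zero, map_eq_zero_iff _ (IsFractionRing.injective F[X] (RatFunc F))]
      exact (h.den_monic q).ne_zero)
    refine mul_eq_zero_of_right _ ?_
    exact h6

/-- the form used in the assembly -/
theorem comb_teeth (T : Tot n dB r B Q x f) {F : Type} [Field F]
    [Algebra ℂ F] {σ : Finset V} {m : V → ℕ} {X : Fin (dB + r) → RatFunc F}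
    {Xe : Fin (dB + r) → F} {a : Q → (Fin (dB + r) → ℤ) → F[X]} {den : Q → F[X]} {g : F[X]}
    {N0 : ℤ} (hD : DefD f Δ σ m X Xe a den g N0) {F₂ : Type} [Field F₂]
    [Algebra ℂ F₂] (iF : F →ₐ[ℂ] F₂) {L : ℕ} (hL : 0 < L)
    (E : Fin L → RatFunc F →ₐ[ℂ] F₂) (hE : ∀ j c, E j (RatFunc.C c) = iF c)
    (hinj : Function.Injective fun j => E j RatFunc.X) (hcard : 2 * g.natDegree ≤ L)
    (hN : N0 ≤ (L : ℤ) - 1 - g.natDegree) (Te : Fin L → V → F₂[X])
    (hT : ∀ j, Tooth x f Δ.ray (fun l => E j (X l)) (ind F₂ σ) m (Te j)) :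
    ∃ Y : V → (PowerSeries F₂)[X],
      (∀ j, ∃ c : F₂, c ≠ 0 ∧ ∀ v, ∃ Z, ex (E j RatFunc.X) (Y v) = eps F₂ ^ (2 * m v) * Z ∧
        red Z = Polynomial.C (c ^ (2 * m v)) * (Te j v).comp (Polynomial.X ^ 2)) ∧
      ∀ q, (coxF f Δ.ray).F
        (fun q χ => ((a q χ).map (iF : F →+* F₂)).map PowerSeries.C) q Y = 0 := by
  have : Nonempty (Fin L) := ⟨⟨0, hL⟩⟩
  obtain ⟨Y, -, -, -, h4, -, h5⟩ := comb_def T hD iF E hE hinj hT
    (by rw [Fintype.card_fin]; omega) (by rw [Fintype.card_fin]; omega)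
  exact ⟨Y, h4, h5⟩

end main

end Pool.Agent.Work.WRC
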