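import Mathlib
import Pool.Agent.Work.MP_4329d7_ag_wrc.FinDefs
import Pool.Agent.Work.MP_4329d7_ag_wrc.Spz

/-!
W-RC, module `Fam` (items (1), (2) of note 3488): amalgamation of fields, base change of `AIPair`,
the family of fibre equations over a curve of the base given by `PRC (KBf x)`, and the translation
of sections of this family (`BdSec`) into sections of the whole intersection (`BdTot`).
-/

namespace Pool.Agent.Work.WRC

open Polynomial Pool.Agent.Work.CI Pool.Agent.Work.MP_4329d7_ag_sq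

section amalgam

open TensorProduct

/-- two extensions of a field have a common algebraically closed extension -/
theorem amalgam {L K k : Type} [Field L] [Algebra ℂ L] [Field K] [Algebra ℂ K] [Field k]
    [Algebra ℂ k] (u : L →ₐ[ℂ] K) (v : L →ₐ[ℂ] k) :
    ∃ (k' : Type) (_ : Field k') (_ : Algebra ℂ k') (_ : IsAlgClosed k') (i : K →ₐ[ℂ] k')
      (j : k →ₐ[ℂ] k'), ∀ y, i (u y) = j (v y) := by
  let _ : Algebra L K := u.toRingHom.toAlgebra
  let _ : Algebra L k := v.toRingHom.toAlgebra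
  have _ : Nontrivial (TensorProduct L K k) := inferInstance
  obtain ⟨m, hm⟩ := Ideal.exists_maximal (TensorProduct L K k)
  let _ : Field (TensorProduct L K k ⧸ m) := Ideal.Quotient.field m
  let f : K →+* AlgebraicClosure (TensorProduct L K k ⧸ m) :=
    (algebraMap (TensorProduct L K k ⧸ m) (AlgebraicClosure (TensorProduct L K k ⧸ m))).comp
      ((Ideal.Quotient.mk m).comp Algebra.TensorProduct.includeLeftRingHom)
  let g : k →+* AlgebraicClosure (TensorProduct L K k ⧸ m) :=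
    (algebraMap (TensorProduct L K k ⧸ m) (AlgebraicClosure (TensorProduct L K k ⧸ m))).comp
      ((Ideal.Quotient.mk m).comp
        (Algebra.TensorProduct.includeRight : k →ₐ[L] TensorProduct L K k).toRingHom)
  have key : ∀ y : L, f (u y) = g (v y) := by
    intro y
    change (algebraMap (TensorProduct L K k ⧸ m) (AlgebraicClosure (TensorProduct L K k ⧸ m)))
      (Ideal.Quotient.mk m (u y ⊗ₜ[L] (1 : k))) =
      (algebraMap (TensorProduct L K k ⧸ m) (AlgebraicClosure (TensorProduct L K k ⧸ m)))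
      (Ideal.Quotient.mk m ((1 : K) ⊗ₜ[L] v y))
    congr 2
    have h1 : u y = y • (1 : K) := by
      rw [Algebra.smul_def, mul_one]
      rfl
    have h2 : v y = y • (1 : k) := by
      rw [Algebra.smul_def, mul_one]
      rfl
    rw [h1, h2, TensorProduct.smul_tmul]
  refine ⟨AlgebraicClosure (TensorProduct L K k ⧸ m), inferInstance,
    (f.comp (algebraMap ℂ K)).toAlgebra, inferInstance, ?_⟩
  let _ : Algebra ℂ (AlgebraicClosure (TensorProduct L K k ⧸ m)) :=
    (f.comp (algebraMap ℂ K)).toAlgebra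
  refine ⟨{ f with commutes' := fun c => rfl }, { g with commutes' := fun c => ?_ }, fun y => key y⟩
  change g (algebraMap ℂ k c) = f (algebraMap ℂ K c)
  rw [← v.commutes c, ← u.commutes c, key]

end amalgam

/-- base change of a generic pair -/
theorem AIPair.map {L : Type} [Field L] [Algebra ℂ L] {k k' : Type} [Field k] [Algebra ℂ k]
    [Field k'] [Algebra ℂ k'] {i : L →ₐ[ℂ] k} {φ : L →ₐ[ℂ] RatFunc k} (h : AIPair i φ)
    (j : k →ₐ[ℂ] k') : AIPair (j.comp i) ((rmapA j).comp φ) := by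
  obtain ⟨h1, I, hI, x, hx, hai⟩ := h
  refine ⟨fun y => (h1 y).map (j : k →+* k'), I, hI, x, hx, ?_⟩
  have h2 := hai.map' (f := rmapA j) (rmapA j).toRingHom.injective
  convert h2 using 1
  funext s
  rcases s with s | s
  · simp [rmapA_apply]
  · rfl

section den

variable {k : Type} [Field k]

theorem Inf.monic {g : RatFunc k} {c : k} (h : Inf g c) : ∃ p q : k[X], q.Monic ∧
    p.natDegree ≤ q.natDegree ∧ p.coeff q.natDegree = c ∧
    algebraMap k[X] (RatFunc k) p = algebraMap k[X] (RatFunc k) q * g := by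
  obtain ⟨p, q, hq, hd, hc, rfl⟩ := h
  have hl : q.leadingCoeff ≠ 0 := leadingCoeff_ne_zero.2 hq
  have hC : C q.leadingCoeff⁻¹ ≠ (0 : k[X]) := C_ne_zero.2 (inv_ne_zero hl)
  have hdeg : (C q.leadingCoeff⁻¹ * q).natDegree = q.natDegree := by
    rw [natDegree_C_mul (inv_ne_zero hl)]
  refine ⟨C q.leadingCoeff⁻¹ * p, C q.leadingCoeff⁻¹ * q, ?_, ?_, ?_, ?_⟩
  · rw [Monic, leadingCoeff_mul, leadingCoeff_C, inv_mul_cancel₀ hl]
  · rw [hdeg]
    exact (natDegree_C_mul_le _ _).trans hd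
  · rw [hdeg, coeff_C_mul, hc]
    field_simp
  · have h1 := inf_ne hq
    rw [map_mul, map_mul]
    field_simp

/-- a common denominator which is monic of positive degree -/
theorem exists_den {ι : Type} (S : Finset ι) (g : ι → RatFunc k) (c : ι → k)
    (h : ∀ χ ∈ S, Inf (g χ) (c χ)) :
    ∃ (den : k[X]) (p : ι → k[X]), den.Monic ∧ 1 ≤ den.natDegree ∧ ∀ χ ∈ S,
      (p χ).natDegree ≤ den.natDegree ∧ (p χ).coeff den.natDegree = c χ ∧
      algebraMap k[X] (RatFunc k) (p χ) = algebraMap k[X] (RatFunc k) den * g χ := by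
  classical
  induction S using Finset.induction_on with
  | empty => exact ⟨X, fun _ => 0, monic_X, by rw [natDegree_X], fun χ hχ => absurd hχ (by simp)⟩
  | insert χ₀ S hχ₀ ih =>
    obtain ⟨den, p, hm, hd, hp⟩ := ih fun χ hχ => h χ (Finset.mem_insert_of_mem hχ)
    obtain ⟨p₀, q₀, hq, hd₀, hc₀, he₀⟩ := (h χ₀ (Finset.mem_insert_self _ _)).monic
    have hdeg : (den * q₀).natDegree = den.natDegree + q₀.natDegree := hm.natDegree_mul hq
    refine ⟨den * q₀, fun χ => if χ = χ₀ then den * p₀ else p χ * q₀, hm.mul hq, by omega, ?_⟩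
    intro χ hχ
    by_cases h0 : χ = χ₀
    · subst h0
      simp only [if_true]
      rw [hdeg]
      refine ⟨natDegree_mul_le.trans (by omega), ?_, ?_⟩
      · rw [coeff_mul_add_eq_of_natDegree_le le_rfl hd₀, hc₀, coeff_natDegree, hm.leadingCoeff,
          one_mul]
      · rw [map_mul, he₀, map_mul]
        ring
    · simp only [h0, if_false]
      obtain ⟨h1, h2, h3⟩ := hp χ ((Finset.mem_insert.1 hχ).resolve_left h0)
      rw [hdeg]
      refine ⟨natDegree_mul_le.trans (by omega), ?_, ?_⟩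
      · rw [coeff_mul_add_eq_of_natDegree_le h1 le_rfl, h2, coeff_natDegree, hq.leadingCoeff,
          mul_one]
      · rw [map_mul, h3, map_mul]
        ring

end den

variable {K : Type} [Field K] [Algebra ℂ K] {dB r : ℕ} {B Q : Type}
  {x : Fin (dB + r) → K} {f : B ⊕ Q → Lau (dB + r)} {V : Type} [Fintype V] [DecidableEq V]

/-- the family over a curve of the base with a given value at infinity -/
theorem exists_isFam {k : Type} [Field k] [Algebra ℂ k] (x : Fin (dB + r) → K)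
    (f : B ⊕ Q → Lau (dB + r)) (φB : KBf x →ₐ[ℂ] RatFunc k) (x₀ : Fin (dB + r) → k)
    (hx₀ : ∀ j, x₀ j ≠ 0) (hinf : ∀ j, Inf (φB (xB x j)) (x₀ (Fin.castAdd r j))) :
    ∃ (a : Q → (Fin (dB + r) → ℤ) → k[X]) (D : Q → ℕ), IsFam x f φB x₀ a D := by
  classical
  have key : ∀ q : Q, ∃ (den : k[X]) (p : (Fin (dB + r) → ℤ) → k[X]), den.Monic ∧
      1 ≤ den.natDegree ∧ ∀ χ ∈ (f (Sum.inr q)).support, (p χ).natDegree ≤ den.natDegree ∧
      (p χ).coeff den.natDegree = cst (fun q => f (Sum.inr q)) x₀ q χ ∧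
      algebraMap k[X] (RatFunc k) (p χ) = algebraMap k[X] (RatFunc k) den *
        (RatFunc.C (algebraMap ℂ k (f (Sum.inr q) χ)) *
          (∏ j, φB (xB x j) ^ χ (Fin.castAdd r j)) *
          RatFunc.C (∏ j, x₀ (Fin.natAdd dB j) ^ χ (Fin.natAdd dB j))) := by
    intro q
    refine exists_den _ _ _ fun χ _ => ?_
    have h1 : cst (fun q => f (Sum.inr q)) x₀ q χ = algebraMap ℂ k (f (Sum.inr q) χ) *
        (∏ j, x₀ (Fin.castAdd r j) ^ χ (Fin.castAdd r j)) *
        ∏ j, x₀ (Fin.natAdd dB j) ^ χ (Fin.natAdd dB j) := by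
      unfold cst mon
      rw [Fin.prod_univ_add, mul_assoc]
    rw [h1]
    exact ((Inf.const _).mul (Inf.prod fun j _ => (hinf j).zpow (hx₀ _) _)).mul (Inf.const _)
  choose den p hm hd hp using key
  refine ⟨p, fun q => (den q).natDegree, hd, hinf, fun q χ hχ => (hp q χ hχ).1,
    fun q χ hχ => (hp q χ hχ).2.1, den, fun q => (hm q).ne_zero, fun q χ hχ => ?_⟩
  rw [(hp q χ hχ).2.2]
  ring

/-- FAM (item (1) of note 3488): all inputs of the section theorem from `PRC` of the base -/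
theorem exists_fam (hx : ∀ j, x j ≠ 0) (h : PRC (KBf x)) :
    ∃ (k : Type) (_ : Field k) (_ : Algebra ℂ k) (_ : IsAlgClosed k) (iB : KBf x →ₐ[ℂ] k)
      (φB : KBf x →ₐ[ℂ] RatFunc k) (φ₀ : K →ₐ[ℂ] k) (a : Q → (Fin (dB + r) → ℤ) → k[X])
      (D : Q → ℕ), AIPair iB φB ∧ (∀ y : KBf x, φ₀ (y : K) = iB y) ∧
      IsFam x f φB (fun j => φ₀ (x j)) a D := by
  obtain ⟨k₁, i1, i2, i3, iB, φB, hAI⟩ := h
  obtain ⟨k, j1, j2, j3, φ₀, j, hj⟩ := amalgam (KBf x).val iB
  have hA : AIPair (j.comp iB) ((rmapA j).comp φB) := AIPair.map hAI j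
  have hx₀ : ∀ j, φ₀ (x j) ≠ 0 := fun j => (map_ne_zero_iff _ φ₀.toRingHom.injective).2 (hx j)
  obtain ⟨a, D, hfam⟩ := exists_isFam x f ((rmapA j).comp φB) (fun j => φ₀ (x j)) hx₀ (by
    intro l
    have h1 := hA.1 (xB x l)
    rw [AlgHom.comp_apply j iB, ← hj] at h1
    exact h1)
  exact ⟨k, j1, j2, j3, j.comp iB, (rmapA j).comp φB, φ₀, a, D, hA, fun y => hj y, hfam⟩

/-- the point of the whole intersection given by the base curve `φB` and the section `y` -/
noncomputable def totX (x : Fin (dB + r) → K) {k k₂ : Type} [Field k] [Algebra ℂ k] [Field k₂]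
    [Algebra ℂ k₂] (i : k →ₐ[ℂ] k₂) (φB : KBf x →ₐ[ℂ] RatFunc k) (x₀ : Fin (dB + r) → k)
    (y : Fin r → RatFunc k₂) : Fin (dB + r) → RatFunc k₂ :=
  Fin.append (fun j => rmapA i (φB (xB x j)))
    (fun j => RatFunc.C (i (x₀ (Fin.natAdd dB j))) * y j)

/-- item (2) of note 3488: sections of the family are sections of the intersection -/
theorem bdTot_of_bdSec {Δ : FanV V r} {k k₂ : Type} [Field k] [Algebra ℂ k] [Field k₂]
    [Algebra ℂ k₂] {φB : KBf x →ₐ[ℂ] RatFunc k} {x₀ : Fin (dB + r) → k}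
    {a : Q → (Fin (dB + r) → ℤ) → k[X]} {D : Q → ℕ} (hfam : IsFam x f φB x₀ a D)
    (hx : ∀ j, x j ≠ 0) (hx₀ : ∀ j, x₀ j ≠ 0) (i : k →ₐ[ℂ] k₂) {σ : Finset V}
    {y : Fin r → RatFunc k₂} (h : BdSec Δ f (fun q χ => (a q χ).map i.toRingHom) σ y) :
    BdTot f Δ σ (totX x i φB x₀ y) := by
  have hX : ∀ j, totX x i φB x₀ y j ≠ 0 := by
    intro j
    unfold totX
    refine Fin.addCases (fun j => ?_) (fun j => ?_) j
    · rw [Fin.append_left]
      refine (map_ne_zero_iff _ (rmapA i).toRingHom.injective).2 ?_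
      refine (map_ne_zero_iff _ φB.toRingHom.injective).2 ?_
      intro h0
      exact hx (Fin.castAdd r j) (congrArg Subtype.val h0)
    · rw [Fin.append_right]
      refine mul_ne_zero ?_ (h.ne j)
      exact (map_ne_zero_iff _ (RatFunc.C : k₂ →+* RatFunc k₂).injective).2
        ((map_ne_zero_iff _ i.toRingHom.injective).2 (hx₀ _))
  refine ⟨h.cone, hX, fun q => ?_⟩
  obtain ⟨den, hden, hfm⟩ := hfam.fam
  have hd : algebraMap k₂[X] (RatFunc k₂) ((den q).map i.toRingHom) ≠ 0 :=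
    inf_ne ((Polynomial.map_ne_zero_iff i.toRingHom.injective).2 (hden q))
  have key : ∀ χ ∈ (f (Sum.inr q)).support,
      algebraMap k₂[X] (RatFunc k₂) ((den q).map i.toRingHom) *
        cst (fun q => f (Sum.inr q)) (totX x i φB x₀ y) q χ =
      algebraMap k₂[X] (RatFunc k₂) ((a q χ).map i.toRingHom) *
        ∏ j, y j ^ χ (Fin.natAdd dB j) := by
    intro χ hχ
    have h1 := congrArg (rmap i.toRingHom) (hfm q χ hχ)
    rw [rmap_algebraMap, map_mul, map_mul, map_mul, rmap_algebraMap, rmap_C, rmap_C, map_prod,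
      map_prod] at h1
    rw [h1]
    unfold cst mon
    rw [Fin.prod_univ_add, algebraMap_ratFunc]
    have h2 : ∀ j : Fin dB, totX x i φB x₀ y (Fin.castAdd r j) = rmap i.toRingHom (φB (xB x j)) := by
      intro j
      unfold totX
      rw [Fin.append_left]
      rfl
    have h3 : ∀ j : Fin r, totX x i φB x₀ y (Fin.natAdd dB j) =
        RatFunc.C (i (x₀ (Fin.natAdd dB j))) * y j := by
      intro j
      unfold totX
      rw [Fin.append_right]
    simp only [h2, h3, mul_zpow, Finset.prod_mul_distrib, map_zpow₀, map_prod]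
    have h4 : i.toRingHom (algebraMap ℂ k (f (Sum.inr q) χ)) =
        algebraMap ℂ k₂ (f (Sum.inr q) χ) := i.commutes _
    rw [h4]
    have h5 : ∀ j : Fin r, i.toRingHom (x₀ (Fin.natAdd dB j)) = i (x₀ (Fin.natAdd dB j)) :=
      fun j => rfl
    simp only [h5]
    ring
  have h1 : algebraMap k₂[X] (RatFunc k₂) ((den q).map i.toRingHom) *
      ∑ χ ∈ (f (Sum.inr q)).support with (∀ v ∈ σ, (coxF f Δ.ray).e q χ v = 0),
        cst (fun q => f (Sum.inr q)) (totX x i φB x₀ y) q χ = 0 := by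
    rw [Finset.mul_sum, ← h.eq q]
    refine Finset.sum_congr rfl fun χ hχ => ?_
    exact key χ (Finset.mem_filter.1 hχ).1
  exact (mul_eq_zero.1 h1).resolve_left hd

/-- the value of `totX` at infinity, base part -/
theorem totX_inf {k k₂ : Type} [Field k] [Algebra ℂ k] [Field k₂]
    [Algebra ℂ k₂] {φB : KBf x →ₐ[ℂ] RatFunc k} {x₀ : Fin (dB + r) → k}
    {a : Q → (Fin (dB + r) → ℤ) → k[X]} {D : Q → ℕ} (hfam : IsFam x f φB x₀ a D)
    (i : k →ₐ[ℂ] k₂) (y : Fin r → RatFunc k₂) (j : Fin dB) :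
    Inf (totX x i φB x₀ y (Fin.castAdd r j)) (i (x₀ (Fin.castAdd r j))) := by
  unfold totX
  rw [Fin.append_left]
  exact (hfam.inf j).map (i : k →+* k₂)

/-- the limit of the fibre part of `totX` -/
theorem totX_lim {Δ : FanV V r} {k k₂ : Type} [Field k] [Algebra ℂ k] [Field k₂]
    [Algebra ℂ k₂] (φB : KBf x →ₐ[ℂ] RatFunc k) {x₀ : Fin (dB + r) → k} (hx₀ : ∀ j, x₀ j ≠ 0)
    (i : k →ₐ[ℂ] k₂) {σ τ : Finset V} {y : Fin r → RatFunc k₂} {z : Fin r → k₂}
    (h : LimInf Δ σ y τ z) :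
    LimInf Δ σ (fun j => totX x i φB x₀ y (Fin.natAdd dB j)) τ
      (fun j => i (x₀ (Fin.natAdd dB j)) * z j) := by
  obtain ⟨h1, h2, g, h3, h4, h5, h6⟩ := h
  refine ⟨h1, h2, g, h3, h4, h5, fun j => ⟨mul_ne_zero ?_ (h6 j).1, ?_⟩⟩
  · exact (map_ne_zero_iff _ i.toRingHom.injective).2 (hx₀ _)
  · unfold totX
    beta_reduce
    rw [Fin.append_right, mul_assoc]
    exact (Inf.const _).mul (h6 j).2

/-- the point at infinity in the form of `tooth_open` -/
theorem append_mulF {k₂ : Type} [Field k₂] (x' : Fin (dB + r) → k₂) (z : Fin r → k₂) :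
    (Fin.append (fun j => x' (Fin.castAdd r j)) fun j => x' (Fin.natAdd dB j) * z j) =
      mulF x' z := by
  funext j
  unfold mulF
  refine Fin.addCases (fun j => ?_) (fun j => ?_) j
  · rw [Fin.append_left, Fin.append_left, Pi.one_apply, mul_one]
  · rw [Fin.append_right, Fin.append_right]

end Pool.Agent.Work.WRC
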