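import Mathlib
import Pool.Agent.Work.MP_4329d7_ag_wrc.Fam

/-!
W-RC, module `Moeb` (item (3) of note 3488): the change of coordinate `s = e + 1 / s'` on rational
functions, the values at infinity of the transformed functions, base change of `BdTot`.
-/

namespace Pool.Agent.Work.WRC

open Polynomial Pool.Agent.Work.CI Pool.Agent.Work.MP_4329d7_ag_sq

section mob

variable {F : Type} [Field F]

theorem ratFunc_X_ne_C (c : F) : (RatFunc.X : RatFunc F) ≠ RatFunc.C c := by
  intro h
  rw [← RatFunc.algebraMap_X, ← RatFunc.algebraMap_C] at h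
  have h1 := congrArg natDegree (IsFractionRing.injective F[X] (RatFunc F) h)
  rw [natDegree_X, natDegree_C] at h1
  exact one_ne_zero h1

/-- a rational function which is not constant is not a root of a polynomial -/
theorem eval₂_ratFunc_ne_zero (y : RatFunc F) (hy : ∀ c, y ≠ RatFunc.C c) (p : F[X]) (hp : p ≠ 0) :
    p.eval₂ (RatFunc.C : F →+* RatFunc F) y ≠ 0 := by
  intro h0
  have h1 : Transcendental F y := RatFunc.transcendental_of_ne_C y (by
    rintro ⟨c, hc⟩
    exact hy c hc)
  rw [transcendental_iff] at h1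
  refine hp (h1 p ?_)
  rw [Polynomial.aeval_def, RatFunc.algebraMap_eq_C]
  exact h0

theorem mob_ne (e c : F) : RatFunc.C e + (RatFunc.X : RatFunc F)⁻¹ ≠ RatFunc.C c := by
  intro h
  have h1 : (RatFunc.X : RatFunc F)⁻¹ = RatFunc.C (c - e) := by
    rw [map_sub, ← h]
    ring
  have h2 := inv_eq_iff_eq_inv.1 h1
  rw [← map_inv₀] at h2
  exact ratFunc_X_ne_C _ h2

theorem mobI_ne (e c : F) : ((RatFunc.X : RatFunc F) - RatFunc.C e)⁻¹ ≠ RatFunc.C c := by
  intro h
  have h1 := inv_eq_iff_eq_inv.1 h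
  rw [← map_inv₀] at h1
  refine ratFunc_X_ne_C (c⁻¹ + e) ?_
  rw [map_add, ← h1]
  ring

/-- `s ↦ e + 1 / s'` -/
noncomputable def mob (e : F) : RatFunc F →+* RatFunc F :=
  rlift RatFunc.C (RatFunc.C e + RatFunc.X⁻¹) (eval₂_ratFunc_ne_zero _ (mob_ne e))

/-- `s' ↦ 1 / (s - e)` -/
noncomputable def mobI (e : F) : RatFunc F →+* RatFunc F :=
  rlift RatFunc.C (RatFunc.X - RatFunc.C e)⁻¹ (eval₂_ratFunc_ne_zero _ (mobI_ne e))

@[simp] theorem mob_C (e c : F) : mob e (RatFunc.C c) = RatFunc.C c := rlift_C _ _ _ _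

@[simp] theorem mob_X (e : F) : mob e RatFunc.X = RatFunc.C e + RatFunc.X⁻¹ := rlift_X _ _ _

@[simp] theorem mobI_C (e c : F) : mobI e (RatFunc.C c) = RatFunc.C c := rlift_C _ _ _ _

@[simp] theorem mobI_X (e : F) : mobI e RatFunc.X = (RatFunc.X - RatFunc.C e)⁻¹ := rlift_X _ _ _

theorem mobI_mob (e : F) (a : RatFunc F) : mobI e (mob e a) = a := by
  have h : (mobI e).comp (mob e) = RingHom.id _ := by
    refine ratFunc_hom_ext (fun c => ?_) ?_
    · simp
    · rw [RingHom.comp_apply, mob_X, map_add, mobI_C, map_inv₀, mobI_X, inv_inv, RingHom.id_apply]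
      ring
  exact congrArg (fun g => g a) h

theorem mob_mobI (e : F) (a : RatFunc F) : mob e (mobI e a) = a := by
  have h : (mob e).comp (mobI e) = RingHom.id _ := by
    refine ratFunc_hom_ext (fun c => ?_) ?_
    · simp
    · rw [RingHom.comp_apply, mobI_X, map_inv₀, map_sub, mob_C, mob_X, RingHom.id_apply,
        add_sub_cancel_left, inv_inv]
  exact congrArg (fun g => g a) h

theorem inf_X_inv : Inf (RatFunc.X : RatFunc F)⁻¹ 0 := by
  refine ⟨1, X, X_ne_zero, by simp, ?_, ?_⟩
  · rw [natDegree_X, zero_mul, ← C_1, coeff_C]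
    simp
  · rw [map_one, RatFunc.algebraMap_X, one_div]

/-- the value of the transformed function at infinity is the value at `e` -/
theorem inf_mob {k : Type} [Field k] (g : k →+* F) (e : F) (E : RatFunc k →+* F)
    (hC : ∀ c, E (RatFunc.C c) = g c) (hX : E RatFunc.X = e) (a : RatFunc k) :
    Inf (mob e (rmap g a)) (E a) := by
  have hp : ∀ p : k[X], Inf (mob e (rmap g (algebraMap k[X] (RatFunc k) p)))
      (E (algebraMap k[X] (RatFunc k) p)) := by
    intro p
    induction p using Polynomial.induction_on' with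
    | add p q hp hq =>
      rw [map_add, map_add, map_add, map_add]
      exact hp.add hq
    | monomial n c =>
      rw [← C_mul_X_pow_eq_monomial, map_mul, map_mul, map_mul, map_mul, map_pow, map_pow,
        map_pow, map_pow, RatFunc.algebraMap_C, RatFunc.algebraMap_X, rmap_C, rmap_X, mob_C, mob_X,
        hC, hX]
      refine (Inf.const _).mul (Inf.pow ?_ n)
      have h1 := (Inf.const e).add (inf_X_inv (F := F))
      rwa [add_zero] at h1
  have h1 : a = algebraMap k[X] (RatFunc k) a.num * (algebraMap k[X] (RatFunc k) a.denom)⁻¹ := by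
    rw [← div_eq_mul_inv, RatFunc.num_div_denom]
  rw [h1, map_mul, map_mul, map_mul, map_inv₀, map_inv₀, map_inv₀]
  refine (hp _).mul ((hp _).inv ?_)
  exact (map_ne_zero_iff _ E.injective).2 (inf_ne a.denom_ne_zero)

end mob

section alg

variable {F : Type} [Field F] [Algebra ℂ F]

/-- `s ↦ e + 1 / s'` as a homomorphism of `ℂ`-algebras -/
noncomputable def mobA (e : F) : RatFunc F →ₐ[ℂ] RatFunc F :=
  { mob e with
    commutes' := fun c => by
      change mob e (algebraMap ℂ (RatFunc F) c) = _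
      rw [algebraMap_ratFunc, mob_C] }

/-- `s' ↦ 1 / (s - e)` as a homomorphism of `ℂ`-algebras -/
noncomputable def mobIA (e : F) : RatFunc F →ₐ[ℂ] RatFunc F :=
  { mobI e with
    commutes' := fun c => by
      change mobI e (algebraMap ℂ (RatFunc F) c) = _
      rw [algebraMap_ratFunc, mobI_C] }

theorem mobA_apply (e : F) (a : RatFunc F) : mobA e a = mob e a := rfl

theorem mobIA_apply (e : F) (a : RatFunc F) : mobIA e a = mobI e a := rfl

@[simp] theorem mobA_C (e c : F) : mobA e (RatFunc.C c) = RatFunc.C c := mob_C e c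

@[simp] theorem mobA_X (e : F) : mobA e RatFunc.X = RatFunc.C e + RatFunc.X⁻¹ := mob_X e

@[simp] theorem mobIA_C (e c : F) : mobIA e (RatFunc.C c) = RatFunc.C c := mobI_C e c

@[simp] theorem mobIA_X (e : F) : mobIA e RatFunc.X = (RatFunc.X - RatFunc.C e)⁻¹ := mobI_X e

theorem mobIA_mobA (e : F) (a : RatFunc F) : mobIA e (mobA e a) = a := mobI_mob e a

theorem mobA_mobIA (e : F) (a : RatFunc F) : mobA e (mobIA e a) = a := mob_mobI e a

/-- MOEBIUS (item (3) of note 3488): an algebraically closed extension of `k'` with an element `e`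
which is transcendental over `k'`; `E a = a(e)`, and `mobA e ∘ rmapA (j ∘ i)` is the substitution
`s = e + 1 / s'`; the value at infinity of the transformed function is `E a`. -/
theorem moebius {k k' : Type} [Field k] [Algebra ℂ k] [Field k'] [Algebra ℂ k'] (i : k →ₐ[ℂ] k') :
    ∃ (F : Type) (_ : Field F) (_ : Algebra ℂ F) (_ : IsAlgClosed F) (j : k' →ₐ[ℂ] F) (e : F)
      (E : RatFunc k →ₐ[ℂ] F), (∀ p : k'[X], p ≠ 0 → p.eval₂ (j : k' →+* F) e ≠ 0) ∧
      (∀ c, E (RatFunc.C c) = j (i c)) ∧ E RatFunc.X = e ∧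
      ∀ a, Inf (mobA e (rmapA (j.comp i) a)) (E a) := by
  let j : k' →ₐ[ℂ] AlgebraicClosure (RatFunc k') :=
    { (algebraMap (RatFunc k') (AlgebraicClosure (RatFunc k'))).comp
        (RatFunc.C : k' →+* RatFunc k') with
      commutes' := fun c => by
        change algebraMap (RatFunc k') (AlgebraicClosure (RatFunc k'))
          (RatFunc.C (algebraMap ℂ k' c)) = _
        rw [← algebraMap_ratFunc, ← IsScalarTower.algebraMap_apply] }
  let E : RatFunc k →ₐ[ℂ] AlgebraicClosure (RatFunc k') :=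
    (IsScalarTower.toAlgHom ℂ (RatFunc k') (AlgebraicClosure (RatFunc k'))).comp (rmapA i)
  have hj : ∀ c, j c = algebraMap (RatFunc k') (AlgebraicClosure (RatFunc k')) (RatFunc.C c) :=
    fun c => rfl
  have hE : ∀ a, E a = algebraMap (RatFunc k') (AlgebraicClosure (RatFunc k')) (rmapA i a) :=
    fun a => rfl
  refine ⟨AlgebraicClosure (RatFunc k'), inferInstance, inferInstance, inferInstance, j,
    algebraMap (RatFunc k') (AlgebraicClosure (RatFunc k')) RatFunc.X, E, ?_, ?_, ?_, ?_⟩
  · intro p hp h0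
    have h1 : p.eval₂ (j : k' →+* AlgebraicClosure (RatFunc k'))
        (algebraMap (RatFunc k') (AlgebraicClosure (RatFunc k')) RatFunc.X) =
        algebraMap (RatFunc k') (AlgebraicClosure (RatFunc k'))
          (p.eval₂ (RatFunc.C : k' →+* RatFunc k') RatFunc.X) := by
      rw [Polynomial.hom_eval₂]
      rfl
    rw [h1] at h0
    exact eval₂_ratFunc_ne_zero RatFunc.X ratFunc_X_ne_C p hp
      ((map_eq_zero_iff _ (algebraMap (RatFunc k') _).injective).1 h0)
  · intro c
    rw [hE, hj, rmapA_apply, rmap_C]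
    rfl
  · rw [hE, rmapA_apply, rmap_X]
  · intro a
    refine inf_mob _ _ (E : RatFunc k →+* AlgebraicClosure (RatFunc k')) (fun c => ?_) ?_ a
    · change E (RatFunc.C c) = j (i c)
      rw [hE, hj, rmapA_apply, rmap_C]
      rfl
    · change E RatFunc.X = _
      rw [hE, rmapA_apply, rmap_X]

/-- a position `t = 1 / (s - e)` in the new coordinate: evaluation of the transformed function at
`t` is evaluation of the original function at `s` -/
theorem mob_eval {L : Type} [Field L] [Algebra ℂ L] (e : F) (ev : RatFunc F →ₐ[ℂ] L) :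
    (∀ c, ev.comp (mobIA e) (RatFunc.C c) = ev (RatFunc.C c)) ∧
    ev.comp (mobIA e) RatFunc.X = (ev RatFunc.X - ev (RatFunc.C e))⁻¹ ∧
    ∀ a, ev.comp (mobIA e) (mobA e a) = ev a := by
  refine ⟨fun c => ?_, ?_, fun a => ?_⟩
  · rw [AlgHom.comp_apply, mobIA_C]
  · rw [AlgHom.comp_apply, mobIA_X, map_inv₀, map_sub]
  · rw [AlgHom.comp_apply, mobIA_mobA]

end alg

section bdTot

variable {dB r : ℕ} {B Q V : Type} [Fintype V] [DecidableEq V]

theorem cst_mapA {d : ℕ} {Q F F' : Type} [Field F] [Algebra ℂ F] [Field F'] [Algebra ℂ F']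
    (g : F →ₐ[ℂ] F') (f : Q → Lau d) (x : Fin d → F) (q : Q) (χ : Fin d → ℤ) :
    cst f (fun j => g (x j)) q χ = g (cst f x q χ) := by
  unfold cst mon
  rw [map_mul, g.commutes, map_prod]
  simp only [map_zpow₀]

/-- base change of `BdTot` -/
theorem BdTot.map {f : B ⊕ Q → Lau (dB + r)} {Δ : FanV V r} {k k' : Type} [Field k] [Algebra ℂ k]
    [Field k'] [Algebra ℂ k'] {σ : Finset V} {X : Fin (dB + r) → k} (h : BdTot f Δ σ X)
    (g : k →ₐ[ℂ] k') : BdTot f Δ σ (fun j => g (X j)) := by
  refine ⟨h.cone, fun j => (map_ne_zero_iff _ g.toRingHom.injective).2 (h.ne j), fun q => ?_⟩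
  simp only [cst_mapA g (fun q => f (Sum.inr q)) X]
  rw [← map_sum, h.eq q, map_zero]

end bdTot

end Pool.Agent.Work.WRC
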