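import Mathlib
import Pool.Agent.Work.MP_4329d7_ag_wrc.FinDefs
import Pool.Agent.Work.MP_4329d7_ag_wrc.DefC
import Pool.Agent.Work.MP_4329d7_ag_wrc.Moeb

/-!
W-RC, the input of the final step: `FinIn` collects what the items (5)-(12) of note 3488 use.
-/

namespace Pool.Agent.Work.WRC

open Polynomial Pool.Agent.Work.CI Pool.Agent.Work.MP_4329d7_ag_sq

/-- The input of the final step over an algebraically closed field `F`: a section `X` over `F(s)` of
the orbit of the cone `σ`, its point at infinity `(τ, append xb z)`, a very free curve `W` through it,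
the generic pair of the base, and the defect data of the section in the coordinate `s = e + 1 / s'`
at the point `s = e`. -/
structure FinIn {K : Type} [Field K] [Algebra ℂ K] {dB r : ℕ} {B Q V : Type} [Fintype Q] [Fintype V]
    [DecidableEq V] (x : Fin (dB + r) → K) (f : B ⊕ Q → Lau (dB + r)) (Δ : FanV V r) (F : Type)
    [Field F] [Algebra ℂ F] (iB : KBf x →ₐ[ℂ] F) (φB : KBf x →ₐ[ℂ] RatFunc F)
    (X : Fin (dB + r) → RatFunc F) (σ τ : Finset V) (xb : Fin dB → F) (z : Fin r → F)
    (m : V → ℕ) (W : V → F[X]) (e : F) (Xe : Fin (dB + r) → F)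
    (a : Q → (Fin (dB + r) → ℤ) → F[X]) (den : Q → F[X]) (g : F[X]) (N0 : ℤ) : Prop where
  pair : AIPair iB φB
  base : ∀ j, φB (xB x j) = X (Fin.castAdd r j)
  bd : BdTot f Δ σ X
  beq : ∀ q : B, ev (f (Sum.inl q)) X = 0
  xb_ne : ∀ j, xb j ≠ 0
  inf : ∀ j, Inf (X (Fin.castAdd r j)) (xb j)
  lim : LimInf Δ σ (fun j => X (Fin.natAdd dB j)) τ z
  tooth : Tooth x f Δ.ray (Fin.append xb z) (ind F τ) m W
  xe_ne : ∀ j, Xe j ≠ 0
  xe : ∀ j, Inf (mobA e (X j)) (Xe j)
  defd : DefD f Δ σ m (fun j => mobA e (X j)) Xe a den g N0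

end Pool.Agent.Work.WRC
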