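import Mathlib
import Pool.Agent.Work.MP_4329d7_ag_wrc.NDx
import Pool.Agent.Work.MP_4329d7_ag_wrc.Defs2

/-!
W-RC: the rows of the fibre are independent over a generic point of the base (`fib_nd`) without the
hypothesis that the base is nondegenerate: only the transcendence degree of the base field is used.
-/

namespace Pool.Agent.Work.WRC

open Polynomial Pool.Agent.Work.CI Pool.Agent.Work.CW Pool.Agent.Work.Uni

namespace ExR

/-- logarithmic tangent vectors at the generic point are directions of derivations; version without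
`Data` -/
theorem exists_der_rows {K : Type} [Field K] [Algebra ℂ K] {n d : ℕ} {Q : Type} [Fintype Q]
    {x : Fin d → K} {f : Q → Lau d} (hne : ∀ j, x j ≠ 0)
    (hgen : IntermediateField.adjoin ℂ (Set.range x) = ⊤) (heq : ∀ q, ev (f q) x = 0)
    (htr : Algebra.trdeg ℂ K = n) (hdim : n + Fintype.card Q = d)
    {F : Type} [Field F] [Algebra ℂ F] (emb : K →ₐ[ℂ] F)
    (hrow : LinearIndependent F (fun q j => ldv (f q) j (fun j => emb (x j))))
    (v : Fin d → F) (hv : ∀ q, ∑ j, ldv (f q) j (fun j => emb (x j)) * v j = 0) :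
    ∃ E : Derivation ℂ F F, ∀ j, E (emb (x j)) = v j * emb (x j) := by
  classical
  obtain ⟨I, _, Dr, hI, hli⟩ := curve_frame x hgen htr
  let _ := (emb : K →+* F).toAlgebra
  have halg : ∀ y : K, algebraMap K F y = emb y := fun y => rfl
  have : IsScalarTower ℂ K F := IsScalarTower.of_algebraMap_eq fun c => by
    rw [halg, AlgHom.commutes]
  have hx0 : ∀ j, emb (x j) ≠ 0 := fun j => (map_ne_zero_iff _ emb.injective).2 (hne j)
  -- the logarithmic directions
  let M : I → Fin d → F := fun i j => emb (Dr i (x j)) * (emb (x j))⁻¹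
  have hM : LinearIndependent F M := by
    have h1 : LinearIndependent F (fun i => algebraMap K F ∘ fun j => Dr i (x j)) :=
      linearIndependent_algebraMap_comp_iff.2 hli
    rw [Fintype.linearIndependent_iff] at h1 ⊢
    intro g hg i
    refine h1 g ?_ i
    funext j
    have h2 := congrFun hg j
    rw [Finset.sum_apply] at h2 ⊢
    rw [Pi.zero_apply] at h2 ⊢
    have h3 : (∑ i, g i * emb (Dr i (x j))) * (emb (x j))⁻¹ = 0 := by
      rw [← h2, Finset.sum_mul]
      exact Finset.sum_congr rfl fun i _ => by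
        simp only [Pi.smul_apply, smul_eq_mul, M]
        ring
    exact (mul_eq_zero.1 h3).resolve_right (inv_ne_zero (hx0 j))
  have hev : ∀ (g : Lau d) (E : Derivation ℂ K K),
      E (ev g x) = ∑ j, ldv g j x * (E (x j) * (x j)⁻¹) := by
    intro g E
    have hmon : ∀ χ : Fin d → ℤ, E (mon x χ) = ∑ j, (χ j : K) * mon x χ * (E (x j) * (x j)⁻¹) := by
      intro χ
      unfold mon
      rw [Pool.Agent.Work.RC.derivation_prod]
      refine Finset.sum_congr rfl fun j _ => ?_
      have hz : E (x j ^ χ j) = (χ j : K) * x j ^ χ j * (E (x j) * (x j)⁻¹) := by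
        rw [Derivation.leibniz_zpow]
        rw [zsmul_eq_mul, smul_eq_mul, zpow_sub_one₀ (hne j)]
        ring
      rw [hz, ← Finset.mul_prod_erase Finset.univ (fun j => x j ^ χ j) (Finset.mem_univ j)]
      ring
    unfold ev ldv
    rw [map_sum]
    simp only [Finset.sum_mul]
    rw [Finset.sum_comm]
    refine Finset.sum_congr rfl fun χ _ => ?_
    rw [Derivation.leibniz, Derivation.map_algebraMap, smul_zero, add_zero, hmon, smul_eq_mul,
      Finset.mul_sum]
    exact Finset.sum_congr rfl fun j _ => by ring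
  have horth : ∀ i q, ∑ j, M i j * ldv (f q) j (fun j => emb (x j)) = 0 := by
    intro i q
    have h1 := hev (f q) (Dr i)
    rw [heq, map_zero] at h1
    have h2 := congrArg emb h1
    rw [map_zero, map_sum] at h2
    rw [h2]
    refine Finset.sum_congr rfl fun j _ => ?_
    rw [map_mul, map_mul, map_inv₀, map_ldv]
    ring
  obtain ⟨c, hc⟩ := curve_span M (fun q j => ldv (f q) j (fun j => emb (x j))) hM hrow
    (by rw [hI, add_comm]; exact hdim) horth v (fun q => by
      rw [← hv q]
      exact Finset.sum_congr rfl fun j _ => mul_comm _ _)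
  -- a derivation from `K` to `F`
  obtain ⟨s, hs⟩ := exists_isTranscendenceBasis ℂ K
  have hai : AlgebraicIndependent ℂ (fun i : s => emb (i : K)) :=
    hs.1.map' emb.injective
  obtain ⟨E, hE⟩ := Pool.Agent.Work.MP_4329d7_ag_sq.exists_der_of_algInd hai
    (fun i : s => ∑ k, c k * emb (Dr k (i : K)))
  refine ⟨E, ?_⟩
  let E1 : Derivation ℂ K F := E.compAlgebraMap K
  let E2 : Derivation ℂ K F := ∑ k, c k • ((Algebra.linearMap K F).compDer (Dr k))
  have hE1 : ∀ y, E1 y = E (emb y) := fun y => rfl
  have hE2 : ∀ y, E2 y = ∑ k, c k * emb (Dr k y) := by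
    intro y
    have h1 : ∀ S : Finset I, (∑ k ∈ S, c k • ((Algebra.linearMap K F).compDer (Dr k)) :
        Derivation ℂ K F) y = ∑ k ∈ S, c k * emb (Dr k y) := by
      intro S
      induction S using Finset.induction_on with
      | empty => simp
      | insert i S hi ih =>
        rw [Finset.sum_insert hi, Finset.sum_insert hi, Derivation.add_apply, ih]
        rfl
    exact h1 _
  have heq : E1 = E2 := by
    refine Pool.Agent.Work.MP_4329d7_ag.R.derivation_ext hs fun i => ?_
    rw [hE1, hE2, hE i]
  intro j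
  have h1 : E (emb (x j)) = ∑ k, c k * emb (Dr k (x j)) := by
    rw [← hE1, heq, hE2]
  rw [h1, hc j, Finset.sum_mul]
  refine Finset.sum_congr rfl fun k _ => ?_
  simp only [M]
  rw [mul_assoc, mul_assoc, inv_mul_cancel₀ (hx0 j), mul_one]


section fib

variable {n dB r : ℕ} {B Q V : Type} [Fintype B] [Fintype Q] [Fintype V] [DecidableEq V]
  {K : Type} [Field K] [Algebra ℂ K] {x : Fin (dB + r) → K} {f : B ⊕ Q → Lau (dB + r)}
  {F : Type} [Field F] [Algebra ℂ F]

/-- the rows of the fibre are independent over a generic point of the base -/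
theorem fib_nd' (T : Tot n dB r B Q x f) {Δ : FanV V r} (hΔ : Δ.Adapted f)
    {KB : Type} [Field KB] [Algebra ℂ KB] {nB : ℕ} {xB : Fin dB → KB}
    (hne : ∀ i, xB i ≠ 0) (hgen : IntermediateField.adjoin ℂ (Set.range xB) = ⊤)
    (heq : ∀ q, ev (resL (f (Sum.inl q))) xB = 0) (htr : Algebra.trdeg ℂ KB = nB)
    (hdim : nB + Fintype.card B = dB) (φ : KB →ₐ[ℂ] F)
    {x' : Fin (dB + r) → F} (hx' : ∀ j, x' j ≠ 0) (hB : ∀ i, φ (xB i) = x' (Fin.castAdd r i))
    {Z : V → F} {τ : Finset V} (hτ : Δ.cone τ) (hZ : ∀ v, Z v = 0 ↔ v ∈ τ)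
    (hF : ∀ q, (coxF f Δ.ray).F (cst (fun q => f (Sum.inr q)) x') q Z = 0) {l : Q → F}
    (hl : ∀ w, w ∉ τ →
      ∑ q, l q * (coxF f Δ.ray).J (cst (fun q => f (Sum.inr q)) x') q w Z = 0) : l = 0 := by
  classical
  have hxB : (fun i => φ (xB i)) = fun i => x' (Fin.castAdd r i) := funext hB
  have hnat := lg_natAdd hZ hF hl
  have hBev : ∀ q : B, ev (f (Sum.inl q)) x' = 0 := by
    intro q
    rw [← ev_resL (T.base q), ← hxB, ← Pool.Agent.Work.CW.map_ev φ, heq q, map_zero]
  -- the rows of the base are independent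
  have hli : LinearIndependent F (fun (q : B) j =>
      ldv (resL (f (Sum.inl q))) j (fun j => φ (xB j))) := by
    rw [Fintype.linearIndependent_iff]
    intro g hg
    have h1 := (nd_int T hΔ hx' hBev hτ hZ hF (l := 0) (l' := g) (fun w _ => by simp) (fun i => by
      have h2 := congrFun hg i
      rw [Finset.sum_apply, Pi.zero_apply] at h2
      rw [hxB] at h2
      simp only [Pi.zero_apply, zero_mul, Finset.sum_const_zero, add_zero]
      rw [← h2]
      refine Finset.sum_congr rfl fun q _ => ?_
      rw [Pi.smul_apply, smul_eq_mul, ldv_resL (T.base q)])).2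
    exact fun q => congrFun h1 q
  -- the functional on the directions of the base
  obtain ⟨c, hc⟩ := ndx_mem_rows (fun (q : B) (i : Fin dB) => ldv (f (Sum.inl q)) (Fin.castAdd r i) x')
    (fun i => ∑ q, l q *
      (coxF f Δ.ray).lg (cst (fun q => f (Sum.inr q)) x') q (Fin.castAdd r i) Z) (by
    intro ξ hξ
    obtain ⟨E, hE⟩ := exists_der_rows hne hgen heq htr hdim φ hli ξ (fun q => by
      rw [hxB, ← hξ q]
      exact Finset.sum_congr rfl fun i _ => by rw [ldv_resL (T.base q)])
    have h1 : ∀ q, ∑ j, (E (x' j) / x' j) *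
        (coxF f Δ.ray).lg (cst (fun q => f (Sum.inr q)) x') q j Z =
        - ∑ w, (coxF f Δ.ray).J (cst (fun q => f (Sum.inr q)) x') q w Z * E (Z w) := by
      intro q
      have h2 := der_coxF f Δ.ray hx' Z q E
      rw [hF q, map_zero] at h2
      exact eq_neg_of_add_eq_zero_left h2.symm
    have h3 : ∑ q, l q * ∑ w,
        (coxF f Δ.ray).J (cst (fun q => f (Sum.inr q)) x') q w Z * E (Z w) = 0 := by
      simp only [Finset.mul_sum]
      rw [Finset.sum_comm]
      refine Finset.sum_eq_zero fun w _ => ?_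
      simp only [← mul_assoc]
      rw [← Finset.sum_mul]
      by_cases hw : w ∈ τ
      · rw [(hZ w).2 hw, map_zero, mul_zero]
      · rw [hl w hw, zero_mul]
    have h4 : ∑ j, (E (x' j) / x' j) * ∑ q, l q *
        (coxF f Δ.ray).lg (cst (fun q => f (Sum.inr q)) x') q j Z = 0 := by
      have h5 : ∑ j, (E (x' j) / x' j) * ∑ q, l q *
          (coxF f Δ.ray).lg (cst (fun q => f (Sum.inr q)) x') q j Z =
          ∑ q, l q * ∑ j, (E (x' j) / x' j) *
            (coxF f Δ.ray).lg (cst (fun q => f (Sum.inr q)) x') q j Z := by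
        simp only [Finset.mul_sum]
        rw [Finset.sum_comm]
        exact Finset.sum_congr rfl fun q _ => Finset.sum_congr rfl fun j _ => by ring
      rw [h5, Finset.sum_congr rfl fun q _ => by rw [h1 q], ← neg_eq_zero, ← h3,
        ← Finset.sum_neg_distrib]
      exact Finset.sum_congr rfl fun q _ => by ring
    rw [Fin.sum_univ_add] at h4
    simp only [hnat, mul_zero, Finset.sum_const_zero, add_zero] at h4
    rw [← h4]
    refine Finset.sum_congr rfl fun i _ => ?_
    have h6 : E (x' (Fin.castAdd r i)) / x' (Fin.castAdd r i) = ξ i := by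
      rw [← hB i, hE i, mul_div_assoc, div_self (by rw [hB i]; exact hx' _), mul_one]
    rw [h6, mul_comm])
  exact (nd_int T hΔ hx' hBev hτ hZ hF (l' := fun q => - c q) hl (fun i => by
    rw [hc i, ← Finset.sum_add_distrib]
    exact Finset.sum_eq_zero fun q _ => by ring)).1

/-- the base coordinates generate the base field -/
theorem xB_gen (x : Fin (dB + r) → K) :
    IntermediateField.adjoin ℂ (Set.range (xB x)) = ⊤ := by
  apply IntermediateField.map_injective (KBf x).val
  rw [IntermediateField.adjoin_map, ← Set.range_comp, ← AlgHom.fieldRange_eq_map,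
    IntermediateField.fieldRange_val]
  rfl

theorem xB_ev (T : Tot n dB r B Q x f) (q : B) :
    ev (resL (f (Sum.inl q))) (xB x) = 0 := by
  apply Subtype.val_injective
  change (KBf x).val (ev (resL (f (Sum.inl q))) (xB x)) = (KBf x).val 0
  rw [Pool.Agent.Work.CW.map_ev (KBf x).val, map_zero]
  have h1 : (fun j => (KBf x).val (xB x j)) = fun j => x (Fin.castAdd r j) := rfl
  rw [h1, ev_resL (T.base q)]
  exact T.data.eq (Sum.inl q)

theorem xB_ne (T : Tot n dB r B Q x f) (i : Fin dB) : xB x i ≠ 0 := by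
  intro h
  exact T.data.ne (Fin.castAdd r i) (congrArg Subtype.val h)

end fib

end ExR

end Pool.Agent.Work.WRC
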