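import Mathlib
import Pool.Agent.Work.MP_4329d7_ag_rc.IftFree

/-!
W-RC: the generic deformation of a solution of a polynomial system with onto Jacobian.

`gen_def`: let `P` be a finite polynomial system over a field `k` of characteristic zero and `z₀`
a solution in `k` at which the Jacobian is onto.  Then there is an algebraically closed field
`k₁` over `k` with a solution `z₁` which specialises to `z₀`, and every vector in the kernel of the
Jacobian at `z₁` is the direction of a derivation of `k₁` over `k`.
-/

set_option linter.style.haveILetI false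

namespace Pool.Agent.Work.WRC

open MvPolynomial TensorProduct

section der

variable {k : Type} [Field k] [CharZero k]

open scoped IntermediateField.algebraAdjoinAdjoin in
/-- a field is formally étale over the polynomial ring in a transcendence basis -/
theorem gd_etale {K : Type} [Field K] [Algebra k K] {ι : Type} {z : ι → K}
    (hz : IsTranscendenceBasis k z) [alg : Algebra (MvPolynomial ι k) K]
    (hal : ∀ p, algebraMap (MvPolynomial ι k) K p = aeval z p) :
    Algebra.FormallyEtale (MvPolynomial ι k) K := by
  set S := MvPolynomial ι k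
  let A := Algebra.adjoin k (Set.range z)
  let L := IntermediateField.adjoin k (Set.range z)
  letI a1 : Algebra S A := (hz.1.aevalEquiv : S ≃ₐ[k] A).toAlgHom.toRingHom.toAlgebra
  have h1 : Algebra.FormallyEtale S A := by
    let e : S ≃ₐ[S] A := { hz.1.aevalEquiv with commutes' := fun s => rfl }
    exact Algebra.FormallyEtale.of_equiv e
  have h2 : Algebra.FormallyEtale A L := .of_isLocalization (nonZeroDivisors _)
  have halg : Algebra.IsAlgebraic L K := hz.isAlgebraic_field
  haveI : CharZero L := charZero_of_injective_algebraMap (algebraMap k L).injective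
  have h3 : Algebra.FormallyEtale L K := Algebra.FormallyEtale.of_isSeparable _ K
  letI a2 : Algebra S L := ((algebraMap A L).comp (algebraMap S A)).toAlgebra
  haveI : IsScalarTower S A L := IsScalarTower.of_algebraMap_eq' rfl
  have h4 : Algebra.FormallyEtale S L := .comp S A L
  haveI : IsScalarTower S L K := by
    refine IsScalarTower.of_algebraMap_eq fun p => ?_
    rw [hal p]
    change aeval z p = ((hz.1.aevalEquiv p : A) : K)
    rw [AlgebraicIndependent.aevalEquiv_apply_coe]
  exact .comp S L K

/-- derivations over `k` with prescribed values on a transcendence basis -/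
theorem exists_der_basis {K : Type} [Field K] [Algebra k K] {ι : Type} {z : ι → K}
    (hz : IsTranscendenceBasis k z) (g : ι → K) :
    ∃ D : Derivation k K K, ∀ i, D (z i) = g i := by
  classical
  letI alg : Algebra (MvPolynomial ι k) K :=
    (aeval z : MvPolynomial ι k →ₐ[k] K).toRingHom.toAlgebra
  have hal : ∀ p, algebraMap (MvPolynomial ι k) K p = aeval z p := fun p => rfl
  haveI t1 : IsScalarTower k (MvPolynomial ι k) K := by
    refine IsScalarTower.of_algebraMap_eq fun c => ?_
    rw [hal, MvPolynomial.algebraMap_eq, aeval_C]
  haveI het : Algebra.FormallyEtale (MvPolynomial ι k) K := gd_etale hz hal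
  have hsm : ∀ (p : MvPolynomial ι k) (m : K), p • m = (algebraMap (MvPolynomial ι k) K p) • m :=
    fun p m => rfl
  let d : Derivation k (MvPolynomial ι k) K := MvPolynomial.mkDerivation k g
  let l2 : K ⊗[MvPolynomial ι k] (Ω[MvPolynomial ι k⁄k]) →ₗ[K] K :=
    LinearMap.liftBaseChange K d.liftKaehlerDifferential
  let e := KaehlerDifferential.tensorKaehlerEquivOfFormallyEtale k (MvPolynomial ι k) K
  refine ⟨(l2.comp e.symm.toLinearMap).compDer (KaehlerDifferential.D k K), fun i => ?_⟩
  have h1 : z i = algebraMap (MvPolynomial ι k) K (X i) := by rw [hal, aeval_X]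
  change l2 (e.symm.toLinearMap (KaehlerDifferential.D k K (z i))) = g i
  rw [h1]
  have h2 : e.symm.toLinearMap (KaehlerDifferential.D k K (algebraMap (MvPolynomial ι k) K (X i))) =
      (1 : K) ⊗ₜ[MvPolynomial ι k] KaehlerDifferential.D k (MvPolynomial ι k) (X i) :=
    KaehlerDifferential.tensorKaehlerEquivOfFormallyEtale_symm_D_algebraMap k
      (MvPolynomial ι k) K (X i)
  rw [h2]
  change (LinearMap.liftBaseChange K d.liftKaehlerDifferential) _ = _
  rw [LinearMap.liftBaseChange_tmul, one_smul, Derivation.liftKaehlerDifferential_comp_D]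
  exact MvPolynomial.mkDerivation_X k g i

/-- derivations over `k` with prescribed values on an algebraically independent family -/
theorem exists_der_of_ai {K : Type} [Field K] [Algebra k K] {κ : Type} {w : κ → K}
    (hw : AlgebraicIndependent k w) (c : κ → K) :
    ∃ D : Derivation k K K, ∀ i, D (w i) = c i := by
  classical
  obtain ⟨s, hs, hsb⟩ := exists_isTranscendenceBasis_superset (R := k)
    ((AlgebraicIndependent.coe_range hw : AlgebraicIndepOn k id (Set.range w)))
  let inv : K → K := fun x => if h : ∃ i, w i = x then c h.choose else 0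
  obtain ⟨D, hD⟩ := exists_der_basis hsb (fun x : s => inv x)
  refine ⟨D, fun i => ?_⟩
  have h2 := hD ⟨w i, hs ⟨i, rfl⟩⟩
  have h3 : ∃ j, w j = w i := ⟨i, rfl⟩
  have h4 : h3.choose = i := hw.injective h3.choose_spec
  rw [h2]
  change inv (w i) = c i
  simp only [inv, dif_pos h3, h4]

/-- the chain rule -/
theorem der_aeval {k σ R : Type*} [Fintype σ] [CommRing k] [CommRing R] [Algebra k R]
    (D : Derivation k R R) (G : MvPolynomial σ k) (Y : σ → R) :
    D (aeval Y G) = ∑ s, aeval Y (pderiv s G) * D (Y s) := by
  classical
  induction G using MvPolynomial.induction_on with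
  | C a => simp
  | add p q hp hq => simp only [map_add, hp, hq, add_mul, Finset.sum_add_distrib]
  | mul_X p i hp =>
    rw [map_mul, MvPolynomial.aeval_X, Derivation.leibniz, hp]
    simp only [Derivation.leibniz, MvPolynomial.pderiv_X, smul_eq_mul, map_add, map_mul,
      MvPolynomial.aeval_X, add_mul, Finset.sum_add_distrib]
    congr 1
    · rw [Finset.sum_eq_single i]
      · simp
      · intro b _ hb
        simp [hb]
      · simp
    · rw [Finset.mul_sum]
      exact Finset.sum_congr rfl fun s _ => by ring

end der

theorem gd_ai_aux {k σ : Type} [Field k] (c : σ → k) :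
    AlgebraicIndependent k (fun j : σ => (C (c j) + X j : MvPolynomial σ k)) := by
  refine AlgebraicIndependent.of_comp (aeval fun j : σ => (X j - C (c j) : MvPolynomial σ k)) ?_
  have h2 : (⇑(aeval fun j : σ => (X j - C (c j) : MvPolynomial σ k)) ∘
      fun j : σ => (C (c j) + X j : MvPolynomial σ k)) = fun j => X j := by
    funext j
    simp only [Function.comp_apply, map_add, aeval_C, aeval_X, MvPolynomial.algebraMap_eq]
    ring
  rw [h2]
  exact algebraicIndependent_X σ k

theorem gd_ai {k σ F : Type} [Field k] [Field F] [Algebra k F] (a : σ → F)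
    (ha : AlgebraicIndependent k a) (c : σ → k) :
    AlgebraicIndependent k (fun j : σ => (Polynomial.C (algebraMap k F (c j)) +
      Polynomial.X * Polynomial.C (a j) : Polynomial F)) := by
  refine AlgebraicIndependent.of_comp ((Polynomial.aeval (1 : F)).restrictScalars k) ?_
  have h1 := (gd_ai_aux c).map' (f := aeval a) ha
  convert h1 using 1
  funext j
  simp only [Function.comp_apply, AlgHom.restrictScalars_apply, map_add, map_mul,
    Polynomial.aeval_C, Polynomial.aeval_X, aeval_C, aeval_X, one_mul, Algebra.algebraMap_self,
    RingHom.id_apply]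

/-- **The generic deformation.** -/
theorem gen_def {k σ ρ : Type} [Field k] [CharZero k] [Fintype σ] [Fintype ρ]
    (P : ρ → MvPolynomial σ k) (z₀ : σ → k) (h0 : ∀ r, aeval z₀ (P r) = 0)
    (hJ : ∀ w : ρ → k, ∃ v : σ → k, ∀ r, ∑ j, aeval z₀ (pderiv j (P r)) * v j = w r) :
    ∃ (k₁ : Type) (_ : Field k₁) (_ : Algebra k k₁) (_ : IsAlgClosed k₁) (z₁ : σ → k₁),
      (∀ r, aeval z₁ (P r) = 0) ∧
      (∀ G : MvPolynomial σ k, aeval z₁ G = 0 → aeval z₀ G = 0) ∧
      ∀ v : σ → k₁, (∀ r, ∑ j, aeval z₁ (pderiv j (P r)) * v j = 0) →
        ∃ D : Derivation k k₁ k₁, ∀ j, D (z₁ j) = v j := by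
  classical
  -- the field of the parameters
  obtain ⟨F, _, _, a, ha⟩ : ∃ (F : Type) (_ : Field F) (_ : Algebra k F) (a : σ → F),
      AlgebraicIndependent k a := by
    refine ⟨FractionRing (MvPolynomial σ k), inferInstance, inferInstance,
      fun j => algebraMap (MvPolynomial σ k) _ (X j), ?_⟩
    exact (algebraicIndependent_X σ k).map' (f := IsScalarTower.toAlgHom k (MvPolynomial σ k)
      (FractionRing (MvPolynomial σ k)))
      (IsFractionRing.injective (MvPolynomial σ k) (FractionRing (MvPolynomial σ k)))
  let κ : k →+* PowerSeries F := (PowerSeries.C (R := F)).comp (algebraMap k F)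
  let Φ : MvPolynomial σ k → MvPolynomial σ (PowerSeries F) := fun G => G.map κ
  let w₀ : σ → F := fun j => algebraMap k F (z₀ j)
  -- the constant term of a value
  have hcst : ∀ (w : σ → PowerSeries F), (∀ j, PowerSeries.constantCoeff (w j) = w₀ j) →
      ∀ G : MvPolynomial σ k, PowerSeries.constantCoeff (aeval w (Φ G)) =
        algebraMap k F (aeval z₀ G) := by
    intro w hw G
    induction G using MvPolynomial.induction_on with
    | C c =>
      simp only [Φ, κ, map_C, aeval_C, Algebra.algebraMap_self, RingHom.id_apply, RingHom.comp_apply,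
        PowerSeries.constantCoeff_C]
    | add p q hp hq =>
      simp only [Φ, map_add] at hp hq ⊢
      rw [hp, hq]
    | mul_X p j hp =>
      simp only [Φ, map_mul, map_X, aeval_X] at hp ⊢
      rw [hp, hw]
  have hder : ∀ (j : σ) (G : MvPolynomial σ k), pderiv j (Φ G) = Φ (pderiv j G) :=
    fun j G => pderiv_map
  obtain ⟨S, hS⟩ := Pool.Agent.Work.RC.ift_free (fun r => Φ (P r)) w₀
    (fun r => by
      rw [hcst _ (fun j => PowerSeries.constantCoeff_C _), h0, map_zero])
    (by
      intro w
      choose u hu using fun r => hJ (Pi.single r 1)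
      refine ⟨fun j => ∑ s, w s * algebraMap k F (u s j), fun r => ?_⟩
      simp only [hder]
      rw [Finset.sum_congr rfl fun j _ => by
        rw [hcst _ (fun j => PowerSeries.constantCoeff_C _), Finset.mul_sum]]
      rw [Finset.sum_comm]
      have h1 : ∀ s, ∑ j, algebraMap k F (aeval z₀ (pderiv j (P r))) *
          (w s * algebraMap k F (u s j)) = w s * algebraMap k F ((Pi.single s 1 : ρ → k) r) := by
        intro s
        rw [← hu s r, map_sum, Finset.mul_sum]
        exact Finset.sum_congr rfl fun j _ => by rw [map_mul]; ring
      rw [Finset.sum_congr rfl fun s _ => h1 s, Finset.sum_eq_single r]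
      · rw [Pi.single_eq_same, map_one, mul_one]
      · intro s _ hs
        rw [Pi.single_eq_of_ne (Ne.symm hs), map_zero, mul_zero]
      · intro h
        exact absurd (Finset.mem_univ r) h)
  let θ : σ → PowerSeries F := fun j => PowerSeries.C (w₀ j) + PowerSeries.X * PowerSeries.C (a j)
  obtain ⟨w, hw0, hwS, hw, huniq⟩ := hS θ (fun j => by
    simp only [θ, map_add, map_mul, PowerSeries.constantCoeff_C, PowerSeries.constantCoeff_X,
      zero_mul, add_zero])
  let k₁ := AlgebraicClosure (FractionRing (PowerSeries F))
  let φ : PowerSeries F →+* k₁ := algebraMap (PowerSeries F) k₁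
  have hφ : Function.Injective φ := by
    have h1 : φ = (algebraMap (FractionRing (PowerSeries F)) k₁).comp
      (algebraMap (PowerSeries F) (FractionRing (PowerSeries F))) := by
        exact IsScalarTower.algebraMap_eq _ _ _
    rw [h1]
    exact (algebraMap (FractionRing (PowerSeries F)) k₁).injective.comp
      (IsFractionRing.injective (PowerSeries F) (FractionRing (PowerSeries F)))
  letI alg : Algebra k k₁ := (φ.comp κ).toAlgebra
  have halg : ∀ c : k, algebraMap k k₁ c = φ (κ c) := fun c => rfl
  -- values at the new point
  have hval : ∀ G : MvPolynomial σ k, aeval (fun j => φ (w j)) G = φ (aeval w (Φ G)) := by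
    intro G
    induction G using MvPolynomial.induction_on with
    | C c =>
      simp only [Φ, map_C, aeval_C, Algebra.algebraMap_self, RingHom.id_apply, halg]
    | add p q hp hq =>
      simp only [Φ, map_add] at hp hq ⊢
      rw [hp, hq]
    | mul_X p j hp =>
      simp only [Φ, map_mul, map_X, aeval_X] at hp ⊢
      rw [hp]
  refine ⟨k₁, inferInstance, alg, inferInstance, fun j => φ (w j), fun r => ?_, fun G hG => ?_,
    fun v hv => ?_⟩
  · rw [hval, hw, map_zero]
  · rw [hval, map_eq_zero_iff φ hφ] at hG
    have h1 := hcst w hw0 G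
    rw [hG, map_zero] at h1
    exact (map_eq_zero_iff _ (algebraMap k F).injective).1 h1.symm
  · -- the free coordinates are algebraically independent
    let ψ : Polynomial F →ₐ[k] k₁ :=
      { φ.comp (Polynomial.coeToPowerSeries.ringHom) with
        commutes' := fun c => by
          change φ ((algebraMap k (Polynomial F) c : Polynomial F) : PowerSeries F) = φ (κ c)
          rw [Polynomial.algebraMap_apply, Polynomial.coe_C]
          rfl }
    have hψ : Function.Injective ψ := hφ.comp (Polynomial.coe_injective F)
    have hai : AlgebraicIndependent k (fun j : S => φ (w j)) := by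
      have h1 := ((gd_ai a ha z₀).map' hψ).comp (fun j : S => (j : σ)) Subtype.val_injective
      convert h1 using 1
      funext j
      rw [hwS j j.2]
      have h3 : θ j = ((Polynomial.C (algebraMap k F (z₀ j)) +
          Polynomial.X * Polynomial.C (a j) : Polynomial F) : PowerSeries F) := by
        simp only [θ, w₀, Polynomial.coe_add, Polynomial.coe_mul, Polynomial.coe_C,
          Polynomial.coe_X]
      rw [h3]
      rfl
    obtain ⟨D, hD⟩ := exists_der_of_ai (k := k) hai (fun j => v j)
    refine ⟨D, ?_⟩
    have h2 := huniq k₁ φ hφ (fun j => D (φ (w j)) - v j) (fun j hj => by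
      rw [hD ⟨j, hj⟩, sub_self]) (fun r => by
        have h3 := der_aeval (k := k) D (P r) (fun j => φ (w j))
        rw [hval, hw, map_zero, map_zero] at h3
        have h4 : ∀ j, φ (aeval w (pderiv j (Φ (P r)))) =
            aeval (fun j => φ (w j)) (pderiv j (P r)) := by
          intro j
          rw [hder, hval]
        simp only [h4, mul_sub, Finset.sum_sub_distrib]
        rw [hv r, ← h3, sub_zero])
    intro j
    exact sub_eq_zero.1 (congrFun h2 j)

end Pool.Agent.Work.WRC
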