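import Mathlib
import Pool.Agent.Work.MP_4329d7_ag_rc.IFT

/-!
W-RC, OPEN: a solution of a polynomial system over the residue ring `R / I` of a domain `R` at
which the Jacobian is onto implies the existence of a solution over the algebraically closed field
`k ⊇ R` (on which the same open condition `G ≠ 0` holds).  Works for all domains `R` and all proper
ideals `I`, in particular for arbitrary valuation rings.

Proof.  Reduce to a finitely generated subring.  There Newton's method gives solutions modulo
`I ^ N` for all `N`, so `1` is not in the ideal of `k₀[z, t]` generated by the system and `1 - t G`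
(otherwise a nonzero element of `R` would be in all `I ^ N`, against Krull's theorem).
-/

set_option linter.style.haveILetI false

namespace Pool.Agent.Work.WRC

open MvPolynomial

variable {σ ρ : Type} [Fintype σ] [Fintype ρ] [DecidableEq ρ]

/-- Newton approximations -/
theorem newton_approx {A : Type} [CommRing A] (I : Ideal A) (P : ρ → MvPolynomial σ A)
    (a : σ → A) (u : ρ → σ → A) (h0 : ∀ r, aeval a (P r) ∈ I)
    (hu : ∀ r s, ∑ j, aeval a (pderiv j (P r)) * u s j - (if r = s then 1 else 0) ∈ I) (N : ℕ) :
    ∃ z : σ → A, (∀ j, z j - a j ∈ I) ∧ ∀ r, aeval z (P r) ∈ I ^ (N + 1) := by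
  induction N with
  | zero => exact ⟨a, fun j => by rw [sub_self]; exact I.zero_mem, fun r => by
      rw [zero_add, pow_one]; exact h0 r⟩
  | succ N ih =>
    obtain ⟨z, hz, hP⟩ := ih
    let h : σ → A := fun j => - ∑ s, u s j * aeval z (P s)
    have hh : ∀ j, h j ∈ I ^ (N + 1) := fun j =>
      (I ^ (N + 1)).neg_mem (Ideal.sum_mem _ fun s _ => Ideal.mul_mem_left _ _ (hP s))
    refine ⟨z + h, fun j => ?_, fun r => ?_⟩
    · have h1 : (z + h) j - a j = (z j - a j) + h j := by
        rw [Pi.add_apply]; ring
      rw [h1]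
      exact I.add_mem (hz j) (Ideal.pow_le_self (Nat.succ_ne_zero N) (hh j))
    · have h1 := Pool.Agent.Work.RC.ift_taylor (I ^ (N + 1)) z h hh (P r)
      have h2 : (I ^ (N + 1)) ^ 2 ≤ I ^ (N + 1 + 1) := by
        rw [← pow_mul]
        exact Ideal.pow_le_pow_right (by omega)
      have h3 := h2 h1
      have h4 : aeval z (P r) + ∑ j, aeval z (pderiv j (P r)) * h j ∈ I ^ (N + 1 + 1) := by
        have h5 : aeval z (P r) + ∑ j, aeval z (pderiv j (P r)) * h j =
            - ∑ s, (∑ j, aeval z (pderiv j (P r)) * u s j - if r = s then 1 else 0) *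
              aeval z (P s) := by
          have h6 : ∑ j, aeval z (pderiv j (P r)) * h j =
              - ∑ s, (∑ j, aeval z (pderiv j (P r)) * u s j) * aeval z (P s) := by
            simp only [h, mul_neg, Finset.sum_neg_distrib, Finset.mul_sum, Finset.sum_mul]
            rw [Finset.sum_comm]
            congr 1
            exact Finset.sum_congr rfl fun s _ => Finset.sum_congr rfl fun j _ => by ring
          rw [h6]
          simp only [sub_mul, Finset.sum_sub_distrib, ite_mul, one_mul, zero_mul,
            Finset.sum_ite_eq, Finset.mem_univ, if_true]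
          ring
        rw [h5]
        refine (I ^ (N + 1 + 1)).neg_mem (Ideal.sum_mem _ fun s _ => ?_)
        rw [pow_succ' I (N + 1)]
        refine Ideal.mul_mem_mul ?_ (hP s)
        -- change `z` to `a`
        have h7 : ∑ j, aeval z (pderiv j (P r)) * u s j -
            ∑ j, aeval a (pderiv j (P r)) * u s j ∈ I := by
          rw [← Finset.sum_sub_distrib]
          refine Ideal.sum_mem _ fun j _ => ?_
          rw [← sub_mul]
          exact Ideal.mul_mem_right _ _ (Pool.Agent.Work.RC.ift_congr I a z hz _)
        have h8 := I.add_mem h7 (hu r s)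
        convert h8 using 1
        ring
      have h5 := (I ^ (N + 1 + 1)).add_mem h3 h4
      convert h5 using 1
      ring

omit [Fintype σ] in
theorem oc_rename {A B : Type} [CommRing A] [CommRing B] [Algebra A B] (y : Option σ → B)
    (z : σ → B) (h : ∀ j, y (some j) = z j) (H : MvPolynomial σ A) :
    aeval y (rename (R := A) some H) = aeval z H := by
  rw [aeval_rename]
  congr 2
  funext j
  exact h j

/-- the noetherian case -/
theorem open_noeth {A : Type} [CommRing A] [IsDomain A] [IsNoetherianRing A] (I : Ideal A)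
    (hI : I ≠ ⊤) (P : ρ → MvPolynomial σ A) (G : MvPolynomial σ A)
    (a : σ → A) (u : ρ → σ → A) (g : A) (h0 : ∀ r, aeval a (P r) ∈ I)
    (hu : ∀ r s, ∑ j, aeval a (pderiv j (P r)) * u s j - (if r = s then 1 else 0) ∈ I)
    (hg : aeval a G * g - 1 ∈ I) {k : Type} [Field k] [IsAlgClosed k] [Algebra A k]
    (hk : Function.Injective (algebraMap A k)) :
    ∃ z : σ → k, (∀ r, aeval z (P r) = 0) ∧ aeval z G ≠ 0 := by
  classical
  -- the system with the additional unknown `t`
  let Q : Option ρ → MvPolynomial (Option σ) A := fun o =>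
    o.elim (1 - X none * rename (R := A) some G) fun r => rename (R := A) some (P r)
  let J : Ideal (MvPolynomial (Option σ) A) := Ideal.span (Set.range Q)
  let k₀ := FractionRing A
  have hdisj : Disjoint (((nonZeroDivisors A).map (C (σ := Option σ)) :
      Submonoid (MvPolynomial (Option σ) A)) : Set (MvPolynomial (Option σ) A)) J := by
    rw [Set.disjoint_left]
    rintro _ ⟨m, hm, rfl⟩ hJ
    have hm0 : m ≠ 0 := nonZeroDivisors.ne_zero hm
    -- `m` is in all powers of `I`
    have hall : m ∈ ⨅ N : ℕ, I ^ N := by
      rw [Ideal.mem_iInf]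
      intro N
      obtain ⟨z, hz, hPz⟩ := newton_approx I P a u h0 hu N
      -- an inverse of `G(z)` modulo `I ^ N`
      have h1 : 1 - aeval z G * g ∈ I := by
        have h2 := I.neg_mem (I.add_mem (Ideal.mul_mem_right g _
          (Pool.Agent.Work.RC.ift_congr I a z hz G)) hg)
        convert h2 using 1
        ring
      obtain ⟨t, ht⟩ : ∃ t : A, 1 - t * aeval z G ∈ I ^ N := by
        refine ⟨g * ∑ i ∈ Finset.range N, (1 - aeval z G * g) ^ i, ?_⟩
        have h2 := mul_neg_geom_sum (1 - aeval z G * g) N
        have h3 : 1 - (g * ∑ i ∈ Finset.range N, (1 - aeval z G * g) ^ i) * aeval z G =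
            (1 - aeval z G * g) ^ N := by
          have h4 : (1 - (1 - aeval z G * g)) * ∑ i ∈ Finset.range N, (1 - aeval z G * g) ^ i =
              (g * ∑ i ∈ Finset.range N, (1 - aeval z G * g) ^ i) * aeval z G := by ring
          rw [← h4, h2]
          ring
        rw [h3]
        exact Ideal.pow_mem_pow h1 N
      have h3 : J ≤ (I ^ N).comap (aeval fun o : Option σ => o.elim t z : _ →ₐ[A] A) := by
        rw [Ideal.span_le]
        rintro _ ⟨o, rfl⟩
        rw [SetLike.mem_coe, Ideal.mem_comap]
        rcases o with _ | r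
        · change (aeval fun o : Option σ => o.elim t z)
            (1 - X none * rename (R := A) some G) ∈ I ^ N
          rw [map_sub, map_one, map_mul, aeval_X, oc_rename (A := A) _ z (fun j => rfl)]
          exact ht
        · change (aeval fun o : Option σ => o.elim t z) (rename (R := A) some (P r)) ∈ I ^ N
          rw [oc_rename (A := A) _ z (fun j => rfl)]
          exact Ideal.pow_le_pow_right (Nat.le_succ N) (hPz r)
      have h5 := h3 hJ
      rw [Ideal.mem_comap, aeval_C] at h5
      exact h5
    rw [Ideal.iInf_pow_eq_bot_of_isDomain I hI, Ideal.mem_bot] at hall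
    exact hm0 hall
  -- a maximal ideal of `k₀[z, t]`
  letI algS : Algebra (MvPolynomial (Option σ) A) (MvPolynomial (Option σ) k₀) :=
    MvPolynomial.algebraMvPolynomial
  have hloc : IsLocalization ((nonZeroDivisors A).map (C (σ := Option σ)))
      (MvPolynomial (Option σ) k₀) := MvPolynomial.isLocalization _ _
  have hne := (IsLocalization.map_algebraMap_ne_top_iff_disjoint
    ((nonZeroDivisors A).map (C (σ := Option σ))) (MvPolynomial (Option σ) k₀) J).2 hdisj
  obtain ⟨M, hM, hJM⟩ := Ideal.exists_le_maximal _ hne
  letI : Field (MvPolynomial (Option σ) k₀ ⧸ M) := Ideal.Quotient.field M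
  have hfin : Module.Finite k₀ (MvPolynomial (Option σ) k₀ ⧸ M) :=
    finite_of_finite_type_of_isJacobsonRing k₀ _
  letI alg : Algebra k₀ k := (IsFractionRing.lift hk).toAlgebra
  have hcomp : ∀ x : A, algebraMap k₀ k (algebraMap A k₀ x) = algebraMap A k x :=
    fun x => IsFractionRing.lift_algebraMap hk x
  have halg : Algebra.IsAlgebraic k₀ (MvPolynomial (Option σ) k₀ ⧸ M) :=
    Algebra.IsAlgebraic.of_finite k₀ _
  let f : (MvPolynomial (Option σ) k₀ ⧸ M) →ₐ[k₀] k := IsAlgClosed.lift
  have hval : ∀ H : MvPolynomial (Option σ) A, aeval (fun o => f (Ideal.Quotient.mk M (X o))) H =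
      f (Ideal.Quotient.mk M (algebraMap _ (MvPolynomial (Option σ) k₀) H)) := by
    intro H
    rw [MvPolynomial.algebraMap_def]
    induction H using MvPolynomial.induction_on with
    | C c =>
      rw [aeval_C, MvPolynomial.map_C]
      have h1 : Ideal.Quotient.mk M (C (algebraMap A k₀ c)) =
          algebraMap k₀ (MvPolynomial (Option σ) k₀ ⧸ M) (algebraMap A k₀ c) := rfl
      rw [h1, AlgHom.commutes, hcomp]
    | add p q hp hq => rw [map_add, hp, hq, map_add, map_add, map_add]
    | mul_X p j hp => rw [map_mul, hp, aeval_X, map_mul, map_mul, map_mul, MvPolynomial.map_X]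
  have hz : ∀ H : MvPolynomial σ A, aeval (fun j => f (Ideal.Quotient.mk M (X (some j)))) H =
      f (Ideal.Quotient.mk M (algebraMap _ (MvPolynomial (Option σ) k₀)
        (rename (R := A) some H))) := by
    intro H
    rw [← hval, oc_rename (A := A) _ _ (fun j => rfl)]
  have hQ : ∀ o, f (Ideal.Quotient.mk M (algebraMap _ (MvPolynomial (Option σ) k₀) (Q o))) = 0 := by
    intro o
    have h1 : algebraMap _ (MvPolynomial (Option σ) k₀) (Q o) ∈ M :=
      hJM (Ideal.mem_map_of_mem _ (Ideal.subset_span ⟨o, rfl⟩))
    rw [Ideal.Quotient.eq_zero_iff_mem.2 h1, map_zero]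
  refine ⟨fun j => f (Ideal.Quotient.mk M (X (some j))), fun r => ?_, fun hG => ?_⟩
  · rw [hz]
    exact hQ (some r)
  · rw [hz] at hG
    have h1 : f (Ideal.Quotient.mk M (algebraMap _ (MvPolynomial (Option σ) k₀)
        (1 - X none * rename (R := A) some G))) = 0 := hQ none
    rw [map_sub, map_one, map_mul, map_sub, map_one, map_mul, map_sub, map_one, map_mul, hG,
      mul_zero, sub_zero] at h1
    exact one_ne_zero h1

/-- **OPEN.** -/
theorem open_core {R : Type} [CommRing R] [IsDomain R] (I : Ideal R)
    (hI : I ≠ ⊤) (P : ρ → MvPolynomial σ R) (G : MvPolynomial σ R)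
    (a : σ → R) (u : ρ → σ → R) (g : R) (h0 : ∀ r, aeval a (P r) ∈ I)
    (hu : ∀ r s, ∑ j, aeval a (pderiv j (P r)) * u s j - (if r = s then 1 else 0) ∈ I)
    (hg : aeval a G * g - 1 ∈ I) {k : Type} [Field k] [IsAlgClosed k] [Algebra R k]
    (hk : Function.Injective (algebraMap R k)) :
    ∃ z : σ → k, (∀ r, aeval z (P r) = 0) ∧ aeval z G ≠ 0 := by
  classical
  -- a finitely generated subring
  let T : Finset R := (Finset.univ.biUnion fun r => (P r).coeffs) ∪ G.coeffs ∪
    Finset.univ.image a ∪ (Finset.univ.biUnion fun r => Finset.univ.image (u r)) ∪ {g}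
  let A : Subalgebra ℤ R := Algebra.adjoin ℤ (T : Set R)
  have hT : ∀ x ∈ T, x ∈ A := fun x hx => Algebra.subset_adjoin hx
  have hfg : A.FG := ⟨T, rfl⟩
  have hnoeth : IsNoetherianRing A := isNoetherianRing_of_fg hfg
  let i : A →+* R := A.val.toRingHom
  have hi : Function.Injective i := Subtype.val_injective
  have hliftP : ∀ r, ∃ P' : MvPolynomial σ A, MvPolynomial.map i P' = P r := by
    intro r
    refine MvPolynomial.mem_range_map_iff_coeffs_subset.2 fun c hc => ?_
    exact ⟨⟨c, hT c (by
      simp only [T, Finset.mem_union, Finset.mem_biUnion, Finset.mem_univ, true_and]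
      exact Or.inl (Or.inl (Or.inl (Or.inl ⟨r, hc⟩))))⟩, rfl⟩
  have hliftG : ∃ G' : MvPolynomial σ A, MvPolynomial.map i G' = G := by
    refine MvPolynomial.mem_range_map_iff_coeffs_subset.2 fun c hc => ?_
    exact ⟨⟨c, hT c (by
      simp only [T, Finset.mem_union]
      exact Or.inl (Or.inl (Or.inl (Or.inr hc))))⟩, rfl⟩
  choose P' hP' using hliftP
  obtain ⟨G', hG'⟩ := hliftG
  let a' : σ → A := fun j => ⟨a j, hT _ (by
    simp only [T, Finset.mem_union]
    exact Or.inl (Or.inl (Or.inr (Finset.mem_image_of_mem a (Finset.mem_univ j)))))⟩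
  let u' : ρ → σ → A := fun r j => ⟨u r j, hT _ (by
    simp only [T, Finset.mem_union, Finset.mem_biUnion, Finset.mem_univ, true_and]
    exact Or.inl (Or.inr ⟨r, Finset.mem_image_of_mem (u r) (Finset.mem_univ j)⟩))⟩
  let g' : A := ⟨g, hT _ (by simp [T])⟩
  -- values
  have hval : ∀ H : MvPolynomial σ A, i (aeval a' H) = aeval a (MvPolynomial.map i H) := by
    intro H
    induction H using MvPolynomial.induction_on with
    | C c => simp only [aeval_C, map_C, Algebra.algebraMap_self, RingHom.id_apply]
    | add p q hp hq => simp only [map_add, hp, hq]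
    | mul_X p j hp =>
      simp only [map_mul, hp, aeval_X, map_X]
      rfl
  letI algk : Algebra A k := ((algebraMap R k).comp i).toAlgebra
  have hvalk : ∀ (z : σ → k) (H : MvPolynomial σ A), aeval z H =
      aeval z (MvPolynomial.map i H) := by
    intro z H
    induction H using MvPolynomial.induction_on with
    | C c =>
      simp only [aeval_C, map_C]
      rfl
    | add p q hp hq => simp only [map_add, hp, hq]
    | mul_X p j hp => simp only [map_mul, hp, aeval_X, map_X]
  obtain ⟨z, hz, hzG⟩ := open_noeth (I.comap i) (by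
    intro h
    rw [Ideal.comap_eq_top_iff] at h
    exact hI h) P' G' a' u' g'
    (fun r => by
      rw [Ideal.mem_comap, hval, hP']
      exact h0 r)
    (fun r s => by
      rw [Ideal.mem_comap, map_sub, map_sum]
      have h1 : ∀ j, i (aeval a' (pderiv j (P' r)) * u' s j) =
          aeval a (pderiv j (P r)) * u s j := by
        intro j
        rw [map_mul, hval, ← hP' r, pderiv_map]
        rfl
      rw [Finset.sum_congr rfl fun j _ => h1 j]
      have h2 : i (if r = s then 1 else 0) = if r = s then 1 else 0 := by
        split_ifs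
        · exact map_one i
        · exact map_zero i
      rw [h2]
      exact hu r s)
    (by
      rw [Ideal.mem_comap, map_sub, map_mul, hval, hG', map_one]
      exact hg) (k := k) (hk.comp hi)
  refine ⟨z, fun r => ?_, ?_⟩
  · rw [← hP' r, ← hvalk]
    exact hz r
  · rw [← hG', ← hvalk]
    exact hzG

omit [DecidableEq ρ] in
/-- **OPEN**, residue field version. -/
theorem open_residue {R : Type} [CommRing R] [IsDomain R] [IsLocalRing R]
    (P : ρ → MvPolynomial σ R) (G : MvPolynomial σ R) (a : σ → IsLocalRing.ResidueField R)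
    (h0 : ∀ r, aeval a (P r) = 0)
    (hJ : ∀ w : ρ → IsLocalRing.ResidueField R, ∃ v : σ → IsLocalRing.ResidueField R,
      ∀ r, ∑ j, aeval a (pderiv j (P r)) * v j = w r)
    (hG : aeval a G ≠ 0) {k : Type} [Field k] [IsAlgClosed k] [Algebra R k]
    (hk : Function.Injective (algebraMap R k)) :
    ∃ z : σ → k, (∀ r, aeval z (P r) = 0) ∧ aeval z G ≠ 0 := by
  classical
  have hsurj := IsLocalRing.residue_surjective (R := R)
  choose lift hlift using hsurj
  choose v hv using fun s : ρ => hJ (Pi.single s 1)
  have hval : ∀ H : MvPolynomial σ R, IsLocalRing.residue R (aeval (fun j => lift (a j)) H) =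
      aeval a H := by
    intro H
    induction H using MvPolynomial.induction_on with
    | C c =>
      simp only [aeval_C, Algebra.algebraMap_self, RingHom.id_apply]
      rfl
    | add p q hp hq => simp only [map_add, hp, hq]
    | mul_X p j hp => simp only [map_mul, hp, aeval_X, hlift]
  have hmem : ∀ x : R, x ∈ IsLocalRing.maximalIdeal R ↔ IsLocalRing.residue R x = 0 := fun x =>
    (IsLocalRing.residue_eq_zero_iff x).symm
  refine open_core (IsLocalRing.maximalIdeal R) (Ideal.IsPrime.ne_top inferInstance) P G
    (fun j => lift (a j)) (fun s j => lift (v s j)) (lift (aeval a G)⁻¹) (fun r => ?_)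
    (fun r s => ?_) ?_ hk
  · rw [hmem, hval, h0]
  · rw [hmem, map_sub, map_sum]
    have h1 : ∀ j, IsLocalRing.residue R
        (aeval (fun j => lift (a j)) (pderiv j (P r)) * lift (v s j)) =
          aeval a (pderiv j (P r)) * v s j := by
      intro j
      rw [map_mul, hval, hlift]
    rw [Finset.sum_congr rfl fun j _ => h1 j, hv s r]
    by_cases h : r = s
    · subst h
      rw [if_pos rfl, Pi.single_eq_same, map_one, sub_self]
    · rw [if_neg h, Pi.single_eq_of_ne h, map_zero, sub_self]
  · rw [hmem, map_sub, map_mul, hval, hlift, map_one, mul_inv_cancel₀ hG, sub_self]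

end Pool.Agent.Work.WRC
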