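import Mathlib
import Pool.Agent.Work.MP_4329d7_ag_wrc.Defs
import Pool.Agent.Work.MP_4329d7_ag_wrc.OpenCore
import Pool.Agent.Work.MP_4329d7_ag_wrc.GenDef

/-!
W-RC, PATH: a curve `Y` with fixed top coefficients which solves the system with coefficients `a0`
and at which `FreeS` holds deforms to a solution of the system with coefficients
`(1 - τ) a0 + τ a1` over an algebraically closed field `L` with a place over `τ = 1`.

* `place_one`: a valuation ring over `τ = 1`; `residue_algClosed`: its residue field;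
* `gcv n z y v = z v * s ^ n v + ∑ l, y (v, l) * s ^ l`: the general curve with tops `z`;
* `der_F`: the chain rule for the equations; `path`: the theorem.
-/

namespace Pool.Agent.Work.WRC

open Polynomial

/-- a place of `L` over `τ = 1` -/
theorem place_one {k L : Type} [Field k] [Field L] (j : k →+* L) (τ : L)
    (hτ : ∀ p : k[X], p.eval₂ j τ = 0 → p = 0) :
    ∃ O : ValuationSubring L, (∀ c, j c ∈ O) ∧ τ - 1 ∈ O.nonunits := by
  let f : k[X] →+* L := eval₂RingHom j τ
  have hf : Function.Injective f := by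
    rw [injective_iff_map_eq_zero]
    intro p hp
    exact hτ p hp
  let e : k[X] ≃+* f.range := RingEquiv.ofBijective f.rangeRestrict
    ⟨fun a b h => hf (congrArg Subtype.val h), f.rangeRestrict_surjective⟩
  let I : Ideal f.range := Ideal.comap (e.symm : f.range →+* k[X]) (Ideal.span {X - C 1})
  have hI : I ≠ ⊤ := by
    refine Ideal.comap_ne_top _ ?_
    rw [Ne, Ideal.span_singleton_eq_top]
    exact not_isUnit_X_sub_C 1
  obtain ⟨O, hA, hN⟩ := Ideal.image_subset_nonunits_valuationSubring I hI
  refine ⟨O, fun c => hA ⟨C c, eval₂_C j τ⟩, hN ?_⟩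
  refine ⟨e (X - C 1), ?_, ?_⟩
  · change e.symm (e (X - C 1)) ∈ Ideal.span {X - C 1}
    rw [RingEquiv.symm_apply_apply]
    exact Ideal.mem_span_singleton_self _
  · change f (X - C 1) = τ - 1
    simp [f]

/-- the residue field of a valuation ring of an algebraically closed field -/
theorem residue_algClosed {L : Type} [Field L] [IsAlgClosed L] (O : ValuationSubring L) :
    IsAlgClosed (IsLocalRing.ResidueField O) := by
  refine IsAlgClosed.of_exists_root _ fun p hp hi => ?_
  -- lift to a monic polynomial over `O`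
  obtain ⟨q, hq, hqd, hqm⟩ := Polynomial.lifts_and_degree_eq_and_monic
    (f := IsLocalRing.residue O) (p := p)
    ((Polynomial.lifts_iff_coeff_lifts _).2 fun n => IsLocalRing.residue_surjective _) hp
  have hd : (q.map (algebraMap O L)).degree ≠ 0 := by
    rw [hqm.degree_map, hqd]
    intro h0
    exact hi.not_isUnit (isUnit_iff_degree_eq_zero.2 h0)
  obtain ⟨z, hz⟩ := IsAlgClosed.exists_root _ hd
  have hint : IsIntegral O z := ⟨q, hqm, by
    rw [IsRoot.def, eval_map] at hz
    exact hz⟩
  obtain ⟨y, rfl⟩ := (IsIntegrallyClosed.isIntegral_iff (K := L)).1 hint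
  refine ⟨IsLocalRing.residue O y, ?_⟩
  rw [IsRoot.def, eval_map, eval₂_at_apply] at hz
  rw [← hq, eval_map, eval₂_at_apply,
    (IsFractionRing.injective O L) (hz.trans (map_zero _).symm), map_zero]

section chain

variable {V Q X : Type} [Fintype V] {Cx : Cox V Q X}

theorem F_aeval {A : Type*} [CommRing A] (c : Q → X → A) (q : Q) (Y : V → A) :
    Cx.F c q Y = ∑ x ∈ Cx.supp q, c q x * MvPolynomial.aeval Y
      (MvPolynomial.monomial (Finsupp.equivFunOnFinite.symm (Cx.e q x)) (1 : ℤ)) := by
  unfold Cox.F Cox.P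
  rw [map_sum]
  refine Finset.sum_congr rfl fun x _ => ?_
  rw [MvPolynomial.eval_monomial, MvPolynomial.aeval_monomial, map_one, one_mul]

theorem J_aeval {A : Type*} [CommRing A] (c : Q → X → A) (q : Q) (w : V) (Y : V → A) :
    Cx.J c q w Y = ∑ x ∈ Cx.supp q, c q x * MvPolynomial.aeval Y (MvPolynomial.pderiv w
      (MvPolynomial.monomial (Finsupp.equivFunOnFinite.symm (Cx.e q x)) (1 : ℤ))) := by
  unfold Cox.J Cox.P
  rw [map_sum, map_sum]
  refine Finset.sum_congr rfl fun x _ => ?_
  rw [MvPolynomial.pderiv_monomial, MvPolynomial.pderiv_monomial, MvPolynomial.eval_monomial,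
    MvPolynomial.aeval_monomial, one_mul]
  simp only [algebraMap_int_eq, Int.coe_castRingHom, Int.cast_natCast]
  ring

/-- the chain rule for the equations -/
theorem der_F {A : Type*} [CommRing A] (D : A →+ A) (hD : ∀ a b, D (a * b) = a * D b + b * D a)
    (c : Q → X → A) (q : Q) (hc : ∀ x ∈ Cx.supp q, D (c q x) = 0) (Y : V → A) :
    D (Cx.F c q Y) = ∑ w, Cx.J c q w Y * D (Y w) := by
  let D' : Derivation ℤ A A := Derivation.mk' D.toIntLinearMap fun a b => by
    simpa [smul_eq_mul] using hD a b
  have hD' : ∀ a, D a = D' a := fun a => rfl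
  rw [F_aeval, map_sum]
  have h1 : ∀ x ∈ Cx.supp q, D (c q x * MvPolynomial.aeval Y
      (MvPolynomial.monomial (Finsupp.equivFunOnFinite.symm (Cx.e q x)) (1 : ℤ))) =
      ∑ w, c q x * MvPolynomial.aeval Y (MvPolynomial.pderiv w
      (MvPolynomial.monomial (Finsupp.equivFunOnFinite.symm (Cx.e q x)) (1 : ℤ))) * D (Y w) := by
    intro x hx
    rw [hD, hc x hx, mul_zero, add_zero, hD' (MvPolynomial.aeval Y _), der_aeval, Finset.mul_sum]
    exact Finset.sum_congr rfl fun w _ => by rw [hD' (Y w)]; ring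
  rw [Finset.sum_congr rfl h1, Finset.sum_comm]
  refine Finset.sum_congr rfl fun w _ => ?_
  rw [J_aeval, Finset.sum_mul]

end chain

section gcv

variable {V Q Pt : Type} [Fintype V] {Cx : Cox V Q Pt}

/-- the general curve of degrees `n` with top coefficients `z` -/
noncomputable def gcv {A : Type*} [CommRing A] (n : V → ℕ) (z : V → A)
    (y : (Σ v, Fin (n v)) → A) (v : V) : A[X] :=
  C (z v) * Polynomial.X ^ n v + ∑ l : Fin (n v), C (y ⟨v, l⟩) * Polynomial.X ^ (l : ℕ)

omit [Fintype V] in
theorem gcv_coeff {A : Type*} [CommRing A] (n : V → ℕ) (z : V → A)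
    (y : (Σ v, Fin (n v)) → A) (v : V) (i : ℕ) :
    (gcv n z y v).coeff i = (if i = n v then z v else 0) +
      if h : i < n v then y ⟨v, ⟨i, h⟩⟩ else 0 := by
  unfold gcv
  rw [coeff_add, coeff_C_mul, coeff_X_pow, finsetSum_coeff]
  congr 1
  · simp
  · simp only [coeff_C_mul, coeff_X_pow]
    by_cases h : i < n v
    · rw [dif_pos h, Finset.sum_eq_single ⟨i, h⟩]
      · simp
      · intro l _ hl
        rw [if_neg (fun h' => hl (Fin.ext h'.symm)), mul_zero]
      · simp
    · rw [dif_neg h]
      refine Finset.sum_eq_zero fun l _ => ?_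
      rw [if_neg (by have := l.2; omega), mul_zero]

omit [Fintype V] in
theorem gcv_degLE {A : Type*} [CommRing A] (n : V → ℕ) (z : V → A)
    (y : (Σ v, Fin (n v)) → A) (v : V) : DegLE (gcv n z y v) (n v) := by
  intro i hi
  rw [gcv_coeff, if_neg (by omega), dif_neg (by omega), add_zero]

omit [Fintype V] in
theorem gcv_lc {A : Type*} [CommRing A] (n : V → ℕ) (z : V → A)
    (y : (Σ v, Fin (n v)) → A) (v : V) : lc (gcv n z y v) (n v) = z v := by
  rw [lc_of_nat, gcv_coeff, if_pos rfl, dif_neg (by omega), add_zero]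

omit [Fintype V] in
theorem gcv_map {A B : Type*} [CommRing A] [CommRing B] (f : A →+* B) (n : V → ℕ) (z : V → A)
    (y : (Σ v, Fin (n v)) → A) (v : V) :
    (gcv n z y v).map f = gcv n (fun v => f (z v)) (fun s => f (y s)) v := by
  ext i
  rw [coeff_map, gcv_coeff, gcv_coeff, map_add]
  congr 1
  · split_ifs <;> simp
  · split_ifs <;> simp

omit [Fintype V] in
theorem gcv_self {A : Type*} [CommRing A] (n : V → ℕ) (Y : V → A[X])
    (hY : ∀ v, DegLE (Y v) (n v)) (v : V) :
    gcv n (fun v => lc (Y v) (n v)) (fun s => (Y s.1).coeff s.2) v = Y v := by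
  ext i
  rw [gcv_coeff, lc_of_nat]
  by_cases h1 : i = n v
  · subst h1
    rw [if_pos rfl, dif_neg (by omega), add_zero]
  · rw [if_neg h1]
    by_cases h2 : i < n v
    · rw [dif_pos h2, zero_add]
    · rw [dif_neg h2, zero_add, hY v i (by omega)]

/-- a map of the coefficients -/
noncomputable def cder {A : Type*} [CommRing A] (D : A →+ A) : A[X] →+ A[X] where
  toFun p := ∑ i ∈ p.support, monomial i (D (p.coeff i))
  map_zero' := by simp
  map_add' p q := by
    ext i
    have h : ∀ p : A[X], (∑ i ∈ p.support, monomial i (D (p.coeff i))).coeff i = D (p.coeff i) := by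
      intro p
      rw [finsetSum_coeff]
      simp only [coeff_monomial]
      by_cases hi : i ∈ p.support
      · rw [Finset.sum_eq_single i (fun j _ hj => if_neg hj) (fun h => absurd hi h), if_pos rfl]
      · rw [notMem_support_iff.1 hi, map_zero]
        refine Finset.sum_eq_zero fun j hj => ?_
        rw [if_neg]
        rintro rfl
        exact hi hj
    rw [coeff_add, h, h, h, coeff_add, map_add]

theorem cder_coeff {A : Type*} [CommRing A] (D : A →+ A) (p : A[X]) (i : ℕ) :
    (cder D p).coeff i = D (p.coeff i) := by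
  change (∑ i ∈ p.support, monomial i (D (p.coeff i))).coeff i = D (p.coeff i)
  rw [finsetSum_coeff]
  simp only [coeff_monomial]
  by_cases hi : i ∈ p.support
  · rw [Finset.sum_eq_single i (fun j _ hj => if_neg hj) (fun h => absurd hi h), if_pos rfl]
  · rw [notMem_support_iff.1 hi, map_zero]
    refine Finset.sum_eq_zero fun j hj => ?_
    rw [if_neg]
    rintro rfl
    exact hi hj

theorem cder_mul {A : Type*} [CommRing A] (D : A →+ A)
    (hD : ∀ a b, D (a * b) = a * D b + b * D a) (p q : A[X]) :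
    cder D (p * q) = p * cder D q + q * cder D p := by
  ext i
  rw [cder_coeff, coeff_add, coeff_mul, map_sum, coeff_mul, mul_comm q, coeff_mul,
    ← Finset.sum_add_distrib]
  refine Finset.sum_congr rfl fun x _ => ?_
  rw [hD, cder_coeff, cder_coeff]
  ring

/-- the derivatives of the coefficients of the equations -/
theorem der_coeff_F {R S : Type} [CommRing R] [CommRing S] [Algebra R S] (D : Derivation R S S)
    (n : V → ℕ) (z : V → R) (a : Q → Pt → R[X]) (y : (Σ v, Fin (n v)) → S) (q : Q) (i : ℕ)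
    (s : Σ v, Fin (n v)) (hy1 : D (y s) = 1) (hy0 : ∀ t, t ≠ s → D (y t) = 0) :
    D ((Cx.F (fun q x => (a q x).map (algebraMap R S)) q
        (gcv n (fun v => algebraMap R S (z v)) y)).coeff i) =
      (Cx.J (fun q x => (a q x).map (algebraMap R S)) q s.1
        (gcv n (fun v => algebraMap R S (z v)) y) * X ^ (s.2 : ℕ)).coeff i := by
  classical
  let D' : S →+ S := { toFun := D, map_zero' := map_zero D, map_add' := map_add D }
  have hDC : ∀ r : R, D' (algebraMap R S r) = 0 := fun r => D.map_algebraMap r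
  have hDm : ∀ a b, D' (a * b) = a * D' b + b * D' a := fun a b => D.leibniz a b
  have h1 := der_F (Cx := Cx) (cder D') (cder_mul D' hDm) (fun q x => (a q x).map (algebraMap R S)) q (fun x _ => by
          ext i
          rw [cder_coeff, coeff_map, hDC, coeff_zero])
        (gcv n (fun v => algebraMap R S (z v)) y)
  have h2 : ∀ w, cder D' (gcv n (fun v => algebraMap R S (z v)) y w) =
      if w = s.1 then X ^ (s.2 : ℕ) else 0 := by
    intro w
    ext i
    rw [cder_coeff, gcv_coeff, map_add]
    have h3 : D' (if i = n w then algebraMap R S (z w) else 0) = 0 := by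
      split_ifs
      · exact hDC _
      · exact map_zero _
    rw [h3, zero_add]
    obtain ⟨v, l⟩ := s
    by_cases h4 : w = v
    · subst h4
      rw [if_pos rfl, coeff_X_pow]
      by_cases h5 : i < n w
      · rw [dif_pos h5]
        by_cases h6 : i = l
        · rw [if_pos h6]
          have : l = ⟨i, h5⟩ := Fin.ext h6.symm
          rw [← this]
          exact hy1
        · rw [if_neg h6]
          refine hy0 _ fun h7 => h6 ?_
          have h8 := eq_of_heq (Sigma.mk.inj h7).2
          exact congrArg Fin.val h8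
      · rw [dif_neg h5, map_zero, if_neg]
        have := l.2
        change i ≠ (l : ℕ)
        omega
    · rw [if_neg h4, coeff_zero]
      split_ifs with h5
      · refine hy0 _ fun h7 => h4 ?_
        exact congrArg Sigma.fst h7
      · exact map_zero _
  have h3 : D ((Cx.F (fun q x => (a q x).map (algebraMap R S)) q
        (gcv n (fun v => algebraMap R S (z v)) y)).coeff i) =
      (cder D' (Cx.F (fun q x => (a q x).map (algebraMap R S)) q
        (gcv n (fun v => algebraMap R S (z v)) y))).coeff i := by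
    rw [cder_coeff]
    rfl
  rw [h3, h1]
  congr 1
  rw [Finset.sum_eq_single s.1]
  · rw [h2, if_pos rfl]
  · intro w _ hw
    rw [h2, if_neg hw, mul_zero]
  · intro h
    exact absurd (Finset.mem_univ _) h

/-- the coefficient of index `i` of the equation `q` on the general curve -/
noncomputable def eqc {R : Type} [CommRing R] (Cx : Cox V Q Pt) (n : V → ℕ) (z : V → R)
    (a : Q → Pt → R[X]) (q : Q) (i : ℕ) : MvPolynomial (Σ v, Fin (n v)) R :=
  (Cx.F (fun q x => (a q x).map (algebraMap R (MvPolynomial (Σ v, Fin (n v)) R))) q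
    (gcv n (fun v => algebraMap R (MvPolynomial (Σ v, Fin (n v)) R) (z v))
      MvPolynomial.X)).coeff i

theorem F_coeff_map {S B : Type*} [CommRing S] [CommRing B] (f : S →+* B) (c : Q → Pt → S[X])
    (n : V → ℕ) (z : V → S) (y : (Σ v, Fin (n v)) → S) (q : Q) (i : ℕ) :
    f ((Cx.F c q (gcv n z y)).coeff i) = (Cx.F (fun q x => (c q x).map f) q
      (gcv n (fun v => f (z v)) fun s => f (y s))).coeff i := by
  have h1 := Cox.F_map (C := Cx) (Polynomial.mapRingHom f) c q (gcv n z y)
  have h2 := congrArg (fun p => p.coeff i) h1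
  simp only [coe_mapRingHom, coeff_map, gcv_map] at h2
  exact h2

theorem J_coeff_map {S B : Type*} [CommRing S] [CommRing B] (f : S →+* B) (c : Q → Pt → S[X])
    (n : V → ℕ) (z : V → S) (y : (Σ v, Fin (n v)) → S) (q : Q) (w : V) (l i : ℕ) :
    f ((Cx.J c q w (gcv n z y) * X ^ l).coeff i) = (Cx.J (fun q x => (c q x).map f) q w
      (gcv n (fun v => f (z v)) fun s => f (y s)) * X ^ l).coeff i := by
  have h1 := Cox.J_map (C := Cx) (Polynomial.mapRingHom f) c q w (gcv n z y)
  have h2 := congrArg (fun p => (p * X ^ l).coeff i) h1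
  simp only [coe_mapRingHom, gcv_map] at h2
  rw [← h2, ← coeff_map, Polynomial.map_mul, Polynomial.map_pow, Polynomial.map_X]

theorem eqc_aeval {R B : Type} [CommRing R] [CommRing B] [Algebra R B] (n : V → ℕ) (z : V → R)
    (a : Q → Pt → R[X]) (q : Q) (i : ℕ) (y : (Σ v, Fin (n v)) → B) :
    MvPolynomial.aeval y (eqc Cx n z a q i) =
      (Cx.F (fun q x => (a q x).map (algebraMap R B)) q
        (gcv n (fun v => algebraMap R B (z v)) y)).coeff i := by
  let f : MvPolynomial (Σ v, Fin (n v)) R →+* B := (MvPolynomial.aeval y).toRingHom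
  have hf : f.comp (algebraMap R (MvPolynomial (Σ v, Fin (n v)) R)) = algebraMap R B :=
    (MvPolynomial.aeval y : MvPolynomial (Σ v, Fin (n v)) R →ₐ[R] B).comp_algebraMap
  have hf1 : ∀ r, f (algebraMap R (MvPolynomial (Σ v, Fin (n v)) R) r) = algebraMap R B r :=
    fun r => congrArg (fun g => g r) hf
  have hf2 : ∀ s, f (MvPolynomial.X s) = y s := fun s => MvPolynomial.aeval_X _ _
  change f (eqc Cx n z a q i) = _
  unfold eqc
  rw [F_coeff_map]
  simp only [Polynomial.map_map, hf, hf1, hf2]

theorem eqc_pderiv {R B : Type} [CommRing R] [CommRing B] [Algebra R B] (n : V → ℕ) (z : V → R)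
    (a : Q → Pt → R[X]) (q : Q) (i : ℕ) (y : (Σ v, Fin (n v)) → B) (s : Σ v, Fin (n v)) :
    MvPolynomial.aeval y (MvPolynomial.pderiv s (eqc Cx n z a q i)) =
      (Cx.J (fun q x => (a q x).map (algebraMap R B)) q s.1
        (gcv n (fun v => algebraMap R B (z v)) y) * X ^ (s.2 : ℕ)).coeff i := by
  classical
  let f : MvPolynomial (Σ v, Fin (n v)) R →+* B := (MvPolynomial.aeval y).toRingHom
  have hf : f.comp (algebraMap R (MvPolynomial (Σ v, Fin (n v)) R)) = algebraMap R B :=
    (MvPolynomial.aeval y : MvPolynomial (Σ v, Fin (n v)) R →ₐ[R] B).comp_algebraMap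
  have hf1 : ∀ r, f (algebraMap R (MvPolynomial (Σ v, Fin (n v)) R) r) = algebraMap R B r :=
    fun r => congrArg (fun g => g r) hf
  have hf2 : ∀ s, f (MvPolynomial.X s) = y s := fun s => MvPolynomial.aeval_X _ _
  unfold eqc
  rw [der_coeff_F (MvPolynomial.pderiv s) n z a MvPolynomial.X q i s
    (MvPolynomial.pderiv_X_self s) (fun t ht => MvPolynomial.pderiv_X_of_ne ht)]
  change f _ = _
  rw [J_coeff_map]
  simp only [Polynomial.map_map, hf, hf1, hf2]

end gcv

section path

/-- the embedding of the constants in the residue field -/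
noncomputable def resk {k L : Type} [Field k] [Field L] (j : k →+* L) (O : ValuationSubring L)
    (hj : ∀ c, j c ∈ O) : k →+* IsLocalRing.ResidueField O :=
  (IsLocalRing.residue O).comp
    { toFun := fun c => ⟨j c, hj c⟩
      map_one' := Subtype.ext (map_one j)
      map_mul' := fun a b => Subtype.ext (map_mul j a b)
      map_zero' := Subtype.ext (map_zero j)
      map_add' := fun a b => Subtype.ext (map_add j a b) }

theorem resk_apply {k L : Type} [Field k] [Field L] (j : k →+* L) (O : ValuationSubring L)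
    (hj : ∀ c, j c ∈ O) (c : k) : resk j O hj c = IsLocalRing.residue O ⟨j c, hj c⟩ := rfl

/-- the residue of an element congruent to `1` -/
theorem residue_eq_one {L : Type} [Field L] (O : ValuationSubring L) {τ : L}
    (hτ : τ - 1 ∈ O.nonunits) (hm : τ ∈ O) : IsLocalRing.residue O ⟨τ, hm⟩ = 1 := by
  have h1 : (⟨τ, hm⟩ - 1 : O) ∈ IsLocalRing.maximalIdeal O := by
    rw [IsLocalRing.mem_maximalIdeal]
    exact ValuationSubring.coe_mem_nonunits_iff.1 hτ
  have h2 := (IsLocalRing.residue_eq_zero_iff (⟨τ, hm⟩ - 1 : O)).2 h1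
  rw [map_sub, map_one] at h2
  exact sub_eq_zero.1 h2

theorem mem_of_sub_one {L : Type} [Field L] (O : ValuationSubring L) {τ : L}
    (hτ : τ - 1 ∈ O.nonunits) : τ ∈ O := by
  have h1 : τ - 1 ∈ O := ValuationSubring.nonunits_subset hτ
  have h2 := O.add_mem _ _ h1 O.one_mem
  rwa [sub_add_cancel] at h2

theorem degLE_pmap {A B : Type*} [CommRing A] [CommRing B] (f : A →+* B) {p : A[X]} {n : ℤ}
    (h : DegLE p n) : DegLE (p.map f) n := fun i hi => by rw [coeff_map, h i hi, map_zero]

theorem lc_pmap {A B : Type*} [CommRing A] [CommRing B] (f : A →+* B) (p : A[X]) (n : ℤ) :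
    lc (p.map f) n = f (lc p n) := by
  unfold lc
  split_ifs
  · rw [coeff_map]
  · rw [map_zero]

theorem lc_add' {A : Type*} [CommRing A] (p q : A[X]) (n : ℤ) :
    lc (p + q) n = lc p n + lc q n := by
  unfold lc
  split_ifs <;> simp

theorem lc_C_mul' {A : Type*} [CommRing A] (c : A) (p : A[X]) (n : ℤ) :
    lc (C c * p) n = c * lc p n := by
  unfold lc
  split_ifs <;> simp

/-- a polynomial of bounded degree is the sum of its terms -/
theorem degLE_sum {A : Type*} [CommRing A] {p : A[X]} {n : ℕ} (h : DegLE p ((n : ℤ) - 1)) :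
    p = ∑ l : Fin n, C (p.coeff l) * X ^ (l : ℕ) := by
  ext i
  rw [finsetSum_coeff]
  simp only [coeff_C_mul, coeff_X_pow]
  by_cases hi : i < n
  · rw [Finset.sum_eq_single ⟨i, hi⟩]
    · simp
    · intro l _ hl
      rw [if_neg (fun h' => hl (Fin.ext h'.symm)), mul_zero]
    · simp
  · rw [h i (by omega)]
    symm
    refine Finset.sum_eq_zero fun l _ => ?_
    rw [if_neg (by have := l.2; omega), mul_zero]

variable {V Q Pt : Type} [Fintype V] [Fintype Q]

/-- **PATH.** -/
theorem path (Cx : Cox V Q Pt) {k : Type} [Field k] (a0 a1 : Q → Pt → k[X]) (D : Q → ℤ)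
    (n : V → ℕ) (hn : Cx.Rel fun v => (n v : ℤ))
    (hd0 : ∀ q, ∀ x ∈ Cx.supp q, DegLE (a0 q x) (D q))
    (hd1 : ∀ q, ∀ x ∈ Cx.supp q, DegLE (a1 q x) (D q))
    (hlc : ∀ q, ∀ x ∈ Cx.supp q, lc (a0 q x) (D q) = lc (a1 q x) (D q))
    (Y : V → k[X]) (hY : ∀ v, DegLE (Y v) (n v)) (hF : ∀ q, Cx.F a0 q Y = 0)
    (hfree : FreeS Cx a0 Y (fun v => n v) fun q => D q + Cx.m (fun v => n v) q) :
    ∃ (L : Type) (_ : Field L) (_ : IsAlgClosed L) (j : k →+* L) (O : ValuationSubring L)
      (τ : L) (Y' : V → L[X]), (∀ c, j c ∈ O) ∧ τ - 1 ∈ O.nonunits ∧ τ ≠ 1 ∧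
      (∀ v, DegLE (Y' v) (n v)) ∧ (∀ v, lc (Y' v) (n v) = j (lc (Y v) (n v))) ∧
      ∀ q, Cx.F (fun q x => C (1 - τ) * (a0 q x).map j + C τ * (a1 q x).map j) q Y' = 0 := by
  classical
  -- the field
  let L := AlgebraicClosure (RatFunc k)
  let g : k[X] →+* L := (algebraMap (RatFunc k) L).comp (algebraMap k[X] (RatFunc k))
  have hg : Function.Injective g :=
    (algebraMap (RatFunc k) L).injective.comp (IsFractionRing.injective k[X] (RatFunc k))
  let alg : Algebra k[X] L := g.toAlgebra
  have hgalg : algebraMap k[X] L = g := rfl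
  let j : k →+* L := g.comp C
  let τ : L := g X
  -- the system
  let a : Q → Pt → k[X][X] := fun q x => C (1 - X) * (a0 q x).map C + C X * (a1 q x).map C
  let E : Q → ℕ := fun q => (D q + Cx.m (fun v => n v) q).toNat
  let z : V → k[X] := fun v => C (lc (Y v) (n v))
  let y0 : (Σ v, Fin (n v)) → k[X] := fun s => C ((Y s.1).coeff s.2)
  let P : (Σ q, Fin (E q)) → MvPolynomial (Σ v, Fin (n v)) k[X] := fun r => eqc Cx n z a r.1 r.2
  have ha0 : ∀ q x, (a q x).map (evalRingHom (0 : k)) = a0 q x := by
    intro q x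
    simp only [a, Polynomial.map_add, Polynomial.map_mul, Polynomial.map_C, Polynomial.map_map]
    have h1 : (evalRingHom (0 : k)).comp (C : k →+* k[X]) = RingHom.id k := by
      ext c
      simp
    rw [h1]
    simp
  have hag : ∀ q x, (a q x).map g = C (1 - τ) * (a0 q x).map j + C τ * (a1 q x).map j := by
    intro q x
    simp only [a, Polynomial.map_add, Polynomial.map_mul, Polynomial.map_C, Polynomial.map_map]
    rw [map_sub, map_one]
  have hmem : ∀ p : k[X], p ∈ Ideal.span {(X : k[X])} ↔ evalRingHom (0 : k) p = 0 := by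
    intro p
    rw [Ideal.mem_span_singleton, X_dvd_iff, coe_evalRingHom, coeff_zero_eq_eval_zero]
  have hYself : (gcv n (fun v => evalRingHom (0 : k) (z v)) fun s => evalRingHom (0 : k) (y0 s)) =
      Y := by
    funext v
    have h1 := gcv_self n Y hY v
    simpa [z, y0] using h1
  -- the chosen vectors
  have hE : ∀ q, ∀ i : Fin (E q), ((i : ℕ) : ℤ) ≤ D q + Cx.m (fun v => n v) q - 1 := by
    intro q i
    have h1 := i.2
    have h2 : (i : ℕ) < (D q + Cx.m (fun v => n v) q).toNat := h1
    omega
  have hex : ∀ s : Σ q, Fin (E q), ∃ h : V → k[X], (∀ v, DegLE (h v) ((n v : ℤ) - 1)) ∧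
      ∀ q, ∑ v, Cx.J a0 q v Y * h v = if q = s.1 then X ^ (s.2 : ℕ) else 0 := by
    intro s
    refine hfree _ fun q => ?_
    by_cases h : q = s.1
    · rw [if_pos h, h]
      refine DegLE.mono ?_ (hE s.1 s.2)
      rw [← monomial_one_right_eq_X_pow]
      exact DegLE.monomial _ _
    · rw [if_neg h]
      exact DegLE.zero _
  choose h hhd hhs using hex
  obtain ⟨y, hy, -⟩ := open_core (Ideal.span {(X : k[X])})
    (by
      rw [Ne, Ideal.span_singleton_eq_top]
      exact not_isUnit_X) P 1 y0 (fun s t => C ((h s t.1).coeff t.2)) 1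
    (fun r => by
      rw [hmem]
      simp only [P]
      rw [eqc_aeval, F_coeff_map]
      simp only [Algebra.algebraMap_self, Polynomial.map_id, ha0, RingHom.id_apply]
      rw [hYself, hF, coeff_zero])
    (fun r s => by
      rw [hmem, map_sub, map_sum]
      have h1 : ∀ t : Σ v, Fin (n v), evalRingHom (0 : k) (MvPolynomial.aeval y0
          (MvPolynomial.pderiv t (P r)) * C ((h s t.1).coeff t.2)) =
          (Cx.J a0 r.1 t.1 Y * X ^ (t.2 : ℕ)).coeff r.2 * (h s t.1).coeff t.2 := by
        intro t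
        simp only [P]
        rw [map_mul, eqc_pderiv, J_coeff_map]
        simp only [Algebra.algebraMap_self, Polynomial.map_id, ha0, RingHom.id_apply]
        rw [hYself, coe_evalRingHom, eval_C]
      rw [Finset.sum_congr rfl fun t _ => h1 t, Fintype.sum_sigma]
      have h2 : ∀ v, ∑ l : Fin (n v), (Cx.J a0 r.1 v Y * X ^ (l : ℕ)).coeff r.2 *
          (h s v).coeff l = (Cx.J a0 r.1 v Y * h s v).coeff r.2 := by
        intro v
        conv_rhs => rw [degLE_sum (hhd s v), Finset.mul_sum, finsetSum_coeff]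
        refine Finset.sum_congr rfl fun l _ => ?_
        rw [mul_left_comm, coeff_C_mul, mul_comm]
      rw [Finset.sum_congr rfl fun v _ => h2 v, ← finsetSum_coeff, hhs]
      obtain ⟨q, i⟩ := r
      obtain ⟨q', i'⟩ := s
      by_cases h3 : q = q'
      · subst h3
        rw [if_pos rfl, coeff_X_pow]
        by_cases h4 : i = i'
        · subst h4
          simp
        · rw [if_neg (fun h5 => h4 (Fin.ext h5)), if_neg, map_zero, sub_zero]
          intro h5
          exact h4 (eq_of_heq (Sigma.mk.inj h5).2)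
      · rw [if_neg h3, coeff_zero, if_neg, map_zero, sub_zero]
        intro h5
        exact h3 (congrArg Sigma.fst h5))
    (by rw [map_one, one_mul, sub_self]; exact Submodule.zero_mem _)
    (k := L) hg
  obtain ⟨O, hO, hτ⟩ := place_one j τ (fun p hp => by
    have h1 : g p = 0 := by
      rw [← hp]
      conv_lhs => rw [← eval₂_C_X (p := p)]
      rw [hom_eval₂]
    exact (injective_iff_map_eq_zero g).1 hg p h1)
  let Y' : V → L[X] := gcv n (fun v => g (z v)) y
  have hYd : ∀ v, DegLE (Y' v) (n v) := fun v => gcv_degLE n _ _ v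
  have hYl : ∀ v, lc (Y' v) (n v) = j (lc (Y v) (n v)) := fun v => gcv_lc n _ _ v
  have hτ1 : τ ≠ 1 := by
    intro h
    have h1 : g (X - C 1) = 0 := by
      rw [map_sub, C_1, map_one]
      exact sub_eq_zero.2 h
    exact X_sub_C_ne_zero (1 : k) ((injective_iff_map_eq_zero g).1 hg _ h1)
  refine ⟨L, inferInstance, inferInstance, j, O, τ, Y', hO, hτ, hτ1, hYd, hYl, fun q => ?_⟩
  have hsum : ∀ x ∈ Cx.supp q, D q + Cx.m (fun v => n v) q - ∑ v, (n v : ℤ) * Cx.e q x v = D q := by
    intro x hx
    rw [Cox.rel_sum hn hx]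
    ring
  ext i
  rw [coeff_zero]
  by_cases h1 : (i : ℤ) < D q + Cx.m (fun v => n v) q
  · have h2 : i < E q := by
      simp only [E]
      omega
    have h3 := hy ⟨q, ⟨i, h2⟩⟩
    simp only [P] at h3
    rw [eqc_aeval, hgalg] at h3
    simp only [hag] at h3
    exact h3
  · have hdc : ∀ x ∈ Cx.supp q, DegLE (C (1 - τ) * (a0 q x).map j + C τ * (a1 q x).map j)
        (D q + Cx.m (fun v => n v) q - ∑ v, (n v : ℤ) * Cx.e q x v) := by
      intro x hx
      rw [hsum x hx]
      refine DegLE.add ?_ ?_
      · exact ((DegLE.C _ le_rfl).mul (degLE_pmap j (hd0 q x hx))).mono (by omega)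
      · exact ((DegLE.C _ le_rfl).mul (degLE_pmap j (hd1 q x hx))).mono (by omega)
    by_cases h2 : (i : ℤ) = D q + Cx.m (fun v => n v) q
    · -- the top coefficient
      have h3 := Cox.F_lc (C := Cx) (c := fun q x => C (1 - τ) * (a0 q x).map j +
        C τ * (a1 q x).map j) (n := fun v => (n v : ℤ)) (q := q) hdc hYd
      have h4 := Cox.F_lc (C := Cx) (c := a0) (n := fun v => (n v : ℤ)) (q := q)
        (d := D q + Cx.m (fun v => n v) q) (fun x hx => by
          rw [hsum x hx]
          exact hd0 q x hx) hY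
      rw [hF] at h4
      have h5 := congrArg j h4
      rw [Cox.F_map, show lc (0 : k[X]) (D q + Cx.m (fun v => n v) q) = 0 by
        unfold lc; simp, map_zero] at h5
      have h6 : lc (Cx.F (fun q x => C (1 - τ) * (a0 q x).map j + C τ * (a1 q x).map j) q Y')
          (D q + Cx.m (fun v => n v) q) = 0 := by
        rw [h3, h5, Cox.F_eq, Cox.F_eq]
        refine Finset.sum_congr rfl fun x hx => ?_
        simp only [hYl, hsum x hx]
        congr 1
        rw [lc_add', lc_C_mul', lc_C_mul', lc_pmap, lc_pmap, ← hlc q x hx]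
        ring
      rw [← h2, lc_of_nat] at h6
      exact h6
    · exact Cox.F_degLE (C := Cx) (c := fun q x => C (1 - τ) * (a0 q x).map j +
        C τ * (a1 q x).map j) (n := fun v => (n v : ℤ)) (q := q) hdc hYd i (by omega)

end path

end Pool.Agent.Work.WRC
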