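import Mathlib
import Pool.Agent.Work.MP_4329d7_ag_wrc.ExiRk
import Pool.Agent.Work.MP_4329d7_ag_wrc.Path
import Pool.Agent.Work.MP_4329d7_ag_uni.HenselMv

/-!
W-RC, EXI: for all coefficients over an algebraically closed field the fibre equations have a common
zero in the toric variety of the fan (`exi`): the closed fibre is not empty.

Proof.  At the generic point of `K` the point `Z = 1` is a nondegenerate zero; join the coefficients
to the given ones by a line with parameter `τ`, lift the zero to an algebraically closed field over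
`k(τ)` and specialise it at `τ = 1` in the fan; descend by the Nullstellensatz.
-/

namespace Pool.Agent.Work.WRC

open Polynomial Pool.Agent.Work.CI Pool.Agent.Work.CW

namespace ExR

/-- amalgamation of fields -/
theorem exists_amalg {k0 k1 k2 : Type} [Field k0] [Field k1] [Field k2] (g1 : k0 →+* k1)
    (g2 : k0 →+* k2) : ∃ (κ : Type) (_ : Field κ) (_ : IsAlgClosed κ) (h1 : k1 →+* κ)
      (h2 : k2 →+* κ), h1.comp g1 = h2.comp g2 := by
  let _ := g1.toAlgebra
  let _ := g2.toAlgebra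
  obtain ⟨m, hm⟩ := Ideal.exists_maximal (TensorProduct k0 k1 k2)
  let _ : Field (TensorProduct k0 k1 k2 ⧸ m) := Ideal.Quotient.field m
  refine ⟨AlgebraicClosure (TensorProduct k0 k1 k2 ⧸ m), inferInstance, inferInstance,
    (algebraMap (TensorProduct k0 k1 k2 ⧸ m) _).comp ((Ideal.Quotient.mk m).comp
      (Algebra.TensorProduct.includeLeftRingHom : k1 →+* TensorProduct k0 k1 k2)),
    (algebraMap (TensorProduct k0 k1 k2 ⧸ m) _).comp ((Ideal.Quotient.mk m).comp
      (Algebra.TensorProduct.includeRight : k2 →ₐ[k0] TensorProduct k0 k1 k2).toRingHom), ?_⟩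
  ext c
  have h1 : (Algebra.TensorProduct.includeLeftRingHom : k1 →+* TensorProduct k0 k1 k2) (g1 c) =
      (Algebra.TensorProduct.includeRight : k2 →ₐ[k0] TensorProduct k0 k1 k2) (g2 c) := by
    change (g1 c) ⊗ₜ[k0] (1 : k2) = (1 : k1) ⊗ₜ[k0] (g2 c)
    have h2 := TensorProduct.smul_tmul (R := k0) (R' := k0) c (1 : k1) (1 : k2)
    rw [Algebra.smul_def, Algebra.smul_def, mul_one, mul_one] at h2
    exact h2
  exact congrArg (fun z => algebraMap (TensorProduct k0 k1 k2 ⧸ m)
    (AlgebraicClosure (TensorProduct k0 k1 k2 ⧸ m)) (Ideal.Quotient.mk m z)) h1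

theorem zpow_sum_eq {L ι : Type*} [Field L] {z : L} (hz : z ≠ 0) (s : Finset ι) (g : ι → ℤ) :
    z ^ (∑ i ∈ s, g i) = ∏ i ∈ s, z ^ g i := by
  classical
  induction s using Finset.induction_on with
  | empty => simp
  | insert i s hi ih => rw [Finset.sum_insert hi, Finset.prod_insert hi, zpow_add₀ hz, ih]

/-- the monomials at a point with nonzero coordinates -/
theorem prod_pow_e {V Q X : Type} [Fintype V] (C : Cox V Q X) {L : Type*} [Field L] {Z : V → L}
    (hZ : ∀ v, Z v ≠ 0) {q : Q} {x : X} (hx : x ∈ C.supp q) :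
    ∏ v, Z v ^ C.e q x v = (∏ v, Z v ^ C.h q v) * ∏ i, (∏ v, Z v ^ C.ray v i) ^ C.ch q x i := by
  have h1 : ∀ v, Z v ^ C.e q x v = Z v ^ C.h q v * ∏ i, Z v ^ (C.ch q x i * C.ray v i) := by
    intro v
    rw [← zpow_natCast, C.he q x hx v, zpow_add₀ (hZ v), zpow_sum_eq (hZ v), mul_comm]
  rw [Finset.prod_congr rfl fun v _ => h1 v, Finset.prod_mul_distrib, Finset.prod_comm]
  congr 1
  refine Finset.prod_congr rfl fun i _ => ?_
  rw [← Finset.prod_zpow]
  exact Finset.prod_congr rfl fun v _ => by rw [← zpow_mul, mul_comm]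

/-- the equations only depend on the point of the torus -/
theorem F_torus {V Q X : Type} [Fintype V] (C : Cox V Q X) {L : Type*} [Field L]
    (c : Q → X → L) (q : Q) {Z Z' : V → L} (hZ : ∀ v, Z v ≠ 0) (hZ' : ∀ v, Z' v ≠ 0)
    (h : ∀ i, ∏ v, Z v ^ C.ray v i = ∏ v, Z' v ^ C.ray v i) (hF : C.F c q Z = 0) :
    C.F c q Z' = 0 := by
  have key : ∀ Z : V → L, (∀ v, Z v ≠ 0) → C.F c q Z = (∏ v, Z v ^ C.h q v) *
      ∑ x ∈ C.supp q, c q x * ∏ i, (∏ v, Z v ^ C.ray v i) ^ C.ch q x i := by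
    intro Z hZ
    rw [Cox.F_eq, Finset.mul_sum]
    refine Finset.sum_congr rfl fun x hx => ?_
    rw [prod_pow_e C hZ hx]
    ring
  rw [key Z hZ] at hF
  rw [key Z' hZ']
  have h1 := (mul_eq_zero.1 hF).resolve_left
    (Finset.prod_ne_zero_iff.2 fun v _ => zpow_ne_zero _ (hZ v))
  simp only [h] at h1
  rw [h1, mul_zero]

/-- the empty cone -/
theorem cone_empty {V : Type} [Fintype V] [DecidableEq V] {r : ℕ} (Δ : FanV V r) : Δ.cone ∅ := by
  obtain ⟨τ, hτ, -⟩ := Δ.cov (Multiplicative ℤ) ⊤ (fun g => Or.inl trivial) 1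
  exact Δ.down hτ (Finset.empty_subset _)

/-- the equations over an algebra -/
theorem aeval_P {V Q X : Type} [Fintype V] (C : Cox V Q X) {R L : Type*} [CommRing R]
    [CommRing L] [Algebra R L] (c : Q → X → R) (q : Q) (z : V → L) :
    MvPolynomial.aeval z (C.P c q) = C.F (fun q x => algebraMap R L (c q x)) q z := by
  unfold Cox.F
  rw [← Cox.P_map (algebraMap R L) c q, MvPolynomial.aeval_def, MvPolynomial.eval₂_eq_eval_map]

theorem aeval_pderiv_P {V Q X : Type} [Fintype V] (C : Cox V Q X) {R L : Type*} [CommRing R]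
    [CommRing L] [Algebra R L] (c : Q → X → R) (q : Q) (w : V) (z : V → L) :
    MvPolynomial.aeval z (MvPolynomial.pderiv w (C.P c q)) =
      C.J (fun q x => algebraMap R L (c q x)) q w z := by
  unfold Cox.J
  rw [← Cox.P_map (algebraMap R L) c q, MvPolynomial.pderiv_map, MvPolynomial.aeval_def,
    MvPolynomial.eval₂_eq_eval_map]

end ExR

section exi

variable {n dB r : ℕ} {B Q V : Type} [Fintype B] [Fintype Q] [Fintype V] [DecidableEq V]
  {K : Type} [Field K] [Algebra ℂ K] {x : Fin (dB + r) → K} {f : B ⊕ Q → Lau (dB + r)}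

/-- the point `Z = 1` over the generic point is a nondegenerate zero -/
theorem exi_one (T : Tot n dB r B Q x f) {nB : ℕ} (hdim : nB + Fintype.card B = dB)
    (htr : Algebra.trdeg ℂ (KBf x) = nB) {Δ : FanV V r} (hΔ : Δ.Adapted f) {F : Type} [Field F]
    [Algebra ℂ F] (φ : K →ₐ[ℂ] F) :
    (∀ q, (coxF f Δ.ray).F (cst (fun q => f (Sum.inr q)) fun j => φ (x j)) q 1 = 0) ∧
    ∀ l : Q → F, (∀ w, ∑ q, l q *
      (coxF f Δ.ray).J (cst (fun q => f (Sum.inr q)) fun j => φ (x j)) q w 1 = 0) → l = 0 := by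
  have hne : ∀ j, φ (x j) ≠ 0 := fun j => (map_ne_zero_iff _ φ.injective).2 (T.data.ne j)
  have hF : ∀ q, (coxF f Δ.ray).F (cst (fun q => f (Sum.inr q)) fun j => φ (x j)) q 1 = 0 := by
    intro q
    rw [coxF_F]
    simp only [Pi.one_apply, one_pow, Finset.prod_const_one, mul_one]
    have h1 := Pool.Agent.Work.CW.map_ev φ (g := f (Sum.inr q)) (y := x)
    rw [T.data.eq, map_zero] at h1
    exact h1.symm
  refine ⟨hF, fun l hl => ?_⟩
  exact ExR.fib_nd' T hΔ (ExR.xB_ne T) (ExR.xB_gen x) (ExR.xB_ev T) htr hdim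
    (φ.comp (KBf x).val) hne (fun i => rfl) (τ := ∅) (ExR.cone_empty Δ)
    (fun v => by simp) hF (fun w _ => hl w)

/-- **EXI.** The closed fibre is not empty. -/
theorem exi (T : Tot n dB r B Q x f) {nB : ℕ} (hdim : nB + Fintype.card B = dB)
    (htr : Algebra.trdeg ℂ (KBf x) = nB) {Δ : FanV V r} (hΔ : Δ.Adapted f) (F : Type) [Field F]
    [Algebra ℂ F] [IsAlgClosed F] (c : Q → (Fin (dB + r) → ℤ) → F) :
    ∃ (Z : V → F) (τ : Finset V), Δ.cone τ ∧ (∀ v, Z v = 0 ↔ v ∈ τ) ∧
      ∀ q, (coxF f Δ.ray).F c q Z = 0 := by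
  classical
  -- a field with a generic point
  obtain ⟨W, _, _, h1, h2, hc⟩ := ExR.exists_amalg (algebraMap ℂ F) (algebraMap ℂ K)
  let _ : Algebra ℂ W := (h1.comp (algebraMap ℂ F)).toAlgebra
  let φ : K →ₐ[ℂ] W := { h2 with commutes' := fun a => (congrArg (fun g => g a) hc).symm }
  obtain ⟨hF1, hJ1⟩ := exi_one T hdim htr hΔ φ
  let c0 : Q → (Fin (dB + r) → ℤ) → W := cst (fun q => f (Sum.inr q)) fun j => φ (x j)
  have hF0 : ∀ q, (coxF f Δ.ray).F c0 q 1 = 0 := hF1
  have hJ0 := surj_of_rows (fun q w => (coxF f Δ.ray).J c0 q w 1) hJ1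
  choose u hu using fun q : Q => hJ0 (Pi.single q 1)
  -- the line
  let cR : Q → (Fin (dB + r) → ℤ) → W[X] := fun q χ => C (c0 q χ) + X * C (h1 (c q χ) - c0 q χ)
  have hcR : ∀ q χ, evalRingHom (0 : W) (cR q χ) = c0 q χ := by
    intro q χ
    simp [cR]
  let P : Q → MvPolynomial V W[X] := fun q => (coxF f Δ.ray).P cR q
  -- the field over the line
  let L := AlgebraicClosure (RatFunc W)
  let g : W[X] →+* L := (algebraMap (RatFunc W) L).comp (algebraMap W[X] (RatFunc W))
  have hg : Function.Injective g :=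
    (algebraMap (RatFunc W) L).injective.comp (IsFractionRing.injective W[X] (RatFunc W))
  let alg : Algebra W[X] L := g.toAlgebra
  have hgalg : algebraMap W[X] L = g := rfl
  let j : W →+* L := g.comp C
  let τ : L := g X
  have hmem : ∀ p : W[X], p ∈ Ideal.span {(X : W[X])} ↔ evalRingHom (0 : W) p = 0 := by
    intro p
    rw [Ideal.mem_span_singleton, X_dvd_iff, coe_evalRingHom, coeff_zero_eq_eval_zero]
  obtain ⟨z, hz, hzG⟩ := open_core (Ideal.span {(X : W[X])})
    (by
      rw [Ne, Ideal.span_singleton_eq_top]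
      exact not_isUnit_X) P (∏ v, MvPolynomial.X v) 1 (fun q w => C (u q w)) 1
    (fun q => by
      rw [hmem]
      simp only [P]
      rw [ExR.aeval_P, Cox.F_map]
      simp only [Algebra.algebraMap_self, RingHom.id_apply, hcR, Pi.one_apply, map_one]
      exact hF0 q)
    (fun q q' => by
      rw [hmem, map_sub, map_sum]
      have h3 : ∀ w, evalRingHom (0 : W) (MvPolynomial.aeval (1 : V → W[X])
          (MvPolynomial.pderiv w (P q)) * C (u q' w)) =
          (coxF f Δ.ray).J c0 q w 1 * u q' w := by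
        intro w
        simp only [P]
        rw [map_mul, ExR.aeval_pderiv_P, Cox.J_map]
        simp only [Algebra.algebraMap_self, RingHom.id_apply, hcR, Pi.one_apply, map_one]
        rw [coe_evalRingHom, eval_C]
        rfl
      rw [Finset.sum_congr rfl fun w _ => h3 w, hu q' q]
      by_cases h4 : q = q'
      · subst h4
        rw [if_pos rfl, Pi.single_eq_same, map_one, sub_self]
      · rw [if_neg h4, Pi.single_eq_of_ne h4, map_zero, sub_zero])
    (by
      rw [map_prod]
      simp only [MvPolynomial.aeval_X, Pi.one_apply, Finset.prod_const_one, mul_one, sub_self]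
      exact Submodule.zero_mem _)
    (k := L) hg
  have hz0 : ∀ v, z v ≠ 0 := by
    intro v hv
    apply hzG
    rw [map_prod]
    exact Finset.prod_eq_zero (Finset.mem_univ v) (by rw [MvPolynomial.aeval_X, hv])
  have hFz : ∀ q, (coxF f Δ.ray).F (fun q χ => g (cR q χ)) q z = 0 := by
    intro q
    rw [← hz q]
    simp only [P]
    rw [ExR.aeval_P]
    rfl
  -- the place over `τ = 1`
  obtain ⟨O, hO, hτ⟩ := place_one j τ (fun p hp => by
    have h3 : g p = 0 := by
      rw [← hp]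
      conv_lhs => rw [← eval₂_C_X (p := p)]
      rw [hom_eval₂]
    exact (injective_iff_map_eq_zero g).1 hg p h3)
  have hτO : τ ∈ O := mem_of_sub_one O hτ
  -- the point in the fan
  let S : Submonoid Lˣ :=
    { carrier := {y | (y : L) ∈ O}
      one_mem' := O.one_mem
      mul_mem' := fun {a b} ha hb => O.mul_mem _ _ ha hb }
  obtain ⟨σ, hσ, y, hyS, hy1, hy⟩ := Δ.cov Lˣ S (fun a => by
    rcases O.mem_or_inv_mem (a : L) with h | h
    · exact Or.inl h
    · refine Or.inr ?_
      change ((a⁻¹ : Lˣ) : L) ∈ O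
      rwa [Units.val_inv_eq_inv_val])
    fun k => ∏ v, Units.mk0 (z v) (hz0 v) ^ Δ.ray v k
  have hFy : ∀ q, (coxF f Δ.ray).F (fun q χ => g (cR q χ)) q (fun v => (y v : L)) = 0 := by
    intro q
    refine ExR.F_torus (coxF f Δ.ray) _ q hz0 (fun v => (y v).ne_zero) (fun i => ?_) (hFz q)
    change ∏ v, z v ^ (fibv (Δ.ray v) : Fin (dB + r) → ℤ) i =
      ∏ v, (y v : L) ^ (fibv (Δ.ray v) : Fin (dB + r) → ℤ) i
    refine Fin.addCases (fun i => ?_) (fun k => ?_) i
    · simp only [fibv_castAdd, zpow_zero]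
    · simp only [fibv_natAdd]
      have h3 := congrArg (fun a : Lˣ => (a : L)) (hy k)
      simp only [Units.coe_prod, Units.val_zpow_eq_zpow_val, Units.val_mk0] at h3
      exact h3
  -- the reduction
  let yO : V → O := fun v => ⟨y v, hyS v⟩
  have hcO : ∀ q χ, g (cR q χ) ∈ O := by
    intro q χ
    simp only [cR, map_add, map_mul]
    exact O.add_mem _ _ (hO _) (O.mul_mem _ _ hτO (hO _))
  let cO : Q → (Fin (dB + r) → ℤ) → O := fun q χ => ⟨g (cR q χ), hcO q χ⟩
  have hFO : ∀ q, (coxF f Δ.ray).F cO q yO = 0 := by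
    intro q
    apply Subtype.val_injective
    have h3 := Cox.F_map (C := coxF f Δ.ray) O.subtype cO q yO
    exact h3.trans (hFy q)
  let k2 := IsLocalRing.ResidueField O
  let ψ : F →+* k2 := (resk j O hO).comp h1
  let zb : V → k2 := fun v => IsLocalRing.residue O (yO v)
  have hcb : ∀ q χ, IsLocalRing.residue O (cO q χ) = ψ (c q χ) := by
    intro q χ
    have h3 : cO q χ = ⟨j (c0 q χ), hO _⟩ + ⟨τ, hτO⟩ * (⟨j (h1 (c q χ)), hO _⟩ -
        ⟨j (c0 q χ), hO _⟩) := by
      apply Subtype.ext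
      change g (cR q χ) = j (c0 q χ) + τ * (j (h1 (c q χ)) - j (c0 q χ))
      simp only [cR, map_add, map_mul, map_sub]
      rfl
    rw [h3, map_add, map_mul, map_sub, residue_eq_one O hτ hτO, one_mul, add_sub_cancel]
    rfl
  have hFb : ∀ q, (coxF f Δ.ray).F (fun q χ => ψ (c q χ)) q zb = 0 := by
    intro q
    have h3 := Cox.F_map (C := coxF f Δ.ray) (IsLocalRing.residue O) cO q yO
    rw [hFO, map_zero] at h3
    rw [h3]
    congr 1
    funext q χ
    exact (hcb q χ).symm
  let ρ : Finset V := Finset.univ.filter fun v => zb v = 0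
  have hρ : ∀ v, zb v = 0 ↔ v ∈ ρ := fun v => by simp [ρ]
  have hρσ : ρ ⊆ σ := by
    intro v hv
    by_contra hvσ
    have h3 : zb v = 0 := (hρ v).2 hv
    have h4 : yO v = 1 := Subtype.ext (congrArg (fun a : Lˣ => (a : L)) (hy1 v hvσ))
    simp only [zb, h4, map_one] at h3
    exact one_ne_zero h3
  -- descent
  let _ : Algebra F k2 := ψ.toAlgebra
  obtain ⟨s, hs, hsG⟩ := Pool.Agent.Work.Uni.exists_point (k := F) (σ := V) (κ := Q ⊕ ρ)
    (Sum.elim (fun q => (coxF f Δ.ray).P c q) fun v => MvPolynomial.X (v : V))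
    (∏ v ∈ ρᶜ, MvPolynomial.X v) zb (by
      rintro (q | v)
      · change MvPolynomial.aeval zb ((coxF f Δ.ray).P c q) = 0
        rw [ExR.aeval_P]
        exact hFb q
      · change MvPolynomial.aeval zb (MvPolynomial.X (v : V)) = 0
        rw [MvPolynomial.aeval_X]
        exact (hρ _).2 v.2) (by
      rw [map_prod]
      simp only [MvPolynomial.aeval_X]
      exact Finset.prod_ne_zero_iff.2 fun v hv h3 => (Finset.mem_compl.1 hv) ((hρ v).1 h3))
  refine ⟨s, ρ, Δ.down hσ hρσ, fun v => ⟨fun h3 => ?_, fun h3 => ?_⟩, fun q => hs (Sum.inl q)⟩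
  · by_contra h4
    apply hsG
    rw [map_prod]
    exact Finset.prod_eq_zero (Finset.mem_compl.2 h4) (by rw [MvPolynomial.eval_X, h3])
  · have h4 := hs (Sum.inr ⟨v, h3⟩)
    change MvPolynomial.eval s (MvPolynomial.X v) = 0 at h4
    rwa [MvPolynomial.eval_X] at h4

end exi

end Pool.Agent.Work.WRC
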