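import Mathlib
import Pool.Agent.Work.MP_4329d7_ag_wrc.Exi
import Pool.Agent.Work.MP_4329d7_ag_wrc.FanX
import Pool.Agent.Work.MP_4329d7_ag_wrc.NDy
import Pool.Agent.Work.MP_4329d7_ag_wrc.SpzMap
import Pool.Agent.Work.MP_4329d7_ag_ci.ValExt
import Pool.Agent.Work.MP_4329d7_ag_ci.Sub

/-!
W-RC, module NDb: the base of a nondegenerate complete intersection in product form (of the right
dimension) is nondegenerate.

Proof.  Let `y` be a common zero of the initial forms for the weights `b` of the base equations.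
`exi` over an algebraic closure of `ℂ(π)` gives a point `Z` of the toric variety over the point
`y π ^ b` of the base torus; it lies in a finite extension `L` of `ℂ(π)`, take a discrete valuation
of `L` above `π = 0`.  The reduction of the point of `L` in the torus of its stratum is a common zero
of the initial forms of all equations (for the sum of its weights and a large multiple of an interior
vector of the cone of the stratum), so the rows of all equations are independent there.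
-/

namespace Pool.Agent.Work.WRC

open Polynomial Pool.Agent.Work.CI Pool.Agent.Work.Uni

section ini

/-- initial forms of initial forms -/
theorem ndb_ini_ini {d : ℕ} {f : Lau d} (hf : f ≠ 0) (w b : Fin d → ℤ) :
    ∃ M0 : ℤ, ∀ M, M0 ≤ M → ini (b + M • w) f = ini b (ini w f) := by
  classical
  let D : ℤ := ∑ χ ∈ f.support, |pair χ b|
  have hD : ∀ χ ∈ f.support, |pair χ b| ≤ D := fun χ hχ =>
    Finset.single_le_sum (f := fun χ => |pair χ b|) (fun _ _ => abs_nonneg _) hχ
  refine ⟨2 * D + 1, fun M hM => ?_⟩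
  have hw : ∀ χ, pair χ (b + M • w) = pair χ b + M * pair χ w := fun χ => by
    rw [pair_add, pair_smul]
  ext χ
  by_cases hχ : χ ∈ f.support
  swap
  · have h0 : f χ = 0 := Finsupp.notMem_support_iff.1 hχ
    unfold ini
    simp only [Finsupp.filter_apply, h0, ite_self]
  have hD0 : 0 ≤ D := (abs_nonneg _).trans (hD χ hχ)
  have key : (∀ χ' ∈ f.support, pair χ (b + M • w) ≤ pair χ' (b + M • w)) ↔
      (∀ χ' ∈ (ini w f).support, pair χ b ≤ pair χ' b) ∧
        ∀ χ' ∈ f.support, pair χ w ≤ pair χ' w := by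
    constructor
    · intro h
      have h2 : ∀ χ' ∈ f.support, pair χ w ≤ pair χ' w := by
        intro χ' hχ'
        by_contra hlt
        push Not at hlt
        have h3 := h χ' hχ'
        rw [hw, hw] at h3
        have h4 := abs_le.1 (hD χ hχ)
        have h5 := abs_le.1 (hD χ' hχ')
        nlinarith
      refine ⟨fun χ' hχ' => ?_, h2⟩
      obtain ⟨h3, h4⟩ := (nd_ini_support w f hf χ').1 hχ'
      have h5 := h χ' h3
      rw [hw, hw] at h5
      have h6 : pair χ w = pair χ' w :=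
        le_antisymm (h2 χ' h3) (by rw [h4]; exact mn_le hχ w)
      rw [h6] at h5
      linarith
    · rintro ⟨h1, h2⟩ χ' hχ'
      rw [hw, hw]
      rcases (h2 χ' hχ').eq_or_lt with h3 | h3
      · have h4 : χ' ∈ (ini w f).support := by
          rw [nd_ini_support w f hf]
          refine ⟨hχ', le_antisymm ?_ (mn_le hχ' w)⟩
          obtain ⟨χ0, h5, h6⟩ := exists_mn hf w
          rw [← h3, ← h6]
          exact h2 χ0 h5
        have h5 := h1 χ' h4
        rw [h3]
        linarith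
      · have h4 := abs_le.1 (hD χ hχ)
        have h5 := abs_le.1 (hD χ' hχ')
        nlinarith
  have hl : (ini (b + M • w) f) χ =
      if ∀ χ' ∈ f.support, pair χ (b + M • w) ≤ pair χ' (b + M • w) then f χ else 0 := by
    unfold ini
    rw [Finsupp.filter_apply]
  have hr : (ini b (ini w f)) χ =
      if ∀ χ' ∈ (ini w f).support, pair χ b ≤ pair χ' b then
        (if ∀ χ' ∈ f.support, pair χ w ≤ pair χ' w then f χ else 0) else 0 := by
    conv_lhs => unfold ini
    rw [Finsupp.filter_apply]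
    congr 1
  rw [hl, hr]
  by_cases h1 : ∀ χ' ∈ f.support, pair χ (b + M • w) ≤ pair χ' (b + M • w)
  · obtain ⟨h2, h3⟩ := key.1 h1
    rw [if_pos h1, if_pos h2, if_pos h3]
  · rw [if_neg h1]
    by_cases h2 : ∀ χ' ∈ (ini w f).support, pair χ b ≤ pair χ' b
    · rw [if_pos h2, if_neg fun h3 => h1 (key.2 ⟨h2, h3⟩)]
    · rw [if_neg h2]

theorem ndb_ini_ne {d : ℕ} {f : Lau d} (hf : f ≠ 0) (w : Fin d → ℤ) : ini w f ≠ 0 := by
  obtain ⟨χ, hχ, h⟩ := exists_mn hf w
  intro h0
  have h1 : χ ∈ (ini w f).support := (nd_ini_support w f hf χ).2 ⟨hχ, h⟩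
  rw [h0] at h1
  simp at h1

/-- the initial form depends only on the order -/
theorem ndb_ini_congr {d : ℕ} {f : Lau d} {b b' : Fin d → ℤ}
    (h : ∀ χ ∈ f.support, ∀ χ' ∈ f.support, (pair χ b ≤ pair χ' b ↔ pair χ b' ≤ pair χ' b')) :
    ini b f = ini b' f := by
  classical
  ext χ
  unfold ini
  rw [Finsupp.filter_apply, Finsupp.filter_apply]
  by_cases hχ : χ ∈ f.support
  · exact if_congr (forall₂_congr fun χ' hχ' => h χ hχ χ' hχ') rfl rfl
  · rw [Finsupp.notMem_support_iff.1 hχ, ite_self, ite_self]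

/-- the initial form is quasi-homogeneous -/
theorem ndb_ev_hom {F : Type} [Field F] [Algebra ℂ F] {d : ℕ} {f : Lau d} (hf : f ≠ 0)
    (b : Fin d → ℤ) {y u : Fin d → F} {η : F} (hη : η ≠ 0) (h : ∀ j, y j = η ^ b j * u j) :
    ev (ini b f) y = η ^ mn f b * ev (ini b f) u := by
  unfold ev
  rw [Finset.mul_sum]
  refine Finset.sum_congr rfl fun χ hχ => ?_
  rw [nd_mon_factor hη h, ((nd_ini_support b f hf χ).1 hχ).2]
  ring

theorem ndb_ldv_hom {F : Type} [Field F] [Algebra ℂ F] {d : ℕ} {f : Lau d} (hf : f ≠ 0)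
    (b : Fin d → ℤ) {y u : Fin d → F} {η : F} (hη : η ≠ 0) (h : ∀ j, y j = η ^ b j * u j)
    (i : Fin d) : ldv (ini b f) i y = η ^ mn f b * ldv (ini b f) i u := by
  unfold ldv
  rw [Finset.mul_sum]
  refine Finset.sum_congr rfl fun χ hχ => ?_
  rw [nd_mon_factor hη h, ((nd_ini_support b f hf χ).1 hχ).2]
  ring

variable {dB r : ℕ}

theorem ndb_pair_append (u : Fin dB → ℤ) (β : Fin (dB + r) → ℤ) :
    pair (Fin.append u 0 : Fin (dB + r) → ℤ) β = pair u fun i => β (Fin.castAdd r i) := by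
  unfold pair
  rw [Fin.sum_univ_add]
  simp

/-- the initial form of an equation of the base -/
theorem ndb_resL_ini {g : Lau (dB + r)}
    (hg : ∀ χ ∈ g.support, ∀ k : Fin r, χ (Fin.natAdd dB k) = 0) (β : Fin (dB + r) → ℤ) :
    resL (ini β g) = ini (fun i => β (Fin.castAdd r i)) (resL g) := by
  classical
  ext u
  rw [resL_apply]
  unfold ini
  rw [Finsupp.filter_apply, Finsupp.filter_apply, resL_apply]
  refine if_congr ?_ rfl rfl
  constructor
  · intro h u' hu'
    have h1 := h _ ((mem_resL g u').1 hu')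
    rw [ndb_pair_append, ndb_pair_append] at h1
    exact h1
  · intro h χ' hχ'
    have h1 := h (fun i => χ' (Fin.castAdd r i))
      ((mem_resL g _).2 (by rw [append_base (hg χ' hχ')]; exact hχ'))
    rw [← append_base (hg χ' hχ'), ndb_pair_append, ndb_pair_append]
    exact h1

end ini

section val

theorem ndb_zpow {A F : Type*} [CommRing A] [Field F] (ψ : A →+* F) (U : Aˣ) (n : ℤ) :
    ψ ((U ^ n : Aˣ) : A) = ψ U ^ n := by
  have h : ψ ((U ^ n : Aˣ) : A) = ((Units.map (ψ : A →* F) U ^ n : Fˣ) : F) := by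
    rw [← map_zpow]; rfl
  rw [h, Units.val_zpow_eq_zpow_val]
  rfl

/-- the order at `0` of the rational functions -/
theorem ndb_val : ∃ v : Valuation (RatFunc ℂ) (WithZero (Multiplicative ℤ)),
    v RatFunc.X < 1 ∧ ∀ c : ℂ, v (algebraMap ℂ (RatFunc ℂ) c) ≤ 1 := by
  refine ⟨(Polynomial.idealX ℂ).valuation (RatFunc ℂ), ?_, fun c => ?_⟩
  · rw [Polynomial.valuation_X_eq_neg_one]
    exact WithZero.exp_lt_exp.2 (by norm_num)
  · rw [IsScalarTower.algebraMap_apply ℂ (Polynomial ℂ) (RatFunc ℂ)]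
    exact IsDedekindDomain.HeightOneSpectrum.valuation_le_one _ _

end val

section main

variable {n dB r : ℕ} {B Q : Type} [Fintype B] [Fintype Q]
  {K : Type} [Field K] [Algebra ℂ K] {x : Fin (dB + r) → K} {f : B ⊕ Q → Lau (dB + r)}

/-- **The base is nondegenerate** (`resL`). -/
theorem ndbL (T : Tot n dB r B Q x f) {nB : ℕ} (hdim : nB + Fintype.card B = dB)
    (htr : Algebra.trdeg ℂ (KBf x) = nB) : Nondegenerate fun q : B => resL (f (Sum.inl q)) := by
  classical
  intro b y hy hev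
  obtain ⟨V, _, _, Δ, hΔ⟩ := exists_adapted f fun q => T.data.nz _
  -- the point of the base over `ℂ(π)`
  let π : RatFunc ℂ := RatFunc.X
  have hπ : π ≠ 0 := RatFunc.X_ne_zero
  let x0 : Fin (dB + r) → RatFunc ℂ :=
    Fin.append (fun i => algebraMap ℂ (RatFunc ℂ) (y i) * π ^ b i) 1
  let F := AlgebraicClosure (RatFunc ℂ)
  obtain ⟨Z, τ, hτ, hZ, hF⟩ := exi T hdim htr hΔ F
    (fun q χ => algebraMap (RatFunc ℂ) F (cst (fun q => f (Sum.inr q)) x0 q χ))
  -- the finite extension
  let L : IntermediateField (RatFunc ℂ) F := IntermediateField.adjoin (RatFunc ℂ) (Set.range Z)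
  have hess : Algebra.EssFiniteType (RatFunc ℂ) L := IntermediateField.essFiniteType_iff.2
    (IntermediateField.fg_adjoin_of_finite (Set.finite_range _))
  let ZL : V → L := fun v => ⟨Z v, IntermediateField.subset_adjoin _ _ ⟨v, rfl⟩⟩
  let e : RatFunc ℂ →ₐ[ℂ] L := IsScalarTower.toAlgHom ℂ (RatFunc ℂ) L
  let x' : Fin (dB + r) → L := fun j => e (x0 j)
  have hZL : ∀ v, ZL v = 0 ↔ v ∈ τ := fun v => by
    rw [← hZ v]
    exact ⟨fun h => congrArg Subtype.val h, fun h => Subtype.ext h⟩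
  have hFL : ∀ q, (coxF f Δ.ray).F (cst (fun q => f (Sum.inr q)) x') q ZL = 0 := by
    intro q
    apply (algebraMap L F).injective
    rw [Cox.F_map, map_zero, ← hF q]
    congr 1
    funext q χ
    have h1 : cst (fun q => f (Sum.inr q)) x' q χ = e (cst (fun q => f (Sum.inr q)) x0 q χ) :=
      cst_map e _ _ _ _
    rw [h1]
    rfl
  -- the valuation
  obtain ⟨v, hv1, hv2⟩ := ndb_val
  obtain ⟨w, hw⟩ := val_ext (K := L) v
  have hwc : ∀ c : ℂ, w (algebraMap ℂ L c) ≤ 1 := by
    intro c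
    have h1 := (hw (algebraMap ℂ (RatFunc ℂ) c) 1).2 (by rw [map_one]; exact hv2 c)
    rw [map_one, map_one, ← IsScalarTower.algebraMap_apply] at h1
    exact h1
  have hwc1 : ∀ c : ℂ, c ≠ 0 → w (algebraMap ℂ L c) = 1 := by
    intro c hc
    refine le_antisymm (hwc c) ?_
    have h1 := hwc c⁻¹
    rw [map_inv₀, map_inv₀] at h1
    have h2 : w (algebraMap ℂ L c) ≠ 0 := (w.ne_zero_iff).2 ((_root_.map_ne_zero _).2 hc)
    exact (inv_le_one₀ (zero_lt_iff.2 h2)).1 h1
  have heπ : e π ≠ 0 := (map_ne_zero_iff _ e.injective).2 hπ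
  have hwπ : w (e π) < 1 := by
    rw [← not_le]
    intro h1
    have h2 := (hw 1 π).1 (by rw [map_one, map_one]; exact h1)
    rw [map_one] at h2
    exact absurd hv1 (not_lt.2 h2)
  obtain ⟨t, ht0, ht1, htmax⟩ :=
    Pool.Agent.Work.MP_4329d7_ag_sq.exists_uniformizer w heπ hwπ
  obtain ⟨N, η, hη1, hηπ⟩ :=
    Pool.Agent.Work.MP_4329d7_ag.FF.repdet_exists_zpow w ht0 ht1 htmax heπ
  have hwt0 : w t ≠ 0 := (w.ne_zero_iff).2 ht0
  have hN : 0 < N := by
    by_contra hneg
    push Not at hneg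
    obtain ⟨m, hm⟩ : ∃ m : ℕ, N = -m := ⟨(-N).toNat, by omega⟩
    have h1 : w (e π) = (w t ^ m)⁻¹ := by
      rw [hηπ, map_mul, hη1, mul_one, map_zpow₀, hm, zpow_neg, zpow_natCast]
    have h2 : w t ^ m ≤ 1 := pow_le_one₀ zero_le ht1.le
    have h3 : 1 ≤ w (e π) := by
      rw [h1]
      exact (one_le_inv₀ (zero_lt_iff.2 (pow_ne_zero _ hwt0))).2 h2
    exact absurd hwπ (not_lt.2 h3)
  have hη0 : η ≠ 0 := by
    rintro rfl
    rw [map_zero] at hη1
    exact zero_ne_one hη1
  -- the point of the torus of the stratum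
  have hx'l : ∀ i : Fin dB, x' (Fin.castAdd r i) = algebraMap ℂ L (y i) * e π ^ b i := by
    intro i
    have h1 : x0 (Fin.castAdd r i) = algebraMap ℂ (RatFunc ℂ) (y i) * π ^ b i :=
      Fin.append_left _ _ i
    show e (x0 (Fin.castAdd r i)) = _
    rw [h1, map_mul, map_zpow₀, AlgHom.commutes]
  have hx'r : ∀ k : Fin r, x' (Fin.natAdd dB k) = 1 := by
    intro k
    have h1 : x0 (Fin.natAdd dB k) = 1 := by
      show Fin.append _ _ (Fin.natAdd dB k) = _
      rw [Fin.append_right]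
      rfl
    show e (x0 (Fin.natAdd dB k)) = _
    rw [h1, map_one]
  have hyL : ∀ i, algebraMap ℂ L (y i) ≠ 0 := fun i => (_root_.map_ne_zero _).2 (hy i)
  have hx'0 : ∀ j, x' j ≠ 0 := by
    intro j
    refine Fin.addCases (fun i => ?_) (fun k => ?_) j
    · rw [hx'l]
      exact mul_ne_zero (hyL i) (zpow_ne_zero _ heπ)
    · rw [hx'r]
      exact one_ne_zero
  let p : Fin (dB + r) → L := cpt Δ.ray x' ZL τ
  have hp0 : ∀ j, p j ≠ 0 := cpt_ne hx'0 hZL
  choose nn ee hee1 hee2 using fun k : Fin r =>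
    Pool.Agent.Work.MP_4329d7_ag.FF.repdet_exists_zpow w ht0 ht1 htmax (hp0 (Fin.natAdd dB k))
  let β : Fin (dB + r) → ℤ := Fin.append (fun i => N * b i) nn
  let u : Fin (dB + r) → L := Fin.append (fun i => algebraMap ℂ L (y i) * η ^ b i) ee
  have hβl : ∀ i : Fin dB, β (Fin.castAdd r i) = N * b i := fun i => Fin.append_left _ _ i
  have hβr : ∀ k : Fin r, β (Fin.natAdd dB k) = nn k := fun k => Fin.append_right _ _ k
  have hul : ∀ i : Fin dB, u (Fin.castAdd r i) = algebraMap ℂ L (y i) * η ^ b i :=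
    fun i => Fin.append_left _ _ i
  have hur : ∀ k : Fin r, u (Fin.natAdd dB k) = ee k := fun k => Fin.append_right _ _ k
  have hu : ∀ j, w (u j) = 1 := by
    intro j
    refine Fin.addCases (fun i => ?_) (fun k => ?_) j
    · rw [hul, map_mul, map_zpow₀, hη1, one_zpow, mul_one, hwc1 _ (hy i)]
    · rw [hur, hee1]
  have hpu : ∀ j, p j = t ^ β j * u j := by
    intro j
    refine Fin.addCases (fun i => ?_) (fun k => ?_) j
    · show cpt Δ.ray x' ZL τ (Fin.castAdd r i) = _
      rw [cpt_castAdd, hx'l, hβl, hul, hηπ, mul_zpow, ← zpow_mul]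
      ring
    · rw [hβr, hur]
      exact hee2 k
  have hlt : ∀ χ χ' : Fin (dB + r) → ℤ, pair χ β < pair χ' β →
      w t ^ (pair χ' β - pair χ β) < 1 := by
    intro χ χ' h
    obtain ⟨k, hk⟩ : ∃ k : ℕ, pair χ' β - pair χ β = k :=
      ⟨(pair χ' β - pair χ β).toNat, by omega⟩
    rw [hk, zpow_natCast]
    exact pow_lt_one₀ zero_le ht1 (by omega)
  obtain ⟨R, _, _, ρ, hρ0, hρc⟩ := nd_reduction w hwc
  let Y : Fin (dB + r) → R := fun j => ρ ⟨u j, (hu j).le⟩
  have hY : ∀ j, Y j ≠ 0 := by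
    intro j h
    have h1 := (hρ0 _).1 h
    have h2 : w (u j) < 1 := h1
    rw [hu j] at h2
    exact lt_irrefl _ h2
  let W : Fin (dB + r) → ℤ := ∑ v ∈ τ, fibv (Δ.ray v)
  have hevL : ∀ q, ev (ini W (f (Sum.inr q))) p = 0 := by
    intro q
    obtain ⟨χ₀, h₀, h⟩ := hΔ τ hτ q
    have h1 := ev_ini_cpt (f := f) (ray := Δ.ray) (x' := x') hZL h₀ h
    rw [hFL, mul_zero] at h1
    exact h1
  have hgen : ∀ g : Lau (dB + r), g ≠ 0 → ev g p = 0 → ev (ini β g) Y = 0 := by
    intro g hg h
    obtain ⟨z, hz1, hz2⟩ := nd_red_gsum w hwc ρ hρ0 hρc ht0 hu hpu hlt g g hg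
    rw [← ev_gsum, h, mul_zero] at hz1
    rw [nd_ev_ini, ← hz2, show z = 0 from Subtype.ext hz1, map_zero]
  -- the weights
  choose M0 hM0 using fun q : Q => ndb_ini_ini (T.data.nz (Sum.inr q)) W β
  let M : ℤ := ∑ q, |M0 q|
  have hM : ∀ q, M0 q ≤ M := fun q => (le_abs_self _).trans
    (Finset.single_le_sum (f := fun q => |M0 q|) (fun _ _ => abs_nonneg _) (Finset.mem_univ q))
  let ω : Fin (dB + r) → ℤ := β + M • W
  have hωr : ∀ q : Q, ini ω (f (Sum.inr q)) = ini β (ini W (f (Sum.inr q))) :=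
    fun q => hM0 q M (hM q)
  have hωl : ∀ q : B, ini ω (f (Sum.inl q)) = ini β (f (Sum.inl q)) := by
    intro q
    have h1 : ∀ χ ∈ (f (Sum.inl q)).support, pair χ W = 0 := by
      intro χ hχ
      show pair χ (∑ v ∈ τ, fibv (Δ.ray v)) = 0
      rw [pair_sum]
      refine Finset.sum_eq_zero fun v _ => ?_
      rw [ndx_pair_fibv]
      exact Finset.sum_eq_zero fun k _ => by rw [T.base q χ hχ k, zero_mul]
    refine ndb_ini_congr fun χ hχ χ' hχ' => ?_
    show pair χ (β + M • W) ≤ pair χ' (β + M • W) ↔ _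
    rw [pair_add, pair_smul, pair_add, pair_smul, h1 χ hχ, h1 χ' hχ', mul_zero, add_zero,
      add_zero]
  -- the base
  let η' : R := ρ ⟨η, hη1.le⟩
  have hη' : η' ≠ 0 := by
    intro h
    have h2 : w η < 1 := (hρ0 _).1 h
    rw [hη1] at h2
    exact lt_irrefl _ h2
  have hYl : ∀ i : Fin dB, Y (Fin.castAdd r i) = η' ^ b i * algebraMap ℂ R (y i) := by
    intro i
    let U : (w.integer)ˣ :=
      { val := ⟨η, hη1.le⟩
        inv := ⟨η⁻¹, by
          show w η⁻¹ ≤ 1
          rw [map_inv₀, hη1, inv_one]⟩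
        val_inv := Subtype.ext (mul_inv_cancel₀ hη0)
        inv_val := Subtype.ext (inv_mul_cancel₀ hη0) }
    have h1 : (((U ^ b i : (w.integer)ˣ) : w.integer) : L) = η ^ b i :=
      ndb_zpow w.integer.subtype U (b i)
    have h2 : ρ ((U ^ b i : (w.integer)ˣ) : w.integer) = η' ^ b i := ndb_zpow ρ U (b i)
    have h3 : (⟨u (Fin.castAdd r i), (hu _).le⟩ : w.integer) =
        ((U ^ b i : (w.integer)ˣ) : w.integer) * ⟨algebraMap ℂ L (y i), hwc _⟩ := by
      apply Subtype.ext
      rw [Subring.coe_mul, h1]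
      show u (Fin.castAdd r i) = _
      rw [hul, mul_comm]
    show ρ ⟨u (Fin.castAdd r i), _⟩ = _
    rw [h3, map_mul, h2, hρc]
  have hbase : ∀ q : B, ∀ χ ∈ (ini β (f (Sum.inl q))).support, ∀ k : Fin r,
      χ (Fin.natAdd dB k) = 0 := fun q χ hχ k =>
    T.base q χ ((nd_ini_support β _ (T.data.nz _) χ).1 hχ).1 k
  have hnzB : ∀ q : B, resL (f (Sum.inl q)) ≠ 0 := by
    intro q h
    obtain ⟨χ, hχ⟩ := Finsupp.support_nonempty_iff.2 (T.data.nz (Sum.inl q))
    have h1 : (fun i => χ (Fin.castAdd r i)) ∈ (resL (f (Sum.inl q))).support :=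
      (mem_resL _ _).2 (by rw [append_base (T.base q χ hχ)]; exact hχ)
    rw [h] at h1
    simp at h1
  have hres : ∀ q : B, resL (ini β (f (Sum.inl q))) = ini b (resL (f (Sum.inl q))) := by
    intro q
    rw [ndb_resL_ini (T.base q)]
    refine ndb_ini_congr fun χ _ χ' _ => ?_
    have h1 : (fun i => β (Fin.castAdd r i)) = N • b := funext fun i => hβl i
    rw [h1, pair_smul, pair_smul]
    exact mul_le_mul_iff_right₀ hN
  have hevl : ∀ q : B, ev (ini ω (f (Sum.inl q))) Y = 0 := by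
    intro q
    rw [hωl, ← ev_resL (hbase q), hres,
      ndb_ev_hom (hnzB q) b hη' (u := fun i => algebraMap ℂ R (y i)) hYl, ← sub_map_ev, hev q,
      map_zero, mul_zero]
  have hldl : ∀ (q : B) (i : Fin dB), ldv (ini ω (f (Sum.inl q))) (Fin.castAdd r i) Y =
      η' ^ mn (resL (f (Sum.inl q))) b * algebraMap ℂ R (ldv (ini b (resL (f (Sum.inl q)))) i y) := by
    intro q i
    rw [hωl, ← ldv_resL (hbase q), hres,
      ndb_ldv_hom (hnzB q) b hη' (u := fun i => algebraMap ℂ R (y i)) hYl, ← sub_map_ldv]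
  have hldr : ∀ (q : B) (k : Fin r), ldv (ini ω (f (Sum.inl q))) (Fin.natAdd dB k) Y = 0 := by
    intro q k
    rw [hωl]
    exact ldv_base_natAdd (hbase q) _ _
  rw [Fintype.linearIndependent_iff]
  intro g hg q0
  have key := nd_ext T.nd ω hY (by
    rintro (q | q)
    · exact hevl q
    · rw [hωr]
      exact hgen _ (ndb_ini_ne (T.data.nz _) _) (hevL q))
    (α := Sum.elim (fun q => algebraMap ℂ R (g q) * η' ^ (-mn (resL (f (Sum.inl q))) b)) 0) (by
    intro j
    rw [Fintype.sum_sum_type]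
    simp only [Sum.elim_inl, Sum.elim_inr, Pi.zero_apply, zero_mul, Finset.sum_const_zero,
      add_zero]
    refine Fin.addCases (fun i => ?_) (fun k => ?_) j
    · have h1 : ∀ q : B, algebraMap ℂ R (g q) * η' ^ (-mn (resL (f (Sum.inl q))) b) *
          ldv (ini ω (f (Sum.inl q))) (Fin.castAdd r i) Y =
          algebraMap ℂ R (g q * ldv (ini b (resL (f (Sum.inl q)))) i y) := by
        intro q
        rw [hldl, zpow_neg, map_mul]
        have := zpow_ne_zero (mn (resL (f (Sum.inl q))) b) hη'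
        field_simp
      rw [Finset.sum_congr rfl fun q _ => h1 q, ← map_sum]
      have h2 := congrFun hg i
      rw [Finset.sum_apply, Pi.zero_apply] at h2
      have h3 : ∑ q, g q * ldv (ini b (resL (f (Sum.inl q)))) i y = 0 := h2
      rw [h3, map_zero]
    · exact Finset.sum_eq_zero fun q _ => by rw [hldr, mul_zero])
  have h1 := congrFun key (Sum.inl q0)
  simp only [Sum.elim_inl, Pi.zero_apply] at h1
  exact (map_eq_zero _).1 ((mul_eq_zero.1 h1).resolve_right (zpow_ne_zero _ hη'))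

/-- **The base is nondegenerate.** -/
theorem ndb (T : Tot n dB r B Q x f) {nB : ℕ} (htr : Algebra.trdeg ℂ (KBf x) = nB)
    (hn : nB + Fintype.card B = dB) : Nondegenerate fun q : B => resB (f (Sum.inl q)) := by
  rw [resB_eq' T]
  exact ndbL T hn htr

/-- the data of the base -/
theorem data_base (T : Tot n dB r B Q x f) {nB : ℕ} (htr : Algebra.trdeg ℂ (KBf x) = nB)
    (hn : nB + Fintype.card B = dB) :
    Data (KBf x) nB dB B (xB x) fun q => resB (f (Sum.inl q)) := by
  refine data_of_nondegenerate (ndb T htr hn) (fun i => ?_) ?_ (fun q => ?_) htr hn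
  · intro h
    exact T.data.ne (Fin.castAdd r i) (congrArg Subtype.val h)
  · have h1 : (IntermediateField.adjoin ℂ (Set.range (xB x))).map (KBf x).val = KBf x := by
      rw [IntermediateField.adjoin_map]
      unfold KBf
      congr 1
      rw [← Set.range_comp]
      rfl
    apply IntermediateField.map_injective (KBf x).val
    rw [h1, ← AlgHom.fieldRange_eq_map, IntermediateField.fieldRange_val]
  · rw [resB_eq (T.base q)]
    apply (algebraMap (KBf x) K).injective
    rw [sub_map_ev, map_zero, ← T.data.eq (Sum.inl q), ← ev_resL (T.base q)]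
    rfl

end main

end Pool.Agent.Work.WRC
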