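import Mathlib
import Pool.Agent.Work.MP_4329d7_ag_wrc.FanX
import Pool.Agent.Work.MP_4329d7_ag_wrc.Spz

/-!
W-RC, RED and SCALE: definitions.

* `SpO P Δ σ x τ z`: for a place `P : Plc F κ` the point `x` (over `F`) of the orbit of the cone `σ`
  specialises to the point `z` (over `κ`) of the orbit of the cone `τ`; `LimInf Δ` is
  `SpO (plcInf k) Δ` (`limInf_iff`), and `LimAt Δ a` is `SpO (plcAt a) Δ`;
* `plcAt a`: the place of `k(X)` at `X = a`; `rplc O`: the place of a valuation ring; `gplc O`: the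
  Gauss place of `L(X)`;
* `yat t b s`, `yth t b θ`: the value at `s` and the rescaling `X ↦ θ X` of the curve
  `∏ i, (X - t i) ^ b i`;
* `FanV.fnl`: the finite set of functionals of the fan; `Crit O Δ t b s`: the value of `s` is
  critical; `NoCrit`.
-/

namespace Pool.Agent.Work.WRC

open Polynomial Pool.Agent.Work.CI Pool.Agent.Work.CW

section spo

variable {F κ : Type} [Field F] [Field κ]

/-- the valuation ring of a place -/
def plcRing (P : Plc F κ) : ValuationSubring F where
  carrier := {x | ∃ y, P.S x y}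
  mul_mem' := by
    rintro a b ⟨y, hy⟩ ⟨z, hz⟩
    exact ⟨y * z, P.mul hy hz⟩
  one_mem' := ⟨1, P.one⟩
  add_mem' := by
    rintro a b ⟨y, hy⟩ ⟨z, hz⟩
    exact ⟨y + z, P.add hy hz⟩
  zero_mem' := ⟨0, P.zero⟩
  neg_mem' := by
    rintro a ⟨y, hy⟩
    exact ⟨-y, P.neg hy⟩
  mem_or_inv_mem' := by
    intro x
    rcases P.tot x with h | h
    · exact Or.inl h
    · exact Or.inr ⟨0, h⟩

/-- The point `x` of the orbit of `σ` specialises to the point `z` of the orbit of `τ`. -/
def SpO {V : Type} [Fintype V] [DecidableEq V] {r : ℕ} (P : Plc F κ) (Δ : FanV V r)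
    (σ : Finset V) (x : Fin r → F) (τ : Finset V) (z : Fin r → κ) : Prop :=
  Δ.cone τ ∧ σ ⊆ τ ∧ ∃ g : V → F, (∀ v, g v ≠ 0) ∧ (∀ v, v ∉ τ → g v = 1) ∧
    (∀ v ∈ τ, v ∉ σ → P.S (g v) 0) ∧
    ∀ j, z j ≠ 0 ∧ P.S (x j * ∏ v, g v ^ (-Δ.ray v j)) (z j)

theorem limInf_iff {V : Type} [Fintype V] [DecidableEq V] {r : ℕ} (Δ : FanV V r) {k : Type}
    [Field k] (σ : Finset V) (y : Fin r → RatFunc k) (τ : Finset V) (z : Fin r → k) :
    LimInf Δ σ y τ z ↔ SpO (plcInf k) Δ σ y τ z := Iff.rfl

end spo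

section places

/-- `f` has the value `c` at `a` -/
def AtV {k : Type} [Field k] (a : k) (f : RatFunc k) (c : k) : Prop :=
  ∃ p q : k[X], q.eval a ≠ 0 ∧ p.eval a = c * q.eval a ∧
    f = algebraMap k[X] (RatFunc k) p / algebraMap k[X] (RatFunc k) q

theorem atV_ne {k : Type} [Field k] {a : k} {q : k[X]} (h : q.eval a ≠ 0) :
    algebraMap k[X] (RatFunc k) q ≠ 0 := by
  refine inf_ne ?_
  rintro rfl
  exact h eval_zero

/-- the place at `a` -/
def plcAt {k : Type} [Field k] (a : k) : Plc (RatFunc k) k where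
  S := AtV a
  one := ⟨1, 1, by simp, by simp, by simp⟩
  add := by
    rintro x x' y y' ⟨p, q, hq, hp, rfl⟩ ⟨p', q', hq', hp', rfl⟩
    refine ⟨p * q' + p' * q, q * q', ?_, ?_, ?_⟩
    · rw [eval_mul]
      exact mul_ne_zero hq hq'
    · rw [eval_add, eval_mul, eval_mul, eval_mul, hp, hp']
      ring
    · have h1 := atV_ne hq
      have h2 := atV_ne hq'
      rw [map_add, map_mul, map_mul, map_mul]
      field_simp
  mul := by
    rintro x x' y y' ⟨p, q, hq, hp, rfl⟩ ⟨p', q', hq', hp', rfl⟩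
    refine ⟨p * p', q * q', ?_, ?_, ?_⟩
    · rw [eval_mul]
      exact mul_ne_zero hq hq'
    · rw [eval_mul, eval_mul, hp, hp']
      ring
    · rw [map_mul, map_mul]
      exact div_mul_div_comm _ _ _ _
  neg := by
    rintro x y ⟨p, q, hq, hp, rfl⟩
    refine ⟨-p, q, hq, ?_, ?_⟩
    · rw [eval_neg, hp, neg_mul]
    · rw [map_neg, neg_div]
  uniq := by
    rintro x y y' ⟨p, q, hq, hp, rfl⟩ ⟨p', q', hq', hp', h⟩
    have h1 := atV_ne hq
    have h2 := atV_ne hq'
    rw [div_eq_div_iff h1 h2, ← map_mul, ← map_mul] at h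
    have h3 := IsFractionRing.injective k[X] (RatFunc k) h
    have h4 := congrArg (Polynomial.eval a) h3
    rw [eval_mul, eval_mul, hp, hp'] at h4
    have h5 : (y - y') * (q.eval a * q'.eval a) = 0 := by linear_combination h4
    rcases mul_eq_zero.1 h5 with h6 | h6
    · exact sub_eq_zero.1 h6
    · exact absurd h6 (mul_ne_zero hq hq')
  tot := by
    intro x
    obtain ⟨p, q, hcop, hq, rfl⟩ : ∃ p q : k[X], IsCoprime p q ∧ q ≠ 0 ∧
        x = algebraMap k[X] (RatFunc k) p / algebraMap k[X] (RatFunc k) q :=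
      ⟨x.num, x.denom, x.isCoprime_num_denom, x.denom_ne_zero, (RatFunc.num_div_denom x).symm⟩
    by_cases h : q.eval a = 0
    · right
      have h1 : p.eval a ≠ 0 := by
        intro h2
        obtain ⟨u, v, huv⟩ := hcop
        have h3 := congrArg (Polynomial.eval a) huv
        rw [eval_add, eval_mul, eval_mul, h, h2, mul_zero, mul_zero, add_zero, eval_one] at h3
        exact one_ne_zero h3.symm
      exact ⟨q, p, h1, by rw [h, zero_mul], by rw [inv_div]⟩
    · left
      exact ⟨p.eval a / q.eval a, p, q, h, by rw [div_mul_cancel₀ _ h], rfl⟩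

/-- The point at `X = a` of the section `y` of the orbit of `σ` is the point `z` of the orbit of
`τ`. -/
def LimAt {V : Type} [Fintype V] [DecidableEq V] {r : ℕ} (Δ : FanV V r) {k : Type} [Field k]
    (a : k) (σ : Finset V) (y : Fin r → RatFunc k) (τ : Finset V) (z : Fin r → k) : Prop :=
  SpO (plcAt a) Δ σ y τ z

variable {L : Type} [Field L] (O : ValuationSubring L)

/-- the place of a valuation ring -/
def rplc : Plc L (IsLocalRing.ResidueField O) where
  S x y := ∃ hx : x ∈ O, IsLocalRing.residue O ⟨x, hx⟩ = y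
  one := ⟨O.one_mem, map_one _⟩
  add := by
    rintro x x' y y' ⟨h1, h2⟩ ⟨h1', h2'⟩
    exact ⟨O.add_mem _ _ h1 h1', by rw [← h2, ← h2', ← map_add]; rfl⟩
  mul := by
    rintro x x' y y' ⟨h1, h2⟩ ⟨h1', h2'⟩
    exact ⟨O.mul_mem _ _ h1 h1', by rw [← h2, ← h2', ← map_mul]; rfl⟩
  neg := by
    rintro x y ⟨h1, h2⟩
    exact ⟨O.neg_mem _ h1, by rw [← h2, ← map_neg]; rfl⟩
  uniq := by
    rintro x y y' ⟨h1, h2⟩ ⟨h1', h2'⟩
    exact h2.symm.trans h2'
  tot := by
    intro x
    by_cases hx : x ∈ O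
    · exact Or.inl ⟨_, hx, rfl⟩
    · right
      have hx' : x⁻¹ ∈ O := (O.mem_or_inv_mem x).resolve_left hx
      refine ⟨hx', ?_⟩
      rw [IsLocalRing.residue_eq_zero_iff, O.valuation_lt_one_iff]
      exact O.mem_nonunits_iff.1 ((O.inv_mem_nonunits_iff).2 (Or.inr hx))

/-- the Gauss specialisation -/
def GS (x : RatFunc L) (y : RatFunc (IsLocalRing.ResidueField O)) : Prop :=
  ∃ p q : O[X], q.map (IsLocalRing.residue O) ≠ 0 ∧
    x = algebraMap L[X] (RatFunc L) (p.map (algebraMap O L)) /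
      algebraMap L[X] (RatFunc L) (q.map (algebraMap O L)) ∧
    y = algebraMap _ (RatFunc (IsLocalRing.ResidueField O)) (p.map (IsLocalRing.residue O)) /
      algebraMap _ (RatFunc (IsLocalRing.ResidueField O)) (q.map (IsLocalRing.residue O))

theorem GS.den {q : O[X]} (h : q.map (IsLocalRing.residue O) ≠ 0) :
    algebraMap L[X] (RatFunc L) (q.map (algebraMap O L)) ≠ 0 := by
  refine inf_ne ?_
  rw [Ne, Polynomial.map_eq_zero_iff (IsFractionRing.injective O L)]
  rintro rfl
  exact h (Polynomial.map_zero _)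

theorem GS.tot (x : RatFunc L) : (∃ y, GS O x y) ∨ GS O x⁻¹ 0 := by
  classical
  obtain ⟨p, q, hq, rfl⟩ : ∃ p q : L[X], q ≠ 0 ∧
      x = algebraMap L[X] (RatFunc L) p / algebraMap L[X] (RatFunc L) q :=
    ⟨x.num, x.denom, x.denom_ne_zero, (RatFunc.num_div_denom x).symm⟩
  -- a coefficient of maximal value
  let S : Finset L := (p.support.image p.coeff) ∪ (q.support.image q.coeff)
  have hS : S.Nonempty := by
    obtain ⟨i, hi⟩ := (Polynomial.support_nonempty.2 hq)
    exact ⟨q.coeff i, Finset.mem_union_right _ (Finset.mem_image_of_mem _ hi)⟩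
  obtain ⟨c, hc, hmax⟩ := Finset.exists_max_image S (fun c => O.valuation c) hS
  have hc0 : c ≠ 0 := by
    rcases Finset.mem_union.1 hc with h | h
    · obtain ⟨i, hi, rfl⟩ := Finset.mem_image.1 h
      exact mem_support_iff.1 hi
    · obtain ⟨i, hi, rfl⟩ := Finset.mem_image.1 h
      exact mem_support_iff.1 hi
  have hle : ∀ (f : L[X]), (∀ i ∈ f.support, f.coeff i ∈ S) → ∀ i, c⁻¹ * f.coeff i ∈ O := by
    intro f hf i
    by_cases hi : i ∈ f.support
    · rw [← O.valuation_le_one_iff, map_mul, map_inv₀]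
      have h1 := hmax _ (hf i hi)
      have h2 : O.valuation c ≠ 0 := (O.valuation.ne_zero_iff).2 hc0
      calc (O.valuation c)⁻¹ * O.valuation (f.coeff i) ≤ (O.valuation c)⁻¹ * O.valuation c :=
            mul_le_mul_right h1 _
        _ = 1 := inv_mul_cancel₀ h2
    · rw [notMem_support_iff.1 hi, mul_zero]
      exact O.zero_mem
  have hlift : ∀ (f : L[X]), (∀ i, c⁻¹ * f.coeff i ∈ O) →
      ∃ g : O[X], g.map (algebraMap O L) = C c⁻¹ * f := by
    intro f hf
    refine ⟨∑ i ∈ f.support, monomial i ⟨c⁻¹ * f.coeff i, hf i⟩, ?_⟩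
    rw [Polynomial.map_sum]
    conv_rhs => rw [f.as_sum_support, Finset.mul_sum]
    refine Finset.sum_congr rfl fun i _ => ?_
    rw [map_monomial, C_mul_monomial]
    rfl
  obtain ⟨p', hp'⟩ := hlift p (hle p fun i hi =>
    Finset.mem_union_left _ (Finset.mem_image_of_mem _ hi))
  obtain ⟨q', hq'⟩ := hlift q (hle q fun i hi =>
    Finset.mem_union_right _ (Finset.mem_image_of_mem _ hi))
  have hCc : algebraMap L[X] (RatFunc L) (C c⁻¹) ≠ 0 := inf_ne (by
    rw [Ne, Polynomial.C_eq_zero]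
    exact inv_ne_zero hc0)
  have hx : algebraMap L[X] (RatFunc L) p / algebraMap L[X] (RatFunc L) q =
      algebraMap L[X] (RatFunc L) (p'.map (algebraMap O L)) /
      algebraMap L[X] (RatFunc L) (q'.map (algebraMap O L)) := by
    rw [hp', hq', map_mul, map_mul, mul_div_mul_left _ _ hCc]
  -- one of the two has nonzero reduction
  have hone : ∀ (f : L[X]) (g : O[X]), g.map (algebraMap O L) = C c⁻¹ * f → ∀ i,
      f.coeff i = c → g.map (IsLocalRing.residue O) ≠ 0 := by
    intro f g hg i hi h0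
    have h1 := congrArg (fun r => r.coeff i) hg
    simp only [coeff_map, coeff_C_mul] at h1
    rw [hi, inv_mul_cancel₀ hc0] at h1
    have h2 : g.coeff i = 1 := IsFractionRing.injective O L (by rw [h1, map_one])
    have h3 := congrArg (fun r => r.coeff i) h0
    simp only [coeff_map, coeff_zero] at h3
    rw [h2, map_one] at h3
    exact one_ne_zero h3
  by_cases hq0 : q'.map (IsLocalRing.residue O) = 0
  · have hp0 : p'.map (IsLocalRing.residue O) ≠ 0 := by
      rcases Finset.mem_union.1 hc with h | h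
      · obtain ⟨i, hi, hi2⟩ := Finset.mem_image.1 h
        exact hone p p' hp' i hi2
      · obtain ⟨i, hi, hi2⟩ := Finset.mem_image.1 h
        exact absurd hq0 (hone q q' hq' i hi2)
    right
    refine ⟨q', p', hp0, ?_, ?_⟩
    · rw [hx, inv_div]
    · rw [hq0, map_zero, zero_div]
  · left
    exact ⟨_, p', q', hq0, hx, rfl⟩

/-- the Gauss place -/
def gplc : Plc (RatFunc L) (RatFunc (IsLocalRing.ResidueField O)) where
  S := GS O
  one := ⟨1, 1, by simp, by simp, by simp⟩
  add := by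
    rintro x x' y y' ⟨p, q, hq, rfl, rfl⟩ ⟨p', q', hq', rfl, rfl⟩
    refine ⟨p * q' + p' * q, q * q', ?_, ?_, ?_⟩
    · rw [Polynomial.map_mul]
      exact mul_ne_zero hq hq'
    · have h1 := GS.den O hq
      have h2 := GS.den O hq'
      simp only [Polynomial.map_add, Polynomial.map_mul, map_add, map_mul]
      field_simp
    · have h1 := inf_ne hq
      have h2 := inf_ne hq'
      simp only [Polynomial.map_add, Polynomial.map_mul, map_add, map_mul]
      field_simp
  mul := by
    rintro x x' y y' ⟨p, q, hq, rfl, rfl⟩ ⟨p', q', hq', rfl, rfl⟩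
    refine ⟨p * p', q * q', ?_, ?_, ?_⟩
    · rw [Polynomial.map_mul]
      exact mul_ne_zero hq hq'
    · simp only [Polynomial.map_mul, map_mul]
      exact div_mul_div_comm _ _ _ _
    · simp only [Polynomial.map_mul, map_mul]
      exact div_mul_div_comm _ _ _ _
  neg := by
    rintro x y ⟨p, q, hq, rfl, rfl⟩
    refine ⟨-p, q, hq, ?_, ?_⟩
    · rw [Polynomial.map_neg, map_neg]
      exact (neg_div _ _).symm
    · rw [Polynomial.map_neg, map_neg]
      exact (neg_div _ _).symm
  uniq := by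
    rintro x y y' ⟨p, q, hq, rfl, rfl⟩ ⟨p', q', hq', h, rfl⟩
    have h1 := GS.den O hq
    have h2 := GS.den O hq'
    rw [div_eq_div_iff h1 h2, ← map_mul, ← map_mul, ← Polynomial.map_mul,
      ← Polynomial.map_mul] at h
    have h3 := Polynomial.map_injective _ (IsFractionRing.injective O L)
      (IsFractionRing.injective L[X] (RatFunc L) h)
    have h4 := congrArg (Polynomial.map (IsLocalRing.residue O)) h3
    rw [div_eq_div_iff (inf_ne hq) (inf_ne hq'), ← map_mul, ← map_mul, ← Polynomial.map_mul,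
      ← Polynomial.map_mul, h4]
  tot := GS.tot O

end places

section curve

variable {L : Type} [Field L] {I : Type} [Fintype I] {r : ℕ}

/-- the value at `s` of the curve `∏ i, (X - t i) ^ b i` -/
def yat (t : I → L) (b : I → Fin r → ℤ) (s : L) (j : Fin r) : L :=
  ∏ i, (s - t i) ^ b i j

/-- the curve `∏ i, (X - t i) ^ b i` after the substitution `X ↦ θ X` -/
noncomputable def yth (t : I → L) (b : I → Fin r → ℤ) (θ : L) (j : Fin r) : RatFunc L :=
  ∏ i, (RatFunc.C θ * RatFunc.X - RatFunc.C (t i)) ^ b i j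

/-- the functionals of the fan -/
noncomputable def FanV.fnl {V : Type} [Fintype V] [DecidableEq V] (Δ : FanV V r) :
    Finset (Fin r → ℤ) := by
  classical
  exact Finset.univ.biUnion fun τ : Finset V => if h : Δ.cone τ then
    (Finset.univ.image fun v => (Δ.unim τ h).choose v) ∪
    (Finset.univ.image fun j => Pi.single j 1 - ∑ v ∈ τ, Δ.ray v j • (Δ.unim τ h).choose v)
  else ∅

/-- the value of `s` is critical for the curve `∏ i, (X - t i) ^ b i` -/
def Crit {V : Type} [Fintype V] [DecidableEq V] (O : ValuationSubring L) (Δ : FanV V r)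
    (t : I → L) (b : I → Fin r → ℤ) (s : L) : Prop :=
  (∃ i, O.valuation (t i) = O.valuation s) ∨
    ∃ (J : Finset I) (m : Fin r → ℤ), m ∈ Δ.fnl ∧ (∀ i ∈ J, t i ≠ 0) ∧
      ∑ j, m j * (∑ i, b i j - ∑ i ∈ J, b i j) ≠ 0 ∧
      O.valuation (s ^ (∑ j, m j * (∑ i, b i j - ∑ i ∈ J, b i j)) *
        ∏ i ∈ J, (-t i) ^ (∑ j, m j * b i j)) = 1

end curve

end Pool.Agent.Work.WRC
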