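import Mathlib
import Pool.Agent.Work.MP_4329d7_ag_wrc.RedDefs

/-!
W-RC, CHAIN: the critical values are finite in number; the chain principle.
-/

namespace Pool.Agent.Work.WRC

open Polynomial Pool.Agent.Work.CI Pool.Agent.Work.CW

variable {L : Type} [Field L] (O : ValuationSubring L) {I : Type} [Fintype I] {r : ℕ}
  {V : Type} [Fintype V] [DecidableEq V] (Δ : FanV V r) (t : I → L) (b : I → Fin r → ℤ)

theorem val_zpow_inj {Γ : Type*} [LinearOrderedCommGroupWithZero Γ] {c c' : Γ} (hc : c ≠ 0)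
    (hc' : c' ≠ 0) {N : ℤ} (hN : N ≠ 0) (h : c ^ N = c' ^ N) : c = c' := by
  have h1 : (Units.mk0 c hc) ^ N = (Units.mk0 c' hc') ^ N := by
    ext
    rw [Units.val_zpow_eq_zpow_val, Units.val_zpow_eq_zpow_val]
    exact h
  have h2 := zpow_left_injective hN h1
  exact congrArg Units.val h2

theorem Crit.congr {s s' : L} (h : O.valuation s = O.valuation s') (hs : Crit O Δ t b s) :
    Crit O Δ t b s' := by
  rcases hs with ⟨i, hi⟩ | ⟨J, m, h1, h2, h3, h4⟩
  · exact Or.inl ⟨i, hi.trans h⟩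
  · refine Or.inr ⟨J, m, h1, h2, h3, ?_⟩
    rw [map_mul, map_zpow₀, ← h, ← map_zpow₀, ← map_mul]
    exact h4

/-- the set of critical values -/
def critS : Set O.ValueGroup := {c | ∃ s : L, s ≠ 0 ∧ O.valuation s = c ∧ Crit O Δ t b s}

theorem mem_critS {s : L} (hs : s ≠ 0) : O.valuation s ∈ critS O Δ t b ↔ Crit O Δ t b s := by
  constructor
  · rintro ⟨s', -, h1, h2⟩
    exact h2.congr O Δ t b h1
  · intro h
    exact ⟨s, hs, rfl, h⟩

theorem crit_finite : (critS O Δ t b).Finite := by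
  classical
  let A : Finset I × (Fin r → ℤ) → Set O.ValueGroup := fun p =>
    {c | c ≠ 0 ∧ ∑ j, p.2 j * (∑ i, b i j - ∑ i ∈ p.1, b i j) ≠ 0 ∧
      c ^ (∑ j, p.2 j * (∑ i, b i j - ∑ i ∈ p.1, b i j)) *
        O.valuation (∏ i ∈ p.1, (-t i) ^ (∑ j, p.2 j * b i j)) = 1}
  have hA : ∀ p, (A p).Finite := by
    intro p
    refine Set.Subsingleton.finite ?_
    rintro c ⟨h1, h2, h3⟩ c' ⟨h1', h2', h3'⟩
    refine val_zpow_inj h1 h1' h2 ?_
    have h4 : O.valuation (∏ i ∈ p.1, (-t i) ^ (∑ j, p.2 j * b i j)) ≠ 0 := by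
      intro h0
      rw [h0, mul_zero] at h3
      exact zero_ne_one h3
    exact mul_right_cancel₀ h4 (h3.trans h3'.symm)
  have h1 : (Set.range fun i => O.valuation (t i)).Finite := Set.finite_range _
  have h2 : (⋃ p ∈ ((Finset.univ : Finset (Finset I)) ×ˢ Δ.fnl), A p).Finite :=
    Set.Finite.biUnion (Finset.finite_toSet _) fun p _ => hA p
  refine (h1.union h2).subset ?_
  rintro c ⟨s, hs, rfl, hc⟩
  rcases hc with ⟨i, hi⟩ | ⟨J, m, hm, hJ, hN, he⟩
  · exact Or.inl ⟨i, hi⟩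
  · refine Or.inr (Set.mem_biUnion (x := (J, m))
      (Finset.mem_coe.2 (Finset.mem_product.2 ⟨Finset.mem_univ _, hm⟩)) ⟨?_, hN, ?_⟩)
    · exact (O.valuation.ne_zero_iff).2 hs
    · rw [map_mul, map_zpow₀] at he
      exact he

variable [IsAlgClosed L]

/-- there are no critical values slightly above a given value -/
theorem exists_above (hO : ∃ w : L, w ≠ 0 ∧ O.valuation w < 1) {θ : L} (hθ : θ ≠ 0) :
    ∃ s : L, O.valuation θ < O.valuation s ∧ ∀ s', O.valuation θ < O.valuation s' →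
      O.valuation s' ≤ O.valuation s → ¬ Crit O Δ t b s' := by
  classical
  let S : Finset O.ValueGroup :=
    (crit_finite O Δ t b).toFinset.filter fun c => O.valuation θ < c
  have hθ0 : O.valuation θ ≠ 0 := (O.valuation.ne_zero_iff).2 hθ
  have hne : ∀ s' : L, O.valuation θ < O.valuation s' → s' ≠ 0 := by
    rintro s' h rfl
    rw [map_zero] at h
    exact not_lt_zero h
  have hmem : ∀ s' : L, O.valuation θ < O.valuation s' → Crit O Δ t b s' →
      O.valuation s' ∈ S := by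
    intro s' h1 h2
    refine Finset.mem_filter.2 ⟨?_, h1⟩
    rw [Set.Finite.mem_toFinset]
    exact ⟨s', hne s' h1, rfl, h2⟩
  by_cases hS : S.Nonempty
  · obtain ⟨c, hc, hmin⟩ := S.exists_min_image id hS
    obtain ⟨hc1, hc2⟩ := Finset.mem_filter.1 hc
    rw [Set.Finite.mem_toFinset] at hc1
    obtain ⟨s1, hs1, rfl, -⟩ := hc1
    obtain ⟨s, hs⟩ := IsAlgClosed.exists_pow_nat_eq (θ * s1) (n := 2) (by norm_num)
    have h1 : O.valuation s ^ 2 = O.valuation θ * O.valuation s1 := by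
      rw [← map_pow, hs, map_mul]
    have h2 : O.valuation θ < O.valuation s := by
      by_contra h
      push Not at h
      have h3 : O.valuation s ^ 2 ≤ O.valuation θ * O.valuation θ := by
        rw [pow_two]
        exact mul_le_mul' h h
      rw [h1] at h3
      exact absurd h3 (not_le.2 (mul_lt_mul_of_pos_left hc2 (zero_lt_iff.2 hθ0)))
    have h3 : O.valuation s < O.valuation s1 := by
      by_contra h
      push Not at h
      have h3 : O.valuation s1 * O.valuation s1 ≤ O.valuation s ^ 2 := by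
        rw [pow_two]
        exact mul_le_mul' h h
      rw [h1] at h3
      exact absurd h3 (not_le.2 (mul_lt_mul_of_pos_right hc2
        (zero_lt_iff.2 ((O.valuation.ne_zero_iff).2 hs1))))
    refine ⟨s, h2, fun s' h4 h5 h6 => ?_⟩
    exact absurd (hmin _ (hmem s' h4 h6)) (not_le.2 (lt_of_le_of_lt h5 h3))
  · obtain ⟨w, hw, hw1⟩ := hO
    have hw0 : O.valuation w ≠ 0 := (O.valuation.ne_zero_iff).2 hw
    refine ⟨θ * w⁻¹, ?_, fun s' h4 _ h6 => hS ⟨_, hmem s' h4 h6⟩⟩
    rw [map_mul, map_inv₀]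
    have h1 : 1 < (O.valuation w)⁻¹ := (one_lt_inv₀ (zero_lt_iff.2 hw0)).2 hw1
    calc O.valuation θ = O.valuation θ * 1 := (mul_one _).symm
      _ < O.valuation θ * (O.valuation w)⁻¹ :=
        mul_lt_mul_of_pos_left h1 (zero_lt_iff.2 hθ0)

/-- **The chain principle.** -/
theorem chain_principle (hO : ∃ w : L, w ≠ 0 ∧ O.valuation w < 1)
    -- the statements of `Red` and `Scale`
    (R0 : ∀ s : L, s ≠ 0 → (∀ i, O.valuation (t i) < O.valuation s) →
      SpO (rplc O) Δ ∅ (yat t b s) ∅ 1)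
    (R1 : ∀ θ : L, θ ≠ 0 → ∃ σ y, SpO (gplc O) Δ ∅ (yth t b θ) σ y)
    (R3 : ∀ s : L, (∀ i, s ≠ t i) → ∃ τ z, SpO (rplc O) Δ ∅ (yat t b s) τ z)
    (S1 : ∀ θ s : L, θ ≠ 0 → O.valuation θ < O.valuation s →
      (∀ s', O.valuation θ < O.valuation s' → O.valuation s' ≤ O.valuation s →
        ¬ Crit O Δ t b s') → ∀ σ y τ z, SpO (rplc O) Δ ∅ (yat t b s) τ z →
      SpO (gplc O) Δ ∅ (yth t b θ) σ y → LimInf Δ σ y τ z)
    (S2 : ∀ θ s : L, s ≠ 0 → O.valuation s < O.valuation θ →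
      (∀ s', O.valuation s ≤ O.valuation s' → O.valuation s' < O.valuation θ →
        ¬ Crit O Δ t b s') → ∀ σ y τ z, SpO (rplc O) Δ ∅ (yat t b s) τ z →
      SpO (gplc O) Δ ∅ (yth t b θ) σ y → LimAt Δ 0 σ y τ z)
    (Good : Finset V → (Fin r → IsLocalRing.ResidueField O) → Prop) (h0 : Good ∅ 1)
    (hstep : ∀ θ : L, 1 < O.valuation θ → ∀ σ y τ z τ' z',
      SpO (gplc O) Δ ∅ (yth t b θ) σ y → LimInf Δ σ y τ z → LimAt Δ 0 σ y τ' z' →
      Good τ z → Good τ' z') :
    ∃ σ y τ z, SpO (gplc O) Δ ∅ (yth t b 1) σ y ∧ LimInf Δ σ y τ z ∧ Good τ z := by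
  classical
  have hfin := crit_finite O Δ t b
  let N : L → Finset O.ValueGroup := fun s =>
    hfin.toFinset.filter fun c => O.valuation s < c
  have hmain : ∀ (n : ℕ) (s : L), (N s).card = n → 1 < O.valuation s → ¬ Crit O Δ t b s →
      ∃ τ z, SpO (rplc O) Δ ∅ (yat t b s) τ z ∧ Good τ z := by
    intro n
    induction n using Nat.strong_induction_on with
    | _ n ih =>
    intro s hn hs hcs
    have hs0 : s ≠ 0 := by
      rintro rfl
      rw [map_zero] at hs
      exact not_lt_zero hs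
    by_cases hN : (N s).Nonempty
    · obtain ⟨c, hc, hmin⟩ := (N s).exists_min_image id hN
      obtain ⟨hc1, hc2⟩ := Finset.mem_filter.1 hc
      rw [Set.Finite.mem_toFinset] at hc1
      obtain ⟨θ, hθ, rfl, hθc⟩ := hc1
      obtain ⟨s', hs', hs'c⟩ := exists_above O Δ t b hO hθ
      have h1θ : 1 < O.valuation θ := hs.trans hc2
      have hsub : N s' ⊂ N s := by
        refine (Finset.ssubset_iff_of_subset fun c hc => ?_).2 ⟨O.valuation θ, hc, fun h => ?_⟩
        · obtain ⟨h1, h2⟩ := Finset.mem_filter.1 hc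
          exact Finset.mem_filter.2 ⟨h1, (hc2.trans hs').trans h2⟩
        · exact absurd (Finset.mem_filter.1 h).2 (not_lt.2 hs'.le)
      obtain ⟨τ', z', hsp', hg'⟩ := ih _ (hn ▸ Finset.card_lt_card hsub) s' rfl
        (h1θ.trans hs') (hs'c s' hs' le_rfl)
      obtain ⟨σ, y, hσ⟩ := R1 θ hθ
      have hinf := S1 θ s' hθ hs' hs'c σ y τ' z' hsp' hσ
      obtain ⟨τ, z, hsp⟩ := R3 s fun i hi => hcs (Or.inl ⟨i, by rw [hi]⟩)
      have hat := S2 θ s hs0 hc2 (fun s'' h1 h2 h3 => by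
        have hs''0 : s'' ≠ 0 := by
          rintro rfl
          rw [map_zero] at h1
          exact absurd (hs.trans_le h1) (not_lt.2 zero_le_one)
        rcases h1.eq_or_lt with h1 | h1
        · exact hcs (h3.congr O Δ t b h1.symm)
        · have h4 : O.valuation s'' ∈ N s := by
            refine Finset.mem_filter.2 ⟨?_, h1⟩
            rw [Set.Finite.mem_toFinset]
            exact ⟨s'', hs''0, rfl, h3⟩
          exact absurd (hmin _ h4) (not_le.2 h2)) σ y τ z hsp hσ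
      exact ⟨τ, z, hsp, hstep θ h1θ σ y τ' z' τ z hσ hinf hat hg'⟩
    · refine ⟨∅, 1, R0 s hs0 fun i => ?_, h0⟩
      by_contra h
      push Not at h
      rcases h.eq_or_lt with h | h
      · exact hcs (Or.inl ⟨i, h.symm⟩)
      · refine hN ⟨O.valuation (t i), Finset.mem_filter.2 ⟨?_, h⟩⟩
        rw [Set.Finite.mem_toFinset]
        refine ⟨t i, ?_, rfl, Or.inl ⟨i, rfl⟩⟩
        intro h0
        rw [h0, map_zero] at h
        exact not_lt_zero h
  obtain ⟨s, hs, hsc⟩ := exists_above O Δ t b hO (one_ne_zero (α := L))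
  have hs1 : 1 < O.valuation s := by rwa [map_one] at hs
  obtain ⟨τ, z, hsp, hg⟩ := hmain _ s rfl hs1 (hsc s hs le_rfl)
  obtain ⟨σ, y, hσ⟩ := R1 1 one_ne_zero
  exact ⟨σ, y, τ, z, hσ, S1 1 s one_ne_zero hs hsc σ y τ z hsp hσ, hg⟩

end Pool.Agent.Work.WRC
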