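import Mathlib
import Pool.Agent.Work.MP_4329d7_ag_wrc.RCInf

/-!
# Degree, leading coefficient and root form of rational functions

* `lead : RatFunc k →*₀ k`: the leading coefficient at infinity;
* `Inf.deg`, `Inf.lead`, `inf_of_deg`, `inf_of_deg_neg`: values at infinity;
* `exists_root_form`: `y_j = c_j ∏_a (X - a)^(b a j)`.
-/

namespace Pool.Agent.Work.WRC

open Polynomial

section lead

variable {k : Type} [Field k]

/-- The leading coefficient at infinity. -/
noncomputable def lead : RatFunc k →*₀ k where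
  toFun f := f.num.leadingCoeff
  map_zero' := by simp
  map_one' := by simp
  map_mul' x y := by
    have h := congrArg leadingCoeff (RatFunc.num_denom_mul x y)
    rw [leadingCoeff_mul, leadingCoeff_mul, leadingCoeff_mul, leadingCoeff_mul,
      (RatFunc.monic_denom x).leadingCoeff, (RatFunc.monic_denom y).leadingCoeff,
      (RatFunc.monic_denom (x * y)).leadingCoeff, mul_one, mul_one, mul_one] at h
    exact h

theorem lead_div (p : k[X]) {q : k[X]} (hq : q ≠ 0) :
    lead (algebraMap k[X] (RatFunc k) p / algebraMap k[X] (RatFunc k) q) =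
      p.leadingCoeff / q.leadingCoeff := by
  have h := (RatFunc.num_mul_eq_mul_denom_iff (x := algebraMap k[X] (RatFunc k) p /
    algebraMap k[X] (RatFunc k) q) (p := p) hq).2 rfl
  have h1 := congrArg leadingCoeff h
  rw [leadingCoeff_mul, leadingCoeff_mul, (RatFunc.monic_denom _).leadingCoeff, mul_one] at h1
  rw [eq_div_iff (leadingCoeff_ne_zero.2 hq)]
  exact h1

theorem lead_poly (p : k[X]) : lead (algebraMap k[X] (RatFunc k) p) = p.leadingCoeff := by
  show (RatFunc.num _).leadingCoeff = _
  rw [RatFunc.num_algebraMap]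

theorem lead_C (c : k) : lead (RatFunc.C c) = c := by
  rw [← RatFunc.algebraMap_C, lead_poly, leadingCoeff_C]

theorem lead_ne {f : RatFunc k} (hf : f ≠ 0) : lead f ≠ 0 := by
  rw [Ne, map_eq_zero]
  exact hf

theorem rf_ne {p : k[X]} (hp : p ≠ 0) : algebraMap k[X] (RatFunc k) p ≠ 0 :=
  (map_ne_zero_iff _ (IsFractionRing.injective k[X] (RatFunc k))).2 hp

theorem intDegree_frac {p q : k[X]} (hp : p ≠ 0) (hq : q ≠ 0) :
    (algebraMap k[X] (RatFunc k) p / algebraMap k[X] (RatFunc k) q).intDegree =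
      (p.natDegree : ℤ) - q.natDegree := by
  rw [RatFunc.intDegree_div (rf_ne hp) (rf_ne hq), RatFunc.intDegree_polynomial,
    RatFunc.intDegree_polynomial]

theorem intDegree_zpow {f : RatFunc k} (hf : f ≠ 0) (n : ℤ) :
    (f ^ n).intDegree = n * f.intDegree := by
  have hnat : ∀ m : ℕ, (f ^ m).intDegree = m * f.intDegree := by
    intro m
    induction m with
    | zero => simp
    | succ m ih =>
      rw [pow_succ, RatFunc.intDegree_mul (pow_ne_zero _ hf) hf, ih]
      push_cast; ring
  rcases n.eq_nat_or_neg with ⟨m, rfl | rfl⟩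
  · rw [zpow_natCast, hnat]
  · rw [zpow_neg, zpow_natCast, RatFunc.intDegree_inv, hnat]
    ring

theorem intDegree_prod {ι : Type*} (s : Finset ι) (f : ι → RatFunc k) (hf : ∀ i ∈ s, f i ≠ 0) :
    (∏ i ∈ s, f i).intDegree = ∑ i ∈ s, (f i).intDegree := by
  classical
  induction s using Finset.induction_on with
  | empty => simp
  | insert a s ha ih =>
    rw [Finset.prod_insert ha, Finset.sum_insert ha,
      RatFunc.intDegree_mul (hf a (Finset.mem_insert_self a s))
        (Finset.prod_ne_zero_iff.2 fun i hi => hf i (Finset.mem_insert_of_mem hi)),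
      ih fun i hi => hf i (Finset.mem_insert_of_mem hi)]

theorem Inf.degree_le {f : RatFunc k} {c : k} (h : Inf f c) (hf : f ≠ 0) : f.intDegree ≤ 0 := by
  obtain ⟨p, q, hq, hd, hc, rfl⟩ := h
  have hp : p ≠ 0 := by
    rintro rfl
    rw [map_zero, zero_div] at hf
    exact hf rfl
  rw [intDegree_frac hp hq]
  omega

/-- A nonzero value at infinity. -/
theorem Inf.deg_lead {f : RatFunc k} {c : k} (h : Inf f c) (hc0 : c ≠ 0) :
    f ≠ 0 ∧ f.intDegree = 0 ∧ lead f = c := by
  obtain ⟨p, q, hq, hd, hc, rfl⟩ := h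
  have hcoef : p.coeff q.natDegree ≠ 0 := by
    rw [hc]
    exact mul_ne_zero hc0 (leadingCoeff_ne_zero.2 hq)
  have hp : p ≠ 0 := by
    rintro rfl
    exact hcoef (coeff_zero _)
  have hdeg : p.natDegree = q.natDegree := le_antisymm hd (le_natDegree_of_ne_zero hcoef)
  refine ⟨div_ne_zero (rf_ne hp) (rf_ne hq), ?_, ?_⟩
  · rw [intDegree_frac hp hq, hdeg, sub_self]
  · rw [lead_div p hq, div_eq_iff (leadingCoeff_ne_zero.2 hq), ← hc, leadingCoeff, hdeg]

/-- The value zero at infinity. -/
theorem Inf.deg_neg {f : RatFunc k} (h : Inf f 0) (hf : f ≠ 0) : f.intDegree < 0 := by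
  obtain ⟨p, q, hq, hd, hc, rfl⟩ := h
  have hp : p ≠ 0 := by
    rintro rfl
    rw [map_zero, zero_div] at hf
    exact hf rfl
  rw [zero_mul] at hc
  have hne : p.natDegree ≠ q.natDegree := by
    intro h
    rw [← h, coeff_natDegree, leadingCoeff_eq_zero] at hc
    exact hp hc
  rw [intDegree_frac hp hq]
  omega

theorem inf_of_deg {f : RatFunc k} (h : f.intDegree = 0) : Inf f (lead f) := by
  refine ⟨f.num, f.denom, f.denom_ne_zero, ?_, ?_, (RatFunc.num_div_denom f).symm⟩
  · unfold RatFunc.intDegree at h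
    omega
  · have h1 : f.num.natDegree = f.denom.natDegree := by
      unfold RatFunc.intDegree at h
      omega
    rw [(RatFunc.monic_denom f).leadingCoeff, mul_one, ← h1]
    rfl

theorem inf_of_deg_neg {f : RatFunc k} (h : f.intDegree < 0) : Inf f 0 := by
  unfold RatFunc.intDegree at h
  refine ⟨f.num, f.denom, f.denom_ne_zero, by omega, ?_, (RatFunc.num_div_denom f).symm⟩
  rw [zero_mul]
  exact coeff_eq_zero_of_natDegree_lt (by omega)

/-- Root form of a rational function. -/
theorem root_form [IsAlgClosed k] {f : RatFunc k} (hf : f ≠ 0) :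
    ∃ (A : Finset k) (n : k → ℤ) (c : k), c ≠ 0 ∧ (∀ a, a ∉ A → n a = 0) ∧
      f = RatFunc.C c * ∏ a ∈ A, algebraMap k[X] (RatFunc k) (X - C a) ^ n a := by
  classical
  have hpoly : ∀ p : k[X], p ≠ 0 → ∀ A : Finset k, p.roots.toFinset ⊆ A →
      algebraMap k[X] (RatFunc k) p = RatFunc.C p.leadingCoeff *
        ∏ a ∈ A, algebraMap k[X] (RatFunc k) (X - C a) ^ (p.roots.count a : ℤ) := by
    intro p hp A hA
    conv_lhs => rw [(IsAlgClosed.splits p).eq_prod_roots, map_mul]
    rw [RatFunc.algebraMap_C]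
    congr 1
    rw [Finset.prod_multiset_map_count, map_prod]
    have h1 : ∀ a ∈ A, a ∉ p.roots.toFinset →
        algebraMap k[X] (RatFunc k) (X - C a) ^ (p.roots.count a : ℤ) = 1 := by
      intro a _ ha
      rw [Multiset.count_eq_zero.2 (by simpa using ha)]
      simp
    rw [← Finset.prod_subset hA h1]
    exact Finset.prod_congr rfl fun a _ => by rw [map_pow, zpow_natCast]
  let A := f.num.roots.toFinset ∪ f.denom.roots.toFinset
  have hn := RatFunc.num_ne_zero hf
  have hd := f.denom_ne_zero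
  refine ⟨A, fun a => (f.num.roots.count a : ℤ) - f.denom.roots.count a, f.num.leadingCoeff,
    leadingCoeff_ne_zero.2 hn, fun a ha => ?_, ?_⟩
  · rw [Finset.mem_union, not_or] at ha
    beta_reduce
    rw [Multiset.count_eq_zero.2 fun h => ha.1 (Multiset.mem_toFinset.2 h),
      Multiset.count_eq_zero.2 fun h => ha.2 (Multiset.mem_toFinset.2 h)]
    simp
  · conv_lhs => rw [← RatFunc.num_div_denom f]
    rw [hpoly f.num hn A Finset.subset_union_left, hpoly f.denom hd A Finset.subset_union_right,
      (RatFunc.monic_denom f).leadingCoeff, map_one, one_mul, mul_div_assoc,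
      ← Finset.prod_div_distrib]
    congr 1
    refine Finset.prod_congr rfl fun a _ => ?_
    rw [zpow_sub₀ (rf_ne (X_sub_C_ne_zero a))]

/-- Root form of a tuple of rational functions. -/
theorem exists_root_form [IsAlgClosed k] {r : ℕ} (y : Fin r → RatFunc k) (hy : ∀ j, y j ≠ 0) :
    ∃ (A : Finset k) (b : k → Fin r → ℤ) (c : Fin r → k), (∀ j, c j ≠ 0) ∧
      ∀ j, y j = RatFunc.C (c j) * ∏ a ∈ A, algebraMap k[X] (RatFunc k) (X - C a) ^ b a j := by
  classical
  choose A n c hc hn hf using fun j => root_form (hy j)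
  refine ⟨Finset.univ.biUnion A, fun a j => n j a, c, hc, fun j => ?_⟩
  rw [hf j]
  congr 1
  refine Finset.prod_subset (fun a ha => Finset.mem_biUnion.2 ⟨j, Finset.mem_univ _, ha⟩)
    fun a _ ha => ?_
  rw [hn j a ha, zpow_zero]

end lead

end Pool.Agent.Work.WRC
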