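import Mathlib
import Pool.Agent.Work.MP_4329d7_ag_wrc.FanX
import Pool.Agent.Work.MP_4329d7_ag_wrc.Lead
import Pool.Agent.Work.MP_4329d7_ag_wrc.SpzMap

/-!
# Lifts of sections of orbits to Cox coordinates

`morph0`, `morph`: a tuple `y` of rational functions (a section of the orbit of the cone `σ`) has a lift
`H`, `N`: `H v = 0` for `v ∈ σ`, `H v` monic otherwise, the zero sets of all `H(a)` and of the
vector of coefficients of index `N v` are cones, `∑ N_v ray_v = 0` and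
`y_j = y0_j ∏_{v ∉ σ} H_v ^ ray_v j ∏_{v ∈ σ} h_v ^ ray_v j`.
`morph_eq`: the Cox equations; `morph_vf`: the handle of a section whose point at infinity carries
a very free curve.
-/

namespace Pool.Agent.Work.WRC

open Polynomial Pool.Agent.Work.CI

section fan

variable {V : Type} [Fintype V] [DecidableEq V] {r : ℕ} (Δ : FanV V r)

/-- Uniqueness in the star of a cone. -/
theorem FanV.int_uniq {σ τ τ' : Finset V} (hτ : Δ.cone τ) (hτ' : Δ.cone τ') (hσ : σ ⊆ τ)
    (hσ' : σ ⊆ τ') {c c' : V → ℤ} (hc : ∀ v, v ∉ τ → c v = 0) (hc' : ∀ v, v ∉ τ' → c' v = 0)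
    (hp : ∀ v ∈ τ, v ∉ σ → 0 < c v) (hp' : ∀ v ∈ τ', v ∉ σ → 0 < c' v)
    (he : ∀ j, ∑ v, Δ.ray v j * c v = ∑ v, Δ.ray v j * c' v) : τ = τ' ∧ c = c' := by
  let M : ℤ := 1 + ∑ v, |c v| + ∑ v, |c' v|
  have hM : ∀ v, -c v < M ∧ -c' v < M := by
    intro v
    have h1 : |c v| ≤ ∑ v, |c v| :=
      Finset.single_le_sum (f := fun v => |c v|) (fun _ _ => abs_nonneg _) (Finset.mem_univ v)
    have h2 : |c' v| ≤ ∑ v, |c' v| :=
      Finset.single_le_sum (f := fun v => |c' v|) (fun _ _ => abs_nonneg _) (Finset.mem_univ v)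
    have h3 : 0 ≤ ∑ v, |c v| := Finset.sum_nonneg fun _ _ => abs_nonneg _
    have h4 : 0 ≤ ∑ v, |c' v| := Finset.sum_nonneg fun _ _ => abs_nonneg _
    have h5 := neg_abs_le (c v)
    have h6 := neg_abs_le (c' v)
    constructor
    · show -c v < 1 + ∑ v, |c v| + ∑ v, |c' v|
      linarith
    · show -c' v < 1 + ∑ v, |c v| + ∑ v, |c' v|
      linarith
  have hM0 : 0 < M := by
    have h3 : 0 ≤ ∑ v, |c v| := Finset.sum_nonneg fun _ _ => abs_nonneg _
    have h4 : 0 ≤ ∑ v, |c' v| := Finset.sum_nonneg fun _ _ => abs_nonneg _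
    show 0 < 1 + ∑ v, |c v| + ∑ v, |c' v|
    linarith
  have h1 := Δ.dec_uniq (τ := τ) (τ' := τ') (γ := fun v => c v + if v ∈ σ then M else 0)
    (γ' := fun v => c' v + if v ∈ σ then M else 0) hτ hτ'
    (fun v hv => by
      split_ifs with h
      · have := (hM v).1
        linarith
      · rw [add_zero]; exact hp v hv h)
    (fun v hv => by
      split_ifs with h
      · have := (hM v).2
        linarith
      · rw [add_zero]; exact hp' v hv h)
    (fun v hv => by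
      rw [hc v hv, if_neg fun h => hv (hσ h), add_zero])
    (fun v hv => by
      rw [hc' v hv, if_neg fun h => hv (hσ' h), add_zero])
    (fun j => by
      simp only [smul_eq_mul, mul_add, Finset.sum_add_distrib]
      rw [he j])
  refine ⟨h1.1, ?_⟩
  ext v
  exact add_right_cancel (congrFun h1.2 v)

omit [DecidableEq V] in
theorem rel_iff {dB : ℕ} {B Q : Type} (f : B ⊕ Q → Lau (dB + r)) (ray : V → Fin r → ℤ)
    (n : V → ℤ) : (coxF f ray).Rel n ↔ ∀ j, ∑ v, ray v j * n v = 0 := by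
  constructor
  · intro h j
    have h1 := h (Fin.natAdd dB j)
    have h2 : ∀ v, (coxF f ray).ray v (Fin.natAdd dB j) = ray v j := by
      intro v
      show (Fin.append 0 (ray v) : Fin (dB + r) → ℤ) (Fin.natAdd dB j) = ray v j
      rw [Fin.append_right]
    rw [← h1]
    exact Finset.sum_congr rfl fun v _ => by rw [h2]
  · intro h i
    show ∑ v, (Fin.append 0 (ray v) : Fin (dB + r) → ℤ) i * n v = 0
    refine Fin.addCases (fun i => ?_) (fun j => ?_) i
    · refine Finset.sum_eq_zero fun v _ => ?_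
      rw [Fin.append_left]
      simp
    · rw [← h j]
      exact Finset.sum_congr rfl fun v _ => by rw [Fin.append_right]

variable {k : Type} [Field k] [IsAlgClosed k]

/-- **Lifts of sections of orbits** with bad positions `t j`: the orders `o j` of `y` at `t j` are
moved to the base curve, together with `ω j` times the sum of the rays of `σ`. -/
theorem morph_bad {σ : Finset V} (hσ : Δ.cone σ) (y : Fin r → RatFunc k) (hy : ∀ i, y i ≠ 0)
    {J : Type} [Fintype J] (t : J → k) (ht : Function.Injective t) :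
    ∃ o : J → Fin r → ℤ, ∀ ω : J → ℤ,
    ∃ (H : V → k[X]) (N : V → ℤ) (y0 : Fin r → k) (h : V → RatFunc k) (τ : Finset V),
      (∀ v ∈ σ, H v = 0) ∧ (∀ v, v ∉ σ → (H v).Monic) ∧
      (∀ a : k, (∀ j, a ≠ t j) → ∃ ρ, Δ.cone ρ ∧ ∀ v, (H v).eval a = 0 ↔ v ∈ ρ) ∧
      (∀ j v, (H v).eval (t j) = 0 ↔ v ∈ σ) ∧
      (∀ v, DegLE (H v) (N v)) ∧ Δ.cone τ ∧ σ ⊆ τ ∧ (∀ v, lc (H v) (N v) = ind k τ v) ∧
      (∀ i, ∑ j, (o j i + ω j * ∑ v ∈ σ, Δ.ray v i) + ∑ v, Δ.ray v i * N v = 0) ∧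
      (∀ i, y0 i ≠ 0) ∧ (∀ v, h v ≠ 0) ∧
      (∀ i, y i = RatFunc.C (y0 i) *
        (∏ j, algebraMap k[X] (RatFunc k) (X - C (t j)) ^ (o j i + ω j * ∑ v ∈ σ, Δ.ray v i)) *
        ∏ v, (if v ∈ σ then h v else algebraMap k[X] (RatFunc k) (H v)) ^ Δ.ray v i) ∧
      ∀ τ' z, LimInf Δ σ y τ' z → τ' = τ ∧ ∃ μ : V → k, (∀ v, μ v ≠ 0) ∧
        (∀ v, v ∉ τ → μ v = 1) ∧ ∀ i, z i = y0 i * ∏ v, μ v ^ (-Δ.ray v i) := by
  classical
  obtain ⟨A, b, y0, hy0, hyb⟩ := exists_root_form y hy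
  -- decompositions at the finite places
  choose τa ca hτa hσa hca hcp hba using fun a => Δ.star_int hσ (b a)
  -- decomposition at infinity
  obtain ⟨τ, c, hτ, hστ, hc, hcp', hb⟩ := Δ.star_int hσ fun i => -∑ a ∈ A, b a i
  simp only [smul_eq_mul] at hba hb
  let A' : Finset k := A.filter fun a => ∀ j, a ≠ t j
  let o : J → Fin r → ℤ := fun j i => if t j ∈ A then b (t j) i else 0
  have hX : ∀ a : k, algebraMap k[X] (RatFunc k) (X - C a) ≠ 0 := fun a =>
    rf_ne (X_sub_C_ne_zero a)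
  -- splitting of sums and products over `A`
  have hsplit : ∀ {M : Type} [CommMonoid M] (g : k → M),
      ∏ a ∈ A, g a = (∏ j, if t j ∈ A then g (t j) else 1) * ∏ a ∈ A', g a := by
    intro M _ g
    have h1 : ∏ j, (if t j ∈ A then g (t j) else 1) =
        ∏ a ∈ A.filter fun a => ¬ ∀ j, a ≠ t j, g a := by
      rw [← Finset.prod_filter]
      refine Finset.prod_bij (fun j _ => t j) (fun j hj => ?_) (fun i _ j _ hij => ht hij)
        (fun a ha => ?_) fun _ _ => rfl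
      · exact Finset.mem_filter.2 ⟨(Finset.mem_filter.1 hj).2, fun h => h j rfl⟩
      · obtain ⟨h1, h2⟩ := Finset.mem_filter.1 ha
        push Not at h2
        obtain ⟨j, rfl⟩ := h2
        exact ⟨j, Finset.mem_filter.2 ⟨Finset.mem_univ _, h1⟩, rfl⟩
    rw [h1, mul_comm]
    exact (Finset.prod_filter_mul_prod_filter_not A _ _).symm
  have hsplitS : ∀ g : k → ℤ, ∑ a ∈ A, g a = (∑ j, if t j ∈ A then g (t j) else 0) +
      ∑ a ∈ A', g a := by
    intro g
    have h1 : ∑ j, (if t j ∈ A then g (t j) else 0) =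
        ∑ a ∈ A.filter fun a => ¬ ∀ j, a ≠ t j, g a := by
      rw [← Finset.sum_filter]
      refine Finset.sum_bij (fun j _ => t j) (fun j hj => ?_) (fun i _ j _ hij => ht hij)
        (fun a ha => ?_) fun _ _ => rfl
      · exact Finset.mem_filter.2 ⟨(Finset.mem_filter.1 hj).2, fun h => h j rfl⟩
      · obtain ⟨h1, h2⟩ := Finset.mem_filter.1 ha
        push Not at h2
        obtain ⟨j, rfl⟩ := h2
        exact ⟨j, Finset.mem_filter.2 ⟨Finset.mem_univ _, h1⟩, rfl⟩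
    rw [h1, add_comm]
    exact (Finset.sum_filter_add_sum_filter_not A _ _).symm
  refine ⟨o, fun ω => ?_⟩
  have hnn : ∀ a v, v ∉ σ → 0 ≤ ca a v := by
    intro a v hv
    by_cases hvt : v ∈ τa a
    · exact (hcp a v hvt hv).le
    · rw [hca a v hvt]
  let H : V → k[X] := fun v => if v ∈ σ then 0 else ∏ a ∈ A', (X - C a) ^ (ca a v).toNat
  let h0 : V → RatFunc k := fun v => ∏ a ∈ A', algebraMap k[X] (RatFunc k) (X - C a) ^ ca a v
  let g0 : RatFunc k := ∏ j, algebraMap k[X] (RatFunc k) (X - C (t j)) ^ (-ω j)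
  let h : V → RatFunc k := fun v => h0 v * if v ∈ σ then g0 else 1
  let N : V → ℤ := fun v => ∑ a ∈ A', ca a v + c v - if v ∈ σ then ∑ j, ω j else 0
  have hHσ : ∀ v ∈ σ, H v = 0 := fun v hv => if_pos hv
  have hH : ∀ v, v ∉ σ → H v = ∏ a ∈ A', (X - C a) ^ (ca a v).toNat := fun v hv => if_neg hv
  have hHm : ∀ v, v ∉ σ → (H v).Monic := by
    intro v hv
    rw [hH v hv]
    exact monic_prod_of_monic _ _ fun a _ => (monic_X_sub_C a).pow _
  have hHd : ∀ v, v ∉ σ → ((H v).natDegree : ℤ) = ∑ a ∈ A', ca a v := by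
    intro v hv
    rw [hH v hv, natDegree_prod_of_monic _ _ fun a _ => (monic_X_sub_C a).pow _]
    push_cast
    refine Finset.sum_congr rfl fun a _ => ?_
    rw [natDegree_pow, natDegree_X_sub_C, mul_one, Int.toNat_of_nonneg (hnn a v hv)]
  have hNσ : ∀ v, v ∉ σ → N v = (H v).natDegree + c v := by
    intro v hv
    rw [hHd v hv]
    show ∑ a ∈ A', ca a v + c v - (if v ∈ σ then ∑ j, ω j else 0) = _
    rw [if_neg hv, sub_zero]
  have hcn : ∀ v, v ∉ σ → 0 ≤ c v := by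
    intro v hv
    by_cases hvt : v ∈ τ
    · exact (hcp' v hvt hv).le
    · rw [hc v hvt]
  have hh0 : ∀ v, h0 v ≠ 0 := fun v => Finset.prod_ne_zero_iff.2 fun a _ => zpow_ne_zero _ (hX a)
  have hg0 : g0 ≠ 0 := Finset.prod_ne_zero_iff.2 fun j _ => zpow_ne_zero _ (hX _)
  have hh : ∀ v, h v ≠ 0 := by
    intro v
    refine mul_ne_zero (hh0 v) ?_
    split_ifs
    · exact hg0
    · exact one_ne_zero
  have hhH : ∀ v, (if v ∈ σ then h v else algebraMap k[X] (RatFunc k) (H v)) = h v := by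
    intro v
    by_cases hv : v ∈ σ
    · rw [if_pos hv]
    · rw [if_neg hv]
      show _ = h0 v * (if v ∈ σ then g0 else 1)
      rw [if_neg hv, mul_one, hH v hv, map_prod]
      refine Finset.prod_congr rfl fun a _ => ?_
      rw [map_pow, ← zpow_natCast, Int.toNat_of_nonneg (hnn a v hv)]
  have key : ∀ {x : RatFunc k} (_ : x ≠ 0) {ι : Type} (s : Finset ι) (g : ι → ℤ),
      ∏ v ∈ s, x ^ g v = x ^ ∑ v ∈ s, g v := by
    intro x hx ι s g
    induction s using Finset.induction_on with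
    | empty => simp
    | insert w s hw ih => rw [Finset.prod_insert hw, Finset.sum_insert hw, ih, zpow_add₀ hx]
  have hyh : ∀ i, y i = RatFunc.C (y0 i) *
      (∏ j, algebraMap k[X] (RatFunc k) (X - C (t j)) ^ (o j i + ω j * ∑ v ∈ σ, Δ.ray v i)) *
      ∏ v, h v ^ Δ.ray v i := by
    intro i
    rw [hyb i, hsplit, mul_assoc]
    congr 1
    have h1 : ∏ v, h v ^ Δ.ray v i = (∏ v, h0 v ^ Δ.ray v i) * g0 ^ ∑ v ∈ σ, Δ.ray v i := by
      rw [← key hg0 σ, ← Finset.prod_filter_mul_prod_filter_not Finset.univ (· ∈ σ)]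
      rw [← Finset.prod_filter_mul_prod_filter_not Finset.univ (· ∈ σ) (fun v => h0 v ^ Δ.ray v i)]
      have h2 : (Finset.univ.filter fun v => v ∈ σ) = σ := by ext v; simp
      rw [h2, mul_right_comm, ← Finset.prod_mul_distrib]
      congr 1
      · refine Finset.prod_congr rfl fun v hv => ?_
        show (h0 v * (if v ∈ σ then g0 else 1)) ^ _ = _
        rw [if_pos hv, mul_zpow]
      · refine Finset.prod_congr rfl fun v hv => ?_
        show (h0 v * (if v ∈ σ then g0 else 1)) ^ _ = _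
        rw [if_neg (Finset.mem_filter.1 hv).2, mul_one]
    have h2 : ∏ v, h0 v ^ Δ.ray v i = ∏ a ∈ A', algebraMap k[X] (RatFunc k) (X - C a) ^ b a i := by
      show ∏ v, (∏ a ∈ A', algebraMap k[X] (RatFunc k) (X - C a) ^ ca a v) ^ Δ.ray v i = _
      rw [Finset.prod_congr rfl fun v _ => (Finset.prod_zpow _ _ _).symm, Finset.prod_comm]
      refine Finset.prod_congr rfl fun a _ => ?_
      rw [hba a i, Finset.prod_congr rfl fun v _ => (zpow_mul _ (ca a v) (Δ.ray v i)).symm,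
        key (hX a)]
      congr 1
      exact Finset.sum_congr rfl fun v _ => mul_comm _ _
    have h3 : g0 ^ ∑ v ∈ σ, Δ.ray v i = ∏ j, algebraMap k[X] (RatFunc k) (X - C (t j)) ^
        (-(ω j * ∑ v ∈ σ, Δ.ray v i)) := by
      show (∏ j, _ ^ (-ω j)) ^ _ = _
      rw [← Finset.prod_zpow]
      refine Finset.prod_congr rfl fun j _ => ?_
      rw [← zpow_mul]
      congr 1
      ring
    rw [h1, h2, h3, mul_comm (∏ a ∈ A', _) (∏ j, _ ^ (-(ω j * ∑ v ∈ σ, Δ.ray v i))),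
      ← mul_assoc, ← Finset.prod_mul_distrib]
    congr 1
    refine Finset.prod_congr rfl fun j _ => ?_
    rw [← zpow_add₀ (hX _)]
    show _ = _ ^ ((if t j ∈ A then b (t j) i else 0) + _ + _)
    by_cases hj : t j ∈ A
    · rw [if_pos hj, if_pos hj]
      congr 1
      ring
    · rw [if_neg hj, if_neg hj]
      rw [zero_add, add_neg_cancel, zpow_zero]
  refine ⟨H, N, y0, h, τ, hHσ, hHm, fun a hat => ?_, fun j v => ?_, fun v => ?_, hτ, hστ,
    fun v => ?_, fun i => ?_, hy0, hh, fun i => ?_, fun τ' z hz => ?_⟩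
  · -- zero sets
    by_cases haA : a ∈ A
    · have haA' : a ∈ A' := Finset.mem_filter.2 ⟨haA, hat⟩
      refine ⟨τa a, hτa a, fun v => ?_⟩
      by_cases hvσ : v ∈ σ
      · rw [hHσ v hvσ, eval_zero]
        exact ⟨fun _ => hσa a hvσ, fun _ => rfl⟩
      · rw [hH v hvσ, eval_prod, Finset.prod_eq_zero_iff]
        constructor
        · rintro ⟨a', _, h1⟩
          rw [eval_pow, eval_sub, eval_X, eval_C] at h1
          have h2 := eq_zero_of_pow_eq_zero h1
          have h3 : a = a' := sub_eq_zero.1 h2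
          subst h3
          by_contra hv
          rw [hca a v hv] at h1
          simp at h1
        · intro hv
          refine ⟨a, haA', ?_⟩
          have h1 := hcp a v hv hvσ
          rw [eval_pow, eval_sub, eval_X, eval_C, sub_self, zero_pow (by omega)]
    · refine ⟨σ, hσ, fun v => ?_⟩
      by_cases hvσ : v ∈ σ
      · rw [hHσ v hvσ, eval_zero]
        exact ⟨fun _ => hvσ, fun _ => rfl⟩
      · rw [hH v hvσ, eval_prod, Finset.prod_eq_zero_iff]
        constructor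
        · rintro ⟨a', ha', h1⟩
          rw [eval_pow, eval_sub, eval_X, eval_C] at h1
          have h3 : a = a' := sub_eq_zero.1 (eq_zero_of_pow_eq_zero h1)
          exact absurd (h3 ▸ (Finset.mem_filter.1 ha').1) haA
        · intro hv; exact absurd hv hvσ
  · by_cases hvσ : v ∈ σ
    · rw [hHσ v hvσ, eval_zero]
      exact ⟨fun _ => hvσ, fun _ => rfl⟩
    · rw [hH v hvσ, eval_prod, Finset.prod_eq_zero_iff]
      constructor
      · rintro ⟨a', ha', h1⟩
        rw [eval_pow, eval_sub, eval_X, eval_C] at h1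
        have h3 : t j = a' := sub_eq_zero.1 (eq_zero_of_pow_eq_zero h1)
        exact absurd h3.symm ((Finset.mem_filter.1 ha').2 j)
      · intro hv; exact absurd hv hvσ
  · by_cases hvσ : v ∈ σ
    · rw [hHσ v hvσ]; exact DegLE.zero _
    · intro i hi
      refine coeff_eq_zero_of_natDegree_lt ?_
      have h2 := hcn v hvσ
      have h3 := hNσ v hvσ
      omega
  · -- coefficients at infinity
    by_cases hvσ : v ∈ σ
    · rw [hHσ v hvσ]
      unfold lc ind
      rw [if_pos (hστ hvσ)]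
      simp
    · have h2 := hcn v hvσ
      have h3 := hNσ v hvσ
      unfold lc ind
      rw [h3]
      by_cases hvt : v ∈ τ
      · have h4 := hcp' v hvt hvσ
        rw [if_pos hvt, if_pos (by omega)]
        exact coeff_eq_zero_of_natDegree_lt (by omega)
      · rw [hc v hvt, add_zero, if_pos (by omega), if_neg hvt, Int.toNat_natCast]
        exact (hHm v hvσ).leadingCoeff
  · show ∑ j, ((if t j ∈ A then b (t j) i else 0) + ω j * ∑ v ∈ σ, Δ.ray v i) +
      ∑ v, Δ.ray v i * (∑ a ∈ A', ca a v + c v - if v ∈ σ then ∑ j, ω j else 0) = 0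
    simp only [mul_sub, mul_add, Finset.sum_add_distrib, Finset.sum_sub_distrib]
    have h1 : ∑ v, Δ.ray v i * ∑ a ∈ A', ca a v = ∑ a ∈ A', b a i := by
      simp only [Finset.mul_sum]
      rw [Finset.sum_comm]
      exact Finset.sum_congr rfl fun a _ => (hba a i).symm
    have h2 : ∑ v, Δ.ray v i * (if v ∈ σ then ∑ j, ω j else 0) =
        ∑ j, ω j * ∑ v ∈ σ, Δ.ray v i := by
      rw [← Finset.sum_mul, mul_comm, Finset.sum_mul]
      rw [Finset.sum_congr rfl fun v _ => show Δ.ray v i * (if v ∈ σ then ∑ j, ω j else 0) =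
        if v ∈ σ then Δ.ray v i * ∑ j, ω j else 0 by split_ifs <;> simp]
      rw [Finset.sum_ite_mem, Finset.univ_inter]
    have h3 := hsplitS fun a => b a i
    rw [h1, h2, ← hb i, h3]
    ring
  · rw [hyh i]
    congr 1
    exact Finset.prod_congr rfl fun v _ => by rw [hhH v]
  · obtain ⟨hτ', hστ', g, hg, hg1, hg0, hz1⟩ := hz
    -- degrees at infinity
    have hdeg : ∀ i, (y i).intDegree = ∑ a ∈ A, b a i := by
      intro i
      have hprod : ∏ a ∈ A, algebraMap k[X] (RatFunc k) (X - C a) ^ b a i ≠ 0 :=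
        Finset.prod_ne_zero_iff.2 fun a _ => zpow_ne_zero _ (hX a)
      have hC : (RatFunc.C (y0 i) : RatFunc k) ≠ 0 := by
        rw [Ne, map_eq_zero]; exact hy0 i
      rw [hyb i, RatFunc.intDegree_mul hC hprod, RatFunc.intDegree_C, zero_add,
        intDegree_prod _ _ fun a _ => zpow_ne_zero _ (hX a)]
      refine Finset.sum_congr rfl fun a _ => ?_
      rw [intDegree_zpow (hX a), RatFunc.intDegree_polynomial, natDegree_X_sub_C]
      push_cast; ring
    have hlead : ∀ i, lead (y i) = y0 i := by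
      intro i
      rw [hyb i, map_mul, lead_C, map_prod]
      rw [Finset.prod_eq_one, mul_one]
      intro a _
      rw [map_zpow₀, lead_poly, leadingCoeff_X_sub_C, one_zpow]
    have hzj : ∀ i, (y i).intDegree = ∑ v, Δ.ray v i * (g v).intDegree ∧
        z i = y0 i * ∏ v, lead (g v) ^ (-Δ.ray v i) := by
      intro i
      obtain ⟨hz0, hinf⟩ := hz1 i
      obtain ⟨-, h2, h3⟩ := hinf.deg_lead hz0
      have hprod : ∏ v, g v ^ (-Δ.ray v i) ≠ 0 :=
        Finset.prod_ne_zero_iff.2 fun v _ => zpow_ne_zero _ (hg v)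
      constructor
      · rw [RatFunc.intDegree_mul (hy i) hprod,
          intDegree_prod _ _ fun v _ => zpow_ne_zero _ (hg v)] at h2
        rw [Finset.sum_congr rfl fun v _ => intDegree_zpow (hg v) (-Δ.ray v i)] at h2
        have h4 : ∑ v, -Δ.ray v i * (g v).intDegree = -∑ v, Δ.ray v i * (g v).intDegree := by
          rw [← Finset.sum_neg_distrib]
          exact Finset.sum_congr rfl fun v _ => by ring
        rw [h4] at h2
        linarith
      · rw [map_mul, hlead, map_prod] at h3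
        rw [← h3]
        congr 1
        exact Finset.prod_congr rfl fun v _ => map_zpow₀ _ _ _
    have h1 := Δ.int_uniq (σ := σ) hτ hτ' hστ hστ' (c := c) (c' := fun v => -(g v).intDegree) hc
      (fun v hv => by
        rw [hg1 v hv, RatFunc.intDegree_one, neg_zero]) hcp'
      (fun v hv hvσ => by
        have := (hg0 v hv hvσ).deg_neg (hg v)
        linarith)
      (fun i => by
        rw [← hb i, ← hdeg i, (hzj i).1, ← Finset.sum_neg_distrib]
        exact Finset.sum_congr rfl fun v _ => by ring)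
    refine ⟨h1.1.symm, fun v => lead (g v), fun v => lead_ne (hg v), fun v hv => ?_,
      fun i => (hzj i).2⟩
    rw [h1.1] at hv
    beta_reduce
    rw [hg1 v hv, map_one]

/-- **Lifts of sections of orbits.** -/
theorem morph0 {σ : Finset V} (hσ : Δ.cone σ) (y : Fin r → RatFunc k) (hy : ∀ j, y j ≠ 0) :
    ∃ (H : V → k[X]) (N : V → ℤ) (y0 : Fin r → k) (h : V → RatFunc k) (τ : Finset V),
      (∀ v ∈ σ, H v = 0) ∧ (∀ v, v ∉ σ → (H v).Monic) ∧
      (∀ a : k, ∃ ρ, Δ.cone ρ ∧ ∀ v, (H v).eval a = 0 ↔ v ∈ ρ) ∧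
      (∀ v, DegLE (H v) (N v)) ∧ Δ.cone τ ∧ σ ⊆ τ ∧ (∀ v, lc (H v) (N v) = ind k τ v) ∧
      (∀ j, ∑ v, Δ.ray v j * N v = 0) ∧ (∀ j, y0 j ≠ 0) ∧ (∀ v, h v ≠ 0) ∧
      (∀ j, y j = RatFunc.C (y0 j) * ∏ v,
        (if v ∈ σ then h v else algebraMap k[X] (RatFunc k) (H v)) ^ Δ.ray v j) ∧
      ∀ τ' z, LimInf Δ σ y τ' z → τ' = τ ∧ ∃ μ : V → k, (∀ v, μ v ≠ 0) ∧
        (∀ v, v ∉ τ → μ v = 1) ∧ ∀ j, z j = y0 j * ∏ v, μ v ^ (-Δ.ray v j) := by
  obtain ⟨o, ho⟩ := morph_bad Δ hσ y hy (J := Empty) Empty.elim (fun a => a.elim)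
  obtain ⟨H, N, y0, h, τ, h1, h2, h3, -, h5, h6, h7, h8, h9, h10, h11, h12, h13⟩ := ho Empty.elim
  refine ⟨H, N, y0, h, τ, h1, h2, fun a => h3 a fun j => j.elim, h5, h6, h7, h8, fun j => ?_,
    h10, h11, fun j => ?_, h13⟩
  · have := h9 j
    rw [Finset.univ_eq_empty (α := Empty), Finset.sum_empty, zero_add] at this
    exact this
  · have := h12 j
    rw [Finset.univ_eq_empty (α := Empty), Finset.prod_empty, mul_one] at this
    exact this

/-- **Lifts of sections of orbits**, joint form. -/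
theorem morph (σ : Finset V) (hσ : Δ.cone σ) (y : Fin r → RatFunc k) (hy : ∀ j, y j ≠ 0) :
    ∃ (H : V → k[X]) (N : V → ℤ) (y₀ : Fin r → k) (h : V → RatFunc k),
      (∀ v ∈ σ, H v = 0) ∧ (∀ v, v ∉ σ → (H v).Monic) ∧
      (∀ a : k, ∃ τ, Δ.cone τ ∧ ∀ v, (H v).eval a = 0 ↔ v ∈ τ) ∧
      (∀ v, DegLE (H v) (N v)) ∧ (∃ τ, Δ.cone τ ∧ ∀ v, lc (H v) (N v) = 0 ↔ v ∈ τ) ∧
      (∀ j, ∑ v, Δ.ray v j * N v = 0) ∧ (∀ j, y₀ j ≠ 0) ∧ (∀ v, h v ≠ 0) ∧
      (∀ j, y j = RatFunc.C (y₀ j) * (∏ v, if v ∈ σ then 1 else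
        algebraMap k[X] (RatFunc k) (H v) ^ Δ.ray v j) *
        ∏ v, if v ∈ σ then h v ^ Δ.ray v j else 1) ∧
      ∀ (τ : Finset V) (z : Fin r → k), LimInf Δ σ y τ z →
        (∀ v, lc (H v) (N v) = 0 ↔ v ∈ τ) ∧ ∃ μ : V → k, (∀ v, μ v ≠ 0) ∧
          (∀ v, v ∉ τ → μ v = 1) ∧ ∀ j, z j = y₀ j * ∏ v, μ v ^ Δ.ray v j := by
  obtain ⟨H, N, y0, h, τ, h1, h2, h3, h4, h5, h6, h7, h8, h9, h10, h11, h12⟩ := morph0 Δ hσ y hy
  have hind : ∀ v, lc (H v) (N v) = 0 ↔ v ∈ τ := by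
    intro v
    rw [h7 v]
    unfold ind
    by_cases hv : v ∈ τ
    · rw [if_pos hv]; exact ⟨fun _ => hv, fun _ => rfl⟩
    · rw [if_neg hv]; exact ⟨fun h => absurd h one_ne_zero, fun h => absurd h hv⟩
  refine ⟨H, N, y0, h, h1, h2, h3, h4, ⟨τ, h5, hind⟩, h8, h9, h10, fun j => ?_,
    fun τ' z hz => ?_⟩
  · rw [h11 j, mul_assoc, ← Finset.prod_mul_distrib]
    congr 1
    refine Finset.prod_congr rfl fun v _ => ?_
    by_cases hv : v ∈ σ
    · rw [if_pos hv, if_pos hv, if_pos hv, one_mul]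
    · rw [if_neg hv, if_neg hv, if_neg hv, mul_one]
  · obtain ⟨rfl, μ, hμ, hμ1, hz⟩ := h12 τ' z hz
    refine ⟨hind, fun v => (μ v)⁻¹, fun v => inv_ne_zero (hμ v), fun v hv => ?_, fun j => ?_⟩
    · beta_reduce
      rw [hμ1 v hv, inv_one]
    · rw [hz j]
      congr 1
      exact Finset.prod_congr rfl fun v _ => by rw [inv_zpow, zpow_neg]

end fan

section eq

variable {dB r : ℕ} {B Q V : Type} [Fintype V] [DecidableEq V] {k : Type} [Field k]

/-- the constants at `mulF x z` -/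
theorem cst_mulF [Algebra ℂ k] (f : Q → Lau (dB + r)) (x : Fin (dB + r) → k) (z : Fin r → k)
    (q : Q) (χ : Fin (dB + r) → ℤ) :
    cst f (mulF x z) q χ = cst f x q χ * ∏ j, z j ^ χ (Fin.natAdd dB j) := by
  unfold cst mon mulF
  rw [mul_assoc]
  congr 1
  simp only [mul_zpow, Finset.prod_mul_distrib]
  congr 1
  rw [Fin.prod_univ_add]
  simp

/-- **The Cox equations of the lift.** -/
theorem morph_eq (Δ : FanV V r) (f : B ⊕ Q → Lau (dB + r)) {a : Q → (Fin (dB + r) → ℤ) → k[X]}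
    {σ : Finset V} {y : Fin r → RatFunc k} (hb : BdSec Δ f a σ y) {H : V → k[X]}
    {y0 : Fin r → k} {h : V → RatFunc k} (hHσ : ∀ v ∈ σ, H v = 0)
    (hH : ∀ v, v ∉ σ → H v ≠ 0) (hh : ∀ v, h v ≠ 0)
    (hy : ∀ j, y j = RatFunc.C (y0 j) * ∏ v,
      (if v ∈ σ then h v else algebraMap k[X] (RatFunc k) (H v)) ^ Δ.ray v j) (q : Q) :
    (coxF f Δ.ray).F (fun q χ => a q χ * C (∏ j, y0 j ^ χ (Fin.natAdd dB j))) q H = 0 := by
  classical
  let h' : V → RatFunc k := fun v => if v ∈ σ then h v else algebraMap k[X] (RatFunc k) (H v)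
  have hh' : ∀ v, h' v ≠ 0 := by
    intro v
    by_cases hv : v ∈ σ
    · show (if v ∈ σ then h v else _) ≠ 0
      rw [if_pos hv]; exact hh v
    · show (if v ∈ σ then h v else _) ≠ 0
      rw [if_neg hv]; exact rf_ne (hH v hv)
  apply (IsFractionRing.injective k[X] (RatFunc k))
  rw [map_zero, Cox.F_eq, map_sum]
  -- the common factor
  let κ : RatFunc k := ∏ v, h' v ^ mn (f (Sum.inr q)) (fibv (Δ.ray v))
  have hκ : κ ≠ 0 := Finset.prod_ne_zero_iff.2 fun v _ => zpow_ne_zero _ (hh' v)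
  have key : ∀ χ ∈ (f (Sum.inr q)).support, (∀ v ∈ σ, (coxF f Δ.ray).e q χ v = 0) →
      algebraMap k[X] (RatFunc k) (a q χ) * ∏ j, y j ^ χ (Fin.natAdd dB j) =
        κ * algebraMap k[X] (RatFunc k) (a q χ * C (∏ j, y0 j ^ χ (Fin.natAdd dB j)) *
          ∏ v, H v ^ (coxF f Δ.ray).e q χ v) := by
    intro χ hχ hσ
    have h1 : ∏ j, y j ^ χ (Fin.natAdd dB j) =
        RatFunc.C (∏ j, y0 j ^ χ (Fin.natAdd dB j)) *
          ∏ v, h' v ^ pair χ (fibv (dB := dB) (Δ.ray v)) := by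
      rw [Finset.prod_congr rfl fun j _ => by rw [hy j]]
      simp only [mul_zpow, Finset.prod_mul_distrib, map_prod, map_zpow₀]
      congr 1
      simp only [← Finset.prod_zpow, ← zpow_mul]
      rw [Finset.prod_comm]
      refine Finset.prod_congr rfl fun v _ => ?_
      rw [pair_fibv_fan]
      have h2 : ∀ s : Finset (Fin r), h' v ^ ∑ j ∈ s, χ (Fin.natAdd dB j) * Δ.ray v j =
          ∏ j ∈ s, h' v ^ (χ (Fin.natAdd dB j) * Δ.ray v j) := by
        intro s
        induction s using Finset.induction_on with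
        | empty => simp
        | insert a s ha ih =>
          rw [Finset.sum_insert ha, Finset.prod_insert ha, zpow_add₀ (hh' v), ih]
      rw [h2]
      exact Finset.prod_congr rfl fun j _ => by rw [mul_comm (χ _)]
    have h3 : ∏ v, h' v ^ pair χ (fibv (dB := dB) (Δ.ray v)) =
        κ * ∏ v, algebraMap k[X] (RatFunc k) (H v) ^ (coxF f Δ.ray).e q χ v := by
      show _ = (∏ v, h' v ^ mn (f (Sum.inr q)) (fibv (Δ.ray v))) * _
      rw [← Finset.prod_mul_distrib]
      refine Finset.prod_congr rfl fun v _ => ?_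
      have h4 : pair χ (fibv (dB := dB) (Δ.ray v)) =
          mn (f (Sum.inr q)) (fibv (Δ.ray v)) + ((coxF f Δ.ray).e q χ v : ℤ) := by
        show _ = _ + (((pair χ (fibv (Δ.ray v)) - mn (f (Sum.inr q)) (fibv (Δ.ray v))).toNat :
          ℕ) : ℤ)
        rw [Int.toNat_of_nonneg (by linarith [mn_le hχ (fibv (dB := dB) (Δ.ray v))])]
        ring
      rw [h4, zpow_add₀ (hh' v), zpow_natCast]
      congr 1
      by_cases hv : v ∈ σ
      · rw [hσ v hv, pow_zero, pow_zero]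
      · show (if v ∈ σ then h v else _) ^ _ = _
        rw [if_neg hv]
    have h9 : algebraMap k[X] (RatFunc k) (∏ v, H v ^ (coxF f Δ.ray).e q χ v) =
        ∏ v, algebraMap k[X] (RatFunc k) (H v) ^ (coxF f Δ.ray).e q χ v := by
      rw [map_prod]
      exact Finset.prod_congr rfl fun v _ => map_pow _ _ _
    rw [h1, h3, map_mul, map_mul, RatFunc.algebraMap_C, h9]
    ring
  have h5 := hb.eq q
  rw [Finset.sum_congr rfl fun χ hχ => key χ (Finset.mem_filter.1 hχ).1 (Finset.mem_filter.1 hχ).2,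
    ← Finset.mul_sum, mul_eq_zero] at h5
  have h6 := h5.resolve_left hκ
  rw [← h6]
  symm
  refine Finset.sum_subset (Finset.filter_subset _ _) fun χ hχ hn => ?_
  have h7 : ∃ v ∈ σ, (coxF f Δ.ray).e q χ v ≠ 0 := by
    by_contra h8
    push Not at h8
    exact hn (Finset.mem_filter.2 ⟨hχ, h8⟩)
  obtain ⟨v, hv, hv0⟩ := h7
  have h8 : H v ^ (coxF f Δ.ray).e q χ v = 0 := by rw [hHσ v hv, zero_pow hv0]
  rw [Finset.prod_eq_zero (Finset.mem_univ v) h8, mul_zero, map_zero]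

end eq

section vf

variable {dB r : ℕ} {B Q V : Type} [Fintype V] [DecidableEq V] {k : Type} [Field k]
  [Algebra ℂ k] {K : Type} [Field K] [Algebra ℂ K] {x : Fin (dB + r) → K}
  {f : B ⊕ Q → Lau (dB + r)}

/-- from the point at infinity in the sense of `LimInf` to the Cox coordinates of the lift -/
theorem VF.of_lim {Δ : FanV V r} {x₀ : Fin (dB + r) → k} {τ : Finset V} {z y0 : Fin r → k}
    {μ : V → k} (hμ : ∀ v, μ v ≠ 0) (hμ1 : ∀ v, v ∉ τ → μ v = 1)
    (hz : ∀ j, z j = y0 j * ∏ v, μ v ^ (-Δ.ray v j))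
    (h : VF x f Δ.ray (mulF x₀ z) (ind k τ)) : VF x f Δ.ray (mulF x₀ y0) (ind k τ) := by
  refine h.of_tau τ (fun v => (μ v)⁻¹) (fun v => inv_ne_zero (hμ v)) fun j => ?_
  rw [hz j]
  congr 1
  rw [← Finset.prod_subset (Finset.subset_univ τ) fun v _ hv => by rw [hμ1 v hv, one_zpow]]
  exact Finset.prod_congr rfl fun v _ => by rw [inv_zpow, zpow_neg]

/-- the converse of `VF.of_lim` -/
theorem VF.to_lim {Δ : FanV V r} {x₀ : Fin (dB + r) → k} {τ : Finset V} {z y0 : Fin r → k}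
    {μ : V → k} (hμ : ∀ v, μ v ≠ 0) (hμ1 : ∀ v, v ∉ τ → μ v = 1)
    (hz : ∀ j, z j = y0 j * ∏ v, μ v ^ (-Δ.ray v j))
    (h : VF x f Δ.ray (mulF x₀ y0) (ind k τ)) : VF x f Δ.ray (mulF x₀ z) (ind k τ) := by
  refine h.of_tau τ (fun v => μ v) hμ fun j => ?_
  rw [hz j, ← Finset.prod_subset (Finset.subset_univ τ) fun v _ hv => by rw [hμ1 v hv, one_zpow],
    mul_assoc, ← Finset.prod_mul_distrib, Finset.prod_eq_one, mul_one]
  intro v _
  rw [← zpow_add₀ (hμ v), neg_add_cancel, zpow_zero]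

/-- **The handle of a section** whose point at infinity carries a very free curve. -/
theorem morph_vf [IsAlgClosed k] (Δ : FanV V r) {a : Q → (Fin (dB + r) → ℤ) → k[X]}
    {σ : Finset V} {y : Fin r → RatFunc k} (hb : BdSec Δ f a σ y) {τ : Finset V} {z : Fin r → k}
    (hl : LimInf Δ σ y τ z) (x₀ : Fin (dB + r) → k)
    (hvf : VF x f Δ.ray (mulF x₀ z) (ind k τ)) :
    ∃ (H : V → k[X]) (N : V → ℤ) (y0 : Fin r → k),
      (∀ v, H v = 0 ↔ v ∈ σ) ∧ (∀ a : k, ∃ ρ, Δ.cone ρ ∧ ∀ v, (H v).eval a = 0 ↔ v ∈ ρ) ∧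
      (∀ v, DegLE (H v) (N v)) ∧ (∀ v, lc (H v) (N v) = ind k τ v) ∧
      (coxF f Δ.ray).Rel N ∧ (∀ j, y0 j ≠ 0) ∧
      (∀ q, (coxF f Δ.ray).F (fun q χ => a q χ * C (∏ j, y0 j ^ χ (Fin.natAdd dB j))) q H = 0) ∧
      VF x f Δ.ray (mulF x₀ y0) fun v => lc (H v) (N v) := by
  obtain ⟨H, N, y0, h, τ', h1, h2, h3, h4, h5, h6, h7, h8, h9, h10, h11, h12⟩ :=
    morph0 Δ hb.cone y hb.ne
  obtain ⟨rfl, μ, hμ, hμ1, hz⟩ := h12 τ z hl
  refine ⟨H, N, y0, fun v => ⟨fun h0 => ?_, h1 v⟩, h3, h4, h7, (rel_iff f Δ.ray N).2 h8, h9,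
    morph_eq Δ f hb h1 (fun v hv => (h2 v hv).ne_zero) h10 h11, ?_⟩
  · by_contra hv
    exact (h2 v hv).ne_zero h0
  · rw [show (fun v => lc (H v) (N v)) = ind k τ from funext h7]
    exact VF.of_lim hμ hμ1 hz hvf

end vf

end Pool.Agent.Work.WRC
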