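import Mathlib
import Pool.Agent.Work.MP_4329d7_ag_wrc.Morph

/-!
# Handles over the base curve

`morph_eq_bad`: the Cox equations of the lift of a section over the curve
`x₀ * ∏ (s - t_j)^(b_j)`; `exists_hdl`: the lift with bad positions `t_j` (not used in blueprint v3).
-/

namespace Pool.Agent.Work.WRC

open Polynomial Pool.Agent.Work.CI

variable {dB r : ℕ} {B Q V : Type} [Fintype V] [DecidableEq V] {k : Type} [Field k]

theorem pair_append (χ : Fin (dB + r) → ℤ) (b : Fin dB → ℤ) (w : Fin r → ℤ) :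
    pair χ (Fin.append b w) =
      ∑ i, χ (Fin.castAdd r i) * b i + ∑ i, χ (Fin.natAdd dB i) * w i := by
  unfold pair
  rw [Fin.sum_univ_add]
  simp

theorem prod_zpow_sum {F : Type*} [Field F] {x : F} (hx : x ≠ 0) {ι : Type*} (s : Finset ι)
    (g : ι → ℤ) : ∏ v ∈ s, x ^ g v = x ^ ∑ v ∈ s, g v := by
  classical
  induction s using Finset.induction_on with
  | empty => simp
  | insert w s hw ih => rw [Finset.prod_insert hw, Finset.sum_insert hw, ih, zpow_add₀ hx]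

theorem e_cast (f : Q → Lau (dB + r)) {W : Type} (b : W → Fin (dB + r) → ℤ) {q : Q}
    {χ : Fin (dB + r) → ℤ} (hχ : χ ∈ (f q).support) (w : W) :
    pair χ (b w) = mn (f q) (b w) + ((coxR f b).e q χ w : ℤ) := by
  show _ = _ + (((pair χ (b w) - mn (f q) (b w)).toNat : ℕ) : ℤ)
  rw [Int.toNat_of_nonneg (by linarith [mn_le hχ (b w)])]
  ring

/-- **The Cox equations of the lift** over the base curve. -/
theorem morph_eq_bad [Algebra ℂ k] (Δ : FanV V r) (f : B ⊕ Q → Lau (dB + r)) {J : Type}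
    [Fintype J] (b : J → Fin dB → ℤ) (t : J → k) (x₀ : Fin (dB + r) → k)
    {a : Q → (Fin (dB + r) → ℤ) → k[X]} (m : Q → k[X]) (hm : ∀ q, m q ≠ 0)
    (ha : ∀ q, ∀ χ ∈ (f (Sum.inr q)).support, a q χ = m q *
      cg (fun q => f (Sum.inr q)) x₀ (fun j => Fin.append (b j) (0 : Fin r → ℤ)) t q χ)
    {σ : Finset V} {y : Fin r → RatFunc k} (hb : BdSec Δ f a σ y) {H : V → k[X]}
    {y0 : Fin r → k} {h : V → RatFunc k} (w : J → Fin r → ℤ) (hHσ : ∀ v ∈ σ, H v = 0)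
    (hH : ∀ v, v ∉ σ → H v ≠ 0) (hh : ∀ v, h v ≠ 0)
    (hy : ∀ i, y i = RatFunc.C (y0 i) *
      (∏ j, algebraMap k[X] (RatFunc k) (X - C (t j)) ^ w j i) * ∏ v,
      (if v ∈ σ then h v else algebraMap k[X] (RatFunc k) (H v)) ^ Δ.ray v i) (q : Q) :
    (coxF f Δ.ray).F (cg (fun q => f (Sum.inr q)) (mulF x₀ y0)
      (fun j => Fin.append (b j) (w j)) t) q H = 0 := by
  classical
  let fr : Q → Lau (dB + r) := fun q => f (Sum.inr q)
  let b0 : J → Fin (dB + r) → ℤ := fun j => Fin.append (b j) (0 : Fin r → ℤ)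
  let b' : J → Fin (dB + r) → ℤ := fun j => Fin.append (b j) (w j)
  let X' : J → RatFunc k := fun j => algebraMap k[X] (RatFunc k) (X - C (t j))
  have hX' : ∀ j, X' j ≠ 0 := fun j => rf_ne (X_sub_C_ne_zero _)
  let h' : V → RatFunc k := fun v => if v ∈ σ then h v else algebraMap k[X] (RatFunc k) (H v)
  have hh' : ∀ v, h' v ≠ 0 := by
    intro v
    by_cases hv : v ∈ σ
    · show (if v ∈ σ then h v else _) ≠ 0
      rw [if_pos hv]; exact hh v
    · show (if v ∈ σ then h v else _) ≠ 0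
      rw [if_neg hv]; exact rf_ne (hH v hv)
  apply (IsFractionRing.injective k[X] (RatFunc k))
  rw [map_zero, Cox.F_eq, map_sum]
  -- the common factor
  let κ : RatFunc k := algebraMap k[X] (RatFunc k) (m q) *
    (∏ j, X' j ^ (mn (fr q) (b' j) - mn (fr q) (b0 j))) *
    ∏ v, h' v ^ mn (f (Sum.inr q)) (fibv (Δ.ray v))
  have hκ : κ ≠ 0 := mul_ne_zero (mul_ne_zero (rf_ne (hm q))
    (Finset.prod_ne_zero_iff.2 fun j _ => zpow_ne_zero _ (hX' j)))
    (Finset.prod_ne_zero_iff.2 fun v _ => zpow_ne_zero _ (hh' v))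
  have key : ∀ χ ∈ (f (Sum.inr q)).support, (∀ v ∈ σ, (coxF f Δ.ray).e q χ v = 0) →
      algebraMap k[X] (RatFunc k) (a q χ) * ∏ j, y j ^ χ (Fin.natAdd dB j) =
        κ * algebraMap k[X] (RatFunc k) (cg fr (mulF x₀ y0) b' t q χ *
          ∏ v, H v ^ (coxF f Δ.ray).e q χ v) := by
    intro χ hχ hσ
    have h1 : ∏ i, y i ^ χ (Fin.natAdd dB i) =
        RatFunc.C (∏ j, y0 j ^ χ (Fin.natAdd dB j)) *
          (∏ j, X' j ^ ∑ i, χ (Fin.natAdd dB i) * w j i) *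
          ∏ v, h' v ^ pair χ (fibv (dB := dB) (Δ.ray v)) := by
      rw [Finset.prod_congr rfl fun j _ => by rw [hy j]]
      simp only [mul_zpow, Finset.prod_mul_distrib, map_prod, map_zpow₀]
      congr 1
      · congr 1
        simp only [← Finset.prod_zpow, ← zpow_mul]
        rw [Finset.prod_comm]
        refine Finset.prod_congr rfl fun j _ => ?_
        rw [← prod_zpow_sum (hX' j)]
        exact Finset.prod_congr rfl fun i _ => by rw [mul_comm (χ _)]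
      · simp only [← Finset.prod_zpow, ← zpow_mul]
        rw [Finset.prod_comm]
        refine Finset.prod_congr rfl fun v _ => ?_
        rw [pair_fibv_fan, ← prod_zpow_sum (hh' v)]
        exact Finset.prod_congr rfl fun j _ => by rw [mul_comm (χ _)]
    have h3 : ∏ v, h' v ^ pair χ (fibv (dB := dB) (Δ.ray v)) =
        (∏ v, h' v ^ mn (f (Sum.inr q)) (fibv (Δ.ray v))) *
          ∏ v, algebraMap k[X] (RatFunc k) (H v) ^ (coxF f Δ.ray).e q χ v := by
      rw [← Finset.prod_mul_distrib]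
      refine Finset.prod_congr rfl fun v _ => ?_
      have h4 : pair χ (fibv (dB := dB) (Δ.ray v)) =
          mn (f (Sum.inr q)) (fibv (Δ.ray v)) + ((coxF f Δ.ray).e q χ v : ℤ) :=
        e_cast fr (fun v => fibv (Δ.ray v)) hχ v
      rw [h4, zpow_add₀ (hh' v), zpow_natCast]
      congr 1
      by_cases hv : v ∈ σ
      · rw [hσ v hv, pow_zero, pow_zero]
      · show (if v ∈ σ then h v else _) ^ _ = _
        rw [if_neg hv]
    have h9 : algebraMap k[X] (RatFunc k) (∏ v, H v ^ (coxF f Δ.ray).e q χ v) =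
        ∏ v, algebraMap k[X] (RatFunc k) (H v) ^ (coxF f Δ.ray).e q χ v := by
      rw [map_prod]
      exact Finset.prod_congr rfl fun v _ => map_pow _ _ _
    have hcgm : ∀ (x : Fin (dB + r) → k) (c : J → Fin (dB + r) → ℤ),
        algebraMap k[X] (RatFunc k) (cg fr x c t q χ) =
          RatFunc.C (cst fr x q χ) * ∏ j, X' j ^ ((coxR fr c).e q χ j : ℤ) := by
      intro x c
      unfold cg
      rw [map_mul, RatFunc.algebraMap_C, map_prod]
      congr 1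
      exact Finset.prod_congr rfl fun j _ => by rw [map_pow, zpow_natCast]
    have h5 : (∏ j, X' j ^ ((coxR fr b0).e q χ j : ℤ)) *
        (∏ j, X' j ^ ∑ i, χ (Fin.natAdd dB i) * w j i) =
        (∏ j, X' j ^ (mn (fr q) (b' j) - mn (fr q) (b0 j))) *
        ∏ j, X' j ^ ((coxR fr b').e q χ j : ℤ) := by
      rw [← Finset.prod_mul_distrib, ← Finset.prod_mul_distrib]
      refine Finset.prod_congr rfl fun j _ => ?_
      rw [← zpow_add₀ (hX' j), ← zpow_add₀ (hX' j)]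
      congr 1
      have h6 := e_cast fr b0 (q := q) (χ := χ) hχ j
      have h7 := e_cast fr b' (q := q) (χ := χ) hχ j
      have h8 : pair χ (b0 j) = ∑ i, χ (Fin.castAdd r i) * b j i := by
        show pair χ (Fin.append (b j) (0 : Fin r → ℤ)) = _
        rw [pair_append]
        simp
      have h8' : pair χ (b' j) = ∑ i, χ (Fin.castAdd r i) * b j i +
          ∑ i, χ (Fin.natAdd dB i) * w j i := pair_append _ _ _
      linarith
    rw [ha q χ hχ, map_mul, map_mul, hcgm, hcgm, cst_mulF, map_mul, h1, h3, h9]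
    have e1 : algebraMap k[X] (RatFunc k) (m q) * (RatFunc.C (cst fr x₀ q χ) *
        ∏ j, X' j ^ ((coxR fr b0).e q χ j : ℤ)) *
        (RatFunc.C (∏ j, y0 j ^ χ (Fin.natAdd dB j)) *
          (∏ j, X' j ^ ∑ i, χ (Fin.natAdd dB i) * w j i) *
          ((∏ v, h' v ^ mn (f (Sum.inr q)) (fibv (Δ.ray v))) *
          ∏ v, algebraMap k[X] (RatFunc k) (H v) ^ (coxF f Δ.ray).e q χ v)) =
        algebraMap k[X] (RatFunc k) (m q) * RatFunc.C (cst fr x₀ q χ) *
          RatFunc.C (∏ j, y0 j ^ χ (Fin.natAdd dB j)) *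
          ((∏ j, X' j ^ ((coxR fr b0).e q χ j : ℤ)) *
          (∏ j, X' j ^ ∑ i, χ (Fin.natAdd dB i) * w j i)) *
          (∏ v, h' v ^ mn (f (Sum.inr q)) (fibv (Δ.ray v))) *
          ∏ v, algebraMap k[X] (RatFunc k) (H v) ^ (coxF f Δ.ray).e q χ v := by ring
    rw [e1, h5]
    show _ = algebraMap k[X] (RatFunc k) (m q) *
      (∏ j, X' j ^ (mn (fr q) (b' j) - mn (fr q) (b0 j))) *
      (∏ v, h' v ^ mn (f (Sum.inr q)) (fibv (Δ.ray v))) * _
    ring
  have h5 := hb.eq q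
  rw [Finset.sum_congr rfl fun χ hχ => key χ (Finset.mem_filter.1 hχ).1 (Finset.mem_filter.1 hχ).2,
    ← Finset.mul_sum, mul_eq_zero] at h5
  have h6 := h5.resolve_left hκ
  rw [← h6]
  symm
  refine Finset.sum_subset (Finset.filter_subset _ _) fun χ hχ hn => ?_
  have h7 : ∃ v ∈ σ, (coxF f Δ.ray).e q χ v ≠ 0 := by
    by_contra h8
    push Not at h8
    exact hn (Finset.mem_filter.2 ⟨hχ, h8⟩)
  obtain ⟨v, hv, hv0⟩ := h7
  have h8 : H v ^ (coxF f Δ.ray).e q χ v = 0 := by rw [hHσ v hv, zero_pow hv0]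
  rw [Finset.prod_eq_zero (Finset.mem_univ v) h8, mul_zero, map_zero]

/-- For large `ω` the lifts `(b_j, o_j + ω_j ∑_σ ray_v)` are adapted to the face of `σ`. -/
theorem exists_omega [Fintype Q] (Δ : FanV V r) (f : B ⊕ Q → Lau (dB + r)) (hΔ : Δ.Adapted f)
    {σ : Finset V} (hσ : Δ.cone σ) (b : Fin dB → ℤ) (o : Fin r → ℤ) :
    ∃ ω : ℤ, ∀ q, ∀ χ ∈ (f (Sum.inr q)).support,
      pair χ (Fin.append b fun i => o i + ω * ∑ v ∈ σ, Δ.ray v i) =
        mn (f (Sum.inr q)) (Fin.append b fun i => o i + ω * ∑ v ∈ σ, Δ.ray v i) →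
      ∀ v ∈ σ, (coxF f Δ.ray).e q χ v = 0 := by
  classical
  obtain ⟨M, hM⟩ : ∃ M : ℤ, ∀ q, ∀ χ ∈ (f (Sum.inr q)).support,
      |pair χ (Fin.append b o)| ≤ M := by
    refine ⟨∑ q, ∑ χ ∈ (f (Sum.inr q)).support, |pair χ (Fin.append b o)|, fun q χ hχ => ?_⟩
    have h1 : |pair χ (Fin.append b o)| ≤
        ∑ χ ∈ (f (Sum.inr q)).support, |pair χ (Fin.append b o)| :=
      Finset.single_le_sum (f := fun χ => |pair χ (Fin.append b o)|)
        (fun _ _ => abs_nonneg _) hχ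
    have h2 : ∑ χ ∈ (f (Sum.inr q)).support, |pair χ (Fin.append b o)| ≤
        ∑ q, ∑ χ ∈ (f (Sum.inr q)).support, |pair χ (Fin.append b o)| :=
      Finset.single_le_sum
        (f := fun q => ∑ χ ∈ (f (Sum.inr q)).support, |pair χ (Fin.append b o)|)
        (fun _ _ => Finset.sum_nonneg fun _ _ => abs_nonneg _) (Finset.mem_univ q)
    exact h1.trans h2
  refine ⟨2 * M + 1, fun q χ hχ he v hv => ?_⟩
  obtain ⟨χ0, hχ0, h0⟩ := hΔ σ hσ q
  have hpair : ∀ χ : Fin (dB + r) → ℤ,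
      pair χ (Fin.append b fun i => o i + (2 * M + 1) * ∑ v ∈ σ, Δ.ray v i) =
        pair χ (Fin.append b o) + (2 * M + 1) * ∑ v ∈ σ, pair χ (fibv (dB := dB) (Δ.ray v)) := by
    intro χ
    rw [pair_append, pair_append]
    have h1 : ∑ v ∈ σ, pair χ (fibv (dB := dB) (Δ.ray v)) =
        ∑ i, χ (Fin.natAdd dB i) * ∑ v ∈ σ, Δ.ray v i := by
      rw [Finset.sum_congr rfl fun v _ => pair_fibv_fan χ (Δ.ray v), Finset.sum_comm]
      exact Finset.sum_congr rfl fun i _ => (Finset.mul_sum _ _ _).symm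
    rw [h1, Finset.mul_sum, add_assoc, ← Finset.sum_add_distrib]
    congr 1
    exact Finset.sum_congr rfl fun i _ => by ring
  have hle := mn_le hχ0 (Fin.append b fun i => o i + (2 * M + 1) * ∑ v ∈ σ, Δ.ray v i)
  rw [← he, hpair, hpair] at hle
  -- the excess on `σ`
  have hex : ∀ χ ∈ (f (Sum.inr q)).support, ∑ v ∈ σ, pair χ (fibv (dB := dB) (Δ.ray v)) =
      ∑ v ∈ σ, mn (f (Sum.inr q)) (fibv (Δ.ray v)) +
        ∑ v ∈ σ, ((coxF f Δ.ray).e q χ v : ℤ) := by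
    intro χ hχ
    rw [← Finset.sum_add_distrib]
    exact Finset.sum_congr rfl fun v _ =>
      e_cast (fun q => f (Sum.inr q)) (fun v => fibv (Δ.ray v)) hχ v
  rw [hex χ hχ, hex χ0 hχ0] at hle
  have h1 : ∑ v ∈ σ, ((coxF f Δ.ray).e q χ0 v : ℤ) = 0 :=
    Finset.sum_eq_zero fun v hv => by rw [h0 v hv]; rfl
  rw [h1] at hle
  have h2 := abs_le.1 (hM q χ hχ)
  have h3 := abs_le.1 (hM q χ0 hχ0)
  have hM0 : 0 ≤ M := (abs_nonneg _).trans (hM q χ hχ)
  have h4 : (2 * M + 1) * ∑ v ∈ σ, ((coxF f Δ.ray).e q χ v : ℤ) < 2 * M + 1 := by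
    nlinarith
  have h5 : 0 ≤ ∑ v ∈ σ, ((coxF f Δ.ray).e q χ v : ℤ) :=
    Finset.sum_nonneg fun _ _ => Int.natCast_nonneg _
  have h6 : ∑ v ∈ σ, ((coxF f Δ.ray).e q χ v : ℤ) = 0 := by
    by_contra h7
    have h8 : 1 ≤ ∑ v ∈ σ, ((coxF f Δ.ray).e q χ v : ℤ) := by omega
    nlinarith
  have h7 := (Finset.sum_eq_zero_iff_of_nonneg fun v _ =>
    Int.natCast_nonneg ((coxF f Δ.ray).e q χ v)).1 h6 v hv
  exact_mod_cast h7

/-- **The handle of a section** over the base curve. -/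
theorem exists_hdl [IsAlgClosed k] [Algebra ℂ k] [Fintype Q] (Δ : FanV V r)
    (f : B ⊕ Q → Lau (dB + r)) (hΔ : Δ.Adapted f) {J : Type} [Fintype J] (b : J → Fin dB → ℤ)
    (hbs : ∀ i, ∑ j, b j i = 0) (t : J → k) (ht : Function.Injective t) (x₀ : Fin (dB + r) → k)
    (hx₀ : ∀ i, x₀ i ≠ 0) {a : Q → (Fin (dB + r) → ℤ) → k[X]} (m : Q → k[X])
    (hm : ∀ q, m q ≠ 0)
    (ha : ∀ q, ∀ χ ∈ (f (Sum.inr q)).support, a q χ = m q *
      cg (fun q => f (Sum.inr q)) x₀ (fun j => Fin.append (b j) (0 : Fin r → ℤ)) t q χ)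
    {σ : Finset V} {y : Fin r → RatFunc k} (hb : BdSec Δ f a σ y) :
    ∃ (y0 : Fin r → k) (b' : J → Fin (dB + r) → ℤ) (H : V → k[X]) (N : V → ℤ),
      (∀ j, mulF x₀ y0 j ≠ 0) ∧ (∀ i, y0 i ≠ 0) ∧
      (∀ j i, b' j (Fin.castAdd r i) = b j i) ∧
      (∀ i, ∑ j, b' j i + ∑ v, N v * (fibv (Δ.ray v) : Fin (dB + r) → ℤ) i = 0) ∧
      (∀ v, DegLE (H v) (N v)) ∧ (∀ v, H v = 0 ↔ v ∈ σ) ∧
      (∀ a : k, (∀ j, a ≠ t j) → ∃ τ, Δ.cone τ ∧ ∀ v, (H v).eval a = 0 ↔ v ∈ τ) ∧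
      (∀ j v, (H v).eval (t j) = 0 ↔ v ∈ σ) ∧
      (∀ j q, ∀ χ ∈ (f (Sum.inr q)).support, (coxR (fun q => f (Sum.inr q)) b').e q χ j = 0 →
        ∀ v ∈ σ, (coxF f Δ.ray).e q χ v = 0) ∧
      (∃ τ, Δ.cone τ ∧ ∀ v, lc (H v) (N v) = 0 ↔ v ∈ τ) ∧
      (∀ q, (coxF f Δ.ray).F (cg (fun q => f (Sum.inr q)) (mulF x₀ y0) b' t) q H = 0) ∧
      ∀ τ z, LimInf Δ σ y τ z → (∀ v, lc (H v) (N v) = ind k τ v) ∧
        ∃ μ : V → k, (∀ v, μ v ≠ 0) ∧ (∀ v, v ∉ τ → μ v = 1) ∧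
          ∀ i, z i = y0 i * ∏ v, μ v ^ (-Δ.ray v i) := by
  classical
  obtain ⟨o, ho⟩ := morph_bad Δ hb.cone y hb.ne t ht
  choose ω hω using fun j => exists_omega Δ f hΔ hb.cone (b j) (o j)
  obtain ⟨H, N, y0, h, τ, h1, h2, h3, h4, h5, h6, h7, h8, h9, h10, h11, h12, h13⟩ := ho ω
  have hind : ∀ (τ : Finset V) v, ind k τ v = 0 ↔ v ∈ τ := by
    intro τ v
    unfold ind
    by_cases hv : v ∈ τ
    · rw [if_pos hv]; exact ⟨fun _ => hv, fun _ => rfl⟩
    · rw [if_neg hv]; exact ⟨fun h => absurd h one_ne_zero, fun h => absurd h hv⟩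
  let b' : J → Fin (dB + r) → ℤ := fun j =>
    Fin.append (b j) fun i => o j i + ω j * ∑ v ∈ σ, Δ.ray v i
  have hbl : ∀ j i, b' j (Fin.castAdd r i) = b j i := fun j i => Fin.append_left _ _ _
  have hbr : ∀ j i, b' j (Fin.natAdd dB i) = o j i + ω j * ∑ v ∈ σ, Δ.ray v i :=
    fun j i => Fin.append_right _ _ _
  refine ⟨y0, b', H, N,
    fun i => ?_, h10, hbl, fun i => ?_, h5, fun v => ?_, h3, h4,
    fun j q χ hχ he v hv => ?_, ⟨τ, h6, fun v => by rw [h8 v, hind]⟩, fun q => ?_,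
    fun τ' z hz => ?_⟩
  · unfold mulF
    refine mul_ne_zero (hx₀ i) ?_
    refine Fin.addCases (fun i => ?_) (fun i => ?_) i
    · rw [Fin.append_left]; exact one_ne_zero
    · rw [Fin.append_right]; exact h10 i
  · refine Fin.addCases (fun i => ?_) (fun i => ?_) i
    · rw [Finset.sum_congr rfl fun j _ => hbl j i, hbs i, zero_add]
      refine Finset.sum_eq_zero fun v _ => ?_
      unfold fibv
      rw [Fin.append_left]
      simp
    · rw [Finset.sum_congr rfl fun j _ => hbr j i, ← h9 i]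
      congr 1
      refine Finset.sum_congr rfl fun v _ => ?_
      unfold fibv
      rw [Fin.append_right, mul_comm]
  · constructor
    · intro h0
      by_contra hv
      exact (h2 v hv).ne_zero h0
    · exact h1 v
  · refine hω j q χ hχ ?_ v hv
    have h14 := e_cast (fun q => f (Sum.inr q)) b' hχ j
    rw [he] at h14
    show pair χ (b' j) = mn (f (Sum.inr q)) (b' j)
    rw [h14]
    simp
  · exact morph_eq_bad Δ f b t x₀ m hm ha hb (fun j i => o j i + ω j * ∑ v ∈ σ, Δ.ray v i) h1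
      (fun v hv => (h2 v hv).ne_zero) h11 h12 q
  · obtain ⟨rfl, μ, hμ⟩ := h13 τ' z hz
    exact ⟨h8, μ, hμ⟩

end Pool.Agent.Work.WRC
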