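import Mathlib
import Pool.Agent.Work.MP_4329d7_ag_wrc.RedDefs

/-!
W-RC, SCALE, part A: places and ordered groups.

* `exists_val`: the value group of a place; `spO_exists`: every point of the torus specialises;
* `gs_C`, `gs_X`, `gs_C_iff`: the Gauss place on constants and on the variable;
* `FanV.adj`: two points `P`, `P + w • δ` of `Γ^r` such that no functional of the fan changes its
  sign between them.
-/

namespace Pool.Agent.Work.WRC

open Polynomial Pool.Agent.Work.CI Pool.Agent.Work.CW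

section val

variable {F κ : Type} [Field F] [Field κ]

/-- The value group of a place. -/
theorem exists_val (P : Plc F κ) : ∃ (Γ : Type) (_ : AddCommGroup Γ) (_ : LinearOrder Γ)
    (_ : IsOrderedAddMonoid Γ) (ν : F → Γ),
    (∀ x y, x ≠ 0 → y ≠ 0 → ν (x * y) = ν x + ν y) ∧
    (∀ x, x ≠ 0 → (P.S x 0 ↔ 0 < ν x)) ∧
    (∀ x, x ≠ 0 → ((∃ y, y ≠ 0 ∧ P.S x y) ↔ ν x = 0)) ∧
    ∀ γ, ∃ x, x ≠ 0 ∧ ν x = γ := by
  classical
  let O := plcRing P
  have hmem : ∀ x, x ∈ O ↔ ∃ y, P.S x y := fun x => Iff.rfl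
  let Γ := Additive (O.ValueGroup)ˣ
  let ν : F → Γ := fun x => if h : x = 0 then 0 else
    Additive.ofMul (Units.mk0 (O.valuation x) ((O.valuation.ne_zero_iff).2 h))⁻¹
  have hν : ∀ x (h : x ≠ 0), ν x =
      Additive.ofMul (Units.mk0 (O.valuation x) ((O.valuation.ne_zero_iff).2 h))⁻¹ :=
    fun x h => dif_neg h
  have hlt : ∀ x, x ≠ 0 → (P.S x 0 ↔ O.valuation x < 1) := by
    intro x hx
    constructor
    · intro h
      have h1 : O.valuation x ≤ 1 := (O.valuation_le_one_iff x).2 ((hmem x).2 ⟨0, h⟩)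
      refine lt_of_le_of_ne h1 fun h2 => ?_
      have h3 : x⁻¹ ∈ O := by
        rw [← O.valuation_le_one_iff, map_inv₀, h2, inv_one]
      obtain ⟨y, hy⟩ := (hmem _).1 h3
      have h4 := P.mul h hy
      rw [mul_inv_cancel₀ hx, zero_mul] at h4
      exact one_ne_zero (P.uniq P.one h4)
    · intro h
      rcases P.tot x⁻¹ with ⟨y, hy⟩ | hy
      · exfalso
        have h1 : O.valuation x⁻¹ ≤ 1 := (O.valuation_le_one_iff _).2 ((hmem _).2 ⟨y, hy⟩)
        rw [map_inv₀] at h1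
        have h2 : O.valuation x ≠ 0 := (O.valuation.ne_zero_iff).2 hx
        have h3 : 1 < (O.valuation x)⁻¹ := by
          rw [one_lt_inv₀ (zero_lt_iff.2 h2)]
          exact h
        exact absurd h1 (not_le.2 h3)
      · rwa [inv_inv] at hy
  have heq : ∀ x, x ≠ 0 → ((∃ y, y ≠ 0 ∧ P.S x y) ↔ O.valuation x = 1) := by
    intro x hx
    constructor
    · rintro ⟨y, hy, h⟩
      have h1 : O.valuation x ≤ 1 := (O.valuation_le_one_iff x).2 ((hmem x).2 ⟨y, h⟩)
      refine le_antisymm h1 (not_lt.1 fun h2 => ?_)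
      exact hy (P.uniq h ((hlt x hx).2 h2))
    · intro h
      obtain ⟨y, hy⟩ := (hmem x).1 ((O.valuation_le_one_iff x).1 h.le)
      refine ⟨y, ?_, hy⟩
      rintro rfl
      exact absurd ((hlt x hx).1 hy) (by rw [h]; exact lt_irrefl 1)
  refine ⟨Γ, inferInstance, inferInstance, inferInstance, ν, ?_, ?_, ?_, ?_⟩
  · intro x y hx hy
    rw [hν x hx, hν y hy, hν _ (mul_ne_zero hx hy), ← ofMul_mul, ← mul_inv]
    congr 2
    ext
    simp
  · intro x hx
    rw [hlt x hx, hν x hx]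
    change _ ↔ (1 : (O.ValueGroup)ˣ) < (Units.mk0 (O.valuation x) _)⁻¹
    rw [one_lt_inv', ← Units.val_lt_val]
    simp
  · intro x hx
    rw [heq x hx, hν x hx]
    change _ ↔ (Units.mk0 (O.valuation x) _)⁻¹ = (1 : (O.ValueGroup)ˣ)
    rw [inv_eq_one, Units.ext_iff]
    simp
  · intro γ
    obtain ⟨x, hx⟩ := O.valuation_surjective (((Additive.toMul γ)⁻¹ : (O.ValueGroup)ˣ) : O.ValueGroup)
    have hx0 : x ≠ 0 := by
      rintro rfl
      rw [map_zero] at hx
      exact Units.ne_zero _ hx.symm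
    refine ⟨x, hx0, ?_⟩
    rw [hν x hx0]
    have h1 : Units.mk0 (O.valuation x) ((O.valuation.ne_zero_iff).2 hx0) = (Additive.toMul γ)⁻¹ :=
      Units.ext hx
    rw [h1, inv_inv]
    rfl

section props

variable {Γ : Type} [AddCommGroup Γ] {ν : F → Γ}
  (hm : ∀ x y, x ≠ 0 → y ≠ 0 → ν (x * y) = ν x + ν y)

include hm

theorem val_one : ν 1 = 0 := by
  have h := hm 1 1 one_ne_zero one_ne_zero
  rw [mul_one] at h
  exact (add_left_cancel (show ν 1 + 0 = ν 1 + ν 1 by rw [add_zero]; exact h)).symm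

theorem val_inv {x : F} (hx : x ≠ 0) : ν x⁻¹ = -ν x := by
  have h := hm x x⁻¹ hx (inv_ne_zero hx)
  rw [mul_inv_cancel₀ hx, val_one hm] at h
  exact (neg_eq_of_add_eq_zero_right h.symm).symm

theorem val_pow {x : F} (hx : x ≠ 0) (n : ℕ) : ν (x ^ n) = n • ν x := by
  induction n with
  | zero => rw [pow_zero, val_one hm, zero_smul]
  | succ n ih => rw [pow_succ, hm _ _ (pow_ne_zero _ hx) hx, ih, succ_nsmul]

theorem val_zpow {x : F} (hx : x ≠ 0) (n : ℤ) : ν (x ^ n) = n • ν x := by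
  rcases n with n | n
  · rw [Int.ofNat_eq_natCast, zpow_natCast, val_pow hm hx, natCast_zsmul]
  · rw [zpow_negSucc, val_inv hm (pow_ne_zero _ hx), val_pow hm hx, negSucc_zsmul]

theorem val_prod {ι : Type*} (s : Finset ι) {x : ι → F} (hx : ∀ i ∈ s, x i ≠ 0) :
    ν (∏ i ∈ s, x i) = ∑ i ∈ s, ν (x i) := by
  classical
  induction s using Finset.induction_on with
  | empty => rw [Finset.prod_empty, Finset.sum_empty, val_one hm]
  | insert i s hi ih =>
    have h1 : ∀ j ∈ s, x j ≠ 0 := fun j hj => hx j (Finset.mem_insert_of_mem hj)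
    rw [Finset.prod_insert hi, Finset.sum_insert hi,
      hm _ _ (hx i (Finset.mem_insert_self i s)) (Finset.prod_ne_zero_iff.2 h1), ih h1]

end props

end val

section exist

variable {F κ : Type} [Field F] [Field κ] {V : Type} [Fintype V] [DecidableEq V] {r : ℕ}

/-- Every point of the torus of the orbit of `σ` specialises. -/
theorem spO_exists (P : Plc F κ) (Δ : FanV V r) {σ : Finset V} (hσ : Δ.cone σ) (x : Fin r → F)
    (hx : ∀ j, x j ≠ 0) : ∃ (τ : Finset V) (z : Fin r → κ), SpO P Δ σ x τ z := by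
  obtain ⟨Γ, _, _, _, ν, hm, hlt, heq, hsurj⟩ := exists_val P
  obtain ⟨τ, c, hτ, hστ, hc0, hc, he⟩ := Δ.star_int hσ fun j => ν (x j)
  choose g0 hg0 hg1 using hsurj
  let g : V → F := fun v => if v ∈ τ then g0 (c v) else 1
  have hg : ∀ v, g v ≠ 0 := by
    intro v
    simp only [g]
    split_ifs
    · exact hg0 _
    · exact one_ne_zero
  have hνg : ∀ v, ν (g v) = c v := by
    intro v
    simp only [g]
    split_ifs with h
    · exact hg1 _
    · rw [val_one hm, hc0 v h]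
  have hne : ∀ j, x j * ∏ v, g v ^ (-Δ.ray v j) ≠ 0 := fun j =>
    mul_ne_zero (hx j) (Finset.prod_ne_zero_iff.2 fun v _ => zpow_ne_zero _ (hg v))
  have hval : ∀ j, ν (x j * ∏ v, g v ^ (-Δ.ray v j)) = 0 := by
    intro j
    rw [hm _ _ (hx j) (Finset.prod_ne_zero_iff.2 fun v _ => zpow_ne_zero _ (hg v)),
      val_prod hm _ fun v _ => zpow_ne_zero _ (hg v), he j, ← Finset.sum_add_distrib]
    refine Finset.sum_eq_zero fun v _ => ?_
    rw [val_zpow hm (hg v), hνg, neg_smul, add_neg_cancel]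
  have hz : ∀ j, ∃ y, y ≠ 0 ∧ P.S (x j * ∏ v, g v ^ (-Δ.ray v j)) y := fun j =>
    (heq _ (hne j)).2 (hval j)
  choose z hz0 hz1 using hz
  refine ⟨τ, z, hτ, hστ, g, hg, fun v hv => if_neg hv, fun v hv hvs => ?_, fun j =>
    ⟨hz0 j, hz1 j⟩⟩
  rw [hlt _ (hg v), hνg]
  exact hc v hv hvs

end exist

section gauss

variable {L : Type} [Field L] (O : ValuationSubring L)

theorem gs_C {a : L} {c : IsLocalRing.ResidueField O} (h : (rplc O).S a c) :
    (gplc O).S (RatFunc.C a) (RatFunc.C c) := by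
  obtain ⟨ha, rfl⟩ := h
  refine ⟨C ⟨a, ha⟩, 1, by simp, ?_, ?_⟩
  · rw [Polynomial.map_one, map_one, div_one, Polynomial.map_C, RatFunc.algebraMap_C]
    rfl
  · rw [Polynomial.map_one, map_one, div_one, Polynomial.map_C, RatFunc.algebraMap_C]

theorem gs_X : (gplc O).S RatFunc.X RatFunc.X := by
  refine ⟨X, 1, by simp, ?_, ?_⟩
  · rw [Polynomial.map_one, map_one, div_one, Polynomial.map_X, RatFunc.algebraMap_X]
  · rw [Polynomial.map_one, map_one, div_one, Polynomial.map_X, RatFunc.algebraMap_X]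

theorem gs_C_iff {a : L} {e : RatFunc (IsLocalRing.ResidueField O)} (he : e ≠ 0)
    (h : (gplc O).S (RatFunc.C a) e) :
    ∃ c, c ≠ 0 ∧ (rplc O).S a c ∧ e = RatFunc.C c := by
  have ha : a ≠ 0 := by
    rintro rfl
    rw [map_zero] at h
    exact he ((gplc O).uniq h (gplc O).zero)
  rcases (rplc O).tot a with ⟨c, hc⟩ | h0
  · have h1 := (gplc O).uniq h (gs_C O hc)
    refine ⟨c, ?_, hc, h1⟩
    rintro rfl
    rw [map_zero] at h1
    exact he h1
  · exfalso
    have h1 := gs_C O h0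
    rw [map_inv₀, map_zero] at h1
    have h2 := (gplc O).mul h h1
    rw [mul_zero, mul_inv_cancel₀ (by
      rw [Ne, map_eq_zero_iff _ RatFunc.C_injective]
      exact ha)] at h2
    exact one_ne_zero ((gplc O).uniq (gplc O).one h2)

end gauss

section adj

variable {V : Type} [Fintype V] [DecidableEq V] {r : ℕ} (Δ : FanV V r)

theorem FanV.mem_fnl_dual {τ : Finset V} (h : Δ.cone τ) (v : V) :
    (Δ.unim τ h).choose v ∈ Δ.fnl := by
  classical
  unfold FanV.fnl
  rw [Finset.mem_biUnion]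
  refine ⟨τ, Finset.mem_univ _, ?_⟩
  rw [dif_pos h]
  exact Finset.mem_union_left _ (Finset.mem_image_of_mem _ (Finset.mem_univ v))

theorem FanV.mem_fnl_proj {τ : Finset V} (h : Δ.cone τ) (j : Fin r) :
    Pi.single j 1 - ∑ v ∈ τ, Δ.ray v j • (Δ.unim τ h).choose v ∈ Δ.fnl := by
  classical
  unfold FanV.fnl
  rw [Finset.mem_biUnion]
  refine ⟨τ, Finset.mem_univ _, ?_⟩
  rw [dif_pos h]
  refine Finset.mem_union_right _ (Finset.mem_image.2 ⟨j, Finset.mem_univ j, ?_⟩)
  congr!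

/-- Two adjacent points. -/
theorem FanV.adj {Γ : Type} [AddCommGroup Γ] [LinearOrder Γ] [IsOrderedAddMonoid Γ]
    {P P' : Fin r → Γ} {w : Fin r → ℤ} {δ : Γ} (hP : ∀ j, P' j = P j + w j • δ)
    {τ σ : Finset V} {γ γ' : V → Γ} (hτ : Δ.cone τ) (hσ : Δ.cone σ)
    (hγ : ∀ v ∈ τ, 0 < γ v) (hγ0 : ∀ v, v ∉ τ → γ v = 0)
    (hγ' : ∀ v ∈ σ, 0 < γ' v) (hγ'0 : ∀ v, v ∉ σ → γ' v = 0)
    (he : ∀ j, P j = ∑ v, Δ.ray v j • γ v) (he' : ∀ j, P' j = ∑ v, Δ.ray v j • γ' v)
    (H0 : ∀ m ∈ Δ.fnl, ∑ j, m j • P j = 0 → ∑ j, m j * w j = 0)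
    (H1 : ∀ m ∈ Δ.fnl, 0 < ∑ j, m j • P j → 0 ≤ ∑ j, m j • P' j) :
    σ ⊆ τ ∧ ∃ a : V → ℤ, (∀ v, v ∉ τ → a v = 0) ∧ ∀ j, w j = ∑ v, Δ.ray v j * a v := by
  classical
  let l := (Δ.unim τ hτ).choose
  have hl : ∀ v ∈ τ, ∀ w ∈ τ, ∑ j, l v j * Δ.ray w j = if v = w then 1 else 0 :=
    (Δ.unim τ hτ).choose_spec
  -- the value of the dual vectors
  have hlP : ∀ v ∈ τ, ∀ (η : V → Γ), (∀ u, u ∉ τ → η u = 0) →
      ∑ j, l v j • ∑ u, Δ.ray u j • η u = η v := by
    intro v hv η hη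
    have h1 : ∑ j, l v j • ∑ w, Δ.ray w j • η w = ∑ w, (∑ j, l v j * Δ.ray w j) • η w := by
      simp only [Finset.smul_sum, Finset.sum_smul, smul_smul]
      exact Finset.sum_comm
    rw [h1, Finset.sum_eq_single v]
    · rw [hl v hv v hv, if_pos rfl, one_smul]
    · intro w _ hw
      by_cases hwt : w ∈ τ
      · rw [hl v hv w hwt, if_neg hw.symm, zero_smul]
      · rw [hη w hwt, smul_zero]
    · intro h; exact absurd (Finset.mem_univ v) h
  let a : V → ℤ := fun v => if v ∈ τ then ∑ j, l v j * w j else 0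
  have ha0 : ∀ v, v ∉ τ → a v = 0 := fun v hv => if_neg hv
  have hw : ∀ j, w j = ∑ v, Δ.ray v j * a v := by
    intro j
    let m : Fin r → ℤ := Pi.single j 1 - ∑ v ∈ τ, Δ.ray v j • l v
    have hm : m ∈ Δ.fnl := Δ.mem_fnl_proj hτ j
    have hsum : ∀ (G : Type) [AddCommGroup G] (p : Fin r → G), ∑ i, m i • p i =
        p j - ∑ v ∈ τ, Δ.ray v j • ∑ i, l v i • p i := by
      intro G _ p
      have h1 : ∀ i, m i • p i = (Pi.single j (1 : ℤ) : Fin r → ℤ) i • p i -
          ∑ v ∈ τ, Δ.ray v j • (l v i • p i) := by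
        intro i
        simp only [m, Pi.sub_apply, Finset.sum_apply, Pi.smul_apply, smul_eq_mul, sub_smul,
          Finset.sum_smul, mul_smul]
      rw [Finset.sum_congr rfl fun i _ => h1 i, Finset.sum_sub_distrib, Finset.sum_comm]
      congr 1
      · rw [Finset.sum_eq_single j]
        · rw [Pi.single_eq_same, one_smul]
        · intro i _ hi
          rw [Pi.single_eq_of_ne hi, zero_smul]
        · intro h
          exact absurd (Finset.mem_univ j) h
      · exact Finset.sum_congr rfl fun v _ => by rw [Finset.smul_sum]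
    have h0 : ∑ i, m i • P i = 0 := by
      rw [hsum Γ P]
      have h2 : ∀ v ∈ τ, Δ.ray v j • ∑ i, l v i • P i = Δ.ray v j • γ v := by
        intro v hv
        rw [← hlP v hv γ hγ0]
        congr 1
        exact Finset.sum_congr rfl fun i _ => by rw [he i]
      rw [Finset.sum_congr rfl h2, he j, sub_eq_zero]
      symm
      refine Finset.sum_subset (Finset.subset_univ _) fun v _ hv => ?_
      rw [hγ0 v hv, smul_zero]
    have h1 := H0 m hm h0
    have h2 := hsum ℤ w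
    simp only [smul_eq_mul] at h2
    rw [h1] at h2
    rw [sub_eq_zero.1 h2.symm]
    refine Finset.sum_subset_zero_on_sdiff (Finset.subset_univ _) (fun v hv => ?_)
      (fun v hv => ?_)
    · rw [ha0 v (Finset.mem_sdiff.1 hv).2, mul_zero]
    · simp only [a]
      rw [if_pos hv]
  refine ⟨?_, a, ha0, hw⟩
  -- the coefficients of `P'`
  let η : V → Γ := fun v => γ v + a v • δ
  have hη0 : ∀ v, v ∉ τ → η v = 0 := fun v hv => by
    simp only [η]
    rw [hγ0 v hv, ha0 v hv, zero_smul, add_zero]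
  have heη : ∀ j, P' j = ∑ v, Δ.ray v j • η v := by
    intro j
    rw [hP j, he j, hw j, Finset.sum_smul, ← Finset.sum_add_distrib]
    refine Finset.sum_congr rfl fun v _ => ?_
    rw [smul_add, smul_smul]
  have hη : ∀ v ∈ τ, 0 ≤ η v := by
    intro v hv
    have h1 := H1 (l v) (Δ.mem_fnl_dual hτ v) (by
      rw [Finset.sum_congr rfl fun j _ => by rw [he j], hlP v hv γ hγ0]
      exact hγ v hv)
    rw [Finset.sum_congr rfl fun j _ => by rw [heη j], hlP v hv η hη0] at h1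
    exact h1
  let τ' := τ.filter fun v => 0 < η v
  have h1 := Δ.dec_uniq (τ := σ) (τ' := τ') (γ := γ') (γ' := η) hσ
    (Δ.down hτ (Finset.filter_subset _ _)) hγ' (fun v hv => (Finset.mem_filter.1 hv).2) hγ'0
    (fun v hv => by
      by_cases hvt : v ∈ τ
      · by_contra h
        exact hv (Finset.mem_filter.2 ⟨hvt, lt_of_le_of_ne (hη v hvt) (Ne.symm h)⟩)
      · exact hη0 v hvt)
    (fun j => by rw [← he' j, heη j])
  rw [h1.1]
  exact Finset.filter_subset _ _

end adj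

end Pool.Agent.Work.WRC
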