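import Mathlib
import Pool.Agent.Work.MP_4329d7_ag_wrc.ScaleA
import Pool.Agent.Work.MP_4329d7_ag_wrc.MorphH

/-!
W-RC, RED: the Gauss reduction of a section is a section of the reduced family.

* `red_core`: for a place `P` of a field `F`: if the equation `q` with coefficients `A χ` holds at
  the Cox coordinates `Y v` and the coefficients `u * A χ` have the values `a χ`, then the point
  `(σ, y)` to which `∏ Y_v ^ ray_v` specialises satisfies the face equation with coefficients `a`;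
* `red_bd` (`1 < v θ`): the reduction at the scale `θ` is a section of the constant family with
  the coefficients at infinity; `red_bd_one` (`θ = 1`): the reduction is a section of the reduced
  family.
-/

namespace Pool.Agent.Work.WRC

open Polynomial Pool.Agent.Work.CI Pool.Agent.Work.CW

section core

variable {dB r : ℕ} {B Q V : Type} [Fintype V] [DecidableEq V]

/-- **The reduction of an equation.** -/
theorem red_core {F κ : Type} [Field F] [Field κ] (P : Plc F κ) (Δ : FanV V r)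
    (f : B ⊕ Q → Lau (dB + r)) (q : Q) (Y : V → F) (hY : ∀ v, Y v ≠ 0) (y0 : Fin r → F)
    (hy0 : ∀ j, y0 j = ∏ v, Y v ^ Δ.ray v j) (A : (Fin (dB + r) → ℤ) → F) (u : F)
    (hF : ∑ χ ∈ (f (Sum.inr q)).support, A χ * ∏ v, Y v ^ (coxF f Δ.ray).e q χ v = 0)
    (a : (Fin (dB + r) → ℤ) → κ) (hA : ∀ χ ∈ (f (Sum.inr q)).support, P.S (u * A χ) (a χ))
    {σ : Finset V} {y : Fin r → κ} (h : SpO P Δ ∅ y0 σ y) :
    ∑ χ ∈ (f (Sum.inr q)).support with (∀ v ∈ σ, (coxF f Δ.ray).e q χ v = 0),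
      a χ * ∏ j, y j ^ χ (Fin.natAdd dB j) = 0 := by
  classical
  obtain ⟨-, -, g, hg, hg1, hg0, hz⟩ := h
  let η : Fin r → F := fun j => y0 j * ∏ v, g v ^ (-Δ.ray v j)
  have hη : ∀ j, η j = ∏ v, (Y v / g v) ^ Δ.ray v j := by
    intro j
    show y0 j * _ = _
    rw [hy0, ← Finset.prod_mul_distrib]
    refine Finset.prod_congr rfl fun v _ => ?_
    rw [div_zpow, zpow_neg, div_eq_mul_inv]
  have hw : ∀ v, Y v / g v ≠ 0 := fun v => div_ne_zero (hY v) (hg v)
  let c : F := ∏ v, (Y v / g v) ^ mn (f (Sum.inr q)) (fibv (dB := dB) (Δ.ray v))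
  have hc : c ≠ 0 := Finset.prod_ne_zero_iff.2 fun v _ => zpow_ne_zero _ (hw v)
  have key : ∀ χ ∈ (f (Sum.inr q)).support,
      c * ∏ v, Y v ^ (coxF f Δ.ray).e q χ v =
        (∏ j, η j ^ χ (Fin.natAdd dB j)) * ∏ v, g v ^ (coxF f Δ.ray).e q χ v := by
    intro χ hχ
    have h1 : ∏ j, η j ^ χ (Fin.natAdd dB j) =
        ∏ v, (Y v / g v) ^ pair χ (fibv (dB := dB) (Δ.ray v)) := by
      rw [Finset.prod_congr rfl fun j _ => by rw [hη j]]
      simp only [← Finset.prod_zpow, ← zpow_mul]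
      rw [Finset.prod_comm]
      refine Finset.prod_congr rfl fun v _ => ?_
      rw [pair_fibv_fan, ← prod_zpow_sum (hw v)]
      exact Finset.prod_congr rfl fun j _ => by rw [mul_comm (χ _)]
    rw [h1, ← Finset.prod_mul_distrib, ← Finset.prod_mul_distrib]
    refine Finset.prod_congr rfl fun v _ => ?_
    have h4 : pair χ (fibv (dB := dB) (Δ.ray v)) =
        mn (f (Sum.inr q)) (fibv (Δ.ray v)) + ((coxF f Δ.ray).e q χ v : ℤ) :=
      e_cast (fun q => f (Sum.inr q)) (fun v => fibv (Δ.ray v)) hχ v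
    rw [h4, zpow_add₀ (hw v), zpow_natCast, mul_assoc, ← mul_pow, div_mul_cancel₀ _ (hg v)]
  have hg' : ∀ χ, P.S (∏ v, g v ^ (coxF f Δ.ray).e q χ v)
      (if ∀ v ∈ σ, (coxF f Δ.ray).e q χ v = 0 then 1 else 0) := by
    intro χ
    have h1 : P.S (∏ v, g v ^ (coxF f Δ.ray).e q χ v)
        (∏ v, if v ∈ σ then (0 : κ) ^ (coxF f Δ.ray).e q χ v else 1) := by
      refine P.prod _ fun v _ => ?_
      by_cases hv : v ∈ σ
      · rw [if_pos hv]
        exact P.pow (hg0 v hv (Finset.notMem_empty v)) _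
      · rw [if_neg hv, hg1 v hv, one_pow]
        exact P.one
    by_cases hχ : ∀ v ∈ σ, (coxF f Δ.ray).e q χ v = 0
    · rw [if_pos hχ]
      have h2 : (∏ v, if v ∈ σ then (0 : κ) ^ (coxF f Δ.ray).e q χ v else 1) = 1 := by
        refine Finset.prod_eq_one fun v _ => ?_
        by_cases hv : v ∈ σ
        · rw [if_pos hv, hχ v hv, pow_zero]
        · rw [if_neg hv]
      rwa [h2] at h1
    · rw [if_neg hχ]
      push Not at hχ
      obtain ⟨v, hv, hv0⟩ := hχ
      have h2 : (∏ v, if v ∈ σ then (0 : κ) ^ (coxF f Δ.ray).e q χ v else 1) = 0 :=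
        Finset.prod_eq_zero (Finset.mem_univ v) (by rw [if_pos hv, zero_pow hv0])
      rwa [h2] at h1
  have hval : P.S (∑ χ ∈ (f (Sum.inr q)).support, u * A χ *
      ((∏ j, η j ^ χ (Fin.natAdd dB j)) * ∏ v, g v ^ (coxF f Δ.ray).e q χ v))
      (∑ χ ∈ (f (Sum.inr q)).support, a χ * ((∏ j, y j ^ χ (Fin.natAdd dB j)) *
        if ∀ v ∈ σ, (coxF f Δ.ray).e q χ v = 0 then 1 else 0)) := by
    refine P.sum _ fun χ hχ => P.mul (hA χ hχ) (P.mul ?_ (hg' χ))
    exact P.prod _ fun j _ => P.zpow (hz j).2 (hz j).1 _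
  have h0 : ∑ χ ∈ (f (Sum.inr q)).support, u * A χ *
      ((∏ j, η j ^ χ (Fin.natAdd dB j)) * ∏ v, g v ^ (coxF f Δ.ray).e q χ v) = 0 := by
    rw [Finset.sum_congr rfl fun χ hχ => by rw [← key χ hχ]]
    have h1 : ∀ χ ∈ (f (Sum.inr q)).support,
        u * A χ * (c * ∏ v, Y v ^ (coxF f Δ.ray).e q χ v) =
        u * c * (A χ * ∏ v, Y v ^ (coxF f Δ.ray).e q χ v) := fun χ _ => by ring
    rw [Finset.sum_congr rfl h1, ← Finset.mul_sum, hF, mul_zero]
  rw [h0] at hval
  have h2 := P.uniq P.zero hval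
  rw [Finset.sum_filter]
  refine Eq.trans (Finset.sum_congr rfl fun χ _ => ?_) h2.symm
  by_cases hχ : ∀ v ∈ σ, (coxF f Δ.ray).e q χ v = 0
  · rw [if_pos hχ, if_pos hχ, mul_one]
  · rw [if_neg hχ, if_neg hχ, mul_zero, mul_zero]

end core

section sub

variable {L : Type} [Field L]

/-- the substitution `X ↦ θ X` -/
private noncomputable def sbt (θ : L) : L[X] →+* RatFunc L :=
  Polynomial.eval₂RingHom (RatFunc.C : L →+* RatFunc L) (RatFunc.C θ * RatFunc.X)

private theorem sbt_eq (θ : L) (p : L[X]) {N : ℕ} (h : p.natDegree ≤ N) :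
    sbt θ p = ∑ i ∈ Finset.range (N + 1),
      RatFunc.C (p.coeff i) * (RatFunc.C θ * RatFunc.X) ^ i := by
  show Polynomial.eval₂ _ _ p = _
  rw [Polynomial.eval₂_eq_sum_range' _ (Nat.lt_succ_of_le h)]

private theorem sbt_X_sub_C (θ c : L) :
    sbt θ (X - C c) = RatFunc.C θ * RatFunc.X - RatFunc.C c := by
  rw [map_sub]
  show Polynomial.eval₂ _ _ X - Polynomial.eval₂ _ _ (C c) = _
  rw [Polynomial.eval₂_X, Polynomial.eval₂_C]

private theorem sbt_ne {θ : L} (hθ : θ ≠ 0) (c : L) :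
    RatFunc.C θ * RatFunc.X - RatFunc.C c ≠ 0 := by
  have h1 : RatFunc.C θ * RatFunc.X - RatFunc.C c =
      algebraMap L[X] (RatFunc L) (C θ * X - C c) := by
    rw [map_sub, map_mul, RatFunc.algebraMap_C, RatFunc.algebraMap_C, RatFunc.algebraMap_X]
  rw [h1]
  refine rf_ne fun h2 => ?_
  have h3 := congrArg (fun p => p.coeff 1) h2
  simp only [coeff_sub, coeff_C_mul, coeff_X_one, mul_one, coeff_C, coeff_zero] at h3
  rw [if_neg one_ne_zero, sub_zero] at h3
  exact hθ h3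

private theorem alg_eq {k : Type} [Field k] (p : k[X]) {N : ℕ} (h : p.natDegree ≤ N) :
    algebraMap k[X] (RatFunc k) p = ∑ i ∈ Finset.range (N + 1),
      RatFunc.C (p.coeff i) * RatFunc.X ^ i := by
  conv_lhs => rw [p.as_sum_range_C_mul_X_pow' (Nat.lt_succ_of_le h)]
  rw [map_sum]
  refine Finset.sum_congr rfl fun i _ => ?_
  rw [map_mul, map_pow, RatFunc.algebraMap_C, RatFunc.algebraMap_X]

end sub

section red

variable {dB r : ℕ} {B Q V : Type} [Fintype V] [DecidableEq V] {L : Type} [Field L]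
  (O : ValuationSubring L) {I : Type} [Fintype I]

private theorem red_gen (Δ : FanV V r) (f : B ⊕ Q → Lau (dB + r)) (t : I → L) (p : I → V)
    (Y : V → L[X])
    (hYt : ∀ v, Y v = ∏ i with p i = v, (X - C (t i))) (A : Q → (Fin (dB + r) → ℤ) → L[X])
    (hF : ∀ q, (coxF f Δ.ray).F A q Y = 0) {θ : L} (hθ : θ ≠ 0) (u : Q → RatFunc L)
    (a : Q → (Fin (dB + r) → ℤ) → (IsLocalRing.ResidueField O)[X])
    (hA : ∀ q, ∀ χ ∈ (f (Sum.inr q)).support, (gplc O).S (u q * sbt θ (A q χ))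
      (algebraMap _ (RatFunc (IsLocalRing.ResidueField O)) (a q χ)))
    {σ : Finset V} {y : Fin r → RatFunc (IsLocalRing.ResidueField O)}
    (h : SpO (gplc O) Δ ∅ (yth t (fun i => Δ.ray (p i)) θ) σ y) : BdSec Δ f a σ y := by
  classical
  obtain ⟨g, hg⟩ := h.2.2
  refine ⟨h.1, fun j => (hg.2.2.2 j).1, fun q => ?_⟩
  have hYs : ∀ v, sbt θ (Y v) =
      ∏ i with p i = v, (RatFunc.C θ * RatFunc.X - RatFunc.C (t i)) := by
    intro v
    rw [hYt v, map_prod]
    exact Finset.prod_congr rfl fun i _ => sbt_X_sub_C θ (t i)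
  have hY0 : ∀ v, sbt θ (Y v) ≠ 0 := by
    intro v
    rw [hYs v]
    exact Finset.prod_ne_zero_iff.2 fun i _ => sbt_ne hθ (t i)
  refine red_core (gplc O) Δ f q (fun v => sbt θ (Y v)) hY0 _ ?_ (fun χ => sbt θ (A q χ)) (u q)
    ?_ _ (hA q) h
  · intro j
    show yth t (fun i => Δ.ray (p i)) θ j = ∏ v, sbt θ (Y v) ^ Δ.ray v j
    unfold yth
    rw [← Finset.prod_fiberwise (s := Finset.univ) (g := p)]
    refine Finset.prod_congr rfl fun v _ => ?_
    rw [hYs v, ← Finset.prod_zpow]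
    refine Finset.prod_congr rfl fun i hi => ?_
    show _ ^ Δ.ray (p i) j = _
    rw [(Finset.mem_filter.1 hi).2]
  · have h1 := hF q
    rw [Cox.F_eq] at h1
    have h2 := congrArg (sbt θ) h1
    rw [map_zero, map_sum] at h2
    rw [← h2]
    refine Finset.sum_congr rfl fun χ _ => ?_
    rw [map_mul, map_prod]
    simp only [map_pow]

variable [Algebra ℂ (IsLocalRing.ResidueField O)]

/-- **The reduction at a large scale** is a section of the constant family at infinity. -/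
theorem red_bd (Δ : FanV V r) (f : B ⊕ Q → Lau (dB + r)) (t : I → L) (p : I → V) (Y : V → L[X])
    (hYt : ∀ v, Y v = ∏ i with p i = v, (X - C (t i)))
    (x₀ : Fin (dB + r) → IsLocalRing.ResidueField O)
    (A : Q → (Fin (dB + r) → ℤ) → L[X])
    (a : Q → (Fin (dB + r) → ℤ) → (IsLocalRing.ResidueField O)[X]) (D : Q → ℕ)
    (hA : ∀ q, ∀ χ ∈ (f (Sum.inr q)).support, ∀ i,
      (rplc O).S ((A q χ).coeff i) ((a q χ).coeff i))
    (hdeg : ∀ q, ∀ χ ∈ (f (Sum.inr q)).support, (A q χ).natDegree ≤ D q)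
    (htop : ∀ q, ∀ χ ∈ (f (Sum.inr q)).support,
      (a q χ).coeff (D q) = cst (fun q => f (Sum.inr q)) x₀ q χ)
    (hF : ∀ q, (coxF f Δ.ray).F A q Y = 0) {θ : L} (hθ : 1 < O.valuation θ)
    {σ : Finset V} {y : Fin r → RatFunc (IsLocalRing.ResidueField O)}
    (h : SpO (gplc O) Δ ∅ (yth t (fun i => Δ.ray (p i)) θ) σ y) :
    BdSec Δ f (fun q χ => C (cst (fun q => f (Sum.inr q)) x₀ q χ)) σ y := by
  classical
  have hθ0 : θ ≠ 0 := by
    rintro rfl
    rw [map_zero] at hθ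
    exact absurd hθ (not_lt.2 zero_le)
  -- the value of `(θ X)⁻¹`
  have hθi : (rplc O).S θ⁻¹ 0 := by
    have h1 : O.valuation θ⁻¹ < 1 := by
      rw [map_inv₀]
      exact inv_lt_one_of_one_lt₀ hθ
    have h2 : θ⁻¹ ∈ O := (O.valuation_le_one_iff _).1 h1.le
    refine ⟨h2, ?_⟩
    rw [IsLocalRing.residue_eq_zero_iff, O.valuation_lt_one_iff]
    exact h1
  have hθX : (gplc O).S (RatFunc.C θ * RatFunc.X)⁻¹ 0 := by
    have h1 := (gplc O).mul (gs_C O hθi) ((gplc O).inv (gs_X O) RatFunc.X_ne_zero)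
    rw [map_inv₀, map_zero, zero_mul, ← mul_inv] at h1
    exact h1
  have hne : (RatFunc.C θ * RatFunc.X : RatFunc L) ≠ 0 := by
    have h1 := sbt_ne hθ0 (0 : L)
    rwa [map_zero, sub_zero] at h1
  refine red_gen O Δ f t p Y hYt A hF hθ0
    (fun q => ((RatFunc.C θ * RatFunc.X)⁻¹) ^ D q) _ (fun q χ hχ => ?_) h
  rw [sbt_eq θ _ (hdeg q χ hχ), Finset.mul_sum, RatFunc.algebraMap_C, ← htop q χ hχ]
  have h1 : ∀ i ∈ Finset.range (D q + 1), (gplc O).S
      ((RatFunc.C θ * RatFunc.X)⁻¹ ^ D q *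
        (RatFunc.C ((A q χ).coeff i) * (RatFunc.C θ * RatFunc.X) ^ i))
      (RatFunc.C ((a q χ).coeff i) * 0 ^ (D q - i)) := by
    intro i hi
    have h2 : (RatFunc.C θ * RatFunc.X)⁻¹ ^ D q *
        (RatFunc.C ((A q χ).coeff i) * (RatFunc.C θ * RatFunc.X) ^ i) =
        RatFunc.C ((A q χ).coeff i) * (RatFunc.C θ * RatFunc.X)⁻¹ ^ (D q - i) := by
      have h3 : D q = (D q - i) + i := by
        have := Finset.mem_range.1 hi
        omega
      have h4 : (RatFunc.C θ * RatFunc.X : RatFunc L)⁻¹ ^ D q *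
          (RatFunc.C θ * RatFunc.X) ^ i = (RatFunc.C θ * RatFunc.X)⁻¹ ^ (D q - i) := by
        conv_lhs => rw [h3, pow_add]
        rw [mul_assoc, ← mul_pow, inv_mul_cancel₀ hne, one_pow, mul_one]
      rw [← h4]
      ring
    rw [h2]
    exact (gplc O).mul (gs_C O (hA q χ hχ i)) ((gplc O).pow hθX _)
  have h2 := (gplc O).sum _ h1
  have h3 : ∑ i ∈ Finset.range (D q + 1),
      (RatFunc.C ((a q χ).coeff i) * 0 ^ (D q - i) : RatFunc (IsLocalRing.ResidueField O)) =
      RatFunc.C ((a q χ).coeff (D q)) := by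
    rw [Finset.sum_eq_single (D q) (fun i hi hne' => by
        rw [zero_pow (by have := Finset.mem_range.1 hi; omega), mul_zero])
      (fun h3 => absurd (Finset.mem_range.2 (Nat.lt_succ_self _)) h3), Nat.sub_self, pow_zero,
      mul_one]
  rwa [h3] at h2

omit [Algebra ℂ (IsLocalRing.ResidueField O)] in
/-- **The reduction at the scale `1`** is a section of the reduced family. -/
theorem red_bd_one (Δ : FanV V r) (f : B ⊕ Q → Lau (dB + r)) (t : I → L) (p : I → V)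
    (Y : V → L[X]) (hYt : ∀ v, Y v = ∏ i with p i = v, (X - C (t i)))
    (A : Q → (Fin (dB + r) → ℤ) → L[X])
    (a : Q → (Fin (dB + r) → ℤ) → (IsLocalRing.ResidueField O)[X])
    (hA : ∀ q, ∀ χ ∈ (f (Sum.inr q)).support, ∀ i,
      (rplc O).S ((A q χ).coeff i) ((a q χ).coeff i))
    (hF : ∀ q, (coxF f Δ.ray).F A q Y = 0)
    {σ : Finset V} {y : Fin r → RatFunc (IsLocalRing.ResidueField O)}
    (h : SpO (gplc O) Δ ∅ (yth t (fun i => Δ.ray (p i)) 1) σ y) : BdSec Δ f a σ y := by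
  classical
  refine red_gen O Δ f t p Y hYt A hF one_ne_zero (fun _ => 1) _ (fun q χ hχ => ?_) h
  let N := max (A q χ).natDegree (a q χ).natDegree
  rw [one_mul, sbt_eq 1 _ (le_max_left _ _ : (A q χ).natDegree ≤ N),
    alg_eq _ (le_max_right _ _ : (a q χ).natDegree ≤ N)]
  refine (gplc O).sum _ fun i _ => ?_
  rw [map_one, one_mul]
  exact (gplc O).mul (gs_C O (hA q χ hχ i)) ((gplc O).pow (gs_X O) _)

end red

end Pool.Agent.Work.WRC
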