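import Mathlib
import Pool.Agent.Work.MP_4329d7_ag_wrc.ScaleA

/-!
W-RC, SCALE, part B: the comparison of the specialisation of the curve at `s` with the curve at the
scale `θ`.

* `prod_fact`: the leading part and the unit part of `∏ i, (u - t i) ^ b i`;
* `spO_adj`: the comparison.
-/

namespace Pool.Agent.Work.WRC

open Polynomial Pool.Agent.Work.CI Pool.Agent.Work.CW

section fact

variable {I : Type} [Fintype I] [DecidableEq I]

/-- the unit part of `u - t` -/
def unP {F : Type} [Field F] (J : Finset I) (t : I → F) (u : F) (i : I) : F :=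
  if i ∈ J then 1 - u / t i else 1 - t i / u

theorem prod_fact {F : Type} [Field F] (J : Finset I) (t : I → F) (hJ : ∀ i ∈ J, t i ≠ 0) {u : F}
    (hu : u ≠ 0) (b : I → ℤ) : ∏ i, (u - t i) ^ b i =
      u ^ (∑ i, b i - ∑ i ∈ J, b i) * (∏ i ∈ J, (-t i) ^ b i) * ∏ i, unP J t u i ^ b i := by
  have h1 : ∀ i, u - t i = (if i ∈ J then -t i else u) * unP J t u i := by
    intro i
    unfold unP
    split_ifs with h
    · have := hJ i h
      field_simp
      ring
    · field_simp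
  have h2 : ∑ i, b i - ∑ i ∈ J, b i = ∑ i ∈ Jᶜ, b i := by
    rw [sub_eq_iff_eq_add, add_comm, Finset.sum_add_sum_compl]
  have h3 : ∀ (s : Finset I), ∏ i ∈ s, u ^ b i = u ^ ∑ i ∈ s, b i := by
    intro s
    induction s using Finset.induction_on with
    | empty => simp
    | insert i s hi ih => rw [Finset.prod_insert hi, Finset.sum_insert hi, ih, zpow_add₀ hu]
  calc ∏ i, (u - t i) ^ b i = ∏ i, ((if i ∈ J then -t i else u) ^ b i * unP J t u i ^ b i) :=
        Finset.prod_congr rfl fun i _ => by rw [h1 i, mul_zpow]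
    _ = (∏ i, (if i ∈ J then -t i else u) ^ b i) * ∏ i, unP J t u i ^ b i :=
        Finset.prod_mul_distrib
    _ = _ := by
        congr 1
        rw [← Finset.prod_mul_prod_compl J, h2, ← h3, mul_comm]
        congr 1
        · refine Finset.prod_congr rfl fun i hi => ?_
          rw [if_neg (Finset.mem_compl.1 hi)]
        · refine Finset.prod_congr rfl fun i hi => ?_
          rw [if_pos hi]

end fact

section alg

variable {L : Type} [Field L] (O : ValuationSubring L) {V : Type} [Fintype V] [DecidableEq V]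
  {r : ℕ} (Δ : FanV V r) {I : Type} [Fintype I] [DecidableEq I] (t : I → L) (b : I → Fin r → ℤ)

theorem ratC_ne {a : L} (ha : a ≠ 0) : (RatFunc.C a : RatFunc L) ≠ 0 := by
  rw [Ne, map_eq_zero_iff _ RatFunc.C_injective]
  exact ha

/-- The comparison of the specialisation at `s` and the curve at the scale `θ`. -/
theorem spO_adj (Q : Plc (RatFunc (IsLocalRing.ResidueField O)) (IsLocalRing.ResidueField O))
    (hQ : ∀ c, Q.S (RatFunc.C c) c) {s θ : L} (hs : s ≠ 0) (hθ : θ ≠ 0) (J : Finset I)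
    (hJ : ∀ i ∈ J, t i ≠ 0) {τ σ : Finset V} (hστ : σ ⊆ τ) (a : V → ℤ)
    (ha0 : ∀ v, v ∉ τ → a v = 0)
    (hw : ∀ j, ∑ i, b i j - ∑ i ∈ J, b i j = ∑ v, Δ.ray v j * a v)
    (e : I → RatFunc (IsLocalRing.ResidueField O)) (he0 : ∀ i, e i ≠ 0)
    (heP : ∀ i, (gplc O).S (unP J (fun i => RatFunc.C (t i)) (RatFunc.C θ * RatFunc.X) i) (e i))
    (heQ : ∀ i, Q.S (e i) 1) (heR : ∀ i, (rplc O).S (unP J t s i) 1)
    (hsign : ∀ (n : ℤ) (g : L) (c : IsLocalRing.ResidueField O), c ≠ 0 → (rplc O).S g 0 →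
      (rplc O).S ((θ / s) ^ n * g) c → Q.S (RatFunc.X ^ n) 0)
    {y : Fin r → RatFunc (IsLocalRing.ResidueField O)} {z : Fin r → IsLocalRing.ResidueField O}
    (h : SpO (rplc O) Δ ∅ (yat t b s) τ z) (h' : SpO (gplc O) Δ ∅ (yth t b θ) σ y) :
    SpO Q Δ σ y τ z := by
  obtain ⟨hτ, -, gs, hgs0, hgs1, hgsS, hz⟩ := h
  obtain ⟨hσ, -, gt, hgt0, hgt1, hgtS, hy⟩ := h'
  obtain ⟨l, hl⟩ := Δ.unim τ hτ
  have hX : (RatFunc.X : RatFunc L) ≠ 0 := RatFunc.X_ne_zero
  have hCθ := ratC_ne hθ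
  have hCs := ratC_ne hs
  have hgsC : ∀ v, (RatFunc.C (gs v) : RatFunc L) ≠ 0 := fun v => ratC_ne (hgs0 v)
  let w : Fin r → ℤ := fun j => ∑ i, b i j - ∑ i ∈ J, b i j
  -- the factorisations
  let B : Fin r → L := fun j => ∏ i ∈ J, (-t i) ^ b i j
  let E' : Fin r → L := fun j => ∏ i, unP J t s i ^ b i j
  let E : Fin r → RatFunc L := fun j =>
    ∏ i, unP J (fun i => RatFunc.C (t i)) (RatFunc.C θ * RatFunc.X) i ^ b i j
  let Eb : Fin r → RatFunc (IsLocalRing.ResidueField O) := fun j => ∏ i, e i ^ b i j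
  have hB : ∀ j, B j ≠ 0 := fun j => Finset.prod_ne_zero_iff.2 fun i hi =>
    zpow_ne_zero _ (neg_ne_zero.2 (hJ i hi))
  have hyat : ∀ j, yat t b s j = s ^ w j * B j * E' j := fun j =>
    prod_fact J t hJ hs fun i => b i j
  have hyth : ∀ j, yth t b θ j = (RatFunc.C θ * RatFunc.X) ^ w j * RatFunc.C (B j) * E j := by
    intro j
    have h1 := prod_fact J (fun i => (RatFunc.C (t i) : RatFunc L))
      (fun i hi => ratC_ne (hJ i hi)) (mul_ne_zero hCθ hX) fun i => b i j
    unfold yth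
    rw [h1]
    congr 2
    simp only [B, map_prod, map_zpow₀, map_neg]
  have hE'S : ∀ j, (rplc O).S (E' j) 1 := by
    intro j
    have h1 : (rplc O).S (E' j) (∏ i : I, (1 : IsLocalRing.ResidueField O) ^ b i j) :=
      (rplc O).prod _ fun i _ => (rplc O).zpow (heR i) one_ne_zero _
    simpa using h1
  have hES : ∀ j, (gplc O).S (E j) (Eb j) := fun j =>
    (gplc O).prod _ fun i _ => (gplc O).zpow (heP i) (he0 i) _
  have hEb0 : ∀ j, Eb j ≠ 0 := fun j => Finset.prod_ne_zero_iff.2 fun i _ => zpow_ne_zero _ (he0 i)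
  have hEbQ : ∀ j, Q.S (Eb j) 1 := by
    intro j
    have h1 : Q.S (Eb j) (∏ i : I, (1 : IsLocalRing.ResidueField O) ^ b i j) :=
      Q.prod _ fun i _ => Q.zpow (heQ i) one_ne_zero _
    simpa using h1
  have hE'0 : ∀ j, E' j ≠ 0 := fun j => (rplc O).ne_zero (hE'S j) one_ne_zero
  have hE0 : ∀ j, E j ≠ 0 := fun j => (gplc O).ne_zero (hES j) (hEb0 j)
  -- the new multiplicators
  let G : V → RatFunc L := fun v =>
    (RatFunc.C θ * RatFunc.X / RatFunc.C s) ^ a v * (RatFunc.C (gs v) / gt v)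
  have hG0 : ∀ v, G v ≠ 0 := fun v => mul_ne_zero
    (zpow_ne_zero _ (div_ne_zero (mul_ne_zero hCθ hX) hCs)) (div_ne_zero (hgsC v) (hgt0 v))
  have hG1 : ∀ v, v ∉ τ → G v = 1 := by
    intro v hv
    simp only [G]
    rw [ha0 v hv, hgs1 v hv, hgt1 v fun h => hv (hστ h), map_one, zpow_zero, div_one, mul_one]
  let Y : Fin r → RatFunc (IsLocalRing.ResidueField O) := fun j =>
    y j / RatFunc.C (z j) * (1 / Eb j)
  have hz0 : ∀ j, (RatFunc.C (z j) : RatFunc (IsLocalRing.ResidueField O)) ≠ 0 := by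
    intro j
    rw [Ne, map_eq_zero_iff _ RatFunc.C_injective]
    exact (hz j).1
  have hY0 : ∀ j, Y j ≠ 0 := fun j =>
    mul_ne_zero (div_ne_zero (hy j).1 (hz0 j)) (div_ne_zero one_ne_zero (hEb0 j))
  have hkey : ∀ j, ∏ v, G v ^ Δ.ray v j =
      (yth t b θ j * ∏ v, gt v ^ (-Δ.ray v j)) /
        RatFunc.C (yat t b s j * ∏ v, gs v ^ (-Δ.ray v j)) * (RatFunc.C (E' j) / E j) := by
    intro j
    have h1 : ∏ v, G v ^ Δ.ray v j = (RatFunc.C θ * RatFunc.X / RatFunc.C s) ^ w j *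
        (∏ v, (RatFunc.C (gs v) : RatFunc L) ^ Δ.ray v j) / ∏ v, gt v ^ Δ.ray v j := by
      have h2 : (RatFunc.C θ * RatFunc.X / RatFunc.C s : RatFunc L) ^ w j =
          ∏ v, ((RatFunc.C θ * RatFunc.X / RatFunc.C s : RatFunc L) ^ a v) ^ Δ.ray v j := by
        have h3 : ∀ (S : Finset V), ∏ v ∈ S, ((RatFunc.C θ * RatFunc.X / RatFunc.C s :
            RatFunc L) ^ a v) ^ Δ.ray v j = (RatFunc.C θ * RatFunc.X / RatFunc.C s :
            RatFunc L) ^ ∑ v ∈ S, Δ.ray v j * a v := by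
          intro S
          induction S using Finset.induction_on with
          | empty => simp
          | insert v S hv ih =>
            rw [Finset.prod_insert hv, Finset.sum_insert hv, ih,
              zpow_add₀ (div_ne_zero (mul_ne_zero hCθ hX) hCs), ← zpow_mul, mul_comm (a v)]
        rw [h3, ← hw j]
      rw [h2, ← Finset.prod_mul_distrib, ← Finset.prod_div_distrib]
      refine Finset.prod_congr rfl fun v _ => ?_
      simp only [G]
      rw [mul_zpow, div_zpow (RatFunc.C (gs v))]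
      exact (mul_div_assoc _ _ _).symm
    have h4 : ∏ v, gt v ^ (-Δ.ray v j) = (∏ v, gt v ^ Δ.ray v j)⁻¹ := by
      rw [← Finset.prod_inv_distrib]
      exact Finset.prod_congr rfl fun v _ => zpow_neg _ _
    have h5 : ∏ v, gs v ^ (-Δ.ray v j) = (∏ v, gs v ^ Δ.ray v j)⁻¹ := by
      rw [← Finset.prod_inv_distrib]
      exact Finset.prod_congr rfl fun v _ => zpow_neg _ _
    have h6 : ∏ v, gt v ^ Δ.ray v j ≠ 0 :=
      Finset.prod_ne_zero_iff.2 fun v _ => zpow_ne_zero _ (hgt0 v)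
    have h7 : ∏ v, (RatFunc.C (gs v) : RatFunc L) ^ Δ.ray v j ≠ 0 :=
      Finset.prod_ne_zero_iff.2 fun v _ => zpow_ne_zero _ (hgsC v)
    have h8 : (RatFunc.C s : RatFunc L) ^ w j ≠ 0 := zpow_ne_zero _ hCs
    have h9 : (RatFunc.C (B j) : RatFunc L) ≠ 0 := ratC_ne (hB j)
    have h10 : (RatFunc.C (E' j) : RatFunc L) ≠ 0 := ratC_ne (hE'0 j)
    have h11 := hE0 j
    rw [h1, hyth j, hyat j, h4, h5, div_zpow]
    simp only [map_mul, map_inv₀, map_prod, map_zpow₀] at h7 h9 h10 ⊢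
    field_simp
  have hval : ∀ j, (gplc O).S (∏ v, G v ^ Δ.ray v j) (Y j) := by
    intro j
    rw [hkey j]
    refine (gplc O).mul ((gplc O).div (hy j).2 (gs_C O (hz j).2) (hz0 j)) ?_
    refine (gplc O).div ?_ (hES j) (hEb0 j)
    have h1 := gs_C O (hE'S j)
    rwa [map_one] at h1
  -- the multiplicators themselves
  let hv : V → RatFunc (IsLocalRing.ResidueField O) := fun v =>
    if v ∈ τ then ∏ j, Y j ^ l v j else 1
  have hhv0 : ∀ v, hv v ≠ 0 := by
    intro v
    simp only [hv]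
    split_ifs
    · exact Finset.prod_ne_zero_iff.2 fun j _ => zpow_ne_zero _ (hY0 j)
    · exact one_ne_zero
  have hGl : ∀ v ∈ τ, G v = ∏ j, (∏ u, G u ^ Δ.ray u j) ^ l v j := by
    intro v hvτ
    have h1 : ∏ j, (∏ u, G u ^ Δ.ray u j) ^ l v j = ∏ u, G u ^ (∑ j, l v j * Δ.ray u j) := by
      simp only [← Finset.prod_zpow]
      rw [Finset.prod_comm]
      refine Finset.prod_congr rfl fun u _ => ?_
      have h3 : ∀ (S : Finset (Fin r)), ∏ j ∈ S, (G u ^ Δ.ray u j) ^ l v j =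
          G u ^ ∑ j ∈ S, l v j * Δ.ray u j := by
        intro S
        induction S using Finset.induction_on with
        | empty => simp
        | insert j S hj ih =>
          rw [Finset.prod_insert hj, Finset.sum_insert hj, ih, zpow_add₀ (hG0 u), ← zpow_mul,
            mul_comm (Δ.ray u j)]
      exact h3 _
    rw [h1, Finset.prod_eq_single v]
    · rw [hl v hvτ v hvτ, if_pos rfl, zpow_one]
    · intro u _ hu
      by_cases hut : u ∈ τ
      · rw [hl v hvτ u hut, if_neg hu.symm, zpow_zero]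
      · rw [hG1 u hut, one_zpow]
    · intro h
      exact absurd (Finset.mem_univ v) h
  have hGS : ∀ v, (gplc O).S (G v) (hv v) := by
    intro v
    simp only [hv]
    split_ifs with hvτ
    · rw [hGl v hvτ]
      exact (gplc O).prod _ fun j _ => (gplc O).zpow (hval j) (hY0 j) _
    · rw [hG1 v hvτ]
      exact (gplc O).one
  have hYv : ∀ j, ∏ v, hv v ^ Δ.ray v j = Y j := fun j =>
    (gplc O).uniq ((gplc O).prod _ fun v _ => (gplc O).zpow (hGS v) (hhv0 v) _) (hval j)
  refine ⟨hτ, hστ, hv, hhv0, fun v hvτ => if_neg hvτ, fun v hvτ hvσ => ?_, fun j => ⟨(hz j).1, ?_⟩⟩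
  · have h1 : G v = RatFunc.C ((θ / s) ^ a v * gs v) * RatFunc.X ^ a v := by
      simp only [G]
      rw [hgt1 v hvσ, div_one, map_mul, map_zpow₀, map_div₀, mul_div_right_comm, mul_zpow]
      ring
    have hXk : (RatFunc.X : RatFunc (IsLocalRing.ResidueField O)) ≠ 0 := RatFunc.X_ne_zero
    have h2 : (gplc O).S (RatFunc.C ((θ / s) ^ a v * gs v)) (hv v * RatFunc.X ^ (-a v)) := by
      have h3 := (gplc O).mul (hGS v) ((gplc O).zpow (gs_X O) hXk (-a v))
      have h4 : G v * RatFunc.X ^ (-a v) = RatFunc.C ((θ / s) ^ a v * gs v) := by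
        rw [h1, mul_assoc, ← zpow_add₀ hX, add_neg_cancel, zpow_zero, mul_one]
      rwa [h4] at h3
    obtain ⟨c, hc0, hcR, hc⟩ := gs_C_iff O (mul_ne_zero (hhv0 v) (zpow_ne_zero _ hXk)) h2
    have h5 : hv v = RatFunc.C c * RatFunc.X ^ a v := by
      rw [← hc, mul_assoc, ← zpow_add₀ hXk, neg_add_cancel, zpow_zero, mul_one]
    rw [h5]
    have h6 := Q.mul (hQ c) (hsign (a v) (gs v) c hc0 (hgsS v hvτ (Finset.notMem_empty v)) hcR)
    rwa [mul_zero] at h6
  · have h1 : y j * ∏ v, hv v ^ (-Δ.ray v j) = RatFunc.C (z j) * Eb j := by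
      have h2 : ∏ v, hv v ^ (-Δ.ray v j) = (Y j)⁻¹ := by
        rw [← hYv j, ← Finset.prod_inv_distrib]
        exact Finset.prod_congr rfl fun v _ => zpow_neg _ _
      rw [h2]
      simp only [Y]
      have h3 := hz0 j
      have h4 := hEb0 j
      have h5 := (hy j).1
      field_simp
    rw [h1]
    have h6 := Q.mul (hQ (z j)) (hEbQ j)
    rwa [mul_one] at h6

end alg

end Pool.Agent.Work.WRC
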