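import Mathlib
import Pool.Agent.Work.MP_4329d7_ag_wrc.ScaleB

/-!
W-RC, SCALE, part C: if there is no critical value between the scale `θ` and the position `s`, then
the point at `s` is the limit of the curve at the scale `θ`.

* `red_top`: a position of value larger than all roots; `exists_red`, `exists_gred`;
* `scale_core`; `scale_inf`: the limit at infinity; `scale_zero`: the limit at zero.
-/

namespace Pool.Agent.Work.WRC

open Polynomial Pool.Agent.Work.CI Pool.Agent.Work.CW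

section basic

variable {L : Type} [Field L] (O : ValuationSubring L)

theorem rplc_zero_iff {x : L} : (rplc O).S x 0 ↔ O.valuation x < 1 := by
  constructor
  · rintro ⟨hx, h⟩
    rw [IsLocalRing.residue_eq_zero_iff, O.valuation_lt_one_iff] at h
    exact h
  · intro h
    have hx : x ∈ O := (O.valuation_le_one_iff x).1 h.le
    refine ⟨hx, ?_⟩
    rw [IsLocalRing.residue_eq_zero_iff, O.valuation_lt_one_iff]
    exact h

theorem rplc_mem {x : L} (h : O.valuation x ≤ 1) : ∃ c, (rplc O).S x c :=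
  ⟨_, (O.valuation_le_one_iff x).1 h, rfl⟩

theorem gs_C_zero {x : L} (h : (gplc O).S (RatFunc.C x) 0) : (rplc O).S x 0 := by
  by_cases hx : x = 0
  · rw [hx]
    exact (rplc O).zero
  rcases (rplc O).tot x with ⟨c, hc⟩ | h0
  · have h1 := (gplc O).uniq h (gs_C O hc)
    have h2 : c = 0 := by
      rw [← map_zero (RatFunc.C : IsLocalRing.ResidueField O →+* _)] at h1
      exact (RatFunc.C_injective h1).symm
    rwa [h2] at hc
  · exfalso
    have h1 := gs_C O h0
    rw [map_inv₀, map_zero] at h1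
    have h2 := (gplc O).mul h h1
    rw [mul_zero, mul_inv_cancel₀ (ratC_ne hx)] at h2
    exact one_ne_zero ((gplc O).uniq (gplc O).one h2)

theorem rplc_one_sub {x : L} (h : O.valuation x < 1) : (rplc O).S (1 - x) 1 := by
  have h1 := (rplc O).sub (rplc O).one ((rplc_zero_iff O).2 h)
  rwa [sub_zero] at h1

theorem val_div_lt {x y : L} (h : O.valuation x < O.valuation y) : O.valuation (x / y) < 1 := by
  have h1 : y ≠ 0 := by
    rintro rfl
    rw [map_zero] at h
    exact not_lt_zero h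
  have h2 : 0 < O.valuation y := zero_lt_iff.2 ((O.valuation.ne_zero_iff).2 h1)
  rw [map_div₀, div_lt_one₀ h2]
  exact h

theorem val_div_le {x y : L} (hy : y ≠ 0) (h : O.valuation x ≤ O.valuation y) :
    O.valuation (x / y) ≤ 1 := by
  have h2 : 0 < O.valuation y := zero_lt_iff.2 ((O.valuation.ne_zero_iff).2 hy)
  rw [map_div₀, div_le_one₀ h2]
  exact h

end basic

theorem zsmul_anti {Γ : Type} [AddCommGroup Γ] [LinearOrder Γ] [IsOrderedAddMonoid Γ] {n : ℤ}
    (hn : n ≤ 0) {a b : Γ} (h : a ≤ b) : n • b ≤ n • a := by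
  have h1 := zsmul_le_zsmul_right (neg_nonneg.2 hn) h
  rw [neg_smul, neg_smul, neg_le_neg_iff] at h1
  exact h1

section roots

variable {L : Type} [Field L] [IsAlgClosed L]

theorem exists_zpow_eq {A : ℤ} (hA : A ≠ 0) {β : L} (hβ : β ≠ 0) : ∃ s, s ≠ 0 ∧ s ^ A * β = 1 := by
  have key : ∀ (n : ℕ), n ≠ 0 → ∀ c : L, c ≠ 0 → ∃ s, s ≠ 0 ∧ s ^ n = c := by
    intro n hn c hc
    obtain ⟨s, hs⟩ := IsAlgClosed.exists_pow_nat_eq c (Nat.pos_of_ne_zero hn)
    refine ⟨s, ?_, hs⟩
    rintro rfl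
    rw [zero_pow hn] at hs
    exact hc hs.symm
  rcases lt_or_gt_of_ne hA with h | h
  · obtain ⟨s, hs, hs'⟩ := key A.natAbs (Int.natAbs_ne_zero.2 hA) β hβ
    refine ⟨s, hs, ?_⟩
    have h1 : A = -(A.natAbs : ℤ) := by omega
    rw [h1, zpow_neg, zpow_natCast, hs', inv_mul_cancel₀ hβ]
  · obtain ⟨s, hs, hs'⟩ := key A.natAbs (Int.natAbs_ne_zero.2 hA) β⁻¹ (inv_ne_zero hβ)
    refine ⟨s, hs, ?_⟩
    have h1 : A = (A.natAbs : ℤ) := by omega
    rw [h1, zpow_natCast, hs', inv_mul_cancel₀ hβ]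

end roots

section exist

variable {L : Type} [Field L] (O : ValuationSubring L) {V : Type} [Fintype V] [DecidableEq V]
  {r : ℕ} (Δ : FanV V r) {I : Type} [Fintype I] (t : I → L) (b : I → Fin r → ℤ)

/-- (R3) -/
theorem exists_red {s : L} (hs : ∀ i, s ≠ t i) : ∃ τ z, SpO (rplc O) Δ ∅ (yat t b s) τ z :=
  spO_exists _ Δ Δ.cone_empty _ fun _ => Finset.prod_ne_zero_iff.2 fun i _ =>
    zpow_ne_zero _ (sub_ne_zero.2 (hs i))

/-- (R1) -/
theorem exists_gred {θ : L} (hθ : θ ≠ 0) : ∃ σ y, SpO (gplc O) Δ ∅ (yth t b θ) σ y := by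
  refine spO_exists _ Δ Δ.cone_empty _ fun _ => Finset.prod_ne_zero_iff.2 fun i _ =>
    zpow_ne_zero _ ?_
  intro h
  have h1 : algebraMap L[X] (RatFunc L) (C θ * X - C (t i)) = 0 := by
    rw [map_sub, map_mul, RatFunc.algebraMap_C, RatFunc.algebraMap_X, RatFunc.algebraMap_C]
    exact h
  rw [map_eq_zero_iff _ (IsFractionRing.injective L[X] (RatFunc L))] at h1
  have h2 := congrArg (fun p => p.coeff 1) h1
  simp at h2
  exact hθ h2

/-- (R0) a position of value larger than all roots -/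
theorem red_top [DecidableEq I] (hb : ∀ j, ∑ i, b i j = 0) {s : L}
    (h : ∀ i, O.valuation (t i) < O.valuation s) (hs : s ≠ 0) :
    SpO (rplc O) Δ ∅ (yat t b s) ∅ 1 := by
  refine ⟨Δ.cone_empty, le_rfl, 1, fun v => one_ne_zero, fun v _ => rfl,
    fun v hv => absurd hv (Finset.notMem_empty v), fun j => ⟨one_ne_zero, ?_⟩⟩
  have h1 : yat t b s j = ∏ i, (1 - t i / s) ^ b i j := by
    have h2 := prod_fact (∅ : Finset I) t (fun i hi => absurd hi (Finset.notMem_empty i)) hs
      fun i => b i j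
    unfold yat
    rw [h2, hb j, Finset.sum_empty, sub_zero, zpow_zero, Finset.prod_empty, one_mul, one_mul]
    refine Finset.prod_congr rfl fun i _ => ?_
    unfold unP
    rw [if_neg (Finset.notMem_empty i)]
  have h3 : ∏ v, (1 : V → L) v ^ (-Δ.ray v j) = 1 :=
    Finset.prod_eq_one fun v _ => by rw [Pi.one_apply, one_zpow]
  rw [h1, h3, mul_one]
  have h4 : (rplc O).S (∏ i, (1 - t i / s) ^ b i j)
      (∏ i : I, (1 : IsLocalRing.ResidueField O) ^ b i j) :=
    (rplc O).prod _ fun i _ => (rplc O).zpow (rplc_one_sub O (val_div_lt O (h i))) one_ne_zero _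
  simpa using h4

end exist

section core

variable {L : Type} [Field L] [IsAlgClosed L] (O : ValuationSubring L) {V : Type} [Fintype V]
  [DecidableEq V] {r : ℕ} (Δ : FanV V r) {I : Type} [Fintype I] [DecidableEq I] (t : I → L)
  (b : I → Fin r → ℤ)

theorem scale_core (Q : Plc (RatFunc (IsLocalRing.ResidueField O)) (IsLocalRing.ResidueField O))
    (hQ : ∀ c, Q.S (RatFunc.C c) c) {s θ : L} (hs : s ≠ 0) (hθ : θ ≠ 0) (J : Finset I)
    (hJ : ∀ i ∈ J, t i ≠ 0) (hcs : ¬ Crit O Δ t b s)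
    (hno : ∀ s', (O.valuation s < O.valuation s' ∧ O.valuation s' < O.valuation θ) ∨
      (O.valuation θ < O.valuation s' ∧ O.valuation s' < O.valuation s) → ¬ Crit O Δ t b s')
    (e : I → RatFunc (IsLocalRing.ResidueField O)) (he0 : ∀ i, e i ≠ 0)
    (heP : ∀ i, (gplc O).S (unP J (fun i => RatFunc.C (t i)) (RatFunc.C θ * RatFunc.X) i) (e i))
    (heQ : ∀ i, Q.S (e i) 1) (heR : ∀ i, (rplc O).S (unP J t s i) 1)
    (hsign : ∀ (n : ℤ) (g : L) (c : IsLocalRing.ResidueField O), c ≠ 0 → (rplc O).S g 0 →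
      (rplc O).S ((θ / s) ^ n * g) c → Q.S (RatFunc.X ^ n) 0)
    {τ σ : Finset V} {y : Fin r → RatFunc (IsLocalRing.ResidueField O)}
    {z : Fin r → IsLocalRing.ResidueField O}
    (h : SpO (rplc O) Δ ∅ (yat t b s) τ z) (h' : SpO (gplc O) Δ ∅ (yth t b θ) σ y) :
    SpO Q Δ σ y τ z := by
  obtain ⟨Γ, _, _, _, ν, hm, hlt, heq, -⟩ := exists_val (gplc O)
  have hX : (RatFunc.X : RatFunc L) ≠ 0 := RatFunc.X_ne_zero
  have hCθ := ratC_ne hθ
  have hCs := ratC_ne hs
  let μ : L → Γ := fun x => ν (RatFunc.C x)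
  have hμm : ∀ x y, x ≠ 0 → y ≠ 0 → μ (x * y) = μ x + μ y := fun x y hx hy => by
    simp only [μ]
    rw [map_mul, hm _ _ (ratC_ne hx) (ratC_ne hy)]
  have hμlt : ∀ x, x ≠ 0 → (O.valuation x < 1 ↔ 0 < μ x) := by
    intro x hx
    rw [← rplc_zero_iff, ← hlt _ (ratC_ne hx)]
    constructor
    · intro h1
      have h2 := gs_C O h1
      rwa [map_zero] at h2
    · exact gs_C_zero O
  have hμlt' : ∀ x y, x ≠ 0 → y ≠ 0 → (O.valuation x < O.valuation y ↔ μ y < μ x) := by
    intro x y hx hy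
    have h1 := hμlt (x / y) (div_ne_zero hx hy)
    have h2 : 0 < O.valuation y := zero_lt_iff.2 ((O.valuation.ne_zero_iff).2 hy)
    rw [map_div₀, div_lt_one₀ h2, div_eq_mul_inv, hμm _ _ hx (inv_ne_zero hy),
      val_inv hμm hy, ← sub_eq_add_neg, sub_pos] at h1
    exact h1
  have hμ1 : ∀ x, x ≠ 0 → μ x = 0 → O.valuation x = 1 := by
    intro x hx h0
    have h1 := hμlt' x 1 hx one_ne_zero
    have h2 := hμlt' 1 x one_ne_zero hx
    rw [map_one, val_one hμm, h0] at h1 h2
    refine le_antisymm ?_ ?_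
    · exact not_lt.1 fun h3 => lt_irrefl _ (h2.1 h3)
    · exact not_lt.1 fun h3 => lt_irrefl _ (h1.1 h3)
  have hν0 : ∀ x y, y ≠ 0 → (gplc O).S x y → ν x = 0 := fun x y hy hxy =>
    (heq x ((gplc O).ne_zero hxy hy)).1 ⟨y, hy, hxy⟩
  have hμ0 : ∀ x y, y ≠ 0 → (rplc O).S x y → μ x = 0 := fun x y hy hxy => by
    refine hν0 _ (RatFunc.C y) ?_ (gs_C O hxy)
    rw [Ne, map_eq_zero_iff _ RatFunc.C_injective]
    exact hy
  -- the factorisations
  let w : Fin r → ℤ := fun j => ∑ i, b i j - ∑ i ∈ J, b i j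
  let B : Fin r → L := fun j => ∏ i ∈ J, (-t i) ^ b i j
  have hB : ∀ j, B j ≠ 0 := fun j => Finset.prod_ne_zero_iff.2 fun i hi =>
    zpow_ne_zero _ (neg_ne_zero.2 (hJ i hi))
  have hP : ∀ j, μ (yat t b s j) = w j • μ s + μ (B j) := by
    intro j
    have h1 := prod_fact J t hJ hs fun i => b i j
    have h2 : (rplc O).S (∏ i, unP J t s i ^ b i j)
        (∏ i : I, (1 : IsLocalRing.ResidueField O) ^ b i j) :=
      (rplc O).prod _ fun i _ => (rplc O).zpow (heR i) one_ne_zero _
    have h2' : (rplc O).S (∏ i, unP J t s i ^ b i j) 1 := by simpa using h2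
    unfold yat
    rw [h1, hμm _ _ (mul_ne_zero (zpow_ne_zero _ hs) (hB j))
      ((rplc O).ne_zero h2' one_ne_zero), hμm _ _ (zpow_ne_zero _ hs) (hB j),
      val_zpow hμm hs, hμ0 _ _ one_ne_zero h2', add_zero]
  have hP' : ∀ j, ν (yth t b θ j) = w j • μ θ + μ (B j) := by
    intro j
    have h1 := prod_fact J (fun i => (RatFunc.C (t i) : RatFunc L))
      (fun i hi => ratC_ne (hJ i hi)) (mul_ne_zero hCθ hX) fun i => b i j
    have h2 : (gplc O).S (∏ i, unP J (fun i => RatFunc.C (t i)) (RatFunc.C θ * RatFunc.X) i ^ b i j)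
        (∏ i, e i ^ b i j) := (gplc O).prod _ fun i _ => (gplc O).zpow (heP i) (he0 i) _
    have h3 : ∏ i, e i ^ b i j ≠ 0 := Finset.prod_ne_zero_iff.2 fun i _ => zpow_ne_zero _ (he0 i)
    have h4 : ∏ i ∈ J, (-(RatFunc.C (t i) : RatFunc L)) ^ b i j = RatFunc.C (B j) := by
      simp only [B, map_prod, map_zpow₀, map_neg]
    have h5 : ν (RatFunc.X : RatFunc L) = 0 := hν0 _ _ RatFunc.X_ne_zero (gs_X O)
    unfold yth
    rw [h1, h4, hm _ _ (mul_ne_zero (zpow_ne_zero _ (mul_ne_zero hCθ hX)) (ratC_ne (hB j)))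
      ((gplc O).ne_zero h2 h3), hm _ _ (zpow_ne_zero _ (mul_ne_zero hCθ hX)) (ratC_ne (hB j)),
      val_zpow hm (mul_ne_zero hCθ hX), hm _ _ hCθ hX, h5, add_zero, hν0 _ _ h3 h2, add_zero]
  -- the value of a functional
  let β : (Fin r → ℤ) → L := fun m => ∏ i ∈ J, (-t i) ^ (∑ j, m j * b i j)
  have hβ : ∀ m, β m ≠ 0 := fun m => Finset.prod_ne_zero_iff.2 fun i hi =>
    zpow_ne_zero _ (neg_ne_zero.2 (hJ i hi))
  have hβB : ∀ m, μ (β m) = ∑ j, m j • μ (B j) := by
    intro m
    simp only [β, B]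
    rw [val_prod hμm _ fun i hi => zpow_ne_zero _ (neg_ne_zero.2 (hJ i hi))]
    have h1 : ∀ j, μ (∏ i ∈ J, (-t i) ^ b i j) = ∑ i ∈ J, b i j • μ (-t i) := by
      intro j
      rw [val_prod hμm _ fun i hi => zpow_ne_zero _ (neg_ne_zero.2 (hJ i hi))]
      exact Finset.sum_congr rfl fun i hi => val_zpow hμm (neg_ne_zero.2 (hJ i hi)) _
    simp only [h1, Finset.smul_sum, smul_smul]
    rw [Finset.sum_comm]
    refine Finset.sum_congr rfl fun i hi => ?_
    rw [val_zpow hμm (neg_ne_zero.2 (hJ i hi)), Finset.sum_smul]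
  have hlin : ∀ (m : Fin r → ℤ) (u : Γ), ∑ j, m j • (w j • u + μ (B j)) =
      (∑ j, m j * w j) • u + μ (β m) := by
    intro m u
    rw [hβB, Finset.sum_smul, ← Finset.sum_add_distrib]
    refine Finset.sum_congr rfl fun j _ => ?_
    rw [smul_add, smul_smul]
  -- the two decompositions
  have hh := h
  have hh' := h'
  obtain ⟨hτ, -, gs, hgs0, hgs1, hgsS, hz⟩ := hh
  obtain ⟨hσ, -, gt, hgt0, hgt1, hgtS, hy⟩ := hh'
  have hy0 : ∀ j, yth t b θ j ≠ 0 := by
    intro j h0
    have h1 := (hy j).2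
    rw [h0, zero_mul] at h1
    exact (hy j).1 ((gplc O).uniq h1 (gplc O).zero)
  have hx0 : ∀ j, yat t b s j ≠ 0 := by
    intro j h0
    have h1 := (hz j).2
    rw [h0, zero_mul] at h1
    exact (hz j).1 ((rplc O).uniq h1 (rplc O).zero)
  obtain ⟨hστ, a, ha0, hw⟩ := Δ.adj (P := fun j => μ (yat t b s j))
    (P' := fun j => ν (yth t b θ j)) (w := w) (δ := μ θ - μ s)
    (γ := fun v => μ (gs v)) (γ' := fun v => ν (gt v))
    (fun j => by
      beta_reduce
      rw [hP j, hP' j, smul_sub]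
      abel)
    hτ hσ
    (fun v hv => (hμlt _ (hgs0 v)).1 ((rplc_zero_iff O).1 (hgsS v hv (Finset.notMem_empty v))))
    (fun v hv => by
      beta_reduce
      rw [hgs1 v hv, val_one hμm])
    (fun v hv => (hlt _ (hgt0 v)).1 (hgtS v hv (Finset.notMem_empty v)))
    (fun v hv => by
      beta_reduce
      rw [hgt1 v hv, val_one hm])
    (fun j => by
      have h1 := hμ0 _ _ (hz j).1 (hz j).2
      have h2 : ∏ v, gs v ^ (-Δ.ray v j) ≠ 0 :=
        Finset.prod_ne_zero_iff.2 fun v _ => zpow_ne_zero _ (hgs0 v)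
      rw [hμm _ _ (hx0 j) h2, val_prod hμm _ fun v _ => zpow_ne_zero _ (hgs0 v)] at h1
      rw [← sub_eq_zero, ← h1, sub_eq_add_neg, ← Finset.sum_neg_distrib]
      congr 1
      exact Finset.sum_congr rfl fun v _ => by rw [val_zpow hμm (hgs0 v), neg_smul])
    (fun j => by
      have h1 := hν0 _ _ (hy j).1 (hy j).2
      have h2 : ∏ v, gt v ^ (-Δ.ray v j) ≠ 0 :=
        Finset.prod_ne_zero_iff.2 fun v _ => zpow_ne_zero _ (hgt0 v)
      rw [hm _ _ (hy0 j) h2, val_prod hm _ fun v _ => zpow_ne_zero _ (hgt0 v)] at h1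
      rw [← sub_eq_zero, ← h1, sub_eq_add_neg, ← Finset.sum_neg_distrib]
      congr 1
      exact Finset.sum_congr rfl fun v _ => by rw [val_zpow hm (hgt0 v), neg_smul])
    (fun m hmf h0 => by
      simp only [hP] at h0
      rw [hlin] at h0
      by_contra hA
      refine hcs (Or.inr ⟨J, m, hmf, hJ, hA, ?_⟩)
      refine hμ1 _ (mul_ne_zero (zpow_ne_zero _ hs) (hβ m)) ?_
      rw [hμm _ _ (zpow_ne_zero _ hs) (hβ m), val_zpow hμm hs]
      exact h0)
    (fun m hmf h0 => by
      simp only [hP] at h0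
      rw [hlin] at h0
      by_contra hneg
      push Not at hneg
      simp only [hP'] at hneg
      rw [hlin] at hneg
      have hA : ∑ j, m j * w j ≠ 0 := by
        intro hA
        rw [hA, zero_smul, zero_add] at h0 hneg
        exact lt_asymm h0 hneg
      obtain ⟨s', hs', he'⟩ := exists_zpow_eq hA (hβ m)
      have h1 : (∑ j, m j * w j) • μ s' + μ (β m) = 0 := by
        rw [← val_zpow hμm hs', ← hμm _ _ (zpow_ne_zero _ hs') (hβ m), he', val_one hμm]
      have h2 : (∑ j, m j * w j) • μ θ < (∑ j, m j * w j) • μ s' := by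
        have : (∑ j, m j * w j) • μ θ + μ (β m) < (∑ j, m j * w j) • μ s' + μ (β m) := by
          rw [h1]
          exact hneg
        exact lt_of_add_lt_add_right this
      have h3 : (∑ j, m j * w j) • μ s' < (∑ j, m j * w j) • μ s := by
        have : (∑ j, m j * w j) • μ s' + μ (β m) < (∑ j, m j * w j) • μ s + μ (β m) := by
          rw [h1]
          exact h0
        exact lt_of_add_lt_add_right this
      have hcrit : Crit O Δ t b s' := by
        refine Or.inr ⟨J, m, hmf, hJ, hA, ?_⟩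
        have h4 : s' ^ (∑ j, m j * (∑ i, b i j - ∑ i ∈ J, b i j)) *
            ∏ i ∈ J, (-t i) ^ (∑ j, m j * b i j) = 1 := he'
        rw [h4, map_one]
      refine hno s' ?_ hcrit
      rcases lt_or_gt_of_ne hA with hA' | hA'
      · right
        have h5 : μ s < μ s' := by
          by_contra h6
          push Not at h6
          exact absurd h3 (not_lt.2 (zsmul_anti hA'.le h6))
        have h5' : μ s' < μ θ := by
          by_contra h6
          push Not at h6
          exact absurd h2 (not_lt.2 (zsmul_anti hA'.le h6))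
        exact ⟨(hμlt' _ _ hθ hs').2 h5', (hμlt' _ _ hs' hs).2 h5⟩
      · left
        have h5 : μ s' < μ s := by
          by_contra h6
          push Not at h6
          exact absurd h3 (not_lt.2 (zsmul_le_zsmul_right hA'.le h6))
        have h5' : μ θ < μ s' := by
          by_contra h6
          push Not at h6
          exact absurd h2 (not_lt.2 (zsmul_le_zsmul_right hA'.le h6))
        exact ⟨(hμlt' _ _ hs hs').2 h5, (hμlt' _ _ hs' hθ).2 h5'⟩)
  exact spO_adj O Δ t b Q hQ hs hθ J hJ hστ a ha0 hw e he0 heP heQ heR hsign h h'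

/-- (S1) the limit at infinity -/
theorem scale_inf {s θ : L} (hθ : θ ≠ 0) (h0 : O.valuation θ < O.valuation s)
    (hc : ∀ s', O.valuation θ < O.valuation s' → O.valuation s' ≤ O.valuation s →
      ¬ Crit O Δ t b s')
    {τ σ : Finset V} {y : Fin r → RatFunc (IsLocalRing.ResidueField O)}
    {z : Fin r → IsLocalRing.ResidueField O}
    (h : SpO (rplc O) Δ ∅ (yat t b s) τ z) (h' : SpO (gplc O) Δ ∅ (yth t b θ) σ y) :
    LimInf Δ σ y τ z := by
  classical
  have hs : s ≠ 0 := by
    rintro rfl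
    rw [map_zero] at h0
    exact not_lt_zero h0
  let J : Finset I := Finset.univ.filter fun i => O.valuation s < O.valuation (t i)
  have hJ : ∀ i ∈ J, t i ≠ 0 := by
    intro i hi h1
    have h2 := (Finset.mem_filter.1 hi).2
    rw [h1, map_zero] at h2
    exact not_lt_zero h2
  have hcs : ¬ Crit O Δ t b s := hc s h0 le_rfl
  have hout : ∀ i, i ∉ J → O.valuation (t i) < O.valuation s := by
    intro i hi
    refine lt_of_le_of_ne ?_ fun h1 => hcs (Or.inl ⟨i, h1⟩)
    exact not_lt.1 fun h1 => hi (Finset.mem_filter.2 ⟨Finset.mem_univ _, h1⟩)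
  have hout' : ∀ i, i ∉ J → O.valuation (t i) ≤ O.valuation θ := fun i hi =>
    not_lt.1 fun h1 => hc (t i) h1 (hout i hi).le (Or.inl ⟨i, rfl⟩)
  have hQ : ∀ c : IsLocalRing.ResidueField O, (plcInf _).S (RatFunc.C c) c := fun c => Inf.const c
  have hXinv : (plcInf (IsLocalRing.ResidueField O)).S (RatFunc.X)⁻¹ 0 := by
    refine ⟨1, X, X_ne_zero, ?_, ?_, ?_⟩
    · rw [natDegree_one]
      exact Nat.zero_le _
    · rw [natDegree_X, coeff_one, if_neg (by norm_num), zero_mul]
    · rw [map_one, RatFunc.algebraMap_X, one_div]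
  have hek : ∀ i, ∃ e : RatFunc (IsLocalRing.ResidueField O),
      (gplc O).S (unP J (fun i => RatFunc.C (t i)) (RatFunc.C θ * RatFunc.X) i) e ∧
      (plcInf _).S e 1 := by
    intro i
    unfold unP
    split_ifs with hi
    · refine ⟨1, ?_, (plcInf _).one⟩
      have h1 : O.valuation (θ / t i) < 1 :=
        val_div_lt O (h0.trans (Finset.mem_filter.1 hi).2)
      have h2 := (gplc O).mul (gs_C O ((rplc_zero_iff O).2 h1)) (gs_X O)
      rw [map_zero, zero_mul] at h2
      have h3 := (gplc O).sub (gplc O).one h2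
      rw [sub_zero] at h3
      have h4 : (RatFunc.C θ * RatFunc.X / RatFunc.C (t i) : RatFunc L) =
          RatFunc.C (θ / t i) * RatFunc.X := by
        rw [map_div₀]
        ring
      rw [h4]
      exact h3
    · obtain ⟨c, hc'⟩ := rplc_mem O (val_div_le O hθ (hout' i hi))
      refine ⟨1 - RatFunc.C c * RatFunc.X⁻¹, ?_, ?_⟩
      · have h2 := (gplc O).mul (gs_C O hc') ((gplc O).inv (gs_X O) RatFunc.X_ne_zero)
        have h3 := (gplc O).sub (gplc O).one h2
        have h4 : (RatFunc.C (t i) / (RatFunc.C θ * RatFunc.X) : RatFunc L) =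
            RatFunc.C (t i / θ) * RatFunc.X⁻¹ := by
          rw [map_div₀, div_mul_eq_div_div, div_eq_mul_inv (_ / _)]
        rw [h4]
        exact h3
      · have h2 := (plcInf _).sub (plcInf _).one ((plcInf _).mul (hQ c) hXinv)
        rwa [mul_zero, sub_zero] at h2
  choose e heP heQ using hek
  refine scale_core O Δ t b (plcInf _) hQ hs hθ J hJ hcs (fun s' hs' => ?_) e
    (fun i => (plcInf _).ne_zero (heQ i) one_ne_zero) heP heQ (fun i => ?_) ?_ h h'
  · rcases hs' with ⟨h1, h2⟩ | ⟨h1, h2⟩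
    · exact absurd (h1.trans h2) (not_lt.2 h0.le)
    · exact hc s' h1 h2.le
  · unfold unP
    split_ifs with hi
    · exact rplc_one_sub O (val_div_lt O (Finset.mem_filter.1 hi).2)
    · exact rplc_one_sub O (val_div_lt O (hout i hi))
  · intro n g c hc0 hg hgc
    have h1 : (rplc O).S (θ / s) 0 := (rplc_zero_iff O).2 (val_div_lt O h0)
    have hn : n < 0 := by
      by_contra hn
      push Not at hn
      obtain ⟨m, rfl⟩ := Int.eq_ofNat_of_zero_le hn
      rw [zpow_natCast] at hgc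
      have h2 := (rplc O).mul ((rplc O).pow h1 m) hg
      rw [mul_zero] at h2
      exact hc0 ((rplc O).uniq hgc h2)
    obtain ⟨m, hm⟩ := Int.eq_ofNat_of_zero_le (show 0 ≤ -n by omega)
    have h3 : n = -(m : ℤ) := by omega
    have h4 : m ≠ 0 := by omega
    rw [h3, zpow_neg, zpow_natCast, ← inv_pow]
    have h5 := (plcInf _).pow hXinv m
    rwa [zero_pow h4] at h5

/-- (S2) the limit at zero -/
theorem scale_zero {s θ : L} (hs : s ≠ 0) (h0 : O.valuation s < O.valuation θ)
    (hc : ∀ s', O.valuation s ≤ O.valuation s' → O.valuation s' < O.valuation θ →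
      ¬ Crit O Δ t b s')
    {τ σ : Finset V} {y : Fin r → RatFunc (IsLocalRing.ResidueField O)}
    {z : Fin r → IsLocalRing.ResidueField O}
    (h : SpO (rplc O) Δ ∅ (yat t b s) τ z) (h' : SpO (gplc O) Δ ∅ (yth t b θ) σ y) :
    LimAt Δ 0 σ y τ z := by
  classical
  have hθ : θ ≠ 0 := by
    rintro rfl
    rw [map_zero] at h0
    exact not_lt_zero h0
  let J : Finset I := Finset.univ.filter fun i => O.valuation s < O.valuation (t i)
  have hJ : ∀ i ∈ J, t i ≠ 0 := by
    intro i hi h1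
    have h2 := (Finset.mem_filter.1 hi).2
    rw [h1, map_zero] at h2
    exact not_lt_zero h2
  have hcs : ¬ Crit O Δ t b s := hc s le_rfl h0
  have hout : ∀ i, i ∉ J → O.valuation (t i) < O.valuation s := by
    intro i hi
    refine lt_of_le_of_ne ?_ fun h1 => hcs (Or.inl ⟨i, h1⟩)
    exact not_lt.1 fun h1 => hi (Finset.mem_filter.2 ⟨Finset.mem_univ _, h1⟩)
  have hin : ∀ i ∈ J, O.valuation θ ≤ O.valuation (t i) := fun i hi =>
    not_lt.1 fun h1 => hc (t i) (Finset.mem_filter.1 hi).2.le h1 (Or.inl ⟨i, rfl⟩)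
  have hQ : ∀ c : IsLocalRing.ResidueField O, (plcAt (0 : IsLocalRing.ResidueField O)).S
      (RatFunc.C c) c := fun c => by
    refine ⟨C c, 1, ?_, ?_, ?_⟩
    · rw [eval_one]
      exact one_ne_zero
    · rw [eval_C, eval_one, mul_one]
    · rw [map_one, div_one, RatFunc.algebraMap_C]
  have hX0 : (plcAt (0 : IsLocalRing.ResidueField O)).S RatFunc.X 0 := by
    refine ⟨X, 1, ?_, ?_, ?_⟩
    · rw [eval_one]
      exact one_ne_zero
    · rw [eval_X, zero_mul]
    · rw [map_one, RatFunc.algebraMap_X, div_one]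
  have hek : ∀ i, ∃ e : RatFunc (IsLocalRing.ResidueField O),
      (gplc O).S (unP J (fun i => RatFunc.C (t i)) (RatFunc.C θ * RatFunc.X) i) e ∧
      (plcAt (0 : IsLocalRing.ResidueField O)).S e 1 := by
    intro i
    unfold unP
    split_ifs with hi
    · obtain ⟨c, hc'⟩ := rplc_mem O (val_div_le O (hJ i hi) (hin i hi))
      refine ⟨1 - RatFunc.C c * RatFunc.X, ?_, ?_⟩
      · have h2 := (gplc O).mul (gs_C O hc') (gs_X O)
        have h3 := (gplc O).sub (gplc O).one h2
        have h4 : (RatFunc.C θ * RatFunc.X / RatFunc.C (t i) : RatFunc L) =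
            RatFunc.C (θ / t i) * RatFunc.X := by
          rw [map_div₀]
          ring
        rw [h4]
        exact h3
      · have h2 := (plcAt (0 : IsLocalRing.ResidueField O)).sub (plcAt _).one
          ((plcAt _).mul (hQ c) hX0)
        rwa [mul_zero, sub_zero] at h2
    · refine ⟨1, ?_, (plcAt _).one⟩
      have h1 : O.valuation (t i / θ) < 1 := val_div_lt O ((hout i hi).trans h0)
      have h2 := (gplc O).mul (gs_C O ((rplc_zero_iff O).2 h1))
        ((gplc O).inv (gs_X O) RatFunc.X_ne_zero)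
      rw [map_zero, zero_mul] at h2
      have h3 := (gplc O).sub (gplc O).one h2
      rw [sub_zero] at h3
      have h4 : (RatFunc.C (t i) / (RatFunc.C θ * RatFunc.X) : RatFunc L) =
          RatFunc.C (t i / θ) * RatFunc.X⁻¹ := by
        rw [map_div₀, div_mul_eq_div_div, div_eq_mul_inv (_ / _)]
      rw [h4]
      exact h3
  choose e heP heQ using hek
  refine scale_core O Δ t b (plcAt 0) hQ hs hθ J hJ hcs (fun s' hs' => ?_) e
    (fun i => (plcAt (0 : IsLocalRing.ResidueField O)).ne_zero (heQ i) one_ne_zero) heP heQ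
    (fun i => ?_) ?_ h h'
  · rcases hs' with ⟨h1, h2⟩ | ⟨h1, h2⟩
    · exact hc s' h1.le h2
    · exact absurd (h1.trans h2) (not_lt.2 h0.le)
  · unfold unP
    split_ifs with hi
    · exact rplc_one_sub O (val_div_lt O (Finset.mem_filter.1 hi).2)
    · exact rplc_one_sub O (val_div_lt O (hout i hi))
  · intro n g c hc0 hg hgc
    have h1 : (rplc O).S (s / θ) 0 := (rplc_zero_iff O).2 (val_div_lt O h0)
    have hn : 0 < n := by
      by_contra hn
      push Not at hn
      obtain ⟨m, hm⟩ := Int.eq_ofNat_of_zero_le (show 0 ≤ -n by omega)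
      have h3 : n = -(m : ℤ) := by omega
      rw [h3, zpow_neg, zpow_natCast, ← inv_pow, inv_div] at hgc
      have h2 := (rplc O).mul ((rplc O).pow h1 m) hg
      rw [mul_zero] at h2
      exact hc0 ((rplc O).uniq hgc h2)
    obtain ⟨m, hm⟩ := Int.eq_ofNat_of_zero_le hn.le
    have h4 : m ≠ 0 := by omega
    rw [hm]
    change (plcAt _).S (RatFunc.X ^ (m : ℤ)) 0
    rw [zpow_natCast]
    have h5 := (plcAt (0 : IsLocalRing.ResidueField O)).pow hX0 m
    rwa [zero_pow h4] at h5

end core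

end Pool.Agent.Work.WRC
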