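import Mathlib
import Pool.Agent.Work.MP_4329d7_ag_wrc.RedDefs

/-!
W-RC, uniqueness of the specialisation `SpO` of a point of an orbit of the fan at a place.
-/

namespace Pool.Agent.Work.WRC

open Polynomial Pool.Agent.Work.CI Pool.Agent.Work.CW Pool.Agent.Work.MP_4329d7_ag_sq

section place

variable {F κ : Type} [Field F] [Field κ] (P : Plc F κ)

theorem plcRing_mem {x : F} : x ∈ plcRing P ↔ ∃ y, P.S x y := Iff.rfl

theorem plcRing_lt {x : F} (h : P.S x 0) : (plcRing P).valuation x < 1 := by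
  have h1 : (plcRing P).valuation x ≤ 1 := ((plcRing P).valuation_le_one_iff x).2 ⟨0, h⟩
  refine lt_of_le_of_ne h1 fun h2 => ?_
  have hx : x ≠ 0 := by
    rintro rfl
    rw [map_zero] at h2
    exact zero_ne_one h2
  have h3 : x⁻¹ ∈ plcRing P := by
    rw [← (plcRing P).valuation_le_one_iff, map_inv₀, h2, inv_one]
  obtain ⟨y, hy⟩ := h3
  have h4 := P.mul h hy
  rw [mul_inv_cancel₀ hx, zero_mul] at h4
  exact zero_ne_one (P.uniq h4 P.one)

theorem plcRing_eq {x : F} {c : κ} (h : P.S x c) (hc : c ≠ 0) : (plcRing P).valuation x = 1 := by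
  have h1 : (plcRing P).valuation x ≤ 1 := ((plcRing P).valuation_le_one_iff x).2 ⟨c, h⟩
  refine le_antisymm h1 ?_
  have h2 : (plcRing P).valuation x⁻¹ ≤ 1 := ((plcRing P).valuation_le_one_iff _).2 ⟨_, P.inv h hc⟩
  have hx : x ≠ 0 := P.ne_zero h hc
  rw [map_inv₀] at h2
  exact (inv_le_one₀ ((Valuation.pos_iff _).2 hx)).1 h2

theorem plcRing_unit {x : F} (h : (plcRing P).valuation x = 1) : ∃ c, c ≠ 0 ∧ P.S x c := by
  have hx : x ≠ 0 := by
    rintro rfl
    rw [map_zero] at h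
    exact zero_ne_one h
  obtain ⟨c, hc⟩ : x ∈ plcRing P := ((plcRing P).valuation_le_one_iff x).1 h.le
  refine ⟨c, ?_, hc⟩
  rintro rfl
  exact absurd h (plcRing_lt P hc).ne

end place

section vg

variable {F : Type} [Field F] (O : ValuationSubring F)

/-- the value group of a valuation ring, written additively, elements of the ring are `≥ 0` -/
abbrev VG : Type := Additive (O.ValueGroupˣ)ᵒᵈ

/-- the additive valuation -/
noncomputable def vg : Additive Fˣ →+ VG O where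
  toFun u := Additive.ofMul (OrderDual.toDual (Units.map (O.valuation : F →* O.ValueGroup) u.toMul))
  map_zero' := by
    rw [toMul_zero, map_one]
    rfl
  map_add' a b := by
    rw [toMul_add, map_mul]
    rfl

theorem vg_pos (u : Fˣ) : 0 < vg O (Additive.ofMul u) ↔ O.valuation (u : F) < 1 := by
  rw [← not_le, ← not_le, not_iff_not]
  exact Iff.rfl

theorem vg_eq_zero (u : Fˣ) : vg O (Additive.ofMul u) = 0 ↔ O.valuation (u : F) = 1 := by
  change Units.map (O.valuation : F →* O.ValueGroup) u = 1 ↔ _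
  rw [Units.ext_iff]
  exact Iff.rfl

end vg

namespace FanV

variable {V : Type} [Fintype V] [DecidableEq V] {r : ℕ} (Δ : FanV V r)

omit [DecidableEq V] in
theorem vg_prod {F : Type} [Field F] (O : ValuationSubring F) (g : V → Fˣ) (m : V → ℤ) :
    vg O (Additive.ofMul (∏ v, g v ^ m v)) = ∑ v, m v • vg O (Additive.ofMul (g v)) := by
  rw [ofMul_prod, map_sum]
  exact Finset.sum_congr rfl fun v _ => by rw [ofMul_zpow, map_zsmul]

/-- the point at a place is unique -/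
theorem spO_uniq_aux {F κ : Type} [Field F] [Field κ] (P : Plc F κ) {σ : Finset V} {y : Fin r → F}
    {τ τ' : Finset V} {z z' : Fin r → κ} (h : SpO P Δ σ y τ z)
    (h' : SpO P Δ σ y τ' z') : τ = τ' ∧ ∃ μ : V → κ, (∀ v, μ v ≠ 0) ∧
      ∀ j, z j = z' j * ∏ v ∈ τ, μ v ^ Δ.ray v j := by
  classical
  obtain ⟨hτ, hσ, g, g0, g1, g2, g3⟩ := h
  obtain ⟨hτ', hσ', g', g0', g1', g2', g3'⟩ := h'
  have hy : ∀ j, y j ≠ 0 := fun j => left_ne_zero_of_mul (P.ne_zero (g3 j).2 (g3 j).1)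
  let O := plcRing P
  -- the vectors of values
  let u : V → Fˣ := fun v => Units.mk0 (g v) (g0 v)
  let u' : V → Fˣ := fun v => Units.mk0 (g' v) (g0' v)
  let γ : V → ℤ ×ₗ VG O := fun v => toLex (if v ∈ σ then 1 else 0, vg O (Additive.ofMul (u v)))
  let γ' : V → ℤ ×ₗ VG O := fun v => toLex (if v ∈ σ then 1 else 0, vg O (Additive.ofMul (u' v)))
  have hpos : ∀ (τ : Finset V) (g : V → F) (g0 : ∀ v, g v ≠ 0), (∀ v ∈ τ, v ∉ σ → P.S (g v) 0) →
      ∀ v ∈ τ, 0 < (toLex (if v ∈ σ then (1 : ℤ) else 0,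
        vg O (Additive.ofMul (Units.mk0 (g v) (g0 v)))) : ℤ ×ₗ VG O) := by
    intro τ g g0 g2 v hv
    rw [Prod.Lex.lt_iff]
    by_cases hs : v ∈ σ
    · left
      change 0 < (if v ∈ σ then (1 : ℤ) else 0)
      rw [if_pos hs]
      exact one_pos
    · right
      refine ⟨?_, ?_⟩
      · change 0 = (if v ∈ σ then (1 : ℤ) else 0)
        rw [if_neg hs]
      · change 0 < vg O (Additive.ofMul (Units.mk0 (g v) (g0 v)))
        rw [vg_pos]
        exact plcRing_lt P (g2 v hv hs)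
  have hzero : ∀ (τ : Finset V) (g : V → F) (g0 : ∀ v, g v ≠ 0), σ ⊆ τ → (∀ v, v ∉ τ → g v = 1) →
      ∀ v, v ∉ τ → (toLex (if v ∈ σ then (1 : ℤ) else 0,
        vg O (Additive.ofMul (Units.mk0 (g v) (g0 v)))) : ℤ ×ₗ VG O) = 0 := by
    intro τ g g0 hσ g1 v hv
    have h1 : Units.mk0 (g v) (g0 v) = 1 := Units.ext (g1 v hv)
    rw [if_neg fun h => hv (hσ h), h1, ofMul_one, map_zero]
    rfl
  let p1 : (ℤ ×ₗ VG O) →+ ℤ :=
    { toFun := fun z => (ofLex z).1, map_zero' := rfl, map_add' := fun _ _ => rfl }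
  let p2 : (ℤ ×ₗ VG O) →+ VG O :=
    { toFun := fun z => (ofLex z).2, map_zero' := rfl, map_add' := fun _ _ => rfl }
  have hval : ∀ (g : V → F) (g0 : ∀ v, g v ≠ 0) (z : Fin r → κ),
      (∀ j, z j ≠ 0 ∧ P.S (y j * ∏ v, g v ^ (-Δ.ray v j)) (z j)) → ∀ j,
      ∑ v, Δ.ray v j • vg O (Additive.ofMul (Units.mk0 (g v) (g0 v))) =
        vg O (Additive.ofMul (Units.mk0 (y j) (hy j))) := by
    intro g g0 z g3 j
    have h1 := plcRing_eq P (g3 j).2 (g3 j).1
    let w : Fˣ := Units.mk0 (y j) (hy j) * ∏ v, Units.mk0 (g v) (g0 v) ^ (-Δ.ray v j)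
    have hw : (w : F) = y j * ∏ v, g v ^ (-Δ.ray v j) := by
      simp only [w]
      push_cast
      rfl
    rw [← hw] at h1
    have h2 := (vg_eq_zero O w).2 h1
    have h3 : vg O (Additive.ofMul w) = vg O (Additive.ofMul (Units.mk0 (y j) (hy j))) +
        ∑ v, (-Δ.ray v j) • vg O (Additive.ofMul (Units.mk0 (g v) (g0 v))) := by
      simp only [w]
      rw [ofMul_mul, map_add, vg_prod]
    rw [h3] at h2
    simp only [neg_smul, Finset.sum_neg_distrib] at h2
    exact (add_neg_eq_zero.1 h2).symm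
  have hu := Δ.dec_uniq (Γ := ℤ ×ₗ VG O) (γ := γ) (γ' := γ') hτ hτ' (hpos τ g g0 g2)
    (hpos τ' g' g0' g2') (hzero τ g g0 hσ g1) (hzero τ' g' g0' hσ' g1') (fun j => by
      have e1 : p1 (∑ v, Δ.ray v j • γ v) = p1 (∑ v, Δ.ray v j • γ' v) := by
        rw [map_sum, map_sum]
        rfl
      have e2 : p2 (∑ v, Δ.ray v j • γ v) = p2 (∑ v, Δ.ray v j • γ' v) := by
        rw [map_sum, map_sum]
        simp only [map_zsmul]
        change ∑ v, Δ.ray v j • vg O (Additive.ofMul (u v)) =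
          ∑ v, Δ.ray v j • vg O (Additive.ofMul (u' v))
        rw [hval g g0 z g3 j, hval g' g0' z' g3' j]
      exact ofLex.injective (Prod.ext e1 e2))
  obtain ⟨rfl, hγ⟩ := hu
  refine ⟨rfl, ?_⟩
  have hq : ∀ v, ∃ c, c ≠ 0 ∧ P.S (g' v / g v) c := by
    intro v
    have h1 : vg O (Additive.ofMul (u v)) = vg O (Additive.ofMul (u' v)) :=
      congrArg p2 (congrFun hγ v)
    have h2 : vg O (Additive.ofMul (u' v / u v)) = 0 := by
      rw [ofMul_div, map_sub, h1, sub_self]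
    rw [vg_eq_zero] at h2
    have h3 : ((u' v / u v : Fˣ) : F) = g' v / g v := by
      rw [Units.val_div_eq_div_val]
      rfl
    rw [h3] at h2
    exact plcRing_unit P h2
  choose μ hμ hμS using hq
  refine ⟨μ, hμ, fun j => ?_⟩
  have hμ1 : ∀ v, v ∉ τ → μ v = 1 := by
    intro v hv
    have h1 := hμS v
    rw [g1 v hv, g1' v hv, div_one] at h1
    exact P.uniq h1 P.one
  have h1 : P.S ((y j * ∏ v, g' v ^ (-Δ.ray v j)) * ∏ v, (g' v / g v) ^ Δ.ray v j)
      (z' j * ∏ v, μ v ^ Δ.ray v j) :=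
    P.mul (g3' j).2 (P.prod _ fun v _ => P.zpow (hμS v) (hμ v) _)
  have h2 : (y j * ∏ v, g' v ^ (-Δ.ray v j)) * ∏ v, (g' v / g v) ^ Δ.ray v j =
      y j * ∏ v, g v ^ (-Δ.ray v j) := by
    rw [mul_assoc, ← Finset.prod_mul_distrib]
    congr 1
    refine Finset.prod_congr rfl fun v _ => ?_
    rw [div_zpow, zpow_neg, zpow_neg]
    have := zpow_ne_zero (Δ.ray v j) (g0' v)
    field_simp
  rw [h2] at h1
  rw [P.uniq (g3 j).2 h1]
  congr 1
  refine (Finset.prod_subset (Finset.subset_univ τ) fun v _ hv => ?_).symm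
  rw [hμ1 v hv, one_zpow]

end FanV

/-- **The specialisation is unique** up to the torus of its cone. -/
theorem spO_uniq {V : Type} [Fintype V] [DecidableEq V] {r : ℕ} {Δ : FanV V r} {F κ : Type}
    [Field F] [Field κ] {P : Plc F κ} {σ : Finset V} {x : Fin r → F} {τ τ' : Finset V}
    {z z' : Fin r → κ} (h : SpO P Δ σ x τ z) (h' : SpO P Δ σ x τ' z') :
    τ = τ' ∧ ∃ μ : V → κ, (∀ v, μ v ≠ 0) ∧ ∀ j, z' j = z j * ∏ v ∈ τ, μ v ^ Δ.ray v j := by
  obtain ⟨rfl, μ, hμ, he⟩ := Δ.spO_uniq_aux P h' h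
  exact ⟨rfl, μ, hμ, he⟩

end Pool.Agent.Work.WRC
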