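import Mathlib
import Pool.Agent.Work.MP_4329d7_ag_wrc.SpoUniq
import Pool.Agent.Work.MP_4329d7_ag_wrc.SpzMap
import Pool.Agent.Work.MP_4329d7_ag_wrc.Morph

/-!
W-RC, the values of a section of an orbit of the fan at a finite point.

* `lim_lift`: the point at `a` of a section which is given by its lift (`morph`);
* `VF.lim_at`: the very free curve through the point with Cox coordinates `H(a)` gives one through
  the point of the section at `a`.
-/

namespace Pool.Agent.Work.WRC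

open Polynomial Pool.Agent.Work.CI Pool.Agent.Work.CW Pool.Agent.Work.MP_4329d7_ag_sq

section plc

variable {k : Type} [Field k]

theorem plcAt_poly (a : k) (p : k[X]) : (plcAt a).S (algebraMap k[X] (RatFunc k) p) (p.eval a) :=
  ⟨p, 1, by simp, by simp, by simp⟩

theorem plcAt_C (a c : k) : (plcAt a).S (RatFunc.C c) c := by
  have := plcAt_poly a (C c)
  rwa [RatFunc.algebraMap_C, eval_C] at this

end plc

section lift

variable {r : ℕ} {V : Type} [Fintype V] [DecidableEq V] (Δ : FanV V r) {k : Type} [Field k]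

/-- the point at `a` of a lifted section -/
theorem FanV.lim_lift {σ : Finset V} {y : Fin r → RatFunc k} {H : V → k[X]} {y0 : Fin r → k}
    {h : V → RatFunc k} (hHσ : ∀ v ∈ σ, H v = 0) (hH : ∀ v, v ∉ σ → H v ≠ 0)
    (hh : ∀ v, h v ≠ 0) (hy0 : ∀ j, y0 j ≠ 0)
    (hy : ∀ j, y j = RatFunc.C (y0 j) * ∏ v,
      (if v ∈ σ then h v else algebraMap k[X] (RatFunc k) (H v)) ^ Δ.ray v j) (a : k)
    {ρ : Finset V} (hρ : Δ.cone ρ) (hρa : ∀ v, (H v).eval a = 0 ↔ v ∈ ρ) :
    LimAt Δ a σ y ρ fun j => y0 j * ∏ v ∈ ρᶜ, (H v).eval a ^ Δ.ray v j := by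
  classical
  have hσρ : σ ⊆ ρ := fun v hv => (hρa v).1 (by rw [hHσ v hv, eval_zero])
  refine ⟨hρ, hσρ, fun v => if v ∈ σ then h v else if v ∈ ρ then
    algebraMap k[X] (RatFunc k) (H v) else 1, fun v => ?_, fun v hv => ?_, fun v hv hvs => ?_,
    fun j => ⟨?_, ?_⟩⟩
  · beta_reduce
    split_ifs with h1 h2
    · exact hh v
    · exact inf_ne (hH v h1)
    · exact one_ne_zero
  · beta_reduce
    rw [if_neg fun h => hv (hσρ h), if_neg hv]
  · beta_reduce
    rw [if_neg hvs, if_pos hv, ← (hρa v).2 hv]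
    exact plcAt_poly a (H v)
  · refine mul_ne_zero (hy0 j) (Finset.prod_ne_zero_iff.2 fun v hv => zpow_ne_zero _ fun h0 => ?_)
    exact (Finset.mem_compl.1 hv) ((hρa v).1 h0)
  · have h1 : y j * ∏ v, (if v ∈ σ then h v else if v ∈ ρ then
        algebraMap k[X] (RatFunc k) (H v) else 1) ^ (-Δ.ray v j) =
        RatFunc.C (y0 j) * ∏ v ∈ ρᶜ, algebraMap k[X] (RatFunc k) (H v) ^ Δ.ray v j := by
      rw [hy j, mul_assoc, ← Finset.prod_mul_distrib]
      congr 1
      symm
      rw [← Finset.prod_subset (Finset.subset_univ ρᶜ)]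
      · refine Finset.prod_congr rfl fun v hv => ?_
        have hv' := Finset.mem_compl.1 hv
        rw [if_neg fun h => hv' (hσρ h), if_neg fun h => hv' (hσρ h), if_neg hv', one_zpow, mul_one]
      · intro v _ hv
        rw [Finset.mem_compl, not_not] at hv
        by_cases hs : v ∈ σ
        · rw [if_pos hs, if_pos hs, ← zpow_add₀ (hh v), add_neg_cancel, zpow_zero]
        · rw [if_neg hs, if_neg hs, if_pos hv, ← zpow_add₀ (inf_ne (hH v hs)), add_neg_cancel,
            zpow_zero]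
    rw [h1]
    refine (plcAt a).mul (plcAt_C a _) ((plcAt a).prod _ fun v hv => ?_)
    refine (plcAt a).zpow (plcAt_poly a (H v)) (fun h0 => ?_) _
    exact (Finset.mem_compl.1 hv) ((hρa v).1 h0)

end lift

section vf

variable {K : Type} [Field K] [Algebra ℂ K] {dB r : ℕ} {B Q : Type}
  {x : Fin (dB + r) → K} {f : B ⊕ Q → Lau (dB + r)} {V : Type} [Fintype V] [DecidableEq V]

theorem mulF_mulF {k : Type} [Field k] (x' : Fin (dB + r) → k) (z z' : Fin r → k) :
    mulF (mulF x' z) z' = mulF x' fun j => z j * z' j := by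
  funext j
  unfold mulF
  rw [mul_assoc]
  congr 1
  refine Fin.addCases (fun j => ?_) (fun j => ?_) j
  · simp only [Fin.append_left, Pi.one_apply, mul_one]
  · simp only [Fin.append_right]

theorem VF.lim_at {Δ : FanV V r} {k : Type} [Field k] [Algebra ℂ k] {x₀ : Fin (dB + r) → k}
    {σ : Finset V} {y : Fin r → RatFunc k} {H : V → k[X]} {y0 : Fin r → k}
    {h : V → RatFunc k} (hHσ : ∀ v ∈ σ, H v = 0) (hH : ∀ v, v ∉ σ → H v ≠ 0)
    (hh : ∀ v, h v ≠ 0) (hy0 : ∀ j, y0 j ≠ 0)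
    (hy : ∀ j, y j = RatFunc.C (y0 j) * ∏ v,
      (if v ∈ σ then h v else algebraMap k[X] (RatFunc k) (H v)) ^ Δ.ray v j) (a : k)
    {ρ : Finset V} (hρ : Δ.cone ρ) (hρa : ∀ v, (H v).eval a = 0 ↔ v ∈ ρ)
    (hv : VF x f Δ.ray (mulF x₀ y0) fun v => (H v).eval a) {τ : Finset V} {z : Fin r → k}
    (hl : LimAt Δ a σ y τ z) : VF x f Δ.ray (mulF x₀ z) (ind k τ) := by
  have h1 := hv.to_ind ρ hρa
  rw [mulF_mulF] at h1
  obtain ⟨rfl, μ, hμ, hz⟩ := Δ.spO_uniq_aux (plcAt a)
    (Δ.lim_lift hHσ hH hh hy0 hy a hρ hρa) hl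
  exact h1.of_tau ρ μ hμ hz

end vf

end Pool.Agent.Work.WRC
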