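import Mathlib
import Pool.Agent.Work.MP_4329d7_ag_wrc.LimLift
import Pool.Agent.Work.MP_4329d7_ag_wrc.Defs2

/-!
W-RC, `step_sec`: very free curves along a section of an orbit with constant coefficients.
-/

namespace Pool.Agent.Work.WRC

open Polynomial Pool.Agent.Work.CI Pool.Agent.Work.CW Pool.Agent.Work.MP_4329d7_ag_sq

variable {K : Type} [Field K] [Algebra ℂ K] {dB r : ℕ} {B Q : Type}

/-- the statement of `step` -/
def StepProp {V : Type} [Fintype V] [DecidableEq V] (x : Fin (dB + r) → K)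
    (f : B ⊕ Q → Lau (dB + r)) (Δ : FanV V r) : Prop :=
  ∀ (k : Type) [Field k] [Algebra ℂ k] [IsAlgClosed k] (φ : KBf x →ₐ[ℂ] k)
    (x' : Fin (dB + r) → k), (∀ j, x' j ≠ 0) → (∀ j, φ (xB x j) = x' (Fin.castAdd r j)) →
    ∀ (H : V → k[X]) (N : V → ℤ), (coxF f Δ.ray).Rel N → (∀ v, DegLE (H v) (N v)) →
    (∀ q, (coxF f Δ.ray).F (fun q χ => C (cst (fun q => f (Sum.inr q)) x' q χ)) q H = 0) →
    (∀ a : k, ∃ τ, Δ.cone τ ∧ ∀ v, (H v).eval a = 0 ↔ v ∈ τ) →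
    (∃ τ, Δ.cone τ ∧ ∀ v, lc (H v) (N v) = 0 ↔ v ∈ τ) →
    VF x f Δ.ray x' (fun v => lc (H v) (N v)) → ∀ a : k, VF x f Δ.ray x' fun v => (H v).eval a

variable {x : Fin (dB + r) → K} {f : B ⊕ Q → Lau (dB + r)} {V : Type} [Fintype V] [DecidableEq V]

omit [Fintype V] in
theorem ind_eq_zero {k : Type} [Field k] (τ : Finset V) (v : V) : ind k τ v = 0 ↔ v ∈ τ := by
  unfold ind
  by_cases hv : v ∈ τ
  · rw [if_pos hv]; exact ⟨fun _ => hv, fun _ => rfl⟩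
  · rw [if_neg hv]; exact ⟨fun h => absurd h one_ne_zero, fun h => absurd h hv⟩

/-- Very free curves along a section of an orbit of the family with constant coefficients. -/
theorem step_sec {Δ : FanV V r} (hstep : StepProp x f Δ) {k : Type} [Field k] [Algebra ℂ k]
    [IsAlgClosed k] (φ : KBf x →ₐ[ℂ] k) (x₀ : Fin (dB + r) → k) (hx₀ : ∀ j, x₀ j ≠ 0)
    (hφ : ∀ j, φ (xB x j) = x₀ (Fin.castAdd r j)) {σ : Finset V} {y : Fin r → RatFunc k}
    (hb : BdSec Δ f (fun q χ => C (cst (fun q => f (Sum.inr q)) x₀ q χ)) σ y) {τ : Finset V}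
    {z : Fin r → k} (hl : LimInf Δ σ y τ z) (hvf : VF x f Δ.ray (mulF x₀ z) (ind k τ)) (a : k)
    {τ' : Finset V} {z' : Fin r → k} (hl' : LimAt Δ a σ y τ' z') :
    VF x f Δ.ray (mulF x₀ z') (ind k τ') := by
  obtain ⟨H, N, y0, h, τ₁, h1, h2, h3, h4, h5, h6, h7, h8, h9, h10, h11, h12⟩ :=
    morph0 Δ hb.cone y hb.ne
  obtain ⟨rfl, μ, hμ, hμ1, hz⟩ := h12 τ z hl
  have hF := fun q => morph_eq Δ f hb h1 (fun v hv => (h2 v hv).ne_zero) h10 h11 q
  have hF' : ∀ q, (coxF f Δ.ray).F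
      (fun q χ => C (cst (fun q => f (Sum.inr q)) (mulF x₀ y0) q χ)) q H = 0 := by
    intro q
    rw [← hF q]
    congr 1
    funext q χ
    rw [cst_mulF, C_mul]
  have hx' : ∀ j, mulF x₀ y0 j ≠ 0 := by
    intro j
    unfold mulF
    refine mul_ne_zero (hx₀ j) ?_
    refine Fin.addCases (fun j => ?_) (fun j => ?_) j
    · rw [Fin.append_left]; exact one_ne_zero
    · rw [Fin.append_right]; exact h9 j
  have hφ' : ∀ j, φ (xB x j) = mulF x₀ y0 (Fin.castAdd r j) := by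
    intro j
    rw [hφ]
    unfold mulF
    rw [Fin.append_left, Pi.one_apply, mul_one]
  have hv0 : VF x f Δ.ray (mulF x₀ y0) fun v => lc (H v) (N v) := by
    have h13 : (fun v => lc (H v) (N v)) = ind k τ := funext h7
    rw [h13]
    exact VF.of_lim hμ hμ1 hz hvf
  have h14 := hstep k φ (mulF x₀ y0) hx' hφ' H N ((rel_iff f Δ.ray N).2 h8) h4 hF' h3
    ⟨τ, h5, fun v => by rw [h7 v, ind_eq_zero]⟩ hv0 a
  obtain ⟨ρ, hρ, hρa⟩ := h3 a
  exact h14.lim_at h1 (fun v hv => (h2 v hv).ne_zero) h10 h9 h11 a hρ hρa hl'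

end Pool.Agent.Work.WRC
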