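import Mathlib
import Pool.Agent.Work.MP_4329d7_ag_wrc.Chain
import Pool.Agent.Work.MP_4329d7_ag_wrc.ScaleC
import Pool.Agent.Work.MP_4329d7_ag_wrc.Red
import Pool.Agent.Work.MP_4329d7_ag_wrc.StepSec

/-!
W-RC, CHAIN: the chain of Gauss reductions.

* `exists_roots`: the roots of the monic polynomials `Y v`;
* `chain_sec_aux`, `chain_sec`: a very free curve at the value `1` of the constant family gives one through the point
  at infinity of the Gauss reduction of the section.
-/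

namespace Pool.Agent.Work.WRC

open Polynomial Pool.Agent.Work.CI Pool.Agent.Work.CW

section roots

theorem exists_ofFn {α : Type*} (s : Multiset α) {m : ℕ} (h : Multiset.card s = m) :
    ∃ t : Fin m → α, s = (List.ofFn t : Multiset α) := by
  subst h
  induction s using Quotient.inductionOn with
  | _ l => exact ⟨fun i => l.get i, by
      congr 1
      exact (List.ofFn_get l).symm⟩

variable {V : Type} {L : Type} [Field L] [IsAlgClosed L]

/-- the roots of monic polynomials -/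
theorem exists_roots (m : V → ℕ) (Y : V → L[X]) (hY : ∀ v, DegLE (Y v) (m v))
    (hlc : ∀ v, lc (Y v) (m v) = 1) :
    ∃ t : (Σ v, Fin (m v)) → L, ∀ v, Y v = ∏ i, (X - C (t ⟨v, i⟩)) := by
  have h : ∀ v, ∃ t : Fin (m v) → L, Y v = ∏ i, (X - C (t i)) := by
    intro v
    have h1 : (Y v).natDegree ≤ m v := degLE_iff.1 (hY v)
    have h2 : (Y v).coeff (m v) = 1 := by
      have := hlc v
      rwa [lc_of_nat] at this
    have hmon : (Y v).Monic := monic_of_natDegree_le_of_coeff_eq_one (m v) h1 h2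
    have hdeg : (Y v).natDegree = m v := by
      refine le_antisymm h1 (le_natDegree_of_ne_zero ?_)
      rw [h2]
      exact one_ne_zero
    have hspl := IsAlgClosed.splits (Y v)
    have hcard : Multiset.card (Y v).roots = m v := by
      rw [← hdeg]
      exact (splits_iff_card_roots.1 hspl)
    have hprod : Y v = ((Y v).roots.map fun a => X - C a).prod := by
      conv_lhs => rw [Splits.eq_prod_roots hspl]
      rw [hmon.leadingCoeff, C_1, one_mul]
    obtain ⟨t, ht⟩ := exists_ofFn _ hcard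
    refine ⟨t, ?_⟩
    rw [hprod, ht, Multiset.map_coe, Multiset.prod_coe, List.map_ofFn, List.prod_ofFn]
    rfl
  choose t ht using h
  exact ⟨fun i => t i.1 i.2, ht⟩

end roots

variable {K : Type} [Field K] [Algebra ℂ K] {dB r : ℕ} {B Q : Type}
  {x : Fin (dB + r) → K} {f : B ⊕ Q → Lau (dB + r)} {V : Type} [Fintype V] [DecidableEq V]

/-- **The chain of Gauss reductions.** -/
theorem chain_sec_aux {Δ : FanV V r} (hstep : StepProp x f Δ) {L : Type} [Field L] [IsAlgClosed L]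
    (O : ValuationSubring L) [Algebra ℂ (IsLocalRing.ResidueField O)]
    [IsAlgClosed (IsLocalRing.ResidueField O)] (hO : ∃ w : L, w ≠ 0 ∧ O.valuation w < 1)
    (φ : KBf x →ₐ[ℂ] IsLocalRing.ResidueField O) (x₀ : Fin (dB + r) → IsLocalRing.ResidueField O)
    (hx₀ : ∀ j, x₀ j ≠ 0) (hφ : ∀ j, φ (xB x j) = x₀ (Fin.castAdd r j))
    (a : Q → (Fin (dB + r) → ℤ) → (IsLocalRing.ResidueField O)[X])
    {I : Type} [Fintype I] (t : I → L) (b : I → Fin r → ℤ)
    (hb : ∀ j, ∑ i, b i j = 0)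
    (hred : ∀ θ : L, 1 < O.valuation θ → ∀ σ y, SpO (gplc O) Δ ∅ (yth t b θ) σ y →
      BdSec Δ f (fun q χ => C (cst (fun q => f (Sum.inr q)) x₀ q χ)) σ y)
    (hred1 : ∀ σ y, SpO (gplc O) Δ ∅ (yth t b 1) σ y → BdSec Δ f a σ y)
    (hVF : VF x f Δ.ray x₀ 1) :
    ∃ (σ : Finset V) (y : Fin r → RatFunc (IsLocalRing.ResidueField O)) (τ : Finset V)
      (z : Fin r → IsLocalRing.ResidueField O), BdSec Δ f a σ y ∧ LimInf Δ σ y τ z ∧
      VF x f Δ.ray (mulF x₀ z) (ind (IsLocalRing.ResidueField O) τ) := by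
  classical
  obtain ⟨σ, y, τ, z, h1, h2, h3⟩ := chain_principle O Δ t b hO
    (fun s hs h => red_top O Δ t b hb h hs) (fun θ hθ => exists_gred O Δ t b hθ)
    (fun s hs => exists_red O Δ t b hs)
    (fun θ s hθ h0 hc σ y τ z h h' => scale_inf O Δ t b hθ h0 hc h h')
    (fun θ s hs h0 hc σ y τ z h h' => scale_zero O Δ t b hs h0 hc h h')
    (fun τ z => VF x f Δ.ray (mulF x₀ z) (ind (IsLocalRing.ResidueField O) τ)) (by
      have e1 : mulF x₀ (1 : Fin r → IsLocalRing.ResidueField O) = x₀ := by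
        funext j
        unfold mulF
        refine (congrArg (x₀ j * ·) ?_).trans (mul_one _)
        refine Fin.addCases (fun j => ?_) (fun j => ?_) j
        · simp only [Fin.append_left, Pi.one_apply]
        · simp only [Fin.append_right, Pi.one_apply]
      have e2 : ind (IsLocalRing.ResidueField O) (∅ : Finset V) = 1 := by
        funext v
        unfold ind
        rw [if_neg (Finset.notMem_empty v), Pi.one_apply]
      rw [e1, e2]
      exact hVF)
    fun θ hθ σ y τ z τ' z' h1 h2 h3 h4 =>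
      step_sec hstep φ x₀ hx₀ hφ (hred θ hθ σ y h1) h2 h4 0 h3
  exact ⟨σ, y, τ, z, hred1 σ y h1, h2, h3⟩

theorem prod_fst_eq {m : V → ℕ} {A : Type*} [CommMonoid A] (g : (Σ v, Fin (m v)) → A) (v : V) :
    ∏ i with i.1 = v, g i = ∏ i : Fin (m v), g ⟨v, i⟩ := by
  rw [Finset.prod_filter, Fintype.prod_sigma, Finset.prod_eq_single v]
  · exact Finset.prod_congr rfl fun i _ => if_pos rfl
  · intro w _ hw
    exact Finset.prod_eq_one fun i _ => if_neg hw
  · intro h
    exact absurd (Finset.mem_univ v) h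

/-- **The chain of Gauss reductions** for the section `∏ Y_v ^ ray_v` of the family `A` which
reduces to `a`. -/
theorem chain_sec {Δ : FanV V r} (hstep : StepProp x f Δ) {L : Type} [Field L]
    [IsAlgClosed L] (O : ValuationSubring L) [Algebra ℂ (IsLocalRing.ResidueField O)]
    [IsAlgClosed (IsLocalRing.ResidueField O)] (hO : ∃ w : L, w ≠ 0 ∧ O.valuation w < 1)
    (φ : KBf x →ₐ[ℂ] IsLocalRing.ResidueField O) (x₀ : Fin (dB + r) → IsLocalRing.ResidueField O)
    (hx₀ : ∀ j, x₀ j ≠ 0) (hφ : ∀ j, φ (xB x j) = x₀ (Fin.castAdd r j))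
    (A : Q → (Fin (dB + r) → ℤ) → L[X])
    (a : Q → (Fin (dB + r) → ℤ) → (IsLocalRing.ResidueField O)[X]) (D : Q → ℕ)
    (hA : ∀ q, ∀ χ ∈ (f (Sum.inr q)).support, ∀ i,
      (rplc O).S ((A q χ).coeff i) ((a q χ).coeff i))
    (hdeg : ∀ q, ∀ χ ∈ (f (Sum.inr q)).support, (A q χ).natDegree ≤ D q)
    (htop : ∀ q, ∀ χ ∈ (f (Sum.inr q)).support,
      (a q χ).coeff (D q) = cst (fun q => f (Sum.inr q)) x₀ q χ)
    (m : V → ℕ) (hm : (coxF f Δ.ray).Rel fun v => (m v : ℤ)) (Y : V → L[X])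
    (hY : ∀ v, DegLE (Y v) (m v)) (hlc : ∀ v, lc (Y v) (m v) = 1)
    (hF : ∀ q, (coxF f Δ.ray).F A q Y = 0) (hVF : VF x f Δ.ray x₀ 1) :
    ∃ (σ : Finset V) (y : Fin r → RatFunc (IsLocalRing.ResidueField O)) (τ : Finset V)
      (z : Fin r → IsLocalRing.ResidueField O), BdSec Δ f a σ y ∧ LimInf Δ σ y τ z ∧
      VF x f Δ.ray (mulF x₀ z) (ind (IsLocalRing.ResidueField O) τ) := by
  obtain ⟨t, ht⟩ := exists_roots m Y hY hlc
  have hYt : ∀ v, Y v = ∏ i with i.1 = v, (X - C (t i)) := fun v => by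
    rw [ht v]
    exact (prod_fst_eq (fun i => X - C (t i)) v).symm
  refine chain_sec_aux hstep O hO φ x₀ hx₀ hφ a t (fun i => Δ.ray i.1) (fun j => ?_)
    (fun θ hθ σ y h => red_bd O Δ f t Sigma.fst Y hYt x₀ A a D hA hdeg htop hF hθ h)
    (fun σ y h => red_bd_one O Δ f t Sigma.fst Y hYt A a hA hF h) hVF
  rw [Fintype.sum_sigma]
  have h1 := (rel_iff f Δ.ray fun v => (m v : ℤ)).1 hm j
  rw [← h1]
  refine Finset.sum_congr rfl fun v _ => ?_
  change ∑ _i : Fin (m v), Δ.ray v j = _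
  rw [Finset.sum_const, Finset.card_univ, Fintype.card_fin, nsmul_eq_mul, mul_comm]

end Pool.Agent.Work.WRC
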