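import Mathlib
import Pool.Agent.Work.MP_4329d7_ag_wrc.Defs
import Pool.Agent.Work.MP_4329d7_ag_wrc.Comb

/-!
W-RC, [Open]: lifting a (very) free curve `T` over `k` to `k⟦ε⟧` when the coefficients `a` and the
point `Z` at infinity are deformed.
-/

namespace Pool.Agent.Work.WRC

open Polynomial

section ring

variable {V Q X : Type} [Fintype V] (C : Cox V Q X)

/-- `FreeS` over a ring -/
def FreeR {A : Type} [CommRing A] (c : Q → X → A[X]) (Y : V → A[X]) (D : V → ℤ) (E : Q → ℤ) :
    Prop :=
  ∀ g : Q → A[X], (∀ q, DegLE (g q) (E q - 1)) →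
    ∃ h : V → A[X], (∀ v, DegLE (h v) (D v - 1)) ∧ ∀ q, ∑ v, C.J c q v Y * h v = g q

/-- `VFreeS` over a ring -/
def VFreeR {A : Type} [CommRing A] (c : Q → X → A[X]) (Y : V → A[X]) (D : V → ℤ) (E : Q → ℤ) :
    Prop :=
  ∀ g : Q → A[X], (∀ q, DegLE (g q) (E q - 2)) →
    ∃ (h : V → A[X]) (γ : V → A), C.Eul γ ∧ (∀ v, DegLE (h v) (D v - 1)) ∧
      (∀ v, lc (h v) (D v - 1) = γ v * lc (Y v) (D v)) ∧ ∀ q, ∑ v, C.J c q v Y * h v = g q

variable {C}

theorem op_lc_zero {A : Type*} [Semiring A] (n : ℤ) : lc (0 : A[X]) n = 0 := by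
  unfold lc; simp

theorem op_lc_map {A B : Type*} [Semiring A] [Semiring B] (i : A →+* B) (p : A[X]) (n : ℤ) :
    lc (p.map i) n = i (lc p n) := by
  unfold lc
  split_ifs
  · rw [coeff_map]
  · rw [map_zero]

theorem op_degLE_map {A B : Type*} [Semiring A] [Semiring B] (i : A →+* B) {p : A[X]} {n : ℤ}
    (h : DegLE p n) : DegLE (p.map i) n := by
  intro l hl
  rw [coeff_map, h l hl, map_zero]

/-- the expansion of a vector of polynomials -/
theorem expand {A : Type*} [CommRing A] [Fintype Q] [DecidableEq Q] {g : Q → A[X]} {N : Q → ℤ}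
    (hg : ∀ q, DegLE (g q) (N q)) (q : Q) :
    ∑ q' : Q, ∑ l ∈ Finset.range (N q' + 1).toNat, Polynomial.C ((g q').coeff l) *
      (if q = q' then (Polynomial.X : A[X]) ^ l else 0) = g q := by
  rw [Finset.sum_eq_single q]
  · simp only [if_true]
    rw [← Finset.sum_congr rfl fun l _ => C_mul_X_pow_eq_monomial.symm]
    ext i
    rw [finsetSum_coeff]
    simp only [coeff_monomial, Finset.sum_ite_eq', Finset.mem_range]
    split_ifs with h
    · rfl
    · exact (hg q i (by omega)).symm
  · intro q' _ hq'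
    refine Finset.sum_eq_zero fun l _ => ?_
    rw [if_neg (Ne.symm hq'), mul_zero]
  · intro h
    exact absurd (Finset.mem_univ q) h

variable [Fintype Q]

theorem FreeR.map {A L : Type} [CommRing A] [Field L] (i : A →+* L) {c : Q → X → A[X]}
    {Y : V → A[X]} {D : V → ℤ} {E : Q → ℤ} (h : FreeR C c Y D E) :
    FreeS C (fun q x => (c q x).map i) (fun v => (Y v).map i) D E := by
  classical
  intro g hg
  have hex : ∀ (q' : Q) (l : ℕ), ∃ h : V → A[X], (l : ℤ) ≤ E q' - 1 →
      (∀ v, DegLE (h v) (D v - 1)) ∧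
        ∀ q, ∑ v, C.J c q v Y * h v = if q = q' then (Polynomial.X : A[X]) ^ l else 0 := by
    intro q' l
    by_cases hl : (l : ℤ) ≤ E q' - 1
    · obtain ⟨h, h1, h2⟩ := h (fun q => if q = q' then (Polynomial.X : A[X]) ^ l else 0) (by
        intro q
        split_ifs with hq
        · subst hq
          rw [← monomial_one_right_eq_X_pow]
          exact (DegLE.monomial 1 l).mono hl
        · exact DegLE.zero _)
      exact ⟨h, fun _ => ⟨h1, h2⟩⟩
    · exact ⟨0, fun h' => absurd h' hl⟩
  choose H hH using hex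
  refine ⟨fun v => ∑ q', ∑ l ∈ Finset.range (E q' - 1 + 1).toNat,
    Polynomial.C ((g q').coeff l) * (H q' l v).map i, fun v => ?_, fun q => ?_⟩
  · refine DegLE.sum fun q' _ => DegLE.sum fun l hl => DegLE.C_mul _ ?_
    exact op_degLE_map i ((hH q' l (by have := Finset.mem_range.1 hl; omega)).1 v)
  · rw [← expand hg q]
    simp only [Finset.mul_sum]
    rw [Finset.sum_comm]
    refine Finset.sum_congr rfl fun q' _ => ?_
    rw [Finset.sum_comm]
    refine Finset.sum_congr rfl fun l hl => ?_
    have h1 := (hH q' l (by have := Finset.mem_range.1 hl; omega)).2 q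
    have h2 := congrArg (Polynomial.map i) h1
    rw [Polynomial.map_sum] at h2
    have h3 : (Polynomial.map i (if q = q' then (Polynomial.X : A[X]) ^ l else 0)) =
        if q = q' then (Polynomial.X : L[X]) ^ l else 0 := by
      split_ifs
      · rw [Polynomial.map_pow, Polynomial.map_X]
      · rw [Polynomial.map_zero]
    rw [← h3, ← h2, Finset.mul_sum]
    refine Finset.sum_congr rfl fun v _ => ?_
    rw [Polynomial.map_mul]
    have h4 : (C.J c q v Y).map i =
        C.J (fun q x => (c q x).map i) q v fun v => (Y v).map i :=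
      Cox.J_map (mapRingHom i) c q v Y
    rw [h4]
    ring

theorem VFreeR.map {A L : Type} [CommRing A] [Field L] (i : A →+* L) {c : Q → X → A[X]}
    {Y : V → A[X]} {D : V → ℤ} {E : Q → ℤ} (h : VFreeR C c Y D E) :
    VFreeS C (fun q x => (c q x).map i) (fun v => (Y v).map i) D E := by
  classical
  intro g hg
  have hex : ∀ (q' : Q) (l : ℕ), ∃ (h : V → A[X]) (γ : V → A), (l : ℤ) ≤ E q' - 2 →
      C.Eul γ ∧ (∀ v, DegLE (h v) (D v - 1)) ∧
      (∀ v, lc (h v) (D v - 1) = γ v * lc (Y v) (D v)) ∧
        ∀ q, ∑ v, C.J c q v Y * h v = if q = q' then (Polynomial.X : A[X]) ^ l else 0 := by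
    intro q' l
    by_cases hl : (l : ℤ) ≤ E q' - 2
    · obtain ⟨h, γ, h1, h2, h3, h4⟩ := h (fun q => if q = q' then (Polynomial.X : A[X]) ^ l else 0)
        (by
          intro q
          split_ifs with hq
          · subst hq
            rw [← monomial_one_right_eq_X_pow]
            exact (DegLE.monomial 1 l).mono hl
          · exact DegLE.zero _)
      exact ⟨h, γ, fun _ => ⟨h1, h2, h3, h4⟩⟩
    · exact ⟨0, 0, fun h' => absurd h' hl⟩
  choose H Γ hH using hex
  refine ⟨fun v => ∑ q', ∑ l ∈ Finset.range (E q' - 2 + 1).toNat,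
    Polynomial.C ((g q').coeff l) * (H q' l v).map i,
    fun v => ∑ q', ∑ l ∈ Finset.range (E q' - 2 + 1).toNat,
      (g q').coeff l * i (Γ q' l v), fun j => ?_, fun v => ?_, fun v => ?_, fun q => ?_⟩
  · simp only [Finset.mul_sum]
    rw [Finset.sum_comm]
    refine Finset.sum_eq_zero fun q' _ => ?_
    rw [Finset.sum_comm]
    refine Finset.sum_eq_zero fun l hl => ?_
    have h1 := (hH q' l (by have := Finset.mem_range.1 hl; omega)).1 j
    have h2 := congrArg i h1
    rw [map_sum, map_zero] at h2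
    have h3 : ∀ v, (C.ray v j : L) * ((g q').coeff l * i (Γ q' l v)) =
        (g q').coeff l * i ((C.ray v j : A) * Γ q' l v) := by
      intro v
      rw [map_mul, map_intCast]
      ring
    rw [Finset.sum_congr rfl fun v _ => h3 v, ← Finset.mul_sum, h2, mul_zero]
  · refine DegLE.sum fun q' _ => DegLE.sum fun l hl => DegLE.C_mul _ ?_
    exact op_degLE_map i ((hH q' l (by have := Finset.mem_range.1 hl; omega)).2.1 v)
  · rw [lc_sum, Finset.sum_mul]
    refine Finset.sum_congr rfl fun q' _ => ?_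
    rw [lc_sum, Finset.sum_mul]
    refine Finset.sum_congr rfl fun l hl => ?_
    rw [lc_C_mul, op_lc_map, op_lc_map, (hH q' l (by have := Finset.mem_range.1 hl; omega)).2.2.1 v,
      map_mul]
    ring
  · rw [← expand hg q]
    simp only [Finset.mul_sum]
    rw [Finset.sum_comm]
    refine Finset.sum_congr rfl fun q' _ => ?_
    rw [Finset.sum_comm]
    refine Finset.sum_congr rfl fun l hl => ?_
    have h1 := (hH q' l (by have := Finset.mem_range.1 hl; omega)).2.2.2 q
    have h2 := congrArg (Polynomial.map i) h1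
    rw [Polynomial.map_sum] at h2
    have h3 : (Polynomial.map i (if q = q' then (Polynomial.X : A[X]) ^ l else 0)) =
        if q = q' then (Polynomial.X : L[X]) ^ l else 0 := by
      split_ifs
      · rw [Polynomial.map_pow, Polynomial.map_X]
      · rw [Polynomial.map_zero]
    rw [← h3, ← h2, Finset.mul_sum]
    refine Finset.sum_congr rfl fun v _ => ?_
    rw [Polynomial.map_mul]
    have h4 : (C.J c q v Y).map i =
        C.J (fun q x => (c q x).map i) q v fun v => (Y v).map i :=
      Cox.J_map (mapRingHom i) c q v Y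
    rw [h4]
    ring

end ring

section nakayama

variable {Q : Type} {R : Type} [CommRing R]

/-- vectors of polynomials of bounded degree from their coefficients -/
noncomputable def toP (N : Q → ℤ) : ((Σ q : Q, Fin (N q + 1).toNat) → R) →ₗ[R] (Q → R[X]) where
  toFun w q := ∑ l : Fin (N q + 1).toNat, monomial (l : ℕ) (w ⟨q, l⟩)
  map_add' w w' := by
    funext q
    simp only [Pi.add_apply, map_add, Finset.sum_add_distrib]
  map_smul' a w := by
    funext q
    simp only [Pi.smul_apply, smul_eq_mul, RingHom.id_apply, Finset.smul_sum, smul_monomial]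

theorem toP_apply (N : Q → ℤ) (w : (Σ q : Q, Fin (N q + 1).toNat) → R) (q : Q) :
    toP N w q = ∑ l : Fin (N q + 1).toNat, monomial (l : ℕ) (w ⟨q, l⟩) := rfl

theorem toP_degLE (N : Q → ℤ) (w : (Σ q : Q, Fin (N q + 1).toNat) → R) (q : Q) :
    DegLE (toP N w q) (N q) := by
  rw [toP_apply]
  refine DegLE.sum fun l _ => (DegLE.monomial _ _).mono ?_
  have := l.2
  omega

theorem toP_surj (N : Q → ℤ) (g : Q → R[X]) (hg : ∀ q, DegLE (g q) (N q)) :
    ∃ w, toP N w = g := by
  refine ⟨fun p => (g p.1).coeff p.2, ?_⟩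
  funext q
  ext i
  change (∑ l : Fin (N q + 1).toNat, monomial (l : ℕ) ((g q).coeff l)).coeff i = _
  rw [finsetSum_coeff]
  simp only [coeff_monomial]
  by_cases hi : i < (N q + 1).toNat
  · rw [Finset.sum_eq_single (⟨i, hi⟩ : Fin (N q + 1).toNat)]
    · simp
    · intro l _ hl
      rw [if_neg]
      intro h
      exact hl (Fin.ext h)
    · intro h
      exact absurd (Finset.mem_univ _) h
  · rw [hg q i (by omega)]
    refine Finset.sum_eq_zero fun l _ => ?_
    rw [if_neg]
    have := l.2
    omega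

/-- Nakayama's lemma for vectors of polynomials of bounded degree -/
theorem nak_poly [Fintype Q] [IsLocalRing R] (x : R) (hx : x ∈ IsLocalRing.maximalIdeal R) (N : Q → ℤ)
    (Pr : (Q → R[X]) → Prop) (h0 : Pr 0) (hadd : ∀ g g', Pr g → Pr g' → Pr (g + g'))
    (hsmul : ∀ (a : R) g, Pr g → Pr (a • g))
    (hred : ∀ g, (∀ q, DegLE (g q) (N q)) → ∃ g', (∀ q, DegLE (g' q) (N q)) ∧ Pr (g + x • g')) :
    ∀ g, (∀ q, DegLE (g q) (N q)) → Pr g := by
  classical
  let P : Submodule R ((Σ q : Q, Fin (N q + 1).toNat) → R) :=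
    { carrier := {w | Pr (toP N w)}
      zero_mem' := by
        rw [Set.mem_ofPred_eq, map_zero]
        exact h0
      add_mem' := fun {a b} ha hb => by
        rw [Set.mem_ofPred_eq, map_add]
        exact hadd _ _ ha hb
      smul_mem' := fun c a ha => by
        rw [Set.mem_ofPred_eq, map_smul]
        exact hsmul _ _ ha }
  have hP : ∀ w, w ∈ P ↔ Pr (toP N w) := fun w => Iff.rfl
  have htop : (⊤ : Submodule R ((Σ q : Q, Fin (N q + 1).toNat) → R)) ≤ P := by
    refine Submodule.le_of_le_smul_of_le_jacobson_bot (I := IsLocalRing.maximalIdeal R)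
      Module.Finite.fg_top ?_ ?_
    · rw [IsLocalRing.jacobson_eq_maximalIdeal _ bot_ne_top]
    · intro w _
      obtain ⟨g', hg', h1⟩ := hred (toP N w) (toP_degLE N w)
      obtain ⟨w', hw'⟩ := toP_surj N g' hg'
      rw [← hw', ← map_smul, ← map_add, ← hP] at h1
      have h2 : w = (w + x • w') + (-x) • w' := by
        rw [neg_smul, add_neg_cancel_right]
      rw [h2]
      exact Submodule.add_mem_sup h1 (Submodule.smul_mem_smul (neg_mem hx) Submodule.mem_top)
  intro g hg
  obtain ⟨w, rfl⟩ := toP_surj N g hg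
  exact (hP w).1 (htop Submodule.mem_top)

end nakayama

section lift

variable {V Q X : Type} [Fintype V] {C : Cox V Q X} {k : Type} [Field k]

theorem up_degLE {p : k[X]} {n : ℤ} (h : DegLE p n) : DegLE (up p) n := op_degLE_map _ h

theorem red_degLE {p : (PowerSeries k)[X]} {n : ℤ} (h : DegLE p n) : DegLE (red p) n :=
  op_degLE_map _ h

theorem red_J (c : Q → X → (PowerSeries k)[X]) (q : Q) (w : V) (Y : V → (PowerSeries k)[X]) :
    red (C.J c q w Y) = C.J (fun q x => red (c q x)) q w fun v => red (Y v) :=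
  Cox.J_map red c q w Y

variable [Fintype Q]

omit [Fintype Q] in
theorem red_F (c : Q → X → (PowerSeries k)[X]) (q : Q) (Y : V → (PowerSeries k)[X]) :
    red (C.F c q Y) = C.F (fun q x => red (c q x)) q fun v => red (Y v) :=
  Cox.F_map red c q Y

omit [Fintype Q] in
theorem X_mem_max (k : Type) [Field k] : (PowerSeries.X : PowerSeries k) ∈ IsLocalRing.maximalIdeal (PowerSeries k) := by
  rw [IsLocalRing.mem_maximalIdeal, mem_nonunits_iff, PowerSeries.isUnit_iff_constantCoeff,
    PowerSeries.constantCoeff_X]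
  exact not_isUnit_zero

theorem freeR_of_red {c : Q → X → (PowerSeries k)[X]} {Y : V → (PowerSeries k)[X]} {D : V → ℤ}
    {E : Q → ℤ} (hc : ∀ q, ∀ x ∈ C.supp q, DegLE (c q x) (E q - ∑ v, D v * C.e q x v))
    (hY : ∀ v, DegLE (Y v) (D v))
    (h : FreeS C (fun q x => red (c q x)) (fun v => red (Y v)) D E) : FreeR C c Y D E := by
  classical
  refine nak_poly (PowerSeries.X : PowerSeries k) (X_mem_max k) (fun q => E q - 1)
    (fun g => ∃ h : V → (PowerSeries k)[X], (∀ v, DegLE (h v) (D v - 1)) ∧
      ∀ q, ∑ v, C.J c q v Y * h v = g q) ?_ ?_ ?_ ?_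
  · exact ⟨0, fun v => DegLE.zero _, fun q => by simp⟩
  · rintro g g' ⟨h, h1, h2⟩ ⟨h', h1', h2'⟩
    refine ⟨h + h', fun v => (h1 v).add (h1' v), fun q => ?_⟩
    simp only [Pi.add_apply, mul_add, Finset.sum_add_distrib, h2, h2']
  · rintro a g ⟨h, h1, h2⟩
    refine ⟨a • h, fun v => ?_, fun q => ?_⟩
    · rw [Pi.smul_apply, smul_eq_C_mul]
      exact (h1 v).C_mul a
    · rw [Pi.smul_apply, ← h2 q, Finset.smul_sum]
      exact Finset.sum_congr rfl fun v _ => by rw [Pi.smul_apply, mul_smul_comm]
  · intro g hg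
    obtain ⟨h₀, h1, h2⟩ := h (fun q => red (g q)) fun q => red_degLE (hg q)
    have h3 : ∀ q, eps k ∣ ∑ v, C.J c q v Y * up (h₀ v) - g q := by
      intro q
      rw [← red_eq_zero, map_sub, map_sum, sub_eq_zero, ← h2 q]
      refine Finset.sum_congr rfl fun v _ => ?_
      rw [map_mul, red_up, red_J]
    choose g' hg' using h3
    refine ⟨g', fun q => ?_, fun v => up (h₀ v), fun v => up_degLE (h1 v), fun q => ?_⟩
    · refine degLE_of_eps_mul 1 ?_
      rw [pow_one, ← hg' q]
      refine DegLE.sub (DegLE.sum fun v _ => ?_) (hg q)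
      exact ((Cox.J_degLE (hc q) hY v).mul (up_degLE (h1 v))).mono (by omega)
    · rw [Pi.add_apply, Pi.smul_apply, smul_eq_C_mul]
      have h4 : Polynomial.C PowerSeries.X * g' q = eps k * g' q := rfl
      rw [h4, ← hg' q]
      ring

theorem vfreeR_of_red {c : Q → X → (PowerSeries k)[X]} {Y : V → (PowerSeries k)[X]} {D : V → ℤ}
    {E : Q → ℤ} (hc : ∀ q, ∀ x ∈ C.supp q, DegLE (c q x) (E q - ∑ v, D v * C.e q x v))
    (hY : ∀ v, DegLE (Y v) (D v)) (hF : ∀ q, C.F c q Y = 0)
    (hz : ∀ v, D v = 0 → lc (red (Y v)) (D v) = 0 → lc (Y v) (D v) = 0)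
    (h : VFreeS C (fun q x => red (c q x)) (fun v => red (Y v)) D E) : VFreeR C c Y D E := by
  classical
  refine nak_poly (PowerSeries.X : PowerSeries k) (X_mem_max k) (fun q => E q - 2)
    (fun g => ∃ (h : V → (PowerSeries k)[X]) (γ : V → PowerSeries k), C.Eul γ ∧
      (∀ v, DegLE (h v) (D v - 1)) ∧ (∀ v, lc (h v) (D v - 1) = γ v * lc (Y v) (D v)) ∧
      ∀ q, ∑ v, C.J c q v Y * h v = g q) ?_ ?_ ?_ ?_
  · refine ⟨0, 0, fun i => by simp, fun v => DegLE.zero _, fun v => ?_, fun q => by simp⟩
    rw [Pi.zero_apply, Pi.zero_apply, op_lc_zero, zero_mul]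
  · rintro g g' ⟨h, γ, h0, h1, h2, h3⟩ ⟨h', γ', h0', h1', h2', h3'⟩
    refine ⟨h + h', γ + γ', fun i => ?_, fun v => (h1 v).add (h1' v), fun v => ?_, fun q => ?_⟩
    · simp only [Pi.add_apply, mul_add, Finset.sum_add_distrib, h0 i, h0' i, add_zero]
    · rw [Pi.add_apply, Pi.add_apply, lc_add, h2, h2', add_mul]
    · simp only [Pi.add_apply, mul_add, Finset.sum_add_distrib, h3, h3']
  · rintro a g ⟨h, γ, h0, h1, h2, h3⟩
    refine ⟨a • h, a • γ, fun i => ?_, fun v => ?_, fun v => ?_, fun q => ?_⟩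
    · have h4 : ∀ v, (C.ray v i : PowerSeries k) * (a • γ) v = a * ((C.ray v i : PowerSeries k) *
          γ v) := fun v => by rw [Pi.smul_apply, smul_eq_mul]; ring
      rw [Finset.sum_congr rfl fun v _ => h4 v, ← Finset.mul_sum, h0 i, mul_zero]
    · rw [Pi.smul_apply, smul_eq_C_mul]
      exact (h1 v).C_mul a
    · rw [Pi.smul_apply, smul_eq_C_mul, lc_C_mul, h2, Pi.smul_apply, smul_eq_mul, mul_assoc]
    · rw [Pi.smul_apply, ← h3 q, Finset.smul_sum]
      exact Finset.sum_congr rfl fun v _ => by rw [Pi.smul_apply, mul_smul_comm]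
  · intro g hg
    obtain ⟨h₀, γ₀, h0, h1, h2, h3⟩ := h (fun q => red (g q)) fun q => red_degLE (hg q)
    have hrl : ∀ v, lc (red (Y v)) (D v) = PowerSeries.constantCoeff (lc (Y v) (D v)) :=
      fun v => op_lc_map _ _ _
    -- the lift
    let γ : V → PowerSeries k := fun v => PowerSeries.C (γ₀ v)
    let d : V → PowerSeries k := fun v => if 1 ≤ D v then
      γ v * (lc (Y v) (D v) - PowerSeries.C (PowerSeries.constantCoeff (lc (Y v) (D v)))) else 0
    let h' : V → (PowerSeries k)[X] := fun v => up (h₀ v) + monomial (D v - 1).toNat (d v)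
    have hEul : C.Eul γ := by
      intro j
      have h4 := congrArg (PowerSeries.C (R := k)) (h0 j)
      rw [map_sum, map_zero] at h4
      rw [← h4]
      refine Finset.sum_congr rfl fun v _ => ?_
      rw [map_mul, map_intCast]
    have hd : ∀ v, PowerSeries.constantCoeff (d v) = 0 := by
      intro v
      simp only [d]
      split_ifs
      · rw [map_mul, map_sub, PowerSeries.constantCoeff_C, PowerSeries.constantCoeff_C, sub_self,
          mul_zero]
      · rw [map_zero]
    have hh1 : ∀ v, DegLE (h' v) (D v - 1) := by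
      intro v
      refine (up_degLE (h1 v)).add ?_
      by_cases hv : 1 ≤ D v
      · exact (DegLE.monomial _ _).mono (by omega)
      · simp only [d, if_neg hv, monomial_zero_right]
        exact DegLE.zero _
    have hh2 : ∀ v, lc (h' v) (D v - 1) = γ v * lc (Y v) (D v) := by
      intro v
      have h4 : lc (up (h₀ v)) (D v - 1) = PowerSeries.C (γ₀ v *
          PowerSeries.constantCoeff (lc (Y v) (D v))) := by
        have h5 : lc (up (h₀ v)) (D v - 1) = PowerSeries.C (lc (h₀ v) (D v - 1)) :=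
          op_lc_map _ _ _
        rw [h5, h2 v, hrl v]
      by_cases hv : 1 ≤ D v
      · have h5 : lc (monomial (D v - 1).toNat (d v) : (PowerSeries k)[X]) (D v - 1) = d v := by
          unfold lc
          rw [if_pos (by omega), coeff_monomial, if_pos rfl]
        simp only [h']
        rw [lc_add, h4, h5]
        simp only [d, if_pos hv, γ]
        rw [map_mul]
        ring
      · have h5 : lc (h' v) (D v - 1) = 0 := lc_of_neg (by omega)
        have h6 : lc (h₀ v) (D v - 1) = 0 := lc_of_neg (by omega)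
        rw [h5]
        have h7 := h2 v
        rw [h6] at h7
        rcases mul_eq_zero.1 h7.symm with h8 | h8
        · simp only [γ]
          rw [h8, map_zero, zero_mul]
        · by_cases hv0 : D v = 0
          · rw [hz v hv0 h8, mul_zero]
          · rw [lc_of_neg (p := Y v) (by omega), mul_zero]
    have hred : ∀ v, red (h' v) = h₀ v := by
      intro v
      simp only [h', map_add, red_up]
      have h4 : red (monomial (D v - 1).toNat (d v)) = 0 := by
        unfold red
        rw [coe_mapRingHom, map_monomial, hd, monomial_zero_right]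
      rw [h4, add_zero]
    have h3 : ∀ q, eps k ∣ ∑ v, C.J c q v Y * h' v - g q := by
      intro q
      rw [← red_eq_zero, map_sub, map_sum, sub_eq_zero, ← h3 q]
      refine Finset.sum_congr rfl fun v _ => ?_
      rw [map_mul, hred, red_J]
    have hdeg : ∀ q, DegLE (∑ v, C.J c q v Y * h' v) (E q - 2) := by
      intro q
      have h4 : DegLE (∑ v, C.J c q v Y * h' v) (E q - 1) := by
        refine DegLE.sum fun v _ => ?_
        exact ((Cox.J_degLE (hc q) hY v).mul (hh1 v)).mono (by omega)
      refine (h4.pred ?_).mono (by omega)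
      rw [lc_sum]
      have h5 : ∀ v, lc (C.J c q v Y * h' v) (E q - 1) =
          C.J (fun q' x => lc (c q' x) (E q - ∑ v, D v * C.e q' x v)) q v
            (fun v => lc (Y v) (D v)) * (γ v * lc (Y v) (D v)) := by
        intro v
        have h6 := lc_mul (Cox.J_degLE (hc q) hY v) (hh1 v)
        rw [Cox.J_lc (hc q) hY, hh2] at h6
        have h7 : E q - D v + (D v - 1) = E q - 1 := by ring
        rw [h7] at h6
        exact h6
      rw [Finset.sum_congr rfl fun v _ => h5 v, Cox.euler _ hEul, ← Cox.F_lc (hc q) hY, hF,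
        op_lc_zero, mul_zero]
    choose g' hg' using h3
    refine ⟨g', fun q => ?_, h', γ, hEul, hh1, hh2, fun q => ?_⟩
    · refine degLE_of_eps_mul 1 ?_
      rw [pow_one, ← hg' q]
      exact DegLE.sub (hdeg q) (hg q)
    · rw [Pi.add_apply, Pi.smul_apply, smul_eq_C_mul]
      have h4 : Polynomial.C PowerSeries.X * g' q = eps k * g' q := rfl
      rw [h4, ← hg' q]
      ring

/-- vectors of polynomials of bounded degree -/
def degSub (k : Type) [Field k] {V : Type} (D : V → ℤ) :
    Submodule (PowerSeries k) (V → (PowerSeries k)[X]) where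
  carrier := {h | ∀ v, DegLE (h v) (D v)}
  add_mem' := fun ha hb v => (ha v).add (hb v)
  zero_mem' := fun _ => DegLE.zero _
  smul_mem' := fun c h hh v => by
    rw [Pi.smul_apply, smul_eq_C_mul]
    exact (hh v).C_mul c

theorem mem_degSub {V : Type} {D : V → ℤ} {h : V → (PowerSeries k)[X]} :
    h ∈ degSub k D ↔ ∀ v, DegLE (h v) (D v) := Iff.rfl

theorem degSub_div {V : Type} {D : V → ℤ} {s : ℕ} {g : V → (PowerSeries k)[X]}
    (hd : ∀ v, DegLE (g v) (D v)) (hg : ∀ v, eps k ^ s ∣ g v) :
    ∃ g' ∈ degSub k D, g = (PowerSeries.X : PowerSeries k) ^ s • g' := by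
  choose g' h1 using hg
  refine ⟨g', fun v => ?_, ?_⟩
  · have h3 := hd v
    rw [h1 v] at h3
    exact degLE_of_eps_mul s h3
  · funext v
    rw [Pi.smul_apply, smul_X_pow]
    exact h1 v

theorem degSub_sep {V : Type} {D : V → ℤ} (g : V → (PowerSeries k)[X])
    (hg : ∀ r : ℕ, ∃ g' ∈ degSub k D, g = (PowerSeries.X : PowerSeries k) ^ r • g') :
    g = 0 := by
  funext v
  ext i n
  obtain ⟨g', -, h⟩ := hg (n + 1)
  rw [h, Pi.smul_apply, smul_X_pow, eps_pow, coeff_C_mul, Pi.zero_apply, coeff_zero, map_zero]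
  exact PowerSeries.X_pow_dvd_iff.1 (dvd_mul_right _ _) n (Nat.lt_succ_self n)

theorem degSub_lim {V : Type} {D : V → ℤ} (h : ℕ → V → (PowerSeries k)[X])
    (hh : ∀ r, h r ∈ degSub k D) :
    ∃ S : ℕ → V → (PowerSeries k)[X], (∀ r, S r ∈ degSub k D) ∧
      ∀ r, S r = h r + (PowerSeries.X : PowerSeries k) • S (r + 1) := by
  have key : ∀ v, ∃ S : ℕ → (PowerSeries k)[X],
      (∀ r, (S r).degree < ((D v + 1).toNat : WithBot ℕ)) ∧
      ∀ r, S r = h r v + (PowerSeries.X : PowerSeries k) • S (r + 1) := by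
    intro v
    refine exists_tails _ (fun r => h r v) fun r => ?_
    refine (Polynomial.degree_lt_iff_coeff_zero _ _).2 fun i hi => hh r v i ?_
    omega
  choose S hS1 hS2 using key
  refine ⟨fun r v => S v r, fun r v => ?_, fun r => funext fun v => hS2 v r⟩
  intro i hi
  refine (Polynomial.degree_lt_iff_coeff_zero _ _).1 (hS1 v r) i ?_
  omega

/-- [Open] in general form: a free curve `T` over `k` lifts to `k⟦ε⟧` with prescribed coefficients
of index `D v` on any lift of the system. -/
theorem open_gen {c : Q → X → (PowerSeries k)[X]} {D : V → ℤ} {E : Q → ℤ}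
    (hc : ∀ q, ∀ x ∈ C.supp q, DegLE (c q x) (E q - ∑ v, D v * C.e q x v))
    {Z : V → PowerSeries k} (hZD : ∀ v, D v < 0 → Z v = 0)
    (hZ : ∀ q, C.F (fun q' x => lc (c q' x) (E q - ∑ v, D v * C.e q' x v)) q Z = 0)
    {T : V → k[X]} (hT : ∀ v, DegLE (T v) (D v))
    (hTZ : ∀ v, lc (T v) (D v) = PowerSeries.constantCoeff (Z v))
    (hF : ∀ q, C.F (fun q x => red (c q x)) q T = 0)
    (hfree : FreeS C (fun q x => red (c q x)) T D E) :
    ∃ Y : V → (PowerSeries k)[X], (∀ v, DegLE (Y v) (D v)) ∧ (∀ v, lc (Y v) (D v) = Z v) ∧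
      (∀ v, red (Y v) = T v) ∧ (∀ q, C.F c q Y = 0) ∧ FreeR C c Y D E ∧
      ((∀ v, D v = 0 → PowerSeries.constantCoeff (Z v) = 0 → Z v = 0) →
        VFreeS C (fun q x => red (c q x)) T D E → VFreeR C c Y D E) := by
  classical
  -- the first approximation
  let y₁ : V → (PowerSeries k)[X] := fun v =>
    up (T v) + monomial (D v).toNat (Z v - PowerSeries.C (PowerSeries.constantCoeff (Z v)))
  have hy1 : ∀ v, DegLE (y₁ v) (D v) := by
    intro v
    refine (up_degLE (hT v)).add ?_
    by_cases hv : 0 ≤ D v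
    · exact (DegLE.monomial _ _).mono (by omega)
    · rw [hZD v (by omega), map_zero, map_zero, sub_zero, monomial_zero_right]
      exact DegLE.zero _
  have hy2 : ∀ v, lc (y₁ v) (D v) = Z v := by
    intro v
    by_cases hv : 0 ≤ D v
    · have h5 : ∀ z : PowerSeries k, lc (monomial (D v).toNat z) (D v) = z := by
        intro z
        unfold lc
        rw [if_pos hv, coeff_monomial, if_pos rfl]
      simp only [y₁]
      rw [lc_add, h5, lc_up, hTZ]
      ring
    · rw [hZD v (by omega), lc_of_neg (by omega)]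
  have hy3 : ∀ v, red (y₁ v) = T v := by
    intro v
    simp only [y₁, map_add, red_up]
    have h4 : red (monomial (D v).toNat (Z v - PowerSeries.C (PowerSeries.constantCoeff (Z v)))) =
        0 := by
      unfold red
      rw [coe_mapRingHom, map_monomial, map_sub, PowerSeries.constantCoeff_C, sub_self,
        monomial_zero_right]
    rw [h4, add_zero]
  have hy3' : (fun v => red (y₁ v)) = T := funext hy3
  have hfree1 : FreeR C c y₁ D E := freeR_of_red hc hy1 (by rw [hy3']; exact hfree)
  let L := degSub k (fun v => D v - 1)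
  let M := degSub k (fun q => E q - 1)
  have hpt : ∀ y, (∃ l ∈ L, y = y₁ + (PowerSeries.X : PowerSeries k) • l) →
      ∀ v, DegLE (y v) (D v) := by
    rintro y ⟨l, hl, rfl⟩ v
    rw [Pi.add_apply, Pi.smul_apply, smul_eq_C_mul]
    exact (hy1 v).add (((hl v).C_mul _).mono (by simp))
  have hJd : ∀ y, (∀ v, DegLE (y v) (D v)) → ∀ h ∈ L, ∀ q,
      DegLE (∑ v, C.J c q v y * h v) (E q - 1) := by
    intro y hy h hh q
    refine DegLE.sum fun v _ => ?_
    exact ((Cox.J_degLE (hc q) hy v).mul (hh v)).mono (by simp)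
  have main : ∃ y, (∃ l ∈ L, y = y₁ + (PowerSeries.X : PowerSeries k) • l) ∧
      (fun q => C.F c q y) = 0 := by
    refine newton (PowerSeries.X : PowerSeries k) L M degSub_lim degSub_sep
      (fun y q => C.F c q y) (fun y h q => ∑ v, C.J c q v y * h v) y₁ ?_ ?_ ?_ ?_ ?_
    · obtain ⟨g, hg, h1⟩ := degSub_div (s := 1) (D := fun q => E q - 1)
        (g := fun q => C.F c q y₁)
        (fun q => DegLE.pred (Cox.F_degLE (hc q) hy1) (by
          rw [Cox.F_lc (hc q) hy1]
          have e : (fun v => lc (y₁ v) (D v)) = Z := funext hy2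
          rw [e]
          exact hZ q))
        (fun q => by
          rw [pow_one, ← red_eq_zero, red_F, hy3']
          exact hF q)
      refine ⟨g, hg, ?_⟩
      rw [pow_one] at h1
      exact h1
    · intro y hy r hr h hh
      have h1 := hpt y hy
      have hh' : ∀ v, DegLE (eps k ^ r * h v) (D v - 1) := fun v => (hh v).eps_mul r
      have hy' : ∀ v, DegLE (y v + eps k ^ r * h v) (D v) := fun v =>
        (h1 v).add ((hh' v).mono (by omega))
      obtain ⟨g, hg, h3⟩ := degSub_div (s := r + 1) (D := fun q => E q - 1)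
        (g := fun q => C.F c q (fun v => y v + eps k ^ r * h v) - C.F c q y -
          eps k ^ r * ∑ v, C.J c q v y * h v)
        (fun q => by
          refine DegLE.sub ?_ ((hJd y h1 h hh q).eps_mul r)
          refine DegLE.pred ((Cox.F_degLE (hc q) hy').sub (Cox.F_degLE (hc q) h1)) ?_
          rw [lc_sub, Cox.F_lc (hc q) hy', Cox.F_lc (hc q) h1, sub_eq_zero]
          congr 1
          funext v
          rw [lc_add, lc_of_degLE (hh' v) (by omega), add_zero])
        (fun q => by
          have h2 := Cox.F_taylor (C := C) c q (eps k ^ r) y h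
          rw [← pow_mul] at h2
          exact (pow_dvd_pow _ (by omega)).trans h2)
      refine ⟨g, hg, ?_⟩
      rw [← h3]
      funext q
      have e : (y + (PowerSeries.X : PowerSeries k) ^ r • h) = fun v => y v + eps k ^ r * h v := by
        funext v
        rw [Pi.add_apply, Pi.smul_apply, smul_X_pow]
      simp only [Pi.add_apply, Pi.smul_apply, smul_X_pow]
      rw [e]
      ring
    · intro y hy h hh q
      exact hJd y (hpt y hy) h hh q
    · rintro y ⟨l, hl, hy⟩ h hh
      have hYY := hpt y ⟨l, hl, hy⟩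
      have e : y = fun v => y₁ v + eps k * l v := by
        funext v
        rw [hy, Pi.add_apply, Pi.smul_apply, smul_X]
      obtain ⟨g, hg, h3⟩ := degSub_div (s := 1) (D := fun q => E q - 1)
        (g := fun q => ∑ v, C.J c q v y * h v - ∑ v, C.J c q v y₁ * h v)
        (fun q => (hJd y hYY h hh q).sub (hJd y₁ hy1 h hh q))
        (fun q => by
          rw [pow_one, e, ← Finset.sum_sub_distrib]
          refine Finset.dvd_sum fun v _ => ?_
          rw [← sub_mul]
          exact Dvd.dvd.mul_right (Cox.J_congr _ _ _ _ _ _) _)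
      refine ⟨g, hg, ?_⟩
      rw [pow_one] at h3
      rw [← h3]
      funext q
      simp only [Pi.add_apply]
      ring
    · intro g hg
      obtain ⟨h, hh, h1⟩ := hfree1 g hg
      refine ⟨h, hh, 0, M.zero_mem, ?_⟩
      rw [smul_zero, add_zero]
      exact funext h1
  obtain ⟨y, ⟨l, hl, hy⟩, hy0⟩ := main
  have hyd := hpt y ⟨l, hl, hy⟩
  have hyv : ∀ v, y v = y₁ v + eps k * l v := by
    intro v
    rw [hy, Pi.add_apply, Pi.smul_apply, smul_X]
  have hyr : ∀ v, red (y v) = T v := by
    intro v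
    rw [hyv, map_add, map_mul, red_eps, zero_mul, add_zero, hy3]
  have hyr' : (fun v => red (y v)) = T := funext hyr
  have hyl : ∀ v, lc (y v) (D v) = Z v := by
    intro v
    have h1 : DegLE (eps k * l v) (D v - 1) := by
      have := (hl v).eps_mul 1
      rwa [pow_one] at this
    rw [hyv, lc_add, hy2, lc_of_degLE h1 (by omega), add_zero]
  refine ⟨y, hyd, hyl, hyr, fun q => congrFun hy0 q, ?_, fun hz hv => ?_⟩
  · exact freeR_of_red hc hyd (by rw [hyr']; exact hfree)
  · refine vfreeR_of_red hc hyd (fun q => congrFun hy0 q) (fun v h0 h1 => ?_)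
      (by rw [hyr']; exact hv)
    rw [hyl]
    refine hz v h0 ?_
    rw [hyr, hTZ] at h1
    exact h1

theorem Cox.F_congr {V Q X : Type} [Fintype V] {C : Cox V Q X} {A : Type*} [CommRing A]
    {c c' : Q → X → A} {q : Q} (h : ∀ x ∈ C.supp q, c q x = c' q x) (Y : V → A) :
    C.F c q Y = C.F c' q Y := by
  rw [Cox.F_eq, Cox.F_eq]
  exact Finset.sum_congr rfl fun x hx => by rw [h x hx]

/-- [Open] for constant coefficients. -/
theorem open_ps {n : V → ℕ} (hn : C.Rel fun v => (n v : ℤ)) {a : Q → X → PowerSeries k}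
    {Z : V → PowerSeries k} (hZ : ∀ q, C.F a q Z = 0)
    {T : V → k[X]} (hT : ∀ v, DegLE (T v) (n v))
    (hTZ : ∀ v, lc (T v) (n v) = PowerSeries.constantCoeff (Z v))
    (hT0 : ∀ v, n v = 0 → T v ≠ 0)
    (hF : ∀ q, C.F (fun q x => Polynomial.C (PowerSeries.constantCoeff (a q x))) q T = 0)
    (hfree : FreeS C (fun q x => Polynomial.C (PowerSeries.constantCoeff (a q x))) T
      (fun v => n v) (C.m fun v => n v))
    (hvfree : VFreeS C (fun q x => Polynomial.C (PowerSeries.constantCoeff (a q x))) T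
      (fun v => n v) (C.m fun v => n v)) :
    ∃ Y : V → (PowerSeries k)[X], (∀ v, DegLE (Y v) (n v)) ∧ (∀ v, lc (Y v) (n v) = Z v) ∧
      (∀ v, red (Y v) = T v) ∧ (∀ q, C.F (fun q x => Polynomial.C (a q x)) q Y = 0) ∧
      ∀ (L : Type) [Field L] (g : PowerSeries k →+* L),
        FreeS C (fun q x => Polynomial.C (g (a q x))) (fun v => (Y v).map g) (fun v => n v)
          (C.m fun v => n v) ∧
        VFreeS C (fun q x => Polynomial.C (g (a q x))) (fun v => (Y v).map g) (fun v => n v)
          (C.m fun v => n v) := by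
  classical
  have hd : ∀ q, ∀ x ∈ C.supp q,
      (C.m (fun v => (n v : ℤ)) q - ∑ v, (n v : ℤ) * C.e q x v) = 0 := by
    intro q x hx
    rw [Cox.rel_sum hn hx, sub_self]
  have hred : (fun q x => red (Polynomial.C (a q x))) =
      fun (q : Q) (x : X) => (Polynomial.C (PowerSeries.constantCoeff (a q x)) : k[X]) := by
    funext q x
    unfold red
    rw [coe_mapRingHom, map_C]
  obtain ⟨Y, h1, h2, h3, h4, h5, h6⟩ := open_gen (C := C) (D := fun v => (n v : ℤ))
    (E := C.m fun v => n v) (c := fun q x => Polynomial.C (a q x))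
    (fun q x hx => by rw [hd q x hx]; exact DegLE.C _ le_rfl) (Z := Z) (fun v hv => by omega)
    (fun q => by
      rw [← hZ q]
      refine Cox.F_congr (fun x hx => ?_) Z
      rw [hd q x hx]
      unfold lc
      simp) (T := T) hT hTZ (by rw [hred]; exact hF) (by rw [hred]; exact hfree)
  refine ⟨Y, h1, h2, h3, h4, fun L _ g => ⟨?_, ?_⟩⟩
  · have h7 := FreeR.map g h5
    simp only [map_C] at h7
    exact h7
  · have h7 := VFreeR.map g (h6 (fun v h0 hz => ?_) (by rw [hred]; exact hvfree))
    · simp only [map_C] at h7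
      exact h7
    · exfalso
      have h8 : n v = 0 := by exact_mod_cast h0
      refine hT0 v h8 ?_
      have h9 := hT v
      have h10 := hTZ v
      rw [hz, h8] at h10
      rw [h8] at h9
      have h11 := DegLE.pred h9 h10
      exact h11.eq_zero (by norm_num)

end lift

end Pool.Agent.Work.WRC
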