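import Mathlib
import Pool.Agent.Work.MP_4329d7_ag_wrc.Defs
import Pool.Agent.Work.MP_4329d7_ag_wrc.GenDef

/-!
# The family with a constant section: full rank

`KHull C`: for every nonempty set `S` of equations the differences of the exponents of the equations
in `S` have rank at least `card S + 1`.
`starP`: if `∑ χ, α q χ = 0` and the rows of the Jacobian at `Y = 1` are independent, then for generic
`γ` with `∑ χ, γ q χ = 0` the family with the coefficients `α s ^ (D q) + γ` has full rank along the
constant section `Y = 1`.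

Proof.  Let `∑ q, l q * ρ q = 0`, `ρ q` the rows at `s = a`, `S` the support of `l`.  Apply the
derivations `dd` of the field over `F`: `∑ q, l q * ∑ χ, dd (γ q χ) * e q χ` is in the span `W` of the
`ρ q`, `q ∈ S`, and of one more vector; `dim W ≤ card S`.  But the `dd (γ q χ)` are arbitrary with sum
zero, so `W` contains all differences of exponents of the equations in `S`.
-/

namespace Pool.Agent.Work.WRC

open Polynomial

section

variable {V Q X : Type} [Fintype V]

/-- for every nonempty set `S` of equations the differences of exponents have rank `> card S` -/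
def KHull (C : Cox V Q X) : Prop :=
  ∀ S : Finset Q, S.Nonempty → ∃ v : Fin (S.card + 1) → V → ℤ, LinearIndependent ℤ v ∧
    ∀ i, ∃ q ∈ S, ∃ χ ∈ C.supp q, ∃ χ' ∈ C.supp q,
      ∀ w, v i w = (C.e q χ w : ℤ) - (C.e q χ' w : ℤ)

variable {C : Cox V Q X}

theorem J_one [DecidableEq V] {A : Type*} [CommRing A] (c : Q → X → A) (q : Q) (w : V) :
    C.J c q w (fun _ => 1) = ∑ x ∈ C.supp q, c q x * (C.e q x w : A) := by
  rw [Cox.J_eq]
  refine Finset.sum_congr rfl fun x _ => ?_
  rw [Finset.prod_eq_one fun v _ => one_pow _, mul_one]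

theorem F_one {A : Type*} [CommRing A] (c : Q → X → A) (q : Q) :
    C.F c q (fun _ => 1) = ∑ x ∈ C.supp q, c q x := by
  rw [Cox.F_eq]
  refine Finset.sum_congr rfl fun x _ => ?_
  rw [Finset.prod_eq_one fun v _ => one_pow _, mul_one]

omit [Fintype V] in
/-- integral vectors which are independent over `ℤ` are independent over every field of
characteristic zero -/
theorem linInd_cast {F : Type*} [Field F] [CharZero F] {R : Type*} [Fintype R]
    (χ : R → V → ℤ) (h : LinearIndependent ℤ χ) :
    LinearIndependent F (fun i j => (χ i j : F)) := by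
  classical
  have h2 : LinearIndependent ℤ (fun i j => (χ i j : ℚ)) := by
    let G : (V → ℤ) →ₗ[ℤ] (V → ℚ) :=
      { toFun := fun χ j => (χ j : ℚ)
        map_add' := fun χ χ' => by funext j; simp
        map_smul' := fun c χ => by funext j; simp }
    have hG : LinearMap.ker G = ⊥ := by
      rw [LinearMap.ker_eq_bot]
      intro χ χ' h
      funext j
      have h' : (χ j : ℚ) = (χ' j : ℚ) := congrFun h j
      exact_mod_cast h'
    exact h.map' G hG
  have h3 : LinearIndependent ℚ (fun i j => (χ i j : ℚ)) :=
    (LinearIndependent.iff_fractionRing ℤ ℚ).1 h2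
  rw [Fintype.linearIndependent_iff] at h3 ⊢
  intro g hg i
  rw [← Module.forall_dual_apply_eq_zero_iff ℚ]
  intro φ
  refine h3 (fun i => φ (g i)) ?_ i
  funext j
  have h4 := congrArg φ (congrFun hg j)
  simp only [Finset.sum_apply, Pi.smul_apply, smul_eq_mul, Pi.zero_apply, map_sum,
    map_zero] at h4 ⊢
  rw [← h4]
  refine Finset.sum_congr rfl fun i _ => ?_
  have h5 : g i * (χ i j : F) = (χ i j : ℚ) • g i := by
    rw [Algebra.smul_def, mul_comm]
    simp
  rw [h5, map_smul, smul_eq_mul, mul_comm]

omit [Fintype V] in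
/-- independence of rows is stable under field extensions -/
theorem rows_ext {F F' : Type*} [Field F] [Field F'] [Algebra F F'] [Fintype Q]
    (r : Q → V → F) (h : ∀ l : Q → F, (∀ v, ∑ q, l q * r q v = 0) → l = 0)
    (l : Q → F') (hl : ∀ v, ∑ q, l q * algebraMap F F' (r q v) = 0) : l = 0 := by
  funext q
  rw [Pi.zero_apply, ← Module.forall_dual_apply_eq_zero_iff F]
  intro φ
  have h1 := h (fun q => φ (l q)) fun v => by
    have h2 := congrArg φ (hl v)
    rw [map_sum, map_zero] at h2
    rw [← h2]
    refine Finset.sum_congr rfl fun q _ => ?_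
    rw [mul_comm (l q), ← Algebra.smul_def, map_smul, smul_eq_mul, mul_comm]
  exact congrFun h1 q

end

section main

variable {V Q X : Type} [Fintype V] [DecidableEq V] [Fintype Q]

/-- the coefficients of the family with a constant section -/
noncomputable def starc {F : Type*} [Field F] (α γ : Q → X → F) (D : Q → ℕ) (q : Q) (χ : X) :
    F[X] := C (α q χ) * Polynomial.X ^ D q + C (γ q χ)

omit [Fintype V] [DecidableEq V] [Fintype Q] in
/-- the generic coefficients with sum zero -/
theorem exists_gamma (C : Cox V Q X) (hne : ∀ q, (C.supp q).Nonempty) (F : Type) [Field F]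
    [CharZero F] :
    ∃ (F' : Type) (_ : Field F') (_ : Algebra F F') (_ : IsAlgClosed F') (γ : Q → X → F'),
      (∀ q, ∑ χ ∈ C.supp q, γ q χ = 0) ∧
      ∀ δ : Q → X → F', (∀ q, ∑ χ ∈ C.supp q, δ q χ = 0) →
        ∃ D : Derivation F F' F', ∀ q, ∀ χ ∈ C.supp q, D (γ q χ) = δ q χ := by
  classical
  let R := FractionRing (MvPolynomial (Q × X) F)
  let F' := AlgebraicClosure R
  let y : Q × X → F' := fun p =>
    algebraMap R F' (algebraMap (MvPolynomial (Q × X) F) R (MvPolynomial.X p))
  have hy : AlgebraicIndependent F y :=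
    (MvPolynomial.algebraicIndependent_X (Q × X) F).map'
      (f := (IsScalarTower.toAlgHom F R F').comp
        (IsScalarTower.toAlgHom F (MvPolynomial (Q × X) F) R))
      ((algebraMap R F').injective.comp (IsFractionRing.injective (MvPolynomial (Q × X) F) R))
  have hch : CharZero F' := charZero_of_injective_algebraMap (algebraMap F F').injective
  refine ⟨F', inferInstance, inferInstance, inferInstance,
    fun q χ => y (q, χ) - ((C.supp q).card : F')⁻¹ * ∑ χ' ∈ C.supp q, y (q, χ'), fun q => ?_,
    fun δ hδ => ?_⟩
  · rw [Finset.sum_sub_distrib, Finset.sum_const, nsmul_eq_mul, ← mul_assoc, mul_inv_cancel₀,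
      one_mul, sub_self]
    exact Nat.cast_ne_zero.2 (Finset.card_ne_zero.2 (hne q))
  · obtain ⟨D, hD⟩ := exists_der_of_ai hy (fun p => δ p.1 p.2)
    refine ⟨D, fun q χ _ => ?_⟩
    have h1 : D ((C.supp q).card : F')⁻¹ = 0 := by
      rw [Derivation.leibniz_inv]
      have : D ((C.supp q).card : F') = 0 := D.map_natCast _
      rw [this, smul_zero]
    rw [map_sub, Derivation.leibniz, map_sum, h1, smul_zero, add_zero, hD (q, χ)]
    simp only [hD]
    rw [hδ q, smul_zero, sub_zero]

theorem starP (C : Cox V Q X) (hKH : KHull C) (F : Type) [Field F] [CharZero F]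
    (α : Q → X → F) (hrows : ∀ l : Q → F, (∀ v, ∑ q, l q * C.J α q v (fun _ => 1) = 0) → l = 0) :
    ∃ (F' : Type) (_ : Field F') (_ : Algebra F F') (_ : IsAlgClosed F') (γ : Q → X → F'),
      (∀ q, ∑ χ ∈ C.supp q, γ q χ = 0) ∧
      ∀ D : Q → ℕ, (∀ q, 1 ≤ D q) →
        FullS C (starc (fun q χ => algebraMap F F' (α q χ)) γ D) (fun _ => 1) (fun _ => 0)
          (fun q => D q) := by
  classical
  have hne : ∀ q, (C.supp q).Nonempty := by
    intro q
    obtain ⟨v, -, hv⟩ := hKH {q} (Finset.singleton_nonempty q)
    obtain ⟨q', hq', χ, hχ, -⟩ := hv 0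
    rw [Finset.mem_singleton] at hq'
    subst hq'
    exact ⟨χ, hχ⟩
  obtain ⟨F', _, _, _, γ, hγ, hder⟩ := exists_gamma C hne F
  have hch : CharZero F' := charZero_of_injective_algebraMap (algebraMap F F').injective
  refine ⟨F', inferInstance, inferInstance, inferInstance, γ, hγ, fun D hD => ⟨?_, ?_⟩⟩
  · intro a l hl
    -- the rows
    let ρ : Q → V → F' := fun q w => ∑ χ ∈ C.supp q,
      (algebraMap F F' (α q χ) * a ^ D q + γ q χ) * (C.e q χ w : F')
    have hρ : ∀ q w, (C.J (starc (fun q χ => algebraMap F F' (α q χ)) γ D) q w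
        (fun _ => 1)).eval a = ρ q w := by
      intro q w
      rw [J_one, eval_finsetSum]
      refine Finset.sum_congr rfl fun χ _ => ?_
      simp [starc]
    simp only [hρ] at hl
    by_contra hne0
    let S : Finset Q := Finset.univ.filter fun q => l q ≠ 0
    have hS : ∀ q, q ∈ S ↔ l q ≠ 0 := fun q => by simp [S]
    obtain ⟨q₀, hq₀⟩ : ∃ q, l q ≠ 0 := by
      by_contra h
      push Not at h
      exact hne0 (funext h)
    have hq₀S : q₀ ∈ S := (hS q₀).2 hq₀
    obtain ⟨v, hv, hv'⟩ := hKH S ⟨q₀, hq₀S⟩
    have hvF := linInd_cast (F := F') v hv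
    -- the space
    let u : V → F' := fun w => ∑ q, l q * ∑ χ ∈ C.supp q,
      (algebraMap F F' (α q χ) * (D q * a ^ (D q - 1))) * (C.e q χ w : F')
    let T : Finset (V → F') := insert u ((S.erase q₀).image ρ)
    have hTcard : T.card ≤ S.card := by
      refine (Finset.card_insert_le _ _).trans ?_
      have h1 := Finset.card_image_le (s := S.erase q₀) (f := ρ)
      rw [Finset.card_erase_of_mem hq₀S] at h1
      have h2 : 0 < S.card := Finset.card_pos.2 ⟨q₀, hq₀S⟩
      omega
    have hρT : ∀ q, l q ≠ 0 → ρ q ∈ Submodule.span F' (T : Set (V → F')) := by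
      have h1 : ∀ q ∈ S.erase q₀, ρ q ∈ Submodule.span F' (T : Set (V → F')) := fun q hq =>
        Submodule.subset_span (Finset.mem_coe.2 (Finset.mem_insert_of_mem
          (Finset.mem_image_of_mem ρ hq)))
      intro q hq
      by_cases h2 : q = q₀
      · subst h2
        have h3 : ρ q = ∑ q' ∈ S.erase q, (-(l q)⁻¹ * l q') • ρ q' := by
          funext w
          have h4 := hl w
          have h5 : ∑ q', l q' * ρ q' w = l q * ρ q w + ∑ q' ∈ S.erase q, l q' * ρ q' w := by
            rw [Finset.add_sum_erase S (fun q' => l q' * ρ q' w) hq₀S]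
            refine (Finset.sum_subset (Finset.subset_univ S) fun q' _ hq' => ?_).symm
            have : l q' = 0 := by
              by_contra h
              exact hq' ((hS q').2 h)
            rw [this, zero_mul]
          rw [h5] at h4
          rw [Finset.sum_apply]
          simp only [Pi.smul_apply, smul_eq_mul, mul_assoc, neg_mul]
          rw [Finset.sum_neg_distrib, ← Finset.mul_sum, eq_neg_iff_add_eq_zero]
          have h6 : (l q)⁻¹ * (l q * ρ q w + ∑ q' ∈ S.erase q, l q' * ρ q' w) = 0 := by
            rw [h4, mul_zero]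
          rw [mul_add, ← mul_assoc, inv_mul_cancel₀ hq, one_mul] at h6
          exact h6
        rw [h3]
        exact Submodule.sum_mem _ fun q' hq' => Submodule.smul_mem _ _ (h1 q' hq')
      · exact h1 q (Finset.mem_erase.2 ⟨h2, (hS q).2 hq⟩)
    -- the differences of exponents are in the span
    have hmem : ∀ i, (fun w => (v i w : F')) ∈ Submodule.span F' (T : Set (V → F')) := by
      intro i
      obtain ⟨q, hq, χ, hχ, χ', hχ', hvi⟩ := hv' i
      have hlq := (hS q).1 hq
      let δ : Q → X → F' := fun q' ξ =>
        if q' = q then (l q)⁻¹ * ((if ξ = χ then 1 else 0) - if ξ = χ' then 1 else 0) else 0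
      have hδ : ∀ q', ∑ ξ ∈ C.supp q', δ q' ξ = 0 := by
        intro q'
        by_cases h : q' = q
        · subst h
          simp only [δ, if_true]
          rw [← Finset.mul_sum, Finset.sum_sub_distrib, Finset.sum_ite_eq', Finset.sum_ite_eq',
            if_pos hχ, if_pos hχ', sub_self, mul_zero]
        · simp only [δ, if_neg h, Finset.sum_const_zero]
      obtain ⟨dd, hd⟩ := hder δ hδ
      have h1 : ∀ w, ∑ q', dd (l q') * ρ q' w + dd a * u w + (v i w : F') = 0 := by
        intro w
        have h2 := congrArg dd (hl w)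
        rw [map_sum, map_zero] at h2
        rw [← h2]
        have h3 : ∀ q', dd (ρ q' w) = dd a * ∑ ξ ∈ C.supp q',
            (algebraMap F F' (α q' ξ) * (D q' * a ^ (D q' - 1))) * (C.e q' ξ w : F') +
            ∑ ξ ∈ C.supp q', δ q' ξ * (C.e q' ξ w : F') := by
          intro q'
          simp only [ρ]
          rw [map_sum, Finset.mul_sum, ← Finset.sum_add_distrib]
          refine Finset.sum_congr rfl fun ξ hξ => ?_
          have h4 : dd (C.e q' ξ w : F') = 0 := dd.map_natCast _
          rw [Derivation.leibniz, h4, smul_zero, zero_add, map_add, Derivation.leibniz,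
            Derivation.map_algebraMap, smul_zero, add_zero, Derivation.leibniz_pow, hd q' ξ hξ]
          simp only [smul_eq_mul, nsmul_eq_mul]
          ring
        have h5 : ∀ q', dd (l q' * ρ q' w) = dd (l q') * ρ q' w + dd a * (l q' * ∑ ξ ∈ C.supp q',
            (algebraMap F F' (α q' ξ) * (D q' * a ^ (D q' - 1))) * (C.e q' ξ w : F')) +
            l q' * ∑ ξ ∈ C.supp q', δ q' ξ * (C.e q' ξ w : F') := by
          intro q'
          rw [Derivation.leibniz, h3 q']
          simp only [smul_eq_mul]
          ring
        rw [Finset.sum_congr rfl fun q' _ => h5 q', Finset.sum_add_distrib,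
          Finset.sum_add_distrib, ← Finset.mul_sum]
        congr 1
        rw [Finset.sum_eq_single q]
        · simp only [δ, if_true]
          have h6 : ∀ ξ, (l q)⁻¹ * ((if ξ = χ then 1 else 0) - if ξ = χ' then 1 else 0) *
              (C.e q ξ w : F') = (l q)⁻¹ * ((if ξ = χ then (C.e q ξ w : F') else 0) -
                if ξ = χ' then (C.e q ξ w : F') else 0) := by
            intro ξ
            split_ifs <;> ring
          simp only [h6]
          rw [← Finset.mul_sum, Finset.sum_sub_distrib, Finset.sum_ite_eq', Finset.sum_ite_eq',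
            if_pos hχ, if_pos hχ', ← mul_assoc, mul_inv_cancel₀ hlq, one_mul, hvi w]
          push_cast
          ring
        · intro q' _ hq'
          simp only [δ, if_neg hq', zero_mul, Finset.sum_const_zero, mul_zero]
        · intro h
          exact absurd (Finset.mem_univ q) h
      have h7 : (fun w => (v i w : F')) = -(∑ q', dd (l q') • ρ q' + dd a • u) := by
        funext w
        have h8 := h1 w
        simp only [Pi.neg_apply, Pi.add_apply, Finset.sum_apply, Pi.smul_apply, smul_eq_mul]
        rw [eq_neg_iff_add_eq_zero, add_comm]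
        exact h8
      rw [h7]
      refine Submodule.neg_mem _ (Submodule.add_mem _ (Submodule.sum_mem _ fun q' _ => ?_)
        (Submodule.smul_mem _ _ (Submodule.subset_span
          (Finset.mem_coe.2 (Finset.mem_insert_self _ _)))))
      by_cases h9 : l q' = 0
      · rw [h9, map_zero, zero_smul]
        exact Submodule.zero_mem _
      · exact Submodule.smul_mem _ _ (hρT q' h9)
    have hfin := linearIndependent_le_span_aux' _ hvF (T : Set (V → F')) (by
      rintro _ ⟨i, rfl⟩
      exact hmem i)
    rw [Fintype.card_fin] at hfin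
    have h10 : Fintype.card (T : Set (V → F')) = T.card := Fintype.card_coe T
    rw [h10] at hfin
    omega
  · intro l hl
    refine rows_ext (fun q v => C.J α q v (fun _ => 1)) hrows l fun v => ?_
    rw [← hl v]
    refine Finset.sum_congr rfl fun q _ => ?_
    congr 1
    have h1 : ((D q : ℤ) - 0) = ((D q : ℕ) : ℤ) := sub_zero _
    rw [J_one, J_one, h1, lc_of_nat, finsetSum_coeff, map_sum]
    refine Finset.sum_congr rfl fun χ _ => ?_
    have h2 : (C.e q χ v : F'[X]) = Polynomial.C (C.e q χ v : F') := by simp
    rw [h2, coeff_mul_C, starc, coeff_add, coeff_C_mul, coeff_X_pow, if_pos rfl, mul_one,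
      coeff_C_of_ne_zero (by have := hD q; omega), add_zero, map_mul, map_natCast]

end main

end Pool.Agent.Work.WRC
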