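import Mathlib
import Pool.Agent.Work.MP_4329d7_ag_wrc.Defs2
import Pool.Agent.Work.MP_4329d7_ag_wrc.StarP

/-!
`FanV.gen`: the rays of a complete fan generate `ℤ^r`.
`kHull_of_KHc`: the condition on exponents in the form used by `starP`.
-/

namespace Pool.Agent.Work.WRC

open Polynomial Pool.Agent.Work.CI

/-- the rays generate `ℤ^r` -/
theorem FanV.gen {V : Type} [Fintype V] [DecidableEq V] {r : ℕ} (Δ : FanV V r) (b : Fin r → ℤ) :
    ∃ c : V → ℤ, ∀ j, b j = ∑ v, c v * Δ.ray v j := by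
  let P : Submonoid (Multiplicative ℤ) :=
    { carrier := {g | 0 ≤ Multiplicative.toAdd g}
      mul_mem' := fun {a b} (ha : 0 ≤ Multiplicative.toAdd a) (hb : 0 ≤ Multiplicative.toAdd b) => by
        change 0 ≤ Multiplicative.toAdd (a * b)
        rw [toAdd_mul]
        exact add_nonneg ha hb
      one_mem' := le_refl (0 : ℤ) }
  obtain ⟨τ, -, g, -, -, hg⟩ := Δ.cov (Multiplicative ℤ) P (fun g => by
    rcases le_total 0 (Multiplicative.toAdd g) with h | h
    · exact Or.inl h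
    · refine Or.inr ?_
      change 0 ≤ Multiplicative.toAdd g⁻¹
      rw [toAdd_inv]
      exact neg_nonneg.2 h) (fun j => Multiplicative.ofAdd (b j))
  refine ⟨fun v => Multiplicative.toAdd (g v), fun j => ?_⟩
  have h1 := congrArg Multiplicative.toAdd (hg j)
  rw [toAdd_ofAdd, toAdd_prod] at h1
  rw [h1]
  refine Finset.sum_congr rfl fun v _ => ?_
  rw [toAdd_zpow, smul_eq_mul, mul_comm]

theorem coxF_diff {dB r : ℕ} {B Q V : Type} (f : B ⊕ Q → Lau (dB + r)) (ray : V → Fin r → ℤ)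
    {q : Q} {χ χ' : Fin (dB + r) → ℤ} (hχ : χ ∈ (f (Sum.inr q)).support)
    (hχ' : χ' ∈ (f (Sum.inr q)).support) (w : V) :
    ((coxF f ray).e q χ w : ℤ) - ((coxF f ray).e q χ' w : ℤ) =
      ∑ j, (χ (Fin.natAdd dB j) - χ' (Fin.natAdd dB j)) * ray w j := by
  have h1 := (coxF f ray).he q χ hχ w
  have h2 := (coxF f ray).he q χ' hχ' w
  rw [h1, h2]
  change (∑ i, χ i * fibv (dB := dB) (ray w) i + _) - (∑ i, χ' i * fibv (dB := dB) (ray w) i + _) = _
  have h3 : ∀ ψ : Fin (dB + r) → ℤ, ∑ i, ψ i * fibv (dB := dB) (ray w) i =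
      ∑ j, ψ (Fin.natAdd dB j) * ray w j := by
    intro ψ
    rw [Fin.sum_univ_add]
    simp only [fibv, Fin.append_left, Fin.append_right, Pi.zero_apply, mul_zero,
      Finset.sum_const_zero, zero_add]
  rw [h3, h3, add_sub_add_right_eq_sub, ← Finset.sum_sub_distrib]
  exact Finset.sum_congr rfl fun j _ => by ring

/-- the condition on exponents in the form of `starP` -/
theorem kHull_of_KHc {dB r : ℕ} {B Q V : Type} [Fintype V] [DecidableEq V]
    (f : B ⊕ Q → Lau (dB + r)) (Δ : FanV V r) (h : KHc f) : KHull (coxF f Δ.ray) := by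
  classical
  intro S hS
  obtain ⟨u, hu1, -, hu3⟩ := Submodule.exists_fun_fin_finrank_span_eq ℚ
    {v : Fin r → ℚ | ∃ q ∈ S, ∃ χ ∈ (f (Sum.inr q)).support, ∃ χ' ∈ (f (Sum.inr q)).support,
      v = fun j => ((χ (Fin.natAdd dB j) - χ' (Fin.natAdd dB j) : ℤ) : ℚ)}
  have hcard := h S hS
  let c : Fin (S.card + 1) → Fin _ := Fin.castLE hcard
  choose q hq χ hχ χ' hχ' hv using fun i => hu1 (c i)
  refine ⟨fun i w => ((coxF f Δ.ray).e (q i) (χ i) w : ℤ) - (coxF f Δ.ray).e (q i) (χ' i) w, ?_,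
    fun i => ⟨q i, hq i, χ i, hχ i, χ' i, hχ' i, fun w => rfl⟩⟩
  rw [Fintype.linearIndependent_iff]
  intro g hg i
  have h1 : LinearIndependent ℚ (fun i => u (c i)) :=
    hu3.comp c (Fin.castLE_injective hcard)
  rw [Fintype.linearIndependent_iff] at h1
  have h2 := h1 (fun i => (g i : ℚ)) ?_ i
  · exact_mod_cast h2
  funext j
  -- the unit vector `j` is a combination of rays
  obtain ⟨d, hd⟩ := Δ.gen (Pi.single j 1)
  have h3 : ∀ w, ∑ i, g i * ∑ j, (χ i (Fin.natAdd dB j) - χ' i (Fin.natAdd dB j)) * Δ.ray w j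
      = 0 := by
    intro w
    have h4 := congrFun hg w
    simp only [Finset.sum_apply, Pi.smul_apply, smul_eq_mul, Pi.zero_apply] at h4
    rw [← h4]
    refine Finset.sum_congr rfl fun i _ => ?_
    rw [coxF_diff f Δ.ray (hχ i) (hχ' i) w]
  have h5 : ∑ i, g i * (χ i (Fin.natAdd dB j) - χ' i (Fin.natAdd dB j)) = 0 := by
    have h6 : ∑ w, d w * ∑ i, g i * ∑ j', (χ i (Fin.natAdd dB j') - χ' i (Fin.natAdd dB j')) *
        Δ.ray w j' = 0 := by
      refine Finset.sum_eq_zero fun w _ => ?_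
      rw [h3 w, mul_zero]
    have h7 : ∑ w, d w * ∑ i, g i * ∑ j', (χ i (Fin.natAdd dB j') - χ' i (Fin.natAdd dB j')) *
        Δ.ray w j' = ∑ i, g i * ∑ j', (χ i (Fin.natAdd dB j') - χ' i (Fin.natAdd dB j')) *
          ∑ w, d w * Δ.ray w j' := by
      simp only [Finset.mul_sum]
      rw [Finset.sum_comm]
      refine Finset.sum_congr rfl fun i _ => ?_
      rw [Finset.sum_comm]
      refine Finset.sum_congr rfl fun j' _ => Finset.sum_congr rfl fun w _ => ?_
      ring
    rw [h7] at h6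
    rw [← h6]
    refine Finset.sum_congr rfl fun i _ => ?_
    congr 1
    rw [Finset.sum_eq_single j]
    · rw [← hd j, Pi.single_eq_same, mul_one]
    · intro j' _ hj'
      rw [← hd j', Pi.single_eq_of_ne hj', mul_zero]
    · intro hj
      exact absurd (Finset.mem_univ j) hj
  simp only [Finset.sum_apply, Pi.smul_apply, smul_eq_mul, Pi.zero_apply, hv]
  exact_mod_cast h5

end Pool.Agent.Work.WRC
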