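import Mathlib
import Pool.Agent.Work.MP_4329d7_ag_wrc.SpzMap
import Pool.Agent.Work.MP_4329d7_ag_wrc.KHandle
import Pool.Agent.Work.MP_4329d7_ag_wrc.StarK
import Pool.Agent.Work.MP_4329d7_ag_wrc.Open
import Pool.Agent.Work.MP_4329d7_ag_wrc.ExiRk

/-!
# The star comb

`star_core`: a very free curve of the fibre through the point `1`, and generic `γ` with
`∑ χ, γ q χ = 0`.  Then the family with coefficients `α s ^ (D q) + γ` has a free section (in Cox
coordinates) which is `1` at infinity.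
-/

namespace Pool.Agent.Work.WRC

open Polynomial Pool.Agent.Work.CI

section

variable {V Q X : Type} [Fintype V]

/-- the degrees of the equations are positive -/
theorem Cox.m_pos {C : Cox V Q X} (hKH : KHull C) (hmin : ∀ q v, ∃ χ ∈ C.supp q, C.e q χ v = 0)
    {n : V → ℕ} (hn : C.Rel fun v => (n v : ℤ))
    (hspan : ∀ v, n v = 0 → ∃ γ : V → ℤ, C.Rel γ ∧ γ v ≠ 0 ∧ ∀ w, w ≠ v → n w = 0 → γ w = 0)
    (q : Q) : 1 ≤ C.m (fun v => (n v : ℤ)) q := by
  classical
  by_contra hlt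
  push Not at hlt
  have h0 : ∀ χ ∈ C.supp q, ∀ v, n v ≠ 0 → C.e q χ v = 0 := by
    intro χ hχ v hv
    have h1 := C.rel_sum hn hχ
    have h2 : ∀ v ∈ Finset.univ, 0 ≤ (n v : ℤ) * (C.e q χ v : ℤ) := fun v _ => by positivity
    have h3 : ∑ v, (n v : ℤ) * (C.e q χ v : ℤ) = 0 := by
      have h4 := Finset.sum_nonneg h2
      omega
    have h5 := (Finset.sum_eq_zero_iff_of_nonneg h2).1 h3 v (Finset.mem_univ v)
    rcases mul_eq_zero.1 h5 with h | h
    · exact absurd (by exact_mod_cast h) hv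
    · exact_mod_cast h
  have h1 : ∀ χ ∈ C.supp q, ∀ v, C.e q χ v = 0 := by
    intro χ hχ v
    by_cases hv : n v = 0
    · obtain ⟨γ, hγ, hγv, hγw⟩ := hspan v hv
      obtain ⟨χ', hχ', he⟩ := hmin q v
      have key : ∀ χ ∈ C.supp q, γ v * (C.e q χ v : ℤ) = C.m γ q := by
        intro χ hχ
        rw [← C.rel_sum hγ hχ, Finset.sum_eq_single v]
        · intro w _ hw
          by_cases hn' : n w = 0
          · rw [hγw w hw hn', zero_mul]
          · rw [h0 χ hχ w hn', Nat.cast_zero, mul_zero]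
        · intro h
          exact absurd (Finset.mem_univ v) h
      have h2 := key χ hχ
      rw [← key χ' hχ', he, Nat.cast_zero, mul_zero] at h2
      exact_mod_cast (mul_eq_zero.1 h2).resolve_left hγv
    · exact h0 χ hχ v hv
  obtain ⟨v, hv, hv'⟩ := hKH {q} (Finset.singleton_nonempty q)
  obtain ⟨q', hq', χ, hχ, χ', hχ', h2⟩ := hv' 0
  rw [Finset.mem_singleton] at hq'
  subst hq'
  refine hv.ne_zero 0 ?_
  funext w
  rw [h2 w, h1 χ hχ w, h1 χ' hχ' w]
  rfl

end

section core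

variable {V Q X : Type} [Fintype V] [DecidableEq V] [Fintype Q]

omit [Fintype V] [DecidableEq V] [Fintype Q] in
/-- a domain embeds in an algebraically closed field -/
theorem exists_acl (R : Type) [CommRing R] [IsDomain R] :
    ∃ (L : Type) (_ : Field L) (_ : IsAlgClosed L) (ι : R →+* L), Function.Injective ι := by
  refine ⟨AlgebraicClosure (FractionRing R), inferInstance, inferInstance,
    (algebraMap (FractionRing R) (AlgebraicClosure (FractionRing R))).comp
      (algebraMap R (FractionRing R)), ?_⟩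
  exact (algebraMap (FractionRing R) (AlgebraicClosure (FractionRing R))).injective.comp
      (IsFractionRing.injective R (FractionRing R))

omit [Fintype V] [DecidableEq V] [Fintype Q] in
theorem degLE_map_ring {A B : Type*} [CommRing A] [CommRing B] (i : A →+* B) {p : A[X]} {n : ℤ}
    (h : DegLE p n) : DegLE (p.map i) n := by
  intro m hm
  rw [coeff_map, h m hm, map_zero]

omit [Fintype V] [DecidableEq V] [Fintype Q] in
theorem lc_map_ring {A B : Type*} [CommRing A] [CommRing B] (i : A →+* B) (p : A[X]) (n : ℤ) :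
    lc (p.map i) n = i (lc p n) := by
  unfold lc
  split_ifs
  · rw [coeff_map]
  · rw [map_zero]

omit [DecidableEq V] in
/-- the teeth of the star near infinity -/
theorem star_tooth (Cx : Cox V Q X) {F' L : Type} [Field F'] [CharZero F'] [Field L]
    (ι : PowerSeries F' →+* L) (α γ : Q → X → F')
    (hα : ∀ q, ∑ χ ∈ Cx.supp q, α q χ = 0) (hγ : ∀ q, ∑ χ ∈ Cx.supp q, γ q χ = 0)
    (n : V → ℕ) (hn : Cx.Rel fun v => (n v : ℤ))
    (T : V → F'[X]) (hTd : ∀ v, DegLE (T v) (n v)) (hTl : ∀ v, lc (T v) (n v) = 1)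
    (hTF : ∀ q, Cx.F (fun q x => C (α q x)) q T = 0)
    (hTf : FreeS Cx (fun q x => C (α q x)) T (fun v => (n v : ℤ)) (Cx.m fun v => (n v : ℤ)))
    (hTv : VFreeS Cx (fun q x => C (α q x)) T (fun v => (n v : ℤ)) (Cx.m fun v => (n v : ℤ)))
    (D : Q → ℕ) (hD : ∀ q, 1 ≤ D q) (u : F') (pos : L)
    (hpos : pos * (ι (PowerSeries.C u) * ι PowerSeries.X) = 1) (c : Q → X → L)
    (hc : ∀ q χ, c q χ = ι (PowerSeries.C (α q χ)) * pos ^ D q + ι (PowerSeries.C (γ q χ))) :
    ∃ T' : V → L[X], (∀ v, DegLE (T' v) (n v)) ∧ (∀ v, lc (T' v) (n v) = 1) ∧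
      (∀ q, Cx.F (fun q x => C (c q x)) q T' = 0) ∧
      FreeS Cx (fun q x => C (c q x)) T' (fun v => (n v : ℤ)) (Cx.m fun v => (n v : ℤ)) ∧
      VFreeS Cx (fun q x => C (c q x)) T' (fun v => (n v : ℤ)) (Cx.m fun v => (n v : ℤ)) := by
  classical
  -- the coefficients near infinity
  let ah : Q → X → PowerSeries F' := fun q χ => PowerSeries.C (α q χ) +
      PowerSeries.C (γ q χ) * (PowerSeries.C u * PowerSeries.X) ^ D q
  have hah0 : ∀ q χ, PowerSeries.constantCoeff (ah q χ) = α q χ := by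
    intro q χ
    simp only [ah, map_add, map_mul, map_pow, PowerSeries.constantCoeff_C,
      PowerSeries.constantCoeff_X, mul_zero]
    rw [zero_pow (by have := hD q; omega), mul_zero, add_zero]
  have hp0 : pos ≠ 0 := by
    intro h
    rw [h, zero_mul] at hpos
    exact zero_ne_one hpos
  have hahc : ∀ q χ, c q χ = pos ^ D q * ι (ah q χ) := by
    intro q χ
    have h1 : pos ^ D q * (ι (PowerSeries.C u) * ι PowerSeries.X) ^ D q = 1 := by
      rw [← mul_pow, hpos, one_pow]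
    rw [hc]
    simp only [ah, map_add, map_mul, map_pow]
    linear_combination (-(ι (PowerSeries.C (γ q χ)))) * h1
  have hah1 : ∀ q, Cx.F ah q (fun _ => 1) = 0 := by
    intro q
    rw [F_one]
    simp only [ah, Finset.sum_add_distrib, ← Finset.sum_mul, ← map_sum]
    rw [hα q, hγ q, map_zero, zero_mul, add_zero]
  have hco : (fun q x => C (PowerSeries.constantCoeff (ah q x)) : Q → X → F'[X]) =
      fun q x => C (α q x) := by
    funext q x
    rw [hah0]
  obtain ⟨T', h1, h2, -, h4, h5⟩ := open_ps (C := Cx) hn (a := ah) (Z := fun _ => 1) hah1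
    hTd (fun v => by rw [hTl v, map_one])
    (fun v _ h => by
      have h1 := hTl v
      rw [h, Spz.lc_zero] at h1
      exact zero_ne_one h1)
    (fun q => by rw [hco, hTF q])
    (by rw [hco]; exact hTf) (by rw [hco]; exact hTv)
  obtain ⟨h6, h7⟩ := h5 L ι
  have hU0 : ∀ q, pos ^ D q ≠ 0 := fun q => pow_ne_zero _ hp0
  have hU : ∀ q, ∀ x ∈ Cx.supp q, C (c q x) *
      ∏ v, Polynomial.C ((fun _ => 1 : V → L) v) ^ Cx.e q x v =
      Polynomial.C (pos ^ D q) * C (ι (ah q x)) := by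
    intro q x _
    rw [hahc q x, C_mul]
    simp only [C_1, one_pow, Finset.prod_const_one, mul_one]
  have hone : (fun v => Polynomial.C ((fun _ => 1 : V → L) v) * (T' v).map ι) =
      fun v => (T' v).map ι := by
    funext v
    rw [C_1, one_mul]
  refine ⟨fun v => (T' v).map ι, fun v => degLE_map_ring ι (h1 v), fun v => ?_, fun q => ?_,
    ?_, ?_⟩
  · rw [lc_map_ring, h2 v, map_one]
  · have h8 := Cox.F_gauge (C := Cx) (c := fun q x => C (ι (ah q x)))
      (c' := fun q x => C (c q x)) (μ := fun v => C ((fun _ => 1 : V → L) v))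
      (q := q) (U := C (pos ^ D q)) (hU q) (fun v => (T' v).map ι)
    have h9 := (Cox.F_map (C := Cx) (mapRingHom ι) (fun q x => C (ah q x)) q T').symm
    rw [h4 q, map_zero] at h9
    simp only [coe_mapRingHom, map_C] at h9
    rw [h9, mul_zero] at h8
    rw [← hone]
    exact h8
  · have h8 := FreeS.gauge (C := Cx) (c := fun q x => C (ι (ah q x)))
      (c' := fun q x => C (c q x)) (μ := fun _ => (1 : L))
      (U := fun q => pos ^ D q) hU0 hU h6
    rw [hone] at h8
    exact h8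
  · have h8 := VFreeS.gauge (C := Cx) (c := fun q x => C (ι (ah q x)))
      (c' := fun q x => C (c q x)) (μ := fun _ => (1 : L))
      (U := fun q => pos ^ D q) hU0 hU h7
    rw [hone] at h8
    exact h8

/-- **The star comb.** -/
theorem star_core (Cx : Cox V Q X) (hKH : KHull Cx) {k : Type} [Field k] [CharZero k]
    (α : Q → X → k)
    (hrows : ∀ l : Q → k, (∀ v, ∑ q, l q * Cx.J α q v (fun _ => 1) = 0) → l = 0)
    (n : V → ℕ) (hn : Cx.Rel fun v => (n v : ℤ)) (hm : ∀ q, 1 ≤ Cx.m (fun v => (n v : ℤ)) q)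
    (hspan : ∀ v, n v = 0 → ∃ γ : V → ℤ, Cx.Rel γ ∧ γ v ≠ 0 ∧ ∀ w, w ≠ v → n w = 0 → γ w = 0)
    (T : V → k[X]) (hTd : ∀ v, DegLE (T v) (n v)) (hTl : ∀ v, lc (T v) (n v) = 1)
    (hTF : ∀ q, Cx.F (fun q x => C (α q x)) q T = 0)
    (hTf : FreeS Cx (fun q x => C (α q x)) T (fun v => (n v : ℤ)) (Cx.m fun v => (n v : ℤ)))
    (hTv : VFreeS Cx (fun q x => C (α q x)) T (fun v => (n v : ℤ)) (Cx.m fun v => (n v : ℤ)))
    (D : Q → ℕ) (hD : ∀ q, 1 ≤ D q) :
    ∃ (k1 : Type) (_ : Field k1) (_ : IsAlgClosed k1) (i : k →+* k1) (γ : Q → X → k1)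
      (nn : V → ℕ) (Y : V → k1[X]), (∀ q, ∑ χ ∈ Cx.supp q, γ q χ = 0) ∧
      Cx.Rel (fun v => (nn v : ℤ)) ∧ (∀ v, DegLE (Y v) (nn v)) ∧ (∀ v, lc (Y v) (nn v) = 1) ∧
      (∀ q, Cx.F (starc (fun q χ => i (α q χ)) γ D) q Y = 0) ∧
      FreeS Cx (starc (fun q χ => i (α q χ)) γ D) Y (fun v => (nn v : ℤ))
        (fun q => (D q : ℤ) + Cx.m (fun v => (nn v : ℤ)) q) := by
  classical
  -- the sum of `α` is zero
  have hα : ∀ q, ∑ χ ∈ Cx.supp q, α q χ = 0 := by
    intro q
    have h1 := Cox.F_lc (C := Cx) (c := fun q x => C (α q x)) (n := fun v => (n v : ℤ))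
      (d := Cx.m (fun v => (n v : ℤ)) q) (q := q) (fun x hx => by
        rw [Cox.rel_sum hn hx, sub_self]
        exact DegLE.C _ le_rfl) hTd
    rw [hTF q, Spz.lc_zero, Cox.F_eq] at h1
    rw [h1]
    refine Finset.sum_congr rfl fun x hx => ?_
    rw [Cox.rel_sum hn hx, sub_self]
    simp only [hTl, one_pow, Finset.prod_const_one, mul_one]
    simp [lc]
  obtain ⟨F', _, _, _, γ, hγ, hfull⟩ := starP Cx hKH k α hrows
  have hchF : CharZero F' := charZero_of_injective_algebraMap (algebraMap k F').injective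
  -- the field over which the teeth live
  obtain ⟨L, _, _, ι, hι⟩ := exists_acl (PowerSeries F')
  let iF : F' →+* L := ι.comp PowerSeries.C
  let iL : k →+* L := iF.comp (algebraMap k F')
  have hchL : CharZero L := charZero_of_injective_ringHom iF.injective
  -- the family over `L`
  let c : Q → X → L[X] := starc (fun q χ => iL (α q χ)) (fun q χ => iF (γ q χ)) D
  have hcmap : c = fun q x => (starc (fun q χ => algebraMap k F' (α q χ)) γ D q x).map iF := by
    funext q x
    simp only [c, starc, Polynomial.map_add, Polynomial.map_mul, Polynomial.map_pow, map_X, map_C]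
    rfl
  have hfullL : FullS Cx c (fun _ => 1) (fun _ => 0) (fun q => (D q : ℤ)) := by
    have h1 := FullS.map iF (hfull D hD)
    rw [← hcmap] at h1
    simpa only [Polynomial.map_one] using h1
  have hcdeg : ∀ q x, DegLE (c q x) (D q) := by
    intro q x
    refine DegLE.add ?_ ?_
    · have h1 := ((DegLE.monomial (1 : L) (D q)).C_mul (iL (α q x)))
      rw [← X_pow_eq_monomial] at h1
      exact h1
    · exact DegLE.C _ (by positivity)
  have hc : ∀ q, ∀ x ∈ Cx.supp q, DegLE (c q x) ((D q : ℤ) - ∑ v, (0 : ℤ) * Cx.e q x v) := by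
    intro q x _
    simpa only [zero_mul, Finset.sum_const_zero, sub_zero] using hcdeg q x
  have hcF : ∀ q, Cx.F c q (fun _ => 1) = 0 := by
    intro q
    rw [F_one]
    simp only [c, starc, Finset.sum_add_distrib, ← Finset.sum_mul, ← map_sum]
    rw [hα q, hγ q, map_zero, map_zero, map_zero, map_zero, zero_mul, add_zero]
  have h1d : ∀ v : V, DegLE ((fun _ => 1 : V → L[X]) v) ((fun _ => 0 : V → ℤ) v) :=
    fun v => DegLE.one
  obtain ⟨N0, hN0⟩ := evSurj (fun q v => Cx.J c q v fun _ => 1) (fun q => (D q : ℤ))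
    (fun _ => (0 : ℤ)) (fun q v => Cox.J_degLE (hc q) h1d v) hfullL.1 hfullL.2
  obtain ⟨N, hNN⟩ : ∃ N : ℕ, N0 ≤ (N : ℤ) - 2 ∧ 1 ≤ N := by
    refine ⟨N0.toNat + 2, ?_, by omega⟩
    have := Int.self_le_toNat N0
    push_cast
    omega
  -- positions
  have hδ : ι PowerSeries.X ≠ 0 := by
    intro h
    have h2 := hι (h.trans (map_zero ι).symm)
    exact PowerSeries.X_ne_zero h2
  let u : Fin N → F' := fun j => ((j.1 : F') + 1)⁻¹
  have hu : ∀ j, u j ≠ 0 := fun j => inv_ne_zero (Nat.cast_add_one_ne_zero _)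
  have hpos0 : ∀ j, iF (u j) * ι PowerSeries.X ≠ 0 := fun j =>
    mul_ne_zero ((map_ne_zero iF).2 (hu j)) hδ
  let pos : Fin N → L := fun j => (iF (u j) * ι PowerSeries.X)⁻¹
  have hpos : Function.Injective pos := by
    intro j j' h
    have h1 : iF (u j) * ι PowerSeries.X = iF (u j') * ι PowerSeries.X := inv_injective h
    have h2 := iF.injective (mul_right_cancel₀ hδ h1)
    have h3 : ((j.1 : F') + 1) = (j'.1 : F') + 1 := inv_injective h2
    exact Fin.ext (by exact_mod_cast add_right_cancel h3)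
  -- the teeth
  have hteeth : ∀ j, ∃ T' : V → L[X], (∀ v, DegLE (T' v) (n v)) ∧ (∀ v, lc (T' v) (n v) = 1) ∧
      (∀ q, Cx.F (fun q x => C ((c q x).eval (pos j))) q T' = 0) ∧
      FreeS Cx (fun q x => C ((c q x).eval (pos j))) T' (fun v => (n v : ℤ))
        (Cx.m fun v => (n v : ℤ)) ∧
      VFreeS Cx (fun q x => C ((c q x).eval (pos j))) T' (fun v => (n v : ℤ))
        (Cx.m fun v => (n v : ℤ)) := by
    intro j
    have hco : (fun q x => C (algebraMap k F' (α q x)) : Q → X → F'[X]) =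
        fun q x => (C (α q x)).map (algebraMap k F') := by
      funext q x
      rw [map_C]
    refine star_tooth Cx ι (fun q x => algebraMap k F' (α q x)) γ (fun q => ?_) hγ n hn
      (fun v => (T v).map (algebraMap k F')) (fun v => Spz.degLE_map _ (hTd v))
      (fun v => by rw [Spz.lc_map, hTl v, map_one])
      (fun q => by rw [hco, F_map_poly, hTF q, Polynomial.map_zero])
      (by rw [hco]; exact hTf.map _) (by rw [hco]; exact hTv.map _) D hD (u j) (pos j)
      (inv_mul_cancel₀ (hpos0 j)) _ (fun q χ => ?_)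
    · rw [← map_sum, hα q, map_zero]
    · simp only [c, starc, eval_add, eval_mul, eval_C, eval_pow, eval_X]
      rfl
  choose T' hT1 hT2 hT3 hT4 hT5 using hteeth
  have hcard : Fintype.card (Fin N) = N := Fintype.card_fin N
  have hT0 : ∀ j v, T' j v ≠ 0 := by
    intro j v h
    have h1 := hT2 j v
    rw [h, Spz.lc_zero] at h1
    exact zero_ne_one h1
  have hTe : ∀ j v, lc (T' j v) (n v) = ((fun _ => 1 : V → L[X]) v).eval (pos j) := by
    intro j v
    rw [hT2 j v, eval_one]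
  have hNe : Nonempty (Fin N) := ⟨⟨0, by omega⟩⟩
  have hmm : ∀ q, (((Cx.m (fun v => (n v : ℤ)) q).toNat : ℕ) : ℤ) =
      Cx.m (fun v => (n v : ℤ)) q := fun q => Int.toNat_of_nonneg (by have := hm q; omega)
  have hmf : (fun q => (((Cx.m (fun v => (n v : ℤ)) q).toNat : ℕ) : ℤ)) =
      Cx.m (fun v => (n v : ℤ)) := funext hmm
  obtain ⟨Y, hY1, hY2, -, -, hY3, hY4⟩ := comb_handle (S := Cx) (a := c) (H := fun _ => 1)
    (N := fun _ => 0) (M := fun q => (D q : ℤ)) (pt := pos) (n := n)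
    (m := fun q => (Cx.m (fun v => (n v : ℤ)) q).toNat) (T := T') hc (fun v => DegLE.one)
    hcF hpos hn hmm (fun q => by have := hm q; omega) hspan hT0 hT1 hTe hT3
    (fun j => by rw [hmf]; exact hT4 j) (fun j => by rw [hmf]; exact hT5 j)
    (fun v _ => by rw [hcard]; omega)
    (fun b hb G hG => by
      obtain ⟨K, h1, h2⟩ := hN0 ((N : ℤ) - b) (by omega) G (fun q => (hG q).mono (by
        rw [hcard]; omega))
      exact ⟨K, fun v => (h1 v).mono (by rw [hcard]; omega), h2⟩)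
  -- the algebraic closure
  obtain ⟨k1, _, _, κ, hκ⟩ := exists_acl (PowerSeries L)
  let iK : L →+* k1 := κ.comp PowerSeries.C
  have hcK : (fun q x => (c q x).map (κ.comp PowerSeries.C)) =
      starc (fun q χ => (iK.comp iL) (α q χ)) (fun q χ => iK (iF (γ q χ))) D := by
    funext q x
    simp only [c, starc, Polynomial.map_add,
      Polynomial.map_mul, Polynomial.map_pow, map_X, map_C]
    rfl
  have hmN : ∀ q, Cx.m (fun v => ((2 * N * n v : ℕ) : ℤ)) q =
      2 * N * Cx.m (fun v => (n v : ℤ)) q := by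
    intro q
    unfold Cox.m
    rw [Finset.mul_sum]
    refine Finset.sum_congr rfl fun v _ => ?_
    push_cast
    ring
  obtain ⟨hfr, -⟩ := hY4 κ hκ
  rw [hcK] at hfr
  have hDeg : ∀ v, (0 : ℤ) + (Fintype.card (Fin N) : ℤ) * (2 * n v) =
      ((2 * N * n v : ℕ) : ℤ) := by
    intro v
    rw [hcard]
    push_cast
    ring
  simp only [hDeg] at hfr hY1 hY2
  refine ⟨k1, inferInstance, inferInstance, iK.comp iL, fun q χ => iK (iF (γ q χ)),
    fun v => 2 * N * n v, fun v => (Y v).map κ, fun q => ?_, ?_, fun v => ?_, fun v => ?_,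
    fun q => ?_, ?_⟩
  · rw [← map_sum, ← map_sum, hγ q, map_zero, map_zero]
  · intro i
    have h1 := hn i
    have h2 : ∑ v, Cx.ray v i * ((2 * N * n v : ℕ) : ℤ) =
        2 * N * ∑ v, Cx.ray v i * (n v : ℤ) := by
      rw [Finset.mul_sum]
      refine Finset.sum_congr rfl fun v _ => ?_
      push_cast
      ring
    rw [h2, h1, mul_zero]
  · exact degLE_map_ring κ (hY1 v)
  · rw [lc_map_ring, hY2 v, lc_one, map_one, map_one]
  · rw [← hcK]
    have h2 := (Cox.F_map (C := Cx) (mapRingHom κ) (fun q x => (c q x).map PowerSeries.C)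
      q Y).symm
    rw [hY3 q, map_zero] at h2
    simp only [coe_mapRingHom, Polynomial.map_map] at h2
    exact h2
  · have h1 : (fun q => (D q : ℤ) + (Fintype.card (Fin N) : ℤ) *
        (2 * (((Cx.m (fun v => (n v : ℤ)) q).toNat : ℕ) : ℤ))) =
        fun q => (D q : ℤ) + Cx.m (fun v => ((2 * N * n v : ℕ) : ℤ)) q := by
      funext q
      rw [hmN q, hcard, hmm q]
      ring
    rw [h1] at hfr
    exact hfr

end core

section final

variable {K : Type} [Field K] [Algebra ℂ K] {n dB r : ℕ} {B Q V : Type} [Fintype B] [Fintype Q]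
  [Fintype V] [DecidableEq V] {x : Fin (dB + r) → K} {f : B ⊕ Q → Lau (dB + r)}

/-- **The star comb**, final form. -/
theorem star_sec (T : Tot n dB r B Q x f) {Δ : FanV V r} (hΔ : Δ.Adapted f) {nB : ℕ}
    (htr : Algebra.trdeg ℂ (KBf x) = nB) (hdim : nB + Fintype.card B = dB) (hKH : KHc f)
    {k : Type} [Field k] [Algebra ℂ k] (φ₀ : K →ₐ[ℂ] k)
    (hVF : VF x f Δ.ray (fun j => φ₀ (x j)) fun _ => 1) (D : Q → ℕ) (hD : ∀ q, 1 ≤ D q) :
    ∃ (k₁ : Type) (_ : Field k₁) (_ : Algebra ℂ k₁) (_ : IsAlgClosed k₁) (i : k →ₐ[ℂ] k₁)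
      (γ : Q → (Fin (dB + r) → ℤ) → k₁) (n : V → ℕ) (Y : V → k₁[X]),
      (∀ q, ∑ χ ∈ (coxF f Δ.ray).supp q, γ q χ = 0) ∧
      (coxF f Δ.ray).Rel (fun v => (n v : ℤ)) ∧ (∀ v, DegLE (Y v) (n v)) ∧
      (∀ v, lc (Y v) (n v) = 1) ∧
      (∀ q, (coxF f Δ.ray).F (starc (fun q χ => i (cst (fun q => f (Sum.inr q))
        (fun j => φ₀ (x j)) q χ)) γ D) q Y = 0) ∧
      FreeS (coxF f Δ.ray) (starc (fun q χ => i (cst (fun q => f (Sum.inr q))
        (fun j => φ₀ (x j)) q χ)) γ D) Y (fun v => (n v : ℤ))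
        (fun q => (D q : ℤ) + (coxF f Δ.ray).m (fun v => (n v : ℤ)) q) := by
  classical
  rw [vf_iff] at hVF
  obtain ⟨k', _, _, _, i, nn, W, hW⟩ := hVF
  have hmin : ∀ q v, ∃ χ ∈ (coxF f Δ.ray).supp q, (coxF f Δ.ray).e q χ v = 0 := by
    intro q v
    obtain ⟨χ, hχ, h⟩ := exists_mn (T.data.nz (Sum.inr q)) (fibv (Δ.ray v))
    refine ⟨χ, hχ, ?_⟩
    change (pair χ (fibv (Δ.ray v)) - mn (f (Sum.inr q)) (fibv (Δ.ray v))).toNat = 0
    rw [h]
    simp
  have hm := Cox.m_pos (kHull_of_KHc f Δ hKH) hmin hW.rel hW.span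
  let x' : Fin (dB + r) → k' := fun j => i (φ₀ (x j))
  let α : Q → (Fin (dB + r) → ℤ) → k' := cst (fun q => f (Sum.inr q)) x'
  have hx' : ∀ j, x' j ≠ 0 := fun j =>
    (map_ne_zero i).2 ((map_ne_zero φ₀).2 (T.data.ne j))
  have hF1 : ∀ q, (coxF f Δ.ray).F α q (fun _ => 1) = 0 := by
    intro q
    rw [F_one]
    have h1 : ev (f (Sum.inr q)) x' = 0 := by
      have h2 := Pool.Agent.Work.CW.map_ev (i.comp φ₀) (f (Sum.inr q)) x
      rw [T.data.eq (Sum.inr q), map_zero] at h2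
      exact h2.symm
    exact h1
  have hcone : Δ.cone ∅ := by
    obtain ⟨τ, hτ, -⟩ := Δ.cov (Multiplicative ℤ) ⊤ (fun _ => Or.inl trivial) fun _ => 1
    exact Δ.down hτ (Finset.empty_subset τ)
  have hrows : ∀ l : Q → k', (∀ v, ∑ q, l q * (coxF f Δ.ray).J α q v (fun _ => 1) = 0) →
      l = 0 := by
    intro l hl
    exact ExR.fib_nd' T hΔ (ExR.xB_ne T) (ExR.xB_gen x) (ExR.xB_ev T) htr hdim
      ((i.comp φ₀).comp (KBf x).val) hx' (fun j => rfl) (Z := fun _ => 1) (τ := ∅) hcone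
      (fun v => by simp) hF1 (fun w _ => hl w)
  have hTF : ∀ q, (coxF f Δ.ray).F (fun q χ => C (α q χ)) q W = 0 := by
    intro q
    obtain ⟨φ, hφ⟩ := hW.hom
    have h1 := ev_cst (fun q => f (Sum.inr q)) (fun v => fibv (Δ.ray v)) x' W hW.ne q
    have h2 := Pool.Agent.Work.CW.map_ev φ (f (Sum.inr q)) x
    rw [T.data.eq (Sum.inr q), map_zero] at h2
    have h3 : (fun j => φ (x j)) = fun j => RatFunc.C (x' j) *
      ∏ v, algebraMap k'[X] (RatFunc k') (W v) ^ (fibv (Δ.ray v) : Fin (dB + r) → ℤ) j :=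
      funext hφ
    rw [h3] at h2
    rw [← h2] at h1
    have h4 := (mul_eq_zero.1 h1.symm).resolve_left
      (Finset.prod_ne_zero_iff.2 fun v _ => zpow_ne_zero _ (Spz.alg_ne (hW.ne v)))
    exact (map_eq_zero_iff _ (RatFunc.algebraMap_injective k')).1 h4
  have hch : CharZero k' := charZero_of_injective_algebraMap (algebraMap ℂ k').injective
  obtain ⟨k₁, a1, a2, i₁, γ, N, Y, h1, h2, h3, h4, h5, h6⟩ := star_core (coxF f Δ.ray)
    (kHull_of_KHc f Δ hKH) α hrows nn hW.rel hm hW.span W hW.deg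
    (fun v => by rw [hW.top v, map_one]) hTF hW.free hW.vfree D hD
  let _ : Algebra ℂ k₁ := (i₁.comp (algebraMap ℂ k')).toAlgebra
  let i₁' : k' →ₐ[ℂ] k₁ := { i₁ with commutes' := fun c => rfl }
  have hst : starc (fun q χ => (i₁'.comp i) (cst (fun q => f (Sum.inr q))
      (fun j => φ₀ (x j)) q χ)) γ D = starc (fun q χ => i₁ (α q χ)) γ D := by
    have h7 : (fun q χ => (i₁'.comp i) (cst (fun q => f (Sum.inr q))
        (fun j => φ₀ (x j)) q χ)) = fun q χ => i₁ (α q χ) := by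
      funext q χ
      change i₁ (i _) = _
      rw [← cst_map i (fun q => f (Sum.inr q)) (fun j => φ₀ (x j)) q χ]
    rw [h7]
  refine ⟨k₁, a1, inferInstance, a2, i₁'.comp i, γ, N, Y, h1, h2, h3, h4, ?_, ?_⟩
  · rw [hst]
    exact h5
  · rw [hst]
    exact h6

alias star_main := star_sec

end final

end Pool.Agent.Work.WRC
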