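import Mathlib
import Pool.Agent.Work.MP_4329d7_ag_wrc.Path
import Pool.Agent.Work.MP_4329d7_ag_wrc.Star
import Pool.Agent.Work.MP_4329d7_ag_wrc.ChainSec

/-!
W-RC, section theorem: star, path and chain.
-/

namespace Pool.Agent.Work.WRC

open Polynomial Pool.Agent.Work.CI Pool.Agent.Work.CW

variable {K : Type} [Field K] [Algebra ℂ K] {n dB r : ℕ} {B Q : Type} [Fintype B] [Fintype Q]
  {V : Type} [Fintype V] [DecidableEq V]

variable {x : Fin (dB + r) → K} {f : B ⊕ Q → Lau (dB + r)}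

private theorem sec_lc {k : Type} [Field k] (p : k[X]) (D : ℕ) : lc p (D : ℤ) = p.coeff D := by
  unfold lc
  rw [if_pos (Int.natCast_nonneg D), Int.toNat_natCast]

omit [Fintype Q] in
private theorem sec_starc_top {k X : Type} [Field k] (α γ : Q → X → k) (D : Q → ℕ) (q : Q)
    (χ : X) (hD : 1 ≤ D q) : (starc α γ D q χ).coeff (D q) = α q χ := by
  unfold starc
  rw [coeff_add, coeff_C_mul, coeff_X_pow, if_pos rfl, coeff_C, if_neg (by omega), mul_one,
    add_zero]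

omit [Fintype Q] in
private theorem sec_starc_deg {k X : Type} [Field k] (α γ : Q → X → k) (D : Q → ℕ) (q : Q)
    (χ : X) : (starc α γ D q χ).natDegree ≤ D q := by
  unfold starc
  refine natDegree_add_le_of_degree_le (natDegree_C_mul_X_pow_le _ _) ?_
  rw [natDegree_C]
  exact Nat.zero_le _

/-- **The section theorem.** -/
theorem sec (T : Tot n dB r B Q x f) (Δ : FanV V r) (hΔ : Δ.Adapted f) {nB : ℕ}
    (htr : Algebra.trdeg ℂ (KBf x) = nB) (hdim : nB + Fintype.card B = dB) (hKH : KHc f)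
    (hstep : StepProp x f Δ) {k : Type} [Field k] [Algebra ℂ k] [IsAlgClosed k] (φ₀ : K →ₐ[ℂ] k)
    (hVF : VF x f Δ.ray (fun j => φ₀ (x j)) 1)
    (a : Q → (Fin (dB + r) → ℤ) → k[X]) (D : Q → ℕ) (hD : ∀ q, 1 ≤ D q)
    (hdeg : ∀ q, ∀ χ ∈ (f (Sum.inr q)).support, (a q χ).natDegree ≤ D q)
    (htop : ∀ q, ∀ χ ∈ (f (Sum.inr q)).support,
      (a q χ).coeff (D q) = cst (fun q => f (Sum.inr q)) (fun j => φ₀ (x j)) q χ) :
    ∃ (k₂ : Type) (_ : Field k₂) (_ : Algebra ℂ k₂) (_ : IsAlgClosed k₂) (i : k →ₐ[ℂ] k₂)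
      (σ : Finset V) (y : Fin r → RatFunc k₂) (τ : Finset V) (z : Fin r → k₂),
      BdSec Δ f (fun q χ => (a q χ).map i.toRingHom) σ y ∧ LimInf Δ σ y τ z ∧
      VF x f Δ.ray (mulF (fun j => i (φ₀ (x j))) z) (ind k₂ τ) := by
  classical
  obtain ⟨k₁, _, _, _, i, γ, m, Y, -, hm, hY, hlcY, hF, hfree⟩ :=
    star_sec T hΔ htr hdim hKH φ₀ hVF D hD
  let α : Q → (Fin (dB + r) → ℤ) → k₁ := fun q χ => i (cst (fun q => f (Sum.inr q))
    (fun j => φ₀ (x j)) q χ)
  have hd0 : ∀ q χ, (starc α γ D q χ).natDegree ≤ D q := sec_starc_deg α γ D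
  have hd1 : ∀ q, ∀ χ ∈ (f (Sum.inr q)).support, ((a q χ).map i.toRingHom).natDegree ≤ D q :=
    fun q χ hχ => natDegree_map_le.trans (hdeg q χ hχ)
  have hle : ∀ {p : k₁[X]} {d : ℕ}, p.natDegree ≤ d → DegLE p (d : ℤ) := by
    intro p d h j hj
    exact coeff_eq_zero_of_natDegree_lt (lt_of_le_of_lt h (by exact_mod_cast hj))
  have ht1 : ∀ q, ∀ χ ∈ (f (Sum.inr q)).support,
      ((a q χ).map i.toRingHom).coeff (D q) = α q χ := by
    intro q χ hχ
    rw [coeff_map, htop q χ hχ]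
    rfl
  obtain ⟨L, _, _, j, O, τ, Y', hjO, hτ, hτ1, hY', hlc', hF'⟩ := path (coxF f Δ.ray)
    (starc α γ D) (fun q χ => (a q χ).map i.toRingHom) (fun q => (D q : ℤ)) m hm
    (fun q χ _ => hle (hd0 q χ)) (fun q χ hχ => hle (hd1 q χ hχ))
    (fun q χ hχ => by rw [sec_lc, sec_lc, sec_starc_top α γ D q χ (hD q), ht1 q χ hχ]) Y hY hF
    hfree
  -- the residue field
  letI : Algebra ℂ (IsLocalRing.ResidueField O) :=
    ((resk j O hjO).comp (algebraMap ℂ k₁)).toAlgebra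
  haveI : IsAlgClosed (IsLocalRing.ResidueField O) := residue_algClosed O
  let i₂ : k₁ →ₐ[ℂ] IsLocalRing.ResidueField O := { resk j O hjO with commutes' := fun c => rfl }
  have hτO : τ ∈ O := mem_of_sub_one O hτ
  have hτr : IsLocalRing.residue O ⟨τ, hτO⟩ = 1 := residue_eq_one O hτ hτO
  -- the family over `L`
  let A : Q → (Fin (dB + r) → ℤ) → L[X] := fun q χ => C (1 - τ) * (starc α γ D q χ).map j +
    C τ * ((a q χ).map i.toRingHom).map j
  have hAc : ∀ q χ l, (A q χ).coeff l = (1 - τ) * j ((starc α γ D q χ).coeff l) +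
      τ * j (((a q χ).map i.toRingHom).coeff l) := by
    intro q χ l
    change (C (1 - τ) * (starc α γ D q χ).map j +
      C τ * ((a q χ).map i.toRingHom).map j).coeff l = _
    rw [coeff_add, coeff_C_mul, coeff_C_mul, coeff_map, coeff_map]
  have hO : ∃ w : L, w ≠ 0 ∧ O.valuation w < 1 :=
    ⟨τ - 1, sub_ne_zero.2 hτ1, O.mem_nonunits_iff.1 hτ⟩
  have hx0 : ∀ l, i₂ (i (φ₀ (x l))) ≠ 0 := by
    intro l
    exact (_root_.map_ne_zero i₂).2 ((_root_.map_ne_zero i).2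
      ((_root_.map_ne_zero φ₀).2 (T.data.ne l)))
  have hA : ∀ q, ∀ χ ∈ (f (Sum.inr q)).support, ∀ l, (rplc O).S ((A q χ).coeff l)
      ((((a q χ).map i.toRingHom).map i₂.toRingHom).coeff l) := by
    intro q χ hχ l
    have h1 : (A q χ).coeff l ∈ O := by
      rw [hAc]
      exact O.add_mem _ _ (O.mul_mem _ _ (sub_mem O.one_mem hτO) (hjO _))
        (O.mul_mem _ _ hτO (hjO _))
    refine ⟨h1, ?_⟩
    have h2 : (⟨(A q χ).coeff l, h1⟩ : O) = (1 - ⟨τ, hτO⟩) *
        ⟨j ((starc α γ D q χ).coeff l), hjO _⟩ +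
        ⟨τ, hτO⟩ * ⟨j (((a q χ).map i.toRingHom).coeff l), hjO _⟩ := Subtype.ext (hAc q χ l)
    rw [h2, map_add, map_mul, map_mul, map_sub, map_one, hτr, sub_self, zero_mul, one_mul,
      zero_add, coeff_map (i₂.toRingHom)]
    rfl
  have hAd : ∀ q, ∀ χ ∈ (f (Sum.inr q)).support, (A q χ).natDegree ≤ D q := by
    intro q χ hχ
    refine natDegree_add_le_of_degree_le ?_ ?_
    · exact (natDegree_C_mul_le _ _).trans (natDegree_map_le.trans (hd0 q χ))
    · exact (natDegree_C_mul_le _ _).trans (natDegree_map_le.trans (hd1 q χ hχ))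
  have hAt : ∀ q, ∀ χ ∈ (f (Sum.inr q)).support,
      (((a q χ).map i.toRingHom).map i₂.toRingHom).coeff (D q) =
        cst (fun q => f (Sum.inr q)) (fun l => i₂ (i (φ₀ (x l)))) q χ := by
    intro q χ hχ
    rw [coeff_map, ht1 q χ hχ]
    change (i₂ (i (algebraMap ℂ k (f (Sum.inr q) χ) * mon (fun j => φ₀ (x j)) χ)) :
        IsLocalRing.ResidueField O) = algebraMap ℂ (IsLocalRing.ResidueField O)
        (f (Sum.inr q) χ) * mon (fun l => i₂ (i (φ₀ (x l)))) χ
    rw [map_mul, map_mul, AlgHom.commutes, AlgHom.commutes]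
    congr 1
    unfold mon
    rw [map_prod, map_prod]
    exact Finset.prod_congr rfl fun l _ => by rw [map_zpow₀, map_zpow₀]
  have hV : VF x f Δ.ray (fun l => i₂ (i (φ₀ (x l)))) 1 := by
    have h1 := hVF.map (i₂.comp i)
    have h2 : (fun v : V => (i₂.comp i) ((1 : V → k) v)) =
        (1 : V → IsLocalRing.ResidueField O) := by
      funext v
      exact map_one _
    rw [h2] at h1
    exact h1
  obtain ⟨σ, y, τ', z, hb, hl, hv⟩ := chain_sec hstep O hO
    ((i₂.comp (i.comp φ₀)).comp (KBf x).val) (fun l => i₂ (i (φ₀ (x l)))) hx0 (fun l => rfl) A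
    (fun q χ => ((a q χ).map i.toRingHom).map i₂.toRingHom) D hA hAd hAt m hm Y' hY'
    (fun v => by rw [hlc', hlcY, map_one]) hF' hV
  refine ⟨IsLocalRing.ResidueField O, inferInstance, inferInstance, inferInstance, i₂.comp i, σ,
    y, τ', z, ?_, hl, hv⟩
  have h3 : (fun q χ => (a q χ).map (i₂.comp i).toRingHom) =
      fun q χ => ((a q χ).map i.toRingHom).map i₂.toRingHom := by
    funext q χ
    rw [Polynomial.map_map]
    rfl
  rw [h3]
  exact hb

end Pool.Agent.Work.WRC
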