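import Mathlib
import Pool.Agent.Work.MP_4329d7_ag_wrc.SpzMap
import Pool.Agent.Work.MP_4329d7_ag_wrc.Defs2

/-!
W-RC: base change and gauge transformations of teeth.
-/

namespace Pool.Agent.Work.WRC

open Polynomial Pool.Agent.Work.CI Pool.Agent.Work.CW Pool.Agent.Work.MP_4329d7_ag_sq

variable {K : Type} [Field K] [Algebra ℂ K] {dB r : ℕ} {B Q V : Type} [Fintype V]
  {x : Fin (dB + r) → K} {f : B ⊕ Q → Lau (dB + r)} {ray : V → Fin r → ℤ} {k : Type} [Field k]
  [Algebra ℂ k]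

/-- base change of teeth -/
theorem Tooth.map [Fintype Q] {k' : Type} [Field k'] [Algebra ℂ k'] (e : k →ₐ[ℂ] k')
    {x' : Fin (dB + r) → k} {Z : V → k} {n : V → ℕ} {T : V → k[X]}
    (h : Tooth x f ray x' Z n T) :
    Tooth x f ray (fun j => e (x' j)) (fun v => e (Z v)) n
      (fun v => (T v).map (e : k →+* k')) := by
  have hcst : ∀ (q : Q) (χ : Fin (dB + r) → ℤ),
      Polynomial.C (cst (fun q => f (Sum.inr q)) (fun j => e (x' j)) q χ) =
      (Polynomial.C (cst (fun q => f (Sum.inr q)) x' q χ)).map (e : k →+* k') := by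
    intro q χ
    rw [map_C, cst_map e]
    rfl
  obtain ⟨φ, hφ⟩ := h.hom
  refine ⟨h.rel, h.span, fun v => ?_, fun v => Spz.degLE_map _ (h.deg v), fun v => ?_,
    ⟨(rmapA e).comp φ, fun j => ?_⟩, ?_, ?_⟩
  · rw [Ne, Polynomial.map_eq_zero]
    exact h.ne v
  · rw [Spz.lc_map, h.top]
    rfl
  · rw [AlgHom.comp_apply, hφ, map_mul, map_prod]
    congr 1
    · rw [rmapA_apply, rmap_C]
      rfl
    · refine Finset.prod_congr rfl fun v _ => ?_
      rw [map_zpow₀, rmapA_apply, rmap_algebraMap]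
  · simp only [hcst]
    exact h.free.map _
  · simp only [hcst]
    exact h.vfree.map _

/-- gauge transformation of teeth -/
theorem Tooth.gauge_of {x' x'' : Fin (dB + r) → k} {Z Z' : V → k} {n : V → ℕ} {T : V → k[X]}
    (h : Tooth x f ray x' Z n T) (μ : V → k) (hμ : ∀ v, μ v ≠ 0) (hZ : ∀ v, Z' v = μ v * Z v)
    (hx : ∀ j, x' j = x'' j * ∏ v, μ v ^ (fibv (ray v) : Fin (dB + r) → ℤ) j) :
    Tooth x f ray x'' Z' n (fun v => Polynomial.C (μ v) * T v) := by
  have hU : ∀ q, ∀ χ ∈ (coxF f ray).supp q,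
      Polynomial.C (cst (fun q => f (Sum.inr q)) x'' q χ) *
        ∏ v, Polynomial.C (μ v) ^ (coxF f ray).e q χ v =
      Polynomial.C (∏ v, μ v ^ (-mn (f (Sum.inr q)) (fibv (ray v)))) *
        Polynomial.C (cst (fun q => f (Sum.inr q)) x' q χ) := by
    intro q χ hχ
    have h8 := cst_gauge (fun q => f (Sum.inr q)) (fun v => fibv (ray v)) hμ hx hχ
    rw [← C_mul, ← h8, C_mul, map_prod]
    simp only [C_pow]
    rfl
  obtain ⟨φ, hφ⟩ := h.hom
  refine ⟨h.rel, h.span, fun v => mul_ne_zero (C_ne_zero.2 (hμ v)) (h.ne v),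
    fun v => (h.deg v).C_mul _, fun v => ?_, ⟨φ, fun j => ?_⟩,
    h.free.gauge (fun q => Finset.prod_ne_zero_iff.2 fun v _ => zpow_ne_zero _ (hμ v)) hU,
    h.vfree.gauge (fun q => Finset.prod_ne_zero_iff.2 fun v _ => zpow_ne_zero _ (hμ v)) hU⟩
  · rw [lc_C_mul, h.top, hZ]
  · rw [hφ, hx]
    simp only [map_mul, mul_zpow, Finset.prod_mul_distrib, RatFunc.algebraMap_C, map_prod,
      map_zpow₀]
    ring

/-- gauge transformation of teeth -/
theorem Tooth.gauge {x' : Fin (dB + r) → k} {Z : V → k} {n : V → ℕ} {T : V → k[X]}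
    (h : Tooth x f ray x' Z n T) (μ : V → k) (hμ : ∀ v, μ v ≠ 0) :
    Tooth x f ray (fun j => x' j * ∏ v, μ v ^ (-(fibv (ray v) : Fin (dB + r) → ℤ) j))
      (fun v => μ v * Z v) n (fun v => Polynomial.C (μ v) * T v) := by
  refine h.gauge_of μ hμ (fun v => rfl) fun j => ?_
  rw [mul_assoc, ← Finset.prod_mul_distrib, Finset.prod_eq_one, mul_one]
  intro v _
  rw [← zpow_add₀ (hμ v), neg_add_cancel, zpow_zero]

/-- a tooth in an arbitrary field gives a very free curve -/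
theorem Tooth.vf [IsAlgClosed k] {x' : Fin (dB + r) → k} {Z : V → k} {n : V → ℕ} {T : V → k[X]}
    (h : Tooth x f ray x' Z n T) : VF x f ray x' Z :=
  (vf_iff x f ray x' Z).2 ⟨k, inferInstance, inferInstance, inferInstance, AlgHom.id ℂ k, n, T, h⟩

/-- a tooth over an extension gives a very free curve -/
theorem Tooth.vf_of [Fintype Q] {k' : Type} [Field k'] [Algebra ℂ k'] (e : k →ₐ[ℂ] k')
    {x' : Fin (dB + r) → k} {Z : V → k} {n : V → ℕ} {T : V → k'[X]}
    (h : Tooth x f ray (fun j => e (x' j)) (fun v => e (Z v)) n T) : VF x f ray x' Z := by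
  let i : k' →ₐ[ℂ] AlgebraicClosure k' := IsScalarTower.toAlgHom ℂ k' (AlgebraicClosure k')
  refine (vf_iff x f ray x' Z).2 ⟨AlgebraicClosure k', inferInstance, inferInstance,
    inferInstance, i.comp e, n, fun v => (T v).map (i : k' →+* AlgebraicClosure k'), ?_⟩
  exact h.map i

end Pool.Agent.Work.WRC
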