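import Mathlib
import Pool.Agent.Work.MP_4329d7_ag_wrc.FinIn
import Pool.Agent.Work.MP_4329d7_ag_wrc.NDb
import Pool.Agent.Work.MP_4329d7_ag_wrc.ToothMap
import Pool.Agent.Work.MP_4329d7_ag_wrc.Sec

/-!
W-RC, module `FinA` (items (1) to (4) of note 3488): the input `FinIn` of the final step from the
family of the base (`exists_fam`), the section theorem and a tooth at the point at infinity.
-/

namespace Pool.Agent.Work.WRC

open Polynomial Pool.Agent.Work.CI Pool.Agent.Work.MP_4329d7_ag_sq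

theorem rmapA_rmapA {F F' F'' : Type} [Field F] [Algebra ℂ F] [Field F'] [Algebra ℂ F'] [Field F'']
    [Algebra ℂ F''] (g : F' →ₐ[ℂ] F'') (h : F →ₐ[ℂ] F') (a : RatFunc F) :
    rmapA g (rmapA h a) = rmapA (g.comp h) a := by
  have h1 : (rmap (g : F' →+* F'')).comp (rmap (h : F →+* F')) =
      rmap ((g.comp h : F →ₐ[ℂ] F'') : F →+* F'') := by
    refine ratFunc_hom_ext (fun c => ?_) ?_
    · simp
    · simp
  exact congrArg (fun u => u a) h1

variable {K : Type} [Field K] [Algebra ℂ K] {n dB r : ℕ} {B Q : Type} [Fintype B] [Fintype Q]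
  {x : Fin (dB + r) → K} {f : B ⊕ Q → Lau (dB + r)} {V : Type} [Fintype V] [DecidableEq V]

omit [Fintype B] [Fintype Q] in
/-- base change of `LimInf` -/
theorem LimInf.map_ring {Δ : FanV V r} {k k' : Type} [Field k] [Field k'] (g : k →+* k')
    {σ τ : Finset V} {y : Fin r → RatFunc k} {z : Fin r → k} (h : LimInf Δ σ y τ z) :
    LimInf Δ σ (fun j => rmap g (y j)) τ (fun j => g (z j)) := by
  obtain ⟨h1, h2, w, h3, h4, h5, h6⟩ := h
  refine ⟨h1, h2, fun v => rmap g (w v), fun v => ?_, fun v hv => ?_, fun v hv hv' => ?_,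
    fun j => ⟨?_, ?_⟩⟩
  · exact (map_ne_zero_iff _ (rmap g).injective).2 (h3 v)
  · beta_reduce
    rw [h4 v hv, map_one]
  · have h7 := (h5 v hv hv').map g
    rwa [map_zero] at h7
  · exact (map_ne_zero_iff _ g.injective).2 (h6 j).1
  · have h7 := (h6 j).2.map g
    rw [map_mul, map_prod] at h7
    simpa only [map_zpow₀] using h7

/-- the base equations hold on a curve of the base -/
theorem beq_of_base (T : Tot n dB r B Q x f) (hE : ∀ q, ev (resB (f (Sum.inl q))) (xB x) = 0)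
    {F : Type} [Field F] [Algebra ℂ F] (φ : KBf x →ₐ[ℂ] F) (X : Fin (dB + r) → F)
    (hX : ∀ j, φ (xB x j) = X (Fin.castAdd r j)) (q : B) : ev (f (Sum.inl q)) X = 0 := by
  rw [← ev_resL (T.base q)]
  have h1 := congrArg φ (hE q)
  rw [Pool.Agent.Work.CW.map_ev φ, map_zero, resB_eq (T.base q)] at h1
  rw [← h1]
  congr 1
  funext j
  exact (hX j).symm

/-- All the data of `FinIn` except for the generic pair of the base. -/
structure FinCore (x : Fin (dB + r) → K) (f : B ⊕ Q → Lau (dB + r)) (Δ : FanV V r) (F : Type)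
    [Field F] [Algebra ℂ F] (φB : KBf x →ₐ[ℂ] RatFunc F)
    (X : Fin (dB + r) → RatFunc F) (σ τ : Finset V) (xb : Fin dB → F) (z : Fin r → F)
    (m : V → ℕ) (W : V → F[X]) (e : F) (Xe : Fin (dB + r) → F)
    (a : Q → (Fin (dB + r) → ℤ) → F[X]) (den : Q → F[X]) (g : F[X]) (N0 : ℤ) : Prop where
  base : ∀ j, φB (xB x j) = X (Fin.castAdd r j)
  bd : BdTot f Δ σ X
  beq : ∀ q : B, ev (f (Sum.inl q)) X = 0
  xb_ne : ∀ j, xb j ≠ 0
  inf : ∀ j, Inf (X (Fin.castAdd r j)) (xb j)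
  lim : LimInf Δ σ (fun j => X (Fin.natAdd dB j)) τ z
  tooth : Tooth x f Δ.ray (Fin.append xb z) (ind F τ) m W
  xe_ne : ∀ j, Xe j ≠ 0
  xe : ∀ j, Inf (mobA e (X j)) (Xe j)
  defd : DefD f Δ σ m (fun j => mobA e (X j)) Xe a den g N0

/-- **FinA** without the generic pair of the base, from the output of the section theorem -/
theorem exists_finCore_of (T : Tot n dB r B Q x f) {Δ : FanV V r} (hΔ : Δ.Adapted f) {nB : ℕ}
    (htr : Algebra.trdeg ℂ (KBf x) = nB) (hdim : nB + Fintype.card B = dB)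
    {k : Type} [Field k] [Algebra ℂ k] {φB : KBf x →ₐ[ℂ] RatFunc k} (φ₀ : K →ₐ[ℂ] k)
    {a₀ : Q → (Fin (dB + r) → ℤ) → k[X]} {D₀ : Q → ℕ}
    (hfam : IsFam x f φB (fun j => φ₀ (x j)) a₀ D₀)
    {k₂ : Type} [Field k₂] [Algebra ℂ k₂] (i : k →ₐ[ℂ] k₂) {σ τ : Finset V}
    {y : Fin r → RatFunc k₂} {z₂ : Fin r → k₂}
    (hbd : BdSec Δ f (fun q χ => (a₀ q χ).map i.toRingHom) σ y) (hlim : LimInf Δ σ y τ z₂)
    (hVF : VF x f Δ.ray (mulF (fun j => i (φ₀ (x j))) z₂) (ind k₂ τ)) :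
    ∃ (F : Type) (_ : Field F) (_ : Algebra ℂ F) (_ : IsAlgClosed F) (u : k →ₐ[ℂ] F)
      (X : Fin (dB + r) → RatFunc F) (xb : Fin dB → F)
      (z : Fin r → F) (m : V → ℕ) (W : V → F[X]) (e : F) (Xe : Fin (dB + r) → F)
      (a : Q → (Fin (dB + r) → ℤ) → F[X]) (den : Q → F[X]) (g : F[X]) (N0 : ℤ),
      FinCore x f Δ F ((rmapA u).comp φB) X σ τ xb z m W e Xe a den g N0 := by
  have hx := T.data.ne
  have hx₀ : ∀ j, φ₀ (x j) ≠ 0 := fun j => (map_ne_zero_iff _ φ₀.toRingHom.injective).2 (hx j)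
  -- the section of the whole intersection
  have hbd₂ : BdTot f Δ σ (totX x i φB (fun j => φ₀ (x j)) y) := bdTot_of_bdSec hfam hx hx₀ i hbd
  -- the tooth
  obtain ⟨k', _, _, _, i', m, W', hW'⟩ := (vf_iff _ _ _ _ _).1 hVF
  -- the coordinate
  obtain ⟨F, _, _, _, j, e, E, -, hEC, hEX, hInf⟩ := moebius i'
  have hbdF := hbd₂.map (rmapA (j.comp i'))
  have hbdM := hbdF.map (mobA e)
  have hE0 : ∀ l, E (totX x i φB (fun j => φ₀ (x j)) y l) ≠ 0 := fun l =>
    (map_ne_zero_iff _ E.toRingHom.injective).2 (hbd₂.ne l)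
  have hbase₂ : ∀ l, totX x i φB (fun j => φ₀ (x j)) y (Fin.castAdd r l) =
      rmapA i (φB (xB x l)) := by
    intro l
    unfold totX
    rw [Fin.append_left]
  have hbase : ∀ l, ((rmapA ((j.comp i').comp i)).comp φB) (xB x l) =
      rmapA (j.comp i') (totX x i φB (fun j => φ₀ (x j)) y (Fin.castAdd r l)) := by
    intro l
    rw [hbase₂, rmapA_rmapA]
    rfl
  -- teeth over `F`
  have hW : Tooth x f Δ.ray (Fin.append (fun l => j (i' (i (φ₀ (x (Fin.castAdd r l))))))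
      fun l => j (i' (i (φ₀ (x (Fin.natAdd dB l))) * z₂ l))) (ind F τ) m
      (fun v => (W' v).map (j : k' →+* F)) := by
    have h1 := hW'.map j
    have h2 : (fun l => j (i' (mulF (fun j => i (φ₀ (x j))) z₂ l))) =
        Fin.append (fun l => j (i' (i (φ₀ (x (Fin.castAdd r l))))))
          fun l => j (i' (i (φ₀ (x (Fin.natAdd dB l))) * z₂ l)) := by
      rw [← append_mulF]
      funext l
      refine Fin.addCases (fun l => ?_) (fun l => ?_) l
      · rw [Fin.append_left, Fin.append_left]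
      · rw [Fin.append_right, Fin.append_right]
    have h3 : (fun v => j (i' (ind k₂ τ v))) = ind F τ := funext fun v => by
      rw [defC_ind_map i' τ v, defC_ind_map j τ v]
    rw [h2, h3] at h1
    exact h1
  -- the type of the tooth is positive on `σ`
  have hm : ∀ v ∈ σ, m v ≠ 0 := by
    intro v hv h0
    have h1 := hW.top v
    have h2 := hW.deg v
    have h3 : ind F τ v = 0 := by
      unfold ind
      rw [if_pos (hlim.2.1 hv)]
    rw [h3] at h1
    rw [h0] at h1 h2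
    refine hW.ne v ?_
    have h4 := degLE_iff.1 h2
    rw [lc_of_nat] at h1
    rw [eq_C_of_natDegree_le_zero h4, h1, C_0]
  obtain ⟨a, den, g, N0, hD⟩ := defC T hΔ (data_base T htr hdim) hbdM
    (xi := fun l => E (totX x i φB (fun j => φ₀ (x j)) y l)) (fun l => hInf _) hE0
    (E.comp ((rmapA i).comp φB)) (fun l => by
      rw [hbase₂]
      rfl)
    ((mobA e).comp ((rmapA ((j.comp i').comp i)).comp φB)) (fun l => by
      rw [AlgHom.comp_apply, hbase]) hW.span hm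
  refine ⟨F, inferInstance, inferInstance, inferInstance, (j.comp i').comp i,
    fun l => rmapA (j.comp i') (totX x i φB (fun j => φ₀ (x j)) y l),
    fun l => j (i' (i (φ₀ (x (Fin.castAdd r l))))),
    fun l => j (i' (i (φ₀ (x (Fin.natAdd dB l))) * z₂ l)), m, fun v => (W' v).map (j : k' →+* F), e,
    fun l => E (totX x i φB (fun j => φ₀ (x j)) y l), a, den, g, N0, ?_⟩
  refine ⟨hbase, hbdF, fun q => beq_of_base T (data_base T htr hdim).eq _ _ hbase q, fun l => ?_, fun l => ?_,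
    ?_, hW, hE0, fun l => hInf _, hD⟩
  · exact (map_ne_zero_iff _ ((j.comp i').comp i).toRingHom.injective).2 (hx₀ _)
  · exact (totX_inf hfam i y l).map ((j.comp i' : k₂ →ₐ[ℂ] F) : k₂ →+* F)
  · exact (totX_lim φB hx₀ i hlim).map_ring ((j.comp i' : k₂ →ₐ[ℂ] F) : k₂ →+* F)

/-- **FinA**, from the output of the section theorem -/
theorem exists_finIn_of (T : Tot n dB r B Q x f) {Δ : FanV V r} (hΔ : Δ.Adapted f) {nB : ℕ}
    (htr : Algebra.trdeg ℂ (KBf x) = nB) (hdim : nB + Fintype.card B = dB)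
    {k : Type} [Field k] [Algebra ℂ k] {iB : KBf x →ₐ[ℂ] k} {φB : KBf x →ₐ[ℂ] RatFunc k}
    (hpair : AIPair iB φB) (φ₀ : K →ₐ[ℂ] k)
    {a₀ : Q → (Fin (dB + r) → ℤ) → k[X]} {D₀ : Q → ℕ}
    (hfam : IsFam x f φB (fun j => φ₀ (x j)) a₀ D₀)
    {k₂ : Type} [Field k₂] [Algebra ℂ k₂] (i : k →ₐ[ℂ] k₂) {σ τ : Finset V}
    {y : Fin r → RatFunc k₂} {z₂ : Fin r → k₂}
    (hbd : BdSec Δ f (fun q χ => (a₀ q χ).map i.toRingHom) σ y) (hlim : LimInf Δ σ y τ z₂)
    (hVF : VF x f Δ.ray (mulF (fun j => i (φ₀ (x j))) z₂) (ind k₂ τ)) :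
    ∃ (F : Type) (_ : Field F) (_ : Algebra ℂ F) (_ : IsAlgClosed F) (iB : KBf x →ₐ[ℂ] F)
      (φB : KBf x →ₐ[ℂ] RatFunc F) (X : Fin (dB + r) → RatFunc F) (xb : Fin dB → F)
      (z : Fin r → F) (m : V → ℕ) (W : V → F[X]) (e : F) (Xe : Fin (dB + r) → F)
      (a : Q → (Fin (dB + r) → ℤ) → F[X]) (den : Q → F[X]) (g : F[X]) (N0 : ℤ),
      FinIn x f Δ F iB φB X σ τ xb z m W e Xe a den g N0 := by
  obtain ⟨F, i1, i2, i3, u, X, xb, z, m, W, e, Xe, a, den, g, N0, hC⟩ :=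
    exists_finCore_of T hΔ htr hdim φ₀ hfam i hbd hlim hVF
  exact ⟨F, i1, i2, i3, u.comp iB, (rmapA u).comp φB, X, xb, z, m,
    W, e, Xe, a, den, g, N0, hpair.map u, hC.base, hC.bd, hC.beq, hC.xb_ne, hC.inf, hC.lim,
    hC.tooth, hC.xe_ne, hC.xe, hC.defd⟩

/-- **FinA**: the input of the final step from `PRC` of the base -/
theorem exists_finIn (T : Tot n dB r B Q x f) (Δ : FanV V r) (hΔ : Δ.Adapted f) {nB : ℕ}
    (htr : Algebra.trdeg ℂ (KBf x) = nB) (hdim : nB + Fintype.card B = dB) (hKH : KHc f)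
    (hstep : StepProp x f Δ)
    (hVF : ∀ (k : Type) [Field k] [Algebra ℂ k] [IsAlgClosed k] (φ₀ : K →ₐ[ℂ] k),
      VF x f Δ.ray (fun j => φ₀ (x j)) 1) (h : PRC (KBf x)) :
    ∃ (F : Type) (_ : Field F) (_ : Algebra ℂ F) (_ : IsAlgClosed F) (σ τ : Finset V)
      (iB : KBf x →ₐ[ℂ] F) (φB : KBf x →ₐ[ℂ] RatFunc F) (X : Fin (dB + r) → RatFunc F)
      (xb : Fin dB → F) (z : Fin r → F) (m : V → ℕ) (W : V → F[X]) (e : F)
      (Xe : Fin (dB + r) → F) (a : Q → (Fin (dB + r) → ℤ) → F[X]) (den : Q → F[X]) (g : F[X])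
      (N0 : ℤ), FinIn x f Δ F iB φB X σ τ xb z m W e Xe a den g N0 := by
  obtain ⟨k, _, _, _, iB, φB, φ₀, a₀, D₀, hp, -, hfam⟩ := exists_fam (f := f) T.data.ne h
  obtain ⟨k₂, _, _, _, i, σ, y, τ, z, hbd, hlim, hV⟩ := sec T Δ hΔ htr hdim hKH hstep φ₀ (hVF k φ₀)
    a₀ D₀ hfam.pos hfam.deg hfam.top
  obtain ⟨F, i1, i2, i3, iB, φB, X, xb, z, m, W, e, Xe, a, den, g, N0, hF⟩ :=
    exists_finIn_of T hΔ htr hdim hp φ₀ hfam i hbd hlim hV
  exact ⟨F, i1, i2, i3, σ, τ, iB, φB, X, xb, z, m, W, e, Xe, a, den, g, N0, hF⟩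

end Pool.Agent.Work.WRC
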