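import Mathlib
import Pool.Agent.Work.MP_4329d7_ag_wrc.FinDefs

/-!
W-RC, positions `c_j / δ` in the field `Om k'`, pairwise independent over `k`.
-/

namespace Pool.Agent.Work.WRC

open Polynomial

section om

variable {k : Type} [Field k]

theorem pos_psO_inj : Function.Injective (psO k) := by
  unfold psO
  exact (algebraMap (LaurentSeries k) (Om k)).injective.comp HahnSeries.ofPowerSeries_injective

theorem pos_delta_ne : delta k ≠ 0 := by
  unfold delta
  rw [Ne, map_eq_zero_iff _ pos_psO_inj]
  exact PowerSeries.X_ne_zero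

theorem eval₂_delta (p : k[X]) : p.eval₂ (cO k) (delta k) = psO k (p : PowerSeries k) := by
  have h : (Polynomial.eval₂RingHom (cO k) (delta k)) =
      (psO k).comp Polynomial.coeToPowerSeries.ringHom := by
    refine Polynomial.ringHom_ext (fun a => ?_) ?_
    · simp [cO]
    · simp [delta]
  exact congrArg (fun g => g p) h

/-- the inverse of the parameter is transcendental -/
theorem eval₂_delta_inv_ne {p : k[X]} (hp : p ≠ 0) : p.eval₂ (cO k) (delta k)⁻¹ ≠ 0 := by
  intro h
  have hd : delta k ≠ 0 := pos_delta_ne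
  let _ : Invertible (delta k)⁻¹ := invertibleOfNonzero (inv_ne_zero hd)
  have h1 := Polynomial.eval₂_reverse_mul_pow (cO k) (delta k)⁻¹ p
  rw [h, invOf_eq_inv, inv_inv] at h1
  have h2 : p.reverse.eval₂ (cO k) (delta k) = 0 :=
    (mul_eq_zero.1 h1).resolve_right (pow_ne_zero _ (inv_ne_zero hd))
  rw [eval₂_delta, map_eq_zero_iff _ pos_psO_inj, Polynomial.coe_eq_zero_iff,
    Polynomial.reverse_eq_zero] at h2
  exact hp h2

end om

theorem pos_cO_alg (k : Type) [Field k] [Algebra ℂ k] (z : ℂ) :
    cO k (algebraMap ℂ k z) = algebraMap ℂ (Om k) z := by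
  rw [IsScalarTower.algebraMap_apply ℂ (LaurentSeries k) (Om k)]
  have h : algebraMap ℂ (LaurentSeries k) z =
      HahnSeries.ofPowerSeries ℤ k (algebraMap ℂ (PowerSeries k) z) := rfl
  rw [h, PowerSeries.algebraMap_apply]
  rfl

/-- positions -/
theorem exists_positions (k : Type) [Field k] [Algebra ℂ k] (L : ℕ) :
    ∃ (k' : Type) (_ : Field k') (_ : Algebra ℂ k') (_ : IsAlgClosed k') (i : k →ₐ[ℂ] k')
      (c : Fin L → k') (e : Fin L → RatFunc k →ₐ[ℂ] Om k'), (∀ j, c j ≠ 0) ∧
      (∀ j a, e j (RatFunc.C a) = cO k' (i a)) ∧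
      (∀ j, e j RatFunc.X * delta k' = cO k' (c j)) ∧
      ∀ j l, j ≠ l → ∀ P : MvPolynomial (Fin 2) k, P ≠ 0 →
        MvPolynomial.eval₂ ((cO k').comp (i : k →+* k')) ![e j RatFunc.X, e l RatFunc.X] P ≠ 0 := by
  classical
  let M := MvPolynomial (Fin L) k
  let F := FractionRing M
  let k' := AlgebraicClosure F
  let i : k →ₐ[ℂ] k' := (IsScalarTower.toAlgHom ℂ F k').comp
    ((IsScalarTower.toAlgHom ℂ M F).comp (IsScalarTower.toAlgHom ℂ k M))
  let ι : M →+* k' := (algebraMap F k').comp (algebraMap M F)
  have hι : Function.Injective ι :=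
    (algebraMap F k').injective.comp (IsFractionRing.injective M F)
  have hιC : ∀ a, ι (MvPolynomial.C a) = i a := fun a => rfl
  let c : Fin L → k' := fun j => ι (MvPolynomial.X j)
  have hc : ∀ j, c j ≠ 0 := fun j => by
    simp only [c]
    rw [Ne, map_eq_zero_iff _ hι]
    exact MvPolynomial.X_ne_zero j
  have hδ : delta k' ≠ 0 := pos_delta_ne
  -- the homomorphisms
  let g : Fin L → k[X] →+* Om k' := fun j =>
    Polynomial.eval₂RingHom ((cO k').comp (i : k →+* k')) (cO k' (c j) * (delta k')⁻¹)
  have hgR : ∀ j p, g j p = ((p.map (i : k →+* k')).comp (C (c j) * X)).eval₂ (cO k')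
      (delta k')⁻¹ := by
    intro j p
    rw [Polynomial.eval₂_comp, Polynomial.eval₂_map]
    simp [g]
  have hg : ∀ j, Function.Injective (g j) := by
    intro j
    rw [injective_iff_map_eq_zero]
    intro p hp
    rw [hgR] at hp
    by_contra hp0
    refine eval₂_delta_inv_ne ?_ hp
    intro h0
    have h1 := congrArg (Polynomial.eval 1) h0
    rw [eval_comp, eval_mul, eval_C, eval_X, mul_one, eval_zero, eval_map] at h1
    have h2 : ι (p.eval₂ MvPolynomial.C (MvPolynomial.X j)) = 0 := by
      rw [Polynomial.hom_eval₂]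
      exact h1
    rw [map_eq_zero_iff _ hι] at h2
    have h3 := MvPolynomial.transcendental_X (R := k) j
    exact (transcendental_iff.1 h3 p h2) |> hp0
  let e : Fin L → RatFunc k →ₐ[ℂ] Om k' := fun j =>
    { toRingHom := IsFractionRing.lift (K := RatFunc k) (hg j)
      commutes' := fun z => by
        change IsFractionRing.lift (hg j) (algebraMap ℂ (RatFunc k) z) = _
        rw [IsScalarTower.algebraMap_apply ℂ k[X] (RatFunc k), IsFractionRing.lift_algebraMap]
        change g j (C (algebraMap ℂ k z)) = _
        simp only [g, coe_eval₂RingHom, eval₂_C, RingHom.comp_apply]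
        change cO k' (i (algebraMap ℂ k z)) = _
        rw [i.commutes, pos_cO_alg] }
  have heC : ∀ j a, e j (RatFunc.C a) = cO k' (i a) := by
    intro j a
    change IsFractionRing.lift (hg j) (RatFunc.C a) = _
    rw [← RatFunc.algebraMap_C, IsFractionRing.lift_algebraMap]
    simp [g]
  have heX : ∀ j, e j RatFunc.X = cO k' (c j) * (delta k')⁻¹ := by
    intro j
    change IsFractionRing.lift (hg j) RatFunc.X = _
    rw [← RatFunc.algebraMap_X, IsFractionRing.lift_algebraMap]
    simp [g]
  refine ⟨k', inferInstance, inferInstance, inferInstance, i, c, e, hc, heC, fun j => ?_,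
    fun j l hjl P hP h0 => ?_⟩
  · rw [heX, mul_assoc, inv_mul_cancel₀ hδ, mul_one]
  · let R : k'[X] := MvPolynomial.eval₂ ((C : k' →+* k'[X]).comp (i : k →+* k'))
      ![C (c j) * X, C (c l) * X] P
    have h1 : R.eval₂ (cO k') (delta k')⁻¹ = 0 := by
      rw [← h0]
      change (Polynomial.eval₂RingHom (cO k') (delta k')⁻¹) R = _
      simp only [R]
      rw [MvPolynomial.eval₂_comp_left]
      congr 1
      · ext a
        simp
      · funext m
        fin_cases m
        · simp [heX]
        · simp [heX]
    refine eval₂_delta_inv_ne ?_ h1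
    intro hR
    have h2 := congrArg (Polynomial.evalRingHom (1 : k')) hR
    simp only [R] at h2
    rw [MvPolynomial.eval₂_comp_left, map_zero] at h2
    have h3 : MvPolynomial.eval₂ (i : k →+* k') ![c j, c l] P = 0 := by
      rw [← h2]
      congr 1
      · ext a
        simp
      · funext m
        fin_cases m
        · simp
        · simp
    have h4 : ι (MvPolynomial.rename ![j, l] P) = 0 := by
      rw [← h3, MvPolynomial.rename_eq_aeval, MvPolynomial.aeval_def,
        MvPolynomial.eval₂_comp_left]
      congr 1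
      funext m
      fin_cases m
      · rfl
      · rfl
    rw [map_eq_zero_iff _ hι] at h4
    have hinj : Function.Injective ![j, l] := by
      intro a b hab
      fin_cases a <;> fin_cases b <;> simp_all
    exact hP (MvPolynomial.rename_injective _ hinj (by rw [h4, map_zero]))

end Pool.Agent.Work.WRC
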