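import Mathlib
import Pool.Agent.Work.MP_4329d7_ag_wrc.SpzMap
import Pool.Agent.Work.MP_4329d7_ag_wrc.FinDefs

/-!
W-RC, final step: a curve with a generic pair of points gives the inductive statement `PRC`.

* `prc_of_pair`: a section whose two general points are independent;
* `indep2_of_plc`, `indep2_of_red`: a pair which specialises to an independent pair is independent;
* `indep2_poly`, `indep2_ps`: pairs of points given by products of polynomials over a ring, over
  the power series at two positions.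
-/

namespace Pool.Agent.Work.WRC

open Polynomial Pool.Agent.Work.CI Pool.Agent.Work.CW Pool.Agent.Work.MP_4329d7_ag_sq

section moebius

namespace PrcPair

variable {E : Type} [Field E]

/-- the substitution `X ↦ s + 1 / X` is defined -/
theorem moebius_ne (s : E) (p : E[X]) (hp : p ≠ 0) :
    p.eval₂ (RatFunc.C : E →+* RatFunc E) (RatFunc.C s + RatFunc.X⁻¹) ≠ 0 := by
  intro h
  have hX : (RatFunc.X : RatFunc E) ≠ 0 := RatFunc.X_ne_zero
  -- `q = p (X + s)`
  have h1 : (taylor s p).eval₂ (RatFunc.C : E →+* RatFunc E) RatFunc.X⁻¹ = 0 := by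
    rw [taylor_apply, eval₂_comp, eval₂_add, eval₂_X, eval₂_C, add_comm]
    exact h
  let _ : Invertible (RatFunc.X⁻¹ : RatFunc E) :=
    ⟨RatFunc.X, mul_inv_cancel₀ hX, inv_mul_cancel₀ hX⟩
  have h2 := (eval₂_reverse_eq_zero_iff (RatFunc.C : E →+* RatFunc E) (RatFunc.X⁻¹)
    (taylor s p)).2 h1
  have h3 : eval₂ (RatFunc.C : E →+* RatFunc E) RatFunc.X (taylor s p).reverse =
      algebraMap E[X] (RatFunc E) (taylor s p).reverse := by
    rw [eval₂_eq_sum_range]
    conv_rhs => rw [(taylor s p).reverse.as_sum_range_C_mul_X_pow]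
    rw [map_sum]
    refine Finset.sum_congr rfl fun i _ => ?_
    rw [map_mul, map_pow, RatFunc.algebraMap_C, RatFunc.algebraMap_X]
  have h4 : algebraMap E[X] (RatFunc E) (taylor s p).reverse = 0 := by
    rw [← h3]
    exact h2
  have h5 : (taylor s p).reverse = 0 := by
    by_contra h5
    exact (Spz.alg_ne h5) h4
  rw [reverse_eq_zero] at h5
  exact hp ((taylor_injective s) (by rw [h5, map_zero]))

end PrcPair

/-- A section whose two general points are independent gives `PRC`. -/
theorem prc_of_pair {K : Type} [Field K] [Algebra ℂ K] {L : Type} [Field L] [Algebra ℂ L]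
    (φ : K →ₐ[ℂ] RatFunc L) (hφ : Indep2 ((CA L).comp φ) ((psiA L).comp φ)) : PRC K := by
  classical
  obtain ⟨I, _, x, hx, h⟩ := hφ
  -- the Moebius transformation
  let s : RatFunc L := RatFunc.X
  let μ : RatFunc (RatFunc L) →+* RatFunc (RatFunc L) :=
    rlift (RatFunc.C : RatFunc L →+* RatFunc (RatFunc L)) (RatFunc.C s + RatFunc.X⁻¹)
      (PrcPair.moebius_ne s)
  have hμC : ∀ c, μ (RatFunc.C c) = RatFunc.C c := fun c => rlift_C _ _ _ c
  have hμX : μ RatFunc.X = RatFunc.C s + RatFunc.X⁻¹ := rlift_X _ _ _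
  let μA : RatFunc (RatFunc L) →ₐ[ℂ] RatFunc (RatFunc L) :=
    { μ with
      commutes' := fun c => by
        change μ (algebraMap ℂ (RatFunc (RatFunc L)) c) = _
        rw [algebraMap_ratFunc, hμC] }
  have hμA : ∀ z, μA z = μ z := fun z => rfl
  -- the value at infinity
  have hXinf : Inf (RatFunc.X⁻¹ : RatFunc (RatFunc L)) 0 := by
    refine ⟨1, X, X_ne_zero, ?_, ?_, ?_⟩
    · rw [natDegree_one]; exact Nat.zero_le _
    · rw [natDegree_X, coeff_one, if_neg one_ne_zero, zero_mul]
    · rw [map_one, RatFunc.algebraMap_X, one_div]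
  have hs : Inf (RatFunc.C s + RatFunc.X⁻¹ : RatFunc (RatFunc L)) s := by
    have := (Inf.const s).add hXinf
    rwa [add_zero] at this
  have hpoly : ∀ p : L[X], Inf (μ (psi L (algebraMap L[X] (RatFunc L) p)))
      (algebraMap L[X] (RatFunc L) p) := by
    intro p
    induction p using Polynomial.induction_on' with
    | add p q hp hq => simp only [map_add]; exact hp.add hq
    | monomial n a =>
      rw [← C_mul_X_pow_eq_monomial]
      simp only [map_mul, map_pow, RatFunc.algebraMap_C, RatFunc.algebraMap_X]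
      have h1 : psi L (RatFunc.C a) = RatFunc.C (RatFunc.C a) := rmap_C _ a
      have h2 : psi L RatFunc.X = RatFunc.X := rmap_X _
      rw [h1, h2, hμC, hμX]
      exact (Inf.const _).mul (hs.pow n)
  have hinf : ∀ z : RatFunc L, Inf (μ (psi L z)) z := by
    intro z
    have h1 : z = algebraMap L[X] (RatFunc L) z.num / algebraMap L[X] (RatFunc L) z.denom :=
      (RatFunc.num_div_denom z).symm
    rw [h1, map_div₀, map_div₀]
    have h2 := (hpoly z.denom).inv (Spz.alg_ne z.denom_ne_zero)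
    have h3 := (hpoly z.num).mul h2
    rwa [← div_eq_mul_inv, ← div_eq_mul_inv] at h3
  -- the algebraic closure
  let e : RatFunc L →ₐ[ℂ] AlgebraicClosure (RatFunc L) :=
    IsScalarTower.toAlgHom ℂ (RatFunc L) (AlgebraicClosure (RatFunc L))
  let ψ : K →ₐ[ℂ] RatFunc (RatFunc L) := μA.comp ((psiA L).comp φ)
  have hψ : ∀ z, ψ z = μ (psi L (φ z)) := fun z => rfl
  refine ⟨AlgebraicClosure (RatFunc L), inferInstance, inferInstance, inferInstance,
    e.comp φ, (rmapA e).comp ψ, fun y => ?_, I, inferInstance, x, hx, ?_⟩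
  · exact (hinf (φ y)).map (e : RatFunc L →+* AlgebraicClosure (RatFunc L))
  · have h1 := h.map' (f := (rmapA e).comp μA) (RingHom.injective ((rmapA e).comp μA).toRingHom)
    convert h1 using 1
    funext j
    rcases j with j | j
    · change RatFunc.C (e (φ (x j))) = rmapA e (μ (RatFunc.C (φ (x j))))
      rw [hμC, rmapA_apply, rmap_C]
      rfl
    · rfl

end moebius

section spec

/-- algebraic independence of a tuple which specialises to an independent one -/
theorem ai_of_plc {F κ : Type} [Field F] [Field κ] [Algebra ℂ F] [Algebra ℂ κ] (P : Plc F κ)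
    (hC : ∀ c : ℂ, P.S (algebraMap ℂ F c) (algebraMap ℂ κ c)) {σ : Type} {y : σ → F} {y' : σ → κ}
    (h : ∀ j, P.S (y j) (y' j)) (hy : AlgebraicIndependent ℂ y') : AlgebraicIndependent ℂ y := by
  rw [algebraicIndependent_iff] at hy ⊢
  intro G hG
  refine hy G ?_
  have key : ∀ G : MvPolynomial σ ℂ, P.S (MvPolynomial.aeval y G) (MvPolynomial.aeval y' G) := by
    intro G
    induction G using MvPolynomial.induction_on with
    | C a =>
      rw [MvPolynomial.aeval_C, MvPolynomial.aeval_C]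
      exact hC a
    | add p q hp hq =>
      rw [map_add, map_add]
      exact P.add hp hq
    | mul_X p n hp =>
      rw [map_mul, map_mul, MvPolynomial.aeval_X, MvPolynomial.aeval_X]
      exact P.mul hp (h n)
  have h1 := key G
  rw [hG] at h1
  exact (P.uniq P.zero h1).symm

/-- homomorphisms which specialise on generators specialise everywhere -/
theorem PrcPair.plc_hom {K L κ : Type} [Field K] [Algebra ℂ K] [Field L] [Field κ] [Algebra ℂ L]
    [Algebra ℂ κ] (P : Plc L κ)
    (hC : ∀ c : ℂ, P.S (algebraMap ℂ L c) (algebraMap ℂ κ c)) {σ : Type} (x : σ → K)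
    (hx : IntermediateField.adjoin ℂ (Set.range x) = ⊤) (p : K →ₐ[ℂ] L) (p' : K →ₐ[ℂ] κ)
    (h : ∀ j, P.S (p (x j)) (p' (x j))) (y : K) : P.S (p y) (p' y) := by
  let N : IntermediateField ℂ K :=
    { carrier := {y | P.S (p y) (p' y)}
      mul_mem' := fun {a b} ha hb => by
        change P.S (p (a * b)) (p' (a * b))
        rw [map_mul, map_mul]
        exact P.mul ha hb
      one_mem' := by
        change P.S (p 1) (p' 1)
        rw [map_one, map_one]
        exact P.one
      add_mem' := fun {a b} ha hb => by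
        change P.S (p (a + b)) (p' (a + b))
        rw [map_add, map_add]
        exact P.add ha hb
      zero_mem' := by
        change P.S (p 0) (p' 0)
        rw [map_zero, map_zero]
        exact P.zero
      algebraMap_mem' := fun c => by
        change P.S (p (algebraMap ℂ K c)) (p' (algebraMap ℂ K c))
        rw [AlgHom.commutes, AlgHom.commutes]
        exact hC c
      inv_mem' := fun a ha => by
        change P.S (p a⁻¹) (p' a⁻¹)
        by_cases h0 : a = 0
        · rw [h0, inv_zero, map_zero, map_zero]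
          exact P.zero
        · rw [map_inv₀, map_inv₀]
          exact P.inv ha ((map_ne_zero p').2 h0) }
  have h1 : IntermediateField.adjoin ℂ (Set.range x) ≤ N := by
    rw [IntermediateField.adjoin_le_iff]
    rintro _ ⟨j, rfl⟩
    exact h j
  rw [hx] at h1
  exact h1 (IntermediateField.mem_top (x := y))

/-- a pair which specialises to an independent pair is independent -/
theorem indep2_of_plc {K L κ : Type} [Field K] [Algebra ℂ K] [Field L] [Field κ] [Algebra ℂ L]
    [Algebra ℂ κ] (P : Plc L κ)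
    (hC : ∀ c : ℂ, P.S (algebraMap ℂ L c) (algebraMap ℂ κ c)) {σ : Type} (x : σ → K)
    (hx : IntermediateField.adjoin ℂ (Set.range x) = ⊤) (p q : K →ₐ[ℂ] L) (p' q' : K →ₐ[ℂ] κ)
    (hp : ∀ j, P.S (p (x j)) (p' (x j))) (hq : ∀ j, P.S (q (x j)) (q' (x j)))
    (h : Indep2 p' q') : Indep2 p q := by
  obtain ⟨I, _, y, hy, hai⟩ := h
  refine ⟨I, inferInstance, y, hy, ai_of_plc P hC (fun j => ?_) hai⟩
  rcases j with j | j
  · exact PrcPair.plc_hom P hC x hx p p' hp (y j)
  · exact PrcPair.plc_hom P hC x hx q q' hq (y j)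

/-- a pair which specialises to an independent pair is independent (over a ring) -/
theorem indep2_of_red {K : Type} [Field K] [Algebra ℂ K] {A B₀ L L₀ : Type} [CommRing A]
    [CommRing B₀] [Field L] [Algebra ℂ L]
    [Field L₀] [Algebra ℂ L₀] (red : A →+* B₀) (iA : A →+* L) (hA : Function.Injective iA)
    (iB : B₀ →+* L₀) (_hB : Function.Injective iB)
    (hC : ∀ c : ℂ, ∃ a : A, iA a = algebraMap ℂ L c ∧ iB (red a) = algebraMap ℂ L₀ c)
    {d : ℕ} (x : Fin d → K) (hx : IntermediateField.adjoin ℂ (Set.range x) = ⊤)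
    (p q : K →ₐ[ℂ] L) (p₀ q₀ : K →ₐ[ℂ] L₀)
    (hp : ∀ j, ∃ a b : A, red b ≠ 0 ∧ p (x j) * iA b = iA a ∧ p₀ (x j) * iB (red b) = iB (red a))
    (hq : ∀ j, ∃ a b : A, red b ≠ 0 ∧ q (x j) * iA b = iA a ∧ q₀ (x j) * iB (red b) = iB (red a))
    (h : Indep2 p₀ q₀) : Indep2 p q := by
  obtain ⟨κ, _, _, g, P, hP⟩ := Spz.exists_plc' iA hA (iB.comp red)
  obtain ⟨_, ω, hω, hc⟩ := Spz.toAlgHom_exists (K := L₀) g
  have hPC : ∀ c : ℂ, P.S (algebraMap ℂ L c) (algebraMap ℂ κ c) := by
    intro c
    obtain ⟨r, h1, h2⟩ := hC c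
    rw [← h1, hc, ← h2]
    exact hP r
  have key : ∀ (z : L) (z₀ : L₀), (∃ a b : A, red b ≠ 0 ∧ z * iA b = iA a ∧
      z₀ * iB (red b) = iB (red a)) → P.S z (ω z₀) := by
    rintro z z₀ ⟨a, b, hb, h1, h2⟩
    have hgb0 : iB (red b) ≠ 0 := fun h0 => hb (_hB (by rw [h0, map_zero]))
    have hgb : g (iB (red b)) ≠ 0 := by rwa [Ne, map_eq_zero]
    have hιb : iA b ≠ 0 := P.ne_zero (hP b) hgb
    have h3 : z = iA a / iA b := by rw [← h1, mul_div_cancel_right₀ _ hιb]
    have h4 : ω z₀ = g (iB (red a)) / g (iB (red b)) := by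
      rw [hω, ← h2, map_mul, mul_div_cancel_right₀ _ hgb]
    rw [h3, h4]
    exact P.div (hP a) (hP b) hgb
  refine indep2_of_plc P hPC x hx p q (ω.comp p₀) (ω.comp q₀)
    (fun j => key _ _ (hp j)) (fun j => key _ _ (hq j)) ?_
  obtain ⟨I, _, y, hy, hai⟩ := h
  refine ⟨I, inferInstance, y, hy, ?_⟩
  have h1 := hai.map' (f := ω) (RingHom.injective ω.toRingHom)
  convert h1 using 1
  funext j
  rcases j with j | j <;> rfl

end spec

section pair

/-- pairs of points given by products of polynomials over a ring -/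
theorem indep2_poly {K : Type} [Field K] [Algebra ℂ K] {d : ℕ} (x : Fin d → K)
    (hx : IntermediateField.adjoin ℂ (Set.range x) = ⊤)
    {A k L : Type} [CommRing A] [Field k] [Field L] [Algebra ℂ k] [Algebra ℂ L]
    (π : A →+* k) (i : A →+* L) (hi : Function.Injective i)
    (hC : ∀ c : ℂ, ∃ r : A, π r = algebraMap ℂ k c ∧ i r = algebraMap ℂ L c)
    {W : Type} [Fintype W] (c c' : W → Fin d → ℤ) (Z Z' : W → A[X])
    (hZ : ∀ w, (Z w).map π ≠ 0) (hZ' : ∀ w, (Z' w).map π ≠ 0)
    (p q : K →ₐ[ℂ] RatFunc L) (p₀ q₀ : K →ₐ[ℂ] RatFunc k)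
    (hp : ∀ j, p (x j) = ∏ w, algebraMap L[X] (RatFunc L) ((Z w).map i) ^ c w j)
    (hq : ∀ j, q (x j) = ∏ w, algebraMap L[X] (RatFunc L) ((Z' w).map i) ^ c' w j)
    (hp₀ : ∀ j, p₀ (x j) = ∏ w, algebraMap k[X] (RatFunc k) ((Z w).map π) ^ c w j)
    (hq₀ : ∀ j, q₀ (x j) = ∏ w, algebraMap k[X] (RatFunc k) ((Z' w).map π) ^ c' w j)
    (h : Indep2 ((CA k).comp p₀) ((psiA k).comp q₀)) :
    Indep2 ((CA L).comp p) ((psiA L).comp q) := by
  have hne : ∀ Z : A[X], Z.map π ≠ 0 → Z.map i ≠ 0 := by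
    intro Z hZ h
    rw [Polynomial.map_eq_zero_iff hi] at h
    exact hZ (by rw [h, Polynomial.map_zero])
  -- the maps of the polynomial ring in two variables
  let ρ : A[X][X] →+* k[X][X] := mapRingHom (mapRingHom π)
  let j2 : k[X][X] →+* RatFunc (RatFunc k) :=
    (algebraMap (RatFunc k)[X] (RatFunc (RatFunc k))).comp (mapRingHom
      (algebraMap k[X] (RatFunc k)))
  let π2 : A[X][X] →+* RatFunc (RatFunc k) := j2.comp ρ
  have hj2 : Function.Injective j2 :=
    (IsFractionRing.injective (RatFunc k)[X] (RatFunc (RatFunc k))).comp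
      (Polynomial.map_injective _ (IsFractionRing.injective k[X] (RatFunc k)))
  let ι2 : A[X][X] →+* RatFunc (RatFunc L) :=
    (algebraMap (RatFunc L)[X] (RatFunc (RatFunc L))).comp (mapRingHom
      ((algebraMap L[X] (RatFunc L)).comp (mapRingHom i)))
  have hinj1 : Function.Injective ((algebraMap L[X] (RatFunc L)).comp (mapRingHom i)) :=
    (IsFractionRing.injective L[X] (RatFunc L)).comp (Polynomial.map_injective i hi)
  have hinj2 : Function.Injective ι2 :=
    (IsFractionRing.injective (RatFunc L)[X] (RatFunc (RatFunc L))).comp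
      (Polynomial.map_injective _ hinj1)
  have hπC : ∀ Z : A[X], π2 (C Z) = RatFunc.C (algebraMap k[X] (RatFunc k) (Z.map π)) := by
    intro Z
    change algebraMap (RatFunc k)[X] (RatFunc (RatFunc k))
      (((C Z).map (mapRingHom π)).map (algebraMap k[X] (RatFunc k))) = _
    rw [map_C, map_C, RatFunc.algebraMap_C]
    rfl
  have hιC : ∀ Z : A[X], ι2 (C Z) = RatFunc.C (algebraMap L[X] (RatFunc L) (Z.map i)) := by
    intro Z
    change algebraMap (RatFunc L)[X] (RatFunc (RatFunc L)) ((C Z).map _) = _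
    rw [map_C, RatFunc.algebraMap_C]
    rfl
  have hπX : ∀ Z : A[X], π2 (Z.map C) = psi k (algebraMap k[X] (RatFunc k) (Z.map π)) := by
    intro Z
    change algebraMap (RatFunc k)[X] (RatFunc (RatFunc k))
      (((Z.map C).map (mapRingHom π)).map (algebraMap k[X] (RatFunc k))) = _
    unfold psi
    rw [rmap_algebraMap, Polynomial.map_map, Polynomial.map_map, Polynomial.map_map]
    congr 2
    refine RingHom.ext fun a => ?_
    change algebraMap k[X] (RatFunc k) ((C a).map π) = _
    rw [map_C, RatFunc.algebraMap_C]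
    rfl
  have hιX : ∀ Z : A[X], ι2 (Z.map C) = psi L (algebraMap L[X] (RatFunc L) (Z.map i)) := by
    intro Z
    change algebraMap (RatFunc L)[X] (RatFunc (RatFunc L)) ((Z.map C).map _) = _
    unfold psi
    rw [rmap_algebraMap, Polynomial.map_map, Polynomial.map_map]
    congr 2
    refine RingHom.ext fun a => ?_
    change algebraMap L[X] (RatFunc L) ((C a).map i) = _
    rw [map_C, RatFunc.algebraMap_C]
    rfl
  refine indep2_of_red ρ ι2 hinj2 j2 hj2 (fun z => ?_) x hx _ _ _ _ (fun j => ?_) (fun j => ?_) h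
  · obtain ⟨r, h1, h2⟩ := hC z
    refine ⟨C (C r), ?_, ?_⟩
    · rw [hιC, map_C, h2, RatFunc.algebraMap_C, algebraMap_ratFunc, algebraMap_ratFunc]
    · change π2 (C (C r)) = _
      rw [hπC, map_C, h1, RatFunc.algebraMap_C, algebraMap_ratFunc, algebraMap_ratFunc]
  · refine ⟨C (∏ w, Z w ^ (c w j).toNat), C (∏ w, Z w ^ (-c w j).toNat), ?_, ?_, ?_⟩
    · intro h0
      have h1 : π2 (C (∏ w, Z w ^ (-c w j).toNat)) = 0 := by
        change j2 (ρ _) = 0
        rw [h0, map_zero]
      rw [hπC, map_eq_zero] at h1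
      refine Spz.alg_ne ?_ h1
      rw [Polynomial.map_prod]
      refine Finset.prod_ne_zero_iff.2 fun w _ => ?_
      rw [Polynomial.map_pow]
      exact pow_ne_zero _ (hZ w)
    · change RatFunc.C (p (x j)) * ι2 _ = ι2 _
      rw [hιC, hιC, ← map_mul, hp]
      congr 1
      simp only [Polynomial.map_prod, Polynomial.map_pow, map_prod, map_pow]
      exact Spz.prod_zpow_eq (fun w => algebraMap L[X] (RatFunc L) ((Z w).map i))
        (fun w => Spz.alg_ne (hne _ (hZ w))) (fun w => c w j)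
    · change RatFunc.C (p₀ (x j)) * π2 _ = π2 _
      rw [hπC, hπC, ← map_mul, hp₀]
      congr 1
      simp only [Polynomial.map_prod, Polynomial.map_pow, map_prod, map_pow]
      exact Spz.prod_zpow_eq (fun w => algebraMap k[X] (RatFunc k) ((Z w).map π))
        (fun w => Spz.alg_ne (hZ w)) (fun w => c w j)
  · refine ⟨(∏ w, Z' w ^ (c' w j).toNat).map C, (∏ w, Z' w ^ (-c' w j).toNat).map C,
      ?_, ?_, ?_⟩
    · intro h0
      have h1 : π2 ((∏ w, Z' w ^ (-c' w j).toNat).map C) = 0 := by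
        change j2 (ρ _) = 0
        rw [h0, map_zero]
      rw [hπX, map_eq_zero] at h1
      refine Spz.alg_ne ?_ h1
      rw [Polynomial.map_prod]
      refine Finset.prod_ne_zero_iff.2 fun w _ => ?_
      rw [Polynomial.map_pow]
      exact pow_ne_zero _ (hZ' w)
    · change psi L (q (x j)) * ι2 _ = ι2 _
      rw [hιX, hιX, ← map_mul, hq]
      congr 1
      simp only [Polynomial.map_prod, Polynomial.map_pow, map_prod, map_pow]
      exact Spz.prod_zpow_eq (fun w => algebraMap L[X] (RatFunc L) ((Z' w).map i))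
        (fun w => Spz.alg_ne (hne _ (hZ' w))) (fun w => c' w j)
    · change psi k (q₀ (x j)) * π2 _ = π2 _
      rw [hπX, hπX, ← map_mul, hq₀]
      congr 1
      simp only [Polynomial.map_prod, Polynomial.map_pow, map_prod, map_pow]
      exact Spz.prod_zpow_eq (fun w => algebraMap k[X] (RatFunc k) ((Z' w).map π))
        (fun w => Spz.alg_ne (hZ' w)) (fun w => c' w j)

/-- the expansion of a product of polynomials at a position -/
theorem PrcPair.exists_subst {k L : Type} [Field k] [Field L] [Algebra ℂ L]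
    (g : PowerSeries k →+* L) (hg : Function.Injective g) (a : k) :
    ∃ σ : RatFunc L →ₐ[ℂ] RatFunc L, (∀ c, σ (RatFunc.C c) = RatFunc.C c) ∧
      σ RatFunc.X = RatFunc.C (g PowerSeries.X) * RatFunc.X + RatFunc.C (g (PowerSeries.C a)) ∧
      ∀ {W : Type} [Fintype W] (c : W → ℤ) (Y Z : W → (PowerSeries k)[X]) (m : W → ℕ),
        (∀ w, ex a (Y w) = eps k ^ m w * Z w) → ∑ w, c w * m w = 0 →
        σ (∏ w, algebraMap L[X] (RatFunc L) ((Y w).map g) ^ c w) =
          ∏ w, algebraMap L[X] (RatFunc L) ((Z w).map g) ^ c w := by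
  classical
  set e : L := g PowerSeries.X with he
  have he0 : e ≠ 0 := by
    intro h
    exact PowerSeries.X_ne_zero (hg (by rw [map_zero]; exact h))
  set α : L := g (PowerSeries.C a) with hα
  have hsub : ∀ P : (PowerSeries k)[X], (ex a P).map g = (P.map g).comp (C e * X + C α) := by
    intro P
    have h1 : ex a P = P.comp (C (PowerSeries.C a) + eps k * X) := rfl
    rw [h1, Polynomial.map_comp]
    congr 1
    rw [Polynomial.map_add, Polynomial.map_mul, map_C, map_X, add_comm]
    unfold eps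
    rw [map_C]
  obtain ⟨σ, hσ⟩ := Spz.exists_compA (L := L) (C e * X + C α)
    (by rw [natDegree_linear he0]; exact one_ne_zero)
  refine ⟨σ, fun c => ?_, ?_, ?_⟩
  · rw [← RatFunc.algebraMap_C, hσ, C_comp]
  · rw [← RatFunc.algebraMap_X, hσ, X_comp, map_add, map_mul, RatFunc.algebraMap_C,
      RatFunc.algebraMap_C, RatFunc.algebraMap_X]
  · intro W _ c Y Z m hY hm
    have hYZ : ∀ w, ((Y w).map g).comp (C e * X + C α) = C (e ^ m w) * (Z w).map g := by
      intro w
      rw [← hsub, hY, Polynomial.map_mul, Polynomial.map_pow]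
      unfold eps
      rw [map_C, C_pow]
    rw [map_prod]
    have h1 : ∀ w, σ (algebraMap L[X] (RatFunc L) ((Y w).map g) ^ c w) =
        RatFunc.C e ^ (c w * m w) * algebraMap L[X] (RatFunc L) ((Z w).map g) ^ c w := by
      intro w
      rw [map_zpow₀, hσ, hYZ, map_mul, mul_zpow, RatFunc.algebraMap_C, map_pow, ← zpow_natCast,
        ← zpow_mul, mul_comm (m w : ℤ)]
    rw [Finset.prod_congr rfl fun w _ => h1 w, Finset.prod_mul_distrib]
    have hCe : (RatFunc.C e : RatFunc L) ≠ 0 := by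
      rwa [Ne, map_eq_zero]
    have h2 : ∏ w, (RatFunc.C e : RatFunc L) ^ (c w * m w) = 1 := by
      have h3 : ∀ s : Finset W, ∏ w ∈ s, (RatFunc.C e : RatFunc L) ^ (c w * m w) =
          RatFunc.C e ^ ∑ w ∈ s, c w * m w := by
        intro s
        induction s using Finset.induction_on with
        | empty => simp
        | insert a s ha ih => rw [Finset.prod_insert ha, Finset.sum_insert ha, ih, zpow_add₀ hCe]
      rw [h3, hm, zpow_zero]
    rw [h2, one_mul]

/-- two substitutions at the same time -/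
theorem PrcPair.exists_subst2 {L : Type} [Field L] [Algebra ℂ L] (σ : RatFunc L →ₐ[ℂ] RatFunc L)
    (hσ : ∀ c, σ (RatFunc.C c) = RatFunc.C c) (σ' : RatFunc L →ₐ[ℂ] RatFunc L)
    (hσ' : ∀ c, σ' (RatFunc.C c) = RatFunc.C c) (e α : L) (he : e ≠ 0)
    (hX : σ' RatFunc.X = RatFunc.C e * RatFunc.X + RatFunc.C α) :
    ∃ τ : RatFunc (RatFunc L) →ₐ[ℂ] RatFunc (RatFunc L),
      (∀ z, τ (RatFunc.C z) = RatFunc.C (σ z)) ∧ ∀ z, τ (psi L z) = psi L (σ' z) := by
  have he' : (RatFunc.C e : RatFunc L) ≠ 0 := by rwa [Ne, map_eq_zero]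
  obtain ⟨ρ, hρ⟩ := Spz.exists_compA (L := RatFunc L) (C (RatFunc.C e) * X + C (RatFunc.C α))
    (by rw [natDegree_linear he']; exact one_ne_zero)
  have hρC : ∀ z, ρ (RatFunc.C z) = RatFunc.C z := fun z => by
    rw [← RatFunc.algebraMap_C, hρ, C_comp]
  have hρX : ρ RatFunc.X = RatFunc.C (RatFunc.C e) * RatFunc.X + RatFunc.C (RatFunc.C α) := by
    rw [← RatFunc.algebraMap_X, hρ, X_comp, map_add, map_mul, RatFunc.algebraMap_C,
      RatFunc.algebraMap_C, RatFunc.algebraMap_X]
  refine ⟨ρ.comp (rmapA σ), fun z => ?_, fun z => ?_⟩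
  · rw [AlgHom.comp_apply, rmapA_apply, rmap_C, hρC]
    rfl
  · have h1 : ((ρ.comp (rmapA σ) : RatFunc (RatFunc L) →ₐ[ℂ] RatFunc (RatFunc L)) :
        RatFunc (RatFunc L) →+* RatFunc (RatFunc L)).comp (psi L) =
        (psi L).comp (σ' : RatFunc L →+* RatFunc L) := by
      refine ratFunc_hom_ext (fun c => ?_) ?_
      · change ρ (rmap (σ : RatFunc L →+* RatFunc L) (psi L (RatFunc.C c))) =
          psi L (σ' (RatFunc.C c))
        unfold psi
        rw [rmap_C, rmap_C, hσ', rmap_C, hρC]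
        congr 1
        exact hσ c
      · change ρ (rmap (σ : RatFunc L →+* RatFunc L) (psi L RatFunc.X)) =
          psi L (σ' RatFunc.X)
        unfold psi
        rw [rmap_X, rmap_X, hX, hρX, map_add, map_mul, rmap_C, rmap_C, rmap_X]
    exact congrArg (fun φ => φ z) h1

/-- the same pair for a composition -/
theorem Indep2.of_comp {K L L' : Type} [Field K] [Algebra ℂ K] [Field L] [Algebra ℂ L] [Field L']
    [Algebra ℂ L'] (τ : L →ₐ[ℂ] L') {p q : K →ₐ[ℂ] L} (h : Indep2 (τ.comp p) (τ.comp q)) :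
    Indep2 p q := by
  obtain ⟨I, _, y, hy, hai⟩ := h
  refine ⟨I, inferInstance, y, hy, AlgebraicIndependent.of_comp τ ?_⟩
  convert hai using 1
  funext j
  rcases j with j | j <;> rfl

theorem Indep2.comp {K L L' : Type} [Field K] [Algebra ℂ K] [Field L] [Algebra ℂ L] [Field L']
    [Algebra ℂ L'] (τ : L →ₐ[ℂ] L') {p q : K →ₐ[ℂ] L} (h : Indep2 p q) :
    Indep2 (τ.comp p) (τ.comp q) := by
  obtain ⟨I, _, y, hy, hai⟩ := h
  refine ⟨I, inferInstance, y, hy, ?_⟩
  have h1 := hai.map' (f := τ) (RingHom.injective τ.toRingHom)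
  convert h1 using 1
  funext j
  rcases j with j | j <;> rfl

/-- pairs of points of a curve given by products of polynomials over the power series at two
positions -/
theorem indep2_ps {K : Type} [Field K] [Algebra ℂ K] {d : ℕ} (x : Fin d → K)
    (hx : IntermediateField.adjoin ℂ (Set.range x) = ⊤) {k L : Type} [Field k] [Field L]
    [Algebra ℂ k] [Algebra ℂ L] (g : PowerSeries k →+* L) (hg : Function.Injective g)
    (hC : ∀ c : ℂ, g (PowerSeries.C (algebraMap ℂ k c)) = algebraMap ℂ L c)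
    {W : Type} [Fintype W] (c : W → Fin d → ℤ) (Y Z Z' : W → (PowerSeries k)[X]) (a a' : k)
    (m m' : W → ℕ) (hY : ∀ w, ex a (Y w) = eps k ^ m w * Z w)
    (hY' : ∀ w, ex a' (Y w) = eps k ^ m' w * Z' w) (hZ : ∀ w, red (Z w) ≠ 0)
    (hZ' : ∀ w, red (Z' w) ≠ 0) (hm : ∀ j, ∑ w, c w j * m w = 0)
    (hm' : ∀ j, ∑ w, c w j * m' w = 0) (φ : K →ₐ[ℂ] RatFunc L)
    (hφ : ∀ j, φ (x j) = ∏ w, algebraMap L[X] (RatFunc L) ((Y w).map g) ^ c w j)
    (p₀ q₀ : K →ₐ[ℂ] RatFunc k)
    (hp₀ : ∀ j, p₀ (x j) = ∏ w, algebraMap k[X] (RatFunc k) (red (Z w)) ^ c w j)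
    (hq₀ : ∀ j, q₀ (x j) = ∏ w, algebraMap k[X] (RatFunc k) (red (Z' w)) ^ c w j)
    (h : Indep2 ((CA k).comp p₀) ((psiA k).comp q₀)) :
    Indep2 ((CA L).comp φ) ((psiA L).comp φ) := by
  classical
  have he0 : g PowerSeries.X ≠ 0 := by
    intro h
    exact PowerSeries.X_ne_zero (hg (by rw [map_zero]; exact h))
  obtain ⟨σ, hσC, _, hσ⟩ := PrcPair.exists_subst g hg a
  obtain ⟨σ', hσC', hσX', hσ'⟩ := PrcPair.exists_subst g hg a'
  obtain ⟨τ, hτ1, hτ2⟩ := PrcPair.exists_subst2 σ hσC σ' hσC' _ _ he0 hσX'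
  have h1 : Indep2 ((CA L).comp (σ.comp φ)) ((psiA L).comp (σ'.comp φ)) :=
    indep2_poly x hx (PowerSeries.constantCoeff (R := k)) g hg (fun z =>
      ⟨PowerSeries.C (algebraMap ℂ k z), by simp, hC z⟩) c c Z Z' hZ hZ' _ _ p₀ q₀
      (fun j => by
        change σ (φ (x j)) = _
        rw [hφ, hσ (fun w => c w j) Y Z m hY (hm j)])
      (fun j => by
        change σ' (φ (x j)) = _
        rw [hφ, hσ' (fun w => c w j) Y Z' m' hY' (hm' j)])
      hp₀ hq₀ h
  refine Indep2.of_comp τ ?_
  have h2 : τ.comp ((CA L).comp φ) = (CA L).comp (σ.comp φ) := AlgHom.ext fun z => hτ1 (φ z)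
  have h3 : τ.comp ((psiA L).comp φ) = (psiA L).comp (σ'.comp φ) :=
    AlgHom.ext fun z => hτ2 (φ z)
  rw [h2, h3]
  exact h1

end pair

end Pool.Agent.Work.WRC
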