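import Mathlib
import Pool.Agent.Work.MP_4329d7_ag_wrc.StepSec

/-!
W-RC, STEP, the change of coordinate: `CoreProp` (a very free curve through the point `H(0)` gives
one through the point of the handle `H` at infinity) gives `StepProp` (from the point at infinity
to any point `H(a)`), by `X ↦ a + 1 / X`.
-/

namespace Pool.Agent.Work.WRC

open Polynomial Pool.Agent.Work.CI Pool.Agent.Work.CW Pool.Agent.Work.MP_4329d7_ag_sq

section rev

variable {k : Type} [Field k]

/-- the polynomial `X ^ n * p(a + 1 / X)` -/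
noncomputable def revA (p : k[X]) (n : ℤ) (a : k) : k[X] :=
  if 0 ≤ n then reflect n.toNat (taylor a p) else 0

theorem revA_nat (p : k[X]) (n : ℕ) (a : k) : revA p n a = reflect n (taylor a p) := by
  unfold revA
  rw [if_pos (Int.natCast_nonneg n), Int.toNat_natCast]

theorem revA_neg (p : k[X]) {n : ℤ} (hn : n < 0) (a : k) : revA p n a = 0 := by
  unfold revA
  rw [if_neg (by omega)]

theorem taylor_le {p : k[X]} {n : ℕ} (h : p.natDegree ≤ n) (a : k) :
    (taylor a p).natDegree ≤ n := by rwa [natDegree_taylor]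

theorem taylor_top {p : k[X]} {n : ℕ} (h : p.natDegree ≤ n) (a : k) :
    (taylor a p).coeff n = p.coeff n := by
  rcases h.eq_or_lt with h | h
  · rw [← h, coeff_taylor_natDegree]
    rfl
  · rw [coeff_eq_zero_of_natDegree_lt h,
      coeff_eq_zero_of_natDegree_lt (by rwa [natDegree_taylor])]

theorem revA_degLE {p : k[X]} {n : ℤ} (h : DegLE p n) (a : k) : DegLE (revA p n a) n := by
  rcases lt_or_ge n 0 with hn | hn
  · rw [revA_neg p hn]
    exact DegLE.zero n
  · obtain ⟨N, rfl⟩ := Int.eq_ofNat_of_zero_le hn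
    rw [revA_nat]
    intro i hi
    have hi' : N < i := by exact_mod_cast hi
    rw [coeff_reflect, revAt_eq_self_of_lt hi']
    exact coeff_eq_zero_of_natDegree_lt (lt_of_le_of_lt (taylor_le (degLE_iff.1 h) a) hi')

theorem lc_revA {p : k[X]} {n : ℤ} (h : DegLE p n) (a : k) : lc (revA p n a) n = p.eval a := by
  rcases lt_or_ge n 0 with hn | hn
  · rw [h.eq_zero hn, revA_neg _ hn, lc_of_neg hn, eval_zero]
  · obtain ⟨N, rfl⟩ := Int.eq_ofNat_of_zero_le hn
    rw [revA_nat, lc_of_nat, coeff_reflect, revAt_le le_rfl, Nat.sub_self, taylor_coeff_zero]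

theorem revA_eval_zero {p : k[X]} {n : ℤ} (h : DegLE p n) (a : k) :
    (revA p n a).eval 0 = lc p n := by
  rcases lt_or_ge n 0 with hn | hn
  · rw [revA_neg _ hn, lc_of_neg hn, eval_zero]
  · obtain ⟨N, rfl⟩ := Int.eq_ofNat_of_zero_le hn
    rw [revA_nat, lc_of_nat, ← coeff_zero_eq_eval_zero, coeff_reflect,
      revAt_le (Nat.zero_le _), Nat.sub_zero, taylor_top (degLE_iff.1 h)]

theorem revA_eval {p : k[X]} {n : ℤ} (h : DegLE p n) (a : k) {c : k} (hc : c ≠ 0) :
    (revA p n a).eval c = c ^ n * p.eval (a + c⁻¹) := by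
  rcases lt_or_ge n 0 with hn | hn
  · rw [h.eq_zero hn, revA_neg _ hn, eval_zero, eval_zero, mul_zero]
  · obtain ⟨N, rfl⟩ := Int.eq_ofNat_of_zero_le hn
    rw [revA_nat]
    have hinv : Invertible (c⁻¹) := invertibleOfNonzero (inv_ne_zero hc)
    have h1 := eval₂_reflect_mul_pow (RingHom.id k) (c⁻¹) N (taylor a p)
      (taylor_le (degLE_iff.1 h) a)
    rw [invOf_eq_inv, inv_inv, eval₂_id, eval₂_id, taylor_eval] at h1
    have hcN : c ^ N ≠ 0 := pow_ne_zero _ hc
    rw [inv_pow] at h1
    rw [zpow_natCast, add_comm a, ← h1]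
    field_simp

end rev

variable {K : Type} [Field K] [Algebra ℂ K] {dB r : ℕ} {B Q : Type}

/-- the statement of the core of `step` -/
def CoreProp {V : Type} [Fintype V] [DecidableEq V] (x : Fin (dB + r) → K)
    (f : B ⊕ Q → Lau (dB + r)) (Δ : FanV V r) : Prop :=
  ∀ (k : Type) [Field k] [Algebra ℂ k] [IsAlgClosed k] (φ : KBf x →ₐ[ℂ] k)
    (x' : Fin (dB + r) → k), (∀ j, x' j ≠ 0) → (∀ j, φ (xB x j) = x' (Fin.castAdd r j)) →
    ∀ (H : V → k[X]) (N : V → ℤ), (coxF f Δ.ray).Rel N → (∀ v, DegLE (H v) (N v)) →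
    (∀ q, (coxF f Δ.ray).F (fun q χ => C (cst (fun q => f (Sum.inr q)) x' q χ)) q H = 0) →
    (∀ a : k, ∃ τ, Δ.cone τ ∧ ∀ v, (H v).eval a = 0 ↔ v ∈ τ) →
    (∃ τ, Δ.cone τ ∧ ∀ v, lc (H v) (N v) = 0 ↔ v ∈ τ) →
    VF x f Δ.ray x' (fun v => (H v).eval 0) → VF x f Δ.ray x' fun v => lc (H v) (N v)

/-- homogeneity of the equations over a field, with integral exponents -/
theorem F_zpow {V Q X : Type} [Fintype V] {S : Cox V Q X} {k : Type} [Field k] (c : Q → X → k)
    {N : V → ℤ} (hN : S.Rel N) (q : Q) {z : k} (hz : z ≠ 0) (y : V → k) :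
    S.F c q (fun v => z ^ N v * y v) = z ^ S.m N q * S.F c q y := by
  rw [Cox.F_eq, Cox.F_eq, Finset.mul_sum]
  refine Finset.sum_congr rfl fun χ hχ => ?_
  have h1 : ∏ v, (z ^ N v * y v) ^ S.e q χ v = z ^ S.m N q * ∏ v, y v ^ S.e q χ v := by
    simp only [mul_pow, Finset.prod_mul_distrib]
    congr 1
    rw [← Cox.rel_sum hN hχ]
    have h2 : ∀ s : Finset V, ∏ v ∈ s, (z ^ N v) ^ S.e q χ v =
        z ^ ∑ v ∈ s, N v * (S.e q χ v : ℤ) := by
      classical
      intro s
      induction s using Finset.induction_on with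
      | empty => simp
      | insert w s hw ih =>
        rw [Finset.prod_insert hw, Finset.sum_insert hw, ih, zpow_add₀ hz, zpow_mul,
          zpow_natCast]
    exact h2 _
  rw [h1]
  ring

/-- the value of an equation with constant coefficients -/
theorem F_eval_const {V Q X : Type} [Fintype V] {S : Cox V Q X} {k : Type} [Field k]
    (c : Q → X → k) (q : Q) (H : V → k[X]) (a : k) :
    (S.F (fun q χ => (C (c q χ) : k[X])) q H).eval a = S.F c q fun v => (H v).eval a := by
  have h1 := Cox.F_map (C := S) (evalRingHom a) (fun q χ => (C (c q χ) : k[X])) q H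
  simp only [coe_evalRingHom, eval_C] at h1
  exact h1

theorem stepProp_of_core {x : Fin (dB + r) → K} {f : B ⊕ Q → Lau (dB + r)} {V : Type} [Fintype V]
    [DecidableEq V] {Δ : FanV V r} (hcore : CoreProp x f Δ) : StepProp x f Δ := by
  classical
  intro k _ _ _ φ x' hx' hφ H N hN hH hF hz hi hVF a
  have h1 := hcore k φ x' hx' hφ (fun v => revA (H v) (N v) a) N hN
    (fun v => revA_degLE (hH v) a) (fun q => ?_) (fun c => ?_) ?_ ?_
  · have h2 : (fun v => lc (revA (H v) (N v) a) (N v)) = fun v => (H v).eval a :=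
      funext fun v => lc_revA (hH v) a
    rwa [h2] at h1
  · -- the equations
    set P := (coxF f Δ.ray).F (fun q χ => C (cst (fun q => f (Sum.inr q)) x' q χ)) q
      (fun v => revA (H v) (N v) a) with hP
    by_contra hne
    have h2 : ∀ c : k, c ≠ 0 → P.eval c = 0 := by
      intro c hc
      rw [hP, F_eval_const]
      have h3 : (fun v => (revA (H v) (N v) a).eval c) =
          fun v => c ^ N v * (H v).eval (a + c⁻¹) := funext fun v => revA_eval (hH v) a hc
      rw [h3, F_zpow _ hN q hc, ← F_eval_const, hF q, eval_zero, mul_zero]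
    have h3 : ({0}ᶜ : Set k) ⊆ (P.roots.toFinset : Set k) := by
      intro c hc
      rw [Finset.mem_coe, Multiset.mem_toFinset, mem_roots hne]
      exact h2 c hc
    have h4 : ({0}ᶜ : Set k).Finite := (Finset.finite_toSet _).subset h3
    have h5 : Infinite k := IsAlgClosed.instInfinite
    exact (Set.infinite_univ (α := k)) (by
      have := h4.union (Set.finite_singleton (0 : k))
      rwa [Set.compl_union_self] at this)
  · -- zero sets
    rcases eq_or_ne c 0 with rfl | hc
    · obtain ⟨τ, h2, h3⟩ := hi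
      exact ⟨τ, h2, fun v => by rw [revA_eval_zero (hH v), h3 v]⟩
    · obtain ⟨τ, h2, h3⟩ := hz (a + c⁻¹)
      refine ⟨τ, h2, fun v => ?_⟩
      rw [revA_eval (hH v) a hc, mul_eq_zero, h3 v]
      exact ⟨fun h => h.resolve_left (zpow_ne_zero _ hc), Or.inr⟩
  · obtain ⟨τ, h2, h3⟩ := hz a
    exact ⟨τ, h2, fun v => by rw [lc_revA (hH v), h3 v]⟩
  · have h2 : (fun v => (revA (H v) (N v) a).eval 0) = fun v => lc (H v) (N v) :=
      funext fun v => revA_eval_zero (hH v) a
    rwa [h2]

end Pool.Agent.Work.WRC
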