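import Mathlib
import Pool.Agent.Work.MP_4329d7_ag_wrc.Star
import Pool.Agent.Work.MP_4329d7_ag_wrc.StepMob

/-!
# The step, core

`step0`: a family of curves `H` (in Cox coordinates) of the fibre over a point `x'`, generic over the
base; a very free curve through `H(0)` gives a very free curve through `H(∞)`.
-/

namespace Pool.Agent.Work.WRC

open Polynomial Pool.Agent.Work.CI Pool.Agent.Work.MP_4329d7_ag_sq

variable {K : Type} [Field K] [Algebra ℂ K] {n dB r : ℕ} {B Q V : Type} [Fintype B] [Fintype Q]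
  [Fintype V] [DecidableEq V] {x : Fin (dB + r) → K} {f : B ⊕ Q → Lau (dB + r)}

namespace St

omit [Fintype B] [Fintype Q] [Fintype V] [DecidableEq V] in
theorem zsum {F ι : Type*} [Field F] {a : F} (ha : a ≠ 0) (s : Finset ι) (g : ι → ℤ) :
    ∏ i ∈ s, a ^ g i = a ^ ∑ i ∈ s, g i := by
  classical
  induction s using Finset.induction_on with
  | empty => simp
  | insert i s hi ih => rw [Finset.prod_insert hi, Finset.sum_insert hi, ih, zpow_add₀ ha]

/-- the exponents of the coordinates and of the constants -/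
def cc (ray : V → Fin r → ℤ) : V ⊕ Fin (dB + r) → Fin (dB + r) → ℤ :=
  Sum.elim (fun v => fibv (ray v)) fun i => Pi.single i 1

omit [DecidableEq V] in
theorem prod_cc {F : Type} [Field F] (ray : V → Fin r → ℤ) (y : V ⊕ Fin (dB + r) → F)
    (j : Fin (dB + r)) : ∏ w, y w ^ cc ray w j =
      y (Sum.inr j) * ∏ v, y (Sum.inl v) ^ (fibv (ray v) : Fin (dB + r) → ℤ) j := by
  rw [Fintype.prod_sum_type, mul_comm]
  congr 1
  rw [Finset.prod_eq_single j]
  · simp [cc]
  · intro i _ hi
    have h : cc ray (Sum.inr i) j = 0 := by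
      change (Pi.single i 1 : Fin (dB + r) → ℤ) j = 0
      rw [Pi.single_eq_of_ne (Ne.symm hi)]
    rw [h, zpow_zero]
  · intro h
    exact absurd (Finset.mem_univ j) h

omit [DecidableEq V] [Fintype B] [Fintype Q] in
/-- the equations at a curve of the fibre -/
theorem ev_fib {ray : V → Fin r → ℤ} {k : Type} [Field k]
    [Algebra ℂ k] (hbase : ∀ q : B, ∀ χ ∈ (f (Sum.inl q)).support, ∀ k : Fin r,
      χ (Fin.natAdd dB k) = 0)
    {x' : Fin (dB + r) → k} (hb : ∀ q : B, ev (f (Sum.inl q)) x' = 0) {Y : V → k[X]}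
    (hY : ∀ v, Y v ≠ 0)
    (hF : ∀ q, (coxF f ray).F (fun q χ => C (cst (fun q => f (Sum.inr q)) x' q χ)) q Y = 0)
    (q : B ⊕ Q) :
    ev (f q) (fun j => RatFunc.C (x' j) * ∏ v, algebraMap k[X] (RatFunc k) (Y v) ^
      (fibv (ray v) : Fin (dB + r) → ℤ) j) = 0 := by
  rcases q with q | q
  · rw [ev_base (hbase q) (y := fun j => RatFunc.C (x' j)) (fun i => by simp [fibv])]
    have h1 := Pool.Agent.Work.CW.map_ev (F := k) (L := RatFunc k)
      { (RatFunc.C : k →+* RatFunc k) with
        commutes' := fun c => (algebraMap_ratFunc c).symm } (f (Sum.inl q)) x'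
    rw [hb q, map_zero] at h1
    exact h1.symm
  · have h1 := ev_cst (fun q => f (Sum.inr q)) (fun v => fibv (ray v)) x' Y hY q
    rw [h1]
    have h2 : (coxR (fun q => f (Sum.inr q)) fun v => fibv (ray v)).F
        (fun q χ => C (cst (fun q => f (Sum.inr q)) x' q χ)) q Y = 0 := hF q
    rw [h2, map_zero, mul_zero]

omit [DecidableEq V] in
/-- the equations at a tooth -/
theorem tooth_F (T : Tot n dB r B Q x f) {ray : V → Fin r → ℤ} {k : Type} [Field k]
    [Algebra ℂ k] {x' : Fin (dB + r) → k} {Z : V → k} {m : V → ℕ} {W : V → k[X]}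
    (hW : Tooth x f ray x' Z m W) (q : Q) :
    (coxF f ray).F (fun q χ => C (cst (fun q => f (Sum.inr q)) x' q χ)) q W = 0 := by
  obtain ⟨φ, hφ⟩ := hW.hom
  have h1 := ev_cst (fun q => f (Sum.inr q)) (fun v => fibv (ray v)) x' W hW.ne q
  have h2 := Pool.Agent.Work.CW.map_ev φ (f (Sum.inr q)) x
  rw [T.data.eq (Sum.inr q), map_zero] at h2
  have h3 : (fun j => φ (x j)) = fun j => RatFunc.C (x' j) *
    ∏ v, algebraMap k[X] (RatFunc k) (W v) ^ (fibv (ray v) : Fin (dB + r) → ℤ) j :=
    funext hφ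
  rw [h3] at h2
  rw [← h2] at h1
  have h4 := (mul_eq_zero.1 h1.symm).resolve_left
    (Finset.prod_ne_zero_iff.2 fun v _ => zpow_ne_zero _ (Spz.alg_ne (hW.ne v)))
  exact (map_eq_zero_iff _ (RatFunc.algebraMap_injective k)).1 h4

/-- the maps of a combination -/
noncomputable def YY {A : Type*} [CommRing A] (Y : V → A[X]) (u : Fin (dB + r) → A) :
    V ⊕ Fin (dB + r) → A[X] :=
  Sum.elim Y fun i => C (u i)

omit [DecidableEq V] in
/-- **Open**, for teeth. -/
theorem tooth_lift (T : Tot n dB r B Q x f) {ray : V → Fin r → ℤ} {k : Type} [Field k]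
    [Algebra ℂ k] {L : Type} [Field L] [Algebra ℂ L] (g : PowerSeries k →+* L)
    (hg : Function.Injective g)
    (hC : ∀ c : ℂ, g (PowerSeries.C (algebraMap ℂ k c)) = algebraMap ℂ L c)
    {x' : Fin (dB + r) → k} (hx' : ∀ j, x' j ≠ 0) (hb : ∀ q : B, ev (f (Sum.inl q)) x' = 0)
    (Zh : V → PowerSeries k)
    (hZ : ∀ q, (coxF f ray).F (fun q χ => PowerSeries.C (cst (fun q => f (Sum.inr q)) x' q χ)) q
      Zh = 0) {m : V → ℕ} {W : V → k[X]}
    (hW : Tooth x f ray x' (fun v => PowerSeries.constantCoeff (Zh v)) m W) :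
    ∃ W' : V → L[X], Tooth x f ray (fun j => g (PowerSeries.C (x' j))) (fun v => g (Zh v)) m W' := by
  classical
  let a : Q → (Fin (dB + r) → ℤ) → PowerSeries k := fun q χ =>
    PowerSeries.C (cst (fun q => f (Sum.inr q)) x' q χ)
  have ha : (fun q χ => C (PowerSeries.constantCoeff (a q χ)) : Q → _ → k[X]) =
      fun q χ => C (cst (fun q => f (Sum.inr q)) x' q χ) := by
    funext q χ
    simp only [a, PowerSeries.constantCoeff_C]
  let gC : k →ₐ[ℂ] L := { g.comp PowerSeries.C with commutes' := hC }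
  have hcst : ∀ q χ, cst (fun q => f (Sum.inr q)) (fun j => g (PowerSeries.C (x' j))) q χ =
      g (a q χ) := by
    intro q χ
    exact cst_map gC (fun q => f (Sum.inr q)) x' q χ
  obtain ⟨Y, h1, h2, h3, h4, h5⟩ := open_ps (C := coxF f ray) hW.rel (a := a) (Z := Zh) hZ
    hW.deg hW.top (fun v _ => hW.ne v) (by rw [ha]; exact tooth_F T hW)
    (by rw [ha]; exact hW.free) (by rw [ha]; exact hW.vfree)
  obtain ⟨h6, h7⟩ := h5 L g
  have hne : ∀ v, (Y v).map g ≠ 0 := by
    intro v h
    rw [Polynomial.map_eq_zero_iff hg] at h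
    have h8 := h3 v
    rw [h, map_zero] at h8
    exact hW.ne v h8.symm
  have hF : ∀ q, (coxF f ray).F (fun q χ => C (cst (fun q => f (Sum.inr q))
      (fun j => g (PowerSeries.C (x' j))) q χ)) q (fun v => (Y v).map g) = 0 := by
    intro q
    have h8 := (Cox.F_map (C := coxF f ray) (mapRingHom g) (fun q χ => C (a q χ)) q Y).symm
    rw [h4 q, map_zero] at h8
    simp only [coe_mapRingHom, map_C] at h8
    simp only [hcst]
    exact h8
  have hb' : ∀ q : B, ev (f (Sum.inl q)) (fun j => g (PowerSeries.C (x' j))) = 0 := by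
    intro q
    have h8 := Pool.Agent.Work.CW.map_ev gC (f (Sum.inl q)) x'
    rw [hb q, map_zero] at h8
    exact h8.symm
  refine ⟨fun v => (Y v).map g, hW.rel, hW.span, hne, fun v => degLE_map_ring g (h1 v),
    fun v => by rw [lc_map_ring, h2 v], ?_, ?_, ?_⟩
  · obtain ⟨φ0, hφ0⟩ := hW.hom
    obtain ⟨φ1, hφ1⟩ := spz_poly T.data (PowerSeries.constantCoeff (R := k)) g hg
      (fun z => ⟨PowerSeries.C (algebraMap ℂ k z), by simp, hC z⟩) (cc ray)
      (YY Y fun i => PowerSeries.C (x' i)) (by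
        rintro (v | i)
        · change (Y v).map _ ≠ 0
          have h8 := h3 v
          unfold red at h8
          rw [coe_mapRingHom] at h8
          rw [h8]
          exact hW.ne v
        · change (C (PowerSeries.C (x' i))).map _ ≠ 0
          rw [map_C, PowerSeries.constantCoeff_C]
          exact C_ne_zero.2 (hx' i))
      (fun q => by
        have h8 := ev_fib T.base hb' hne hF q
        rw [← h8]
        congr 1
        funext j
        rw [prod_cc]
        congr 1
        change algebraMap L[X] (RatFunc L) ((C (PowerSeries.C (x' j))).map g) = _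
        rw [map_C, RatFunc.algebraMap_C])
      φ0 (fun j => by
        rw [hφ0, prod_cc]
        congr 1
        · change _ = algebraMap k[X] (RatFunc k) ((C (PowerSeries.C (x' j))).map _)
          rw [map_C, RatFunc.algebraMap_C, PowerSeries.constantCoeff_C]
        · refine Finset.prod_congr rfl fun v _ => ?_
          congr 2
          exact (h3 v).symm)
    refine ⟨φ1, fun j => ?_⟩
    rw [hφ1, prod_cc]
    congr 1
    change algebraMap L[X] (RatFunc L) ((C (PowerSeries.C (x' j))).map g) = _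
    rw [map_C, RatFunc.algebraMap_C]
  · simp only [hcst]
    exact h6
  · simp only [hcst]
    exact h7

omit [DecidableEq V] in
/-- **The comb as a very free curve.** -/
theorem comb_vf (T : Tot n dB r B Q x f) {ray : V → Fin r → ℤ} {L : Type} [Field L]
    [Algebra ℂ L] {x' : Fin (dB + r) → L} (hx' : ∀ j, x' j ≠ 0)
    (hb : ∀ q : B, ev (f (Sum.inl q)) x' = 0) {N : V → ℤ} (hN : (coxF f ray).Rel N)
    {Z : V → L} {nn : V → ℕ} {W : V → L[X]} (hW : Tooth x f ray x' Z nn W) {top : V → L}
    (t : ℕ) (hD0 : ∀ v, 0 ≤ N v + t * (2 * nn v))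
    (hD1 : ∀ v, nn v ≠ 0 → N v + t * (2 * nn v) ≠ 0) (Y : V → (PowerSeries L)[X])
    (hY1 : ∀ v, DegLE (Y v) (N v + t * (2 * nn v)))
    (hY2 : ∀ v, lc (Y v) (N v + t * (2 * nn v)) = PowerSeries.C (top v)) (a : L) (c : L)
    (hc : c ≠ 0) (hY3 : ∀ v, ∃ Z, ex a (Y v) = eps L ^ (2 * nn v) * Z ∧
      red Z = C (c ^ (2 * nn v)) * (W v).comp (X ^ 2))
    (hY4 : ∀ q, (coxF f ray).F
      (fun q χ => (C (cst (fun q => f (Sum.inr q)) x' q χ)).map PowerSeries.C) q Y = 0)
    (hY5 : ∀ {L' : Type} [Field L'] (φ : PowerSeries L →+* L'), Function.Injective φ →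
      FreeS (coxF f ray)
        (fun q χ => (C (cst (fun q => f (Sum.inr q)) x' q χ)).map (φ.comp PowerSeries.C))
        (fun v => (Y v).map φ) (fun v => N v + t * (2 * nn v))
        ((coxF f ray).m fun v => N v + t * (2 * nn v)) ∧
      VFreeS (coxF f ray)
        (fun q χ => (C (cst (fun q => f (Sum.inr q)) x' q χ)).map (φ.comp PowerSeries.C))
        (fun v => (Y v).map φ) (fun v => N v + t * (2 * nn v))
        ((coxF f ray).m fun v => N v + t * (2 * nn v))) :
    VF x f ray x' top := by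
  classical
  obtain ⟨k1, _, _, κ, hκ⟩ := exists_acl (PowerSeries L)
  let _ : Algebra ℂ k1 := ((κ.comp PowerSeries.C).comp (algebraMap ℂ L)).toAlgebra
  have hC : ∀ z : ℂ, κ (PowerSeries.C (algebraMap ℂ L z)) = algebraMap ℂ k1 z := fun z => rfl
  let e : L →ₐ[ℂ] k1 := { κ.comp PowerSeries.C with commutes' := fun z => rfl }
  have hcst : ∀ q χ, (C (cst (fun q => f (Sum.inr q)) x' q χ)).map (κ.comp PowerSeries.C) =
      C (cst (fun q => f (Sum.inr q)) (fun j => e (x' j)) q χ) := by
    intro q χ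
    rw [map_C, cst_map e]
    rfl
  obtain ⟨h1, h2⟩ := hY5 κ hκ
  simp only [hcst] at h1 h2
  have hDn : (fun v => (((N v + t * (2 * nn v)).toNat : ℕ) : ℤ)) =
      fun v => N v + t * (2 * nn v) := funext fun v => Int.toNat_of_nonneg (hD0 v)
  choose Z' hZ1 hZ2 using hY3
  have hZ0 : ∀ v, red (Z' v) ≠ 0 := by
    intro v
    rw [hZ2]
    refine mul_ne_zero (C_ne_zero.2 (pow_ne_zero _ hc)) ?_
    intro h
    rcases comp_eq_zero_iff.1 h with h | ⟨-, h⟩
    · exact hW.ne v h
    · have h3 := congrArg natDegree h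
      rw [natDegree_X_pow, natDegree_C] at h3
      omega
  have hYne : ∀ v, (Y v).map κ ≠ 0 := by
    intro v h
    rw [Polynomial.map_eq_zero_iff hκ] at h
    have h3 := hZ1 v
    rw [h, map_zero] at h3
    have h4 : Z' v = 0 := (mul_eq_zero.1 h3.symm).resolve_left (pow_ne_zero _ eps_ne_zero)
    exact hZ0 v (by rw [h4, map_zero])
  have hF : ∀ q, (coxF f ray).F (fun q χ => C (cst (fun q => f (Sum.inr q))
      (fun j => e (x' j)) q χ)) q (fun v => (Y v).map κ) = 0 := by
    intro q
    have h8 := (Cox.F_map (C := coxF f ray) (mapRingHom κ)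
      (fun q χ => (C (cst (fun q => f (Sum.inr q)) x' q χ)).map PowerSeries.C) q Y).symm
    rw [hY4 q, map_zero] at h8
    simp only [coe_mapRingHom, Polynomial.map_map, hcst] at h8
    exact h8
  have hb' : ∀ q : B, ev (f (Sum.inl q)) (fun j => e (x' j)) = 0 := by
    intro q
    have h8 := Pool.Agent.Work.CW.map_ev e (f (Sum.inl q)) x'
    rw [hb q, map_zero] at h8
    exact h8.symm
  rw [vf_iff]
  refine ⟨k1, inferInstance, inferInstance, inferInstance, e,
    fun v => (N v + t * (2 * nn v)).toNat, fun v => (Y v).map κ, ?_⟩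
  refine ⟨?_, fun v hv => ?_, hYne, fun v => ?_, fun v => ?_, ?_, ?_, ?_⟩
  · rw [hDn]
    intro i
    have h3 := hN i
    have h4 := hW.rel i
    have h5 : ∑ v, (coxF f ray).ray v i * (N v + t * (2 * nn v)) =
        ∑ v, (coxF f ray).ray v i * N v + 2 * t * ∑ v, (coxF f ray).ray v i * (nn v : ℤ) := by
      rw [Finset.mul_sum, ← Finset.sum_add_distrib]
      exact Finset.sum_congr rfl fun v _ => by ring
    rw [h5, h3, h4, mul_zero, add_zero]
  · have h3 : N v + t * (2 * nn v) = 0 := by
      have h4 := hD0 v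
      omega
    obtain ⟨γ, h4, h5, h6⟩ := hW.span v (by
      by_contra h
      exact hD1 v h h3)
    refine ⟨γ, h4, h5, fun w hw hw' => h6 w hw ?_⟩
    by_contra h
    refine hD1 w h ?_
    have h7 := hD0 w
    omega
  · rw [Int.toNat_of_nonneg (hD0 v)]
    exact degLE_map_ring κ (hY1 v)
  · rw [Int.toNat_of_nonneg (hD0 v), lc_map_ring, hY2 v]
    rfl
  · obtain ⟨φW, hφW⟩ := hW.hom
    obtain ⟨s, hs⟩ := Spz.exists_compA (L := L) (X ^ 2) (by rw [natDegree_X_pow]; norm_num)
    obtain ⟨φ1, hφ1⟩ := spz_ps T.data κ hκ hC (cc ray)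
      (YY Y fun i => PowerSeries.C (x' i))
      (YY Z' fun i => PowerSeries.C (x' i)) a (Sum.elim (fun v => 2 * nn v) fun _ => 0) (by
        rintro (v | i)
        · exact hZ1 v
        · change ex a (C (PowerSeries.C (x' i))) = eps L ^ 0 * C (PowerSeries.C (x' i))
          rw [pow_zero, one_mul, ex_C])
      (by
        rintro (v | i)
        · exact hZ0 v
        · change red (C (PowerSeries.C (x' i))) ≠ 0
          unfold red
          rw [coe_mapRingHom, map_C, PowerSeries.constantCoeff_C]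
          exact C_ne_zero.2 (hx' i))
      (by
        intro j
        rw [Fintype.sum_sum_type]
        simp only [Sum.elim_inl, Sum.elim_inr, cc, Nat.cast_zero, mul_zero,
          Finset.sum_const_zero, add_zero]
        have h4 := hW.rel j
        have h5 : ∑ v, (fibv (ray v) : Fin (dB + r) → ℤ) j * ((2 * nn v : ℕ) : ℤ) =
            2 * ∑ v, (coxF f ray).ray v j * (nn v : ℤ) := by
          rw [Finset.mul_sum]
          refine Finset.sum_congr rfl fun v _ => ?_
          push_cast
          change _ = 2 * ((fibv (ray v) : Fin (dB + r) → ℤ) j * _)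
          ring
        rw [h5, h4, mul_zero])
      (fun q => by
        have h8 := ev_fib T.base hb' hYne hF q
        rw [← h8]
        congr 1
        funext j
        rw [prod_cc]
        congr 1
        change algebraMap k1[X] (RatFunc k1) ((C (PowerSeries.C (x' j))).map κ) = _
        rw [map_C, RatFunc.algebraMap_C]
        rfl)
      (s.comp φW) (fun j => by
        rw [AlgHom.comp_apply, hφW, map_mul, map_prod, prod_cc]
        have h9 : s (RatFunc.C (x' j)) =
            algebraMap L[X] (RatFunc L) (red (C (PowerSeries.C (x' j)))) := by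
          unfold red
          rw [← RatFunc.algebraMap_C, hs, C_comp, coe_mapRingHom, map_C,
            PowerSeries.constantCoeff_C]
        have h10 : ∀ v, algebraMap L[X] (RatFunc L) (red (Z' v)) ^
            (fibv (ray v) : Fin (dB + r) → ℤ) j =
            RatFunc.C c ^ (2 * ((fibv (ray v) : Fin (dB + r) → ℤ) j * nn v)) *
              s (algebraMap L[X] (RatFunc L) (W v) ^ (fibv (ray v) : Fin (dB + r) → ℤ) j) := by
          intro v
          rw [hZ2, map_mul, mul_zpow, map_zpow₀, hs, RatFunc.algebraMap_C, map_pow,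
            ← zpow_natCast, ← zpow_mul]
          congr 2
          push_cast
          ring
        have h11 : ∏ v, RatFunc.C c ^ (2 * ((fibv (ray v) : Fin (dB + r) → ℤ) j * nn v)) =
            (1 : RatFunc L) := by
          have hCc : (RatFunc.C c : RatFunc L) ≠ 0 := (_root_.map_ne_zero RatFunc.C).2 hc
          rw [zsum hCc, ← Finset.mul_sum]
          have h4 := hW.rel j
          have h5 : ∑ v, (fibv (ray v) : Fin (dB + r) → ℤ) j * (nn v : ℤ) = 0 := h4
          rw [h5, mul_zero, zpow_zero]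
        rw [h9]
        congr 1
        change _ = ∏ v, algebraMap L[X] (RatFunc L) (red (Z' v)) ^
            (fibv (ray v) : Fin (dB + r) → ℤ) j
        rw [Finset.prod_congr rfl fun v _ => h10 v, Finset.prod_mul_distrib, h11, one_mul])
    refine ⟨φ1, fun j => ?_⟩
    rw [hφ1, prod_cc]
    congr 1
    change algebraMap k1[X] (RatFunc k1) ((C (PowerSeries.C (x' j))).map κ) = _
    rw [map_C, RatFunc.algebraMap_C]
    rfl
  · rw [hDn]
    exact h1
  · rw [hDn]
    exact h2

end St

open St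

/-- **The step, core.** -/
theorem step0 (T : Tot n dB r B Q x f) {Δ : FanV V r} (hΔ : Δ.Adapted f) {nB : ℕ}
    (htr : Algebra.trdeg ℂ (KBf x) = nB) (hdim : nB + Fintype.card B = dB) (hKH : KHc f)
    {k : Type} [Field k] [Algebra ℂ k] [IsAlgClosed k] (φ : KBf x →ₐ[ℂ] k)
    (x' : Fin (dB + r) → k) (hx' : ∀ j, x' j ≠ 0) (hφ : ∀ j, φ (xB x j) = x' (Fin.castAdd r j))
    (H : V → k[X]) (N : V → ℤ) (hN : (coxF f Δ.ray).Rel N) (hH : ∀ v, DegLE (H v) (N v))
    (hF : ∀ q, (coxF f Δ.ray).F (fun q χ => C (cst (fun q => f (Sum.inr q)) x' q χ)) q H = 0)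
    (hz : ∀ a : k, ∃ τ, Δ.cone τ ∧ ∀ v, (H v).eval a = 0 ↔ v ∈ τ)
    (hi : ∃ τ, Δ.cone τ ∧ ∀ v, lc (H v) (N v) = 0 ↔ v ∈ τ)
    (hVF : VF x f Δ.ray x' fun v => (H v).eval 0) :
    VF x f Δ.ray x' fun v => lc (H v) (N v) := by
  classical
  rw [vf_iff] at hVF
  obtain ⟨k', _, _, _, i, nn, W, hW⟩ := hVF
  have hch : CharZero k' := charZero_of_injective_algebraMap (algebraMap ℂ k').injective
  -- the degrees of the equations
  have hmin : ∀ q v, ∃ χ ∈ (coxF f Δ.ray).supp q, (coxF f Δ.ray).e q χ v = 0 := by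
    intro q v
    obtain ⟨χ, hχ, h⟩ := exists_mn (T.data.nz (Sum.inr q)) (fibv (Δ.ray v))
    refine ⟨χ, hχ, ?_⟩
    change (pair χ (fibv (Δ.ray v)) - mn (f (Sum.inr q)) (fibv (Δ.ray v))).toNat = 0
    rw [h]
    simp
  have hm := Cox.m_pos (kHull_of_KHc f Δ hKH) hmin hW.rel hW.span
  -- full rank over `k`
  have hdeg0 : ∀ q, ∀ χ ∈ (coxF f Δ.ray).supp q,
      (coxF f Δ.ray).m N q - ∑ v, N v * (coxF f Δ.ray).e q χ v = 0 := by
    intro q χ hχ
    rw [Cox.rel_sum hN hχ, sub_self]
  have hFa : ∀ (a : k) q, (coxF f Δ.ray).F (cst (fun q => f (Sum.inr q)) x') q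
      (fun v => (H v).eval a) = 0 := by
    intro a q
    have h1 := (Cox.F_map (C := coxF f Δ.ray) (evalRingHom a)
      (fun q χ => C (cst (fun q => f (Sum.inr q)) x' q χ)) q H).symm
    rw [hF q, map_zero] at h1
    simp only [coe_evalRingHom, eval_C] at h1
    exact h1
  have hlcF : ∀ q, (coxF f Δ.ray).F (cst (fun q => f (Sum.inr q)) x') q
      (fun v => lc (H v) (N v)) = 0 := by
    intro q
    have h1 := Cox.F_lc (C := coxF f Δ.ray)
      (c := fun q χ => C (cst (fun q => f (Sum.inr q)) x' q χ)) (n := N)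
      (d := (coxF f Δ.ray).m N q) (q := q) (fun χ hχ => by
        rw [hdeg0 q χ hχ]
        exact DegLE.C _ le_rfl) hH
    rw [hF q, Spz.lc_zero] at h1
    rw [h1, Cox.F_eq, Cox.F_eq]
    refine Finset.sum_congr rfl fun χ hχ => ?_
    rw [hdeg0 q χ hχ]
    congr 1
    simp [lc]
  have hfull : FullS (coxF f Δ.ray) (fun q χ => C (cst (fun q => f (Sum.inr q)) x' q χ)) H N
      ((coxF f Δ.ray).m N) := by
    refine ⟨fun a l hl => ?_, fun l hl => ?_⟩
    · obtain ⟨τ, hτ, hτ'⟩ := hz a
      refine ExR.fib_nd' T hΔ (ExR.xB_ne T) (ExR.xB_gen x) (ExR.xB_ev T) htr hdim φ hx' hφ hτ hτ'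
        (hFa a) (fun w _ => ?_)
      rw [← hl w]
      refine Finset.sum_congr rfl fun q _ => ?_
      have h1 := Cox.J_map (C := coxF f Δ.ray) (evalRingHom a)
        (fun q χ => C (cst (fun q => f (Sum.inr q)) x' q χ)) q w H
      simp only [coe_evalRingHom, eval_C] at h1
      rw [h1]
    · obtain ⟨τ, hτ, hτ'⟩ := hi
      refine ExR.fib_nd' T hΔ (ExR.xB_ne T) (ExR.xB_gen x) (ExR.xB_ev T) htr hdim φ hx' hφ hτ hτ'
        hlcF (fun w _ => ?_)
      rw [← hl w]
      refine Finset.sum_congr rfl fun q _ => ?_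
      rw [Cox.J_lc (fun χ hχ => by
        rw [hdeg0 q χ hχ]
        exact DegLE.C _ le_rfl) hH w]
      have h3 : (coxF f Δ.ray).J (fun q' χ => lc (C (cst (fun q => f (Sum.inr q)) x' q' χ))
          ((coxF f Δ.ray).m N q - ∑ v, N v * (coxF f Δ.ray).e q' χ v)) q w
            (fun v => lc (H v) (N v)) =
          (coxF f Δ.ray).J (cst (fun q => f (Sum.inr q)) x') q w
            (fun v => lc (H v) (N v)) := by
        rw [Cox.J_eq, Cox.J_eq]
        refine Finset.sum_congr rfl fun χ hχ => ?_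
        have h2 : lc (C (cst (fun q => f (Sum.inr q)) x' q χ)) 0 =
            cst (fun q => f (Sum.inr q)) x' q χ := by simp [lc]
        rw [hdeg0 q χ hχ, h2]
      rw [h3]
  -- the field over which the teeth live
  obtain ⟨L, _, _, g, hg⟩ := exists_acl (PowerSeries k')
  let _ : Algebra ℂ L := ((g.comp PowerSeries.C).comp (algebraMap ℂ k')).toAlgebra
  have hC : ∀ z : ℂ, g (PowerSeries.C (algebraMap ℂ k' z)) = algebraMap ℂ L z := fun z => rfl
  let gC : k' →ₐ[ℂ] L := { g.comp PowerSeries.C with commutes' := fun z => rfl }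
  have hchL : CharZero L := charZero_of_injective_ringHom gC.toRingHom.injective
  let e : k →ₐ[ℂ] L := gC.comp i
  let xL : Fin (dB + r) → L := fun j => e (x' j)
  let HL : V → L[X] := fun v => (H v).map (e : k →+* L)
  let cL : Q → (Fin (dB + r) → ℤ) → L[X] := fun q χ =>
    C (cst (fun q => f (Sum.inr q)) xL q χ)
  have hcL : (fun q χ => (C (cst (fun q => f (Sum.inr q)) x' q χ)).map (e : k →+* L)) = cL := by
    funext q χ
    simp only [cL, xL]
    rw [map_C, cst_map e]
    rfl
  have hfullL : FullS (coxF f Δ.ray) cL HL N ((coxF f Δ.ray).m N) := by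
    have h1 := FullS.map (e : k →+* L) hfull
    rw [hcL] at h1
    exact h1
  have hHL : ∀ v, DegLE (HL v) (N v) := fun v => Spz.degLE_map _ (hH v)
  have hdL : ∀ q, ∀ χ ∈ (coxF f Δ.ray).supp q,
      DegLE (cL q χ) ((coxF f Δ.ray).m N q - ∑ v, N v * (coxF f Δ.ray).e q χ v) := by
    intro q χ hχ
    rw [hdeg0 q χ hχ]
    exact DegLE.C _ le_rfl
  have hFL : ∀ q, (coxF f Δ.ray).F cL q HL = 0 := by
    intro q
    have h1 := F_map_poly (C := coxF f Δ.ray) (e : k →+* L)
      (fun q χ => C (cst (fun q => f (Sum.inr q)) x' q χ)) q H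
    rw [hF q, Polynomial.map_zero, hcL] at h1
    exact h1
  obtain ⟨N0, hN0⟩ := evSurj (fun q v => (coxF f Δ.ray).J cL q v HL) ((coxF f Δ.ray).m N) N
    (fun q v => Cox.J_degLE (hdL q) hHL v) hfullL.1 hfullL.2
  -- the number of teeth
  obtain ⟨t, ht, ht1, htN⟩ : ∃ t : ℕ, N0 ≤ (t : ℤ) - 2 ∧ 1 ≤ t ∧ ∀ v, 1 ≤ N v + t := by
    refine ⟨N0.toNat + 2 + ∑ v, (N v).natAbs, ?_, by omega, fun v => ?_⟩
    · have := Int.self_le_toNat N0
      push_cast
      have := Finset.sum_nonneg (s := Finset.univ) (f := fun v => |N v|)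
        (fun v _ => abs_nonneg (N v))
      omega
    · have h1 : (N v).natAbs ≤ ∑ v, (N v).natAbs :=
        Finset.single_le_sum (f := fun v => (N v).natAbs) (fun _ _ => Nat.zero_le _)
          (Finset.mem_univ v)
      omega
  -- constant components
  have hconst : ∀ v, nn v = 0 → 0 ≤ N v := by
    intro v hv
    by_contra hneg
    push Not at hneg
    have h1 := (hH v).eq_zero hneg
    have h2 := hW.top v
    have h3 := hW.deg v
    rw [h1, eval_zero, map_zero, hv] at h2
    rw [hv] at h3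
    exact hW.ne v ((h3.pred h2).eq_zero (by norm_num))
  -- positions
  have hδ : g PowerSeries.X ≠ 0 := by
    intro h
    have h2 := hg (h.trans (map_zero g).symm)
    exact PowerSeries.X_ne_zero h2
  let u : Fin t → k' := fun j => (j.1 : k') + 1
  let pos : Fin t → L := fun j => gC (u j) * g PowerSeries.X
  have hpos : Function.Injective pos := by
    intro j j' h
    have h1 := gC.toRingHom.injective (mul_right_cancel₀ hδ h)
    have h3 : ((j.1 : k') + 1) = (j'.1 : k') + 1 := h1
    exact Fin.ext (by exact_mod_cast add_right_cancel h3)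
  -- the points of the handle at the positions
  let ζ : Fin t → k[X] →+* PowerSeries k' := fun j =>
    eval₂RingHom ((PowerSeries.C (R := k')).comp (i : k →+* k'))
      (PowerSeries.C (u j) * PowerSeries.X)
  have hζC : ∀ j c, ζ j (C c) = PowerSeries.C (i c) := by
    intro j c
    simp only [ζ, coe_eval₂RingHom, eval₂_C]
    rfl
  have hζ0 : ∀ j p, PowerSeries.constantCoeff (ζ j p) = i (p.eval 0) := by
    intro j p
    have h1 : (PowerSeries.constantCoeff (R := k')).comp (ζ j) =
        (i : k →+* k').comp (evalRingHom 0) := by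
      refine Polynomial.ringHom_ext (fun c => ?_) ?_
      · rw [RingHom.comp_apply, hζC, PowerSeries.constantCoeff_C, RingHom.comp_apply,
          coe_evalRingHom, eval_C]
        rfl
      · rw [RingHom.comp_apply, RingHom.comp_apply, coe_evalRingHom, eval_X, map_zero]
        simp [ζ]
    exact RingHom.congr_fun h1 p
  have hζg : ∀ j p, g (ζ j p) = (p.map (e : k →+* L)).eval (pos j) := by
    intro j p
    have h1 : g.comp (ζ j) = (evalRingHom (pos j)).comp (mapRingHom (e : k →+* L)) := by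
      refine Polynomial.ringHom_ext (fun c => ?_) ?_
      · rw [RingHom.comp_apply, hζC, RingHom.comp_apply, coe_mapRingHom, map_C,
          coe_evalRingHom, eval_C]
        rfl
      · rw [RingHom.comp_apply, RingHom.comp_apply, coe_mapRingHom, map_X, coe_evalRingHom,
          eval_X]
        simp only [ζ, coe_eval₂RingHom, eval₂_X, map_mul]
        rfl
    exact RingHom.congr_fun h1 p
  have hb1 : ∀ q : B, ev (f (Sum.inl q)) x' = 0 := by
    intro q
    have h1 := Pool.Agent.Work.CW.map_ev φ (resL (f (Sum.inl q))) (xB x)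
    rw [ExR.xB_ev T q, map_zero] at h1
    rw [← ev_resL (T.base q), h1]
    congr 1
    funext j
    exact (hφ j).symm
  have hb2 : ∀ q : B, ev (f (Sum.inl q)) (fun j => i (x' j)) = 0 := by
    intro q
    have h1 := Pool.Agent.Work.CW.map_ev i (f (Sum.inl q)) x'
    rw [hb1 q, map_zero] at h1
    exact h1.symm
  have hb3 : ∀ q : B, ev (f (Sum.inl q)) xL = 0 := by
    intro q
    have h1 := Pool.Agent.Work.CW.map_ev e (f (Sum.inl q)) x'
    rw [hb1 q, map_zero] at h1
    exact h1.symm
  -- the teeth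
  have hteeth : ∀ j, ∃ W' : V → L[X],
      Tooth x f Δ.ray xL (fun v => (HL v).eval (pos j)) nn W' := by
    intro j
    obtain ⟨W', hW'⟩ := tooth_lift T g hg hC (x' := fun j => i (x' j))
      (fun j => (_root_.map_ne_zero i).2 (hx' j)) hb2 (fun v => ζ j (H v)) (fun q => by
        have h1 := (Cox.F_map (C := coxF f Δ.ray) (ζ j)
          (fun q χ => C (cst (fun q => f (Sum.inr q)) x' q χ)) q H).symm
        rw [hF q, map_zero] at h1
        simp only [hζC] at h1
        rw [← h1]
        congr 1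
        funext q χ
        rw [cst_map i]) (m := nn) (W := W) (by
        simp only [hζ0]
        exact hW)
    refine ⟨W', ?_⟩
    have h2 : (fun v => g (ζ j (H v))) = fun v => (HL v).eval (pos j) :=
      funext fun v => hζg j (H v)
    rw [h2] at hW'
    exact hW'
  choose W' hW' using hteeth
  have hcard : Fintype.card (Fin t) = t := Fintype.card_fin t
  have hNe : Nonempty (Fin t) := ⟨⟨0, by omega⟩⟩
  have hmm : ∀ q, ((((coxF f Δ.ray).m (fun v => (nn v : ℤ)) q).toNat : ℕ) : ℤ) =
      (coxF f Δ.ray).m (fun v => (nn v : ℤ)) q :=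
    fun q => Int.toNat_of_nonneg (by have := hm q; omega)
  have hmf : (fun q => ((((coxF f Δ.ray).m (fun v => (nn v : ℤ)) q).toNat : ℕ) : ℤ)) =
      (coxF f Δ.ray).m (fun v => (nn v : ℤ)) := funext hmm
  have hcev : ∀ j, (fun q χ => C ((cL q χ).eval (pos j))) = cL := by
    intro j
    funext q χ
    simp only [cL, eval_C]
  obtain ⟨Y, hY1, hY2, -, hY3, hY4, hY5⟩ := comb_handle (S := coxF f Δ.ray) (a := cL) (H := HL)
    (N := N) (M := (coxF f Δ.ray).m N) (pt := pos) (n := nn)
    (m := fun q => ((coxF f Δ.ray).m (fun v => (nn v : ℤ)) q).toNat) (T := W') hdL hHL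
    hFL hpos hW.rel hmm (fun q => by have := hm q; omega) hW.span (fun j => (hW' j).ne)
    (fun j => (hW' j).deg) (fun j => (hW' j).top) (fun j q => by
      rw [hcev j]
      exact tooth_F T (hW' j) q)
    (fun j => by rw [hmf, hcev j]; exact (hW' j).free)
    (fun j => by rw [hmf, hcev j]; exact (hW' j).vfree)
    (fun v _ => by rw [hcard]; exact htN v)
    (fun b hb G hG => by
      obtain ⟨K, h1, h2⟩ := hN0 ((t : ℤ) - b) (by omega) G (fun q => (hG q).mono (by
        rw [hcard]; omega))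
      exact ⟨K, fun v => (h1 v).mono (by rw [hcard]; omega), h2⟩)
  have hDL : (fun v => N v + (Fintype.card (Fin t) : ℤ) * (2 * nn v)) =
      fun v => N v + (t : ℤ) * (2 * nn v) := by rw [hcard]
  have hEL : (fun q => (coxF f Δ.ray).m N q + (Fintype.card (Fin t) : ℤ) *
      (2 * ((((coxF f Δ.ray).m (fun v => (nn v : ℤ)) q).toNat : ℕ) : ℤ))) =
      (coxF f Δ.ray).m fun v => N v + (t : ℤ) * (2 * nn v) := by
    funext q
    rw [hcard, hmm q]
    unfold Cox.m
    rw [Finset.mul_sum, Finset.mul_sum, ← Finset.sum_add_distrib]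
    exact Finset.sum_congr rfl fun v _ => by ring
  rw [hEL] at hY5
  obtain ⟨c, hc, hY3'⟩ := hY3 ⟨0, by omega⟩
  simp only [hcard] at hY1 hY2 hY5
  have hres : VF x f Δ.ray xL fun v => lc (HL v) (N v) := by
    refine comb_vf T (fun j => (_root_.map_ne_zero e).2 (hx' j)) hb3 hN (hW' ⟨0, by omega⟩) t
      (fun v => ?_) (fun v hv => ?_) Y hY1 hY2 (pos ⟨0, by omega⟩) c hc hY3' hY4 hY5
    · by_cases hv : nn v = 0
      · rw [hv]
        have := hconst v hv
        push_cast
        omega
      · have h1 := htN v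
        have h2 : (t : ℤ) * 1 ≤ t * (2 * nn v) :=
          mul_le_mul_of_nonneg_left (by omega) (by omega)
        omega
    · have h1 := htN v
      have h2 : (t : ℤ) * 1 ≤ t * (2 * nn v) :=
        mul_le_mul_of_nonneg_left (by omega) (by omega)
      omega
  have htop : (fun v => lc (HL v) (N v)) = fun v => e (lc (H v) (N v)) :=
    funext fun v => Spz.lc_map _ _ _
  rw [htop, vf_iff] at hres
  obtain ⟨k1, a1, a2, a3, i1, n1, T1, h1⟩ := hres
  rw [vf_iff]
  exact ⟨k1, a1, a2, a3, i1.comp e, n1, T1, h1⟩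

/-- the core of the step -/
theorem coreProp (T : Tot n dB r B Q x f) {Δ : FanV V r} (hΔ : Δ.Adapted f) {nB : ℕ}
    (htr : Algebra.trdeg ℂ (KBf x) = nB) (hdim : nB + Fintype.card B = dB) (hKH : KHc f) :
    CoreProp x f Δ := by
  intro k _ _ _ φ x' hx' hφ H N hN hH hF hz hi hVF
  exact step0 T hΔ htr hdim hKH φ x' hx' hφ H N hN hH hF hz hi hVF

/-- **The step.** -/
theorem step_main (T : Tot n dB r B Q x f) {Δ : FanV V r} (hΔ : Δ.Adapted f) {nB : ℕ}
    (htr : Algebra.trdeg ℂ (KBf x) = nB) (hdim : nB + Fintype.card B = dB) (hKH : KHc f) :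
    StepProp x f Δ :=
  stepProp_of_core (coreProp T hΔ htr hdim hKH)

end Pool.Agent.Work.WRC
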