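import Mathlib
import Pool.Agent.Work.MP_4329d7_ag_wrc.FinDefs

/-!
W-RC, final step: two teeth over a generic pair of positions of the base curve form a generic pair.

* `indep2_teeth`;
* `genOver_pow`.
-/

namespace Pool.Agent.Work.WRC

open Polynomial Pool.Agent.Work.CI Pool.Agent.Work.MP_4329d7_ag_sq

namespace Teeth2

/-- `b` is algebraically independent over `R`, a ring mapped to `L` by `h`. -/
def AIo {R L : Type} [CommRing R] [CommRing L] (h : R →+* L) {I : Type} (b : I → L) : Prop :=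
  ∀ P : MvPolynomial I R, P ≠ 0 → MvPolynomial.eval₂ h b P ≠ 0

section basic

variable {R M L : Type} [CommRing R] [Field M] [Field L]

theorem AIo.iff (h : R →+* L) {I : Type} (b : I → L) :
    AIo h b ↔ @AlgebraicIndependent I R L b _ _ h.toAlgebra := by
  let _ : Algebra R L := h.toAlgebra
  have h1 : ∀ P : MvPolynomial I R, MvPolynomial.aeval b P = MvPolynomial.eval₂ h b P :=
    fun P => rfl
  rw [algebraicIndependent_iff]
  constructor
  · intro hb P hP
    by_contra h0
    exact hb P h0 ((h1 P).symm.trans hP)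
  · intro hb P hP h0
    exact hP (hb P ((h1 P).trans h0))

theorem AIo.of_alg [Algebra R L] {I : Type} {b : I → L} (hb : AlgebraicIndependent R b) :
    AIo (algebraMap R L) b := by
  intro P hP h0
  exact hP ((algebraicIndependent_iff.1 hb) P h0)

theorem AIo.to_alg [Algebra R L] {I : Type} {b : I → L} (hb : AIo (algebraMap R L) b) :
    AlgebraicIndependent R b := by
  rw [algebraicIndependent_iff]
  intro P hP
  by_contra h0
  exact hb P h0 hP

theorem AIo.map {h : R →+* M} {I : Type} {a : I → M} (ha : AIo h a) (j : M →+* L) :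
    AIo (j.comp h) (fun i => j (a i)) := by
  intro P hP h0
  refine ha P hP ?_
  apply j.injective
  rw [map_zero, MvPolynomial.hom_eval₂]
  exact h0

theorem AIo.reindex {h : R →+* L} {I J : Type} {a : I → L} (ha : AIo h a) (e : J → I)
    (he : Function.Injective e) : AIo h (fun j => a (e j)) := by
  rw [AIo.iff] at ha ⊢
  exact @AlgebraicIndependent.comp _ _ _ _ _ _ _ h.toAlgebra ha _ he

theorem AIo.sum {h : R →+* M} {A B : Type} {a : A → M} (ha : AIo h a) {j : M →+* L} {b : B → L}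
    (hb : AIo j b) : AIo (j.comp h) (Sum.elim b (fun i => j (a i))) := by
  rw [AIo.iff] at ha hb ⊢
  let _ : Algebra R M := h.toAlgebra
  let _ : Algebra M L := j.toAlgebra
  let _ : Algebra R L := (j.comp h).toAlgebra
  have _ : IsScalarTower R M L := IsScalarTower.of_algebraMap_eq fun x => rfl
  exact AlgebraicIndependent.sumElim_comp ha hb

end basic

section rat

variable {E L : Type} [Field E] [Field L]

theorem mem_adjoin (h : RatFunc E →+* L) (z : RatFunc E) :
    h z ∈ @IntermediateField.adjoin E _ L _ (h.comp RatFunc.C).toAlgebra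
      (Set.range fun _ : Unit => h RatFunc.X) := by
  let _ : Algebra E L := (h.comp RatFunc.C).toAlgebra
  have h1 : ∀ p : E[X], h (algebraMap E[X] (RatFunc E) p) ∈
      IntermediateField.adjoin E (Set.range fun _ : Unit => h RatFunc.X) := by
    intro p
    induction p using Polynomial.induction_on' with
    | add p q hp hq =>
      rw [map_add, map_add]
      exact add_mem hp hq
    | monomial n a =>
      rw [← C_mul_X_pow_eq_monomial, map_mul, map_pow, RatFunc.algebraMap_C, RatFunc.algebraMap_X,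
        map_mul, map_pow]
      refine mul_mem ?_ (pow_mem ?_ n)
      · exact IntermediateField.algebraMap_mem _ a
      · exact IntermediateField.subset_adjoin _ _ ⟨(), rfl⟩
  rw [← RatFunc.num_div_denom z, map_div₀]
  exact div_mem (h1 _) (h1 _)

theorem AIo.ratFunc {h : RatFunc E →+* L} {I : Type} {b : I → L}
    (hb : AIo (h.comp RatFunc.C) (Sum.elim b (fun _ : Unit => h RatFunc.X))) : AIo h b := by
  rw [AIo.iff] at hb
  let _ : Algebra E L := (h.comp RatFunc.C).toAlgebra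
  rw [AlgebraicIndependent.sumElim_iff] at hb
  have h1 := (IntermediateField.algebraicIndependent_adjoin_iff (F := E) (E := L)
    (s := Set.range fun _ : Unit => h RatFunc.X) (x := b)).2 hb.2
  let N := IntermediateField.adjoin E (Set.range fun _ : Unit => h RatFunc.X)
  let h' : RatFunc E →+* N := h.codRestrict N (mem_adjoin h)
  intro P hP h0
  have h2 : MvPolynomial.map h' P ≠ 0 := by
    intro h3
    exact hP ((map_eq_zero_iff _ (MvPolynomial.map_injective h' h'.injective)).1 h3)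
  refine h2 ((algebraicIndependent_iff.1 h1) _ ?_)
  rw [MvPolynomial.aeval_def, MvPolynomial.eval₂_map]
  exact h0

theorem AIo.var : AIo (RatFunc.C : E →+* RatFunc E) (fun _ : Unit => (RatFunc.X : RatFunc E)) := by
  intro P hP h0
  have h1 : MvPolynomial.uniqueAlgEquiv E Unit P ≠ 0 := by
    rw [Ne, map_eq_zero_iff _ (MvPolynomial.uniqueAlgEquiv E Unit).injective]
    exact hP
  apply h1
  have h2 : ∀ P : MvPolynomial Unit E,
      algebraMap E[X] (RatFunc E) (MvPolynomial.uniqueAlgEquiv E Unit P) =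
      MvPolynomial.eval₂ (RatFunc.C : E →+* RatFunc E) (fun _ : Unit => (RatFunc.X : RatFunc E)) P := by
    intro P
    induction P using MvPolynomial.induction_on with
    | C a => simp
    | add p q hp hq =>
      rw [map_add, map_add, hp, hq, MvPolynomial.eval₂_add]
    | mul_X p n hp =>
      rw [map_mul, map_mul, hp, MvPolynomial.eval₂_mul, MvPolynomial.eval₂_X]
      simp
  refine IsFractionRing.injective E[X] (RatFunc E) ?_
  rw [h2, h0, map_zero]

theorem AIo.var₂ : AIo (psi E) (fun _ : Unit => (RatFunc.C RatFunc.X : RatFunc (RatFunc E))) := by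
  have hX : psi E RatFunc.X = RatFunc.X := rmap_X _
  have hC : (psi E).comp RatFunc.C = (RatFunc.C : RatFunc E →+* _).comp RatFunc.C := by
    ext e
    exact rmap_C _ e
  refine AIo.ratFunc ?_
  rw [hC, hX]
  have h1 := (AIo.sum (AIo.var (E := E)) (AIo.var (E := RatFunc E))).reindex Sum.swap
    Sum.swap_leftInverse.injective
  convert h1 using 1
  funext j
  rcases j with j | j <;> rfl

theorem AIo.over {E' : Type} [Field E'] {i : E →+* E'} {I : Type} {b : I → RatFunc E'}
    (hb : AIo (RatFunc.C.comp i) b) :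
    AIo ((RatFunc.C : RatFunc E' →+* _).comp (rmap i)) (fun j => psi E' (b j)) := by
  refine AIo.ratFunc ?_
  have h1 := (AIo.sum hb (AIo.var₂ (E := E'))).reindex Sum.swap Sum.swap_leftInverse.injective
  have h2 : (RatFunc.C.comp (rmap i)).comp (RatFunc.C : E →+* RatFunc E) =
      (psi E').comp ((RatFunc.C : E' →+* RatFunc E').comp i) := by
    ext e
    change RatFunc.C (rmap i (RatFunc.C e)) = psi E' (RatFunc.C (i e))
    rw [rmap_C, psi, rmap_C]
  rw [h2]
  convert h1 using 1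
  funext j
  rcases j with j | j
  · rfl
  · change RatFunc.C (rmap i RatFunc.X) = _
    rw [rmap_X]
    rfl

end rat

end Teeth2

open Teeth2 in
/-- Two teeth over a generic pair of positions form a generic pair. -/
theorem indep2_teeth {K : Type} [Field K] [Algebra ℂ K] {dB r : ℕ} (x : Fin (dB + r) → K)
    {Ω Ω₁ Ω₂ : Type} [Field Ω] [Algebra ℂ Ω] [Field Ω₁] [Algebra ℂ Ω₁] [Field Ω₂] [Algebra ℂ Ω₂]
    (i₁ : Ω →ₐ[ℂ] Ω₁) (i₂ : Ω₁ →ₐ[ℂ] Ω₂) (β₁ β₂ : KBf x →ₐ[ℂ] Ω) (hβ : Indep2 β₁ β₂)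
    (φ₁ : K →ₐ[ℂ] RatFunc Ω₁) (φ₂ : K →ₐ[ℂ] RatFunc Ω₂)
    (h₁ : ∀ y : KBf x, φ₁ y = RatFunc.C (i₁ (β₁ y)))
    (h₂ : ∀ y : KBf x, φ₂ y = RatFunc.C (i₂ (i₁ (β₂ y))))
    {I : Type} [Fintype I] (y : I → K) (hy : IsTranscendenceBasis (KBf x) y)
    (g₁ : GenOver i₁ φ₁ y) (g₂ : GenOver i₂ φ₂ y) :
    Indep2 ((CA Ω₂).comp ((rmapA i₂).comp φ₁)) ((psiA Ω₂).comp φ₂) := by
  obtain ⟨J, _, w, hw, hww⟩ := hβ
  refine ⟨I ⊕ J, inferInstance, Sum.elim y (algebraMap (KBf x) K ∘ w), hw.sumElim_comp hy, ?_⟩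
  have a0 := AIo.of_alg hww
  have a1 := AIo.sum a0 (j := RatFunc.C.comp (i₁ : Ω →+* Ω₁)) g₁
  have a2 := AIo.sum a1 (AIo.over (i := (i₂ : Ω₁ →+* Ω₂)) g₂)
  let e : (I ⊕ J) ⊕ (I ⊕ J) → I ⊕ (I ⊕ (J ⊕ J)) :=
    Sum.elim (Sum.elim (fun i => Sum.inr (Sum.inl i)) (fun j => Sum.inr (Sum.inr (Sum.inl j))))
      (Sum.elim (fun i => Sum.inl i) (fun j => Sum.inr (Sum.inr (Sum.inr j))))
  have he : Function.Injective e := by
    rintro ((i | j) | (i | j)) ((i' | j') | (i' | j')) h <;> simp [e] at h ⊢ <;> exact h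
  have a3 := a2.reindex e he
  apply AIo.to_alg
  have hC : algebraMap ℂ (RatFunc (RatFunc Ω₂)) =
      ((RatFunc.C : RatFunc Ω₂ →+* _).comp (rmap (i₂ : Ω₁ →+* Ω₂))).comp
        (((RatFunc.C : Ω₁ →+* _).comp (i₁ : Ω →+* Ω₁)).comp (algebraMap ℂ Ω)) := by
    ext c
    change _ = RatFunc.C (rmap (i₂ : Ω₁ →+* Ω₂) (RatFunc.C (i₁ (algebraMap ℂ Ω c))))
    rw [rmap_C, algebraMap_ratFunc, algebraMap_ratFunc, AlgHom.commutes]
    change _ = RatFunc.C (RatFunc.C (i₂ (algebraMap ℂ Ω₁ c)))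
    rw [AlgHom.commutes]
  rw [hC]
  convert a3 using 1
  funext s
  rcases s with (i | j) | (i | j)
  · rfl
  · change RatFunc.C (rmap (i₂ : Ω₁ →+* Ω₂) (φ₁ (w j : K))) =
      RatFunc.C (rmap (i₂ : Ω₁ →+* Ω₂) (RatFunc.C (i₁ (β₁ (w j)))))
    rw [h₁]
  · rfl
  · change psi Ω₂ (φ₂ (w j : K)) =
      RatFunc.C (rmap (i₂ : Ω₁ →+* Ω₂) (RatFunc.C (i₁ (β₂ (w j)))))
    rw [h₂, psi, rmap_C, rmap_C]
    rfl

/-- A substitution which fixes the constants preserves `GenOver`. -/
theorem genOver_pow {K k k₁ : Type} [Field K] [Algebra ℂ K] [Field k] [Algebra ℂ k] [Field k₁]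
    [Algebra ℂ k₁] {I : Type} (i : k →ₐ[ℂ] k₁) (φ : K →ₐ[ℂ] RatFunc k₁) (y : I → K)
    (g : GenOver i φ y) (s : RatFunc k₁ →ₐ[ℂ] RatFunc k₁)
    (hs : ∀ c, s (RatFunc.C c) = RatFunc.C c) : GenOver i (s.comp φ) y := by
  intro P hP h0
  refine g P hP ?_
  apply (s : RatFunc k₁ →+* RatFunc k₁).injective
  rw [map_zero, MvPolynomial.hom_eval₂]
  have h1 : (s : RatFunc k₁ →+* RatFunc k₁).comp (RatFunc.C.comp (i : k →+* k₁)) =
      RatFunc.C.comp (i : k →+* k₁) := by
    ext c
    exact hs (i c)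
  rw [h1]
  exact h0

end Pool.Agent.Work.WRC
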