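import Mathlib
import Pool.Agent.Work.MP_4329d7_ag_wrc.Path

/-!
W-RC, the generic deformation of a curve `W` with fixed top coefficients (`gen_curve`): a curve `W₁`
over an algebraically closed extension which specialises to `W`, satisfies `FreeS` and `VFreeS`, and
whose first order deformations are given by derivations.
-/

namespace Pool.Agent.Work.WRC

open Polynomial

namespace GenT

/-- non-vanishing minors persist -/
theorem persist {k k₁ σ ρ : Type} [Field k] [Field k₁] [Algebra k k₁] [Fintype ρ] [DecidableEq ρ]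
    (z₀ : σ → k) (z₁ : σ → k₁)
    (hsp : ∀ G : MvPolynomial σ k, MvPolynomial.aeval z₁ G = 0 → MvPolynomial.aeval z₀ G = 0)
    (M : ρ → ρ → MvPolynomial σ k)
    (hM : ∀ r s, MvPolynomial.aeval z₀ (M r s) = if r = s then 1 else 0) (b : ρ → k₁) :
    ∃ a : ρ → k₁, ∀ r, ∑ s, MvPolynomial.aeval z₁ (M r s) * a s = b r := by
  let Mx : Matrix ρ ρ (MvPolynomial σ k) := Matrix.of M
  have h0 : MvPolynomial.aeval z₀ Mx.det ≠ 0 := by
    rw [AlgHom.map_det]
    have h1 : (MvPolynomial.aeval z₀).mapMatrix Mx = (1 : Matrix ρ ρ k) := by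
      ext r s
      rw [AlgHom.mapMatrix_apply, Matrix.map_apply, Matrix.one_apply]
      exact hM r s
    rw [h1, Matrix.det_one]
    exact one_ne_zero
  have h1 : ((MvPolynomial.aeval z₁).mapMatrix Mx : Matrix ρ ρ k₁).det ≠ 0 := by
    rw [← AlgHom.map_det]
    exact fun h => h0 (hsp _ h)
  have h2 : IsUnit ((MvPolynomial.aeval z₁).mapMatrix Mx : Matrix ρ ρ k₁) :=
    (Matrix.isUnit_iff_isUnit_det _).2 (isUnit_iff_ne_zero.2 h1)
  obtain ⟨a, ha⟩ := (Matrix.mulVec_surjective_iff_isUnit.2 h2) b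
  exact ⟨a, fun r => congrFun ha r⟩

variable {V Q Pt : Type} [Fintype V] {Cx : Cox V Q Pt}

theorem sum_coeff_mul {B : Type*} [CommRing B] (m : V → ℕ) (p θ : V → B[X])
    (hθ : ∀ v, DegLE (θ v) ((m v : ℤ) - 1)) (i : ℕ) :
    ∑ t : Σ v, Fin (m v), (p t.1 * X ^ (t.2 : ℕ)).coeff i * (θ t.1).coeff t.2 =
      (∑ v, p v * θ v).coeff i := by
  rw [Fintype.sum_sigma, finsetSum_coeff]
  refine Finset.sum_congr rfl fun v _ => ?_
  conv_rhs => rw [degLE_sum (hθ v), Finset.mul_sum, finsetSum_coeff]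
  refine Finset.sum_congr rfl fun l _ => ?_
  rw [mul_left_comm, coeff_C_mul, mul_comm]

/-- the Jacobian of the coefficients of the equations on a vector of polynomials -/
theorem sum_pderiv {R B : Type} [CommRing R] [CommRing B] [Algebra R B] (m : V → ℕ) (z : V → R)
    (a : Q → Pt → R[X]) (q : Q) (i : ℕ) (y : (Σ v, Fin (m v)) → B) (θ : V → B[X])
    (hθ : ∀ v, DegLE (θ v) ((m v : ℤ) - 1)) :
    ∑ t, MvPolynomial.aeval y (MvPolynomial.pderiv t (eqc Cx m z a q i)) * (θ t.1).coeff t.2 =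
      (∑ v, Cx.J (fun q x => (a q x).map (algebraMap R B)) q v
        (gcv m (fun v => algebraMap R B (z v)) y) * θ v).coeff i := by
  rw [← sum_coeff_mul m _ θ hθ]
  exact Finset.sum_congr rfl fun t _ => by rw [eqc_pderiv]

variable [Fintype Q] {k : Type} [Field k]

omit [Fintype Q] in
theorem hsum {D : Q → ℤ} {m : V → ℕ} (hm : Cx.Rel fun v => (m v : ℤ)) {q : Q} {x : Pt}
    (hx : x ∈ Cx.supp q) :
    D q + Cx.m (fun v => (m v : ℤ)) q - ∑ v, (m v : ℤ) * Cx.e q x v = D q := by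
  rw [Cox.rel_sum hm hx]
  ring

/-- the Jacobian of the equations has bounded degree -/
theorem sum_J_degLE {a : Q → Pt → k[X]} {D : Q → ℤ} {m : V → ℕ}
    (hm : Cx.Rel fun v => (m v : ℤ)) (hd : ∀ q, ∀ x ∈ Cx.supp q, DegLE (a q x) (D q))
    {Y : V → k[X]} (hY : ∀ v, DegLE (Y v) (m v)) {θ : V → k[X]}
    (hθ : ∀ v, DegLE (θ v) ((m v : ℤ) - 1)) (q : Q) :
    DegLE (∑ v, Cx.J a q v Y * θ v) (D q + Cx.m (fun v => (m v : ℤ)) q - 1) := by
  refine DegLE.sum fun v _ => ?_
  refine ((Cox.J_degLE (n := fun v => (m v : ℤ)) (d := D q + Cx.m (fun v => (m v : ℤ)) q)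
    (fun x hx => by rw [hsum hm hx]; exact hd q x hx) hY v).mul (hθ v)).mono ?_
  omega

/-- the coefficient of index `E - 1` for vectors with Euler top -/
theorem sum_J_top {a : Q → Pt → k[X]} {D : Q → ℤ} {m : V → ℕ}
    (hm : Cx.Rel fun v => (m v : ℤ)) (hd : ∀ q, ∀ x ∈ Cx.supp q, DegLE (a q x) (D q))
    {Y : V → k[X]} (hY : ∀ v, DegLE (Y v) (m v)) {q : Q} (hF : Cx.F a q Y = 0) {θ : V → k[X]}
    (hθ : ∀ v, DegLE (θ v) ((m v : ℤ) - 1)) {γ : V → k} (hγ : Cx.Eul γ)
    (hl : ∀ v, lc (θ v) ((m v : ℤ) - 1) = γ v * lc (Y v) (m v)) :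
    lc (∑ v, Cx.J a q v Y * θ v) (D q + Cx.m (fun v => (m v : ℤ)) q - 1) = 0 := by
  classical
  have hc : ∀ x ∈ Cx.supp q, DegLE (a q x)
      (D q + Cx.m (fun v => (m v : ℤ)) q - ∑ v, (m v : ℤ) * Cx.e q x v) :=
    fun x hx => by rw [hsum hm hx]; exact hd q x hx
  have h1 : ∀ v, lc (Cx.J a q v Y * θ v) (D q + Cx.m (fun v => (m v : ℤ)) q - 1) =
      Cx.J (fun q' x => lc (a q' x) (D q + Cx.m (fun v => (m v : ℤ)) q -
        ∑ v, (m v : ℤ) * Cx.e q' x v)) q v (fun v => lc (Y v) (m v)) *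
        (γ v * lc (Y v) (m v)) := by
    intro v
    have h2 := lc_mul (Cox.J_degLE (n := fun v => (m v : ℤ)) hc hY v) (hθ v)
    have h3 : D q + Cx.m (fun v => (m v : ℤ)) q - (m v : ℤ) + ((m v : ℤ) - 1) =
        D q + Cx.m (fun v => (m v : ℤ)) q - 1 := by ring
    rw [h3] at h2
    rw [h2, hl v, Cox.J_lc (n := fun v => (m v : ℤ)) hc hY v]
  rw [lc_sum, Finset.sum_congr rfl fun v _ => h1 v, Cox.euler _ hγ]
  have h4 := Cox.F_lc (n := fun v => (m v : ℤ)) hc hY
  rw [hF] at h4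
  have h5 : Cx.F (fun q' x => lc (a q' x) (D q + Cx.m (fun v => (m v : ℤ)) q -
        ∑ v, (m v : ℤ) * Cx.e q' x v)) q (fun v => lc (Y v) (m v)) = 0 := by
    rw [← h4]
    unfold lc
    simp
  rw [h5, mul_zero]

end GenT

open GenT

variable {V Q Pt : Type} [Fintype V] [Fintype Q]

/-- **The generic deformation of a curve.** -/
theorem gen_curve (Cx : Cox V Q Pt) {k : Type} [Field k] [CharZero k] (a : Q → Pt → k[X])
    (D : Q → ℤ) (m : V → ℕ) (hm : Cx.Rel fun v => (m v : ℤ))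
    (hd : ∀ q, ∀ x ∈ Cx.supp q, DegLE (a q x) (D q))
    (W : V → k[X]) (hW : ∀ v, DegLE (W v) (m v)) (hF : ∀ q, Cx.F a q W = 0)
    (hfree : FreeS Cx a W (fun v => m v) fun q => D q + Cx.m (fun v => m v) q)
    (hvfree : VFreeS Cx a W (fun v => m v) fun q => D q + Cx.m (fun v => m v) q) :
    ∃ (k₁ : Type) (_ : Field k₁) (_ : Algebra k k₁) (_ : IsAlgClosed k₁) (W₁ : V → k₁[X]),
      (∀ v, DegLE (W₁ v) (m v)) ∧
      (∀ v, lc (W₁ v) (m v) = algebraMap k k₁ (lc (W v) (m v))) ∧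
      (∀ q, Cx.F (fun q x => (a q x).map (algebraMap k k₁)) q W₁ = 0) ∧
      FreeS Cx (fun q x => (a q x).map (algebraMap k k₁)) W₁ (fun v => m v)
        (fun q => D q + Cx.m (fun v => m v) q) ∧
      VFreeS Cx (fun q x => (a q x).map (algebraMap k k₁)) W₁ (fun v => m v)
        (fun q => D q + Cx.m (fun v => m v) q) ∧
      (∃ (A : Type) (_ : CommRing A) (π : A →+* k) (ι : A →+* k₁) (j : k →+* A) (WA : V → A[X]),
        Function.Injective ι ∧ π.comp j = RingHom.id k ∧ ι.comp j = algebraMap k k₁ ∧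
        (∀ v, (WA v).map π = W v) ∧ ∀ v, (WA v).map ι = W₁ v) ∧
      ∀ θ : V → k₁[X], (∀ v, DegLE (θ v) ((m v : ℤ) - 1)) →
        (∀ q, ∑ v, Cx.J (fun q x => (a q x).map (algebraMap k k₁)) q v W₁ * θ v = 0) →
        ∃ δ : Derivation k k₁ k₁, ∀ v i, δ ((W₁ v).coeff i) = (θ v).coeff i := by
  classical
  let E : Q → ℕ := fun q => (D q + Cx.m (fun v => m v) q).toNat
  let z : V → k := fun v => lc (W v) (m v)
  let z₀ : (Σ v, Fin (m v)) → k := fun s => (W s.1).coeff s.2
  let P : (Σ q, Fin (E q)) → MvPolynomial (Σ v, Fin (m v)) k := fun r => eqc Cx m z a r.1 r.2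
  have hid : ∀ q x, (a q x).map (algebraMap k k) = a q x := fun q x => by
    rw [Algebra.algebraMap_self, Polynomial.map_id]
  have hWself : gcv m (fun v => algebraMap k k (z v)) z₀ = W := by
    funext v
    exact gcv_self m W hW v
  -- the value of the Jacobian at `W`
  have hJ0 : ∀ q i (θ : V → k[X]), (∀ v, DegLE (θ v) ((m v : ℤ) - 1)) →
      ∑ t, MvPolynomial.aeval z₀ (MvPolynomial.pderiv t (eqc Cx m z a q i)) * (θ t.1).coeff t.2 =
        (∑ v, Cx.J a q v W * θ v).coeff i := by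
    intro q i θ hθ
    rw [sum_pderiv m z a q i z₀ θ hθ, hWself]
    simp only [hid]
  have hE : ∀ q, ∀ i : Fin (E q), ((i : ℕ) : ℤ) ≤ D q + Cx.m (fun v => m v) q - 1 := by
    intro q i
    have h1 := i.2
    have h2 : (i : ℕ) < (D q + Cx.m (fun v => m v) q).toNat := h1
    omega
  have hex : ∀ s : Σ q, Fin (E q), ∃ h : V → k[X], (∀ v, DegLE (h v) ((m v : ℤ) - 1)) ∧
      ∀ q, ∑ v, Cx.J a q v W * h v = if q = s.1 then X ^ (s.2 : ℕ) else 0 := by
    intro s
    refine hfree _ fun q => ?_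
    by_cases h : q = s.1
    · rw [if_pos h, h]
      refine DegLE.mono ?_ (hE s.1 s.2)
      rw [← monomial_one_right_eq_X_pow]
      exact DegLE.monomial _ _
    · rw [if_neg h]
      exact DegLE.zero _
  choose h hhd hhs using hex
  -- the coefficients of the monomials
  have hdel : ∀ (e : Q → ℕ) (r s : Σ q, Fin (e q)),
      (if r.1 = s.1 then (X : k[X]) ^ (s.2 : ℕ) else 0).coeff r.2 = if r = s then 1 else 0 := by
    rintro e ⟨q, i⟩ ⟨q', i'⟩
    by_cases h3 : q = q'
    · subst h3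
      rw [if_pos rfl, coeff_X_pow]
      by_cases h4 : i = i'
      · subst h4
        simp
      · rw [if_neg (fun h5 => h4 (Fin.ext h5)), if_neg]
        intro h5
        exact h4 (eq_of_heq (Sigma.mk.inj h5).2)
    · rw [if_neg h3, coeff_zero, if_neg]
      intro h5
      exact h3 (congrArg Sigma.fst h5)
  obtain ⟨k₁, _, _, _, z₁, hz₁, hsp, hder⟩ := gen_def P z₀
    (fun r => by
      simp only [P]
      rw [eqc_aeval, hWself]
      simp only [hid]
      rw [hF, coeff_zero])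
    (fun w => by
      refine ⟨fun t => ∑ s, w s * (h s t.1).coeff t.2, fun r => ?_⟩
      have h1 : ∀ t, MvPolynomial.aeval z₀ (MvPolynomial.pderiv t (P r)) *
          ∑ s, w s * (h s t.1).coeff t.2 = ∑ s, w s *
            (MvPolynomial.aeval z₀ (MvPolynomial.pderiv t (P r)) * (h s t.1).coeff t.2) := by
        intro t
        rw [Finset.mul_sum]
        exact Finset.sum_congr rfl fun s _ => by ring
      rw [Finset.sum_congr rfl fun t _ => h1 t, Finset.sum_comm]
      have h2 : ∀ s, ∑ t, w s * (MvPolynomial.aeval z₀ (MvPolynomial.pderiv t (P r)) *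
          (h s t.1).coeff t.2) = w s * if r = s then 1 else 0 := by
        intro s
        rw [← Finset.mul_sum]
        simp only [P]
        rw [hJ0 _ _ _ (hhd s), hhs, hdel E r s]
      rw [Finset.sum_congr rfl fun s _ => h2 s]
      simp)
  let W₁ : V → k₁[X] := gcv m (fun v => algebraMap k k₁ (z v)) z₁
  let a₁ : Q → Pt → k₁[X] := fun q x => (a q x).map (algebraMap k k₁)
  have hW₁ : ∀ v, DegLE (W₁ v) (m v) := fun v => gcv_degLE m _ _ v
  have hl₁ : ∀ v, lc (W₁ v) (m v) = algebraMap k k₁ (lc (W v) (m v)) := fun v => gcv_lc m _ _ v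
  have hd₁ : ∀ q, ∀ x ∈ Cx.supp q, DegLE (a₁ q x) (D q) := fun q x hx =>
    degLE_pmap _ (hd q x hx)
  have hJ₁ : ∀ q i (θ : V → k₁[X]), (∀ v, DegLE (θ v) ((m v : ℤ) - 1)) →
      ∑ t, MvPolynomial.aeval z₁ (MvPolynomial.pderiv t (eqc Cx m z a q i)) * (θ t.1).coeff t.2 =
        (∑ v, Cx.J a₁ q v W₁ * θ v).coeff i :=
    fun q i θ hθ => sum_pderiv m z a q i z₁ θ hθ
  have hF₁ : ∀ q, Cx.F a₁ q W₁ = 0 := by
    intro q
    ext i
    rw [coeff_zero]
    have hc₁ : ∀ x ∈ Cx.supp q, DegLE (a₁ q x)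
        (D q + Cx.m (fun v => (m v : ℤ)) q - ∑ v, (m v : ℤ) * Cx.e q x v) :=
      fun x hx => by rw [hsum hm hx]; exact hd₁ q x hx
    by_cases h1 : (i : ℤ) < D q + Cx.m (fun v => m v) q
    · have h2 : i < E q := by
        simp only [E]
        omega
      have h3 := hz₁ ⟨q, ⟨i, h2⟩⟩
      simp only [P] at h3
      rw [eqc_aeval] at h3
      exact h3
    · by_cases h2 : (i : ℤ) = D q + Cx.m (fun v => m v) q
      · have hc : ∀ x ∈ Cx.supp q, DegLE (a q x)
            (D q + Cx.m (fun v => (m v : ℤ)) q - ∑ v, (m v : ℤ) * Cx.e q x v) :=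
          fun x hx => by rw [hsum hm hx]; exact hd q x hx
        have h3 := Cox.F_lc (n := fun v => (m v : ℤ)) hc₁ hW₁
        have h4 := Cox.F_lc (n := fun v => (m v : ℤ)) hc hW
        rw [hF] at h4
        have h5 := congrArg (algebraMap k k₁) h4
        rw [Cox.F_map, show lc (0 : k[X]) (D q + Cx.m (fun v => (m v : ℤ)) q) = 0 by
          unfold lc; simp, map_zero] at h5
        have h6 : lc (Cx.F a₁ q W₁) (D q + Cx.m (fun v => (m v : ℤ)) q) = 0 := by
          rw [h3, h5, Cox.F_eq, Cox.F_eq]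
          refine Finset.sum_congr rfl fun x hx => ?_
          simp only [hl₁]
          congr 1
          exact lc_pmap _ _ _
        rw [← h2, lc_of_nat] at h6
        exact h6
      · exact Cox.F_degLE (n := fun v => (m v : ℤ)) hc₁ hW₁ i (by omega)
  -- the persistence of the surjectivity
  have hpers : ∀ (e : Q → ℕ) (h : (Σ q, Fin (e q)) → V → k[X]),
      (∀ s v, DegLE (h s v) ((m v : ℤ) - 1)) →
      (∀ s q, ∑ v, Cx.J a q v W * h s v = if q = s.1 then X ^ (s.2 : ℕ) else 0) →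
      ∀ b : (Σ q, Fin (e q)) → k₁, ∃ c : (Σ q, Fin (e q)) → k₁, ∀ r : Σ q, Fin (e q),
        (∑ v, Cx.J a₁ r.1 v W₁ * ∑ s, C (c s) * (h s v).map (algebraMap k k₁)).coeff r.2 = b r := by
    intro e h hhd hhs b
    obtain ⟨c, hc⟩ := persist z₀ z₁ hsp (fun r s : Σ q, Fin (e q) =>
      ∑ t, MvPolynomial.pderiv t (eqc Cx m z a r.1 r.2) * MvPolynomial.C ((h s t.1).coeff t.2))
      (fun r s => by
        rw [map_sum]
        simp only [map_mul, MvPolynomial.aeval_C, Algebra.algebraMap_self, RingHom.id_apply]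
        rw [hJ0 _ _ _ (hhd s), hhs, hdel e r s]) b
    refine ⟨c, fun r => ?_⟩
    rw [← hJ₁ r.1 r.2 (fun v => ∑ s, C (c s) * (h s v).map (algebraMap k k₁))
      (fun v => DegLE.sum fun s _ => ((DegLE.C _ le_rfl).mul
        (degLE_pmap _ (hhd s v))).mono (by omega)), ← hc r]
    have h1 : ∀ t : Σ v, Fin (m v), MvPolynomial.aeval z₁ (MvPolynomial.pderiv t
        (eqc Cx m z a r.1 r.2)) * (∑ s, C (c s) * (h s t.1).map (algebraMap k k₁)).coeff t.2 =
        ∑ s, MvPolynomial.aeval z₁ (MvPolynomial.pderiv t (eqc Cx m z a r.1 r.2)) *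
          algebraMap k k₁ ((h s t.1).coeff t.2) * c s := by
      intro t
      rw [finsetSum_coeff, Finset.mul_sum]
      refine Finset.sum_congr rfl fun s _ => ?_
      rw [coeff_C_mul, coeff_map]
      ring
    rw [Finset.sum_congr rfl fun t _ => h1 t, Finset.sum_comm]
    refine Finset.sum_congr rfl fun s _ => ?_
    rw [map_sum, Finset.sum_mul]
    exact Finset.sum_congr rfl fun t _ => by rw [map_mul, MvPolynomial.aeval_C]
  refine ⟨k₁, inferInstance, inferInstance, inferInstance, W₁, hW₁, hl₁, hF₁, ?_, ?_, ?_, ?_⟩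
  · -- `FreeS`
    intro g hg
    obtain ⟨c, hc⟩ := hpers E h hhd hhs fun r => (g r.1).coeff r.2
    have hθ : ∀ v, DegLE (∑ s, C (c s) * (h s v).map (algebraMap k k₁)) ((m v : ℤ) - 1) :=
      fun v => DegLE.sum fun s _ => ((DegLE.C _ le_rfl).mul
        (degLE_pmap _ (hhd s v))).mono (by omega)
    refine ⟨fun v => ∑ s, C (c s) * (h s v).map (algebraMap k k₁), hθ, fun q => ?_⟩
    ext i
    by_cases h1 : i < E q
    · exact hc ⟨q, ⟨i, h1⟩⟩
    · have h2 : D q + Cx.m (fun v => (m v : ℤ)) q - 1 < i := by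
        simp only [E] at h1
        omega
      rw [sum_J_degLE hm hd₁ hW₁ hθ q i h2, hg q i h2]
  · -- `VFreeS`
    let e : Q → ℕ := fun q => E q - 1
    have hex : ∀ s : Σ q, Fin (e q), ∃ (h : V → k[X]) (γ : V → k), Cx.Eul γ ∧
        (∀ v, DegLE (h v) ((m v : ℤ) - 1)) ∧
        (∀ v, lc (h v) ((m v : ℤ) - 1) = γ v * lc (W v) (m v)) ∧
        ∀ q, ∑ v, Cx.J a q v W * h v = if q = s.1 then X ^ (s.2 : ℕ) else 0 := by
      intro s
      refine hvfree _ fun q => ?_
      by_cases h : q = s.1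
      · rw [if_pos h, h]
        have h2 : ((s.2 : ℕ) : ℤ) ≤ D s.1 + Cx.m (fun v => m v) s.1 - 2 := by
          have h3 : (s.2 : ℕ) < (D s.1 + Cx.m (fun v => m v) s.1).toNat - 1 := s.2.2
          omega
        refine DegLE.mono ?_ h2
        rw [← monomial_one_right_eq_X_pow]
        exact DegLE.monomial _ _
      · rw [if_neg h]
        exact DegLE.zero _
    choose h γ hγ hhd hhl hhs using hex
    intro g hg
    obtain ⟨c, hc⟩ := hpers e h hhd hhs fun r => (g r.1).coeff r.2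
    have hθ : ∀ v, DegLE (∑ s, C (c s) * (h s v).map (algebraMap k k₁)) ((m v : ℤ) - 1) :=
      fun v => DegLE.sum fun s _ => ((DegLE.C _ le_rfl).mul
        (degLE_pmap _ (hhd s v))).mono (by omega)
    have hγ' : Cx.Eul (fun v => ∑ s, c s * algebraMap k k₁ (γ s v)) := by
      intro i
      have h1 : ∀ v, (Cx.ray v i : k₁) * ∑ s, c s * algebraMap k k₁ (γ s v) =
          ∑ s, c s * algebraMap k k₁ ((Cx.ray v i : k) * γ s v) := by
        intro v
        rw [Finset.mul_sum]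
        refine Finset.sum_congr rfl fun s _ => ?_
        rw [map_mul, map_intCast]
        ring
      rw [Finset.sum_congr rfl fun v _ => h1 v, Finset.sum_comm]
      refine Finset.sum_eq_zero fun s _ => ?_
      rw [← Finset.mul_sum, ← map_sum, hγ s i, map_zero, mul_zero]
    have hl' : ∀ v, lc (∑ s, C (c s) * (h s v).map (algebraMap k k₁)) ((m v : ℤ) - 1) =
        (∑ s, c s * algebraMap k k₁ (γ s v)) * lc (W₁ v) (m v) := by
      intro v
      rw [lc_sum, Finset.sum_mul]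
      refine Finset.sum_congr rfl fun s _ => ?_
      rw [lc_C_mul', lc_pmap, hhl, map_mul, hl₁]
      ring
    refine ⟨fun v => ∑ s, C (c s) * (h s v).map (algebraMap k k₁),
      fun v => ∑ s, c s * algebraMap k k₁ (γ s v), hγ', hθ, hl', fun q => ?_⟩
    ext i
    by_cases h1 : i < e q
    · exact hc ⟨q, ⟨i, h1⟩⟩
    · have h2 : D q + Cx.m (fun v => (m v : ℤ)) q - 2 < i := by
        simp only [e, E] at h1
        omega
      rw [hg q i h2]
      by_cases h3 : (i : ℤ) = D q + Cx.m (fun v => (m v : ℤ)) q - 1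
      · have h4 := sum_J_top hm hd₁ hW₁ (hF₁ q) hθ hγ' hl'
        rw [← h3, lc_of_nat] at h4
        exact h4
      · exact sum_J_degLE hm hd₁ hW₁ hθ q i (by omega)
  · -- the specialisation
    let I := RingHom.ker (MvPolynomial.aeval z₁ : MvPolynomial (Σ v, Fin (m v)) k →ₐ[k] k₁)
    let A := MvPolynomial (Σ v, Fin (m v)) k ⧸ I
    let ι : A →+* k₁ := Ideal.Quotient.lift I
      (MvPolynomial.aeval z₁ : MvPolynomial (Σ v, Fin (m v)) k →ₐ[k] k₁).toRingHom
      (fun G hG => hG)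
    let π : A →+* k := Ideal.Quotient.lift I
      (MvPolynomial.aeval z₀ : MvPolynomial (Σ v, Fin (m v)) k →ₐ[k] k).toRingHom
      (fun G hG => hsp G hG)
    have hι : ∀ G, ι (Ideal.Quotient.mk I G) = MvPolynomial.aeval z₁ G := fun G => rfl
    have hπ : ∀ G, π (Ideal.Quotient.mk I G) = MvPolynomial.aeval z₀ G := fun G => rfl
    let j : k →+* A := (Ideal.Quotient.mk I).comp MvPolynomial.C
    refine ⟨A, inferInstance, π, ι, j,
      gcv m (fun v => j (z v)) fun s => Ideal.Quotient.mk I (MvPolynomial.X s), ?_, ?_, ?_, ?_, ?_⟩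
    · rw [injective_iff_map_eq_zero]
      intro y hy
      obtain ⟨G, rfl⟩ := Ideal.Quotient.mk_surjective y
      rw [hι] at hy
      exact Ideal.Quotient.eq_zero_iff_mem.2 hy
    · ext c
      change π (Ideal.Quotient.mk I (MvPolynomial.C c)) = c
      rw [hπ, MvPolynomial.aeval_C]
      rfl
    · ext c
      change ι (Ideal.Quotient.mk I (MvPolynomial.C c)) = algebraMap k k₁ c
      rw [hι, MvPolynomial.aeval_C]
    · intro v
      rw [gcv_map]
      have h1 : (fun v => π (j (z v))) = fun v => algebraMap k k (z v) := by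
        funext v
        change π (Ideal.Quotient.mk I (MvPolynomial.C (z v))) = _
        rw [hπ, MvPolynomial.aeval_C]
      have h2 : (fun s => π (Ideal.Quotient.mk I (MvPolynomial.X s))) = z₀ := by
        funext s
        rw [hπ, MvPolynomial.aeval_X]
      rw [h1, h2, hWself]
    · intro v
      rw [gcv_map]
      have h1 : (fun v => ι (j (z v))) = fun v => algebraMap k k₁ (z v) := by
        funext v
        change ι (Ideal.Quotient.mk I (MvPolynomial.C (z v))) = _
        rw [hι, MvPolynomial.aeval_C]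
      have h2 : (fun s => ι (Ideal.Quotient.mk I (MvPolynomial.X s))) = z₁ := by
        funext s
        rw [hι, MvPolynomial.aeval_X]
      rw [h1, h2]
  · -- the derivations
    intro θ hθ hker
    obtain ⟨δ, hδ⟩ := hder (fun t => (θ t.1).coeff t.2) (fun r => by
      have h1 := hJ₁ r.1 r.2 θ hθ
      rw [hker, coeff_zero] at h1
      exact h1)
    refine ⟨δ, fun v i => ?_⟩
    change δ ((gcv m (fun v => algebraMap k k₁ (z v)) z₁ v).coeff i) = _
    rw [gcv_coeff, map_add]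
    have h1 : δ (if i = m v then algebraMap k k₁ (z v) else 0) = 0 := by
      split_ifs
      · exact δ.map_algebraMap _
      · exact map_zero _
    rw [h1, zero_add]
    by_cases h2 : i < m v
    · rw [dif_pos h2]
      exact hδ ⟨v, ⟨i, h2⟩⟩
    · rw [dif_neg h2, map_zero, hθ v i (by omega)]

end Pool.Agent.Work.WRC
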