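import Mathlib
import Pool.Agent.Work.MP_4329d7_ag_wrc.GenT
import Pool.Agent.Work.MP_4329d7_ag_wrc.SpzMap

/-!
W-RC: a linear functional on the kernel of the Jacobian at the generic point of a curve with
`VFreeS` vanishes if it vanishes on the values of the kernel vectors of degree `< m` and on the
Euler vectors (`ker_lin`).
-/

namespace Pool.Agent.Work.WRC

open Polynomial

namespace GenT

variable {V Q Pt : Type} [Fintype V] [Fintype Q] {k : Type} [Field k]

theorem eval_X_map_C (p : k[X]) : (p.map (RatFunc.C : k →+* RatFunc k)).eval RatFunc.X =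
    algebraMap k[X] (RatFunc k) p := by
  have h1 : ((evalRingHom (RatFunc.X : RatFunc k)).comp
      (mapRingHom (RatFunc.C : k →+* RatFunc k))) = algebraMap k[X] (RatFunc k) := by
    refine Polynomial.ringHom_ext (fun c => ?_) ?_
    · simp
    · simp
  exact congrArg (fun g : k[X] →+* RatFunc k => g p) h1

/-- the base change of the kernel -/
theorem ker_base (Cx : Cox V Q Pt) (a : Q → Pt → k[X]) (m : V → ℕ) (W : V → k[X])
    (M : V → RatFunc k)
    (hΛ : ∀ θ : V → k[X], (∀ v, DegLE (θ v) ((m v : ℤ) - 1)) →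
      (∀ q, ∑ v, Cx.J a q v W * θ v = 0) →
        ∑ v, M v * algebraMap k[X] (RatFunc k) (θ v) = 0)
    (Θ : V → (RatFunc k)[X]) (hΘ : ∀ v, DegLE (Θ v) ((m v : ℤ) - 1))
    (hker : ∀ q, ∑ v, Cx.J (fun q x => (a q x).map (RatFunc.C : k →+* RatFunc k)) q v
      (fun v => (W v).map RatFunc.C) * Θ v = 0) :
    ∑ v, M v * (Θ v).eval RatFunc.X = 0 := by
  classical
  let b := Module.Basis.ofVectorSpace k (RatFunc k)
  let A : Finset (Module.Basis.ofVectorSpaceIndex k (RatFunc k)) :=
    Finset.univ.biUnion fun t : Σ v, Fin (m v) => (b.repr ((Θ t.1).coeff t.2)).support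
  let θ : Module.Basis.ofVectorSpaceIndex k (RatFunc k) → V → k[X] := fun α v =>
    ∑ l : Fin (m v), C (b.repr ((Θ v).coeff l) α) * X ^ (l : ℕ)
  have hcoeff : ∀ α v i, (θ α v).coeff i = b.repr ((Θ v).coeff i) α := by
    intro α v i
    simp only [θ]
    rw [finsetSum_coeff]
    simp only [coeff_C_mul, coeff_X_pow]
    by_cases hi : i < m v
    · rw [Finset.sum_eq_single ⟨i, hi⟩]
      · simp
      · intro l _ hl
        rw [if_neg (fun h' => hl (Fin.ext h'.symm)), mul_zero]
      · simp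
    · rw [hΘ v i (by omega), map_zero, Finsupp.zero_apply]
      refine Finset.sum_eq_zero fun l _ => ?_
      rw [if_neg (by have := l.2; omega), mul_zero]
  have hdeg : ∀ α v, DegLE (θ α v) ((m v : ℤ) - 1) := by
    intro α v i hi
    rw [hcoeff, hΘ v i hi, map_zero, Finsupp.zero_apply]
  -- the kernel
  have hkerα : ∀ α q, ∑ v, Cx.J a q v W * θ α v = 0 := by
    intro α q
    ext i
    rw [coeff_zero, ← sum_coeff_mul m _ _ (hdeg α)]
    have h1 := congrArg (fun p => p.coeff i) (hker q)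
    simp only [coeff_zero] at h1
    rw [← sum_coeff_mul m _ _ hΘ] at h1
    have h2 := congrArg (fun y => b.repr y α) h1
    simp only [map_sum, map_zero, Finsupp.zero_apply, Finsupp.finsetSum_apply] at h2
    rw [← h2]
    refine Finset.sum_congr rfl fun t _ => ?_
    have h3 : (Cx.J (fun q x => (a q x).map (RatFunc.C : k →+* RatFunc k)) q t.1
        (fun v => (W v).map RatFunc.C) * X ^ (t.2 : ℕ)).coeff i =
        RatFunc.C ((Cx.J a q t.1 W * X ^ (t.2 : ℕ)).coeff i) := by
      rw [J_map_poly, ← Polynomial.map_X (RatFunc.C : k →+* RatFunc k), ← Polynomial.map_pow,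
        ← Polynomial.map_mul, coeff_map]
    have h4 : ∀ (c : k) (y : RatFunc k), RatFunc.C c * y = c • y := fun c y => by
      rw [Algebra.smul_def, RatFunc.algebraMap_eq_C]
    rw [h3, h4, map_smul, Finsupp.smul_apply, smul_eq_mul, hcoeff]
  -- the value
  have hval : ∀ v, (Θ v).eval RatFunc.X =
      ∑ α ∈ A, b α * algebraMap k[X] (RatFunc k) (θ α v) := by
    intro v
    have h1 : ∀ l : Fin (m v), (Θ v).coeff l = ∑ α ∈ A, RatFunc.C (b.repr ((Θ v).coeff l) α) * b α := by
      intro l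
      have h2 : (b.repr ((Θ v).coeff l)).support ⊆ A := fun α hα =>
        Finset.mem_biUnion.2 ⟨⟨v, l⟩, Finset.mem_univ _, hα⟩
      conv_lhs => rw [← b.linearCombination_repr ((Θ v).coeff l)]
      rw [Finsupp.linearCombination_apply, Finsupp.sum_of_support_subset _ h2
        (fun α c => c • b α) (fun α _ => zero_smul _ _)]
      exact Finset.sum_congr rfl fun α _ => by rw [Algebra.smul_def, RatFunc.algebraMap_eq_C]
    have h2 : (Θ v).eval RatFunc.X = ∑ l : Fin (m v), (Θ v).coeff l * RatFunc.X ^ (l : ℕ) := by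
      conv_lhs => rw [degLE_sum (hΘ v)]
      rw [eval_finsetSum]
      exact Finset.sum_congr rfl fun l _ => by
        rw [eval_mul, eval_C, eval_pow, eval_X]
    rw [h2, Finset.sum_congr rfl fun l _ => by rw [h1 l, Finset.sum_mul], Finset.sum_comm]
    refine Finset.sum_congr rfl fun α _ => ?_
    simp only [θ]
    rw [map_sum, Finset.mul_sum]
    refine Finset.sum_congr rfl fun l _ => ?_
    rw [map_mul, map_pow, RatFunc.algebraMap_C, RatFunc.algebraMap_X]
    ring
  rw [Finset.sum_congr rfl fun v _ => by rw [hval v, Finset.mul_sum], Finset.sum_comm]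
  refine Finset.sum_eq_zero fun α _ => ?_
  have h1 := hΛ (θ α) (hdeg α) (hkerα α)
  have h2 : ∀ v, M v * (b α * algebraMap k[X] (RatFunc k) (θ α v)) =
      b α * (M v * algebraMap k[X] (RatFunc k) (θ α v)) := fun v => by ring
  rw [Finset.sum_congr rfl fun v _ => h2 v, ← Finset.mul_sum, h1, mul_zero]

/-- kernel vectors at the generic point are values of kernel vectors of degree `< m` modulo Euler
vectors -/
theorem ker_lin (Cx : Cox V Q Pt) (a : Q → Pt → k[X]) (D : Q → ℤ) (m : V → ℕ)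
    (hm : Cx.Rel fun v => (m v : ℤ)) (hd : ∀ q, ∀ x ∈ Cx.supp q, DegLE (a q x) (D q))
    (W : V → k[X]) (hW : ∀ v, DegLE (W v) (m v)) (hne : ∀ v, W v ≠ 0)
    (hF : ∀ q, Cx.F a q W = 0)
    (hvf : VFreeS Cx a W (fun v => m v) fun q => D q + Cx.m (fun v => m v) q)
    (hspan : ∀ v, m v = 0 → ∃ γ : V → ℤ, Cx.Rel γ ∧ γ v ≠ 0 ∧ ∀ w, w ≠ v → m w = 0 → γ w = 0)
    [CharZero k] (M : V → RatFunc k)
    (hM : ∀ γ : V → RatFunc k, Cx.Eul γ →
      ∑ v, M v * (γ v * algebraMap k[X] (RatFunc k) (W v)) = 0)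
    (hΛ : ∀ θ : V → k[X], (∀ v, DegLE (θ v) ((m v : ℤ) - 1)) →
      (∀ q, ∑ v, Cx.J a q v W * θ v = 0) →
        ∑ v, M v * algebraMap k[X] (RatFunc k) (θ v) = 0)
    (w : V → RatFunc k)
    (hw : ∀ q, ∑ v, Cx.J (fun q x => algebraMap k[X] (RatFunc k) (a q x)) q v
      (fun v => algebraMap k[X] (RatFunc k) (W v)) * w v = 0) :
    ∑ v, M v * w v = 0 := by
  classical
  let Wu : V → RatFunc k := fun v => algebraMap k[X] (RatFunc k) (W v)
  let au : Q → Pt → RatFunc k := fun q x => algebraMap k[X] (RatFunc k) (a q x)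
  have hWu : ∀ v, Wu v ≠ 0 := fun v =>
    (map_ne_zero_iff _ (IsFractionRing.injective k[X] (RatFunc k))).2 (hne v)
  have hFu : ∀ q, Cx.F au q Wu = 0 := by
    intro q
    have h1 := Cox.F_map (C := Cx) (algebraMap k[X] (RatFunc k)) a q W
    rw [hF, map_zero] at h1
    exact h1.symm
  -- the Euler reduction
  choose g hg1 hg2 hg3 using hspan
  let γ : V → RatFunc k := fun v => ∑ v' : {v // m v = 0},
    (w v' / (Wu v' * (g v' v'.2 v' : RatFunc k))) * (g v' v'.2 v : RatFunc k)
  have hγ : Cx.Eul γ := by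
    intro i
    simp only [γ, Finset.mul_sum]
    rw [Finset.sum_comm]
    refine Finset.sum_eq_zero fun v' _ => ?_
    have h1 := hg1 v' v'.2 i
    have h2 : ∑ v, (Cx.ray v i : RatFunc k) * (g v' v'.2 v : RatFunc k) = 0 := by
      exact_mod_cast congrArg (Int.cast : ℤ → RatFunc k) h1
    have h3 : ∀ v, (Cx.ray v i : RatFunc k) * ((w v' / (Wu v' * (g v' v'.2 v' : RatFunc k))) *
        (g v' v'.2 v : RatFunc k)) = (w v' / (Wu v' * (g v' v'.2 v' : RatFunc k))) *
        ((Cx.ray v i : RatFunc k) * (g v' v'.2 v : RatFunc k)) := fun v => by ring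
    rw [Finset.sum_congr rfl fun v _ => h3 v, ← Finset.mul_sum, h2, mul_zero]
  let w' : V → RatFunc k := fun v => w v - γ v * Wu v
  have hw'0 : ∀ v, m v = 0 → w' v = 0 := by
    intro v hv
    have h1 : γ v = w v / Wu v := by
      simp only [γ]
      rw [Finset.sum_eq_single ⟨v, hv⟩]
      · have h2 : (g v hv v : RatFunc k) ≠ 0 := Int.cast_ne_zero.2 (hg2 v hv)
        have h3 := hWu v
        field_simp
      · intro v' _ hv'
        rw [hg3 v' v'.2 v (fun h => hv' (Subtype.ext h.symm)) hv, Int.cast_zero, mul_zero]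
      · intro h
        exact absurd (Finset.mem_univ _) h
    simp only [w']
    rw [h1, div_mul_cancel₀ _ (hWu v), sub_self]
  have hw' : ∀ q, ∑ v, Cx.J au q v Wu * w' v = 0 := by
    intro q
    simp only [w', mul_sub, Finset.sum_sub_distrib]
    rw [Cox.euler au hγ q Wu, hFu, mul_zero, sub_zero]
    exact hw q
  -- the vector with values in `k(u)[X]`
  let aL : Q → Pt → (RatFunc k)[X] := fun q x => (a q x).map RatFunc.C
  let WL : V → (RatFunc k)[X] := fun v => (W v).map RatFunc.C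
  have hWL : ∀ v, DegLE (WL v) (m v) := fun v => degLE_pmap _ (hW v)
  have hdL : ∀ q, ∀ x ∈ Cx.supp q, DegLE (aL q x) (D q) := fun q x hx => degLE_pmap _ (hd q x hx)
  have hFL : ∀ q, Cx.F aL q WL = 0 := by
    intro q
    simp only [aL, WL]
    rw [F_map_poly, hF, Polynomial.map_zero]
  have hvfL : VFreeS Cx aL WL (fun v => m v) fun q => D q + Cx.m (fun v => m v) q := hvf.map _
  have hJu : ∀ q v, (Cx.J aL q v WL).eval RatFunc.X = Cx.J au q v Wu := by
    intro q v
    have h1 := Cox.J_map (C := Cx) (evalRingHom (RatFunc.X : RatFunc k)) aL q v WL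
    simp only [coe_evalRingHom] at h1
    rw [h1]
    simp only [aL, WL, eval_X_map_C]
    rfl
  let θ0 : V → (RatFunc k)[X] := fun v => C (w' v)
  have hθ0 : ∀ v, DegLE (θ0 v) ((m v : ℤ) - 1) := by
    intro v
    by_cases h : m v = 0
    · simp only [θ0]
      rw [hw'0 v h, map_zero]
      exact DegLE.zero _
    · exact DegLE.C _ (by omega)
  have hR : ∀ q, ∃ ψ : (RatFunc k)[X], DegLE ψ (D q + Cx.m (fun v => (m v : ℤ)) q - 2) ∧
      ∑ v, Cx.J aL q v WL * θ0 v = (X - C RatFunc.X) * ψ := by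
    intro q
    have h1 : (∑ v, Cx.J aL q v WL * θ0 v).eval RatFunc.X = 0 := by
      rw [eval_finsetSum, ← hw' q]
      exact Finset.sum_congr rfl fun v _ => by rw [eval_mul, hJu, eval_C]
    obtain ⟨ψ, hψ⟩ := dvd_iff_isRoot.2 h1
    refine ⟨ψ, ?_, hψ⟩
    have h2 := sum_J_degLE hm hdL hWL hθ0 q
    rw [hψ] at h2
    by_cases h3 : ψ = 0
    · rw [h3]
      exact DegLE.zero _
    · have h4 : ((X - C RatFunc.X) * ψ).natDegree = ψ.natDegree + 1 := by
        rw [natDegree_mul (X_sub_C_ne_zero _) h3, natDegree_X_sub_C, add_comm]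
      have h5 : ((ψ.natDegree + 1 : ℕ) : ℤ) ≤ D q + Cx.m (fun v => (m v : ℤ)) q - 1 := by
        by_contra hcon
        push Not at hcon
        have h6 := h2 _ hcon
        rw [← h4, coeff_natDegree, leadingCoeff_eq_zero] at h6
        exact mul_ne_zero (X_sub_C_ne_zero _) h3 h6
      intro i hi
      refine coeff_eq_zero_of_natDegree_lt ?_
      omega
  choose ψ hψd hψ using hR
  obtain ⟨h, γ', hγ', hhd, hhl, hhs⟩ := hvfL ψ hψd
  let Θ : V → (RatFunc k)[X] := fun v => θ0 v - (X - C RatFunc.X) * h v + C (γ' v) * WL v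
  have hXh : ∀ v, lc ((X - C RatFunc.X) * h v) (m v) = lc (h v) ((m v : ℤ) - 1) := by
    intro v
    have h1 : DegLE (X - C (RatFunc.X : RatFunc k)) 1 := by
      rw [show (1 : ℤ) = ((1 : ℕ) : ℤ) from rfl, degLE_iff, natDegree_X_sub_C]
    have h2 := lc_mul h1 (hhd v)
    have h3 : (1 : ℤ) + ((m v : ℤ) - 1) = (m v : ℤ) := by ring
    have h4 : lc (X - C (RatFunc.X : RatFunc k)) 1 = 1 := by
      rw [show (1 : ℤ) = ((1 : ℕ) : ℤ) from rfl, lc_of_nat, coeff_sub, coeff_X_one,
        coeff_C_of_ne_zero one_ne_zero, sub_zero]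
    rw [h3, h4, one_mul] at h2
    exact h2
  have hΘ : ∀ v, DegLE (Θ v) ((m v : ℤ) - 1) := by
    intro v
    have h1 : DegLE (X - C (RatFunc.X : RatFunc k)) 1 := by
      rw [show (1 : ℤ) = ((1 : ℕ) : ℤ) from rfl, degLE_iff, natDegree_X_sub_C]
    refine DegLE.pred ?_ ?_
    · have h2 : (1 : ℤ) + ((m v : ℤ) - 1) ≤ (m v : ℤ) := by omega
      exact ((((hθ0 v).mono (by omega)).sub ((h1.mul (hhd v)).mono h2)).add
        (((DegLE.C _ le_rfl).mul (hWL v)).mono (by omega)))
    · simp only [Θ]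
      rw [lc_add', sub_eq_add_neg, lc_add', lc_C_mul', ← hhl v, ← hXh v]
      have h2 : lc (θ0 v) (m v) = 0 := by
        rw [lc_of_nat]
        exact hθ0 v _ (by omega)
      have h3 : lc (-((X - C RatFunc.X) * h v)) (m v) = - lc ((X - C RatFunc.X) * h v) (m v) := by
        rw [lc_of_nat, lc_of_nat, coeff_neg]
      rw [h2, h3]
      ring
  have hker : ∀ q, ∑ v, Cx.J aL q v WL * Θ v = 0 := by
    intro q
    have h1 : ∀ v, Cx.J aL q v WL * Θ v = Cx.J aL q v WL * θ0 v -
        (X - C RatFunc.X) * (Cx.J aL q v WL * h v) + Cx.J aL q v WL * (C (γ' v) * WL v) := by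
      intro v
      simp only [Θ]
      ring
    rw [Finset.sum_congr rfl fun v _ => h1 v, Finset.sum_add_distrib, Finset.sum_sub_distrib,
      ← Finset.mul_sum, hψ, hhs, sub_self, zero_add]
    have h2 : Cx.Eul (fun v => C (γ' v) : V → (RatFunc k)[X]) := by
      intro i
      have h3 := congrArg (C : RatFunc k → (RatFunc k)[X]) (hγ' i)
      rw [map_sum, map_zero] at h3
      rw [← h3]
      exact Finset.sum_congr rfl fun v _ => by rw [map_mul, map_intCast]
    rw [Cox.euler aL h2 q WL, hFL, mul_zero]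
  have key := ker_base Cx a m W M hΛ Θ hΘ hker
  have hΘu : ∀ v, (Θ v).eval RatFunc.X = w v + (γ' v - γ v) * Wu v := by
    intro v
    simp only [Θ, θ0, w']
    rw [eval_add, eval_sub, eval_mul, eval_sub, eval_X, eval_C, eval_C, sub_self, zero_mul,
      sub_zero, eval_mul, eval_C]
    have h1 : (WL v).eval RatFunc.X = Wu v := eval_X_map_C (W v)
    rw [h1]
    ring
  have hEul : Cx.Eul (fun v => γ' v - γ v) := by
    intro i
    simp only [mul_sub, Finset.sum_sub_distrib]
    rw [hγ' i, hγ i, sub_zero]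
  have h5 := hM _ hEul
  rw [Finset.sum_congr rfl fun v _ => by rw [hΘu v, mul_add], Finset.sum_add_distrib] at key
  rw [h5, add_zero] at key
  exact key

end GenT

end Pool.Agent.Work.WRC
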