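import Mathlib
import Pool.Agent.Work.MP_4329d7_ag_wrc.KerLin
import Pool.Agent.Work.MP_4329d7_ag_wrc.ToothMap
import Pool.Agent.Work.MP_4329d7_ag_wrc.FinDefs
import Pool.Agent.Work.MP_4329d7_ag_wrc.NDx
import Pool.Agent.Work.MP_4329d7_ag.LemYV
import Pool.Agent.Work.MP_4329d7_ag_ci.FormA

/-!
W-RC, the generic deformation of a tooth (`tooth_gen`).

The lower coefficients are deformed generically (`gen_curve`); the homomorphism of `K` is transported
by specialisation (`spz_poly`); the values of the fibre coordinates at the generic point are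
algebraically independent over the field of the tooth by the derivations of `gen_curve` and
`ker_lin`.
-/

namespace Pool.Agent.Work.WRC

open Polynomial Pool.Agent.Work.CI Pool.Agent.Work.CW Pool.Agent.Work.MP_4329d7_ag_sq

namespace GenT

section ai

variable {k I : Type} [Field k]

theorem pderiv_totalDegree (P : MvPolynomial I k) (i : I) {N : ℕ}
    (hd : P.totalDegree ≤ N + 1) : (MvPolynomial.pderiv i P).totalDegree ≤ N := by
  classical
  unfold MvPolynomial.totalDegree
  refine Finset.sup_le fun m hm => ?_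
  rw [MvPolynomial.mem_support_iff, MvPolynomial.coeff_pderiv] at hm
  have h1 : m + Finsupp.single i 1 ∈ P.support := by
    rw [MvPolynomial.mem_support_iff]
    exact left_ne_zero_of_mul hm
  have h2 := (MvPolynomial.le_totalDegree h1).trans hd
  rw [Finsupp.sum_add_index' (fun _ => rfl) (fun _ _ _ => rfl),
    Finsupp.sum_single_index rfl] at h2
  omega

theorem eq_C_of_pderiv [CharZero k] (P : MvPolynomial I k)
    (h : ∀ i, MvPolynomial.pderiv i P = 0) : P = MvPolynomial.C (P.coeff 0) := by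
  classical
  refine MvPolynomial.totalDegree_eq_zero_iff_eq_C.1 ?_
  rw [MvPolynomial.totalDegree_eq_zero_iff]
  intro m hm i
  by_contra hi
  have h1 := congrArg (MvPolynomial.coeff (m - Finsupp.single i 1)) (h i)
  have h2 : m - Finsupp.single i 1 + Finsupp.single i 1 = m := by
    refine tsub_add_cancel_of_le ?_
    rw [Finsupp.single_le_iff]
    exact Nat.one_le_iff_ne_zero.2 hi
  rw [MvPolynomial.coeff_pderiv, h2, MvPolynomial.coeff_zero] at h1
  rcases mul_eq_zero.1 h1 with h3 | h3
  · exact (MvPolynomial.mem_support_iff.1 hm) h3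
  · exact Nat.cast_add_one_ne_zero _ h3

/-- algebraic independence over a subfield from derivations -/
theorem ai_over [CharZero k] [Fintype I] {L : Type} [Field L] (g : k →+* L) (y : I → L)
    (hD : ∀ w : I → L, (∀ D : L →+ L, (∀ a b, D (a * b) = a * D b + b * D a) →
      (∀ c, D (g c) = 0) → ∑ i, w i * D (y i) = 0) → w = 0) (P : MvPolynomial I k)
    (hP : MvPolynomial.eval₂ g y P = 0) : P = 0 := by
  classical
  let _ : Algebra k L := g.toAlgebra
  have hev : ∀ P : MvPolynomial I k, MvPolynomial.aeval y P = MvPolynomial.eval₂ g y P :=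
    fun P => rfl
  suffices h : ∀ (N : ℕ) (P : MvPolynomial I k), P.totalDegree ≤ N →
      MvPolynomial.aeval y P = 0 → P = 0 from h P.totalDegree P le_rfl (by rw [hev, hP])
  intro N
  induction N with
  | zero =>
    intro P hd hP
    have h1 : P = MvPolynomial.C (P.coeff 0) :=
      MvPolynomial.totalDegree_eq_zero_iff_eq_C.1 (Nat.le_zero.1 hd)
    rw [h1, MvPolynomial.aeval_C] at hP
    rw [h1, (map_eq_zero_iff _ (algebraMap k L).injective).1 hP, map_zero]
  | succ N ih =>
    intro P hd hP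
    have hder : ∀ i, MvPolynomial.pderiv i P = 0 := by
      intro i
      refine ih _ (pderiv_totalDegree P _ hd) ?_
      have h1 : (fun i => MvPolynomial.aeval y (MvPolynomial.pderiv i P)) = (0 : I → L) := by
        refine hD _ fun D hD1 hD2 => ?_
        let D' : Derivation k L L := Derivation.mk'
          { toFun := D
            map_add' := D.map_add
            map_smul' := fun c a => by
              rw [Algebra.smul_def, hD1, RingHom.id_apply, Algebra.smul_def]
              have h3 : D (algebraMap k L c) = 0 := hD2 c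
              rw [h3, mul_zero, add_zero] } fun a b => by
            change D (a * b) = a • D b + b • D a
            rw [hD1, smul_eq_mul, smul_eq_mul]
        have h2 := der_aeval D' P y
        rw [hP, map_zero] at h2
        exact h2.symm
      exact congrFun h1 i
    rw [eq_C_of_pderiv P hder, MvPolynomial.aeval_C] at hP
    rw [eq_C_of_pderiv P hder, (map_eq_zero_iff _ (algebraMap k L).injective).1 hP, map_zero]

end ai

section tooth

variable {K : Type} [Field K] [Algebra ℂ K] {n dB r : ℕ} {B Q : Type} [Fintype B] [Fintype Q]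
  {x : Fin (dB + r) → K} {f : B ⊕ Q → Lau (dB + r)} {V : Type} [Fintype V] [DecidableEq V]
  {k : Type} [Field k] [Algebra ℂ k]

omit [DecidableEq V] in
/-- the equations on a tooth -/
theorem tooth_eqs (T : Tot n dB r B Q x f) {ray : V → Fin r → ℤ} {x' : Fin (dB + r) → k}
    {Z : V → k} {m : V → ℕ} {W : V → k[X]} (hW : Tooth x f ray x' Z m W) :
    (∀ j, x' j ≠ 0) ∧ (∀ q, ev (f (Sum.inl q)) x' = 0) ∧
      ∀ q, (coxF f ray).F (fun q χ => C (cst (fun q => f (Sum.inr q)) x' q χ)) q W = 0 := by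
  classical
  obtain ⟨φ, hφ⟩ := hW.hom
  refine ⟨fun j hj => ?_, fun q => ?_, fun q => ?_⟩
  · have h1 := hφ j
    rw [hj, map_zero, zero_mul] at h1
    exact T.data.ne j ((map_eq_zero_iff _ φ.injective).1 h1)
  · have h1 := Pool.Agent.Work.CW.map_ev φ (f (Sum.inl q)) x
    rw [T.data.eq, map_zero] at h1
    have h2 : ev (f (Sum.inl q)) (fun j => φ (x j)) =
        ev (f (Sum.inl q)) fun j => (RatFunc.C (x' j) : RatFunc k) :=
      ev_base (T.base q) fun i => by
        rw [hφ]
        simp only [fibv_castAdd, zpow_zero, Finset.prod_const_one, mul_one]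
    rw [h2] at h1
    let e : k →ₐ[ℂ] RatFunc k :=
      { (RatFunc.C : k →+* RatFunc k) with
        commutes' := fun c => (algebraMap_ratFunc (E := k) c).symm }
    have h3 := Pool.Agent.Work.CW.map_ev e (f (Sum.inl q)) x'
    have h4 : e (ev (f (Sum.inl q)) x') = 0 := h3.trans h1.symm
    exact (map_eq_zero_iff _ e.injective).1 h4
  · have h1 := Pool.Agent.Work.CW.map_ev φ (f (Sum.inr q)) x
    rw [T.data.eq, map_zero] at h1
    have h2 : (fun j => φ (x j)) = fun i => RatFunc.C (x' i) *
        ∏ v, algebraMap k[X] (RatFunc k) (W v) ^ (fibv (ray v) : Fin (dB + r) → ℤ) i :=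
      funext hφ
    rw [h2, ev_cst (fun q => f (Sum.inr q)) (fun v => fibv (ray v)) x' W hW.ne q] at h1
    have h3 := (mul_eq_zero.1 h1.symm).resolve_left (Finset.prod_ne_zero_iff.2 fun v _ =>
      zpow_ne_zero _ (Spz.alg_ne (hW.ne v)))
    exact (map_eq_zero_iff _ (IsFractionRing.injective k[X] (RatFunc k))).1 h3

/-- the logarithmic derivative of a coordinate of the tooth -/
theorem der_coord {L : Type} [Field L] [Algebra ℂ L] (d : Derivation ℂ L L) (c : L)
    (hc : d c = 0) (b : V → ℤ) (w : V → L) (hw : ∀ v, w v ≠ 0) :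
    d (c * ∏ v, w v ^ b v) = (c * ∏ v, w v ^ b v) * ∑ v, (b v : L) * (d (w v) / w v) := by
  rw [Derivation.leibniz, hc, smul_zero, add_zero, Pool.Agent.Work.RC.derivation_prod,
    smul_eq_mul, Finset.mul_sum, Finset.mul_sum]
  refine Finset.sum_congr rfl fun v _ => ?_
  have hz : d (w v ^ b v) = (b v : L) * w v ^ b v * (d (w v) / w v) := by
    rw [Derivation.leibniz_zpow, zsmul_eq_mul, smul_eq_mul, zpow_sub_one₀ (hw v)]
    ring
  rw [hz, ← Finset.mul_prod_erase Finset.univ (fun v => w v ^ b v) (Finset.mem_univ v)]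
  ring

omit [Fintype B] [Fintype Q] [DecidableEq V] in
/-- the values at the tooth of the logarithmic derivatives -/
theorem ldv_tooth {L : Type} [Field L] [Algebra ℂ L] (ray : V → Fin r → ℤ)
    (y : Fin (dB + r) → L) (w : V → L) (hw : ∀ v, w v ≠ 0) (q : Q) (j : Fin (dB + r)) :
    ldv (f (Sum.inr q)) j (fun j => y j * ∏ v, w v ^ (fibv (ray v) : Fin (dB + r) → ℤ) j) =
      (∏ v, w v ^ mn (f (Sum.inr q)) (fibv (ray v))) *
        (coxF f ray).lg (cst (fun q => f (Sum.inr q)) y) q j w := by
  rw [coxF_lg, Finset.mul_sum]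
  unfold ldv
  refine Finset.sum_congr rfl fun χ hχ => ?_
  rw [Spz.mon_mul_prod y w hw (fun v => fibv (ray v)) χ]
  have h1 : ∀ v, w v ^ pair χ (fibv (ray v)) =
      w v ^ mn (f (Sum.inr q)) (fibv (ray v)) * w v ^ (coxF f ray).e q χ v := by
    intro v
    have h6 : ((coxF f ray).e q χ v : ℤ) =
      pair χ (fibv (ray v)) - mn (f (Sum.inr q)) (fibv (ray v)) :=
      coxR_e_cast (fun q => f (Sum.inr q)) (fun v => fibv (ray v)) hχ v
    rw [← zpow_natCast, ← zpow_add₀ (hw v), h6]
    congr 1
    ring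
  rw [Finset.prod_congr rfl fun v _ => h1 v, Finset.prod_mul_distrib]
  ring

/-- the relation of the derivations of `K` with the fibre rows at the tooth -/
theorem fib_rel (T : Tot n dB r B Q x f) (Δ : FanV V r) {L : Type} [Field L] [Algebra ℂ L]
    (φ : K →ₐ[ℂ] L) (y : Fin (dB + r) → L) (w : V → L) (hw : ∀ v, w v ≠ 0)
    (hφ : ∀ j, φ (x j) = y j * ∏ v, w v ^ (fibv (Δ.ray v) : Fin (dB + r) → ℤ) j)
    (E : Derivation ℂ K K) (hE : ∀ i : Fin dB, E (x (Fin.castAdd r i)) = 0) (q : Q) :
    ∑ l : Fin r, (coxF f Δ.ray).lg (cst (fun q => f (Sum.inr q)) y) q (Fin.natAdd dB l) w *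
      φ (E (x (Fin.natAdd dB l)) / x (Fin.natAdd dB l)) = 0 := by
  classical
  have h1 := formA_rel T.data E (Sum.inr q)
  rw [Fin.sum_univ_add] at h1
  simp only [hE, zero_div, mul_zero, Finset.sum_const_zero, zero_add] at h1
  have h2 := congrArg φ h1
  rw [map_zero, map_sum] at h2
  have hx : (fun j => φ (x j)) =
      fun j => y j * ∏ v, w v ^ (fibv (Δ.ray v) : Fin (dB + r) → ℤ) j := funext hφ
  have h3 : ∀ l : Fin r, φ (ldv (f (Sum.inr q)) (Fin.natAdd dB l) x *
      (E (x (Fin.natAdd dB l)) / x (Fin.natAdd dB l))) =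
      (∏ v, w v ^ mn (f (Sum.inr q)) (fibv (Δ.ray v))) *
        ((coxF f Δ.ray).lg (cst (fun q => f (Sum.inr q)) y) q (Fin.natAdd dB l) w *
          φ (E (x (Fin.natAdd dB l)) / x (Fin.natAdd dB l))) := by
    intro l
    rw [map_mul, Pool.Agent.Work.CW.map_ldv, hx, ldv_tooth (f := f) Δ.ray y w hw q]
    ring
  rw [Finset.sum_congr rfl fun l _ => h3 l, ← Finset.mul_sum] at h2
  exact (mul_eq_zero.1 h2).resolve_left
    (Finset.prod_ne_zero_iff.2 fun v _ => zpow_ne_zero _ (hw v))

/-- the values at a tooth with enough derivations are algebraically independent -/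
theorem gen_over (T : Tot n dB r B Q x f) (Δ : FanV V r) {k₁ : Type} [Field k₁] [Algebra ℂ k₁]
    (i : k →ₐ[ℂ] k₁) (x' : Fin (dB + r) → k) {Z : V → k₁} {m : V → ℕ} {W : V → k₁[X]}
    (hW : Tooth x f Δ.ray (fun j => i (x' j)) Z m W) (φ : K →ₐ[ℂ] RatFunc k₁)
    (hφ : ∀ j, φ (x j) = RatFunc.C (i (x' j)) *
      ∏ v, algebraMap k₁[X] (RatFunc k₁) (W v) ^ (fibv (Δ.ray v) : Fin (dB + r) → ℤ) j)
    (hder : ∀ θ : V → k₁[X], (∀ v, DegLE (θ v) ((m v : ℤ) - 1)) →
      (∀ q, ∑ v, (coxF f Δ.ray).J
        (fun q χ => C (cst (fun q => f (Sum.inr q)) (fun j => i (x' j)) q χ)) q v W * θ v = 0) →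
      ∃ δ : Derivation ℂ k₁ k₁, (∀ c, δ (i c) = 0) ∧ ∀ v j, δ ((W v).coeff j) = (θ v).coeff j)
    {I : Type} [Fintype I] (c : I → Fin r)
    (hc : AlgebraicIndependent (KBf x) fun j => x (Fin.natAdd dB (c j))) :
    GenOver i φ fun j => x (Fin.natAdd dB (c j)) := by
  classical
  have : CharZero k := charZero_of_injective_algebraMap (algebraMap ℂ k).injective
  have : CharZero k₁ := charZero_of_injective_algebraMap (algebraMap ℂ k₁).injective
  intro P hP h0
  refine hP (ai_over ((RatFunc.C : k₁ →+* RatFunc k₁).comp (i : k →+* k₁))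
    (fun j => φ (x (Fin.natAdd dB (c j)))) (fun lam hlam => ?_) P h0)
  obtain ⟨hx', hBev, hF⟩ := tooth_eqs T hW
  let Wu : V → RatFunc k₁ := fun v => algebraMap k₁[X] (RatFunc k₁) (W v)
  have hWu : ∀ v, Wu v ≠ 0 := fun v => Spz.alg_ne (hW.ne v)
  let y : Fin (dB + r) → RatFunc k₁ := fun j => RatFunc.C (i (x' j))
  let M : V → RatFunc k₁ := fun v => ∑ j, lam j * φ (x (Fin.natAdd dB (c j))) *
    (Δ.ray v (c j) : RatFunc k₁) / Wu v
  -- the functional on a vector
  have hM : ∀ g : V → RatFunc k₁, ∑ v, M v * (g v * Wu v) =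
      ∑ j, lam j * φ (x (Fin.natAdd dB (c j))) * ∑ v, (Δ.ray v (c j) : RatFunc k₁) * g v := by
    intro g
    simp only [M, Finset.sum_mul, Finset.mul_sum]
    rw [Finset.sum_comm]
    refine Finset.sum_congr rfl fun j _ => Finset.sum_congr rfl fun v _ => ?_
    have := hWu v
    field_simp
  have hray : ∀ g : V → RatFunc k₁, (coxF f Δ.ray).Eul g → ∀ l : Fin r,
      ∑ v, (Δ.ray v l : RatFunc k₁) * g v = 0 := by
    intro g hg l
    have h1 := hg (Fin.natAdd dB l)
    rw [← h1]
    refine Finset.sum_congr rfl fun v _ => ?_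
    change _ = (((fibv (Δ.ray v) : Fin (dB + r) → ℤ) (Fin.natAdd dB l) : ℤ) : RatFunc k₁) * g v
    rw [fibv_natAdd]
  let a : Q → (Fin (dB + r) → ℤ) → k₁[X] := fun q χ =>
    C (cst (fun q => f (Sum.inr q)) (fun j => i (x' j)) q χ)
  have hcst : (fun q χ => algebraMap k₁[X] (RatFunc k₁) (a q χ)) =
      cst (fun q => f (Sum.inr q)) y := by
    funext q χ
    let e : k₁ →ₐ[ℂ] RatFunc k₁ :=
      { (RatFunc.C : k₁ →+* RatFunc k₁) with
        commutes' := fun c => (algebraMap_ratFunc (E := k₁) c).symm }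
    have h1 := cst_map e (fun q => f (Sum.inr q)) (fun j => i (x' j)) q χ
    simp only [a]
    rw [RatFunc.algebraMap_C]
    exact h1.symm
  have key : ∀ w : V → RatFunc k₁, (∀ q, ∑ v, (coxF f Δ.ray).J
      (cst (fun q => f (Sum.inr q)) y) q v Wu * w v = 0) → ∑ v, M v * w v = 0 := by
    intro w hw
    refine ker_lin (coxF f Δ.ray) a (fun _ => 0) m hW.rel
      (fun q χ _ => DegLE.C _ le_rfl) W hW.deg hW.ne hF (by simpa using hW.vfree) hW.span M ?_ ?_ w
      (by rw [hcst]; exact hw)
    · intro g hg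
      rw [hM]
      exact Finset.sum_eq_zero fun j _ => by rw [hray g hg, mul_zero]
    · intro θ hθ hker
      obtain ⟨δ, hδ, hδW⟩ := hder θ hθ hker
      obtain ⟨d, hd⟩ := Pool.Agent.Work.MP_4329d7_ag.FF.exists_coeff δ
      have h1 := hlam { toFun := d, map_zero' := map_zero d, map_add' := map_add d }
        (fun a b => d.leibniz a b) (fun c => by
          change d (RatFunc.C (i c)) = 0
          rw [hd.2, hδ, map_zero])
      have h2 : ∀ v, d (Wu v) = algebraMap k₁[X] (RatFunc k₁) (θ v) := by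
        intro v
        simp only [Wu]
        rw [hd.poly]
        congr 1
        ext l
        unfold Pool.Agent.Work.MP_4329d7_ag.FF.dpoly
        rw [finsetSum_coeff]
        simp only [coeff_monomial]
        by_cases hl : l ∈ Finset.range ((W v).natDegree + 1)
        · rw [Finset.sum_eq_single l (fun b _ hb => if_neg hb) (fun h => absurd hl h), if_pos rfl,
            hδW]
        · rw [← hδW]
          rw [Finset.mem_range, not_lt] at hl
          rw [coeff_eq_zero_of_natDegree_lt (by omega), map_zero]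
          refine Finset.sum_eq_zero fun b hb => ?_
          rw [Finset.mem_range] at hb
          rw [if_neg (by omega)]
      have h3 : ∀ l : Fin r, d (φ (x (Fin.natAdd dB l))) = φ (x (Fin.natAdd dB l)) *
          ∑ v, (Δ.ray v l : RatFunc k₁) * (algebraMap k₁[X] (RatFunc k₁) (θ v) / Wu v) := by
        intro l
        have h4 := der_coord d (RatFunc.C (i (x' (Fin.natAdd dB l)))) (by
          rw [hd.2, hδ, map_zero]) (fun v => Δ.ray v l) Wu hWu
        have h5 : φ (x (Fin.natAdd dB l)) = RatFunc.C (i (x' (Fin.natAdd dB l))) *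
            ∏ v, Wu v ^ Δ.ray v l := by
          rw [hφ]
          simp only [fibv_natAdd, Wu]
        rw [h5, h4]
        congr 1
        exact Finset.sum_congr rfl fun v _ => by rw [h2]
      have h4 : ∑ j, lam j * d (φ (x (Fin.natAdd dB (c j)))) = 0 := h1
      rw [← h4]
      have h5 : ∀ v, M v * algebraMap k₁[X] (RatFunc k₁) (θ v) =
          M v * ((algebraMap k₁[X] (RatFunc k₁) (θ v) / Wu v) * Wu v) := fun v => by
        rw [div_mul_cancel₀ _ (hWu v)]
      rw [Finset.sum_congr rfl fun v _ => h5 v, hM]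
      refine Finset.sum_congr rfl fun j _ => ?_
      rw [h3]
      ring
  -- the coordinate `j0`
  funext j0
  obtain ⟨E, hE⟩ := exists_der_of_ai (k := KBf x) hc (fun j => if j = j0 then 1 else 0)
  have hE0 : ∀ l : Fin dB, E (x (Fin.castAdd r l)) = 0 := fun l => E.map_algebraMap (xB x l)
  choose g hg0 hg using fun l : Fin r => Δ.exists_ray (Pi.single l 1)
  let om : Fin r → RatFunc k₁ := fun l =>
    φ (E (x (Fin.natAdd dB l)) / x (Fin.natAdd dB l))
  let gam : V → RatFunc k₁ := fun v => ∑ l, (g l v : RatFunc k₁) * om l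
  have hgam : ∀ l, ∑ v, (Δ.ray v l : RatFunc k₁) * gam v = om l := by
    intro l
    simp only [gam, Finset.mul_sum]
    rw [Finset.sum_comm]
    have h1 : ∀ l', ∑ v, (Δ.ray v l : RatFunc k₁) * ((g l' v : RatFunc k₁) * om l') =
        ((Pi.single l' (1 : ℤ) : Fin r → ℤ) l : RatFunc k₁) * om l' := by
      intro l'
      rw [hg l' l]
      push_cast
      rw [Finset.sum_mul]
      exact Finset.sum_congr rfl fun v _ => by ring
    rw [Finset.sum_congr rfl fun l' _ => h1 l', Finset.sum_eq_single l]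
    · rw [Pi.single_eq_same, Int.cast_one, one_mul]
    · intro l' _ hl'
      rw [Pi.single_eq_of_ne (Ne.symm hl'), Int.cast_zero, zero_mul]
    · intro h
      exact absurd (Finset.mem_univ _) h
  have hFu : ∀ q, (coxF f Δ.ray).F (cst (fun q => f (Sum.inr q)) y) q Wu = 0 := by
    intro q
    have h1 := Cox.F_map (C := coxF f Δ.ray) (algebraMap k₁[X] (RatFunc k₁)) a q W
    rw [hF q, map_zero, hcst] at h1
    exact h1.symm
  have h6 := key (fun v => gam v * Wu v) (fun q => by
    have h1 : ∀ v, (coxF f Δ.ray).J (cst (fun q => f (Sum.inr q)) y) q v Wu * (gam v * Wu v) =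
        ∑ l : Fin r, (coxF f Δ.ray).lg (cst (fun q => f (Sum.inr q)) y) q (Fin.natAdd dB l) Wu *
          ((Δ.ray v l : RatFunc k₁) * gam v) := by
      intro v
      have h2 := Cox.J_mul_lg (C := coxF f Δ.ray) (cst (fun q => f (Sum.inr q)) y) q v Wu
      rw [hFu q, mul_zero, add_zero] at h2
      have h3 : ∑ j, (((coxF f Δ.ray).ray v j : ℤ) : RatFunc k₁) *
          (coxF f Δ.ray).lg (cst (fun q => f (Sum.inr q)) y) q j Wu =
          ∑ l : Fin r, (Δ.ray v l : RatFunc k₁) *
            (coxF f Δ.ray).lg (cst (fun q => f (Sum.inr q)) y) q (Fin.natAdd dB l) Wu := by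
        change ∑ j : Fin (dB + r), (((fibv (Δ.ray v) : Fin (dB + r) → ℤ) j : ℤ) : RatFunc k₁) * _
          = _
        rw [Fin.sum_univ_add]
        simp only [fibv_castAdd, fibv_natAdd, Int.cast_zero, zero_mul, Finset.sum_const_zero,
          zero_add]
      have h4 : (coxF f Δ.ray).J (cst (fun q => f (Sum.inr q)) y) q v Wu * (gam v * Wu v) =
          gam v * ((coxF f Δ.ray).J (cst (fun q => f (Sum.inr q)) y) q v Wu * Wu v) := by ring
      rw [h4, h2, h3, Finset.mul_sum]
      exact Finset.sum_congr rfl fun l _ => by ring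
    rw [Finset.sum_congr rfl fun v _ => h1 v, Finset.sum_comm]
    have h2 : ∀ l : Fin r, ∑ v, (coxF f Δ.ray).lg (cst (fun q => f (Sum.inr q)) y) q
        (Fin.natAdd dB l) Wu * ((Δ.ray v l : RatFunc k₁) * gam v) =
        (coxF f Δ.ray).lg (cst (fun q => f (Sum.inr q)) y) q (Fin.natAdd dB l) Wu * om l := by
      intro l
      rw [← Finset.mul_sum, hgam]
    rw [Finset.sum_congr rfl fun l _ => h2 l]
    exact fib_rel T Δ φ y Wu hWu hφ (E.restrictScalars ℂ) hE0 q)
  rw [hM, Finset.sum_congr rfl fun j _ => by rw [hgam]] at h6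
  have h7 : ∀ j, lam j * φ (x (Fin.natAdd dB (c j))) * om (c j) =
      lam j * if j = j0 then 1 else 0 := by
    intro j
    simp only [om]
    rw [mul_assoc, ← map_mul, mul_div_cancel₀ _ (T.data.ne _), hE]
    split_ifs
    · rw [map_one]
    · rw [map_zero]
  rw [Finset.sum_congr rfl fun j _ => h7 j] at h6
  simpa using h6

end tooth

end GenT

open GenT

variable {K : Type} [Field K] [Algebra ℂ K] {n dB r : ℕ} {B Q : Type} [Fintype B] [Fintype Q]
  {x : Fin (dB + r) → K} {f : B ⊕ Q → Lau (dB + r)} {V : Type} [Fintype V] [DecidableEq V]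

/-- **The generic deformation of a tooth.** -/
theorem tooth_gen (T : Tot n dB r B Q x f) (Δ : FanV V r) {k : Type} [Field k] [Algebra ℂ k]
    [IsAlgClosed k] (x' : Fin (dB + r) → k) (Z : V → k) (m : V → ℕ) (W : V → k[X])
    (hW : Tooth x f Δ.ray x' Z m W) {I : Type} [Fintype I] (c : I → Fin r)
    (hc : AlgebraicIndependent (KBf x) fun j => x (Fin.natAdd dB (c j))) :
    ∃ (k₁ : Type) (_ : Field k₁) (_ : Algebra ℂ k₁) (_ : IsAlgClosed k₁) (i : k →ₐ[ℂ] k₁)
      (W₁ : V → k₁[X]) (φ : K →ₐ[ℂ] RatFunc k₁),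
      Tooth x f Δ.ray (fun j => i (x' j)) (fun v => i (Z v)) m W₁ ∧
      (∀ j, φ (x j) = RatFunc.C (i (x' j)) *
        ∏ v, algebraMap k₁[X] (RatFunc k₁) (W₁ v) ^ (fibv (Δ.ray v) : Fin (dB + r) → ℤ) j) ∧
      GenOver i φ fun j => x (Fin.natAdd dB (c j)) := by
  classical
  have : CharZero k := charZero_of_injective_algebraMap (algebraMap ℂ k).injective
  obtain ⟨hx', hBev, hF⟩ := tooth_eqs T hW
  let a : Q → (Fin (dB + r) → ℤ) → k[X] := fun q χ => C (cst (fun q => f (Sum.inr q)) x' q χ)
  obtain ⟨k₁, _, alg, _, W₁, hd₁, hl₁, hF₁, hfree₁, hvfree₁, ⟨A, _, π, ι, jA, WA, hι, hπj, hιj,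
    hπW, hιW⟩, hder⟩ := gen_curve (coxF f Δ.ray) a (fun _ => 0) m hW.rel
      (fun q χ _ => DegLE.C _ le_rfl) W hW.deg hF (by simpa using hW.free)
      (by simpa using hW.vfree)
  let _ : Algebra ℂ k₁ := ((algebraMap k k₁).comp (algebraMap ℂ k)).toAlgebra
  let i : k →ₐ[ℂ] k₁ := { algebraMap k k₁ with commutes' := fun c => rfl }
  have hi : ∀ c, i c = algebraMap k k₁ c := fun c => rfl
  have hcst : (fun q χ => (a q χ).map (algebraMap k k₁)) =
      fun q χ => C (cst (fun q => f (Sum.inr q)) (fun j => i (x' j)) q χ) := by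
    funext q χ
    simp only [a]
    rw [map_C, cst_map i]
    rfl
  rw [hcst] at hF₁ hfree₁ hvfree₁ hder
  have hne₁ : ∀ v, W₁ v ≠ 0 := by
    intro v h
    apply hW.ne v
    have h1 : WA v = 0 := by
      rw [← hιW v] at h
      exact (Polynomial.map_eq_zero_iff hι).1 h
    rw [← hπW v, h1, Polynomial.map_zero]
  -- the homomorphism of `K`
  obtain ⟨φ₀, hφ₀⟩ := hW.hom
  obtain ⟨φ, hφ⟩ := spz_poly (W := V ⊕ Fin (dB + r)) T.data π ι hι
    (fun c => ⟨jA (algebraMap ℂ k c), by
      constructor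
      · exact congrArg (fun g : k →+* k => g (algebraMap ℂ k c)) hπj
      · exact congrArg (fun g : k →+* k₁ => g (algebraMap ℂ k c)) hιj⟩)
    (Sum.elim (fun v => (fibv (Δ.ray v) : Fin (dB + r) → ℤ)) fun l => Pi.single l 1)
    (Sum.elim WA fun l => C (jA (x' l)))
    (by
      rintro (v | l)
      · rw [Sum.elim_inl, hπW]
        exact hW.ne v
      · rw [Sum.elim_inr, map_C]
        have h1 : π (jA (x' l)) = x' l := congrArg (fun g : k →+* k => g (x' l)) hπj
        rw [h1]
        exact C_ne_zero.2 (hx' l))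
    (by
      intro q
      have hpt : (fun j => ∏ w, algebraMap k₁[X] (RatFunc k₁)
          ((Sum.elim WA (fun l => C (jA (x' l))) w : A[X]).map ι) ^
            (Sum.elim (fun v => (fibv (Δ.ray v) : Fin (dB + r) → ℤ)) (fun l => Pi.single l 1) w :
              Fin (dB + r) → ℤ) j) = fun j => RatFunc.C (i (x' j)) *
          ∏ v, algebraMap k₁[X] (RatFunc k₁) (W₁ v) ^ (fibv (Δ.ray v) : Fin (dB + r) → ℤ) j := by
        funext j
        rw [Fintype.prod_sum_type, mul_comm]
        congr 1
        · rw [Finset.prod_eq_single j]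
          · simp only [Sum.elim_inr, Pi.single_eq_same, zpow_one]
            rw [map_C]
            have h1 : ι (jA (x' j)) = i (x' j) := congrArg (fun g : k →+* k₁ => g (x' j)) hιj
            rw [h1, RatFunc.algebraMap_C]
          · intro l _ hl
            simp only [Sum.elim_inr]
            rw [Pi.single_eq_of_ne (Ne.symm hl), zpow_zero]
          · intro h
            exact absurd (Finset.mem_univ _) h
        · exact Finset.prod_congr rfl fun v _ => by rw [Sum.elim_inl, Sum.elim_inl, hιW]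
      rw [hpt]
      rcases q with q | q
      · have h2 : ev (f (Sum.inl q)) (fun j => RatFunc.C (i (x' j)) *
            ∏ v, algebraMap k₁[X] (RatFunc k₁) (W₁ v) ^ (fibv (Δ.ray v) : Fin (dB + r) → ℤ) j) =
            ev (f (Sum.inl q)) fun j => (RatFunc.C (i (x' j)) : RatFunc k₁) :=
          ev_base (T.base q) fun l => by
            simp only [fibv_castAdd, zpow_zero, Finset.prod_const_one, mul_one]
        rw [h2]
        let e : k₁ →ₐ[ℂ] RatFunc k₁ :=
          { (RatFunc.C : k₁ →+* RatFunc k₁) with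
            commutes' := fun c => (algebraMap_ratFunc (E := k₁) c).symm }
        have h3 := Pool.Agent.Work.CW.map_ev (e.comp i) (f (Sum.inl q)) x'
        rw [hBev, map_zero] at h3
        exact h3.symm
      · rw [ev_cst (fun q => f (Sum.inr q)) (fun v => fibv (Δ.ray v)) (fun j => i (x' j)) W₁ hne₁ q]
        have h3 : (coxR (fun q => f (Sum.inr q)) fun v => fibv (Δ.ray v)).F
            (fun q χ => C (cst (fun q => f (Sum.inr q)) (fun j => i (x' j)) q χ)) q W₁ = 0 := hF₁ q
        rw [h3, map_zero, mul_zero])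
    φ₀ (fun j => by
      rw [hφ₀, Fintype.prod_sum_type, mul_comm]
      congr 1
      · exact Finset.prod_congr rfl fun v _ => by rw [Sum.elim_inl, Sum.elim_inl, hπW]
      · rw [Finset.prod_eq_single j]
        · simp only [Sum.elim_inr, Pi.single_eq_same, zpow_one]
          rw [map_C]
          have h1 : π (jA (x' j)) = x' j := congrArg (fun g : k →+* k => g (x' j)) hπj
          rw [h1, RatFunc.algebraMap_C]
        · intro l _ hl
          simp only [Sum.elim_inr]
          rw [Pi.single_eq_of_ne (Ne.symm hl), zpow_zero]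
        · intro h
          exact absurd (Finset.mem_univ _) h)
  have hφ' : ∀ j, φ (x j) = RatFunc.C (i (x' j)) *
      ∏ v, algebraMap k₁[X] (RatFunc k₁) (W₁ v) ^ (fibv (Δ.ray v) : Fin (dB + r) → ℤ) j := by
    intro j
    rw [hφ, Fintype.prod_sum_type, mul_comm]
    congr 1
    · rw [Finset.prod_eq_single j]
      · simp only [Sum.elim_inr, Pi.single_eq_same, zpow_one]
        rw [map_C]
        have h1 : ι (jA (x' j)) = i (x' j) := congrArg (fun g : k →+* k₁ => g (x' j)) hιj
        rw [h1, RatFunc.algebraMap_C]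
      · intro l _ hl
        simp only [Sum.elim_inr]
        rw [Pi.single_eq_of_ne (Ne.symm hl), zpow_zero]
      · intro h
        exact absurd (Finset.mem_univ _) h
    · exact Finset.prod_congr rfl fun v _ => by rw [Sum.elim_inl, Sum.elim_inl, hιW]
  have hT₁ : Tooth x f Δ.ray (fun j => i (x' j)) (fun v => i (Z v)) m W₁ :=
    ⟨hW.rel, hW.span, hne₁, hd₁, fun v => by rw [hl₁, hW.top]; rfl, ⟨φ, hφ'⟩,
      by simpa using hfree₁, by simpa using hvfree₁⟩
  refine ⟨k₁, inferInstance, inferInstance, inferInstance, i, W₁, φ, hT₁, hφ', ?_⟩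
  refine gen_over T Δ i x' hT₁ φ hφ' (fun θ hθ hker => ?_) c hc
  obtain ⟨δ, hδ⟩ := hder θ hθ hker
  have hδk : ∀ c, δ (algebraMap k k₁ c) = 0 := fun c => δ.map_algebraMap c
  let δ' : Derivation ℂ k₁ k₁ := Derivation.mk'
    { toFun := δ
      map_add' := map_add δ
      map_smul' := fun c b => by
        have h1 : c • b = algebraMap k k₁ (algebraMap ℂ k c) * b := rfl
        have h2 : c • δ b = algebraMap k k₁ (algebraMap ℂ k c) * δ b := rfl
        rw [h1, Derivation.leibniz, hδk, smul_zero, add_zero, smul_eq_mul, RingHom.id_apply, h2] }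
    fun a b => δ.leibniz a b
  exact ⟨δ', hδk, hδ⟩

end Pool.Agent.Work.WRC
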