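import Mathlib
import Pool.Agent.Work.MP_4329d7_ag_wrc.Open
import Pool.Agent.Work.MP_4329d7_ag_wrc.SpzMap
import Pool.Agent.Work.MP_4329d7_ag_wrc.FinDefs
import Pool.Agent.Work.MP_4329d7_ag_wrc.NDy

/-!
W-RC, [Open] for teeth: `tooth_ps`; base change of teeth: `Tooth.map`.
-/

namespace Pool.Agent.Work.WRC

open Polynomial Pool.Agent.Work.CI Pool.Agent.Work.MP_4329d7_ag_sq

section om

theorem psO_injective (k : Type) [Field k] : Function.Injective (psO k) := by
  unfold psO
  rw [RingHom.coe_comp]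
  exact (algebraMap (LaurentSeries k) (Om k)).injective.comp HahnSeries.ofPowerSeries_injective

theorem cO_algebraMap (k : Type) [Field k] [Algebra ℂ k] (c : ℂ) :
    cO k (algebraMap ℂ k c) = algebraMap ℂ (Om k) c := by
  have h1 : HahnSeries.ofPowerSeries ℤ k (PowerSeries.C (algebraMap ℂ k c)) =
      algebraMap ℂ (LaurentSeries k) c := by
    rw [HahnSeries.algebraMap_apply', PowerSeries.algebraMap_apply]
  change algebraMap (LaurentSeries k) (Om k)
    (HahnSeries.ofPowerSeries ℤ k (PowerSeries.C (algebraMap ℂ k c))) = _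
  rw [h1]
  rfl

/-- the constants of `Om`, as a homomorphism over `ℂ` -/
noncomputable def cOA (k : Type) [Field k] [Algebra ℂ k] : k →ₐ[ℂ] Om k :=
  { cO k with commutes' := cO_algebraMap k }

theorem cOA_apply (k : Type) [Field k] [Algebra ℂ k] (c : k) : cOA k c = cO k c := rfl

theorem psO_C (k : Type) [Field k] (c : k) : psO k (PowerSeries.C c) = cO k c := rfl

end om

section tooth

variable {K : Type} [Field K] [Algebra ℂ K] {n dB r : ℕ} {B Q : Type} [Fintype B] [Fintype Q]
  {x : Fin (dB + r) → K} {f : B ⊕ Q → Lau (dB + r)} {V : Type} [Fintype V]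
  {ray : V → Fin r → ℤ}

section
variable {k : Type} [Field k] [Algebra ℂ k] {x' : Fin (dB + r) → k} {Z : V → k} {m : V → ℕ}
  {W : V → k[X]}

/-- the coordinates of the point are nonzero -/
theorem Tooth.ne_zero (D : Data K n (dB + r) (B ⊕ Q) x f) (h : Tooth x f ray x' Z m W)
    (j : Fin (dB + r)) : x' j ≠ 0 := by
  obtain ⟨φ, hφ⟩ := h.hom
  intro h0
  have h1 : φ (x j) ≠ 0 := by
    rw [Ne, map_eq_zero]
    exact D.ne j
  rw [hφ j, h0, map_zero, zero_mul] at h1
  exact h1 rfl

/-- the curve solves the fibre equations -/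
theorem Tooth.F_eq (D : Data K n (dB + r) (B ⊕ Q) x f) (h : Tooth x f ray x' Z m W) (q : Q) :
    (coxF f ray).F (fun q χ => C (cst (fun q => f (Sum.inr q)) x' q χ)) q W = 0 := by
  obtain ⟨φ, hφ⟩ := h.hom
  have h1 : ev (f (Sum.inr q)) (fun j => φ (x j)) = 0 := by
    rw [← Pool.Agent.Work.CW.map_ev φ, D.eq, map_zero]
  have h2 : (fun j => φ (x j)) = fun j => RatFunc.C (x' j) *
      ∏ v, algebraMap k[X] (RatFunc k) (W v) ^ (fibv (ray v) : Fin (dB + r) → ℤ) j :=
    funext hφ
  rw [h2, ev_cst (fun q => f (Sum.inr q)) (fun v => fibv (ray v)) x' W h.ne q] at h1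
  rcases mul_eq_zero.1 h1 with h3 | h3
  · exfalso
    refine (Finset.prod_ne_zero_iff.2 fun v _ => ?_) h3
    exact zpow_ne_zero _ (Spz.alg_ne (h.ne v))
  · exact IsFractionRing.injective k[X] (RatFunc k) (by rw [map_zero]; exact h3)

/-- the point solves the base equations -/
theorem Tooth.base (T : Tot n dB r B Q x f) (h : Tooth x f ray x' Z m W) (q : B) :
    ev (f (Sum.inl q)) x' = 0 := by
  obtain ⟨φ, hφ⟩ := h.hom
  have h1 : ev (f (Sum.inl q)) (fun j => φ (x j)) = 0 := by
    rw [← Pool.Agent.Work.CW.map_ev φ, T.data.eq, map_zero]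
  have h2 : ev (f (Sum.inl q)) (fun j => φ (x j)) =
      ev (f (Sum.inl q)) (fun j => RatFunc.C (x' j)) := by
    refine ev_base (T.base q) fun i => ?_
    rw [hφ]
    have h3 : ∀ v, (fibv (ray v) : Fin (dB + r) → ℤ) (Fin.castAdd r i) = 0 := fun v =>
      fibv_castAdd _ _
    simp only [h3, zpow_zero, Finset.prod_const_one, mul_one]
  rw [h2] at h1
  let CE : k →ₐ[ℂ] RatFunc k :=
    { (RatFunc.C : k →+* RatFunc k) with
      commutes' := fun c => (algebraMap_ratFunc (E := k) c).symm }
  have h4 := Pool.Agent.Work.CW.map_ev CE (f (Sum.inl q)) x'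
  have h5 : CE (ev (f (Sum.inl q)) x') = 0 := by
    rw [h4]
    exact h1
  exact (map_eq_zero CE).1 h5

end


section lift

variable {k : Type} [Field k] [Algebra ℂ k]

/-- the coefficients at a point of the torus over the power series -/
noncomputable def cstU {d : ℕ} {Q : Type} (f : Q → Lau d) (U : Fin d → (PowerSeries k)ˣ)
    (q : Q) (χ : Fin d → ℤ) : PowerSeries k :=
  PowerSeries.C (algebraMap ℂ k (f q χ)) * ((∏ j, U j ^ χ j : (PowerSeries k)ˣ) : PowerSeries k)

theorem map_prod_units {A L : Type} [CommRing A] [Field L] (g : A →+* L) {d : ℕ}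
    (U : Fin d → Aˣ) (χ : Fin d → ℤ) :
    g ((∏ j, U j ^ χ j : Aˣ) : A) = mon (fun j => g (U j : A)) χ := by
  have h1 : ∀ u : Aˣ, g (u : A) = ((Units.map (g : A →* L) u : Lˣ) : L) := fun u => rfl
  rw [h1, map_prod, Units.coe_prod]
  unfold mon
  refine Finset.prod_congr rfl fun j _ => ?_
  rw [map_zpow, Units.val_zpow_eq_zpow_val]
  rfl

theorem cstU_map {d : ℕ} {Q : Type} (f : Q → Lau d) (U : Fin d → (PowerSeries k)ˣ)
    {L : Type} [Field L] [Algebra ℂ L] (g : PowerSeries k →+* L)
    (hg : ∀ c : ℂ, g (PowerSeries.C (algebraMap ℂ k c)) = algebraMap ℂ L c) (q : Q)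
    (χ : Fin d → ℤ) : g (cstU f U q χ) = cst f (fun j => g (U j)) q χ := by
  unfold cstU cst
  rw [map_mul, hg, map_prod_units]

/-- the index set of the constants and of the polynomials -/
theorem st_prod {d : ℕ} {A L : Type} [CommRing A] [Field L] (g : A →+* L)
    (X : Fin d → A) (Y : V → A[X]) (b : V → Fin d → ℤ) (j : Fin d) :
    ∏ w : Fin d ⊕ V, algebraMap L[X] (RatFunc L)
      ((Sum.elim (fun i => Polynomial.C (X i)) Y w).map g) ^
        (Sum.elim (fun (i j : Fin d) => if i = j then (1 : ℤ) else 0) b w j) =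
      RatFunc.C (g (X j)) * ∏ v, algebraMap L[X] (RatFunc L) ((Y v).map g) ^ b v j := by
  classical
  rw [Fintype.prod_sum_type]
  congr 1
  rw [Finset.prod_eq_single j]
  · rw [Sum.elim_inl, Sum.elim_inl, if_pos rfl, zpow_one, map_C, RatFunc.algebraMap_C]
  · intro i _ hi
    rw [Sum.elim_inl, Sum.elim_inl, if_neg hi, zpow_zero]
  · intro h
    exact absurd (Finset.mem_univ j) h

/-- [Open] for teeth, over any field containing the power series -/
theorem tooth_psL (T : Tot n dB r B Q x f) {x' : Fin (dB + r) → k} {Z : V → k} {m : V → ℕ}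
    {W : V → k[X]} (hW : Tooth x f ray x' Z m W) {L : Type} [Field L] [Algebra ℂ L]
    (g : PowerSeries k →+* L) (hg : Function.Injective g)
    (hC : ∀ c : ℂ, g (PowerSeries.C (algebraMap ℂ k c)) = algebraMap ℂ L c)
    (X : Fin (dB + r) → PowerSeries k)
    (hX : ∀ j, PowerSeries.constantCoeff (X j) = x' j) (Zh : V → PowerSeries k)
    (hZ : ∀ v, PowerSeries.constantCoeff (Zh v) = Z v)
    (hB : ∀ q : B, ev (f (Sum.inl q)) (fun j => g (X j)) = 0)
    (hF : ∀ q : Q, (coxF f ray).F (cst (fun q => f (Sum.inr q)) fun j => g (X j)) q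
      (fun v => g (Zh v)) = 0) :
    ∃ Y : V → (PowerSeries k)[X], (∀ v, red (Y v) = W v) ∧
      Tooth x f ray (fun j => g (X j)) (fun v => g (Zh v)) m fun v => (Y v).map g := by
  classical
  have hx' := fun j => hW.ne_zero T.data j
  have hunit : ∀ j, IsUnit (X j) := fun j => by
    rw [PowerSeries.isUnit_iff_constantCoeff, hX, isUnit_iff_ne_zero]
    exact hx' j
  choose U hU using hunit
  have h1 : ∀ q χ, g (cstU (fun q => f (Sum.inr q)) U q χ) =
      cst (fun q => f (Sum.inr q)) (fun j => g (X j)) q χ := by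
    intro q χ
    rw [cstU_map (fun q => f (Sum.inr q)) U g hC]
    simp only [hU]
  have h2 : ∀ q χ, PowerSeries.constantCoeff (cstU (fun q => f (Sum.inr q)) U q χ) =
      cst (fun q => f (Sum.inr q)) x' q χ := by
    intro q χ
    rw [cstU_map (fun q => f (Sum.inr q)) U (PowerSeries.constantCoeff (R := k)) (fun c => by
      rw [PowerSeries.constantCoeff_C])]
    simp only [hU, hX]
  obtain ⟨Y, hY1, hY2, hY3, hY4, hY5⟩ := open_ps (C := coxF f ray) (n := m) hW.rel
    (a := cstU (fun q => f (Sum.inr q)) U) (Z := Zh) (fun q => by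
      refine hg ?_
      rw [map_zero, Cox.F_map]
      simp only [h1]
      exact hF q) (T := W) hW.deg (fun v => by rw [hZ, hW.top]) (fun v _ => hW.ne v)
    (by
      simp only [h2]
      exact hW.F_eq T.data)
    (by simp only [h2]; exact hW.free) (by simp only [h2]; exact hW.vfree)
  obtain ⟨hf, hvf⟩ := hY5 L g
  simp only [h1] at hf hvf
  have hYne : ∀ v, red (Y v) ≠ 0 := fun v => by rw [hY3]; exact hW.ne v
  have hYne' : ∀ v, (Y v).map g ≠ 0 := by
    intro v h
    rw [Polynomial.map_eq_zero_iff hg] at h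
    exact hYne v (by rw [h, map_zero])
  have hFY : ∀ q, (coxF f ray).F (fun q χ => Polynomial.C
      (cst (fun q => f (Sum.inr q)) (fun j => g (X j)) q χ)) q (fun v => (Y v).map g) = 0 := by
    intro q
    have h3 := congrArg (mapRingHom g) (hY4 q)
    rw [map_zero, Cox.F_map] at h3
    simp only [coe_mapRingHom, map_C, h1] at h3
    exact h3
  -- the point
  have hPev : ∀ q, ev (f q) (fun j => RatFunc.C (g (X j)) *
      ∏ v, algebraMap L[X] (RatFunc L) ((Y v).map g) ^
        (fibv (ray v) : Fin (dB + r) → ℤ) j) = 0 := by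
    rintro (q | q)
    · have h3 : ev (f (Sum.inl q)) (fun j => RatFunc.C (g (X j)) *
          ∏ v, algebraMap L[X] (RatFunc L) ((Y v).map g) ^
            (fibv (ray v) : Fin (dB + r) → ℤ) j) =
          ev (f (Sum.inl q)) (fun j => (RatFunc.C (g (X j)) : RatFunc L)) := by
        refine ev_base (T.base q) fun i => ?_
        have h3 : ∀ v, (fibv (ray v) : Fin (dB + r) → ℤ) (Fin.castAdd r i) = 0 := fun v =>
          fibv_castAdd _ _
        simp only [h3, zpow_zero, Finset.prod_const_one, mul_one]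
      let CE : L →ₐ[ℂ] RatFunc L :=
        { (RatFunc.C : L →+* RatFunc L) with
          commutes' := fun c => (algebraMap_ratFunc (E := L) c).symm }
      have h4 := Pool.Agent.Work.CW.map_ev CE (f (Sum.inl q)) fun j => g (X j)
      rw [h3]
      rw [hB q, map_zero] at h4
      exact h4.symm
    · rw [ev_cst (fun q => f (Sum.inr q)) (fun v => fibv (ray v)) (fun j => g (X j))
        (fun v => (Y v).map g) hYne' q]
      have h5 := hFY q
      unfold coxF at h5
      rw [h5, map_zero, mul_zero]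
  refine ⟨Y, hY3, ⟨hW.rel, hW.span, hYne', fun v => op_degLE_map g (hY1 v),
    fun v => ?_, ?_, hf, hvf⟩⟩
  · rw [op_lc_map, hY2]
  obtain ⟨φ, hφ⟩ := hW.hom
  -- specialisation
  obtain ⟨φ1, hφ1⟩ := spz_poly T.data (PowerSeries.constantCoeff (R := k)) g
    hg (fun z => ⟨PowerSeries.C (algebraMap ℂ k z), by simp, hC z⟩)
    (Sum.elim (fun (i j : Fin (dB + r)) => if i = j then (1 : ℤ) else 0)
      (fun v => fibv (ray v)))
    (Sum.elim (fun i => Polynomial.C (X i)) Y)
    (by
      rintro (i | v)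
      · rw [Sum.elim_inl, map_C, hX]
        exact C_ne_zero.2 (hx' i)
      · rw [Sum.elim_inr]
        exact hYne v)
    (fun q => by
      simp only [st_prod]
      exact hPev q) φ
    (fun j => by
      rw [st_prod, hφ, hX]
      congr 1
      refine Finset.prod_congr rfl fun v _ => ?_
      have h6 : (Y v).map (PowerSeries.constantCoeff (R := k)) = W v := hY3 v
      rw [h6])
  exact ⟨φ1, fun j => by rw [hφ1, st_prod]⟩

/-- [Open] for teeth -/
theorem tooth_ps (T : Tot n dB r B Q x f) {x' : Fin (dB + r) → k} {Z : V → k} {m : V → ℕ}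
    {W : V → k[X]} (hW : Tooth x f ray x' Z m W) (X : Fin (dB + r) → PowerSeries k)
    (hX : ∀ j, PowerSeries.constantCoeff (X j) = x' j) (Zh : V → PowerSeries k)
    (hZ : ∀ v, PowerSeries.constantCoeff (Zh v) = Z v)
    (hB : ∀ q : B, ev (f (Sum.inl q)) (fun j => psO k (X j)) = 0)
    (hF : ∀ q : Q, (coxF f ray).F (cst (fun q => f (Sum.inr q)) fun j => psO k (X j)) q
      (fun v => psO k (Zh v)) = 0) :
    ∃ W' : V → (Om k)[X],
      Tooth x f ray (fun j => psO k (X j)) (fun v => psO k (Zh v)) m W' := by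
  obtain ⟨Y, -, h⟩ := tooth_psL T hW (psO k) (psO_injective k) (fun c => cO_algebraMap k c) X hX
    Zh hZ hB hF
  exact ⟨_, h⟩

end lift

end tooth

end Pool.Agent.Work.WRC
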