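import Mathlib
import Pool.Agent.Work.MP_4329d7_ag_wrc.ToothMap
import Pool.Agent.Work.MP_4329d7_ag_wrc.StepA
import Pool.Agent.Work.MP_4329d7_ag_wrc.FinDefs
import Pool.Agent.Work.MP_4329d7_ag_wrc.NDx

/-!
W-RC: teeth near the point at infinity of a section (`tooth_open`).
-/

namespace Pool.Agent.Work.WRC

open Polynomial Pool.Agent.Work.CI Pool.Agent.Work.MP_4329d7_ag_sq

section ps

variable {k k' : Type} [Field k] [Algebra ℂ k] [Field k'] [Algebra ℂ k']

/-- the polynomial `p` at `c / δ`, multiplied by `δ ^ d` -/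
noncomputable def pcd (i : k →+* k') (c : k') (p : k[X]) (d : ℕ) : PowerSeries k' :=
  ∑ j ∈ Finset.range (d + 1), PowerSeries.C (i (p.coeff j) * c ^ j) * PowerSeries.X ^ (d - j)

omit [Algebra ℂ k] [Algebra ℂ k'] in
theorem pcd_constantCoeff (i : k →+* k') (c : k') (p : k[X]) (d : ℕ) :
    PowerSeries.constantCoeff (pcd i c p d) = i (p.coeff d) * c ^ d := by
  unfold pcd
  rw [map_sum, Finset.sum_range_succ, Finset.sum_eq_zero, zero_add]
  · simp
  · intro j hj
    have h1 : d - j ≠ 0 := by
      have := Finset.mem_range.1 hj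
      omega
    simp [h1]

theorem pcd_eq (i : k →ₐ[ℂ] k') (c : k') (e : RatFunc k →ₐ[ℂ] Om k')
    (he : ∀ a, e (RatFunc.C a) = cO k' (i a)) (heX : e RatFunc.X * delta k' = cO k' c) (p : k[X])
    (d : ℕ) (hd : p.natDegree ≤ d) :
    e (algebraMap k[X] (RatFunc k) p) * delta k' ^ d = psO k' (pcd (i : k →+* k') c p d) := by
  unfold pcd
  rw [map_sum, Polynomial.as_sum_range' p (d + 1) (by omega), map_sum, map_sum, Finset.sum_mul]
  refine Finset.sum_congr rfl fun j hj => ?_
  have hj' : j ≤ d := by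
    have := Finset.mem_range.1 hj
    omega
  rw [← C_mul_X_pow_eq_monomial, map_mul, map_pow, RatFunc.algebraMap_C, RatFunc.algebraMap_X,
    map_mul, map_pow, he]
  have h1 : delta k' ^ d = delta k' ^ j * delta k' ^ (d - j) := by
    rw [← pow_add]
    congr 1
    omega
  rw [h1]
  have h2 : cO k' (i (p.coeff j)) * e RatFunc.X ^ j * (delta k' ^ j * delta k' ^ (d - j)) =
      cO k' (i (p.coeff j)) * (e RatFunc.X * delta k') ^ j * delta k' ^ (d - j) := by
    rw [mul_pow]
    ring
  rw [h2, heX, map_mul, map_pow]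
  have h3 : (Finset.sum (Finset.range (d + 1)) fun i => monomial i (p.coeff i)) = p :=
    (Polynomial.as_sum_range' p (d + 1) (by omega)).symm
  rw [h3]
  unfold delta cO
  simp only [RingHom.comp_apply, ← map_pow, ← map_mul]
  rfl

/-- the value of a rational function near infinity is a power series -/
theorem inf_ps (i : k →ₐ[ℂ] k') {c : k'} (hc : c ≠ 0) (e : RatFunc k →ₐ[ℂ] Om k')
    (he : ∀ a, e (RatFunc.C a) = cO k' (i a)) (heX : e RatFunc.X * delta k' = cO k' c)
    {g : RatFunc k} {a : k} (hg : Inf g a) :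
    ∃ G : PowerSeries k', psO k' G = e g ∧ PowerSeries.constantCoeff G = i a := by
  obtain ⟨p, q, hq, hd, hc', rfl⟩ := hg
  set P := pcd (i : k →+* k') c p q.natDegree with hP
  set R := pcd (i : k →+* k') c q q.natDegree with hR
  have hR0 : PowerSeries.constantCoeff R = i q.leadingCoeff * c ^ q.natDegree :=
    pcd_constantCoeff _ _ _ _
  have hP0 : PowerSeries.constantCoeff P = i a * (i q.leadingCoeff * c ^ q.natDegree) := by
    rw [hP, pcd_constantCoeff, hc', ← mul_assoc]
    congr 1
    exact map_mul i _ _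
  have hne : i q.leadingCoeff * c ^ q.natDegree ≠ 0 :=
    mul_ne_zero ((map_ne_zero_iff _ i.injective).2 (leadingCoeff_ne_zero.2 hq)) (pow_ne_zero _ hc)
  have hR1 : PowerSeries.constantCoeff R ≠ 0 := by rwa [hR0]
  have hRR : R * R⁻¹ = 1 := PowerSeries.mul_inv_cancel R hR1
  refine ⟨P * R⁻¹, ?_, ?_⟩
  · have hδ : delta k' ^ q.natDegree ≠ 0 := by
      refine pow_ne_zero _ fun h => ?_
      have h1 := heX
      rw [h, mul_zero] at h1
      exact hc ((map_eq_zero_iff _ (cO k').injective).1 h1.symm)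
    have h1 := pcd_eq i c e he heX p q.natDegree hd
    have h2 := pcd_eq i c e he heX q q.natDegree le_rfl
    have h3 : psO k' R * psO k' R⁻¹ = 1 := by rw [← map_mul, hRR, map_one]
    have h4 : e (algebraMap k[X] (RatFunc k) q) ≠ 0 :=
      (map_ne_zero_iff _ e.injective).2 (inf_ne hq)
    rw [map_mul, map_div₀, eq_div_iff h4]
    refine mul_right_cancel₀ hδ ?_
    rw [mul_assoc (psO k' P * psO k' R⁻¹), h2, h1]
    calc psO k' P * psO k' R⁻¹ * psO k' R = psO k' P * (psO k' R * psO k' R⁻¹) := by ring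
      _ = _ := by rw [h3, mul_one]
  · rw [map_mul, PowerSeries.constantCoeff_inv, hP0, hR0, mul_assoc, mul_inv_cancel₀ hne, mul_one]

end ps

section main

variable {K : Type} [Field K] [Algebra ℂ K] {n dB r : ℕ} {B Q : Type} [Fintype B] [Fintype Q]
  {x : Fin (dB + r) → K} {f : B ⊕ Q → Lau (dB + r)} {V : Type} [Fintype V] [DecidableEq V]

omit [Fintype B] [Fintype Q] in
/-- the equation at a point of the orbit of `σ` in Cox coordinates -/
theorem coxF_face {F : Type} [Field F] [Algebra ℂ F] (f : B ⊕ Q → Lau (dB + r))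
    (ray : V → Fin r → ℤ) (σ : Finset V) (X x' : Fin (dB + r) → F) (g Z : V → F)
    (hg : ∀ v, g v ≠ 0) (hx : ∀ j, x' j = X j * ∏ v, g v ^ (-(fibv (ray v) : Fin (dB + r) → ℤ) j))
    (hσ : ∀ v ∈ σ, Z v = 0) (hZ : ∀ v, v ∉ σ → Z v = g v) (q : Q)
    (h0 : ∑ χ ∈ (f (Sum.inr q)).support with (∀ v ∈ σ, (coxF f ray).e q χ v = 0),
      cst (fun q => f (Sum.inr q)) X q χ = 0) :
    (coxF f ray).F (cst (fun q => f (Sum.inr q)) x') q Z = 0 := by
  have h1 : ∀ χ ∈ (f (Sum.inr q)).support, cst (fun q => f (Sum.inr q)) x' q χ *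
      ∏ v, Z v ^ (coxF f ray).e q χ v = if (∀ v ∈ σ, (coxF f ray).e q χ v = 0) then
        (∏ v, g v ^ (-mn (f (Sum.inr q)) (fibv (ray v)))) *
          cst (fun q => f (Sum.inr q)) X q χ else 0 := by
    intro χ hχ
    split_ifs with hface
    · have h2 : ∏ v, Z v ^ (coxF f ray).e q χ v = ∏ v, g v ^ (coxF f ray).e q χ v := by
        refine Finset.prod_congr rfl fun v _ => ?_
        by_cases hv : v ∈ σ
        · rw [hface v hv, pow_zero, pow_zero]
        · rw [hZ v hv]
      rw [h2]
      have h3 := ndx_mon_mul_prod X g Finset.univ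
        (fun v j => -(fibv (ray v) : Fin (dB + r) → ℤ) j) (fun v _ => hg v) χ
      have h4 : cst (fun q => f (Sum.inr q)) x' q χ = cst (fun q => f (Sum.inr q)) X q χ *
          ∏ v, g v ^ pair χ (fun j => -(fibv (ray v) : Fin (dB + r) → ℤ) j) := by
        unfold cst
        rw [mul_assoc, ← h3]
        congr 2
        funext j
        exact hx j
      rw [h4, mul_assoc, ← Finset.prod_mul_distrib, mul_comm]
      congr 1
      refine Finset.prod_congr rfl fun v _ => ?_
      rw [← zpow_natCast, ← zpow_add₀ (hg v)]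
      congr 1
      have h5 : ((coxF f ray).e q χ v : ℤ) =
        pair χ (fibv (ray v)) - mn (f (Sum.inr q)) (fibv (ray v)) :=
        coxR_e_cast (fun q => f (Sum.inr q)) (fun v => fibv (ray v)) hχ v
      have h6 : pair χ (fun j => -(fibv (ray v) : Fin (dB + r) → ℤ) j) =
          -pair χ (fibv (ray v)) := by
        unfold pair
        rw [← Finset.sum_neg_distrib]
        exact Finset.sum_congr rfl fun j _ => by ring
      rw [h5, h6]
      ring
    · push Not at hface
      obtain ⟨v, hv, h2⟩ := hface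
      rw [Finset.prod_eq_zero (Finset.mem_univ v) (by rw [hσ v hv, zero_pow h2]), mul_zero]
  rw [Cox.F_eq]
  change ∑ χ ∈ (f (Sum.inr q)).support, _ = 0
  rw [Finset.sum_congr rfl h1, ← Finset.sum_filter, ← Finset.mul_sum, h0, mul_zero]

/-- teeth near the point at infinity of a section -/
theorem tooth_open (T : Tot n dB r B Q x f) (Δ : FanV V r)
    {k : Type} [Field k] [Algebra ℂ k] (X : Fin (dB + r) → RatFunc k) (σ : Finset V)
    (hX : BdTot f Δ σ X) (hB : ∀ q : B, ev (f (Sum.inl q)) X = 0) (xb : Fin dB → k)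
    (hinf : ∀ i, Inf (X (Fin.castAdd r i)) (xb i)) (τ : Finset V) (z : Fin r → k)
    (hlim : LimInf Δ σ (fun j => X (Fin.natAdd dB j)) τ z)
    {k' : Type} [Field k'] [Algebra ℂ k'] [IsAlgClosed k'] (i : k →ₐ[ℂ] k') (m : V → ℕ)
    (W : V → k'[X]) (hW : Tooth x f Δ.ray (fun j => i (Fin.append xb z j)) (ind k' τ) m W)
    (c : k') (hc : c ≠ 0) (e : RatFunc k →ₐ[ℂ] Om k') (he : ∀ a, e (RatFunc.C a) = cO k' (i a))
    (heX : e RatFunc.X * delta k' = cO k' c) :
    ∃ W' : V → (Om k')[X], Tooth x f Δ.ray (fun j => e (X j)) (ind (Om k') σ) m W' := by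
  classical
  obtain ⟨hτ, hστ, g, hg0, hg1, hgσ, hz⟩ := hlim
  -- the coordinates of the point divided by the `g v`
  set x₁ : Fin (dB + r) → RatFunc k :=
    fun j => X j * ∏ v, g v ^ (-(fibv (Δ.ray v) : Fin (dB + r) → ℤ) j) with hx₁
  have hbase : ∀ j : Fin dB, x₁ (Fin.castAdd r j) = X (Fin.castAdd r j) := by
    intro j
    simp only [hx₁, fibv_castAdd, neg_zero, zpow_zero, Finset.prod_const_one, mul_one]
  have hps : ∀ j, ∃ G : PowerSeries k', psO k' G = e (x₁ j) ∧
      PowerSeries.constantCoeff G = i (Fin.append xb z j) := by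
    intro j
    refine inf_ps i hc e he heX ?_
    refine Fin.addCases (fun j => ?_) (fun j => ?_) j
    · rw [hbase, Fin.append_left]
      exact hinf j
    · rw [Fin.append_right]
      have h1 := (hz j).2
      simp only [hx₁, fibv_natAdd]
      exact h1
  have hgs : ∀ v, ∃ G : PowerSeries k', PowerSeries.constantCoeff G = ind k' τ v ∧
      psO k' G = if v ∈ σ then 0 else e (g v) := by
    intro v
    by_cases hv : v ∈ σ
    · refine ⟨0, ?_, ?_⟩
      · rw [map_zero, ind, if_pos (hστ hv)]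
      · rw [map_zero, if_pos hv]
    by_cases hv' : v ∈ τ
    · obtain ⟨G, h1, h2⟩ := inf_ps i hc e he heX (hgσ v hv' hv)
      refine ⟨G, ?_, ?_⟩
      · rw [h2, map_zero, ind, if_pos hv']
      · rw [h1, if_neg hv]
    · refine ⟨1, ?_, ?_⟩
      · rw [map_one, ind, if_neg hv']
      · rw [map_one, if_neg hv, hg1 v hv', map_one]
  choose G hG1 hG2 using hps
  choose H hH1 hH2 using hgs
  have hGfun : (fun j => psO k' (G j)) = fun j => e (x₁ j) := funext hG1
  have hHfun : (fun v => psO k' (H v)) = fun v => if v ∈ σ then 0 else e (g v) := funext hH2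
  have hev : ∀ (p : Lau (dB + r)) (y : Fin (dB + r) → RatFunc k), ev p (fun j => e (y j)) =
      e (ev p y) := by
    intro p y
    unfold ev mon
    rw [map_sum]
    refine Finset.sum_congr rfl fun χ _ => ?_
    rw [map_mul, map_prod, AlgHom.commutes]
    congr 1
    exact Finset.prod_congr rfl fun j _ => (map_zpow₀ _ _ _).symm
  have hcst : ∀ (q : Q) (χ : Fin (dB + r) → ℤ),
      cst (fun q => f (Sum.inr q)) (fun j => e (X j)) q χ =
      e (cst (fun q => f (Sum.inr q)) X q χ) := by
    intro q χ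
    unfold cst mon
    rw [map_mul, map_prod, AlgHom.commutes]
    congr 1
    exact Finset.prod_congr rfl fun j _ => (map_zpow₀ _ _ _).symm
  obtain ⟨W', hW'⟩ := tooth_ps T hW G hG2 H hH1
    (fun q => by
      rw [hGfun, hev]
      have h1 : ev (f (Sum.inl q)) x₁ = ev (f (Sum.inl q)) X := by
        unfold ev
        refine Finset.sum_congr rfl fun χ hχ => ?_
        congr 1
        unfold mon
        rw [Fin.prod_univ_add, Fin.prod_univ_add]
        congr 1
        · exact Finset.prod_congr rfl fun j _ => by rw [hbase]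
        · refine Finset.prod_congr rfl fun j _ => ?_
          rw [T.base q χ hχ j, zpow_zero, zpow_zero]
      rw [h1, hB q, map_zero])
    (fun q => by
      rw [hGfun, hHfun]
      refine coxF_face f Δ.ray σ (fun j => e (X j)) (fun j => e (x₁ j)) (fun v => e (g v)) _
        (fun v => (map_ne_zero_iff _ e.injective).2 (hg0 v)) (fun j => ?_)
        (fun v hv => by simp only [if_pos hv]) (fun v hv => by simp only [if_neg hv]) q ?_
      · simp only [hx₁, map_mul, map_prod]
        congr 1
        exact Finset.prod_congr rfl fun v _ => map_zpow₀ _ _ _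
      · rw [Finset.sum_congr rfl fun χ _ => hcst q χ, ← map_sum, hX.eq q, map_zero])
  rw [hGfun, hHfun] at hW'
  have hgne : ∀ v, e (g v) ≠ 0 := fun v => (map_ne_zero_iff e e.injective).2 (hg0 v)
  refine ⟨_, hW'.gauge_of (Z' := ind (Om k') σ) (x'' := fun j => e (X j))
    (fun v => (e (g v))⁻¹) (fun v => inv_ne_zero (hgne v))
    (fun v => ?_) fun j => ?_⟩
  · unfold ind
    split_ifs with hv
    · rw [mul_zero]
    · exact (inv_mul_cancel₀ (hgne v)).symm
  · simp only [hx₁, map_mul, map_prod]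
    congr 1
    refine Finset.prod_congr rfl fun v _ => ?_
    rw [map_zpow₀, inv_zpow, zpow_neg]

end main

end Pool.Agent.Work.WRC
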