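import Mathlib
import Pool.Agent.Work.MP_4329d7_ag_w.FreeAtW
import Pool.Agent.Work.MP_4329d7_ag_w.KerW
import Pool.Agent.Work.MP_4329d7_ag_w.SpnI
import Pool.Agent.Work.MP_4329d7_ag_wrc.NDx
import Pool.Agent.Work.MP_4329d7_ag_wrc.FanX
import Pool.Agent.Work.MP_4329d7_ag_wrc.KLat

/-!
W-RC, module Vf0, part A: root solutions of a type `fibv (b' i)` of the fibre in Cox coordinates.

`c i : V → ℕ` are the coordinates of `b' i` in the fan (supported on a cone); the curve of the roots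
`t` has the Cox coordinates `T v = ∏ i, (X - t i) ^ c i v = rootPoly c t v`.

* `coxF_root`: `F(T) = 0`; `coxF_root_J`: `∑ v, J_v(T) ∑ i, δ i * uD v i = ∑ i, δ i * jac i`;
* `root_free`: `FreeS` of `T` from `FreeAt`;
* `root_homothety`: the homothety: `∑ i, t i * uD v i` is in the kernel and has the top coefficients
  `∑ i, c i v * t i`;
* `coxF_J_one`: the Jacobian at `1` is `Alin`.
-/

namespace Pool.Agent.Work.WRC

open Polynomial Pool.Agent.Work.CI Pool.Agent.Work.Uni Pool.Agent.Work.CW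

section teeth

variable {dB r : ℕ} {B Q V ι : Type} [Fintype B] [Fintype Q] [Fintype V] [DecidableEq V]
  [Fintype ι] {F : Type} [Field F] [Algebra ℂ F]

/-- `c i` are the coordinates of `b' i` in the fan -/
structure FanCoord (Δ : FanV V r) (b' : ι → Fin r → ℤ) (c : ι → V → ℕ) : Prop where
  cone : ∀ i, ∃ τ, Δ.cone τ ∧ ∀ v, v ∉ τ → c i v = 0
  eq : ∀ i j, b' i j = ∑ v, (c i v : ℤ) * Δ.ray v j

omit [Fintype ι] in
theorem exists_fanCoord (Δ : FanV V r) (b' : ι → Fin r → ℤ) : ∃ c, FanCoord Δ b' c := by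
  have h : ∀ i, ∃ c : V → ℕ, (∃ τ, Δ.cone τ ∧ ∀ v, v ∉ τ → c v = 0) ∧
      ∀ j, b' i j = ∑ v, (c v : ℤ) * Δ.ray v j := by
    intro i
    obtain ⟨τ, γ, hτ, hpos, hz, he⟩ := Δ.dec (b' i)
    have hnn : ∀ v, 0 ≤ γ v := fun v => by
      by_cases hv : v ∈ τ
      · exact (hpos v hv).le
      · rw [hz v hv]
    refine ⟨fun v => (γ v).toNat, ⟨τ, hτ, fun v hv => by simp only [hz v hv, Int.toNat_zero]⟩,
      fun j => ?_⟩
    rw [he j]
    refine Finset.sum_congr rfl fun v _ => ?_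
    rw [Int.toNat_of_nonneg (hnn v), smul_eq_mul, mul_comm]
  choose c hc using h
  exact ⟨c, fun i => (hc i).1, fun i => (hc i).2⟩

variable {Δ : FanV V r} {b' : ι → Fin r → ℤ} {c : ι → V → ℕ} {f : B ⊕ Q → Lau (dB + r)}

omit [Fintype ι] [DecidableEq V] [Fintype V] in
/-- weights in the fibre -/
theorem fibv_sum {s : Finset V} (a : V → ℤ) (w : V → Fin r → ℤ) {u : Fin r → ℤ}
    (h : ∀ j, u j = ∑ v ∈ s, a v * w v j) :
    (fibv u : Fin (dB + r) → ℤ) = ∑ v ∈ s, a v • (fibv (w v) : Fin (dB + r) → ℤ) := by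
  funext j
  rw [Finset.sum_apply]
  refine Fin.addCases (fun i => ?_) (fun k => ?_) j
  · rw [fibv_castAdd]
    symm
    refine Finset.sum_eq_zero fun v _ => ?_
    rw [Pi.smul_apply, fibv_castAdd, smul_zero]
  · rw [fibv_natAdd, h k]
    refine Finset.sum_congr rfl fun v _ => ?_
    rw [Pi.smul_apply, fibv_natAdd, smul_eq_mul]

omit [Fintype B] [Fintype Q] [Fintype ι] in
/-- the exponents of the monomials on the roots -/
theorem FanCoord.blk_eq (hc : FanCoord Δ b' c) (hΔ : Δ.Adapted f) (i : ι) (q : Q)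
    (χ : (f (Sum.inr q)).support) :
    blk f (fibv (b' i)) (⟨Sum.inr q, χ⟩ : Pts f) = ∑ v, c i v * (coxF f Δ.ray).e q χ.1 v := by
  obtain ⟨τ, hτ, hτc⟩ := hc.cone i
  obtain ⟨χ₀, hχ₀, h₀⟩ := hΔ τ hτ q
  have hb : (fibv (b' i) : Fin (dB + r) → ℤ) = ∑ v, (c i v : ℤ) • fibv (Δ.ray v) :=
    fibv_sum (s := Finset.univ) (fun v => (c i v : ℤ)) Δ.ray (fun j => hc.eq i j)
  have hpair : ∀ χ : Fin (dB + r) → ℤ,
      pair χ (fibv (b' i)) = ∑ v, (c i v : ℤ) * pair χ (fibv (Δ.ray v)) := by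
    intro χ
    rw [hb, pair_sum]
    exact Finset.sum_congr rfl fun v _ => pair_smul _ _ _
  have hmn0 : ∀ v, (c i v : ℤ) * mn (f (Sum.inr q)) (fibv (Δ.ray v)) =
      (c i v : ℤ) * pair χ₀ (fibv (Δ.ray v)) := by
    intro v
    by_cases hv : v ∈ τ
    · rw [(coxR_e_eq_zero (fun q => f (Sum.inr q)) (fun v => fibv (Δ.ray v)) hχ₀ v).1 (h₀ v hv)]
    · rw [hτc v hv]; simp
  have hne : f (Sum.inr q) ≠ 0 := by
    intro h0
    rw [h0] at hχ₀
    simp at hχ₀
  have hmn : mn (f (Sum.inr q)) (fibv (b' i)) =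
      ∑ v, (c i v : ℤ) * mn (f (Sum.inr q)) (fibv (Δ.ray v)) := by
    rw [Finset.sum_congr rfl fun v _ => hmn0 v, ← hpair]
    refine le_antisymm (mn_le hχ₀ _) ?_
    obtain ⟨χ₁, hχ₁, h₁⟩ := exists_mn hne (fibv (b' i))
    rw [← h₁, hpair, hpair]
    refine Finset.sum_le_sum fun v _ => ?_
    rw [← hmn0 v]
    exact mul_le_mul_of_nonneg_left (mn_le hχ₁ _) (Int.natCast_nonneg _)
  have h1 := blk_cast f (fibv (b' i)) (⟨Sum.inr q, χ⟩ : Pts f)
  simp only at h1
  have h2 : ((blk f (fibv (b' i)) (⟨Sum.inr q, χ⟩ : Pts f) : ℕ) : ℤ) =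
      ((∑ v, c i v * (coxF f Δ.ray).e q χ.1 v : ℕ) : ℤ) := by
    rw [h1, hpair, hmn, ← Finset.sum_sub_distrib]
    push_cast
    refine Finset.sum_congr rfl fun v _ => ?_
    have h3 : ((coxF f Δ.ray).e q χ.1 v : ℤ) = pair χ.1 (fibv (Δ.ray v)) -
        mn (f (Sum.inr q)) (fibv (Δ.ray v)) :=
      coxR_e_cast (fun q => f (Sum.inr q)) (fun v => fibv (Δ.ray v)) χ.2 v
    rw [h3]
    ring
  exact_mod_cast h2

/-- the Cox coordinates of the curve of the roots -/
noncomputable def tth (c : ι → V → ℕ) (t : ι → F) (v : V) : F[X] := rootPoly c t v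

omit [Fintype B] [Fintype Q] in
/-- the monomials at the curve of the roots -/
theorem FanCoord.mon_eq (hc : FanCoord Δ b' c) (hΔ : Δ.Adapted f) (t : ι → F) (q : Q)
    (χ : (f (Sum.inr q)).support) :
    ∏ v, tth c t v ^ (coxF f Δ.ray).e q χ.1 v =
      rootPoly (fun i => blk f (fibv (b' i))) t (⟨Sum.inr q, χ⟩ : Pts f) := by
  unfold tth rootPoly
  have h1 : ∀ v, (∏ i, (X - C (t i)) ^ c i v) ^ (coxF f Δ.ray).e q χ.1 v =
      ∏ i, (X - C (t i)) ^ (c i v * (coxF f Δ.ray).e q χ.1 v) := by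
    intro v
    rw [← Finset.prod_pow]
    exact Finset.prod_congr rfl fun i _ => (pow_mul _ _ _).symm
  rw [Finset.prod_congr rfl fun v _ => h1 v, Finset.prod_comm]
  refine Finset.prod_congr rfl fun i _ => ?_
  simp only [Finset.prod_pow_eq_pow_sum, hc.blk_eq hΔ i q χ]

omit [Fintype B] [Fintype Q] [Fintype V] [DecidableEq V] in
/-- sums over the exponents of the equation `q` -/
theorem sum_pts [Fintype B] [Fintype Q] {A : Type*} [CommSemiring A] (f : B ⊕ Q → Lau (dB + r))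
    (y : Fin (dB + r) → F) (q : Q) (h : F → A) (h0 : h 0 = 0) (w : Pts f → A) :
    ∑ p, h (coef f y (Sum.inr q) p) * w p =
      ∑ χ : (f (Sum.inr q)).support,
        h (cst (fun q => f (Sum.inr q)) y q χ.1) * w ⟨Sum.inr q, χ⟩ := by
  classical
  rw [Fintype.sum_sigma, Finset.sum_eq_single (Sum.inr q)]
  · refine Finset.sum_congr rfl fun χ _ => ?_
    congr 2
    unfold coef cst
    rw [if_pos rfl]
  · intro q' _ hq'
    refine Finset.sum_eq_zero fun χ _ => ?_
    unfold coef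
    rw [if_neg hq', h0, zero_mul]
  · intro hq
    exact absurd (Finset.mem_univ _) hq

/-- the equations at the curve of the roots -/
theorem FanCoord.F_eq (hc : FanCoord Δ b' c) (hΔ : Δ.Adapted f) (y : Fin (dB + r) → F)
    (t : ι → F) (q : Q) :
    (coxF f Δ.ray).F (fun q χ => C (cst (fun q => f (Sum.inr q)) y q χ)) q (tth c t) =
      ∑ p, C (coef f y (Sum.inr q) p) * rootPoly (fun i => blk f (fibv (b' i))) t p := by
  rw [sum_pts f y q (fun a => C a) C_0, Cox.F_eq]
  change ∑ χ ∈ (f (Sum.inr q)).support, _ = _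
  rw [← Finset.sum_coe_sort]
  exact Finset.sum_congr rfl fun χ _ => by rw [hc.mon_eq hΔ t q χ]

/-- the Jacobian at the curve of the roots -/
theorem FanCoord.J_eq (hc : FanCoord Δ b' c) (hΔ : Δ.Adapted f) (y : Fin (dB + r) → F)
    (t : ι → F) (q : Q) (i : ι) :
    ∑ v, (coxF f Δ.ray).J (fun q χ => C (cst (fun q => f (Sum.inr q)) y q χ)) q v (tth c t) *
        Pool.Agent.Work.RC.uD c t v i =
      jac (coef f y) (fun i => blk f (fibv (b' i))) t (Sum.inr q) i := by
  have hX : (X - C (t i) : F[X]) ≠ 0 := X_sub_C_ne_zero _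
  refine mul_left_cancel₀ hX ?_
  rw [X_sub_mul_jac, Finset.mul_sum]
  have h1 : ∀ v, (X - C (t i)) *
      ((coxF f Δ.ray).J (fun q χ => C (cst (fun q => f (Sum.inr q)) y q χ)) q v (tth c t) *
        Pool.Agent.Work.RC.uD c t v i) =
      ∑ χ ∈ (f (Sum.inr q)).support, C (cst (fun q => f (Sum.inr q)) y q χ) *
        ((((c i v * (coxF f Δ.ray).e q χ v : ℕ)) : F[X]) *
          ∏ v, tth c t v ^ (coxF f Δ.ray).e q χ v) := by
    intro v
    have h2 := Cox.J_mul (C := coxF f Δ.ray)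
      (fun q χ => C (cst (fun q => f (Sum.inr q)) y q χ)) q v (tth c t)
    calc _ = (coxF f Δ.ray).J (fun q χ => C (cst (fun q => f (Sum.inr q)) y q χ)) q v
          (tth c t) * ((X - C (t i)) * Pool.Agent.Work.RC.uD c t v i) := by ring
      _ = C (c i v : F) * ((coxF f Δ.ray).J
          (fun q χ => C (cst (fun q => f (Sum.inr q)) y q χ)) q v (tth c t) * tth c t v) := by
        rw [Pool.Agent.Work.RC.uD_mul]
        unfold tth
        ring
      _ = _ := by
        rw [h2, Finset.mul_sum]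
        refine Finset.sum_congr rfl fun χ _ => ?_
        rw [C_eq_natCast]
        push_cast
        ring
  rw [Finset.sum_congr rfl fun v _ => h1 v, Finset.sum_comm]
  have h3 : ∀ p : Pts f, C (coef f y (Sum.inr q) p * (blk f (fibv (b' i)) p : F)) *
      rootPoly (fun i => blk f (fibv (b' i))) t p =
      C (coef f y (Sum.inr q) p) * (C (blk f (fibv (b' i)) p : F) *
        rootPoly (fun i => blk f (fibv (b' i))) t p) := by
    intro p
    rw [C_mul]; ring
  rw [Finset.sum_congr rfl fun p _ => h3 p, sum_pts f y q (fun a => C a) C_0,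
    ← Finset.sum_coe_sort]
  refine Finset.sum_congr rfl fun χ _ => ?_
  rw [← Finset.mul_sum, ← Finset.sum_mul, ← Nat.cast_sum, ← hc.blk_eq hΔ i q χ,
    hc.mon_eq hΔ t q χ, C_eq_natCast]

/-- the degrees of the curve -/
def FanCoord.n (c : ι → V → ℕ) (v : V) : ℕ := ∑ i, c i v

theorem tth_monic (c : ι → V → ℕ) (t : ι → F) (v : V) : (tth c t v).Monic :=
  monic_prod_of_monic _ _ fun i _ => (monic_X_sub_C _).pow _

theorem tth_natDegree (c : ι → V → ℕ) (t : ι → F) (v : V) :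
    (tth c t v).natDegree = FanCoord.n c v := by
  unfold tth rootPoly FanCoord.n
  rw [natDegree_prod_of_monic _ _ fun i _ => (monic_X_sub_C _).pow _]
  refine Finset.sum_congr rfl fun i _ => ?_
  rw [(monic_X_sub_C _).natDegree_pow, natDegree_X_sub_C, mul_one]

theorem tth_degLE (c : ι → V → ℕ) (t : ι → F) (v : V) :
    DegLE (tth c t v) (FanCoord.n c v) := degLE_iff.2 (tth_natDegree c t v).le

theorem tth_lc (c : ι → V → ℕ) (t : ι → F) (v : V) : lc (tth c t v) (FanCoord.n c v) = 1 := by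
  rw [lc_of_nat, ← tth_natDegree c t v]
  exact (tth_monic c t v).coeff_natDegree

/-- the degrees are a relation -/
theorem FanCoord.rel (hc : FanCoord Δ b' c) (hb : ∑ i, b' i = 0) :
    (coxF f Δ.ray).Rel fun v => (FanCoord.n c v : ℤ) := by
  intro j
  change ∑ v, (fibv (Δ.ray v) : Fin (dB + r) → ℤ) j * _ = 0
  revert j
  refine Fin.addCases (fun i => ?_) (fun k => ?_)
  · exact Finset.sum_eq_zero fun v _ => by rw [fibv_castAdd, zero_mul]
  · have h1 := congrFun hb k
    rw [Finset.sum_apply, Pi.zero_apply] at h1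
    rw [← h1]
    simp only [hc.eq]
    rw [Finset.sum_comm]
    refine Finset.sum_congr rfl fun v _ => ?_
    rw [fibv_natAdd, FanCoord.n]
    push_cast
    rw [Finset.mul_sum]
    exact Finset.sum_congr rfl fun i _ => by ring

theorem fibv_sum_zero (hb : ∑ i, b' i = 0) :
    ∑ i, (fibv (b' i) : Fin (dB + r) → ℤ) = 0 := by
  funext j
  rw [Finset.sum_apply]
  refine Fin.addCases (fun i => ?_) (fun k => ?_) j
  · exact Finset.sum_eq_zero fun v _ => by rw [fibv_castAdd]
  · have h1 := congrFun hb k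
    rw [Finset.sum_apply, Pi.zero_apply] at h1
    simp only [fibv_natAdd, Pi.zero_apply]
    exact h1

/-- the degree of the equations -/
theorem FanCoord.m_eq (hc : FanCoord Δ b' c) (hΔ : Δ.Adapted f)
    (hb : ∑ i, b' i = 0) (q : Q) :
    (coxF f Δ.ray).m (fun v => (FanCoord.n c v : ℤ)) q =
      (dg f (fun i => fibv (b' i)) (Sum.inr q) : ℤ) := by
  obtain ⟨χ, hχ, -⟩ := hΔ ∅ Δ.cone_empty q
  rw [← Cox.rel_sum (hc.rel hb) hχ, ← sum_blk (f := f) (fun i => fibv (b' i)) (fibv_sum_zero hb)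
    (⟨Sum.inr q, ⟨χ, hχ⟩⟩ : Pts f)]
  simp only [hc.blk_eq hΔ]
  unfold FanCoord.n
  push_cast
  simp only [Finset.sum_mul]
  rw [Finset.sum_comm]

/-- the deformations of the roots -/
theorem uD_degLE (c : ι → V → ℕ) (t : ι → F) (v : V) (i : ι) :
    DegLE (Pool.Agent.Work.RC.uD c t v i) ((FanCoord.n c v : ℤ) - 1) := by
  intro l hl
  refine coeff_eq_zero_of_degree_lt (lt_of_lt_of_le
    (Pool.Agent.Work.RC.uD_degree c t v i) ?_)
  have : FanCoord.n c v ≤ l := by omega
  exact_mod_cast this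

theorem uD_lc (c : ι → V → ℕ) (t : ι → F) (v : V) (i : ι) :
    lc (Pool.Agent.Work.RC.uD c t v i) ((FanCoord.n c v : ℤ) - 1) = (c i v : F) := by
  have hX : DegLE (X - C (t i) : F[X]) 1 := by
    have := degLE_iff (p := (X - C (t i) : F[X])) (n := 1)
    exact this.2 (natDegree_X_sub_C_le _)
  have hX1 : lc (X - C (t i) : F[X]) 1 = 1 := by
    have h1 : lc (X - C (t i) : F[X]) ((1 : ℕ) : ℤ) = 1 := by
      rw [lc_of_nat]
      simp
    exact h1
  have h1 := lc_mul hX (uD_degLE c t v i)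
  rw [hX1, one_mul, Pool.Agent.Work.RC.uD_mul] at h1
  rw [← h1]
  have h2 := lc_C_mul (c i v : F) (rootPoly c t v) (1 + ((FanCoord.n c v : ℤ) - 1))
  rw [h2]
  have h3 : 1 + ((FanCoord.n c v : ℤ) - 1) = FanCoord.n c v := by ring
  have h4 := tth_lc c t v
  unfold tth at h4
  rw [h3, h4, mul_one]

/-- `H¹(N(-1)) = 0` for the curve of free roots -/
theorem FanCoord.free (hc : FanCoord Δ b' c) (hΔ : Δ.Adapted f) (hb : ∑ i, b' i = 0)
    (hf : ∀ q, f q ≠ 0) {y : Fin (dB + r) → F} {t : ι → F}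
    (ht : FreeAt (coef f y) (fun i => blk f (fibv (b' i))) (dg f fun i => fibv (b' i)) t) :
    FreeS (coxF f Δ.ray) (fun q χ => C (cst (fun q => f (Sum.inr q)) y q χ)) (tth c t)
      (fun v => (FanCoord.n c v : ℤ)) ((coxF f Δ.ray).m fun v => (FanCoord.n c v : ℤ)) := by
  classical
  intro g hg
  obtain ⟨δ, hδ⟩ := ht (fun q => Sum.elim (fun _ => 0) g q) (by
    rintro (q | q)
    · simp only [Sum.elim_inl, degree_zero]
      exact WithBot.bot_lt_coe _
    · simp only [Sum.elim_inr]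
      rw [degree_lt_iff_coeff_zero]
      intro l hl
      refine hg q l ?_
      rw [hc.m_eq hΔ hb q]
      omega)
  refine ⟨fun v => ∑ i, C (δ i) * Pool.Agent.Work.RC.uD c t v i, fun v => ?_, fun q => ?_⟩
  · exact DegLE.sum fun i _ => (uD_degLE c t v i).C_mul _
  · have h1 := hδ (Sum.inr q)
    simp only [Sum.elim_inr] at h1
    rw [← h1]
    simp only [Finset.mul_sum]
    rw [Finset.sum_comm]
    refine Finset.sum_congr rfl fun i _ => ?_
    rw [← hc.J_eq hΔ y t q i, Finset.mul_sum]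
    exact Finset.sum_congr rfl fun v _ => by ring

/-- the homothety -/
theorem FanCoord.homothety (hc : FanCoord Δ b' c) (hΔ : Δ.Adapted f) (hb : ∑ i, b' i = 0)
    (hf : ∀ q, f q ≠ 0) {y : Fin (dB + r) → F} {t : ι → F}
    (hs : Sol f y (fun i => fibv (b' i)) t) :
    (∀ v, DegLE (∑ i, C (t i) * Pool.Agent.Work.RC.uD c t v i) ((FanCoord.n c v : ℤ) - 1)) ∧
    (∀ v, lc (∑ i, C (t i) * Pool.Agent.Work.RC.uD c t v i) ((FanCoord.n c v : ℤ) - 1) =
      ∑ i, t i * (c i v : F)) ∧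
    ∀ q, ∑ v, (coxF f Δ.ray).J (fun q χ => C (cst (fun q => f (Sum.inr q)) y q χ)) q v
      (tth c t) * (∑ i, C (t i) * Pool.Agent.Work.RC.uD c t v i) = 0 := by
  refine ⟨fun v => DegLE.sum fun i _ => (uD_degLE c t v i).C_mul _, fun v => ?_, fun q => ?_⟩
  · rw [lc_sum]
    exact Finset.sum_congr rfl fun i _ => by rw [lc_C_mul, uD_lc]
  · have h1 := jac_smul hs (coef_deg hf (fibv_sum_zero hb) y) (Sum.inr q)
    rw [← h1]
    simp only [Finset.mul_sum]
    rw [Finset.sum_comm]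
    refine Finset.sum_congr rfl fun i _ => ?_
    rw [← hc.J_eq hΔ y t q i, Finset.mul_sum]
    exact Finset.sum_congr rfl fun v _ => by ring

/-- the equations at the curve of a solution -/
theorem FanCoord.sol (hc : FanCoord Δ b' c) (hΔ : Δ.Adapted f) {y : Fin (dB + r) → F} {t : ι → F}
    (hs : Sol f y (fun i => fibv (b' i)) t) (q : Q) :
    (coxF f Δ.ray).F (fun q χ => C (cst (fun q => f (Sum.inr q)) y q χ)) q (tth c t) = 0 := by
  rw [hc.F_eq hΔ y t q]
  exact hs (Sum.inr q)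

/-- the point with the Cox coordinates `1` -/
theorem coxF_F_one (f : B ⊕ Q → Lau (dB + r)) (ray : V → Fin r → ℤ) (y : Fin (dB + r) → F)
    (q : Q) : (coxF f ray).F (cst (fun q => f (Sum.inr q)) y) q (fun _ => 1) =
      ev (f (Sum.inr q)) y := by
  rw [coxF_F]
  unfold ev
  simp only [one_pow, Finset.prod_const_one, mul_one]

/-- the Jacobian at the point with the Cox coordinates `1` -/
theorem coxF_J_one (f : B ⊕ Q → Lau (dB + r)) (ray : V → Fin r → ℤ) {y : Fin (dB + r) → F}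
    (q : Q) (h0 : ev (f (Sum.inr q)) y = 0) (γ : V → F) :
    ∑ v, (coxF f ray).J (cst (fun q => f (Sum.inr q)) y) q v (fun _ => 1) * γ v =
      Alin f y (Sum.inr q) fun j => ∑ v, γ v * ((fibv (ray v) : Fin (dB + r) → ℤ) j : F) := by
  have h1 : ∀ v, (coxF f ray).J (cst (fun q => f (Sum.inr q)) y) q v (fun _ => 1) =
      ∑ j, (((fibv (ray v) : Fin (dB + r) → ℤ) j : ℤ) : F) * ldv (f (Sum.inr q)) j y := by
    intro v
    have h2 := Cox.J_mul_lg (C := coxF f ray) (cst (fun q => f (Sum.inr q)) y) q v (fun _ => 1)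
    rw [mul_one, coxF_F_one, h0, mul_zero, add_zero] at h2
    rw [h2]
    refine Finset.sum_congr rfl fun j _ => ?_
    congr 1
    have h3 := coxF_lg f ray y (fun _ => 1) q j
    refine h3.trans ?_
    unfold ldv
    simp only [one_pow, Finset.prod_const_one, mul_one]
  simp only [h1]
  unfold Alin
  simp only [Finset.sum_mul]
  rw [Finset.sum_comm]
  exact Finset.sum_congr rfl fun j _ => Finset.sum_congr rfl fun v _ => by ring

end teeth

end Pool.Agent.Work.WRC
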