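import Mathlib
import Pool.Agent.Work.MP_4329d7_ag_w.Lift
import Pool.Agent.Work.MP_4329d7_ag_w.CurveW
import Pool.Agent.Work.MP_4329d7_ag_wrc.Vf0A

/-!
W-RC, module Vf0, part B: the teeth.

`GoodF x f b'`: the type `b'` of the fibre is good: it generates, all fibre equations move, and the
directions of the solutions with distinct roots span the intersection of the tangent space with the
span of the type (the tangent space of the fibre).
* `span_dir`: the directions span over every algebraically closed extension;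
* `exists_teeth`: finitely many free curves of one type through the point with the Cox coordinates
  `1` over a generic point, whose homotheties together with the Euler vectors span the tangent space.
-/

namespace Pool.Agent.Work.WRC

open Polynomial Pool.Agent.Work.CI Pool.Agent.Work.Uni Pool.Agent.Work.CW

/-- a good type of the fibre -/
structure GoodF {K : Type} [Field K] [Algebra ℂ K] {dB r : ℕ} {B Q : Type} [Fintype B] [Fintype Q]
    (x : Fin (dB + r) → K) (f : B ⊕ Q → Lau (dB + r)) {ι : Type} [Fintype ι]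
    (b' : ι → Fin r → ℤ) : Prop where
  sum : ∑ i, b' i = 0
  dg : ∀ q : Q, 0 < dg f (fun i => fibv (b' i)) (Sum.inr q)
  ex : ∃ t : ι → AlgebraicClosure K, Function.Injective t ∧
    Sol f (fun j => algebraMap K (AlgebraicClosure K) (x j)) (fun i => fibv (b' i)) t
  dir : ∀ c : ι → AlgebraicClosure K,
    (∀ q, Alin f (fun j => algebraMap K (AlgebraicClosure K) (x j)) q
      (fun j => ∑ i, c i * ((fibv (b' i) : Fin (dB + r) → ℤ) j : AlgebraicClosure K)) = 0) →
    (fun j => ∑ i, c i * ((fibv (b' i) : Fin (dB + r) → ℤ) j : AlgebraicClosure K)) ∈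
      Submodule.span (AlgebraicClosure K) {v | ∃ t : ι → AlgebraicClosure K,
        Function.Injective t ∧
        Sol f (fun j => algebraMap K (AlgebraicClosure K) (x j)) (fun i => fibv (b' i)) t ∧
        v = wt (fun i => fibv (b' i)) t}
  gen : ∀ u : Fin r → ℤ, ∃ M : ℤ, M ≠ 0 ∧ ∃ a : ι → ℤ, ∀ j, M * u j = ∑ i, a i * b' i j

section lin

/-- the kernel of a matrix over an extension field is spanned by the kernel -/
theorem ker_ext {k₁ k₂ : Type} [Field k₁] [Field k₂] (ψ : k₁ →+* k₂) {ι Q : Type} [Fintype ι]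
    (R : Q → ι → k₁) (c : ι → k₂) (hc : ∀ q, ∑ i, c i * ψ (R q i) = 0) :
    ∃ (J : Type) (_ : Fintype J) (e : J → k₂) (c' : J → ι → k₁),
      (∀ j q, ∑ i, c' j i * R q i = 0) ∧ ∀ i, c i = ∑ j, e j * ψ (c' j i) := by
  classical
  let _ : Algebra k₁ k₂ := ψ.toAlgebra
  let 𝔅 := Module.Basis.ofVectorSpace k₁ k₂
  let s : Finset (Module.Basis.ofVectorSpaceIndex k₁ k₂) :=
    Finset.univ.biUnion fun i => (𝔅.repr (c i)).support
  have hexp : ∀ i, c i = ∑ j ∈ s, ψ (𝔅.repr (c i) j) * 𝔅 j := by
    intro i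
    have h1 := 𝔅.linearCombination_repr (c i)
    rw [Finsupp.linearCombination_apply, Finsupp.sum] at h1
    rw [← h1]
    have h2 : (𝔅.repr (∑ a ∈ (𝔅.repr (c i)).support, (𝔅.repr (c i)) a • 𝔅 a)) = 𝔅.repr (c i) := by
      rw [h1]
    rw [h2]
    have h3 : ∀ j, (𝔅.repr (c i)) j • 𝔅 j = ψ (𝔅.repr (c i) j) * 𝔅 j := fun j => rfl
    rw [Finset.sum_congr rfl fun j _ => h3 j]
    refine Finset.sum_subset ?_ ?_
    · intro j hj
      exact Finset.mem_biUnion.2 ⟨i, Finset.mem_univ _, hj⟩
    · intro j _ hj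
      rw [Finsupp.notMem_support_iff.1 hj, map_zero, zero_mul]
  refine ⟨s, inferInstance, fun j => 𝔅 j, fun j i => 𝔅.repr (c i) j, ?_, ?_⟩
  · intro j q
    have h1 := hc q
    have h2 : ∑ i, R q i • c i = 0 := by
      rw [← h1]
      exact Finset.sum_congr rfl fun i _ => by rw [mul_comm]; rfl
    have h3 := congrArg (fun z => 𝔅.repr z (j : Module.Basis.ofVectorSpaceIndex k₁ k₂)) h2
    simp only [map_sum, map_smul, map_zero, Finsupp.coe_zero, Pi.zero_apply,
      Finsupp.finset_sum_apply, Finsupp.smul_apply, smul_eq_mul] at h3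
    rw [← h3]
    exact Finset.sum_congr rfl fun i _ => mul_comm _ _
  · intro i
    rw [hexp i, ← Finset.sum_coe_sort]
    exact Finset.sum_congr rfl fun j _ => mul_comm _ _

end lin

section dir

variable {K : Type} [Field K] [Algebra ℂ K] {dB r : ℕ} {B Q : Type} [Fintype B] [Fintype Q]
  {x : Fin (dB + r) → K} {f : B ⊕ Q → Lau (dB + r)} {ι : Type} [Fintype ι]
  {b' : ι → Fin r → ℤ} {k : Type} [Field k] [Algebra ℂ k]

/-- the directions of the solutions with distinct roots span over every extension field -/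
theorem GoodF.span_dir (G : GoodF x f b') (ψ : AlgebraicClosure K →ₐ[ℂ] k) (c : ι → k)
    (hc : ∀ q, Alin f (fun j => ψ (algebraMap K (AlgebraicClosure K) (x j))) q
      (fun j => ∑ i, c i * ((fibv (b' i) : Fin (dB + r) → ℤ) j : k)) = 0) :
    (fun j => ∑ i, c i * ((fibv (b' i) : Fin (dB + r) → ℤ) j : k)) ∈
      Submodule.span k {v | ∃ t : ι → AlgebraicClosure K, Function.Injective t ∧
        Sol f (fun j => algebraMap K (AlgebraicClosure K) (x j)) (fun i => fibv (b' i)) t ∧
        v = wt (fun i => fibv (b' i)) (fun i => ψ (t i))} := by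
  classical
  set xb : Fin (dB + r) → AlgebraicClosure K :=
    fun j => algebraMap K (AlgebraicClosure K) (x j) with hxb
  set b : ι → Fin (dB + r) → ℤ := fun i => fibv (b' i) with hb
  have hal : ∀ q (v : Fin (dB + r) → AlgebraicClosure K),
      Alin f (fun j => ψ (xb j)) q (fun j => ψ (v j)) = ψ (Alin f xb q v) := by
    intro q v
    unfold Alin
    rw [map_sum]
    refine Finset.sum_congr rfl fun j _ => ?_
    rw [map_mul, map_ldv]
  obtain ⟨J, _, e, c', h1, h2⟩ := ker_ext (ψ : AlgebraicClosure K →+* k)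
    (fun q i => Alin f xb q (fun j => (b i j : AlgebraicClosure K))) c (fun q => by
      rw [← hc q, alin_sum]
      refine Finset.sum_congr rfl fun i _ => ?_
      congr 1
      have h3 := hal q (fun j => (b i j : AlgebraicClosure K))
      simp only [map_intCast] at h3
      exact h3.symm)
  have h3 : (fun j => ∑ i, c i * (b i j : k)) =
      ∑ l, e l • fun j => ψ (∑ i, c' l i * (b i j : AlgebraicClosure K)) := by
    funext j
    rw [Finset.sum_apply]
    simp only [Pi.smul_apply, smul_eq_mul, map_sum, map_mul, map_intCast, Finset.mul_sum]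
    rw [Finset.sum_comm]
    refine Finset.sum_congr rfl fun i _ => ?_
    rw [h2 i, Finset.sum_mul]
    refine Finset.sum_congr rfl fun l _ => ?_
    simp only [RingHom.coe_coe]
    ring
  rw [h3]
  refine Submodule.sum_mem _ fun l _ => Submodule.smul_mem _ _ ?_
  have h4 := G.dir (c' l) (fun q => by
    rw [alin_sum]
    exact h1 l q)
  have key : ∀ v ∈ Submodule.span (AlgebraicClosure K) {v | ∃ t : ι → AlgebraicClosure K,
        Function.Injective t ∧ Sol f xb b t ∧ v = wt b t},
      (fun j => ψ (v j)) ∈ Submodule.span k {v | ∃ t : ι → AlgebraicClosure K,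
        Function.Injective t ∧ Sol f xb b t ∧ v = wt b (fun i => ψ (t i))} := by
    intro v hv
    induction hv using Submodule.span_induction with
    | mem v hv =>
      obtain ⟨t, h5, h6, rfl⟩ := hv
      refine Submodule.subset_span ⟨t, h5, h6, ?_⟩
      funext j
      unfold wt
      rw [map_sum]
      exact Finset.sum_congr rfl fun i _ => by rw [map_mul, map_intCast]
    | zero =>
      have h5 : (fun j => ψ ((0 : Fin (dB + r) → AlgebraicClosure K) j)) = 0 := by
        funext j
        simp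
      rw [h5]
      exact Submodule.zero_mem _
    | add v w _ _ hv hw =>
      have h5 : (fun j => ψ ((v + w) j)) = (fun j => ψ (v j)) + fun j => ψ (w j) := by
        funext j
        simp
      rw [h5]
      exact Submodule.add_mem _ hv hw
    | smul a v _ hv =>
      have h5 : (fun j => ψ ((a • v) j)) = ψ a • fun j => ψ (v j) := by
        funext j
        simp
      rw [h5]
      exact Submodule.smul_mem _ _ hv
  exact key _ h4

end dir

section sol

variable {K : Type} [Field K] [Algebra ℂ K] {d : ℕ} {Q : Type} [Fintype Q] {ι : Type} [Fintype ι]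
  {F F' : Type} [Field F] [Algebra ℂ F] [Field F'] [Algebra ℂ F']

/-- solutions over an extension field -/
theorem sol_map (ψ : F →ₐ[ℂ] F') {f : Q → Lau d} {y : Fin d → F} {b : ι → Fin d → ℤ} {t : ι → F}
    (h : Sol f y b t) : Sol f (fun j => ψ (y j)) b (fun i => ψ (t i)) := by
  intro q
  have h1 := congrArg (Polynomial.map (ψ : F →+* F')) (h q)
  rw [Polynomial.map_sum, Polynomial.map_zero] at h1
  rw [← h1]
  refine Finset.sum_congr rfl fun p _ => ?_
  rw [Polynomial.map_mul, map_C, coef_hom]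
  congr 1
  unfold rootPoly
  rw [Polynomial.map_prod]
  refine Finset.prod_congr rfl fun i _ => ?_
  rw [Polynomial.map_pow, Polynomial.map_sub, map_X, map_C]
  rfl

end sol

section teeth

variable {K : Type} [Field K] [Algebra ℂ K] {n dB r : ℕ} {B Q V : Type} [Fintype B] [Fintype Q]
  [Fintype V] [DecidableEq V]
  {x : Fin (dB + r) → K} {f : B ⊕ Q → Lau (dB + r)} {ι : Type} [Fintype ι]
  {b' : ι → Fin r → ℤ} {k : Type} [Field k] [Algebra ℂ k]

/-- the spanning condition of the degrees -/
theorem GoodF.span_n (G : GoodF x f b') (Δ : FanV V r) {c : ι → V → ℕ} (hc : FanCoord Δ b' c)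
    (v : V) (hv : FanCoord.n c v = 0) : ∃ γ : V → ℤ, (coxF f Δ.ray).Rel γ ∧ γ v ≠ 0 ∧
      ∀ w, w ≠ v → FanCoord.n c w = 0 → γ w = 0 := by
  obtain ⟨M, hM, a, ha⟩ := G.gen (Δ.ray v)
  have h0 : ∀ w, FanCoord.n c w = 0 → ∀ i, c i w = 0 := fun w hw i =>
    (Finset.sum_eq_zero_iff.1 hw) i (Finset.mem_univ i)
  refine ⟨fun w => (if w = v then M else 0) - ∑ i, a i * (c i w : ℤ), ?_, ?_, ?_⟩
  · intro j
    change ∑ w, (fibv (Δ.ray w) : Fin (dB + r) → ℤ) j * _ = 0
    revert j
    refine Fin.addCases (fun i => ?_) (fun l => ?_)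
    · exact Finset.sum_eq_zero fun w _ => by rw [fibv_castAdd, zero_mul]
    · simp only [fibv_natAdd, mul_sub, Finset.sum_sub_distrib, mul_ite, mul_zero,
        Finset.sum_ite_eq', Finset.mem_univ, if_true]
      rw [mul_comm, ha l]
      simp only [hc.eq, Finset.mul_sum]
      rw [Finset.sum_comm, ← Finset.sum_sub_distrib]
      refine Finset.sum_eq_zero fun w _ => ?_
      rw [sub_eq_zero]
      exact Finset.sum_congr rfl fun i _ => by ring
  · simp only [if_true]
    rw [Finset.sum_eq_zero fun i _ => by rw [h0 v hv i, Nat.cast_zero, mul_zero], sub_zero]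
    exact hM
  · intro w hw hw0
    simp only [if_neg hw]
    rw [Finset.sum_eq_zero fun i _ => by rw [h0 w hw0 i, Nat.cast_zero, mul_zero], sub_zero]

/-- the tangent space of the fibre is spanned by the homotheties and the Euler vectors -/
theorem GoodF.tangent (T : Tot n dB r B Q x f) (G : GoodF x f b') (Δ : FanV V r)
    {c : ι → V → ℕ} (hc : FanCoord Δ b' c) (ψ : AlgebraicClosure K →ₐ[ℂ] k)
    (S : Set (ι → AlgebraicClosure K))
    (hS : Submodule.span k {v | ∃ t : ι → AlgebraicClosure K, Function.Injective t ∧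
        Sol f (fun j => algebraMap K (AlgebraicClosure K) (x j)) (fun i => fibv (b' i)) t ∧
        v = wt (fun i => (fibv (b' i) : Fin (dB + r) → ℤ)) (fun i => ψ (t i))} ≤
      Submodule.span k {v | ∃ t ∈ S,
        v = wt (fun i => (fibv (b' i) : Fin (dB + r) → ℤ)) (fun i => ψ (t i))})
    (γ : V → k) (hγ : ∀ q, ∑ v, (coxF f Δ.ray).J (cst (fun q => f (Sum.inr q))
      (fun j => ψ (algebraMap K (AlgebraicClosure K) (x j)))) q v (fun _ => 1) * γ v = 0) :
    γ ∈ Submodule.span k ({e : V → k | (coxF f Δ.ray).Eul e} ∪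
      {w | ∃ t ∈ S, w = fun v => ∑ i, ψ (t i) * (c i v : k)}) := by
  classical
  have : CharZero k := charZero_of_injective_algebraMap (algebraMap ℂ k).injective
  set y : Fin (dB + r) → k := fun j => ψ (algebraMap K (AlgebraicClosure K) (x j)) with hy
  have hev : ∀ q, ev (f q) y = 0 := by
    intro q
    have h1 := map_ev (ψ.comp (IsScalarTower.toAlgHom ℂ K (AlgebraicClosure K))) (f q) x
    rw [T.data.eq q, map_zero] at h1
    exact h1.symm
  -- the map to the lattice
  let Λ : (V → k) →ₗ[k] (Fin (dB + r) → k) :=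
    { toFun := fun γ j => ∑ v, γ v * ((fibv (Δ.ray v) : Fin (dB + r) → ℤ) j : k)
      map_add' := fun a b => by
        funext j
        simp only [Pi.add_apply, add_mul, Finset.sum_add_distrib]
      map_smul' := fun a b => by
        funext j
        simp only [Pi.smul_apply, smul_eq_mul, RingHom.id_apply, Finset.mul_sum]
        exact Finset.sum_congr rfl fun v _ => by ring }
  have hΛ : ∀ γ j, Λ γ j = ∑ v, γ v * ((fibv (Δ.ray v) : Fin (dB + r) → ℤ) j : k) :=
    fun _ _ => rfl
  have hker : ∀ γ, Λ γ = 0 → (coxF f Δ.ray).Eul γ := by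
    intro γ h j
    have h1 := congrFun h j
    have h2 : Λ γ j = 0 := h1
    rw [hΛ] at h2
    rw [← h2]
    exact Finset.sum_congr rfl fun v _ => mul_comm _ _
  -- the rays in terms of the type
  choose M hM a ha using fun v => G.gen (Δ.ray v)
  have hray : ∀ v (j : Fin (dB + r)), ((fibv (Δ.ray v) : Fin (dB + r) → ℤ) j : k) =
      (M v : k)⁻¹ * ∑ i, (a v i : k) * ((fibv (b' i) : Fin (dB + r) → ℤ) j : k) := by
    intro v j
    have hM' : (M v : k) ≠ 0 := Int.cast_ne_zero.2 (hM v)
    rw [eq_inv_mul_iff_mul_eq₀ hM']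
    refine Fin.addCases (fun i => ?_) (fun l => ?_) j
    · rw [fibv_castAdd]
      simp only [fibv_castAdd, Int.cast_zero, mul_zero, Finset.sum_const_zero]
    · simp only [fibv_natAdd]
      have h1 := congrArg (Int.cast : ℤ → k) (ha v l)
      push_cast at h1
      exact h1
  set c' : ι → k := fun i => ∑ v, γ v * ((M v : k)⁻¹ * (a v i : k)) with hc'
  have hΛγ : Λ γ = fun j => ∑ i, c' i * ((fibv (b' i) : Fin (dB + r) → ℤ) j : k) := by
    funext j
    rw [hΛ]
    simp only [hc', hray, Finset.mul_sum, Finset.sum_mul]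
    rw [Finset.sum_comm]
    exact Finset.sum_congr rfl fun i _ => Finset.sum_congr rfl fun v _ => by ring
  have hmem : Λ γ ∈ Submodule.span k {v | ∃ t ∈ S,
        v = wt (fun i => (fibv (b' i) : Fin (dB + r) → ℤ)) (fun i => ψ (t i))} := by
    refine hS ?_
    rw [hΛγ]
    refine G.span_dir ψ c' fun q => ?_
    rw [← hΛγ]
    rcases q with q | q
    · unfold Alin
      refine Finset.sum_eq_zero fun j _ => ?_
      refine Fin.addCases (fun i => ?_) (fun l => ?_) j
      · have h1 : Λ γ (Fin.castAdd r i) = 0 := by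
          rw [hΛ]
          exact Finset.sum_eq_zero fun v _ => by rw [fibv_castAdd, Int.cast_zero, mul_zero]
        rw [h1, zero_mul]
      · rw [ldv_base_natAdd (T.base q), mul_zero]
    · rw [← hγ q]
      exact (coxF_J_one f Δ.ray q (hev _) γ).symm
  -- homotheties
  have hW : ∀ t : ι → AlgebraicClosure K, Λ (fun v => ∑ i, ψ (t i) * (c i v : k)) =
      wt (fun i => (fibv (b' i) : Fin (dB + r) → ℤ)) (fun i => ψ (t i)) := by
    intro t
    funext j
    rw [hΛ]
    unfold wt
    refine Fin.addCases (fun i => ?_) (fun l => ?_) j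
    · simp only [fibv_castAdd, Int.cast_zero, mul_zero, Finset.sum_const_zero]
    · simp only [fibv_natAdd, hc.eq]
      push_cast
      simp only [Finset.sum_mul, Finset.mul_sum]
      rw [Finset.sum_comm]
      exact Finset.sum_congr rfl fun i _ => Finset.sum_congr rfl fun v _ => by ring
  have himg : {v | ∃ t ∈ S,
        v = wt (fun i => (fibv (b' i) : Fin (dB + r) → ℤ)) (fun i => ψ (t i))} =
      Λ '' {w | ∃ t ∈ S, w = fun v => ∑ i, ψ (t i) * (c i v : k)} := by
    ext v
    constructor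
    · rintro ⟨t, ht, rfl⟩
      exact ⟨_, ⟨t, ht, rfl⟩, hW t⟩
    · rintro ⟨w, ⟨t, ht, rfl⟩, rfl⟩
      exact ⟨t, ht, hW t⟩
  rw [himg, ← Submodule.map_span] at hmem
  obtain ⟨w, hw, hwγ⟩ := Submodule.mem_map.1 hmem
  have h1 : γ = (γ - w) + w := by rw [sub_add_cancel]
  rw [h1]
  refine Submodule.add_mem _ ?_ ?_
  · refine Submodule.subset_span (Or.inl ?_)
    refine hker _ ?_
    rw [map_sub, hwγ, sub_self]
  · exact Submodule.span_mono Set.subset_union_right hw

/-- the teeth over a generic point -/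
theorem GoodF.exists_teeth (T : Tot n dB r B Q x f) (G : GoodF x f b') (Δ : FanV V r)
    (hΔ : Δ.Adapted f) [IsAlgClosed k] (φ₀ : K →ₐ[ℂ] k) :
    ∃ (N : V → ℕ) (J : Type) (_ : Fintype J) (_ : DecidableEq J) (_ : Nonempty J)
      (Y : J → V → k[X]),
      (coxF f Δ.ray).Rel (fun v => (N v : ℤ)) ∧
      (∀ v, N v = 0 → ∃ γ : V → ℤ, (coxF f Δ.ray).Rel γ ∧ γ v ≠ 0 ∧
        ∀ w, w ≠ v → N w = 0 → γ w = 0) ∧
      (∀ q, 1 ≤ (coxF f Δ.ray).m (fun v => (N v : ℤ)) q) ∧
      (∀ j v, DegLE (Y j v) (N v)) ∧ (∀ j v, lc (Y j v) (N v) = 1) ∧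
      (∀ j q, (coxF f Δ.ray).F
        (fun q χ => C (cst (fun q => f (Sum.inr q)) (fun j => φ₀ (x j)) q χ)) q (Y j) = 0) ∧
      (∀ j, FreeS (coxF f Δ.ray)
        (fun q χ => C (cst (fun q => f (Sum.inr q)) (fun j => φ₀ (x j)) q χ)) (Y j)
        (fun v => (N v : ℤ)) ((coxF f Δ.ray).m fun v => (N v : ℤ))) ∧
      ∀ γ : V → k, (∀ q, ∑ v, (coxF f Δ.ray).J (cst (fun q => f (Sum.inr q))
          (fun j => φ₀ (x j))) q v (fun _ => 1) * γ v = 0) →
        γ ∈ Submodule.span k ({e : V → k | (coxF f Δ.ray).Eul e} ∪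
          {w | ∃ (j : J) (h : V → k[X]), (∀ v, DegLE (h v) ((N v : ℤ) - 1)) ∧
            (∀ q, ∑ v, (coxF f Δ.ray).J
              (fun q χ => C (cst (fun q => f (Sum.inr q)) (fun j => φ₀ (x j)) q χ)) q v (Y j) *
                h v = 0) ∧ w = fun v => lc (h v) ((N v : ℤ) - 1)}) := by
  classical
  obtain ⟨c, hc⟩ := exists_fanCoord Δ b'
  -- the embedding of the algebraic closure
  let _ : Algebra K k := (φ₀ : K →+* k).toAlgebra
  have : IsScalarTower ℂ K k := IsScalarTower.of_algebraMap_eq fun z => (φ₀.commutes z).symm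
  let ψ : AlgebraicClosure K →ₐ[ℂ] k :=
    (IsAlgClosed.lift : AlgebraicClosure K →ₐ[K] k).restrictScalars ℂ
  have hψ : ∀ z : K, ψ (algebraMap K (AlgebraicClosure K) z) = φ₀ z := fun z =>
    (IsAlgClosed.lift : AlgebraicClosure K →ₐ[K] k).commutes z
  have hy : (fun j => ψ (algebraMap K (AlgebraicClosure K) (x j))) = fun j => φ₀ (x j) :=
    funext fun j => hψ (x j)
  set b : ι → Fin (dB + r) → ℤ := fun i => fibv (b' i) with hb
  have hb0 : ∑ i, b i = 0 := fibv_sum_zero G.sum
  set S' : Set (Fin (dB + r) → k) := {v | ∃ t : ι → AlgebraicClosure K, Function.Injective t ∧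
    Sol f (fun j => algebraMap K (AlgebraicClosure K) (x j)) b t ∧
      v = wt b (fun i => ψ (t i))} with hS'
  obtain ⟨s, hs1, hs2⟩ := (Submodule.fg_span_iff_fg_span_finset_subset S').1
    (IsNoetherian.noetherian (Submodule.span k S'))
  obtain ⟨t₀, ht₀, hs₀⟩ := G.ex
  choose tt htt1 htt2 htt3 using fun v : s => hs1 v.2
  let τ : Option s → ι → AlgebraicClosure K := fun j => j.elim t₀ tt
  have hτ1 : ∀ j, Function.Injective (τ j) := by
    rintro (_ | j)
    · exact ht₀
    · exact htt1 j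
  have hτ2 : ∀ j, Sol f (fun j => algebraMap K (AlgebraicClosure K) (x j)) b (τ j) := by
    rintro (_ | j)
    · exact hs₀
    · exact htt2 j
  have hτ3 : ∀ j, Sol f (fun j => φ₀ (x j)) b (fun i => ψ (τ j i)) := by
    intro j
    have h1 := sol_map ψ (hτ2 j)
    rwa [hy] at h1
  have hfree : ∀ j, FreeAt (coef f fun j => φ₀ (x j)) (fun i => blk f (b i)) (CW.dg f b)
      (fun i => ψ (τ j i)) := fun j =>
    free_at T.data φ₀ hb0 (fun a a' h => hτ1 j (ψ.injective h)) (hτ3 j)
  refine ⟨FanCoord.n c, Option s, inferInstance, inferInstance, inferInstance,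
    fun j => tth c (fun i => ψ (τ j i)), hc.rel G.sum, G.span_n Δ hc, fun q => ?_,
    fun j v => tth_degLE c _ v, fun j v => tth_lc c _ v, fun j q => hc.sol hΔ (hτ3 j) q,
    fun j => hc.free hΔ G.sum T.data.nz (hfree j), fun γ hγ => ?_⟩
  · rw [hc.m_eq hΔ G.sum q]
    exact_mod_cast G.dg q
  · have h1 := G.tangent T Δ hc ψ (Set.range τ) (by
      rw [show {v | ∃ t : ι → AlgebraicClosure K, Function.Injective t ∧
        Sol f (fun j => algebraMap K (AlgebraicClosure K) (x j)) (fun i => fibv (b' i)) t ∧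
        v = wt (fun i => (fibv (b' i) : Fin (dB + r) → ℤ)) (fun i => ψ (t i))} = S' from rfl, hs2]
      refine Submodule.span_mono fun v hv => ?_
      exact ⟨tt ⟨v, hv⟩, ⟨some ⟨v, hv⟩, rfl⟩, htt3 ⟨v, hv⟩⟩) γ (by
      intro q
      rw [hy]
      exact hγ q)
    refine Submodule.span_mono ?_ h1
    rintro w (hw | ⟨t, ⟨j, rfl⟩, rfl⟩)
    · exact Or.inl hw
    · right
      obtain ⟨h2, h3, h4⟩ := hc.homothety hΔ G.sum T.data.nz (hτ3 j)
      exact ⟨j, fun v => ∑ i, C (ψ (τ j i)) * Pool.Agent.Work.RC.uD c (fun i => ψ (τ j i)) v i,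
        h2, h4, funext fun v => (h3 v).symm⟩

end teeth

end Pool.Agent.Work.WRC
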