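import Mathlib
import Pool.Agent.Work.MP_4329d7_ag_wrc.Vf0B

/-!
W-RC, module Vf0, part C: `GoodF` from the output of `Spl`.
-/

namespace Pool.Agent.Work.WRC

open Polynomial Pool.Agent.Work.CI Pool.Agent.Work.Uni Pool.Agent.Work.CW

/-- if no nonzero integral form kills the vectors then they span rationally -/
theorem gen_of_forms {r : ℕ} {ι : Type} [Fintype ι] (b' : ι → Fin r → ℤ)
    (h : ∀ c : Fin r → ℤ, (∀ i, ∑ j, c j * b' i j = 0) → c = 0) (u : Fin r → ℤ) :
    ∃ M : ℤ, M ≠ 0 ∧ ∃ a : ι → ℤ, ∀ j, M * u j = ∑ i, a i * b' i j := by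
  classical
  -- rational coefficients
  have h1 : ∃ a : ι → ℚ, ∀ j, (u j : ℚ) = ∑ i, a i * (b' i j : ℚ) := by
    obtain ⟨a, ha⟩ := surj_of_rows (k := ℚ) (fun (j : Fin r) (i : ι) => (b' i j : ℚ)) (by
      intro c hc
      -- clear the denominators of `c`
      obtain ⟨D, hD⟩ := IsLocalization.exist_integer_multiples (nonZeroDivisors ℤ)
        (Finset.univ : Finset (Fin r)) c
      choose e he using fun j => hD j (Finset.mem_univ j)
      have hD0 : (((D : ℤ) : ℤ) : ℚ) ≠ 0 := Int.cast_ne_zero.2 (nonZeroDivisors.ne_zero D.2)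
      have he' : ∀ j, ((e j : ℤ) : ℚ) = ((D : ℤ) : ℚ) * c j := fun j => by
        have := he j
        simpa [zsmul_eq_mul] using this
      have h2 : e = 0 := by
        refine h e fun i => ?_
        have h3 : ((∑ j, e j * b' i j : ℤ) : ℚ) = 0 := by
          push_cast
          simp only [he', mul_assoc]
          rw [← Finset.mul_sum, hc i, mul_zero]
        exact_mod_cast h3
      funext j
      have h3 := he' j
      rw [h2] at h3
      simp only [Pi.zero_apply, Int.cast_zero] at h3
      exact (mul_eq_zero.1 h3.symm).resolve_left hD0) fun j => (u j : ℚ)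
    exact ⟨a, fun j => by
      rw [← ha j]
      exact Finset.sum_congr rfl fun i _ => mul_comm _ _⟩
  obtain ⟨a, ha⟩ := h1
  obtain ⟨D, hD⟩ := IsLocalization.exist_integer_multiples (nonZeroDivisors ℤ)
    (Finset.univ : Finset ι) a
  choose e he using fun i => hD i (Finset.mem_univ i)
  have he' : ∀ i, ((e i : ℤ) : ℚ) = ((D : ℤ) : ℚ) * a i := fun i => by
    have := he i
    simpa [zsmul_eq_mul] using this
  refine ⟨D, nonZeroDivisors.ne_zero D.2, e, fun j => ?_⟩
  have h2 : ((((D : ℤ)) * u j : ℤ) : ℚ) = ((∑ i, e i * b' i j : ℤ) : ℚ) := by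
    push_cast
    rw [ha j, Finset.mul_sum]
    exact Finset.sum_congr rfl fun i _ => by rw [he' i]; ring
  exact_mod_cast h2

/-- a nonzero vector in the kernel, in terms of the type -/
theorem exists_ker_vec {F : Type} [Field F] [CharZero F] {r : ℕ} {ι Q : Type} [Fintype ι]
    [Fintype Q] (b' : ι → Fin r → ℤ)
    (h : ∀ c : Fin r → ℤ, (∀ i, ∑ j, c j * b' i j = 0) → c = 0) (hr : Fintype.card Q < r)
    (R : Q → Fin r → F) : ∃ (u : Fin r → F) (c : ι → F), u ≠ 0 ∧
      (∀ q, ∑ l, u l * R q l = 0) ∧ ∀ l, ∑ i, c i * (b' i l : F) = u l := by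
  classical
  let L : (Fin r → F) →ₗ[F] (Q → F) :=
    { toFun := fun u q => ∑ l, u l * R q l
      map_add' := fun a b => by
        funext q
        simp only [Pi.add_apply, add_mul, Finset.sum_add_distrib]
      map_smul' := fun a b => by
        funext q
        simp only [Pi.smul_apply, smul_eq_mul, RingHom.id_apply, Finset.mul_sum]
        exact Finset.sum_congr rfl fun v _ => by ring }
  have hL : LinearMap.ker L ≠ ⊥ := LinearMap.ker_ne_bot_of_finrank_lt (by
    rw [Module.finrank_fintype_fun_eq_card, Module.finrank_fintype_fun_eq_card, Fintype.card_fin]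
    exact hr)
  obtain ⟨u, hu, hu0⟩ := Submodule.exists_mem_ne_zero_of_ne_bot hL
  choose M hM a ha using fun l : Fin r => gen_of_forms b' h (Pi.single l 1)
  refine ⟨u, fun i => ∑ l, u l * ((M l : F)⁻¹ * (a l i : F)), hu0,
    fun q => congrFun (LinearMap.mem_ker.1 hu) q, fun l => ?_⟩
  simp only [Finset.sum_mul]
  rw [Finset.sum_comm]
  have h1 : ∀ l', ∑ i, u l' * ((M l' : F)⁻¹ * (a l' i : F)) * (b' i l : F) =
      if l' = l then u l' else 0 := by
    intro l'
    have h2 := congrArg (Int.cast : ℤ → F) (ha l' l)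
    push_cast at h2
    have h3 : ∑ i, u l' * ((M l' : F)⁻¹ * (a l' i : F)) * (b' i l : F) =
        u l' * ((M l' : F)⁻¹ * ∑ i, (a l' i : F) * (b' i l : F)) := by
      rw [Finset.mul_sum, Finset.mul_sum]
      exact Finset.sum_congr rfl fun i _ => by ring
    rw [h3, ← h2]
    have hM' : (M l' : F) ≠ 0 := Int.cast_ne_zero.2 (hM l')
    by_cases hll : l' = l
    · subst hll
      rw [if_pos rfl, Pi.single_eq_same, Int.cast_one, mul_one, inv_mul_cancel₀ hM', mul_one]
    · rw [if_neg hll, Pi.single_eq_of_ne (Ne.symm hll), Int.cast_zero, mul_zero, mul_zero,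
        mul_zero]
  rw [Finset.sum_congr rfl fun l' _ => h1 l', Finset.sum_ite_eq' Finset.univ l,
    if_pos (Finset.mem_univ _)]

variable {K : Type} [Field K] [Algebra ℂ K] {n dB r : ℕ} {B Q : Type} [Fintype B] [Fintype Q]
  {x : Fin (dB + r) → K} {f : B ⊕ Q → Lau (dB + r)} {ι : Type} [Fintype ι]
  {b' : ι → Fin r → ℤ}

/-- `GoodF` from the output of `Spl`; `hdir` is `SpanInj x f fun i => fibv (b' i)` -/
theorem GoodF.of_spanInj (T : Tot n dB r B Q x f) (hsum : ∑ i, b' i = 0)
    (hdg : ∀ q : Q, 0 < CW.dg f (fun i => fibv (b' i)) (Sum.inr q))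
    (hdir : ∀ c : ι → AlgebraicClosure K,
      (∀ q, Alin f (fun j => algebraMap K (AlgebraicClosure K) (x j)) q
        (fun j => ∑ i, c i * ((fibv (b' i) : Fin (dB + r) → ℤ) j : AlgebraicClosure K)) = 0) →
      (fun j => ∑ i, c i * ((fibv (b' i) : Fin (dB + r) → ℤ) j : AlgebraicClosure K)) ∈
        Submodule.span (AlgebraicClosure K) {v | ∃ t : ι → AlgebraicClosure K,
          Function.Injective t ∧
          Sol f (fun j => algebraMap K (AlgebraicClosure K) (x j)) (fun i => fibv (b' i)) t ∧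
          v = wt (fun i => fibv (b' i)) t})
    (hgen : ∀ c : Fin r → ℤ, (∀ i, ∑ j, c j * b' i j = 0) → c = 0)
    (hr : Fintype.card Q < r) : GoodF x f b' := by
  classical
  refine ⟨hsum, hdg, ?_, hdir, gen_of_forms b' hgen⟩
  by_contra hex
  have hcz' : CharZero (AlgebraicClosure K) :=
    charZero_of_injective_algebraMap (algebraMap ℂ (AlgebraicClosure K)).injective
  obtain ⟨u, c, hu0, hu, hcu⟩ := exists_ker_vec (F := AlgebraicClosure K) b' hgen hr
    fun q l => ldv (f (Sum.inr q)) (Fin.natAdd dB l)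
      (fun j => algebraMap K (AlgebraicClosure K) (x j))
  have hvec : (fun j => ∑ i, c i * ((fibv (b' i) : Fin (dB + r) → ℤ) j : AlgebraicClosure K)) =
      Fin.append (0 : Fin dB → AlgebraicClosure K) u := by
    funext j
    refine Fin.addCases (fun i => ?_) (fun l => ?_) j
    · rw [Fin.append_left]
      exact Finset.sum_eq_zero fun i _ => by rw [fibv_castAdd, Int.cast_zero, mul_zero]
    · rw [Fin.append_right, ← hcu l]
      exact Finset.sum_congr rfl fun i _ => by rw [fibv_natAdd]
  have h1 := hdir c (fun q => by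
    rw [hvec]
    unfold Alin
    rw [Fin.sum_univ_add]
    simp only [Fin.append_left, Fin.append_right, Pi.zero_apply, zero_mul,
      Finset.sum_const_zero, zero_add]
    rcases q with q | q
    · exact Finset.sum_eq_zero fun l _ => by rw [ldv_base_natAdd (T.base q), mul_zero]
    · exact hu q)
  have h2 : {v : Fin (dB + r) → AlgebraicClosure K | ∃ t : ι → AlgebraicClosure K,
      Function.Injective t ∧
      Sol f (fun j => algebraMap K (AlgebraicClosure K) (x j)) (fun i => fibv (b' i)) t ∧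
      v = wt (fun i => fibv (b' i)) t} = ∅ := by
    rw [Set.eq_empty_iff_forall_notMem]
    rintro v ⟨t, h3, h4, -⟩
    exact hex ⟨t, h3, h4⟩
  rw [h2, Submodule.span_empty, Submodule.mem_bot, hvec] at h1
  apply hu0
  funext l
  have h3 := congrFun h1 (Fin.natAdd dB l)
  rw [Fin.append_right] at h3
  exact h3

end Pool.Agent.Work.WRC
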