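import Mathlib
import Pool.Agent.Work.MP_4329d7_ag_wrc.Vf0C
import Pool.Agent.Work.MP_4329d7_ag_wrc.SpzMap
import Pool.Agent.Work.MP_4329d7_ag_wrc.KHandle

/-!
W-RC, module Vf0: very free curves of the fibre through generic points.
-/

namespace Pool.Agent.Work.WRC

open Polynomial Pool.Agent.Work.CI Pool.Agent.Work.Uni Pool.Agent.Work.CW

variable {K : Type} [Field K] [Algebra ℂ K] {n dB r : ℕ} {B Q V : Type} [Fintype B] [Fintype Q]
  [Fintype V] [DecidableEq V]
  {x : Fin (dB + r) → K} {f : B ⊕ Q → Lau (dB + r)} {ι : Type} [Fintype ι]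
  {b' : ι → Fin r → ℤ} {k : Type} [Field k] [Algebra ℂ k]

/-- a free and very free curve of type `N` through the point with the Cox coordinates `1` -/
theorem vf_of_curve (T : Tot n dB r B Q x f) (ray : V → Fin r → ℤ) (φ₀ : K →ₐ[ℂ] k)
    {N : V → ℕ} (hrel : (coxF f ray).Rel (fun v => (N v : ℤ)))
    (hspan : ∀ v, N v = 0 → ∃ γ : V → ℤ, (coxF f ray).Rel γ ∧ γ v ≠ 0 ∧
        ∀ w, w ≠ v → N w = 0 → γ w = 0)
    {L : Type} [Field L] [Algebra ℂ L] [IsAlgClosed L] (i : k →ₐ[ℂ] L) (Y : V → L[X])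
    (hdeg : ∀ v, DegLE (Y v) (N v)) (hlc : ∀ v, lc (Y v) (N v) = 1)
    (hF : ∀ q, (coxF f ray).F (fun q χ => C (cst (fun q => f (Sum.inr q))
      (fun j => i (φ₀ (x j))) q χ)) q Y = 0)
    (hfree : FreeS (coxF f ray) (fun q χ => C (cst (fun q => f (Sum.inr q))
      (fun j => i (φ₀ (x j))) q χ)) Y (fun v => (N v : ℤ)) ((coxF f ray).m fun v => (N v : ℤ)))
    (hvfree : VFreeS (coxF f ray) (fun q χ => C (cst (fun q => f (Sum.inr q))
      (fun j => i (φ₀ (x j))) q χ)) Y (fun v => (N v : ℤ))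
      ((coxF f ray).m fun v => (N v : ℤ))) :
    VF x f ray (fun j => φ₀ (x j)) (fun _ => 1) := by
  have hY0 : ∀ v, Y v ≠ 0 := by
    intro v h0
    have h1 := hlc v
    rw [h0] at h1
    unfold lc at h1
    simp at h1
  refine ⟨L, inferInstance, inferInstance, inferInstance, i, N, Y, hrel, hspan, hY0, hdeg,
    fun v => by rw [hlc v, map_one], ?_, hfree, hvfree⟩
  refine spz_inf T.data _ ?_ (i.comp φ₀) ?_
  · rintro (q | q)
    · have h1 : ev (f (Sum.inl q)) (fun j => RatFunc.C (i (φ₀ (x j))) *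
          ∏ v, algebraMap L[X] (RatFunc L) (Y v) ^ (fibv (ray v) : Fin (dB + r) → ℤ) j) =
          ev (f (Sum.inl q)) (fun j => RatFunc.C (i (φ₀ (x j)))) := by
        refine ev_base (T.base q) fun l => ?_
        simp only [fibv_castAdd, zpow_zero, Finset.prod_const_one, mul_one]
      rw [h1]
      have h2 : ev (f (Sum.inl q)) (fun j => (RatFunc.C (i (φ₀ (x j))) : RatFunc L)) =
          RatFunc.C (ev (f (Sum.inl q)) (fun j => i (φ₀ (x j)))) := by
        unfold ev mon
        rw [map_sum]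
        refine Finset.sum_congr rfl fun χ _ => ?_
        rw [map_mul, map_prod, Pool.Agent.Work.MP_4329d7_ag_sq.algebraMap_ratFunc]
        congr 1
        exact Finset.prod_congr rfl fun j _ => by rw [map_zpow₀]
      rw [h2]
      have h3 := map_ev (i.comp φ₀) (f (Sum.inl q)) x
      rw [T.data.eq, map_zero] at h3
      have h4 : ev (f (Sum.inl q)) (fun j => i (φ₀ (x j))) = 0 := h3.symm
      rw [h4, map_zero]
    · have h1 := ev_cst (fun q => f (Sum.inr q)) (fun v => (fibv (ray v) : Fin (dB + r) → ℤ))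
        (fun j => i (φ₀ (x j))) Y hY0 q
      refine h1.trans ?_
      have h2 := hF q
      unfold coxF at h2
      rw [h2, map_zero, mul_zero]
  · intro j
    have h1 := (Inf.const (i (φ₀ (x j)))).mul (Inf.prod_zpow hdeg
      (fun v => by rw [hlc v]; exact one_ne_zero)
      (fun v => (fibv (ray v) : Fin (dB + r) → ℤ) j) (hrel j))
    simp only [hlc, one_zpow, Finset.prod_const_one, mul_one] at h1
    exact h1

/-- very free curves of the fibre through generic points -/
theorem vf0 (T : Tot n dB r B Q x f) (G : GoodF x f b') (Δ : FanV V r)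
    (hΔ : Δ.Adapted f) [IsAlgClosed k] (φ₀ : K →ₐ[ℂ] k) :
    VF x f Δ.ray (fun j => φ₀ (x j)) (fun _ => 1) := by
  classical
  have : CharZero k := charZero_of_injective_algebraMap (algebraMap ℂ k).injective
  obtain ⟨N, J, _, _, _, Y, hrel, hspan, hm, hdeg, hlc, hF, hfree, htan⟩ :=
    G.exists_teeth T Δ hΔ φ₀
  obtain ⟨pt, hpt⟩ : ∃ pt : J → k, Function.Injective pt :=
    ⟨fun j => Infinite.natEmbedding k (Fintype.equivFin J j), fun j j' h => by
      have h1 := (Infinite.natEmbedding k).injective h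
      exact (Fintype.equivFin J).injective (Fin.val_injective h1)⟩
  have hc1 : ∀ q, (coxF f Δ.ray).F (cst (fun q => f (Sum.inr q)) (fun j => φ₀ (x j))) q
      (fun _ => 1) = 0 := by
    intro q
    rw [coxF_F_one]
    have h3 := map_ev φ₀ (f (Sum.inr q)) x
    rw [T.data.eq, map_zero] at h3
    exact h3.symm
  obtain ⟨Z, hZ1, hZ2, hZ3, hZ4⟩ := comb_const (S := coxF f Δ.ray) hpt hrel hm hdeg hlc hF hc1
    hfree htan
  set m : ℕ := Fintype.card J * 2 with hm'
  have hm1 : 1 ≤ m := by
    have : 0 < Fintype.card J := Fintype.card_pos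
    omega
  have hmN : ∀ v, Fintype.card J * (2 * N v) = m * N v := fun v => by
    rw [hm', mul_assoc]
  simp only [hmN] at hZ1 hZ2 hZ4
  -- the field
  let L := AlgebraicClosure (LaurentSeries k)
  let e : PowerSeries k →+* L :=
    (algebraMap (LaurentSeries k) L).comp (algebraMap (PowerSeries k) (LaurentSeries k))
  have he : Function.Injective e :=
    (algebraMap (LaurentSeries k) L).injective.comp
      (IsFractionRing.injective (PowerSeries k) (LaurentSeries k))
  let i₀ : k →+* L := e.comp PowerSeries.C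
  let _ : Algebra ℂ L := (i₀.comp (algebraMap ℂ k)).toAlgebra
  let i : k →ₐ[ℂ] L := { i₀ with commutes' := fun z => rfl }
  have hi : ∀ a, i a = e (PowerSeries.C a) := fun a => rfl
  have hcst : ∀ q χ, cst (fun q => f (Sum.inr q)) (fun j => i (φ₀ (x j))) q χ =
      e (PowerSeries.C (cst (fun q => f (Sum.inr q)) (fun j => φ₀ (x j)) q χ)) := by
    intro q χ
    rw [← hi]
    exact cst_map i _ _ q χ
  obtain ⟨h1, h2⟩ := hZ4 e he
  refine vf_of_curve T Δ.ray φ₀ (N := fun v => m * N v) ?_ ?_ i (fun v => (Z v).map e) ?_ ?_ ?_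
    ?_ ?_
  · intro l
    have h3 := hrel l
    push_cast
    rw [← mul_zero (m : ℤ), ← h3, Finset.mul_sum]
    exact Finset.sum_congr rfl fun v _ => by ring
  · intro v hv
    have hv' : N v = 0 := by
      rcases Nat.mul_eq_zero.1 hv with h | h
      · omega
      · exact h
    obtain ⟨γ, h3, h4, h5⟩ := hspan v hv'
    refine ⟨γ, h3, h4, fun w hw hw0 => h5 w hw ?_⟩
    rcases Nat.mul_eq_zero.1 hw0 with h | h
    · omega
    · exact h
  · intro v l hl
    rw [coeff_map, hZ1 v l hl, map_zero]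
  · intro v
    have h3 := hZ2 v
    rw [lc_of_nat] at h3 ⊢
    rw [coeff_map, h3, map_one]
  · intro q
    have h3 := congrArg (Polynomial.map e) (hZ3 q)
    rw [Polynomial.map_zero] at h3
    rw [← h3, ← coe_mapRingHom, Cox.F_map]
    congr 1
    funext q χ
    rw [coe_mapRingHom, map_C, hcst]
  · simp only [hcst]
    exact h1
  · simp only [hcst]
    exact h2

end Pool.Agent.Work.WRC
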