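import Mathlib
import Pool.Agent.Work.MP_4329d7_ag_wrc.FanX
import Pool.Agent.Work.MP_4329d7_ag_wrc.Vf0
import Pool.Agent.Work.MP_4329d7_ag_wrc.FinAsm

/-!
W-RC, module Ind: the induction step.  For a good type of the fibre and an adapted fan the point `1`
of the fibre over every generic point lies on a very free curve (`vf0`); `fin` then gives `PRC K`
from `PRC (KBf x)`.
-/

namespace Pool.Agent.Work.WRC

open Polynomial Pool.Agent.Work.CI

/-- the induction step -/
theorem prc_step {K : Type} [Field K] [Algebra ℂ K] [Algebra.EssFiniteType ℂ K] {n dB r nB : ℕ}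
    {B Q : Type} [Fintype B] [Fintype Q] {x : Fin (dB + r) → K} {f : B ⊕ Q → Lau (dB + r)}
    (T : Tot n dB r B Q x f) {ι : Type} [Fintype ι] {b' : ι → Fin r → ℤ} (G : GoodF x f b')
    (hKH : KHc f) (htr : Algebra.trdeg ℂ (KBf x) = nB) (hdim : nB + Fintype.card B = dB)
    (_DB : Data (KBf x) nB dB B (xB x) fun q : B => resB (f (Sum.inl q)))
    (h : PRC (KBf x)) : PRC K := by
  obtain ⟨V, _, _, Δ, hΔ⟩ := exists_adapted f fun q => T.data.nz (Sum.inr q)
  exact fin T Δ hΔ hKH htr hdim (fun k _ _ _ φ₀ => vf0 T G Δ hΔ φ₀) h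

end Pool.Agent.Work.WRC
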