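import Mathlib
import Pool.Agent.Work.MP_4329d7_ag_w.SpnW
import Pool.Agent.Work.MP_4329d7_ag_w.KBW
import Pool.Agent.Work.MP_4329d7_ag_w.IrrW

/-!
Module W-RC Goo (helper27): good types, the form needed for real rational connectedness.
* `TwoVal x f b`: every solution is constant, or has two values and splits the type in two parts with
  sum zero, or has distinct roots; so the direction of a solution which is not injective is zero
  (`wt_zero_or_inj`) and the injective solutions span (`span_inj`);
* `exists_good'`: good types with `TwoVal`, `SpanDir`, `RankB`, and either an injective solution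
  exists or (degenerate type) `KB x b = ⊤`: the quotient map `X → X_B` is birational.
-/

namespace Pool.Agent.Work.WRC

open Polynomial Pool.Agent.Work.Uni Pool.Agent.Work.CI Pool.Agent.Work.CW

variable {Q : Type} [Fintype Q] {d : ℕ} {K : Type} [Field K] [Algebra ℂ K] {n : ℕ}
  {x : Fin d → K} {f : Q → Lau d} {ι : Type} [Fintype ι]

/-- solutions which are neither constant nor injective have two values and split the type in two
parts with sum zero -/
def TwoVal (x : Fin d → K) (f : Q → Lau d) (b : ι → Fin d → ℤ) : Prop :=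
  ∀ (F : Type) [Field F] [Algebra ℂ F] [IsAlgClosed F] (emb : K →ₐ[ℂ] F) (t : ι → F),
    Sol f (fun j => emb (x j)) b t →
      (∀ i j, t i = t j) ∨
      (∃ (G : Finset ι) (s₁ s₂ : F), s₁ ≠ s₂ ∧ (∀ i ∈ G, t i = s₁) ∧ (∀ i, i ∉ G → t i = s₂) ∧
        ∑ i ∈ G, b i = 0) ∨
      Function.Injective t

theorem spn_caseI' (D : Data K n d Q x f) (h : CaseI x f) :
    ∃ (ι : Type) (_ : Fintype ι) (b : ι → Fin d → ℤ), Good x f b ∧ TwoVal x f b ∧
      SpanDir x f b ∧ RankB x f b := by
  classical
  obtain ⟨ι, _, b, hb0, hb, hcard, hsol⟩ := h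
  have : CharZero K := charZero_of_injective_algebraMap (algebraMap ℂ K).injective
  set F := AlgebraicClosure K with hF
  have : CharZero F := charZero_of_injective_algebraMap (algebraMap ℂ F).injective
  let emb : K →ₐ[ℂ] F := IsScalarTower.toAlgHom ℂ K F
  set y : Fin d → F := fun j => algebraMap K F (x j) with hy
  have hye : (fun j => emb (x j)) = y := rfl
  have hfy : ∀ q, ev (f q) y = 0 := ev_algClosure D
  have hsum := (coef_isCoef f y hfy).sum
  have hdeg := fun q p h => coef_deg D.nz hb y q p h
  have hfree : ∀ t : ι → F, IsSol (coef f y) (fun i => blk f (b i)) t → (∃ i j, t i ≠ t j) →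
      FreeAt (coef f y) (fun i => blk f (b i)) (dg f b) t := by
    intro t ht hne
    rcases hsol F emb t ht with h | h
    · obtain ⟨i, j, hij⟩ := hne
      exact absurd (h i j) hij
    · exact free_at D emb hb h ht
  have hrow : ∀ q i, ∑ p, coef f y q p * (blk f (b i) p : F) =
      Alin f y q (fun j => (b i j : F)) := fun q i => sum_coef_blk D.nz hfy (b i) q
  refine ⟨ι, inferInstance, b, ⟨hb0, hb, hcard, fun F _ _ _ emb t ht =>
    (hsol F emb t ht).imp id Or.inr⟩, fun F _ _ _ emb t ht =>
    (hsol F emb t ht).imp id Or.inr, ?_, ?_⟩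
  · intro c hc
    have h1 : c ∈ Submodule.span F ({fun _ => 1} ∪ {t : ι → F | Sol f y b t}) := by
      refine mem_span_of_dual _ (fun q i => Alin f y q (fun j => (b i j : F))) ?_ c ?_
      · intro l hl
        obtain ⟨c', hc'⟩ := bezA (coef f y) hsum (fun i => blk f (b i)) (dg f b) hdeg hcard
          hfree l (by
            have := hl _ (Or.inl (Set.mem_singleton _))
            simpa using this) (fun t ht => hl t (Or.inr ht))
        refine ⟨c', fun i => ?_⟩
        rw [hc']
        exact Finset.sum_congr rfl fun q _ => by rw [hrow]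
      · intro q
        rw [← alin_sum]
        exact hc q
    have h2 := wt_mem_span b hb _ c h1
    exact h2
  · intro c hc q hq
    obtain ⟨t, ht, hne⟩ := exists_nonconst_sol (coef f y) hsum (fun i => blk f (b i)) (dg f b)
      hdeg hcard.ge
    exact rows_of_free hdeg (hfree t ht hne) c (fun i => by
      rw [← hc i]
      exact Finset.sum_congr rfl fun q _ => by rw [hrow]) q hq

/-- parts with the same numbers of vectors of each type have the same sum -/
theorem sum_of_types {κ : Type} [Fintype κ] (b : ι → Fin d → ℤ) (c : κ → Fin d → ℤ)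
    (G : Finset κ) [DecidableEq (Fin d → ℤ)]
    (h : ∀ v : Fin d → ℤ, (G.filter fun i => c i = v).card =
      (Finset.univ.filter fun i => b i = v).card) : ∑ i ∈ G, c i = ∑ i, b i := by
  classical
  set V : Finset (Fin d → ℤ) := G.image c ∪ Finset.univ.image b with hV
  rw [← Finset.sum_fiberwise_of_maps_to (s := G) (t := V) (g := c)
      (fun i hi => Finset.mem_union_left _ (Finset.mem_image_of_mem _ hi)),
    ← Finset.sum_fiberwise_of_maps_to (s := Finset.univ) (t := V) (g := b)
      (fun i hi => Finset.mem_union_right _ (Finset.mem_image_of_mem _ hi))]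
  refine Finset.sum_congr rfl fun v _ => ?_
  rw [Finset.sum_congr rfl (g := fun _ => v) fun i hi => (Finset.mem_filter.1 hi).2,
    Finset.sum_congr rfl (g := fun _ => v) fun i hi => (Finset.mem_filter.1 hi).2,
    Finset.sum_const, Finset.sum_const, h v]

theorem spn_caseII' (D : Data K n d Q x f) (h : CaseII x f) :
    ∃ (ι : Type) (_ : Fintype ι) (b : ι → Fin d → ℤ), Good x f b ∧ TwoVal x f b ∧
      SpanDir x f b ∧ RankB x f b := by
  classical
  obtain ⟨ι, hι, b, hb0, hb, hcard, hall⟩ := h
  have hb' : ∑ i : ι × Bool, b i.1 = 0 := by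
    rw [Fintype.sum_prod_type]
    simp only [Fintype.sum_bool, Finset.sum_add_distrib, hb, add_zero]
  have hι1 : 1 ≤ Fintype.card ι := by omega
  have htwo : TwoVal x f (fun i : ι × Bool => b i.1) := by
    intro F _ _ _ emb t ht
    rcases (hall F emb).2 t ht with h | ⟨G, s₁, s₂, h1, h2, h3, h4⟩ | h
    · exact Or.inl h
    · refine Or.inr (Or.inl ⟨G, s₁, s₂, h1, h2, h3, ?_⟩)
      rw [sum_of_types b (fun i : ι × Bool => b i.1) G fun v => ?_, hb]
      rw [← h4 v]
    · exact Or.inr (Or.inr h)
  have hgood : Good x f (fun i : ι × Bool => b i.1) := by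
    refine ⟨fun i => hb0 i.1, hb', ?_, ?_⟩
    · simp only [Pool.Agent.Work.CW.dg_double, ← Finset.mul_sum]
      rw [Fintype.card_prod, Fintype.card_bool, hcard]
      ring
    · intro F _ _ _ emb t ht
      rcases (hall F emb).2 t ht with h | ⟨G, s₁, s₂, h1, h2, h3, h4⟩ | h
      · exact Or.inl h
      · right
        left
        have hG : G.card = Fintype.card ι := by
          have h5 := Finset.card_eq_sum_card_image (fun i : ι × Bool => b i.1) G
          have h6 := Finset.card_eq_sum_card_image b (Finset.univ : Finset ι)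
          rw [Finset.card_univ] at h6
          rw [h5, h6]
          have h7 : G.image (fun i : ι × Bool => b i.1) ⊆ Finset.univ.image b := by
            intro v hv
            obtain ⟨i, _, rfl⟩ := Finset.mem_image.1 hv
            exact Finset.mem_image_of_mem b (Finset.mem_univ _)
          rw [Finset.sum_subset h7]
          · exact Finset.sum_congr rfl fun v _ => h4 v
          · intro v _ hv
            rw [Finset.card_eq_zero, Finset.filter_eq_empty_iff]
            intro i hi hiv
            exact hv (Finset.mem_image.2 ⟨i, hi, hiv⟩)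
        obtain ⟨i, hi⟩ : G.Nonempty := Finset.card_pos.1 (by omega)
        obtain ⟨j, hj⟩ : Gᶜ.Nonempty := by
          rw [← Finset.card_pos, Finset.card_compl, hG, Fintype.card_prod, Fintype.card_bool]
          omega
        have hj' := Finset.mem_compl.1 hj
        refine ⟨i, j, ?_, fun l => ?_⟩
        · rw [h2 i hi, h3 j hj']
          exact h1
        · by_cases hl : l ∈ G
          · left
            rw [h2 l hl, h2 i hi]
          · right
            rw [h3 l hl, h3 j hj']
      · exact Or.inr (Or.inr h)
  obtain ⟨hconst, hsol⟩ := hall (AlgebraicClosure K)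
    (IsScalarTower.toAlgHom ℂ K (AlgebraicClosure K))
  obtain ⟨h1, h2⟩ := caseII_core D (IsScalarTower.toAlgHom ℂ K (AlgebraicClosure K)) hb0 hb hcard
    hconst hsol
  refine ⟨ι × Bool, inferInstance, fun i => b i.1, hgood, htwo, h1, fun c hc q hq => ?_⟩
  rw [Pool.Agent.Work.CW.dg_double] at hq
  exact h2 c (fun i => hc (i, true)) q (by omega)

/-- the direction of a solution which is not injective is zero -/
theorem wt_zero_or_inj {b : ι → Fin d → ℤ} (hb : ∑ i, b i = 0) (h2 : TwoVal x f b)
    {F : Type} [Field F] [Algebra ℂ F] [IsAlgClosed F] (emb : K →ₐ[ℂ] F) (t : ι → F)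
    (ht : Sol f (fun j => emb (x j)) b t) : wt b t = 0 ∨ Function.Injective t := by
  classical
  have hbF : ∀ j, ∑ i, (b i j : F) = 0 := by
    intro j
    have h1 := congrFun hb j
    rw [Finset.sum_apply, Pi.zero_apply] at h1
    exact_mod_cast congrArg (Int.cast : ℤ → F) h1
  rcases h2 F emb t ht with h | ⟨G, s₁, s₂, -, h1, h2, h3⟩ | h
  · left
    rcases isEmpty_or_nonempty ι with hι | ⟨⟨i₀⟩⟩
    · funext j
      unfold wt
      simp
    · funext j
      unfold wt
      rw [Finset.sum_congr rfl fun i _ => by rw [h i i₀], ← Finset.mul_sum, hbF, mul_zero,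
        Pi.zero_apply]
  · left
    funext j
    unfold wt
    have h4 : ∑ i ∈ G, (b i j : F) = 0 := by
      have h5 := congrFun h3 j
      rw [Finset.sum_apply, Pi.zero_apply] at h5
      exact_mod_cast congrArg (Int.cast : ℤ → F) h5
    have h5 : ∑ i ∈ Gᶜ, (b i j : F) = 0 := by
      have h6 := Finset.sum_add_sum_compl G (fun i => (b i j : F))
      rw [h4, zero_add, hbF] at h6
      exact h6
    rw [← Finset.sum_add_sum_compl G, Finset.sum_congr rfl fun i hi => by rw [h1 i hi],
      Finset.sum_congr (s₁ := Gᶜ) rfl fun i hi => by rw [h2 i (Finset.mem_compl.1 hi)],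
      ← Finset.mul_sum, ← Finset.mul_sum, h4, h5, mul_zero, mul_zero, add_zero, Pi.zero_apply]
  · exact Or.inr h

/-- the directions of the injective solutions span -/
theorem span_inj {b : ι → Fin d → ℤ} (hb : ∑ i, b i = 0) (h2 : TwoVal x f b)
    (hspan : SpanDir x f b) (c : ι → AlgebraicClosure K)
    (hc : ∀ q, Alin f (fun j => algebraMap K (AlgebraicClosure K) (x j)) q
      (fun j => ∑ i, c i * (b i j : AlgebraicClosure K)) = 0) :
    (fun j => ∑ i, c i * (b i j : AlgebraicClosure K)) ∈
      Submodule.span (AlgebraicClosure K) {v | ∃ t : ι → AlgebraicClosure K,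
        Sol f (fun j => algebraMap K (AlgebraicClosure K) (x j)) b t ∧ Function.Injective t ∧
          v = wt b t} := by
  refine Submodule.span_le.2 ?_ (hspan c hc)
  rintro v ⟨t, ht, rfl⟩
  rcases wt_zero_or_inj hb h2 (IsScalarTower.toAlgHom ℂ K (AlgebraicClosure K)) t ht with h | h
  · rw [h]
    exact Submodule.zero_mem _
  · exact Submodule.subset_span ⟨t, ht, h, rfl⟩

/-- if all directions are zero then `K` is algebraic over `K_B` -/
theorem alg_of_deg [Algebra.EssFiniteType ℂ K] (D : Data K n d Q x f) {b : ι → Fin d → ℤ}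
    (hspan : SpanDir x f b)
    (h0 : ∀ t : ι → AlgebraicClosure K,
      Sol f (fun j => algebraMap K (AlgebraicClosure K) (x j)) b t → wt b t = 0) (y : K) :
    IsAlgebraic (KB x b) y := by
  classical
  by_contra hnot
  obtain ⟨δ, hδ0, hδy⟩ := exists_der_over (KB x b) y hnot
  let η : Fin d → AlgebraicClosure K :=
    fun j => algebraMap K (AlgebraicClosure K) (δ (x j) / x j)
  have hηpair : ∀ χ : Fin d → ℤ, (∀ i, pair χ (b i) = 0) →
      ∑ j, (χ j : AlgebraicClosure K) * η j = 0 := by
    intro χ hχ
    have h1 : mon x χ ∈ KB x b := IntermediateField.subset_adjoin ℂ _ ⟨χ, hχ, rfl⟩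
    have h2 := hδ0 _ h1
    rw [formA_mon D.ne] at h2
    have h3 := (mul_eq_zero.1 h2).resolve_left (mon_ne_zero D.ne χ)
    have h4 := congrArg (algebraMap K (AlgebraicClosure K)) h3
    rw [map_zero, map_sum] at h4
    rw [← h4]
    refine Finset.sum_congr rfl fun j _ => ?_
    rw [map_mul, map_intCast]
  have hchar : CharZero (AlgebraicClosure K) :=
    charZero_of_injective_algebraMap (algebraMap ℂ (AlgebraicClosure K)).injective
  obtain ⟨c, hc⟩ := mem_span_of_orth b η hηpair
  have hcη : (fun j => ∑ i, c i * (b i j : AlgebraicClosure K)) = η := funext fun j => (hc j).symm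
  have hA : ∀ q, Alin f (fun j => algebraMap K (AlgebraicClosure K) (x j)) q
      (fun j => ∑ i, c i * (b i j : AlgebraicClosure K)) = 0 := by
    intro q
    rw [hcη]
    unfold Alin
    have h1 := congrArg (algebraMap K (AlgebraicClosure K)) (formA_rel D δ q)
    rw [map_zero, map_sum] at h1
    rw [← h1]
    refine Finset.sum_congr rfl fun j _ => ?_
    rw [map_mul, sub_map_ldv, mul_comm]
  have hmem := hspan c hA
  rw [hcη] at hmem
  have hη0 : η = 0 := by
    have h1 : Submodule.span (AlgebraicClosure K) {v | ∃ t : ι → AlgebraicClosure K,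
        Sol f (fun j => algebraMap K (AlgebraicClosure K) (x j)) b t ∧ v = wt b t} ≤ ⊥ := by
      rw [Submodule.span_le]
      rintro v ⟨t, ht, rfl⟩
      rw [h0 t ht]
      exact Submodule.zero_mem _
    exact (Submodule.mem_bot _).1 (h1 hmem)
  apply hδy
  have h1 := kb_der_ext D.gen δ (0 : Derivation ℂ K K) (by
    intro j
    have h2 := congrFun hη0 j
    simp only [η, Pi.zero_apply, map_eq_zero, div_eq_zero_iff] at h2
    rw [Derivation.zero_apply]
    exact h2.resolve_right (D.ne j)) y
  rw [h1, Derivation.zero_apply]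

/-- degenerate types: the quotient map is birational -/
theorem KB_top [Algebra.EssFiniteType ℂ K] (D : Data K n d Q x f) {b : ι → Fin d → ℤ}
    (hg : Good x f b) (h2 : TwoVal x f b) (hspan : SpanDir x f b)
    (hinj : ¬ ∃ t : ι → AlgebraicClosure K,
      Sol f (fun j => algebraMap K (AlgebraicClosure K) (x j)) b t ∧ Function.Injective t) :
    KB x b = ⊤ := by
  rw [eq_top_iff]
  intro y _
  refine irr D hg y (alg_of_deg D hspan (fun t ht => ?_) y)
  rcases wt_zero_or_inj hg.sum h2 (IsScalarTower.toAlgHom ℂ K (AlgebraicClosure K)) t ht with h | h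
  · exact h
  · exact absurd ⟨t, ht, h⟩ hinj

theorem exists_good' [Algebra.EssFiniteType ℂ K] (D : Data K n d Q x f)
    (h : ∃ (ι : Type) (_ : Fintype ι) (b : ι → Fin d → ℤ), IsPk f b) :
    ∃ (ι : Type) (_ : Fintype ι) (b : ι → Fin d → ℤ), Good x f b ∧ TwoVal x f b ∧
      SpanDir x f b ∧ RankB x f b ∧
      ((∃ t : ι → AlgebraicClosure K,
        Sol f (fun j => algebraMap K (AlgebraicClosure K) (x j)) b t ∧ Function.Injective t) ∨
        KB x b = ⊤) := by
  have h1 : ∃ (ι : Type) (_ : Fintype ι) (b : ι → Fin d → ℤ), Good x f b ∧ TwoVal x f b ∧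
      SpanDir x f b ∧ RankB x f b := by
    rcases exists_min_all D h with h | h
    · exact spn_caseI' D h
    · exact spn_caseII' D h
  obtain ⟨ι, _, b, hg, h2, h3, h4⟩ := h1
  refine ⟨ι, inferInstance, b, hg, h2, h3, h4, ?_⟩
  by_cases hinj : ∃ t : ι → AlgebraicClosure K,
      Sol f (fun j => algebraMap K (AlgebraicClosure K) (x j)) b t ∧ Function.Injective t
  · exact Or.inl hinj
  · exact Or.inr (KB_top D hg h2 h3 hinj)

end Pool.Agent.Work.WRC
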