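import Mathlib
import Pool.Agent.Work.MP_4329d7_ag_w.KerW

/-!
Module W-RC KH, abstract part (helper27): if a system has a solution with distinct roots and the rows
of the linear equations `S` are independent then the vectors `β p - β p'` (`p`, `p'` monomials of an
equation of `S`) span a space of dimension at least `card S + 1`.

PROOF. The polynomials `P_qi = ∑ p, a_qp β_ip u_p` are independent (as rows, over `F(X)`, look at the
leading coefficients) and are combinations of the vectors `β p - β p'`.  If the dimension of the span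
is at most `card S`, then `h θ_i = ∑ q, c_q P_qi` for every such vector `θ`.
`∑ i, P_qi / (X - t_i)` is the derivative of the relation `q`, so `∑ i, θ_i / (X - t_i) = 0`, so `θ = 0`.
-/

namespace Pool.Agent.Work.WRC

open Polynomial Pool.Agent.Work.Uni Pool.Agent.Work.CW

section core

variable {Q ι Pt F : Type} [Fintype ι] [Fintype Pt] [Field F]
  {a : Q → Pt → F} {β : ι → Pt → ℕ} {t : ι → F} {mq : Q → ℕ}

/-- the row of the relation `q` along the curve -/
noncomputable def prow (a : Q → Pt → F) (β : ι → Pt → ℕ) (t : ι → F) (q : Q) (i : ι) : F[X] :=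
  ∑ p, C (a q p * (β i p : F)) * rootPoly β t p

theorem prow_degree (hdeg : ∀ q p, a q p ≠ 0 → ∑ i, β i p = mq q) (q : Q) (i : ι) :
    (prow a β t q i).natDegree ≤ mq q := by
  refine natDegree_sum_le_of_forall_le _ _ fun p _ => ?_
  by_cases h : a q p = 0
  · simp [h]
  · refine (natDegree_C_mul_le _ _).trans ?_
    rw [Pool.Agent.Work.RC.natDegree_rootPoly, hdeg q p h]

theorem prow_coeff (hdeg : ∀ q p, a q p ≠ 0 → ∑ i, β i p = mq q) (q : Q) (i : ι) :
    (prow a β t q i).coeff (mq q) = ∑ p, a q p * (β i p : F) := by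
  unfold prow
  rw [finset_sum_coeff]
  refine Finset.sum_congr rfl fun p _ => ?_
  rw [coeff_C_mul]
  by_cases h : a q p = 0
  · rw [h, zero_mul, zero_mul]
  · have h4 := (Pool.Agent.Work.RC.rootPoly_monic β t p).coeff_natDegree
    rw [Pool.Agent.Work.RC.natDegree_rootPoly, hdeg q p h] at h4
    rw [h4, mul_one]

/-- the rows are independent over the polynomials -/
theorem prow_indep (hdeg : ∀ q p, a q p ≠ 0 → ∑ i, β i p = mq q) (S : Finset Q)
    (hrow : ∀ c : Q → F, (∀ i, ∑ q ∈ S, c q * ∑ p, a q p * (β i p : F) = 0) → ∀ q ∈ S, c q = 0)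
    (c : Q → F[X]) (hc : ∀ i, ∑ q ∈ S, c q * prow a β t q i = 0) (q : Q) (hq : q ∈ S) :
    c q = 0 := by
  classical
  by_contra hne
  obtain ⟨q₁, hq₁, hmax⟩ := Finset.exists_max_image (S.filter fun q => c q ≠ 0)
    (fun q => (c q).natDegree + mq q) ⟨q, Finset.mem_filter.2 ⟨hq, hne⟩⟩
  obtain ⟨hq₁S, hq₁0⟩ := Finset.mem_filter.1 hq₁
  set N := (c q₁).natDegree + mq q₁ with hN
  let e : Q → F := fun q => if mq q ≤ N then (c q).coeff (N - mq q) else 0
  have h1 := hrow e (fun i => by
    have h2 := congrArg (fun P : F[X] => P.coeff N) (hc i)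
    simp only [finset_sum_coeff, coeff_zero] at h2
    rw [← h2]
    refine Finset.sum_congr rfl fun q' hq' => ?_
    rw [← prow_coeff (t := t) hdeg q' i]
    simp only [e]
    by_cases h0 : c q' = 0
    · rw [h0]
      simp
    · have h3 := hmax q' (Finset.mem_filter.2 ⟨hq', h0⟩)
      have h4 : mq q' ≤ N := (Nat.le_add_left _ _).trans h3
      rw [if_pos h4]
      have h5 : (c q').natDegree ≤ N - mq q' := by omega
      have h6 := coeff_mul_add_eq_of_natDegree_le (f := c q') (g := prow a β t q' i) h5
        (prow_degree hdeg q' i)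
      rw [Nat.sub_add_cancel h4] at h6
      exact h6.symm) q₁ hq₁S
  simp only [e] at h1
  rw [if_pos (Nat.le_add_left _ _), hN, Nat.add_sub_cancel] at h1
  exact hq₁0 (leadingCoeff_eq_zero.1 h1)

/-- the differences of the exponents of the equations of `S` -/
def diffs (a : Q → Pt → F) (β : ι → Pt → ℕ) (S : Finset Q) : Set (ι → ℤ) :=
  {v | ∃ q ∈ S, ∃ p p' : Pt, a q p ≠ 0 ∧ a q p' ≠ 0 ∧ v = fun i => (β i p : ℤ) - (β i p' : ℤ)}

/-- the rows are combinations of differences -/
theorem prow_mem {L : Type} [Field L] (φ : F[X] →+* L) (hs : IsSol a β t) (S : Finset Q) (q : Q)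
    (hq : q ∈ S) : (fun i => φ (prow a β t q i)) ∈
      Submodule.span L ((fun v : ι → ℤ => fun i => (v i : L)) '' diffs a β S) := by
  classical
  by_cases h0 : ∃ p₀, a q p₀ ≠ 0
  · obtain ⟨p₀, hp₀⟩ := h0
    have h1 : (fun i => φ (prow a β t q i)) =
        ∑ p, φ (C (a q p) * rootPoly β t p) • (fun i => (((β i p : ℤ) - (β i p₀ : ℤ) : ℤ) : L)) := by
      funext i
      rw [Finset.sum_apply]
      simp only [Pi.smul_apply, smul_eq_mul]
      have h2 : ∑ p, φ (C (a q p) * rootPoly β t p) * ((β i p₀ : ℤ) : L) = 0 := by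
        rw [← Finset.sum_mul, ← map_sum, hs q, map_zero, zero_mul]
      have h3 : ∀ p, φ (C (a q p) * rootPoly β t p) * (((β i p : ℤ) - (β i p₀ : ℤ) : ℤ) : L) =
          φ (C (a q p) * rootPoly β t p) * ((β i p : ℤ) : L) -
            φ (C (a q p) * rootPoly β t p) * ((β i p₀ : ℤ) : L) := by
        intro p
        push_cast
        ring
      rw [Finset.sum_congr rfl fun p _ => h3 p, Finset.sum_sub_distrib, h2, sub_zero]
      unfold prow
      rw [map_sum]
      refine Finset.sum_congr rfl fun p _ => ?_
      rw [C_mul, map_mul, map_mul, map_mul, Int.cast_natCast]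
      have h4 : φ (C (β i p : F)) = (β i p : L) := by
        rw [map_natCast, map_natCast]
      rw [h4]
      ring
    rw [h1]
    refine Submodule.sum_mem _ fun p _ => ?_
    by_cases h2 : a q p = 0
    · rw [h2, C_0, zero_mul, map_zero, zero_smul]
      exact Submodule.zero_mem _
    · refine Submodule.smul_mem _ _ (Submodule.subset_span ⟨_, ⟨q, hq, p, p₀, h2, hp₀, rfl⟩, ?_⟩)
      rfl
  · push Not at h0
    have h1 : (fun i => φ (prow a β t q i)) = 0 := by
      funext i
      unfold prow
      simp [h0]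
    rw [h1]
    exact Submodule.zero_mem _

/-- `∑ θ_i / (X - t_i) = 0` with distinct `t_i` implies `θ = 0` -/
theorem parfrac (hinj : Function.Injective t) (θ : ι → F) (h : F[X]) (hh : h ≠ 0)
    (P : ι → F[X]) (hP : ∀ i, (X - C (t i)) * P i = h * C (θ i)) (hsum : ∑ i, P i = 0) (i : ι) :
    θ i = 0 := by
  classical
  have h1 : ∑ i, (∏ j ∈ Finset.univ.erase i, (X - C (t j))) * C (θ i) = 0 := by
    refine mul_left_cancel₀ hh ?_
    rw [mul_zero, Finset.mul_sum]
    have h2 : ∀ i, h * ((∏ j ∈ Finset.univ.erase i, (X - C (t j))) * C (θ i)) =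
        (∏ j, (X - C (t j))) * P i := by
      intro i
      rw [← Finset.mul_prod_erase Finset.univ (fun j => X - C (t j)) (Finset.mem_univ i)]
      linear_combination -(∏ j ∈ Finset.univ.erase i, (X - C (t j))) * hP i
    rw [Finset.sum_congr rfl fun i _ => h2 i, ← Finset.mul_sum, hsum, mul_zero]
  have h2 := congrArg (eval (t i)) h1
  rw [eval_finset_sum, eval_zero, Finset.sum_eq_single i] at h2
  · rw [eval_mul, eval_C, eval_prod] at h2
    rcases mul_eq_zero.1 h2 with h3 | h3
    · exfalso
      obtain ⟨j, hj, h4⟩ := Finset.prod_eq_zero_iff.1 h3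
      rw [eval_sub, eval_X, eval_C, sub_eq_zero] at h4
      exact (Finset.mem_erase.1 hj).1 (hinj h4).symm
    · exact h3
  · intro j _ hj
    rw [eval_mul, eval_prod, Finset.prod_eq_zero (Finset.mem_erase.2 ⟨hj.symm, Finset.mem_univ i⟩),
      zero_mul]
    rw [eval_sub, eval_X, eval_C, sub_self]
  · intro hi
    exact absurd (Finset.mem_univ i) hi

theorem kh_core [CharZero F] (hdeg : ∀ q p, a q p ≠ 0 → ∑ i, β i p = mq q) (hs : IsSol a β t)
    (hinj : Function.Injective t) (S : Finset Q)
    (hrow : ∀ c : Q → F, (∀ i, ∑ q ∈ S, c q * ∑ p, a q p * (β i p : F) = 0) → ∀ q ∈ S, c q = 0)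
    (hne : ∃ v ∈ diffs a β S, v ≠ 0) :
    S.card + 1 ≤ Module.finrank ℚ (Submodule.span ℚ
      ((fun v : ι → ℤ => fun i => (v i : ℚ)) '' diffs a β S)) := by
  classical
  by_contra hlt
  have hle : Module.finrank ℚ (Submodule.span ℚ
      ((fun v : ι → ℤ => fun i => (v i : ℚ)) '' diffs a β S)) ≤ S.card := by omega
  -- a basis over `ℚ`
  set W : Submodule ℚ (ι → ℚ) := Submodule.span ℚ
      ((fun v : ι → ℤ => fun i => (v i : ℚ)) '' diffs a β S) with hW
  let B := Module.finBasis ℚ W
  let L := RatFunc F
  have : CharZero L := charZero_of_injective_algebraMap (algebraMap F L).injective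
  let φ : F[X] →+* L := algebraMap F[X] L
  have hφ : Function.Injective φ := IsFractionRing.injective F[X] L
  set WL : Submodule L (ι → L) := Submodule.span L
      ((fun v : ι → ℤ => fun i => (v i : L)) '' diffs a β S) with hWL
  let bL : Fin (Module.finrank ℚ W) → ι → L := fun j i => (((B j : W) : ι → ℚ) i : L)
  have hWLle : WL ≤ Submodule.span L (Set.range bL) := by
    rw [hWL, Submodule.span_le]
    rintro _ ⟨v, hv, rfl⟩
    have h1 : (fun i => (v i : ℚ)) ∈ W := Submodule.subset_span ⟨v, hv, rfl⟩
    have h2 := B.sum_repr ⟨_, h1⟩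
    have h3 : (fun i => (v i : L)) = ∑ j, ((B.repr ⟨_, h1⟩ j : ℚ) : L) • bL j := by
      funext i
      have h4 := congrFun (congrArg Subtype.val h2) i
      rw [Submodule.coe_sum, Finset.sum_apply] at h4
      simp only [Submodule.coe_smul, Pi.smul_apply, smul_eq_mul] at h4
      have h5 := congrArg (Rat.cast : ℚ → L) h4
      push_cast at h5
      rw [Finset.sum_apply]
      simp only [Pi.smul_apply, smul_eq_mul, bL]
      exact h5.symm
    simp only [SetLike.mem_coe]
    rw [h3]
    exact Submodule.sum_mem _ fun j _ => Submodule.smul_mem _ _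
      (Submodule.subset_span (Set.mem_range_self j))
  have hfin : Module.finrank L WL ≤ S.card := by
    refine (Submodule.finrank_mono hWLle).trans ((finrank_range_le_card bL).trans ?_)
    rw [Fintype.card_fin]
    exact hle
  -- the rows
  let P : S → WL := fun q => ⟨fun i => φ (prow a β t q.1 i), prow_mem φ hs S q.1 q.2⟩
  have hPli : LinearIndependent L P := by
    rw [Fintype.linearIndependent_iff]
    intro c hc q
    obtain ⟨h, hh⟩ := IsLocalization.exist_integer_multiples (nonZeroDivisors F[X])
      (Finset.univ : Finset S) c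
    choose c' hc' using fun q => hh q (Finset.mem_univ q)
    have hh0 : φ h ≠ 0 := by
      rw [Ne, map_eq_zero_iff φ hφ]
      exact nonZeroDivisors.ne_zero h.2
    have h1 := prow_indep (t := t) hdeg S hrow (fun q => if hq : q ∈ S then c' ⟨q, hq⟩ else 0)
      (fun i => by
        refine hφ ?_
        rw [map_sum, map_zero, ← Finset.sum_coe_sort S]
        have h2 := congrFun (congrArg Subtype.val hc) i
        rw [Submodule.coe_sum, Finset.sum_apply] at h2
        simp only [Submodule.coe_smul, Pi.smul_apply, smul_eq_mul, P] at h2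
        have h3 : φ h * ∑ q : S, c q * φ (prow a β t q.1 i) = 0 := by
          rw [h2]
          exact mul_zero _
        rw [← h3, Finset.mul_sum]
        refine Finset.sum_congr rfl fun q _ => ?_
        simp only [dif_pos q.2]
        rw [map_mul, ← mul_assoc]
        congr 1
        have h4 := hc' q
        rw [Algebra.smul_def] at h4
        exact h4) q.1 q.2
    simp only [dif_pos q.2] at h1
    have h4 := hc' q
    rw [h1, map_zero, Algebra.smul_def] at h4
    exact (mul_eq_zero.1 h4.symm).resolve_left hh0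
  have hspan : Submodule.span L (Set.range P) = ⊤ := by
    refine hPli.span_eq_top_of_card_eq_finrank' ?_
    rw [Fintype.card_coe]
    refine le_antisymm ?_ hfin
    have := hPli.fintype_card_le_finrank
    rwa [Fintype.card_coe] at this
  obtain ⟨v, hv, hv0⟩ := hne
  apply hv0
  have hvW : (fun i => (v i : L)) ∈ WL := Submodule.subset_span ⟨v, hv, rfl⟩
  have h1 : (⟨_, hvW⟩ : WL) ∈ Submodule.span L (Set.range P) := by rw [hspan]; trivial
  obtain ⟨c, hc⟩ := (Submodule.mem_span_range_iff_exists_fun L).1 h1
  obtain ⟨h, hh⟩ := IsLocalization.exist_integer_multiples (nonZeroDivisors F[X])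
    (Finset.univ : Finset S) c
  choose c' hc' using fun q => hh q (Finset.mem_univ q)
  have hh0 : (h : F[X]) ≠ 0 := nonZeroDivisors.ne_zero h.2
  have h2 : ∀ i, (h : F[X]) * C (v i : F) = ∑ q : S, c' q * prow a β t q.1 i := by
    intro i
    refine hφ ?_
    have h3 := congrFun (congrArg Subtype.val hc) i
    rw [Submodule.coe_sum, Finset.sum_apply] at h3
    simp only [Submodule.coe_smul, Pi.smul_apply, smul_eq_mul, P] at h3
    rw [map_mul, map_sum]
    have h4 : φ (C (v i : F)) = (v i : L) := by
      rw [map_intCast, map_intCast]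
    rw [h4, ← h3, Finset.mul_sum]
    refine Finset.sum_congr rfl fun q _ => ?_
    rw [map_mul, ← mul_assoc]
    congr 1
    have h4 := hc' q
    rw [Algebra.smul_def] at h4
    exact h4.symm
  funext i
  have h3 := parfrac hinj (fun i => (v i : F)) h hh0 (fun i => ∑ q : S, c' q * jac a β t q.1 i)
    (fun i => by
      rw [h2 i, Finset.mul_sum]
      refine Finset.sum_congr rfl fun q _ => ?_
      have h4 : (X - C (t i)) * jac a β t q.1 i = prow a β t q.1 i := X_sub_mul_jac q.1 i
      rw [← h4]
      ring) (by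
      rw [Finset.sum_comm]
      refine Finset.sum_eq_zero fun q _ => ?_
      rw [← Finset.mul_sum, jac_sum hs, mul_zero]) i
  exact_mod_cast h3

end core

end Pool.Agent.Work.WRC
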