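import Mathlib
import Pool.Agent.Work.MP_4329d7_ag_wrc.Defs2
import Pool.Agent.Work.MP_4329d7_ag_w.SpnI

/-!
W-RC, definitions for the modules Goo, KH, Spl, Vf0 (helper85).

* `SpanInj x f b`: as `SpanDir`, but with the solutions with distinct roots only;
* `KHd f b`: for every nonempty set `S` of moving equations the differences of their exponents,
  restricted to the span of the type, have rank `≥ #S + 1`.

The base field `KBf`, its coordinates `xB`, the base equations `resB` and `KHc` are in `Defs2`.
The proofs of `spl`, `ndb`, `data_base` are in `Spl.lean`, `NDb.lean`.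
-/

namespace Pool.Agent.Work.WRC

open Pool.Agent.Work.CI Pool.Agent.Work.CW

variable {Q : Type} [Fintype Q] {d : ℕ} {K : Type} [Field K] [Algebra ℂ K] {ι : Type} [Fintype ι]

/-- the directions of the solutions with distinct roots span -/
def SpanInj (x : Fin d → K) (f : Q → Lau d) (b : ι → Fin d → ℤ) : Prop :=
  ∀ c : ι → AlgebraicClosure K,
    (∀ q, Alin f (fun j => algebraMap K (AlgebraicClosure K) (x j)) q
      (fun j => ∑ i, c i * (b i j : AlgebraicClosure K)) = 0) →
    (fun j => ∑ i, c i * (b i j : AlgebraicClosure K)) ∈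
      Submodule.span (AlgebraicClosure K) {v | ∃ t : ι → AlgebraicClosure K,
        Function.Injective t ∧
        Sol f (fun j => algebraMap K (AlgebraicClosure K) (x j)) b t ∧ v = wt b t}

/-- the rank condition for the moving equations of the type `b` -/
def KHd (f : Q → Lau d) (b : ι → Fin d → ℤ) : Prop :=
  ∀ S : Finset Q, S.Nonempty → (∀ q ∈ S, 0 < dg f b q) →
    S.card + 1 ≤ Module.finrank ℚ (Submodule.span ℚ {v : ι → ℚ | ∃ q ∈ S,
      ∃ χ ∈ (f q).support, ∃ χ' ∈ (f q).support,
        v = fun i => ((pair χ (b i) - pair χ' (b i) : ℤ) : ℚ)})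

end Pool.Agent.Work.WRC
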