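import Mathlib
import Pool.Agent.Work.MP_4329d7_ag_wrc.Goo
import Pool.Agent.Work.MP_4329d7_ag_wrc.KHcore
import Pool.Agent.Work.MP_4329d7_ag_wrc.SplDefs

/-!
Module W-RC KH (helper27): if a good type has a solution with distinct roots then the differences of
the exponents of any nonempty set `S` of moving equations have rank `> #S` on the span of the type
(`khd`).  `exists_good_inj`: good types in the form needed: nondegenerate (`SpanInj`, `KHd`) or
degenerate (`KB x b = ⊤`).
-/

namespace Pool.Agent.Work.WRC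

open Polynomial Pool.Agent.Work.Uni Pool.Agent.Work.CI Pool.Agent.Work.CW

variable {Q : Type} [Fintype Q] {d : ℕ} {K : Type} [Field K] [Algebra ℂ K] {n : ℕ}
  {x : Fin d → K} {f : Q → Lau d} {ι : Type} [Fintype ι]

theorem khd (D : Data K n d Q x f) {b : ι → Fin d → ℤ} (hb : ∑ i, b i = 0)
    (hrank : RankB x f b) {t : ι → AlgebraicClosure K}
    (ht : Sol f (fun j => algebraMap K (AlgebraicClosure K) (x j)) b t)
    (hinj : Function.Injective t) : KHd f b := by
  classical
  intro S hS hpos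
  set F := AlgebraicClosure K with hF
  have : CharZero F := charZero_of_injective_algebraMap (algebraMap ℂ F).injective
  set y : Fin d → F := fun j => algebraMap K F (x j) with hy
  have hy0 : ∀ j, y j ≠ 0 := fun j => by
    rw [hy]
    simpa using D.ne j
  have hfy : ∀ q, ev (f q) y = 0 := ev_algClosure D
  have hdeg := fun q p h => coef_deg D.nz hb y q p h
  have hrow : ∀ q i, ∑ p, coef f y q p * (blk f (b i) p : F) =
      Alin f y q (fun j => (b i j : F)) := fun q i => sum_coef_blk D.nz hfy (b i) q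
  have hcne : ∀ q (χ : (f q).support), coef f y q ⟨q, χ⟩ ≠ 0 := by
    intro q χ
    unfold coef
    simp only [if_true]
    exact mul_ne_zero (by simpa using Finsupp.mem_support_iff.1 χ.2) (mon_ne_zero hy0 _)
  have h1 := kh_core (a := coef f y) (β := fun i => blk f (b i)) (mq := dg f b) hdeg ht hinj S
    (fun c hc q hq => by
      have h2 := hrank (fun q => if q ∈ S then c q else 0) (fun i => by
        refine Eq.trans ?_ (hc i)
        rw [← Finset.sum_filter_add_sum_filter_not Finset.univ (fun q => q ∈ S)]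
        have h3 : ∑ q ∈ Finset.univ.filter (fun q => ¬ q ∈ S), (if q ∈ S then c q else 0) *
            Alin f y q (fun j => (b i j : F)) = 0 :=
          Finset.sum_eq_zero fun q hq => by
            rw [if_neg (Finset.mem_filter.1 hq).2, zero_mul]
        rw [h3, add_zero, Finset.filter_mem_eq_inter, Finset.univ_inter]
        refine Finset.sum_congr rfl fun q hq => ?_
        rw [if_pos hq, hrow]) q (hpos q hq)
      rwa [if_pos hq] at h2) (by
      obtain ⟨q, hq⟩ := hS
      by_contra hcon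
      push Not at hcon
      obtain ⟨χ₀, hχ₀⟩ := Finsupp.support_nonempty_iff.2 (D.nz q)
      have h3 : ∀ i, blk f (b i) ⟨q, χ₀, hχ₀⟩ = 0 := by
        intro i
        obtain ⟨χ, hχ, hm⟩ := exists_mn (D.nz q) (b i)
        have h4 := hcon (fun i => (blk f (b i) ⟨q, χ₀, hχ₀⟩ : ℤ) - (blk f (b i) ⟨q, χ, hχ⟩ : ℤ))
          ⟨q, hq, _, _, hcne q ⟨χ₀, hχ₀⟩, hcne q ⟨χ, hχ⟩, rfl⟩
        have h5 := congrFun h4 i
        simp only [Pi.zero_apply] at h5
        have h6 := blk_cast f (b i) ⟨q, χ, hχ⟩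
        simp only at h6
        rw [hm, sub_self] at h6
        rw [h6, sub_zero] at h5
        exact_mod_cast h5
      have h4 := hdeg q ⟨q, χ₀, hχ₀⟩ (hcne q ⟨χ₀, hχ₀⟩)
      rw [Finset.sum_eq_zero fun i _ => h3 i] at h4
      have := hpos q hq
      omega)
  refine h1.trans (Submodule.finrank_mono (Submodule.span_mono ?_))
  rintro _ ⟨v, ⟨q, hq, p, p', hp, hp', rfl⟩, rfl⟩
  have h2 := coef_ne hp
  have h3 := coef_ne hp'
  obtain ⟨q₁, χ, hχ⟩ := p
  obtain ⟨q₂, χ', hχ'⟩ := p'
  simp only at h2 h3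
  subst h2
  subst h3
  refine ⟨q₂, hq, χ, hχ, χ', hχ', ?_⟩
  funext i
  simp only [blk_cast]
  congr 1
  ring

theorem spanInj {b : ι → Fin d → ℤ} (hb : ∑ i, b i = 0) (h2 : TwoVal x f b)
    (hspan : SpanDir x f b) : SpanInj x f b := by
  intro c hc
  refine Submodule.span_mono ?_ (span_inj hb h2 hspan c hc)
  rintro v ⟨t, h1, h2, h3⟩
  exact ⟨t, h2, h1, h3⟩

/-- good types: nondegenerate or degenerate -/
theorem exists_good_inj [Algebra.EssFiniteType ℂ K] (D : Data K n d Q x f)
    (h : ∃ (ι : Type) (_ : Fintype ι) (b : ι → Fin d → ℤ), IsPk f b) :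
    ∃ (ι : Type) (_ : Fintype ι) (b : ι → Fin d → ℤ), Good x f b ∧ TwoVal x f b ∧
      SpanInj x f b ∧ RankB x f b ∧
      (((∃ t : ι → AlgebraicClosure K, Function.Injective t ∧
        Sol f (fun j => algebraMap K (AlgebraicClosure K) (x j)) b t) ∧ KHd f b) ∨
        KB x b = ⊤) := by
  obtain ⟨ι, _, b, hg, h2, h3, h4, h5⟩ := exists_good' D h
  refine ⟨ι, inferInstance, b, hg, h2, spanInj hg.sum h2 h3, h4, ?_⟩
  rcases h5 with ⟨t, h6, h7⟩ | h5
  · exact Or.inl ⟨⟨t, h7, h6⟩, khd D hg.sum h4 h6 h7⟩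
  · exact Or.inr h5

end Pool.Agent.Work.WRC
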