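import Mathlib
import Pool.Agent.Work.MP_4329d7_ag_rp.MainT
import Pool.Agent.Work.MP_4329d7_ag_wrc.Defs

/-!
W-RC, module Main, part A: formal properties of `PRC`.

* `PRC.equiv`: invariance under isomorphisms; `prc_zero`: fields of transcendence degree `0`;
* `rc_of_prc`: `PRC K` gives `RationallyConnected K`;
* `HU K`: all subfields of positive transcendence degree are uniruled; `HU.sub`, `HU.self`.
-/

namespace Pool.Agent.Work.WRC

open Polynomial Pool.Agent.Work.CI Pool.Agent.Work.Uni Pool.Agent.Work.MP_4329d7_ag.FF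

/-- `PRC` is invariant under isomorphisms -/
theorem PRC.equiv {K K' : Type} [Field K] [Algebra ℂ K] [Field K'] [Algebra ℂ K']
    (e : K ≃ₐ[ℂ] K') (h : PRC K) : PRC K' := by
  obtain ⟨k, _, _, hk, i, φ, hinf, I, _, x, hx, hai⟩ := h
  refine ⟨k, inferInstance, inferInstance, hk, i.comp e.symm.toAlgHom, φ.comp e.symm.toAlgHom,
    fun y => hinf (e.symm y), I, inferInstance, fun j => e (x j), ?_, ?_⟩
  · exact e.isTranscendenceBasis hx
  · convert hai using 1
    funext s
    rcases s with j | j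
    · change RatFunc.C (i (e.symm (e (x j)))) = RatFunc.C (i (x j))
      rw [e.symm_apply_apply]
    · change φ (e.symm (e (x j))) = φ (x j)
      rw [e.symm_apply_apply]

/-- the case of transcendence degree `0` -/
theorem prc_zero {K : Type} [Field K] [Algebra ℂ K] (h : Algebra.trdeg ℂ K = 0) : PRC K := by
  have halg : Algebra.IsAlgebraic ℂ K := trdeg_eq_zero_iff.1 h
  have hb : Function.Bijective (algebraMap ℂ K) :=
    IsAlgClosed.algebraMap_bijective_of_isIntegral
  let e : ℂ ≃ₐ[ℂ] K := AlgEquiv.ofBijective (Algebra.ofId ℂ K) hb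
  refine PRC.equiv e ⟨ℂ, inferInstance, inferInstance, inferInstance, AlgHom.id ℂ ℂ,
    { (RatFunc.C : ℂ →+* RatFunc ℂ) with
      commutes' := fun c => (Pool.Agent.Work.MP_4329d7_ag_sq.algebraMap_ratFunc c).symm },
    fun y => Inf.const y, Empty, inferInstance, fun j => j.elim, ?_, ?_⟩
  · rw [isTranscendenceBasis_iff_algebraicIndependent_isAlgebraic]
    refine ⟨algebraicIndependent_empty_type, ?_⟩
    exact Algebra.IsAlgebraic.mk fun z => isAlgebraic_algebraMap (⟨z, Algebra.mem_bot.2 ⟨z, rfl⟩ |>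
      fun h => (bot_le : (⊥ : Subalgebra ℂ ℂ) ≤ _) h⟩ :
      Algebra.adjoin ℂ (Set.range fun j : Empty => (j.elim : ℂ)))
  · exact algebraicIndependent_empty_type

/-- the end of the induction -/
theorem rc_of_prc {K : Type} [Field K] [Algebra ℂ K] [Algebra.EssFiniteType ℂ K] (h : PRC K) :
    RationallyConnected K := by
  obtain ⟨k, _, _, _, i, φ, hinf, I, _, x, hx, hai⟩ := h
  exact rc_of_inf i φ hinf x hx hai

/-- all subfields of positive transcendence degree are uniruled -/
def HU (K : Type) [Field K] [Algebra ℂ K] : Prop :=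
  ∀ K' : IntermediateField ℂ K, Algebra.trdeg ℂ K' ≠ 0 → Uniruled K'

theorem HU.sub {K : Type} [Field K] [Algebra ℂ K] (h : HU K) (K₁ : IntermediateField ℂ K) :
    HU K₁ := by
  intro K' hK'
  let e : K' ≃ₐ[ℂ] IntermediateField.lift K' := IntermediateField.liftAlgEquiv K'
  have h1 : Algebra.trdeg ℂ (IntermediateField.lift K') ≠ 0 := by
    have h2 := e.trdeg_eq
    rwa [← h2]
  exact RP.uniruled_of_equiv e.symm (h _ h1)

theorem HU.self {K : Type} [Field K] [Algebra ℂ K] (h : HU K) (h0 : Algebra.trdeg ℂ K ≠ 0) :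
    Uniruled K := by
  have h1 : Algebra.trdeg ℂ (⊤ : IntermediateField ℂ K) ≠ 0 := by
    have h2 := (IntermediateField.topEquiv (F := ℂ) (E := K)).trdeg_eq
    rwa [h2]
  exact RP.uniruled_of_equiv IntermediateField.topEquiv (h _ h1)

end Pool.Agent.Work.WRC
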