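import Mathlib
import Pool.Agent.Work.MP_4329d7_ag_wrc.SplDefs
import Pool.Agent.Work.MP_4329d7_ag_ci.Quot
import Pool.Agent.Work.MP_4329d7_ag_ci.Nondeg

/-!
W-RC, module Spl, first part: unimodular changes of coordinates.

`X : Fin d' → Fin d → ℤ` (rows) and `W : Fin d → Fin d' → ℤ` are mutually inverse integral
matrices.  New coordinates `x' i = mon x (X i)`, new equations
`f' q' = quotLau (c (e q')) X _ (f (e q'))` (`e : Q' ≃ Q`, `c q` arbitrary exponents), new types
`b' i = chgB X (b i)`.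
-/

namespace Pool.Agent.Work.WRC

open Polynomial Pool.Agent.Work.Uni Pool.Agent.Work.CI Pool.Agent.Work.CW

/-- `X` and `W` are mutually inverse integral matrices -/
structure Umod {d d' : ℕ} (X : Fin d' → Fin d → ℤ) (W : Fin d → Fin d' → ℤ) : Prop where
  xw : ∀ i j, ∑ k, X i k * W k j = if i = j then 1 else 0
  wx : ∀ i j, ∑ k, W i k * X k j = if i = j then 1 else 0

/-- the image of a one-parameter subgroup -/
def chgB {d d' : ℕ} (X : Fin d' → Fin d → ℤ) (b : Fin d → ℤ) : Fin d' → ℤ := fun j => pair (X j) b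

section lattice

variable {d d' : ℕ} {X : Fin d' → Fin d → ℤ} {W : Fin d → Fin d' → ℤ}

theorem chg_pair_quotMap (c : Fin d → ℤ) (X : Fin d' → Fin d → ℤ) (u : Fin d' → ℤ) (b : Fin d → ℤ) :
    pair (quotMap c X u) b = pair c b + pair u (chgB X b) := by
  unfold quotMap
  rw [add_pair]
  congr 1
  unfold chgB pair
  simp only [Finset.sum_apply, Pi.smul_apply, smul_eq_mul, Finset.sum_mul, Finset.mul_sum]
  rw [Finset.sum_comm]
  refine Finset.sum_congr rfl fun i _ => Finset.sum_congr rfl fun j _ => by ring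

theorem Umod.li (h : Umod X W) : LinearIndependent ℤ X := by
  classical
  rw [Fintype.linearIndependent_iff]
  intro g hg i
  have h1 : ∑ k, (∑ j, g j • X j) k * W k i = g i := by
    simp only [Finset.sum_apply, Pi.smul_apply, smul_eq_mul, Finset.sum_mul]
    rw [Finset.sum_comm]
    have h2 : ∀ j, ∑ k, g j * X j k * W k i = g j * if j = i then 1 else 0 := by
      intro j
      rw [← h.xw j i, Finset.mul_sum]
      exact Finset.sum_congr rfl fun k _ => by ring
    rw [Finset.sum_congr rfl fun j _ => h2 j]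
    simp
  rw [← h1, hg]
  simp

theorem Umod.sum_smul (h : Umod X W) (χ : Fin d → ℤ) :
    ∑ i, (∑ k, χ k * W k i) • X i = χ := by
  classical
  funext j
  simp only [Finset.sum_apply, Pi.smul_apply, smul_eq_mul, Finset.sum_mul]
  rw [Finset.sum_comm]
  have h2 : ∀ k, ∑ i, χ k * W k i * X i j = χ k * if k = j then 1 else 0 := by
    intro k
    rw [← h.wx k j, Finset.mul_sum]
    exact Finset.sum_congr rfl fun i _ => by ring
  rw [Finset.sum_congr rfl fun k _ => h2 k]
  simp

theorem Umod.mem_range (h : Umod X W) (c χ : Fin d → ℤ) : χ ∈ Set.range (quotMap c X) := by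
  refine ⟨fun i => ∑ k, (χ - c) k * W k i, ?_⟩
  unfold quotMap
  rw [h.sum_smul]
  abel

theorem Umod.psh_inj (h : Umod X W) {b b' : Fin d → ℤ} (hb : chgB X b = chgB X b') : b = b' := by
  classical
  have h1 : ∀ b : Fin d → ℤ, ∀ i, ∑ j, W i j * chgB X b j = b i := by
    intro b i
    unfold chgB pair
    simp only [Finset.mul_sum]
    rw [Finset.sum_comm]
    have h2 : ∀ k, ∑ j, W i j * (X j k * b k) = (if i = k then 1 else 0) * b k := by
      intro k
      rw [← h.wx i k, Finset.sum_mul]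
      exact Finset.sum_congr rfl fun j _ => by ring
    rw [Finset.sum_congr rfl fun k _ => h2 k]
    simp
  funext i
  rw [← h1 b i, ← h1 b' i, hb]

theorem Umod.psh_pull (h : Umod X W) (b' : Fin d' → ℤ) :
    chgB X (fun i => ∑ j, W i j * b' j) = b' := by
  classical
  funext i
  unfold chgB pair
  simp only [Finset.mul_sum]
  rw [Finset.sum_comm]
  have h2 : ∀ k, ∑ j, X i j * (W j k * b' k) = (if i = k then 1 else 0) * b' k := by
    intro k
    rw [← h.xw i k, Finset.sum_mul]
    exact Finset.sum_congr rfl fun j _ => by ring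
  rw [Finset.sum_congr rfl fun k _ => h2 k]
  simp

theorem chg_psh_zero : chgB X 0 = 0 := by
  funext j
  exact pair_zero _

theorem chg_psh_sum {ι : Type} [Fintype ι] (b : ι → Fin d → ℤ) :
    chgB X (∑ i, b i) = ∑ i, chgB X (b i) := by
  funext j
  rw [Finset.sum_apply]
  exact pair_sum _ _ _

theorem Umod.card (h : Umod X W) : d' = d := by
  have h1 : d' ≤ d := by
    have := h.li.fintype_card_le_finrank
    simpa using this
  have h2 : Umod W X := ⟨h.wx, h.xw⟩
  have h3 : d ≤ d' := by
    have := h2.li.fintype_card_le_finrank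
    simpa using this
  omega

/-- points of the old torus from points of the new one -/
theorem Umod.mon_pull (h : Umod X W) {F : Type} [Field F] {y' : Fin d' → F} (hy : ∀ j, y' j ≠ 0)
    (j : Fin d') : mon (fun i => mon y' (W i)) (X j) = y' j := by
  classical
  rw [← quot_mon_sum hy]
  have h1 : ∑ i, X j i • W i = Pi.single j 1 := by
    funext k
    simp only [Finset.sum_apply, Pi.smul_apply, smul_eq_mul]
    rw [h.xw j k, Pi.single_apply]
    by_cases hjk : j = k
    · rw [if_pos hjk, if_pos hjk.symm]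
    · rw [if_neg hjk, if_neg (fun h => hjk h.symm)]
  rw [h1]
  unfold mon
  rw [Finset.prod_eq_single j]
  · rw [Pi.single_eq_same, zpow_one]
  · intro k _ hk
    rw [Pi.single_eq_of_ne hk, zpow_zero]
  · intro hj
    exact absurd (Finset.mem_univ _) hj

/-- the old coordinates are monomials in the new ones -/
theorem Umod.mon_push (h : Umod X W) {F : Type} [Field F] {y : Fin d → F} (hy : ∀ j, y j ≠ 0)
    (j : Fin d) : mon (fun i => mon y (X i)) (W j) = y j :=
  (⟨h.wx, h.xw⟩ : Umod W X).mon_pull hy j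

end lattice

section lau

variable {d d' : ℕ} {X : Fin d' → Fin d → ℤ} {W : Fin d → Fin d' → ℤ} (h : Umod X W)
include h

theorem Umod.lau_ne_zero (c : Fin d → ℤ) {f : Lau d} (hf : f ≠ 0) :
    quotLau c X h.li f ≠ 0 := by
  obtain ⟨χ, hχ⟩ := Finsupp.support_nonempty_iff.2 hf
  obtain ⟨u, hu⟩ := h.mem_range c χ
  intro h0
  have h1 : u ∈ (quotLau c X h.li f).support := quotLau_mem.2 (by rw [hu]; exact hχ)
  rw [h0] at h1
  simp at h1

theorem Umod.mn (c : Fin d → ℤ) {f : Lau d} (hf : f ≠ 0) (b : Fin d → ℤ) :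
    CI.mn (quotLau c X h.li f) (chgB X b) = CI.mn f b - pair c b := by
  obtain ⟨χ, hχ, h1⟩ := exists_mn hf b
  obtain ⟨u, hu, h2⟩ := exists_mn (h.lau_ne_zero c hf) (chgB X b)
  apply le_antisymm
  · obtain ⟨v, hv⟩ := h.mem_range c χ
    have h3 : v ∈ (quotLau c X h.li f).support := quotLau_mem.2 (by rw [hv]; exact hχ)
    have h4 := mn_le h3 (chgB X b)
    have h5 := chg_pair_quotMap c X v b
    rw [hv, h1] at h5
    linarith
  · have h3 := mn_le (quotLau_mem.1 hu) b
    rw [chg_pair_quotMap, h2] at h3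
    linarith

theorem Umod.ini (c : Fin d → ℤ) (f : Lau d) (b : Fin d → ℤ) :
    CI.ini (chgB X b) (quotLau c X h.li f) = quotLau c X h.li (CI.ini b f) := by
  classical
  ext u
  unfold quotLau CI.ini
  rw [Finsupp.comapDomain_apply, Finsupp.filter_apply, Finsupp.filter_apply,
    Finsupp.comapDomain_apply]
  refine if_congr ?_ rfl rfl
  constructor
  · intro h1 χ' hχ'
    obtain ⟨v, hv⟩ := h.mem_range c χ'
    have h3 : v ∈ (quotLau c X h.li f).support := quotLau_mem.2 (by rw [hv]; exact hχ')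
    have h4 := h1 v h3
    rw [← hv, chg_pair_quotMap, chg_pair_quotMap]
    linarith
  · intro h1 v hv
    have h3 := h1 _ ((quotLau_mem (hX := h.li)).1 hv)
    rw [chg_pair_quotMap, chg_pair_quotMap] at h3
    linarith

theorem Umod.range_f (c : Fin d → ℤ) (f : Lau d) :
    ∀ χ ∈ f.support, χ ∈ Set.range (quotMap c X) := fun χ _ => h.mem_range c χ

theorem Umod.ev (c : Fin d → ℤ) (f : Lau d) {F : Type} [Field F] [Algebra ℂ F] {y : Fin d → F}
    (hy : ∀ j, y j ≠ 0) :
    CI.ev f y = mon y c * CI.ev (quotLau c X h.li f) (fun i => mon y (X i)) :=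
  quotLau_ev (h.range_f c f) hy

theorem Umod.ldv (c : Fin d → ℤ) (f : Lau d) {F : Type} [Field F] [Algebra ℂ F] {y : Fin d → F}
    (hy : ∀ j, y j ≠ 0) (h0 : CI.ev f y = 0) (j : Fin d) :
    CI.ldv f j y = mon y c *
      ∑ i, (X i j : F) * CI.ldv (quotLau c X h.li f) i (fun i => mon y (X i)) :=
  quotLau_ldv (h.range_f c f) hy h0 j

theorem Umod.mon_quotMap (c : Fin d → ℤ) {F : Type} [Field F] {y : Fin d → F}
    (hy : ∀ j, y j ≠ 0) (u : Fin d' → ℤ) :
    mon y (quotMap c X u) = mon y c * mon (fun i => mon y (X i)) u := by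
  unfold quotMap
  rw [mon_add hy, quot_mon_sum hy]

end lau

section system

variable {d d' : ℕ} {X : Fin d' → Fin d → ℤ} {W : Fin d → Fin d' → ℤ} (h : Umod X W)
  {Q Q' : Type} (e : Q' ≃ Q) (c : Q → Fin d → ℤ) (f : Q → Lau d)

/-- the new equations -/
noncomputable def Umod.sys (q : Q') : Lau d' := quotLau (c (e q)) X h.li (f (e q))

theorem Umod.sys_nondeg {f : Q → Lau d} [Fintype Q] [Fintype Q'] (nd : Nondegenerate f) :
    Nondegenerate (h.sys e c f) := by
  classical
  intro b' y' hy' hev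
  set b : Fin d → ℤ := fun i => ∑ j, W i j * b' j with hb
  have hbb : chgB X b = b' := h.psh_pull b'
  set y : Fin d → ℂ := fun i => mon y' (W i) with hyd
  have hy : ∀ i, y i ≠ 0 := fun i => mon_ne_zero hy' _
  have hyy : (fun i => mon y (X i)) = y' := funext fun j => h.mon_pull hy' j
  have hini : ∀ q, CI.ini b' (h.sys e c f q) = quotLau (c (e q)) X h.li (CI.ini b (f (e q))) := by
    intro q
    rw [← hbb]
    exact h.ini _ _ _
  have hev' : ∀ q, CI.ev (CI.ini b (f q)) y = 0 := by
    intro q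
    obtain ⟨q', rfl⟩ := e.surjective q
    rw [h.ev (c (e q')) _ hy, hyy, ← hini, hev q', mul_zero]
  have hli := nd b y hy hev'
  rw [Fintype.linearIndependent_iff] at hli ⊢
  intro g hg q'
  have h1 := hli (fun q => g (e.symm q) * (mon y (c q))⁻¹) (by
    funext j
    rw [Finset.sum_apply, Pi.zero_apply]
    have h2 : ∀ q, ((fun q => g (e.symm q) * (mon y (c q))⁻¹) q •
        fun j => CI.ldv (CI.ini b (f q)) j y) j =
        ∑ i, (X i j : ℂ) * (g (e.symm q) * CI.ldv (CI.ini b' (h.sys e c f (e.symm q))) i y') := by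
      intro q
      have h3 := h.ldv (c q) (CI.ini b (f q)) hy (hev' q) j
      have h4 := mon_ne_zero hy (c q)
      have h5 := hini (e.symm q)
      rw [e.apply_symm_apply] at h5
      rw [h5, ← hyy]
      show g (e.symm q) * (mon y (c q))⁻¹ * CI.ldv (CI.ini b (f q)) j y = _
      rw [h3, Finset.mul_sum, Finset.mul_sum]
      refine Finset.sum_congr rfl fun i _ => ?_
      field_simp
    rw [Finset.sum_congr rfl fun q _ => h2 q, Finset.sum_comm]
    refine Finset.sum_eq_zero fun i _ => ?_
    rw [← Finset.mul_sum]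
    have h6 := congrFun hg i
    rw [Finset.sum_apply, Pi.zero_apply] at h6
    have h7 : ∑ q, g (e.symm q) * CI.ldv (CI.ini b' (h.sys e c f (e.symm q))) i y' =
        ∑ q', g q' * CI.ldv (CI.ini b' (h.sys e c f q')) i y' :=
      Equiv.sum_comp e.symm fun q' => g q' * CI.ldv (CI.ini b' (h.sys e c f q')) i y'
    rw [h7]
    have h8 : ∑ q', g q' * CI.ldv (CI.ini b' (h.sys e c f q')) i y' = 0 := h6
    rw [h8, mul_zero]) (e q')
  simp only [e.symm_apply_apply] at h1
  exact (mul_eq_zero.1 h1).resolve_right (inv_ne_zero (mon_ne_zero hy _))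

theorem Umod.sys_dg {f : Q → Lau d} (hf : ∀ q, f q ≠ 0) {ι : Type} [Fintype ι]
    (b : ι → Fin d → ℤ) (hb : ∑ i, b i = 0) (q : Q') :
    dg (h.sys e c f) (fun i => chgB X (b i)) q = dg f b (e q) := by
  unfold dg
  congr 2
  have h1 : ∀ i, CI.mn (h.sys e c f q) (chgB X (b i)) = CI.mn (f (e q)) (b i) - pair (c (e q)) (b i) :=
    fun i => h.mn _ (hf _) _
  rw [Finset.sum_congr rfl fun i _ => h1 i, Finset.sum_sub_distrib, ← pair_sum, hb, pair_zero,
    sub_zero]

theorem Umod.sys_data {f : Q → Lau d} [Fintype Q] [Fintype Q'] {K : Type} [Field K]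
    [Algebra ℂ K] {n : ℕ} {x : Fin d → K} (D : Data K n d Q x f) (nd : Nondegenerate f) :
    Data K n d' Q' (fun i => mon x (X i)) (h.sys e c f) := by
  refine data_of_nondegenerate (h.sys_nondeg e c nd) (fun i => mon_ne_zero D.ne _) ?_ ?_ D.trdeg ?_
  · rw [← top_le_iff, ← D.gen, IntermediateField.adjoin_le_iff]
    rintro _ ⟨j, rfl⟩
    rw [← h.mon_push D.ne j]
    exact prod_mem fun i _ => zpow_mem
      (IntermediateField.subset_adjoin ℂ (Set.range fun i => mon x (X i)) ⟨i, rfl⟩) _
  · intro q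
    have h1 := h.ev (c (e q)) (f (e q)) D.ne
    rw [D.eq] at h1
    exact (mul_eq_zero.1 h1.symm).resolve_left (mon_ne_zero D.ne _)
  · have h1 := D.dim
    rw [h.card, Fintype.card_congr e]
    exact h1

end system

section sol

variable {d : ℕ} {Q : Type} [Fintype Q] {ι : Type} [Fintype ι] {F : Type} [Field F] [Algebra ℂ F]

theorem chg_sol_iff (f : Q → Lau d) (y : Fin d → F) (b : ι → Fin d → ℤ) (t : ι → F) :
    Sol f y b t ↔ ∀ q, ∑ χ ∈ (f q).support, C (algebraMap ℂ F (f q χ) * mon y χ) *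
      ∏ i, (Polynomial.X - C (t i)) ^ (pair χ (b i) - CI.mn (f q) (b i)).toNat = 0 := by
  classical
  unfold Sol IsSol
  refine forall_congr' fun q => ?_
  have h1 : ∑ p, C (coef f y q p) * rootPoly (fun i => blk f (b i)) t p =
      ∑ χ ∈ (f q).support, C (algebraMap ℂ F (f q χ) * mon y χ) *
      ∏ i, (Polynomial.X - C (t i)) ^ (pair χ (b i) - CI.mn (f q) (b i)).toNat := by
    rw [Fintype.sum_sigma, Finset.sum_eq_single q]
    · simp only [coef, if_true]
      rw [← Finset.sum_coe_sort (f q).support (fun χ => C (algebraMap ℂ F (f q χ) * mon y χ) *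
        ∏ i, (Polynomial.X - C (t i)) ^ (pair χ (b i) - CI.mn (f q) (b i)).toNat)]
      rfl
    · intro q' _ hq'
      refine Finset.sum_eq_zero fun χ _ => ?_
      unfold coef
      rw [if_neg hq', C_0, zero_mul]
    · intro hq
      exact absurd (Finset.mem_univ _) hq
  rw [h1]

end sol

section push

variable {d d' : ℕ} {X : Fin d' → Fin d → ℤ} {W : Fin d → Fin d' → ℤ} (h : Umod X W)
  {Q Q' : Type} [Fintype Q] [Fintype Q'] (e : Q' ≃ Q) (c : Q → Fin d → ℤ) {f : Q → Lau d}
  {ι : Type} [Fintype ι] {F : Type} [Field F] [Algebra ℂ F]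

theorem Umod.sol (hf : ∀ q, f q ≠ 0) {y : Fin d → F} (hy : ∀ j, y j ≠ 0) (b : ι → Fin d → ℤ)
    (t : ι → F) : Sol (h.sys e c f) (fun i => mon y (X i)) (fun i => chgB X (b i)) t ↔
      Sol f y b t := by
  rw [chg_sol_iff, chg_sol_iff]
  have key : ∀ q', ∑ χ ∈ (f (e q')).support, C (algebraMap ℂ F (f (e q') χ) * mon y χ) *
      ∏ i, (Polynomial.X - C (t i)) ^ (pair χ (b i) - CI.mn (f (e q')) (b i)).toNat =
      C (mon y (c (e q'))) * ∑ u ∈ (h.sys e c f q').support,
        C (algebraMap ℂ F (h.sys e c f q' u) * mon (fun i => mon y (X i)) u) *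
        ∏ i, (Polynomial.X - C (t i)) ^
          (pair u (chgB X (b i)) - CI.mn (h.sys e c f q') (chgB X (b i))).toNat := by
    intro q'
    rw [← quotLau_sum (hX := h.li) (h.range_f (c (e q')) (f (e q'))), Finset.mul_sum]
    refine Finset.sum_congr rfl fun u _ => ?_
    have h1 : (h.sys e c f q') u = f (e q') (quotMap (c (e q')) X u) := rfl
    have h2 : ∀ i, pair u (chgB X (b i)) - CI.mn (h.sys e c f q') (chgB X (b i)) =
        pair (quotMap (c (e q')) X u) (b i) - CI.mn (f (e q')) (b i) := by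
      intro i
      have h3 : CI.mn (h.sys e c f q') (chgB X (b i)) =
        CI.mn (f (e q')) (b i) - pair (c (e q')) (b i) := h.mn _ (hf _) _
      rw [h3, chg_pair_quotMap]
      ring
    rw [h1, h.mon_quotMap _ hy]
    simp only [h2, C_mul]
    ring
  constructor
  · intro h1 q
    obtain ⟨q', rfl⟩ := e.surjective q
    rw [key, h1 q', mul_zero]
  · intro h1 q'
    have h2 := key q'
    rw [h1 (e q')] at h2
    exact (mul_eq_zero.1 h2.symm).resolve_left (C_ne_zero.2 (mon_ne_zero hy _))

/-- the image of a direction -/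
noncomputable def chgPv (F : Type) [Field F] (X : Fin d' → Fin d → ℤ) :
    (Fin d → F) →ₗ[F] (Fin d' → F) where
  toFun v i := ∑ j, (X i j : F) * v j
  map_add' v w := by
    funext i
    simp [mul_add, Finset.sum_add_distrib]
  map_smul' a v := by
    funext i
    simp only [Pi.smul_apply, smul_eq_mul, RingHom.id_apply, Finset.mul_sum]
    exact Finset.sum_congr rfl fun j _ => by ring

theorem chg_pv_apply (v : Fin d → F) (i : Fin d') : chgPv F X v i = ∑ j, (X i j : F) * v j := rfl

theorem chg_pv_comb (b : ι → Fin d → ℤ) (a : ι → F) :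
    chgPv F X (fun j => ∑ i, a i * (b i j : F)) = fun j => ∑ i, a i * (chgB X (b i) j : F) := by
  funext k
  rw [chg_pv_apply]
  unfold chgB pair
  push_cast
  simp only [Finset.mul_sum]
  rw [Finset.sum_comm]
  refine Finset.sum_congr rfl fun i _ => Finset.sum_congr rfl fun j _ => by ring

theorem chg_pv_wt (b : ι → Fin d → ℤ) (t : ι → F) :
    chgPv F X (wt b t) = wt (fun i => chgB X (b i)) t := chg_pv_comb b t

theorem Umod.alin {y : Fin d → F} (hy : ∀ j, y j ≠ 0) (q' : Q') (h0 : CI.ev (f (e q')) y = 0)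
    (v : Fin d → F) : Alin f y (e q') v = mon y (c (e q')) *
      Alin (h.sys e c f) (fun i => mon y (X i)) q' (chgPv F X v) := by
  unfold Alin
  simp only [h.ldv (c (e q')) (f (e q')) hy h0, chg_pv_apply, Finset.mul_sum, Finset.sum_mul]
  rw [Finset.sum_comm]
  refine Finset.sum_congr rfl fun i _ => Finset.sum_congr rfl fun j _ => ?_
  show _ = mon y (c (e q')) * ((X i j : F) * v j *
    CI.ldv (quotLau (c (e q')) X h.li (f (e q'))) i fun i => mon y (X i))
  ring

end push

section props

variable {d d' : ℕ} {X : Fin d' → Fin d → ℤ} {W : Fin d → Fin d' → ℤ} (h : Umod X W)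
  {Q Q' : Type} [Fintype Q] [Fintype Q'] (e : Q' ≃ Q) (c : Q → Fin d → ℤ) {f : Q → Lau d}
  {ι : Type} [Fintype ι] {K : Type} [Field K] [Algebra ℂ K] {n : ℕ} {x : Fin d → K}
  (D : Data K n d Q x f) {b : ι → Fin d → ℤ}
include D

theorem chg_emb_mon {F : Type} [Field F] [Algebra ℂ F] (emb : K →ₐ[ℂ] F) :
    (fun i => emb (mon x (X i))) = fun i => mon (fun j => emb (x j)) (X i) := by
  funext i
  unfold mon
  rw [map_prod]
  exact Finset.prod_congr rfl fun j _ => map_zpow₀ _ _ _

theorem Umod.good (hg : Good x f b) :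
    Good (fun i => mon x (X i)) (h.sys e c f) (fun i => chgB X (b i)) := by
  refine ⟨fun i h0 => hg.ne i (h.psh_inj (h0.trans chg_psh_zero.symm)), ?_, ?_, ?_⟩
  · rw [← chg_psh_sum, hg.sum, chg_psh_zero]
  · rw [hg.card, ← Equiv.sum_comp e fun q => dg f b q]
    congr 1
    exact Finset.sum_congr rfl fun q _ => (h.sys_dg e c D.nz b hg.sum q).symm
  · intro F _ _ _ emb t ht
    have hy : ∀ j, emb (x j) ≠ 0 := fun j => by
      rw [Ne, map_eq_zero]
      exact D.ne j
    rw [chg_emb_mon D emb, h.sol e c D.nz hy] at ht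
    exact hg.sol F emb t ht

theorem Umod.spanInj (hs : SpanInj x f b) :
    SpanInj (fun i => mon x (X i)) (h.sys e c f) (fun i => chgB X (b i)) := by
  intro a ha
  have hxx : (fun i => algebraMap K (AlgebraicClosure K) (mon x (X i))) =
      fun i => mon (fun j => algebraMap K (AlgebraicClosure K) (x j)) (X i) :=
    chg_emb_mon D (IsScalarTower.toAlgHom ℂ K (AlgebraicClosure K))
  have hy : ∀ j, algebraMap K (AlgebraicClosure K) (x j) ≠ 0 := fun j => by
    rw [Ne, map_eq_zero]
    exact D.ne j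
  have h1 := hs a (fun q => by
    obtain ⟨q', rfl⟩ := e.surjective q
    rw [h.alin e c hy q' (ev_algClosure D _), chg_pv_comb, ← hxx, ha q', mul_zero])
  have h2 := Submodule.mem_map_of_mem (f := chgPv (AlgebraicClosure K) X) h1
  rw [chg_pv_comb, Submodule.map_span] at h2
  refine Submodule.span_mono ?_ h2
  rintro _ ⟨_, ⟨t, ht1, ht2, rfl⟩, rfl⟩
  refine ⟨t, ht1, ?_, chg_pv_wt b t⟩
  rw [hxx]
  exact (h.sol e c D.nz hy b t).2 ht2

theorem Umod.rankB (hb : ∑ i, b i = 0) (hr : RankB x f b) :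
    RankB (fun i => mon x (X i)) (h.sys e c f) (fun i => chgB X (b i)) := by
  intro a ha q' hq'
  have hxx : (fun i => algebraMap K (AlgebraicClosure K) (mon x (X i))) =
      fun i => mon (fun j => algebraMap K (AlgebraicClosure K) (x j)) (X i) :=
    chg_emb_mon D (IsScalarTower.toAlgHom ℂ K (AlgebraicClosure K))
  have hy : ∀ j, algebraMap K (AlgebraicClosure K) (x j) ≠ 0 := fun j => by
    rw [Ne, map_eq_zero]
    exact D.ne j
  have h1 := hr (fun q => a (e.symm q) *
      (mon (fun j => algebraMap K (AlgebraicClosure K) (x j)) (c q))⁻¹) (fun i => by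
    rw [← ha i, ← Equiv.sum_comp e]
    refine Finset.sum_congr rfl fun q _ => ?_
    have h2 : (fun j => (chgB X (b i) j : AlgebraicClosure K)) =
        chgPv (AlgebraicClosure K) X (fun j => (b i j : AlgebraicClosure K)) := by
      funext k
      rw [chg_pv_apply]
      unfold chgB pair
      push_cast
      rfl
    rw [h.alin e c hy q (ev_algClosure D _), e.symm_apply_apply, h2, hxx]
    have := mon_ne_zero hy (c (e q))
    field_simp) (e q') (by rw [← h.sys_dg e c D.nz b hb]; exact hq')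
  simp only [e.symm_apply_apply] at h1
  exact (mul_eq_zero.1 h1).resolve_right (inv_ne_zero (mon_ne_zero hy _))

end props

end Pool.Agent.Work.WRC
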