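import Mathlib
import Pool.Agent.Work.MP_4329d7_ag_wrc.Chg
import Pool.Agent.Work.MP_4329d7_ag_w.KBX

/-!
W-RC, module Spl: the product form of a nondegenerate complete intersection with a good type.
-/

namespace Pool.Agent.Work.WRC

open Polynomial Pool.Agent.Work.Uni Pool.Agent.Work.CI Pool.Agent.Work.CW

/-- coordinates adapted to the type `b` -/
theorem spl_exists_umod {d : ℕ} {ι : Type} [Fintype ι] (b : ι → Fin d → ℤ) :
    ∃ (dB r : ℕ) (X : Fin (dB + r) → Fin d → ℤ) (W : Fin d → Fin (dB + r) → ℤ), Umod X W ∧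
      (∀ i (j : Fin dB), pair (X (Fin.castAdd r j)) (b i) = 0) ∧
      ∀ c : Fin r → ℤ, (∀ i, ∑ j, c j * pair (X (Fin.natAdd dB j)) (b i) = 0) → c = 0 := by
  classical
  let φ : (Fin d → ℤ) →ₗ[ℤ] (ι → ℤ) :=
    { toFun := fun χ i => pair χ (b i)
      map_add' := fun χ χ' => by funext i; exact add_pair _ _ _
      map_smul' := fun a χ => by
        funext i
        simp only [Pi.smul_apply, smul_eq_mul, RingHom.id_apply]
        unfold pair
        rw [Finset.mul_sum]
        exact Finset.sum_congr rfl fun j _ => by simp [mul_assoc] }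
  have hφ : ∀ χ i, φ χ i = pair χ (b i) := fun _ _ => rfl
  let M := LinearMap.range φ
  let N := LinearMap.ker φ
  let bM := Module.finBasis ℤ M
  let bN := Module.finBasis ℤ N
  have hex : ∀ j, ∃ χ, φ χ = (bM j : ι → ℤ) := fun j => (bM j).2
  choose s hs using hex
  let dB := Module.finrank ℤ N
  let r := Module.finrank ℤ M
  let X : Fin (dB + r) → Fin d → ℤ := Fin.append (fun i => (bN i : Fin d → ℤ)) s
  have hXl : ∀ j : Fin dB, X (Fin.castAdd r j) = (bN j : Fin d → ℤ) := fun j =>
    Fin.append_left _ _ j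
  have hXr : ∀ j : Fin r, X (Fin.natAdd dB j) = s j := fun j => Fin.append_right _ _ j
  have hker : ∀ c : Fin r → ℤ, ∑ j, c j • (bM j : ι → ℤ) = 0 → c = 0 := by
    intro c hc
    have h1 : ∑ j, c j • bM j = 0 := by
      apply Subtype.ext
      rw [Submodule.coe_sum]
      exact hc
    funext j
    exact Fintype.linearIndependent_iff.1 bM.linearIndependent c h1 j
  have hli : LinearIndependent ℤ X := by
    rw [Fintype.linearIndependent_iff]
    intro g hg
    rw [Fin.sum_univ_add] at hg
    simp only [hXl, hXr] at hg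
    have h1 := congrArg φ hg
    rw [map_add, map_sum, map_sum, map_zero] at h1
    simp only [map_smul, hs] at h1
    have h2 : ∀ i : Fin dB, φ (bN i : Fin d → ℤ) = 0 := fun i => (bN i).2
    simp only [h2, smul_zero, Finset.sum_const_zero, zero_add] at h1
    have h3 := hker _ h1
    have h4 : ∀ j : Fin r, g (Fin.natAdd dB j) = 0 := fun j => congrFun h3 j
    simp only [h4, zero_smul, Finset.sum_const_zero, add_zero] at hg
    have h5 : ∑ i, g (Fin.castAdd r i) • bN i = 0 := by
      apply Subtype.ext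
      rw [Submodule.coe_sum]
      exact hg
    have h6 : ∀ i : Fin dB, g (Fin.castAdd r i) = 0 := fun i =>
      Fintype.linearIndependent_iff.1 bN.linearIndependent (fun i => g (Fin.castAdd r i)) h5 i
    intro i
    refine Fin.addCases h6 h4 i
  have hsp : ⊤ ≤ Submodule.span ℤ (Set.range X) := by
    intro χ _
    have hmem : φ χ ∈ M := ⟨χ, rfl⟩
    have h1 := bM.sum_repr ⟨φ χ, hmem⟩
    have h2 : ∑ j, bM.repr ⟨φ χ, hmem⟩ j • (bM j : ι → ℤ) = φ χ := by
      have := congrArg Subtype.val h1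
      rw [Submodule.coe_sum] at this
      exact this
    set m : Fin r → ℤ := fun j => bM.repr ⟨φ χ, hmem⟩ j with hm
    have h3 : χ - ∑ j, m j • s j ∈ N := by
      rw [LinearMap.mem_ker, map_sub, map_sum]
      simp only [map_smul, hs]
      rw [← h2, sub_self]
    have h4 := bN.sum_repr ⟨_, h3⟩
    have h5 : ∑ i, bN.repr ⟨_, h3⟩ i • (bN i : Fin d → ℤ) = χ - ∑ j, m j • s j := by
      have := congrArg Subtype.val h4
      rw [Submodule.coe_sum] at this
      exact this
    have h6 : χ = ∑ i, bN.repr ⟨_, h3⟩ i • (bN i : Fin d → ℤ) + ∑ j, m j • s j := by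
      rw [h5]; abel
    rw [h6]
    refine Submodule.add_mem _ (Submodule.sum_mem _ fun i _ => ?_)
      (Submodule.sum_mem _ fun j _ => ?_)
    · exact Submodule.smul_mem _ _ (Submodule.subset_span ⟨Fin.castAdd r i, hXl i⟩)
    · exact Submodule.smul_mem _ _ (Submodule.subset_span ⟨Fin.natAdd dB j, hXr j⟩)
  let v : Module.Basis (Fin (dB + r)) ℤ (Fin d → ℤ) := Module.Basis.mk hli hsp
  have hv : ∀ j, v j = X j := fun j => Module.Basis.mk_apply hli hsp j
  refine ⟨dB, r, X, fun k j => v.repr (Pi.single k 1) j, ⟨?_, ?_⟩, ?_, ?_⟩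
  · intro i j
    have h1 : ∑ k, X i k • (Pi.single k 1 : Fin d → ℤ) = X i := by
      funext l
      rw [Finset.sum_apply]
      simp [Pi.single_apply]
    have h2 : v.repr (X i) j = if i = j then 1 else 0 := by
      rw [← hv i, Module.Basis.repr_self, Finsupp.single_apply]
    rw [← h2]
    conv_rhs => rw [← h1, map_sum]
    rw [Finsupp.finsetSum_apply]
    refine Finset.sum_congr rfl fun k _ => ?_
    rw [map_smul, Finsupp.smul_apply, smul_eq_mul]
  · intro i j
    have h1 := congrFun (v.sum_repr (Pi.single i 1)) j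
    rw [Finset.sum_apply] at h1
    have h2 : (Pi.single i 1 : Fin d → ℤ) j = if i = j then 1 else 0 := by
      rw [Pi.single_apply]; simp [eq_comm]
    rw [← h2, ← h1]
    exact Finset.sum_congr rfl fun k _ => by rw [hv k, Pi.smul_apply, smul_eq_mul]
  · intro i j
    rw [hXl, ← hφ]
    exact congrFun (show φ (bN j : Fin d → ℤ) = 0 from (bN j).2) i
  · intro c hc
    apply hker
    funext i
    rw [Finset.sum_apply, Pi.zero_apply, ← hc i]
    refine Finset.sum_congr rfl fun j _ => ?_
    rw [hXr, Pi.smul_apply, smul_eq_mul, ← hs, hφ]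

theorem spl_mon_single {F : Type} [Field F] {d : ℕ} (x : Fin d → F) (j : Fin d) :
    mon x (Pi.single j 1) = x j := by
  unfold mon
  rw [Finset.prod_eq_single j]
  · rw [Pi.single_eq_same, zpow_one]
  · intro k _ hk
    rw [Pi.single_eq_of_ne hk, zpow_zero]
  · intro hj
    exact absurd (Finset.mem_univ _) hj

/-- pairing with a fibre vector -/
theorem spl_pair_fibv {dB r : ℕ} (u : Fin (dB + r) → ℤ) (b : Fin r → ℤ) :
    pair u (fibv b) = ∑ k, u (Fin.natAdd dB k) * b k := by
  unfold pair fibv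
  rw [Fin.sum_univ_add]
  simp

/-- the transcendence degree of the base field of a system in product form with a type -/
theorem spl_trdeg_base {n dB r : ℕ} {B Q : Type} [Fintype B] [Fintype Q] {K : Type} [Field K]
    [Algebra ℂ K] {x : Fin (dB + r) → K} {f : B ⊕ Q → Lau (dB + r)} {ι : Type} [Fintype ι]
    (D : Data K n (dB + r) (B ⊕ Q) x f)
    (b : ι → Fin r → ℤ) (hb : ∑ i, (fibv (b i) : Fin (dB + r) → ℤ) = 0)
    (hrank : RankB x f fun i => fibv (b i)) (hB : ∀ q : B, dg f (fun i => fibv (b i)) (.inl q) = 0)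
    (hQ : ∀ q : Q, 0 < dg f (fun i => fibv (b i)) (.inr q))
    (hsp : ∀ c : Fin r → ℤ, (∀ i, ∑ j, c j * b i j = 0) → c = 0) :
    ∃ nB, nB + Fintype.card B = dB ∧ Algebra.trdeg ℂ (KBf x) = nB := by
  classical
  let χ : Fin dB → Fin (dB + r) → ℤ := fun a => Pi.single (Fin.castAdd r a) 1
  have hχ1 : ∀ (u : Fin dB → ℤ), ∑ a, u a • χ a = Fin.append u 0 := by
    intro u
    funext j
    rw [Finset.sum_apply]
    refine Fin.addCases (fun i => ?_) (fun i => ?_) j
    · rw [Fin.append_left, Finset.sum_eq_single i]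
      · simp [χ]
      · intro a _ ha
        have : Fin.castAdd r i ≠ Fin.castAdd r a := fun h =>
          ha (Fin.castAdd_injective _ _ h).symm
        simp [χ, Pi.single_eq_of_ne this]
      · intro h
        exact absurd (Finset.mem_univ _) h
    · rw [Fin.append_right]
      refine Finset.sum_eq_zero fun a _ => ?_
      have : Fin.natAdd dB i ≠ Fin.castAdd r a := fun h => by
        have := congrArg Fin.val h
        simp at this
        omega
      simp [χ, Pi.single_eq_of_ne this]
  have hχ : LinearIndependent ℤ χ := by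
    rw [Fintype.linearIndependent_iff]
    intro g hg i
    rw [hχ1] at hg
    have := congrFun hg (Fin.castAdd r i)
    simpa using this
  have hspan : ∀ v : Fin (dB + r) → ℤ, v ∈ Submodule.span ℤ (Set.range χ) ↔
      ∀ i, pair v (fibv (b i)) = 0 := by
    intro v
    rw [Submodule.mem_span_range_iff_exists_fun]
    constructor
    · rintro ⟨u, rfl⟩ i
      rw [hχ1, spl_pair_fibv]
      simp
    · intro h
      have h1 : (fun k => v (Fin.natAdd dB k)) = 0 := hsp _ fun i => by
        have h2 := h i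
        rw [spl_pair_fibv] at h2
        exact h2
      refine ⟨fun i => v (Fin.castAdd r i), ?_⟩
      rw [hχ1]
      funext j
      refine Fin.addCases (fun i => ?_) (fun i => ?_) j
      · rw [Fin.append_left]
      · rw [Fin.append_right]
        exact (congrFun h1 i).symm
  have hKB : subF x χ = KBf x := by
    have h1 : (fun i => mon x (χ i)) = fun i : Fin dB => x (Fin.castAdd r i) :=
      funext fun i => spl_mon_single _ _
    show IntermediateField.adjoin ℂ (Set.range fun i => mon x (χ i)) = _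
    rw [h1]
    rfl
  obtain ⟨p, z, w, δ, ε, hpn, htr, hz, hδ, hε, hε0⟩ := kbx_frame D.trdeg (subF x χ)
  have hlow := kbx_lower D hb hrank χ hχ hspan ε w hε
    (fun i a => hε0 i _ (IntermediateField.subset_adjoin ℂ _ ⟨a, rfl⟩))
  have hup := kbx_upper D χ hχ δ z hδ hz
  have hcard := Fintype.card_subtype_compl (fun q : B ⊕ Q => ∀ a ∈ (f q).support,
    ∀ b ∈ (f q).support, a - b ∈ Submodule.span ℤ (Set.range χ))
  have hle := Fintype.card_subtype_le (fun q : B ⊕ Q => ∀ a ∈ (f q).support,
    ∀ b ∈ (f q).support, a - b ∈ Submodule.span ℤ (Set.range χ))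
  have hdim := D.dim
  have hP : ∀ q : B ⊕ Q, (∀ a ∈ (f q).support, ∀ b ∈ (f q).support,
      a - b ∈ Submodule.span ℤ (Set.range χ)) ↔ ∃ q', q = Sum.inl q' := by
    intro q
    have h1 : (∀ a ∈ (f q).support, ∀ b ∈ (f q).support,
      a - b ∈ Submodule.span ℤ (Set.range χ)) ↔ dg f (fun i => fibv (b i)) q = 0 := by
      rw [dg_eq_zero D.nz hb q]
      simp only [hspan, sub_pair, sub_eq_zero]
      exact ⟨fun h i a ha a' ha' => h a ha a' ha' i, fun h a ha a' ha' i => h i a ha a' ha'⟩
    rw [h1]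
    rcases q with q | q
    · exact ⟨fun _ => ⟨q, rfl⟩, fun _ => hB q⟩
    · refine ⟨fun h => absurd h (hQ q).ne', ?_⟩
      rintro ⟨q', h⟩
      exact absurd h (by simp)
  have hcB : Fintype.card {q : B ⊕ Q // ∀ a ∈ (f q).support, ∀ b ∈ (f q).support,
      a - b ∈ Submodule.span ℤ (Set.range χ)} = Fintype.card B := by
    refine Fintype.card_congr (Equiv.ofBijective (fun q : B => ⟨Sum.inl q, (hP _).2 ⟨q, rfl⟩⟩)
      ⟨?_, ?_⟩).symm
    · intro q q' h
      exact Sum.inl_injective (congrArg Subtype.val h)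
    · rintro ⟨q, hq⟩
      obtain ⟨q', rfl⟩ := (hP q).1 hq
      exact ⟨q', rfl⟩
  refine ⟨p, ?_, ?_⟩
  · omega
  · rw [← hKB]
    exact htr

/-- **Product form.** -/
theorem spl {Q : Type} [Fintype Q] {d n : ℕ} {K : Type} [Field K] [Algebra ℂ K]
    {x : Fin d → K} {f : Q → Lau d} {ι : Type} [Fintype ι] (D : Data K n d Q x f)
    (nd : Nondegenerate f) {b : ι → Fin d → ℤ} (hg : Good x f b) (hrank : RankB x f b)
    (hspan : SpanInj x f b) :
    ∃ (nB dB r : ℕ) (B Q' : Type) (_ : Fintype B) (_ : Fintype Q') (x' : Fin (dB + r) → K)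
      (f' : B ⊕ Q' → Lau (dB + r)) (b' : ι → Fin r → ℤ),
      Tot n dB r B Q' x' f' ∧ dB < d ∧ nB + Fintype.card B = dB ∧
      Algebra.trdeg ℂ (KBf x') = nB ∧ KBf x' = KB x b ∧
      Good x' f' (fun i => fibv (b' i)) ∧ SpanInj x' f' (fun i => fibv (b' i)) ∧
      RankB x' f' (fun i => fibv (b' i)) ∧ (KHd f b → KHc f') ∧
      (∀ q : Q', 0 < dg f' (fun i => fibv (b' i)) (Sum.inr q)) ∧
      (∀ c : Fin r → ℤ, (∀ i, ∑ j, c j * b' i j = 0) → c = 0) := by
  classical
  obtain ⟨dB, r, X, W, h, h0, hsp⟩ := spl_exists_umod b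
  let B : Type := {q : Q // dg f b q = 0}
  let Q' : Type := {q : Q // ¬ dg f b q = 0}
  let e : B ⊕ Q' ≃ Q := Equiv.sumCompl fun q => dg f b q = 0
  have hel : ∀ q : B, e (Sum.inl q) = q.1 := fun q => rfl
  have her : ∀ q : Q', e (Sum.inr q) = q.1 := fun q => rfl
  have hex : ∀ q, ∃ a, a ∈ (f q).support := fun q => Finsupp.support_nonempty_iff.2 (D.nz q)
  choose c hc using hex
  let f' : B ⊕ Q' → Lau (dB + r) := h.sys e c f
  let b' : ι → Fin r → ℤ := fun i k => pair (X (Fin.natAdd dB k)) (b i)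
  have hbb : ∀ i, (fibv (b' i) : Fin (dB + r) → ℤ) = chgB X (b i) := by
    intro i
    funext j
    unfold fibv
    refine Fin.addCases (fun k => ?_) (fun k => ?_) j
    · rw [Fin.append_left]
      exact (h0 i k).symm
    · rw [Fin.append_right]
      rfl
  have hbf : (fun i => (fibv (b' i) : Fin (dB + r) → ℤ)) = fun i => chgB X (b i) := funext hbb
  have hD : Data K n (dB + r) (B ⊕ Q') (fun i => mon x (X i)) f' := h.sys_data e c D nd
  have hnd : Nondegenerate f' := h.sys_nondeg e c nd
  have hgood := h.good e c D hg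
  have hsi := h.spanInj e c D hspan
  have hrk := h.rankB e c D hg.sum hrank
  rw [← hbf] at hgood hsi hrk
  have hdg : ∀ q, dg f' (fun i => fibv (b' i)) q = dg f b (e q) := by
    intro q
    rw [hbf]
    exact h.sys_dg e c D.nz b hg.sum q
  have hdgB : ∀ q : B, dg f' (fun i => fibv (b' i)) (Sum.inl q) = 0 := fun q => by
    rw [hdg]; exact q.2
  have hdgQ : ∀ q : Q', 0 < dg f' (fun i => fibv (b' i)) (Sum.inr q) := fun q => by
    rw [hdg]; exact Nat.pos_of_ne_zero q.2
  have hb'sum : ∑ i, (fibv (b' i) : Fin (dB + r) → ℤ) = 0 := hgood.sum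
  have hsp' : ∀ c : Fin r → ℤ, (∀ i, ∑ j, c j * b' i j = 0) → c = 0 := hsp
  obtain ⟨nB, hn, htr⟩ := spl_trdeg_base hD b' hb'sum hrk hdgB hdgQ hsp'
  have hbase : ∀ q : B, ∀ χ ∈ (f' (Sum.inl q)).support, ∀ k : Fin r,
      χ (Fin.natAdd dB k) = 0 := by
    intro q u hu
    have h1 := (dg_eq_zero D.nz hg.sum q.1).1 q.2
    have h2 : quotMap (c q.1) X u ∈ (f q.1).support := (quotLau_mem (hX := h.li)).1 hu
    have h3 : (fun k => u (Fin.natAdd dB k)) = 0 := hsp' _ fun i => by
      have h4 := h1 i _ h2 _ (hc q.1)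
      rw [sub_pair, chg_pair_quotMap, ← hbb, spl_pair_fibv] at h4
      linarith
    intro k
    exact congrFun h3 k
  have hri : ∃ i, b i ≠ 0 := by
    have h1 : 0 < Fintype.card ι := by rw [hg.card]; omega
    obtain ⟨i⟩ := Fintype.card_pos_iff.1 h1
    exact ⟨i, hg.ne i⟩
  have hdlt : dB < d := by
    have h1 := h.card
    by_contra hge
    have hr0 : r = 0 := by omega
    subst hr0
    obtain ⟨i, hi⟩ := hri
    apply hi
    apply h.psh_inj
    rw [chg_psh_zero, ← hbb i]
    funext j
    unfold fibv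
    refine Fin.addCases (fun k => ?_) (fun k => k.elim0) j
    rw [Fin.append_left]
    rfl
  have hKHF : KHd f b → KHc f' := by
    intro hk S hS
    have h1 := hk (S.image Subtype.val) (hS.image _) (by
      intro q hq
      obtain ⟨q', -, rfl⟩ := Finset.mem_image.1 hq
      exact Nat.pos_of_ne_zero q'.2)
    rw [Finset.card_image_of_injective _ Subtype.val_injective] at h1
    refine h1.trans ?_
    let L : (Fin r → ℚ) →ₗ[ℚ] (ι → ℚ) :=
      { toFun := fun v i => ∑ j, v j * (b' i j : ℚ)
        map_add' := fun v w => by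
          funext i
          simp [add_mul, Finset.sum_add_distrib]
        map_smul' := fun a v => by
          funext i
          simp only [Pi.smul_apply, smul_eq_mul, RingHom.id_apply, Finset.mul_sum]
          exact Finset.sum_congr rfl fun j _ => by ring }
    have hL : ∀ v i, L v i = ∑ j, v j * (b' i j : ℚ) := fun _ _ => rfl
    refine le_trans (Submodule.finrank_mono ?_) (Submodule.finrank_map_le L _)
    rw [Submodule.span_le]
    rintro _ ⟨q, hq, χ, hχ, χ', hχ', rfl⟩
    obtain ⟨q', hq', rfl⟩ := Finset.mem_image.1 hq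
    obtain ⟨u, rfl⟩ := h.mem_range (c q'.1) χ
    obtain ⟨u', rfl⟩ := h.mem_range (c q'.1) χ'
    refine ⟨fun j => ((u (Fin.natAdd dB j) - u' (Fin.natAdd dB j) : ℤ) : ℚ),
      Submodule.subset_span ⟨q', hq', u, ?_, u', ?_, rfl⟩, ?_⟩
    · exact (quotLau_mem (hX := h.li)).2 hχ
    · exact (quotLau_mem (hX := h.li)).2 hχ'
    · funext i
      rw [hL, chg_pair_quotMap, chg_pair_quotMap, ← hbb, spl_pair_fibv, spl_pair_fibv]
      push_cast
      rw [add_sub_add_left_eq_sub, ← Finset.sum_sub_distrib]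
      exact Finset.sum_congr rfl fun j _ => by ring
  have hKB : KBf (fun i => mon x (X i)) = KB x b := by
    apply le_antisymm
    · unfold KBf
      rw [IntermediateField.adjoin_le_iff]
      rintro _ ⟨j, rfl⟩
      exact IntermediateField.subset_adjoin ℂ _ ⟨X (Fin.castAdd r j), fun i => h0 i j, rfl⟩
    · unfold KB
      rw [IntermediateField.adjoin_le_iff]
      rintro _ ⟨χ, hχ, rfl⟩
      obtain ⟨u, rfl⟩ := h.mem_range 0 χ
      have h3 : (fun k => u (Fin.natAdd dB k)) = 0 := hsp' _ fun i => by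
        have h4 := hχ i
        rw [chg_pair_quotMap, ← hbb, spl_pair_fibv] at h4
        have h5 : pair (0 : Fin d → ℤ) (b i) = 0 := by simp [pair]
        rw [h5, zero_add] at h4
        exact h4
      have h6 : ∀ k, u (Fin.natAdd dB k) = 0 := fun k => congrFun h3 k
      rw [h.mon_quotMap _ D.ne, mon_zero, one_mul]
      show ∏ j, mon x (X j) ^ u j ∈ _
      rw [Fin.prod_univ_add]
      simp only [h6, zpow_zero, Finset.prod_const_one, mul_one]
      exact prod_mem fun j _ => zpow_mem (IntermediateField.subset_adjoin ℂ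
        (Set.range fun j : Fin dB => mon x (X (Fin.castAdd r j))) ⟨j, rfl⟩) _
  exact ⟨nB, dB, r, B, Q', inferInstance, inferInstance, fun i => mon x (X i), f', b',
    ⟨hD, hnd, hbase⟩, hdlt, hn, htr, hKB, hgood, hsi, hrk, hKHF, hdgQ, hsp'⟩

end Pool.Agent.Work.WRC
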