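import Mathlib
import Pool.Agent.Work.MP_4329d7_ag_w.KerW
import Pool.Agent.Work.MP_4329d7_ag_w.FreeAtW
import Pool.Agent.Work.MP_4329d7_ag_w.CurveW
import Pool.Agent.Work.MP_4329d7_ag_w.MinW
import Pool.Agent.Work.MP_4329d7_ag_wrc.Lead

/-!
W-RC, module Upk: if a complete intersection is uniruled then there is a packing with `δ ≥ 2`.

* `exists_crv`: a tuple of rational functions with a nonzero value at `0` is a curve `crv y b t`
  with distinct roots;
* `upk_hom`, `upk`.
-/

namespace Pool.Agent.Work.WRC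

open Polynomial Pool.Agent.Work.Uni Pool.Agent.Work.CI Pool.Agent.Work.CW
open Pool.Agent.Work.MP_4329d7_ag_sq

namespace Upk

variable {F : Type} [Field F]

theorem csG_zero : csG (0 : F) = 1 := by
  unfold csG
  rw [C_0, zero_mul, sub_zero, map_one]

theorem sub_eq_csG {a : F} (ha : a ≠ 0) :
    algebraMap F[X] (RatFunc F) (X - C a) = RatFunc.C (-a) * csG a⁻¹ := by
  unfold csG
  rw [← RatFunc.algebraMap_C, ← map_mul]
  congr 1
  rw [mul_sub, mul_one, ← mul_assoc, ← C_mul, neg_mul, mul_inv_cancel₀ ha, C_neg, C_neg, C_1]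
  ring

/-- no zero or pole at `0` -/
theorem order_zero {n : ℤ} {w : RatFunc F} {u v : F} (hw : Pl w u) (hu : u ≠ 0) (hv : v ≠ 0)
    (h : Pl (RatFunc.X ^ n * w) v) : n = 0 := by
  have hX0 : (RatFunc.X : RatFunc F) ≠ 0 := RatFunc.X_ne_zero
  have hX : Pl (RatFunc.X : RatFunc F) 0 :=
    ⟨X, 1, by simp, by simp [RatFunc.algebraMap_X], by simp⟩
  have hXp : ∀ m : ℕ, 0 < m → Pl ((RatFunc.X : RatFunc F) ^ m) 0 := by
    intro m hm
    have := cs_pl_pow hX m
    rwa [zero_pow (by omega)] at this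
  rcases lt_trichotomy n 0 with h0 | h0 | h0
  · exfalso
    obtain ⟨m, rfl⟩ : ∃ m : ℕ, n = -(m : ℤ) := ⟨n.natAbs, by omega⟩
    have h1 := (hXp m (by omega)).mul h
    rw [zpow_neg, zpow_natCast, ← mul_assoc, mul_inv_cancel₀ (pow_ne_zero _ hX0), one_mul,
      zero_mul] at h1
    exact hu (cs_pl_unique hw h1)
  · exact h0
  · exfalso
    obtain ⟨m, rfl⟩ : ∃ m : ℕ, n = (m : ℤ) := ⟨n.natAbs, by omega⟩
    have h1 := (hXp m (by omega)).mul hw
    rw [zero_mul] at h1
    rw [zpow_natCast] at h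
    exact hv (cs_pl_unique h h1)

/-- A tuple of rational functions with nonzero values at `0` is a curve with distinct roots. -/
theorem exists_crv [IsAlgClosed F] {d : ℕ} (w : Fin d → RatFunc F) (y : Fin d → F)
    (hy : ∀ j, y j ≠ 0) (hw : ∀ j, Pl (w j) (y j)) :
    ∃ (ι : Type) (_ : Fintype ι) (b : ι → Fin d → ℤ) (t : ι → F), (∀ i, b i ≠ 0) ∧
      ∑ i, b i = 0 ∧ Function.Injective t ∧ w = crv y b t := by
  classical
  have hw0 : ∀ j, w j ≠ 0 := by
    intro j h
    have h1 := hw j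
    rw [h] at h1
    exact hy j h1.eq_zero
  obtain ⟨A, b, c, hc, hwj⟩ := exists_root_form w hw0
  -- no root at zero
  have hcs : ∀ a ∈ A.erase 0, algebraMap F[X] (RatFunc F) (X - C a) =
      RatFunc.C (-a) * csG a⁻¹ := fun a ha => sub_eq_csG (Finset.ne_of_mem_erase ha)
  set y' : Fin d → F := fun j => c j * ∏ a ∈ A.erase 0, (-a) ^ b a j with hy'
  have hform : ∀ j, RatFunc.C (c j) * ∏ a ∈ A.erase 0,
      algebraMap F[X] (RatFunc F) (X - C a) ^ b a j =
      RatFunc.C (y' j) * ∏ a ∈ A.erase 0, csG a⁻¹ ^ b a j := by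
    intro j
    rw [hy', map_mul, map_prod, mul_assoc, ← Finset.prod_mul_distrib]
    congr 1
    refine Finset.prod_congr rfl fun a ha => ?_
    rw [hcs a ha, mul_zpow, map_zpow₀]
  have hy'0 : ∀ j, y' j ≠ 0 := fun j => mul_ne_zero (hc j) (Finset.prod_ne_zero_iff.2 fun a ha =>
    zpow_ne_zero _ (neg_ne_zero.2 (Finset.ne_of_mem_erase ha)))
  have hpl : ∀ j, Pl (RatFunc.C (y' j) * ∏ a ∈ A.erase 0, csG a⁻¹ ^ b a j) (y' j) := by
    intro j
    have h1 := cs_pl_prod (A.erase 0) (y := fun a => csG a⁻¹ ^ b a j)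
      (v := fun a => (1 : F) ^ b a j) fun a _ => cs_pl_zpow (cs_pl_G a⁻¹) one_ne_zero _
    have h2 := (pl_C (y' j)).mul h1
    simpa only [one_zpow, Finset.prod_const_one, mul_one] using h2
  have hb0 : 0 ∈ A → b 0 = 0 := by
    intro h0
    funext j
    refine order_zero (hpl j) (hy'0 j) (hy j) ?_
    have h1 := hw j
    rw [hwj j, ← Finset.mul_prod_erase A _ h0, mul_left_comm, hform, C_0, sub_zero,
      RatFunc.algebraMap_X] at h1
    exact h1
  have hw' : ∀ j, w j = RatFunc.C (y' j) * ∏ a ∈ A.erase 0, csG a⁻¹ ^ b a j := by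
    intro j
    rw [hwj j, ← hform]
    congr 1
    by_cases h0 : (0 : F) ∈ A
    · rw [← Finset.mul_prod_erase A _ h0, hb0 h0, Pi.zero_apply, zpow_zero, one_mul]
    · rw [Finset.erase_eq_of_notMem h0]
  have hyy : ∀ j, y' j = y j := by
    intro j
    have h1 := hpl j
    rw [← hw' j] at h1
    exact cs_pl_unique h1 (hw j)
  -- the type
  let T : Finset F := (A.erase 0).image fun a => a⁻¹
  have hT0 : (0 : F) ∉ T := by
    intro h
    obtain ⟨a, ha, h1⟩ := Finset.mem_image.1 h
    exact Finset.ne_of_mem_erase ha (inv_eq_zero.1 h1)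
  let b' : F → Fin d → ℤ := fun t => if t = 0 then -∑ a ∈ A.erase 0, b a else b t⁻¹
  have hb'0 : b' 0 = -∑ a ∈ A.erase 0, b a := if_pos rfl
  have hb'T : ∀ a ∈ A.erase 0, b' a⁻¹ = b a := by
    intro a ha
    show (if a⁻¹ = 0 then _ else _) = _
    rw [if_neg (inv_ne_zero (Finset.ne_of_mem_erase ha)), inv_inv]
  have hinj : Set.InjOn (fun a : F => a⁻¹) (A.erase 0 : Finset F) :=
    fun a _ a' _ h => inv_injective h
  have hsum : ∑ t ∈ insert 0 T, b' t = 0 := by
    rw [Finset.sum_insert hT0, hb'0, Finset.sum_image hinj, Finset.sum_congr rfl hb'T,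
      neg_add_cancel]
  let S : Finset F := (insert 0 T).filter fun t => b' t ≠ 0
  refine ⟨{t // t ∈ S}, inferInstance, fun t => b' t.1, fun t => t.1,
    fun t => (Finset.mem_filter.1 t.2).2, ?_, Subtype.val_injective, ?_⟩
  · have h1 := Finset.sum_coe_sort S fun t => b' t
    rw [h1, ← hsum, Finset.sum_filter_ne_zero]
  · funext j
    have h1 := Finset.prod_coe_sort S fun t => csG t ^ b' t j
    have h2 : ∏ t ∈ S, csG t ^ b' t j = ∏ t ∈ insert 0 T, csG t ^ b' t j := by
      refine Finset.prod_subset (Finset.filter_subset _ _) fun t ht ht' => ?_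
      have h3 : b' t = 0 := by
        by_contra h3
        exact ht' (Finset.mem_filter.2 ⟨ht, h3⟩)
      rw [h3, Pi.zero_apply, zpow_zero]
    unfold crv
    rw [h1, h2, Finset.prod_insert hT0, csG_zero, one_zpow, one_mul, Finset.prod_image hinj,
      hw' j, hyy j]
    congr 1
    refine Finset.prod_congr rfl fun a ha => ?_
    rw [hb'T a ha]

/-- the value of `X` at `0` -/
theorem pl_X : Pl (RatFunc.X : RatFunc F) 0 :=
  ⟨X, 1, by simp, by simp [RatFunc.algebraMap_X], by simp⟩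

section up

variable {E : Type} [Field E] (e : RatFunc E →+* F)

theorem pl_up (p : E[X]) :
    Pl (p.eval₂ ((RatFunc.C : F →+* RatFunc F).comp (e.comp RatFunc.C))
      (RatFunc.X + RatFunc.C (e RatFunc.X))) (e (algebraMap E[X] (RatFunc E) p)) := by
  induction p using Polynomial.induction_on' with
  | add p q hp hq =>
    rw [eval₂_add, map_add, map_add]
    exact hp.add hq
  | monomial n a =>
    rw [← C_mul_X_pow_eq_monomial, eval₂_mul, eval₂_pow, eval₂_X, eval₂_C, map_mul, map_mul,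
      map_pow, map_pow, RatFunc.algebraMap_C, RatFunc.algebraMap_X]
    refine (pl_C _).mul (cs_pl_pow ?_ n)
    have := (pl_X (F := F)).add (pl_C (e RatFunc.X))
    rwa [zero_add] at this

theorem up_ne (p : E[X]) (hp : p ≠ 0) :
    p.eval₂ ((RatFunc.C : F →+* RatFunc F).comp (e.comp RatFunc.C))
      (RatFunc.X + RatFunc.C (e RatFunc.X)) ≠ 0 := by
  intro h0
  have h1 := pl_up e p
  rw [h0] at h1
  have h2 := h1.eq_zero
  exact hp ((map_eq_zero_iff _ (IsFractionRing.injective E[X] (RatFunc E))).1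
    ((map_eq_zero e).1 h2))

/-- the map `X ↦ X + e X` -/
noncomputable def up : RatFunc E →+* RatFunc F :=
  rlift ((RatFunc.C : F →+* RatFunc F).comp (e.comp RatFunc.C))
    (RatFunc.X + RatFunc.C (e RatFunc.X)) (up_ne e)

theorem up_C (c : E) : up e (RatFunc.C c) = RatFunc.C (e (RatFunc.C c)) := rlift_C _ _ _ c

theorem up_X : up e RatFunc.X = RatFunc.X + RatFunc.C (e RatFunc.X) := rlift_X _ _ _

theorem up_poly (p : E[X]) : up e (algebraMap E[X] (RatFunc E) p) =
    algebraMap F[X] (RatFunc F) ((p.map (e.comp RatFunc.C)).comp (X + C (e RatFunc.X))) := by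
  induction p using Polynomial.induction_on' with
  | add p q hp hq =>
    rw [map_add, map_add, hp, hq, Polynomial.map_add, add_comp, map_add]
  | monomial n a =>
    rw [← C_mul_X_pow_eq_monomial, map_mul, map_mul, map_pow, map_pow, RatFunc.algebraMap_C,
      RatFunc.algebraMap_X, up_C, up_X, Polynomial.map_mul, map_C, Polynomial.map_pow, map_X,
      mul_comp, C_comp, pow_comp, X_comp, map_mul, map_pow, map_add, RatFunc.algebraMap_C,
      RatFunc.algebraMap_C, RatFunc.algebraMap_X]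
    rfl

theorem lead_up (z : RatFunc E) : lead (up e z) = e (RatFunc.C (lead z)) := by
  have h1 : ∀ p : E[X], lead (up e (algebraMap E[X] (RatFunc E) p)) =
      e (RatFunc.C (lead (algebraMap E[X] (RatFunc E) p))) := by
    intro p
    rw [up_poly, lead_poly, lead_poly, leadingCoeff_comp (by rw [natDegree_X_add_C]; exact one_ne_zero),
      leadingCoeff_X_add_C, one_pow, mul_one, leadingCoeff_map]
    rfl
  conv_lhs => rw [← RatFunc.num_div_denom z]
  conv_rhs => rw [← RatFunc.num_div_denom z]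
  rw [map_div₀, map_div₀, h1, h1, map_div₀, map_div₀, map_div₀]

theorem pl_up' (z : RatFunc E) : Pl (up e z) (e z) := by
  have h1 : ∀ p : E[X], Pl (up e (algebraMap E[X] (RatFunc E) p))
      (e (algebraMap E[X] (RatFunc E) p)) := by
    intro p
    have h2 : up e (algebraMap E[X] (RatFunc E) p) =
        p.eval₂ ((RatFunc.C : F →+* RatFunc F).comp (e.comp RatFunc.C))
          (RatFunc.X + RatFunc.C (e RatFunc.X)) := by
      unfold up rlift
      rw [RatFunc.liftRingHom_algebraMap]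
      rfl
    rw [h2]
    exact pl_up e p
  rw [← RatFunc.num_div_denom z, map_div₀, map_div₀, div_eq_mul_inv, div_eq_mul_inv]
  refine (h1 _).mul (cs_pl_inv (h1 _) ?_)
  rw [Ne, map_eq_zero]
  exact rf_ne z.denom_ne_zero

theorem const_of_up (z : RatFunc E) (c : F) (h : up e z = RatFunc.C c) :
    z = RatFunc.C (lead z) := by
  apply (up e).injective
  rw [up_C, ← lead_up, h, lead_C]

end up

end Upk

open Upk

variable {K : Type} [Field K] [Algebra ℂ K] {n d : ℕ} {Q : Type} [Fintype Q]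
  {x : Fin d → K} {f : Q → Lau d}

/-- a nonconstant curve through a generic point gives a packing with `δ ≥ 2` -/
theorem upk_hom {F : Type} [Field F] [Algebra ℂ F] [IsAlgClosed F] (D : Data K n d Q x f)
    (emb : K →ₐ[ℂ] F) (φ : K →ₐ[ℂ] RatFunc F) (h : ∀ j, Pl (φ (x j)) (emb (x j)))
    (hne : ∃ j, φ (x j) ≠ RatFunc.C (emb (x j))) :
    ∃ (ι : Type) (_ : Fintype ι) (b : ι → Fin d → ℤ), (∀ i, b i ≠ 0) ∧ ∑ i, b i = 0 ∧
      ∑ q, dg f b q + 2 ≤ Fintype.card ι := by
  classical
  have hy : ∀ j, emb (x j) ≠ 0 := fun j => (map_ne_zero emb).2 (D.ne j)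
  obtain ⟨ι, _, b, t, hb0, hb, ht, hcrv⟩ := exists_crv (fun j => φ (x j)) (fun j => emb (x j)) hy h
  refine ⟨ι, inferInstance, b, hb0, hb, ?_⟩
  have hsol : Sol f (fun j => emb (x j)) b t := by
    rw [sol_iff D.nz hy hb]
    intro q
    rw [← hcrv, cs_ev_hom, D.eq, map_zero]
  have hfy : ∀ q, ev (f q) (fun j => emb (x j)) = 0 := fun q => by
    rw [cs_ev_hom, D.eq, map_zero]
  have hmoves : ∃ i j, t i ≠ t j := by
    -- `ι` is not empty
    by_contra hall
    push Not at hall
    have h1 : Subsingleton ι := ⟨fun i j => ht (hall i j)⟩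
    obtain ⟨j, hj⟩ := hne
    rcases isEmpty_or_nonempty ι with h2 | ⟨⟨i⟩⟩
    · have h3 := congrFun hcrv j
      unfold crv at h3
      rw [Finset.univ_eq_empty, Finset.prod_empty, mul_one] at h3
      exact hj h3
    · have h4 : ∑ i, b i = b i := by
        refine Fintype.sum_eq_single i fun j hj => ?_
        exact absurd (Subsingleton.elim j i) hj
      exact hb0 i (h4.symm.trans hb)
  refine card_of_free hsol ?_ (free_at D emb hb ht hsol) hmoves
  intro q p hp
  have h1 : p.1 = q := by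
    by_contra h2
    apply hp
    unfold coef
    exact if_neg h2
  rw [← h1]
  exact sum_blk b hb p

/-- A uniruled complete intersection has a packing with `δ ≥ 2`. -/
theorem upk' (D : Data K n d Q x f) (hK : Uniruled K) :
    ∃ (ι : Type) (_ : Fintype ι) (b : ι → Fin d → ℤ), (∀ i, b i ≠ 0) ∧ ∑ i, b i = 0 ∧
      ∑ q, dg f b q + 2 ≤ Fintype.card ι := by
  classical
  obtain ⟨E, _, _, φ, -, y₀, hy₀⟩ := hK
  let e : RatFunc E →ₐ[ℂ] AlgebraicClosure (RatFunc E) :=
    IsScalarTower.toAlgHom ℂ (RatFunc E) (AlgebraicClosure (RatFunc E))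
  let e' : RatFunc E →+* AlgebraicClosure (RatFunc E) := e
  let u : RatFunc E →ₐ[ℂ] RatFunc (AlgebraicClosure (RatFunc E)) :=
    { up e' with
      commutes' := fun c => by
        change up e' (algebraMap ℂ (RatFunc E) c) = _
        rw [algebraMap_ratFunc, up_C, algebraMap_ratFunc, ← algebraMap_ratFunc (E := E)]
        change RatFunc.C (e (algebraMap ℂ (RatFunc E) c)) = _
        rw [AlgHom.commutes] }
  refine upk_hom D (e.comp φ) (u.comp φ) (fun j => pl_up' e' (φ (x j))) ?_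
  by_contra hall
  push Not at hall
  let N : IntermediateField ℂ K :=
    { carrier := {y | ∃ c, φ y = RatFunc.C c}
      mul_mem' := fun {a b} ⟨c, hc⟩ ⟨c', hc'⟩ => ⟨c * c', by rw [map_mul, hc, hc', map_mul]⟩
      one_mem' := ⟨1, by rw [map_one, map_one]⟩
      add_mem' := fun {a b} ⟨c, hc⟩ ⟨c', hc'⟩ => ⟨c + c', by rw [map_add, hc, hc', map_add]⟩
      zero_mem' := ⟨0, by rw [map_zero, map_zero]⟩
      algebraMap_mem' := fun c => ⟨algebraMap ℂ E c, by
        rw [AlgHom.commutes, algebraMap_ratFunc]⟩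
      inv_mem' := fun a ⟨c, hc⟩ => ⟨c⁻¹, by rw [map_inv₀, hc, map_inv₀]⟩ }
  have h1 : IntermediateField.adjoin ℂ (Set.range x) ≤ N := by
    rw [IntermediateField.adjoin_le_iff]
    rintro _ ⟨j, rfl⟩
    exact ⟨_, const_of_up e' (φ (x j)) _ (hall j)⟩
  rw [D.gen] at h1
  obtain ⟨c, hc⟩ := h1 (IntermediateField.mem_top (x := y₀))
  exact hy₀ c hc

theorem upk (D : Data K n d Q x f) (hK : Uniruled K) :
    ∃ (ι : Type) (_ : Fintype ι) (b : ι → Fin d → ℤ), IsPk f b := by
  obtain ⟨ι, _, b, h0, h1, h2⟩ := upk' D hK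
  exact ⟨ι, inferInstance, b, h0, h1, by omega⟩

end Pool.Agent.Work.WRC
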