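import Mathlib
import Pool.Agent.Work.MP_4329d7_ag_ci.MainP
import Pool.Agent.Work.MP_4329d7_ag_w.MainE
import Pool.Agent.Work.MP_4329d7_ag_wrc.KH
import Pool.Agent.Work.MP_4329d7_ag_wrc.Upk
import Pool.Agent.Work.MP_4329d7_ag_wrc.Spl
import Pool.Agent.Work.MP_4329d7_ag_wrc.NDb
import Pool.Agent.Work.MP_4329d7_ag_wrc.Vf0
import Pool.Agent.Work.MP_4329d7_ag_wrc.MainA
import Pool.Agent.Work.MP_4329d7_ag_wrc.Ind

/-!
W-RC, module Main: the induction.
-/

namespace Pool.Agent.Work.WRC

open Polynomial Pool.Agent.Work.CI Pool.Agent.Work.Uni Pool.Agent.Work.CW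
  Pool.Agent.Work.MP_4329d7_ag.FF

/-- the rank condition for all equations: the fibre has positive dimension -/
theorem card_lt_of_KHc {dB r : ℕ} {B Q : Type} [Fintype Q] {f : B ⊕ Q → Lau (dB + r)}
    (h : KHc f) (hr : 0 < r) : Fintype.card Q < r := by
  classical
  rcases isEmpty_or_nonempty Q with hQ | hQ
  · rw [Fintype.card_eq_zero]
    exact hr
  · have h1 := h Finset.univ Finset.univ_nonempty
    rw [Finset.card_univ] at h1
    have h2 := Submodule.finrank_le (R := ℚ) (M := Fin r → ℚ) (Submodule.span ℚ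
      {v : Fin r → ℚ | ∃ q ∈ (Finset.univ : Finset Q), ∃ χ ∈ (f (Sum.inr q)).support,
        ∃ χ' ∈ (f (Sum.inr q)).support,
        v = fun j => ((χ (Fin.natAdd dB j) - χ' (Fin.natAdd dB j) : ℤ) : ℚ)})
    rw [Module.finrank_fin_fun] at h2
    omega

/-- the induction -/
theorem prc_ind : ∀ (s : ℕ) (K : Type) [Field K] [Algebra ℂ K] [Algebra.EssFiniteType ℂ K]
    (n d : ℕ) (Q : Type) [Fintype Q] (x : Fin d → K) (f : Q → Lau d), Data K n d Q x f →
    Nondegenerate f → HU K → d < s → PRC K := by
  intro s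
  induction s with
  | zero => exact fun K _ _ _ n d Q _ x f D nd hU hd => absurd hd (Nat.not_lt_zero _)
  | succ s ih =>
    intro K _ _ _ n d Q _ x f D nd hU hd
    by_cases h0 : Algebra.trdeg ℂ K = 0
    · exact prc_zero h0
    obtain ⟨ι, _, b, hg, h2, hspan, hrank, hdeg⟩ := exists_good_inj D (upk D (hU.self h0))
    obtain ⟨nB, dB, r, B, Q', _, _, x', f', b', T, hlt, hnB, htr, hKB, hg', hspan', hrank', hKH,
      hdg, hgen⟩ := spl D nd hg hrank hspan
    have hfg : Algebra.EssFiniteType ℂ (KBf x') := RP.essFiniteType_sub _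
    have DB := data_base T htr hnB
    have hB : PRC (KBf x') := ih (KBf x') nB dB B (xB x') _ DB (ndb T htr hnB) (hU.sub _)
      (by omega)
    rcases hdeg with ⟨-, h3⟩ | h3
    · have hι : 0 < Fintype.card ι := by rw [hg.card]; omega
      obtain ⟨i⟩ := Fintype.card_pos_iff.1 hι
      have hr : 0 < r := by
        rcases Nat.eq_zero_or_pos r with h4 | h4
        · exfalso
          subst h4
          apply hg'.ne i
          funext j
          refine Fin.addCases (fun l => ?_) (fun l => l.elim0) j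
          exact fibv_castAdd _ _
        · exact h4
      have hsum : ∑ i, b' i = 0 := by
        funext l
        have h4 := congrFun hg'.sum (Fin.natAdd dB l)
        rw [Finset.sum_apply] at h4 ⊢
        simp only [fibv_natAdd, Pi.zero_apply] at h4 ⊢
        exact h4
      exact prc_step T (GoodF.of_spanInj T hsum hdg hspan' hgen (card_lt_of_KHc (hKH h3) hr))
        (hKH h3) htr hnB DB hB
    · have h4 : KBf x' = ⊤ := hKB.trans h3
      exact hB.equiv ((IntermediateField.equivOfEq h4).trans IntermediateField.topEquiv)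

/-- nondegenerate complete intersections all of whose images are uniruled -/
theorem rc_of_uniruled {K : Type} [Field K] [Algebra ℂ K] [Algebra.EssFiniteType ℂ K] {n d : ℕ}
    {Q : Type} [Fintype Q] {x : Fin d → K} {f : Q → Lau d} (D : Data K n d Q x f)
    (nd : Nondegenerate f) (hU : HU K) : RationallyConnected K :=
  rc_of_prc (prc_ind (d + 1) K n d Q x f D nd hU (Nat.lt_succ_self d))

/-- real rational connectedness of nondegenerate complete intersections in tori -/
theorem main_rc (d : ℕ) (K : Type) [Field K] [Algebra ℂ K] [Algebra.EssFiniteType ℂ K] (n : ℕ)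
    (Q : Type) [Fintype Q] (x : Fin d → K) (f : Q → Lau d) (hf : Nondegenerate f)
    (ne : ∀ j, x j ≠ 0) (gen : IntermediateField.adjoin ℂ (Set.range x) = ⊤)
    (eq : ∀ q, ev (f q) x = 0) (trdeg : Algebra.trdeg ℂ K = n) (dim : n + Fintype.card Q = d)
    (h : ∀ m, 0 < m → m ≤ 2 * (d + 1) ^ ((d + 1) * 2 ^ d) → ∀ j, 1 ≤ j → j ≤ n →
      ∀ T : TensorForm K (m * j), IsPluricanonical m j T → IsRegular T → T = 0) :
    RationallyConnected K := by
  have D : Data K n d Q x f := data_of_nondegenerate hf ne gen eq trdeg dim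
  refine rc_of_uniruled D hf fun K' hK' => ?_
  have h1 := trdeg_le_of_injective K'.val (RingHom.injective _)
  rw [trdeg] at h1
  obtain ⟨p, hp⟩ := Cardinal.lt_aleph0.1 (lt_of_le_of_lt h1 (Cardinal.natCast_lt_aleph0))
  have hp1 : 1 ≤ p := by
    rcases Nat.eq_zero_or_pos p with h2 | h2
    · rw [h2, Nat.cast_zero] at hp
      exact absurd hp hK'
    · exact h2
  exact (main_E d K n Q x f hf ne gen eq trdeg dim).1 K' p hp fun m hm hmB j hj =>
    h m hm hmB j (hp1.trans hj)

end Pool.Agent.Work.WRC
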