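import Mathlib
import Pool.Agent.Work.MP_4329d7_ag.FDefs

/-!
Rational connectedness of a function field over a subfield.
-/

namespace Pool.Agent.Work.WRC

open Pool.Agent.Work.MP_4329d7_ag.FF

/-- The field `K` is rationally connected over its subfield `L` (`K`, `L` are the fields of `X`, `Z`):
there are a finitely generated field `E` over `ℂ` and `φ : K → E(t)` with `φ(L) ⊆ E` (a family of
rational curves in the fibres of `X ⇢ Z`) whose two-point evaluation, `φ` at `t₁` on the left and `φ`
at `t₂` on the right, is injective on `K ⊗ K` over `L` (the curves join two general points of a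
general fibre). For `L = ℂ` this is `RationallyConnected K`. -/
def RCOver {K : Type} [Field K] [Algebra ℂ K] (L : IntermediateField ℂ K) : Prop :=
  ∃ (E : Type) (_ : Field E) (_ : Algebra ℂ E) (φ : K →ₐ[ℂ] RatFunc E)
    (ψ : RatFunc E →+* RatFunc (RatFunc E)),
    Algebra.EssFiniteType ℂ E ∧ IsSecondVariable ψ ∧
    (∀ a ∈ L, ∃ e : E, φ a = RatFunc.C e) ∧
    ∀ (r : ℕ) (a b : Fin r → K), LinearIndependent L a →
      ∑ i, RatFunc.C (φ (a i)) * ψ (φ (b i)) = 0 → b = 0

end Pool.Agent.Work.WRC
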