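import Mathlib
import Pool.Agent.Work.MP_4329d7_ag_wrc.FinDefs
import Pool.Agent.Work.MP_4329d7_ag_wrc.RCOver

/-!
W-RC, relative version: joint definitions.

`lam : A → K` is a homomorphism of fields over `ℂ` (the field `A` of the base `Z` of a dominant
rational map `X ⇢ Z`).

* `Indep2R lam p q`: `(p, q)` is a generic point of (a component of) `X ×_Z X`;
* `AIPairR lam i φ`: a family of rational curves of the fibres of `X ⇢ Z` with generic value `i` at
  infinity and generic pair (value at infinity, general value);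
* `PRCR lam`: the inductive statement of the relative version (`PRC K` is the case `A = ℂ`);
* `RCOver L`: the field `K` is rationally connected over its subfield `L`.
-/

namespace Pool.Agent.Work.WRC

open Polynomial Pool.Agent.Work.MP_4329d7_ag_sq Pool.Agent.Work.MP_4329d7_ag.FF

section

variable {A K : Type} [Field A] [Algebra ℂ A] [Field K] [Algebra ℂ K]

/-- constants as a homomorphism of `ℂ`-algebras -/
noncomputable def cK (k : Type) [Field k] [Algebra ℂ k] : k →ₐ[ℂ] RatFunc k :=
  { (RatFunc.C : k →+* RatFunc k) with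
    commutes' := fun c => (algebraMap_ratFunc c).symm }

theorem cK_apply {k : Type} [Field k] [Algebra ℂ k] (a : k) : cK k a = RatFunc.C a := rfl

/-- the pair of points `p`, `q` of `K` is generic over `A` -/
def Indep2R (lam : A →ₐ[ℂ] K) {L : Type} [Field L] [Algebra ℂ L] (p q : K →ₐ[ℂ] L) : Prop :=
  (∀ a, p (lam a) = q (lam a)) ∧
    ∃ (J I : Type) (_ : Fintype J) (_ : Fintype I) (z : J → A) (x : I → K),
      IsTranscendenceBasis ℂ z ∧ IsTranscendenceBasis ℂ (Sum.elim (fun j => lam (z j)) x) ∧
      AlgebraicIndependent ℂ (Sum.elim (fun j => p (lam (z j)))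
        (Sum.elim (fun i => p (x i)) (fun i => q (x i))))

/-- `i` is the value at infinity of `φ` and the pair is generic over `A` -/
def AIPairR (lam : A →ₐ[ℂ] K) {k : Type} [Field k] [Algebra ℂ k] (i : K →ₐ[ℂ] k)
    (φ : K →ₐ[ℂ] RatFunc k) : Prop :=
  (∀ y, Inf (φ y) (i y)) ∧ Indep2R lam ((cK k).comp i) φ

/-- the inductive statement over `A` -/
def PRCR (lam : A →ₐ[ℂ] K) : Prop :=
  ∃ (k : Type) (_ : Field k) (_ : Algebra ℂ k) (_ : IsAlgClosed k) (i : K →ₐ[ℂ] k)
    (φ : K →ₐ[ℂ] RatFunc k), AIPairR lam i φ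

end

end Pool.Agent.Work.WRC
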