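import Mathlib
import Pool.Agent.Work.MP_4329d7_ag_wrc.RelDefs
import Pool.Agent.Work.MP_4329d7_ag_w.DerW

/-!
W-RC, relative version over a subfield: the end of the induction.

* `linDisR`: two embeddings of `K` which agree on `A` (algebraically closed in `K`) and which are
  generic over `A` are linearly disjoint over `A`;
* `rcOver_of_infR`: the criterion; `rcover_of_prcr`: `PRCR` over `L₀` gives `RCOver L` for the
  algebraic closure `L` of `L₀` in `K`.
-/

set_option linter.style.haveILetI false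

namespace Pool.Agent.Work.WRC

open Polynomial Pool.Agent.Work.MP_4329d7_ag_sq Pool.Agent.Work.MP_4329d7_ag.FF

section lin

variable {A K Ω : Type} [Field A] [Algebra ℂ A] [Field K] [Algebra ℂ K] [Field Ω] [Algebra ℂ Ω]

/-- an element killed by the derivations along the fibres lies in `A` -/
theorem RelEnd.const_r [Algebra.EssFiniteType ℂ K] (lam : A →ₐ[ℂ] K)
    (hcl : ∀ b : K, IsAlgebraic lam.fieldRange b → b ∈ lam.fieldRange)
    {J I : Type} [Fintype J] [Fintype I] [DecidableEq J] [DecidableEq I] (z : J → A)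
    (Fr : Frame K (J ⊕ I)) (hz : ∀ j, Fr.z (Sum.inl j) = lam (z j)) {b : K}
    (hb : ∀ i, Fr.d (Sum.inr i) b = 0) : ∃ c : A, lam c = b := by
  by_contra hne
  have h1 : ¬ IsAlgebraic lam.fieldRange b := by
    intro h
    obtain ⟨c, hc⟩ := hcl b h
    exact hne ⟨c, hc⟩
  obtain ⟨δ, hδ, hδb⟩ := Pool.Agent.Work.CW.exists_der_over lam.fieldRange b h1
  apply hδb
  have h2 := ratExt_apply (L := K) Fr δ b
  simp only [Algebra.algebraMap_self, RingHom.id_apply] at h2
  rw [h2, Fintype.sum_sum_type]
  simp only [hb, mul_zero, Finset.sum_const_zero, add_zero]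
  refine Finset.sum_eq_zero fun j _ => ?_
  have h3 : δ (lam (z j)) = 0 := hδ _ ⟨z j, rfl⟩
  rw [hz, h3, zero_mul]

theorem RelEnd.linDis_aux [Algebra.EssFiniteType ℂ K] (lam : A →ₐ[ℂ] K)
    (hcl : ∀ b : K, IsAlgebraic lam.fieldRange b → b ∈ lam.fieldRange)
    {J I κ : Type} [Fintype J] [Fintype I] [DecidableEq J] [DecidableEq I] [DecidableEq κ]
    (f g : K →ₐ[ℂ] Ω) (hfg : ∀ a, f (lam a) = g (lam a)) (z : J → A)
    (Fr : Frame K (J ⊕ I)) (hz : ∀ j, Fr.z (Sum.inl j) = lam (z j))
    (h : AlgebraicIndependent ℂ (Sum.elim (fun i => f (Fr.z i))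
      (fun i => g (Fr.z (Sum.inr i))))) :
    ∀ (n : ℕ) (s : Finset κ), s.card = n → ∀ a b : κ → K,
      (∀ c : κ → A, ∑ i ∈ s, lam (c i) * a i = 0 → ∀ i ∈ s, c i = 0) →
      ∑ i ∈ s, f (a i) * g (b i) = 0 → ∀ i ∈ s, b i = 0 := by
  classical
  -- the derivations
  have hD : ∀ j : I, ∃ D : Derivation ℂ Ω Ω, (∀ a, D (f a) = 0) ∧
      (∀ b, D (g b) = g (Fr.d (Sum.inr j) b)) := by
    intro j
    obtain ⟨D, hD⟩ := exists_der_of_algInd h
      (Sum.elim (fun _ => (0 : Ω)) (fun i => if j = i then 1 else 0))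
    refine ⟨D, fun a => ?_, fun b => ?_⟩
    · letI : Algebra K Ω := f.toRingHom.toAlgebra
      haveI : IsScalarTower ℂ K Ω := IsScalarTower.of_algebraMap_eq fun c => (f.commutes c).symm
      have h1 := ratExt_apply (L := Ω) Fr D a
      have h2 : ∀ i, D (algebraMap K Ω (Fr.z i)) = 0 := fun i => hD (Sum.inl i)
      simp only [h2, zero_mul, Finset.sum_const_zero] at h1
      exact h1
    · letI : Algebra K Ω := g.toRingHom.toAlgebra
      haveI : IsScalarTower ℂ K Ω := IsScalarTower.of_algebraMap_eq fun c => (g.commutes c).symm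
      have h1 := ratExt_apply (L := Ω) Fr D b
      have h2 : ∀ i : I, D (algebraMap K Ω (Fr.z (Sum.inr i))) = if j = i then 1 else 0 :=
        fun i => hD (Sum.inr i)
      have h3 : ∀ i : J, D (algebraMap K Ω (Fr.z (Sum.inl i))) = 0 := by
        intro i
        have h4 : algebraMap K Ω (Fr.z (Sum.inl i)) = f (Fr.z (Sum.inl i)) := by
          rw [hz, hfg]
          rfl
        rw [h4]
        exact hD (Sum.inl (Sum.inl i))
      rw [Fintype.sum_sum_type] at h1
      simp only [h2, h3, ite_mul, one_mul, zero_mul, Finset.sum_const_zero, zero_add] at h1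
      rw [Finset.sum_ite_eq Finset.univ j, if_pos (Finset.mem_univ j)] at h1
      exact h1
  choose D hDf hDg using hD
  intro n
  induction n with
  | zero =>
    intro s hs a b _ _ i hi
    rw [Finset.card_eq_zero] at hs
    rw [hs] at hi
    exact absurd hi (Finset.notMem_empty i)
  | succ n ih =>
    intro s hs a b ha hab
    by_contra hne
    push Not at hne
    obtain ⟨i0, hi0, hb0⟩ := hne
    have hg0 : g (b i0) ≠ 0 := (map_ne_zero g).2 hb0
    set b' : κ → K := fun i => b i / b i0 with hb'
    have h1 : ∑ i ∈ s, f (a i) * g (b' i) = 0 := by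
      have : ∀ i, f (a i) * g (b' i) = (f (a i) * g (b i)) / g (b i0) := by
        intro i
        rw [hb']
        simp only [map_div₀]
        rw [mul_div_assoc]
      simp only [this]
      rw [← Finset.sum_div, hab, zero_div]
    have hb1 : b' i0 = 1 := div_self hb0
    -- all derivatives vanish
    have h2 : ∀ j, ∀ i ∈ s, Fr.d (Sum.inr j) (b' i) = 0 := by
      intro j
      have h3 : ∑ i ∈ s, f (a i) * g (Fr.d (Sum.inr j) (b' i)) = 0 := by
        have h4 := congrArg (D j) h1
        rw [map_zero, map_sum] at h4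
        rw [← h4]
        refine Finset.sum_congr rfl fun i _ => ?_
        rw [Derivation.leibniz, hDf, hDg]
        simp [smul_eq_mul]
      have h5 : Fr.d (Sum.inr j) (b' i0) = 0 := by
        rw [hb1]
        exact Derivation.map_one_eq_zero _
      have h6 : ∑ i ∈ s.erase i0, f (a i) * g (Fr.d (Sum.inr j) (b' i)) = 0 := by
        rw [← Finset.add_sum_erase s _ hi0, h5, map_zero, mul_zero, zero_add] at h3
        exact h3
      have h7 := ih (s.erase i0) (by rw [Finset.card_erase_of_mem hi0, hs]; rfl) a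
        (fun i => Fr.d (Sum.inr j) (b' i)) (fun c hc i hi => by
          have h8 := ha (fun i => if i = i0 then 0 else c i) (by
            rw [← Finset.add_sum_erase s _ hi0]
            simp only [if_true, map_zero, zero_mul, zero_add]
            rw [← hc]
            refine Finset.sum_congr rfl fun i hi => ?_
            rw [if_neg (Finset.ne_of_mem_erase hi)]) i (Finset.mem_of_mem_erase hi)
          rwa [if_neg (Finset.ne_of_mem_erase hi)] at h8) h6
      intro i hi
      by_cases hii : i = i0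
      · rw [hii]; exact h5
      · exact h7 i (Finset.mem_erase.2 ⟨hii, hi⟩)
    -- so the `b'` are constants
    have h9 : ∀ i, ∃ c : A, i ∈ s → lam c = b' i := by
      intro i
      by_cases hi : i ∈ s
      · obtain ⟨c, hc⟩ := RelEnd.const_r lam hcl z Fr hz (fun j => h2 j i hi)
        exact ⟨c, fun _ => hc⟩
      · exact ⟨0, fun h => absurd h hi⟩
    choose c hc using h9
    have h10 : f (∑ i ∈ s, lam (c i) * a i) = 0 := by
      rw [map_sum, ← h1]
      refine Finset.sum_congr rfl fun i hi => ?_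
      rw [← hc i hi, map_mul, hfg, mul_comm]
    have h11 : ∑ i ∈ s, lam (c i) * a i = 0 := (map_eq_zero f).1 h10
    have h12 := ha c h11 i0 hi0
    have h13 := hc i0 hi0
    rw [h12, map_zero, hb1] at h13
    exact zero_ne_one h13

/-- Two embeddings of `K` which agree on `A` (algebraically closed in `K`) and are generic over `A`
are linearly disjoint over `A`. -/
theorem linDisR [Algebra.EssFiniteType ℂ K] (lam : A →ₐ[ℂ] K)
    (hcl : ∀ b : K, IsAlgebraic lam.fieldRange b → b ∈ lam.fieldRange)
    {J I : Type} [Fintype J] [Fintype I] (f g : K →ₐ[ℂ] Ω) (hfg : ∀ a, f (lam a) = g (lam a))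
    (z : J → A) (x : I → K)
    (hx : IsTranscendenceBasis ℂ (Sum.elim (fun j => lam (z j)) x))
    (h : AlgebraicIndependent ℂ (Sum.elim (Sum.elim (fun j => f (lam (z j))) (fun i => f (x i)))
      (fun i => g (x i)))) {κ : Type} (s : Finset κ) (a b : κ → K)
    (ha : ∀ c : κ → A, ∑ i ∈ s, lam (c i) * a i = 0 → ∀ i ∈ s, c i = 0)
    (hab : ∑ i ∈ s, f (a i) * g (b i) = 0) : ∀ i ∈ s, b i = 0 := by
  classical
  obtain ⟨Fr, hFr⟩ := ratExt_exists_frame _ hx
  refine RelEnd.linDis_aux lam hcl f g hfg z Fr (fun j => by rw [hFr]; rfl) ?_ s.card s rfl a b ha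
    hab
  rw [hFr]
  have h1 : (Sum.elim (fun i => f (Sum.elim (fun j => lam (z j)) x i))
      (fun i => g (Sum.elim (fun j => lam (z j)) x (Sum.inr i))) : (J ⊕ I) ⊕ I → Ω) =
      Sum.elim (Sum.elim (fun j => f (lam (z j))) (fun i => f (x i))) (fun i => g (x i)) := by
    funext i
    rcases i with (i | i) | i <;> rfl
  rw [h1]
  exact h

end lin

section rel

/-- a rational function which becomes constant over a larger field is constant -/
theorem RelEnd.const_of_rmap {E F : Type} [Field E] [Field F] (e : E →+* F) (r : RatFunc E) (c : F)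
    (h : rmap e r = RatFunc.C c) : ∃ c' : E, r = RatFunc.C c' := by
  have hq : r.denom ≠ 0 := r.denom_ne_zero
  have hr : r = algebraMap E[X] (RatFunc E) r.num / algebraMap E[X] (RatFunc E) r.denom :=
    (RatFunc.num_div_denom r).symm
  have h1 : (r.num.map e : F[X]) = C c * r.denom.map e := by
    have h2 : algebraMap F[X] (RatFunc F) (r.num.map e) /
        algebraMap F[X] (RatFunc F) (r.denom.map e) = algebraMap F[X] (RatFunc F) (C c) := by
      rw [RatFunc.algebraMap_C, ← h]
      conv_rhs => rw [hr]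
      rw [map_div₀, rmap_algebraMap, rmap_algebraMap]
    have h3 : algebraMap F[X] (RatFunc F) (r.denom.map e) ≠ 0 :=
      inf_ne ((Polynomial.map_ne_zero_iff e.injective).2 hq)
    rw [div_eq_iff h3, ← map_mul] at h2
    exact IsFractionRing.injective F[X] (RatFunc F) h2
  have h4 : e (r.num.coeff r.denom.natDegree) = c := by
    have h5 := congrArg (fun p => Polynomial.coeff p r.denom.natDegree) h1
    simp only [coeff_map, coeff_C_mul] at h5
    rw [h5]
    have h6 : r.denom.coeff r.denom.natDegree = 1 := r.monic_denom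
    rw [h6, map_one, mul_one]
  refine ⟨r.num.coeff r.denom.natDegree, ?_⟩
  have h7 : r.num = C (r.num.coeff r.denom.natDegree) * r.denom := by
    refine Polynomial.map_injective e e.injective ?_
    rw [Polynomial.map_mul, map_C, h4]
    exact h1
  conv_lhs => rw [hr, h7]
  rw [map_mul, mul_div_assoc, div_self (inf_ne hq), mul_one, RatFunc.algebraMap_C]

theorem RelEnd.psi_C {F : Type} [Field F] (c : F) :
    psi F (RatFunc.C c) = RatFunc.C (RatFunc.C c) := by
  unfold psi
  rw [rmap_C]

/-- from a parameter field of infinite type to a finitely generated one -/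
theorem RelEnd.rcOver_of_good {K F : Type} [Field K] [Algebra ℂ K] [Algebra.EssFiniteType ℂ K]
    [Field F] [Algebra ℂ F] (A : IntermediateField ℂ K) (hcl : ∀ b : K, IsAlgebraic A b → b ∈ A)
    (φ : K →ₐ[ℂ] RatFunc F) (hA : ∀ a ∈ A, ∃ c : F, φ a = RatFunc.C c)
    {J I : Type} [Fintype J] [Fintype I] (z : J → A) (x : I → K)
    (hx : IsTranscendenceBasis ℂ (Sum.elim (fun j => (z j : K)) x))
    (hai : AlgebraicIndependent ℂ (Sum.elim
      (Sum.elim (fun j => (RatFunc.C (φ (z j)) : RatFunc (RatFunc F)))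
        (fun i => RatFunc.C (φ (x i))))
      (fun i => psi F (φ (x i))))) : RCOver A := by
  classical
  obtain ⟨s, hs⟩ := (IntermediateField.essFiniteType_iff (F := ℂ) (E := K) (K := ⊤)).1
    (by
      have hfg : Algebra.EssFiniteType ℂ K := inferInstance
      rw [← IntermediateField.fg_top_iff] at hfg
      exact IntermediateField.essFiniteType_iff.2 hfg)
  -- the finitely many coefficients
  let c : Finset F := s.biUnion (fun g => (φ g).num.coeffs ∪ (φ g).denom.coeffs)
  let E : IntermediateField ℂ F := IntermediateField.adjoin ℂ (c : Set F)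
  have hE : Algebra.EssFiniteType ℂ E :=
    IntermediateField.essFiniteType_iff.2 ⟨c, rfl⟩
  let ι : RatFunc E →ₐ[ℂ] RatFunc F := rmapA E.val
  have hι : ∀ g ∈ s, φ g ∈ ι.fieldRange := by
    intro g hg
    have hnum : ∀ n, (φ g).num.coeff n ∈ E := by
      intro n
      by_cases h0 : (φ g).num.coeff n = 0
      · rw [h0]; exact zero_mem _
      · refine IntermediateField.subset_adjoin ℂ _ ?_
        rw [Finset.mem_coe, Finset.mem_biUnion]
        exact ⟨g, hg, Finset.mem_union_left _ (Polynomial.coeff_mem_coeffs h0)⟩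
    have hden : ∀ n, (φ g).denom.coeff n ∈ E := by
      intro n
      by_cases h0 : (φ g).denom.coeff n = 0
      · rw [h0]; exact zero_mem _
      · refine IntermediateField.subset_adjoin ℂ _ ?_
        rw [Finset.mem_coe, Finset.mem_biUnion]
        exact ⟨g, hg, Finset.mem_union_right _ (Polynomial.coeff_mem_coeffs h0)⟩
    obtain ⟨p, hp⟩ := exists_lift_poly E _ hnum
    obtain ⟨q, hq⟩ := exists_lift_poly E _ hden
    refine ⟨algebraMap E[X] (RatFunc E) p / algebraMap E[X] (RatFunc E) q, ?_⟩
    change ι _ = _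
    have h1 : ∀ r : E[X], ι (algebraMap E[X] (RatFunc E) r) =
        algebraMap F[X] (RatFunc F) (r.map (E.val : E →+* F)) := fun r => rmap_algebraMap _ r
    rw [map_div₀, h1, h1, hp, hq, RatFunc.num_div_denom]
  have hrange : ∀ a : K, φ a ∈ ι.fieldRange := by
    intro a
    have h1 : (⊤ : IntermediateField ℂ K) ≤ ι.fieldRange.comap φ := by
      rw [← hs, IntermediateField.adjoin_le_iff]
      intro g hg
      exact hι g hg
    exact h1 (IntermediateField.mem_top (x := a))
  let φ₀ : K →ₐ[ℂ] RatFunc E :=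
    ((AlgEquiv.ofInjectiveField ι).symm.toAlgHom).comp
      (φ.codRestrict ι.fieldRange.toSubalgebra hrange)
  have hφ₀ : ∀ a, ι (φ₀ a) = φ a := by
    intro a
    have h1 := (AlgEquiv.ofInjectiveField ι).apply_symm_apply
      (φ.codRestrict ι.fieldRange.toSubalgebra hrange a)
    exact congrArg Subtype.val h1
  refine ⟨E, inferInstance, inferInstance, φ₀, psi E, hE, isSecondVariable_psi, ?_, ?_⟩
  · intro a ha
    obtain ⟨c, hc⟩ := hA a ha
    exact RelEnd.const_of_rmap (E.val : E →+* F) (φ₀ a) c ((hφ₀ a).trans hc)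
  · intro r a b ha hab
    funext i
    refine linDisR A.val ?_ ((CA F).comp φ) ((psiA F).comp φ) ?_ z x hx hai Finset.univ a b ?_ ?_
      i (Finset.mem_univ i)
    · intro b hb
      rw [IntermediateField.fieldRange_val] at hb ⊢
      exact hcl b hb
    · intro a
      obtain ⟨c, hc⟩ := hA a.1 a.2
      change RatFunc.C (φ a.1) = psi F (φ a.1)
      rw [hc, RelEnd.psi_C]
    · intro c hc i _
      refine Fintype.linearIndependent_iff.1 ha c ?_ i
      rw [← hc]
      exact Finset.sum_congr rfl fun i _ => Algebra.smul_def _ _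
    · have h1 := congrArg (rmap (ι : RatFunc E →+* RatFunc F)) hab
      rw [map_zero, map_sum] at h1
      rw [← h1]
      refine Finset.sum_congr rfl fun i _ => ?_
      rw [map_mul, rmap_C]
      have h2 : rmap (ι : RatFunc E →+* RatFunc F) (psi E (φ₀ (b i))) = psi F (ι (φ₀ (b i))) :=
        rmap_rmap_psi _ _
      rw [h2]
      change RatFunc.C (φ (a i)) * psi F (φ (b i)) = RatFunc.C (ι (φ₀ (a i))) * _
      rw [hφ₀, hφ₀]

/-- the criterion -/
theorem rcOver_of_infR {K k : Type} [Field K] [Algebra ℂ K] [Algebra.EssFiniteType ℂ K] [Field k]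
    [Algebra ℂ k] (A : IntermediateField ℂ K) (hcl : ∀ b : K, IsAlgebraic A b → b ∈ A)
    (ι : K →ₐ[ℂ] k) (φ : K →ₐ[ℂ] RatFunc k) (hinf : ∀ y, Inf (φ y) (ι y))
    (hA : ∀ a ∈ A, φ a = RatFunc.C (ι a))
    {J I : Type} [Fintype J] [Fintype I] (z : J → A) (x : I → K)
    (hx : IsTranscendenceBasis ℂ (Sum.elim (fun j => (z j : K)) x))
    (hai : AlgebraicIndependent ℂ (Sum.elim (Sum.elim
      (fun j => (RatFunc.C (ι (z j)) : RatFunc k)) (fun i => RatFunc.C (ι (x i))))
      (fun i => φ (x i)))) : RCOver A := by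
  classical
  refine RelEnd.rcOver_of_good A hcl φ (fun a ha => ⟨ι a, hA a ha⟩) z x hx ?_
  rw [algebraicIndependent_iff] at hai ⊢
  intro P hP
  -- exchange the variables
  let sw : (J ⊕ I) ⊕ I → (J ⊕ I) ⊕ I :=
    Sum.elim (Sum.elim (fun j => Sum.inl (Sum.inl j)) (fun i => Sum.inr i))
      (fun i => Sum.inl (Sum.inr i))
  have hsw : Function.LeftInverse sw sw := by
    rintro ((j | i) | i) <;> rfl
  have hP' : MvPolynomial.rename sw P = 0 := by
    refine hai _ ?_
    have h2 := Inf.aeval (k := RatFunc k) (σ := (J ⊕ I) ⊕ I)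
      (u := Sum.elim (Sum.elim (fun j => (RatFunc.C (φ (z j)) : RatFunc (RatFunc k)))
        (fun i => RatFunc.C (φ (x i)))) (fun i => psi k (φ (x i))))
      (c := Sum.elim (Sum.elim (fun j => φ (z j)) (fun i => φ (x i)))
        (fun i => RatFunc.C (ι (x i))))
      (fun s => by
        rcases s with (j | i) | i
        · exact Inf.const _
        · exact Inf.const _
        · exact (hinf (x i)).psi) P
    rw [hP] at h2
    have h3 := h2.eq_zero
    rw [← h3, MvPolynomial.aeval_rename]
    congr 2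
    funext s
    rcases s with (j | i) | i
    · exact (hA _ (z j).2).symm
    · rfl
    · rfl
  exact (map_eq_zero_iff _ (MvPolynomial.rename_injective _ hsw.injective)).1 hP'

/-- uniqueness of the value at infinity -/
theorem RelEnd.inf_C {k : Type} [Field k] {c d : k} (h : Inf (RatFunc.C c : RatFunc k) d) :
    d = c := by
  have h1 := h.add (Inf.const (-c))
  rw [← map_add, add_neg_cancel, map_zero] at h1
  exact eq_of_sub_eq_zero (by rw [sub_eq_add_neg]; exact h1.eq_zero)

/-- the elements algebraic over `L₀` have constant images -/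
theorem RelEnd.const_of_alg {K k : Type} [Field K] [Algebra ℂ K] [Field k] [Algebra ℂ k]
    [IsAlgClosed k] (L₀ : IntermediateField ℂ K) (i : K →ₐ[ℂ] k) (φ : K →ₐ[ℂ] RatFunc k)
    (h : ∀ a : L₀, φ a = RatFunc.C (i a)) {y : K} (hy : IsAlgebraic L₀ y) :
    ∃ c : k, φ y = RatFunc.C c := by
  obtain ⟨P, hP, hy⟩ := hy
  let g : L₀ →+* k := (i : K →+* k).comp (L₀.val : L₀ →+* K)
  have h1 : IsAlgebraic k (φ y) := by
    refine ⟨P.map g, (Polynomial.map_ne_zero_iff g.injective).2 hP, ?_⟩
    have h2 : (algebraMap k (RatFunc k)).comp g =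
        (φ : K →+* RatFunc k).comp (algebraMap L₀ K) := by
      ext a
      exact (h a).symm
    rw [aeval_def, eval₂_map, h2]
    change eval₂ _ ((φ : K →+* RatFunc k) y) P = 0
    rw [← Polynomial.hom_eval₂, ← aeval_def, hy, map_zero]
  have h2 : IsIntegral k (φ y) := h1.isIntegral
  obtain ⟨c, hc⟩ := minpoly.mem_range_of_degree_eq_one k (φ y)
    (IsAlgClosed.degree_eq_one_of_irreducible k (minpoly.irreducible h2))
  exact ⟨c, hc.symm⟩

/-- the end of the relative induction -/
theorem rcover_of_prcr {K : Type} [Field K] [Algebra ℂ K] [Algebra.EssFiniteType ℂ K]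
    (L₀ L : IntermediateField ℂ K) (h : PRCR L₀.val)
    (hL : L₀ ≤ L) (halg : ∀ y ∈ L, IsAlgebraic L₀ y) (hcl : ∀ y : K, IsAlgebraic L y → y ∈ L) :
    RCOver L := by
  obtain ⟨k, _, _, _, i, φ, hinf, hlam, J, I, _, _, z, x, hz, hx, hai⟩ := h
  have h0 : ∀ a : L₀, φ a = RatFunc.C (i a) := fun a => (hlam a).symm
  refine rcOver_of_infR L hcl i φ hinf (fun a ha => ?_) (fun j => ⟨z j, hL (z j).2⟩) x hx ?_
  · obtain ⟨c, hc⟩ := RelEnd.const_of_alg L₀ i φ h0 (halg a ha)
    have h1 := hinf a
    rw [hc] at h1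
    rw [hc, RelEnd.inf_C h1]
  · have h1 := (algebraicIndependent_equiv (R := ℂ) (Equiv.sumAssoc J I I)).2 hai
    have h2 : (Sum.elim (Sum.elim
        (fun j => (RatFunc.C (i (z j)) : RatFunc k)) (fun j => RatFunc.C (i (x j))))
        (fun j => φ (x j))) = (Sum.elim (fun j => ((cK k).comp i) (L₀.val (z j)))
        (Sum.elim (fun i_1 => ((cK k).comp i) (x i_1)) fun i => φ (x i))) ∘
          ⇑(Equiv.sumAssoc J I I) := by
      funext s
      rcases s with (j | j) | j <;> rfl
    exact h2 ▸ h1

end rel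

end Pool.Agent.Work.WRC
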