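import Mathlib
import Pool.Agent.Work.MP_4329d7_ag_wrc.Upk
import Pool.Agent.Work.MP_4329d7_ag_w.IrrHalf

/-!
W-RC, relative version: the base of the last toric quotient is not uniruled.

* `not_uniruled_of_weights`: weights (`w`, `M`) exclude packings, so the field is not uniruled;
* `not_uniruled_of_alg`: algebraic extensions inside `K`.
-/

namespace Pool.Agent.Work.WRC

open Polynomial Pool.Agent.Work.Uni Pool.Agent.Work.CI Pool.Agent.Work.CW
open Pool.Agent.Work.MP_4329d7_ag_sq

variable {K : Type} [Field K] [Algebra ℂ K] {n d : ℕ} {Q : Type} [Fintype Q]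
  {x : Fin d → K} {f : Q → Lau d}

/-- weights exclude rational curves through a general point -/
theorem not_uniruled_of_weights (D : Data K n d Q x f) (w : Fin d → ℤ) (M : ℕ) (hM : 0 < M)
    (hw : ∀ b, b ≠ 0 → (M : ℤ) ≤ pair w b - M * ∑ q, mn (f q) b) : ¬ Uniruled K := by
  intro hK
  obtain ⟨ι, _, b, hb0, hb, hc⟩ := upk' D hK
  have h1 : ∑ _i : ι, (M : ℤ) ≤ ∑ i, (pair w (b i) - M * ∑ q, mn (f q) (b i)) :=
    Finset.sum_le_sum fun i _ => hw (b i) (hb0 i)
  rw [Finset.sum_const, Finset.card_univ, nsmul_eq_mul, Finset.sum_sub_distrib, ← pair_sum, hb,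
    pair_zero, ← Finset.mul_sum, Finset.sum_comm] at h1
  have h2 : ∑ q, ∑ i, mn (f q) (b i) = -((∑ q, dg f b q : ℕ) : ℤ) := by
    push_cast
    rw [← Finset.sum_neg_distrib]
    refine Finset.sum_congr rfl fun q _ => ?_
    rw [dg_cast D.nz hb, neg_neg]
  rw [h2] at h1
  have h3 : ((∑ q, dg f b q + 2 : ℕ) : ℤ) ≤ (Fintype.card ι : ℤ) := by exact_mod_cast hc
  push_cast at h1 h3
  have hM' : (0 : ℤ) < M := by exact_mod_cast hM
  nlinarith

/-- rational functions which are algebraic over the constants are constant -/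
theorem const_of_algebraic {E : Type} [Field E] (z : RatFunc E) (hz : IsAlgebraic E z) :
    ∃ c : E, z = RatFunc.C c := by
  have h1 : IsIntegral E[X] z := hz.isIntegral.tower_top
  obtain ⟨p, hp⟩ := IsIntegrallyClosed.isIntegral_iff.1 h1
  obtain ⟨q, hq, hq0⟩ := hz
  rw [← hp, Polynomial.aeval_algebraMap_apply,
    map_eq_zero_iff _ (IsFractionRing.injective E[X] (RatFunc E))] at hq0
  have h2 : q.comp p = 0 := hq0
  rcases comp_eq_zero_iff.1 h2 with h3 | ⟨-, h3⟩
  · exact absurd h3 hq
  · exact ⟨p.coeff 0, by rw [← hp, h3, coeff_C_zero, RatFunc.algebraMap_C]⟩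

/-- algebraic extensions -/
theorem not_uniruled_of_alg {L₀ L : IntermediateField ℂ K} (hL : L₀ ≤ L)
    (halg : ∀ y ∈ L, IsAlgebraic L₀ y) (h : ¬ Uniruled L₀) : ¬ Uniruled L := by
  rintro ⟨E, _, _, φ, hE, y, hy⟩
  apply h
  refine ⟨E, inferInstance, inferInstance, φ.comp (IntermediateField.inclusion hL), hE, ?_⟩
  by_contra hall
  push Not at hall
  choose j hj using hall
  have hj' : ∀ z : L₀, φ (IntermediateField.inclusion hL z) = RatFunc.C (j z) := hj
  let j' : L₀ →+* E :=
    { toFun := j
      map_one' := by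
        apply (RatFunc.C : E →+* RatFunc E).injective
        rw [← hj', map_one, map_one, map_one]
      map_zero' := by
        apply (RatFunc.C : E →+* RatFunc E).injective
        rw [← hj', map_zero, map_zero, map_zero]
      map_mul' := fun a b => by
        apply (RatFunc.C : E →+* RatFunc E).injective
        rw [← hj', map_mul, map_mul, map_mul, hj', hj']
      map_add' := fun a b => by
        apply (RatFunc.C : E →+* RatFunc E).injective
        rw [← hj', map_add, map_add, map_add, hj', hj'] }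
  let _ : Algebra L₀ L := (IntermediateField.inclusion hL).toRingHom.toAlgebra
  have hy1 : IsAlgebraic L₀ y := by
    obtain ⟨p, hp, hp0⟩ := halg y y.2
    refine ⟨p, hp, ?_⟩
    apply (algebraMap L K).injective
    rw [map_zero, aeval_def, hom_eval₂]
    rw [aeval_def] at hp0
    exact hp0
  have h3 : IsAlgebraic E (φ y) := alg_transfer (φ : L →+* RatFunc E) j' (fun a => hj' a) y hy1
  obtain ⟨c, hc⟩ := const_of_algebraic (φ y) h3
  exact hy c hc

end Pool.Agent.Work.WRC
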