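import Mathlib
import Pool.Agent.Work.MP_4329d7_ag_wrc.RelDefs

/-!
W-RC, relative version: the base points at two independent positions form a generic pair over `A`.
-/

namespace Pool.Agent.Work.WRC

open Polynomial Pool.Agent.Work.MP_4329d7_ag_sq Pool.Agent.Work.MP_4329d7_ag.FF

/-- two elements of `Ω` which are independent over `k` give `k(s₁)(s₂) → Ω` -/
theorem relBase_eval_ne {k Ω : Type} [Field k] [Field Ω] (e₁ e₂ : RatFunc k →+* Ω)
    (hP : ∀ P : MvPolynomial (Fin 2) k, P ≠ 0 →
      MvPolynomial.eval₂ (e₁.comp RatFunc.C) ![e₁ RatFunc.X, e₂ RatFunc.X] P ≠ 0)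
    (p : (RatFunc k)[X]) (hp : p ≠ 0) : p.eval₂ e₁ (e₂ RatFunc.X) ≠ 0 := by
  classical
  intro h0
  let R : k[X][X] := IsLocalization.integerNormalization (nonZeroDivisors k[X]) p
  have hR0 : R ≠ 0 := by
    intro h1
    obtain ⟨b, hb, hb2⟩ := IsLocalization.integerNormalization_spec (nonZeroDivisors k[X]) p
    have h2 : R.map (algebraMap k[X] (RatFunc k)) = b • p := hb2
    rw [h1, Polynomial.map_zero] at h2
    have h3 := (smul_eq_zero.1 h2.symm).resolve_right hp
    exact nonZeroDivisors.ne_zero hb h3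
  have hR : R.eval₂ (e₁.comp (algebraMap k[X] (RatFunc k))) (e₂ RatFunc.X) = 0 :=
    IsLocalization.integerNormalization_eval₂_eq_zero (nonZeroDivisors k[X]) e₁ p h0
  refine hP (Bivariate.equivMvPolynomial k R) ?_ ?_
  · rw [Ne, EmbeddingLike.map_eq_zero_iff]
    exact hR0
  · rw [← hR]
    have h1 : ((MvPolynomial.eval₂Hom (e₁.comp RatFunc.C) ![e₁ RatFunc.X, e₂ RatFunc.X]).comp
        (Bivariate.equivMvPolynomial k : k[X][X] →+* MvPolynomial (Fin 2) k)) =
        Polynomial.eval₂RingHom (e₁.comp (algebraMap k[X] (RatFunc k))) (e₂ RatFunc.X) := by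
      refine Polynomial.ringHom_ext' (Polynomial.ringHom_ext (fun a => ?_) ?_) ?_
      · simp
      · simp
      · simp
    exact congrArg (fun g => g R) h1

/-- the base points at two independent positions, relative version -/
theorem base_pairR {A : Type} [Field A] [Algebra ℂ A] {L k Ω : Type} [Field L] [Algebra ℂ L]
    [Field k] [Algebra ℂ k] [Field Ω]
    [Algebra ℂ Ω] (lam : A →ₐ[ℂ] L) (iB : L →ₐ[ℂ] k) (φB : L →ₐ[ℂ] RatFunc k)
    (h : AIPairR lam iB φB) (e₁ e₂ : RatFunc k →ₐ[ℂ] Ω)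
    (he : ∀ a, e₁ (RatFunc.C a) = e₂ (RatFunc.C a))
    (hP : ∀ P : MvPolynomial (Fin 2) k, P ≠ 0 →
      MvPolynomial.eval₂ ((e₁ : RatFunc k →+* Ω).comp RatFunc.C) ![e₁ RatFunc.X, e₂ RatFunc.X] P ≠ 0) :
    Indep2R lam (e₁.comp φB) (e₂.comp φB) := by
  classical
  obtain ⟨hinf, hlam, J, I, hJ, hI, z, x, hz, hx, hai⟩ := h
  have hc : ∀ a, φB (lam a) = RatFunc.C (iB (lam a)) := fun a => (hlam a).symm
  have hy := relBase_eval_ne (e₁ : RatFunc k →+* Ω) (e₂ : RatFunc k →+* Ω) hP
  let g : RatFunc (RatFunc k) →+* Ω := rlift (e₁ : RatFunc k →+* Ω) (e₂ RatFunc.X) hy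
  have g1 : ∀ f, g (RatFunc.C f) = e₁ f := fun f => rlift_C _ _ _ f
  have g2 : ∀ f, g (psi k f) = e₂ f := by
    have h1 : g.comp (psi k) = (e₂ : RatFunc k →+* Ω) := by
      refine ratFunc_hom_ext (fun a => ?_) ?_
      · rw [RingHom.comp_apply]
        unfold psi
        rw [rmap_C, g1]
        exact he a
      · rw [RingHom.comp_apply]
        unfold psi
        rw [rmap_X]
        exact rlift_X _ _ _
    exact fun f => congrArg (fun r => r f) h1
  refine ⟨fun a => ?_, J, I, hJ, hI, z, x, hz, hx, ?_⟩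
  · change e₁ (φB (lam a)) = e₂ (φB (lam a))
    rw [hc]
    exact he _
  rw [algebraicIndependent_iff] at hai ⊢
  intro P hP0
  let u : J ⊕ (I ⊕ I) → RatFunc (RatFunc k) := Sum.elim
    (fun j => RatFunc.C (φB (lam (z j))))
    (Sum.elim (fun i => RatFunc.C (φB (x i))) (fun i => psi k (φB (x i))))
  have hz0 : MvPolynomial.aeval u P = 0 := by
    refine (map_eq_zero_iff g g.injective).1 ?_
    rw [← hP0, MvPolynomial.aeval_def, MvPolynomial.aeval_def, MvPolynomial.eval₂_comp_left]
    congr 1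
    · ext w
      rw [RingHom.comp_apply, algebraMap_ratFunc, g1]
      exact e₁.commutes w
    · funext s
      rcases s with j | i | i
      · exact g1 _
      · exact g1 _
      · exact g2 _
  have h2 := Inf.aeval (k := RatFunc k) (σ := J ⊕ (I ⊕ I)) (u := u)
    (c := Sum.elim (fun j => φB (lam (z j)))
      (Sum.elim (fun i => φB (x i)) (fun i => RatFunc.C (iB (x i)))))
    (fun s => by
      rcases s with j | i | i
      · exact Inf.const _
      · exact Inf.const _
      · exact (hinf (x i)).psi) P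
  rw [hz0] at h2
  have h3 := h2.eq_zero
  let w : J ⊕ (I ⊕ I) → J ⊕ (I ⊕ I) := Sum.map id Sum.swap
  have hw : Function.Injective w :=
    Function.Injective.sumMap Function.injective_id Sum.swap_leftInverse.injective
  let P' : MvPolynomial (J ⊕ (I ⊕ I)) ℂ := MvPolynomial.rename w P
  have hP' : P' = 0 := by
    refine hai P' ?_
    rw [← h3]
    simp only [P']
    rw [MvPolynomial.aeval_rename]
    congr 2
    funext s
    rcases s with j | i | i
    · exact (hc _).symm
    · rfl
    · rfl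
  exact (map_eq_zero_iff _ (MvPolynomial.rename_injective _ hw)).1 hP'

end Pool.Agent.Work.WRC
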