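import Mathlib
import Pool.Agent.Work.MP_4329d7_ag_wrc.RelDefs
import Pool.Agent.Work.MP_4329d7_ag_wrc.FinA

/-!
W-RC, relative version, module `RelFam`: base change of `AIPairR`, the family of fibre equations
over a curve of the base given by `PRCR lamB`, and the input `FinInR` of the final step.
-/

namespace Pool.Agent.Work.WRC

open Polynomial Pool.Agent.Work.CI Pool.Agent.Work.MP_4329d7_ag_sq

section

variable {A K : Type} [Field A] [Algebra ℂ A] [Field K] [Algebra ℂ K]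

/-- base change of a pair which is generic over `A` -/
theorem Indep2R.map {lam : A →ₐ[ℂ] K} {L L' : Type} [Field L] [Algebra ℂ L] [Field L']
    [Algebra ℂ L'] {p q : K →ₐ[ℂ] L} (h : Indep2R lam p q) (g : L →ₐ[ℂ] L') :
    Indep2R lam (g.comp p) (g.comp q) := by
  obtain ⟨h0, J, I, hJ, hI, z, x, hz, hx, hai⟩ := h
  refine ⟨fun a => congrArg g (h0 a), J, I, hJ, hI, z, x, hz, hx, ?_⟩
  have h2 := hai.map' (f := g) g.toRingHom.injective
  convert h2 using 1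
  funext s
  rcases s with s | s | s
  · rfl
  · rfl
  · rfl

theorem rmapA_comp_cK {k k' : Type} [Field k] [Algebra ℂ k] [Field k'] [Algebra ℂ k']
    (j : k →ₐ[ℂ] k') : (rmapA j).comp (cK k) = (cK k').comp j := by
  refine AlgHom.ext fun a => ?_
  change rmapA j (RatFunc.C a) = RatFunc.C (j a)
  simp [rmapA_apply]

theorem AIPairR.map {lam : A →ₐ[ℂ] K} {k k' : Type} [Field k] [Algebra ℂ k]
    [Field k'] [Algebra ℂ k'] {i : K →ₐ[ℂ] k} {φ : K →ₐ[ℂ] RatFunc k} (h : AIPairR lam i φ)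
    (j : k →ₐ[ℂ] k') : AIPairR lam (j.comp i) ((rmapA j).comp φ) := by
  refine ⟨fun y => (h.1 y).map (j : k →+* k'), ?_⟩
  have h1 := h.2.map (rmapA j)
  rwa [← AlgHom.comp_assoc, rmapA_comp_cK, AlgHom.comp_assoc] at h1

theorem AIPairR.const {lam : A →ₐ[ℂ] K} {k : Type} [Field k] [Algebra ℂ k]
    {i : K →ₐ[ℂ] k} {φ : K →ₐ[ℂ] RatFunc k} (h : AIPairR lam i φ) (a : A) :
    φ (lam a) = RatFunc.C (i (lam a)) := (h.2.1 a).symm

end

variable {A K : Type} [Field A] [Algebra ℂ A] [Field K] [Algebra ℂ K] {n dB r : ℕ} {B Q : Type}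
  {x : Fin (dB + r) → K} {f : B ⊕ Q → Lau (dB + r)} {V : Type} [Fintype V] [DecidableEq V]

/-- all inputs of the section theorem from `PRCR` of the base -/
theorem exists_famR (hx : ∀ j, x j ≠ 0) (lamB : A →ₐ[ℂ] KBf x) (h : PRCR lamB) :
    ∃ (k : Type) (_ : Field k) (_ : Algebra ℂ k) (_ : IsAlgClosed k) (iB : KBf x →ₐ[ℂ] k)
      (φB : KBf x →ₐ[ℂ] RatFunc k) (φ₀ : K →ₐ[ℂ] k) (a : Q → (Fin (dB + r) → ℤ) → k[X])
      (D : Q → ℕ), AIPairR lamB iB φB ∧ (∀ y : KBf x, φ₀ (y : K) = iB y) ∧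
      IsFam x f φB (fun j => φ₀ (x j)) a D := by
  obtain ⟨k₁, i1, i2, i3, iB, φB, hAI⟩ := h
  obtain ⟨k, j1, j2, j3, φ₀, j, hj⟩ := amalgam (KBf x).val iB
  have hA : AIPairR lamB (j.comp iB) ((rmapA j).comp φB) := AIPairR.map hAI j
  have hx₀ : ∀ j, φ₀ (x j) ≠ 0 := fun j => (map_ne_zero_iff _ φ₀.toRingHom.injective).2 (hx j)
  obtain ⟨a, D, hfam⟩ := exists_isFam x f ((rmapA j).comp φB) (fun j => φ₀ (x j)) hx₀ (by
    intro l
    have h1 := hA.1 (xB x l)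
    rw [AlgHom.comp_apply j iB, ← hj] at h1
    exact h1)
  exact ⟨k, j1, j2, j3, j.comp iB, (rmapA j).comp φB, φ₀, a, D, hA, fun y => hj y, hfam⟩

variable [Fintype B] [Fintype Q]

/-- The input of the final step in the relative version: as `FinIn`, with a pair of points of the
base which is generic over `A`. -/
structure FinInR (x : Fin (dB + r) → K) (f : B ⊕ Q → Lau (dB + r)) (Δ : FanV V r)
    (lamB : A →ₐ[ℂ] KBf x) (F : Type)
    [Field F] [Algebra ℂ F] (iB : KBf x →ₐ[ℂ] F) (φB : KBf x →ₐ[ℂ] RatFunc F)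
    (X : Fin (dB + r) → RatFunc F) (σ τ : Finset V) (xb : Fin dB → F) (z : Fin r → F)
    (m : V → ℕ) (W : V → F[X]) (e : F) (Xe : Fin (dB + r) → F)
    (a : Q → (Fin (dB + r) → ℤ) → F[X]) (den : Q → F[X]) (g : F[X]) (N0 : ℤ) : Prop where
  pairR : AIPairR lamB iB φB
  base : ∀ j, φB (xB x j) = X (Fin.castAdd r j)
  bd : BdTot f Δ σ X
  beq : ∀ q : B, ev (f (Sum.inl q)) X = 0
  xb_ne : ∀ j, xb j ≠ 0
  inf : ∀ j, Inf (X (Fin.castAdd r j)) (xb j)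
  lim : LimInf Δ σ (fun j => X (Fin.natAdd dB j)) τ z
  tooth : Tooth x f Δ.ray (Fin.append xb z) (ind F τ) m W
  xe_ne : ∀ j, Xe j ≠ 0
  xe : ∀ j, Inf (mobA e (X j)) (Xe j)
  defd : DefD f Δ σ m (fun j => mobA e (X j)) Xe a den g N0

/-- the input of the final step in the relative version, from the output of the section theorem -/
theorem exists_finInR_of (T : Tot n dB r B Q x f) {Δ : FanV V r} (hΔ : Δ.Adapted f) {nB : ℕ}
    (htr : Algebra.trdeg ℂ (KBf x) = nB) (hdim : nB + Fintype.card B = dB)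
    (lamB : A →ₐ[ℂ] KBf x)
    {k : Type} [Field k] [Algebra ℂ k] {iB : KBf x →ₐ[ℂ] k} {φB : KBf x →ₐ[ℂ] RatFunc k}
    (hpair : AIPairR lamB iB φB) (φ₀ : K →ₐ[ℂ] k)
    {a₀ : Q → (Fin (dB + r) → ℤ) → k[X]} {D₀ : Q → ℕ}
    (hfam : IsFam x f φB (fun j => φ₀ (x j)) a₀ D₀)
    {k₂ : Type} [Field k₂] [Algebra ℂ k₂] (i : k →ₐ[ℂ] k₂) {σ τ : Finset V}
    {y : Fin r → RatFunc k₂} {z₂ : Fin r → k₂}
    (hbd : BdSec Δ f (fun q χ => (a₀ q χ).map i.toRingHom) σ y) (hlim : LimInf Δ σ y τ z₂)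
    (hVF : VF x f Δ.ray (mulF (fun j => i (φ₀ (x j))) z₂) (ind k₂ τ)) :
    ∃ (F : Type) (_ : Field F) (_ : Algebra ℂ F) (_ : IsAlgClosed F) (iB : KBf x →ₐ[ℂ] F)
      (φB : KBf x →ₐ[ℂ] RatFunc F) (X : Fin (dB + r) → RatFunc F) (xb : Fin dB → F)
      (z : Fin r → F) (m : V → ℕ) (W : V → F[X]) (e : F) (Xe : Fin (dB + r) → F)
      (a : Q → (Fin (dB + r) → ℤ) → F[X]) (den : Q → F[X]) (g : F[X]) (N0 : ℤ),
      FinInR x f Δ lamB F iB φB X σ τ xb z m W e Xe a den g N0 := by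
  obtain ⟨F, _, _, _, u, X, xb, z, m, W, e, Xe, a, den, g, N0, hC⟩ :=
    exists_finCore_of T hΔ htr hdim φ₀ hfam i hbd hlim hVF
  exact ⟨F, inferInstance, inferInstance, inferInstance, u.comp iB, (rmapA u).comp φB, X, xb, z, m,
    W, e, Xe, a, den, g, N0, hpair.map u, hC.base, hC.bd, hC.beq, hC.xb_ne, hC.inf, hC.lim,
    hC.tooth, hC.xe_ne, hC.xe, hC.defd⟩

/-- **FinA**, relative version: the input of the final step from `PRCR` of the base -/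
theorem exists_finInR (T : Tot n dB r B Q x f) (Δ : FanV V r) (hΔ : Δ.Adapted f) {nB : ℕ}
    (htr : Algebra.trdeg ℂ (KBf x) = nB) (hdim : nB + Fintype.card B = dB) (hKH : KHc f)
    (hstep : StepProp x f Δ)
    (hVF : ∀ (k : Type) [Field k] [Algebra ℂ k] [IsAlgClosed k] (φ₀ : K →ₐ[ℂ] k),
      VF x f Δ.ray (fun j => φ₀ (x j)) 1) (lamB : A →ₐ[ℂ] KBf x) (h : PRCR lamB) :
    ∃ (F : Type) (_ : Field F) (_ : Algebra ℂ F) (_ : IsAlgClosed F) (σ τ : Finset V)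
      (iB : KBf x →ₐ[ℂ] F) (φB : KBf x →ₐ[ℂ] RatFunc F) (X : Fin (dB + r) → RatFunc F)
      (xb : Fin dB → F) (z : Fin r → F) (m : V → ℕ) (W : V → F[X]) (e : F)
      (Xe : Fin (dB + r) → F) (a : Q → (Fin (dB + r) → ℤ) → F[X]) (den : Q → F[X]) (g : F[X])
      (N0 : ℤ), FinInR x f Δ lamB F iB φB X σ τ xb z m W e Xe a den g N0 := by
  obtain ⟨k, _, _, _, iB, φB, φ₀, a₀, D₀, hp, -, hfam⟩ :=
    exists_famR (f := f) T.data.ne lamB h
  obtain ⟨k₂, _, _, _, i, σ, y, τ, z, hbd, hlim, hV⟩ := sec T Δ hΔ htr hdim hKH hstep φ₀ (hVF k φ₀)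
    a₀ D₀ hfam.pos hfam.deg hfam.top
  obtain ⟨F, i1, i2, i3, iB, φB, X, xb, z, m, W, e, Xe, a, den, g, N0, hF⟩ :=
    exists_finInR_of T hΔ htr hdim lamB hp φ₀ hfam i hbd hlim hV
  exact ⟨F, i1, i2, i3, σ, τ, iB, φB, X, xb, z, m, W, e, Xe, a, den, g, N0, hF⟩

end Pool.Agent.Work.WRC
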