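import Mathlib
import Pool.Agent.Work.MP_4329d7_ag_wrc.PrcPair

/-!
W-RC, item (9) of note 3488: the comb section through two teeth gives a pair of independent points.
-/

namespace Pool.Agent.Work.WRC

open Polynomial Pool.Agent.Work.CI Pool.Agent.Work.CW Pool.Agent.Work.MP_4329d7_ag_sq

namespace CombPair

theorem F_map_poly' {V Q X : Type} [Fintype V] {C : Cox V Q X} {A A' : Type*} [CommRing A]
    [CommRing A'] (i : A →+* A') (c : Q → X → A[X]) (q : Q) (Y : V → A[X]) :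
    C.F (fun q x => (c q x).map i) q (fun v => (Y v).map i) = (C.F c q Y).map i :=
  (Cox.F_map (mapRingHom i) c q Y).symm

/-- the value of a homomorphism on polynomials -/
theorem eval_hom {F M : Type} [Field F] [Algebra ℂ F] [Field M] [Algebra ℂ M] (iF : F →ₐ[ℂ] M)
    (E : RatFunc F →ₐ[ℂ] M) (hE : ∀ c, E (RatFunc.C c) = iF c) (p : F[X]) :
    E (algebraMap F[X] (RatFunc F) p) = (p.map (iF : F →+* M)).eval (E RatFunc.X) := by
  induction p using Polynomial.induction_on' with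
  | add p q hp hq => rw [map_add, map_add, hp, hq, Polynomial.map_add, eval_add]
  | monomial n a =>
    rw [← C_mul_X_pow_eq_monomial, map_mul, map_mul, map_pow, map_pow, RatFunc.algebraMap_C,
      RatFunc.algebraMap_X, hE, Polynomial.map_mul, Polynomial.map_pow, map_C, map_X, eval_mul,
      eval_pow, eval_C, eval_X]
    rfl

/-- values of Laurent polynomials under homomorphisms -/
theorem ev_hom {F M : Type} [Field F] [Algebra ℂ F] [Field M] [Algebra ℂ M] (e : F →ₐ[ℂ] M)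
    {d : ℕ} (g : Lau d) (y : Fin d → F) : ev g (fun j => e (y j)) = e (ev g y) := by
  unfold ev mon
  rw [map_sum]
  refine Finset.sum_congr rfl fun χ _ => ?_
  rw [map_mul, map_prod, AlgHom.commutes]
  simp only [map_zpow₀]

/-- the value of a Laurent polynomial in the base variables -/
theorem ev_base {F : Type} [Field F] [Algebra ℂ F] {dB r : ℕ} (g : Lau (dB + r))
    (hg : ∀ χ ∈ g.support, ∀ k : Fin r, χ (Fin.natAdd dB k) = 0) (y y' : Fin (dB + r) → F)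
    (h : ∀ j : Fin dB, y (Fin.castAdd r j) = y' (Fin.castAdd r j)) : ev g y = ev g y' := by
  unfold ev mon
  refine Finset.sum_congr rfl fun χ hχ => ?_
  congr 1
  rw [Fin.prod_univ_add, Fin.prod_univ_add]
  congr 1
  · exact Finset.prod_congr rfl fun j _ => by rw [h j]
  · exact Finset.prod_congr rfl fun j _ => by rw [hg χ hχ j, zpow_zero, zpow_zero]

variable {K : Type} [Field K] [Algebra ℂ K] {n dB r : ℕ} {B Q : Type} [Fintype B] [Fintype Q]
  {x : Fin (dB + r) → K} {f : B ⊕ Q → Lau (dB + r)} {V : Type} [Fintype V]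

/-- the index set of the factors -/
abbrev Wt (V : Type) (d : ℕ) : Type := V ⊕ (Fin d ⊕ Fin d)

/-- the exponents -/
def ce {V : Type} {dB r : ℕ} (ray : V → Fin r → ℤ) : Wt V (dB + r) → Fin (dB + r) → ℤ
  | Sum.inl v => fibv (ray v)
  | Sum.inr (Sum.inl l) => fun j => if j = l then 1 else 0
  | Sum.inr (Sum.inr l) => fun j => if j = l then -1 else 0

/-- products over the index set -/
theorem prod_ce {F : Type} [Field F] (ray : V → Fin r → ℤ) (y : Wt V (dB + r) → F)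
    (l : Fin (dB + r)) : ∏ w, y w ^ ce ray w l =
      (∏ v, y (Sum.inl v) ^ (fibv (ray v) : Fin (dB + r) → ℤ) l) *
        (y (Sum.inr (Sum.inl l)) / y (Sum.inr (Sum.inr l))) := by
  rw [Fintype.prod_sum_type, Fintype.prod_sum_type]
  congr 1
  have h1 : ∏ j, y (Sum.inr (Sum.inl j)) ^ ce ray (Sum.inr (Sum.inl j)) l =
      y (Sum.inr (Sum.inl l)) := by
    rw [Finset.prod_eq_single l]
    · simp only [ce, if_true, zpow_one]
    · intro j _ hj
      simp only [ce]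
      rw [if_neg (Ne.symm hj), zpow_zero]
    · intro h
      exact absurd (Finset.mem_univ _) h
  have h2 : ∏ j, y (Sum.inr (Sum.inr j)) ^ ce ray (Sum.inr (Sum.inr j)) l =
      (y (Sum.inr (Sum.inr l)))⁻¹ := by
    rw [Finset.prod_eq_single l]
    · simp only [ce, if_true, zpow_neg, zpow_one]
    · intro j _ hj
      simp only [ce]
      rw [if_neg (Ne.symm hj), zpow_zero]
    · intro h
      exact absurd (Finset.mem_univ _) h
  rw [h1, h2, div_eq_mul_inv]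

/-- the weights -/
def me {V : Type} {d : ℕ} (m : V → ℕ) : Wt V d → ℕ
  | Sum.inl v => 2 * m v
  | Sum.inr _ => 0

omit [Fintype B] [Fintype Q] in
theorem sum_me {ray : V → Fin r → ℤ} {m : V → ℕ} (hm : (coxF f ray).Rel fun v => (m v : ℤ))
    (l : Fin (dB + r)) : ∑ w, ce ray w l * (me m w : ℤ) = 0 := by
  rw [Fintype.sum_sum_type]
  have h1 : ∑ w : Fin (dB + r) ⊕ Fin (dB + r), ce ray (Sum.inr w) l *
      ((me m (Sum.inr w) : ℕ) : ℤ) = 0 := Finset.sum_eq_zero fun w _ => by simp [me]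
  rw [h1, add_zero]
  have h2 : ∀ v, ce ray (Sum.inl v) l * ((me (d := dB + r) m (Sum.inl v) : ℕ) : ℤ) =
      2 * ((fibv (ray v) : Fin (dB + r) → ℤ) l * m v) := by
    intro v
    simp only [ce, me]
    push_cast
    ring
  rw [Finset.sum_congr rfl fun v _ => h2 v, ← Finset.mul_sum]
  have h3 := hm l
  change ∑ v, (fibv (ray v) : Fin (dB + r) → ℤ) l * (m v : ℤ) = 0 at h3
  rw [h3, mul_zero]

section data

variable {F M : Type} [Field F] [Algebra ℂ F] [Field M] [Algebra ℂ M] (iF : F →ₐ[ℂ] M)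
  (X : Fin (dB + r) → RatFunc F) (Y : V → (PowerSeries M)[X])

/-- the factors -/
noncomputable def Ye : Wt V (dB + r) → (PowerSeries M)[X]
  | Sum.inl v => Y v
  | Sum.inr (Sum.inl l) => up ((X l).num.map (iF : F →+* M))
  | Sum.inr (Sum.inr l) => up ((X l).denom.map (iF : F →+* M))

/-- the factors after the expansion at `a` -/
noncomputable def Ze (Z : V → (PowerSeries M)[X]) (a : M) : Wt V (dB + r) → (PowerSeries M)[X]
  | Sum.inl v => Z v
  | Sum.inr (Sum.inl l) => ex a (up ((X l).num.map (iF : F →+* M)))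
  | Sum.inr (Sum.inr l) => ex a (up ((X l).denom.map (iF : F →+* M)))

omit [Fintype V] in
theorem ex_Ye {m : V → ℕ} {Z : V → (PowerSeries M)[X]} {a : M}
    (h : ∀ v, ex a (Y v) = eps M ^ (2 * m v) * Z v) (w : Wt V (dB + r)) :
    ex a (Ye iF X Y w) = eps M ^ me m w * Ze iF X Z a w := by
  rcases w with v | l | l
  · exact h v
  · simp only [Ye, Ze, me, pow_zero, one_mul]
  · simp only [Ye, Ze, me, pow_zero, one_mul]

variable (E : RatFunc F →ₐ[ℂ] M) (hE : ∀ c, E (RatFunc.C c) = iF c) (hX : ∀ l, X l ≠ 0)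

include hE in
theorem red_num (p : F[X]) : red (ex (E RatFunc.X) (up (p.map (iF : F →+* M)))) =
    C (E (algebraMap F[X] (RatFunc F) p)) := by
  rw [red_ex, red_up, eval_hom iF E hE]

omit [Fintype V] in
include hE hX in
theorem red_Ze {m : V → ℕ} {Z : V → (PowerSeries M)[X]} {c : M} (hc : c ≠ 0) {T : V → M[X]}
    (hT : ∀ v, T v ≠ 0)
    (hZ : ∀ v, red (Z v) = C (c ^ (2 * m v)) * (T v).comp (Polynomial.X ^ 2))
    (w : Wt V (dB + r)) : red (Ze iF X Z (E RatFunc.X) w) ≠ 0 := by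
  rcases w with v | l | l
  · simp only [Ze]
    rw [hZ]
    refine mul_ne_zero (C_ne_zero.2 (pow_ne_zero _ hc)) ?_
    intro h
    rw [comp_eq_zero_iff] at h
    rcases h with h | ⟨_, h⟩
    · exact hT v h
    · have := congrArg natDegree h
      rw [natDegree_X_pow, natDegree_C] at this
      exact two_ne_zero this
  · simp only [Ze]
    rw [red_num iF E hE, Ne, C_eq_zero, map_eq_zero]
    exact Spz.alg_ne (RatFunc.num_ne_zero (hX l))
  · simp only [Ze]
    rw [red_num iF E hE, Ne, C_eq_zero, map_eq_zero]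
    exact Spz.alg_ne (X l).denom_ne_zero

omit [Fintype B] [Fintype Q] in
include hE in
/-- the reduced point -/
theorem prod_Ze {ray : V → Fin r → ℤ} {m : V → ℕ}
    (hm : (coxF f ray).Rel fun v => (m v : ℤ)) {Z : V → (PowerSeries M)[X]} {c : M}
    (hc : c ≠ 0) {T : V → M[X]}
    (hZ : ∀ v, red (Z v) = C (c ^ (2 * m v)) * (T v).comp (Polynomial.X ^ 2))
    (l : Fin (dB + r)) :
    ∏ w, algebraMap M[X] (RatFunc M) (red (Ze iF X Z (E RatFunc.X) w)) ^ ce ray w l =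
      RatFunc.C (E (X l)) * ∏ v, algebraMap M[X] (RatFunc M) ((T v).comp (Polynomial.X ^ 2)) ^
        (fibv (ray v) : Fin (dB + r) → ℤ) l := by
  classical
  rw [prod_ce ray (fun w => algebraMap M[X] (RatFunc M) (red (Ze iF X Z (E RatFunc.X) w))) l]
  simp only [Ze]
  rw [red_num iF E hE, red_num iF E hE, RatFunc.algebraMap_C, RatFunc.algebraMap_C, ← map_div₀,
    ← map_div₀, RatFunc.num_div_denom, mul_comm]
  congr 1
  have hCc : (RatFunc.C c : RatFunc M) ≠ 0 := by rwa [Ne, map_eq_zero]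
  have h1 : ∀ v, algebraMap M[X] (RatFunc M) (red (Z v)) ^
      (fibv (ray v) : Fin (dB + r) → ℤ) l =
      RatFunc.C c ^ (2 * ((fibv (ray v) : Fin (dB + r) → ℤ) l * m v)) *
        algebraMap M[X] (RatFunc M) ((T v).comp (Polynomial.X ^ 2)) ^
          (fibv (ray v) : Fin (dB + r) → ℤ) l := by
    intro v
    rw [hZ, map_mul, mul_zpow, RatFunc.algebraMap_C, map_pow, ← zpow_natCast, ← zpow_mul]
    congr 2
    push_cast
    ring
  rw [Finset.prod_congr rfl fun v _ => h1 v, Finset.prod_mul_distrib]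
  have h2 : ∀ s : Finset V, ∏ v ∈ s, (RatFunc.C c : RatFunc M) ^
      (2 * ((fibv (ray v) : Fin (dB + r) → ℤ) l * m v)) =
      RatFunc.C c ^ (2 * ∑ v ∈ s, (fibv (ray v) : Fin (dB + r) → ℤ) l * m v) := by
    intro s
    induction s using Finset.induction_on with
    | empty => simp
    | insert a s ha ih =>
      rw [Finset.prod_insert ha, Finset.sum_insert ha, ih, mul_add, zpow_add₀ hCc]
  have h3 := hm l
  change ∑ v, (fibv (ray v) : Fin (dB + r) → ℤ) l * (m v : ℤ) = 0 at h3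
  rw [h2, h3, mul_zero, zpow_zero, one_mul]

end data

section sect

variable {F M L : Type} [Field F] [Algebra ℂ F] [Field M] [Algebra ℂ M] [Field L] [Algebra ℂ L]
  (iF : F →ₐ[ℂ] M) (X : Fin (dB + r) → RatFunc F) (Y : V → (PowerSeries M)[X])
  (g : PowerSeries M →+* L) (θ : F →ₐ[ℂ] L)
  (hθ : ∀ c, θ c = g (PowerSeries.C (iF c)))

include hθ in
theorem map_up (p : F[X]) : (up (p.map (iF : F →+* M))).map g = p.map (θ : F →+* L) := by
  unfold up
  rw [coe_mapRingHom, Polynomial.map_map, Polynomial.map_map]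
  congr 1
  refine RingHom.ext fun c => ?_
  exact (hθ c).symm

include hθ in
/-- the section -/
theorem prod_Ye {ray : V → Fin r → ℤ} (l : Fin (dB + r)) :
    ∏ w, algebraMap L[X] (RatFunc L) ((Ye iF X Y w).map g) ^ ce ray w l =
      rmapA θ (X l) * ∏ v, algebraMap L[X] (RatFunc L) ((Y v).map g) ^
        (fibv (ray v) : Fin (dB + r) → ℤ) l := by
  rw [prod_ce ray (fun w => algebraMap L[X] (RatFunc L) ((Ye iF X Y w).map g)) l]
  simp only [Ye]
  rw [map_up iF g θ hθ, map_up iF g θ hθ, mul_comm]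
  congr 1
  conv_rhs => rw [← RatFunc.num_div_denom (X l)]
  rw [map_div₀, rmapA_apply, rmapA_apply, rmap_algebraMap, rmap_algebraMap]

include hθ in
/-- the section lies on the complete intersection -/
theorem ev_sect (T : Tot n dB r B Q x f) (ray : V → Fin r → ℤ) (hY0 : ∀ v, (Y v).map g ≠ 0)
    (hB : ∀ q : B, ev (f (Sum.inl q)) X = 0) {a : Q → (Fin (dB + r) → ℤ) → F[X]} {den : Q → F[X]}
    (hden : ∀ q, den q ≠ 0)
    (ha : ∀ q, ∀ χ ∈ (f (Sum.inr q)).support, algebraMap F[X] (RatFunc F) (a q χ) =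
      algebraMap F[X] (RatFunc F) (den q) * cst (fun q => f (Sum.inr q)) X q χ)
    (hY : ∀ q, (coxF f ray).F
      (fun q χ => ((a q χ).map (iF : F →+* M)).map PowerSeries.C) q Y = 0) (q : B ⊕ Q) :
    ev (f q) (fun l => rmapA θ (X l) * ∏ v, algebraMap L[X] (RatFunc L) ((Y v).map g) ^
        (fibv (ray v) : Fin (dB + r) → ℤ) l) = 0 := by
  rcases q with q | q
  · rw [ev_base (f (Sum.inl q)) (T.base q) _ (fun l => rmapA θ (X l)) (fun j => ?_),
      ev_hom (rmapA θ), hB, map_zero]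
    have h1 : ∀ v, (fibv (ray v) : Fin (dB + r) → ℤ) (Fin.castAdd r j) = 0 := by
      intro v
      unfold fibv
      rw [Fin.append_left]
      rfl
    simp only [h1, zpow_zero, Finset.prod_const_one, mul_one]
  · have h1 := ev_prod (fun q => f (Sum.inr q)) (fun v => fibv (ray v))
      (fun l => rmapA θ (X l)) (fun v => algebraMap L[X] (RatFunc L) ((Y v).map g))
      (fun v => Spz.alg_ne (hY0 v)) q
    rw [h1]
    have h2 : (coxR (fun q => f (Sum.inr q)) fun v => (fibv (ray v) : Fin (dB + r) → ℤ)).F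
        (cst (fun q => f (Sum.inr q)) fun l => rmapA θ (X l)) q
        (fun v => algebraMap L[X] (RatFunc L) ((Y v).map g)) = 0 := by
      have h3 := congrArg (fun z => algebraMap L[X] (RatFunc L) (Polynomial.map g z)) (hY q)
      simp only [Polynomial.map_zero, map_zero] at h3
      rw [← F_map_poly' g, Cox.F_map] at h3
      have hd : rmapA θ (algebraMap F[X] (RatFunc F) (den q)) ≠ 0 :=
        (_root_.map_ne_zero _).2 (Spz.alg_ne (hden q))
      refine (mul_eq_zero.1 (Eq.trans ?_ h3)).resolve_left hd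
      rw [ Cox.F_eq, Cox.F_eq, Finset.mul_sum]
      refine Finset.sum_congr rfl fun χ hχ => ?_
      rw [← mul_assoc]
      congr 1
      have h4 : ((a q χ).map (iF : F →+* M)).map (PowerSeries.C (R := M)) =
          up ((a q χ).map (iF : F →+* M)) := rfl
      rw [h4, map_up iF g θ hθ, ← rmap_algebraMap, ha q χ hχ, map_mul, cst_map (rmapA θ)]
      rfl
    rw [h2, mul_zero]

end sect

end CombPair

open CombPair

variable {K : Type} [Field K] [Algebra ℂ K] {n dB r : ℕ} {B Q : Type} [Fintype B] [Fintype Q]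
  {x : Fin (dB + r) → K} {f : B ⊕ Q → Lau (dB + r)} {V : Type} [Fintype V] [DecidableEq V]

omit [DecidableEq V] in
/-- item (9) of note 3488, over a field `L` containing the power series -/
theorem comb_pair_core (T : Tot n dB r B Q x f) (ray : V → Fin r → ℤ) {F M L : Type} [Field F]
    [Algebra ℂ F] [Field M] [Algebra ℂ M] [Field L] [Algebra ℂ L] (g : PowerSeries M →+* L)
    (hg : Function.Injective g)
    (hC : ∀ c : ℂ, g (PowerSeries.C (algebraMap ℂ M c)) = algebraMap ℂ L c)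
    (iF : F →ₐ[ℂ] M) (X : Fin (dB + r) → RatFunc F) (hX : ∀ l, X l ≠ 0)
    (hB : ∀ q : B, ev (f (Sum.inl q)) X = 0) {a : Q → (Fin (dB + r) → ℤ) → F[X]} {den : Q → F[X]}
    (hden : ∀ q, den q ≠ 0)
    (ha : ∀ q, ∀ χ ∈ (f (Sum.inr q)).support, algebraMap F[X] (RatFunc F) (a q χ) =
      algebraMap F[X] (RatFunc F) (den q) * cst (fun q => f (Sum.inr q)) X q χ)
    {m : V → ℕ} (hm : (coxF f ray).Rel fun v => (m v : ℤ)) (Y : V → (PowerSeries M)[X])
    (hY : ∀ q, (coxF f ray).F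
      (fun q χ => ((a q χ).map (iF : F →+* M)).map PowerSeries.C) q Y = 0)
    (E₁ E₂ : RatFunc F →ₐ[ℂ] M) (hE₁ : ∀ c, E₁ (RatFunc.C c) = iF c)
    (hE₂ : ∀ c, E₂ (RatFunc.C c) = iF c) (T₁ T₂ : V → M[X]) (hT₁ : ∀ v, T₁ v ≠ 0)
    (hT₂ : ∀ v, T₂ v ≠ 0)
    (hY₁ : ∃ c : M, c ≠ 0 ∧ ∀ v, ∃ Z, ex (E₁ RatFunc.X) (Y v) = eps M ^ (2 * m v) * Z ∧
      red Z = Polynomial.C (c ^ (2 * m v)) * (T₁ v).comp (Polynomial.X ^ 2))
    (hY₂ : ∃ c : M, c ≠ 0 ∧ ∀ v, ∃ Z, ex (E₂ RatFunc.X) (Y v) = eps M ^ (2 * m v) * Z ∧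
      red Z = Polynomial.C (c ^ (2 * m v)) * (T₂ v).comp (Polynomial.X ^ 2))
    (p₀ q₀ : K →ₐ[ℂ] RatFunc M)
    (hp₀ : ∀ l, p₀ (x l) = RatFunc.C (E₁ (X l)) *
      ∏ v, algebraMap M[X] (RatFunc M) ((T₁ v).comp (Polynomial.X ^ 2)) ^
        (fibv (ray v) : Fin (dB + r) → ℤ) l)
    (hq₀ : ∀ l, q₀ (x l) = RatFunc.C (E₂ (X l)) *
      ∏ v, algebraMap M[X] (RatFunc M) ((T₂ v).comp (Polynomial.X ^ 2)) ^
        (fibv (ray v) : Fin (dB + r) → ℤ) l)
    (h : Indep2 ((CA M).comp p₀) ((psiA M).comp q₀)) :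
    ∃ ψ : K →ₐ[ℂ] RatFunc L, (∀ l, ψ (x l) = rmap (g.comp ((PowerSeries.C (R := M)).comp
        (iF : F →+* M))) (X l) * ∏ v, algebraMap L[X] (RatFunc L) ((Y v).map g) ^
          (fibv (ray v) : Fin (dB + r) → ℤ) l) ∧
      Indep2 ((CA L).comp ψ) ((psiA L).comp ψ) := by
  classical
  let θ : F →ₐ[ℂ] L :=
    { g.comp ((PowerSeries.C (R := M)).comp (iF : F →+* M)) with
      commutes' := fun c => by
        change g (PowerSeries.C (iF (algebraMap ℂ F c))) = _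
        rw [iF.commutes, hC] }
  have hθ : ∀ c, θ c = g (PowerSeries.C (iF c)) := fun c => rfl
  obtain ⟨c₁, hc₁, h₁⟩ := hY₁
  choose Z₁ hZ₁ hr₁ using h₁
  obtain ⟨c₂, hc₂, h₂⟩ := hY₂
  choose Z₂ hZ₂ hr₂ using h₂
  have hY0 : ∀ v, (Y v).map g ≠ 0 := by
    intro v h0
    rw [Polynomial.map_eq_zero_iff hg] at h0
    have h3 := red_Ze (V := V) iF X E₁ hE₁ hX hc₁ hT₁ hr₁ (Sum.inl v)
    have h4 := hZ₁ v
    rw [h0, map_zero] at h4
    have h5 := (mul_eq_zero.1 h4.symm).resolve_left (pow_ne_zero _ eps_ne_zero)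
    apply h3
    change red (Z₁ v) = 0
    rw [h5, map_zero]
  have hev : ∀ q, ev (f q) (fun l => ∏ w, algebraMap L[X] (RatFunc L)
      ((Ye iF X Y w).map g) ^ ce ray w l) = 0 := by
    intro q
    simp only [prod_Ye iF X Y g θ hθ]
    exact ev_sect iF X Y g θ hθ T ray hY0 hB hden ha hY q
  obtain ⟨ψ, hψ⟩ := spz_ps T.data g hg hC (ce ray) (Ye iF X Y) (Ze iF X Z₁ (E₁ RatFunc.X))
    (E₁ RatFunc.X) (me m) (ex_Ye iF X Y hZ₁) (red_Ze iF X E₁ hE₁ hX hc₁ hT₁ hr₁) (sum_me hm)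
    hev p₀ (fun l => by rw [hp₀, prod_Ze iF X E₁ hE₁ hm hc₁ hr₁])
  refine ⟨ψ, fun l => ?_, ?_⟩
  · rw [hψ, prod_Ye iF X Y g θ hθ]
    rfl
  · exact indep2_ps x T.data.gen g hg hC (ce ray) (Ye iF X Y) (Ze iF X Z₁ (E₁ RatFunc.X))
      (Ze iF X Z₂ (E₂ RatFunc.X)) (E₁ RatFunc.X) (E₂ RatFunc.X) (me m) (me m)
      (ex_Ye iF X Y hZ₁) (ex_Ye iF X Y hZ₂) (red_Ze iF X E₁ hE₁ hX hc₁ hT₁ hr₁)
      (red_Ze iF X E₂ hE₂ hX hc₂ hT₂ hr₂) (sum_me hm) (sum_me hm) ψ hψ p₀ q₀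
      (fun l => by rw [hp₀, prod_Ze iF X E₁ hE₁ hm hc₁ hr₁])
      (fun l => by rw [hq₀, prod_Ze iF X E₂ hE₂ hm hc₂ hr₂]) h

/-- item (9) of note 3488 -/
theorem comb_pair (T : Tot n dB r B Q x f) (Δ : FanV V r) {F M : Type} [Field F]
    [Algebra ℂ F] [Field M] [Algebra ℂ M]
    (iF : F →ₐ[ℂ] M) (X : Fin (dB + r) → RatFunc F) (hX : ∀ l, X l ≠ 0)
    (hB : ∀ q : B, ev (f (Sum.inl q)) X = 0) {a : Q → (Fin (dB + r) → ℤ) → F[X]} {den : Q → F[X]}
    (hden : ∀ q, den q ≠ 0)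
    (ha : ∀ q, ∀ χ ∈ (f (Sum.inr q)).support, algebraMap F[X] (RatFunc F) (a q χ) =
      algebraMap F[X] (RatFunc F) (den q) * cst (fun q => f (Sum.inr q)) X q χ)
    {m : V → ℕ} (hm : (coxF f Δ.ray).Rel fun v => (m v : ℤ)) (Y : V → (PowerSeries M)[X])
    (hY : ∀ q, (coxF f Δ.ray).F
      (fun q χ => ((a q χ).map (iF : F →+* M)).map PowerSeries.C) q Y = 0)
    (E₁ E₂ : RatFunc F →ₐ[ℂ] M) (hE₁ : ∀ c, E₁ (RatFunc.C c) = iF c)
    (hE₂ : ∀ c, E₂ (RatFunc.C c) = iF c) (T₁ T₂ : V → M[X]) (hT₁ : ∀ v, T₁ v ≠ 0)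
    (hT₂ : ∀ v, T₂ v ≠ 0)
    (hY₁ : ∃ c : M, c ≠ 0 ∧ ∀ v, ∃ Z, ex (E₁ RatFunc.X) (Y v) = eps M ^ (2 * m v) * Z ∧
      red Z = Polynomial.C (c ^ (2 * m v)) * (T₁ v).comp (Polynomial.X ^ 2))
    (hY₂ : ∃ c : M, c ≠ 0 ∧ ∀ v, ∃ Z, ex (E₂ RatFunc.X) (Y v) = eps M ^ (2 * m v) * Z ∧
      red Z = Polynomial.C (c ^ (2 * m v)) * (T₂ v).comp (Polynomial.X ^ 2))
    (p₀ q₀ : K →ₐ[ℂ] RatFunc M)
    (hp₀ : ∀ l, p₀ (x l) = RatFunc.C (E₁ (X l)) *
      ∏ v, algebraMap M[X] (RatFunc M) ((T₁ v).comp (Polynomial.X ^ 2)) ^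
        (fibv (Δ.ray v) : Fin (dB + r) → ℤ) l)
    (hq₀ : ∀ l, q₀ (x l) = RatFunc.C (E₂ (X l)) *
      ∏ v, algebraMap M[X] (RatFunc M) ((T₂ v).comp (Polynomial.X ^ 2)) ^
        (fibv (Δ.ray v) : Fin (dB + r) → ℤ) l)
    (h : Indep2 ((CA M).comp p₀) ((psiA M).comp q₀)) :
    ∃ (L : Type) (_ : Field L) (_ : Algebra ℂ L) (ψ : K →ₐ[ℂ] RatFunc L),
      Indep2 ((CA L).comp ψ) ((psiA L).comp ψ) := by
  let g : PowerSeries M →+* Om M := psO M
  have hg : Function.Injective g :=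
    (RingHom.injective (algebraMap (LaurentSeries M) (Om M))).comp
      HahnSeries.ofPowerSeries_injective
  let alg : Algebra ℂ (Om M) := (g.comp ((PowerSeries.C (R := M)).comp (algebraMap ℂ M))).toAlgebra
  obtain ⟨ψ, _, hψ⟩ := comb_pair_core T Δ.ray g hg (fun c => rfl) iF X hX hB hden ha hm Y hY
    E₁ E₂ hE₁ hE₂ T₁ T₂ hT₁ hT₂ hY₁ hY₂ p₀ q₀ hp₀ hq₀ h
  exact ⟨Om M, inferInstance, alg, ψ, hψ⟩

end Pool.Agent.Work.WRC
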