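import Mathlib
import Pool.Agent.Work.MP_4329d7_ag_wrc.CombPair
import Pool.Agent.Work.MP_4329d7_ag_wrc.RelDefs

/-!
W-RC, relative version (R1): `prc_of_pairR`, `comb_pairR`.

`Dom p q p' q'`: all independent families of values of the pair `(p', q')` are independent for the
pair `(p, q)`.
-/

namespace Pool.Agent.Work.WRC

open Polynomial Pool.Agent.Work.CI Pool.Agent.Work.CW Pool.Agent.Work.MP_4329d7_ag_sq

namespace RelPair

/-- the Moebius transformation `s₂ = s₁ + 1 / s` -/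
theorem exists_moebius (L : Type) [Field L] [Algebra ℂ L] :
    ∃ μ : RatFunc (RatFunc L) →ₐ[ℂ] RatFunc (RatFunc L),
      (∀ z, μ (RatFunc.C z) = RatFunc.C z) ∧ ∀ z, Inf (μ (psi L z)) z := by
  classical
  -- the Moebius transformation
  let s : RatFunc L := RatFunc.X
  let μ : RatFunc (RatFunc L) →+* RatFunc (RatFunc L) :=
    rlift (RatFunc.C : RatFunc L →+* RatFunc (RatFunc L)) (RatFunc.C s + RatFunc.X⁻¹)
      (PrcPair.moebius_ne s)
  have hμC : ∀ c, μ (RatFunc.C c) = RatFunc.C c := fun c => rlift_C _ _ _ c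
  have hμX : μ RatFunc.X = RatFunc.C s + RatFunc.X⁻¹ := rlift_X _ _ _
  let μA : RatFunc (RatFunc L) →ₐ[ℂ] RatFunc (RatFunc L) :=
    { μ with
      commutes' := fun c => by
        change μ (algebraMap ℂ (RatFunc (RatFunc L)) c) = _
        rw [algebraMap_ratFunc, hμC] }
  have hμA : ∀ z, μA z = μ z := fun z => rfl
  -- the value at infinity
  have hXinf : Inf (RatFunc.X⁻¹ : RatFunc (RatFunc L)) 0 := by
    refine ⟨1, X, X_ne_zero, ?_, ?_, ?_⟩
    · rw [natDegree_one]; exact Nat.zero_le _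
    · rw [natDegree_X, coeff_one, if_neg one_ne_zero, zero_mul]
    · rw [map_one, RatFunc.algebraMap_X, one_div]
  have hs : Inf (RatFunc.C s + RatFunc.X⁻¹ : RatFunc (RatFunc L)) s := by
    have := (Inf.const s).add hXinf
    rwa [add_zero] at this
  have hpoly : ∀ p : L[X], Inf (μ (psi L (algebraMap L[X] (RatFunc L) p)))
      (algebraMap L[X] (RatFunc L) p) := by
    intro p
    induction p using Polynomial.induction_on' with
    | add p q hp hq => simp only [map_add]; exact hp.add hq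
    | monomial n a =>
      rw [← C_mul_X_pow_eq_monomial]
      simp only [map_mul, map_pow, RatFunc.algebraMap_C, RatFunc.algebraMap_X]
      have h1 : psi L (RatFunc.C a) = RatFunc.C (RatFunc.C a) := rmap_C _ a
      have h2 : psi L RatFunc.X = RatFunc.X := rmap_X _
      rw [h1, h2, hμC, hμX]
      exact (Inf.const _).mul (hs.pow n)
  have hinf : ∀ z : RatFunc L, Inf (μ (psi L z)) z := by
    intro z
    have h1 : z = algebraMap L[X] (RatFunc L) z.num / algebraMap L[X] (RatFunc L) z.denom :=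
      (RatFunc.num_div_denom z).symm
    rw [h1, map_div₀, map_div₀]
    have h2 := (hpoly z.denom).inv (Spz.alg_ne z.denom_ne_zero)
    have h3 := (hpoly z.num).mul h2
    rwa [← div_eq_mul_inv, ← div_eq_mul_inv] at h3
  exact ⟨μA, hμC, hinf⟩

/-- independent families of values of `(p', q')` are independent for `(p, q)` -/
def Dom {K L L' : Type} [Field K] [Algebra ℂ K] [Field L] [Algebra ℂ L] [Field L'] [Algebra ℂ L']
    (p q : K →ₐ[ℂ] L) (p' q' : K →ₐ[ℂ] L') : Prop :=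
  ∀ (σ : Type) (y : σ → K ⊕ K),
    AlgebraicIndependent ℂ (fun s => Sum.elim (fun z => p' z) (fun z => q' z) (y s)) →
      AlgebraicIndependent ℂ (fun s => Sum.elim (fun z => p z) (fun z => q z) (y s))

theorem Dom.indep {A K L L' : Type} [Field A] [Algebra ℂ A] [Field K] [Algebra ℂ K] [Field L]
    [Algebra ℂ L] [Field L'] [Algebra ℂ L'] {lam : A →ₐ[ℂ] K} {p q : K →ₐ[ℂ] L}
    {p' q' : K →ₐ[ℂ] L'} (h : Dom p q p' q') (hpq : ∀ a, p (lam a) = q (lam a))
    (h' : Indep2R lam p' q') : Indep2R lam p q := by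
  obtain ⟨_, J, I, _, _, z, x, hz, hx, hai⟩ := h'
  refine ⟨hpq, J, I, inferInstance, inferInstance, z, x, hz, hx, ?_⟩
  have h1 := h (J ⊕ (I ⊕ I)) (Sum.elim (fun j => Sum.inl (lam (z j)))
    (Sum.elim (fun i => Sum.inl (x i)) (fun i => Sum.inr (x i)))) (by
      convert hai using 1
      funext s
      rcases s with j | i | i <;> rfl)
  convert h1 using 1
  funext s
  rcases s with j | i | i <;> rfl

theorem Dom.of_comp {K L L' M : Type} [Field K] [Algebra ℂ K] [Field L] [Algebra ℂ L] [Field L']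
    [Algebra ℂ L'] [Field M] [Algebra ℂ M] (τ : L →ₐ[ℂ] M) {p q : K →ₐ[ℂ] L}
    {p' q' : K →ₐ[ℂ] L'} (h : Dom (τ.comp p) (τ.comp q) p' q') : Dom p q p' q' := by
  intro σ y hy
  refine AlgebraicIndependent.of_comp τ ?_
  convert h σ y hy using 1
  funext s
  simp only [Function.comp_apply]
  rcases y s with z | z <;> rfl

theorem dom_of_plc {K L κ : Type} [Field K] [Algebra ℂ K] [Field L] [Field κ] [Algebra ℂ L]
    [Algebra ℂ κ] (P : Plc L κ)
    (hC : ∀ c : ℂ, P.S (algebraMap ℂ L c) (algebraMap ℂ κ c)) {σ : Type} (x : σ → K)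
    (hx : IntermediateField.adjoin ℂ (Set.range x) = ⊤) (p q : K →ₐ[ℂ] L) (p' q' : K →ₐ[ℂ] κ)
    (hp : ∀ j, P.S (p (x j)) (p' (x j))) (hq : ∀ j, P.S (q (x j)) (q' (x j))) :
    Dom p q p' q' := by
  intro ρ y hy
  refine ai_of_plc P hC (fun s => ?_) hy
  rcases y s with z | z
  · exact PrcPair.plc_hom P hC x hx p p' hp z
  · exact PrcPair.plc_hom P hC x hx q q' hq z

/-- specialisation over a ring -/
theorem dom_of_red {K : Type} [Field K] [Algebra ℂ K] {A B₀ L L₀ : Type} [CommRing A]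
    [CommRing B₀] [Field L] [Algebra ℂ L]
    [Field L₀] [Algebra ℂ L₀] (red : A →+* B₀) (iA : A →+* L) (hA : Function.Injective iA)
    (iB : B₀ →+* L₀) (_hB : Function.Injective iB)
    (hC : ∀ c : ℂ, ∃ a : A, iA a = algebraMap ℂ L c ∧ iB (red a) = algebraMap ℂ L₀ c)
    {d : ℕ} (x : Fin d → K) (hx : IntermediateField.adjoin ℂ (Set.range x) = ⊤)
    (p q : K →ₐ[ℂ] L) (p₀ q₀ : K →ₐ[ℂ] L₀)
    (hp : ∀ j, ∃ a b : A, red b ≠ 0 ∧ p (x j) * iA b = iA a ∧ p₀ (x j) * iB (red b) = iB (red a))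
    (hq : ∀ j, ∃ a b : A, red b ≠ 0 ∧ q (x j) * iA b = iA a ∧ q₀ (x j) * iB (red b) = iB (red a)) :
    Dom p q p₀ q₀ := by
  obtain ⟨κ, _, _, g, P, hP⟩ := Spz.exists_plc' iA hA (iB.comp red)
  obtain ⟨_, ω, hω, hc⟩ := Spz.toAlgHom_exists (K := L₀) g
  have hPC : ∀ c : ℂ, P.S (algebraMap ℂ L c) (algebraMap ℂ κ c) := by
    intro c
    obtain ⟨r, h1, h2⟩ := hC c
    rw [← h1, hc, ← h2]
    exact hP r
  have key : ∀ (z : L) (z₀ : L₀), (∃ a b : A, red b ≠ 0 ∧ z * iA b = iA a ∧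
      z₀ * iB (red b) = iB (red a)) → P.S z (ω z₀) := by
    rintro z z₀ ⟨a, b, hb, h1, h2⟩
    have hgb0 : iB (red b) ≠ 0 := fun h0 => hb (_hB (by rw [h0, map_zero]))
    have hgb : g (iB (red b)) ≠ 0 := by rwa [Ne, map_eq_zero]
    have hιb : iA b ≠ 0 := P.ne_zero (hP b) hgb
    have h3 : z = iA a / iA b := by rw [← h1, mul_div_cancel_right₀ _ hιb]
    have h4 : ω z₀ = g (iB (red a)) / g (iB (red b)) := by
      rw [hω, ← h2, map_mul, mul_div_cancel_right₀ _ hgb]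
    rw [h3, h4]
    exact P.div (hP a) (hP b) hgb
  have h1 : Dom p q (ω.comp p₀) (ω.comp q₀) := dom_of_plc P hPC x hx p q (ω.comp p₀) (ω.comp q₀)
    (fun j => key _ _ (hp j)) (fun j => key _ _ (hq j))
  intro σ y hy
  refine h1 σ y ?_
  have h2 := hy.map' (f := ω) (RingHom.injective ω.toRingHom)
  convert h2 using 1
  funext s
  simp only [Function.comp_apply]
  rcases y s with z | z <;> rfl

/-- pairs of points given by products of polynomials over a ring -/
theorem dom_poly {K : Type} [Field K] [Algebra ℂ K] {d : ℕ} (x : Fin d → K)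
    (hx : IntermediateField.adjoin ℂ (Set.range x) = ⊤)
    {A k L : Type} [CommRing A] [Field k] [Field L] [Algebra ℂ k] [Algebra ℂ L]
    (π : A →+* k) (i : A →+* L) (hi : Function.Injective i)
    (hC : ∀ c : ℂ, ∃ r : A, π r = algebraMap ℂ k c ∧ i r = algebraMap ℂ L c)
    {W : Type} [Fintype W] (c c' : W → Fin d → ℤ) (Z Z' : W → A[X])
    (hZ : ∀ w, (Z w).map π ≠ 0) (hZ' : ∀ w, (Z' w).map π ≠ 0)
    (p q : K →ₐ[ℂ] RatFunc L) (p₀ q₀ : K →ₐ[ℂ] RatFunc k)
    (hp : ∀ j, p (x j) = ∏ w, algebraMap L[X] (RatFunc L) ((Z w).map i) ^ c w j)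
    (hq : ∀ j, q (x j) = ∏ w, algebraMap L[X] (RatFunc L) ((Z' w).map i) ^ c' w j)
    (hp₀ : ∀ j, p₀ (x j) = ∏ w, algebraMap k[X] (RatFunc k) ((Z w).map π) ^ c w j)
    (hq₀ : ∀ j, q₀ (x j) = ∏ w, algebraMap k[X] (RatFunc k) ((Z' w).map π) ^ c' w j) :
    Dom ((CA L).comp p) ((psiA L).comp q) ((CA k).comp p₀) ((psiA k).comp q₀) := by
  have hne : ∀ Z : A[X], Z.map π ≠ 0 → Z.map i ≠ 0 := by
    intro Z hZ h
    rw [Polynomial.map_eq_zero_iff hi] at h
    exact hZ (by rw [h, Polynomial.map_zero])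
  -- the maps of the polynomial ring in two variables
  let ρ : A[X][X] →+* k[X][X] := mapRingHom (mapRingHom π)
  let j2 : k[X][X] →+* RatFunc (RatFunc k) :=
    (algebraMap (RatFunc k)[X] (RatFunc (RatFunc k))).comp (mapRingHom
      (algebraMap k[X] (RatFunc k)))
  let π2 : A[X][X] →+* RatFunc (RatFunc k) := j2.comp ρ
  have hj2 : Function.Injective j2 :=
    (IsFractionRing.injective (RatFunc k)[X] (RatFunc (RatFunc k))).comp
      (Polynomial.map_injective _ (IsFractionRing.injective k[X] (RatFunc k)))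
  let ι2 : A[X][X] →+* RatFunc (RatFunc L) :=
    (algebraMap (RatFunc L)[X] (RatFunc (RatFunc L))).comp (mapRingHom
      ((algebraMap L[X] (RatFunc L)).comp (mapRingHom i)))
  have hinj1 : Function.Injective ((algebraMap L[X] (RatFunc L)).comp (mapRingHom i)) :=
    (IsFractionRing.injective L[X] (RatFunc L)).comp (Polynomial.map_injective i hi)
  have hinj2 : Function.Injective ι2 :=
    (IsFractionRing.injective (RatFunc L)[X] (RatFunc (RatFunc L))).comp
      (Polynomial.map_injective _ hinj1)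
  have hπC : ∀ Z : A[X], π2 (C Z) = RatFunc.C (algebraMap k[X] (RatFunc k) (Z.map π)) := by
    intro Z
    change algebraMap (RatFunc k)[X] (RatFunc (RatFunc k))
      (((C Z).map (mapRingHom π)).map (algebraMap k[X] (RatFunc k))) = _
    rw [map_C, map_C, RatFunc.algebraMap_C]
    rfl
  have hιC : ∀ Z : A[X], ι2 (C Z) = RatFunc.C (algebraMap L[X] (RatFunc L) (Z.map i)) := by
    intro Z
    change algebraMap (RatFunc L)[X] (RatFunc (RatFunc L)) ((C Z).map _) = _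
    rw [map_C, RatFunc.algebraMap_C]
    rfl
  have hπX : ∀ Z : A[X], π2 (Z.map C) = psi k (algebraMap k[X] (RatFunc k) (Z.map π)) := by
    intro Z
    change algebraMap (RatFunc k)[X] (RatFunc (RatFunc k))
      (((Z.map C).map (mapRingHom π)).map (algebraMap k[X] (RatFunc k))) = _
    unfold psi
    rw [rmap_algebraMap, Polynomial.map_map, Polynomial.map_map, Polynomial.map_map]
    congr 2
    refine RingHom.ext fun a => ?_
    change algebraMap k[X] (RatFunc k) ((C a).map π) = _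
    rw [map_C, RatFunc.algebraMap_C]
    rfl
  have hιX : ∀ Z : A[X], ι2 (Z.map C) = psi L (algebraMap L[X] (RatFunc L) (Z.map i)) := by
    intro Z
    change algebraMap (RatFunc L)[X] (RatFunc (RatFunc L)) ((Z.map C).map _) = _
    unfold psi
    rw [rmap_algebraMap, Polynomial.map_map, Polynomial.map_map]
    congr 2
    refine RingHom.ext fun a => ?_
    change algebraMap L[X] (RatFunc L) ((C a).map i) = _
    rw [map_C, RatFunc.algebraMap_C]
    rfl
  refine dom_of_red ρ ι2 hinj2 j2 hj2 (fun z => ?_) x hx _ _ _ _ (fun j => ?_) (fun j => ?_)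
  · obtain ⟨r, h1, h2⟩ := hC z
    refine ⟨C (C r), ?_, ?_⟩
    · rw [hιC, map_C, h2, RatFunc.algebraMap_C, algebraMap_ratFunc, algebraMap_ratFunc]
    · change π2 (C (C r)) = _
      rw [hπC, map_C, h1, RatFunc.algebraMap_C, algebraMap_ratFunc, algebraMap_ratFunc]
  · refine ⟨C (∏ w, Z w ^ (c w j).toNat), C (∏ w, Z w ^ (-c w j).toNat), ?_, ?_, ?_⟩
    · intro h0
      have h1 : π2 (C (∏ w, Z w ^ (-c w j).toNat)) = 0 := by
        change j2 (ρ _) = 0
        rw [h0, map_zero]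
      rw [hπC, map_eq_zero] at h1
      refine Spz.alg_ne ?_ h1
      rw [Polynomial.map_prod]
      refine Finset.prod_ne_zero_iff.2 fun w _ => ?_
      rw [Polynomial.map_pow]
      exact pow_ne_zero _ (hZ w)
    · change RatFunc.C (p (x j)) * ι2 _ = ι2 _
      rw [hιC, hιC, ← map_mul, hp]
      congr 1
      simp only [Polynomial.map_prod, Polynomial.map_pow, map_prod, map_pow]
      exact Spz.prod_zpow_eq (fun w => algebraMap L[X] (RatFunc L) ((Z w).map i))
        (fun w => Spz.alg_ne (hne _ (hZ w))) (fun w => c w j)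
    · change RatFunc.C (p₀ (x j)) * π2 _ = π2 _
      rw [hπC, hπC, ← map_mul, hp₀]
      congr 1
      simp only [Polynomial.map_prod, Polynomial.map_pow, map_prod, map_pow]
      exact Spz.prod_zpow_eq (fun w => algebraMap k[X] (RatFunc k) ((Z w).map π))
        (fun w => Spz.alg_ne (hZ w)) (fun w => c w j)
  · refine ⟨(∏ w, Z' w ^ (c' w j).toNat).map C, (∏ w, Z' w ^ (-c' w j).toNat).map C,
      ?_, ?_, ?_⟩
    · intro h0
      have h1 : π2 ((∏ w, Z' w ^ (-c' w j).toNat).map C) = 0 := by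
        change j2 (ρ _) = 0
        rw [h0, map_zero]
      rw [hπX, map_eq_zero] at h1
      refine Spz.alg_ne ?_ h1
      rw [Polynomial.map_prod]
      refine Finset.prod_ne_zero_iff.2 fun w _ => ?_
      rw [Polynomial.map_pow]
      exact pow_ne_zero _ (hZ' w)
    · change psi L (q (x j)) * ι2 _ = ι2 _
      rw [hιX, hιX, ← map_mul, hq]
      congr 1
      simp only [Polynomial.map_prod, Polynomial.map_pow, map_prod, map_pow]
      exact Spz.prod_zpow_eq (fun w => algebraMap L[X] (RatFunc L) ((Z' w).map i))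
        (fun w => Spz.alg_ne (hne _ (hZ' w))) (fun w => c' w j)
    · change psi k (q₀ (x j)) * π2 _ = π2 _
      rw [hπX, hπX, ← map_mul, hq₀]
      congr 1
      simp only [Polynomial.map_prod, Polynomial.map_pow, map_prod, map_pow]
      exact Spz.prod_zpow_eq (fun w => algebraMap k[X] (RatFunc k) ((Z' w).map π))
        (fun w => Spz.alg_ne (hZ' w)) (fun w => c' w j)

/-- pairs of points of a curve given by products of polynomials over the power series at two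
positions -/
theorem dom_ps {K : Type} [Field K] [Algebra ℂ K] {d : ℕ} (x : Fin d → K)
    (hx : IntermediateField.adjoin ℂ (Set.range x) = ⊤) {k L : Type} [Field k] [Field L]
    [Algebra ℂ k] [Algebra ℂ L] (g : PowerSeries k →+* L) (hg : Function.Injective g)
    (hC : ∀ c : ℂ, g (PowerSeries.C (algebraMap ℂ k c)) = algebraMap ℂ L c)
    {W : Type} [Fintype W] (c : W → Fin d → ℤ) (Y Z Z' : W → (PowerSeries k)[X]) (a a' : k)
    (m m' : W → ℕ) (hY : ∀ w, ex a (Y w) = eps k ^ m w * Z w)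
    (hY' : ∀ w, ex a' (Y w) = eps k ^ m' w * Z' w) (hZ : ∀ w, red (Z w) ≠ 0)
    (hZ' : ∀ w, red (Z' w) ≠ 0) (hm : ∀ j, ∑ w, c w j * m w = 0)
    (hm' : ∀ j, ∑ w, c w j * m' w = 0) (φ : K →ₐ[ℂ] RatFunc L)
    (hφ : ∀ j, φ (x j) = ∏ w, algebraMap L[X] (RatFunc L) ((Y w).map g) ^ c w j)
    (p₀ q₀ : K →ₐ[ℂ] RatFunc k)
    (hp₀ : ∀ j, p₀ (x j) = ∏ w, algebraMap k[X] (RatFunc k) (red (Z w)) ^ c w j)
    (hq₀ : ∀ j, q₀ (x j) = ∏ w, algebraMap k[X] (RatFunc k) (red (Z' w)) ^ c w j) :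
    Dom ((CA L).comp φ) ((psiA L).comp φ) ((CA k).comp p₀) ((psiA k).comp q₀) := by
  classical
  have he0 : g PowerSeries.X ≠ 0 := by
    intro h
    exact PowerSeries.X_ne_zero (hg (by rw [map_zero]; exact h))
  obtain ⟨σ, hσC, _, hσ⟩ := PrcPair.exists_subst g hg a
  obtain ⟨σ', hσC', hσX', hσ'⟩ := PrcPair.exists_subst g hg a'
  obtain ⟨τ, hτ1, hτ2⟩ := PrcPair.exists_subst2 σ hσC σ' hσC' _ _ he0 hσX'
  have h1 : Dom ((CA L).comp (σ.comp φ)) ((psiA L).comp (σ'.comp φ)) ((CA k).comp p₀)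
      ((psiA k).comp q₀) :=
    dom_poly x hx (PowerSeries.constantCoeff (R := k)) g hg (fun z =>
      ⟨PowerSeries.C (algebraMap ℂ k z), by simp, hC z⟩) c c Z Z' hZ hZ' _ _ p₀ q₀
      (fun j => by
        change σ (φ (x j)) = _
        rw [hφ, hσ (fun w => c w j) Y Z m hY (hm j)])
      (fun j => by
        change σ' (φ (x j)) = _
        rw [hφ, hσ' (fun w => c w j) Y Z' m' hY' (hm' j)])
      hp₀ hq₀
  refine Dom.of_comp τ ?_
  have h2 : τ.comp ((CA L).comp φ) = (CA L).comp (σ.comp φ) := AlgHom.ext fun z => hτ1 (φ z)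
  have h3 : τ.comp ((psiA L).comp φ) = (psiA L).comp (σ'.comp φ) :=
    AlgHom.ext fun z => hτ2 (φ z)
  rw [h2, h3]
  exact h1

end RelPair

open RelPair

/-- A section whose two general points are independent over `A` gives `PRCR`. -/
theorem prc_of_pairR {A K : Type} [Field A] [Algebra ℂ A] [Field K] [Algebra ℂ K]
    (lam : A →ₐ[ℂ] K) {F : Type} [Field F] [Algebra ℂ F] (ψ : K →ₐ[ℂ] RatFunc F)
    (h : Indep2R lam ((CA F).comp ψ) ((psiA F).comp ψ)) : PRCR lam := by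
  obtain ⟨μ, hμC, hμ⟩ := exists_moebius F
  let e : RatFunc F →ₐ[ℂ] AlgebraicClosure (RatFunc F) :=
    IsScalarTower.toAlgHom ℂ (RatFunc F) (AlgebraicClosure (RatFunc F))
  let τ : RatFunc (RatFunc F) →ₐ[ℂ] RatFunc (AlgebraicClosure (RatFunc F)) := (rmapA e).comp μ
  have hτC : ∀ z, τ (RatFunc.C z) = RatFunc.C (e z) := by
    intro z
    change rmapA e (μ (RatFunc.C z)) = _
    rw [hμC, rmapA_apply, rmap_C]
    rfl
  refine ⟨AlgebraicClosure (RatFunc F), inferInstance, inferInstance, inferInstance,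
    e.comp ψ, τ.comp ((psiA F).comp ψ), fun y => ?_, fun a => ?_, ?_⟩
  · exact (hμ (ψ y)).map (e : RatFunc F →+* AlgebraicClosure (RatFunc F))
  · have h1 := congrArg τ (h.1 a)
    change RatFunc.C (e (ψ (lam a))) = τ (psiA F (ψ (lam a)))
    rw [← hτC]
    exact h1
  · obtain ⟨J, I, _, _, z, x, hz, hx, hai⟩ := h.2
    refine ⟨J, I, inferInstance, inferInstance, z, x, hz, hx, ?_⟩
    have h1 := hai.map' (f := τ) (RingHom.injective τ.toRingHom)
    have h2 : Sum.elim (fun j => ((cK (AlgebraicClosure (RatFunc F))).comp (e.comp ψ)) (lam (z j)))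
        (Sum.elim (fun i => ((cK (AlgebraicClosure (RatFunc F))).comp (e.comp ψ)) (x i))
          (fun i => (τ.comp ((psiA F).comp ψ)) (x i))) =
        τ ∘ Sum.elim (fun j => ((CA F).comp ψ) (lam (z j)))
          (Sum.elim (fun i => ((CA F).comp ψ) (x i)) fun i => ((psiA F).comp ψ) (x i)) := by
      funext s
      rcases s with j | i | i
      · exact (hτC _).symm
      · exact (hτC _).symm
      · rfl
    rw [h2]
    exact h1

section comb

open CombPair

variable {A K : Type} [Field A] [Algebra ℂ A] [Field K] [Algebra ℂ K] {n dB r : ℕ} {B Q : Type}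
  [Fintype B] [Fintype Q] {x : Fin (dB + r) → K} {f : B ⊕ Q → Lau (dB + r)} {V : Type} [Fintype V]

/-- homomorphisms of the base field -/
theorem RelPair.hom_base {L : Type} [Field L] [Algebra ℂ L] (φ φ' : KBf x →ₐ[ℂ] L)
    (h : ∀ j, φ (xB x j) = φ' (xB x j)) : φ = φ' := by
  have h1 : ∀ (y : K) (hy : y ∈ KBf x), φ ⟨y, hy⟩ = φ' ⟨y, hy⟩ := by
    intro y hy
    refine IntermediateField.adjoin_induction ℂ
      (p := fun y hy => φ ⟨y, hy⟩ = φ' ⟨y, hy⟩) ?_ ?_ ?_ ?_ ?_ hy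
    · rintro _ ⟨j, rfl⟩
      exact h j
    · intro c
      exact (φ.commutes c).trans (φ'.commutes c).symm
    · intro a b ha hb h1 h2
      have h3 := map_add φ ⟨a, ha⟩ ⟨b, hb⟩
      rw [h1, h2, ← map_add] at h3
      exact h3
    · intro a ha h1
      have h3 := map_inv₀ φ ⟨a, ha⟩
      rw [h1, ← map_inv₀] at h3
      exact h3
    · intro a b ha hb h1 h2
      have h3 := map_mul φ ⟨a, ha⟩ ⟨b, hb⟩
      rw [h1, h2, ← map_mul] at h3
      exact h3
  exact AlgHom.ext fun y => h1 y.1 y.2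

/-- item (9) of note 3488, relative version -/
theorem comb_pairR (T : Tot n dB r B Q x f) (ray : V → Fin r → ℤ) {F M : Type} [Field F]
    [Algebra ℂ F] [Field M] [Algebra ℂ M]
    (iF : F →ₐ[ℂ] M) (X : Fin (dB + r) → RatFunc F) (hX : ∀ l, X l ≠ 0)
    (hB : ∀ q : B, ev (f (Sum.inl q)) X = 0) {a : Q → (Fin (dB + r) → ℤ) → F[X]} {den : Q → F[X]}
    (hden : ∀ q, den q ≠ 0)
    (ha : ∀ q, ∀ χ ∈ (f (Sum.inr q)).support, algebraMap F[X] (RatFunc F) (a q χ) =
      algebraMap F[X] (RatFunc F) (den q) * cst (fun q => f (Sum.inr q)) X q χ)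
    {m : V → ℕ} (hm : (coxF f ray).Rel fun v => (m v : ℤ)) (Y : V → (PowerSeries M)[X])
    (hY : ∀ q, (coxF f ray).F
      (fun q χ => ((a q χ).map (iF : F →+* M)).map PowerSeries.C) q Y = 0)
    (E₁ E₂ : RatFunc F →ₐ[ℂ] M) (hE₁ : ∀ c, E₁ (RatFunc.C c) = iF c)
    (hE₂ : ∀ c, E₂ (RatFunc.C c) = iF c) (T₁ T₂ : V → M[X]) (hT₁ : ∀ v, T₁ v ≠ 0)
    (hT₂ : ∀ v, T₂ v ≠ 0)
    (hY₁ : ∃ c : M, c ≠ 0 ∧ ∀ v, ∃ Z, ex (E₁ RatFunc.X) (Y v) = eps M ^ (2 * m v) * Z ∧
      red Z = Polynomial.C (c ^ (2 * m v)) * (T₁ v).comp (Polynomial.X ^ 2))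
    (hY₂ : ∃ c : M, c ≠ 0 ∧ ∀ v, ∃ Z, ex (E₂ RatFunc.X) (Y v) = eps M ^ (2 * m v) * Z ∧
      red Z = Polynomial.C (c ^ (2 * m v)) * (T₂ v).comp (Polynomial.X ^ 2))
    (p₀ q₀ : K →ₐ[ℂ] RatFunc M)
    (hp₀ : ∀ l, p₀ (x l) = RatFunc.C (E₁ (X l)) *
      ∏ v, algebraMap M[X] (RatFunc M) ((T₁ v).comp (Polynomial.X ^ 2)) ^
        (fibv (ray v) : Fin (dB + r) → ℤ) l)
    (hq₀ : ∀ l, q₀ (x l) = RatFunc.C (E₂ (X l)) *
      ∏ v, algebraMap M[X] (RatFunc M) ((T₂ v).comp (Polynomial.X ^ 2)) ^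
        (fibv (ray v) : Fin (dB + r) → ℤ) l)
    (lamB : A →ₐ[ℂ] KBf x) (φ' : KBf x →ₐ[ℂ] RatFunc F)
    (hφ' : ∀ j, φ' (xB x j) = X (Fin.castAdd r j)) (hc : ∀ a, ∃ c, φ' (lamB a) = RatFunc.C c)
    (h : Indep2R ((KBf x).val.comp lamB) ((CA M).comp p₀) ((psiA M).comp q₀)) :
    ∃ (L : Type) (_ : Field L) (_ : Algebra ℂ L) (ψ : K →ₐ[ℂ] RatFunc L),
      Indep2R ((KBf x).val.comp lamB) ((CA L).comp ψ) ((psiA L).comp ψ) := by
  classical
  let g : PowerSeries M →+* Om M := psO M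
  have hg : Function.Injective g :=
    (RingHom.injective (algebraMap (LaurentSeries M) (Om M))).comp
      HahnSeries.ofPowerSeries_injective
  let alg : Algebra ℂ (Om M) := (g.comp ((PowerSeries.C (R := M)).comp (algebraMap ℂ M))).toAlgebra
  have hC : ∀ c : ℂ, g (PowerSeries.C (algebraMap ℂ M c)) = algebraMap ℂ (Om M) c := fun c => rfl
  let θ : F →ₐ[ℂ] Om M :=
    { g.comp ((PowerSeries.C (R := M)).comp (iF : F →+* M)) with
      commutes' := fun c => by
        change g (PowerSeries.C (iF (algebraMap ℂ F c))) = _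
        rw [iF.commutes, hC] }
  have hθ : ∀ c, θ c = g (PowerSeries.C (iF c)) := fun c => rfl
  obtain ⟨c₁, hc₁, h₁⟩ := hY₁
  choose Z₁ hZ₁ hr₁ using h₁
  obtain ⟨c₂, hc₂, h₂⟩ := hY₂
  choose Z₂ hZ₂ hr₂ using h₂
  have hY0 : ∀ v, (Y v).map g ≠ 0 := by
    intro v h0
    rw [Polynomial.map_eq_zero_iff hg] at h0
    have h3 := red_Ze (V := V) iF X E₁ hE₁ hX hc₁ hT₁ hr₁ (Sum.inl v)
    have h4 := hZ₁ v
    rw [h0, map_zero] at h4
    have h5 := (mul_eq_zero.1 h4.symm).resolve_left (pow_ne_zero _ eps_ne_zero)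
    apply h3
    change red (Z₁ v) = 0
    rw [h5, map_zero]
  have hev : ∀ q, ev (f q) (fun l => ∏ w, algebraMap (Om M)[X] (RatFunc (Om M))
      ((Ye iF X Y w).map g) ^ ce ray w l) = 0 := by
    intro q
    simp only [prod_Ye iF X Y g θ hθ]
    exact ev_sect iF X Y g θ hθ T ray hY0 hB hden ha hY q
  obtain ⟨ψ, hψ⟩ := spz_ps T.data g hg hC (ce ray) (Ye iF X Y) (Ze iF X Z₁ (E₁ RatFunc.X))
    (E₁ RatFunc.X) (me m) (ex_Ye iF X Y hZ₁) (red_Ze iF X E₁ hE₁ hX hc₁ hT₁ hr₁) (sum_me hm)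
    hev p₀ (fun l => by rw [hp₀, prod_Ze iF X E₁ hE₁ hm hc₁ hr₁])
  have hdom : Dom ((CA (Om M)).comp ψ) ((psiA (Om M)).comp ψ) ((CA M).comp p₀)
      ((psiA M).comp q₀) :=
    dom_ps x T.data.gen g hg hC (ce ray) (Ye iF X Y) (Ze iF X Z₁ (E₁ RatFunc.X))
      (Ze iF X Z₂ (E₂ RatFunc.X)) (E₁ RatFunc.X) (E₂ RatFunc.X) (me m) (me m)
      (ex_Ye iF X Y hZ₁) (ex_Ye iF X Y hZ₂) (red_Ze iF X E₁ hE₁ hX hc₁ hT₁ hr₁)
      (red_Ze iF X E₂ hE₂ hX hc₂ hT₂ hr₂) (sum_me hm) (sum_me hm) ψ hψ p₀ q₀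
      (fun l => by rw [hp₀, prod_Ze iF X E₁ hE₁ hm hc₁ hr₁])
      (fun l => by rw [hq₀, prod_Ze iF X E₂ hE₂ hm hc₂ hr₂])
  refine ⟨Om M, inferInstance, alg, ψ, hdom.indep (fun a => ?_) h⟩
  -- the section is constant on `A`
  have h3 : ψ.comp (KBf x).val = (rmapA θ).comp φ' := by
    refine RelPair.hom_base _ _ fun j => ?_
    change ψ (x (Fin.castAdd r j)) = rmapA θ (φ' (xB x j))
    rw [hψ, prod_Ye iF X Y g θ hθ, hφ']
    have h4 : ∀ v, (fibv (ray v) : Fin (dB + r) → ℤ) (Fin.castAdd r j) = 0 := by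
      intro v
      unfold fibv
      rw [Fin.append_left]
      rfl
    simp only [h4, zpow_zero, Finset.prod_const_one, mul_one]
  obtain ⟨c, hc'⟩ := hc a
  have h5 : ψ ((KBf x).val (lamB a)) = RatFunc.C (θ c) := by
    have h6 := congrArg (fun φ => φ (lamB a)) h3
    change ψ ((KBf x).val (lamB a)) = rmapA θ (φ' (lamB a)) at h6
    rw [h6, hc', rmapA_apply, rmap_C]
    rfl
  change RatFunc.C (ψ ((KBf x).val (lamB a))) = psi (Om M) (ψ ((KBf x).val (lamB a)))
  rw [h5]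
  unfold psi
  rw [rmap_C]

end comb

end Pool.Agent.Work.WRC
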