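import Mathlib
import Pool.Agent.Work.MP_4329d7_ag_wrc.RelDefs
import Pool.Agent.Work.MP_4329d7_ag_wrc.Teeth2

/-!
W-RC, relative version, R3: two teeth over a generic pair of positions of the base curve form a
generic pair over `A`.
-/

namespace Pool.Agent.Work.WRC

open Polynomial Pool.Agent.Work.CI Pool.Agent.Work.MP_4329d7_ag_sq

open Teeth2 in
/-- Two teeth over a generic pair of positions form a generic pair, over `A`. -/
theorem indep2_teethR {A K : Type} [Field A] [Algebra ℂ A] [Field K] [Algebra ℂ K] {dB r : ℕ}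
    (x : Fin (dB + r) → K) (lamB : A →ₐ[ℂ] KBf x) {Ω Ω₁ Ω₂ : Type} [Field Ω]
    [Algebra ℂ Ω] [Field Ω₁]
    [Algebra ℂ Ω₁] [Field Ω₂] [Algebra ℂ Ω₂] (i₁ : Ω →ₐ[ℂ] Ω₁) (i₂ : Ω₁ →ₐ[ℂ] Ω₂)
    (β₁ β₂ : KBf x →ₐ[ℂ] Ω) (hβ : Indep2R lamB β₁ β₂) (φ₁ : K →ₐ[ℂ] RatFunc Ω₁)
    (φ₂ : K →ₐ[ℂ] RatFunc Ω₂) (h₁ : ∀ y : KBf x, φ₁ y = RatFunc.C (i₁ (β₁ y)))
    (h₂ : ∀ y : KBf x, φ₂ y = RatFunc.C (i₂ (i₁ (β₂ y)))) {I : Type} [Fintype I] (y : I → K)
    (hy : IsTranscendenceBasis (KBf x) y) (g₁ : GenOver i₁ φ₁ y) (g₂ : GenOver i₂ φ₂ y) :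
    Indep2R ((KBf x).val.comp lamB) ((CA Ω₂).comp ((rmapA i₂).comp φ₁)) ((psiA Ω₂).comp φ₂) := by
  obtain ⟨hlam, J, I', _, _, z, w, hz, hw, hww⟩ := hβ
  -- the values at constants
  have hp : ∀ u : KBf x, ((CA Ω₂).comp ((rmapA i₂).comp φ₁)) (u : K) =
      RatFunc.C (rmap (i₂ : Ω₁ →+* Ω₂) (RatFunc.C (i₁ (β₁ u)))) := by
    intro u
    change RatFunc.C (rmap (i₂ : Ω₁ →+* Ω₂) (φ₁ (u : K))) = _
    rw [h₁]
  have hq : ∀ u : KBf x, ((psiA Ω₂).comp φ₂) (u : K) =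
      RatFunc.C (rmap (i₂ : Ω₁ →+* Ω₂) (RatFunc.C (i₁ (β₂ u)))) := by
    intro u
    change psi Ω₂ (φ₂ (u : K)) = _
    rw [h₂, psi, rmap_C, rmap_C]
    rfl
  refine ⟨fun a => ?_, J, I ⊕ I', inferInstance, inferInstance, z,
    Sum.elim y (algebraMap (KBf x) K ∘ w), hz, ?_, ?_⟩
  · change ((CA Ω₂).comp ((rmapA i₂).comp φ₁)) ((lamB a : KBf x) : K) =
      ((psiA Ω₂).comp φ₂) ((lamB a : KBf x) : K)
    rw [hp, hq, hlam]
  · have h3 := hw.sumElim_comp hy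
    let e : J ⊕ (I ⊕ I') ≃ I ⊕ (J ⊕ I') :=
      { toFun := Sum.elim (fun j => Sum.inr (Sum.inl j))
          (Sum.elim (fun i => Sum.inl i) (fun i => Sum.inr (Sum.inr i)))
        invFun := Sum.elim (fun i => Sum.inr (Sum.inl i))
          (Sum.elim (fun j => Sum.inl j) (fun i => Sum.inr (Sum.inr i)))
        left_inv := by rintro (j | i | i) <;> rfl
        right_inv := by rintro (j | i | i) <;> rfl }
    have h4 := (isTranscendenceBasis_equiv e).2 h3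
    convert h4 using 1
    funext s
    rcases s with j | i | i <;> rfl
  · have a0 := AIo.of_alg hww
    have a1 := AIo.sum a0 (j := RatFunc.C.comp (i₁ : Ω →+* Ω₁)) g₁
    have a2 := AIo.sum a1 (AIo.over (i := (i₂ : Ω₁ →+* Ω₂)) g₂)
    let e : J ⊕ ((I ⊕ I') ⊕ (I ⊕ I')) → I ⊕ (I ⊕ (J ⊕ (I' ⊕ I'))) :=
      Sum.elim (fun j => Sum.inr (Sum.inr (Sum.inl j)))
        (Sum.elim (Sum.elim (fun i => Sum.inr (Sum.inl i))
            (fun j => Sum.inr (Sum.inr (Sum.inr (Sum.inl j)))))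
          (Sum.elim (fun i => Sum.inl i) (fun j => Sum.inr (Sum.inr (Sum.inr (Sum.inr j))))))
    have he : Function.Injective e := by
      rintro (j | ((i | i) | (i | i))) (j' | ((i' | i') | (i' | i'))) h <;>
        simp [e] at h ⊢ <;> exact h
    have a3 := a2.reindex e he
    apply AIo.to_alg
    have hC : algebraMap ℂ (RatFunc (RatFunc Ω₂)) =
        ((RatFunc.C : RatFunc Ω₂ →+* _).comp (rmap (i₂ : Ω₁ →+* Ω₂))).comp
          (((RatFunc.C : Ω₁ →+* _).comp (i₁ : Ω →+* Ω₁)).comp (algebraMap ℂ Ω)) := by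
      ext c
      change _ = RatFunc.C (rmap (i₂ : Ω₁ →+* Ω₂) (RatFunc.C (i₁ (algebraMap ℂ Ω c))))
      rw [rmap_C, algebraMap_ratFunc, algebraMap_ratFunc, AlgHom.commutes]
      change _ = RatFunc.C (RatFunc.C (i₂ (algebraMap ℂ Ω₁ c)))
      rw [AlgHom.commutes]
    rw [hC]
    convert a3 using 1
    funext s
    rcases s with j | ((i | i) | (i | i))
    · exact hp (lamB (z j))
    · rfl
    · exact hp (w i)
    · rfl
    · exact hq (w i)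

end Pool.Agent.Work.WRC
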