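import Mathlib
import Pool.Agent.Work.MP_4329d7_ag_wrc.FinAsm
import Pool.Agent.Work.MP_4329d7_ag_wrc.RelDefs
import Pool.Agent.Work.MP_4329d7_ag_wrc.RelFam
import Pool.Agent.Work.MP_4329d7_ag_wrc.RelPair
import Pool.Agent.Work.MP_4329d7_ag_wrc.RelBase
import Pool.Agent.Work.MP_4329d7_ag_wrc.Teeth2R

/-!
W-RC, relative version, module `RelFin` (R6): the assembly of the final step over a homomorphism
`lamB : A → KBf x`.
-/

namespace Pool.Agent.Work.WRC

open Polynomial Pool.Agent.Work.CI Pool.Agent.Work.MP_4329d7_ag_sq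

section asmR

variable {A K : Type} [Field A] [Algebra ℂ A] [Field K] [Algebra ℂ K]
  {n dB r : ℕ} {B Q : Type} [Fintype B] [Fintype Q]
  {x : Fin (dB + r) → K} {f : B ⊕ Q → Lau (dB + r)} {V : Type} [Fintype V] [DecidableEq V]

theorem fin_of_finInR (T : Tot n dB r B Q x f) (Δ : FanV V r) (lamB : A →ₐ[ℂ] KBf x)
    {F : Type} [Field F] [Algebra ℂ F] [IsAlgClosed F] {iB : KBf x →ₐ[ℂ] F}
    {φB : KBf x →ₐ[ℂ] RatFunc F} {X : Fin (dB + r) → RatFunc F} {σ τ : Finset V}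
    {xb : Fin dB → F} {z : Fin r → F} {m : V → ℕ} {W : V → F[X]} {e : F}
    {Xe : Fin (dB + r) → F} {a : Q → (Fin (dB + r) → ℤ) → F[X]} {den : Q → F[X]} {g : F[X]}
    {N0 : ℤ} (h : FinInR x f Δ lamB F iB φB X σ τ xb z m W e Xe a den g N0) :
    PRCR ((KBf x).val.comp lamB) := by
  classical
  -- the number of teeth
  obtain ⟨L, hL2, hLg, hLN⟩ : ∃ L : ℕ, 2 ≤ L ∧ 2 * g.natDegree ≤ L ∧
      N0 ≤ (L : ℤ) - 1 - g.natDegree := by
    refine ⟨2 + 2 * g.natDegree + N0.toNat, by omega, by omega, ?_⟩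
    have h1 := Int.self_le_toNat N0
    push_cast
    omega
  -- positions
  obtain ⟨k', _, _, _, i, c, e', hc0, heC, heX, hind⟩ := exists_positions F L
  -- teeth over `Om k'`
  have h6 : ∀ j : Fin L, ∃ W' : V → (Om k')[X],
      Tooth x f Δ.ray (fun l => e' j (X l)) (ind (Om k') σ) m W' := fun j =>
    tooth_open T Δ X σ h.bd h.beq xb h.inf τ z h.lim i m _
      (by
        have h1 := h.tooth.map i
        have h2 : (fun v => i (ind F τ v)) = ind k' τ := funext fun v => defC_ind_map i τ v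
        rw [h2] at h1
        exact h1) (c j) (hc0 j) (e' j) (heC j) (heX j)
  choose W' hW' using h6
  -- basis of the fibre
  obtain ⟨I, _, cc, hcc⟩ := exists_fibre_basis x T.data.gen
  let j₁ : Fin L := ⟨0, by omega⟩
  let j₂ : Fin L := ⟨1, by omega⟩
  have hj : j₁ ≠ j₂ := by
    intro h0
    have := congrArg Fin.val h0
    simp [j₁, j₂] at this
  -- the first generic tooth
  obtain ⟨Ω₁, _, _, _, i₁, W₁, φ₁, hW₁, hφ₁, hg₁⟩ :=
    tooth_gen T Δ _ _ m (W' j₁) (hW' j₁) cc hcc.1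
  have h7 : Tooth x f Δ.ray (fun l => i₁ (e' j₂ (X l))) (ind Ω₁ σ) m
      (fun v => (W' j₂ v).map (i₁ : Om k' →+* Ω₁)) := by
    have h1 := (hW' j₂).map i₁
    have h2 : (fun v => i₁ (ind (Om k') σ v)) = ind Ω₁ σ := funext fun v => defC_ind_map i₁ σ v
    rw [h2] at h1
    exact h1
  -- the second generic tooth
  obtain ⟨Ω₂, _, _, _, i₂, W₂, φ₂, hW₂, hφ₂, hg₂⟩ := tooth_gen T Δ _ _ m _ h7 cc hcc.1
  -- all teeth over `Ω₂`
  let E : Fin L → RatFunc F →ₐ[ℂ] Ω₂ := fun j => ((i₂.comp i₁).comp (e' j)).comp (mobIA e)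
  have hEX : ∀ j l, E j (mobA e (X l)) = i₂ (i₁ (e' j (X l))) := by
    intro j l
    change i₂ (i₁ (e' j (mobIA e (mobA e (X l))))) = _
    rw [mobIA_mobA]
  have hEC : ∀ j c, E j (RatFunc.C c) = (E j₁).comp (CF F) c := by
    intro j c
    change i₂ (i₁ (e' j (mobIA e (RatFunc.C c)))) = i₂ (i₁ (e' j₁ (mobIA e (RatFunc.C c))))
    rw [mobIA_C, heC, heC]
  have hT : ∀ j, ∃ Te : V → Ω₂[X],
      Tooth x f Δ.ray (fun l => E j (mobA e (X l))) (ind Ω₂ σ) m Te ∧
      (j = j₁ → ∀ v, Te v = (W₁ v).map (i₂ : Ω₁ →+* Ω₂)) ∧ (j = j₂ → Te = W₂) := by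
    intro j
    simp only [hEX]
    by_cases h1 : j = j₁
    · subst h1
      refine ⟨fun v => (W₁ v).map (i₂ : Ω₁ →+* Ω₂), ?_, fun _ v => rfl, fun h0 => absurd h0 hj⟩
      have h2 := hW₁.map i₂
      have h3 : (fun v => i₂ (i₁ (ind (Om k') σ v))) = ind Ω₂ σ := funext fun v => by
        rw [defC_ind_map i₁ σ v, defC_ind_map i₂ σ v]
      rw [h3] at h2
      exact h2
    · by_cases h2 : j = j₂
      · subst h2
        refine ⟨W₂, ?_, fun h0 => absurd h0 h1, fun _ => rfl⟩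
        have h3 : (fun v => i₂ (ind Ω₁ σ v)) = ind Ω₂ σ := funext fun v => defC_ind_map i₂ σ v
        rw [h3] at hW₂
        exact hW₂
      · refine ⟨fun v => (W' j v).map ((i₂.comp i₁ : Om k' →ₐ[ℂ] Ω₂) : Om k' →+* Ω₂), ?_,
          fun h0 => absurd h0 h1, fun h0 => absurd h0 h2⟩
        have h3 := (hW' j).map (i₂.comp i₁)
        have h4 : (fun v => (i₂.comp i₁) (ind (Om k') σ v)) = ind Ω₂ σ :=
          funext fun v => defC_ind_map (i₂.comp i₁) σ v
        rw [h4] at h3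
        exact h3
  choose Te hTe hTe₁ hTe₂ using hT
  have hXe : ∀ l, mobA e (X l) ≠ 0 := fun l =>
    (map_ne_zero_iff _ (mobA e).toRingHom.injective).2 (h.bd.ne l)
  -- the positions are different
  have hinj : Function.Injective fun j => E j RatFunc.X := by
    intro j l hjl
    by_contra hne
    have h1 : e' j ((RatFunc.X - RatFunc.C e)⁻¹) = e' l ((RatFunc.X - RatFunc.C e)⁻¹) := by
      have h2 : i₂ (i₁ (e' j (mobIA e RatFunc.X))) = i₂ (i₁ (e' l (mobIA e RatFunc.X))) := hjl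
      rw [mobIA_X] at h2
      exact i₁.toRingHom.injective (i₂.toRingHom.injective h2)
    rw [map_inv₀, map_inv₀, map_sub, map_sub, heC, heC] at h1
    have h2 : e' j RatFunc.X = e' l RatFunc.X := sub_left_injective (inv_injective h1)
    refine hind j l hne (MvPolynomial.X 0 - MvPolynomial.X 1) ?_ ?_
    · intro h0
      have h3 := sub_eq_zero.1 h0
      exact absurd (MvPolynomial.X_injective h3) (by decide)
    · rw [MvPolynomial.eval₂_sub, MvPolynomial.eval₂_X, MvPolynomial.eval₂_X]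
      simp [h2]
  obtain ⟨Y, hY1, hY2⟩ := comb_teeth T h.defd ((E j₁).comp (CF F)) (by omega) E hEC
    hinj hLg hLN Te hTe
  -- the homomorphisms of the two teeth
  obtain ⟨s₁, hs₁⟩ := Spz.exists_compA (L := Ω₁) (Polynomial.X ^ 2) (by
    rw [natDegree_X_pow]
    exact two_ne_zero)
  obtain ⟨s₂, hs₂⟩ := Spz.exists_compA (L := Ω₂) (Polynomial.X ^ 2) (by
    rw [natDegree_X_pow]
    exact two_ne_zero)
  have hs₁C : ∀ c, s₁ (RatFunc.C c) = RatFunc.C c := fun c => by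
    rw [← RatFunc.algebraMap_C, hs₁, C_comp]
  have hs₂C : ∀ c, s₂ (RatFunc.C c) = RatFunc.C c := fun c => by
    rw [← RatFunc.algebraMap_C, hs₂, C_comp]
  have hβ : Indep2R lamB ((e' j₁).comp φB) ((e' j₂).comp φB) := by
    refine base_pairR lamB iB φB h.pairR (e' j₁) (e' j₂) (fun a => by rw [heC, heC]) fun P hP => ?_
    have h1 : (e' j₁ : RatFunc F →+* Om k').comp RatFunc.C = (cO k').comp (i : F →+* k') :=
      RingHom.ext fun a => heC j₁ a
    rw [h1]
    exact hind j₁ j₂ hj P hP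
  have hind2 : Indep2R ((KBf x).val.comp lamB) ((CA Ω₂).comp ((rmapA i₂).comp (s₁.comp φ₁)))
      ((psiA Ω₂).comp (s₂.comp φ₂)) := by
    refine indep2_teethR x lamB i₁ i₂ _ _ hβ (s₁.comp φ₁) (s₂.comp φ₂) ?_ ?_ _ hcc
      (genOver_pow i₁ φ₁ _ hg₁ s₁ hs₁C) (genOver_pow i₂ φ₂ _ hg₂ s₂ hs₂C)
    · intro y
      have h1 : ((s₁.comp φ₁).comp (KBf x).val) = (CF Ω₁).comp (i₁.comp ((e' j₁).comp φB)) := by
        refine kbf_hom_ext fun j => ?_
        change s₁ (φ₁ (x (Fin.castAdd r j))) = RatFunc.C (i₁ (e' j₁ (φB (xB x j))))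
        rw [hφ₁, h.base, fibv_castAdd_prod, mul_one, hs₁C]
      exact congrArg (fun u => u y) h1
    · intro y
      have h1 : ((s₂.comp φ₂).comp (KBf x).val) =
          (CF Ω₂).comp (i₂.comp (i₁.comp ((e' j₂).comp φB))) := by
        refine kbf_hom_ext fun j => ?_
        change s₂ (φ₂ (x (Fin.castAdd r j))) = RatFunc.C (i₂ (i₁ (e' j₂ (φB (xB x j)))))
        rw [hφ₂, h.base, fibv_castAdd_prod, mul_one, hs₂C]
      exact congrArg (fun u => u y) h1
  obtain ⟨L', _, _, ψ, hψ⟩ := comb_pairR T Δ.ray ((E j₁).comp (CF F)) (fun l => mobA e (X l)) hXe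
    (fun q => by
      have h1 := congrArg (mobA e) (h.beq q)
      rw [map_zero] at h1
      rw [← h1, evA_map]) (fun q => (h.defd.den_monic q).ne_zero) h.defd.eq h.tooth.rel Y hY2
    (E j₁) (E j₂) (hEC j₁) (hEC j₂) (Te j₁) (Te j₂) (fun v => (hTe j₁).ne v)
    (fun v => (hTe j₂).ne v) (hY1 j₁) (hY1 j₂) ((rmapA i₂).comp (s₁.comp φ₁)) (s₂.comp φ₂)
    (fun l => by
      rw [AlgHom.comp_apply, AlgHom.comp_apply, hφ₁, map_mul, map_mul, hs₁C, hEX, map_prod,
        map_prod]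
      congr 1
      · exact rmap_C _ _
      · refine Finset.prod_congr rfl fun v _ => ?_
        rw [map_zpow₀, map_zpow₀, hs₁, hTe₁ j₁ rfl]
        congr 1
        rw [rmapA_apply, rmap_algebraMap, Polynomial.map_comp, Polynomial.map_pow, map_X])
    (fun l => by
      rw [AlgHom.comp_apply, hφ₂, map_mul, hs₂C, hEX, map_prod]
      congr 1
      refine Finset.prod_congr rfl fun v _ => ?_
      rw [map_zpow₀, hs₂, hTe₂ j₂ rfl]) lamB ((mobA e).comp φB)
    (fun j => by rw [AlgHom.comp_apply, h.base])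
    (fun a => ⟨iB (lamB a), by rw [AlgHom.comp_apply, h.pairR.const a, mobA_C]⟩) hind2
  exact prc_of_pairR _ ψ hψ

/-- the final step, relative version: `PRCR` of the base gives `PRCR` of the total space -/
theorem finR (T : Tot n dB r B Q x f) (Δ : FanV V r) (hΔ : Δ.Adapted f) (hKH : KHc f) {nB : ℕ}
    (htr : Algebra.trdeg ℂ (KBf x) = nB) (hdim : nB + Fintype.card B = dB)
    (hVF : ∀ (k : Type) [Field k] [Algebra ℂ k] [IsAlgClosed k] (φ₀ : K →ₐ[ℂ] k),
      VF x f Δ.ray (fun j => φ₀ (x j)) 1) (lamB : A →ₐ[ℂ] KBf x) (h : PRCR lamB) :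
    PRCR ((KBf x).val.comp lamB) := by
  obtain ⟨F, _, _, _, σ, τ, iB, φB, X, xb, z, m, W, e, Xe, a, den, g, N0, hF⟩ :=
    exists_finInR T Δ hΔ htr hdim hKH (step_main T hΔ htr hdim hKH) hVF lamB h
  exact fin_of_finInR T Δ lamB hF

end asmR

end Pool.Agent.Work.WRC
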