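import Mathlib
import Pool.Agent.Work.MP_4329d7_ag_wrc.FanX
import Pool.Agent.Work.MP_4329d7_ag_wrc.Vf0
import Pool.Agent.Work.MP_4329d7_ag_wrc.RelFin

/-!
W-RC, relative version, module RelInd: the induction step `prc_stepR`: for a good type of the fibre,
`PRCR lamB` for `lamB : A → KBf x` gives `PRCR` for the composition `A → K`.
-/

namespace Pool.Agent.Work.WRC

open Polynomial Pool.Agent.Work.CI

/-- the induction step, relative version -/
theorem prc_stepR {A K : Type} [Field A] [Algebra ℂ A] [Field K] [Algebra ℂ K] {n dB r nB : ℕ}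
    {B Q : Type} [Fintype B] [Fintype Q] {x : Fin (dB + r) → K} {f : B ⊕ Q → Lau (dB + r)}
    (T : Tot n dB r B Q x f) {ι : Type} [Fintype ι] {b' : ι → Fin r → ℤ} (G : GoodF x f b')
    (hKH : KHc f) (htr : Algebra.trdeg ℂ (KBf x) = nB) (hdim : nB + Fintype.card B = dB)
    (lamB : A →ₐ[ℂ] KBf x) (h : PRCR lamB) : PRCR ((KBf x).val.comp lamB) := by
  obtain ⟨V, _, _, Δ, hΔ⟩ := exists_adapted f fun q => T.data.nz (Sum.inr q)
  exact finR T Δ hΔ hKH htr hdim (fun k _ _ _ φ₀ => vf0 T G Δ hΔ φ₀) lamB h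

end Pool.Agent.Work.WRC
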