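import Mathlib
import Pool.Agent.Work.MP_4329d7_ag_w.MainE
import Pool.Agent.Work.MP_4329d7_ag_w.IrrW
import Pool.Agent.Work.MP_4329d7_ag_wrc.KH
import Pool.Agent.Work.MP_4329d7_ag_wrc.Spl
import Pool.Agent.Work.MP_4329d7_ag_wrc.NDb
import Pool.Agent.Work.MP_4329d7_ag_wrc.Vf0
import Pool.Agent.Work.MP_4329d7_ag_wrc.MainA
import Pool.Agent.Work.MP_4329d7_ag_wrc.Main
import Pool.Agent.Work.MP_4329d7_ag_wrc.NotUni
import Pool.Agent.Work.MP_4329d7_ag_wrc.RelInd
import Pool.Agent.Work.MP_4329d7_ag_wrc.RelSpl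
import Pool.Agent.Work.MP_4329d7_ag_wrc.RelDefs

/-!
W-RC, relative version, module RelMain: the induction.

* `mrc_ind`: a nondegenerate complete intersection `X` in the torus of dimension `d` has a toric
  quotient `X ⇢ Z`, with field `subF x χ`, such that `PRCR` holds for `ℂ(Z) → ℂ(X)` (two general
  points of a general fibre are joined by a rational curve), `subF x χ` is algebraically closed in
  `K` (the general fibre is irreducible), `Z` is not uniruled and `Z` has a nonzero regular `m`-fold canonical form, `m ≤ 2 (d + 1) ^ ((d + 1) 2 ^ d)`.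

Weights (no packing): `Z = X`.  Packing: product form over the base field `KBf x'`, induction for
the base and the step `prc_stepR`.
-/

namespace Pool.Agent.Work.WRC

open Polynomial Pool.Agent.Work.CI Pool.Agent.Work.Uni Pool.Agent.Work.CW
  Pool.Agent.Work.MP_4329d7_ag.FF

/-- invariance under isomorphisms of `K` -/
theorem relMain_equiv {A K K' : Type} [Field A] [Algebra ℂ A] [Field K] [Algebra ℂ K] [Field K']
    [Algebra ℂ K'] {lam : A →ₐ[ℂ] K} (e : K ≃ₐ[ℂ] K') (h : PRCR lam) :
    PRCR ((e : K →ₐ[ℂ] K').comp lam) := by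
  obtain ⟨k, _, _, hk, i, φ, hinf, h1, J, I, _, _, z, x, hz, hzx, hai⟩ := h
  have he : ∀ y, e.symm (e y) = y := e.symm_apply_apply
  refine ⟨k, inferInstance, inferInstance, hk, i.comp e.symm.toAlgHom, φ.comp e.symm.toAlgHom,
    fun y => hinf (e.symm y), fun a => ?_, J, I, inferInstance,
    inferInstance, z, fun j => e (x j), hz, ?_, ?_⟩
  · change cK k (i (e.symm (e (lam a)))) = φ (e.symm (e (lam a)))
    rw [he]
    exact h1 a
  · convert e.isTranscendenceBasis hzx using 1
    funext s
    rcases s with s | s <;> rfl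
  · convert hai using 1
    funext s
    rcases s with s | s | s
    · change cK k (i (e.symm (e (lam (z s))))) = _
      rw [he]
      rfl
    · change cK k (i (e.symm (e (x s)))) = _
      rw [he]
      rfl
    · change φ (e.symm (e (x s))) = _
      rw [he]
      rfl

/-- the identity -/
theorem relMain_id {A : Type} [Field A] [Algebra ℂ A] {n : ℕ} (htr : Algebra.trdeg ℂ A = n) :
    PRCR (AlgHom.id ℂ A) := by
  obtain ⟨s, hs⟩ := exists_isTranscendenceBasis ℂ A
  have hcard : Cardinal.mk s = n := by rw [hs.cardinalMk_eq_trdeg, htr]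
  have : Finite s := by
    rw [← Cardinal.lt_aleph0_iff_finite, hcard]
    exact Cardinal.natCast_lt_aleph0
  let _ : Fintype s := Fintype.ofFinite s
  let i : A →ₐ[ℂ] AlgebraicClosure A := IsScalarTower.toAlgHom ℂ A (AlgebraicClosure A)
  refine ⟨AlgebraicClosure A, inferInstance, inferInstance, inferInstance, i,
    (cK (AlgebraicClosure A)).comp i, fun y => Inf.const (i y), fun a => rfl, s, Empty,
    inferInstance, inferInstance, Subtype.val, fun j => j.elim, hs, ?_, ?_⟩
  · have h1 := hs.comp_equiv (Equiv.sumEmpty s Empty)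
    convert h1 using 1
    funext t
    rcases t with t | t
    · rfl
    · exact t.elim
  · have h1 : AlgebraicIndependent ℂ (fun t : s => (cK (AlgebraicClosure A)).comp i (t : A)) :=
      hs.1.map' (f := (cK (AlgebraicClosure A)).comp i)
        ((cK (AlgebraicClosure A)).comp i).toRingHom.injective
    have h2 := h1.comp (Equiv.sumEmpty s (Empty ⊕ Empty)) (Equiv.injective _)
    convert h2 using 1
    · funext t
      rcases t with t | t | t
      · rfl
      · exact t.elim
      · exact t.elim
    · rfl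

/-- change of the field of the base -/
theorem relMain_base {A A' K : Type} [Field A] [Algebra ℂ A] [Field A'] [Algebra ℂ A'] [Field K]
    [Algebra ℂ K] {lam : A →ₐ[ℂ] K} (e : A ≃ₐ[ℂ] A') {lam' : A' →ₐ[ℂ] K}
    (he : ∀ a, lam' (e a) = lam a) (h : PRCR lam) : PRCR lam' := by
  obtain ⟨k, _, _, hk, i, φ, hinf, h1, J, I, _, _, z, x, hz, hzx, hai⟩ := h
  refine ⟨k, inferInstance, inferInstance, hk, i, φ, hinf, fun a => ?_, J, I, inferInstance,
    inferInstance, fun j => e (z j), x, e.isTranscendenceBasis hz, ?_, ?_⟩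
  · obtain ⟨a, rfl⟩ := e.surjective a
    rw [he]
    exact h1 a
  · simp only [he]
    exact hzx
  · simp only [he]
    exact hai

/-- the start of the induction: `L = K` -/
theorem relMain_top {K : Type} [Field K] [Algebra ℂ K] {n : ℕ} (htr : Algebra.trdeg ℂ K = n)
    (L : IntermediateField ℂ K) (hL : L = ⊤) : PRCR L.val := by
  let e : K ≃ₐ[ℂ] L := (IntermediateField.topEquiv.symm.trans (IntermediateField.equivOfEq hL.symm))
  have he : ∀ a : K, ((e a : L) : K) = a := fun a => rfl
  exact relMain_base (lam := AlgHom.id ℂ K) e (fun a => he a) (relMain_id htr)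

/-- the subfield generated by all coordinates -/
theorem relMain_subF {K : Type} [Field K] [Algebra ℂ K] {d : ℕ} (x : Fin d → K)
    (gen : IntermediateField.adjoin ℂ (Set.range x) = ⊤) :
    subF x (fun j => Pi.single j (1 : ℤ)) = ⊤ := by
  rw [← gen]
  show IntermediateField.adjoin ℂ (Set.range fun i => mon x (Pi.single i 1)) = _
  simp only [spl_mon_single]

/-- the standard basis is linearly independent -/
theorem relMain_single (d : ℕ) :
    LinearIndependent ℤ fun j : Fin d => (Pi.single j 1 : Fin d → ℤ) := by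
  rw [Fintype.linearIndependent_iff]
  intro g hg i
  have h1 := congrFun hg i
  rw [Finset.sum_apply] at h1
  simpa [Pi.single_apply] using h1

/-- algebraically closed subfields in two steps -/
theorem relMain_closed {K : Type} [Field K] [Algebra ℂ K] {L₁ : IntermediateField ℂ K}
    {L₂ : IntermediateField ℂ L₁} {L₃ : IntermediateField ℂ K} (h : L₂.map L₁.val = L₃)
    (h1 : ∀ y : K, IsAlgebraic L₁ y → y ∈ L₁) (h2 : ∀ y : L₁, IsAlgebraic L₂ y → y ∈ L₂)
    (y : K) (hy : IsAlgebraic L₃ y) : y ∈ L₃ := by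
  have hle : L₃ ≤ L₁ := by
    rw [← h]
    rintro _ ⟨a, -, rfl⟩
    exact a.2
  obtain ⟨E, hE⟩ := exists_equiv_lift h
  have h3 : y ∈ L₁ := h1 y (hy.ringHom_of_comp_eq (IntermediateField.inclusion hle)
    (RingHom.id K) (IntermediateField.inclusion hle).toRingHom.injective rfl)
  have h4 : IsAlgebraic L₂ (⟨y, h3⟩ : L₁) := by
    refine IsAlgebraic.of_ringHom_of_comp_eq (S := L₃) (B := K) E.symm (algebraMap L₁ K) hy
      E.symm.surjective (algebraMap L₁ K).injective ?_
    ext a
    have h5 := hE (E.symm a)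
    rw [AlgEquiv.apply_symm_apply] at h5
    exact h5.symm
  rw [← h]
  exact ⟨_, h2 _ h4, rfl⟩

/-- the induction -/
theorem mrc_aux (d C : ℕ)
    (hform : ∀ (K : Type) [Field K] [Algebra ℂ K] [Algebra.EssFiniteType ℂ K] (n d₀ : ℕ) (Q : Type)
      [Fintype Q] (x : Fin d₀ → K) (f : Q → Lau d₀), Data K n d₀ Q x f → d₀ ≤ d →
      (∃ (w : Fin d₀ → ℤ) (M : ℕ), 0 < M ∧
        ∀ b, b ≠ 0 → (M : ℤ) ≤ pair w b - M * ∑ q, mn (f q) b) →
      ∃ m : ℕ, 0 < m ∧ m ≤ C ∧
        ∃ T : TensorForm K (m * n), IsPluricanonical m n T ∧ IsRegular T ∧ T ≠ 0) :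
    ∀ (s : ℕ) (K : Type) [Field K] [Algebra ℂ K] [Algebra.EssFiniteType ℂ K] (n d₀ : ℕ) (Q : Type)
      [Fintype Q] (x : Fin d₀ → K) (f : Q → Lau d₀), Data K n d₀ Q x f → Nondegenerate f →
      d₀ ≤ d → d₀ < s →
      ∃ (e : ℕ) (χ : Fin e → Fin d₀ → ℤ), LinearIndependent ℤ χ ∧ PRCR (subF x χ).val ∧
      (∀ y : K, IsAlgebraic (subF x χ) y → y ∈ subF x χ) ∧ ¬ Uniruled (subF x χ) ∧
      ∃ (p m : ℕ), Algebra.trdeg ℂ (subF x χ) = p ∧ 0 < m ∧ m ≤ C ∧
        ∃ T : TensorForm (subF x χ) (m * p), IsPluricanonical m p T ∧ IsRegular T ∧ T ≠ 0 := by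
  intro s
  induction s with
  | zero => exact fun K _ _ _ n d₀ Q _ x f D nd hd hs => absurd hs (Nat.not_lt_zero _)
  | succ s ih =>
    intro K _ _ _ n d₀ Q _ x f D nd hd hs
    rcases weights_or_pk f D.nz with h | h
    · obtain ⟨m, hm, hmB, T, h1, h2, h3⟩ := hform K n d₀ Q x f D hd h
      have hnu : ¬ Uniruled K := by
        obtain ⟨w, M, hM, hw⟩ := h
        exact not_uniruled_of_weights D w M hM hw
      have h4 := relMain_subF x D.gen
      let e : K ≃ₐ[ℂ] subF x (fun j => Pi.single j (1 : ℤ)) :=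
        (IntermediateField.topEquiv.symm.trans (IntermediateField.equivOfEq h4.symm))
      have h5 : Algebra.trdeg ℂ (subF x (fun j => Pi.single j (1 : ℤ))) = n := by
        rw [← D.trdeg]
        exact e.trdeg_eq.symm
      exact ⟨d₀, _, relMain_single d₀, relMain_top D.trdeg _ h4,
        fun y _ => by rw [h4]; exact IntermediateField.mem_top, fun h => hnu (RP.uniruled_of_equiv e.symm h), n, m, h5, hm, hmB,
        exists_form_equiv e D.trdeg T h1 h2 h3⟩
    · obtain ⟨ι, _, b, hg, h2, hspan, hrank, hdeg⟩ := exists_good_inj D h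
      obtain ⟨nB, dB, r, B, Q', _, _, x', f', b', T, hlt, hnB, htr, hKB, hg', hspan', hrank', hKH,
        hdg, hgen, X, hX, hx'⟩ := splR D nd hg hrank hspan
      have hfg : Algebra.EssFiniteType ℂ (KBf x') := RP.essFiniteType_sub _
      have DB := data_base T htr hnB
      obtain ⟨e, χ, hχ, hP, hcl, hnu, p, m, hp, hm, hmC, F, hF1, hF2, hF3⟩ :=
        ih (KBf x') nB dB B (xB x') _ DB (ndb T htr hnB) (by omega) (by omega)
      have hstep : PRCR ((KBf x').val.comp (subF (xB x') χ).val) := by
        rcases hdeg with ⟨-, h3⟩ | h3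
        · have hι : 0 < Fintype.card ι := by rw [hg.card]; omega
          obtain ⟨i⟩ := Fintype.card_pos_iff.1 hι
          have hr : 0 < r := by
            rcases Nat.eq_zero_or_pos r with h4 | h4
            · exfalso
              subst h4
              apply hg'.ne i
              funext j
              refine Fin.addCases (fun l => ?_) (fun l => l.elim0) j
              exact fibv_castAdd _ _
            · exact h4
          have hsum : ∑ i, b' i = 0 := by
            funext l
            have h4 := congrFun hg'.sum (Fin.natAdd dB l)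
            rw [Finset.sum_apply] at h4 ⊢
            simp only [fibv_natAdd, Pi.zero_apply] at h4 ⊢
            exact h4
          exact prc_stepR T (GoodF.of_spanInj T hsum hdg hspan' hgen (card_lt_of_KHc (hKH h3) hr))
            (hKH h3) htr hnB _ hP
        · have h4 : KBf x' = ⊤ := hKB.trans h3
          exact relMain_equiv ((IntermediateField.equivOfEq h4).trans IntermediateField.topEquiv) hP
      have hL : (subF (xB x') χ).map (KBf x').val = subF x (liftX X χ) := by
        rw [hx']
        exact subF_lift D.ne χ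
      obtain ⟨E, hE⟩ := exists_equiv_lift hL
      refine ⟨e, liftX X χ, liftX_li hX hχ, relMain_base E.symm (fun a => ?_) hstep,
        relMain_closed hL (fun y hy => ?_) hcl, fun h => hnu (RP.uniruled_of_equiv E h), p, m, ?_, hm, hmC,
        exists_form_equiv E.symm hp F hF1 hF2 hF3⟩
      · have h4 := hE (E.symm a)
        rw [AlgEquiv.apply_symm_apply] at h4
        exact h4.symm
      · rw [hKB] at hy ⊢
        exact irr D hg y hy
      · rw [← hp]
        exact E.trdeg_eq

/-- **The MRC quotient, inductive form** -/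
theorem mrc_ind (d : ℕ) (K : Type) [Field K] [Algebra ℂ K] [Algebra.EssFiniteType ℂ K] (n : ℕ)
    (Q : Type) [Fintype Q] (x : Fin d → K) (f : Q → Lau d) (D : Data K n d Q x f)
    (hf : Nondegenerate f) :
    ∃ (e : ℕ) (χ : Fin e → Fin d → ℤ), LinearIndependent ℤ χ ∧ PRCR (subF x χ).val ∧
      (∀ y : K, IsAlgebraic (subF x χ) y → y ∈ subF x χ) ∧ ¬ Uniruled (subF x χ) ∧
      ∃ (p m : ℕ), Algebra.trdeg ℂ (subF x χ) = p ∧ 0 < m ∧
        m ≤ 2 * (d + 1) ^ ((d + 1) * 2 ^ d) ∧
        ∃ T : TensorForm (subF x χ) (m * p), IsPluricanonical m p T ∧ IsRegular T ∧ T ≠ 0 :=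
  mrc_aux d _ (form_eff d) (d + 1) K n d Q x f D hf le_rfl (Nat.lt_succ_self d)

end Pool.Agent.Work.WRC
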