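import Mathlib
import Pool.Agent.Work.MP_4329d7_ag_wrc.Main
import Pool.Agent.Work.MP_4329d7_ag_wrc.RelMain
import Pool.Agent.Work.MP_4329d7_ag_wrc.RelEnd

/-!
W-RC, relative version: the theorem on the maximal rationally connected quotient of a nondegenerate
complete intersection.
-/

namespace Pool.Agent.Work.WRC

open Polynomial Pool.Agent.Work.CI Pool.Agent.Work.Uni Pool.Agent.Work.CW
  Pool.Agent.Work.MP_4329d7_ag.FF

/-- The field `L = ℂ(x ^ χ)` of a toric quotient is the field of the maximal rationally connected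
quotient and has a nonzero pluricanonical form of bounded order. -/
theorem mrc_main (d : ℕ) (K : Type) [Field K] [Algebra ℂ K] [Algebra.EssFiniteType ℂ K] (n : ℕ)
    (Q : Type) [Fintype Q] (x : Fin d → K) (f : Q → Lau d) (hf : Nondegenerate f)
    (ne : ∀ j, x j ≠ 0) (gen : IntermediateField.adjoin ℂ (Set.range x) = ⊤)
    (eq : ∀ q, ev (f q) x = 0) (trdeg : Algebra.trdeg ℂ K = n) (dim : n + Fintype.card Q = d) :
    ∃ (e : ℕ) (χ : Fin e → Fin d → ℤ), LinearIndependent ℤ χ ∧ RCOver (subF x χ) ∧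
      ¬ Uniruled (subF x χ) ∧ ∃ (p m : ℕ), Algebra.trdeg ℂ (subF x χ) = p ∧ 0 < m ∧
        m ≤ 2 * (d + 1) ^ ((d + 1) * 2 ^ d) ∧
        ∃ T : TensorForm (subF x χ) (m * p), IsPluricanonical m p T ∧ IsRegular T ∧ T ≠ 0 := by
  obtain ⟨e, χ, hχ, hP, hcl, hU, h⟩ :=
    mrc_ind d K n Q x f (data_of_nondegenerate hf ne gen eq trdeg dim) hf
  exact ⟨e, χ, hχ, rcover_of_prcr _ _ hP le_rfl
    (fun y hy => isAlgebraic_algebraMap (⟨y, hy⟩ : subF x χ)) hcl, hU, h⟩

end Pool.Agent.Work.WRC
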