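import Mathlib
import Pool.Agent.Work.MP_4329d7_ag_wrc.BasePos
import Pool.Agent.Work.MP_4329d7_ag_wrc.RelDefs

/-!
W-RC, relative version: the base points at two independent positions (`base_pair_r`).
-/

namespace Pool.Agent.Work.WRC

open Polynomial Pool.Agent.Work.CI Pool.Agent.Work.MP_4329d7_ag_sq

section bpr

/-- reassociation of an independent family -/
theorem ai_assoc {R : Type} [Field R] [Algebra ℂ R] {S T U : Type} (a : S → R) (b : T → R)
    (c : U → R) : AlgebraicIndependent ℂ (Sum.elim a (Sum.elim b c)) ↔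
      AlgebraicIndependent ℂ (Sum.elim (Sum.elim a b) c) := by
  have h : Sum.elim a (Sum.elim b c) ∘ Equiv.sumAssoc S T U = Sum.elim (Sum.elim a b) c := by
    funext s
    rcases s with (s | s) | s <;> rfl
  rw [← h]
  exact (algebraicIndependent_equiv (Equiv.sumAssoc S T U)).symm

theorem base_pair_r {A L k Ω : Type} [Field A] [Algebra ℂ A] [Field L] [Algebra ℂ L] [Field k]
    [Algebra ℂ k] [Field Ω] [Algebra ℂ Ω] (lam : A →ₐ[ℂ] L) (iB : L →ₐ[ℂ] k)
    (φB : L →ₐ[ℂ] RatFunc k) (h : AIPairR lam iB φB)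
    (e₁ e₂ : RatFunc k →ₐ[ℂ] Ω) (he : ∀ a, e₁ (RatFunc.C a) = e₂ (RatFunc.C a))
    (hP : ∀ P : MvPolynomial (Fin 2) k, P ≠ 0 →
      MvPolynomial.eval₂ ((e₁ : RatFunc k →+* Ω).comp RatFunc.C) ![e₁ RatFunc.X, e₂ RatFunc.X] P ≠ 0) :
    Indep2R lam (e₁.comp φB) (e₂.comp φB) := by
  obtain ⟨hinf, heq, J, I, hJ, hI, z, x, hz, hx, hai⟩ := h
  have heq' : ∀ a, φB (lam a) = RatFunc.C (iB (lam a)) := fun a => (heq a).symm
  refine ⟨fun a => ?_, J, I, hJ, hI, z, x, hz, hx, ?_⟩
  · rw [AlgHom.comp_apply, AlgHom.comp_apply, heq', he]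
  · rw [ai_assoc] at hai ⊢
    have e0 : (Sum.elim (Sum.elim (fun j => ((cK k).comp iB) (lam (z j)))
        (fun i => ((cK k).comp iB) (x i))) (fun i => φB (x i)) : (J ⊕ I) ⊕ I → RatFunc k) =
        Sum.elim (fun s => (RatFunc.C (Sum.elim (fun j => iB (lam (z j)))
          (fun i => iB (x i)) s) : RatFunc k)) (fun i => φB (x i)) := by
      funext s
      rcases s with (s | s) | s <;> rfl
    rw [e0] at hai
    have h1 := ai_two_pos e₁ e₂ he hP
      (Sum.elim (fun j => φB (lam (z j))) (fun i => φB (x i)))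
      (Sum.elim (fun j => iB (lam (z j))) (fun i => iB (x i)))
      (fun s => by rcases s with s | s <;> exact hinf _) (fun i => φB (x i)) hai
    have e1 : (Sum.elim (Sum.elim (fun j => (e₁.comp φB) (lam (z j)))
        (fun i => (e₁.comp φB) (x i))) (fun i => (e₂.comp φB) (x i)) : (J ⊕ I) ⊕ I → Ω) =
        Sum.elim (fun s => e₁ (Sum.elim (fun j => φB (lam (z j))) (fun i => φB (x i)) s))
          (fun i => e₂ (φB (x i))) := by
      funext s
      rcases s with (s | s) | s <;> rfl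
    rw [e1]
    exact h1

end bpr

end Pool.Agent.Work.WRC
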