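import Mathlib
import Pool.Agent.Work.MP_4329d7_ag_wrc.FinIn
import Pool.Agent.Work.MP_4329d7_ag_wrc.ToothMap
import Pool.Agent.Work.MP_4329d7_ag_wrc.PrcPair

/-!
W-RC: base change of `LimInf`, `IsFam` and of the whole input `FinIn` of the final step.
-/

namespace Pool.Agent.Work.WRC

open Polynomial Pool.Agent.Work.CI Pool.Agent.Work.MP_4329d7_ag_sq

section

variable {F F' : Type} [Field F] [Algebra ℂ F] [Field F'] [Algebra ℂ F']

theorem rmapA_C (i : F →ₐ[ℂ] F') (c : F) : rmapA i (RatFunc.C c) = RatFunc.C (i c) := rmap_C _ c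

theorem rmapA_X (i : F →ₐ[ℂ] F') : rmapA i (RatFunc.X : RatFunc F) = RatFunc.X := rmap_X _

theorem rmapA_algebraMap (i : F →ₐ[ℂ] F') (p : F[X]) :
    rmapA i (algebraMap F[X] (RatFunc F) p) =
      algebraMap F'[X] (RatFunc F') (p.map (i : F →+* F')) := rmap_algebraMap _ p

theorem Inf.mapA (i : F →ₐ[ℂ] F') {y : RatFunc F} {c : F} (h : Inf y c) :
    Inf (rmapA i y) (i c) := h.map (i : F →+* F')

/-- the change of coordinate commutes with base change -/
theorem rmapA_mobA (i : F →ₐ[ℂ] F') (e : F) (y : RatFunc F) :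
    rmapA i (mobA e y) = mobA (i e) (rmapA i y) := by
  have h : (rmapA i : RatFunc F →+* RatFunc F').comp (mob e) =
      (mob (i e)).comp (rmapA i : RatFunc F →+* RatFunc F') := by
    refine ratFunc_hom_ext (fun c => ?_) ?_
    · change rmapA i (mob e (RatFunc.C c)) = mob (i e) (rmapA i (RatFunc.C c))
      rw [mob_C, rmapA_C, mob_C]
    · change rmapA i (mob e RatFunc.X) = mob (i e) (rmapA i RatFunc.X)
      rw [mob_X, rmapA_X, mob_X, map_add, map_inv₀, rmapA_C, rmapA_X]
  exact congrArg (fun g => g y) h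

theorem rmapA_mobIA (i : F →ₐ[ℂ] F') (e : F) (y : RatFunc F) :
    rmapA i (mobIA e y) = mobIA (i e) (rmapA i y) := by
  have h := rmapA_mobA i e (mobIA e y)
  rw [mobA_mobIA] at h
  rw [h, mobIA_mobA]

theorem rmapA_comp {F'' : Type} [Field F''] [Algebra ℂ F''] (i : F →ₐ[ℂ] F') (j : F' →ₐ[ℂ] F'')
    (y : RatFunc F) : rmapA j (rmapA i y) = rmapA (j.comp i) y := by
  have h : (rmapA j : RatFunc F' →+* RatFunc F'').comp (rmapA i : RatFunc F →+* RatFunc F') =
      (rmapA (j.comp i) : RatFunc F →+* RatFunc F'') := by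
    refine ratFunc_hom_ext (fun c => ?_) ?_
    · change rmapA j (rmapA i (RatFunc.C c)) = rmapA (j.comp i) (RatFunc.C c)
      rw [rmapA_C, rmapA_C, rmapA_C]
      rfl
    · change rmapA j (rmapA i RatFunc.X) = rmapA (j.comp i) RatFunc.X
      rw [rmapA_X, rmapA_X, rmapA_X]
  exact congrArg (fun g => g y) h

theorem rmapA_id (y : RatFunc F) : rmapA (AlgHom.id ℂ F) y = y := by
  have h : (rmapA (AlgHom.id ℂ F) : RatFunc F →+* RatFunc F) = RingHom.id _ := by
    refine ratFunc_hom_ext (fun c => ?_) ?_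
    · change rmapA (AlgHom.id ℂ F) (RatFunc.C c) = _
      rw [rmapA_C]
      rfl
    · change rmapA (AlgHom.id ℂ F) RatFunc.X = _
      rw [rmapA_X]
      rfl
  exact congrArg (fun g => g y) h

theorem mon_mapA {d : ℕ} (i : F →ₐ[ℂ] F') (x : Fin d → F) (χ : Fin d → ℤ) :
    mon (fun j => i (x j)) χ = i (mon x χ) := by
  unfold mon
  rw [map_prod]
  simp only [map_zpow₀]

theorem ev_mapA {d : ℕ} (i : F →ₐ[ℂ] F') (g : Lau d) (x : Fin d → F) :
    ev g (fun j => i (x j)) = i (ev g x) := by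
  unfold ev
  simp only [mon_mapA]
  rw [map_sum]
  exact Finset.sum_congr rfl fun χ _ => by rw [map_mul, i.commutes]

theorem fin_append_mapA {dB r : ℕ} (i : F →ₐ[ℂ] F') (u : Fin dB → F) (z : Fin r → F) :
    (fun j => i (Fin.append u z j)) = Fin.append (fun j => i (u j)) (fun j => i (z j)) := by
  funext j
  refine Fin.addCases (fun j => ?_) (fun j => ?_) j
  · rw [Fin.append_left, Fin.append_left]
  · rw [Fin.append_right, Fin.append_right]

end

section

variable {dB r : ℕ} {B Q V : Type} [Fintype V] [DecidableEq V]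
  {f : B ⊕ Q → Lau (dB + r)} {Δ : FanV V r} {F F' : Type} [Field F] [Algebra ℂ F] [Field F']
  [Algebra ℂ F']

/-- base change of the point at infinity -/
theorem LimInf.mapA {σ : Finset V} {y : Fin r → RatFunc F} {τ : Finset V} {z : Fin r → F}
    (h : LimInf Δ σ y τ z) (i : F →ₐ[ℂ] F') :
    LimInf Δ σ (fun j => rmapA i (y j)) τ (fun j => i (z j)) := by
  obtain ⟨h1, h2, g, h3, h4, h5, h6⟩ := h
  refine ⟨h1, h2, fun v => rmapA i (g v), fun v => ?_, fun v hv => ?_, fun v hv hv' => ?_,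
    fun j => ⟨?_, ?_⟩⟩
  · exact (map_ne_zero_iff _ (rmapA i).toRingHom.injective).2 (h3 v)
  · beta_reduce
    rw [h4 v hv, map_one]
  · have := (h5 v hv hv').mapA i
    rwa [map_zero] at this
  · exact (map_ne_zero_iff _ i.toRingHom.injective).2 (h6 j).1
  · have := (h6 j).2.mapA i
    rw [map_mul, map_prod] at this
    simp only [map_zpow₀] at this
    exact this

variable {K : Type} [Field K] [Algebra ℂ K] {x : Fin (dB + r) → K}

omit [Fintype V] [DecidableEq V] in
/-- base change of the family over a curve of the base -/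
theorem IsFam.map {φB : KBf x →ₐ[ℂ] RatFunc F} {x₀ : Fin (dB + r) → F}
    {a : Q → (Fin (dB + r) → ℤ) → F[X]} {D : Q → ℕ} (h : IsFam x f φB x₀ a D) (i : F →ₐ[ℂ] F') :
    IsFam x f ((rmapA i).comp φB) (fun j => i (x₀ j))
      (fun q χ => (a q χ).map (i : F →+* F')) D := by
  obtain ⟨den, hden, hfam⟩ := h.fam
  refine ⟨h.pos, fun j => (h.inf j).mapA i, fun q χ hχ => ?_, fun q χ hχ => ?_,
    fun q => (den q).map (i : F →+* F'), fun q => ?_, fun q χ hχ => ?_⟩
  · rw [natDegree_map]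
    exact h.deg q χ hχ
  · rw [coeff_map, h.top q χ hχ, cst_mapA]
    rfl
  · rw [Ne, Polynomial.map_eq_zero]
    exact hden q
  · have h1 := congrArg (rmapA i) (hfam q χ hχ)
    simp only [map_mul, map_prod, map_zpow₀, rmapA_algebraMap, rmapA_C] at h1
    rw [h1]
    simp only [AlgHom.comp_apply, map_prod, map_zpow₀, i.commutes]

variable [Fintype Q]

/-- base change of the input of the final step -/
theorem FinIn.map {iB : KBf x →ₐ[ℂ] F} {φB : KBf x →ₐ[ℂ] RatFunc F}
    {X : Fin (dB + r) → RatFunc F} {σ τ : Finset V} {xb : Fin dB → F} {z : Fin r → F}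
    {m : V → ℕ} {W : V → F[X]} {e : F} {Xe : Fin (dB + r) → F}
    {a : Q → (Fin (dB + r) → ℤ) → F[X]} {den : Q → F[X]} {g : F[X]} {N0 : ℤ}
    (h : FinIn x f Δ F iB φB X σ τ xb z m W e Xe a den g N0) (i : F →ₐ[ℂ] F') :
    FinIn x f Δ F' (i.comp iB) ((rmapA i).comp φB) (fun j => rmapA i (X j)) σ τ
      (fun j => i (xb j)) (fun j => i (z j)) m (fun v => (W v).map (i : F →+* F')) (i e)
      (fun j => i (Xe j)) (fun q χ => (a q χ).map (i : F →+* F'))
      (fun q => (den q).map (i : F →+* F')) (g.map (i : F →+* F')) N0 := by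
  have hinj : Function.Injective i := i.toRingHom.injective
  refine ⟨h.pair.map i, fun j => ?_, h.bd.map (rmapA i), fun q => ?_, fun j => ?_, fun j => ?_,
    h.lim.mapA i, ?_, fun j => ?_, fun j => ?_, ?_⟩
  · rw [AlgHom.comp_apply, h.base]
  · rw [ev_mapA (rmapA i), h.beq, map_zero]
  · exact (map_ne_zero_iff _ hinj).2 (h.xb_ne j)
  · exact (h.inf j).mapA i
  · have h1 := h.tooth.map i
    rw [fin_append_mapA] at h1
    simp only [defC_ind_map] at h1
    exact h1
  · exact (map_ne_zero_iff _ hinj).2 (h.xe_ne j)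
  · rw [← rmapA_mobA]
    exact (h.xe j).mapA i
  · have h1 := h.defd.map i
    simp only [rmapA_mobA] at h1
    exact h1

end

end Pool.Agent.Work.WRC
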