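import Mathlib
import Pool.Agent.Work.MP_4329d7_ag_wrc.Cox

/-!
W-RC, comb_exist: polynomial gauge transformations with a prescribed first order part.
-/

namespace Pool.Agent.Work.WRC

namespace KGau

/-- first order expansion of a power -/
theorem pow_expand {A : Type*} [CommRing A] (w p : A) (a : ℕ) :
    ∃ r, (1 - w * p) ^ a = 1 - w * ((a : A) * p) + w ^ 2 * r := by
  induction a with
  | zero => exact ⟨0, by simp⟩
  | succ a ih =>
    obtain ⟨r, hr⟩ := ih
    refine ⟨(a : A) * p * p + r - w * p * r, ?_⟩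
    rw [pow_succ, hr]
    push_cast
    ring

/-- first order expansion of a product of powers -/
theorem prod_expand {A I : Type*} [CommRing A] (s : Finset I) (w : A) (p : I → A) (a : I → ℕ) :
    ∃ r, ∏ i ∈ s, (1 - w * p i) ^ a i = 1 - w * (∑ i ∈ s, (a i : A) * p i) + w ^ 2 * r := by
  classical
  induction s using Finset.induction_on with
  | empty => exact ⟨0, by simp⟩
  | insert i s hi ih =>
    obtain ⟨r, hr⟩ := ih
    obtain ⟨r', hr'⟩ := pow_expand w (p i) (a i)
    refine ⟨(a i : A) * p i * ∑ i ∈ s, (a i : A) * p i + r - w * ((a i : A) * p i) * r +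
      r' * (1 - w * (∑ i ∈ s, (a i : A) * p i) + w ^ 2 * r), ?_⟩
    rw [Finset.prod_insert hi, Finset.sum_insert hi, hr, hr']
    ring

/-- a common denominator -/
theorem exists_denom {J : Type*} [Fintype J] (q : J → ℚ) :
    ∃ (N : ℕ) (z : J → ℤ), N ≠ 0 ∧ ∀ j, q j * N = z j := by
  classical
  refine ⟨∏ j, (q j).den, fun j => (q j).num * ∏ i ∈ Finset.univ.erase j, ((q i).den : ℤ),
    Finset.prod_ne_zero_iff.2 fun j _ => (q j).den_nz, fun j => ?_⟩
  rw [← Finset.mul_prod_erase _ _ (Finset.mem_univ j)]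
  push_cast
  rw [← mul_assoc, Rat.mul_den_eq_num]

variable {V Q Mo : Type} [Fintype V]

/-- Euler vectors over a `ℚ`-algebra are combinations of natural relations -/
theorem exists_comb {A : Type*} [CommRing A] [Algebra ℚ A] (S : Cox V Q Mo) {n : V → ℕ}
    (hn : S.Rel fun v => (n v : ℤ)) (hn1 : ∀ v, 1 ≤ n v) (l : V → A) (hl : S.Eul l) :
    ∃ (m : ℕ) (lam : Option (Fin m) → V → ℕ) (p : Option (Fin m) → A),
      (∀ i, S.Rel fun v => (lam i v : ℤ)) ∧ ∀ v, l v = ∑ i, (lam i v : A) * p i := by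
  classical
  let W : Submodule ℚ A := Submodule.span ℚ (Set.range l)
  have : Module.Finite ℚ W := Module.Finite.span_of_finite ℚ (Set.finite_range l)
  let m := Module.finrank ℚ W
  let b : Module.Basis (Fin m) ℚ W := Module.finBasis ℚ W
  let lW : V → W := fun v => ⟨l v, Submodule.subset_span ⟨v, rfl⟩⟩
  have hlW : ∀ v, (lW v : A) = l v := fun v => rfl
  let q : Fin m → V → ℚ := fun i v => b.repr (lW v) i
  have hq : ∀ v, l v = ∑ i, q i v • (b i : A) := by
    intro v
    have h1 := b.sum_repr (lW v)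
    have h2 := congrArg (Subtype.val : W → A) h1
    rw [hlW] at h2
    rw [← h2]
    push_cast
    rfl
  have hqrel : ∀ i j, ∑ v, (S.ray v j : ℚ) * q i v = 0 := by
    intro i j
    have h1 : ∑ v, (S.ray v j : ℚ) • lW v = 0 := by
      apply Subtype.ext
      push_cast
      rw [← hl j]
      refine Finset.sum_congr rfl fun v _ => ?_
      rw [Algebra.smul_def, map_intCast]
    have h2 := congrArg (fun z => b.repr z i) h1
    simp only [map_sum, map_smul, map_zero, Finsupp.coe_zero, Pi.zero_apply,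
      Finsupp.coe_finsetSum, Finset.sum_apply, Finsupp.smul_apply, smul_eq_mul] at h2
    exact h2
  obtain ⟨N, z, hN, hz⟩ := exists_denom (fun j : Fin m × V => q j.1 j.2)
  have hNQ : (N : ℚ) ≠ 0 := Nat.cast_ne_zero.2 hN
  have hzrel : ∀ i, S.Rel fun v => z (i, v) := by
    intro i j
    have h1 : (∑ v, (S.ray v j : ℚ) * (z (i, v) : ℚ)) = 0 := by
      have h2 : ∀ v, (S.ray v j : ℚ) * (z (i, v) : ℚ) = ((S.ray v j : ℚ) * q i v) * N := by
        intro v
        rw [← hz (i, v)]
        ring
      rw [Finset.sum_congr rfl fun v _ => h2 v, ← Finset.sum_mul, hqrel, zero_mul]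
    exact_mod_cast h1
  let M : ℕ := ∑ j : Fin m × V, (z j).natAbs
  have hM : ∀ i v, 0 ≤ z (i, v) + M * n v := by
    intro i v
    have h1 : (z (i, v)).natAbs ≤ M :=
      Finset.single_le_sum (f := fun j : Fin m × V => (z j).natAbs) (fun _ _ => Nat.zero_le _)
        (Finset.mem_univ (i, v))
    have h2 : M ≤ M * n v := Nat.le_mul_of_pos_right M (hn1 v)
    have h3 : -((z (i, v)).natAbs : ℤ) ≤ z (i, v) := by omega
    have h4 : ((z (i, v)).natAbs : ℤ) ≤ (M : ℤ) * n v := by exact_mod_cast h1.trans h2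
    linarith
  let bN : Fin m → A := fun i => (N : ℚ)⁻¹ • (b i : A)
  let lam : Option (Fin m) → V → ℕ := fun i v => match i with
    | none => n v
    | some i => (z (i, v) + M * n v).toNat
  let p : Option (Fin m) → A := fun i => match i with
    | none => -(M : A) * ∑ i, bN i
    | some i => bN i
  refine ⟨m, lam, p, fun i => ?_, fun v => ?_⟩
  · rcases i with _ | i
    · exact hn
    · intro j
      have h1 : ∀ v, ((lam (some i) v : ℕ) : ℤ) = z (i, v) + M * n v := fun v =>
        Int.toNat_of_nonneg (hM i v)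
      simp only [h1, mul_add, Finset.sum_add_distrib]
      rw [hzrel i j, zero_add]
      have h2 : ∀ v, S.ray v j * ((M : ℤ) * n v) = M * (S.ray v j * n v) := fun v => by ring
      rw [Finset.sum_congr rfl fun v _ => h2 v, ← Finset.mul_sum, hn j, mul_zero]
  · rw [Fintype.sum_option]
    have h1 : ∀ i, ((lam (some i) v : ℕ) : A) = ((z (i, v) : ℤ) : A) + M * n v := by
      intro i
      have h2 : ((lam (some i) v : ℕ) : ℤ) = z (i, v) + M * n v := Int.toNat_of_nonneg (hM i v)
      have h3 := congrArg (Int.cast : ℤ → A) h2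
      push_cast at h3
      exact h3
    have h2 : ∀ i, ((z (i, v) : ℤ) : A) * bN i = q i v • (b i : A) := by
      intro i
      have h3 : ((z (i, v) : ℤ) : A) = algebraMap ℚ A (z (i, v) : ℚ) := by
        rw [map_intCast]
      rw [h3, ← hz (i, v), ← Algebra.smul_def, smul_smul, mul_assoc, mul_inv_cancel₀ hNQ,
        mul_one]
    have h3 : ∀ i, ((lam (some i) v : ℕ) : A) * p (some i) =
        q i v • (b i : A) + (M : A) * n v * bN i := by
      intro i
      rw [h1, add_mul]
      congr 1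
      exact h2 i
    rw [Finset.sum_congr rfl fun i _ => h3 i, Finset.sum_add_distrib, ← hq, ← Finset.mul_sum]
    change l v = (n v : A) * (-(M : A) * ∑ i, bN i) + (l v + (M : A) * n v * ∑ i, bN i)
    ring

end KGau

variable {V Q Mo : Type} [Fintype V]

/-- a polynomial gauge transformation with a prescribed first order part -/
theorem exists_gauge {A : Type*} [CommRing A] [Algebra ℚ A] (S : Cox V Q Mo) {n : V → ℕ}
    (hn : S.Rel fun v => (n v : ℤ)) (hn1 : ∀ v, 1 ≤ n v) (l : V → A) (hl : S.Eul l) (w : A) :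
    ∃ (c : V → A) (U : Q → A), (∀ q, ∀ x ∈ S.supp q, ∏ v, c v ^ S.e q x v = U q) ∧
      ∀ v, ∃ r, c v = 1 - w * l v + w ^ 2 * r := by
  classical
  obtain ⟨m, lam, p, hlam, hp⟩ := KGau.exists_comb S hn hn1 l hl
  refine ⟨fun v => ∏ i, (1 - w * p i) ^ lam i v,
    fun q => ∏ i, (1 - w * p i) ^ (S.m (fun v => (lam i v : ℤ)) q).toNat, fun q x hx => ?_,
    fun v => ?_⟩
  · simp only [← Finset.prod_pow, ← pow_mul]
    rw [Finset.prod_comm]
    refine Finset.prod_congr rfl fun i _ => ?_
    rw [Finset.prod_pow_eq_pow_sum]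
    congr 1
    have h1 := Cox.rel_sum (hlam i) hx
    rw [← h1]
    have h2 : (∑ v, (lam i v : ℤ) * (S.e q x v : ℤ)) = ((∑ v, lam i v * S.e q x v : ℕ) : ℤ) := by
      push_cast
      rfl
    rw [h2, Int.toNat_natCast]
  · obtain ⟨r, hr⟩ := KGau.prod_expand Finset.univ w p (fun i => lam i v)
    refine ⟨r, ?_⟩
    rw [hp v]
    exact hr

end Pool.Agent.Work.WRC
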