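import Mathlib
import Pool.Agent.Work.MP_4329d7_ag_wrc.Defs

/-!
# Restriction of a system in Cox coordinates to a set of rays

`Cox.res S P`: the variables `v` with `¬ P v` are set to `1`.
-/

namespace Pool.Agent.Work.WRC

open Polynomial

section

variable {V Q Mo : Type}

/-- the system in the variables `v` with `P v` -/
def Cox.res (S : Cox V Q Mo) (P : V → Prop) : Cox {v // P v} Q Mo where
  r := S.r
  ray v := S.ray v
  supp := S.supp
  ch := S.ch
  h q v := S.h q v
  e q x v := S.e q x v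
  he q x hx v := S.he q x hx v

variable [Fintype V] {S : Cox V Q Mo} {P : V → Prop} [DecidablePred P]

theorem res_sum {A : Type*} [AddCommMonoid A] (g : V → A) (h : ∀ v, ¬ P v → g v = 0) :
    ∑ v : {v // P v}, g v = ∑ v, g v := by
  rw [← Finset.sum_subtype (Finset.univ.filter P) (fun v => by simp) g]
  refine Finset.sum_subset (Finset.filter_subset _ _) fun v _ hv => h v fun hP => hv ?_
  rw [Finset.mem_filter]
  exact ⟨Finset.mem_univ _, hP⟩

theorem res_prod {A : Type*} [CommMonoid A] (g : V → A) (h : ∀ v, ¬ P v → g v = 1) :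
    ∏ v : {v // P v}, g v = ∏ v, g v := by
  rw [← Finset.prod_subtype (Finset.univ.filter P) (fun v => by simp) g]
  refine Finset.prod_subset (Finset.filter_subset _ _) fun v _ hv => h v fun hP => hv ?_
  rw [Finset.mem_filter]
  exact ⟨Finset.mem_univ _, hP⟩

theorem Cox.F_res {A : Type*} [CommRing A] (c : Q → Mo → A) (q : Q) {Y : V → A}
    (hY : ∀ v, ¬ P v → Y v = 1) : (S.res P).F c q (fun v => Y v) = S.F c q Y := by
  rw [Cox.F_eq, Cox.F_eq]
  refine Finset.sum_congr rfl fun x _ => ?_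
  congr 1
  exact res_prod (fun v => Y v ^ S.e q x v) fun v hv => by rw [hY v hv, one_pow]

theorem Cox.J_res {A : Type*} [CommRing A] (c : Q → Mo → A) (q : Q) (w : {v // P v}) {Y : V → A}
    (hY : ∀ v, ¬ P v → Y v = 1) : (S.res P).J c q w (fun v => Y v) = S.J c q w Y := by
  classical
  rw [Cox.J_eq, Cox.J_eq]
  refine Finset.sum_congr rfl fun x _ => ?_
  congr 1
  have h1 : ∀ v : {v // P v}, (Y v) ^ ((S.res P).e q x v - if v = w then 1 else 0) =
      (fun v => Y v ^ (S.e q x v - if v = w.1 then 1 else 0)) v.1 := by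
    intro v
    have h2 : (if v = w then 1 else 0 : ℕ) = if v.1 = w.1 then 1 else 0 := by
      simp only [Subtype.ext_iff]
    rw [h2]
    rfl
  rw [Finset.prod_congr rfl fun v _ => h1 v]
  exact res_prod (fun v => Y v ^ (S.e q x v - if v = w.1 then 1 else 0))
    fun v hv => by rw [hY v hv, one_pow]

theorem Cox.rel_res {n : V → ℤ} (h : S.Rel n) (hn : ∀ v, ¬ P v → n v = 0) :
    (S.res P).Rel (fun v => n v) := by
  intro i
  rw [← h i]
  exact res_sum (fun v => S.ray v i * n v) fun v hv => by rw [hn v hv, mul_zero]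

theorem Cox.m_res {n : V → ℤ} (hn : ∀ v, ¬ P v → n v = 0) (q : Q) :
    (S.res P).m (fun v => n v) q = S.m n q :=
  res_sum (fun v => n v * S.h q v) fun v hv => by rw [hn v hv, zero_mul]

theorem Cox.eul_res {A : Type*} [CommRing A] {γ : V → A} (h : S.Eul γ)
    (hγ : ∀ v, ¬ P v → γ v = 0) : (S.res P).Eul (fun v => γ v) := by
  intro i
  rw [← h i]
  exact res_sum (fun v => (S.ray v i : A) * γ v) fun v hv => by rw [hγ v hv, mul_zero]

/-- extension by `0` -/
theorem Cox.eul_ext {A : Type*} [CommRing A] {γ : {v // P v} → A} (h : (S.res P).Eul γ) :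
    S.Eul fun v => if hv : P v then γ ⟨v, hv⟩ else 0 := by
  intro i
  refine Eq.trans ?_ (h i)
  refine (res_sum (P := P) (fun v => (S.ray v i : A) * if hv : P v then γ ⟨v, hv⟩ else 0)
    fun v hv => by rw [dif_neg hv, mul_zero]).symm.trans ?_
  refine Finset.sum_congr rfl fun v _ => ?_
  rw [dif_pos v.2]
  rfl

/-- sums of products with the columns of the Jacobian -/
theorem Cox.J_sum_res {A : Type*} [CommRing A] (c : Q → Mo → A) (q : Q) {Y h : V → A}
    (hY : ∀ v, ¬ P v → Y v = 1) (hh : ∀ v, ¬ P v → h v = 0) :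
    ∑ v : {v // P v}, (S.res P).J c q v (fun v => Y v) * h v = ∑ v, S.J c q v Y * h v := by
  rw [← res_sum (P := P) (fun v => S.J c q v Y * h v) fun v hv => by rw [hh v hv, mul_zero]]
  exact Finset.sum_congr rfl fun v _ => by rw [Cox.J_res c q v hY]

theorem FreeS_res {k : Type} [Field k] {c : Q → Mo → k[X]} {T : V → k[X]} {n : V → ℤ}
    {E : Q → ℤ} (hf : FreeS S c T n E) (hT : ∀ v, ¬ P v → T v = 1) (hn : ∀ v, ¬ P v → n v = 0) :
    FreeS (S.res P) c (fun v => T v) (fun v => n v) E := by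
  intro g hg
  obtain ⟨h, h1, h2⟩ := hf g hg
  have h0 : ∀ v, ¬ P v → h v = 0 := fun v hv =>
    (h1 v).eq_zero (by rw [hn v hv]; omega)
  refine ⟨fun v => h v, fun v => h1 v, fun q => ?_⟩
  rw [Cox.J_sum_res c q hT h0]
  exact h2 q

theorem VFreeS_res {k : Type} [Field k] {c : Q → Mo → k[X]} {T : V → k[X]} {n : V → ℤ}
    {E : Q → ℤ} (hf : VFreeS S c T n E) (hT : ∀ v, ¬ P v → T v = 1)
    (hn : ∀ v, ¬ P v → n v = 0) : VFreeS (S.res P) c (fun v => T v) (fun v => n v) E := by
  intro g hg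
  obtain ⟨h, γ, h0, h1, h3, h2⟩ := hf g hg
  have hz : ∀ v, ¬ P v → h v = 0 := fun v hv =>
    (h1 v).eq_zero (by rw [hn v hv]; omega)
  have hγ : ∀ v, ¬ P v → γ v = 0 := by
    intro v hv
    have h4 := h3 v
    have h5 : lc (0 : k[X]) (n v - 1) = 0 := by unfold lc; simp
    have h6 : lc (1 : k[X]) (n v) = 1 := by rw [hn v hv]; exact lc_one
    rw [hz v hv, hT v hv, h5, h6, mul_one] at h4
    exact h4.symm
  refine ⟨fun v => h v, fun v => γ v, Cox.eul_res h0 hγ, fun v => h1 v, fun v => h3 v,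
    fun q => ?_⟩
  rw [Cox.J_sum_res c q hT hz]
  exact h2 q

end

end Pool.Agent.Work.WRC
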