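import Mathlib
import Pool.Agent.Work.MP_4329d7_ag_wrc.PrcPair

/-!
W-RC, item (9) of the final step: the comb through two teeth which form a generic pair of points is a
curve with a generic pair of points.

* `exists_sq`: the substitution `u ↦ u ^ 2`, `sq_hom`: its effect on a tooth;
* `pair`: the curve `X' * ∏ Y_v ^ ray_v` over the power series, which expands at the positions `E₀`,
  `E₁` to the teeth `W₀`, `W₁`;
* `pair_prc`: the conclusion `PRC K`.
-/

namespace Pool.Agent.Work.WRC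

open Polynomial Pool.Agent.Work.CI Pool.Agent.Work.CW Pool.Agent.Work.MP_4329d7_ag_sq

namespace PairW

/-- the exponents of the coordinates: numerators, denominators, the variables -/
def cc {d : ℕ} {V : Type} (b : V → Fin d → ℤ) : Fin d ⊕ (Fin d ⊕ V) → Fin d → ℤ :=
  Sum.elim (fun l' l => if l' = l then 1 else 0)
    (Sum.elim (fun l' l => if l' = l then -1 else 0) b)

theorem prod_cc {d : ℕ} {V F : Type} [Fintype V] [Field F] (num den : Fin d → F) (y : V → F)
    (b : V → Fin d → ℤ) (l : Fin d) :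
    ∏ w, Sum.elim num (Sum.elim den y) w ^ cc b w l = num l / den l * ∏ v, y v ^ b v l := by
  classical
  rw [Fintype.prod_sum_type, Fintype.prod_sum_type]
  simp only [cc, Sum.elim_inl, Sum.elim_inr]
  rw [Finset.prod_eq_single l, Finset.prod_eq_single l, if_pos rfl, if_pos rfl, zpow_one,
    zpow_neg_one, ← mul_assoc, div_eq_mul_inv]
  · intro l' _ h
    rw [if_neg h, zpow_zero]
  · intro h
    exact absurd (Finset.mem_univ _) h
  · intro l' _ h
    rw [if_neg h, zpow_zero]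
  · intro h
    exact absurd (Finset.mem_univ _) h

theorem sum_cc {d : ℕ} {V : Type} [Fintype V] (b : V → Fin d → ℤ) (m : V → ℕ) (l : Fin d) :
    ∑ w, cc b w l * ((Sum.elim (fun _ => 0) (Sum.elim (fun _ => 0) m) w : ℕ) : ℤ) =
      ∑ v, b v l * (m v : ℤ) := by
  rw [Fintype.sum_sum_type, Fintype.sum_sum_type]
  simp [cc]

/-- the value at the position -/
theorem eval_pos {F F2 : Type} [Field F] [Algebra ℂ F] [Field F2] [Algebra ℂ F2] (i : F →ₐ[ℂ] F2)
    (E : RatFunc F →ₐ[ℂ] F2) (hE : ∀ c, E (RatFunc.C c) = i c) (P : F[X]) :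
    (P.map (i : F →+* F2)).eval (E RatFunc.X) = E (algebraMap F[X] (RatFunc F) P) := by
  induction P using Polynomial.induction_on' with
  | add p q hp hq => rw [Polynomial.map_add, eval_add, hp, hq, map_add, map_add]
  | monomial n a =>
    rw [map_monomial, eval_monomial, ← C_mul_X_pow_eq_monomial, map_mul, map_pow, map_mul, map_pow,
      RatFunc.algebraMap_C, RatFunc.algebraMap_X, hE]
    rfl

end PairW

/-- the substitution `u ↦ u ^ 2` -/
theorem exists_sq (k : Type) [Field k] [Algebra ℂ k] : ∃ s : RatFunc k →ₐ[ℂ] RatFunc k,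
    (∀ c, s (RatFunc.C c) = RatFunc.C c) ∧ ∀ P : k[X], s (algebraMap k[X] (RatFunc k) P) =
      algebraMap k[X] (RatFunc k) (P.comp (X ^ 2)) := by
  obtain ⟨s, hs⟩ := Spz.exists_compA (L := k) (X ^ 2) (by rw [natDegree_X_pow]; norm_num)
  refine ⟨s, fun c => ?_, hs⟩
  rw [← RatFunc.algebraMap_C, hs, C_comp]

/-- the substitution in a curve -/
theorem sq_hom {K k : Type} [Field K] [Algebra ℂ K] [Field k] [Algebra ℂ k] {d : ℕ} {V : Type}
    [Fintype V] {x : Fin d → K} {x' : Fin d → k} {W : V → k[X]} {b : V → Fin d → ℤ}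
    {φ : K →ₐ[ℂ] RatFunc k} (hφ : ∀ l, φ (x l) = RatFunc.C (x' l) *
      ∏ v, algebraMap k[X] (RatFunc k) (W v) ^ b v l)
    {s : RatFunc k →ₐ[ℂ] RatFunc k} (hs : ∀ c, s (RatFunc.C c) = RatFunc.C c)
    (hs' : ∀ P : k[X], s (algebraMap k[X] (RatFunc k) P) =
      algebraMap k[X] (RatFunc k) (P.comp (X ^ 2))) (l : Fin d) :
    (s.comp φ) (x l) = RatFunc.C (x' l) *
      ∏ v, algebraMap k[X] (RatFunc k) ((W v).comp (X ^ 2)) ^ b v l := by
  rw [AlgHom.comp_apply, hφ, map_mul, hs, map_prod]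
  simp only [map_zpow₀, hs']

/-- THE PAIR (item (9) of note 3488). The curve `X' * ∏ Y_v ^ ray_v` over `PowerSeries F2`, which
expands at the positions `E₀ X`, `E₁ X` to the teeth `W₀ (u ^ 2)`, `W₁ (u ^ 2)` over the points
`E₀ X'`, `E₁ X'`; if these two points of `K` are independent, then the curve has a generic pair of
points. -/
theorem pair {K : Type} [Field K] [Algebra ℂ K] {n dB r : ℕ} {B Q V : Type} [Fintype B]
    [Fintype Q] [Fintype V] {x : Fin (dB + r) → K} {f : B ⊕ Q → Lau (dB + r)}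
    (D : Data K n (dB + r) (B ⊕ Q) x f) (ray : V → Fin r → ℤ) {m : V → ℕ}
    (hm : (coxF f ray).Rel fun v => (m v : ℤ))
    {F F2 : Type} [Field F] [Algebra ℂ F] [Field F2] [Algebra ℂ F2] (i : F →ₐ[ℂ] F2)
    (X' : Fin (dB + r) → RatFunc F) (hX : ∀ l, X' l ≠ 0)
    (E₀ E₁ : RatFunc F →ₐ[ℂ] F2) (hE₀ : ∀ c, E₀ (RatFunc.C c) = i c)
    (hE₁ : ∀ c, E₁ (RatFunc.C c) = i c) (W₀ W₁ : V → F2[X]) (hW₀ : ∀ v, W₀ v ≠ 0)
    (hW₁ : ∀ v, W₁ v ≠ 0) (Y : V → (PowerSeries F2)[X])
    (hY₀ : ∃ c : F2, c ≠ 0 ∧ ∀ v, ∃ Z, ex (E₀ RatFunc.X) (Y v) = eps F2 ^ (2 * m v) * Z ∧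
      red Z = C (c ^ (2 * m v)) * (W₀ v).comp (X ^ 2))
    (hY₁ : ∃ c : F2, c ≠ 0 ∧ ∀ v, ∃ Z, ex (E₁ RatFunc.X) (Y v) = eps F2 ^ (2 * m v) * Z ∧
      red Z = C (c ^ (2 * m v)) * (W₁ v).comp (X ^ 2))
    {L2 : Type} [Field L2] [Algebra ℂ L2] (θ : PowerSeries F2 →+* L2)
    (hθ : Function.Injective θ)
    (hθC : ∀ c : ℂ, θ (PowerSeries.C (algebraMap ℂ F2 c)) = algebraMap ℂ L2 c)
    (hev : ∀ q : B ⊕ Q, ev (f q) (fun l =>
      rmap ((θ.comp PowerSeries.C).comp (i : F →+* F2)) (X' l) *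
        ∏ v, algebraMap L2[X] (RatFunc L2) ((Y v).map θ) ^
          (fibv (ray v) : Fin (dB + r) → ℤ) l) = 0)
    (p₀ q₀ : K →ₐ[ℂ] RatFunc F2)
    (hp₀ : ∀ l, p₀ (x l) = RatFunc.C (E₀ (X' l)) *
      ∏ v, algebraMap F2[X] (RatFunc F2) ((W₀ v).comp (X ^ 2)) ^
        (fibv (ray v) : Fin (dB + r) → ℤ) l)
    (hq₀ : ∀ l, q₀ (x l) = RatFunc.C (E₁ (X' l)) *
      ∏ v, algebraMap F2[X] (RatFunc F2) ((W₁ v).comp (X ^ 2)) ^
        (fibv (ray v) : Fin (dB + r) → ℤ) l)
    (h : Indep2 ((CA F2).comp p₀) ((psiA F2).comp q₀)) :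
    ∃ ψ : K →ₐ[ℂ] RatFunc L2, (∀ l, ψ (x l) =
      rmap ((θ.comp PowerSeries.C).comp (i : F →+* F2)) (X' l) *
        ∏ v, algebraMap L2[X] (RatFunc L2) ((Y v).map θ) ^
          (fibv (ray v) : Fin (dB + r) → ℤ) l) ∧
      Indep2 ((CA L2).comp ψ) ((psiA L2).comp ψ) := by
  classical
  set b : V → Fin (dB + r) → ℤ := fun v => fibv (ray v) with hb
  have hrel : ∀ l, ∑ v, b v l * (m v : ℤ) = 0 := hm
  have hrel2 : ∀ l, ∑ v, b v l * ((2 * m v : ℕ) : ℤ) = 0 := by
    intro l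
    have h1 : ∑ v, b v l * ((2 * m v : ℕ) : ℤ) = 2 * ∑ v, b v l * (m v : ℤ) := by
      rw [Finset.mul_sum]
      refine Finset.sum_congr rfl fun v _ => ?_
      push_cast
      ring
    rw [h1, hrel, mul_zero]
  -- numerators and denominators
  let nu : Fin (dB + r) → F[X] := fun l => (X' l).num
  let de : Fin (dB + r) → F[X] := fun l => (X' l).denom
  have hnu : ∀ l, nu l ≠ 0 := fun l h => hX l (by
    rw [RatFunc.num_eq_zero_iff] at h; exact h)
  have hde : ∀ l, de l ≠ 0 := fun l => (X' l).denom_ne_zero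
  let lift : F[X] →+* (PowerSeries F2)[X] :=
    mapRingHom ((PowerSeries.C : F2 →+* PowerSeries F2).comp (i : F →+* F2))
  have hlift : ∀ P : F[X], lift P = up (P.map (i : F →+* F2)) := by
    intro P
    change P.map _ = (P.map _).map _
    rw [Polynomial.map_map]
  let Y' : Fin (dB + r) ⊕ (Fin (dB + r) ⊕ V) → (PowerSeries F2)[X] :=
    Sum.elim (fun l => lift (nu l)) (Sum.elim (fun l => lift (de l)) Y)
  let m' : Fin (dB + r) ⊕ (Fin (dB + r) ⊕ V) → ℕ :=
    Sum.elim (fun _ => 0) (Sum.elim (fun _ => 0) fun v => 2 * m v)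
  have hm' : ∀ l, ∑ w, PairW.cc b w l * (m' w : ℤ) = 0 := fun l => by
    rw [PairW.sum_cc b (fun v => 2 * m v) l, hrel2]
  -- the expansion at a position
  have hredx : ∀ (E : RatFunc F →ₐ[ℂ] F2), (∀ c, E (RatFunc.C c) = i c) → ∀ P : F[X],
      red (ex (E RatFunc.X) (lift P)) = C (E (algebraMap F[X] (RatFunc F) P)) := by
    intro E hE P
    rw [red_ex, hlift, red_up, PairW.eval_pos i E hE]
  have hEne : ∀ (E : RatFunc F →ₐ[ℂ] F2) (P : F[X]), P ≠ 0 →
      E (algebraMap F[X] (RatFunc F) P) ≠ 0 := by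
    intro E P hP h0
    rw [map_eq_zero] at h0
    exact Spz.alg_ne hP h0
  have key : ∀ (E : RatFunc F →ₐ[ℂ] F2) (_ : ∀ c, E (RatFunc.C c) = i c) (W : V → F2[X])
      (_ : ∀ v, W v ≠ 0) (_ : ∃ c : F2, c ≠ 0 ∧ ∀ v, ∃ Z,
        ex (E RatFunc.X) (Y v) = eps F2 ^ (2 * m v) * Z ∧
        red Z = C (c ^ (2 * m v)) * (W v).comp (X ^ 2)),
      ∃ Z' : Fin (dB + r) ⊕ (Fin (dB + r) ⊕ V) → (PowerSeries F2)[X],
        (∀ w, ex (E RatFunc.X) (Y' w) = eps F2 ^ m' w * Z' w) ∧ (∀ w, red (Z' w) ≠ 0) ∧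
        ∀ l, ∏ w, algebraMap F2[X] (RatFunc F2) (red (Z' w)) ^ PairW.cc b w l =
          RatFunc.C (E (X' l)) *
            ∏ v, algebraMap F2[X] (RatFunc F2) ((W v).comp (X ^ 2)) ^ b v l := by
    rintro E hE W hW ⟨c, hc, hZ⟩
    choose Z hZ1 hZ2 using hZ
    refine ⟨Sum.elim (fun l => ex (E RatFunc.X) (lift (nu l)))
      (Sum.elim (fun l => ex (E RatFunc.X) (lift (de l))) Z), ?_, ?_, ?_⟩
    · rintro (l | l | v)
      · change ex (E RatFunc.X) (lift (nu l)) = eps F2 ^ 0 * ex (E RatFunc.X) (lift (nu l))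
        rw [pow_zero, one_mul]
      · change ex (E RatFunc.X) (lift (de l)) = eps F2 ^ 0 * ex (E RatFunc.X) (lift (de l))
        rw [pow_zero, one_mul]
      · exact hZ1 v
    · rintro (l | l | v)
      · change red (ex (E RatFunc.X) (lift (nu l))) ≠ 0
        rw [hredx E hE]
        exact C_ne_zero.2 (hEne E _ (hnu l))
      · change red (ex (E RatFunc.X) (lift (de l))) ≠ 0
        rw [hredx E hE]
        exact C_ne_zero.2 (hEne E _ (hde l))
      · change red (Z v) ≠ 0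
        rw [hZ2]
        refine mul_ne_zero (C_ne_zero.2 (pow_ne_zero _ hc)) ?_
        intro h0
        rw [comp_eq_zero_iff] at h0
        rcases h0 with h0 | ⟨_, h0⟩
        · exact hW v h0
        · have h1 := congrArg natDegree h0
          rw [natDegree_X_pow, natDegree_C] at h1
          exact two_ne_zero h1
    · intro l
      have h1 : (fun w => algebraMap F2[X] (RatFunc F2) (red (Sum.elim
          (fun l => ex (E RatFunc.X) (lift (nu l)))
          (Sum.elim (fun l => ex (E RatFunc.X) (lift (de l))) Z) w))) =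
          Sum.elim (fun l => RatFunc.C (E (algebraMap F[X] (RatFunc F) (nu l))))
            (Sum.elim (fun l => RatFunc.C (E (algebraMap F[X] (RatFunc F) (de l))))
              fun v => RatFunc.C (c ^ (2 * m v)) *
                algebraMap F2[X] (RatFunc F2) ((W v).comp (X ^ 2))) := by
        funext w
        rcases w with l | l | v
        · change algebraMap F2[X] (RatFunc F2) (red (ex (E RatFunc.X) (lift (nu l)))) = _
          rw [hredx E hE, RatFunc.algebraMap_C]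
          rfl
        · change algebraMap F2[X] (RatFunc F2) (red (ex (E RatFunc.X) (lift (de l)))) = _
          rw [hredx E hE, RatFunc.algebraMap_C]
          rfl
        · change algebraMap F2[X] (RatFunc F2) (red (Z v)) = _
          rw [hZ2, map_mul, RatFunc.algebraMap_C]
          rfl
      have h2 := PairW.prod_cc (fun l => (RatFunc.C (E (algebraMap F[X] (RatFunc F) (nu l))) :
          RatFunc F2)) (fun l => RatFunc.C (E (algebraMap F[X] (RatFunc F) (de l))))
        (fun v => RatFunc.C (c ^ (2 * m v)) *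
          algebraMap F2[X] (RatFunc F2) ((W v).comp (X ^ 2))) b l
      have h3 : ∏ w, algebraMap F2[X] (RatFunc F2) (red (Sum.elim
          (fun l => ex (E RatFunc.X) (lift (nu l)))
          (Sum.elim (fun l => ex (E RatFunc.X) (lift (de l))) Z) w)) ^ PairW.cc b w l =
          ∏ w, Sum.elim (fun l => (RatFunc.C (E (algebraMap F[X] (RatFunc F) (nu l))) :
          RatFunc F2)) (Sum.elim (fun l => RatFunc.C (E (algebraMap F[X] (RatFunc F) (de l))))
        (fun v => RatFunc.C (c ^ (2 * m v)) *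
          algebraMap F2[X] (RatFunc F2) ((W v).comp (X ^ 2)))) w ^ PairW.cc b w l := by
        rw [← h1]
      rw [h3, h2]
      have h4 : (RatFunc.C (E (algebraMap F[X] (RatFunc F) (nu l))) : RatFunc F2) /
          RatFunc.C (E (algebraMap F[X] (RatFunc F) (de l))) = RatFunc.C (E (X' l)) := by
        rw [← map_div₀, ← map_div₀]
        congr 2
        exact RatFunc.num_div_denom (X' l)
      rw [h4]
      congr 1
      have h5 : ∀ v, (RatFunc.C (c ^ (2 * m v)) *
          algebraMap F2[X] (RatFunc F2) ((W v).comp (X ^ 2))) ^ b v l =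
          RatFunc.C c ^ (b v l * ((2 * m v : ℕ) : ℤ)) *
          algebraMap F2[X] (RatFunc F2) ((W v).comp (X ^ 2)) ^ b v l := by
        intro v
        rw [mul_zpow, map_pow, ← zpow_natCast, ← zpow_mul, mul_comm (((2 * m v : ℕ) : ℤ))]
      rw [Finset.prod_congr rfl fun v _ => h5 v, Finset.prod_mul_distrib]
      have hCc : (RatFunc.C c : RatFunc F2) ≠ 0 := by rwa [Ne, map_eq_zero]
      have h6 : ∀ s : Finset V, ∏ v ∈ s, (RatFunc.C c : RatFunc F2) ^ (b v l * ((2 * m v : ℕ) : ℤ)) =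
          RatFunc.C c ^ ∑ v ∈ s, b v l * ((2 * m v : ℕ) : ℤ) := by
        intro s
        induction s using Finset.induction_on with
        | empty => simp
        | insert a s ha ih => rw [Finset.prod_insert ha, Finset.sum_insert ha, ih, zpow_add₀ hCc]
      rw [h6, hrel2, zpow_zero, one_mul]
  obtain ⟨Z₀, hZ₀, hZ₀', hZ₀''⟩ := key E₀ hE₀ W₀ hW₀ hY₀
  obtain ⟨Z₁, hZ₁, hZ₁', hZ₁''⟩ := key E₁ hE₁ W₁ hW₁ hY₁
  -- the curve
  have hcurve : ∀ l, ∏ w, algebraMap L2[X] (RatFunc L2) ((Y' w).map θ) ^ PairW.cc b w l =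
      rmap ((θ.comp PowerSeries.C).comp (i : F →+* F2)) (X' l) *
        ∏ v, algebraMap L2[X] (RatFunc L2) ((Y v).map θ) ^ b v l := by
    intro l
    have h1 : (fun w => algebraMap L2[X] (RatFunc L2) ((Y' w).map θ)) =
        Sum.elim (fun l => rmap ((θ.comp PowerSeries.C).comp (i : F →+* F2))
            (algebraMap F[X] (RatFunc F) (nu l)))
          (Sum.elim (fun l => rmap ((θ.comp PowerSeries.C).comp (i : F →+* F2))
            (algebraMap F[X] (RatFunc F) (de l)))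
            fun v => algebraMap L2[X] (RatFunc L2) ((Y v).map θ)) := by
      funext w
      rcases w with l | l | v
      · change algebraMap L2[X] (RatFunc L2) (((nu l).map _).map θ) = rmap _ _
        rw [rmap_algebraMap, Polynomial.map_map]
        rfl
      · change algebraMap L2[X] (RatFunc L2) (((de l).map _).map θ) = rmap _ _
        rw [rmap_algebraMap, Polynomial.map_map]
        rfl
      · rfl
    have h2 := PairW.prod_cc (fun l => rmap ((θ.comp PowerSeries.C).comp (i : F →+* F2))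
            (algebraMap F[X] (RatFunc F) (nu l)))
      (fun l => rmap ((θ.comp PowerSeries.C).comp (i : F →+* F2))
            (algebraMap F[X] (RatFunc F) (de l)))
      (fun v => algebraMap L2[X] (RatFunc L2) ((Y v).map θ)) b l
    rw [← h1] at h2
    rw [h2, ← map_div₀]
    congr 2
    exact RatFunc.num_div_denom (X' l)
  obtain ⟨ψ, hψ⟩ := spz_ps D θ hθ hθC (PairW.cc b) Y' Z₀ (E₀ RatFunc.X) m' hZ₀ hZ₀' hm' (fun q => by
    rw [← hev q]
    congr 1
    funext l
    exact hcurve l) p₀ (fun l => by rw [hp₀, hZ₀''])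
  refine ⟨ψ, fun l => by rw [hψ, hcurve], ?_⟩
  exact indep2_ps x D.gen θ hθ hθC (PairW.cc b) Y' Z₀ Z₁ (E₀ RatFunc.X) (E₁ RatFunc.X) m' m' hZ₀ hZ₁
    hZ₀' hZ₁' hm' hm' ψ hψ p₀ q₀ (fun l => by rw [hp₀, hZ₀'']) (fun l => by rw [hq₀, hZ₁'']) h

end Pool.Agent.Work.WRC
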