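import Mathlib

/-!
W-RC, relative version: subfields which are algebraically closed in the whole field, and towers.
-/

namespace Pool.Agent.Work.WRC

variable {K : Type} [Field K] [Algebra ℂ K]

/-- If `L₁` is algebraically closed in `K` and `L₂` in `L₁`, then `L₂` is so in `K`. -/
theorem mem_lift_of_isAlgebraic {L₁ : IntermediateField ℂ K} {L₂ : IntermediateField ℂ L₁}
    (h₁ : ∀ y : K, IsAlgebraic L₁ y → y ∈ L₁) (h₂ : ∀ y : L₁, IsAlgebraic L₂ y → y ∈ L₂)
    (y : K) (hy : IsAlgebraic (IntermediateField.lift L₂) y) : y ∈ IntermediateField.lift L₂ := by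
  have hle : IntermediateField.lift L₂ ≤ L₁ := IntermediateField.lift_le L₂
  obtain ⟨p, hp, hpy⟩ := hy
  -- coefficients in `L₂`
  let e : L₂ ≃ₐ[ℂ] IntermediateField.lift L₂ := IntermediateField.liftAlgEquiv L₂
  have he : ∀ a : L₂, ((e a : IntermediateField.lift L₂) : K) = ((a : L₁) : K) := fun a => rfl
  have he' : ∀ a : IntermediateField.lift L₂, (((e.symm a : L₂) : L₁) : K) = (a : K) := by
    intro a
    rw [← he, e.apply_symm_apply]
  let p₂ : Polynomial L₂ := p.map (e.symm : IntermediateField.lift L₂ →+* L₂)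
  have hp₂ : p₂ ≠ 0 := (Polynomial.map_ne_zero_iff e.symm.injective).2 hp
  -- `y` is algebraic over `L₁`
  let p₁ : Polynomial L₁ := p₂.map (algebraMap L₂ L₁)
  have hp₁ : p₁ ≠ 0 := (Polynomial.map_ne_zero_iff (algebraMap L₂ L₁).injective).2 hp₂
  have hcomp : ∀ z : K, Polynomial.aeval z p₁ = Polynomial.aeval z p := by
    intro z
    rw [Polynomial.aeval_def, Polynomial.aeval_def, Polynomial.eval₂_map, Polynomial.eval₂_map]
    congr 1
  have hy₁ : y ∈ L₁ := h₁ y ⟨p₁, hp₁, by rw [hcomp]; exact hpy⟩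
  have hy₂ : (⟨y, hy₁⟩ : L₁) ∈ L₂ := by
    refine h₂ _ ⟨p₂, hp₂, ?_⟩
    apply Subtype.ext
    have h3 : Polynomial.aeval y p₁ = (algebraMap L₁ K) (Polynomial.aeval (⟨y, hy₁⟩ : L₁) p₂) := by
      rw [Polynomial.aeval_def, Polynomial.aeval_def, Polynomial.hom_eval₂, Polynomial.eval₂_map]
      rfl
    have h4 := hcomp y
    rw [hpy, h3] at h4
    exact h4
  exact (IntermediateField.mem_lift (⟨y, hy₁⟩ : L₁)).2 hy₂

/-- the case `L₂ = ⊤` of a base field which is the whole field -/
theorem mem_top_of_isAlgebraic {L : IntermediateField ℂ K} (h : L = ⊤) (y : K) : y ∈ L := by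
  rw [h]; exact IntermediateField.mem_top

end Pool.Agent.Work.WRC
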