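import Mathlib
import Pool.Agent.Work.MP_4329d7_ag_ci.Pull

/-!
W-RC, relative version: the algebraic closure of a subfield, transfer of forms and of the
transcendence degree.
-/

namespace Pool.Agent.Work.WRC

open Pool.Agent.Work.MP_4329d7_ag.FF Pool.Agent.Work.Uni

variable {K : Type} [Field K] [Algebra ℂ K]

/-- transfer of a nonzero regular pluricanonical form to a bigger field -/
theorem RelForm.transfer (L₀ L : IntermediateField ℂ K) (hL : L₀ ≤ L) {m p : ℕ}
    (htr : Algebra.trdeg ℂ L₀ = p) (T : TensorForm L₀ (m * p)) (hp : IsPluricanonical m p T)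
    (hT : IsRegular T) (h0 : T ≠ 0) :
    ∃ T' : TensorForm L (m * p), IsPluricanonical m p T' ∧ IsRegular T' ∧ T' ≠ 0 := by
  let _ : Algebra L₀ L := (IntermediateField.inclusion hL).toRingHom.toAlgebra
  have : IsScalarTower ℂ L₀ L :=
    IsScalarTower.of_algebraMap_eq fun c => ((IntermediateField.inclusion hL).commutes c).symm
  exact Pool.Agent.Work.CI.exists_pull htr T hp hT h0

/-- the transcendence degree of an algebraic extension -/
theorem RelForm.trdeg_eq (L₀ L : IntermediateField ℂ K) (hL : L₀ ≤ L)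
    (halg : ∀ y ∈ L, IsAlgebraic L₀ y) : Algebra.trdeg ℂ L = Algebra.trdeg ℂ L₀ := by
  let _ : Algebra L₀ L := (IntermediateField.inclusion hL).toRingHom.toAlgebra
  have : IsScalarTower ℂ L₀ L :=
    IsScalarTower.of_algebraMap_eq fun c => ((IntermediateField.inclusion hL).commutes c).symm
  have : IsScalarTower L₀ L K := IsScalarTower.of_algebraMap_eq fun c => rfl
  have : Algebra.IsAlgebraic L₀ L := by
    refine ⟨fun y => ?_⟩
    have h1 := halg y.1 y.2
    have h2 : algebraMap L K y = y.1 := rfl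
    rw [← h2] at h1
    exact (isAlgebraic_algebraMap_iff (algebraMap L K).injective).1 h1
  have : FaithfulSMul L₀ L :=
    (faithfulSMul_iff_algebraMap_injective L₀ L).2 (algebraMap L₀ L).injective
  have h3 := _root_.trdeg_add_eq ℂ L₀ (A := L)
  rw [_root_.trdeg_eq_zero (R := L₀) (A := L), add_zero] at h3
  exact h3.symm

/-- the algebraic closure of a subfield in `K` -/
theorem RelForm.exists_algClos (L₀ : IntermediateField ℂ K) :
    ∃ L : IntermediateField ℂ K, L₀ ≤ L ∧ (∀ y ∈ L, IsAlgebraic L₀ y) ∧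
      (∀ y : K, IsAlgebraic L₀ y → y ∈ L) ∧ (∀ y : K, IsAlgebraic L y → y ∈ L) ∧
      Algebra.trdeg ℂ L = Algebra.trdeg ℂ L₀ := by
  let M : IntermediateField L₀ K := algebraicClosure L₀ K
  let L : IntermediateField ℂ K := M.restrictScalars ℂ
  have hmem : ∀ y : K, y ∈ L ↔ IsAlgebraic L₀ y := by
    intro y
    change y ∈ M ↔ _
    exact mem_algebraicClosure_iff
  have hL : L₀ ≤ L := by
    intro y hy
    rw [hmem]
    exact isAlgebraic_algebraMap (⟨y, hy⟩ : L₀)
  refine ⟨L, hL, fun y hy => (hmem y).1 hy, fun y hy => (hmem y).2 hy, fun y hy => ?_,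
    RelForm.trdeg_eq L₀ L hL fun y hy => (hmem y).1 hy⟩
  rw [hmem]
  have h1 : IsAlgebraic M y := hy
  have : Algebra.IsAlgebraic L₀ M := inferInstance
  exact h1.restrictScalars L₀

end Pool.Agent.Work.WRC
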