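import Mathlib
import Pool.Agent.Work.MP_4329d7_ag_wrc.RelDefs
import Pool.Agent.Work.MP_4329d7_ag_wrc.Spl
import Pool.Agent.Work.MP_4329d7_ag_ci.Pull
import Pool.Agent.Work.MP_4329d7_ag_ci.SubEss

/-!
W-RC, relative version, piece (R8), part of helper85: `subF` in the splitting.

* `splR`: `spl` with the extra output `x' = fun i => mon x (X i)`, `X` linearly independent;
* `splx`: `spl` with the extra output about `subF` wanted by `RelMain`;
* `subF_lift`: the image of `subF (xB x') χ` in `K` is `subF x χ''`, `χ''` independent;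
* `Indep2R.congr`, `AIPairR.congr`, `PRCR.congr`: change of the base field `A` by an isomorphism;
* `mrc_lift`: the conclusion of `mrc_ind` for the base gives the one for `K`.
-/

namespace Pool.Agent.Work.WRC

open Polynomial Pool.Agent.Work.Uni Pool.Agent.Work.CI Pool.Agent.Work.CW
  Pool.Agent.Work.MP_4329d7_ag.FF

/-- **Product form**, with the new coordinates as monomials in the old ones. -/
theorem splR {Q : Type} [Fintype Q] {d n : ℕ} {K : Type} [Field K] [Algebra ℂ K]
    {x : Fin d → K} {f : Q → Lau d} {ι : Type} [Fintype ι] (D : Data K n d Q x f)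
    (nd : Nondegenerate f) {b : ι → Fin d → ℤ} (hg : Good x f b) (hrank : RankB x f b)
    (hspan : SpanInj x f b) :
    ∃ (nB dB r : ℕ) (B Q' : Type) (_ : Fintype B) (_ : Fintype Q') (x' : Fin (dB + r) → K)
      (f' : B ⊕ Q' → Lau (dB + r)) (b' : ι → Fin r → ℤ),
      Tot n dB r B Q' x' f' ∧ dB < d ∧ nB + Fintype.card B = dB ∧
      Algebra.trdeg ℂ (KBf x') = nB ∧ KBf x' = KB x b ∧
      Good x' f' (fun i => fibv (b' i)) ∧ SpanInj x' f' (fun i => fibv (b' i)) ∧
      RankB x' f' (fun i => fibv (b' i)) ∧ (KHd f b → KHc f') ∧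
      (∀ q : Q', 0 < dg f' (fun i => fibv (b' i)) (Sum.inr q)) ∧
      (∀ c : Fin r → ℤ, (∀ i, ∑ j, c j * b' i j = 0) → c = 0) ∧
      ∃ X : Fin (dB + r) → Fin d → ℤ, LinearIndependent ℤ X ∧ x' = fun i => mon x (X i) := by
  classical
  obtain ⟨dB, r, X, W, h, h0, hsp⟩ := spl_exists_umod b
  let B : Type := {q : Q // dg f b q = 0}
  let Q' : Type := {q : Q // ¬ dg f b q = 0}
  let e : B ⊕ Q' ≃ Q := Equiv.sumCompl fun q => dg f b q = 0
  have hel : ∀ q : B, e (Sum.inl q) = q.1 := fun q => rfl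
  have her : ∀ q : Q', e (Sum.inr q) = q.1 := fun q => rfl
  have hex : ∀ q, ∃ a, a ∈ (f q).support := fun q => Finsupp.support_nonempty_iff.2 (D.nz q)
  choose c hc using hex
  let f' : B ⊕ Q' → Lau (dB + r) := h.sys e c f
  let b' : ι → Fin r → ℤ := fun i k => pair (X (Fin.natAdd dB k)) (b i)
  have hbb : ∀ i, (fibv (b' i) : Fin (dB + r) → ℤ) = chgB X (b i) := by
    intro i
    funext j
    unfold fibv
    refine Fin.addCases (fun k => ?_) (fun k => ?_) j
    · rw [Fin.append_left]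
      exact (h0 i k).symm
    · rw [Fin.append_right]
      rfl
  have hbf : (fun i => (fibv (b' i) : Fin (dB + r) → ℤ)) = fun i => chgB X (b i) := funext hbb
  have hD : Data K n (dB + r) (B ⊕ Q') (fun i => mon x (X i)) f' := h.sys_data e c D nd
  have hnd : Nondegenerate f' := h.sys_nondeg e c nd
  have hgood := h.good e c D hg
  have hsi := h.spanInj e c D hspan
  have hrk := h.rankB e c D hg.sum hrank
  rw [← hbf] at hgood hsi hrk
  have hdg : ∀ q, dg f' (fun i => fibv (b' i)) q = dg f b (e q) := by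
    intro q
    rw [hbf]
    exact h.sys_dg e c D.nz b hg.sum q
  have hdgB : ∀ q : B, dg f' (fun i => fibv (b' i)) (Sum.inl q) = 0 := fun q => by
    rw [hdg]; exact q.2
  have hdgQ : ∀ q : Q', 0 < dg f' (fun i => fibv (b' i)) (Sum.inr q) := fun q => by
    rw [hdg]; exact Nat.pos_of_ne_zero q.2
  have hb'sum : ∑ i, (fibv (b' i) : Fin (dB + r) → ℤ) = 0 := hgood.sum
  have hsp' : ∀ c : Fin r → ℤ, (∀ i, ∑ j, c j * b' i j = 0) → c = 0 := hsp
  obtain ⟨nB, hn, htr⟩ := spl_trdeg_base hD b' hb'sum hrk hdgB hdgQ hsp'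
  have hbase : ∀ q : B, ∀ χ ∈ (f' (Sum.inl q)).support, ∀ k : Fin r,
      χ (Fin.natAdd dB k) = 0 := by
    intro q u hu
    have h1 := (dg_eq_zero D.nz hg.sum q.1).1 q.2
    have h2 : quotMap (c q.1) X u ∈ (f q.1).support := (quotLau_mem (hX := h.li)).1 hu
    have h3 : (fun k => u (Fin.natAdd dB k)) = 0 := hsp' _ fun i => by
      have h4 := h1 i _ h2 _ (hc q.1)
      rw [sub_pair, chg_pair_quotMap, ← hbb, spl_pair_fibv] at h4
      linarith
    intro k
    exact congrFun h3 k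
  have hri : ∃ i, b i ≠ 0 := by
    have h1 : 0 < Fintype.card ι := by rw [hg.card]; omega
    obtain ⟨i⟩ := Fintype.card_pos_iff.1 h1
    exact ⟨i, hg.ne i⟩
  have hdlt : dB < d := by
    have h1 := h.card
    by_contra hge
    have hr0 : r = 0 := by omega
    subst hr0
    obtain ⟨i, hi⟩ := hri
    apply hi
    apply h.psh_inj
    rw [chg_psh_zero, ← hbb i]
    funext j
    unfold fibv
    refine Fin.addCases (fun k => ?_) (fun k => k.elim0) j
    rw [Fin.append_left]
    rfl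
  have hKHF : KHd f b → KHc f' := by
    intro hk S hS
    have h1 := hk (S.image Subtype.val) (hS.image _) (by
      intro q hq
      obtain ⟨q', -, rfl⟩ := Finset.mem_image.1 hq
      exact Nat.pos_of_ne_zero q'.2)
    rw [Finset.card_image_of_injective _ Subtype.val_injective] at h1
    refine h1.trans ?_
    let L : (Fin r → ℚ) →ₗ[ℚ] (ι → ℚ) :=
      { toFun := fun v i => ∑ j, v j * (b' i j : ℚ)
        map_add' := fun v w => by
          funext i
          simp [add_mul, Finset.sum_add_distrib]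
        map_smul' := fun a v => by
          funext i
          simp only [Pi.smul_apply, smul_eq_mul, RingHom.id_apply, Finset.mul_sum]
          exact Finset.sum_congr rfl fun j _ => by ring }
    have hL : ∀ v i, L v i = ∑ j, v j * (b' i j : ℚ) := fun _ _ => rfl
    refine le_trans (Submodule.finrank_mono ?_) (Submodule.finrank_map_le L _)
    rw [Submodule.span_le]
    rintro _ ⟨q, hq, χ, hχ, χ', hχ', rfl⟩
    obtain ⟨q', hq', rfl⟩ := Finset.mem_image.1 hq
    obtain ⟨u, rfl⟩ := h.mem_range (c q'.1) χ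
    obtain ⟨u', rfl⟩ := h.mem_range (c q'.1) χ'
    refine ⟨fun j => ((u (Fin.natAdd dB j) - u' (Fin.natAdd dB j) : ℤ) : ℚ),
      Submodule.subset_span ⟨q', hq', u, ?_, u', ?_, rfl⟩, ?_⟩
    · exact (quotLau_mem (hX := h.li)).2 hχ
    · exact (quotLau_mem (hX := h.li)).2 hχ'
    · funext i
      rw [hL, chg_pair_quotMap, chg_pair_quotMap, ← hbb, spl_pair_fibv, spl_pair_fibv]
      push_cast
      rw [add_sub_add_left_eq_sub, ← Finset.sum_sub_distrib]
      exact Finset.sum_congr rfl fun j _ => by ring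
  have hKB : KBf (fun i => mon x (X i)) = KB x b := by
    apply le_antisymm
    · unfold KBf
      rw [IntermediateField.adjoin_le_iff]
      rintro _ ⟨j, rfl⟩
      exact IntermediateField.subset_adjoin ℂ _ ⟨X (Fin.castAdd r j), fun i => h0 i j, rfl⟩
    · unfold KB
      rw [IntermediateField.adjoin_le_iff]
      rintro _ ⟨χ, hχ, rfl⟩
      obtain ⟨u, rfl⟩ := h.mem_range 0 χ
      have h3 : (fun k => u (Fin.natAdd dB k)) = 0 := hsp' _ fun i => by
        have h4 := hχ i
        rw [chg_pair_quotMap, ← hbb, spl_pair_fibv] at h4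
        have h5 : pair (0 : Fin d → ℤ) (b i) = 0 := by simp [pair]
        rw [h5, zero_add] at h4
        exact h4
      have h6 : ∀ k, u (Fin.natAdd dB k) = 0 := fun k => congrFun h3 k
      rw [h.mon_quotMap _ D.ne, mon_zero, one_mul]
      show ∏ j, mon x (X j) ^ u j ∈ _
      rw [Fin.prod_univ_add]
      simp only [h6, zpow_zero, Finset.prod_const_one, mul_one]
      exact prod_mem fun j _ => zpow_mem (IntermediateField.subset_adjoin ℂ
        (Set.range fun j : Fin dB => mon x (X (Fin.castAdd r j))) ⟨j, rfl⟩) _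
  exact ⟨nB, dB, r, B, Q', inferInstance, inferInstance, fun i => mon x (X i), f', b',
    ⟨hD, hnd, hbase⟩, hdlt, hn, htr, hKB, hgood, hsi, hrk, hKHF, hdgQ, hsp', X, h.li, rfl⟩


section congr

variable {A A' K : Type} [Field A] [Algebra ℂ A] [Field A'] [Algebra ℂ A'] [Field K] [Algebra ℂ K]

theorem Indep2R.congr {lam : A →ₐ[ℂ] K} {L : Type} [Field L] [Algebra ℂ L] {p q : K →ₐ[ℂ] L}
    (h : Indep2R lam p q) (e : A' ≃ₐ[ℂ] A) : Indep2R (lam.comp (e : A' →ₐ[ℂ] A)) p q := by
  obtain ⟨h1, J, I, _, _, z, x, hz, hx, hi⟩ := h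
  refine ⟨fun a => h1 (e a), J, I, inferInstance, inferInstance, fun j => e.symm (z j), x,
    e.symm.isTranscendenceBasis hz, ?_, ?_⟩
  · have h2 : (fun j => (lam.comp (e : A' →ₐ[ℂ] A)) (e.symm (z j))) = fun j => lam (z j) := by
      funext j
      change lam (e (e.symm (z j))) = _
      rw [e.apply_symm_apply]
    rw [h2]
    exact hx
  · have h2 : (fun j => p ((lam.comp (e : A' →ₐ[ℂ] A)) (e.symm (z j)))) = fun j => p (lam (z j)) := by
      funext j
      change p (lam (e (e.symm (z j)))) = _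
      rw [e.apply_symm_apply]
    rw [h2]
    exact hi

theorem AIPairR.congr {lam : A →ₐ[ℂ] K} {k : Type} [Field k] [Algebra ℂ k] {i : K →ₐ[ℂ] k}
    {φ : K →ₐ[ℂ] RatFunc k} (h : AIPairR lam i φ) (e : A' ≃ₐ[ℂ] A) :
    AIPairR (lam.comp (e : A' →ₐ[ℂ] A)) i φ := ⟨h.1, h.2.congr e⟩

theorem PRCR.congr {lam : A →ₐ[ℂ] K} (h : PRCR lam) (e : A' ≃ₐ[ℂ] A) :
    PRCR (lam.comp (e : A' →ₐ[ℂ] A)) := by
  obtain ⟨k, _, _, _, i, φ, h1⟩ := h
  exact ⟨k, inferInstance, inferInstance, inferInstance, i, φ, h1.congr e⟩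

end congr

section lift

variable {K : Type} [Field K] [Algebra ℂ K] {d dB r e : ℕ} {x : Fin d → K}
  {X : Fin (dB + r) → Fin d → ℤ}

/-- the characters of the base as characters of the whole torus -/
def liftX (X : Fin (dB + r) → Fin d → ℤ) (χ : Fin e → Fin dB → ℤ) : Fin e → Fin d → ℤ :=
  fun i => ∑ j, χ i j • X (Fin.castAdd r j)

theorem liftX_li (hX : LinearIndependent ℤ X) {χ : Fin e → Fin dB → ℤ}
    (hχ : LinearIndependent ℤ χ) : LinearIndependent ℤ (liftX X χ) := by
  rw [Fintype.linearIndependent_iff] at hχ ⊢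
  intro g hg
  apply hχ g
  have hX' : LinearIndependent ℤ fun j : Fin dB => X (Fin.castAdd r j) :=
    hX.comp _ (Fin.castAdd_injective _ _)
  rw [Fintype.linearIndependent_iff] at hX'
  have h1 : ∑ j, (∑ i, g i * χ i j) • X (Fin.castAdd r j) = 0 := by
    rw [← hg]
    unfold liftX
    simp only [Finset.smul_sum, Finset.sum_smul, mul_smul]
    rw [Finset.sum_comm]
  funext j
  rw [Finset.sum_apply, Pi.zero_apply, ← hX' _ h1 j]
  rfl

theorem subF_lift (hx : ∀ j, x j ≠ 0) (χ : Fin e → Fin dB → ℤ) :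
    (subF (xB fun i => mon x (X i)) χ).map (KBf fun i => mon x (X i)).val =
      subF x (liftX X χ) := by
  unfold subF
  rw [IntermediateField.adjoin_map, ← Set.range_comp]
  congr 2
  funext i
  unfold liftX
  rw [quot_mon_sum hx fun j => X (Fin.castAdd r j)]
  change (KBf fun i => mon x (X i)).val (mon _ _) = _
  unfold mon
  rw [map_prod]
  refine Finset.prod_congr rfl fun j _ => ?_
  rw [map_zpow₀]
  rfl

/-- **Product form**, with the subfields `subF` of the base as subfields `subF` of the whole field. -/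
theorem splx {Q : Type} [Fintype Q] {d n : ℕ} {K : Type} [Field K] [Algebra ℂ K]
    {x : Fin d → K} {f : Q → Lau d} {ι : Type} [Fintype ι] (D : Data K n d Q x f)
    (nd : Nondegenerate f) {b : ι → Fin d → ℤ} (hg : Good x f b) (hrank : RankB x f b)
    (hspan : SpanInj x f b) :
    ∃ (nB dB r : ℕ) (B Q' : Type) (_ : Fintype B) (_ : Fintype Q') (x' : Fin (dB + r) → K)
      (f' : B ⊕ Q' → Lau (dB + r)) (b' : ι → Fin r → ℤ),
      Tot n dB r B Q' x' f' ∧ dB < d ∧ nB + Fintype.card B = dB ∧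
      Algebra.trdeg ℂ (KBf x') = nB ∧ KBf x' = KB x b ∧
      Good x' f' (fun i => fibv (b' i)) ∧ SpanInj x' f' (fun i => fibv (b' i)) ∧
      RankB x' f' (fun i => fibv (b' i)) ∧ (KHd f b → KHc f') ∧
      (∀ q : Q', 0 < dg f' (fun i => fibv (b' i)) (Sum.inr q)) ∧
      (∀ c : Fin r → ℤ, (∀ i, ∑ j, c j * b' i j = 0) → c = 0) ∧
      ∀ (e : ℕ) (χ : Fin e → Fin dB → ℤ), LinearIndependent ℤ χ →
        ∃ χ' : Fin e → Fin d → ℤ, LinearIndependent ℤ χ' ∧
          IntermediateField.lift (subF (xB x') χ) = subF x χ' := by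
  obtain ⟨nB, dB, r, B, Q', i1, i2, x', f', b', h1, h2, h3, h4, h5, h6, h7, h8, h9, h10, h11,
    X, hX, hx'⟩ := splR D nd hg hrank hspan
  refine ⟨nB, dB, r, B, Q', i1, i2, x', f', b', h1, h2, h3, h4, h5, h6, h7, h8, h9, h10, h11,
    fun e χ hχ => ⟨liftX X χ, liftX_li hX hχ, ?_⟩⟩
  clear h1 h3 h4 h5 h6 h7 h8 h9 h10
  subst hx'
  exact subF_lift D.ne χ

/-- the isomorphism of the two fields -/
theorem exists_equiv_lift {L₁ : IntermediateField ℂ K} {L₂ : IntermediateField ℂ L₁}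
    {L₃ : IntermediateField ℂ K} (h : L₂.map L₁.val = L₃) :
    ∃ E : L₃ ≃ₐ[ℂ] L₂, ∀ a : L₃, ((E a : L₁) : K) = (a : K) := by
  subst h
  let E := IntermediateField.equivMap L₂ L₁.val
  refine ⟨E.symm, fun a => ?_⟩
  have h1 : ∀ b : L₂, ((E b : (L₂.map L₁.val : IntermediateField ℂ K)) : K) = ((b : L₁) : K) :=
    fun b => rfl
  have h2 := h1 (E.symm a)
  rw [AlgEquiv.apply_symm_apply] at h2
  exact h2.symm

/-- regular pluricanonical forms and isomorphisms -/
theorem exists_form_equiv {F F' : Type} [Field F] [Algebra ℂ F] [Field F'] [Algebra ℂ F']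
    (E : F ≃ₐ[ℂ] F') {M p : ℕ} (htr : Algebra.trdeg ℂ F = p) (T : TensorForm F (M * p))
    (hp : IsPluricanonical M p T) (hT : IsRegular T) (h0 : T ≠ 0) :
    ∃ T' : TensorForm F' (M * p), IsPluricanonical M p T' ∧ IsRegular T' ∧ T' ≠ 0 := by
  letI : Algebra F F' := E.toRingHom.toAlgebra
  haveI : IsScalarTower ℂ F F' := IsScalarTower.of_algebraMap_eq fun c => (E.commutes c).symm
  exact exists_pull (K := F') htr T hp hT h0

/-- the conclusion of `mrc_ind` for the base gives the one for `K` -/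
theorem mrc_lift (hx : ∀ j, x j ≠ 0) (hX : LinearIndependent ℤ X) (hd : dB ≤ d)
    {x' : Fin (dB + r) → K} (hx' : x' = fun i => mon x (X i)) {χ : Fin e → Fin dB → ℤ}
    (hχ : LinearIndependent ℤ χ) (h : PRCR ((KBf x').val.comp (subF (xB x') χ).val))
    (hform : ∃ (p m : ℕ), Algebra.trdeg ℂ (subF (xB x') χ) = p ∧ 0 < m ∧
        m ≤ 2 * (dB + 1) ^ ((dB + 1) * 2 ^ dB) ∧
        ∃ T : TensorForm (subF (xB x') χ) (m * p), IsPluricanonical m p T ∧ IsRegular T ∧ T ≠ 0) :
    ∃ (e : ℕ) (χ : Fin e → Fin d → ℤ), LinearIndependent ℤ χ ∧ PRCR (subF x χ).val ∧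
      ∃ (p m : ℕ), Algebra.trdeg ℂ (subF x χ) = p ∧ 0 < m ∧
        m ≤ 2 * (d + 1) ^ ((d + 1) * 2 ^ d) ∧
        ∃ T : TensorForm (subF x χ) (m * p), IsPluricanonical m p T ∧ IsRegular T ∧ T ≠ 0 := by
  obtain ⟨p, m, htr, hm, hmB, T, h1, h2, h3⟩ := hform
  have hL : (subF (xB x') χ).map (KBf x').val = subF x (liftX X χ) := by
    rw [hx']
    exact subF_lift hx χ
  obtain ⟨E, hE⟩ := exists_equiv_lift hL
  have htr' : Algebra.trdeg ℂ (subF x (liftX X χ)) = p := by
    rw [← htr]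
    exact E.trdeg_eq
  refine ⟨e, liftX X χ, liftX_li hX hχ, ?_, p, m, htr', hm, hmB.trans ?_,
    exists_form_equiv E.symm htr T h1 h2 h3⟩
  · have h4 := h.congr E
    have h5 : ((KBf x').val.comp (subF (xB x') χ).val).comp (E : _ →ₐ[ℂ] _) =
        (subF x (liftX X χ)).val := AlgHom.ext hE
    rw [h5] at h4
    exact h4
  · refine Nat.mul_le_mul_left 2 ?_
    calc (dB + 1) ^ ((dB + 1) * 2 ^ dB) ≤ (d + 1) ^ ((dB + 1) * 2 ^ dB) :=
          Nat.pow_le_pow_left (by omega) _
      _ ≤ (d + 1) ^ ((d + 1) * 2 ^ d) :=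
          Nat.pow_le_pow_right (by omega)
            (Nat.mul_le_mul (by omega) (Nat.pow_le_pow_right (by omega) hd))

end lift

end Pool.Agent.Work.WRC
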